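import Pool.Agent.Lib_helper25.HIF.DX

/-!
# Project HI, block AA: the action of `GL₂(K)`
-/

namespace Pool.Agent.HI
open NumberField Complex MeasureTheory IsDedekindDomain
open scoped nonZeroDivisors MatrixGroups
open Pool.Agent.HSG (Lat Pr IsInt nI prI DD nm wm dgm dt qP NCl)

variable {K : Type} [Field K] [NumberField K] {s : K →+* ℂ}

theorem aa_ns (w : ℂ) : ((normSq w : ℝ) : ℂ) = w * (starRingEnd ℂ) w := (Complex.mul_conj w).symm

theorem aa_det (s : K →+* ℂ) (g : GL (Fin 2) K) :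
    de s g = s (g 0 0) * s (g 1 1) - s (g 0 1) * s (g 1 0) := by
  rw [de, Matrix.det_fin_two, map_sub, map_mul, map_mul]

theorem de_ne (s : K →+* ℂ) (g : GL (Fin 2) K) : de s g ≠ 0 := by
  rw [de, Ne, map_eq_zero]
  have h := (Matrix.GeneralLinearGroup.det g).ne_zero
  rwa [Matrix.GeneralLinearGroup.val_det_apply] at h

theorem dn_pos (s : K →+* ℂ) (g : GL (Fin 2) K) {p : ℂ × ℝ} (hp : 0 < p.2) : 0 < dn s g p := by
  unfold dn
  by_cases hc : s (g 1 0) = 0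
  · have hd : s (g 1 1) ≠ 0 := by
      intro hd
      apply de_ne s g
      rw [aa_det, hc, hd]
      ring
    rw [hc]
    simp only [zero_mul, zero_add, map_zero, add_zero]
    exact normSq_pos.mpr hd
  · have h1 : 0 < normSq (s (g 1 0)) := normSq_pos.mpr hc
    have h2 := normSq_nonneg (s (g 1 0) * p.1 + s (g 1 1))
    positivity

theorem ac_pos (s : K →+* ℂ) (g : GL (Fin 2) K) {p : ℂ × ℝ} (hp : 0 < p.2) :
    0 < (ac s g p).2 := by
  show 0 < ‖de s g‖ * p.2 / dn s g p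
  have h1 := dn_pos s g hp
  have h2 : 0 < ‖de s g‖ := norm_pos_iff.mpr (de_ne s g)
  positivity

theorem aa_dn (s : K →+* ℂ) (g : GL (Fin 2) K) (p : ℂ × ℝ) : ((dn s g p : ℝ) : ℂ) =
    (s (g 1 0) * p.1 + s (g 1 1)) * (starRingEnd ℂ) (s (g 1 0) * p.1 + s (g 1 1)) +
      s (g 1 0) * (starRingEnd ℂ) (s (g 1 0)) * (p.2 : ℂ) ^ 2 := by
  unfold dn
  push_cast
  rw [aa_ns, aa_ns]

theorem aa_dir {w : ℂ} (hw : w ≠ 0) : dir w * (‖w‖ : ℂ) = w := by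
  rw [dir]
  have : (‖w‖ : ℂ) ≠ 0 := by exact_mod_cast norm_ne_zero_iff.mpr hw
  field_simp

theorem aa_dir1 {w : ℂ} (hw : w ≠ 0) : dir w * (starRingEnd ℂ) (dir w) = 1 := by
  have h : (‖w‖ : ℂ) ≠ 0 := by exact_mod_cast norm_ne_zero_iff.mpr hw
  rw [dir, map_div₀, Complex.conj_ofReal]
  have h2 : w * (starRingEnd ℂ) w = (‖w‖ : ℂ) ^ 2 := by
    rw [Complex.mul_conj, Complex.normSq_eq_norm_sq]
    push_cast
    rfl
  field_simp
  exact h2

theorem aa_dirmul (w w' : ℂ) : dir (w * w') = dir w * dir w' := by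
  rw [dir, dir, dir, norm_mul]
  push_cast
  rw [mul_div_mul_comm]

theorem aa_y (s : K →+* ℂ) (g : GL (Fin 2) K) {p : ℂ × ℝ} (hp : 0 < p.2) :
    (((ac s g p).2 : ℝ) : ℂ) * dir (de s g) * ((dn s g p : ℝ) : ℂ) = de s g * (p.2 : ℂ) := by
  have h1 : ((dn s g p : ℝ) : ℂ) ≠ 0 := by exact_mod_cast (dn_pos s g hp).ne'
  have h2 := aa_dir (de_ne s g)
  show ((‖de s g‖ * p.2 / dn s g p : ℝ) : ℂ) * dir (de s g) * ((dn s g p : ℝ) : ℂ) = _
  push_cast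
  field_simp
  linear_combination (p.2 : ℂ) * h2

theorem aa_z (s : K →+* ℂ) (g : GL (Fin 2) K) {p : ℂ × ℝ} (hp : 0 < p.2) :
    (ac s g p).1 * ((dn s g p : ℝ) : ℂ) =
      (s (g 0 0) * p.1 + s (g 0 1)) * (starRingEnd ℂ) (s (g 1 0) * p.1 + s (g 1 1)) +
      s (g 0 0) * (starRingEnd ℂ) (s (g 1 0)) * (p.2 : ℂ) ^ 2 := by
  have h1 : ((dn s g p : ℝ) : ℂ) ≠ 0 := by exact_mod_cast (dn_pos s g hp).ne'
  show _ / ((dn s g p : ℝ) : ℂ) * ((dn s g p : ℝ) : ℂ) = _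
  rw [div_mul_cancel₀ _ h1]
  push_cast
  rfl

/-- first identity -/
theorem aa_I1 (s : K →+* ℂ) (g : GL (Fin 2) K) {p : ℂ × ℝ} (hp : 0 < p.2) :
    (ac s g p).1 * (s (g 1 0) * p.1 + s (g 1 1)) -
      (((ac s g p).2 : ℝ) : ℂ) * dir (de s g) * (starRingEnd ℂ) (s (g 1 0)) * (p.2 : ℂ) =
      s (g 0 0) * p.1 + s (g 0 1) := by
  have h1 : ((dn s g p : ℝ) : ℂ) ≠ 0 := by exact_mod_cast (dn_pos s g hp).ne'
  have h2 := aa_y s g hp
  have h3 := aa_z s g hp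
  have h4 := aa_dn s g p
  have h5 := aa_det s g
  apply mul_right_cancel₀ h1
  simp only [map_add, map_mul] at *
  linear_combination (s (g 1 0) * p.1 + s (g 1 1)) * h3 -
    (starRingEnd ℂ) (s (g 1 0)) * (p.2 : ℂ) * h2 - (s (g 0 0) * p.1 + s (g 0 1)) * h4 -
    (starRingEnd ℂ) (s (g 1 0)) * (p.2 : ℂ) ^ 2 * h5

/-- second identity -/
theorem aa_I2 (s : K →+* ℂ) (g : GL (Fin 2) K) {p : ℂ × ℝ} (hp : 0 < p.2) :
    (ac s g p).1 * (s (g 1 0) * (p.2 : ℂ)) +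
      (((ac s g p).2 : ℝ) : ℂ) * dir (de s g) *
        (starRingEnd ℂ) (s (g 1 0) * p.1 + s (g 1 1)) = s (g 0 0) * (p.2 : ℂ) := by
  have h1 : ((dn s g p : ℝ) : ℂ) ≠ 0 := by exact_mod_cast (dn_pos s g hp).ne'
  have h2 := aa_y s g hp
  have h3 := aa_z s g hp
  have h4 := aa_dn s g p
  have h5 := aa_det s g
  apply mul_right_cancel₀ h1
  simp only [map_add, map_mul] at *
  linear_combination (s (g 1 0) * (p.2 : ℂ)) * h3 +
    ((starRingEnd ℂ) (s (g 1 0)) * (starRingEnd ℂ) p.1 + (starRingEnd ℂ) (s (g 1 1))) * h2 -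
    (s (g 0 0) * (p.2 : ℂ)) * h4 +
    ((starRingEnd ℂ) (s (g 1 0)) * (starRingEnd ℂ) p.1 + (starRingEnd ℂ) (s (g 1 1))) *
      (p.2 : ℂ) * h5

theorem aa_e (s : K →+* ℂ) (g h : GL (Fin 2) K) (i j : Fin 2) :
    s ((g * h) i j) = s (g i 0) * s (h 0 j) + s (g i 1) * s (h 1 j) := by
  rw [Matrix.GeneralLinearGroup.coe_mul, Matrix.mul_apply, Fin.sum_univ_two, map_add, map_mul,
    map_mul]

theorem aa_demul (s : K →+* ℂ) (g h : GL (Fin 2) K) : de s (g * h) = de s g * de s h := by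
  rw [de, Matrix.GeneralLinearGroup.coe_mul, Matrix.det_mul, map_mul, de, de]

theorem aa_r1 (s : K →+* ℂ) (g h : GL (Fin 2) K) {p : ℂ × ℝ} (hp : 0 < p.2) (i : Fin 2) :
    s ((g * h) i 0) * p.1 + s ((g * h) i 1) =
      (s (g i 0) * (ac s h p).1 + s (g i 1)) * (s (h 1 0) * p.1 + s (h 1 1)) -
        s (g i 0) * (((ac s h p).2 : ℝ) : ℂ) * dir (de s h) *
          ((starRingEnd ℂ) (s (h 1 0)) * (p.2 : ℂ)) := by
  have h1 := aa_I1 s h hp
  rw [aa_e, aa_e]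
  linear_combination -s (g i 0) * h1

theorem aa_r2 (s : K →+* ℂ) (g h : GL (Fin 2) K) {p : ℂ × ℝ} (hp : 0 < p.2) (i : Fin 2) :
    s ((g * h) i 0) * (p.2 : ℂ) =
      (s (g i 0) * (ac s h p).1 + s (g i 1)) * (s (h 1 0) * (p.2 : ℂ)) +
        s (g i 0) * (((ac s h p).2 : ℝ) : ℂ) * dir (de s h) *
          (starRingEnd ℂ) (s (h 1 0) * p.1 + s (h 1 1)) := by
  have h1 := aa_I2 s h hp
  rw [aa_e]
  linear_combination -s (g i 0) * h1

theorem aa_in (s : K →+* ℂ) (g h : GL (Fin 2) K) {p : ℂ × ℝ} (hp : 0 < p.2) (i j : Fin 2) :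
    (s ((g * h) i 0) * p.1 + s ((g * h) i 1)) *
        (starRingEnd ℂ) (s ((g * h) j 0) * p.1 + s ((g * h) j 1)) +
      s ((g * h) i 0) * (starRingEnd ℂ) (s ((g * h) j 0)) * (p.2 : ℂ) ^ 2 =
    ((s (g i 0) * (ac s h p).1 + s (g i 1)) *
        (starRingEnd ℂ) (s (g j 0) * (ac s h p).1 + s (g j 1)) +
      s (g i 0) * (starRingEnd ℂ) (s (g j 0)) * (((ac s h p).2 : ℝ) : ℂ) ^ 2) *
        ((dn s h p : ℝ) : ℂ) := by
  have hi1 := aa_r1 s g h hp i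
  have hi2 := aa_r2 s g h hp i
  have hj1 := congrArg (starRingEnd ℂ) (aa_r1 s g h hp j)
  have hj2 := congrArg (starRingEnd ℂ) (aa_r2 s g h hp j)
  have he := aa_dir1 (de_ne s h)
  have hN := aa_dn s h p
  simp only [map_add, map_mul, map_sub, Complex.conj_conj, Complex.conj_ofReal] at *
  have e1 : ∀ x y z w : ℂ, x * y + z * w * (p.2 : ℂ) ^ 2 = x * y + (z * (p.2 : ℂ)) * (w * (p.2 : ℂ)) := by
    intro x y z w
    ring
  rw [e1, hi1, hi2, hj1, hj2, hN]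
  generalize (starRingEnd ℂ) (dir (de s h)) = e' at *
  generalize dir (de s h) = e at *
  generalize (starRingEnd ℂ) (s (g j 0)) = aj at *
  generalize (starRingEnd ℂ) (s (g j 1)) = bj at *
  generalize (starRingEnd ℂ) (ac s h p).1 = Z' at *
  generalize (ac s h p).1 = Z at *
  generalize (((ac s h p).2 : ℝ) : ℂ) = Y at *
  linear_combination (s (g i 0) * aj * Y ^ 2 * ((s (h 1 0) * p.1 + s (h 1 1)) *
    ((starRingEnd ℂ) (s (h 1 0)) * (starRingEnd ℂ) p.1 + (starRingEnd ℂ) (s (h 1 1))) +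
      s (h 1 0) * (starRingEnd ℂ) (s (h 1 0)) * (p.2 : ℂ) ^ 2)) * he

theorem aa_dnmul (s : K →+* ℂ) (g h : GL (Fin 2) K) {p : ℂ × ℝ} (hp : 0 < p.2) :
    dn s (g * h) p = dn s g (ac s h p) * dn s h p := by
  have h1 := aa_in s g h hp 1 1
  have h2 := aa_dn s (g * h) p
  have h3 := aa_dn s g (ac s h p)
  rw [← h2, ← h3] at h1
  exact_mod_cast h1

theorem ac_mul (s : K →+* ℂ) (g h : GL (Fin 2) K) {p : ℂ × ℝ} (hp : 0 < p.2) :
    ac s (g * h) p = ac s g (ac s h p) := by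
  have hq := ac_pos s h hp
  have hN : ((dn s h p : ℝ) : ℂ) ≠ 0 := by exact_mod_cast (dn_pos s h hp).ne'
  have hN' : ((dn s g (ac s h p) : ℝ) : ℂ) ≠ 0 := by exact_mod_cast (dn_pos s g hq).ne'
  have hN2 : ((dn s (g * h) p : ℝ) : ℂ) ≠ 0 := by exact_mod_cast (dn_pos s (g * h) hp).ne'
  have hd : ((dn s (g * h) p : ℝ) : ℂ) = ((dn s g (ac s h p) : ℝ) : ℂ) * ((dn s h p : ℝ) : ℂ) := by
    rw [aa_dnmul s g h hp]
    push_cast
    rfl
  apply Prod.ext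
  · have h1 := aa_z s (g * h) hp
    have h2 := aa_z s g hq
    have h3 := aa_in s g h hp 0 1
    apply mul_right_cancel₀ hN2
    rw [h1, h3, ← h2, hd]
    ring
  · show ‖de s (g * h)‖ * p.2 / dn s (g * h) p =
      ‖de s g‖ * (‖de s h‖ * p.2 / dn s h p) / dn s g (ac s h p)
    rw [aa_dnmul s g h hp, aa_demul, norm_mul]
    have h1 := (dn_pos s h hp).ne'
    have h2 := (dn_pos s g hq).ne'
    field_simp

theorem kk_mul (s : K →+* ℂ) (g h : GL (Fin 2) K) {p : ℂ × ℝ} (hp : 0 < p.2) (u : ℂ × ℂ) :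
    kk s (g * h) p u = kk s g (ac s h p) (kk s h p u) := by
  have hq := ac_pos s h hp
  have hs1 : ((√(dn s h p) : ℝ) : ℂ) ≠ 0 := by
    exact_mod_cast (Real.sqrt_pos.mpr (dn_pos s h hp)).ne'
  have hs2 : ((√(dn s g (ac s h p)) : ℝ) : ℂ) ≠ 0 := by
    exact_mod_cast (Real.sqrt_pos.mpr (dn_pos s g hq)).ne'
  have hs : ((√(dn s (g * h) p) : ℝ) : ℂ) =
      ((√(dn s g (ac s h p)) : ℝ) : ℂ) * ((√(dn s h p) : ℝ) : ℂ) := by
    rw [aa_dnmul s g h hp, Real.sqrt_mul (dn_pos s g hq).le]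
    push_cast
    rfl
  have h1 := aa_r1 s g h hp 1
  have h2 := aa_r2 s g h hp 1
  have h1c := congrArg (starRingEnd ℂ) h1
  have h2c := congrArg (starRingEnd ℂ) h2
  have he := aa_dir1 (de_ne s h)
  apply Prod.ext
  · show ((s ((g * h) 1 0) * p.1 + s ((g * h) 1 1)) * u.1 + s ((g * h) 1 0) * p.2 * u.2) /
      ((√(dn s (g * h) p) : ℝ) : ℂ) =
      ((s (g 1 0) * (ac s h p).1 + s (g 1 1)) * (((s (h 1 0) * p.1 + s (h 1 1)) * u.1 +
        s (h 1 0) * p.2 * u.2) / ((√(dn s h p) : ℝ) : ℂ)) +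
        s (g 1 0) * (((ac s h p).2 : ℝ) : ℂ) *
        (dir (de s h) * (-((starRingEnd ℂ) (s (h 1 0)) * p.2) * u.1 +
          (starRingEnd ℂ) (s (h 1 0) * p.1 + s (h 1 1)) * u.2) / ((√(dn s h p) : ℝ) : ℂ))) /
        ((√(dn s g (ac s h p)) : ℝ) : ℂ)
    rw [h1, h2, hs]
    field_simp
    ring
  · show dir (de s (g * h)) * (-((starRingEnd ℂ) (s ((g * h) 1 0)) * p.2) * u.1 +
      (starRingEnd ℂ) (s ((g * h) 1 0) * p.1 + s ((g * h) 1 1)) * u.2) /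
      ((√(dn s (g * h) p) : ℝ) : ℂ) =
      dir (de s g) * (-((starRingEnd ℂ) (s (g 1 0)) * (((ac s h p).2 : ℝ) : ℂ)) *
        (((s (h 1 0) * p.1 + s (h 1 1)) * u.1 +
        s (h 1 0) * p.2 * u.2) / ((√(dn s h p) : ℝ) : ℂ)) +
        (starRingEnd ℂ) (s (g 1 0) * (ac s h p).1 + s (g 1 1)) *
        (dir (de s h) * (-((starRingEnd ℂ) (s (h 1 0)) * p.2) * u.1 +
          (starRingEnd ℂ) (s (h 1 0) * p.1 + s (h 1 1)) * u.2) / ((√(dn s h p) : ℝ) : ℂ))) /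
        ((√(dn s g (ac s h p)) : ℝ) : ℂ)
    rw [aa_demul, aa_dirmul, hs]
    simp only [map_add, map_mul, map_sub, Complex.conj_conj, Complex.conj_ofReal] at h1c h2c ⊢
    rw [h1c, h2c]
    field_simp
    generalize (starRingEnd ℂ) (dir (de s h)) = e' at *
    generalize dir (de s h) = e at *
    linear_combination (-(dir (de s g) * (starRingEnd ℂ) (s (g 1 0)) *
      (((ac s h p).2 : ℝ) : ℂ)) *
      ((s (h 1 0) * p.1 + s (h 1 1)) * u.1 + s (h 1 0) * p.2 * u.2)) * he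

theorem nu_kk (s : K →+* ℂ) (g : GL (Fin 2) K) {p : ℂ × ℝ} (hp : 0 < p.2) (u : ℂ × ℂ) :
    nu (kk s g p u) = nu u := by
  have hN0 := dn_pos s g hp
  have hN : ((dn s g p : ℝ) : ℂ) ≠ 0 := by exact_mod_cast hN0.ne'
  have he := aa_dir1 (de_ne s g)
  have hd := aa_dn s g p
  have hsq : ((√(dn s g p) : ℝ) : ℂ) ^ 2 = ((dn s g p : ℝ) : ℂ) := by
    rw [← Complex.ofReal_pow, Real.sq_sqrt hN0.le]
  have h : ((nu (kk s g p u) : ℝ) : ℂ) = ((nu u : ℝ) : ℂ) := by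
    unfold nu
    push_cast
    rw [aa_ns, aa_ns, aa_ns, aa_ns]
    show (((s (g 1 0) * p.1 + s (g 1 1)) * u.1 + s (g 1 0) * p.2 * u.2) /
        ((√(dn s g p) : ℝ) : ℂ)) * (starRingEnd ℂ) (((s (g 1 0) * p.1 + s (g 1 1)) * u.1 +
          s (g 1 0) * p.2 * u.2) / ((√(dn s g p) : ℝ) : ℂ)) +
      (dir (de s g) * (-((starRingEnd ℂ) (s (g 1 0)) * p.2) * u.1 +
      (starRingEnd ℂ) (s (g 1 0) * p.1 + s (g 1 1)) * u.2) / ((√(dn s g p) : ℝ) : ℂ)) *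
      (starRingEnd ℂ) (dir (de s g) * (-((starRingEnd ℂ) (s (g 1 0)) * p.2) * u.1 +
      (starRingEnd ℂ) (s (g 1 0) * p.1 + s (g 1 1)) * u.2) / ((√(dn s g p) : ℝ) : ℂ)) = _
    rw [map_div₀, map_div₀, Complex.conj_ofReal, div_mul_div_comm, div_mul_div_comm, ← sq, hsq,
      ← add_div, div_eq_iff hN, hd]
    simp only [map_add, map_mul, map_neg, Complex.conj_conj, Complex.conj_ofReal] at *
    generalize (starRingEnd ℂ) (dir (de s g)) = e' at *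
    generalize dir (de s g) = e at *
    linear_combination ((-((starRingEnd ℂ) (s (g 1 0)) * p.2) * u.1 +
      ((starRingEnd ℂ) (s (g 1 0)) * (starRingEnd ℂ) p.1 + (starRingEnd ℂ) (s (g 1 1))) * u.2) *
      (-(s (g 1 0) * p.2) * (starRingEnd ℂ) u.1 +
      (s (g 1 0) * p.1 + s (g 1 1)) * (starRingEnd ℂ) u.2)) * he
  exact_mod_cast h

theorem aa_dir_one : dir 1 = 1 := by
  simp [dir]

theorem ac_one (s : K →+* ℂ) (p : ℂ × ℝ) (u : ℂ × ℂ) : ac s 1 p = p ∧ kk s 1 p u = u := by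
  have h1 : dn s (1 : GL (Fin 2) K) p = 1 := by simp [dn]
  have h2 : de s (1 : GL (Fin 2) K) = 1 := by simp [de]
  constructor
  · apply Prod.ext
    · simp [ac, h1, h2]
    · simp [ac, h1, h2]
  · apply Prod.ext
    · simp [kk, h1, h2, aa_dir_one]
    · simp [kk, h1, h2, aa_dir_one]

theorem aa_nm (β : K) : ((nm β : SL(2, K)) : Matrix (Fin 2) (Fin 2) K) =
    !![1, β; 0, 1] := rfl

theorem aa_wm : ((wm K : SL(2, K)) : Matrix (Fin 2) (Fin 2) K) =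
    !![0, -1; 1, 0] := rfl

theorem aa_dgm (t : Kˣ) : ((dgm t : GL (Fin 2) K) : Matrix (Fin 2) (Fin 2) K) =
    !![(t : K), 0; 0, 1] := rfl

theorem ac_nm (s : K →+* ℂ) (β : K) (p : ℂ × ℝ) (u : ℂ × ℂ) :
    ac s (nm β : GL (Fin 2) K) p = (p.1 + s β, p.2) ∧ kk s (nm β : GL (Fin 2) K) p u = u ∧
      de s (nm β : GL (Fin 2) K) = 1 := by
  have h1 : dn s ((nm β : SL(2, K)) : GL (Fin 2) K) p = 1 := by simp [dn, aa_nm]
  have h2 : de s ((nm β : SL(2, K)) : GL (Fin 2) K) = 1 := by simp [de]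
  refine ⟨?_, ?_, h2⟩
  · apply Prod.ext
    · simp [ac, h1, aa_nm]
    · simp [ac, h1, h2]
  · apply Prod.ext
    · simp [kk, h1, aa_nm]
    · simp [kk, h1, h2, aa_dir_one, aa_nm]

theorem ac_wm (s : K →+* ℂ) (p : ℂ × ℝ) (u : ℂ × ℂ) :
    ac s (wm K : GL (Fin 2) K) p = iv p ∧ kk s (wm K : GL (Fin 2) K) p u = ku p u ∧
      de s (wm K : GL (Fin 2) K) = 1 := by
  have h1 : dn s ((wm K : SL(2, K)) : GL (Fin 2) K) p = n3 p := by simp [dn, aa_wm, n3]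
  have h2 : de s ((wm K : SL(2, K)) : GL (Fin 2) K) = 1 := by simp [de]
  refine ⟨?_, ?_, h2⟩
  · apply Prod.ext
    · simp [ac, iv, h1, aa_wm]
    · simp [ac, iv, h1, h2]
  · apply Prod.ext
    · simp [kk, ku, h1, aa_wm]
    · simp [kk, ku, h1, h2, aa_dir_one, aa_wm]

theorem ac_dgm (s : K →+* ℂ) (t : Kˣ) (p : ℂ × ℝ) (u : ℂ × ℂ) :
    ac s (dgm t) p = (s t * p.1, ‖s t‖ * p.2) ∧ kk s (dgm t) p u = (u.1, dir (s t) * u.2) ∧
      de s (dgm t) = s t := by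
  have h1 : dn s (dgm t) p = 1 := by simp [dn, aa_dgm]
  have h2 : de s (dgm t) = s t := by simp [de, aa_dgm, Matrix.det_fin_two]
  refine ⟨?_, ?_, h2⟩
  · apply Prod.ext
    · simp [ac, h1, aa_dgm]
    · simp [ac, h1, h2]
  · apply Prod.ext
    · simp [kk, h1, aa_dgm]
    · simp [kk, h1, h2, aa_dgm]

theorem ac_scal (s : K →+* ℂ) {t : Kˣ} {g : GL (Fin 2) K}
    (hg : (g : Matrix (Fin 2) (Fin 2) K) = Matrix.scalar (Fin 2) (t : K)) (p : ℂ × ℝ)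
    (u : ℂ × ℂ) : ac s g p = p ∧ kk s g p u = (dir (s t) * u.1, dir (s t) * u.2) ∧
      de s g = s t ^ 2 := by
  have e00 : g 0 0 = (t : K) := by rw [hg]; simp
  have e01 : g 0 1 = 0 := by rw [hg]; simp
  have e10 : g 1 0 = 0 := by rw [hg]; simp
  have e11 : g 1 1 = (t : K) := by rw [hg]; simp
  have ht : s (t : K) ≠ 0 := by
    rw [Ne, map_eq_zero]
    exact t.ne_zero
  have hn : ‖s (t : K)‖ ≠ 0 := norm_ne_zero_iff.mpr ht
  have hnc : (‖s (t : K)‖ : ℂ) ≠ 0 := by exact_mod_cast hn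
  have h1 : dn s g p = ‖s (t : K)‖ ^ 2 := by
    rw [dn, e10, e11]
    simp [Complex.normSq_eq_norm_sq]
  have h2 : de s g = s t ^ 2 := by
    rw [aa_det, e00, e01, e10, e11]
    simp [sq]
  have h3 : √(dn s g p) = ‖s (t : K)‖ := by rw [h1, Real.sqrt_sq (norm_nonneg _)]
  have h4 : s (t : K) * (starRingEnd ℂ) (s (t : K)) = (‖s (t : K)‖ : ℂ) ^ 2 := by
    rw [Complex.mul_conj, Complex.normSq_eq_norm_sq]
    push_cast
    rfl
  refine ⟨?_, ?_, h2⟩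
  · apply Prod.ext
    · simp only [ac, h1, e00, e01, e10, e11, map_zero, zero_mul, zero_add, mul_zero, add_zero]
      push_cast
      rw [div_eq_iff (pow_ne_zero 2 hnc)]
      linear_combination p.1 * h4
    · simp only [ac, h1, h2, norm_pow]
      field_simp
  · apply Prod.ext
    · simp only [kk, h3, e10, e11, map_zero, zero_mul, zero_add, add_zero]
      rw [dir]
      ring
    · simp only [kk, h2, h3, e10, e11, map_zero, zero_mul, zero_add, neg_zero]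
      rw [sq, aa_dirmul]
      have h5 : dir (s (t : K)) = s (t : K) / (‖s (t : K)‖ : ℂ) := rfl
      rw [div_eq_iff hnc, h5]
      field_simp
      linear_combination u.2 * h4

end Pool.Agent.HI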