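import Pool.Agent.Lib_helper25.HIF.DX
import Pool.Agent.Lib_helper99.HBF.KB
import Pool.Agent.Lib_helper99.HBF.KH

/-!
# Project HI: block KB, bounds for Bessel functions
-/

namespace Pool.Agent.HI

open Complex MeasureTheory Set Filter Topology
open Pool.Agent.HB (H3 mu Kb Adm Kr)

theorem kb1_adm {q : ℕ} {ν : ℂ} (h : Ad q ν) : Adm ν := by
  rcases h with h | ⟨-, h1, h2⟩
  · exact Or.inl h
  · exact Or.inr ⟨h1, h2⟩

theorem ad_re {q : ℕ} {ν : ℂ} (h : Ad q ν) : |ν.re| < 1 := by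
  rcases h with h | ⟨-, -, h2⟩
  · rw [h]
    simp
  · exact h2

/-- `K_ν` is real for real and for imaginary `ν` -/
theorem kb_conj {q : ℕ} {ν : ℂ} (h : Ad q ν) (x : ℝ) : (starRingEnd ℂ) (Kb ν x) = Kb ν x := by
  rw [Pool.Agent.HB.kb_real (kb1_adm h) x, Complex.conj_ofReal]

theorem kb_neg (ν : ℂ) (x : ℝ) : Kb (-ν) x = Kb ν x := by
  unfold Kb
  congr 1
  funext u
  rw [neg_mul, Complex.cosh_neg]

/-- `∫_0^∞ x e^u exp(-x e^u/8) du = 8 exp(-x/8)` -/
theorem kb1_int {x : ℝ} (hx : 0 < x) :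
    IntegrableOn (fun u : ℝ => x * Real.exp u * Real.exp (-(x * Real.exp u / 8))) (Ioi 0) ∧
    ∫ u in Ioi (0 : ℝ), x * Real.exp u * Real.exp (-(x * Real.exp u / 8)) =
      8 * Real.exp (-(x / 8)) := by
  have hd : ∀ u ∈ Ici (0 : ℝ), HasDerivAt
      (fun u : ℝ => -8 * Real.exp (-(x * Real.exp u / 8)))
      (x * Real.exp u * Real.exp (-(x * Real.exp u / 8))) u := by
    intro u _
    have h1 := (((Real.hasDerivAt_exp u).const_mul x).div_const 8).neg.exp.const_mul (-8)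
    have e : -8 * (Real.exp (-(x * Real.exp u / 8)) * -(x * Real.exp u / 8)) =
        x * Real.exp u * Real.exp (-(x * Real.exp u / 8)) := by ring
    rw [← e]
    exact h1
  have hp : ∀ u ∈ Ioi (0 : ℝ), 0 ≤ x * Real.exp u * Real.exp (-(x * Real.exp u / 8)) :=
    fun u _ => by positivity
  have ht : Tendsto (fun u : ℝ => -8 * Real.exp (-(x * Real.exp u / 8))) atTop (𝓝 0) := by
    have h1 : Tendsto (fun u : ℝ => x * Real.exp u / 8) atTop atTop :=
      (Real.tendsto_exp_atTop.const_mul_atTop hx).atTop_div_const (by norm_num)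
    have h3 := (Real.tendsto_exp_neg_atTop_nhds_zero.comp h1).const_mul (-8)
    rw [mul_zero] at h3
    exact h3
  refine ⟨integrableOn_Ioi_deriv_of_nonneg' hd hp ht, ?_⟩
  rw [integral_Ioi_of_hasDerivAt_of_nonneg' hd hp ht]
  simp

theorem kb1_pow (k : ℕ) {y : ℝ} (hy : 0 ≤ y) :
    y ^ k * Real.exp (-(y / 8)) ≤ (k.factorial : ℝ) * 8 ^ k := by
  have h1 : (y / 8) ^ k ≤ (k.factorial : ℝ) * Real.exp (y / 8) := by
    have := Real.pow_div_factorial_le_exp (y / 8) (by positivity) k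
    rw [div_le_iff₀ (by positivity)] at this
    linarith
  have h2 : y ^ k = 8 ^ k * (y / 8) ^ k := by
    rw [← mul_pow]
    congr 1
    ring
  have h3 : Real.exp (y / 8) * Real.exp (-(y / 8)) = 1 := by
    rw [← Real.exp_add]
    simp
  calc y ^ k * Real.exp (-(y / 8)) = 8 ^ k * (y / 8) ^ k * Real.exp (-(y / 8)) := by rw [← h2]
    _ ≤ 8 ^ k * ((k.factorial : ℝ) * Real.exp (y / 8)) * Real.exp (-(y / 8)) := by gcongr
    _ = (k.factorial : ℝ) * 8 ^ k * (Real.exp (y / 8) * Real.exp (-(y / 8))) := by ring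
    _ = _ := by rw [h3, mul_one]

theorem kb_pow_bd {r : ℕ} (hr : 1 ≤ r) {μ : ℂ} (hμ : |μ.re| ≤ r) : ∃ C : ℝ, 0 ≤ C ∧
    ∀ x : ℝ, 0 < x → x ^ r * ‖Kb μ x‖ ≤ C * Real.exp (-(x / 2)) := by
  obtain ⟨k, rfl⟩ : ∃ k, r = k + 1 := ⟨r - 1, by omega⟩
  set A : ℝ := (k.factorial : ℝ) * 8 ^ k with hA
  have hA0 : 0 ≤ A := by positivity
  refine ⟨A * 8, by positivity, fun x hx => ?_⟩
  obtain ⟨h1, h2⟩ := kb1_int hx
  have h3 : ‖((x ^ (k + 1) : ℝ) : ℂ) * Kb μ x‖ ≤
      ∫ u in Ioi (0 : ℝ), A * Real.exp (-(x / 2)) *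
        (x * Real.exp u * Real.exp (-(x * Real.exp u / 8))) := by
    unfold Kb
    rw [← integral_const_mul]
    apply norm_integral_le_of_norm_le (h1.const_mul _)
    rw [ae_restrict_iff' measurableSet_Ioi]
    refine Eventually.of_forall fun u hu => ?_
    have hu' : (0 : ℝ) < u := hu
    rw [norm_mul, Complex.norm_real, Real.norm_of_nonneg (by positivity)]
    have h4 := Pool.Agent.HB.kb_norm μ x u
    have h5 : Real.cosh (μ.re * u) ≤ Real.exp u ^ (k + 1) := by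
      have h6 : Real.cosh (μ.re * u) ≤ Real.cosh (((k + 1 : ℕ) : ℝ) * u) := by
        rw [Real.cosh_le_cosh, abs_mul, abs_mul]
        apply mul_le_mul_of_nonneg_right _ (abs_nonneg _)
        rw [abs_of_nonneg (by positivity : (0 : ℝ) ≤ ((k + 1 : ℕ) : ℝ))]
        exact hμ
      have h7 : Real.cosh (((k + 1 : ℕ) : ℝ) * u) ≤ Real.exp (((k + 1 : ℕ) : ℝ) * u) := by
        rw [Real.cosh_eq]
        have h8 : Real.exp (-(((k + 1 : ℕ) : ℝ) * u)) ≤ Real.exp (((k + 1 : ℕ) : ℝ) * u) := by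
          apply Real.exp_le_exp.mpr
          have : 0 ≤ ((k + 1 : ℕ) : ℝ) * u := by positivity
          linarith
        linarith
      refine h6.trans (h7.trans ?_)
      rw [Real.exp_nat_mul]
    have h9 : Real.exp (-(x * Real.cosh u)) ≤
        Real.exp (-(x / 2)) * Real.exp (-(x * Real.exp u / 8)) *
          Real.exp (-(x * Real.exp u / 8)) := by
      rw [← Real.exp_add, ← Real.exp_add]
      apply Real.exp_le_exp.mpr
      have h10 := Real.one_le_cosh u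
      have h11 : Real.exp u / 2 ≤ Real.cosh u := by
        rw [Real.cosh_eq]
        have := Real.exp_pos (-u)
        linarith
      nlinarith
    have h12 := kb1_pow k (y := x * Real.exp u) (by positivity)
    have h13 : 0 ≤ x * Real.exp u := by positivity
    calc x ^ (k + 1) * ‖cexp (-((x * Real.cosh u : ℝ) : ℂ)) * Complex.cosh (μ * (u : ℂ))‖
        ≤ x ^ (k + 1) * (Real.exp (-(x * Real.cosh u)) * Real.cosh (μ.re * u)) := by gcongr
      _ ≤ x ^ (k + 1) * ((Real.exp (-(x / 2)) * Real.exp (-(x * Real.exp u / 8)) *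
            Real.exp (-(x * Real.exp u / 8))) * Real.exp u ^ (k + 1)) := by
          have := (Real.cosh_pos (μ.re * u)).le
          gcongr
      _ = (((x * Real.exp u) ^ k * Real.exp (-(x * Real.exp u / 8))) * Real.exp (-(x / 2))) *
            (x * Real.exp u * Real.exp (-(x * Real.exp u / 8))) := by
          rw [mul_pow]
          ring
      _ ≤ (A * Real.exp (-(x / 2))) *
            (x * Real.exp u * Real.exp (-(x * Real.exp u / 8))) := by gcongr
  rw [integral_const_mul, h2, norm_mul, Complex.norm_real,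
    Real.norm_of_nonneg (by positivity)] at h3
  refine h3.trans ?_
  have h4 : Real.exp (-(x / 8)) ≤ 1 := by
    rw [Real.exp_le_one_iff]
    linarith
  calc A * Real.exp (-(x / 2)) * (8 * Real.exp (-(x / 8)))
      ≤ A * Real.exp (-(x / 2)) * (8 * 1) := by gcongr
    _ = A * 8 * Real.exp (-(x / 2)) := by ring

theorem wk_bd {r : ℕ} (hr : 1 ≤ r) {μ : ℂ} (hμ : |μ.re| ≤ r) : ∃ C : ℝ, 0 ≤ C ∧
    ∀ (w : ℂ) (y : ℝ), 0 < y → ‖wk r μ w y‖ ≤ C * Real.exp (-(2 * Real.pi * (‖w‖ * y))) := by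
  obtain ⟨C, hC0, hC⟩ := kb_pow_bd hr hμ
  have hpi := Real.pi_pos
  refine ⟨C * ((4 * Real.pi) ^ r)⁻¹, by positivity, fun w y hy => ?_⟩
  unfold wk
  rw [norm_mul, Complex.norm_real, Real.norm_of_nonneg (by positivity)]
  by_cases hw : w = 0
  · subst hw
    have h1 : ((‖(0 : ℂ)‖ * y) ^ r : ℝ) = 0 := by
      rw [norm_zero, zero_mul]
      exact zero_pow (by omega)
    rw [h1, zero_mul]
    positivity
  · have hw0 : 0 < ‖w‖ := norm_pos_iff.2 hw
    have h1 := hC (4 * Real.pi * (‖w‖ * y)) (by positivity)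
    have h2 : 4 * Real.pi * (‖w‖ * y) / 2 = 2 * Real.pi * (‖w‖ * y) := by ring
    rw [h2, mul_pow] at h1
    have h3 : 0 < (4 * Real.pi) ^ r := by positivity
    calc (‖w‖ * y) ^ r * ‖Kb μ (4 * Real.pi * (‖w‖ * y))‖
        = ((4 * Real.pi) ^ r)⁻¹ * ((4 * Real.pi) ^ r * (‖w‖ * y) ^ r *
            ‖Kb μ (4 * Real.pi * (‖w‖ * y))‖) := by field_simp
      _ ≤ ((4 * Real.pi) ^ r)⁻¹ * (C * Real.exp (-(2 * Real.pi * (‖w‖ * y)))) := by gcongr
      _ = _ := by ring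

theorem wk_cont (r : ℕ) (μ : ℂ) {w : ℂ} (hw : w ≠ 0) : ContinuousOn (wk r μ w) (Ioi 0) := by
  have hw0 : 0 < ‖w‖ := norm_pos_iff.2 hw
  have hpi := Real.pi_pos
  unfold wk
  refine ContinuousOn.mul ?_ ?_
  · apply Continuous.continuousOn
    fun_prop
  · refine (Pool.Agent.HB.kb_cont μ).comp (Continuous.continuousOn (by fun_prop)) ?_
    intro y hy
    have hy' : (0 : ℝ) < y := hy
    show (0 : ℝ) < 4 * Real.pi * (‖w‖ * y)
    positivity

theorem kb_ne {q : ℕ} {ν : ℂ} (h : Ad q ν) : ∃ x : ℝ, 0 < x ∧ Kb ν x ≠ 0 := by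
  obtain ⟨x, hx, h1⟩ := Pool.Agent.HB.kr_ne (kb1_adm h)
  refine ⟨x, hx, fun h2 => h1 ?_⟩
  unfold Kr
  rw [h2, Complex.zero_re]


end Pool.Agent.HI
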