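import Pool.Agent.Lib_helper25.HIF.DX
import Pool.Agent.Lib_helper25.HIF.KB

/-!
# HI, block AB: the Whittaker functions
-/

namespace Pool.Agent.HI
open NumberField Complex MeasureTheory

variable {K : Type} [Field K] [NumberField K] {s : K →+* ℂ}

theorem ab_dir_mul (w t : ℂ) : dir (w * t) = dir w * dir t := by
  unfold dir
  rw [norm_mul, Complex.ofReal_mul, mul_div_mul_comm]

theorem ab_dir_ne {t : ℂ} (ht : t ≠ 0) : dir t ≠ 0 := by
  unfold dir
  have : ((‖t‖ : ℝ) : ℂ) ≠ 0 := by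
    rw [Ne, Complex.ofReal_eq_zero, norm_eq_zero]
    exact ht
  exact div_ne_zero ht this

theorem ab_wk (r : ℕ) (μ w t : ℂ) (y : ℝ) : wk r μ w (‖t‖ * y) = wk r μ (w * t) y := by
  unfold wk
  rw [norm_mul, ← mul_assoc ‖w‖ ‖t‖ y]

theorem wh_hom (q : ℕ) (ν w : ℂ) (y : ℝ) (u : ℂ × ℂ) (l : ℂ) :
    Wh q ν w y (l * u.1, l * u.2) = l ^ (2 * q) * Wh q ν w y u := by
  unfold Wh
  rw [Finset.mul_sum]
  refine Finset.sum_congr rfl fun j hj => ?_
  have hj' : j ≤ 2 * q := by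
    have := Finset.mem_range.1 hj
    omega
  simp only
  rw [mul_pow, mul_pow]
  have h : l ^ (2 * q) = l ^ j * l ^ (2 * q - j) := by
    rw [← pow_add]
    congr 1
    omega
  rw [h]
  ring

theorem wh_dgm (q : ℕ) (ν : ℂ) {t : ℂ} (ht : t ≠ 0) (w : ℂ) (y : ℝ) (u : ℂ × ℂ) :
    Wh q ν w (‖t‖ * y) (u.1, dir t * u.2) = dir t ^ q * Wh q ν (w * t) y u := by
  unfold Wh
  rw [Finset.mul_sum]
  refine Finset.sum_congr rfl fun j hj => ?_
  have hj' : j ≤ 2 * q := by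
    have := Finset.mem_range.1 hj
    omega
  simp only
  rw [mul_pow, ab_wk, ab_dir_mul, mul_zpow]
  have h : dir t ^ (2 * q - j) = dir t ^ q * dir t ^ ((q : ℤ) - (j : ℤ)) := by
    rw [← zpow_natCast, ← zpow_natCast, ← zpow_add₀ (ab_dir_ne ht)]
    congr 1
    push_cast [Nat.cast_sub hj']
    ring
  rw [h]
  ring

theorem ab_e2_add (w z : ℂ) : e2 (w + z) = e2 w * e2 z := by
  unfold e2
  rw [← Complex.exp_add]
  congr 1
  rw [Complex.add_re]
  push_cast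
  ring

theorem fs_hom (s : K →+* ℂ) (q : ℕ) (ν : ℂ) (c : K → ℂ) (p : ℂ × ℝ) (u : ℂ × ℂ) (l : ℂ) :
    fs s q ν c p (l * u.1, l * u.2) = l ^ (2 * q) * fs s q ν c p u := by
  unfold fs
  rw [← tsum_mul_left]
  refine tsum_congr fun ξ => ?_
  rw [wh_hom]
  ring

theorem fs_tr (s : K →+* ℂ) (q : ℕ) (ν : ℂ) (c : K → ℂ) (p : ℂ × ℝ) (u : ℂ × ℂ) (z : ℂ) :
    fs s q ν c (p.1 + z, p.2) u = fs s q ν (fun ξ => c ξ * e2 (s ξ * z)) p u := by
  unfold fs
  refine tsum_congr fun ξ => ?_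
  simp only
  rw [mul_add, ab_e2_add]
  ring

theorem fs_dgm (s : K →+* ℂ) (q : ℕ) (ν : ℂ) (c : K → ℂ) (p : ℂ × ℝ) (u : ℂ × ℂ) (t : Kˣ) :
    fs s q ν c (s t * p.1, ‖s t‖ * p.2) (u.1, dir (s t) * u.2) =
      dir (s t) ^ q * fs s q ν (fun ξ => c (ξ / t)) p u := by
  unfold fs
  rw [← tsum_mul_left]
  have ht : s (t : K) ≠ 0 := by
    rw [Ne, map_eq_zero]
    exact t.ne_zero
  have ht' : (t : K) ≠ 0 := t.ne_zero
  rw [← (Equiv.mulRight₀ (t : K) ht').tsum_eq (fun ξ => dir (s (t : K)) ^ q *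
    (c (ξ / t) * (Wh q ν (s ξ) p.2 u * e2 (s ξ * p.1))))]
  refine tsum_congr fun ξ => ?_
  have e : (Equiv.mulRight₀ (t : K) ht') ξ = ξ * t := rfl
  rw [e]
  simp only
  rw [wh_dgm q ν ht, mul_div_cancel_right₀ _ ht', map_mul, mul_assoc (s ξ) (s (t : K)) p.1]
  ring

theorem ab_dir_conj (w : ℂ) (n : ℤ) : dir ((starRingEnd ℂ) w) ^ n = dir w ^ (-n) := by
  by_cases hw : w = 0
  · rw [hw, map_zero]
    have h0 : dir 0 = 0 := by
      unfold dir
      simp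
    rw [h0]
    by_cases hn : n = 0
    · rw [hn, neg_zero]
    · rw [zero_zpow _ hn, zero_zpow _ (by simpa using hn)]
  · rw [zpow_neg, ← inv_zpow]
    congr 1
    unfold dir
    have h1 : ((‖w‖ : ℝ) : ℂ) ≠ 0 := by
      rw [Ne, Complex.ofReal_eq_zero, norm_eq_zero]
      exact hw
    have h2 : w * (starRingEnd ℂ) w = ((‖w‖ : ℝ) : ℂ) ^ 2 := by
      rw [Complex.mul_conj, Complex.normSq_eq_norm_sq]
      push_cast
      rfl
    rw [RCLike.norm_conj, inv_div, div_eq_div_iff h1 hw, mul_comm _ w, h2, pow_two]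

theorem ab_wk_conj (r : ℕ) (μ w : ℂ) (y : ℝ) :
    wk r (-μ) ((starRingEnd ℂ) w) y = wk r μ w y := by
  unfold wk
  rw [RCLike.norm_conj, kb_neg]

theorem ab_wh_conj (q : ℕ) (ν w : ℂ) (y : ℝ) (u : ℂ × ℂ) :
    Wh q ν w y (u.2, -u.1) = (-1) ^ q * Wh q (-ν) ((starRingEnd ℂ) w) y u := by
  unfold Wh
  rw [Finset.mul_sum, ← Finset.sum_range_reflect]
  refine Finset.sum_congr rfl fun j hj => ?_
  have hj' : j ≤ 2 * q := by
    have := Finset.mem_range.1 hj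
    omega
  have e1 : 2 * q + 1 - 1 - j = 2 * q - j := by omega
  have e2' : 2 * q - (2 * q - j) = j := by omega
  simp only [e1, e2']
  have hc : (2 * q).choose (2 * q - j) = (2 * q).choose j := Nat.choose_symm hj'
  have hz : ((q : ℤ) - ((2 * q - j : ℕ) : ℤ)) = -((q : ℤ) - (j : ℤ)) := by
    push_cast [Nat.cast_sub hj']
    ring
  have hm : (ν + (q : ℂ) - ((2 * q - j : ℕ) : ℂ)) = -(-ν + q - j) := by
    push_cast [Nat.cast_sub hj']
    ring
  rw [hc, hz, ← ab_dir_conj, hm, ← ab_wk_conj (1 + q) (-(-ν + q - j)) w y, neg_neg]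
  have hI : (-I) ^ (2 * q - j) * (-1 : ℂ) ^ j = (-1) ^ q * (-I) ^ j := by
    have h1 : (-I) ^ (2 * q) = (-1 : ℂ) ^ q := by
      rw [pow_mul, neg_sq, Complex.I_sq]
    have h2 : (-I) ^ (2 * q - j) * (-I) ^ j = (-1 : ℂ) ^ q := by
      rw [← pow_add, ← h1]
      congr 1
      omega
    have h3 : (-1 : ℂ) ^ j = (-I) ^ j * (-I) ^ j := by
      rw [← mul_pow]
      congr 1
      rw [neg_mul_neg, Complex.I_mul_I]
    rw [h3, ← mul_assoc, h2]
  have hn : (-u.1) ^ j = (-1) ^ j * u.1 ^ j := by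
    rw [← mul_pow]
    congr 1
    ring
  rw [hn]
  linear_combination (((2 * q).choose j : ℂ) * dir ((starRingEnd ℂ) w) ^ ((q : ℤ) - (j : ℤ)) *
    wk (1 + q) (-ν + q - j) ((starRingEnd ℂ) w) y * (u.1 ^ j * u.2 ^ (2 * q - j))) * hI

theorem fs_conj (q : ℕ) (ν : ℂ) (c : K → ℂ) {τ : K ≃+* K}
    (hτ : ∀ x, s (τ x) = (starRingEnd ℂ) (s x)) (p : ℂ × ℝ) (u : ℂ × ℂ) :
    fs s q ν c ((starRingEnd ℂ) p.1, p.2) (u.2, -u.1) =
      (-1) ^ q * fs s q (-ν) (fun ξ => c (τ ξ)) p u := by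
  have h2 : ∀ x, τ (τ x) = x := by
    intro x
    apply s.injective
    rw [hτ, hτ, Complex.conj_conj]
  unfold fs
  rw [← tsum_mul_left, ← τ.toEquiv.tsum_eq (fun ξ => (-1) ^ q * (c (τ ξ) *
    (Wh q (-ν) (s ξ) p.2 u * e2 (s ξ * p.1))))]
  refine tsum_congr fun ξ => ?_
  simp only [RingEquiv.toEquiv_eq_coe, EquivLike.coe_coe]
  rw [h2, hτ, ab_wh_conj]
  have h3 : e2 ((starRingEnd ℂ) (s ξ) * p.1) = e2 (s ξ * (starRingEnd ℂ) p.1) := by
    unfold e2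
    congr 4
    simp only [Complex.mul_re, Complex.conj_re, Complex.conj_im]
    ring
  rw [h3]
  ring

theorem wh_ne {q : ℕ} {ν : ℂ} (had : Ad q ν) {w : ℂ} (hw : w ≠ 0) :
    ∃ (y : ℝ) (u : ℂ × ℂ), 0 < y ∧ Wh q ν w y u ≠ 0 := by
  obtain ⟨x, hx, hK⟩ := kb_ne had
  have hw' : 0 < ‖w‖ := norm_pos_iff.2 hw
  have hpi := Real.pi_pos
  set y : ℝ := x / (4 * Real.pi * ‖w‖) with hy
  have hy0 : 0 < y := by positivity
  have hyx : 4 * Real.pi * (‖w‖ * y) = x := by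
    rw [hy]
    field_simp
  by_contra hcon
  push Not at hcon
  set P : Polynomial ℂ := ∑ j ∈ Finset.range (2 * q + 1), Polynomial.C (((2 * q).choose j : ℂ) *
    (-I) ^ j * dir w ^ ((q : ℤ) - (j : ℤ)) * wk (1 + q) (ν + q - j) w y) * Polynomial.X ^ j
    with hP
  have h0 : P = 0 := by
    apply Polynomial.funext
    intro z
    have h := hcon y (z, 1) hy0
    unfold Wh at h
    rw [hP, Polynomial.eval_finsetSum, Polynomial.eval_zero, ← h]
    refine Finset.sum_congr rfl fun j _ => ?_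
    simp
  have h1 : P.coeff q = 0 := by rw [h0, Polynomial.coeff_zero]
  rw [hP, Polynomial.finsetSum_coeff, Finset.sum_eq_single q] at h1
  · rw [Polynomial.coeff_C_mul, Polynomial.coeff_X_pow_self, mul_one, sub_self, zpow_zero,
      mul_one] at h1
    have h2 : (((2 * q).choose q : ℕ) : ℂ) ≠ 0 := by
      have : (2 * q).choose q ≠ 0 := (Nat.choose_pos (by omega)).ne'
      exact_mod_cast this
    have h3 : (-I) ^ q ≠ 0 := pow_ne_zero _ (neg_ne_zero.2 Complex.I_ne_zero)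
    have h4 : wk (1 + q) (ν + q - q) w y ≠ 0 := by
      unfold wk
      rw [add_sub_cancel_right, hyx]
      refine mul_ne_zero ?_ hK
      have : 0 < (‖w‖ * y) ^ (1 + q) := by positivity
      exact_mod_cast this.ne'
    exact (mul_ne_zero (mul_ne_zero h2 h3) h4) h1
  · intro j _ hj
    rw [Polynomial.coeff_C_mul, Polynomial.coeff_X_pow, if_neg (Ne.symm hj), mul_zero]
  · intro h
    exact absurd (Finset.mem_range.2 (by omega)) h

end Pool.Agent.HI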