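import Pool.Agent.Lib_helper25.HIF.DX

/-!
# Project HI, block LA: sums over lattices
-/

namespace Pool.Agent.HI
open NumberField Complex MeasureTheory Set Filter Topology
open Pool.Agent.HB (H3 mu Kb Adm)

variable {K : Type} [Field K] [NumberField K] {s : K →+* ℂ}

theorem la_norm (S : IQ s) (φ : K →+* ℂ) (x : K) : ‖φ x‖ = ‖s x‖ := by
  classical
  have card : Fintype.card (K →+* ℂ) = 2 := by
    rw [NumberField.Embeddings.card, S.deg]
  set t : K →+* ℂ := (starRingEnd ℂ).comp s with ht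
  have hne : s ≠ t := by
    intro h
    obtain ⟨x0, hx0⟩ := S.im
    apply hx0
    have h1 : s x0 = (starRingEnd ℂ) (s x0) := congrArg (fun f : K →+* ℂ => f x0) h
    exact Complex.conj_eq_iff_im.1 h1.symm
  have h1 : ({s, t} : Finset (K →+* ℂ)) = Finset.univ :=
    Finset.eq_univ_of_card _ (by rw [Finset.card_pair hne, card])
  have h2 : φ ∈ ({s, t} : Finset (K →+* ℂ)) := by rw [h1]; exact Finset.mem_univ _
  rw [Finset.mem_insert, Finset.mem_singleton] at h2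
  rcases h2 with rfl | rfl
  · rfl
  · rw [ht]
    show ‖(starRingEnd ℂ) (s x)‖ = _
    exact RCLike.norm_conj _

theorem la_int (S : IQ s) {x : 𝓞 K} (hx : x ≠ 0) : 1 ≤ ‖s (x : K)‖ := by
  have h1 := InfinitePlace.prod_eq_abs_norm (x : K)
  have h2 : ∀ w : InfinitePlace K, w (x : K) = ‖s (x : K)‖ := by
    intro w
    rw [← InfinitePlace.norm_embedding_eq w (x : K), la_norm S]
  simp only [h2] at h1
  rw [Finset.prod_pow_eq_pow_sum, InfinitePlace.sum_mult_eq, S.deg] at h1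
  have h3 : (1 : ℝ) ≤ ((|Algebra.norm ℚ (x : K)| : ℚ) : ℝ) := by
    rw [← Algebra.coe_norm_int x]
    have h4 : Algebra.norm ℤ x ≠ 0 := Algebra.norm_ne_zero_iff.2 hx
    have h5 : 1 ≤ |Algebra.norm ℤ x| := Int.one_le_abs h4
    exact_mod_cast h5
  rw [← h1] at h3
  have h6 : 0 ≤ ‖s (x : K)‖ := norm_nonneg _
  nlinarith

theorem lat_inj (S : IQ s) {x : K} (h : s x = 0) : x = 0 := (map_eq_zero s).1 h

theorem lat_low (S : IQ s) (j : HSG.Id K) : ∃ δ : ℝ, 0 < δ ∧ ∀ ξ ∈ j.m, ξ ≠ 0 → δ ≤ ‖s ξ‖ := by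
  obtain ⟨a, ha, h⟩ := FractionalIdeal.isFractional (j : FractionalIdeal (nonZeroDivisors (𝓞 K)) K)
  have ha0 : a ≠ 0 := nonZeroDivisors.ne_zero ha
  have haK : s (a : K) ≠ 0 := by
    rw [Ne, map_eq_zero]
    exact_mod_cast ha0
  refine ⟨‖s (a : K)‖⁻¹, inv_pos.2 (norm_pos_iff.2 haK), fun ξ hξ hξ0 => ?_⟩
  obtain ⟨b, hb⟩ := h ξ hξ
  have hb1 : (b : K) = (a : K) * ξ := by
    rw [Algebra.smul_def] at hb
    exact hb
  have hb0 : b ≠ 0 := by
    rintro rfl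
    have h1 : (a : K) * ξ = 0 := by rw [← hb1]; simp
    rcases mul_eq_zero.1 h1 with h2 | h2
    · exact ha0 (by exact_mod_cast h2)
    · exact hξ0 h2
  have h3 := la_int S hb0
  rw [hb1, map_mul, norm_mul] at h3
  rw [inv_le_iff_one_le_mul₀' (norm_pos_iff.2 haK)]
  exact h3

theorem lat_pow (S : IQ s) (j : HSG.Id K) {a : ℝ} (ha : 2 < a) :
    Summable (fun ξ : K => indicator (j.m : Set K) (fun ξ => (1 + ‖s ξ‖) ^ (-a)) ξ) := by
  classical
  obtain ⟨δ0, hδ0, hlow0⟩ := lat_low S j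
  set δ : ℝ := min δ0 1 with hδ
  have hδp : 0 < δ := lt_min hδ0 one_pos
  have hδ1 : δ ≤ 1 := min_le_right _ _
  have hlow : ∀ ξ ∈ j.m, ξ ≠ 0 → δ ≤ ‖s ξ‖ := fun ξ h1 h2 => (min_le_left _ _).trans (hlow0 ξ h1 h2)
  have hint : Integrable (fun z : ℂ => (1 + ‖z‖) ^ (-a)) := by
    refine integrable_one_add_norm ?_
    rw [Complex.finrank_real_complex]
    exact_mod_cast ha
  set B : K → Set ℂ := fun ξ => Metric.ball (s ξ) (δ / 2) with hB
  have hdisj : ∀ ξ ∈ j.m, ∀ η ∈ j.m, ξ ≠ η → Disjoint (B ξ) (B η) := by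
    intro ξ hξ η hη hne
    refine Metric.ball_disjoint_ball ?_
    have h1 := hlow (ξ - η) (j.m.sub_mem hξ hη) (sub_ne_zero.2 hne)
    rw [map_sub] at h1
    rw [dist_eq_norm]
    linarith
  have hvol : ∀ ξ : K, (volume : Measure ℂ).real (B ξ) = Real.pi * (δ / 2) ^ 2 := by
    intro ξ
    rw [Measure.real, hB]
    simp only
    rw [Complex.volume_ball, ENNReal.toReal_mul, ENNReal.toReal_pow,
      ENNReal.toReal_ofReal (by positivity), mul_comm]
    simp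
  set c : ℝ := Real.pi * (δ / 2) ^ 2 * (3 / 2 : ℝ) ^ (-a) with hc
  have hcp : 0 < c := by positivity
  have hnn : ∀ z : ℂ, 0 ≤ (1 + ‖z‖) ^ (-a) := fun z => by positivity
  have hball : ∀ ξ : K, c * (1 + ‖s ξ‖) ^ (-a) ≤ ∫ z in B ξ, (1 + ‖z‖) ^ (-a) := by
    intro ξ
    have h1 : ∫ z in B ξ, (3 / 2 : ℝ) ^ (-a) * (1 + ‖s ξ‖) ^ (-a) ≤
        ∫ z in B ξ, (1 + ‖z‖) ^ (-a) := by
      refine setIntegral_mono_on ?_ hint.integrableOn Metric.isOpen_ball.measurableSet ?_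
      · exact integrableOn_const (by rw [hB]; exact measure_ball_lt_top.ne)
      · intro z hz
        have h2 : ‖z - s ξ‖ < δ / 2 := by simpa [hB, dist_eq_norm] using hz
        have h3 : ‖z‖ ≤ ‖s ξ‖ + 1 / 2 := by
          calc ‖z‖ = ‖(z - s ξ) + s ξ‖ := by rw [sub_add_cancel]
            _ ≤ ‖z - s ξ‖ + ‖s ξ‖ := norm_add_le _ _
            _ ≤ ‖s ξ‖ + 1 / 2 := by linarith
        have h4 : 1 + ‖z‖ ≤ 3 / 2 * (1 + ‖s ξ‖) := by
          have := norm_nonneg (s ξ)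
          linarith
        rw [← Real.mul_rpow (by norm_num) (by positivity)]
        exact Real.rpow_le_rpow_of_nonpos (by positivity) h4 (by linarith)
    refine le_trans (le_of_eq ?_) h1
    rw [setIntegral_const, hvol, smul_eq_mul, hc]
    ring
  refine summable_of_sum_le (c := c⁻¹ * ∫ z : ℂ, (1 + ‖z‖) ^ (-a)) ?_ ?_
  · intro ξ
    exact indicator_nonneg (fun ξ _ => hnn _) ξ
  · intro T
    have h1 : ∑ ξ ∈ T, indicator (j.m : Set K) (fun ξ => (1 + ‖s ξ‖) ^ (-a)) ξ =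
        ∑ ξ ∈ T.filter (fun ξ => ξ ∈ j.m), (1 + ‖s ξ‖) ^ (-a) := by
      rw [Finset.sum_filter]
      refine Finset.sum_congr rfl fun ξ _ => ?_
      simp only [indicator, SetLike.mem_coe]
    rw [h1, le_inv_mul_iff₀ hcp, Finset.mul_sum]
    calc ∑ ξ ∈ T.filter (fun ξ => ξ ∈ j.m), c * (1 + ‖s ξ‖) ^ (-a)
        ≤ ∑ ξ ∈ T.filter (fun ξ => ξ ∈ j.m), ∫ z in B ξ, (1 + ‖z‖) ^ (-a) :=
          Finset.sum_le_sum fun ξ _ => hball ξ
      _ = ∫ z in ⋃ ξ ∈ T.filter (fun ξ => ξ ∈ j.m), B ξ, (1 + ‖z‖) ^ (-a) := by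
          rw [integral_biUnion_finset]
          · intro ξ _
            exact Metric.isOpen_ball.measurableSet
          · intro ξ hξ η hη hne
            exact hdisj ξ (Finset.mem_filter.1 hξ).2 η (Finset.mem_filter.1 hη).2 hne
          · intro ξ _
            exact hint.integrableOn
      _ ≤ ∫ z : ℂ, (1 + ‖z‖) ^ (-a) :=
          setIntegral_le_integral hint (Eventually.of_forall hnn)

end Pool.Agent.HI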