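import Pool.Agent.Lib_helper25.HIF.DX
import Pool.Agent.Lib_helper25.HIF.KB
import Pool.Agent.Lib_helper25.HIF.LA

/-!
# Project HI: block AC, Fourier series with coefficients of polynomial growth
-/

namespace Pool.Agent.HI
open NumberField Complex MeasureTheory Set Filter Topology
open Pool.Agent.HB (H3 mu Kb Adm)
open Pool.Agent.HI

variable {K : Type} [Field K] [NumberField K] {s : K →+* ℂ}

theorem ac_dir (w : ℂ) (n : ℤ) : ‖dir w ^ n‖ ≤ 1 := by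
  by_cases hw : w = 0
  · subst hw
    have h0 : dir 0 = 0 := by
      unfold dir
      rw [zero_div]
    rw [h0]
    by_cases hn : n = 0
    · rw [hn, zpow_zero, norm_one]
    · rw [zero_zpow n hn, norm_zero]
      exact zero_le_one
  · have h1 : ‖dir w‖ = 1 := by
      unfold dir
      rw [norm_div, norm_real, norm_norm, div_self (norm_ne_zero_iff.2 hw)]
    rw [norm_zpow, h1, one_zpow]

theorem ac_e2 (w : ℂ) : ‖e2 w‖ = 1 := by
  unfold e2
  have : 2 * (Real.pi : ℂ) * I * ((2 * w.re : ℝ) : ℂ) = ((2 * Real.pi * (2 * w.re) : ℝ) : ℂ) * I := by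
    push_cast; ring
  rw [this]
  exact Complex.norm_exp_ofReal_mul_I _

theorem ac_re {q : ℕ} {ν : ℂ} (had : Ad q ν) {j : ℕ} (hj : j ∈ Finset.range (2 * q + 1)) :
    |(ν + q - j : ℂ).re| ≤ ((1 + q : ℕ) : ℝ) := by
  have h1 := ad_re had
  have h2 : (j : ℝ) ≤ 2 * q := by
    have := Finset.mem_range.1 hj
    have h3 : j ≤ 2 * q := by omega
    exact_mod_cast h3
  have h3 : (0 : ℝ) ≤ j := Nat.cast_nonneg j
  have h4 : (ν + q - j : ℂ).re = ν.re + q - j := by simp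
  rw [h4]
  push_cast
  rw [abs_lt] at h1
  rw [abs_le]
  constructor <;> linarith [h1.1, h1.2]

theorem ac_mono {q : ℕ} (u : ℂ × ℂ) {j : ℕ} (hj : j ∈ Finset.range (2 * q + 1)) :
    ‖u.1 ^ j * u.2 ^ (2 * q - j)‖ ≤ nu u ^ q := by
  have h0 : 0 ≤ nu u := add_nonneg (normSq_nonneg _) (normSq_nonneg _)
  have h1 : ‖u.1‖ ≤ √(nu u) := by
    apply Real.le_sqrt_of_sq_le
    rw [← normSq_eq_norm_sq]
    unfold nu
    linarith [normSq_nonneg u.2]
  have h2 : ‖u.2‖ ≤ √(nu u) := by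
    apply Real.le_sqrt_of_sq_le
    rw [← normSq_eq_norm_sq]
    unfold nu
    linarith [normSq_nonneg u.1]
  have h3 : j + (2 * q - j) = 2 * q := by
    have := Finset.mem_range.1 hj
    omega
  rw [norm_mul, norm_pow, norm_pow]
  calc ‖u.1‖ ^ j * ‖u.2‖ ^ (2 * q - j) ≤ √(nu u) ^ j * √(nu u) ^ (2 * q - j) :=
        mul_le_mul (pow_le_pow_left₀ (norm_nonneg _) h1 _) (pow_le_pow_left₀ (norm_nonneg _) h2 _)
          (by positivity) (by positivity)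
    _ = (√(nu u) ^ 2) ^ q := by rw [← pow_add, h3, pow_mul]
    _ = nu u ^ q := by rw [Real.sq_sqrt h0]

/-- a bound for the Whittaker functions -/
theorem ac_wh {q : ℕ} {ν : ℂ} (had : Ad q ν) : ∃ C : ℝ, 0 ≤ C ∧ ∀ (w : ℂ) (y : ℝ) (u : ℂ × ℂ),
    0 < y → ‖Wh q ν w y u‖ ≤ C * nu u ^ q * Real.exp (-(2 * Real.pi * (‖w‖ * y))) := by
  have h1 : ∀ j : ℕ, ∃ C : ℝ, 0 ≤ C ∧ (j ∈ Finset.range (2 * q + 1) → ∀ (w : ℂ) (y : ℝ), 0 < y →
      ‖wk (1 + q) (ν + q - j) w y‖ ≤ C * Real.exp (-(2 * Real.pi * (‖w‖ * y)))) := by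
    intro j
    by_cases hj : j ∈ Finset.range (2 * q + 1)
    · obtain ⟨C, hC, h⟩ := wk_bd (r := 1 + q) (by omega) (ac_re had hj)
      exact ⟨C, hC, fun _ => h⟩
    · exact ⟨0, le_refl _, fun h => absurd h hj⟩
  choose C hC h using h1
  refine ⟨∑ j ∈ Finset.range (2 * q + 1), ((2 * q).choose j : ℝ) * C j,
    Finset.sum_nonneg fun j _ => mul_nonneg (Nat.cast_nonneg _) (hC j), fun w y u hy => ?_⟩
  unfold Wh
  refine (norm_sum_le _ _).trans ?_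
  rw [Finset.sum_mul, Finset.sum_mul]
  refine Finset.sum_le_sum fun j hj => ?_
  have h0 : 0 ≤ nu u := add_nonneg (normSq_nonneg _) (normSq_nonneg _)
  have e1 : ‖((2 * q).choose j : ℂ) * (-I) ^ j‖ = ((2 * q).choose j : ℝ) := by
    rw [norm_mul, norm_pow, norm_neg, norm_I, one_pow, mul_one, Complex.norm_natCast]
  rw [norm_mul, norm_mul, norm_mul, e1]
  have h2 := ac_dir w ((q : ℤ) - (j : ℤ))
  have h3 := h j hj w y hy
  have h4 := ac_mono (q := q) u hj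
  have hE : 0 ≤ Real.exp (-(2 * Real.pi * (‖w‖ * y))) := Real.exp_nonneg _
  calc ((2 * q).choose j : ℝ) * ‖dir w ^ ((q : ℤ) - (j : ℤ))‖ * ‖wk (1 + q) (ν + q - j) w y‖ *
        ‖u.1 ^ j * u.2 ^ (2 * q - j)‖
      ≤ ((2 * q).choose j : ℝ) * 1 * (C j * Real.exp (-(2 * Real.pi * (‖w‖ * y)))) *
        nu u ^ q := by
        refine mul_le_mul ?_ h4 (norm_nonneg _) ?_
        · refine mul_le_mul ?_ h3 (norm_nonneg _) (by positivity)
          exact mul_le_mul_of_nonneg_left h2 (Nat.cast_nonneg _)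
        · have := hC j
          positivity
    _ = _ := by ring

theorem ac_exp (A : ℝ) {a : ℝ} (ha : 0 < a) : ∃ C : ℝ, 0 ≤ C ∧ ∀ x : ℝ, 0 ≤ x →
    (1 + x) ^ A * Real.exp (-(a * x)) ≤ C * (1 + x) ^ (-3 : ℝ) := by
  obtain ⟨m, hm⟩ := exists_nat_ge (A + 3)
  refine ⟨(m.factorial : ℝ) * (a ^ m)⁻¹ * Real.exp a, by positivity, fun x hx => ?_⟩
  have hx1 : 0 < 1 + x := by linarith
  have h1 := Real.pow_div_factorial_le_exp (a * (1 + x)) (by positivity) m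
  have hf : (0 : ℝ) < m.factorial := by exact_mod_cast m.factorial_pos
  rw [div_le_iff₀ hf, mul_pow] at h1
  have h2 : (1 + x) ^ (A + 3) ≤ (1 + x) ^ m := by
    rw [← Real.rpow_natCast]
    exact Real.rpow_le_rpow_of_exponent_le (by linarith) hm
  have h3 : (1 + x) ^ m ≤ (m.factorial : ℝ) * (a ^ m)⁻¹ * Real.exp a * Real.exp (a * x) := by
    have e1 : Real.exp (a * (1 + x)) = Real.exp a * Real.exp (a * x) := by
      rw [← Real.exp_add]; congr 1; ring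
    rw [e1] at h1
    have ham : 0 < a ^ m := by positivity
    have e2 : (m.factorial : ℝ) * (a ^ m)⁻¹ * Real.exp a * Real.exp (a * x) =
        (Real.exp a * Real.exp (a * x) * m.factorial) / a ^ m := by
      field_simp
    rw [e2, le_div_iff₀ ham, mul_comm]
    exact h1
  have e3 : (1 + x) ^ A = (1 + x) ^ (A + 3) * (1 + x) ^ (-3 : ℝ) := by
    rw [← Real.rpow_add hx1]; congr 1; ring
  have e4 : Real.exp (a * x) * Real.exp (-(a * x)) = 1 := by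
    rw [← Real.exp_add, add_neg_cancel, Real.exp_zero]
  have hp3 : 0 ≤ (1 + x) ^ (-3 : ℝ) := Real.rpow_nonneg hx1.le _
  have hE := Real.exp_nonneg (-(a * x))
  calc (1 + x) ^ A * Real.exp (-(a * x))
      = (1 + x) ^ (A + 3) * (Real.exp (-(a * x)) * (1 + x) ^ (-3 : ℝ)) := by rw [e3]; ring
    _ ≤ ((m.factorial : ℝ) * (a ^ m)⁻¹ * Real.exp a * Real.exp (a * x)) *
        (Real.exp (-(a * x)) * (1 + x) ^ (-3 : ℝ)) :=
        mul_le_mul_of_nonneg_right (h2.trans h3) (mul_nonneg hE hp3)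
    _ = (m.factorial : ℝ) * (a ^ m)⁻¹ * Real.exp a * (Real.exp (a * x) * Real.exp (-(a * x))) *
        (1 + x) ^ (-3 : ℝ) := by ring
    _ = _ := by rw [e4, mul_one]

theorem ac_sum (S : IQ s) {j : HSG.Id K} {c : K → ℂ} (hc : GS s j c) {y : ℝ} (hy : 0 < y) :
    Summable (fun ξ : K => ‖c ξ‖ * Real.exp (-(2 * Real.pi * (‖s ξ‖ * y)))) := by
  obtain ⟨C, A, hg⟩ := hc.grow
  have hC : 0 ≤ C := by
    have h1 := (norm_nonneg _).trans (hg 0)
    by_contra hneg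
    push Not at hneg
    have h2 : 0 < (1 + ‖s (0 : K)‖) ^ A := Real.rpow_pos_of_pos (by positivity) _
    nlinarith
  have hpi := Real.pi_pos
  obtain ⟨B, hB, hb⟩ := ac_exp A (a := 2 * Real.pi * y) (by positivity)
  have hs := (lat_pow S j (a := 3) (by norm_num)).mul_left (C * B)
  refine Summable.of_nonneg_of_le (fun ξ => by positivity) (fun ξ => ?_) hs
  by_cases h0 : c ξ = 0
  · rw [h0, norm_zero, zero_mul]
    have hi : 0 ≤ indicator (j.m : Set K) (fun ξ => (1 + ‖s ξ‖) ^ (-3 : ℝ)) ξ :=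
      indicator_nonneg (fun ξ _ => by positivity) ξ
    positivity
  have h1' : ξ ∈ (j.m : Set K) := hc.supp ξ h0
  rw [indicator_of_mem h1']
  have h2 := hb ‖s ξ‖ (norm_nonneg _)
  have e1 : 2 * Real.pi * (‖s ξ‖ * y) = 2 * Real.pi * y * ‖s ξ‖ := by ring
  rw [e1]
  calc ‖c ξ‖ * Real.exp (-(2 * Real.pi * y * ‖s ξ‖))
      ≤ (C * (1 + ‖s ξ‖) ^ A) * Real.exp (-(2 * Real.pi * y * ‖s ξ‖)) :=
        mul_le_mul_of_nonneg_right (hg ξ) (Real.exp_nonneg _)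
    _ = C * ((1 + ‖s ξ‖) ^ A * Real.exp (-(2 * Real.pi * y * ‖s ξ‖))) := by ring
    _ ≤ C * (B * (1 + ‖s ξ‖) ^ (-3 : ℝ)) := mul_le_mul_of_nonneg_left h2 hC
    _ = _ := by ring

theorem gs_summable (S : IQ s) {q : ℕ} {ν : ℂ} (had : Ad q ν) {j : HSG.Id K} {c : K → ℂ}
    (hc : GS s j c) {p : ℂ × ℝ} (hp : 0 < p.2) (u : ℂ × ℂ) :
    Summable (fun ξ => ‖c ξ * (Wh q ν (s ξ) p.2 u * e2 (s ξ * p.1))‖) := by
  obtain ⟨C, hC, h⟩ := ac_wh had
  refine Summable.of_nonneg_of_le (fun ξ => norm_nonneg _) (fun ξ => ?_)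
    ((ac_sum S hc hp).mul_left (C * nu u ^ q))
  rw [norm_mul, norm_mul, ac_e2, mul_one]
  calc ‖c ξ‖ * ‖Wh q ν (s ξ) p.2 u‖
      ≤ ‖c ξ‖ * (C * nu u ^ q * Real.exp (-(2 * Real.pi * (‖s ξ‖ * p.2)))) :=
        mul_le_mul_of_nonneg_left (h _ _ _ hp) (norm_nonneg _)
    _ = _ := by ring

theorem ac_term (S : IQ s) {q : ℕ} {ν : ℂ} {c : K → ℂ} (h0 : c 0 = 0) (ξ : K) :
    ContinuousOn (fun x : (ℂ × ℝ) × (ℂ × ℂ) =>
      c ξ * (Wh q ν (s ξ) x.1.2 x.2 * e2 (s ξ * x.1.1))) {x | 0 < x.1.2} := by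
  by_cases hs : s ξ = 0
  · have h1 := lat_inj S hs
    simp only [h1, h0, zero_mul]
    exact continuousOn_const
  · unfold Wh
    have h2 : Continuous (fun x : (ℂ × ℝ) × (ℂ × ℂ) => e2 (s ξ * x.1.1)) := by
      unfold e2
      fun_prop
    refine continuousOn_const.mul (ContinuousOn.mul ?_ h2.continuousOn)
    refine continuousOn_finsetSum _ fun j _ => ?_
    have h3 : ContinuousOn (fun x : (ℂ × ℝ) × (ℂ × ℂ) => wk (1 + q) (ν + q - j) (s ξ) x.1.2)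
        {x | 0 < x.1.2} :=
      (wk_cont (1 + q) (ν + q - j) hs).comp (by fun_prop) (fun x hx => hx)
    exact (continuousOn_const.mul h3).mul (by fun_prop)

theorem gs_cont (S : IQ s) {q : ℕ} {ν : ℂ} (had : Ad q ν) {j : HSG.Id K} {c : K → ℂ}
    (hc : GS s j c) :
    ContinuousOn (fun x : (ℂ × ℝ) × (ℂ × ℂ) => fs s q ν c x.1 x.2) {x | 0 < x.1.2} := by
  obtain ⟨C, hC, h⟩ := ac_wh had
  intro x₀ hx₀
  have hx₀' : 0 < x₀.1.2 := hx₀
  have hy : 0 < x₀.1.2 / 2 := by linarith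
  have hnu : Continuous (fun x : (ℂ × ℝ) × (ℂ × ℂ) => nu x.2) := by
    unfold nu
    have h1 : Continuous (fun z : ℂ => normSq z) := Complex.continuous_normSq
    exact (h1.comp (by fun_prop)).add (h1.comp (by fun_prop))
  set U : Set ((ℂ × ℝ) × (ℂ × ℂ)) := {x | x₀.1.2 / 2 < x.1.2} ∩ {x | nu x.2 < nu x₀.2 + 1} with hU
  have ho : IsOpen U := (isOpen_lt continuous_const (by fun_prop)).inter
    (isOpen_lt hnu continuous_const)
  have hsub : U ⊆ {x | 0 < x.1.2} := fun x hx => hy.trans hx.1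
  have hc1 : ContinuousOn (fun x : (ℂ × ℝ) × (ℂ × ℂ) =>
      ∑' ξ : K, c ξ * (Wh q ν (s ξ) x.1.2 x.2 * e2 (s ξ * x.1.1))) U := by
    refine continuousOn_tsum (fun ξ => (ac_term S hc.zero ξ).mono hsub)
      ((ac_sum S hc hy).mul_left (C * (nu x₀.2 + 1) ^ q)) (fun ξ x hx => ?_)
    have hx2 : x₀.1.2 / 2 < x.1.2 := hx.1
    have hx3 : nu x.2 < nu x₀.2 + 1 := hx.2
    have h0 : 0 ≤ nu x.2 := add_nonneg (normSq_nonneg _) (normSq_nonneg _)
    rw [norm_mul, norm_mul, ac_e2, mul_one]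
    have h1 : Real.exp (-(2 * Real.pi * (‖s ξ‖ * x.1.2))) ≤
        Real.exp (-(2 * Real.pi * (‖s ξ‖ * (x₀.1.2 / 2)))) := by
      apply Real.exp_le_exp.2
      have := mul_le_mul_of_nonneg_left hx2.le (norm_nonneg (s ξ))
      have hpi := Real.pi_pos
      nlinarith
    have h2 : nu x.2 ^ q ≤ (nu x₀.2 + 1) ^ q := pow_le_pow_left₀ h0 hx3.le q
    calc ‖c ξ‖ * ‖Wh q ν (s ξ) x.1.2 x.2‖
        ≤ ‖c ξ‖ * (C * nu x.2 ^ q * Real.exp (-(2 * Real.pi * (‖s ξ‖ * x.1.2)))) :=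
          mul_le_mul_of_nonneg_left (h _ _ _ (hsub hx)) (norm_nonneg _)
      _ ≤ ‖c ξ‖ * (C * (nu x₀.2 + 1) ^ q *
          Real.exp (-(2 * Real.pi * (‖s ξ‖ * (x₀.1.2 / 2))))) := by
          refine mul_le_mul_of_nonneg_left ?_ (norm_nonneg _)
          refine mul_le_mul (mul_le_mul_of_nonneg_left h2 hC) h1 (Real.exp_nonneg _) ?_
          have : 0 ≤ nu x₀.2 + 1 := h0.trans hx3.le
          positivity
      _ = _ := by ring
  have hmem : x₀ ∈ U := ⟨by show x₀.1.2 / 2 < x₀.1.2; linarith,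
    by show nu x₀.2 < nu x₀.2 + 1; linarith⟩
  exact (hc1.continuousAt (ho.mem_nhds hmem)).continuousWithinAt

theorem gs_mono {j j' : HSG.Id K} (h : ∀ ξ ∈ j.m, ξ ∈ j'.m) {c : K → ℂ} (hc : GS s j c) :
    GS s j' c :=
  ⟨hc.zero, fun ξ hξ => h ξ (hc.supp ξ hξ), hc.grow⟩

theorem ac_grow {j : HSG.Id K} {c : K → ℂ} (hc : GS s j c) : ∃ C A : ℝ, 0 ≤ C ∧
    ∀ ξ, ‖c ξ‖ ≤ C * (1 + ‖s ξ‖) ^ A := by
  obtain ⟨C, A, hg⟩ := hc.grow
  refine ⟨|C|, A, abs_nonneg _, fun ξ => (hg ξ).trans ?_⟩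
  exact mul_le_mul_of_nonneg_right (le_abs_self C) (Real.rpow_nonneg (by positivity) _)

theorem gs_sub (S : IQ s) {q : ℕ} {ν : ℂ} (had : Ad q ν) {j : HSG.Id K} {c c' : K → ℂ}
    (hc : GS s j c) (hc' : GS s j c') (a a' : ℂ) :
    GS s j (fun ξ => a * c ξ + a' * c' ξ) ∧ ∀ (p : ℂ × ℝ) (u : ℂ × ℂ), 0 < p.2 →
      fs s q ν (fun ξ => a * c ξ + a' * c' ξ) p u = a * fs s q ν c p u + a' * fs s q ν c' p u := by
  refine ⟨⟨?_, ?_, ?_⟩, ?_⟩
  · simp only [hc.zero, hc'.zero, mul_zero, add_zero]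
  · intro ξ hξ
    by_cases h1 : c ξ = 0
    · by_cases h2 : c' ξ = 0
      · exact absurd (by simp only [h1, h2, mul_zero, add_zero]) hξ
      · exact hc'.supp ξ h2
    · exact hc.supp ξ h1
  · obtain ⟨C, A, hC, h⟩ := ac_grow hc
    obtain ⟨C', A', hC', h'⟩ := ac_grow hc'
    refine ⟨‖a‖ * C + ‖a'‖ * C', max A A', fun ξ => ?_⟩
    have h1 : (1 : ℝ) ≤ 1 + ‖s ξ‖ := by linarith [norm_nonneg (s ξ)]
    have h2 : (1 + ‖s ξ‖) ^ A ≤ (1 + ‖s ξ‖) ^ (max A A') :=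
      Real.rpow_le_rpow_of_exponent_le h1 (le_max_left _ _)
    have h3 : (1 + ‖s ξ‖) ^ A' ≤ (1 + ‖s ξ‖) ^ (max A A') :=
      Real.rpow_le_rpow_of_exponent_le h1 (le_max_right _ _)
    calc ‖a * c ξ + a' * c' ξ‖ ≤ ‖a‖ * ‖c ξ‖ + ‖a'‖ * ‖c' ξ‖ := by
          refine (norm_add_le _ _).trans ?_
          rw [norm_mul, norm_mul]
      _ ≤ ‖a‖ * (C * (1 + ‖s ξ‖) ^ (max A A')) + ‖a'‖ * (C' * (1 + ‖s ξ‖) ^ (max A A')) := by
          refine add_le_add ?_ ?_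
          · exact mul_le_mul_of_nonneg_left ((h ξ).trans (mul_le_mul_of_nonneg_left h2 hC))
              (norm_nonneg _)
          · exact mul_le_mul_of_nonneg_left ((h' ξ).trans (mul_le_mul_of_nonneg_left h3 hC'))
              (norm_nonneg _)
      _ = _ := by ring
  · intro p u hp
    have h1 := (gs_summable S had hc hp u).of_norm
    have h2 := (gs_summable S had hc' hp u).of_norm
    unfold fs
    rw [← tsum_mul_left, ← tsum_mul_left, ← (h1.mul_left a).tsum_add (h2.mul_left a')]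
    exact tsum_congr fun ξ => by ring

end Pool.Agent.HI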