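import Pool.Agent.Lib_helper25.HIF.DX
import Pool.Agent.Lib_helper84.HSGF.GA3
import Pool.Agent.Lib_helper84.HSGF.GD1

/-! # Project HI, block AD: fundamental domains of lattices in `ℂ` -/

namespace Pool.Agent.HI
open NumberField Complex MeasureTheory IsDedekindDomain
open scoped nonZeroDivisors MatrixGroups
open Pool.Agent.HSG (IsInt nI prI DD nI_pos gd1_DD_val)

variable {K : Type} [Field K] [NumberField K] {s : K →+* ℂ}

/-- the two embeddings of an imaginary quadratic field -/
noncomputable def ad_emb (s : K →+* ℂ) (i : Fin 2) : K →ₐ[ℚ] ℂ :=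
  if i = 0 then s.toRatAlgHom else ((starRingEnd ℂ).comp s).toRatAlgHom

theorem ad_emb0 (s : K →+* ℂ) (x : K) : ad_emb s 0 x = s x := by
  unfold ad_emb
  rw [if_pos rfl]
  rfl

theorem ad_emb1 (s : K →+* ℂ) (x : K) : ad_emb s 1 x = (starRingEnd ℂ) (s x) := by
  unfold ad_emb
  rw [if_neg (by decide)]
  rfl

theorem ad_bij (S : IQ s) : Function.Bijective (ad_emb s) := by
  classical
  rw [Fintype.bijective_iff_injective_and_card]
  constructor
  · obtain ⟨x, hx⟩ := S.im
    have h01 : ad_emb s 0 ≠ ad_emb s 1 := by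
      intro h
      have h1 := congrArg (fun f : K →ₐ[ℚ] ℂ => (f x).im) h
      simp only [ad_emb0, ad_emb1, conj_im] at h1
      apply hx
      linarith
    intro i j hij
    fin_cases i <;> fin_cases j
    · rfl
    · exact absurd hij h01
    · exact absurd hij.symm h01
    · rfl
  · rw [AlgHom.card, S.deg, Fintype.card_fin]

/-- the trace -/
theorem ad_tr (S : IQ s) (x : K) : ((Algebra.trace ℚ K x : ℚ) : ℝ) = 2 * (s x).re := by
  have h1 := trace_eq_sum_embeddings (K := ℚ) (L := K) ℂ (x := x)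
  rw [← (Equiv.ofBijective _ (ad_bij S)).sum_comp, Fin.sum_univ_two] at h1
  rw [Equiv.ofBijective_apply, Equiv.ofBijective_apply, ad_emb0, ad_emb1] at h1
  have h2 := congrArg Complex.re h1
  rw [add_re, conj_re] at h2
  have h3 : ((algebraMap ℚ ℂ) (Algebra.trace ℚ K x)).re = ((Algebra.trace ℚ K x : ℚ) : ℝ) := by
    simp
  rw [← h3, h2]
  ring

/-- the determinant of two complex numbers -/
def ad_det (a c : ℂ) : ℝ := a.re * c.im - a.im * c.re

theorem ad_sq (S : IQ s) (e : Fin 2 → K) :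
    ((Algebra.discr ℚ e : ℚ) : ℝ) = -4 * ad_det (s (e 0)) (s (e 1)) ^ 2 := by
  have h1 := Algebra.discr_eq_det_embeddingsMatrixReindex_pow_two ℚ ℂ e
    (Equiv.ofBijective _ (ad_bij S))
  rw [Matrix.det_fin_two] at h1
  simp only [Algebra.embeddingsMatrixReindex, Matrix.reindex_apply, Matrix.submatrix_apply,
    Algebra.embeddingsMatrix_apply, Equiv.refl_symm, Equiv.refl_apply, Equiv.symm_symm,
    Equiv.ofBijective_apply, ad_emb0, ad_emb1] at h1
  have h2 := congrArg Complex.re h1
  have h3 : ((algebraMap ℚ ℂ) (Algebra.discr ℚ e)).re = ((Algebra.discr ℚ e : ℚ) : ℝ) := by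
    simp
  rw [h3] at h2
  rw [h2]
  unfold ad_det
  simp only [sq, mul_re, sub_re, sub_im, mul_im, conj_re, conj_im]
  ring

/-- a basis of an ideal -/
theorem ad_basis (S : IQ s) (a : HSG.Id K) : ∃ e : Fin 2 → K, (∀ i, e i ∈ a.m) ∧
    (∀ x ∈ a.m, ∃ c : Fin 2 → ℤ, x = ∑ i, (c i : K) * e i) ∧
    |ad_det (s (e 0)) (s (e 1))| = √(Dk K) / 2 * nI a := by
  classical
  let e0 : Module.Free.ChooseBasisIndex ℤ (𝓞 K) ≃
      Module.Free.ChooseBasisIndex ℤ (a : FractionalIdeal (𝓞 K)⁰ K) :=
    (integralBasis K).indexEquiv (basisOfFractionalIdeal K a)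
  let b : Module.Basis (Module.Free.ChooseBasisIndex ℤ (𝓞 K)) ℚ K :=
    (basisOfFractionalIdeal K a).reindex e0.symm
  have hcard : Fintype.card (Fin 2) =
      Fintype.card (Module.Free.ChooseBasisIndex ℤ (𝓞 K)) := by
    rw [Fintype.card_fin, ← S.deg, Module.finrank_eq_card_basis (integralBasis K)]
  let f0 : Fin 2 ≃ Module.Free.ChooseBasisIndex ℤ (𝓞 K) := Fintype.equivOfCardEq hcard
  let e : Fin 2 → K := fun i => b (f0 i)
  have hspan : ∀ x, x ∈ a.m ↔ x ∈ Submodule.span ℤ (Set.range (basisOfFractionalIdeal K a)) := by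
    intro x
    rw [mem_span_basisOfFractionalIdeal]
    rfl
  have hmem : ∀ i, e i ∈ a.m := by
    intro i
    rw [hspan]
    apply Submodule.subset_span
    refine ⟨e0 (f0 i), ?_⟩
    show _ = (basisOfFractionalIdeal K a).reindex e0.symm (f0 i)
    rw [Module.Basis.reindex_apply, Equiv.symm_symm]
  have hgen : ∀ x ∈ a.m, ∃ c : Fin 2 → ℤ, x = ∑ i, (c i : K) * e i := by
    intro x hx
    rw [hspan, Submodule.mem_span_range_iff_exists_fun] at hx
    obtain ⟨c, hc⟩ := hx
    refine ⟨fun i => c (e0 (f0 i)), ?_⟩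
    rw [← hc, ← (f0.trans e0).sum_comp]
    refine Finset.sum_congr rfl fun i _ => ?_
    rw [zsmul_eq_mul]
    congr 1
    show _ = (basisOfFractionalIdeal K a).reindex e0.symm (f0 i)
    rw [Module.Basis.reindex_apply, Equiv.symm_symm]
    rfl
  have hdisc : Algebra.discr ℚ e = (integralBasis K).det b ^ 2 * (discr K : ℚ) := by
    have h1 : Algebra.discr ℚ e = Algebra.discr ℚ b := by
      have h2 := Algebra.discr_reindex ℚ (b.reindex f0.symm) f0.symm.symm
      have h3 : (fun i => (b.reindex f0.symm) i) = e := by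
        funext i
        rw [Module.Basis.reindex_apply, Equiv.symm_symm]
      have h4 : (⇑(b.reindex f0.symm) ∘ ⇑f0.symm.symm.symm) = b := by
        funext i
        show (b.reindex f0.symm) (f0.symm i) = b i
        rw [Module.Basis.reindex_apply, Equiv.symm_symm, Equiv.apply_symm_apply]
      rw [h4] at h2
      rw [h2]
      congr 1
      exact h3.symm
    have h5 := (integralBasis K).toMatrix_map_vecMul b
    rw [h1, coe_discr, Module.Basis.det_apply]
    conv_lhs => rw [← h5]
    rw [Algebra.discr_of_matrix_vecMul]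
  have hnorm : ((((integralBasis K).det b : ℚ) : ℝ)) ^ 2 = nI a ^ 2 := by
    have h1 := det_basisOfFractionalIdeal_eq_absNorm K a e0
    have h2 : |(((integralBasis K).det b : ℚ) : ℝ)| = nI a := by
      unfold nI
      rw [← h1]
      push_cast
      rfl
    rw [← h2, sq_abs]
  have hpos := nI_pos a
  have hsq : -4 * ad_det (s (e 0)) (s (e 1)) ^ 2 = nI a ^ 2 * (discr K : ℝ) := by
    rw [← ad_sq S, hdisc]
    push_cast
    rw [hnorm]
  have hd : |(discr K : ℝ)| = -(discr K : ℝ) := by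
    apply abs_of_nonpos
    have h1 : nI a ^ 2 * (discr K : ℝ) ≤ 0 := by
      rw [← hsq]
      nlinarith [sq_nonneg (ad_det (s (e 0)) (s (e 1)))]
    have h2 : 0 < nI a ^ 2 := by positivity
    by_contra h3
    push Not at h3
    nlinarith [mul_pos h2 h3]
  refine ⟨e, hmem, hgen, ?_⟩
  have h4 : ad_det (s (e 0)) (s (e 1)) ^ 2 = (√(Dk K) / 2 * nI a) ^ 2 := by
    have h5 : √(Dk K) ^ 2 = Dk K := Real.sq_sqrt (abs_nonneg _)
    rw [mul_pow, div_pow, h5, Dk, hd]
    linarith
  have h6 : 0 ≤ √(Dk K) / 2 * nI a := by positivity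
  rw [← abs_of_nonneg h6]
  exact sq_eq_sq_iff_abs_eq_abs _ _ |>.mp h4

theorem ad_Dk_pos : 0 < Dk K := by
  unfold Dk
  have h := NumberField.discr_ne_zero K
  exact abs_pos.mpr (by exact_mod_cast h)

/-- the dual ideal -/
theorem ad_dual (S : IQ s) (b : HSG.Id K) {ξ : K} (hξ : ξ ∈ ((DD K)⁻¹ * b⁻¹).m) {β : K}
    (hβ : β ∈ b.m) : ∃ n : ℤ, 2 * (s (ξ * β)).re = n := by
  have h1 : (((DD K)⁻¹ * b⁻¹ : HSG.Id K) : FractionalIdeal (𝓞 K)⁰ K) =
      FractionalIdeal.dual ℤ ℚ (b : FractionalIdeal (𝓞 K)⁰ K) := by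
    rw [Units.val_mul, Units.val_inv_eq_inv_val, Units.val_inv_eq_inv_val, gd1_DD_val, inv_inv,
      ← FractionalIdeal.dual_eq_mul_inv]
  have h2 : ξ ∈ FractionalIdeal.dual ℤ ℚ (b : FractionalIdeal (𝓞 K)⁰ K) := by
    rw [← h1]
    exact hξ
  rw [FractionalIdeal.mem_dual b.ne_zero] at h2
  have h3 := h2 β hβ
  rw [Algebra.traceForm_apply, RingHom.mem_range] at h3
  obtain ⟨n, hn⟩ := h3
  refine ⟨n, ?_⟩
  rw [← ad_tr S, ← hn]
  simp

theorem ad_e2_add (z w : ℂ) : e2 (z + w) = e2 z * e2 w := by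
  unfold e2
  rw [← Complex.exp_add]
  congr 1
  rw [add_re]
  push_cast
  ring

theorem ad_e2_int {w : ℂ} {n : ℤ} (h : 2 * w.re = n) : e2 w = 1 := by
  unfold e2
  rw [h, Complex.exp_eq_one_iff]
  refine ⟨n, ?_⟩
  push_cast
  ring

theorem ad_e2_quarter : e2 (1 / 4) = -1 := by
  unfold e2
  have h : (1 / 4 : ℂ).re = 1 / 4 := by
    rw [show (1 / 4 : ℂ) = ((1 / 4 : ℝ) : ℂ) by push_cast; rfl, ofReal_re]
  rw [h, ← Complex.exp_pi_mul_I]
  congr 1
  push_cast
  ring

/-- a real basis of `ℂ` which generates the lattice of the ideal -/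
theorem ad_rbasis (S : IQ s) (y : HSG.Id K) : ∃ b : Module.Basis (Fin 2) ℝ ℂ,
    (∀ t : ℂ, t ∈ Submodule.span ℤ (Set.range b) ↔ ∃ β ∈ y.m, s β = t) ∧
    volume (ZSpan.fundamentalDomain b) = ENNReal.ofReal (√(Dk K) / 2 * nI y) := by
  classical
  obtain ⟨e, he, hs, hd⟩ := ad_basis S y
  have hpos : 0 < √(Dk K) / 2 * nI y := by
    have h1 := nI_pos y
    have h2 : 0 < √(Dk K) := Real.sqrt_pos.mpr ad_Dk_pos
    positivity
  have hne : ad_det (s (e 0)) (s (e 1)) ≠ 0 := by
    intro h
    rw [h, abs_zero] at hd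
    exact hpos.ne hd
  have hl : LinearIndependent ℝ (fun i : Fin 2 => s (e i)) := by
    rw [Fintype.linearIndependent_iff]
    intro g hg
    rw [Fin.sum_univ_two] at hg
    have h1 := congrArg Complex.re hg
    have h2 := congrArg Complex.im hg
    simp only [add_re, add_im, real_smul, mul_re, mul_im, ofReal_re, ofReal_im, zero_mul, sub_zero,
      add_zero, zero_re, zero_im] at h1 h2
    have h3 : g 0 * ad_det (s (e 0)) (s (e 1)) = 0 := by
      unfold ad_det
      linear_combination (s (e 1)).im * h1 - (s (e 1)).re * h2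
    have h4 : g 1 * ad_det (s (e 0)) (s (e 1)) = 0 := by
      unfold ad_det
      linear_combination (s (e 0)).re * h2 - (s (e 0)).im * h1
    intro i
    fin_cases i
    · exact (mul_eq_zero.mp h3).resolve_right hne
    · exact (mul_eq_zero.mp h4).resolve_right hne
  have hc : Fintype.card (Fin 2) = Module.finrank ℝ ℂ := by
    rw [Complex.finrank_real_complex, Fintype.card_fin]
  let b : Module.Basis (Fin 2) ℝ ℂ := basisOfLinearIndependentOfCardEqFinrank hl hc
  have hb : ∀ i, b i = s (e i) := fun i => by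
    simp [b]
  refine ⟨b, fun t => ⟨fun ht => ?_, ?_⟩, ?_⟩
  · induction ht using Submodule.span_induction with
    | mem t ht =>
      obtain ⟨i, rfl⟩ := ht
      exact ⟨e i, he i, (hb i).symm⟩
    | zero => exact ⟨0, y.m.zero_mem, map_zero s⟩
    | add u v _ _ hu hv =>
      obtain ⟨β, hβ, rfl⟩ := hu
      obtain ⟨γ, hγ, rfl⟩ := hv
      exact ⟨β + γ, y.m.add_mem hβ hγ, map_add s β γ⟩
    | smul c u _ hu =>
      obtain ⟨β, hβ, rfl⟩ := hu
      refine ⟨(c : K) * β, ?_, ?_⟩
      · have h1 : (c : K) * β = ((c : 𝓞 K)) • β := by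
          rw [Algebra.smul_def]
          simp
        rw [h1]
        exact y.m.smul_mem _ hβ
      · rw [map_mul, map_intCast, zsmul_eq_mul]
  · rintro ⟨β, hβ, rfl⟩
    obtain ⟨c, rfl⟩ := hs β hβ
    rw [map_sum]
    refine Submodule.sum_mem _ fun i _ => ?_
    rw [map_mul, map_intCast, ← zsmul_eq_mul]
    exact Submodule.smul_mem _ _ (Submodule.subset_span ⟨i, hb i⟩)
  · rw [ZSpan.measure_fundamentalDomain b volume Complex.basisOneI]
    have h1 : volume (ZSpan.fundamentalDomain Complex.basisOneI) = 1 := by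
      rw [measure_congr (ZSpan.fundamentalDomain_ae_parallelepiped Complex.basisOneI volume)]
      have h2 := Complex.orthonormalBasisOneI.volume_parallelepiped
      rw [← h2]
      congr 2
    rw [h1, mul_one, ← hd]
    congr 1
    rw [Module.Basis.det_apply, Matrix.det_fin_two]
    simp only [Module.Basis.toMatrix_apply, hb, Complex.coe_basisOneI_repr]
    congr 1
    unfold ad_det
    simp
    ring

theorem box_exists (S : IQ s) (y : HSG.Id K) : ∃ B, IsBox s y B := by
  classical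
  obtain ⟨b, hb, hv⟩ := ad_rbasis S y
  refine ⟨ZSpan.fundamentalDomain b, ZSpan.fundamentalDomain_measurableSet b, ?_, ?_, ?_, hv, ?_⟩
  · obtain ⟨R, hR⟩ := (ZSpan.fundamentalDomain_isBounded b).exists_norm_le
    exact ⟨R, hR⟩
  · intro z
    obtain ⟨v, hv, -⟩ := ZSpan.exist_unique_vadd_mem_fundamentalDomain b z
    obtain ⟨β, hβ, h1⟩ := (hb v).mp v.2
    refine ⟨β, hβ, ?_⟩
    rw [h1, add_comm]
    exact hv
  · intro z β hβ h1 h2
    obtain ⟨v, hv, hu⟩ := ZSpan.exist_unique_vadd_mem_fundamentalDomain b z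
    have h3 := hu 0 (by
      show (0 : ℂ) + z ∈ _
      rw [zero_add]
      exact h1)
    have h4 := hu ⟨s β, (hb _).mpr ⟨β, hβ, rfl⟩⟩ (by
      show s β + z ∈ _
      rw [add_comm]
      exact h2)
    have h5 : s β = 0 := by
      have := h4.trans h3.symm
      exact congrArg Subtype.val this
    exact (map_eq_zero s).mp h5
  · intro ξ hξ hξ0
    have hs0 : s ξ ≠ 0 := (map_ne_zero s).mpr hξ0
    set B := ZSpan.fundamentalDomain b with hB
    -- translation invariance
    set a : ℂ := 1 / 4 / s ξ with ha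
    have hper : ∀ (g : (Submodule.span ℤ (Set.range b))) (x : ℂ),
        e2 (s ξ * (g +ᵥ x)) = e2 (s ξ * x) := by
      intro g x
      obtain ⟨β, hβ, h1⟩ := (hb g).mp g.2
      have h2 : (g +ᵥ x : ℂ) = s β + x := by
        rw [h1]
        rfl
      obtain ⟨n, hn⟩ := ad_dual S y hξ hβ
      rw [h2, mul_add, ad_e2_add, ← map_mul, ad_e2_int hn, one_mul]
    have hfd := ZSpan.isAddFundamentalDomain b (volume : Measure ℂ)
    have hfd2 : IsAddFundamentalDomain (Submodule.span ℤ (Set.range b))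
        ((fun z : ℂ => a + z) ⁻¹' B) (volume : Measure ℂ) := by
      refine IsAddFundamentalDomain.mk' ?_ fun x => ?_
      · exact (measurable_const_add a (ZSpan.fundamentalDomain_measurableSet b)).nullMeasurableSet
      · obtain ⟨v, hv, hu⟩ := ZSpan.exist_unique_vadd_mem_fundamentalDomain b (a + x)
        refine ⟨v, ?_, ?_⟩
        · show a + ((v : ℂ) + x) ∈ B
          have : a + ((v : ℂ) + x) = (v : ℂ) + (a + x) := by ring
          rw [this]
          exact hv
        · intro w hw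
          apply hu
          show (w : ℂ) + (a + x) ∈ B
          have : (w : ℂ) + (a + x) = a + ((w : ℂ) + x) := by ring
          rw [this]
          exact hw
    have : VAddInvariantMeasure (Submodule.span ℤ (Set.range b)) ℂ volume :=
      inferInstanceAs (VAddInvariantMeasure (Submodule.span ℤ (Set.range b)).toAddSubgroup ℂ volume)
    have h1 : ∫ z in B, e2 (s ξ * z) = ∫ z in (fun z : ℂ => a + z) ⁻¹' B, e2 (s ξ * z) :=
      hfd.setIntegral_eq hfd2 hper
    have h2 : ∫ z in (fun z : ℂ => a + z) ⁻¹' B, e2 (s ξ * (a + z)) = ∫ z in B, e2 (s ξ * z) :=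
      (measurePreserving_add_left volume a).setIntegral_preimage_emb
        (measurableEmbedding_addLeft a) (fun z => e2 (s ξ * z)) B
    have h3 : ∀ z : ℂ, e2 (s ξ * (a + z)) = -e2 (s ξ * z) := by
      intro z
      have : s ξ * a = 1 / 4 := by
        rw [ha]
        field_simp
      rw [mul_add, ad_e2_add, this, ad_e2_quarter]
      ring
    simp only [h3] at h2
    rw [integral_neg, ← h1] at h2
    have h4 : (2 : ℂ) * ∫ z in B, e2 (s ξ * z) = 0 := by
      linear_combination -h2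
    exact (mul_eq_zero.mp h4).resolve_left (by norm_num)


end Pool.Agent.HI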