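import Pool.Agent.Lib_helper25.HIF.DX
import Pool.Agent.Lib_helper25.HIF.AB
import Pool.Agent.Lib_helper25.HIF.AC
import Pool.Agent.Lib_helper25.HIF.AD

/-!
# HI, block AE: Parseval
-/

namespace Pool.Agent.HI
open NumberField Complex MeasureTheory IsDedekindDomain
open scoped nonZeroDivisors MatrixGroups
open Pool.Agent.HSG (Lat Pr IsInt nI prI DD nm wm dgm dt qP NCl IsRepQ)

variable {K : Type} [Field K] [NumberField K] {s : K →+* ℂ}

theorem ae_e2_norm (w : ℂ) : ‖e2 w‖ = 1 := by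
  unfold e2
  rw [Complex.norm_exp]
  have : (2 * Real.pi * I * ((2 * w.re : ℝ) : ℂ)).re = 0 := by
    simp
  rw [this, Real.exp_zero]

theorem ae_e2_conj (w : ℂ) : (starRingEnd ℂ) (e2 w) = e2 (-w) := by
  unfold e2
  rw [← Complex.exp_conj]
  congr 1
  simp only [map_mul, map_ofNat, Complex.conj_ofReal, Complex.conj_I, Complex.neg_re]
  push_cast
  ring

theorem ae_e2_add (w z : ℂ) : e2 (w + z) = e2 w * e2 z := by
  unfold e2
  rw [← Complex.exp_add]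
  congr 1
  rw [Complex.add_re]
  push_cast
  ring

theorem ae_e2_cont (w : ℂ) : Continuous (fun z : ℂ => e2 (w * z)) := by
  unfold e2
  fun_prop

theorem ae_vol {y : HSG.Id K} {B : Set ℂ} (hB : IsBox s y B) : volume B < ⊤ := by
  rw [hB.vol]
  exact ENNReal.ofReal_lt_top

theorem ae_hF {a b : K → ℂ} (ha : Summable (fun ξ => ‖a ξ‖)) (hb : Summable (fun ξ => ‖b ξ‖))
    (z : ℂ) : (∑' ξ, a ξ * e2 (s ξ * z)) * (starRingEnd ℂ) (∑' ξ, b ξ * e2 (s ξ * z)) =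
      ∑' x : K × K, a x.1 * (starRingEnd ℂ) (b x.2) * e2 (s (x.1 - x.2) * z) := by
  rw [Complex.conj_tsum]
  have h1 : Summable (fun ξ => ‖a ξ * e2 (s ξ * z)‖) := by
    refine ha.congr fun ξ => ?_
    rw [norm_mul, ae_e2_norm, mul_one]
  have h2 : Summable (fun ξ => ‖(starRingEnd ℂ) (b ξ * e2 (s ξ * z))‖) := by
    refine hb.congr fun ξ => ?_
    rw [RCLike.norm_conj, norm_mul, ae_e2_norm, mul_one]
  rw [tsum_mul_tsum_of_summable_norm h1 h2]
  refine tsum_congr fun x => ?_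
  rw [map_mul, ae_e2_conj, map_sub, sub_mul, sub_eq_add_neg (s x.1 * z), ae_e2_add]
  ring

theorem ae_prod {a b : K → ℂ} (ha : Summable (fun ξ => ‖a ξ‖)) (hb : Summable (fun ξ => ‖b ξ‖)) :
    Summable (fun x : K × K => ‖a x.1 * (starRingEnd ℂ) (b x.2)‖) := by
  have h := Summable.mul_of_nonneg ha hb (fun _ => norm_nonneg _) (fun _ => norm_nonneg _)
  have e : (fun x : K × K => ‖a x.1 * (starRingEnd ℂ) (b x.2)‖) =
      fun x : K × K => ‖a x.1‖ * ‖b x.2‖ := by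
    funext x
    rw [norm_mul, RCLike.norm_conj]
  rw [e]
  exact h

theorem ae_diag {a b : K → ℂ} (ha : Summable (fun ξ => ‖a ξ‖)) (hb : Summable (fun ξ => ‖b ξ‖)) :
    Summable (fun ξ => ‖a ξ * (starRingEnd ℂ) (b ξ)‖) :=
  (ae_prod ha hb).comp_injective (i := fun ξ : K => (ξ, ξ)) (fun _ _ h => (Prod.mk.inj h).1)

theorem ae_I {B : Set ℂ} (hV : volume B < ⊤) (a b : K → ℂ) (x : K × K) :
    Integrable (fun z : ℂ => a x.1 * (starRingEnd ℂ) (b x.2) *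
      e2 (s (x.1 - x.2) * z)) (volume.restrict B) := by
  have hfin : IsFiniteMeasure (volume.restrict B) := ⟨by simpa using hV⟩
  refine Integrable.const_mul ?_ _
  refine Integrable.mono' (integrable_const (1 : ℝ))
    (ae_e2_cont _).aestronglyMeasurable (Filter.Eventually.of_forall fun z => ?_)
  exact (ae_e2_norm _).le

theorem ae_norm (a b : K → ℂ) (x : K × K) (z : ℂ) :
    ‖a x.1 * (starRingEnd ℂ) (b x.2) * e2 (s (x.1 - x.2) * z)‖ =
      ‖a x.1 * (starRingEnd ℂ) (b x.2)‖ := by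
  rw [norm_mul, ae_e2_norm, mul_one]

theorem ae_hasSum {B : Set ℂ} (hV : volume B < ⊤) {a b : K → ℂ}
    (ha : Summable (fun ξ => ‖a ξ‖)) (hb : Summable (fun ξ => ‖b ξ‖)) :
    HasSum (fun x : K × K => ∫ z in B, a x.1 * (starRingEnd ℂ) (b x.2) *
      e2 (s (x.1 - x.2) * z))
      (∫ z in B, ∑' x : K × K, a x.1 * (starRingEnd ℂ) (b x.2) * e2 (s (x.1 - x.2) * z)) := by
  have hcK : Countable K := Pool.Agent.HSG.countK K
  have hfin : IsFiniteMeasure (volume.restrict B) := ⟨by simpa using hV⟩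
  refine hasSum_integral_of_summable_integral_norm (ae_I hV a b) ?_
  have e : ∀ x : K × K, ∫ z in B, ‖a x.1 * (starRingEnd ℂ) (b x.2) *
      e2 (s (x.1 - x.2) * z)‖ = volume.real B * ‖a x.1 * (starRingEnd ℂ) (b x.2)‖ := by
    intro x
    simp only [ae_norm]
    rw [setIntegral_const, smul_eq_mul]
  simp only [e]
  exact (ae_prod ha hb).mul_left _

theorem ae_on {B : Set ℂ} (hV : volume B < ⊤) {a b : K → ℂ}
    (ha : Summable (fun ξ => ‖a ξ‖)) (hb : Summable (fun ξ => ‖b ξ‖)) :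
    Integrable (fun z : ℂ => ∑' x : K × K, a x.1 * (starRingEnd ℂ) (b x.2) *
      e2 (s (x.1 - x.2) * z)) (volume.restrict B) := by
  have hfin : IsFiniteMeasure (volume.restrict B) := ⟨by simpa using hV⟩
  have hprod := ae_prod ha hb
  refine Integrable.mono' (integrable_const (∑' x : K × K, ‖a x.1 * (starRingEnd ℂ) (b x.2)‖))
    ?_ (Filter.Eventually.of_forall fun z => ?_)
  · refine Continuous.aestronglyMeasurable ?_
    refine continuous_tsum (u := fun x : K × K => ‖a x.1 * (starRingEnd ℂ) (b x.2)‖)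
      (fun x => continuous_const.mul (ae_e2_cont _)) hprod (fun x z => ?_)
    exact (ae_norm a b x z).le
  · have hs2 : Summable (fun x : K × K => ‖a x.1 * (starRingEnd ℂ) (b x.2) *
        e2 (s (x.1 - x.2) * z)‖) := hprod.congr fun x => (ae_norm a b x z).symm
    refine (norm_tsum_le_tsum_norm hs2).trans (le_of_eq ?_)
    exact tsum_congr fun x => ae_norm a b x z

theorem ae_val {y : HSG.Id K} {B : Set ℂ} (hB : IsBox s y B) {a b : K → ℂ}
    (has : ∀ ξ, a ξ ≠ 0 → ξ ∈ ((DD K)⁻¹ * y⁻¹).m) (hbs : ∀ ξ, b ξ ≠ 0 → ξ ∈ ((DD K)⁻¹ * y⁻¹).m)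
    (x : K × K) : ∫ z in B, a x.1 * (starRingEnd ℂ) (b x.2) * e2 (s (x.1 - x.2) * z) =
      open scoped Classical in
      if x.1 = x.2 then ((√(Dk K) / 2 * nI y : ℝ) : ℂ) * (a x.1 * (starRingEnd ℂ) (b x.1))
      else 0 := by
  have hVr : volume.real B = √(Dk K) / 2 * nI y := by
    rw [Measure.real, hB.vol, ENNReal.toReal_ofReal]
    have := Pool.Agent.HSG.nI_pos y
    positivity
  rw [integral_const_mul]
  split_ifs with h
  · rw [← h, sub_self, map_zero]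
    have e0 : ∀ z : ℂ, e2 (0 * z) = 1 := by
      intro z
      unfold e2
      simp
    simp only [e0]
    rw [setIntegral_const, hVr, Complex.real_smul]
    ring
  · by_cases h1 : a x.1 = 0
    · rw [h1, zero_mul, zero_mul]
    by_cases h2 : b x.2 = 0
    · rw [h2, map_zero, mul_zero, zero_mul]
    rw [hB.orth (x.1 - x.2) (Submodule.sub_mem _ (has _ h1) (hbs _ h2)) (sub_ne_zero.2 h),
      mul_zero]

/-- the abstract Parseval formula -/
theorem ae_par {y : HSG.Id K} {B : Set ℂ} (hB : IsBox s y B) {a b : K → ℂ}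
    (ha : Summable (fun ξ => ‖a ξ‖)) (hb : Summable (fun ξ => ‖b ξ‖))
    (has : ∀ ξ, a ξ ≠ 0 → ξ ∈ ((DD K)⁻¹ * y⁻¹).m)
    (hbs : ∀ ξ, b ξ ≠ 0 → ξ ∈ ((DD K)⁻¹ * y⁻¹).m) :
    ∫ z in B, (∑' ξ, a ξ * e2 (s ξ * z)) * (starRingEnd ℂ) (∑' ξ, b ξ * e2 (s ξ * z)) =
      ((√(Dk K) / 2 * nI y : ℝ) : ℂ) * ∑' ξ, a ξ * (starRingEnd ℂ) (b ξ) := by
  classical
  have hint := ae_hasSum (s := s) (ae_vol hB) ha hb
  have e1 : ∫ z in B, (∑' ξ, a ξ * e2 (s ξ * z)) * (starRingEnd ℂ) (∑' ξ, b ξ * e2 (s ξ * z)) =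
      ∫ z in B, ∑' x : K × K, a x.1 * (starRingEnd ℂ) (b x.2) * e2 (s (x.1 - x.2) * z) :=
    integral_congr_ae (Filter.Eventually.of_forall fun z => ae_hF ha hb z)
  rw [e1, ← hint.tsum_eq]
  have hcs := hint.summable
  rw [hcs.tsum_prod, ← tsum_mul_left]
  refine tsum_congr fun ξ => ?_
  rw [tsum_eq_single ξ]
  · rw [ae_val hB has hbs (ξ, ξ)]
    exact if_pos rfl
  · intro ξ' h
    rw [ae_val hB has hbs (ξ, ξ')]
    exact if_neg (Ne.symm h)

theorem ae_abs (S : IQ s) {q : ℕ} {ν : ℂ} (had : Ad q ν) {j : HSG.Id K} {c : K → ℂ}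
    (hc : GS s j c) {t : ℝ} (ht : 0 < t) (u : ℂ × ℂ) :
    Summable (fun ξ => ‖c ξ * Wh q ν (s ξ) t u‖) := by
  have h := gs_summable S had hc (p := ((0 : ℂ), t)) ht u
  refine h.congr fun ξ => ?_
  rw [← mul_assoc, norm_mul _ (e2 _), ae_e2_norm, mul_one]

theorem ae_fs (s : K →+* ℂ) (q : ℕ) (ν : ℂ) (c : K → ℂ) (z : ℂ) (t : ℝ) (u : ℂ × ℂ) :
    fs s q ν c (z, t) u = ∑' ξ : K, (c ξ * Wh q ν (s ξ) t u) * e2 (s ξ * z) := by
  unfold fs
  refine tsum_congr fun ξ => ?_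
  simp only
  ring

theorem fs_par (S : IQ s) {q : ℕ} {ν ν' : ℂ} (had : Ad q ν) (had' : Ad q ν') {y : HSG.Id K}
    {B : Set ℂ} (hB : IsBox s y B) {c c' : K → ℂ} (hc : GS s ((DD K)⁻¹ * y⁻¹) c)
    (hc' : GS s ((DD K)⁻¹ * y⁻¹) c') {t : ℝ} (ht : 0 < t) (u u' : ℂ × ℂ) :
    Summable (fun ξ : K => ‖c ξ * (starRingEnd ℂ) (c' ξ) * (Wh q ν (s ξ) t u *
      (starRingEnd ℂ) (Wh q ν' (s ξ) t u'))‖) ∧
    IntegrableOn (fun z : ℂ => fs s q ν c (z, t) u *
      (starRingEnd ℂ) (fs s q ν' c' (z, t) u')) B ∧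
    ∫ z in B, fs s q ν c (z, t) u * (starRingEnd ℂ) (fs s q ν' c' (z, t) u') =
      ((√(Dk K) / 2 * nI y : ℝ) : ℂ) * ∑' ξ : K, c ξ * (starRingEnd ℂ) (c' ξ) *
        (Wh q ν (s ξ) t u * (starRingEnd ℂ) (Wh q ν' (s ξ) t u')) := by
  have ha := ae_abs S had hc ht u
  have hb := ae_abs S had' hc' ht u'
  have h := ae_par hB ha hb (fun ξ hξ => hc.supp ξ (left_ne_zero_of_mul hξ))
    (fun ξ hξ => hc'.supp ξ (left_ne_zero_of_mul hξ))
  have e : ∀ ξ, (c ξ * Wh q ν (s ξ) t u) * (starRingEnd ℂ) (c' ξ * Wh q ν' (s ξ) t u') =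
      c ξ * (starRingEnd ℂ) (c' ξ) * (Wh q ν (s ξ) t u *
        (starRingEnd ℂ) (Wh q ν' (s ξ) t u')) := by
    intro ξ
    rw [map_mul]
    ring
  have hd := ae_diag ha hb
  simp only [e] at h hd
  simp only [ae_fs]
  refine ⟨hd, ?_, h⟩
  refine (ae_on (s := s) (ae_vol hB) ha hb).congr (Filter.Eventually.of_forall fun z => ?_)
  exact (ae_hF ha hb z).symm

theorem ae_id (j : HSG.Id K) : (DD K)⁻¹ * ((DD K * j)⁻¹)⁻¹ = j := by
  rw [inv_inv, inv_mul_cancel_left]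

theorem fs_uniq (S : IQ s) {q : ℕ} {ν : ℂ} (had : Ad q ν) {j : HSG.Id K} {c c' : K → ℂ}
    (hc : GS s j c) (hc' : GS s j c')
    (h : ∀ (p : ℂ × ℝ) (u : ℂ × ℂ), 0 < p.2 → fs s q ν c p u = fs s q ν c' p u) : c = c' := by
  obtain ⟨hd, hd2⟩ := gs_sub S had hc hc' 1 (-1)
  set d : K → ℂ := fun ξ => 1 * c ξ + -1 * c' ξ with hdd
  have h0 : ∀ (p : ℂ × ℝ) (u : ℂ × ℂ), 0 < p.2 → fs s q ν d p u = 0 := by
    intro p u hp
    rw [hd2 p u hp, h p u hp]
    ring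
  set y : HSG.Id K := (DD K * j)⁻¹ with hy
  obtain ⟨B, hB⟩ := box_exists S y
  have hd' : GS s ((DD K)⁻¹ * y⁻¹) d := by
    rw [hy, ae_id]
    exact hd
  have hV : (0 : ℝ) < √(Dk K) / 2 * nI y := by
    have h1 := Pool.Agent.HSG.nI_pos y
    have h2 : 0 < Dk K := by
      unfold Dk
      rw [abs_pos]
      exact_mod_cast NumberField.discr_ne_zero K
    have h3 := Real.sqrt_pos.2 h2
    positivity
  have key : ∀ ξ : K, ξ ≠ 0 → d ξ = 0 := by
    intro ξ hξ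
    have hs : s ξ ≠ 0 := by
      rw [Ne, map_eq_zero]
      exact hξ
    obtain ⟨t, u, ht, hW⟩ := wh_ne had hs
    obtain ⟨h1, -, h3⟩ := fs_par S had had hB hd' hd' ht u u
    have e : ∀ ξ, d ξ * (starRingEnd ℂ) (d ξ) * (Wh q ν (s ξ) t u *
        (starRingEnd ℂ) (Wh q ν (s ξ) t u)) = ((‖d ξ * Wh q ν (s ξ) t u‖ ^ 2 : ℝ) : ℂ) := by
      intro ξ
      have := Complex.mul_conj' (d ξ * Wh q ν (s ξ) t u)
      rw [Complex.ofReal_pow, ← this, map_mul]
      ring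
    simp only [e] at h1 h3
    have h4 : ∀ z : ℂ, fs s q ν d (z, t) u * (starRingEnd ℂ) (fs s q ν d (z, t) u) = 0 := by
      intro z
      rw [h0 (z, t) u ht, zero_mul]
    simp only [h4, integral_zero] at h3
    have h5 : ∑' ξ : K, ‖d ξ * Wh q ν (s ξ) t u‖ ^ 2 = 0 := by
      have h6 : ((√(Dk K) / 2 * nI y : ℝ) : ℂ) ≠ 0 := by exact_mod_cast hV.ne'
      have h7 := (mul_eq_zero.1 h3.symm).resolve_left h6
      rw [← Complex.ofReal_tsum] at h7
      exact_mod_cast h7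
    have h1' : Summable (fun ξ : K => ‖d ξ * Wh q ν (s ξ) t u‖ ^ 2) := by
      refine h1.congr fun ξ => ?_
      rw [Complex.norm_real, Real.norm_of_nonneg (by positivity)]
    have h8 : ‖d ξ * Wh q ν (s ξ) t u‖ ^ 2 = 0 := by
      refine le_antisymm ?_ (by positivity)
      rw [← h5]
      exact h1'.le_tsum ξ (fun _ _ => by positivity)
    have h9 : d ξ * Wh q ν (s ξ) t u = 0 := by
      rw [← norm_eq_zero]
      exact pow_eq_zero_iff (two_ne_zero) |>.1 h8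
    exact (mul_eq_zero.1 h9).resolve_right hW
  funext ξ
  by_cases hξ : ξ = 0
  · rw [hξ, hc.zero, hc'.zero]
  · have := key ξ hξ
    rw [hdd] at this
    simp only at this
    linear_combination this

theorem ae_dir_norm {w : ℂ} (hw : w ≠ 0) : ‖dir w‖ = 1 := by
  unfold dir
  rw [norm_div, Complex.norm_real, norm_norm, div_self (norm_ne_zero_iff.2 hw)]

/-- the Hecke bound -/
theorem gs_bdd (S : IQ s) {q : ℕ} {ν : ℂ} (had : Ad q ν) {j : HSG.Id K} {c : K → ℂ}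
    (hc : GS s j c) {C : ℝ}
    (h : ∀ (p : ℂ × ℝ) (u : ℂ × ℂ), 0 < p.2 → ‖fs s q ν c p u‖ ≤ C * nu u ^ q) :
    ∃ C' : ℝ, 0 ≤ C' ∧ ∀ ξ, ‖c ξ‖ ≤ C' := by
  classical
  obtain ⟨y₀, u₀, hy₀, hW₀⟩ := wh_ne had (w := 1) one_ne_zero
  have hCn : 0 ≤ C * nu u₀ ^ q :=
    (norm_nonneg _).trans (h (((0 : ℂ), (1 : ℝ))) u₀ one_pos)
  have hW₀' : 0 < ‖Wh q ν 1 y₀ u₀‖ := norm_pos_iff.2 hW₀
  set y : HSG.Id K := (DD K * j)⁻¹ with hy
  obtain ⟨B, hB⟩ := box_exists S y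
  have hc1 : GS s ((DD K)⁻¹ * y⁻¹) c := by
    rw [hy, ae_id]
    exact hc
  have hV : (0 : ℝ) < √(Dk K) / 2 * nI y := by
    have h1 := Pool.Agent.HSG.nI_pos y
    have h2 : 0 < Dk K := by
      unfold Dk
      rw [abs_pos]
      exact_mod_cast NumberField.discr_ne_zero K
    have h3 := Real.sqrt_pos.2 h2
    positivity
  have hVr : volume.real B = √(Dk K) / 2 * nI y := by
    rw [Measure.real, hB.vol, ENNReal.toReal_ofReal hV.le]
  refine ⟨C * nu u₀ ^ q / ‖Wh q ν 1 y₀ u₀‖, by positivity, fun ξ => ?_⟩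
  by_cases hξ0 : c ξ = 0
  · rw [hξ0, norm_zero]
    positivity
  have hξ : ξ ≠ 0 := by
    rintro rfl
    exact hξ0 hc.zero
  have hs : s ξ ≠ 0 := by
    rw [Ne, map_eq_zero]
    exact hξ
  have hsn : 0 < ‖s ξ‖ := norm_pos_iff.2 hs
  set t : ℝ := y₀ / ‖s ξ‖ with ht
  have ht0 : 0 < t := by positivity
  have hdn := ae_dir_norm hs
  have hd0 : dir (s ξ) ≠ 0 := by
    rw [← norm_ne_zero_iff, hdn]
    exact one_ne_zero
  set u : ℂ × ℂ := (u₀.1, (dir (s ξ))⁻¹ * u₀.2) with hu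
  have hWu : ‖Wh q ν (s ξ) t u‖ = ‖Wh q ν 1 y₀ u₀‖ := by
    have h1 := wh_dgm q ν hs 1 t u
    have h2 : ‖s ξ‖ * t = y₀ := by
      rw [ht]
      field_simp
    have h3 : (u.1, dir (s ξ) * u.2) = u₀ := by
      rw [hu]
      simp only
      rw [mul_inv_cancel_left₀ hd0]
    rw [h2, h3, one_mul] at h1
    rw [h1, norm_mul, norm_pow, hdn, one_pow, one_mul]
  have hnu : nu u = nu u₀ := by
    unfold nu
    rw [hu]
    simp only
    rw [map_mul, Complex.normSq_eq_norm_sq (dir (s ξ))⁻¹, norm_inv, hdn]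
    simp
  -- the single coefficient
  set e : K → ℂ := fun x => if x = ξ then 1 else 0 with he
  have heG : GS s ((DD K)⁻¹ * y⁻¹) e := by
    refine ⟨?_, ?_, ?_⟩
    · rw [he]
      simp only
      rw [if_neg (Ne.symm hξ)]
    · intro x hx
      have : x = ξ := by
        by_contra hne
        exact hx (by rw [he]; simp only; rw [if_neg hne])
      rw [this]
      exact hc1.supp ξ hξ0
    · refine ⟨1, 0, fun x => ?_⟩
      rw [he, Real.rpow_zero, mul_one]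
      simp only
      split_ifs <;> simp
  obtain ⟨-, h2, h3⟩ := fs_par S had had hB hc1 heG ht0 u u
  rw [tsum_eq_single ξ (fun x hx => by
    rw [he]
    simp only
    rw [if_neg hx, map_zero, mul_zero, zero_mul])] at h3
  have hee : e ξ = 1 := by
    rw [he]
    simp
  rw [hee, map_one, mul_one] at h3
  have hfe : ∀ z : ℂ, ‖fs s q ν e (z, t) u‖ = ‖Wh q ν 1 y₀ u₀‖ := by
    intro z
    rw [ae_fs, tsum_eq_single ξ (fun x hx => by
      rw [he]
      simp only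
      rw [if_neg hx, zero_mul, zero_mul]), hee, one_mul, norm_mul, ae_e2_norm, mul_one, hWu]
  have hle : ‖∫ z in B, fs s q ν c (z, t) u * (starRingEnd ℂ) (fs s q ν e (z, t) u)‖ ≤
      (C * nu u₀ ^ q * ‖Wh q ν 1 y₀ u₀‖) * volume.real B := by
    refine norm_setIntegral_le_of_norm_le_const (ae_vol hB) fun z _ => ?_
    rw [norm_mul, RCLike.norm_conj, hfe]
    refine mul_le_mul_of_nonneg_right ?_ (norm_nonneg _)
    have := h (z, t) u ht0
    rwa [hnu] at this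
  rw [h3, norm_mul, norm_mul, norm_mul, RCLike.norm_conj, hWu, Complex.norm_real,
    Real.norm_of_nonneg hV.le, hVr] at hle
  rw [le_div_iff₀ hW₀']
  have h4 : (√(Dk K) / 2 * nI y) * ‖Wh q ν 1 y₀ u₀‖ * (‖c ξ‖ * ‖Wh q ν 1 y₀ u₀‖) ≤
      (√(Dk K) / 2 * nI y) * ‖Wh q ν 1 y₀ u₀‖ * (C * nu u₀ ^ q) := by
    nlinarith [hle]
  exact le_of_mul_le_mul_left h4 (by positivity)

end Pool.Agent.HI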