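import Pool.Agent.Lib_helper25.HIF.DX
import Pool.Agent.Lib_helper25.HIF.AA
import Pool.Agent.Lib_helper25.HIF.AB
import Pool.Agent.Lib_helper84.LVF.LM
import Pool.Agent.Lib_helper84.LVF.LF
import Pool.Agent.Lib_helper84.LVF.LI2
import Pool.Agent.Lib_helper84.LVF.LB

/-! HI, block AF: basic properties of forms -/

namespace Pool.Agent.HI
open NumberField Complex MeasureTheory IsDedekindDomain
open scoped nonZeroDivisors MatrixGroups
open Pool.Agent.HSG (Lat Pr IsInt nI prI DD nm wm dgm dt qP NCl IsRepQ)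
open Pool.Agent.HSG.LV (Pt Tp Ts Sc Cp Dv Prim sS sZ ptS ptZ pI Res Gal gI gP wP omF lamF)

variable {K : Type} [Field K] [NumberField K] {s : K →+* ℂ}

theorem af_dir_one : dir 1 = 1 := by
  unfold dir
  simp

theorem af_dir_norm {w : ℂ} (hw : w ≠ 0) : ‖dir w‖ = 1 := by
  unfold dir
  rw [norm_div, Complex.norm_real, norm_norm, div_self (norm_ne_zero_iff.2 hw)]

theorem af_dir_ne {w : ℂ} (hw : w ≠ 0) : dir w ≠ 0 := by
  intro h
  have := af_dir_norm hw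
  rw [h, norm_zero] at this
  exact zero_ne_one this

theorem af_dir_sq (w : ℂ) : dir (w ^ 2) = dir w ^ 2 := by
  unfold dir
  rw [norm_pow, div_pow]
  push_cast
  rfl

section form

variable {q : ℕ} {ν : ℂ} {n : HSG.Id K} {om : HSG.Id K → ℂ} {F : ℂ × ℝ → ℂ × ℂ → Pt n → ℂ}

theorem form_gs (hn : IsInt n) (hF : IForm s q ν n om F) {x : Pt n} {y : HSG.Id K}
    (hy : ∀ β ∈ y.m, x.mul (nm β : GL (Fin 2) K) = x) :
    ∃ c : K → ℂ, GS s ((DD K)⁻¹ * y⁻¹) c ∧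
      ∀ (p : ℂ × ℝ) (u : ℂ × ℂ), 0 < p.2 → F p u x = fs s q ν c p u := by
  obtain ⟨c, h0, hC, hs, he⟩ := hF.exp x
  exact ⟨c, ⟨h0, hs y hy, hC⟩, he⟩

theorem form_hom (hF : IForm s q ν n om F) {p : ℂ × ℝ} (hp : 0 < p.2) (u : ℂ × ℂ) (x : Pt n)
    (l : ℂ) : F p (l * u.1, l * u.2) x = l ^ (2 * q) * F p u x := by
  obtain ⟨c, -, -, -, he⟩ := hF.exp x
  rw [he p _ hp, he p u hp, fs_hom]

theorem form_nm (hF : IForm s q ν n om F) (β : K) {p : ℂ × ℝ} (hp : 0 < p.2) (u : ℂ × ℂ)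
    (x : Pt n) : F p u (x.mul (nm β : GL (Fin 2) K)) = F (p.1 + s β, p.2) u x := by
  have h := hF.slash (nm β : GL (Fin 2) K) p u x hp
  obtain ⟨h1, h2, h3⟩ := ac_nm s β p u
  rw [h1, h2, h3, af_dir_one, one_pow, one_mul] at h
  exact h.symm

theorem form_scal (hF : IForm s q ν n om F) {t : Kˣ} {g : GL (Fin 2) K}
    (hg : (g : Matrix (Fin 2) (Fin 2) K) = Matrix.scalar (Fin 2) (t : K)) {p : ℂ × ℝ}
    (hp : 0 < p.2) (u : ℂ × ℂ) (x : Pt n) : F p u (x.mul g) = F p u x := by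
  have h := hF.slash g p u x hp
  obtain ⟨h1, h2, h3⟩ := ac_scal s hg p u
  have ht : s t ≠ 0 := (map_ne_zero s).2 t.ne_zero
  rw [h1, h2, h3, form_hom hF hp u x, af_dir_sq, ← pow_mul] at h
  exact (mul_left_cancel₀ (pow_ne_zero _ (af_dir_ne ht)) h).symm

theorem form_wm (hF : IForm s q ν n om F) (b : HSG.Id K) {p : ℂ × ℝ} (hp : 0 < p.2)
    (u : ℂ × ℂ) : F p u (sZ n b) = F (iv p) (ku p u) (sS n b) := by
  have h := hF.slash (wm K : GL (Fin 2) K) p u (sS n b) hp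
  obtain ⟨h1, h2, h3⟩ := ac_wm s p u
  have h4 : (sS n b).mul (wm K : GL (Fin 2) K) = sZ n b := HSG.LV.ptS_wm (HSG.LV.cp_one n)
  rw [h1, h2, h3, h4, af_dir_one, one_pow, one_mul] at h
  exact h.symm

theorem form_dgS (hF : IForm s q ν n om F) (t : Kˣ) (b : HSG.Id K) {p : ℂ × ℝ} (hp : 0 < p.2)
    (u : ℂ × ℂ) : F (s t * p.1, ‖s t‖ * p.2) (u.1, dir (s t) * u.2) (sS n b) =
      dir (s t) ^ q * F p u (sS n (prI t * b)) := by
  have h := hF.slash (dgm t) p u (sS n b) hp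
  obtain ⟨h1, h2, h3⟩ := ac_dgm s t p u
  have h4 : (sS n b).mul (dgm t) = sS n (prI t * b) := HSG.LV.ptS_dgm (HSG.LV.cp_one n) t
  rw [h1, h2, h3, h4] at h
  exact h

omit [NumberField K] in
theorem af_scal (t : Kˣ) : ∃ g : GL (Fin 2) K,
    (g : Matrix (Fin 2) (Fin 2) K) = Matrix.scalar (Fin 2) (t : K) :=
  ⟨Units.map (Matrix.scalar (Fin 2)).toMonoidHom t, rfl⟩

theorem form_dgZ (hF : IForm s q ν n om F) (t : Kˣ) (b : HSG.Id K) {p : ℂ × ℝ} (hp : 0 < p.2)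
    (u : ℂ × ℂ) : F (s t * p.1, ‖s t‖ * p.2) (u.1, dir (s t) * u.2) (sZ n (prI t * b)) =
      dir (s t) ^ q * F p u (sZ n b) := by
  have h := hF.slash (dgm t) p u (sZ n (prI t * b)) hp
  obtain ⟨h1, h2, h3⟩ := ac_dgm s t p u
  obtain ⟨g, hg⟩ := af_scal (K := K) t
  have h4 : (sZ n (prI t * b)).mul (dgm t) = (sZ n b).mul g :=
    HSG.LV.ptZ_dgm (HSG.LV.cp_one n) t hg
  rw [h1, h2, h3, h4, form_scal hF hg hp u] at h
  exact h

/-- the norm of a form at the points `x g` -/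
theorem af_norm (hF : IForm s q ν n om F) {x : Pt n} {C : ℝ}
    (hC : ∀ (p : ℂ × ℝ) (u : ℂ × ℂ), 0 < p.2 → ‖F p u x‖ ≤ C * nu u ^ q) (g : GL (Fin 2) K)
    {p : ℂ × ℝ} (hp : 0 < p.2) (u : ℂ × ℂ) : ‖F p u (x.mul g)‖ ≤ C * nu u ^ q := by
  have h := congrArg norm (hF.slash g p u x hp)
  rw [norm_mul, norm_pow, af_dir_norm (de_ne s g), one_pow, one_mul] at h
  rw [← h, ← nu_kk s g hp u]
  exact hC _ _ (ac_pos s g hp)

theorem form_unif (S : IQ s) (hn : IsInt n) (hF : IForm s q ν n om F) : ∃ C : ℝ, 0 ≤ C ∧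
    ∀ (x : Pt n) (p : ℂ × ℝ) (u : ℂ × ℂ), 0 < p.2 → ‖F p u x‖ ≤ C * nu u ^ q := by
  classical
  have hfin : Finite (NCl K) := HSG.LV.ncl_fin
  have : Fintype (NCl K) := Fintype.ofFinite _
  choose C hC using fun κ : NCl K => hF.bdd (sS n κ.out)
  refine ⟨∑ κ, |C κ|, Finset.sum_nonneg fun κ _ => abs_nonneg _, fun x p u hp => ?_⟩
  have hnu : 0 ≤ nu u ^ q := by
    unfold nu
    have h1 := normSq_nonneg u.1
    have h2 := normSq_nonneg u.2
    positivity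
  set κ : NCl K := QuotientGroup.mk x.L.det with hκ
  have h1 : (QuotientGroup.mk κ.out : NCl K) = QuotientGroup.mk x.L.det := QuotientGroup.out_eq' κ
  rw [QuotientGroup.eq] at h1
  obtain ⟨t, -, ht⟩ := h1
  have h2 : x.L.det = prI t * κ.out := by
    rw [ht, mul_comm, mul_inv_cancel_left]
  have h3 : (sS n (prI t * κ.out)).L.det = x.L.det := by
    have := (HSG.LV.ptS_det (b := prI t * κ.out) (HSG.LV.cp_one n)).1
    rw [h2]
    rw [inv_one, mul_one] at this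
    exact this
  obtain ⟨g, hg⟩ := HSG.LV.pt_trans hn h3
  have h4 : (sS n κ.out).mul (dgm t) = sS n (prI t * κ.out) :=
    HSG.LV.ptS_dgm (HSG.LV.cp_one n) t
  have h5 : x = (sS n κ.out).mul (dgm t * ((g⁻¹ : SL(2, K)) : GL (Fin 2) K)) := by
    rw [HSG.LV.pt_mul_mul, h4, ← hg]
    exact HSG.LV.sact_eq g _
  rw [h5]
  have h6 : C κ ≤ ∑ κ, |C κ| := (le_abs_self _).trans
    (Finset.single_le_sum (f := fun κ => |C κ|) (fun _ _ => abs_nonneg _) (Finset.mem_univ κ))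
  exact (af_norm hF (hC κ) _ hp u).trans (mul_le_mul_of_nonneg_right h6 hnu)

end form

end Pool.Agent.HI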