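import Pool.Agent.Lib_helper25.HIF.DX
import Pool.Agent.Lib_helper25.HIF.AB
import Pool.Agent.Lib_helper25.HIF.AE
import Pool.Agent.Lib_helper25.HIF.AF
import Pool.Agent.Lib_helper84.LVF.LM
import Pool.Agent.Lib_helper84.LVF.LF

/-! # Project HI, block AG: the coefficients at the points `(b ⊕ 𝓞, (0,1))` -/

namespace Pool.Agent.HI
open NumberField Complex MeasureTheory IsDedekindDomain
open scoped nonZeroDivisors MatrixGroups
open Pool.Agent.HSG (Lat Pr IsInt nI prI DD nm wm dgm dt qP NCl Kp Em isInt_div mem_div_iff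
  mem_prI_mul)
open Pool.Agent.HSG.LV (Pt Tp Ts Sc Cp Dv Prim sS sZ ptS ptZ pI Res Gal gI gP wP omF lamF
  ptS_nm cp_one ncl_fin cls_all)

variable {K : Type} [Field K] [NumberField K] {s : K →+* ℂ}

theorem ag_int (b : HSG.Id K) (ξ : Kˣ) :
    IsInt (prI ξ * DD K / b) ↔ (ξ : K) ∈ ((DD K)⁻¹ * b).m := by
  have h4 : (DD K)⁻¹ * b = b / DD K := by
    rw [div_eq_mul_inv, mul_comm]
  rw [h4, isInt_div, mem_div_iff]
  constructor
  · intro h y hy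
    refine h ((mem_prI_mul ξ (DD K) _).2 ?_)
    rw [← mul_assoc, ← Units.val_mul, inv_mul_cancel, Units.val_one, one_mul]
    exact hy
  · intro h y hy
    have h1 := h _ ((mem_prI_mul ξ (DD K) y).1 hy)
    rwa [← mul_assoc, ← Units.val_mul, mul_inv_cancel, Units.val_one, one_mul] at h1

theorem ag_zero (A : HSG.Id K → ℂ) (b : HSG.Id K) : cS A b 0 = 0 := by
  unfold cS
  exact dif_pos rfl

theorem ag_unit (A : HSG.Id K → ℂ) (b : HSG.Id K) (ξ : Kˣ) :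
    cS A b (ξ : K) = A (prI ξ * DD K / b) := by
  unfold cS
  rw [dif_neg ξ.ne_zero]
  congr 3
  congr 1
  exact Units.ext rfl

theorem ag_dir {w : ℂ} (hw : w ≠ 0) : dir w ≠ 0 := by
  unfold dir
  have h1 : ‖w‖ ≠ 0 := norm_ne_zero_iff.2 hw
  exact div_ne_zero hw (by exact_mod_cast h1)

theorem cs_cS (S : IQ s) {A : HSG.Id K → ℂ} (hA : (∀ m, ¬ IsInt m → A m = 0) ∧
    ∃ C : ℝ, ∀ m, ‖A m‖ ≤ C) (b : HSG.Id K) :
    CS (cS A b) ∧ GS s ((DD K)⁻¹ * b) (cS A b) := by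
  obtain ⟨h0, C, hC⟩ := hA
  have hC0 : 0 ≤ C := (norm_nonneg _).trans (hC 1)
  have hbd : ∀ ξ, ‖cS A b ξ‖ ≤ C := by
    intro ξ
    by_cases h : ξ = 0
    · rw [h, ag_zero, norm_zero]
      exact hC0
    · have h1 := ag_unit A b (Units.mk0 ξ h)
      rw [Units.val_mk0] at h1
      rw [h1]
      exact hC _
  have hsup : ∀ ξ, cS A b ξ ≠ 0 → ξ ∈ ((DD K)⁻¹ * b).m := by
    intro ξ hξ
    by_cases h : ξ = 0
    · exact absurd (by rw [h, ag_zero]) hξ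
    · have h1 := ag_unit A b (Units.mk0 ξ h)
      rw [Units.val_mk0] at h1
      rw [h1] at hξ
      by_contra h2
      apply hξ
      refine h0 _ fun h3 => h2 ?_
      exact (ag_int b (Units.mk0 ξ h)).1 h3
  refine ⟨⟨ag_zero A b, ⟨_, hsup⟩, C, hC0, hbd⟩, ⟨ag_zero A b, hsup, C, 0, fun ξ => ?_⟩⟩
  rw [Real.rpow_zero, mul_one]
  exact hbd ξ

/-- the coefficients are determined by the series -/
theorem coS_uniq {q : ℕ} {ν : ℂ} (S : IQ s) (had : Ad q ν) {A A' : HSG.Id K → ℂ}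
    (hA : (∀ m, ¬ IsInt m → A m = 0) ∧ ∃ C : ℝ, ∀ m, ‖A m‖ ≤ C)
    (hA' : (∀ m, ¬ IsInt m → A' m = 0) ∧ ∃ C : ℝ, ∀ m, ‖A' m‖ ≤ C)
    (h : ∀ (b : HSG.Id K) (p : ℂ × ℝ) (u : ℂ × ℂ), 0 < p.2 →
      fs s q ν (cS A b) p u = fs s q ν (cS A' b) p u) : A = A' := by
  funext m
  have h1 := fs_uniq S had (cs_cS S hA (DD K / m)).2 (cs_cS S hA' (DD K / m)).2
    (h (DD K / m))
  have h2 := congrFun h1 ((1 : Kˣ) : K)
  rw [ag_unit, ag_unit, map_one, one_mul, div_div_cancel] at h2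
  exact h2

section form

variable {q : ℕ} {ν : ℂ} {n : HSG.Id K} {om : HSG.Id K → ℂ} {F : ℂ × ℝ → ℂ × ℂ → Pt n → ℂ}

theorem ag_ex (S : IQ s) (had : Ad q ν) (hn : IsInt n) (hF : IForm s q ν n om F)
    (b : HSG.Id K) : ∃ (c : K → ℂ) (C : ℝ), GS s ((DD K)⁻¹ * b) c ∧ (∀ ξ, ‖c ξ‖ ≤ C) ∧
      ∀ (p : ℂ × ℝ) (u : ℂ × ℂ), 0 < p.2 → F p u (sS n b) = fs s q ν c p u := by
  obtain ⟨c, h1, h2⟩ := form_gs hn hF (x := sS n b) (y := b⁻¹) (fun β hβ => by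
    refine ptS_nm (cp_one n) ?_
    rwa [inv_one, one_div])
  rw [inv_inv] at h1
  obtain ⟨C, hC0, hC⟩ := form_unif S hn hF
  obtain ⟨C', hC'0, hC'⟩ := gs_bdd S had h1 (C := C) (fun p u hp => by
    rw [← h2 p u hp]
    exact hC _ p u hp)
  exact ⟨c, C', h1, hC', h2⟩

/-- the coefficients of `b` and of `t b` -/
theorem ag_shift (S : IQ s) (had : Ad q ν) (hF : IForm s q ν n om F) (b : HSG.Id K) (t : Kˣ)
    {c c' : K → ℂ} {C C' : ℝ} (h1 : GS s ((DD K)⁻¹ * b) c) (h2 : ∀ ξ, ‖c ξ‖ ≤ C)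
    (h3 : ∀ (p : ℂ × ℝ) (u : ℂ × ℂ), 0 < p.2 → F p u (sS n b) = fs s q ν c p u)
    (h1' : GS s ((DD K)⁻¹ * (prI t * b)) c') (h2' : ∀ ξ, ‖c' ξ‖ ≤ C')
    (h3' : ∀ (p : ℂ × ℝ) (u : ℂ × ℂ), 0 < p.2 → F p u (sS n (prI t * b)) = fs s q ν c' p u)
    (ξ : K) : c' ξ = c (ξ / t) := by
  have ht : s (t : K) ≠ 0 := (map_ne_zero s).2 t.ne_zero
  have h4 : GS s ((DD K)⁻¹ * (prI t * b)) (fun ξ => c (ξ / t)) := by
    refine ⟨?_, fun ρ hρ => ?_, C, 0, fun ρ => ?_⟩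
    · show c (0 / t) = 0
      rw [zero_div]
      exact h1.zero
    · have h5 := h1.supp _ hρ
      rw [mul_left_comm, mem_prI_mul, Units.val_inv_eq_inv_val, mul_comm _ ρ]
      rwa [div_eq_mul_inv] at h5
    · rw [Real.rpow_zero, mul_one]
      exact h2 _
  have h5 := fs_uniq S had h1' h4 (fun p u hp => by
    have h6 := form_dgS hF t b hp u
    have h7 : 0 < ‖s (t : K)‖ * p.2 := mul_pos (norm_pos_iff.2 ht) hp
    rw [h3 (s t * p.1, ‖s t‖ * p.2) _ h7, fs_dgm, h3' p u hp] at h6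
    exact (mul_left_cancel₀ (pow_ne_zero _ (ag_dir ht)) h6).symm)
  exact congrFun h5 ξ

theorem coS_exists (S : IQ s) (had : Ad q ν) (hn : IsInt n) (hF : IForm s q ν n om F) :
    ∃ A, ICoS s q ν F A := by
  classical
  choose c B h1 h2 h3 using ag_ex S had hn hF
  have h4 : ∀ (b : HSG.Id K) (ξ : Kˣ), c b (ξ : K) = c (prI ξ⁻¹ * b) 1 := by
    intro b ξ
    have e1 : prI ξ * (prI ξ⁻¹ * b) = b := by
      rw [← mul_assoc, ← map_mul, mul_inv_cancel, map_one, one_mul]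
    have e2 := ag_shift S had hF (prI ξ⁻¹ * b) ξ (h1 _) (h2 _) (h3 _) (h1 _) (h2 _) (h3 _)
      (ξ : K)
    rw [e1, div_self ξ.ne_zero] at e2
    exact e2
  set A : HSG.Id K → ℂ := fun m => if IsInt m then c (DD K / m) 1 else 0 with hA
  have h5 : ∀ (b : HSG.Id K) (ξ : Kˣ), A (prI ξ * DD K / b) = c b (ξ : K) := by
    intro b ξ
    by_cases h : IsInt (prI ξ * DD K / b)
    · rw [h4]
      simp only [hA, if_pos h]
      congr 1
      rw [map_inv, div_eq_mul_inv, div_eq_mul_inv, mul_inv_rev, mul_inv_rev, inv_inv,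
        mul_comm (DD K), mul_assoc, mul_comm (DD K)⁻¹, mul_assoc, inv_mul_cancel, mul_one, mul_comm]
    · simp only [hA, if_neg h]
      by_contra h6
      rw [ag_int] at h
      exact h ((h1 b).supp _ (Ne.symm h6))
  have h6 : ∀ b : HSG.Id K, cS A b = c b := by
    intro b
    funext ξ
    by_cases h : ξ = 0
    · rw [h, ag_zero, (h1 b).zero]
    · have h7 := ag_unit A b (Units.mk0 ξ h)
      rw [h5, Units.val_mk0] at h7
      exact h7
  refine ⟨A, ⟨fun m hm => if_neg hm, ?_, fun b p u hp => ?_⟩⟩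
  · have : Finite (NCl K) := ncl_fin
    let b : NCl K → HSG.Id K := fun κ => κ.out
    have hb : ∀ κ, (QuotientGroup.mk (b κ) : NCl K) = κ := fun κ => QuotientGroup.out_eq' κ
    obtain ⟨C, hC⟩ := (Set.finite_range (fun κ => B (b κ))).bddAbove
    refine ⟨C, fun m => ?_⟩
    obtain ⟨κ, ⟨ξ, -, hm⟩, -⟩ := cls_all hb m
    rw [← hm, h5]
    exact (h2 (b κ) _).trans (hC ⟨κ, rfl⟩)
  · rw [h6]
    exact h3 b p u hp

end form

end Pool.Agent.HI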