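import Pool.Agent.Lib_helper25.HIF.DX
import Pool.Agent.Lib_helper25.HIF.AB
import Pool.Agent.Lib_helper25.HIF.AE
import Pool.Agent.Lib_helper25.HIF.AF
import Pool.Agent.Lib_helper84.LVF.LM
import Pool.Agent.Lib_helper84.LVF.LF

/-! HI, block AH: the coefficients at the points `(𝓞 ⊕ b, (1,0))` -/

namespace Pool.Agent.HI
open NumberField Complex MeasureTheory IsDedekindDomain
open scoped nonZeroDivisors MatrixGroups
open Pool.Agent.HSG (Lat Pr IsInt nI prI DD nm wm dgm dt qP NCl IsRepQ)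
open Pool.Agent.HSG.LV (Pt Tp Ts Sc Cp Dv Prim sS sZ ptS ptZ pI Res Gal gI gP wP omF lamF)

variable {K : Type} [Field K] [NumberField K] {s : K →+* ℂ}

theorem ah_mem_self (x : Kˣ) : (x : K) ∈ (prI x).m := by
  rw [← mul_one (prI x), Pool.Agent.HSG.mem_prI_mul, Units.inv_mul,
    Pool.Agent.HSG.mem_m_one]
  exact ⟨1, rfl⟩

/-- `x a` is integral if and only if `x ∈ a⁻¹` -/
theorem ah_int (x : Kˣ) (a : HSG.Id K) : IsInt (prI x * a) ↔ (x : K) ∈ (a⁻¹).m := by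
  have h1 : prI x * a = prI x / a⁻¹ := by rw [div_inv_eq_mul]
  rw [h1, Pool.Agent.HSG.isInt_div]
  constructor
  · intro h
    exact h (ah_mem_self x)
  · intro h y hy
    rw [← mul_one (prI x), Pool.Agent.HSG.mem_prI_mul, Pool.Agent.HSG.mem_m_one] at hy
    obtain ⟨r, hr⟩ := hy
    have h5 : y = r • (x : K) := by
      rw [Algebra.smul_def]
      show y = (r : K) * _
      rw [hr, mul_comm, ← mul_assoc, Units.mul_inv, one_mul]
    rw [h5]
    exact Submodule.smul_mem _ _ h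

theorem ah_j (n b : HSG.Id K) : ((DD K)⁻¹ * (n * b)⁻¹) = (n * b * DD K)⁻¹ := by
  rw [mul_inv_rev (n * b) (DD K)]

theorem ah_supp {n : HSG.Id K} {B : HSG.Id K → ℂ} (hB : ∀ m, ¬ IsInt m → B m = 0)
    (b : HSG.Id K) (ξ : K) (h : cZ n B b ξ ≠ 0) : ξ ∈ ((DD K)⁻¹ * (n * b)⁻¹).m := by
  unfold cZ at h
  split_ifs at h with h0
  · exact absurd rfl h
  · rw [ah_j]
    by_contra hcon
    exact h (hB _ fun hI => hcon ((ah_int (Units.mk0 ξ h0) _).1 hI))

theorem cs_cZ (_S : IQ s) (n : HSG.Id K) {B : HSG.Id K → ℂ} (hB : (∀ m, ¬ IsInt m → B m = 0) ∧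
    ∃ C : ℝ, ∀ m, ‖B m‖ ≤ C) (b : HSG.Id K) :
    CS (cZ n B b) ∧ GS s ((DD K)⁻¹ * (n * b)⁻¹) (cZ n B b) := by
  obtain ⟨h1, C, hC⟩ := hB
  have hC0 : 0 ≤ C := (norm_nonneg _).trans (hC 1)
  have hz : cZ n B b 0 = 0 := by
    unfold cZ
    rw [dif_pos rfl]
  have hb : ∀ ξ, ‖cZ n B b ξ‖ ≤ C := by
    intro ξ
    unfold cZ
    split_ifs
    · rw [norm_zero]
      exact hC0
    · exact hC _
  refine ⟨⟨hz, ⟨_, ah_supp h1 b⟩, C, hC0, hb⟩, hz, ah_supp h1 b, C, 0, fun ξ => ?_⟩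
  rw [Real.rpow_zero, mul_one]
  exact hb ξ

theorem coZ_uniq {q : ℕ} {ν : ℂ} (S : IQ s) (had : Ad q ν) (n : HSG.Id K) {B B' : HSG.Id K → ℂ}
    (hB : (∀ m, ¬ IsInt m → B m = 0) ∧ ∃ C : ℝ, ∀ m, ‖B m‖ ≤ C)
    (hB' : (∀ m, ¬ IsInt m → B' m = 0) ∧ ∃ C : ℝ, ∀ m, ‖B' m‖ ≤ C)
    (h : ∀ (b : HSG.Id K) (p : ℂ × ℝ) (u : ℂ × ℂ), 0 < p.2 →
      fs s q ν (cZ n B b) p u = fs s q ν (cZ n B' b) p u) : B = B' := by
  funext m
  have h1 := fs_uniq S had (cs_cZ S n hB (m / (n * DD K))).2 (cs_cZ S n hB' (m / (n * DD K))).2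
    (h (m / (n * DD K)))
  have h2 := congrFun h1 1
  unfold cZ at h2
  rw [dif_neg one_ne_zero, dif_neg one_ne_zero] at h2
  have h3 : prI (Units.mk0 (1 : K) one_ne_zero) * (n * (m / (n * DD K)) * DD K) = m := by
    have e1 : (Units.mk0 (1 : K) one_ne_zero) = 1 := by
      ext
      rfl
    rw [e1, map_one, one_mul, mul_comm n, mul_assoc, div_mul_cancel]
  rwa [h3] at h2

theorem ah_dir_ne {w : ℂ} (hw : w ≠ 0) : dir w ≠ 0 := by
  unfold dir
  exact div_ne_zero hw (by exact_mod_cast norm_ne_zero_iff.mpr hw)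

/-- dilation of a system of coefficients -/
theorem ah_gs_div {j : HSG.Id K} {c : K → ℂ} (t : Kˣ) (hc : GS s j c) :
    GS s (prI t * j) (fun ξ => c (ξ / t)) := by
  refine ⟨?_, ?_, ?_⟩
  · show c (0 / t) = 0
    rw [zero_div]
    exact hc.zero
  · intro ξ h
    rw [Pool.Agent.HSG.mem_prI_mul]
    have h1 := hc.supp _ h
    rw [div_eq_inv_mul] at h1
    rw [Units.val_inv_eq_inv_val]
    exact h1
  · obtain ⟨C, A, hCA⟩ := hc.grow
    have ht : 0 < ‖s (t : K)‖ := norm_pos_iff.mpr (by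
      rw [map_ne_zero]
      exact t.ne_zero)
    set M : ℝ := 1 + ‖s (t : K)‖⁻¹ with hM
    have hM1 : 1 ≤ M := by
      have : 0 ≤ ‖s (t : K)‖⁻¹ := by positivity
      linarith
    refine ⟨|C| * M ^ |A|, |A|, fun ξ => ?_⟩
    have h1 := hCA (ξ / t)
    have h2 : 1 + ‖s (ξ / t)‖ ≤ M * (1 + ‖s ξ‖) := by
      rw [map_div₀, norm_div, div_eq_mul_inv, hM]
      have h3 : 0 ≤ ‖s (t : K)‖⁻¹ := by positivity
      have h4 : 0 ≤ ‖s ξ‖ := norm_nonneg _
      nlinarith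
    have h5 : (1 : ℝ) ≤ 1 + ‖s (ξ / t)‖ := by
      have := norm_nonneg (s (ξ / t))
      linarith
    have h6 : (0 : ℝ) ≤ 1 + ‖s ξ‖ := by positivity
    calc ‖c (ξ / t)‖ ≤ C * (1 + ‖s (ξ / t)‖) ^ A := h1
      _ ≤ |C| * (1 + ‖s (ξ / t)‖) ^ A :=
          mul_le_mul_of_nonneg_right (le_abs_self _) (by positivity)
      _ ≤ |C| * (1 + ‖s (ξ / t)‖) ^ |A| :=
          mul_le_mul_of_nonneg_left (Real.rpow_le_rpow_of_exponent_le h5 (le_abs_self _))
            (abs_nonneg _)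
      _ ≤ |C| * (M * (1 + ‖s ξ‖)) ^ |A| :=
          mul_le_mul_of_nonneg_left (Real.rpow_le_rpow (by positivity) h2 (abs_nonneg _))
            (abs_nonneg _)
      _ = |C| * M ^ |A| * (1 + ‖s ξ‖) ^ |A| := by
          rw [Real.mul_rpow (by linarith) h6, mul_assoc]

theorem coZ_exists {q : ℕ} {ν : ℂ} {n : HSG.Id K} {om : HSG.Id K → ℂ}
    {F : ℂ × ℝ → ℂ × ℂ → Pt n → ℂ} (S : IQ s) (had : Ad q ν) (hn : IsInt n)
    (hF : IForm s q ν n om F) :
    ∃ B, ICoZ s q ν F B := by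
  classical
  have hex : ∀ b : HSG.Id K, ∃ c : K → ℂ, GS s ((DD K)⁻¹ * (n * b)⁻¹) c ∧
      ∀ (p : ℂ × ℝ) (u : ℂ × ℂ), 0 < p.2 → F p u (sZ n b) = fs s q ν c p u := by
    intro b
    refine form_gs hn hF (fun β hβ => ?_)
    refine Pool.Agent.HSG.LV.ptZ_nm hn (Pool.Agent.HSG.LV.cp_one n) ?_
    rwa [mul_one]
  choose c hc1 hc2 using hex
  -- dilation
  have hdil : ∀ (t : Kˣ) (b : HSG.Id K) (ξ : K), c (prI t * b) (ξ / t) = c b ξ := by
    intro t b ξ
    have hj : prI t * ((DD K)⁻¹ * (n * (prI t * b))⁻¹) = (DD K)⁻¹ * (n * b)⁻¹ := by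
      have e1 : (n * (prI t * b))⁻¹ = (prI t)⁻¹ * (n * b)⁻¹ := by
        rw [← mul_inv]
        congr 1
        rw [← mul_assoc, mul_comm n, mul_assoc]
      rw [e1, mul_left_comm, mul_inv_cancel_left]
    have h1 : GS s ((DD K)⁻¹ * (n * b)⁻¹) (fun ξ => c (prI t * b) (ξ / t)) := by
      rw [← hj]
      exact ah_gs_div t (hc1 (prI t * b))
    have ht : s (t : K) ≠ 0 := by
      rw [map_ne_zero]
      exact t.ne_zero
    refine congrFun (fs_uniq S had h1 (hc1 b) fun p u hp => ?_) ξ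
    have h2 := form_dgZ hF t b hp u
    have hp' : (0 : ℝ) < (s (t : K) * p.1, ‖s (t : K)‖ * p.2).2 :=
      mul_pos (norm_pos_iff.mpr ht) hp
    rw [hc2 (prI t * b) _ _ hp', fs_dgm, hc2 b p u hp] at h2
    exact mul_left_cancel₀ (pow_ne_zero q (ah_dir_ne ht)) h2
  -- the uniform bound
  have hbd : ∃ M : ℝ, ∀ (b : HSG.Id K) (ξ : K), ‖c b ξ‖ ≤ M := by
    have hfin : Finite (NCl K) := Pool.Agent.HSG.LV.ncl_fin
    have h1 : ∀ κ : NCl K, ∃ C' : ℝ, ∀ ξ, ‖c κ.out ξ‖ ≤ C' := by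
      intro κ
      obtain ⟨C, hC⟩ := hF.bdd (sZ n κ.out)
      obtain ⟨C', -, hC'⟩ := gs_bdd S had (hc1 κ.out) (C := C) (fun p u hp => by
        rw [← hc2 κ.out p u hp]
        exact hC p u hp)
      exact ⟨C', hC'⟩
    choose C' hC' using h1
    obtain ⟨M, hM⟩ := (Set.finite_range C').bddAbove
    refine ⟨M, fun b ξ => ?_⟩
    set κ : NCl K := QuotientGroup.mk b with hκ
    have h2 : (QuotientGroup.mk (κ.out) : NCl K) = QuotientGroup.mk b := by
      rw [← hκ]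
      exact Quotient.out_eq' κ
    rw [QuotientGroup.eq] at h2
    obtain ⟨t, -, ht⟩ := h2
    have h3 : b = prI t * κ.out := by
      rw [ht, mul_comm, mul_inv_cancel_left]
    have h4 := hdil t κ.out (ξ * t)
    rw [← h3, mul_div_cancel_right₀ _ t.ne_zero] at h4
    rw [h4]
    exact (hC' κ _).trans (hM ⟨κ, rfl⟩)
  -- the function on ideals
  set B : HSG.Id K → ℂ := fun m => if IsInt m then c (m / (n * DD K)) 1 else 0 with hB
  have hcZ : ∀ b : HSG.Id K, cZ n B b = c b := by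
    intro b
    funext ξ
    unfold cZ
    split_ifs with h0
    · rw [h0, (hc1 b).zero]
    · have h1 : prI (Units.mk0 ξ h0) * (n * b * DD K) / (n * DD K) =
          prI (Units.mk0 ξ h0) * b := by
        rw [mul_assoc n b, mul_comm b, ← mul_assoc n, mul_left_comm, mul_comm (n * DD K),
          mul_div_cancel_right]
      have h2 : c (prI (Units.mk0 ξ h0) * b) 1 = c b ξ := by
        have h3 := hdil (Units.mk0 ξ h0) b ξ
        rwa [Units.val_mk0, div_self h0] at h3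
      simp only [hB]
      rw [h1, h2]
      split_ifs with h3
      · rfl
      · by_contra hcon
        apply h3
        rw [ah_int, ← ah_j]
        exact (hc1 b).supp ξ (fun h => hcon h.symm)
  obtain ⟨M, hM⟩ := hbd
  refine ⟨B, fun m hm => if_neg hm, ⟨max M 0, fun m => ?_⟩, fun b p u hp => ?_⟩
  · simp only [hB]
    split_ifs
    · exact (hM _ _).trans (le_max_left _ _)
    · rw [norm_zero]
      exact le_max_right _ _
  · rw [hcZ b]
    exact hc2 b p u hp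

end Pool.Agent.HI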