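import Pool.Agent.Lib_helper25.HIF.DX
import Pool.Agent.Lib_helper25.HIF.AB
import Pool.Agent.Lib_helper25.HIF.AC
import Pool.Agent.Lib_helper25.HIF.AF
import Pool.Agent.Lib_helper25.HIF.AG
import Pool.Agent.Lib_helper84.LVF.LA
import Pool.Agent.Lib_helper84.LVF.LF
import Pool.Agent.Lib_helper84.LVF.LG
import Pool.Agent.Lib_helper84.HSGF.GA1
import Pool.Agent.Lib_helper84.HSGF.GA3
import Pool.Agent.Lib_helper84.HSGF.GD1

/-! # Project HI, block AI: Hecke operators at the points `(b ⊕ 𝓞, (0,1))` -/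

namespace Pool.Agent.HI
open NumberField Complex MeasureTheory IsDedekindDomain
open scoped nonZeroDivisors MatrixGroups
open Pool.Agent.HSG (Lat Pr IsInt nI prI DD nm wm dgm dt qP NCl IsRepQ)
open Pool.Agent.HSG.LV (Pt Tp Ts Sc Cp Dv Prim sS sZ ptS ptZ pI Res Gal gI gP wP omF lamF)

variable {K : Type} [Field K] [NumberField K] {s : K →+* ℂ}

/-- the trace of an imaginary quadratic field -/
theorem ai_tr (S : IQ s) (x : K) : ((Algebra.trace ℚ K x : ℚ) : ℝ) = 2 * (s x).re := by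
  classical
  have h1 := trace_eq_sum_embeddings (K := ℚ) ℂ (x := x)
  have h2 : ∑ φ : K →+* ℂ, φ x = ∑ σ : K →ₐ[ℚ] ℂ, σ x :=
    Fintype.sum_equiv (RingHom.equivRatAlgHom K ℂ) (fun φ => φ x) (fun σ => σ x)
      (fun _ => by simp [RingHom.equivRatAlgHom_apply])
  have hne : s ≠ ComplexEmbedding.conjugate s := by
    intro h
    obtain ⟨y, hy⟩ := S.im
    have h3 := RingHom.congr_fun h y
    rw [ComplexEmbedding.conjugate_coe_eq] at h3
    exact hy (Complex.conj_eq_iff_im.1 h3.symm)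
  have hu : (Finset.univ : Finset (K →+* ℂ)) = {s, ComplexEmbedding.conjugate s} := by
    symm
    apply Finset.eq_of_subset_of_card_le (Finset.subset_univ _)
    rw [Finset.card_pair hne, Finset.card_univ, NumberField.Embeddings.card K ℂ, S.deg]
  rw [← h2, hu, Finset.sum_pair hne, ComplexEmbedding.conjugate_coe_eq, Complex.add_conj] at h1
  have h3 : ((Algebra.trace ℚ K x : ℚ) : ℂ) = ((2 * (s x).re : ℝ) : ℂ) := by
    rw [← h1]
    rfl
  exact_mod_cast h3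

theorem ai_dual (S : IQ s) (b : HSG.Id K) (ν : K) :
    (∀ y ∈ b.m, ∃ n : ℤ, 2 * (s ν * s y).re = n) ↔ ν ∈ ((DD K)⁻¹ * b⁻¹).m := by
  have h1 : (((DD K)⁻¹ * b⁻¹ : HSG.Id K) : FractionalIdeal (𝓞 K)⁰ K) =
      FractionalIdeal.dual ℤ ℚ (b : FractionalIdeal (𝓞 K)⁰ K) := by
    rw [Units.val_mul, Units.val_inv_eq_inv_val, Units.val_inv_eq_inv_val, HSG.gd1_DD_val,
      inv_inv, ← FractionalIdeal.dual_eq_mul_inv]
  have h2 : ν ∈ ((DD K)⁻¹ * b⁻¹).m ↔
      ν ∈ FractionalIdeal.dual ℤ ℚ (b : FractionalIdeal (𝓞 K)⁰ K) := by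
    rw [← h1]
    rfl
  rw [h2, FractionalIdeal.mem_dual b.ne_zero]
  refine forall_congr' fun y => imp_congr_right fun _ => ?_
  rw [Algebra.traceForm_apply, RingHom.mem_range, ← map_mul, ← ai_tr S]
  refine exists_congr fun n => ?_
  constructor
  · intro h
    have h3 : Algebra.trace ℚ K (ν * y) = (n : ℚ) := by exact_mod_cast h
    rw [h3]
    rfl
  · intro h
    rw [← h]
    simp

theorem ai_add (z w : ℂ) : e2 (z + w) = e2 z * e2 w := by
  unfold e2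
  rw [← Complex.exp_add, Complex.add_re]
  congr 1
  push_cast
  ring

theorem ai_one (w : ℂ) : (∃ n : ℤ, 2 * w.re = n) ↔ e2 w = 1 := by
  unfold e2
  rw [Complex.exp_eq_one_iff]
  have hpi : (2 * Real.pi * Complex.I : ℂ) ≠ 0 := by
    simp [Real.pi_ne_zero]
  constructor
  · rintro ⟨n, hn⟩
    refine ⟨n, ?_⟩
    rw [hn]
    push_cast
    ring
  · rintro ⟨n, hn⟩
    refine ⟨n, ?_⟩
    rw [mul_comm] at hn
    have h1 := mul_right_cancel₀ hpi hn
    exact_mod_cast h1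

theorem ai_norm (w : ℂ) : ‖e2 w‖ = 1 := by
  unfold e2
  rw [show (2 * Real.pi * I * ((2 * w.re : ℝ) : ℂ) : ℂ) =
    ((2 * Real.pi * (2 * w.re) : ℝ) : ℂ) * I by push_cast; ring]
  exact Complex.norm_exp_ofReal_mul_I _

/-- the character sum -/
theorem ai_char (S : IQ s) {x y : HSG.Id K} {R : Finset K} (hR : IsRepQ x y R)
    {ν : K} (hν : ν ∈ ((DD K)⁻¹ * y⁻¹).m) :
    (ν ∈ ((DD K)⁻¹ * x⁻¹).m → ∀ β ∈ R, e2 (s ν * s β) = 1) ∧
    (ν ∉ ((DD K)⁻¹ * x⁻¹).m → ∑ β ∈ R, e2 (s ν * s β) = 0) := by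
  classical
  have hadd : ∀ β γ : K, e2 (s ν * s (β + γ)) = e2 (s ν * s β) * e2 (s ν * s γ) := by
    intro β γ
    rw [map_add, mul_add, ai_add]
  have hy := (ai_dual S y ν).mpr hν
  constructor
  · intro hx β hβ
    rw [← ai_one]
    exact (ai_dual S x ν).mpr hx β (hR.mem β hβ)
  · intro hx
    rw [← ai_dual S] at hx
    push Not at hx
    obtain ⟨y0, hy0, hne⟩ := hx
    have hne1 : e2 (s ν * s y0) ≠ 1 := by
      intro h1
      obtain ⟨n, hn⟩ := (ai_one _).mpr h1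
      exact hne n hn
    have hex : ∀ β ∈ R, ∃ β' ∈ R, (β + y0) - β' ∈ y.m := fun β hβ =>
      hR.sur _ (x.m.add_mem (hR.mem β hβ) hy0)
    choose! σ hσ1 hσ2 using hex
    have hinj : Set.InjOn σ R := by
      intro β hβ γ hγ hβγ
      apply hR.inj β hβ γ hγ
      have h1 := y.m.sub_mem (hσ2 β hβ) (hσ2 γ hγ)
      rw [hβγ] at h1
      have h2 : β + y0 - σ γ - (γ + y0 - σ γ) = β - γ := by ring
      rwa [h2] at h1
    have himg : R.image σ = R := by
      apply Finset.eq_of_subset_of_card_le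
      · intro β hβ
        obtain ⟨γ, hγ, rfl⟩ := Finset.mem_image.mp hβ
        exact hσ1 γ hγ
      · rw [Finset.card_image_of_injOn hinj]
    set f : K → ℂ := fun β => e2 (s ν * s β) with hf
    have h1 : ∑ β ∈ R, f β = f y0 * ∑ β ∈ R, f β := by
      conv_lhs => rw [← himg]
      rw [Finset.sum_image hinj, Finset.mul_sum]
      refine Finset.sum_congr rfl fun β hβ => ?_
      have h2 : f (β + y0) = f (σ β) := by
        have h3 : β + y0 = σ β + (β + y0 - σ β) := by ring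
        have h4 : f (β + y0 - σ β) = 1 := (ai_one _).mp (hy _ (hσ2 β hβ))
        rw [h3]
        show f (σ β + (β + y0 - σ β)) = f (σ β)
        have h5 : f (σ β + (β + y0 - σ β)) = f (σ β) * f (β + y0 - σ β) := hadd _ _
        rw [h5, h4, mul_one]
      rw [← h2]
      have h6 : f (β + y0) = f β * f y0 := hadd _ _
      rw [h6, mul_comm]
    have h2 : (1 - f y0) * ∑ β ∈ R, f β = 0 := by
      rw [_root_.sub_mul, one_mul, ← h1, sub_self]
    rcases mul_eq_zero.mp h2 with h3 | h3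
    · exact absurd (sub_eq_zero.mp h3).symm hne1
    · exact h3

theorem ai_le (p : Pr K) (x : HSG.Id K) : HSG.Id.m (pI p * x) ≤ HSG.Id.m x := by
  rw [← HSG.isInt_div, mul_div_assoc, div_self', mul_one]
  exact (HSG.pI_facts p).2.1

/-- the character sum over `b⁻¹/p b⁻¹` -/
theorem sum_e2 (S : IQ s) {x : HSG.Id K} {p : Pr K} {R : Finset K}
    (hR : IsRepQ x (pI p * x) R) {ξ : K} (hξ : ξ ∈ ((DD K)⁻¹ * (pI p * x)⁻¹).m) :
    (ξ ∈ ((DD K)⁻¹ * x⁻¹).m → ∑ β ∈ R, e2 (s ξ * s β) = (qP p : ℂ)) ∧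
    (ξ ∉ ((DD K)⁻¹ * x⁻¹).m → ∑ β ∈ R, e2 (s ξ * s β) = 0) := by
  have hle := ai_le p x
  obtain ⟨h1, h2⟩ := ai_char S hR hξ
  refine ⟨fun h => ?_, h2⟩
  rw [Finset.sum_congr rfl (h1 h), Finset.sum_const, nsmul_eq_mul, mul_one]
  have h8 := HSG.repq_card hle hR
  rw [HSG.nI_mul, mul_div_cancel_right₀ _ (HSG.nI_pos _).ne', (HSG.pI_facts p).2.2.1] at h8
  exact_mod_cast h8


/-! ### Ideals -/

theorem ai_one_mem (c : HSG.Id K) : (1 : K) ∈ c.m ↔ IsInt c⁻¹ := by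
  have h : IsInt c⁻¹ ↔ (1 : HSG.Id K).m ≤ c.m := by
    rw [← HSG.isInt_div, one_div]
  rw [h]
  constructor
  · intro h1 x hx
    obtain ⟨y, hy⟩ := (HSG.mem_m_one x).1 hx
    have h2 := c.m.smul_mem y h1
    rw [← hy]
    have h3 : y • (1 : K) = (y : K) := by
      rw [Algebra.smul_def, mul_one]
    rwa [h3] at h2
  · intro h1
    exact h1 ((HSG.mem_m_one 1).2 ⟨1, by simp⟩)

theorem ai_mem (x : Kˣ) (a : HSG.Id K) : (x : K) ∈ a.m ↔ IsInt (prI x * a⁻¹) := by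
  have h1 := HSG.mem_prI_mul x⁻¹ a 1
  rw [inv_inv, mul_one] at h1
  rw [← h1, ai_one_mem, mul_inv, map_inv, inv_inv]

theorem ai_div_int {a : HSG.Id K} (p : Pr K) (h : IsInt (a / pI p)) : IsInt a := by
  have := HSG.isInt_mul h (HSG.pI_facts p).2.1
  rwa [div_mul_cancel] at this

/-- the value of the character at a prime which does not divide the level -/
theorem ai_wP {n : HSG.Id K} {om : HSG.Id K → ℂ} {p : Pr K} (hp : ¬ Dv p n) :
    wP n om p = om (pI p) := by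
  unfold wP omF
  rw [if_pos (HSG.LV.cp_pI hp)]

theorem ai_wP0 {n : HSG.Id K} {om : HSG.Id K → ℂ} {p : Pr K} (hp : Dv p n) :
    wP n om p = 0 := by
  unfold wP omF
  rw [if_neg]
  intro h
  exact h.2 p ((HSG.LV.dv_pI p p).2 rfl) hp

/-! ### Linear combinations -/

theorem ai_smul (q : ℕ) (ν : ℂ) (c : K → ℂ) (a : ℂ) (P : ℂ × ℝ) (u : ℂ × ℂ) :
    fs s q ν (fun ξ => a * c ξ) P u = a * fs s q ν c P u := by
  unfold fs
  rw [← tsum_mul_left]
  refine tsum_congr fun ξ => ?_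
  ring

/-- a sum of translates of a Fourier series -/
theorem ai_shift (S : IQ s) {q : ℕ} {ν : ℂ} (had : Ad q ν) {j : HSG.Id K} {c : K → ℂ}
    (hc : GS s j c) {P : ℂ × ℝ} (hP : 0 < P.2) (u : ℂ × ℂ) (R : Finset K) :
    ∑ β ∈ R, fs s q ν c (P.1 + s β, P.2) u =
      fs s q ν (fun ξ => c ξ * ∑ β ∈ R, e2 (s ξ * s β)) P u := by
  have h1 : ∀ β ∈ R, fs s q ν c (P.1 + s β, P.2) u =
      ∑' ξ : K, (c ξ * e2 (s ξ * s β)) * (Wh q ν (s ξ) P.2 u * e2 (s ξ * P.1)) :=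
    fun β _ => fs_tr s q ν c P u (s β)
  rw [Finset.sum_congr rfl h1, ← Summable.tsum_finsetSum]
  · unfold fs
    refine tsum_congr fun ξ => ?_
    show _ = (c ξ * ∑ β ∈ R, e2 (s ξ * s β)) * _
    rw [Finset.mul_sum, Finset.sum_mul]
  · intro β _
    refine Summable.of_norm ?_
    refine (gs_summable S had hc hP u).congr fun ξ => ?_
    rw [norm_mul, norm_mul (c ξ * e2 _), norm_mul (c ξ) (e2 _), ai_norm (s ξ * s β), mul_one]

section form

variable {q : ℕ} {ν : ℂ} {n : HSG.Id K} {om : HSG.Id K → ℂ} {F : ℂ × ℝ → ℂ × ℂ → Pt n → ℂ}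

open Classical in
/-- the coefficients of the sum over the representatives -/
theorem ai_coef (S : IQ s) {A : HSG.Id K → ℂ} (hA : ∀ m, ¬ IsInt m → A m = 0) (p : Pr K)
    (b : HSG.Id K) {R : Finset K} (hR : IsRepQ b⁻¹ (pI p * b⁻¹) R) :
    (fun ξ => cS A (b / pI p) ξ * ∑ β ∈ R, e2 (s ξ * s β)) =
      cS (fun m => if IsInt m then (qP p : ℂ) * A (pI p * m) else 0) b := by
  funext ξ
  by_cases hξ : ξ = 0
  · unfold cS
    rw [dif_pos hξ, dif_pos hξ, zero_mul]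
  · unfold cS
    rw [dif_neg hξ, dif_neg hξ]
    obtain ⟨x, hx⟩ : ∃ x : Kˣ, x = Units.mk0 ξ hξ := ⟨_, rfl⟩
    have hxξ : (x : K) = ξ := by rw [hx]; rfl
    rw [← hx]
    obtain ⟨M, hM⟩ : ∃ M : HSG.Id K, M = prI x * DD K / b := ⟨_, rfl⟩
    have e1 : prI x * DD K / (b / pI p) = pI p * M := by
      rw [hM, div_div_eq_mul_div, mul_div_assoc', mul_comm (pI p)]
    have e3 : ξ ∈ ((DD K)⁻¹ * (b⁻¹)⁻¹).m ↔ IsInt M := by
      rw [← hxξ, ai_mem, hM, mul_inv, inv_inv, inv_inv, ← mul_assoc, div_eq_mul_inv]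
    have e4 : ξ ∈ ((DD K)⁻¹ * (pI p * b⁻¹)⁻¹).m ↔ IsInt (pI p * M) := by
      rw [← hxξ, ai_mem, hM, mul_inv, inv_inv, inv_inv, div_eq_mul_inv, ← mul_assoc,
        mul_left_comm, ← mul_assoc, ← mul_assoc]
    rw [← hM, e1]
    show _ = if IsInt M then (qP p : ℂ) * A (pI p * M) else 0
    by_cases hMi : IsInt M
    · have hMp : IsInt (pI p * M) := HSG.isInt_mul (HSG.pI_facts p).2.1 hMi
      rw [(sum_e2 S hR (e4.2 hMp)).1 (e3.2 hMi), if_pos hMi, mul_comm]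
    · rw [if_neg hMi]
      by_cases hMp : IsInt (pI p * M)
      · rw [(sum_e2 S hR (e4.2 hMp)).2 (fun h => hMi (e3.1 h)), mul_zero]
      · rw [hA _ hMp, zero_mul]

theorem ai_coef2 (A : HSG.Id K → ℂ) (p : Pr K) (b : HSG.Id K) :
    cS A (pI p * b) = cS (fun m => A (m / pI p)) b := by
  funext ξ
  by_cases hξ : ξ = 0
  · unfold cS
    rw [dif_pos hξ, dif_pos hξ]
  · unfold cS
    rw [dif_neg hξ, dif_neg hξ]
    congr 1
    rw [div_div, mul_comm b]

open Classical in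
theorem ai_main (S : IQ s) (had : Ad q ν) (hn : IsInt n) {lam : Pr K → ℂ}
    (h : IEig s q ν n om lam F) {A : HSG.Id K → ℂ} (hA : ICoS s q ν F A) (p : Pr K)
    (b : HSG.Id K) (P : ℂ × ℝ) (u : ℂ × ℂ) (hP : 0 < P.2) :
    fs s q ν (cS (fun m => (if IsInt m then (qP p : ℂ) * A (pI p * m) else 0) +
      wP n om p * A (m / pI p)) b) P u =
      fs s q ν (cS (fun m => ((√(qP p : ℝ) : ℝ) : ℂ) * lam p * A m) b) P u := by
  have hA' : (∀ m, ¬ IsInt m → A m = 0) ∧ ∃ C : ℝ, ∀ m, ‖A m‖ ≤ C := ⟨hA.int, hA.bdd⟩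
  obtain ⟨C, hC⟩ := hA.bdd
  have hC0 : 0 ≤ C := (norm_nonneg _).trans (hC 1)
  have h1' : (∀ m, ¬ IsInt m → (fun m => if IsInt m then (qP p : ℂ) * A (pI p * m) else 0) m = 0) ∧
      ∃ C : ℝ, ∀ m, ‖(fun m => if IsInt m then (qP p : ℂ) * A (pI p * m) else 0) m‖ ≤ C := by
    refine ⟨fun m hm => if_neg hm, (qP p : ℝ) * C, fun m => ?_⟩
    show ‖(if IsInt m then (qP p : ℂ) * A (pI p * m) else 0 : ℂ)‖ ≤ _
    by_cases hm : IsInt m
    · rw [if_pos hm, norm_mul, Complex.norm_natCast]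
      exact mul_le_mul_of_nonneg_left (hC _) (Nat.cast_nonneg _)
    · rw [if_neg hm, norm_zero]
      positivity
  have h3' : (∀ m, ¬ IsInt m → (fun m => A (m / pI p)) m = 0) ∧
      ∃ C : ℝ, ∀ m, ‖(fun m => A (m / pI p)) m‖ ≤ C :=
    ⟨fun m hm => hA.int _ fun h => hm (ai_div_int p h), C, fun m => hC _⟩
  have g1 := (cs_cS S h1' b).2
  have g3 := (cs_cS S h3' b).2
  have hlin := (gs_sub S had g1 g3 1 (wP n om p)).2 P u hP
  have hL : (fun ξ => 1 * cS (fun m => if IsInt m then (qP p : ℂ) * A (pI p * m) else 0) b ξ +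
      wP n om p * cS (fun m => A (m / pI p)) b ξ) =
      cS (fun m => (if IsInt m then (qP p : ℂ) * A (pI p * m) else 0) +
        wP n om p * A (m / pI p)) b := by
    funext ξ
    by_cases hξ : ξ = 0
    · simp [cS, hξ]
    · simp [cS, hξ]
  have hR : (fun ξ => (((√(qP p : ℝ) : ℝ) : ℂ) * lam p) * cS A b ξ) =
      cS (fun m => ((√(qP p : ℝ) : ℝ) : ℂ) * lam p * A m) b := by
    funext ξ
    by_cases hξ : ξ = 0
    · simp [cS, hξ]
    · simp [cS, hξ]
  rw [← hL, hlin, ← hR, ai_smul, ← hA.exp b P u hP, ← h.up p P u (sS n b) hP, one_mul]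
  obtain ⟨R, hRep⟩ := HSG.repq_exists (ai_le p b⁻¹)
  have hsum : ∑ β ∈ R, F P u ((sS n (b / pI p)).mul (nm β : GL (Fin 2) K)) =
      fs s q ν (cS (fun m => if IsInt m then (qP p : ℂ) * A (pI p * m) else 0) b) P u := by
    rw [← ai_coef S hA.int p b hRep, ← ai_shift S had (cs_cS S hA' (b / pI p)).2 hP u R]
    refine Finset.sum_congr rfl fun β _ => ?_
    rw [form_nm h.form β hP u, hA.exp (b / pI p) (P.1 + s β, P.2) u hP]
  by_cases hp : Dv p n
  · rw [HSG.LV.tp_S_dv hn hp b hRep, hsum, ai_wP0 hp, zero_mul, add_zero]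
  · rw [HSG.LV.tp_S hn hp b hRep, hsum, add_comm]
    congr 1
    rw [h.form.scal _ _ _ (HSG.LV.ptS_sc hn (HSG.LV.cp_pI hp)).1 P u hP, ai_wP hp,
      hA.exp (pI p * b) P u hP, ai_coef2]

theorem hec_S (S : IQ s) (had : Ad q ν) (hn : IsInt n) {lam : Pr K → ℂ}
    (h : IEig s q ν n om lam F) {A : HSG.Id K → ℂ} (hA : ICoS s q ν F A) (p : Pr K)
    (m : HSG.Id K) (hm : IsInt m) : (qP p : ℂ) * A (pI p * m) +
      wP n om p * A (m / pI p) = ((√(qP p : ℝ) : ℝ) : ℂ) * lam p * A m := by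
  classical
  obtain ⟨C, hC⟩ := hA.bdd
  have hC0 : 0 ≤ C := (norm_nonneg _).trans (hC 1)
  have key := coS_uniq S had (A := fun m => (if IsInt m then (qP p : ℂ) * A (pI p * m) else 0) +
      wP n om p * A (m / pI p)) (A' := fun m => ((√(qP p : ℝ) : ℝ) : ℂ) * lam p * A m)
    ⟨fun m hm => ?_, (qP p : ℝ) * C + ‖wP n om p‖ * C, fun m => ?_⟩
    ⟨fun m hm => ?_, ‖((√(qP p : ℝ) : ℝ) : ℂ) * lam p‖ * C, fun m => ?_⟩
    (fun b P u hP => ai_main S had hn h hA p b P u hP)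
  · have key1 := congrFun key m
    simpa only [if_pos hm] using key1
  · show (if IsInt m then (qP p : ℂ) * A (pI p * m) else 0) + wP n om p * A (m / pI p) = 0
    rw [if_neg hm, hA.int _ (fun h => hm (ai_div_int p h)), mul_zero, add_zero]
  · refine (norm_add_le _ _).trans (add_le_add ?_ ?_)
    · by_cases hm : IsInt m
      · rw [if_pos hm, norm_mul, Complex.norm_natCast]
        exact mul_le_mul_of_nonneg_left (hC _) (Nat.cast_nonneg _)
      · rw [if_neg hm, norm_zero]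
        positivity
    · rw [norm_mul]
      exact mul_le_mul_of_nonneg_left (hC _) (norm_nonneg _)
  · show ((√(qP p : ℝ) : ℝ) : ℂ) * lam p * A m = 0
    rw [hA.int _ hm, mul_zero]
  · show ‖((√(qP p : ℝ) : ℝ) : ℂ) * lam p * A m‖ ≤ _
    rw [norm_mul]
    exact mul_le_mul_of_nonneg_left (hC _) (norm_nonneg _)

end form

end Pool.Agent.HI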