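import Pool.Agent.Lib_helper25.HIF.DX
import Pool.Agent.Lib_helper25.HIF.AB
import Pool.Agent.Lib_helper25.HIF.AC
import Pool.Agent.Lib_helper25.HIF.AF
import Pool.Agent.Lib_helper25.HIF.AH
import Pool.Agent.Lib_helper25.HIF.AI
import Pool.Agent.Lib_helper84.LVF.LA
import Pool.Agent.Lib_helper84.LVF.LF
import Pool.Agent.Lib_helper84.LVF.LH
import Pool.Agent.Lib_helper84.HSGF.GA1
import Pool.Agent.Lib_helper84.HSGF.GA3

/-! # Project HI, block AJ: Hecke operators at the points `(𝓞 ⊕ b, (1,0))` -/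

namespace Pool.Agent.HI
open NumberField Complex MeasureTheory IsDedekindDomain
open scoped nonZeroDivisors MatrixGroups
open Pool.Agent.HSG (Lat Pr IsInt nI prI DD nm wm dgm dt qP NCl IsRepQ)
open Pool.Agent.HSG.LV (Pt Tp Ts Sc Cp Dv Prim sS sZ ptS ptZ pI Res Gal gI gP wP omF lamF)

variable {K : Type} [Field K] [NumberField K] {s : K →+* ℂ}

theorem aj_norm (w : ℂ) : ‖e2 w‖ = 1 := by
  unfold e2
  rw [show (2 * Real.pi * I * ((2 * w.re : ℝ) : ℂ) : ℂ) =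
    ((2 * Real.pi * (2 * w.re) : ℝ) : ℂ) * I by push_cast; ring]
  exact Complex.norm_exp_ofReal_mul_I _

theorem aj_le (p : Pr K) (x : HSG.Id K) : HSG.Id.m (pI p * x) ≤ HSG.Id.m x := by
  rw [← HSG.isInt_div, mul_div_assoc, div_self', mul_one]
  exact (HSG.pI_facts p).2.1

theorem aj_one_mem (c : HSG.Id K) : (1 : K) ∈ c.m ↔ IsInt c⁻¹ := by
  have h : IsInt c⁻¹ ↔ (1 : HSG.Id K).m ≤ c.m := by
    rw [← HSG.isInt_div, one_div]
  rw [h]
  constructor
  · intro h1 x hx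
    obtain ⟨y, hy⟩ := (HSG.mem_m_one x).1 hx
    have h2 := c.m.smul_mem y h1
    rw [← hy]
    have h3 : y • (1 : K) = (y : K) := by
      rw [Algebra.smul_def, mul_one]
    rwa [h3] at h2
  · intro h1
    exact h1 ((HSG.mem_m_one 1).2 ⟨1, by simp⟩)

theorem aj_mem (x : Kˣ) (a : HSG.Id K) : (x : K) ∈ a.m ↔ IsInt (prI x * a⁻¹) := by
  have h1 := HSG.mem_prI_mul x⁻¹ a 1
  rw [inv_inv, mul_one] at h1
  rw [← h1, aj_one_mem, mul_inv, map_inv, inv_inv]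

theorem aj_div_int {a : HSG.Id K} (p : Pr K) (h : IsInt (a / pI p)) : IsInt a := by
  have := HSG.isInt_mul h (HSG.pI_facts p).2.1
  rwa [div_mul_cancel] at this

theorem aj_wP {n : HSG.Id K} {om : HSG.Id K → ℂ} {p : Pr K} (hp : ¬ Dv p n) :
    wP n om p = om (pI p) := by
  unfold wP omF
  rw [if_pos (HSG.LV.cp_pI hp)]

theorem aj_smul (q : ℕ) (ν : ℂ) (c : K → ℂ) (a : ℂ) (P : ℂ × ℝ) (u : ℂ × ℂ) :
    fs s q ν (fun ξ => a * c ξ) P u = a * fs s q ν c P u := by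
  unfold fs
  rw [← tsum_mul_left]
  refine tsum_congr fun ξ => ?_
  ring

theorem aj_shift (S : IQ s) {q : ℕ} {ν : ℂ} (had : Ad q ν) {j : HSG.Id K} {c : K → ℂ}
    (hc : GS s j c) {P : ℂ × ℝ} (hP : 0 < P.2) (u : ℂ × ℂ) (R : Finset K) :
    ∑ β ∈ R, fs s q ν c (P.1 + s β, P.2) u =
      fs s q ν (fun ξ => c ξ * ∑ β ∈ R, e2 (s ξ * s β)) P u := by
  have h1 : ∀ β ∈ R, fs s q ν c (P.1 + s β, P.2) u =
      ∑' ξ : K, (c ξ * e2 (s ξ * s β)) * (Wh q ν (s ξ) P.2 u * e2 (s ξ * P.1)) :=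
    fun β _ => fs_tr s q ν c P u (s β)
  rw [Finset.sum_congr rfl h1, ← Summable.tsum_finsetSum]
  · unfold fs
    refine tsum_congr fun ξ => ?_
    show _ = (c ξ * ∑ β ∈ R, e2 (s ξ * s β)) * _
    rw [Finset.mul_sum, Finset.sum_mul]
  · intro β _
    refine Summable.of_norm ?_
    refine (gs_summable S had hc hP u).congr fun ξ => ?_
    rw [norm_mul, norm_mul (c ξ * e2 _), norm_mul (c ξ) (e2 _), aj_norm (s ξ * s β), mul_one]

section form

variable {q : ℕ} {ν : ℂ} {n : HSG.Id K} {om : HSG.Id K → ℂ} {F : ℂ × ℝ → ℂ × ℂ → Pt n → ℂ}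

open Classical in
/-- the coefficients of the sum over the representatives -/
theorem aj_coef (S : IQ s) {B : HSG.Id K → ℂ} (hB : ∀ m, ¬ IsInt m → B m = 0) (p : Pr K)
    (b : HSG.Id K) {R : Finset K} (hR : IsRepQ (n * b) (pI p * (n * b)) R) :
    (fun ξ => cZ n B (pI p * b) ξ * ∑ β ∈ R, e2 (s ξ * s β)) =
      cZ n (fun m => if IsInt m then (qP p : ℂ) * B (pI p * m) else 0) b := by
  funext ξ
  by_cases hξ : ξ = 0
  · unfold cZ
    rw [dif_pos hξ, dif_pos hξ, zero_mul]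
  · unfold cZ
    rw [dif_neg hξ, dif_neg hξ]
    obtain ⟨x, hx⟩ : ∃ x : Kˣ, x = Units.mk0 ξ hξ := ⟨_, rfl⟩
    have hxξ : (x : K) = ξ := by rw [hx]; rfl
    rw [← hx]
    obtain ⟨M, hM⟩ : ∃ M : HSG.Id K, M = prI x * (n * b * DD K) := ⟨_, rfl⟩
    have e1 : prI x * (n * (pI p * b) * DD K) = pI p * M := by
      rw [hM]
      calc prI x * (n * (pI p * b) * DD K) = prI x * (pI p * (n * b * DD K)) := by
            rw [mul_left_comm n, mul_assoc (pI p)]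
        _ = pI p * (prI x * (n * b * DD K)) := by rw [mul_left_comm]
    have e3 : ξ ∈ ((DD K)⁻¹ * (n * b)⁻¹).m ↔ IsInt M := by
      rw [← hxξ, aj_mem, hM, mul_inv, inv_inv, inv_inv, mul_comm (DD K)]
    have e4 : ξ ∈ ((DD K)⁻¹ * (pI p * (n * b))⁻¹).m ↔ IsInt (pI p * M) := by
      rw [← hxξ, aj_mem, hM, mul_inv, inv_inv, inv_inv, mul_comm (DD K), mul_assoc (pI p),
        mul_left_comm]
    rw [← hM, e1]
    show _ = if IsInt M then (qP p : ℂ) * B (pI p * M) else 0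
    by_cases hMi : IsInt M
    · have hMp : IsInt (pI p * M) := HSG.isInt_mul (HSG.pI_facts p).2.1 hMi
      rw [(sum_e2 S hR (e4.2 hMp)).1 (e3.2 hMi), if_pos hMi, mul_comm]
    · rw [if_neg hMi]
      by_cases hMp : IsInt (pI p * M)
      · rw [(sum_e2 S hR (e4.2 hMp)).2 (fun h => hMi (e3.1 h)), mul_zero]
      · rw [hB _ hMp, zero_mul]

theorem aj_coef2 (n : HSG.Id K) (B : HSG.Id K → ℂ) (p : Pr K) (b : HSG.Id K) :
    cZ n B (b / pI p) = cZ n (fun m => B (m / pI p)) b := by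
  funext ξ
  by_cases hξ : ξ = 0
  · unfold cZ
    rw [dif_pos hξ, dif_pos hξ]
  · unfold cZ
    rw [dif_neg hξ, dif_neg hξ]
    show B _ = B _
    congr 1
    obtain ⟨x, hx⟩ : ∃ x : Kˣ, x = Units.mk0 ξ hξ := ⟨_, rfl⟩
    rw [← hx, div_eq_mul_inv, div_eq_mul_inv]
    calc prI x * (n * (b * (pI p)⁻¹) * DD K) = prI x * (n * b * ((pI p)⁻¹ * DD K)) := by
          rw [← mul_assoc n, mul_assoc (n * b)]
      _ = prI x * (n * b * DD K) * (pI p)⁻¹ := by
          rw [mul_comm (pI p)⁻¹, ← mul_assoc (n * b), ← mul_assoc (prI x)]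

open Classical in
/-- boundedness of the new coefficients -/
theorem aj_bd1 {B : HSG.Id K → ℂ} (hB : ICoZ s q ν F B) (p : Pr K) :
    (∀ m, ¬ IsInt m → (fun m => if IsInt m then (qP p : ℂ) * B (pI p * m) else 0) m = 0) ∧
      ∃ C : ℝ, ∀ m, ‖(fun m => if IsInt m then (qP p : ℂ) * B (pI p * m) else 0) m‖ ≤ C := by
  obtain ⟨C, hC⟩ := hB.bdd
  have hC0 : 0 ≤ C := (norm_nonneg _).trans (hC 1)
  refine ⟨fun m hm => if_neg hm, (qP p : ℝ) * C, fun m => ?_⟩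
  show ‖(if IsInt m then (qP p : ℂ) * B (pI p * m) else 0 : ℂ)‖ ≤ _
  by_cases hm : IsInt m
  · rw [if_pos hm, norm_mul, Complex.norm_natCast]
    exact mul_le_mul_of_nonneg_left (hC _) (Nat.cast_nonneg _)
  · rw [if_neg hm, norm_zero]
    positivity

theorem aj_bd3 {B : HSG.Id K → ℂ} (hB : ICoZ s q ν F B) (p : Pr K) :
    (∀ m, ¬ IsInt m → (fun m => B (m / pI p)) m = 0) ∧
      ∃ C : ℝ, ∀ m, ‖(fun m => B (m / pI p)) m‖ ≤ C := by
  obtain ⟨C, hC⟩ := hB.bdd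
  exact ⟨fun m hm => hB.int _ fun h => hm (aj_div_int p h), C, fun m => hC _⟩

theorem aj_bd4 {B : HSG.Id K → ℂ} (hB : ICoZ s q ν F B) (a : ℂ) :
    (∀ m, ¬ IsInt m → (fun m => a * B m) m = 0) ∧ ∃ C : ℝ, ∀ m, ‖(fun m => a * B m) m‖ ≤ C := by
  obtain ⟨C, hC⟩ := hB.bdd
  refine ⟨fun m hm => ?_, ‖a‖ * C, fun m => ?_⟩
  · show a * B m = 0
    rw [hB.int _ hm, mul_zero]
  · show ‖a * B m‖ ≤ _
    rw [norm_mul]
    exact mul_le_mul_of_nonneg_left (hC _) (norm_nonneg _)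

theorem aj_smulZ (n : HSG.Id K) (B : HSG.Id K → ℂ) (b : HSG.Id K) (a : ℂ) :
    (fun ξ => a * cZ n B b ξ) = cZ n (fun m => a * B m) b := by
  funext ξ
  by_cases hξ : ξ = 0
  · simp [cZ, hξ]
  · simp [cZ, hξ]

open Classical in
theorem aj_sum (S : IQ s) (had : Ad q ν) {B : HSG.Id K → ℂ} (hF : IForm s q ν n om F)
    (hB : ICoZ s q ν F B) (p : Pr K) (b : HSG.Id K) {R : Finset K}
    (hR : IsRepQ (n * b) (pI p * (n * b)) R) (P : ℂ × ℝ) (u : ℂ × ℂ) (hP : 0 < P.2) :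
    ∑ β ∈ R, F P u ((sZ n (pI p * b)).mul (nm β : GL (Fin 2) K)) =
      fs s q ν (cZ n (fun m => if IsInt m then (qP p : ℂ) * B (pI p * m) else 0) b) P u := by
  rw [← aj_coef S hB.int p b hR,
    ← aj_shift S had (cs_cZ S n ⟨hB.int, hB.bdd⟩ (pI p * b)).2 hP u R]
  refine Finset.sum_congr rfl fun β _ => ?_
  rw [form_nm hF β hP u, hB.exp (pI p * b) (P.1 + s β, P.2) u hP]

theorem hec_Z (S : IQ s) (had : Ad q ν) (hn : IsInt n) {lam : Pr K → ℂ}
    (h : IEig s q ν n om lam F) {B : HSG.Id K → ℂ} (hB : ICoZ s q ν F B) {p : Pr K}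
    (hp : ¬ Dv p n) (m : HSG.Id K) (hm : IsInt m) : B (m / pI p) +
      (qP p : ℂ) * wP n om p * B (pI p * m) = ((√(qP p : ℝ) : ℝ) : ℂ) * lam p * B m := by
  classical
  obtain ⟨b1, C1, hC1⟩ := aj_bd1 hB p
  obtain ⟨b3, C3, hC3⟩ := aj_bd3 hB p
  have key := coZ_uniq S had n (B := fun m => B (m / pI p) +
      wP n om p * (if IsInt m then (qP p : ℂ) * B (pI p * m) else 0))
    (B' := fun m => ((√(qP p : ℝ) : ℝ) : ℂ) * lam p * B m)
    ⟨fun m hm => ?_, C3 + ‖wP n om p‖ * C1, fun m => ?_⟩ (aj_bd4 hB _)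
    (fun b P u hP => ?_)
  · have key1 := congrFun key m
    simp only [if_pos hm] at key1
    rw [← key1]
    ring
  · show B (m / pI p) + wP n om p * (if IsInt m then (qP p : ℂ) * B (pI p * m) else 0) = 0
    rw [if_neg hm, mul_zero, add_zero]
    exact b3 m hm
  · refine (norm_add_le _ _).trans (add_le_add (hC3 m) ?_)
    rw [norm_mul]
    exact mul_le_mul_of_nonneg_left (hC1 m) (norm_nonneg _)
  · have g1 := (cs_cZ S n (aj_bd1 hB p) b).2
    have g3 := (cs_cZ S n (aj_bd3 hB p) b).2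
    have hlin := (gs_sub S had g3 g1 1 (wP n om p)).2 P u hP
    have hL : (fun ξ => 1 * cZ n (fun m => B (m / pI p)) b ξ +
        wP n om p * cZ n (fun m => if IsInt m then (qP p : ℂ) * B (pI p * m) else 0) b ξ) =
        cZ n (fun m => B (m / pI p) +
          wP n om p * (if IsInt m then (qP p : ℂ) * B (pI p * m) else 0)) b := by
      funext ξ
      by_cases hξ : ξ = 0
      · simp [cZ, hξ]
      · simp [cZ, hξ]
    obtain ⟨R, hRep⟩ := HSG.repq_exists (aj_le p (n * b))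
    rw [← hL, hlin, ← aj_smulZ, aj_smul, ← hB.exp b P u hP, ← h.up p P u (sZ n b) hP, one_mul,
      HSG.LV.tp_Z hn hp b hRep, ← aj_coef2, hB.exp (b / pI p) P u hP,
      ← aj_sum S had h.form hB p b hRep P u hP, Finset.mul_sum]
    congr 1
    refine Finset.sum_congr rfl fun β _ => ?_
    have hsc := h.form.scal _ _ _ (HSG.LV.ptS_sc (b := b) hn (HSG.LV.cp_pI hp)).2
      (P.1 + s β, P.2) u hP
    rw [form_nm h.form β hP u, form_nm h.form β hP u, hsc, aj_wP hp]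

theorem hec_Z_dv (S : IQ s) (had : Ad q ν) (hn : IsInt n) {lam : Pr K → ℂ}
    (h : IEig s q ν n om lam F) {B : HSG.Id K → ℂ} (hB : ICoZ s q ν F B) {p : Pr K}
    (hp : Dv p n) (m : HSG.Id K) (hm : IsInt m) :
    (qP p : ℂ) * B (pI p * m) = ((√(qP p : ℝ) : ℝ) : ℂ) * starRingEnd ℂ (lam p) * B m := by
  classical
  have key := coZ_uniq S had n
    (B := fun m => if IsInt m then (qP p : ℂ) * B (pI p * m) else 0)
    (B' := fun m => ((√(qP p : ℝ) : ℝ) : ℂ) * starRingEnd ℂ (lam p) * B m)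
    (aj_bd1 hB p) (aj_bd4 hB _) (fun b P u hP => ?_)
  · have key1 := congrFun key m
    simpa only [if_pos hm] using key1
  · obtain ⟨R, hRep⟩ := HSG.repq_exists (aj_le p (n * b))
    rw [← aj_smulZ, aj_smul, ← hB.exp b P u hP, ← h.dn p P u (sZ n b) hP,
      HSG.LV.ts_Z hn hp b hRep, ← aj_sum S had h.form hB p b hRep P u hP]

end form

end Pool.Agent.HI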