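import Pool.Agent.Lib_helper25.HIF.DX
import Pool.Agent.Lib_helper25.HIF.AA
import Pool.Agent.Lib_helper25.HIF.AI
import Pool.Agent.Lib_helper84.LVF.LN
import Pool.Agent.Lib_helper84.LVF.LI2
import Pool.Agent.Lib_helper84.HSGF.GI1
import Pool.Agent.Lib_helper45.HSF.KI

/-! # Block AK: the first coefficient -/

namespace Pool.Agent.HI
open NumberField Complex MeasureTheory IsDedekindDomain
open scoped nonZeroDivisors MatrixGroups
open Pool.Agent.HSG (Lat Pr IsInt nI prI DD nm wm dgm dt qP NCl IsRepQ)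
open Pool.Agent.HSG.LV (Pt Tp Ts Sc Cp Dv Prim sS sZ ptS ptZ pI Res Gal gI gP wP omF lamF)

variable {K : Type} [Field K] [NumberField K] {s : K →+* ℂ}

section form

variable {q : ℕ} {ν : ℂ} {n : HSG.Id K} {om : HSG.Id K → ℂ} {F : ℂ × ℝ → ℂ × ℂ → Pt n → ℂ}

theorem coS_zero (hn : IsInt n) (hF : IForm s q ν n om F)
    (h : ∀ (b : HSG.Id K) (p : ℂ × ℝ) (u : ℂ × ℂ), 0 < p.2 → F p u (sS n b) = 0) {p : ℂ × ℝ}
    (hp : 0 < p.2) (u : ℂ × ℂ) (x : Pt n) : F p u x = 0 := by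
  obtain ⟨g, hg⟩ := HSG.LV.to_std hn x
  have hx : (sS n x.L.det).mul (g : GL (Fin 2) K) = x := by
    rw [← hg]
    show (x.mul ((g : GL (Fin 2) K)⁻¹)).mul (g : GL (Fin 2) K) = x
    rw [← HSG.LV.pt_mul_mul, inv_mul_cancel, HSG.LV.pt_mul_one]
  have h1 := hF.slash (g : GL (Fin 2) K) p u (sS n x.L.det) hp
  rw [h _ _ _ (ac_pos s _ hp), hx] at h1
  rcases mul_eq_zero.1 h1.symm with h2 | h2
  · exfalso
    have h3 : de s (g : GL (Fin 2) K) ≠ 0 := de_ne s _
    have h4 : dir (de s (g : GL (Fin 2) K)) ≠ 0 := by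
      unfold dir
      exact div_ne_zero h3 (by exact_mod_cast (norm_pos_iff.2 h3).ne')
    exact pow_ne_zero _ h4 h2
  · exact h2

theorem coS_one (S : IQ s) (had : Ad q ν) (hn : IsInt n) {lam : Pr K → ℂ}
    (h : IEig s q ν n om lam F) {A : HSG.Id K → ℂ} (hA : ICoS s q ν F A) : A 1 ≠ 0 := by
  intro h1
  have hA0 : ∀ m, A m = 0 := by
    intro m
    by_cases hm : IsInt m
    · obtain ⟨j, rfl⟩ := (HS.idl_surj m).1 hm
      rw [HSG.LV.co_S (wP n om) lam hA.int (fun p m hm => hec_S S had hn h hA p m hm) j, h1,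
        zero_mul, zero_mul]
    · exact hA.int m hm
  obtain ⟨p, u, x, hp, hx⟩ := h.ne
  apply hx
  refine coS_zero hn h.form (fun b p u hp => ?_) hp u x
  rw [hA.exp b p u hp]
  have h2 : ∀ ξ : K, cS A b ξ = 0 := by
    intro ξ
    unfold cS
    split_ifs with h3
    · rfl
    · exact hA0 _
  unfold fs
  simp only [h2, zero_mul, tsum_zero]

end form

end Pool.Agent.HI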