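import Pool.Agent.Lib_helper25.HIF.DX
import Pool.Agent.Lib_helper25.HIF.AF
import Pool.Agent.Lib_helper84.LVF.LA
import Pool.Agent.Lib_helper84.LVF.LO
import Pool.Agent.Lib_helper84.LVF.LC
import Pool.Agent.Lib_helper84.LVF.LE1
import Pool.Agent.Lib_helper84.HSGF.GI1

/-! # Block AL: the central character and the eigenvalues -/

namespace Pool.Agent.HI
open NumberField Complex MeasureTheory IsDedekindDomain
open scoped nonZeroDivisors MatrixGroups
open Pool.Agent.HSG (Lat Pr IsInt nI prI DD nm wm dgm dt qP NCl IsRepQ)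
open Pool.Agent.HSG.LV (Pt Tp Ts Sc Cp Dv Prim sS sZ ptS ptZ pI Res Gal gI gP wP omF lamF)

variable {K : Type} [Field K] [NumberField K] {s : K →+* ℂ}

section form

variable {q : ℕ} {ν : ℂ} {n : HSG.Id K} {om : HSG.Id K → ℂ} {F : ℂ × ℝ → ℂ × ℂ → Pt n → ℂ}

theorem omF_one (hn : IsInt n) {lam : Pr K → ℂ} (h : IEig s q ν n om lam F) :
    omF n om 1 = 1 := by
  obtain ⟨p, u, x, hp, h0⟩ := h.ne
  unfold omF
  rw [if_pos (HSG.LV.cp_one n)]
  have h1 := h.form.scal 1 x x (HSG.LV.sc_one hn x) p u hp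
  have h2 : (om 1 - 1) * F p u x = 0 := by
    rw [sub_mul, one_mul, ← h1, sub_self]
  rcases mul_eq_zero.mp h2 with h3 | h3
  · exact sub_eq_zero.mp h3
  · exact absurd h3 h0

theorem omF_mul (hn : IsInt n) {lam : Pr K → ℂ} (h : IEig s q ν n om lam F) (a b : HSG.Id K)
    (ha : IsInt a) (hb : IsInt b) : omF n om (a * b) = omF n om a * omF n om b := by
  unfold omF
  by_cases hab : Cp n a ∧ Cp n b
  · obtain ⟨hca, hcb⟩ := hab
    rw [if_pos hca, if_pos hcb, if_pos (HSG.LV.cp_mul hca hcb)]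
    obtain ⟨p, u, x, hp, h0⟩ := h.ne
    obtain ⟨y, hy, -⟩ := HSG.LV.sc_exists hn hca x
    obtain ⟨v, hv, -⟩ := HSG.LV.sc_exists hn hcb y
    have h1 := h.form.scal a x y hy p u hp
    have h2 := h.form.scal b y v hv p u hp
    have h3 := h.form.scal (a * b) x v (HSG.LV.sc_mul hn hy hv) p u hp
    have h4 : F p u v ≠ 0 := by
      intro h5
      rw [h5, mul_zero] at h2
      rw [h2, mul_zero] at h1
      exact h0 h1
    apply mul_right_cancel₀ h4
    rw [← h3, h1, h2]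
    ring
  · have h1 : ¬ Cp n (a * b) := fun hc => hab (HSG.LV.cp_of_mul ha hb hc)
    rw [if_neg h1]
    rcases not_and_or.mp hab with h2 | h2
    · rw [if_neg h2, zero_mul]
    · rw [if_neg h2, mul_zero]

theorem al_not {p : Pr K} (hp : Dv p n) : ¬ Cp n (pI p) := by
  intro hc
  exact hc.2 p ((HSG.LV.dv_pI p p).2 rfl) hp

theorem wP_norm {lam : Pr K → ℂ} (h : IEig s q ν n om lam F) (p : Pr K) :
    (¬ Dv p n → ‖wP n om p‖ = 1) ∧ (Dv p n → wP n om p = 0) := by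
  constructor
  · intro hp
    unfold wP omF
    rw [if_pos (HSG.LV.cp_pI hp)]
    exact h.unit _ (HSG.LV.cp_pI hp)
  · intro hp
    unfold wP omF
    rw [if_neg (al_not hp)]

theorem al_sq (p : Pr K) : ((√(qP p : ℝ) : ℝ) : ℂ) ≠ 0 := by
  have h1 : 2 ≤ qP p := (HSG.pI_facts p).2.2.2
  have h2 : (0 : ℝ) < (qP p : ℝ) := by
    have : 0 < qP p := by omega
    exact_mod_cast this
  exact_mod_cast (Real.sqrt_pos.mpr h2).ne'

theorem lam_conj (hn : IsInt n) {lam : Pr K → ℂ} (h : IEig s q ν n om lam F) {p : Pr K}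
    (hp : ¬ Dv p n) : lam p = wP n om p * starRingEnd ℂ (lam p) := by
  obtain ⟨P, u, x, hP, h0⟩ := h.ne
  have hw : wP n om p = om (pI p) := by
    unfold wP omF
    rw [if_pos (HSG.LV.cp_pI hp)]
  have hw1 : ‖om (pI p)‖ = 1 := h.unit _ (HSG.LV.cp_pI hp)
  have hw0 : om (pI p) ≠ 0 := by
    intro h1
    rw [h1, norm_zero] at hw1
    exact zero_ne_one hw1
  have h1 := HSG.LV.ts_tp hn hp (f := F P u) (w := (om (pI p))⁻¹) (fun a b hab => by
    rw [h.form.scal _ a b hab P u hP, smul_eq_mul, inv_mul_cancel_left₀ hw0]) x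
  rw [h.dn p P u x hP, h.up p P u x hP, smul_eq_mul] at h1
  have h2 : starRingEnd ℂ (lam p) = (om (pI p))⁻¹ * lam p := by
    apply mul_left_cancel₀ (al_sq p)
    apply mul_right_cancel₀ h0
    rw [h1]
    ring
  rw [hw, h2, mul_inv_cancel_left₀ hw0]

theorem lam_bd (S : IQ s) (hn : IsInt n) {lam : Pr K → ℂ} (h : IEig s q ν n om lam F)
    (p : Pr K) : ‖lam p‖ ≤ √(qP p : ℝ) + 1 / √(qP p : ℝ) ∧ (Dv p n → ‖lam p‖ ≤ √(qP p : ℝ)) := by
  obtain ⟨C, hC0, hC⟩ := form_unif S hn h.form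
  obtain ⟨P, u, x, hP, h0⟩ := h.ne
  exact HSG.LV.lam_triv hn (f := F P u) (C := C * nu u ^ q) (fun y => hC y P u hP) ⟨x, h0⟩
    (fun y => h.up p P u y hP)

end form

end Pool.Agent.HI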