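import Pool.Agent.Lib_helper25.HIF.DX
import Pool.Agent.Lib_helper25.HIF.AG
import Pool.Agent.Lib_helper25.HIF.AH
import Pool.Agent.Lib_helper25.HIF.AI
import Pool.Agent.Lib_helper25.HIF.AJ
import Pool.Agent.Lib_helper25.HIF.AK
import Pool.Agent.Lib_helper25.HIF.AL
import Pool.Agent.Lib_helper84.LVF.LN
import Pool.Agent.Lib_helper84.NEF.NJ
import Pool.Agent.Lib_helper84.HSGF.GH

/-!
# Project HI, block AM: the normalised expansions
-/

namespace Pool.Agent.HI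
open NumberField Complex MeasureTheory IsDedekindDomain
open scoped nonZeroDivisors MatrixGroups
open Pool.Agent.HSG (Lat Pr IsInt nI prI DD nm wm dgm dt qP NCl IsRepQ)
open Pool.Agent.HSG.LV (Pt Tp Ts Sc Cp Dv Prim sS sZ ptS ptZ pI Res Gal gI gP wP omF lamF)

variable {K : Type} [Field K] [NumberField K] {s : K →+* ℂ}

omit [NumberField K] in
theorem am_fs (s : K →+* ℂ) (q : ℕ) (ν : ℂ) (c : ℂ) (f : K → ℂ) (p : ℂ × ℝ) (u : ℂ × ℂ) :
    fs s q ν (fun ξ => c * f ξ) p u = c * fs s q ν f p u := by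
  unfold fs
  rw [← tsum_mul_left]
  refine tsum_congr fun ξ => ?_
  ring

variable {q : ℕ} {ν : ℂ} {n : HSG.Id K} {om : HSG.Id K → ℂ} {F : ℂ × ℝ → ℂ × ℂ → Pt n → ℂ}

theorem form_smul (hF : IForm s q ν n om F) (c : ℂ) :
    IForm s q ν n om (fun p u x => c * F p u x) := by
  refine ⟨fun x => ?_, fun g p u x hp => ?_, fun a x y h p u hp => ?_, fun x => ?_⟩
  · obtain ⟨f, h0, ⟨C, A, hC⟩, h2, h3⟩ := hF.exp x
    refine ⟨fun ξ => c * f ξ, by simp only [h0, mul_zero], ⟨‖c‖ * C, A, fun ξ => ?_⟩,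
      fun y hy ξ hξ => h2 y hy ξ (right_ne_zero_of_mul hξ), fun p u hp => ?_⟩
    · rw [norm_mul, mul_assoc]
      exact mul_le_mul_of_nonneg_left (hC ξ) (norm_nonneg _)
    · rw [am_fs, h3 p u hp]
  · rw [hF.slash g p u x hp]
    ring
  · rw [hF.scal a x y h p u hp]
    ring
  · obtain ⟨C, hC⟩ := hF.bdd x
    refine ⟨‖c‖ * C, fun p u hp => ?_⟩
    rw [norm_mul, mul_assoc]
    exact mul_le_mul_of_nonneg_left (hC p u hp) (norm_nonneg _)

theorem am_half (m : HSG.Id K) : (√(nI m))⁻¹ = nI m ^ (-(1 / 2) : ℝ) := by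
  rw [Real.sqrt_eq_rpow, Real.rpow_neg (HSG.nI_pos m).le]

theorem am_cS (A : HSG.Id K → ℂ) (b : HSG.Id K) (c : ℂ) :
    cS (fun m => c * A m) b = fun ξ => c * cS A b ξ := by
  funext ξ
  unfold cS
  split_ifs
  · rw [mul_zero]
  · rfl

theorem am_cZ (n : HSG.Id K) (B : HSG.Id K → ℂ) (b : HSG.Id K) (c : ℂ) :
    cZ n (fun m => c * B m) b = fun ξ => c * cZ n B b ξ := by
  funext ξ
  unfold cZ
  split_ifs
  · rw [mul_zero]
  · rfl

theorem am_coS {A : HSG.Id K → ℂ} (hA : ICoS s q ν F A) (c : ℂ) :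
    ICoS s q ν (fun p u x => c * F p u x) (fun m => c * A m) := by
  refine ⟨fun m hm => by rw [hA.int m hm, mul_zero], ?_, fun b p u hp => ?_⟩
  · obtain ⟨C, hC⟩ := hA.bdd
    refine ⟨‖c‖ * C, fun m => ?_⟩
    rw [norm_mul]
    exact mul_le_mul_of_nonneg_left (hC m) (norm_nonneg _)
  · rw [am_cS, am_fs, hA.exp b p u hp]

theorem am_coZ {B : HSG.Id K → ℂ} (hB : ICoZ s q ν F B) (c : ℂ) :
    ICoZ s q ν (fun p u x => c * F p u x) (fun m => c * B m) := by
  refine ⟨fun m hm => by rw [hB.int m hm, mul_zero], ?_, fun b p u hp => ?_⟩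
  · obtain ⟨C, hC⟩ := hB.bdd
    refine ⟨‖c‖ * C, fun m => ?_⟩
    rw [norm_mul]
    exact mul_le_mul_of_nonneg_left (hC m) (norm_nonneg _)
  · rw [am_cZ, am_fs, hB.exp b p u hp]

theorem eig_exp (S : IQ s) (had : Ad q ν) (hn : IsInt n) {lam : Pr K → ℂ}
    (h : IEig s q ν n om lam F) :
    ∃ c W : ℂ, c ≠ 0 ∧ ICoS s q ν (fun p u x => c * F p u x)
        (fun m => lamF (wP n om) lam m * ((nI m ^ (-(1 / 2) : ℝ) : ℝ) : ℂ)) ∧
      ICoZ s q ν (fun p u x => c * F p u x)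
        (fun m => W * starRingEnd ℂ (lamF (wP n om) lam m) *
          ((nI m ^ (-(1 / 2) : ℝ) : ℝ) : ℂ)) := by
  obtain ⟨A, hA⟩ := coS_exists S had hn h.form
  obtain ⟨B, hB⟩ := coZ_exists S had hn h.form
  have hA1 := coS_one S had hn h hA
  refine ⟨(A 1)⁻¹, (A 1)⁻¹ * B 1, inv_ne_zero hA1, ?_, ?_⟩
  · have e : (fun m => lamF (wP n om) lam m * ((nI m ^ (-(1 / 2) : ℝ) : ℝ) : ℂ)) =
        fun m => (A 1)⁻¹ * A m := by
      funext m
      by_cases hm : IsInt m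
      · obtain ⟨j, rfl⟩ := HSG.idl_sur hm
        rw [HSG.LV.lamF_idl, HSG.LV.co_S (wP n om) lam hA.int
          (fun p m hm => hec_S S had hn h hA p m hm) j, am_half]
        field_simp
      · rw [HSG.LV.lamF_int _ _ hm, hA.int m hm]
        simp
    rw [e]
    exact am_coS hA _
  · have e : (fun m => (A 1)⁻¹ * B 1 * starRingEnd ℂ (lamF (wP n om) lam m) *
          ((nI m ^ (-(1 / 2) : ℝ) : ℝ) : ℂ)) = fun m => (A 1)⁻¹ * B m := by
      funext m
      by_cases hm : IsInt m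
      · obtain ⟨j, rfl⟩ := HSG.idl_sur hm
        rw [HSG.LV.lamF_idl, HSG.LV.co_Z n (wP n om) lam (fun p hp => (wP_norm h p).1 hp)
          (fun p hp => (wP_norm h p).2 hp) (fun p hp => lam_conj hn h hp) hB.int
          (fun p m hp hm => hec_Z S had hn h hB hp m hm)
          (fun p m hp hm => hec_Z_dv S had hn h hB hp m hm) j, am_half]
        ring
      · rw [HSG.LV.lamF_int _ _ hm, hB.int m hm]
        simp
    rw [e]
    exact am_coZ hB _


end Pool.Agent.HI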