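import Pool.Agent.Lib_helper25.HIF.DX
import Pool.Agent.Lib_helper25.HIF.KB
import Pool.Agent.Lib_helper25.HIF.LA

/-!
# Project HI, block SR: convergence
-/

namespace Pool.Agent.HI
open NumberField Complex MeasureTheory Set Filter Topology
open Pool.Agent.HB (H3 mu Kb Adm)

variable {K : Type} [Field K] [NumberField K] {s : K →+* ℂ}

/-- the data of a system of coefficients -/
theorem sr_data (S : IQ s) {c : K → ℂ} (hc : CS c) : ∃ (j : HSG.Id K) (δ C : ℝ), 0 < δ ∧ 0 ≤ C ∧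
    ∀ ξ, c ξ ≠ 0 → ξ ∈ j.m ∧ δ ≤ ‖s ξ‖ ∧ ‖c ξ‖ ≤ C := by
  obtain ⟨j, hj⟩ := hc.supp
  obtain ⟨δ, hδ, h⟩ := lat_low S j
  obtain ⟨C, hC, hb⟩ := hc.bdd
  refine ⟨j, δ, C, hδ, hC, fun ξ hξ => ⟨hj ξ hξ, h ξ (hj ξ hξ) ?_, hb ξ⟩⟩
  rintro rfl
  exact hξ hc.zero

theorem cs_pow (S : IQ s) {c : K → ℂ} (hc : CS c) {a : ℝ} (ha : 2 < a) :
    Summable (fun ξ : K => ‖c ξ‖ * ‖s ξ‖ ^ (-a)) := by
  obtain ⟨j, δ, C, hδ, hC, h⟩ := sr_data S hc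
  have hs := (lat_pow S j ha).mul_left (C * (1 + δ⁻¹) ^ a)
  refine Summable.of_nonneg_of_le (fun ξ => by positivity) (fun ξ => ?_) hs
  have hi : 0 ≤ indicator (j.m : Set K) (fun ξ => (1 + ‖s ξ‖) ^ (-a)) ξ :=
    indicator_nonneg (fun ξ _ => by positivity) ξ
  by_cases h0 : c ξ = 0
  · rw [h0, norm_zero, zero_mul]
    positivity
  obtain ⟨h1, h2, h3⟩ := h ξ h0
  have h1' : ξ ∈ (j.m : Set K) := h1
  rw [indicator_of_mem h1']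
  have hp : 0 < ‖s ξ‖ := lt_of_lt_of_le hδ h2
  have e1 : 1 + ‖s ξ‖ ≤ (1 + δ⁻¹) * ‖s ξ‖ := by
    have : 1 ≤ δ⁻¹ * ‖s ξ‖ := by
      rw [← div_eq_inv_mul, le_div_iff₀ hδ]; linarith
    linarith
  have e2 : ((1 + δ⁻¹) * ‖s ξ‖) ^ (-a) ≤ (1 + ‖s ξ‖) ^ (-a) :=
    Real.rpow_le_rpow_of_nonpos (by positivity) e1 (by linarith)
  rw [Real.mul_rpow (by positivity) hp.le] at e2
  have e3 : (1 + δ⁻¹) ^ a * (1 + δ⁻¹) ^ (-a) = 1 := by
    rw [← Real.rpow_add (by positivity), add_neg_cancel, Real.rpow_zero]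
  have e4 : ‖s ξ‖ ^ (-a) = (1 + δ⁻¹) ^ a * ((1 + δ⁻¹) ^ (-a) * ‖s ξ‖ ^ (-a)) := by
    rw [← mul_assoc, e3, one_mul]
  rw [e4, mul_assoc C]
  refine mul_le_mul h3 ?_ (by positivity) hC
  exact mul_le_mul_of_nonneg_left e2 (by positivity)

theorem sr_dir (w : ℂ) : ‖dir w‖ ≤ 1 := by
  unfold dir
  rw [norm_div, Complex.norm_real, norm_norm]
  exact div_self_le_one _

theorem sr_e2 (w : ℂ) : ‖e2 w‖ = 1 := by
  unfold e2
  have : 2 * (Real.pi : ℂ) * I * ((2 * w.re : ℝ) : ℂ) = ((2 * Real.pi * (2 * w.re) : ℝ) : ℂ) * I := by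
    push_cast; ring
  rw [this]
  exact Complex.norm_exp_ofReal_mul_I _

/-- a common bound for the terms, locally uniformly in `y` -/
theorem tm_bd (S : IQ s) {c : K → ℂ} (hc : CS c) (a : ℕ) {r : ℕ} (hr : 1 ≤ r) {μ : ℂ}
    (hμ : |μ.re| ≤ r) : ∃ C : ℝ, 0 ≤ C ∧ ∀ (p : ℂ × ℝ) (ξ : K), 0 < p.2 →
      ‖tm s c a r μ p ξ‖ ≤ C * (‖c ξ‖ * Real.exp (-(2 * Real.pi * (‖s ξ‖ * p.2)))) := by
  obtain ⟨C, hC, h⟩ := wk_bd hr hμ
  refine ⟨C, hC, fun p ξ hp => ?_⟩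
  unfold tm
  rw [norm_mul, norm_mul, norm_mul, norm_pow, sr_e2, mul_one]
  have h1 := h (s ξ) p.2 hp
  have h2 : ‖dir (s ξ)‖ ^ a ≤ 1 := pow_le_one₀ (norm_nonneg _) (sr_dir _)
  have h3 : ‖dir (s ξ)‖ ^ a * ‖wk r μ (s ξ) p.2‖ ≤
      1 * (C * Real.exp (-(2 * Real.pi * (‖s ξ‖ * p.2)))) :=
    mul_le_mul h2 h1 (norm_nonneg _) (by norm_num)
  calc ‖c ξ‖ * (‖dir (s ξ)‖ ^ a * ‖wk r μ (s ξ) p.2‖)
      ≤ ‖c ξ‖ * (1 * (C * Real.exp (-(2 * Real.pi * (‖s ξ‖ * p.2))))) :=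
        mul_le_mul_of_nonneg_left h3 (norm_nonneg _)
    _ = _ := by ring

theorem sr_cube {x : ℝ} (hx : 0 < x) : Real.exp (-x) ≤ 6 * x ^ (-3 : ℝ) := by
  have h := Real.pow_div_factorial_le_exp x hx.le 3
  have e : x ^ (-3 : ℝ) = (x ^ 3)⁻¹ := by
    rw [Real.rpow_neg hx.le]
    norm_num
  rw [e, Real.exp_neg, ← div_eq_mul_inv, inv_eq_one_div, div_le_div_iff₀ (Real.exp_pos _)
    (by positivity)]
  have h6 : ((Nat.factorial 3 : ℕ) : ℝ) = 6 := by norm_num [Nat.factorial]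
  rw [h6, div_le_iff₀ (by norm_num)] at h
  linarith

theorem cs_exp (S : IQ s) {c : K → ℂ} (hc : CS c) {y : ℝ} (hy : 0 < y) :
    Summable (fun ξ : K => ‖c ξ‖ * Real.exp (-(2 * Real.pi * (‖s ξ‖ * y)))) := by
  obtain ⟨j, δ, C, hδ, hC, h⟩ := sr_data S hc
  have hs := (cs_pow S hc (a := 3) (by norm_num)).mul_left (6 * (2 * Real.pi * y) ^ (-3 : ℝ))
  refine Summable.of_nonneg_of_le (fun ξ => by positivity) (fun ξ => ?_) hs
  by_cases h0 : c ξ = 0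
  · rw [h0, norm_zero, zero_mul]
    positivity
  obtain ⟨h1, h2, h3⟩ := h ξ h0
  have hp : 0 < ‖s ξ‖ := lt_of_lt_of_le hδ h2
  have hpi := Real.pi_pos
  have e1 := sr_cube (x := 2 * Real.pi * (‖s ξ‖ * y)) (by positivity)
  have e2 : (2 * Real.pi * (‖s ξ‖ * y)) ^ (-3 : ℝ) = (2 * Real.pi * y) ^ (-3 : ℝ) *
      ‖s ξ‖ ^ (-3 : ℝ) := by
    rw [← Real.mul_rpow (by positivity) hp.le]
    congr 1
    ring
  rw [e2] at e1
  calc ‖c ξ‖ * Real.exp (-(2 * Real.pi * (‖s ξ‖ * y)))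
      ≤ ‖c ξ‖ * (6 * ((2 * Real.pi * y) ^ (-3 : ℝ) * ‖s ξ‖ ^ (-3 : ℝ))) :=
        mul_le_mul_of_nonneg_left e1 (norm_nonneg _)
    _ = _ := by ring

theorem tm_summable (S : IQ s) {c : K → ℂ} (hc : CS c) (a : ℕ) {r : ℕ} (hr : 1 ≤ r) {μ : ℂ}
    (hμ : |μ.re| ≤ r) {p : ℂ × ℝ} (hp : 0 < p.2) : Summable (fun ξ => ‖tm s c a r μ p ξ‖) := by
  obtain ⟨C, hC, h⟩ := tm_bd S hc a hr hμ
  exact Summable.of_nonneg_of_le (fun ξ => norm_nonneg _) (fun ξ => h p ξ hp)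
    ((cs_exp S hc hp).mul_left C)

theorem sr_tmc (S : IQ s) {c : K → ℂ} (hc : CS c) (a r : ℕ) (μ : ℂ) (ξ : K) :
    ContinuousOn (fun p : ℂ × ℝ => tm s c a r μ p ξ) {p | 0 < p.2} := by
  by_cases h0 : s ξ = 0
  · have h1 := lat_inj S h0
    have : (fun p : ℂ × ℝ => tm s c a r μ p ξ) = fun _ => 0 := by
      funext p
      unfold tm
      rw [h1, hc.zero, zero_mul]
    rw [this]
    exact continuousOn_const
  · unfold tm
    have h1 : ContinuousOn (fun p : ℂ × ℝ => wk r μ (s ξ) p.2) {p | 0 < p.2} :=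
      (wk_cont r μ h0).comp continuousOn_snd (fun p hp => hp)
    have h2 : Continuous (fun p : ℂ × ℝ => e2 (s ξ * p.1)) := by
      unfold e2
      fun_prop
    exact continuousOn_const.mul ((continuousOn_const.mul h1).mul h2.continuousOn)

theorem sr_cont (S : IQ s) {c : K → ℂ} (hc : CS c) (a : ℕ) {r : ℕ} (hr : 1 ≤ r) {μ : ℂ}
    (hμ : |μ.re| ≤ r) : ContinuousOn (sr s c a r μ) {p | 0 < p.2} := by
  obtain ⟨C, hC, h⟩ := tm_bd S hc a hr hμ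
  intro p₀ hp₀
  have hp₀' : 0 < p₀.2 := hp₀
  have hy : 0 < p₀.2 / 2 := by linarith
  have ho : IsOpen {p : ℂ × ℝ | p₀.2 / 2 < p.2} := isOpen_lt continuous_const continuous_snd
  have hsub : {p : ℂ × ℝ | p₀.2 / 2 < p.2} ⊆ {p | 0 < p.2} := fun p hp => hy.trans hp
  have hc1 : ContinuousOn (fun p => ∑' ξ : K, tm s c a r μ p ξ) {p : ℂ × ℝ | p₀.2 / 2 < p.2} := by
    refine continuousOn_tsum (fun ξ => (sr_tmc S hc a r μ ξ).mono hsub)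
      ((cs_exp S hc hy).mul_left C) (fun ξ p hp => ?_)
    refine (h p ξ (hsub hp)).trans ?_
    refine mul_le_mul_of_nonneg_left (mul_le_mul_of_nonneg_left ?_ (norm_nonneg _)) hC
    apply Real.exp_le_exp.2
    have hp' : p₀.2 / 2 ≤ p.2 := le_of_lt hp
    have := mul_le_mul_of_nonneg_left hp' (norm_nonneg (s ξ))
    have hpi := Real.pi_pos
    nlinarith
  exact (hc1.continuousAt (ho.mem_nhds (by show p₀.2 / 2 < p₀.2; linarith))).continuousWithinAt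

theorem sr_decay (S : IQ s) {c : K → ℂ} (hc : CS c) (a : ℕ) {r : ℕ} (hr : 1 ≤ r) {μ : ℂ}
    (hμ : |μ.re| ≤ r) : ∃ C c₀ : ℝ, 0 ≤ C ∧ 0 < c₀ ∧ ∀ p : ℂ × ℝ, 1 ≤ p.2 →
      ‖sr s c a r μ p‖ ≤ C * Real.exp (-(c₀ * p.2)) := by
  obtain ⟨C, hC, h⟩ := tm_bd S hc a hr hμ
  obtain ⟨j, δ, B, hδ, hB, hd⟩ := sr_data S hc
  have hpi := Real.pi_pos
  have hs := cs_exp S hc (y := 1 / 2) (by norm_num)
  refine ⟨C * ∑' ξ : K, ‖c ξ‖ * Real.exp (-(2 * Real.pi * (‖s ξ‖ * (1 / 2)))), Real.pi * δ,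
    by positivity, by positivity, fun p hp => ?_⟩
  have hp0 : 0 < p.2 := by linarith
  have hterm : ∀ ξ : K, ‖tm s c a r μ p ξ‖ ≤ Real.exp (-(Real.pi * δ * p.2)) * C *
      (‖c ξ‖ * Real.exp (-(2 * Real.pi * (‖s ξ‖ * (1 / 2))))) := by
    intro ξ
    by_cases h0 : c ξ = 0
    · unfold tm
      rw [h0, zero_mul, norm_zero, zero_mul, mul_zero]
    obtain ⟨h1, h2, h3⟩ := hd ξ h0
    refine (h p ξ hp0).trans ?_
    have e1 : Real.exp (-(2 * Real.pi * (‖s ξ‖ * p.2))) ≤ Real.exp (-(Real.pi * δ * p.2)) *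
        Real.exp (-(2 * Real.pi * (‖s ξ‖ * (1 / 2)))) := by
      rw [← Real.exp_add]
      apply Real.exp_le_exp.2
      have a1 : δ * p.2 ≤ ‖s ξ‖ * p.2 := mul_le_mul_of_nonneg_right h2 hp0.le
      have a2 : ‖s ξ‖ * 1 ≤ ‖s ξ‖ * p.2 := mul_le_mul_of_nonneg_left hp (norm_nonneg _)
      have a3 := mul_le_mul_of_nonneg_left a1 hpi.le
      have a4 := mul_le_mul_of_nonneg_left a2 hpi.le
      nlinarith
    calc C * (‖c ξ‖ * Real.exp (-(2 * Real.pi * (‖s ξ‖ * p.2))))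
        ≤ C * (‖c ξ‖ * (Real.exp (-(Real.pi * δ * p.2)) *
          Real.exp (-(2 * Real.pi * (‖s ξ‖ * (1 / 2)))))) :=
          mul_le_mul_of_nonneg_left (mul_le_mul_of_nonneg_left e1 (norm_nonneg _)) hC
      _ = _ := by ring
  have hs2 := hs.mul_left (Real.exp (-(Real.pi * δ * p.2)) * C)
  have h1 : ‖sr s c a r μ p‖ ≤ ∑' ξ : K, Real.exp (-(Real.pi * δ * p.2)) * C *
      (‖c ξ‖ * Real.exp (-(2 * Real.pi * (‖s ξ‖ * (1 / 2))))) := by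
    unfold sr
    exact tsum_of_norm_bounded hs2.hasSum hterm
  rw [tsum_mul_left] at h1
  refine h1.trans (le_of_eq (by ring))


end Pool.Agent.HI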