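import Pool.Agent.Lib_helper25.HIF.DX
import Pool.Agent.Lib_helper25.HIF.KB
import Pool.Agent.Lib_helper25.HIF.SR

/-!
# Project HI: block FQ, the vector valued series (helper37)
-/

namespace Pool.Agent.HI
open NumberField Complex MeasureTheory Set Filter Topology
open Pool.Agent.HB (H3 mu Kb Adm)
open Pool.Agent.HI

variable {K : Type} [Field K] [NumberField K] {s : K →+* ℂ}

/-! ### Reduction to scalar series -/

theorem fq_dir (w : ℂ) (n : ℤ) : ‖dir w ^ n‖ ≤ 1 := by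
  by_cases hw : w = 0
  · subst hw
    have h0 : dir 0 = 0 := by
      unfold dir
      rw [zero_div]
    rw [h0]
    by_cases hn : n = 0
    · rw [hn, zpow_zero, norm_one]
    · rw [zero_zpow n hn, norm_zero]
      exact zero_le_one
  · have h1 : ‖dir w‖ = 1 := by
      unfold dir
      rw [norm_div, norm_real, norm_norm, div_self (norm_ne_zero_iff.2 hw)]
    rw [norm_zpow, h1, one_zpow]

/-- the twisted coefficients -/
noncomputable def fqc (s : K →+* ℂ) (c : K → ℂ) (n : ℤ) (ξ : K) : ℂ := c ξ * dir (s ξ) ^ n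

theorem fq_cs {c : K → ℂ} (hc : CS c) (n : ℤ) : CS (fqc s c n) := by
  refine ⟨?_, ?_, ?_⟩
  · unfold fqc
    rw [hc.zero, zero_mul]
  · obtain ⟨j, hj⟩ := hc.supp
    exact ⟨j, fun ξ h => hj ξ (left_ne_zero_of_mul h)⟩
  · obtain ⟨C, hC, h⟩ := hc.bdd
    refine ⟨C, hC, fun ξ => ?_⟩
    unfold fqc
    rw [norm_mul]
    calc ‖c ξ‖ * ‖dir (s ξ) ^ n‖ ≤ C * 1 :=
          mul_le_mul (h ξ) (fq_dir _ _) (norm_nonneg _) hC
      _ = C := mul_one C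

theorem fq_tm (s : K →+* ℂ) (q : ℕ) (ν : ℂ) (c : K → ℂ) (j : ℕ) (p : ℂ × ℝ) (ξ : K) :
    c ξ * (dir (s ξ) ^ ((q : ℤ) - (j : ℤ)) * wk (1 + q) (ν + q - j) (s ξ) p.2 *
      e2 (s ξ * p.1)) = tm s (fqc s c ((q : ℤ) - (j : ℤ))) 0 (1 + q) (ν + q - j) p ξ := by
  unfold tm fqc
  rw [pow_zero]
  ring

theorem fq_sj (s : K →+* ℂ) (q : ℕ) (ν : ℂ) (c : K → ℂ) (j : ℕ) (p : ℂ × ℝ) :
    sj s q ν c j p = sr s (fqc s c ((q : ℤ) - (j : ℤ))) 0 (1 + q) (ν + q - j) p := by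
  unfold sj sr
  exact tsum_congr fun ξ => fq_tm s q ν c j p ξ

theorem fq_re {q : ℕ} {ν : ℂ} (had : Ad q ν) {j : ℕ} (hj : j ∈ Finset.range (2 * q + 1)) :
    |(ν + q - j : ℂ).re| ≤ ((1 + q : ℕ) : ℝ) := by
  have h1 := ad_re had
  have h2 : (j : ℝ) ≤ 2 * q := by
    have := Finset.mem_range.1 hj
    have h3 : j ≤ 2 * q := by omega
    exact_mod_cast h3
  have h3 : (0 : ℝ) ≤ j := Nat.cast_nonneg j
  have h4 : (ν + q - j : ℂ).re = ν.re + q - j := by simp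
  rw [h4]
  push_cast
  rw [abs_lt] at h1
  rw [abs_le]
  constructor <;> linarith [h1.1, h1.2]

theorem sj_mid (s : K →+* ℂ) (q : ℕ) (ν : ℂ) (c : K → ℂ) :
    sj s q ν c q = sr s c 0 (1 + q) ν := by
  funext p
  unfold sj sr tm
  refine tsum_congr fun ξ => ?_
  rw [sub_self, zpow_zero, pow_zero, add_sub_cancel_right]

theorem sj_next (s : K →+* ℂ) {q : ℕ} (hq : 1 ≤ q) (ν : ℂ) (c : K → ℂ) :
    sj s q ν c (q - 1) = sr s c 1 (1 + q) (ν + 1) := by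
  funext p
  unfold sj sr tm
  refine tsum_congr fun ξ => ?_
  have h1 : (q : ℤ) - ((q - 1 : ℕ) : ℤ) = 1 := by
    rw [Nat.cast_sub hq]
    push_cast
    ring
  have h2 : ν + q - ((q - 1 : ℕ) : ℂ) = ν + 1 := by
    rw [Nat.cast_sub hq]
    push_cast
    ring
  rw [h1, h2, zpow_one, pow_one]

/-! ### The series of the values -/

theorem fq_term (q : ℕ) (ν : ℂ) (c : K → ℂ) (p : ℂ × ℝ) (u : ℂ × ℂ) (ξ : K) :
    c ξ * (Wh q ν (s ξ) p.2 u * e2 (s ξ * p.1)) = ∑ j ∈ Finset.range (2 * q + 1),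
      (((2 * q).choose j : ℂ) * (-I) ^ j * (u.1 ^ j * u.2 ^ (2 * q - j))) *
        tm s (fqc s c ((q : ℤ) - (j : ℤ))) 0 (1 + q) (ν + q - j) p ξ := by
  unfold Wh
  rw [Finset.sum_mul, Finset.mul_sum]
  refine Finset.sum_congr rfl fun j _ => ?_
  rw [← fq_tm]
  ring

theorem fq_sum (S : IQ s) {q : ℕ} {ν : ℂ} (had : Ad q ν) {c : K → ℂ} (hc : CS c) {p : ℂ × ℝ}
    (hp : 0 < p.2) {j : ℕ} (hj : j ∈ Finset.range (2 * q + 1)) :
    Summable (fun ξ => tm s (fqc s c ((q : ℤ) - (j : ℤ))) 0 (1 + q) (ν + q - j) p ξ) :=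
  (tm_summable S (fq_cs hc _) 0 (by omega) (fq_re had hj) hp).of_norm

theorem fs_summable (S : IQ s) {q : ℕ} {ν : ℂ} (had : Ad q ν) {c : K → ℂ} (hc : CS c) {p : ℂ × ℝ}
    (hp : 0 < p.2) (u : ℂ × ℂ) :
    Summable (fun ξ => ‖c ξ * (Wh q ν (s ξ) p.2 u * e2 (s ξ * p.1))‖) := by
  have h1 : Summable (fun ξ => ∑ j ∈ Finset.range (2 * q + 1),
      (((2 * q).choose j : ℂ) * (-I) ^ j * (u.1 ^ j * u.2 ^ (2 * q - j))) *
        tm s (fqc s c ((q : ℤ) - (j : ℤ))) 0 (1 + q) (ν + q - j) p ξ) :=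
    summable_sum fun j hj => (fq_sum S had hc hp hj).mul_left _
  simp only [fq_term]
  exact h1.norm

theorem fs_eq (S : IQ s) {q : ℕ} {ν : ℂ} (had : Ad q ν) {c : K → ℂ} (hc : CS c) {p : ℂ × ℝ}
    (hp : 0 < p.2) (u : ℂ × ℂ) : fs s q ν c p u = ∑ j ∈ Finset.range (2 * q + 1),
      ((2 * q).choose j : ℂ) * (-I) ^ j * sj s q ν c j p * (u.1 ^ j * u.2 ^ (2 * q - j)) := by
  unfold fs
  simp only [fq_term]
  rw [Summable.tsum_finsetSum fun j hj => (fq_sum S had hc hp hj).mul_left _]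
  refine Finset.sum_congr rfl fun j _ => ?_
  rw [tsum_mul_left, fq_sj]
  unfold sr
  ring

theorem fs_cont (S : IQ s) {q : ℕ} {ν : ℂ} (had : Ad q ν) {c : K → ℂ} (hc : CS c) :
    ContinuousOn (fun x : (ℂ × ℝ) × (ℂ × ℂ) => fs s q ν c x.1 x.2) {x | 0 < x.1.2} := by
  have h1 : ContinuousOn (fun x : (ℂ × ℝ) × (ℂ × ℂ) => ∑ j ∈ Finset.range (2 * q + 1),
      ((2 * q).choose j : ℂ) * (-I) ^ j * sj s q ν c j x.1 *
        (x.2.1 ^ j * x.2.2 ^ (2 * q - j))) {x | 0 < x.1.2} := by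
    refine continuousOn_finsetSum _ fun j hj => ?_
    have h2 : ContinuousOn (sj s q ν c j) {p | 0 < p.2} := by
      have h3 := sr_cont S (fq_cs (s := s) hc ((q : ℤ) - (j : ℤ))) 0 (r := 1 + q) (by omega)
        (fq_re had hj)
      exact h3.congr fun p _ => fq_sj s q ν c j p
    have h4 : ContinuousOn (fun x : (ℂ × ℝ) × (ℂ × ℂ) => sj s q ν c j x.1)
        {x | 0 < x.1.2} := h2.comp continuous_fst.continuousOn fun x hx => hx
    exact (continuousOn_const.mul h4).mul (by fun_prop)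
  exact h1.congr fun x hx => fs_eq S had hc hx x.2

theorem fq_mono {q : ℕ} (u : ℂ × ℂ) {j : ℕ} (hj : j ∈ Finset.range (2 * q + 1)) :
    ‖u.1 ^ j * u.2 ^ (2 * q - j)‖ ≤ nu u ^ q := by
  have h0 : 0 ≤ nu u := add_nonneg (normSq_nonneg _) (normSq_nonneg _)
  have h1 : ‖u.1‖ ≤ √(nu u) := by
    apply Real.le_sqrt_of_sq_le
    rw [← normSq_eq_norm_sq]
    unfold nu
    linarith [normSq_nonneg u.2]
  have h2 : ‖u.2‖ ≤ √(nu u) := by
    apply Real.le_sqrt_of_sq_le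
    rw [← normSq_eq_norm_sq]
    unfold nu
    linarith [normSq_nonneg u.1]
  have h3 : j + (2 * q - j) = 2 * q := by
    have := Finset.mem_range.1 hj
    omega
  rw [norm_mul, norm_pow, norm_pow]
  calc ‖u.1‖ ^ j * ‖u.2‖ ^ (2 * q - j) ≤ √(nu u) ^ j * √(nu u) ^ (2 * q - j) :=
        mul_le_mul (pow_le_pow_left₀ (norm_nonneg _) h1 _) (pow_le_pow_left₀ (norm_nonneg _) h2 _)
          (by positivity) (by positivity)
    _ = (√(nu u) ^ 2) ^ q := by rw [← pow_add, h3, pow_mul]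
    _ = nu u ^ q := by rw [Real.sq_sqrt h0]

theorem fq_min {n : ℕ} {f : ℕ → ℝ} (hf : ∀ j ∈ Finset.range n, 0 < f j) :
    ∃ c : ℝ, 0 < c ∧ ∀ j ∈ Finset.range n, c ≤ f j := by
  induction n with
  | zero => exact ⟨1, one_pos, fun j hj => by simp at hj⟩
  | succ n ih =>
    obtain ⟨c, hc, h⟩ := ih fun j hj =>
      hf j (Finset.mem_range.2 ((Finset.mem_range.1 hj).trans (Nat.lt_succ_self n)))
    refine ⟨min c (f n), lt_min hc (hf n (Finset.self_mem_range_succ n)), fun j hj => ?_⟩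
    rcases Nat.lt_succ_iff_lt_or_eq.1 (Finset.mem_range.1 hj) with h1 | h1
    · exact (min_le_left _ _).trans (h j (Finset.mem_range.2 h1))
    · rw [h1]
      exact min_le_right _ _

theorem fs_decay (S : IQ s) {q : ℕ} {ν : ℂ} (had : Ad q ν) {c : K → ℂ} (hc : CS c) :
    ∃ C c₀ : ℝ, 0 ≤ C ∧ 0 < c₀ ∧ ∀ (p : ℂ × ℝ) (u : ℂ × ℂ), 1 ≤ p.2 →
      ‖fs s q ν c p u‖ ≤ C * Real.exp (-(c₀ * p.2)) * nu u ^ q := by
  have h1 : ∀ j : ℕ, ∃ C c₀ : ℝ, j ∈ Finset.range (2 * q + 1) → 0 ≤ C ∧ 0 < c₀ ∧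
      ∀ p : ℂ × ℝ, 1 ≤ p.2 → ‖sj s q ν c j p‖ ≤ C * Real.exp (-(c₀ * p.2)) := by
    intro j
    by_cases hj : j ∈ Finset.range (2 * q + 1)
    · obtain ⟨C, c₀, h1, h2, h3⟩ := sr_decay S (fq_cs (s := s) hc ((q : ℤ) - (j : ℤ))) 0
        (r := 1 + q) (by omega) (fq_re had hj)
      refine ⟨C, c₀, fun _ => ⟨h1, h2, fun p hp => ?_⟩⟩
      rw [fq_sj]
      exact h3 p hp
    · exact ⟨0, 0, fun h => absurd h hj⟩
  choose C c₀ h using h1
  obtain ⟨m, hm, hmin⟩ := fq_min (n := 2 * q + 1) (f := c₀) fun j hj => (h j hj).2.1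
  refine ⟨∑ j ∈ Finset.range (2 * q + 1), ((2 * q).choose j : ℝ) * C j, m,
    Finset.sum_nonneg fun j hj => mul_nonneg (Nat.cast_nonneg _) (h j hj).1, hm,
    fun p u hp => ?_⟩
  have hp0 : 0 < p.2 := by linarith
  rw [fs_eq S had hc hp0, Finset.sum_mul, Finset.sum_mul]
  refine (norm_sum_le _ _).trans (Finset.sum_le_sum fun j hj => ?_)
  obtain ⟨hC, _, hd⟩ := h j hj
  have h2 : ‖sj s q ν c j p‖ ≤ C j * Real.exp (-(m * p.2)) := by
    refine (hd p hp).trans (mul_le_mul_of_nonneg_left (Real.exp_le_exp.2 ?_) hC)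
    have := mul_le_mul_of_nonneg_right (hmin j hj) hp0.le
    linarith
  rw [norm_mul, norm_mul, norm_mul, norm_natCast, norm_pow, norm_neg, norm_I, one_pow, mul_one]
  calc ((2 * q).choose j : ℝ) * ‖sj s q ν c j p‖ * ‖u.1 ^ j * u.2 ^ (2 * q - j)‖
      ≤ ((2 * q).choose j : ℝ) * (C j * Real.exp (-(m * p.2))) * nu u ^ q := by
        apply mul_le_mul (mul_le_mul_of_nonneg_left h2 (Nat.cast_nonneg _)) (fq_mono u hj)
          (norm_nonneg _)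
        exact mul_nonneg (Nat.cast_nonneg _) (mul_nonneg hC (Real.exp_pos _).le)
    _ = _ := by ring

/-! ### A component in terms of the values -/

theorem fq_orth {N : ℕ} (hN : 0 < N) {ζ : ℂ} (hζ : IsPrimitiveRoot ζ N) {i j : ℕ} (hi : i < N)
    (hj : j < N) : ∑ k ∈ Finset.range N, (ζ ^ k) ^ i * ((ζ ^ k)⁻¹) ^ j =
      if i = j then (N : ℂ) else 0 := by
  have hζ0 : ζ ≠ 0 := hζ.ne_zero hN.ne'
  split_ifs with h
  · subst h
    have h1 : ∀ k ∈ Finset.range N, (ζ ^ k) ^ i * ((ζ ^ k)⁻¹) ^ i = 1 := by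
      intro k _
      rw [← mul_pow, mul_inv_cancel₀ (pow_ne_zero _ hζ0), one_pow]
    rw [Finset.sum_congr rfl h1]
    simp
  · set η : ℂ := ζ ^ i * (ζ⁻¹) ^ j with hη
    have h1 : ∀ k ∈ Finset.range N, (ζ ^ k) ^ i * ((ζ ^ k)⁻¹) ^ j = η ^ k := by
      intro k _
      rw [hη, mul_pow, ← pow_mul, ← pow_mul, ← pow_mul, inv_pow, inv_pow, ← pow_mul,
        mul_comm k i, mul_comm k j]
    rw [Finset.sum_congr rfl h1]
    have h2 : η ≠ 1 := by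
      intro h3
      apply h
      have h4 : ζ ^ i = ζ ^ j := by
        rw [hη, inv_pow] at h3
        exact (mul_inv_eq_one₀ (pow_ne_zero _ hζ0)).1 h3
      exact hζ.pow_inj hi hj h4
    have h3 : η ^ N = 1 := by
      rw [hη, mul_pow, ← pow_mul, ← pow_mul, mul_comm i N, mul_comm j N, pow_mul, pow_mul,
        hζ.pow_eq_one, inv_pow, hζ.pow_eq_one, inv_one, one_pow, one_pow, one_mul]
    have h4 := geom_sum_mul η N
    rw [h3, sub_self] at h4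
    exact (mul_eq_zero.1 h4).resolve_right (sub_ne_zero.2 h2)

/-- a component is bounded by the values of the polynomial -/
theorem sj_bd (S : IQ s) {q : ℕ} {ν : ℂ} (had : Ad q ν) {c : K → ℂ} (hc : CS c) {p : ℂ × ℝ}
    (hp : 0 < p.2) {B : ℝ} (hB : ∀ u : ℂ × ℂ, ‖fs s q ν c p u‖ ≤ B * nu u ^ q) {j : ℕ}
    (hj : j ≤ 2 * q) : ‖sj s q ν c j p‖ ≤ 2 ^ q * B := by
  have hN : 0 < 2 * q + 1 := Nat.succ_pos _
  obtain ⟨ζ, hζ⟩ : ∃ ζ : ℂ, IsPrimitiveRoot ζ (2 * q + 1) :=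
    ⟨_, Complex.isPrimitiveRoot_exp (2 * q + 1) hN.ne'⟩
  have hζ1 : ‖ζ‖ = 1 := hζ.norm'_eq_one hN.ne'
  have h1 : ∑ k ∈ Finset.range (2 * q + 1), ((ζ ^ k)⁻¹) ^ j * fs s q ν c p (ζ ^ k, 1) =
      ((2 * q + 1 : ℕ) : ℂ) * (((2 * q).choose j : ℂ) * (-I) ^ j * sj s q ν c j p) := by
    have h2 : ∀ k ∈ Finset.range (2 * q + 1), ((ζ ^ k)⁻¹) ^ j * fs s q ν c p (ζ ^ k, 1) =
        ∑ i ∈ Finset.range (2 * q + 1), (((2 * q).choose i : ℂ) * (-I) ^ i * sj s q ν c i p) *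
          ((ζ ^ k) ^ i * ((ζ ^ k)⁻¹) ^ j) := by
      intro k _
      rw [fs_eq S had hc hp, Finset.mul_sum]
      refine Finset.sum_congr rfl fun i _ => ?_
      simp only [one_pow, mul_one]
      ring
    rw [Finset.sum_congr rfl h2, Finset.sum_comm]
    have h3 : ∀ i ∈ Finset.range (2 * q + 1), ∑ k ∈ Finset.range (2 * q + 1),
        (((2 * q).choose i : ℂ) * (-I) ^ i * sj s q ν c i p) *
          ((ζ ^ k) ^ i * ((ζ ^ k)⁻¹) ^ j) =
        if i = j then ((2 * q + 1 : ℕ) : ℂ) *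
          (((2 * q).choose j : ℂ) * (-I) ^ j * sj s q ν c j p) else 0 := by
      intro i hi
      rw [← Finset.mul_sum, fq_orth hN hζ (Finset.mem_range.1 hi) (Nat.lt_succ_of_le hj)]
      split_ifs with h
      · rw [h]
        ring
      · rw [mul_zero]
    rw [Finset.sum_congr rfl h3, Finset.sum_ite_eq', if_pos (Finset.mem_range.2
      (Nat.lt_succ_of_le hj))]
  have h2 : ‖∑ k ∈ Finset.range (2 * q + 1), ((ζ ^ k)⁻¹) ^ j * fs s q ν c p (ζ ^ k, 1)‖ ≤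
      (2 * q + 1 : ℕ) * (2 ^ q * B) := by
    refine (norm_sum_le _ _).trans ?_
    have h3 : ∀ k ∈ Finset.range (2 * q + 1),
        ‖((ζ ^ k)⁻¹) ^ j * fs s q ν c p (ζ ^ k, 1)‖ ≤ 2 ^ q * B := by
      intro k _
      have h4 := hB (ζ ^ k, 1)
      have h5 : nu (ζ ^ k, (1 : ℂ)) = 2 := by
        unfold nu
        rw [normSq_eq_norm_sq, normSq_eq_norm_sq, norm_pow, hζ1, one_pow, norm_one]
        norm_num
      rw [h5] at h4
      rw [norm_mul, norm_pow, norm_inv, norm_pow, hζ1, one_pow, inv_one, one_pow, one_mul]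
      linarith
    refine (Finset.sum_le_sum h3).trans ?_
    rw [Finset.sum_const, Finset.card_range, nsmul_eq_mul]
  rw [h1, norm_mul, norm_natCast] at h2
  have h3 : ‖((2 * q).choose j : ℂ) * (-I) ^ j * sj s q ν c j p‖ ≤ 2 ^ q * B :=
    le_of_mul_le_mul_left h2 (by exact_mod_cast hN)
  rw [norm_mul, norm_mul, norm_natCast, norm_pow, norm_neg, norm_I, one_pow, mul_one] at h3
  have h4 : (1 : ℝ) ≤ ((2 * q).choose j : ℝ) := by
    exact_mod_cast Nat.choose_pos hj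
  calc ‖sj s q ν c j p‖ = 1 * ‖sj s q ν c j p‖ := (one_mul _).symm
    _ ≤ ((2 * q).choose j : ℝ) * ‖sj s q ν c j p‖ :=
        mul_le_mul_of_nonneg_right h4 (norm_nonneg _)
    _ ≤ _ := h3

/-! ### The inversion -/

theorem fq_n3 {p : ℂ × ℝ} (hp : 0 < p.2) : 0 < n3 p := by
  unfold n3
  have := normSq_nonneg p.1
  positivity

theorem nu_ku {p : ℂ × ℝ} (hp : 0 < p.2) (u : ℂ × ℂ) : nu (ku p u) = nu u := by
  have h0 := fq_n3 hp
  have h1 : normSq ((√(n3 p) : ℝ) : ℂ) = n3 p := by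
    rw [normSq_ofReal, Real.mul_self_sqrt h0.le]
  unfold nu ku
  simp only [map_div₀, h1]
  rw [← add_div, div_eq_iff h0.ne']
  unfold n3
  simp only [normSq_apply, add_re, add_im, mul_re, mul_im, neg_re, neg_im, ofReal_re, ofReal_im,
    conj_re, conj_im]
  ring

theorem fq_n3iv {p : ℂ × ℝ} (hp : 0 < p.2) : n3 (iv p) = (n3 p)⁻¹ := by
  have h0 := fq_n3 hp
  have h1 : n3 p = normSq p.1 + p.2 ^ 2 := rfl
  have h2 : n3 (iv p) = normSq p.1 / n3 p ^ 2 + (p.2 / n3 p) ^ 2 := by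
    unfold iv
    show normSq (-(starRingEnd ℂ) p.1 / ((n3 p : ℝ) : ℂ)) + (p.2 / n3 p) ^ 2 = _
    rw [map_div₀, normSq_neg, normSq_conj, normSq_ofReal, sq (n3 p)]
  rw [h2, div_pow, ← add_div, ← h1, sq, div_mul_cancel_left₀ h0.ne']

theorem iv_iv {p : ℂ × ℝ} (hp : 0 < p.2) : 0 < (iv p).2 ∧ iv (iv p) = p := by
  have h0 := fq_n3 hp
  have hc : ((n3 p : ℝ) : ℂ) ≠ 0 := ofReal_ne_zero.2 h0.ne'
  refine ⟨div_pos hp h0, ?_⟩
  have h1 := fq_n3iv hp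
  apply Prod.ext
  · show -(starRingEnd ℂ) (iv p).1 / ((n3 (iv p) : ℝ) : ℂ) = p.1
    rw [h1]
    show -(starRingEnd ℂ) (-(starRingEnd ℂ) p.1 / ((n3 p : ℝ) : ℂ)) / (((n3 p)⁻¹ : ℝ) : ℂ) = p.1
    rw [map_div₀, map_neg, conj_conj, conj_ofReal, ofReal_inv]
    field_simp
  · show (iv p).2 / n3 (iv p) = p.2
    rw [h1]
    show p.2 / n3 p / (n3 p)⁻¹ = p.2
    field_simp

theorem fq_ku {p : ℂ × ℝ} (hp : 0 < p.2) (u : ℂ × ℂ) : ku (iv p) (ku p u) = (-u.1, -u.2) := by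
  have h0 := fq_n3 hp
  have hs : 0 < √(n3 p) := Real.sqrt_pos.2 h0
  have hsc : ((√(n3 p) : ℝ) : ℂ) ≠ 0 := ofReal_ne_zero.2 hs.ne'
  have hss : ((√(n3 p) : ℝ) : ℂ) ^ 2 = p.1 * (starRingEnd ℂ) p.1 + (p.2 : ℂ) ^ 2 := by
    rw [← ofReal_pow, Real.sq_sqrt h0.le, mul_conj]
    unfold n3
    push_cast
    ring
  have hn : ((n3 p : ℝ) : ℂ) = ((√(n3 p) : ℝ) : ℂ) ^ 2 := by
    rw [← ofReal_pow, Real.sq_sqrt h0.le]
  have h1 : ((√(n3 (iv p)) : ℝ) : ℂ) = (((√(n3 p) : ℝ) : ℂ))⁻¹ := by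
    rw [fq_n3iv hp, Real.sqrt_inv, ofReal_inv]
  have h2 : (iv p).1 = -(starRingEnd ℂ) p.1 / ((√(n3 p) : ℝ) : ℂ) ^ 2 := by
    rw [← hn]
    rfl
  have h3 : (((iv p).2 : ℝ) : ℂ) = (p.2 : ℂ) / ((√(n3 p) : ℝ) : ℂ) ^ 2 := by
    rw [← hn]
    show (((p.2 / n3 p : ℝ)) : ℂ) = _
    rw [ofReal_div]
  have h4 : (starRingEnd ℂ) (iv p).1 = -p.1 / ((√(n3 p) : ℝ) : ℂ) ^ 2 := by
    rw [h2, map_div₀, map_neg, conj_conj, map_pow, conj_ofReal]
  have hk1 : (ku p u).1 = (p.1 * u.1 + p.2 * u.2) / ((√(n3 p) : ℝ) : ℂ) := rfl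
  have hk2 : (ku p u).2 = (-p.2 * u.1 + (starRingEnd ℂ) p.1 * u.2) / ((√(n3 p) : ℝ) : ℂ) := rfl
  apply Prod.ext
  · show ((iv p).1 * (ku p u).1 + ((iv p).2 : ℂ) * (ku p u).2) / ((√(n3 (iv p)) : ℝ) : ℂ) = -u.1
    rw [h1, h2, h3, hk1, hk2]
    field_simp
    linear_combination u.1 * hss
  · show (-((iv p).2 : ℂ) * (ku p u).1 + (starRingEnd ℂ) (iv p).1 * (ku p u).2) /
      ((√(n3 (iv p)) : ℝ) : ℂ) = -u.2
    rw [h1, h4, h3, hk1, hk2]
    field_simp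
    linear_combination u.2 * hss

theorem fq_neg (s : K →+* ℂ) (q : ℕ) (ν : ℂ) (c : K → ℂ) (p : ℂ × ℝ) (u : ℂ × ℂ) :
    fs s q ν c p (-u.1, -u.2) = fs s q ν c p u := by
  unfold fs Wh
  refine tsum_congr fun ξ => ?_
  congr 2
  refine Finset.sum_congr rfl fun j hj => ?_
  congr 1
  have h3 : j + (2 * q - j) = 2 * q := by
    have := Finset.mem_range.1 hj
    omega
  show (-u.1) ^ j * (-u.2) ^ (2 * q - j) = _
  rw [neg_pow, neg_pow u.2]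
  calc (-1) ^ j * u.1 ^ j * ((-1) ^ (2 * q - j) * u.2 ^ (2 * q - j))
      = (-1) ^ (j + (2 * q - j)) * (u.1 ^ j * u.2 ^ (2 * q - j)) := by
        rw [pow_add]
        ring
    _ = u.1 ^ j * u.2 ^ (2 * q - j) := by
        rw [h3, pow_mul]
        norm_num

theorem dp_symm {q : ℕ} {ν : ℂ} {c c' : K → ℂ} (h : DP s q ν c c') : DP s q ν c' c := by
  refine ⟨h.cs', h.cs, ?_, ?_⟩
  · obtain ⟨C, hC, hb⟩ := h.bd
    refine ⟨C, hC, fun p u hp => ?_⟩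
    rw [h.inv p u hp]
    have h1 := hb (iv p) (ku p u) (iv_iv hp).1
    rwa [nu_ku hp] at h1
  · intro p u hp
    rw [h.inv (iv p) (ku p u) (iv_iv hp).1, (iv_iv hp).2, fq_ku hp, fq_neg]


end Pool.Agent.HI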