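import Pool.Agent.Lib_helper25.HIF.DX
import Pool.Agent.Lib_helper25.HIF.AF
import Pool.Agent.Lib_helper25.HIF.AG
import Pool.Agent.Lib_helper25.HIF.AH
import Pool.Agent.Lib_helper25.HIF.FQ

/-!
# Project HI, block AN: dual pairs of Fourier series
-/

namespace Pool.Agent.HI
open NumberField Complex MeasureTheory IsDedekindDomain
open scoped nonZeroDivisors MatrixGroups
open Pool.Agent.HSG (Lat Pr IsInt nI prI DD nm wm dgm dt qP NCl IsRepQ)
open Pool.Agent.HSG.LV (Pt Tp Ts Sc Cp Dv Prim sS sZ ptS ptZ pI Res Gal gI gP wP omF lamF)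

variable {K : Type} [Field K] [NumberField K] {s : K →+* ℂ}
variable {q : ℕ} {ν : ℂ} {n : HSG.Id K} {om : HSG.Id K → ℂ} {F : ℂ × ℝ → ℂ × ℂ → Pt n → ℂ}

theorem form_dp (S : IQ s) (had : Ad q ν) (hn : IsInt n) (hF : IForm s q ν n om F)
    {A B : HSG.Id K → ℂ} (hA : ICoS s q ν F A) (hB : ICoZ s q ν F B) (b : HSG.Id K) :
    DP s q ν (cS A b) (cZ n B b) := by
  have _h := had
  obtain ⟨C, hC, hb⟩ := form_unif S hn hF
  refine ⟨(cs_cS S ⟨hA.int, hA.bdd⟩ b).1, (cs_cZ S n ⟨hB.int, hB.bdd⟩ b).1,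
    ⟨C, hC, fun p u hp => ?_⟩, fun p u hp => ?_⟩
  · rw [← hA.exp b p u hp]
    exact hb (sS n b) p u hp
  · rw [← hB.exp b p u hp, form_wm hF b hp u, hA.exp b (iv p) (ku p u) (iv_iv hp).1]


end Pool.Agent.HI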