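import Pool.Agent.Lib_helper25.HIF.DX
import Pool.Agent.Lib_helper84.HSGF.GA1
import Pool.Agent.Lib_helper84.HSGF.GA3
import Pool.Agent.Lib_helper84.HSGF.GD1
import Pool.Agent.Lib_helper84.HSGF.GH
import Pool.Agent.Lib_helper45.HSF.P1

/-!
# Project HI, block AO: the Dirichlet series
-/

namespace Pool.Agent.HI
open NumberField Complex MeasureTheory IsDedekindDomain
open scoped nonZeroDivisors MatrixGroups
open Pool.Agent.HSG (Lat Pr IsInt nI prI DD nm wm dgm dt qP NCl IsRepQ Kp Uu Pp)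
open Pool.Agent.HSG.LV (Pt Tp Ts Sc Cp Dv Prim sS sZ ptS ptZ pI Res Gal gI gP wP omF lamF)

variable {K : Type} [Field K] [NumberField K] {s : K →+* ℂ}

theorem id_sum (K : Type) [Field K] [NumberField K] {σ : ℝ} (hσ : 1 < σ) :
    Summable (fun m : {m : HSG.Id K // IsInt m} => nI m.1 ^ (-σ)) := by
  have h1 := HS.sum_nrm (HS.PK K) (s := σ) hσ
  let f : (Pr K →₀ ℕ) → {m : HSG.Id K // IsInt m} := fun g => ⟨HS.idl g, HSG.idl_int g⟩
  have hf : Function.Bijective f := by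
    constructor
    · intro g g' h
      exact HS.idl_inj (congrArg Subtype.val h)
    · rintro ⟨m, hm⟩
      obtain ⟨g, hg⟩ := HSG.idl_sur hm
      exact ⟨g, Subtype.ext hg⟩
  have h2 : (fun m : {m : HSG.Id K // IsInt m} => nI m.1 ^ (-σ)) ∘ (Equiv.ofBijective f hf) =
      fun m : Pr K →₀ ℕ => ((HS.PK K).nrm m : ℝ) ^ (-σ) := by
    funext m
    simp only [Function.comp_apply, Equiv.ofBijective_apply, f, HSG.nI_idl]
  rw [← h2] at h1
  exact (Equiv.summable_iff _).1 h1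

open scoped Classical in
theorem ao_sum (K : Type) [Field K] [NumberField K] {σ : ℝ} (hσ : 1 < σ) :
    Summable (fun m : HSG.Id K => if IsInt m then nI m ^ (-σ) else 0) := by
  have h := id_sum K hσ
  have h2 : (fun m : {m : HSG.Id K // IsInt m} => nI m.1 ^ (-σ)) =
      (fun m : HSG.Id K => if IsInt m then nI m ^ (-σ) else 0) ∘ Subtype.val := by
    funext m
    simp only [Function.comp_apply, if_pos m.2]
  rw [h2] at h
  refine (Subtype.val_injective.summable_iff ?_).1 h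
  intro m hm
  rw [if_neg]
  intro hi
  exact hm ⟨⟨m, hi⟩, rfl⟩

/-! ### The embeddings -/

theorem ao_ne (S : IQ s) : s ≠ ComplexEmbedding.conjugate s := by
  intro h
  obtain ⟨x, hx⟩ := S.im
  have h1 := RingHom.congr_fun h x
  rw [ComplexEmbedding.conjugate_coe_eq] at h1
  apply hx
  have h2 := congrArg Complex.im h1
  rw [Complex.conj_im] at h2
  linarith

theorem ao_emb (S : IQ s) (φ : K →+* ℂ) : φ = s ∨ φ = ComplexEmbedding.conjugate s := by
  classical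
  by_contra h
  push Not at h
  have h1 : Fintype.card (K →+* ℂ) = 2 := by
    rw [NumberField.Embeddings.card K ℂ, S.deg]
  have h2 : ({φ, s, ComplexEmbedding.conjugate s} : Finset (K →+* ℂ)).card = 3 := by
    rw [Finset.card_eq_three]
    exact ⟨φ, s, ComplexEmbedding.conjugate s, h.1, h.2, ao_ne S, rfl⟩
  have h3 := Finset.card_le_univ ({φ, s, ComplexEmbedding.conjugate s} : Finset (K →+* ℂ))
  rw [h1, h2] at h3
  omega

theorem ao_univ (S : IQ s) [DecidableEq (K →+* ℂ)] :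
    (Finset.univ : Finset (K →+* ℂ)) = {s, ComplexEmbedding.conjugate s} := by
  ext φ
  simp only [Finset.mem_univ, Finset.mem_insert, Finset.mem_singleton, true_iff]
  exact ao_emb S φ

theorem ao_norm_eq (S : IQ s) (φ : K →+* ℂ) (x : K) : ‖φ x‖ = ‖s x‖ := by
  rcases ao_emb S φ with h | h
  · rw [h]
  · rw [h, ComplexEmbedding.conjugate_coe_eq, Complex.norm_conj]

theorem ao_em (S : IQ s) : IsEmpty (HSG.Em K) := by
  refine ⟨fun w => ?_⟩
  obtain ⟨x, hx⟩ := S.im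
  rcases ao_emb S ((Complex.ofRealHom.comp w : K →+* ℂ)) with h | h
  · have h1 := RingHom.congr_fun h x
    apply hx
    rw [← h1]
    simp
  · have h1 := RingHom.congr_fun h x
    rw [ComplexEmbedding.conjugate_coe_eq] at h1
    apply hx
    have h2 := congrArg Complex.im h1
    rw [Complex.conj_im] at h2
    simp only [RingHom.coe_comp, Function.comp_apply, Complex.ofRealHom_eq_coe,
      Complex.ofReal_im] at h2
    linarith

theorem ao_kp (S : IQ s) (x : Kˣ) : x ∈ Kp K := by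
  have := ao_em S
  intro w
  exact (this.false w).elim

theorem nI_norm (S : IQ s) (x : Kˣ) : nI (prI x) = ‖s x‖ ^ 2 := by
  classical
  unfold nI prI
  rw [coe_toPrincipalIdeal, FractionalIdeal.absNorm_span_singleton, Rat.cast_abs]
  have h1 := Algebra.norm_eq_prod_embeddings ℚ ℂ (x : K)
  have h2 : ∏ φ : K →+* ℂ, φ (x : K) = ∏ σ : K →ₐ[ℚ] ℂ, σ (x : K) := by
    rw [← Fintype.prod_equiv (RingHom.equivRatAlgHom K ℂ) (fun φ => φ (x : K))
      (fun σ => σ (x : K)) (fun _ => by simp [RingHom.equivRatAlgHom_apply])]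
  rw [← h2, ao_univ S, Finset.prod_pair (ao_ne S), ComplexEmbedding.conjugate_coe_eq] at h1
  have h3 : ‖((Algebra.norm ℚ (x : K) : ℚ) : ℂ)‖ = ‖s x‖ ^ 2 := by
    have h4 : ((Algebra.norm ℚ (x : K) : ℚ) : ℂ) = s x * (starRingEnd ℂ) (s x) := h1
    rw [h4, norm_mul, Complex.norm_conj, sq]
  rw [← h3, ← Complex.ofReal_ratCast, Complex.norm_real, Real.norm_eq_abs]

theorem ao_DD : nI (DD K) = Dk K := by
  rw [HSG.gd1_DD]
  unfold nI HSG.gd1_D Dk
  rw [Units.val_mk0, FractionalIdeal.coeIdeal_absNorm, NumberField.absNorm_differentIdeal K]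
  rw [Rat.cast_natCast, Nat.cast_natAbs, Int.cast_abs]

theorem ao_Dk_pos : 0 < Dk K := by
  rw [← ao_DD]
  exact HSG.nI_pos _

/-! ### The units -/

theorem ao_unit_norm (S : IQ s) (u : (𝓞 K)ˣ) : ‖s ((u : 𝓞 K) : K)‖ = 1 := by
  have hne : ((u : 𝓞 K) : K) ≠ 0 := by
    intro h
    exact u.ne_zero (RingOfIntegers.ext h)
  have h1 : Units.mk0 ((u : 𝓞 K) : K) hne ∈ Uu K := (HSG.mem_uu _).2 ⟨u, rfl⟩
  have h2 : prI (Units.mk0 ((u : 𝓞 K) : K) hne) = 1 := h1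
  have h3 := nI_norm S (Units.mk0 ((u : 𝓞 K) : K) hne)
  rw [h2, HSG.nI_one] at h3
  have h4 : ‖s ((u : 𝓞 K) : K)‖ ^ 2 = 1 := h3.symm
  have h5 := norm_nonneg (s ((u : 𝓞 K) : K))
  nlinarith

theorem ao_units_finite (S : IQ s) : Finite (𝓞 K)ˣ := by
  have h1 := NumberField.Embeddings.finite_of_norm_le K ℂ 1
  have h2 : Set.MapsTo (fun u : (𝓞 K)ˣ => ((u : 𝓞 K) : K)) Set.univ
      {x : K | IsIntegral ℤ x ∧ ∀ φ : K →+* ℂ, ‖φ x‖ ≤ 1} := by
    intro u _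
    refine ⟨RingOfIntegers.isIntegral_coe _, fun φ => ?_⟩
    rw [ao_norm_eq S φ, ao_unit_norm S]
  have h3 : Set.InjOn (fun u : (𝓞 K)ˣ => ((u : 𝓞 K) : K)) Set.univ := by
    intro u _ v _ h
    exact Units.ext (RingOfIntegers.ext h)
  exact Set.finite_univ_iff.1 (Set.Finite.of_injOn h2 h3 h1)

/-- a unit of the ring of integers as a unit of the field -/
noncomputable def ao_u (u : (𝓞 K)ˣ) : Kˣ := Units.map (algebraMap (𝓞 K) K).toMonoidHom u

omit [NumberField K] in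
theorem ao_u_inj : Function.Injective (ao_u (K := K)) := by
  intro u v h
  have h1 := congrArg Units.val h
  exact Units.ext (RingOfIntegers.ext h1)

theorem ao_u_prI (u : (𝓞 K)ˣ) : prI (ao_u u) = 1 := by
  have : ao_u u ∈ Uu K := (HSG.mem_uu _).2 ⟨u, rfl⟩
  exact this

theorem ao_u_sur {x : Kˣ} (h : prI x = 1) : ∃ u, ao_u u = x := by
  obtain ⟨u, hu⟩ := (HSG.mem_uu x).1 h
  exact ⟨u, Units.ext hu⟩

/-! ### The sum over the classes -/

section sum

variable [Fintype (NCl K)]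

/-- the map which sends an ideal and a unit to a class and an element -/
noncomputable def ao_map {β : NCl K → HSG.Id K}
    (h : ∀ m : HSG.Id K, ∃ κ : NCl K, ∃ ξ : Kˣ, prI ξ * β κ = m) :
    HSG.Id K × (𝓞 K)ˣ → NCl K × Kˣ :=
  fun x => ((h x.1).choose, ao_u x.2 * (h x.1).choose_spec.choose)

omit [Fintype (NCl K)] in
theorem ao_map_val {β : NCl K → HSG.Id K}
    (h : ∀ m : HSG.Id K, ∃ κ : NCl K, ∃ ξ : Kˣ, prI ξ * β κ = m) (x : HSG.Id K × (𝓞 K)ˣ) :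
    prI (ao_map h x).2 * β (ao_map h x).1 = x.1 := by
  unfold ao_map
  simp only
  rw [map_mul, ao_u_prI, one_mul]
  exact (h x.1).choose_spec.choose_spec

omit [Fintype (NCl K)] in
theorem ao_map_bij {β : NCl K → HSG.Id K}
    (h : ∀ m : HSG.Id K, ∃ κ : NCl K, ∃ ξ : Kˣ, prI ξ * β κ = m)
    (hu : ∀ (κ κ' : NCl K) (ξ ξ' : Kˣ), prI ξ * β κ = prI ξ' * β κ' → κ = κ') :
    Function.Bijective (ao_map h) := by
  constructor
  · intro x y hxy
    have h1 : x.1 = y.1 := by rw [← ao_map_val h x, ← ao_map_val h y, hxy]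
    obtain ⟨m, u⟩ := x
    obtain ⟨m', v⟩ := y
    simp only at h1
    subst h1
    have h2 := congrArg Prod.snd hxy
    unfold ao_map at h2
    simp only [mul_left_inj] at h2
    rw [ao_u_inj h2]
  · rintro ⟨κ, ξ⟩
    set m := prI ξ * β κ with hm
    have h1 := (h m).choose_spec.choose_spec
    have h2 : (h m).choose = κ := hu _ _ (h m).choose_spec.choose ξ (by rw [h1])
    have h3 : prI (ξ * ((h m).choose_spec.choose)⁻¹) = 1 := by
      have h4 : prI (h m).choose_spec.choose * β κ = prI ξ * β κ := by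
        have h5 := h1
        conv at h5 => lhs; arg 2; rw [h2]
        rw [h5]
      have h6 := mul_right_cancel h4
      rw [map_mul, map_inv, h6, mul_inv_cancel]
    obtain ⟨u, hu'⟩ := ao_u_sur h3
    refine ⟨(m, u), ?_⟩
    unfold ao_map
    simp only
    rw [hu', Prod.mk.injEq]
    exact ⟨h2, by group⟩

theorem ao_fub (S : IQ s) {β : NCl K → HSG.Id K}
    (h : ∀ m : HSG.Id K, ∃ κ : NCl K, ∃ ξ : Kˣ, prI ξ * β κ = m)
    (hu : ∀ (κ κ' : NCl K) (ξ ξ' : Kˣ), prI ξ * β κ = prI ξ' * β κ' → κ = κ')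
    {g : HSG.Id K → ℂ} (hg : Summable fun m => ‖g m‖) :
    ∑ κ, ∑' ξ : Kˣ, g (prI ξ * β κ) = (wK K : ℂ) * ∑' m, g m := by
  classical
  have hfin := ao_units_finite S
  have := Fintype.ofFinite (𝓞 K)ˣ
  let e := Equiv.ofBijective _ (ao_map_bij h hu)
  have h1 : Summable (fun _ : (𝓞 K)ˣ => ‖(1 : ℂ)‖) := (hasSum_fintype _).summable
  have h2 := summable_mul_of_summable_norm hg h1
  have h3 := tsum_mul_tsum_of_summable_norm hg h1
  have h4 : (fun x : HSG.Id K × (𝓞 K)ˣ => g x.1 * (1 : ℂ)) =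
      (fun y : NCl K × Kˣ => g (prI y.2 * β y.1)) ∘ e := by
    funext x
    rw [mul_one, Function.comp_apply]
    show _ = g (prI (ao_map h x).2 * β (ao_map h x).1)
    rw [ao_map_val]
  have h5 : Summable (fun y : NCl K × Kˣ => g (prI y.2 * β y.1)) := by
    rw [h4] at h2
    exact (Equiv.summable_iff e).1 h2
  have h6 : ∑' x : HSG.Id K × (𝓞 K)ˣ, g x.1 * (1 : ℂ) =
      ∑' y : NCl K × Kˣ, g (prI y.2 * β y.1) := by
    rw [h4]
    exact Equiv.tsum_eq e (fun y : NCl K × Kˣ => g (prI y.2 * β y.1))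
  have h7 : (∑' _ : (𝓞 K)ˣ, (1 : ℂ)) = (wK K : ℂ) := by
    rw [tsum_fintype, Finset.sum_const, Finset.card_univ, nsmul_eq_mul, mul_one]
    unfold wK
    rw [Nat.card_eq_fintype_card]
  have h8 : (∑' κ : NCl K, ∑' ξ : Kˣ, g (prI ξ * β κ)) =
      ∑ κ, ∑' ξ : Kˣ, g (prI ξ * β κ) := tsum_fintype _
  have h9 := h5.tsum_prod
  rw [h7, h6, h9] at h3
  rw [← h8, mul_comm, h3]

end sum

/-! ### Powers of positive numbers -/

theorem ao_cp {x : ℝ} (hx : 0 < x) (w : ℂ) : ((x : ℝ) : ℂ) ^ w = cexp ((Real.log x : ℝ) * w) := by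
  rw [Complex.cpow_def_of_ne_zero (by exact_mod_cast hx.ne'), Complex.ofReal_log hx.le]

omit [NumberField K] in
theorem ao_ds (c : K → ℂ) (h0 : c 0 = 0) (z : ℂ) :
    Ds s c z = ∑' ξ : Kˣ, c (ξ : K) * (‖s ξ‖ : ℂ) ^ (1 - 2 * z) := by
  unfold Ds
  refine (Function.Injective.tsum_eq (g := fun ξ : Kˣ => (ξ : K)) Units.val_injective
    (f := fun ξ : K => c ξ * (‖s ξ‖ : ℂ) ^ (1 - 2 * z)) ?_).symm
  intro ξ hξ
  have h : ξ ≠ 0 := by
    rintro rfl
    apply hξ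
    simp only [h0, zero_mul]
  exact ⟨Units.mk0 ξ h, rfl⟩

theorem ao_summable {A : HSG.Id K → ℂ}
    (hA : (∀ m, ¬ IsInt m → A m = 0) ∧ ∃ C : ℝ, ∀ m, ‖A m‖ ≤ C) {z : ℂ} (hz : 3 / 2 < z.re) :
    Summable (fun m : HSG.Id K => ‖A m * ((nI m : ℝ) : ℂ) ^ (1 / 2 - z)‖) := by
  classical
  obtain ⟨h0, C, hC⟩ := hA
  have h1 := ao_sum K (σ := z.re - 1 / 2) (by linarith)
  have hC0 : 0 ≤ C := (norm_nonneg _).trans (hC 1)
  refine Summable.of_nonneg_of_le (fun m => norm_nonneg _) (fun m => ?_) (h1.mul_left C)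
  by_cases hm : IsInt m
  · rw [if_pos hm, norm_mul, Complex.norm_cpow_eq_rpow_re_of_pos (HSG.nI_pos m)]
    have h2 : (1 / 2 - z).re = -(z.re - 1 / 2) := by
      rw [Complex.sub_re]
      norm_num
    rw [h2]
    exact mul_le_mul_of_nonneg_right (hC m) (Real.rpow_nonneg (HSG.nI_pos m).le _)
  · rw [if_neg hm, h0 m hm, zero_mul, norm_zero, mul_zero]

theorem ds_S (S : IQ s) [Fintype (NCl K)] {b : NCl K → HSG.Id K}
    (hb : ∀ κ, (QuotientGroup.mk (b κ) : NCl K) = κ) {A : HSG.Id K → ℂ}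
    (hA : (∀ m, ¬ IsInt m → A m = 0) ∧ ∃ C : ℝ, ∀ m, ‖A m‖ ≤ C) {z : ℂ} (hz : 3 / 2 < z.re) :
    Summable (fun m : HSG.Id K => ‖A m * ((nI m : ℝ) : ℂ) ^ (1 / 2 - z)‖) ∧
    ∑ κ, ((nI (b κ) : ℝ) : ℂ) ^ (z - 1 / 2) * Ds s (cS A (b κ)) z =
      (wK K : ℂ) * ((Dk K : ℝ) : ℂ) ^ (z - 1 / 2) *
        ∑' m : HSG.Id K, A m * ((nI m : ℝ) : ℂ) ^ (1 / 2 - z) := by
  classical
  have hsum := ao_summable hA hz
  refine ⟨hsum, ?_⟩
  have hex : ∀ m : HSG.Id K, ∃ κ : NCl K, ∃ ξ : Kˣ, prI ξ * (DD K / b κ) = m := by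
    intro m
    refine ⟨QuotientGroup.mk (DD K / m), ?_⟩
    have h1 := hb (QuotientGroup.mk (DD K / m))
    rw [QuotientGroup.eq] at h1
    obtain ⟨x, _, hx⟩ := h1
    refine ⟨x⁻¹, ?_⟩
    rw [map_inv, hx]
    generalize b _ = c
    rw [mul_inv, inv_inv, inv_div, div_eq_mul_inv, div_eq_mul_inv]
    calc c * (m * (DD K)⁻¹) * (DD K * c⁻¹)
        = m * (c * c⁻¹) * ((DD K)⁻¹ * DD K) := by ac_rfl
      _ = m := by rw [mul_inv_cancel, inv_mul_cancel, mul_one, mul_one]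
  have hun : ∀ (κ κ' : NCl K) (ξ ξ' : Kˣ),
      prI ξ * (DD K / b κ) = prI ξ' * (DD K / b κ') → κ = κ' := by
    intro κ κ' ξ ξ' h
    rw [← hb κ, ← hb κ', QuotientGroup.eq]
    refine ⟨ξ' * ξ⁻¹, ao_kp S _, ?_⟩
    rw [map_mul, map_inv]
    have h1 : prI ξ * (b κ)⁻¹ = prI ξ' * (b κ')⁻¹ := by
      have h2 : prI ξ * (b κ)⁻¹ * DD K = prI ξ' * (b κ')⁻¹ * DD K := by
        rw [div_eq_mul_inv, div_eq_mul_inv] at h
        calc prI ξ * (b κ)⁻¹ * DD K = prI ξ * (DD K * (b κ)⁻¹) := by ac_rfl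
          _ = prI ξ' * (DD K * (b κ')⁻¹) := h
          _ = _ := by ac_rfl
      exact mul_right_cancel h2
    calc prI ξ' * (prI ξ)⁻¹ = (prI ξ' * (b κ')⁻¹) * b κ' * (prI ξ)⁻¹ := by
          rw [inv_mul_cancel_right]
      _ = (prI ξ * (b κ)⁻¹) * b κ' * (prI ξ)⁻¹ := by rw [h1]
      _ = (prI ξ * (prI ξ)⁻¹) * ((b κ)⁻¹ * b κ') := by ac_rfl
      _ = (b κ)⁻¹ * b κ' := by rw [mul_inv_cancel, one_mul]
  have hfub := ao_fub S (β := fun κ => DD K / b κ) hex hun hsum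
  rw [mul_right_comm, ← hfub, Finset.sum_mul]
  refine Finset.sum_congr rfl fun κ _ => ?_
  rw [ao_ds _ (by simp [cS]), ← tsum_mul_left, ← tsum_mul_right]
  refine tsum_congr fun ξ => ?_
  have hc : cS A (b κ) (ξ : K) = A (prI ξ * (DD K / b κ)) := by
    unfold cS
    rw [dif_neg ξ.ne_zero, Units.mk0_val, mul_div_assoc]
  rw [hc]
  have hs0 : 0 < ‖s ξ‖ := norm_pos_iff.2 (fun h => ξ.ne_zero ((map_eq_zero s).1 h))
  have hN : nI (prI ξ * (DD K / b κ)) = ‖s ξ‖ ^ 2 * (Dk K / nI (b κ)) := by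
    rw [HSG.nI_mul, HSG.nI_div, nI_norm S, ao_DD]
  have hb0 := HSG.nI_pos (b κ)
  have hD := ao_Dk_pos (K := K)
  have hN0 := HSG.nI_pos (prI ξ * (DD K / b κ))
  have hlog : Real.log (nI (prI ξ * (DD K / b κ))) =
      2 * Real.log ‖s ξ‖ + (Real.log (Dk K) - Real.log (nI (b κ))) := by
    rw [hN, Real.log_mul (by positivity) (by positivity), Real.log_pow,
      Real.log_div hD.ne' hb0.ne']
    push_cast
    ring
  rw [ao_cp hN0, ao_cp hD, ao_cp hb0, ao_cp hs0, hlog]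
  generalize A (prI ξ * (DD K / b κ)) = A0
  rw [mul_left_comm, ← Complex.exp_add, mul_assoc, ← Complex.exp_add]
  congr 2
  push_cast
  ring

theorem ds_Z (S : IQ s) [Fintype (NCl K)] {b : NCl K → HSG.Id K}
    (hb : ∀ κ, (QuotientGroup.mk (b κ) : NCl K) = κ) (n : HSG.Id K) {B : HSG.Id K → ℂ}
    (hB : (∀ m, ¬ IsInt m → B m = 0) ∧ ∃ C : ℝ, ∀ m, ‖B m‖ ≤ C) {z : ℂ} (hz : 3 / 2 < z.re) :
    ∑ κ, ((nI (b κ) : ℝ) : ℂ) ^ (1 / 2 - z) * Ds s (cZ n B (b κ)) z =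
      (wK K : ℂ) * ((Dk K * nI n : ℝ) : ℂ) ^ (z - 1 / 2) *
        ∑' m : HSG.Id K, B m * ((nI m : ℝ) : ℂ) ^ (1 / 2 - z) := by
  classical
  have hsum := ao_summable hB hz
  have hex : ∀ m : HSG.Id K, ∃ κ : NCl K, ∃ ξ : Kˣ, prI ξ * (n * b κ * DD K) = m := by
    intro m
    refine ⟨QuotientGroup.mk (m / (n * DD K)), ?_⟩
    have h1 := hb (QuotientGroup.mk (m / (n * DD K)))
    rw [QuotientGroup.eq] at h1
    obtain ⟨x, _, hx⟩ := h1
    refine ⟨x, ?_⟩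
    rw [hx, div_eq_mul_inv]
    generalize b _ = c
    rw [mul_inv]
    calc c⁻¹ * (m * (n⁻¹ * (DD K)⁻¹)) * (n * c * DD K)
        = m * (c⁻¹ * c) * (n⁻¹ * n) * ((DD K)⁻¹ * DD K) := by ac_rfl
      _ = m := by rw [inv_mul_cancel, inv_mul_cancel, inv_mul_cancel, mul_one, mul_one, mul_one]
  have hun : ∀ (κ κ' : NCl K) (ξ ξ' : Kˣ),
      prI ξ * (n * b κ * DD K) = prI ξ' * (n * b κ' * DD K) → κ = κ' := by
    intro κ κ' ξ ξ' h
    rw [← hb κ, ← hb κ', QuotientGroup.eq]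
    refine ⟨ξ * ξ'⁻¹, ao_kp S _, ?_⟩
    rw [map_mul, map_inv]
    have h1 : prI ξ * b κ = prI ξ' * b κ' := by
      have h2 : prI ξ * b κ * (n * DD K) = prI ξ' * b κ' * (n * DD K) := by
        calc prI ξ * b κ * (n * DD K) = prI ξ * (n * b κ * DD K) := by ac_rfl
          _ = prI ξ' * (n * b κ' * DD K) := h
          _ = _ := by ac_rfl
      exact mul_right_cancel h2
    calc prI ξ * (prI ξ')⁻¹ = (prI ξ * b κ) * (b κ)⁻¹ * (prI ξ')⁻¹ := by
          rw [mul_inv_cancel_right]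
      _ = (prI ξ' * b κ') * (b κ)⁻¹ * (prI ξ')⁻¹ := by rw [h1]
      _ = (prI ξ' * (prI ξ')⁻¹) * ((b κ)⁻¹ * b κ') := by ac_rfl
      _ = (b κ)⁻¹ * b κ' := by rw [mul_inv_cancel, one_mul]
  have hfub := ao_fub S (β := fun κ => n * b κ * DD K) hex hun hsum
  rw [mul_right_comm, ← hfub, Finset.sum_mul]
  refine Finset.sum_congr rfl fun κ _ => ?_
  rw [ao_ds _ (by simp [cZ]), ← tsum_mul_left, ← tsum_mul_right]
  refine tsum_congr fun ξ => ?_
  have hc : cZ n B (b κ) (ξ : K) = B (prI ξ * (n * b κ * DD K)) := by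
    unfold cZ
    rw [dif_neg ξ.ne_zero, Units.mk0_val]
  rw [hc]
  have hs0 : 0 < ‖s ξ‖ := norm_pos_iff.2 (fun h => ξ.ne_zero ((map_eq_zero s).1 h))
  have hN : nI (prI ξ * (n * b κ * DD K)) = ‖s ξ‖ ^ 2 * (nI n * nI (b κ) * Dk K) := by
    rw [HSG.nI_mul, HSG.nI_mul, HSG.nI_mul, nI_norm S, ao_DD]
  have hb0 := HSG.nI_pos (b κ)
  have hn0 := HSG.nI_pos n
  have hD := ao_Dk_pos (K := K)
  have hDn : 0 < Dk K * nI n := mul_pos hD hn0
  have hN0 := HSG.nI_pos (prI ξ * (n * b κ * DD K))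
  have hlog : Real.log (nI (prI ξ * (n * b κ * DD K))) =
      2 * Real.log ‖s ξ‖ + (Real.log (nI n) + Real.log (nI (b κ)) + Real.log (Dk K)) := by
    rw [hN, Real.log_mul (by positivity) (by positivity), Real.log_pow,
      Real.log_mul (by positivity) hD.ne', Real.log_mul hn0.ne' hb0.ne']
    push_cast
    ring
  rw [ao_cp hN0, ao_cp hDn, ao_cp hb0, ao_cp hs0, hlog, Real.log_mul hD.ne' hn0.ne']
  generalize B (prI ξ * (n * b κ * DD K)) = B0
  rw [mul_left_comm, ← Complex.exp_add, mul_assoc, ← Complex.exp_add]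
  congr 2
  push_cast
  ring


end Pool.Agent.HI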