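import Pool.Agent.Lib_helper25.HIF.DX
import Pool.Agent.Lib_helper25.HIF.AA
import Pool.Agent.Lib_helper25.HIF.AB
import Pool.Agent.Lib_helper25.HIF.AF
import Pool.Agent.Lib_helper84.LVF.LK1
import Pool.Agent.Lib_helper84.LVF.LK2

/-! # Project HI, block AT: the nontrivial automorphism, the conjugate form -/

namespace Pool.Agent.HI
open NumberField Complex MeasureTheory IsDedekindDomain
open scoped nonZeroDivisors MatrixGroups
open Pool.Agent.HSG (Lat Pr IsInt nI prI DD nm wm dgm dt qP NCl IsRepQ)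
open Pool.Agent.HSG.LV (Pt Tp Ts Sc Cp Dv Prim sS sZ ptS ptZ pI Res Gal gI gP wP omF lamF)
open Pool.Agent.HI

variable {K : Type} [Field K] [NumberField K] {s : K →+* ℂ}

theorem tau_exists (S : IQ s) : ∃ τ : K ≃+* K, (∀ x, s (τ x) = (starRingEnd ℂ) (s x)) ∧
    (∀ x, τ (τ x) = x) ∧ ∃ x, τ x ≠ x := by
  have h1 : Algebra.IsQuadraticExtension ℚ K := ⟨S.deg⟩
  obtain ⟨σ, hσ⟩ := ComplexEmbedding.exists_comp_symm_eq_of_comp_eq (k := ℚ) s
    ((starRingEnd ℂ).comp s) (Subsingleton.elim _ _)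
  have hs : ∀ x, s (σ.symm x) = (starRingEnd ℂ) (s x) := fun x => RingHom.congr_fun hσ x
  refine ⟨σ.symm.toRingEquiv, hs, fun x => s.injective ?_, ?_⟩
  · show s (σ.symm (σ.symm x)) = s x
    rw [hs, hs, Complex.conj_conj]
  · obtain ⟨x, hx⟩ := S.im
    refine ⟨x, fun h => hx ?_⟩
    have h2 : σ.symm x = x := h
    have h3 := hs x
    rw [h2] at h3
    exact Complex.conj_eq_iff_im.1 h3.symm

/-! ### The action on ideals and points -/

omit [NumberField K] in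
theorem at_symm {τ : K ≃+* K} (h2 : ∀ x, τ (τ x) = x) (x : K) : τ.symm x = τ x := by
  rw [RingEquiv.symm_apply_eq]
  exact (h2 x).symm

theorem at_gg {τ : K ≃+* K} (h2 : ∀ x, τ (τ x) = x) (a : HSG.Id K) : gI τ (gI τ a) = a := by
  apply Pool.Agent.HSG.m_inj
  ext x
  rw [HSG.LV.mem_gI, HSG.LV.mem_gI, at_symm h2, at_symm h2, h2]

theorem at_gap {τ : K ≃+* K} {n : HSG.Id K} (hn : IsInt n) {x : Pt n} {y : Pt (gI τ n)}
    (h : Gal τ x y) : (gaP τ y : Pt n) = x := by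
  have hex : ∃ x : Pt n, Gal τ x y := ⟨x, h⟩
  unfold gaP
  rw [dif_pos hex]
  exact (HSG.LV.gal_exists' τ hn y).unique hex.choose_spec h

theorem at_gal {τ : K ≃+* K} {n : HSG.Id K} (hn : IsInt n) (y : Pt (gI τ n)) :
    Gal τ (gaP τ y : Pt n) y := by
  obtain ⟨x, hx, -⟩ := HSG.LV.gal_exists' τ hn y
  rw [at_gap hn hx]
  exact hx

/-- the image of a matrix -/
noncomputable abbrev atMp (τ : K ≃+* K) (g : GL (Fin 2) K) : GL (Fin 2) K :=
  Matrix.GeneralLinearGroup.map (n := Fin 2) (τ : K →+* K) g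

omit [NumberField K] in
theorem at_ent (τ : K ≃+* K) (g : GL (Fin 2) K) (i j : Fin 2) : atMp τ g i j = τ (g i j) := rfl

theorem at_mp2 {τ : K ≃+* K} (h2 : ∀ x, τ (τ x) = x) (g : GL (Fin 2) K) : atMp τ (atMp τ g) = g := by
  ext i j
  show atMp τ (atMp τ g) i j = g i j
  rw [at_ent, at_ent, h2]

omit [NumberField K] in
theorem at_nm (τ : K ≃+* K) (β : K) :
    atMp τ (nm β : GL (Fin 2) K) = (nm (τ β) : GL (Fin 2) K) := by
  ext i j
  show τ ((nm β : Matrix.SpecialLinearGroup (Fin 2) K) i j) =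
    (nm (τ β) : Matrix.SpecialLinearGroup (Fin 2) K) i j
  fin_cases i <;> fin_cases j <;> simp [nm]

theorem at_gap_mul {τ : K ≃+* K} (h2 : ∀ x, τ (τ x) = x) {n : HSG.Id K} (hn : IsInt n)
    (x : Pt (gI τ n)) (g : GL (Fin 2) K) :
    (gaP τ (x.mul g) : Pt n) = (gaP τ x : Pt n).mul (atMp τ g) := by
  apply at_gap hn
  have h := HSG.LV.gal_mul τ (at_gal hn x) (atMp τ g)
  have h3 : Matrix.GeneralLinearGroup.map (n := Fin 2) (τ : K →+* K) (atMp τ g) = g := at_mp2 h2 g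
  rw [h3] at h
  exact h

/-! ### The action on hyperbolic space -/

theorem at_dir_conj (w : ℂ) : dir ((starRingEnd ℂ) w) = (starRingEnd ℂ) (dir w) := by
  unfold dir
  rw [map_div₀, Complex.norm_conj, Complex.conj_ofReal]

theorem at_dir_mul {w : ℂ} (hw : w ≠ 0) : dir w * (starRingEnd ℂ) (dir w) = 1 := by
  have h : (‖w‖ : ℂ) ≠ 0 := by
    rw [Complex.ofReal_ne_zero]
    exact norm_ne_zero_iff.2 hw
  unfold dir
  rw [map_div₀, Complex.conj_ofReal, div_mul_div_comm, Complex.mul_conj, Complex.normSq_eq_norm_sq]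
  push_cast
  field_simp

section
variable {τ : K ≃+* K} (hτ : ∀ x, s (τ x) = (starRingEnd ℂ) (s x))
include hτ

theorem at_s (g : GL (Fin 2) K) (i j : Fin 2) : s (atMp τ g i j) = (starRingEnd ℂ) (s (g i j)) := by
  rw [at_ent, hτ]

theorem at_dn (g : GL (Fin 2) K) (p : ℂ × ℝ) :
    dn s (atMp τ g) ((starRingEnd ℂ) p.1, p.2) = dn s g p := by
  unfold dn
  rw [at_s hτ, at_s hτ]
  simp only
  rw [← map_mul, ← map_add, Complex.normSq_conj, Complex.normSq_conj]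

theorem at_de (g : GL (Fin 2) K) : de s (atMp τ g) = (starRingEnd ℂ) (de s g) := by
  unfold de
  rw [← hτ]
  congr 1
  show (Matrix.map (g : Matrix (Fin 2) (Fin 2) K) τ).det = _
  rw [Matrix.det_fin_two, Matrix.det_fin_two]
  simp only [Matrix.map_apply, map_sub, map_mul]

theorem at_ac (g : GL (Fin 2) K) (p : ℂ × ℝ) : ac s (atMp τ g) ((starRingEnd ℂ) p.1, p.2) =
    ((starRingEnd ℂ) (ac s g p).1, (ac s g p).2) := by
  unfold ac
  rw [at_dn hτ, at_de hτ, at_s hτ, at_s hτ, at_s hτ, at_s hτ, Complex.norm_conj]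
  simp only [map_div₀, map_add, map_mul, Complex.conj_conj, Complex.conj_ofReal]

theorem at_kk (g : GL (Fin 2) K) (p : ℂ × ℝ) (u : ℂ × ℂ) : ((kk s g p u).2, -(kk s g p u).1) =
    (dir (de s g) * (kk s (atMp τ g) ((starRingEnd ℂ) p.1, p.2) (u.2, -u.1)).1,
      dir (de s g) * (kk s (atMp τ g) ((starRingEnd ℂ) p.1, p.2) (u.2, -u.1)).2) := by
  have hd : dir (de s g) * (starRingEnd ℂ) (dir (de s g)) = 1 := at_dir_mul (de_ne s g)
  unfold kk
  rw [at_dn hτ, at_de hτ, at_s hτ, at_s hτ, at_dir_conj]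
  simp only [map_add, map_mul, Complex.conj_conj]
  refine Prod.ext ?_ ?_
  · simp only
    ring
  · simp only
    linear_combination (((s (g 1 0) * p.1 + s (g 1 1)) * u.1 + s (g 1 0) * p.2 * u.2) /
      ((√(dn s g p) : ℝ) : ℂ)) * hd

end

theorem at_nu (u : ℂ × ℂ) : nu (u.2, -u.1) = nu u := by
  unfold nu
  simp only [Complex.normSq_neg]
  ring

omit [NumberField K] in
theorem at_smul (s : K →+* ℂ) (q : ℕ) (ν : ℂ) (c : K → ℂ) (a : ℂ) (p : ℂ × ℝ) (u : ℂ × ℂ) :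
    a * fs s q ν c p u = fs s q ν (fun ξ => a * c ξ) p u := by
  unfold fs
  rw [← tsum_mul_left]
  exact tsum_congr fun ξ => by ring

theorem form_tau {q : ℕ} {ν : ℂ} {n : HSG.Id K} (hn : IsInt n) {om : HSG.Id K → ℂ}
    {F : ℂ × ℝ → ℂ × ℂ → Pt n → ℂ} (hF : IForm s q ν n om F) {τ : K ≃+* K}
    (hτ : ∀ x, s (τ x) = (starRingEnd ℂ) (s x)) (h2 : ∀ x, τ (τ x) = x) :
    IForm s q (-ν) (gI τ n) (fun a => om (gI τ a)) (Ftau τ F) where
  exp := by
    intro x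
    obtain ⟨c, hc0, ⟨C, A, hg⟩, hs, he⟩ := hF.exp (gaP τ x)
    refine ⟨fun ξ => (-1) ^ q * c (τ ξ), ?_, ⟨C, A, fun ξ => ?_⟩, fun y hy ξ hξ => ?_,
      fun p u hp => ?_⟩
    · show (-1) ^ q * c (τ 0) = 0
      rw [map_zero, hc0, mul_zero]
    · rw [norm_mul, norm_pow, norm_neg, norm_one, one_pow, one_mul]
      have h := hg (τ ξ)
      rwa [hτ, Complex.norm_conj] at h
    · have h3 : ∀ β ∈ (gI τ y).m, (gaP τ x : Pt n).mul (nm β : GL (Fin 2) K) = gaP τ x := by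
        intro β hβ
        rw [HSG.LV.mem_gI, at_symm h2] at hβ
        have h4 := at_gap_mul h2 hn x (nm (τ β) : GL (Fin 2) K)
        rw [hy _ hβ, at_nm, h2] at h4
        exact h4.symm
      have h5 := hs (gI τ y) h3 (τ ξ) (right_ne_zero_of_mul hξ)
      have h6 : (DD K)⁻¹ * (gI τ y)⁻¹ = gI τ ((DD K)⁻¹ * y⁻¹) := by
        rw [(HSG.LV.gI_mul τ _ _).1, (HSG.LV.gI_mul τ (DD K) 1).2.1, HSG.LV.gI_DD,
          (HSG.LV.gI_mul τ y 1).2.1]
      rw [h6, HSG.LV.mem_gI, RingEquiv.symm_apply_apply] at h5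
      exact h5
    · unfold Ftau
      have hp' : 0 < ((starRingEnd ℂ) p.1, p.2).2 := hp
      rw [he _ _ hp', fs_conj q ν c hτ, at_smul]
  slash := by
    intro g p u x hp
    unfold Ftau
    have hp' : 0 < ((starRingEnd ℂ) p.1, p.2).2 := hp
    rw [← at_ac hτ, at_kk hτ, form_hom hF (ac_pos s _ hp'), hF.slash _ _ _ _ hp',
      at_gap_mul h2 hn, at_de hτ, at_dir_conj]
    have hd : dir (de s g) * (starRingEnd ℂ) (dir (de s g)) = 1 := at_dir_mul (de_ne s g)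
    have h3 : dir (de s g) ^ (2 * q) * (starRingEnd ℂ) (dir (de s g)) ^ q = dir (de s g) ^ q := by
      rw [two_mul, pow_add, mul_assoc, ← mul_pow, hd, one_pow, mul_one]
    rw [← mul_assoc, h3]
  scal := by
    intro a x y h p u hp
    unfold Ftau
    have h3 : Sc (gI τ (gI τ a)) x y := by rw [at_gg h2]; exact h
    have h4 := (HSG.LV.gal_sc τ hn (at_gal hn x) (at_gal hn y)).1 h3
    exact hF.scal _ _ _ h4 _ _ hp
  bdd := by
    intro x
    obtain ⟨C, hC⟩ := hF.bdd (gaP τ x)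
    refine ⟨C, fun p u hp => ?_⟩
    have h := hC ((starRingEnd ℂ) p.1, p.2) (u.2, -u.1) hp
    rw [at_nu] at h
    exact h

theorem at_ptS {n b b' c c' : HSG.Id K} (hb : b = b') (hcc : c = c') (hc : Cp n c)
    (hc' : Cp n c') : ptS b hc = ptS b' hc' := by
  subst hb
  subst hcc
  rfl

theorem at_sS {τ : K ≃+* K} (h2 : ∀ x, τ (τ x) = x) {n : HSG.Id K} (hn : IsInt n)
    (b : HSG.Id K) : (gaP τ (sS (gI τ n) b) : Pt n) = sS n (gI τ b) := by
  apply at_gap hn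
  have h := (HSG.LV.gal_S τ (b := gI τ b) hn (HSG.LV.cp_one n)).1
  have h3 : ptS (gI τ (gI τ b)) ((HSG.LV.cp_gI τ n 1).2 (HSG.LV.cp_one n)) = sS (gI τ n) b :=
    at_ptS (at_gg h2 b) (HSG.LV.gI_mul τ 1 1).2.2 _ _
  rw [h3] at h
  exact h

theorem coS_tau {q : ℕ} {ν : ℂ} {n : HSG.Id K} (hn : IsInt n)
    {F : ℂ × ℝ → ℂ × ℂ → Pt n → ℂ} {A : HSG.Id K → ℂ} (hA : ICoS s q ν F A) {τ : K ≃+* K}
    (hτ : ∀ x, s (τ x) = (starRingEnd ℂ) (s x)) (h2 : ∀ x, τ (τ x) = x) :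
    ICoS s q (-ν) (Ftau τ F) (fun m => (-1) ^ q * A (gI τ m)) where
  int := by
    intro m hm
    rw [hA.int _ (fun h => hm ((HSG.LV.gI_int τ m).1 h)), mul_zero]
  bdd := by
    obtain ⟨C, hC⟩ := hA.bdd
    refine ⟨C, fun m => ?_⟩
    rw [norm_mul, norm_pow, norm_neg, norm_one, one_pow, one_mul]
    exact hC _
  exp := by
    intro b p u hp
    unfold Ftau
    have hp' : 0 < ((starRingEnd ℂ) p.1, p.2).2 := hp
    rw [at_sS h2 hn, hA.exp _ _ _ hp', fs_conj q ν _ hτ, at_smul]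
    congr 1
    funext ξ
    unfold cS
    by_cases h : ξ = 0
    · rw [dif_pos h, dif_pos (by rw [h, map_zero]), mul_zero]
    · have h' : τ ξ ≠ 0 := by
        rw [Ne, map_eq_zero_iff _ τ.injective]
        exact h
      rw [dif_neg h, dif_neg h']
      congr 2
      rw [div_eq_mul_inv, div_eq_mul_inv, (HSG.LV.gI_mul τ _ _).1, (HSG.LV.gI_mul τ b 1).2.1,
        (HSG.LV.gI_mul τ _ _).1, HSG.LV.gI_DD, HSG.LV.gI_prI]
      congr 3
      apply Units.ext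
      rfl

end Pool.Agent.HI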