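import Pool.Agent.Lib_helper25.HIF.DX
import Pool.Agent.Lib_helper84.LVF.LJ

/-! HI, block AU: change of the level -/

namespace Pool.Agent.HI
open NumberField Complex MeasureTheory IsDedekindDomain
open scoped nonZeroDivisors MatrixGroups
open Pool.Agent.HSG (Lat Pr IsInt nI prI DD nm wm dgm dt qP NCl IsRepQ)
open Pool.Agent.HSG.LV (Pt Tp Ts Sc Cp Dv Prim sS sZ ptS ptZ pI Res Gal gI gP wP omF lamF)

variable {K : Type} [Field K] [NumberField K] {s : K →+* ℂ}

theorem au_res {n m : HSG.Id K} (hn : IsInt n) (hm : IsInt (m / n)) (x : Pt m) :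
    Res x (rsP (n := n) x) := by
  have h : ∃ y : Pt n, Res x y := (HSG.LV.res_exists hn hm x).exists
  unfold rsP
  rw [dif_pos h]
  exact h.choose_spec

theorem au_eq {n m : HSG.Id K} (hn : IsInt n) (hm : IsInt (m / n)) {x : Pt m} {y : Pt n}
    (h : Res x y) : rsP x = y :=
  (HSG.LV.res_exists hn hm x).unique (au_res hn hm x) h

theorem au_mul {n m : HSG.Id K} (hn : IsInt n) (hm : IsInt (m / n)) (x : Pt m)
    (g : GL (Fin 2) K) : rsP (n := n) (x.mul g) = (rsP x).mul g :=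
  au_eq hn hm ((HSG.LV.res_mul g).2 (au_res hn hm x))

theorem form_res {q : ℕ} {ν : ℂ} {n m : HSG.Id K} (hn : IsInt n) (hm : IsInt (m / n))
    {om : HSG.Id K → ℂ} {F : ℂ × ℝ → ℂ × ℂ → Pt n → ℂ} (hF : IForm s q ν n om F) :
    IForm s q ν m om (Fr m F) where
  exp x := by
    obtain ⟨c, h0, hC, hs, he⟩ := hF.exp (rsP x)
    refine ⟨c, h0, hC, fun y hy => hs y fun β hβ => ?_, he⟩
    rw [← au_mul hn hm, hy β hβ]
  slash g p u x hp := by
    show F (ac s g p) (kk s g p u) (rsP x) = dir (de s g) ^ q * F p u (rsP (x.mul g))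
    rw [au_mul hn hm]
    exact hF.slash g p u _ hp
  scal a x y h p u hp :=
    hF.scal a _ _ (HSG.LV.res_sc hn hm (au_res hn hm x) (au_res hn hm y) h) p u hp
  bdd x := hF.bdd (rsP x)

theorem coS_res {q : ℕ} {ν : ℂ} {n m : HSG.Id K} (hn : IsInt n) (hm : IsInt (m / n))
    {F : ℂ × ℝ → ℂ × ℂ → Pt n → ℂ} {A : HSG.Id K → ℂ} (hA : ICoS s q ν F A) :
    ICoS s q ν (Fr m F) A where
  int := hA.int
  bdd := hA.bdd
  exp b p u hp := by
    have h : rsP (n := n) (sS m b) = sS n b :=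
      au_eq hn hm (HSG.LV.res_S hn hm (HSG.LV.cp_one m) (HSG.LV.cp_one n)).1
    show F p u (rsP (sS m b)) = _
    rw [h]
    exact hA.exp b p u hp

end Pool.Agent.HI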