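import Pool.Agent.Lib_helper25.HI.DefsR
import Pool.Agent.Lib_helper98.HN.DefsE
import Pool.Agent.Lib_helper98.HN.DefsF

/-! # Project HI: further definitions -/

namespace Pool.Agent.HI

section

open Complex MeasureTheory Set Filter Topology
open Pool.Agent.HB (H3 mu Kb Adm)

variable {K : Type} [Field K] [NumberField K] {s : K →+* ℂ}

/-- `cosh` of the distance of two points -/
noncomputable def ud (p q : ℂ × ℝ) : ℝ :=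
  (normSq (p.1 - q.1) + p.2 ^ 2 + q.2 ^ 2) / (2 * p.2 * q.2)

/-- the gradient kernel (with the density of the invariant measure) -/
noncomputable def gk (t : ℝ) (p q : ℂ × ℝ) : ℂ :=
  (starRingEnd ℂ) (p.1 - q.1) / (2 * (q.2 : ℂ)) * ((Real.exp (-(t * ud p q)) / q.2 ^ 3 : ℝ) : ℂ)

/-- the components of the vector valued series, `j ≤ 2 q` -/
noncomputable def sj (s : K →+* ℂ) (q : ℕ) (ν : ℂ) (c : K → ℂ) (j : ℕ) (p : ℂ × ℝ) : ℂ :=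
  ∑' ξ : K, c ξ * (dir (s ξ) ^ ((q : ℤ) - (j : ℤ)) * wk (1 + q) (ν + q - j) (s ξ) p.2 *
    e2 (s ξ * p.1))

/-- A finite combination of completed L-functions: `Λ(z) = ∑_k β_k exp(δ_k z) Λ_k(z)`. -/
noncomputable def Lt {ι : Type} [Fintype ι] (s : K →+* ℂ) (q : ℕ) (ν : ℂ) (β δ : ι → ℝ)
    (c : ι → K → ℂ) (z : ℂ) : ℂ :=
  ∑ k, (β k : ℂ) * cexp (δ k * z) * Lz s q ν (c k) z

/-- The analytic properties of the completed L-function used in the contradiction. -/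
structure Pk (q : ℕ) (ν : ℂ) (a : ℕ → ℂ) (Λ : ℂ → ℂ) : Prop where
  diff : Differentiable ℂ Λ
  real : ∃ w : ℂ, ‖w‖ = 1 ∧ ∀ t : ℝ, (w * Λ (1 / 2 + t * I)).im = 0
  ser : ∃ (A Q : ℝ) (c₀ : ℂ), 0 < Q ∧ c₀ ≠ 0 ∧ LSeriesSummable a A ∧ ∀ z : ℂ, A ≤ z.re →
    Λ z = c₀ * (Q : ℂ) ^ z * (Gamma (z + (q + ν) / 2) * Gamma (z + (q - ν) / 2)) * LSeries a z
  dec : ∀ θ x y : ℝ, 0 ≤ θ → θ < Real.pi / 2 → ∃ C : ℝ, ∀ z : ℂ, x ≤ z.re → z.re ≤ y →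
    ‖Λ z‖ ≤ C * Real.exp (-(2 * θ * |z.im|))
  star : ∀ (T : ℝ) (w : ℂ), ‖w‖ = 1 →
    (∀ t : ℝ, T < t → (‖Λ (1 / 2 + t * I)‖ : ℂ) = w * Λ (1 / 2 + t * I)) →
    ∃ C t₀ : ℝ, 0 < t₀ ∧ ∀ ε : ℝ, 0 < ε → ε ≤ 1 / 2 →
      IntegrableOn (fun t : ℝ => ‖Λ (1 / 2 + t * I)‖ * hh q ε t) (Ioi t₀) ∧
      ∫ t in Ioi t₀, ‖Λ (1 / 2 + t * I)‖ * hh q ε t ≤ C / ε

end

section

open NumberField Complex MeasureTheory IsDedekindDomain Filter Topology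
open scoped nonZeroDivisors MatrixGroups ENNReal
open Pool.Agent.HB (H3 mu Kb mk3)
open Pool.Agent.H4 (NI PI blw ml)
open Pool.Agent.HNA (HekN SBN aN)
open Pool.Agent.HSG (Lat Pr IsInt nI prI DD nm wm dgm dt qP NCl)
open Pool.Agent.HSG.LV (Pt Sc Cp sS ptS dua)

variable {K : Type} [Field K] [NumberField K] {s : K →+* ℂ}

/-- the number of units -/
noncomputable def wK (K : Type) [Field K] [NumberField K] : ℕ := Nat.card (𝓞 K)ˣ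

/-- the Rankin-Selberg input: `w (w-1) L(2w, om·om') ∑ lam(𝔞) lam'(𝔞)‾ N𝔞^{-w}` is entire -/
def RS2 (lam om lam' om' : Ideal (𝓞 K) → ℂ) : Prop :=
  ∃ (E : ℂ → ℂ) (A : ℝ), Differentiable ℂ E ∧ ∀ w : ℂ, A < w.re →
    E w = w * (w - 1) * ((∑' 𝔞 : NI K, om 𝔞.1 * (starRingEnd ℂ) (om' 𝔞.1) *
        (Ideal.absNorm 𝔞.1 : ℂ) ^ (-(2 * w))) *
      ∑' 𝔞 : NI K, lam 𝔞.1 * (starRingEnd ℂ) (lam' 𝔞.1) * (Ideal.absNorm 𝔞.1 : ℂ) ^ (-w))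

/-- the archimedean factor -/
noncomputable def Gw (q : ℕ) (ν ν' w : ℂ) : ℂ :=
  Gamma (w + (ν + (starRingEnd ℂ) ν') / 2) * Gamma (w - (ν + (starRingEnd ℂ) ν') / 2) *
    (Gamma (w + q + (ν - (starRingEnd ℂ) ν') / 2) * Gamma (w + q - (ν - (starRingEnd ℂ) ν') / 2))

variable {n : HSG.Id K}

/-- the integral over a slice of the inner product -/
noncomputable def sl (F F' : ℂ × ℝ → ℂ × ℂ → Pt n → ℂ) (Bx : HSG.Id K → Set ℂ) (b c : HSG.Id K)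
    (t : ℝ) : ℂ :=
  ∫ P : H3, (Bx (c * b)⁻¹).indicator (fun _ => (1 : ℂ)) P.1.1 * ip F F' P (sS n (c * b)) *
    ((Real.exp (-(Real.pi * (t * (√(nI c / nI b) / P.1.2)))) : ℝ) : ℂ) ∂mu

end

end Pool.Agent.HI
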