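import Pool.Agent.Lib_helper25.HIF.DX
import Pool.Agent.Lib_helper98.HQ.Defs

/-! # Project HI: definitions for the windows `(T, (1+e)T)` -/

namespace Pool.Agent.HI

open NumberField Complex MeasureTheory Set Filter Topology
open Pool.Agent.HQ (bp)

/-- the point `1/2 + i x` -/
noncomputable def uh (x : ℝ) : ℂ := 1 / 2 + x * I

/-- the kernel of index `0` for a complex parameter `u` -/
noncomputable def ku0 (q : ℕ) (u : ℂ) (t : ℝ) : ℂ :=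
  I ^ q / (Gamma (1 + u - t * I) * Gamma (1 + q + u + t * I))

/-- the localised kernel -/
noncomputable def kT (q : ℕ) (T t : ℝ) : ℂ :=
  ∫ x : ℝ, (T : ℂ) ^ (2 * uh x) * cexp (uh x ^ 2) * ku0 q (uh x) t

/-- the localised weight (as a function of `x = log(T²/(1+|v|²))`) -/
noncomputable def gw (q : ℕ) (ν : ℂ) (x : ℝ) : ℂ :=
  ∫ y : ℝ, cexp (uh y ^ 2) * cexp (uh y * x) /
    (Gamma (1 / 2 + uh y + (q + ν) / 2) * Gamma (1 / 2 + uh y + (q - ν) / 2))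

/-- The analytic properties of the completed L-function used for the windows `(T, (1+e)T)`. -/
structure PkL (q : ℕ) (ν : ℂ) (a : ℕ → ℂ) (Λ : ℂ → ℂ) : Prop where
  pk : Pk q ν a Λ
  fe : ∃ θ : ℂ, ‖θ‖ = 1 ∧ ∀ z : ℂ, Λ (1 - z) = θ * (starRingEnd ℂ) (Λ ((starRingEnd ℂ) z))
  win : ∀ e : ℝ, 0 < e → ∃ C T₀ : ℝ, 1 < T₀ ∧ ∀ (T : ℝ) (w : ℂ), T₀ ≤ T → ‖w‖ = 1 →
    (∀ t : ℝ, T < t → t < (1 + e) * T → (‖Λ (1 / 2 + t * I)‖ : ℂ) = w * Λ (1 / 2 + t * I)) →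
    ∫ t : ℝ, ‖Λ (1 / 2 + t * I)‖ * hh q 0 t * bp ((t - T) / (e * T)) ≤ C

end Pool.Agent.HI
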