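import Pool.Agent.Lib_helper25.HIF.DX
import Pool.Agent.Lib_helper98.HQ.Defs

/-! # Project HI: definitions for the windows `(T, T^(1+e))` -/

namespace Pool.Agent.HI

open NumberField Complex MeasureTheory Set Filter Topology

/-- The analytic properties of the completed L-function used for the windows. -/
structure PkW (q : ℕ) (ν : ℂ) (a : ℕ → ℂ) (Λ : ℂ → ℂ) : Prop where
  pk : Pk q ν a Λ
  fe : ∃ θ : ℂ, ‖θ‖ = 1 ∧ ∀ z : ℂ, Λ (1 - z) = θ * (starRingEnd ℂ) (Λ ((starRingEnd ℂ) z))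
  win : ∀ e : ℝ, 0 < e → ∃ C T₀ : ℝ, 1 < T₀ ∧ ∀ (T : ℝ) (w : ℂ), T₀ ≤ T → ‖w‖ = 1 →
    (∀ t : ℝ, T < t → t < T ^ (1 + e) → (‖Λ (1 / 2 + t * I)‖ : ℂ) = w * Λ (1 / 2 + t * I)) →
    ∫ t in Ioo (T ^ (1 + e / 8)) (T ^ (1 + 7 * e / 8)),
      ‖Λ (1 / 2 + t * I)‖ * hh q (1 / Real.log T) t ≤ C * Real.log T

end Pool.Agent.HI
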