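import Pool.Agent.Lib_helper25.HIF.DX
import Pool.Agent.Lib_helper98.H4F.LD

/-! # Project HI, block EA: Landau's argument with a double pole at `0` and `1` -/

namespace Pool.Agent.HI
open Complex MeasureTheory Filter Topology
open scoped ComplexOrder
open Pool.Agent.H4 (ldA ld_nonneg ld_norm ld_summable ld_hasSum ld_abs ld_an ld_exp)

/-- the local form of the theorem on alternating derivatives -/
theorem ea_le {f : ℂ → ℂ} {c : ℂ} {r : ℝ} (hf : DifferentiableOn ℂ f (Metric.ball c r))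
    (h : ∀ n ≠ 0, 0 ≤ (-1) ^ n * iteratedDeriv n f c) {z : ℂ} (hz : z ≤ c)
    (hz2 : z ∈ Metric.ball c r) : f c ≤ f z := by
  have h1 : 0 ≤ (fun w => f (-w) - f c) (-z) := by
    refine DifferentiableOn.nonneg_of_iteratedDeriv_nonneg (f := fun w => f (-w) - f c)
      (c := -c) (r := r) ?_ ?_ (neg_le_neg_iff.2 hz) ?_
    · have hm : Set.MapsTo (fun w : ℂ => -w) (Metric.ball (-c) r) (Metric.ball c r) := by
        intro w hw
        rw [Metric.mem_ball, dist_eq_norm] at hw ⊢
        rw [← norm_neg]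
        have e : -(-w - c) = w - -c := by ring
        rwa [e]
      exact (hf.comp differentiable_neg.differentiableOn hm).sub_const _
    · intro n
      cases n with
      | zero => simp
      | succ n =>
        have h2 := h (n + 1) n.succ_ne_zero
        have e1 : deriv (fun w => f (-w) - f c) = deriv (fun w => f (-w)) := by
          funext w
          exact deriv_sub_const _
        rw [iteratedDeriv_succ', e1, ← iteratedDeriv_succ', iteratedDeriv_comp_neg, neg_neg,
          smul_eq_mul]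
        exact h2
    · rw [Metric.mem_ball, dist_eq_norm] at hz2 ⊢
      rw [← norm_neg]
      have e : -(-z - -c) = z - c := by ring
      rwa [e]
  simpa using h1

/-- Division by `(s - 1) ^ 2`. -/
theorem ea_div {f E : ℂ → ℂ} (hf : Differentiable ℂ f)
    (h : ∀ s : ℂ, 1 < s.re → f s = (s - 1) ^ 2 * E s) {M : ℝ}
    (hb : ∀ x : ℝ, 1 < x → x < 2 → ‖E x‖ ≤ M) :
    ∃ g : ℂ → ℂ, Differentiable ℂ g ∧ ∀ s : ℂ, 1 < s.re → g s = E s := by
  have hlim : Tendsto (fun x : ℝ => (x : ℂ)) (𝓝[>] 1) (𝓝 1) := by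
    have h2 : Tendsto (fun x : ℝ => (x : ℂ)) (𝓝 1) (𝓝 ((1 : ℝ) : ℂ)) :=
      Complex.continuous_ofReal.tendsto 1
    simpa using h2.mono_left nhdsWithin_le_nhds
  have key : ∀ (φ : ℂ → ℂ) (k : ℕ), 1 ≤ k → Continuous φ →
      (∀ x : ℝ, 1 < x → x < 2 → ‖φ x‖ ≤ (x - 1) ^ k * M) → φ 1 = 0 := by
    intro φ k hk hφ hb2
    have t1 : Tendsto (fun x : ℝ => φ x) (𝓝[>] 1) (𝓝 (φ 1)) := (hφ.tendsto 1).comp hlim
    have t2 : Tendsto (fun x : ℝ => (x - 1) ^ k * M) (𝓝[>] 1) (𝓝 0) := by
      have h3 : Continuous (fun x : ℝ => (x - 1) ^ k * M) := by fun_prop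
      have h4 := h3.tendsto 1
      rw [sub_self, zero_pow (by omega), zero_mul] at h4
      exact h4.mono_left nhdsWithin_le_nhds
    have t3 : Tendsto (fun x : ℝ => φ x) (𝓝[>] 1) (𝓝 0) := by
      refine squeeze_zero_norm' ?_ t2
      filter_upwards [Ioo_mem_nhdsGT (show (1 : ℝ) < 2 by norm_num)] with x hx
      exact hb2 x hx.1 hx.2
    exact tendsto_nhds_unique t1 t3
  have hf1 : f 1 = 0 := by
    refine key f 2 (by norm_num) hf.continuous fun x hx hx2 => ?_
    rw [h x (by simpa using hx), norm_mul, norm_pow]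
    have e : ‖(x : ℂ) - 1‖ = x - 1 := by
      rw [show (x : ℂ) - 1 = ((x - 1 : ℝ) : ℂ) by push_cast; ring, Complex.norm_real,
        Real.norm_of_nonneg (by linarith)]
    rw [e]
    exact mul_le_mul_of_nonneg_left (hb x hx hx2) (by positivity)
  have hd1 : Differentiable ℂ (dslope f 1) := by
    rw [← differentiableOn_univ, Complex.differentiableOn_dslope univ_mem]
    exact hf.differentiableOn
  have e1 : ∀ s : ℂ, f s = (s - 1) * dslope f 1 s := by
    intro s
    have h2 := sub_smul_dslope f 1 s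
    rw [smul_eq_mul, hf1, sub_zero] at h2
    exact h2.symm
  have hne : ∀ s : ℂ, 1 < s.re → s - 1 ≠ 0 := by
    intro s hs h0
    rw [sub_eq_zero] at h0
    rw [h0] at hs
    simp at hs
  have e2 : ∀ s : ℂ, 1 < s.re → dslope f 1 s = (s - 1) * E s := by
    intro s hs
    have h2 := e1 s
    rw [h s hs] at h2
    apply mul_left_cancel₀ (hne s hs)
    rw [← h2]
    ring
  have hf2 : dslope f 1 1 = 0 := by
    refine key (dslope f 1) 1 le_rfl hd1.continuous fun x hx hx2 => ?_
    rw [e2 x (by simpa using hx), norm_mul]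
    have e : ‖(x : ℂ) - 1‖ = x - 1 := by
      rw [show (x : ℂ) - 1 = ((x - 1 : ℝ) : ℂ) by push_cast; ring, Complex.norm_real,
        Real.norm_of_nonneg (by linarith)]
    rw [e, pow_one]
    exact mul_le_mul_of_nonneg_left (hb x hx hx2) (by linarith)
  refine ⟨dslope (dslope f 1) 1, ?_, fun s hs => ?_⟩
  · rw [← differentiableOn_univ, Complex.differentiableOn_dslope univ_mem]
    exact hd1.differentiableOn
  · have h2 := sub_smul_dslope (dslope f 1) 1 s
    rw [smul_eq_mul, hf2, sub_zero, e2 s hs] at h2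
    exact mul_left_cancel₀ (hne s hs) h2

theorem landau_exp2 {ι : Type} [Countable ι] {S : ι → ℝ} (hS : ∀ i, 0 ≤ S i) {N : ι → ℕ}
    (hN : ∀ i, 1 ≤ N i) (h1 : Summable (fun i => S i * (N i : ℝ)⁻¹)) {f : ℂ → ℂ}
    (hf : Differentiable ℂ f) {A : ℝ} (hA : ∀ s : ℂ, A < s.re →
      f s = (s * (s - 1)) ^ 2 * cexp (∑' i, (S i : ℂ) * (N i : ℂ) ^ (-s))) {x : ℝ} (hx : 0 < x) :
    Summable (fun i => S i * (N i : ℝ) ^ (-x)) := by
  classical
  -- the easy case
  rcases le_or_gt 1 x with hx1 | hx1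
  · refine Summable.of_nonneg_of_le (fun i => mul_nonneg (hS i) (by positivity)) (fun i => ?_) h1
    refine mul_le_mul_of_nonneg_left ?_ (hS i)
    rw [← Real.rpow_neg_one]
    exact Real.rpow_le_rpow_of_exponent_le (by exact_mod_cast hN i) (by linarith)
  have hL : ∀ s : ℂ, 1 ≤ s.re →
      LSeries (ldA S N) s = ∑' i, (S i : ℂ) * (N i : ℂ) ^ (-s) :=
    fun s hs => (ld_hasSum hS hN h1 hs).LSeries_eq
  -- the formula for `f` on `Re s > 1`
  have hopen : IsOpen {s : ℂ | 1 < s.re} := continuous_re.isOpen_preimage _ isOpen_Ioi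
  have hf' : ∀ s : ℂ, 1 < s.re → f s = (s - 1) ^ 2 * (s ^ 2 * cexp (LSeries (ldA S N) s)) := by
    have hpre : IsPreconnected {s : ℂ | 1 < s.re} := (convex_halfSpace_re_gt 1).isPreconnected
    have a1 : AnalyticOnNhd ℂ f {s : ℂ | 1 < s.re} := fun s _ =>
      hf.analyticAt s
    have a2 : AnalyticOnNhd ℂ (fun s => (s - 1) ^ 2 * (s ^ 2 * cexp (LSeries (ldA S N) s)))
        {s : ℂ | 1 < s.re} := fun s hs =>
      ((analyticAt_id.sub analyticAt_const).pow 2).mul
        ((analyticAt_id.pow 2).mul (ld_an hS hN h1 s hs).cexp)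
    have hz : ((max A 1 + 1 : ℝ) : ℂ) ∈ {s : ℂ | 1 < s.re} := by
      show 1 < ((max A 1 + 1 : ℝ) : ℂ).re
      rw [ofReal_re]
      linarith [le_max_right A 1]
    have hev : f =ᶠ[𝓝 ((max A 1 + 1 : ℝ) : ℂ)]
        fun s => (s - 1) ^ 2 * (s ^ 2 * cexp (LSeries (ldA S N) s)) := by
      have ho2 : IsOpen {s : ℂ | max A 1 < s.re} := continuous_re.isOpen_preimage _ isOpen_Ioi
      filter_upwards [ho2.mem_nhds (show ((max A 1 + 1 : ℝ) : ℂ) ∈ {s : ℂ | max A 1 < s.re} by
        show max A 1 < ((max A 1 + 1 : ℝ) : ℂ).re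
        rw [ofReal_re]
        linarith)] with s hs
      have hs1 : max A 1 < s.re := hs
      rw [hA s ((le_max_left _ _).trans_lt hs1), hL s ((le_max_right _ _).trans hs1.le)]
      ring
    exact fun s hs => a1.eqOn_of_preconnected_of_eventuallyEq a2 hpre hz hev hs
  obtain ⟨g, hg, hg'⟩ := ea_div (M := 4 * Real.exp (∑' i, S i * (N i : ℝ)⁻¹)) hf hf' (by
    intro x hx hx2
    rw [norm_mul, norm_pow, Complex.norm_real, Real.norm_of_nonneg (by linarith),
      Complex.norm_exp]
    refine mul_le_mul (by nlinarith) ?_ (Real.exp_pos _).le (by norm_num)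
    apply Real.exp_le_exp.2
    refine (re_le_norm _).trans ?_
    rw [hL x (by simpa using hx.le)]
    have hx1 : (1 : ℝ) ≤ (x : ℂ).re := by simpa using hx.le
    refine (norm_tsum_le_tsum_norm (ld_summable hS hN h1 hx1).norm).trans ?_
    exact (ld_summable hS hN h1 hx1).norm.tsum_le_tsum (fun i => ld_norm (hN i) (hS i) hx1) h1)
  refine summable_of_sum_le (fun i => mul_nonneg (hS i) (by positivity))
    (c := Real.log (‖g x‖ / x ^ 2)) fun T => ?_
  -- the tail
  set S' : ι → ℝ := fun i => if i ∈ T then 0 else S i with hS'def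
  have hS' : ∀ i, 0 ≤ S' i := fun i => by
    rw [hS'def]
    dsimp only
    split_ifs
    · exact le_rfl
    · exact hS i
  have h1' : Summable (fun i => S' i * (N i : ℝ)⁻¹) := by
    refine Summable.of_nonneg_of_le (fun i => mul_nonneg (hS' i) (by positivity))
      (fun i => ?_) h1
    refine mul_le_mul_of_nonneg_right ?_ (by positivity)
    rw [hS'def]
    dsimp only
    split_ifs
    · exact hS i
    · exact le_rfl
  have hsplit : ∀ s : ℂ, 1 < s.re → LSeries (ldA S N) s =
      (∑ i ∈ T, (S i : ℂ) * (N i : ℂ) ^ (-s)) + LSeries (ldA S' N) s := by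
    intro s hs
    rw [hL s hs.le, (ld_hasSum hS' hN h1' hs.le).LSeries_eq]
    have hs1 := ld_summable hS hN h1 hs.le
    have hs2 := ld_summable hS' hN h1' hs.le
    have e : ∀ i, (S i : ℂ) * (N i : ℂ) ^ (-s) =
        (if i ∈ T then (S i : ℂ) * (N i : ℂ) ^ (-s) else 0) + (S' i : ℂ) * (N i : ℂ) ^ (-s) := by
      intro i
      rw [hS'def]
      dsimp only
      split_ifs <;> simp
    have hs3 : HasSum (fun i => if i ∈ T then (S i : ℂ) * (N i : ℂ) ^ (-s) else 0)
        (∑ i ∈ T, (S i : ℂ) * (N i : ℂ) ^ (-s)) := by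
      have h5 := hasSum_sum_of_ne_finset_zero (L := SummationFilter.unconditional ι)
        (f := fun i => if i ∈ T then (S i : ℂ) * (N i : ℂ) ^ (-s) else 0) (s := T)
        (fun i hi => if_neg hi)
      convert h5 using 1
      exact Finset.sum_congr rfl fun i hi => (if_pos hi).symm
    rw [tsum_congr e, hs3.summable.tsum_add hs2, hs3.tsum_eq]
  set G : ℂ → ℂ := fun s => g s / s ^ 2 * cexp (-∑ i ∈ T, (S i : ℂ) * (N i : ℂ) ^ (-s)) with hG
  have hball : ∀ s ∈ Metric.ball (2 : ℂ) 2, s ≠ 0 := by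
    intro s hs h0
    rw [h0, Metric.mem_ball, dist_eq_norm] at hs
    norm_num at hs
  have hGd : DifferentiableOn ℂ G (Metric.ball 2 2) := by
    refine DifferentiableOn.mul (DifferentiableOn.div hg.differentiableOn
      (differentiable_id.pow 2).differentiableOn fun s hs => pow_ne_zero 2 (hball s hs)) ?_
    refine Differentiable.differentiableOn (Differentiable.cexp (Differentiable.neg ?_))
    refine Differentiable.fun_sum fun i _ => (differentiable_const _).mul ?_
    refine Differentiable.const_cpow differentiable_neg (Or.inl ?_)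
    have := hN i
    exact_mod_cast (by omega : N i ≠ 0)
  have hGe : ∀ s : ℂ, 1 < s.re → G s = cexp (LSeries (ldA S' N) s) := by
    intro s hs
    have hs0 : s ≠ 0 := by
      intro h0
      rw [h0] at hs
      simp at hs
      linarith
    rw [hG]
    dsimp only
    rw [hg' s hs, hsplit s hs, mul_comm (s ^ 2), mul_div_assoc, div_self (pow_ne_zero 2 hs0),
      mul_one, ← Complex.exp_add]
    congr 1
    ring
  have h2mem : (2 : ℂ) ∈ {s : ℂ | 1 < s.re} := by simp
  have hev2 : G =ᶠ[𝓝 2] fun s => cexp (LSeries (ldA S' N) s) := by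
    filter_upwards [hopen.mem_nhds h2mem] with s hs
    exact hGe s hs
  have hab : LSeries.abscissaOfAbsConv (ldA S' N) < ((2 : ℝ) : EReal) :=
    (ld_abs hS' hN h1').trans_lt (by norm_cast)
  have hLnn : 0 ≤ LSeries (ldA S' N) 2 := by
    have h6 := LSeries.iteratedDeriv_alternating (ld_nonneg hS' N) hab 0
    simpa using h6
  have hLe : ∃ r : ℝ, 0 ≤ r ∧ LSeries (ldA S' N) 2 = r := by
    refine ⟨(LSeries (ldA S' N) 2).re, (Complex.nonneg_iff.1 hLnn).1, ?_⟩
    exact (Complex.ext rfl (by simpa using (Complex.nonneg_iff.1 hLnn).2.symm))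
  obtain ⟨r, hr, hr2⟩ := hLe
  have halt : ∀ n ≠ 0, 0 ≤ (-1) ^ n * iteratedDeriv n G 2 := by
    intro n _
    rw [hev2.iteratedDeriv_eq]
    refine ld_exp (ld_an hS' hN h1' 2 h2mem) ?_ (fun m _ => ?_) n
    · rw [hr2, ← Complex.ofReal_exp]
      exact_mod_cast (Real.exp_pos r).le
    · have h7 := LSeries.iteratedDeriv_alternating (ld_nonneg hS' N) hab m
      simpa using h7
  have hle : G 2 ≤ G (x : ℂ) := by
    refine ea_le hGd halt ?_ ?_
    · exact_mod_cast (by linarith : x ≤ 2)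
    · rw [Metric.mem_ball, dist_eq_norm,
        show (x : ℂ) - 2 = ((x - 2 : ℝ) : ℂ) by push_cast; ring, Complex.norm_real,
        Real.norm_eq_abs, abs_lt]
      constructor <;> linarith
  rw [hGe 2 h2mem, hr2, ← Complex.ofReal_exp] at hle
  have hG0 : G (x : ℂ) = g x / (x : ℂ) ^ 2 *
      ((Real.exp (-∑ i ∈ T, S i * (N i : ℝ) ^ (-x)) : ℝ) : ℂ) := by
    rw [hG]
    dsimp only
    congr 1
    rw [Complex.ofReal_exp]
    congr 1
    push_cast
    congr 1
    refine Finset.sum_congr rfl fun i _ => ?_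
    rw [Complex.ofReal_cpow (by positivity)]
    push_cast
    rfl
  have h8 : (1 : ℝ) ≤ ‖g x‖ / x ^ 2 * Real.exp (-∑ i ∈ T, S i * (N i : ℝ) ^ (-x)) := by
    have h9 : Real.exp r ≤ (G x).re := by
      have := (Complex.le_def.1 hle).1
      rwa [ofReal_re] at this
    have h10 : (1 : ℝ) ≤ Real.exp r := Real.one_le_exp hr
    have h11 : ‖G x‖ = ‖g x‖ / x ^ 2 * Real.exp (-∑ i ∈ T, S i * (N i : ℝ) ^ (-x)) := by
      rw [hG0, norm_mul, Complex.norm_real, Real.norm_of_nonneg (Real.exp_pos _).le, norm_div,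
        norm_pow, Complex.norm_real, Real.norm_of_nonneg hx.le]
    rw [← h11]
    exact h10.trans (h9.trans (re_le_norm _))
  have hg0 : 0 < ‖g x‖ / x ^ 2 := by
    by_contra hcon
    have h13 : ‖g x‖ / x ^ 2 ≤ 0 := not_lt.1 hcon
    have h12 : ‖g x‖ / x ^ 2 = 0 := le_antisymm h13 (by positivity)
    rw [h12, zero_mul] at h8
    linarith
  rw [Real.le_log_iff_exp_le hg0]
  have h13 := mul_le_mul_of_nonneg_right h8
    (Real.exp_pos (∑ i ∈ T, S i * (N i : ℝ) ^ (-x))).le
  rw [one_mul, mul_assoc, ← Real.exp_add, neg_add_cancel, Real.exp_zero, mul_one] at h13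
  exact h13

end Pool.Agent.HI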