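import Pool.Agent.Lib_helper25.HIF.DX
import Pool.Agent.Lib_helper98.HNF.E1
import Pool.Agent.Lib_helper98.HNF.E2
import Pool.Agent.Lib_helper98.HNF.E3
import Pool.Agent.Lib_helper98.H4F.HE

/-! # Project HI, block EB: the exponential of the Dirichlet series with positive coefficients -/

namespace Pool.Agent.HI
open Complex MeasureTheory NumberField Filter Topology
open Pool.Agent.H4 (NI PI blw ml)
open Pool.Agent.HNA

variable {K : Type} [Field K] [NumberField K]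

/-- the automorphism on the prime ideals -/
def eb_sw {τ : 𝓞 K ≃+* 𝓞 K} (hτ : ∀ x, τ (τ x) = x) : PI K ≃ PI K where
  toFun 𝔭 := ⟨𝔭.1.map τ, by
    have := 𝔭.2.1
    exact Ideal.map_isPrime_of_equiv τ, by
    intro h
    have h1 := (tau_idl hτ 𝔭.1).1
    rw [h, Ideal.map_bot] at h1
    exact 𝔭.2.2 h1.symm⟩
  invFun 𝔭 := ⟨𝔭.1.map τ, by
    have := 𝔭.2.1
    exact Ideal.map_isPrime_of_equiv τ, by
    intro h
    have h1 := (tau_idl hτ 𝔭.1).1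
    rw [h, Ideal.map_bot] at h1
    exact 𝔭.2.2 h1.symm⟩
  left_inv 𝔭 := Subtype.ext (tau_idl hτ 𝔭.1).1
  right_inv 𝔭 := Subtype.ext (tau_idl hτ 𝔭.1).1

theorem eb_sw_val {τ : 𝓞 K ≃+* 𝓞 K} (hτ : ∀ x, τ (τ x) = x) (𝔭 : PI K) :
    (eb_sw hτ 𝔭).1 = 𝔭.1.map τ := rfl

/-- the term of the exponent -/
noncomputable def eb_T (lam om lam' om' : Ideal (𝓞 K) → ℂ) (w : ℂ)
    (q : PI K × ℕ) : ℂ :=
  tC (lam q.1.1) (om q.1.1) (q.2 + 1) *
    (starRingEnd ℂ) (tC (lam' q.1.1) (om' q.1.1) (q.2 + 1)) *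
    ((Ideal.absNorm q.1.1 : ℂ) ^ (-w)) ^ (q.2 + 1) / (q.2 + 1)

theorem eb_PC (x ω y ψ : ℂ) (J : ℕ) :
    ((‖PC x ω y ψ J‖ ^ 2 : ℝ) : ℂ) = tC x ω J * (starRingEnd ℂ) (tC x ω J) +
      tC y ψ J * (starRingEnd ℂ) (tC y ψ J) + (tC x ω J * (starRingEnd ℂ) (tC y ψ J) +
      tC y ψ J * (starRingEnd ℂ) (tC x ω J)) := by
  rw [← Complex.normSq_eq_norm_sq, ← Complex.mul_conj]
  unfold PC
  simp only [map_add]
  ring

theorem h_exp2 {τ : 𝓞 K ≃+* 𝓞 K} (hτ : ∀ x, τ (τ x) = x) {lam om : Ideal (𝓞 K) → ℂ}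
    (h : HekN lam om) (h1 : RS2 lam om lam om)
    (h2 : RS2 lam om (fun 𝔞 => lam (𝔞.map τ)) (fun 𝔞 => om (𝔞.map τ))) (B : Finset ℕ) :
    ∃ (f : ℂ → ℂ) (A : ℝ), Differentiable ℂ f ∧ ∀ w : ℂ, A < w.re →
      f w = (w * (w - 1)) ^ 2 * cexp (∑' q : PI K × ℕ, (SBN τ lam om B q : ℂ) *
        (((Ideal.absNorm q.1.1) ^ (q.2 + 1) : ℕ) : ℂ) ^ (-w)) := by
  classical
  set lamt : Ideal (𝓞 K) → ℂ := fun 𝔞 => lam (𝔞.map τ) with hlt
  set omt : Ideal (𝓞 K) → ℂ := fun 𝔞 => om (𝔞.map τ) with hot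
  have ht : HekN lamt omt := hek_tau h τ
  obtain ⟨E1, A1, hE1, hE1'⟩ := h1
  obtain ⟨E2, A2, hE2, hE2'⟩ := h2
  -- the exceptional set
  have hfin : {𝔭 : PI K | blw 𝔭.1 ∈ B}.Finite := by
    have h1 : {𝔭 : PI K | blw 𝔭.1 ∈ B} = ⋃ p ∈ B, {𝔭 : PI K | blw 𝔭.1 = p} := by
      ext 𝔭
      simp
    rw [h1]
    exact Set.Finite.biUnion B.finite_toSet fun p _ => Pool.Agent.H4.blw_finite p
  set S : Finset (PI K) := hfin.toFinset with hS
  have hmem : ∀ 𝔭 : PI K, 𝔭 ∈ S ↔ blw 𝔭.1 ∈ B := by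
    intro 𝔭
    rw [hS, Set.Finite.mem_toFinset]
    exact Iff.rfl
  obtain ⟨A3, hA3⟩ := rs_eulerN h h S
  obtain ⟨A4, hA4⟩ := rs_eulerN h ht S
  have hp4 : ∀ (x ω y ψ : ℂ) (𝔭 : PI K), Differentiable ℂ
      fun w : ℂ => pC x ω y ψ ((Ideal.absNorm 𝔭.1 : ℂ) ^ (-w)) := by
    intro x ω y ψ 𝔭
    have hN : (Ideal.absNorm 𝔭.1 : ℂ) ≠ 0 := by
      exact_mod_cast (Pool.Agent.H4.he_norm_pos 𝔭.2.2).ne'
    have h1 : Differentiable ℂ fun w : ℂ => (Ideal.absNorm 𝔭.1 : ℂ) ^ (-w) :=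
      Differentiable.const_cpow (by fun_prop) (Or.inl hN)
    unfold pC
    fun_prop
  refine ⟨fun w => E1 w * E2 w *
    ((∏ 𝔭 ∈ S, pC (lam 𝔭.1) (om 𝔭.1) ((starRingEnd ℂ) (lam 𝔭.1))
          ((starRingEnd ℂ) (om 𝔭.1)) ((Ideal.absNorm 𝔭.1 : ℂ) ^ (-w))) *
      ∏ 𝔭 ∈ S, pC (lam 𝔭.1) (om 𝔭.1) ((starRingEnd ℂ) (lamt 𝔭.1))
          ((starRingEnd ℂ) (omt 𝔭.1)) ((Ideal.absNorm 𝔭.1 : ℂ) ^ (-w))),
    max (max A1 A2) (max A3 A4), ?_, fun w hw => ?_⟩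
  · refine (hE1.mul hE2).mul (Differentiable.mul ?_ ?_)
    · exact Differentiable.fun_finsetProd fun 𝔭 _ => hp4 _ _ _ _ 𝔭
    · exact Differentiable.fun_finsetProd fun 𝔭 _ => hp4 _ _ _ _ 𝔭
  · have w1 : A1 < w.re := ((le_max_left _ _).trans (le_max_left _ _)).trans_lt hw
    have w2 : A2 < w.re := ((le_max_right _ _).trans (le_max_left _ _)).trans_lt hw
    have w3 : A3 < w.re := ((le_max_left _ _).trans (le_max_right _ _)).trans_lt hw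
    have w4 : A4 < w.re := ((le_max_right _ _).trans (le_max_right _ _)).trans_lt hw
    obtain ⟨s3, e3⟩ := hA3 w w3
    obtain ⟨s4, e4⟩ := hA4 w w4
    have e1 := hE1' w w1
    have e2 := hE2' w w2
    simp only
    rw [e1, e2]
    set T1 : PI K × ℕ → ℂ := fun q => if q.1 ∈ S then 0 else eb_T lam om lam om w q with hT1
    set T2 : PI K × ℕ → ℂ := fun q => if q.1 ∈ S then 0 else eb_T lam om lamt omt w q with hT2
    have e3' : ((∑' 𝔞 : NI K, om 𝔞.1 * (starRingEnd ℂ) (om 𝔞.1) *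
          (Ideal.absNorm 𝔞.1 : ℂ) ^ (-(2 * w))) *
        ∑' 𝔞 : NI K, lam 𝔞.1 * (starRingEnd ℂ) (lam 𝔞.1) *
          (Ideal.absNorm 𝔞.1 : ℂ) ^ (-w)) *
        ∏ 𝔭 ∈ S, pC (lam 𝔭.1) (om 𝔭.1) ((starRingEnd ℂ) (lam 𝔭.1))
          ((starRingEnd ℂ) (om 𝔭.1)) ((Ideal.absNorm 𝔭.1 : ℂ) ^ (-w)) =
        cexp (∑' q, T1 q) := by
      rw [e3]
      congr 1
    have e4' : ((∑' 𝔞 : NI K, om 𝔞.1 * (starRingEnd ℂ) (omt 𝔞.1) *
          (Ideal.absNorm 𝔞.1 : ℂ) ^ (-(2 * w))) *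
        ∑' 𝔞 : NI K, lam 𝔞.1 * (starRingEnd ℂ) (lamt 𝔞.1) *
          (Ideal.absNorm 𝔞.1 : ℂ) ^ (-w)) *
        ∏ 𝔭 ∈ S, pC (lam 𝔭.1) (om 𝔭.1) ((starRingEnd ℂ) (lamt 𝔭.1))
          ((starRingEnd ℂ) (omt 𝔭.1)) ((Ideal.absNorm 𝔭.1 : ℂ) ^ (-w)) =
        cexp (∑' q, T2 q) := by
      rw [e4]
      congr 1
    have S1 : Summable T1 := by
      refine Summable.of_norm_bounded s3 fun q => ?_
      rw [hT1]
      simp only
      split_ifs
      · rw [norm_zero]; exact norm_nonneg _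
      · exact le_of_eq rfl
    have S2 : Summable T2 := by
      refine Summable.of_norm_bounded s4 fun q => ?_
      rw [hT2]
      simp only
      split_ifs
      · rw [norm_zero]; exact norm_nonneg _
      · exact le_of_eq rfl
    set σ : PI K × ℕ ≃ PI K × ℕ := (eb_sw hτ).prodCongr (Equiv.refl ℕ) with hσ
    have hmain : ∑' q, T1 q + ∑' q, T2 q = ∑' q : PI K × ℕ, (SBN τ lam om B q : ℂ) *
        (((Ideal.absNorm q.1.1) ^ (q.2 + 1) : ℕ) : ℂ) ^ (-w) := by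
      rw [Pool.Agent.H4.he_half σ S1 S2]
      refine tsum_congr fun q => ?_
      have hσq : σ q = (eb_sw hτ q.1, q.2) := rfl
      have hblw : blw (eb_sw hτ q.1).1 = blw q.1.1 := by
        unfold blw
        rw [eb_sw_val, (tau_idl hτ q.1.1).2]
      have hS' : eb_sw hτ q.1 ∈ S ↔ q.1 ∈ S := by
        rw [hmem, hmem, hblw]
      unfold SBN
      by_cases hq : q.1 ∈ S
      · have hq' : eb_sw hτ q.1 ∈ S := hS'.2 hq
        rw [hT1, hT2]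
        simp only [hσq]
        rw [if_pos hq, if_pos hq', if_pos hq, if_pos hq', if_pos ((hmem _).1 hq)]
        simp
      · have hq' : eb_sw hτ q.1 ∉ S := fun h' => hq (hS'.1 h')
        rw [hT1, hT2]
        simp only [hσq]
        rw [if_neg hq, if_neg hq', if_neg hq, if_neg hq', if_neg (fun h' => hq ((hmem _).2 h'))]
        have hn' : Ideal.absNorm (eb_sw hτ q.1).1 = Ideal.absNorm q.1.1 := by
          rw [eb_sw_val, (tau_idl hτ q.1.1).2]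
        have l1 : lam (eb_sw hτ q.1).1 = lamt q.1.1 := rfl
        have l2 : lamt (eb_sw hτ q.1).1 = lam q.1.1 := by
          rw [hlt]
          simp only
          rw [eb_sw_val, (tau_idl hτ q.1.1).1]
        have o1 : om (eb_sw hτ q.1).1 = omt q.1.1 := rfl
        have o2 : omt (eb_sw hτ q.1).1 = om q.1.1 := by
          rw [hot]
          simp only
          rw [eb_sw_val, (tau_idl hτ q.1.1).1]
        have hPC := eb_PC (lam q.1.1) (om q.1.1) (lamt q.1.1) (omt q.1.1) (q.2 + 1)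
        unfold eb_T SvN
        simp only
        rw [hn', l1, l2, o1, o2, Pool.Agent.H4.he_pow]
        have hJ : ((q.2 : ℂ) + 1) ≠ 0 := by exact_mod_cast Nat.succ_ne_zero q.2
        have hsv : (((‖PC (lam q.1.1) (om q.1.1) (lam (q.1.1.map τ)) (om (q.1.1.map τ))
            (q.2 + 1)‖ ^ 2 / (2 * (q.2 + 1)) : ℝ)) : ℂ) =
            ((‖PC (lam q.1.1) (om q.1.1) (lamt q.1.1) (omt q.1.1)
              (q.2 + 1)‖ ^ 2 : ℝ) : ℂ) / (2 * ((q.2 : ℂ) + 1)) := by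
          push_cast
          rfl
        rw [hsv, hPC]
        field_simp
    rw [← hmain, Complex.exp_add, ← e3', ← e4']
    ring


end Pool.Agent.HI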