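import Pool.Agent.Lib_helper25.HIF.DX
import Pool.Agent.Lib_helper98.HNF.E5b
import Pool.Agent.Lib_helper98.HNF.E3
import Pool.Agent.Lib_helper98.HN.DefsE
import Pool.Agent.Lib_helper98.H4F.SP

/-!
# Project HI, block EC: the sum over the prime powers diverges at `1/8`
(adapts block E8 of HN, helper14)
-/

namespace Pool.Agent.HI
open Complex MeasureTheory NumberField Filter Topology
open Pool.Agent.H4 (NI PI blw ml)
open Pool.Agent.HNA (HekN SBN SvN aN PC tau_idl loc_lowN)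

variable {K : Type} [Field K] [NumberField K]

theorem ec_map_prime (τ : 𝓞 K ≃+* 𝓞 K) (𝔭 : PI K) :
    (𝔭.1.map τ).IsPrime ∧ 𝔭.1.map τ ≠ ⊥ := by
  refine ⟨Pool.Agent.H4.sp_map_prime 𝔭.1 𝔭.2.1, fun h => 𝔭.2.2 ?_⟩
  have h1 : ∀ x ∈ 𝔭.1, x = 0 := by
    intro x hx
    have h2 : τ x ∈ 𝔭.1.map τ := Ideal.mem_map_of_mem _ hx
    rw [h, Ideal.mem_bot] at h2
    exact (map_eq_zero_iff τ τ.injective).1 h2
  exact (Submodule.eq_bot_iff _).2 h1

/-- the norm of a prime ideal above `p` is at most `p²` -/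
theorem ec_norm_le (hK : Module.finrank ℚ K = 2) (𝔭 : PI K) :
    1 ≤ Ideal.absNorm 𝔭.1 ∧ Ideal.absNorm 𝔭.1 ≤ blw 𝔭.1 ^ 2 := by
  obtain ⟨n, hn, hm, hp, h⟩ := Pool.Agent.H4.sp_pow 𝔭
  constructor
  · rw [h]
    exact Nat.one_le_pow _ _ hp.pos
  · have h2 : Ideal.span {((blw 𝔭.1 : ℕ) : 𝓞 K)} ≤ 𝔭.1 := by
      rw [Ideal.span_singleton_le_iff_mem]; exact hm
    have h3 := Ideal.absNorm_dvd_absNorm_of_le h2
    rw [Ideal.absNorm_span_natCast, RingOfIntegers.rank, hK] at h3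
    exact Nat.le_of_dvd (pow_pos hp.pos _) h3

/-- the factor at four powers of a prime above `p` is at least `1/p` -/
theorem ec_fac (hK : Module.finrank ℚ K = 2) (𝔭 : PI K) {i : ℕ} (hi : i < 4) :
    ((blw 𝔭.1 : ℕ) : ℝ)⁻¹ ≤
      (((Ideal.absNorm 𝔭.1) ^ (i + 1) : ℕ) : ℝ) ^ (-(1 / 8 : ℝ)) := by
  obtain ⟨h1, h2⟩ := ec_norm_le hK 𝔭
  have hp := (Pool.Agent.H4.blw_prime 𝔭).pos
  have h3 : (Ideal.absNorm 𝔭.1) ^ (i + 1) ≤ (blw 𝔭.1) ^ 8 := by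
    calc (Ideal.absNorm 𝔭.1) ^ (i + 1) ≤ (Ideal.absNorm 𝔭.1) ^ 4 :=
          Nat.pow_le_pow_right h1 (by omega)
      _ ≤ (blw 𝔭.1 ^ 2) ^ 4 := Nat.pow_le_pow_left h2 4
      _ = (blw 𝔭.1) ^ 8 := by rw [← pow_mul]
  have h4 : (((Ideal.absNorm 𝔭.1) ^ (i + 1) : ℕ) : ℝ) ≤ ((blw 𝔭.1 : ℕ) : ℝ) ^ 8 := by
    exact_mod_cast h3
  have h5 : (0 : ℝ) < (((Ideal.absNorm 𝔭.1) ^ (i + 1) : ℕ) : ℝ) := by
    exact_mod_cast Nat.pow_pos (by omega)
  have h6 : ((blw 𝔭.1 : ℕ) : ℝ)⁻¹ = (((blw 𝔭.1 : ℕ) : ℝ) ^ 8) ^ (-(1 / 8 : ℝ)) := by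
    have hb : (0 : ℝ) ≤ ((blw 𝔭.1 : ℕ) : ℝ) := Nat.cast_nonneg _
    rw [← Real.rpow_natCast, ← Real.rpow_mul hb]
    norm_num
    rw [Real.rpow_neg_one]
  rw [h6]
  exact Real.rpow_le_rpow_of_nonpos h5 h4 (by norm_num)

theorem ec_SBN_nonneg (τ : 𝓞 K ≃+* 𝓞 K) (lam om : Ideal (𝓞 K) → ℂ) (B : Finset ℕ)
    (q : PI K × ℕ) : 0 ≤ SBN τ lam om B q := by
  unfold SBN SvN
  split_ifs
  · exact le_refl _
  · positivity

theorem h_zero2 (hK : Module.finrank ℚ K = 2) {τ : 𝓞 K ≃+* 𝓞 K} (hτ : ∀ x, τ (τ x) = x)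
    {lam om : Ideal (𝓞 K) → ℂ} (h : HekN lam om) (B : Finset ℕ) :
    ¬ Summable (fun q : PI K × ℕ => SBN τ lam om B q *
      (((Ideal.absNorm q.1.1) ^ (q.2 + 1) : ℕ) : ℝ) ^ (-(1 / 8 : ℝ))) := by
  classical
  intro hsum
  have hch : ∀ p : Nat.Primes, ∃ 𝔭 : PI K, blw 𝔭.1 = (p : ℕ) := fun p =>
    Pool.Agent.H4.sp_exists p.2
  choose P hP using hch
  have hPi : Function.Injective P := by
    intro p q hpq
    have h1 : (p : ℕ) = q := by rw [← hP p, ← hP q, hpq]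
    exact Subtype.ext h1
  have hi1 : Function.Injective (fun p : Nat.Primes => (P p).1) :=
    Subtype.val_injective.comp hPi
  have hi2 : Function.Injective (fun p : Nat.Primes => (P p).1.map τ) := by
    intro p q hpq
    refine hi1 ?_
    have h1 := congrArg (Ideal.map τ) hpq
    simp only at h1
    rw [(tau_idl hτ _).1, (tau_idl hτ _).1] at h1
    exact h1
  set Z : Set (Ideal (𝓞 K)) := {𝔭 : Ideal (𝓞 K) | 𝔭.IsPrime ∧ 𝔭 ≠ ⊥ ∧ om 𝔭 = 0} with hZ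
  have hZf : Z.Finite := h.om_fin
  set T : Set Nat.Primes := ((fun p : Nat.Primes => (p : ℕ)) ⁻¹' (B : Set ℕ)) ∪
    ((fun p : Nat.Primes => (P p).1) ⁻¹' Z) ∪ ((fun p : Nat.Primes => (P p).1.map τ) ⁻¹' Z)
    with hT
  have hTf : T.Finite := by
    refine Set.Finite.union (Set.Finite.union ?_ ?_) ?_
    · exact (Finset.finite_toSet B).preimage (Subtype.val_injective.injOn)
    · exact hZf.preimage hi1.injOn
    · exact hZf.preimage hi2.injOn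
  let S : Set Nat.Primes := Tᶜ
  have hinj : Function.Injective (fun q : S × Fin 4 => ((P q.1, (q.2 : ℕ)) : PI K × ℕ)) := by
    rintro ⟨p, i⟩ ⟨p', i'⟩ h
    simp only [Prod.mk.injEq] at h
    obtain ⟨h1, h2⟩ := h
    exact Prod.ext (Subtype.ext (hPi h1)) (Fin.ext h2)
  have h1 := hsum.comp_injective hinj
  have h2 := h1.prod
  have h3 : ∀ p : S, (1 / 8 : ℝ) * (((p : Nat.Primes) : ℕ) : ℝ)⁻¹ ≤
      ∑' i : Fin 4, SBN τ lam om B (P p, (i : ℕ)) *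
        (((Ideal.absNorm (P p).1) ^ ((i : ℕ) + 1) : ℕ) : ℝ) ^ (-(1 / 8 : ℝ)) := by
    intro p
    have hp : (p : Nat.Primes) ∉ T := p.2
    have hpB : ((p : Nat.Primes) : ℕ) ∉ B := fun hh => hp (Or.inl (Or.inl hh))
    have hpZ : (P p).1 ∉ Z := fun hh => hp (Or.inl (Or.inr hh))
    have hpZ' : (P p).1.map τ ∉ Z := fun hh => hp (Or.inr hh)
    have hω : ‖om (P p).1‖ = 1 := by
      rcases h.om_norm (P p).1 (P p).2.1 (P p).2.2 with h0 | h0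
      · exact h0
      · exact absurd ⟨(P p).2.1, (P p).2.2, h0⟩ hpZ
    have hψ : ‖om ((P p).1.map τ)‖ = 1 := by
      obtain ⟨e1, e2⟩ := ec_map_prime τ (P p)
      rcases h.om_norm _ e1 e2 with h0 | h0
      · exact h0
      · exact absurd ⟨e1, e2, h0⟩ hpZ'
    rw [tsum_fintype]
    have hnB : blw (P p).1 ∉ B := by
      rw [hP p]
      exact hpB
    have e : ∀ i : Fin 4, SBN τ lam om B (P p, (i : ℕ)) = SvN τ lam om (P p, (i : ℕ)) := by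
      intro i
      unfold SBN
      rw [if_neg hnB]
    have hl := loc_lowN (lam (P p).1) (lam ((P p).1.map τ)) hω hψ
    have e2 : ∑ i : Fin 4, SvN τ lam om (P p, (i : ℕ)) =
        (1 / 2) * ∑ j ∈ Finset.range 4, ‖PC (lam (P p).1) (om (P p).1) (lam ((P p).1.map τ))
          (om ((P p).1.map τ)) (j + 1)‖ ^ 2 / ((j : ℝ) + 1) := by
      rw [Fin.sum_univ_eq_sum_range (fun i => SvN τ lam om (P p, i)) 4, Finset.mul_sum]
      refine Finset.sum_congr rfl (fun j _ => ?_)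
      unfold SvN
      have hj : (0 : ℝ) < (j : ℝ) + 1 := by positivity
      field_simp
    have e3 : (1 / 8 : ℝ) ≤ ∑ i : Fin 4, SBN τ lam om B (P p, (i : ℕ)) := by
      rw [Finset.sum_congr rfl (fun i _ => e i), e2]
      linarith
    have hpp : (0 : ℝ) ≤ (((p : Nat.Primes) : ℕ) : ℝ)⁻¹ := by positivity
    calc (1 / 8 : ℝ) * (((p : Nat.Primes) : ℕ) : ℝ)⁻¹
        ≤ (∑ i : Fin 4, SBN τ lam om B (P p, (i : ℕ))) * (((p : Nat.Primes) : ℕ) : ℝ)⁻¹ :=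
          mul_le_mul_of_nonneg_right e3 hpp
      _ = ∑ i : Fin 4, SBN τ lam om B (P p, (i : ℕ)) * (((p : Nat.Primes) : ℕ) : ℝ)⁻¹ := by
          rw [Finset.sum_mul]
      _ ≤ _ := by
          refine Finset.sum_le_sum fun i _ => ?_
          refine mul_le_mul_of_nonneg_left ?_ (ec_SBN_nonneg _ _ _ _ _)
          have := ec_fac hK (P p) i.2
          rw [hP p] at this
          exact this
  have h4 : Summable (fun p : S => (1 / 8 : ℝ) * (((p : Nat.Primes) : ℕ) : ℝ)⁻¹) := by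
    refine Summable.of_nonneg_of_le (fun p => by positivity) h3 h2
  have h5 : Summable (fun p : S => (((p : Nat.Primes) : ℕ) : ℝ)⁻¹) := by
    have := h4.mul_left 8
    refine this.congr fun p => ?_
    ring
  have h6 : Summable (fun p : Nat.Primes => ((p : ℕ) : ℝ)⁻¹) := by
    have h7 : Summable ((fun p : Nat.Primes => ((p : ℕ) : ℝ)⁻¹) ∘ ((↑) : S → Nat.Primes)) := h5
    exact (hTf.summable_compl_iff (f := fun p : Nat.Primes => ((p : ℕ) : ℝ)⁻¹)).mp h7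
  refine Nat.Primes.not_summable_one_div ?_
  refine h6.congr fun p => ?_
  rw [one_div]


end Pool.Agent.HI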