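import Pool.Agent.Lib_helper25.HIF.DX
import Pool.Agent.Lib_helper25.HIF.EA
import Pool.Agent.Lib_helper25.HIF.EB
import Pool.Agent.Lib_helper25.HIF.EC
import Pool.Agent.Lib_helper98.HNF.E7

/-! HI, block ED: the contradiction -/

namespace Pool.Agent.HI
open NumberField Complex MeasureTheory IsDedekindDomain Filter Topology
open scoped nonZeroDivisors MatrixGroups
open Pool.Agent.H4 (NI PI blw ml)
open Pool.Agent.HNA (HekN SBN aN)
open Pool.Agent.HSG (Lat Pr IsInt nI prI DD nm wm dgm dt qP NCl IsRepQ)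

variable {K : Type} [Field K] [NumberField K]

theorem ed_nonneg (τ : 𝓞 K ≃+* 𝓞 K) (lam om : Ideal (𝓞 K) → ℂ) (B : Finset ℕ)
    (q : PI K × ℕ) : 0 ≤ SBN τ lam om B q := by
  unfold Pool.Agent.HNA.SBN
  split_ifs
  · exact le_rfl
  · unfold Pool.Agent.HNA.SvN
    positivity

theorem ed_countable : Countable (Ideal (𝓞 K)) := by
  have h1 : Countable (𝓞 K) := by
    have b := RingOfIntegers.basis K
    exact Function.Injective.countable (f := fun x => (b.repr x : _ → ℤ))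
      fun x y hxy => b.repr.injective (DFunLike.coe_injective hxy)
  have hc : ∀ 𝔞 : Ideal (𝓞 K), ∃ t : Finset (𝓞 K), Ideal.span (t : Set (𝓞 K)) = 𝔞 := by
    intro 𝔞
    exact (isNoetherian_def.mp inferInstance) 𝔞
  choose g hg using hc
  exact Function.Injective.countable (f := g) (fun a a' haa => by rw [← hg a, ← hg a', haa])

theorem ml_not2 (hK : Module.finrank ℚ K = 2) {τ : 𝓞 K ≃+* 𝓞 K} (hτ : ∀ x, τ (τ x) = x)
    (hne : ∃ x, τ x ≠ x) {lam om : Ideal (𝓞 K) → ℂ} (h : HekN lam om)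
    (h1 : RS2 lam om lam om)
    (h2 : RS2 lam om (fun 𝔞 => lam (𝔞.map τ)) (fun 𝔞 => om (𝔞.map τ))) :
    ¬ ∀ i ∈ Finset.Icc 1 4, Summable (fun p : Nat.Primes => ml (aN lam) i p) := by
  intro hm
  obtain ⟨B, hB⟩ := Pool.Agent.HNA.h_oneN hK hτ hne h hm
  obtain ⟨f, A, hf, hfA⟩ := h_exp2 hτ h h1 h2 B
  have : Countable (Ideal (𝓞 K)) := ed_countable
  have : Countable (PI K) := by
    unfold Pool.Agent.H4.PI
    infer_instance
  refine h_zero2 hK hτ h B (landau_exp2 (ed_nonneg τ lam om B)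
    (N := fun q : PI K × ℕ => (Ideal.absNorm q.1.1) ^ (q.2 + 1)) ?_ ?_ hf (A := A) ?_
    (x := 1 / 8) (by norm_num))
  · intro q
    have h3 : Ideal.absNorm q.1.1 ≠ 0 := by
      rw [Ne, Ideal.absNorm_eq_zero_iff]
      exact q.1.2.2
    exact Nat.one_le_iff_ne_zero.mpr (pow_ne_zero _ h3)
  · exact hB
  · exact hfA

end Pool.Agent.HI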