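import Pool.Agent.Lib_helper25.HIF.DX
import Pool.Agent.Lib_helper98.HNF.F1

/-! # Project HI, block EE: the input in terms of fractional ideals -/

namespace Pool.Agent.HI
open NumberField Complex MeasureTheory IsDedekindDomain Filter Topology
open scoped nonZeroDivisors MatrixGroups
open Pool.Agent.H4 (NI PI blw ml)
open Pool.Agent.HNA (HekN SBN aN)
open Pool.Agent.HSG (Lat Pr IsInt nI prI DD nm wm dgm dt qP NCl IsRepQ)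

variable {K : Type} [Field K] [NumberField K]

theorem ee_lamI (lam : HSG.Id K → ℂ) {𝔞 : Ideal (𝓞 K)} (h : 𝔞 ≠ ⊥) :
    HSG.N.lamI lam 𝔞 = lam (HSG.N.idOf ⟨𝔞, h⟩) := by
  unfold HSG.N.lamI
  rw [dif_pos h]

theorem ee_nI (𝔞 : NI K) : ((nI (HSG.N.idOf 𝔞) : ℝ) : ℂ) = (Ideal.absNorm 𝔞.1 : ℂ) := by
  rw [HSG.N.idOf_nI]
  push_cast
  rfl

open scoped Classical in
theorem rs2_of {N : HSG.Id K} {om om' lam lam' : HSG.Id K → ℂ}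
    (h0 : ∀ a, IsInt a → ¬ HSG.LV.Cp N a → om a * (starRingEnd ℂ) (om' a) = 0)
    (hz : ∀ m, ¬ IsInt m → lam m = 0)
    (h : ∃ (E : ℂ → ℂ) (A : ℝ), Differentiable ℂ E ∧ ∀ w : ℂ, A < w.re →
      E w = w * (w - 1) * ((∑' g : HSG.Id K, if HSG.LV.Cp N g then om g * (starRingEnd ℂ) (om' g) *
          ((nI g : ℝ) : ℂ) ^ (-(2 * w)) else 0) *
        ∑' m : HSG.Id K, lam m * (starRingEnd ℂ) (lam' m) * ((nI m : ℝ) : ℂ) ^ (-w))) :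
    RS2 (HSG.N.lamI lam) (HSG.N.lamI om) (HSG.N.lamI lam') (HSG.N.lamI om') := by
  obtain ⟨E, A, hE, h⟩ := h
  refine ⟨E, A, hE, fun w hw => ?_⟩
  rw [h w hw]
  have e1 : (∑' g : HSG.Id K, if HSG.LV.Cp N g then om g * (starRingEnd ℂ) (om' g) *
      ((nI g : ℝ) : ℂ) ^ (-(2 * w)) else 0) = ∑' 𝔞 : NI K, HSG.N.lamI om 𝔞.1 *
        (starRingEnd ℂ) (HSG.N.lamI om' 𝔞.1) * (Ideal.absNorm 𝔞.1 : ℂ) ^ (-(2 * w)) := by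
    rw [HSG.N.id_tsum (fun m hm => if_neg fun hh => hm hh.1)]
    refine tsum_congr fun 𝔞 => ?_
    rw [ee_lamI om 𝔞.2, ee_lamI om' 𝔞.2, ee_nI]
    by_cases hc : HSG.LV.Cp N (HSG.N.idOf 𝔞)
    · rw [if_pos hc]
    · rw [if_neg hc]
      have h4 : om (HSG.N.idOf ⟨𝔞.1, 𝔞.2⟩) *
          (starRingEnd ℂ) (om' (HSG.N.idOf ⟨𝔞.1, 𝔞.2⟩)) = 0 :=
        h0 (HSG.N.idOf 𝔞) (HSG.N.idOf_int 𝔞) hc
      rw [h4, zero_mul]
  have e3 : (∑' m : HSG.Id K, lam m * (starRingEnd ℂ) (lam' m) * ((nI m : ℝ) : ℂ) ^ (-w)) =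
      ∑' 𝔞 : NI K, HSG.N.lamI lam 𝔞.1 * (starRingEnd ℂ) (HSG.N.lamI lam' 𝔞.1) *
        (Ideal.absNorm 𝔞.1 : ℂ) ^ (-w) := by
    rw [HSG.N.id_tsum (fun m hm => by rw [hz m hm, zero_mul, zero_mul])]
    refine tsum_congr fun 𝔞 => ?_
    rw [ee_lamI lam 𝔞.2, ee_lamI lam' 𝔞.2, ee_nI]
  rw [e1, e3]

end Pool.Agent.HI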