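import Pool.Agent.Lib_helper25.HIF.DX
import Pool.Agent.Lib_helper99.HBF.FV

/-!
# HI, block FW: the Fourier transform of `v (1 + |v|²)^{-β}` on `ℂ`
-/

namespace Pool.Agent.HI
open Complex MeasureTheory Set Filter Topology
open Pool.Agent.HB (H3 mu Kb Adm)
open Pool.Agent.HB

/-- the Gaussian with a phase -/
noncomputable def fwE (u x : ℝ) (ω v : ℂ) : ℂ :=
  ((Real.exp (-(u * normSq v)) : ℝ) : ℂ) * cexp (I * ((x * (ω * v).re : ℝ) : ℂ))

theorem fwE_eq (u x : ℝ) (ω v : ℂ) :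
    fwE u x ω v = cexp (-(u * normSq v : ℝ) + I * ((x * (ω * v).re : ℝ) : ℂ)) := by
  unfold fwE
  rw [Complex.exp_add, Complex.ofReal_exp, Complex.ofReal_neg]

theorem fwE_cont (u x : ℝ) (ω : ℂ) : Continuous (fwE u x ω) := by
  unfold fwE
  have : Continuous normSq := Complex.continuous_normSq
  fun_prop

theorem fwE_norm (u x : ℝ) (ω v : ℂ) : ‖fwE u x ω v‖ = Real.exp (-(u * ‖v‖ ^ 2)) := by
  unfold fwE
  rw [norm_mul, Complex.norm_real, Real.norm_eq_abs, Real.abs_exp, mul_comm I,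
    Complex.norm_exp_ofReal_mul_I, mul_one, fv_normSq]

theorem fw_gi {u : ℝ} (hu : 0 < u) : Integrable (fun v : ℂ => Real.exp (-(u * ‖v‖ ^ 2))) := by
  have h := (GaussianFourier.integrable_cexp_neg_mul_sq_norm_add (V := ℂ) (b := (u : ℂ))
    (by simpa using hu) 0 0).norm
  refine h.congr (Eventually.of_forall fun v => ?_)
  simp only
  rw [Complex.norm_exp]
  congr 1
  simp only [zero_mul, add_zero]
  rw [show -(u : ℂ) * (‖v‖ : ℂ) ^ 2 = ((-(u * ‖v‖ ^ 2) : ℝ) : ℂ) by push_cast; ring,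
    Complex.ofReal_re]

theorem fwE_int {u : ℝ} (hu : 0 < u) (x : ℝ) (ω : ℂ) : Integrable (fwE u x ω) := by
  refine (fw_gi hu).mono' (fwE_cont u x ω).aestronglyMeasurable
    (Eventually.of_forall fun v => ?_)
  exact (fwE_norm u x ω v).le

theorem fw_le {u : ℝ} (hu : 0 < u) (r : ℝ) :
    r * Real.exp (-(u * r ^ 2)) ≤ (1 + 1 / u) * Real.exp (-(u / 2 * r ^ 2)) := by
  have h1 : Real.exp (-(u * r ^ 2)) = Real.exp (-(u / 2 * r ^ 2)) * Real.exp (-(u / 2 * r ^ 2)) := by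
    rw [← Real.exp_add]
    congr 1
    ring
  have h2 : r * Real.exp (-(u / 2 * r ^ 2)) ≤ 1 + 1 / u := by
    have h3 : u / 2 * r ^ 2 + 1 ≤ Real.exp (u / 2 * r ^ 2) := Real.add_one_le_exp _
    rw [Real.exp_neg, ← div_eq_mul_inv, div_le_iff₀ (Real.exp_pos _)]
    have h4 : r ≤ (1 + 1 / u) * (u / 2 * r ^ 2 + 1) := by
      have h5 : (1 + 1 / u) * (u / 2 * r ^ 2 + 1) = u / 2 * r ^ 2 + 1 + r ^ 2 / 2 + 1 / u := by
        field_simp
        ring
      rw [h5]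
      have : 0 < 1 / u := by positivity
      nlinarith [sq_nonneg (r - 1), mul_nonneg hu.le (sq_nonneg r)]
    exact h4.trans (mul_le_mul_of_nonneg_left h3 (by positivity))
  rw [h1, ← mul_assoc]
  exact mul_le_mul_of_nonneg_right h2 (Real.exp_pos _).le

theorem fwE_int1 {u : ℝ} (hu : 0 < u) (x : ℝ) (ω : ℂ) :
    Integrable (fun v : ℂ => v * fwE u x ω v) := by
  have hu2 : 0 < u / 2 := by positivity
  refine ((fw_gi hu2).const_mul (1 + 1 / u)).mono'
    (continuous_id.mul (fwE_cont u x ω)).aestronglyMeasurable (Eventually.of_forall fun v => ?_)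
  rw [norm_mul, fwE_norm]
  exact fw_le hu _

theorem fwE_int_re {u : ℝ} (hu : 0 < u) (x : ℝ) (ω : ℂ) (e : ℂ) :
    Integrable (fun v : ℂ => (((v * (starRingEnd ℂ) e).re : ℝ) : ℂ) * fwE u x ω v) := by
  refine ((fwE_int1 hu x ω).norm.const_mul ‖e‖).mono' ?_ (Eventually.of_forall fun v => ?_)
  · have := fwE_cont u x ω
    exact Continuous.aestronglyMeasurable (by fun_prop)
  · rw [norm_mul, norm_mul, Complex.norm_real, Real.norm_eq_abs, ← mul_assoc]
    refine mul_le_mul_of_nonneg_right ?_ (norm_nonneg _)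
    refine (Complex.abs_re_le_norm _).trans ?_
    rw [norm_mul, RCLike.norm_conj, mul_comm]

theorem fwE_line (u x : ℝ) (ω v e : ℂ) :
    HasLineDerivAt ℝ (fwE u x ω) ((-(2 * u : ℝ) * (((v * (starRingEnd ℂ) e).re : ℝ) : ℂ) +
      I * ((x * (ω * e).re : ℝ) : ℂ)) * fwE u x ω v) v e := by
  have h1 : ∀ t : ℝ, fwE u x ω (v + t • e) =
      cexp ((-(u * normSq v : ℝ) + I * ((x * (ω * v).re : ℝ) : ℂ)) +
        (t : ℂ) * (-(2 * u : ℝ) * (((v * (starRingEnd ℂ) e).re : ℝ) : ℂ) +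
          I * ((x * (ω * e).re : ℝ) : ℂ)) + (t : ℂ) ^ 2 * (-(u * normSq e : ℝ))) := by
    intro t
    rw [fwE_eq]
    congr 1
    have h2 : normSq (v + t • e) = normSq v + 2 * t * (v * (starRingEnd ℂ) e).re +
        t ^ 2 * normSq e := by
      simp only [normSq_apply, Complex.add_re, Complex.add_im, Complex.real_smul, Complex.mul_re,
        Complex.mul_im, Complex.ofReal_re, Complex.ofReal_im, Complex.conj_re, Complex.conj_im]
      ring
    have h3 : (ω * (v + t • e)).re = (ω * v).re + t * (ω * e).re := by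
      simp only [Complex.add_re, Complex.add_im, Complex.real_smul, Complex.mul_re,
        Complex.mul_im, Complex.ofReal_re, Complex.ofReal_im]
      ring
    rw [h2, h3]
    push_cast
    ring
  have h0 : fwE u x ω v = cexp ((-(u * normSq v : ℝ) + I * ((x * (ω * v).re : ℝ) : ℂ))) :=
    fwE_eq u x ω v
  unfold HasLineDerivAt
  simp only [h1]
  set A : ℂ := (-(u * normSq v : ℝ) + I * ((x * (ω * v).re : ℝ) : ℂ))
  set B : ℂ := (-(2 * u : ℝ) * (((v * (starRingEnd ℂ) e).re : ℝ) : ℂ) +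
          I * ((x * (ω * e).re : ℝ) : ℂ))
  set C : ℂ := (-(u * normSq e : ℝ) : ℂ)
  have hd : HasDerivAt (fun t : ℂ => cexp (A + t * B + t ^ 2 * C))
      (cexp (A + ((0 : ℝ) : ℂ) * B + ((0 : ℝ) : ℂ) ^ 2 * C) * (1 * B + 2 * ((0 : ℝ) : ℂ) * C))
      (((0 : ℝ) : ℂ)) := by
    refine HasDerivAt.cexp ?_
    refine HasDerivAt.add ?_ ?_
    · exact ((hasDerivAt_id _).mul_const B).const_add A
    · have := (hasDerivAt_pow 2 (((0 : ℝ) : ℂ))).mul_const C
      simpa using this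
  have hd2 := hd.comp_ofReal
  have hv : cexp (A + ((0 : ℝ) : ℂ) * B + ((0 : ℝ) : ℂ) ^ 2 * C) *
      (1 * B + 2 * ((0 : ℝ) : ℂ) * C) = B * fwE u x ω v := by
    rw [h0]
    simp only [Complex.ofReal_zero, zero_mul, add_zero, mul_zero]
    ring_nf
  rw [hv] at hd2
  exact hd2

theorem fw_dir {u : ℝ} (hu : 0 < u) (x : ℝ) (ω e : ℂ) :
    ∫ v : ℂ, (((v * (starRingEnd ℂ) e).re : ℝ) : ℂ) * fwE u x ω v =
      I * ((x * (ω * e).re : ℝ) : ℂ) / (2 * u) * ∫ v : ℂ, fwE u x ω v := by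
  have hi := fwE_int_re hu x ω e
  have hi0 := fwE_int hu x ω
  have hI : Integrable (fun v : ℂ => (-(2 * u : ℝ) * (((v * (starRingEnd ℂ) e).re : ℝ) : ℂ) +
      I * ((x * (ω * e).re : ℝ) : ℂ)) * fwE u x ω v) := by
    refine ((hi.const_mul (-(2 * u : ℝ) : ℂ)).add
      (hi0.const_mul (I * ((x * (ω * e).re : ℝ) : ℂ)))).congr (Eventually.of_forall fun v => ?_)
    simp only [Pi.add_apply]
    ring
  have h := integral_bilinear_hasLineDerivAt_right_eq_neg_left_of_integrable (μ := volume)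
    (f := fun _ : ℂ => (1 : ℂ)) (f' := fun _ : ℂ => (0 : ℂ)) (g := fwE u x ω)
    (g' := fun v => (-(2 * u : ℝ) * (((v * (starRingEnd ℂ) e).re : ℝ) : ℂ) +
      I * ((x * (ω * e).re : ℝ) : ℂ)) * fwE u x ω v) (v := e)
    (B := ContinuousLinearMap.mul ℝ ℂ) (by simp) (by simpa using hI) (by simpa using hi0)
    (fun v _ => by
      unfold HasLineDerivAt
      exact hasDerivAt_const _ _)
    (fun v _ => fwE_line u x ω v e)
  simp only [ContinuousLinearMap.mul_apply', one_mul, zero_mul, integral_zero, neg_zero] at h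
  have h2 : ∫ v : ℂ, (-(2 * u : ℝ) * (((v * (starRingEnd ℂ) e).re : ℝ) : ℂ) +
      I * ((x * (ω * e).re : ℝ) : ℂ)) * fwE u x ω v =
      (-(2 * u : ℝ) : ℂ) * (∫ v : ℂ, (((v * (starRingEnd ℂ) e).re : ℝ) : ℂ) * fwE u x ω v) +
      I * ((x * (ω * e).re : ℝ) : ℂ) * ∫ v : ℂ, fwE u x ω v := by
    rw [← integral_const_mul, ← integral_const_mul, ← integral_add
      (hi.const_mul (-(2 * u : ℝ) : ℂ)) (hi0.const_mul (I * ((x * (ω * e).re : ℝ) : ℂ)))]
    refine integral_congr_ae (Eventually.of_forall fun v => ?_)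
    simp only
    ring
  rw [h2] at h
  have hu0 : (u : ℂ) ≠ 0 := by exact_mod_cast hu.ne'
  have h3 : (2 * (u : ℂ)) * (∫ v : ℂ, (((v * (starRingEnd ℂ) e).re : ℝ) : ℂ) * fwE u x ω v) =
      I * ((x * (ω * e).re : ℝ) : ℂ) * ∫ v : ℂ, fwE u x ω v := by
    push_cast at h ⊢
    linear_combination -h
  rw [div_mul_eq_mul_div, eq_div_iff (by simpa using hu0), ← h3]
  ring

/-- the vector valued Gaussian integral -/
theorem fw_gauss {u : ℝ} (hu : 0 < u) (x : ℝ) {ω : ℂ} (hω : ‖ω‖ = 1) :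
    ∫ v : ℂ, v * fwE u x ω v = I * (starRingEnd ℂ) ω * (x / (2 * u)) *
      ((Real.pi / u * Real.exp (-(x ^ 2 / (4 * u))) : ℝ) : ℂ) := by
  have h1 := fw_dir hu x ω 1
  have h2 := fw_dir hu x ω I
  have h0 : ∫ v : ℂ, fwE u x ω v = ((Real.pi / u * Real.exp (-(x ^ 2 / (4 * u))) : ℝ) : ℂ) :=
    fv_gauss hu x hω
  have h3 : ∫ v : ℂ, v * fwE u x ω v =
      (∫ v : ℂ, (((v * (starRingEnd ℂ) 1).re : ℝ) : ℂ) * fwE u x ω v) +
      I * ∫ v : ℂ, (((v * (starRingEnd ℂ) I).re : ℝ) : ℂ) * fwE u x ω v := by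
    rw [← integral_const_mul, ← integral_add (fwE_int_re hu x ω 1)
      ((fwE_int_re hu x ω I).const_mul I)]
    refine integral_congr_ae (Eventually.of_forall fun v => ?_)
    simp only [map_one, mul_one, Complex.conj_I]
    have : v = (v.re : ℂ) + I * (((v * -I).re : ℝ) : ℂ) := by
      apply Complex.ext <;> simp
    nth_rewrite 1 [this]
    ring
  rw [h3, h1, h2, h0]
  have h4 : (starRingEnd ℂ) ω = (((ω * 1).re : ℝ) : ℂ) + I * (((ω * I).re : ℝ) : ℂ) := by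
    apply Complex.ext <;> simp
  rw [h4]
  push_cast
  ring

/-- the function for Fubini -/
noncomputable def fwF (β : ℂ) (x : ℝ) (ω : ℂ) (p : ℂ × ℝ) : ℂ := p.1 * fvF β x ω p

theorem fwF_meas (β : ℂ) (x : ℝ) (ω : ℂ) : Measurable (fwF β x ω) :=
  measurable_fst.mul (fvF_meas β x ω)

theorem fw_int {b : ℝ} (hb : 3 / 2 < b) :
    Integrable (fun v : ℂ => ‖v‖ * (1 + normSq v) ^ (-b)) := by
  refine (fv_int (b := b - 1 / 2) (by linarith)).mono' ?_ (Eventually.of_forall fun v => ?_)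
  · have h : Continuous normSq := Complex.continuous_normSq
    have h1 : Continuous (fun v : ℂ => (1 + normSq v) ^ (-b)) := by
      refine Continuous.rpow_const (by fun_prop) fun v => Or.inl ?_
      have := normSq_nonneg v
      positivity
    exact (continuous_norm.mul h1).aestronglyMeasurable
  · have hp : 0 < 1 + normSq v := by have := normSq_nonneg v; linarith
    rw [Real.norm_of_nonneg (by positivity)]
    have h1 : ‖v‖ ≤ (1 + normSq v) ^ (1 / 2 : ℝ) := by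
      rw [← Real.sqrt_eq_rpow]
      refine Real.le_sqrt_of_sq_le ?_
      rw [fv_normSq]
      linarith
    calc ‖v‖ * (1 + normSq v) ^ (-b) ≤ (1 + normSq v) ^ (1 / 2 : ℝ) * (1 + normSq v) ^ (-b) :=
          mul_le_mul_of_nonneg_right h1 (by positivity)
      _ = (1 + normSq v) ^ (-(b - 1 / 2)) := by
          rw [← Real.rpow_add hp]
          congr 1
          ring

theorem fwF_integrable (β : ℂ) (hβ : 3 / 2 < β.re) (x : ℝ) (ω : ℂ) :
    Integrable (fwF β x ω) ((volume : Measure ℂ).prod (volume.restrict (Ioi (0 : ℝ)))) := by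
  rw [integrable_prod_iff (fwF_meas β x ω).aestronglyMeasurable]
  constructor
  · exact Eventually.of_forall fun v => (fvF_inner β (by linarith) x ω v).1.const_mul v
  · refine ((fw_int hβ).const_mul (Real.Gamma β.re)).congr (Eventually.of_forall fun v => ?_)
    have h := (fvF_inner β (by linarith) x ω v).2.2
    unfold fwF
    simp only [norm_mul]
    rw [integral_const_mul, h]
    ring

theorem fwF_outer (β : ℂ) {x : ℝ} (ω : ℂ) (hω : ‖ω‖ = 1) {u : ℝ} (hu : 0 < u) :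
    ∫ v : ℂ, fwF β x ω (v, u) = (I * (starRingEnd ℂ) ω * (x / 2 : ℝ) * Real.pi) *
      ((u : ℂ) ^ (β - 3) * ((Real.exp (-(u + x ^ 2 / (4 * u))) : ℝ) : ℂ)) := by
  have h1 : ∀ v : ℂ, fwF β x ω (v, u) = ((u : ℂ) ^ (β - 1) * ((Real.exp (-u) : ℝ) : ℂ)) *
      (v * fwE u x ω v) := by
    intro v
    unfold fwF fvF fwE
    simp only
    rw [show -(u * (1 + normSq v)) = -u + -(u * normSq v) by ring, Real.exp_add]
    push_cast
    ring
  simp only [h1]
  rw [integral_const_mul, fw_gauss hu x hω]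
  rw [show -(u + x ^ 2 / (4 * u)) = -u + -(x ^ 2 / (4 * u)) by ring, Real.exp_add]
  have h2 : (u : ℂ) ^ (β - 1) = (u : ℂ) ^ (β - 3) * u ^ 2 := by
    rw [show β - 1 = (β - 3) + ((2 : ℕ) : ℂ) by push_cast; ring,
      Complex.cpow_add _ _ (by exact_mod_cast hu.ne'), Complex.cpow_natCast]
  rw [h2]
  have hu' : (u : ℂ) ≠ 0 := by exact_mod_cast hu.ne'
  push_cast
  field_simp

theorem fourier_v1 {β : ℂ} (hβ : 3 / 2 < β.re) {x : ℝ} (hx : 0 < x) {ω : ℂ} (hω : ‖ω‖ = 1) :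
    Integrable (fun v : ℂ => ‖v‖ * (1 + normSq v) ^ (-β.re)) ∧
    ∫ v : ℂ, v * (((1 + normSq v : ℝ) : ℂ) ^ (-β) * cexp (I * ((x * (ω * v).re : ℝ) : ℂ))) =
      I * (starRingEnd ℂ) ω * (2 * Real.pi / Gamma β) *
        (((x / 2 : ℝ) : ℂ) ^ (β - 1) * Kb (β - 2) x) := by
  refine ⟨fw_int hβ, ?_⟩
  have hx2 : 0 < x / 2 := by positivity
  have h1 := integral_integral_swap (f := fun v u => fwF β x ω (v, u)) (fwF_integrable β hβ x ω)
  have h0 : ∀ v : ℂ, ∫ u in Ioi (0 : ℝ), fwF β x ω (v, u) =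
      Gamma β * (v * (((1 + normSq v : ℝ) : ℂ) ^ (-β) *
        cexp (I * ((x * (ω * v).re : ℝ) : ℂ)))) := by
    intro v
    unfold fwF
    simp only
    rw [integral_const_mul, (fvF_inner β (by linarith) x ω v).2.1]
    ring
  simp only [h0] at h1
  rw [integral_const_mul, setIntegral_congr_fun measurableSet_Ioi
    (fun u hu => fwF_outer β (x := x) ω hω hu), integral_const_mul] at h1
  have h2 := integral_comp_mul_left_Ioi' (fun u : ℝ => (u : ℂ) ^ (β - 3) *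
    ((Real.exp (-(u + x ^ 2 / (4 * u))) : ℝ) : ℂ)) 0 hx2
  rw [mul_zero] at h2
  have h3 : (x / 2) • ∫ v in Ioi (0 : ℝ), (((x / 2 * v : ℝ) : ℝ) : ℂ) ^ (β - 3) *
      ((Real.exp (-(x / 2 * v + x ^ 2 / (4 * (x / 2 * v)))) : ℝ) : ℂ) =
      ((x / 2 : ℝ) : ℂ) ^ (β - 2) * (2 * Kb (β - 2) x) := by
    rw [← (kb_half (β - 2) hx).2, Complex.real_smul, ← integral_const_mul,
      ← integral_const_mul]
    refine setIntegral_congr_fun measurableSet_Ioi fun v hv => ?_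
    have hv0 : (0 : ℝ) < v := hv
    have e1 : x / 2 * v + x ^ 2 / (4 * (x / 2 * v)) = x / 2 * (v + v⁻¹) := by
      field_simp
      ring
    have e5 : (((x / 2 : ℝ) : ℝ) : ℂ) = cexp (((Real.log (x / 2) : ℝ) : ℝ) : ℂ) := by
      rw [← Complex.ofReal_exp, Real.exp_log hx2]
    have e2 : ((x / 2 : ℝ) : ℂ) * (((x / 2 * v : ℝ) : ℝ) : ℂ) ^ (β - 3) =
        ((x / 2 : ℝ) : ℂ) ^ (β - 2) * (v : ℂ) ^ (β - 2 - 1) := by
      rw [fv_cpow (by positivity : (0 : ℝ) < x / 2 * v), fv_cpow hx2, fv_cpow hv0,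
        Real.log_mul hx2.ne' hv0.ne', ← Complex.exp_add]
      nth_rewrite 1 [e5]
      rw [← Complex.exp_add]
      congr 1
      push_cast
      ring
    rw [e1, ← mul_assoc, e2, mul_assoc]
  have h4 : Gamma β ≠ 0 := Complex.Gamma_ne_zero_of_re_pos (by linarith)
  rw [← h2, h3] at h1
  have h6 : ((x / 2 : ℝ) : ℂ) ^ (β - 1) = ((x / 2 : ℝ) : ℂ) * ((x / 2 : ℝ) : ℂ) ^ (β - 2) := by
    have h7 : ((x / 2 : ℝ) : ℂ) ≠ 0 := by exact_mod_cast hx2.ne'
    rw [show β - 1 = 1 + (β - 2) by ring, Complex.cpow_add _ _ h7, Complex.cpow_one]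
  have h5 : I * (starRingEnd ℂ) ω * (2 * Real.pi / Gamma β) *
        (((x / 2 : ℝ) : ℂ) ^ (β - 1) * Kb (β - 2) x) =
      (Gamma β)⁻¹ * ((I * (starRingEnd ℂ) ω * (x / 2 : ℝ) * Real.pi) *
        (((x / 2 : ℝ) : ℂ) ^ (β - 2) * (2 * Kb (β - 2) x))) := by
    rw [h6, div_eq_mul_inv]
    ring
  rw [h5, ← h1, ← mul_assoc, inv_mul_cancel₀ h4, one_mul]

end Pool.Agent.HI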