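import Pool.Agent.Lib_helper25.HIF.DX

namespace Pool.Agent.HI
open Complex MeasureTheory Set Filter Topology
open Pool.Agent.HB (Kb Adm)

theorem kg_sin (w : ℂ) : ‖Complex.sin w‖ ≤ Real.exp |w.im| := by
  have h1 : Complex.sin w = (cexp (-w * I) - cexp (w * I)) * I / 2 := rfl
  rw [h1, norm_div, norm_mul, norm_I, mul_one]
  have h2 : ‖(2:ℂ)‖ = 2 := by simp
  rw [h2]
  have h3 : ‖cexp (-w * I) - cexp (w * I)‖ ≤ ‖cexp (-w * I)‖ + ‖cexp (w * I)‖ := norm_sub_le _ _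
  have h4 : ‖cexp (-w * I)‖ ≤ Real.exp |w.im| := by
    rw [norm_exp]
    apply Real.exp_le_exp.2
    simp
    exact le_abs_self _
  have h5 : ‖cexp (w * I)‖ ≤ Real.exp |w.im| := by
    rw [norm_exp]
    apply Real.exp_le_exp.2
    simp
    exact neg_le_abs _
  linarith

theorem kg_refl (z : ℂ) (h : Complex.sin (Real.pi * z) ≠ 0) :
    Real.exp (-(Real.pi * |z.im|)) ≤ ‖Gamma z‖ * ‖Gamma (1 - z)‖ := by
  rw [← norm_mul, Complex.Gamma_mul_Gamma_one_sub, norm_div]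
  have h1 : ‖Complex.sin (Real.pi * z)‖ ≤ Real.exp (Real.pi * |z.im|) := by
    refine (kg_sin _).trans (le_of_eq ?_)
    congr 1
    simp [abs_mul, abs_of_pos Real.pi_pos]
  have h2 : ‖(Real.pi : ℂ)‖ = Real.pi := by
    rw [Complex.norm_real, Real.norm_eq_abs, abs_of_pos Real.pi_pos]
  rw [h2, le_div_iff₀ (norm_pos_iff.2 h)]
  calc Real.exp (-(Real.pi * |z.im|)) * ‖Complex.sin (Real.pi * z)‖
      ≤ Real.exp (-(Real.pi * |z.im|)) * Real.exp (Real.pi * |z.im|) :=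
        mul_le_mul_of_nonneg_left h1 (Real.exp_pos _).le
    _ = 1 := by rw [← Real.exp_add]; simp
    _ ≤ Real.pi := by linarith [Real.pi_gt_three]

theorem kg_sin_ne {z : ℂ} (h : z.im ≠ 0) : Complex.sin (Real.pi * z) ≠ 0 := by
  intro h0
  rw [Complex.sin_eq_zero_iff] at h0
  obtain ⟨k, hk⟩ := h0
  have h1 := congrArg Complex.im hk
  have h2 : ((Real.pi : ℂ) * z).im = Real.pi * z.im := by simp
  have h3 : ((k : ℂ) * (Real.pi : ℂ)).im = 0 := by simp
  rw [h2, h3] at h1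
  exact h ((mul_eq_zero.1 h1).resolve_left Real.pi_ne_zero)

theorem kg_conj (x y : ℝ) : ‖Gamma ((x : ℂ) - y * I)‖ = ‖Gamma ((x : ℂ) + y * I)‖ := by
  have : ((x : ℂ) - y * I) = (starRingEnd ℂ) ((x : ℂ) + y * I) := by
    apply Complex.ext <;> simp
  rw [this, Complex.Gamma_conj, Complex.norm_conj]

theorem kg_half0 {y : ℝ} (hy : 0 < y) :
    Real.exp (-(Real.pi * y)) ≤ ‖Gamma (((1 / 2 : ℝ) : ℂ) + y * I)‖ ^ 2 := by
  have h1 := kg_refl (((1 / 2 : ℝ) : ℂ) + y * I) (kg_sin_ne (by simp [hy.ne']))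
  have h2 : (1 : ℂ) - (((1 / 2 : ℝ) : ℂ) + y * I) = ((1 / 2 : ℝ) : ℂ) - y * I := by
    push_cast; ring
  rw [h2, kg_conj, ← sq] at h1
  refine le_trans (le_of_eq ?_) h1
  congr 3
  simp [abs_of_pos hy]

theorem kg_half1 {y : ℝ} (hy : 0 < y) :
    y * Real.exp (-(Real.pi * y)) ≤ ‖Gamma (((1 : ℝ) : ℂ) + y * I)‖ ^ 2 := by
  have h1 := kg_refl (((1 : ℝ) : ℂ) + y * I) (kg_sin_ne (by simp [hy.ne']))
  have h2 : (1 : ℂ) - (((1 : ℝ) : ℂ) + y * I) = - y * I := by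
    push_cast; ring
  have hne : (-y * I : ℂ) ≠ 0 := by
    simp [hy.ne']
  have h3 : Gamma (((1 : ℝ) : ℂ) - y * I) = (-y * I) * Gamma (-y * I) := by
    rw [← Complex.Gamma_add_one _ hne]
    congr 1
    push_cast; ring
  have h4 : ‖Gamma (((1 : ℝ) : ℂ) + y * I)‖ = y * ‖Gamma (-y * I)‖ := by
    rw [← kg_conj, h3, norm_mul]
    congr 1
    simp [abs_of_pos hy]
  rw [h2] at h1
  calc y * Real.exp (-(Real.pi * y))
      ≤ y * (‖Gamma (((1 : ℝ) : ℂ) + y * I)‖ * ‖Gamma (-y * I)‖) := by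
        refine mul_le_mul_of_nonneg_left (le_trans (le_of_eq ?_) h1) hy.le
        congr 3
        simp [abs_of_pos hy]
    _ = ‖Gamma (((1 : ℝ) : ℂ) + y * I)‖ ^ 2 := by
        rw [sq]
        nth_rewrite 3 [h4]
        ring

theorem kg_half (n : ℕ) {y : ℝ} (hy : 0 < y) :
    y ^ n * Real.exp (-(Real.pi * y)) ≤ ‖Gamma ((((1 + n) / 2 : ℝ) : ℂ) + y * I)‖ ^ 2 := by
  induction n using Nat.twoStepInduction with
  | zero => simpa using kg_half0 hy
  | one =>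
    have h := kg_half1 hy
    have e : ((1 + ((1 : ℕ) : ℝ)) / 2 : ℝ) = 1 := by norm_num
    rw [e, pow_one]
    exact h
  | more n ih1 _ =>
    have hne : ((((1 + n) / 2 : ℝ) : ℂ) + y * I) ≠ 0 := by
      intro h
      have := congrArg Complex.im h
      simp at this
      exact hy.ne' this
    have h1 : Gamma ((((1 + (n + 2 : ℕ)) / 2 : ℝ) : ℂ) + y * I) =
        ((((1 + n) / 2 : ℝ) : ℂ) + y * I) * Gamma ((((1 + n) / 2 : ℝ) : ℂ) + y * I) := by
      rw [← Complex.Gamma_add_one _ hne]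
      congr 1
      push_cast; ring
    rw [h1, norm_mul, mul_pow]
    have h2 : y ^ 2 ≤ ‖((((1 + n) / 2 : ℝ) : ℂ) + y * I)‖ ^ 2 := by
      rw [← Complex.normSq_eq_norm_sq, Complex.normSq_apply]
      simp
      nlinarith [sq_nonneg ((1 + (n:ℝ)) / 2)]
    calc y ^ (n + 2) * Real.exp (-(Real.pi * y)) = y ^ 2 * (y ^ n * Real.exp (-(Real.pi * y))) := by
          ring
      _ ≤ _ := mul_le_mul h2 ih1 (by positivity) (by positivity)

theorem gamma_low {q : ℕ} {ν : ℂ} (had : Ad q ν) : ∃ c t₀ : ℝ, 0 < c ∧ 1 ≤ t₀ ∧ ∀ t : ℝ, t₀ ≤ t →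
    c * t ^ q * Real.exp (-(Real.pi * t)) ≤
      ‖Gamma (1 / 2 + t * I + (q + ν) / 2) * Gamma (1 / 2 + t * I + (q - ν) / 2)‖ := by
  rcases had with h | ⟨hq, him, -⟩
  · -- imaginary parameter
    set θ := ν.im with hθ
    have hν : ν = θ * I := by
      apply Complex.ext <;> simp [h, hθ]
    refine ⟨(1 / 2) ^ q, 1 + |θ|, by positivity, by linarith [abs_nonneg θ], fun t ht => ?_⟩
    have hθ1 := abs_nonneg θ
    have hθ2 := le_abs_self θ
    have hθ3 := neg_abs_le θ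
    have ht0 : 0 < t := by linarith
    have hy1 : 0 < t + θ / 2 := by linarith
    have hy2 : 0 < t - θ / 2 := by linarith
    have e1 : (1 / 2 + t * I + (q + ν) / 2 : ℂ) =
        (((1 + q) / 2 : ℝ) : ℂ) + ((t + θ / 2 : ℝ) : ℂ) * I := by
      rw [hν]; push_cast; ring
    have e2 : (1 / 2 + t * I + (q - ν) / 2 : ℂ) =
        (((1 + q) / 2 : ℝ) : ℂ) + ((t - θ / 2 : ℝ) : ℂ) * I := by
      rw [hν]; push_cast; ring
    rw [e1, e2, norm_mul]
    have k1 := kg_half q hy1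
    have k2 := kg_half q hy2
    have k3 : (t + θ / 2) ^ q * Real.exp (-(Real.pi * (t + θ / 2))) *
        ((t - θ / 2) ^ q * Real.exp (-(Real.pi * (t - θ / 2)))) ≤
        (‖Gamma ((((1 + q) / 2 : ℝ) : ℂ) + ((t + θ / 2 : ℝ) : ℂ) * I)‖ *
          ‖Gamma ((((1 + q) / 2 : ℝ) : ℂ) + ((t - θ / 2 : ℝ) : ℂ) * I)‖) ^ 2 := by
      rw [mul_pow]
      exact mul_le_mul k1 k2 (by positivity) (by positivity)
    have k4 : ((1 / 2) ^ q * t ^ q * Real.exp (-(Real.pi * t))) ^ 2 ≤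
        (t + θ / 2) ^ q * Real.exp (-(Real.pi * (t + θ / 2))) *
        ((t - θ / 2) ^ q * Real.exp (-(Real.pi * (t - θ / 2)))) := by
      have a1 : ((1 / 2) ^ q * t ^ q * Real.exp (-(Real.pi * t))) ^ 2 =
          ((t / 2) ^ 2) ^ q * (Real.exp (-(Real.pi * t)) * Real.exp (-(Real.pi * t))) := by
        have b0 : ((t / 2) ^ 2) ^ q = ((1 / 2) ^ q * t ^ q) ^ 2 := by
          rw [← pow_mul, mul_comm 2 q, pow_mul, ← mul_pow]
          congr 2
          ring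
        rw [b0]
        ring
      have a2 : (t + θ / 2) ^ q * Real.exp (-(Real.pi * (t + θ / 2))) *
        ((t - θ / 2) ^ q * Real.exp (-(Real.pi * (t - θ / 2)))) =
          ((t + θ / 2) * (t - θ / 2)) ^ q * (Real.exp (-(Real.pi * t)) * Real.exp (-(Real.pi * t))) := by
        rw [mul_pow, ← Real.exp_add (-(Real.pi * t)),
          show -(Real.pi * t) + -(Real.pi * t) = -(Real.pi * (t + θ / 2)) + -(Real.pi * (t - θ / 2)) by
            ring, Real.exp_add]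
        ring
      rw [a1, a2]
      refine mul_le_mul_of_nonneg_right (pow_le_pow_left₀ (by positivity) ?_ q) (by positivity)
      have b1 : θ ^ 2 ≤ t ^ 2 := by
        rw [← sq_abs θ]
        exact pow_le_pow_left₀ hθ1 (by linarith) 2
      nlinarith
    exact (pow_le_pow_iff_left₀ (by positivity) (by positivity) two_ne_zero).1 (k4.trans k3)
  · -- real parameter, q = 0
    subst hq
    set x := ν.re with hx
    have hν : ν = (x : ℂ) := by
      apply Complex.ext <;> simp [him, hx]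
    refine ⟨1, 1, one_pos, le_rfl, fun t ht => ?_⟩
    have ht0 : 0 < t := by linarith
    have k := kg_refl ((((1 + x) / 2 : ℝ) : ℂ) + t * I) (kg_sin_ne (by simp [ht0.ne']))
    have e0 : (1 : ℂ) - ((((1 + x) / 2 : ℝ) : ℂ) + t * I) = (((1 - x) / 2 : ℝ) : ℂ) - t * I := by
      push_cast; ring
    rw [e0, kg_conj] at k
    have e1 : (1 / 2 + t * I + (((0 : ℕ) : ℂ) + ν) / 2 : ℂ) = (((1 + x) / 2 : ℝ) : ℂ) + t * I := by
      rw [hν]; push_cast; ring
    have e2 : (1 / 2 + t * I + (((0 : ℕ) : ℂ) - ν) / 2 : ℂ) = (((1 - x) / 2 : ℝ) : ℂ) + t * I := by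
      rw [hν]; push_cast; ring
    rw [e1, e2, norm_mul]
    refine le_trans (le_of_eq ?_) k
    simp [abs_of_pos ht0]

end Pool.Agent.HI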