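import Pool.Agent.Lib_helper25.HIF.DX

/-!
# Project HI, block MD: Macdonald's formula
-/

namespace Pool.Agent.HI
open Complex MeasureTheory Set Filter Topology
open Pool.Agent.HB (H3 mu Kb Adm)

/-- the integrand of the Bessel function on the whole line -/
noncomputable def md_f (ν : ℂ) (x u : ℝ) : ℂ := cexp (((-(x * Real.cosh u) : ℝ) : ℂ) + ν * (u : ℂ))

theorem md_norm (ν : ℂ) (x u : ℝ) : ‖md_f ν x u‖ = Real.exp (-(x * Real.cosh u) + ν.re * u) := by
  rw [md_f, Complex.norm_exp]
  simp [Complex.mul_re]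

theorem md_cont2 (ν : ℂ) : Continuous (fun z : ℝ × ℝ => md_f ν z.1 z.2) := by
  unfold md_f
  have h1 : Continuous Real.cosh := Real.continuous_cosh
  fun_prop

theorem md_cosh (u : ℝ) : u ^ 2 / 4 ≤ Real.cosh u := by
  rw [← Real.cosh_abs, ← sq_abs]
  have h0 := abs_nonneg u
  generalize |u| = v at *
  rw [Real.cosh_eq]
  have h3 := Real.quadratic_le_exp_of_nonneg h0
  have h4 := Real.exp_pos (-v)
  nlinarith

theorem md_int (ν : ℂ) {x : ℝ} (hx : 0 < x) : Integrable (md_f ν x) := by
  have hc : Continuous (md_f ν x) := (md_cont2 ν).comp (by fun_prop : Continuous fun u : ℝ => (x, u))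
  have hb : (0 : ℝ) < x / 8 := by positivity
  refine Integrable.mono' ((integrable_exp_neg_mul_sq hb).const_mul
    (Real.exp (2 * ν.re ^ 2 / x))) hc.aestronglyMeasurable (Eventually.of_forall fun u => ?_)
  rw [md_norm, ← Real.exp_add]
  apply Real.exp_le_exp.mpr
  have h1 := mul_le_mul_of_nonneg_left (md_cosh u) hx.le
  have h2 : ν.re * u ≤ 2 * ν.re ^ 2 / x + x / 8 * u ^ 2 := by
    have h3 : 0 ≤ (4 * ν.re - x * u) ^ 2 := sq_nonneg _
    have h4 : 2 * ν.re ^ 2 / x + x / 8 * u ^ 2 - ν.re * u = (4 * ν.re - x * u) ^ 2 / (8 * x) := by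
      field_simp
      ring
    have h5 : 0 ≤ (4 * ν.re - x * u) ^ 2 / (8 * x) := by positivity
    linarith
  nlinarith

theorem md_kb (ν : ℂ) {x : ℝ} (hx : 0 < x) : ∫ u, md_f ν x u = 2 * Kb ν x := by
  have hi := md_int ν hx
  have h1 : ∫ u, md_f ν x u = (∫ u in Iic (0 : ℝ), md_f ν x u) + ∫ u in Ioi (0 : ℝ), md_f ν x u := by
    rw [← setIntegral_union (Set.Iic_disjoint_Ioi le_rfl) measurableSet_Ioi hi.integrableOn
      hi.integrableOn, Set.Iic_union_Ioi, setIntegral_univ]
  have h2 : ∫ u in Iic (0 : ℝ), md_f ν x u = ∫ u in Ioi (0 : ℝ), md_f ν x (-u) := by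
    rw [integral_comp_neg_Ioi, neg_zero]
  have h3 : IntegrableOn (fun u => md_f ν x (-u)) (Ioi (0 : ℝ)) := (hi.comp_neg).integrableOn
  rw [h1, h2, ← integral_add h3 hi.integrableOn, Kb, ← integral_const_mul]
  apply setIntegral_congr_fun measurableSet_Ioi
  intro u _
  show md_f ν x (-u) + md_f ν x u = 2 * (cexp (-((x * Real.cosh u : ℝ) : ℂ)) *
    Complex.cosh (ν * (u : ℂ)))
  rw [md_f, md_f, Real.cosh_neg, Complex.exp_add, Complex.exp_add, Complex.cosh]
  push_cast
  ring_nf

/-- the translation of the inner variable -/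
noncomputable def md_c (t X p : ℝ) : ℝ := Real.log ((t + X * Real.exp p) / (t * X))

theorem md_cpos {t X : ℝ} (ht : 0 < t) (hX : 0 < X) (p : ℝ) :
    0 < (t + X * Real.exp p) / (t * X) := by
  have := Real.exp_pos p
  positivity

theorem md_id {t X : ℝ} (ht : 0 < t) (hX : 0 < X) (y p : ℝ) :
    t * Real.cosh (y + md_c t X p) + X * Real.cosh (-(y + md_c t X p) + p) =
      t / 2 * (X / Real.exp y + Real.exp y / X) + X * Real.exp y / (2 * t) +
        Real.exp y * Real.cosh p := by
  have hE := md_cpos ht hX p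
  have hY := Real.exp_pos y
  have hP := Real.exp_pos p
  have e1 : Real.exp (md_c t X p) = (t + X * Real.exp p) / (t * X) := Real.exp_log hE
  rw [Real.cosh_eq, Real.cosh_eq, Real.cosh_eq]
  have e2 : Real.exp (-(-(y + md_c t X p) + p)) = Real.exp y * Real.exp (md_c t X p) /
      Real.exp p := by
    rw [← Real.exp_add, ← Real.exp_sub]
    ring_nf
  have e3 : Real.exp (-(y + md_c t X p) + p) = Real.exp p /
      (Real.exp y * Real.exp (md_c t X p)) := by
    rw [← Real.exp_add, ← Real.exp_sub]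
    ring_nf
  have e4 : Real.exp (-(y + md_c t X p)) = 1 / (Real.exp y * Real.exp (md_c t X p)) := by
    rw [← Real.exp_add, Real.exp_neg, one_div]
  have e5 : Real.exp (y + md_c t X p) = Real.exp y * Real.exp (md_c t X p) := Real.exp_add _ _
  have e6 : Real.exp (-p) = 1 / Real.exp p := by rw [Real.exp_neg, one_div]
  rw [e2, e3, e4, e5, e6, e1]
  have hS : 0 < t + X * Real.exp p := by positivity
  generalize Real.exp y = Y at *
  generalize Real.exp p = P at *
  field_simp
  ring

theorem md_R {t X : ℝ} (ht : 0 < t) (hX : 0 < X) (ν : ℂ) (y p : ℝ) :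
    md_f ν t (y + md_c t X p) * md_f ν X (-(y + md_c t X p) + p) =
      ((Real.exp (-(t / 2 * (X / Real.exp y + Real.exp y / X) + X * Real.exp y / (2 * t))) : ℝ) :
        ℂ) * md_f ν (Real.exp y) p := by
  have h := md_id ht hX y p
  rw [md_f, md_f, md_f, Complex.ofReal_exp, ← Complex.exp_add, ← Complex.exp_add]
  congr 1
  have h2 : ((-(t * Real.cosh (y + md_c t X p)) : ℝ) : ℂ) +
      ((-(X * Real.cosh (-(y + md_c t X p) + p)) : ℝ) : ℂ) =
      ((-(t / 2 * (X / Real.exp y + Real.exp y / X) + X * Real.exp y / (2 * t)) : ℝ) : ℂ) +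
        ((-(Real.exp y * Real.cosh p) : ℝ) : ℂ) := by
    rw [← Complex.ofReal_add, ← Complex.ofReal_add]
    congr 1
    linarith
  have h3 : ν * ((y + md_c t X p : ℝ) : ℂ) + ν * ((-(y + md_c t X p) + p : ℝ) : ℂ) =
      ν * (p : ℂ) := by
    push_cast
    ring
  linear_combination h2 + h3

theorem md_main {t X : ℝ} (ht : 0 < t) (hX : 0 < X) (ν : ℂ) :
    Integrable (fun y : ℝ => ((Real.exp (-(t / 2 * (X / Real.exp y + Real.exp y / X) +
      X * Real.exp y / (2 * t))) : ℝ) : ℂ) * (2 * Kb ν (Real.exp y))) ∧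
    ∫ y : ℝ, ((Real.exp (-(t / 2 * (X / Real.exp y + Real.exp y / X) +
      X * Real.exp y / (2 * t))) : ℝ) : ℂ) * (2 * Kb ν (Real.exp y)) =
      (2 * Kb ν t) * (2 * Kb ν X) := by
  have I1 : Integrable (fun z : ℝ × ℝ => md_f ν t z.1 * md_f ν X z.2)
      ((volume : Measure ℝ).prod volume) := (md_int ν ht).mul_prod (md_int ν hX)
  have I2 : Integrable (fun z : ℝ × ℝ => md_f ν t z.1 * md_f ν X (-z.1 + z.2))
      ((volume : Measure ℝ).prod volume) :=
    (measurePreserving_prod_neg_add (volume : Measure ℝ) (volume : Measure ℝ)).integrable_comp_of_integrable I1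
  have V2 : ∫ z : ℝ × ℝ, md_f ν t z.1 * md_f ν X (-z.1 + z.2) ∂((volume : Measure ℝ).prod volume) =
      (2 * Kb ν t) * (2 * Kb ν X) := by
    rw [integral_prod _ I2]
    have e : ∀ a : ℝ, ∫ p : ℝ, md_f ν t a * md_f ν X (-a + p) = md_f ν t a * (2 * Kb ν X) := by
      intro a
      rw [integral_const_mul, integral_add_left_eq_self (fun b => md_f ν X b) (-a), md_kb ν hX]
    simp only [e]
    rw [integral_mul_const, md_kb ν ht]
  have hcc : Continuous (fun p : ℝ => md_c t X p) := by
    unfold md_c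
    refine Continuous.log (by fun_prop) fun p => (md_cpos ht hX p).ne'
  have hcR : Continuous (fun z : ℝ × ℝ => md_f ν t (z.1 + md_c t X z.2) *
      md_f ν X (-(z.1 + md_c t X z.2) + z.2)) := by
    have h1 : Continuous (fun z : ℝ × ℝ => z.1 + md_c t X z.2) :=
      continuous_fst.add (hcc.comp continuous_snd)
    have h2 : Continuous (fun z : ℝ × ℝ => -(z.1 + md_c t X z.2) + z.2) :=
      h1.neg.add continuous_snd
    exact ((md_cont2 ν).comp (continuous_const.prodMk h1)).mul
      ((md_cont2 ν).comp (continuous_const.prodMk h2))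
  have I3 : Integrable (fun z : ℝ × ℝ => md_f ν t (z.1 + md_c t X z.2) *
      md_f ν X (-(z.1 + md_c t X z.2) + z.2)) ((volume : Measure ℝ).prod volume) := by
    rw [integrable_prod_iff' hcR.aestronglyMeasurable]
    obtain ⟨h1, h2⟩ := (integrable_prod_iff' I2.aestronglyMeasurable).mp I2
    refine ⟨?_, ?_⟩
    · filter_upwards [h1] with p hp
      exact hp.comp_add_right (md_c t X p)
    · refine h2.congr (Eventually.of_forall fun p => ?_)
      exact (integral_add_right_eq_self (fun a => ‖md_f ν t a * md_f ν X (-a + p)‖)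
        (md_c t X p)).symm
  have V3 : ∫ z : ℝ × ℝ, md_f ν t (z.1 + md_c t X z.2) *
      md_f ν X (-(z.1 + md_c t X z.2) + z.2) ∂((volume : Measure ℝ).prod volume) =
      (2 * Kb ν t) * (2 * Kb ν X) := by
    rw [← V2, integral_prod_symm _ I3, integral_prod_symm _ I2]
    refine integral_congr_ae (Eventually.of_forall fun p => ?_)
    exact integral_add_right_eq_self (fun a => md_f ν t a * md_f ν X (-a + p)) (md_c t X p)
  have e4 : ∀ y : ℝ, ∫ p : ℝ, md_f ν t (y + md_c t X p) * md_f ν X (-(y + md_c t X p) + p) =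
      ((Real.exp (-(t / 2 * (X / Real.exp y + Real.exp y / X) +
        X * Real.exp y / (2 * t))) : ℝ) : ℂ) * (2 * Kb ν (Real.exp y)) := by
    intro y
    simp only [md_R ht hX ν y]
    rw [integral_const_mul, md_kb ν (Real.exp_pos y)]
  refine ⟨?_, ?_⟩
  · refine (I3.integral_prod_left).congr (Eventually.of_forall fun y => ?_)
    exact e4 y
  · rw [← V3, integral_prod _ I3]
    exact integral_congr_ae (Eventually.of_forall fun y => (e4 y).symm)

theorem md_image : Real.exp '' univ = Ioi (0 : ℝ) := by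
  rw [Set.image_univ, Real.range_exp]

theorem macdonald (ν : ℂ) {t X : ℝ} (ht : 0 < t) (hX : 0 < X) :
    IntegrableOn (fun x : ℝ => Real.exp (-(t / 2 * (X / x + x / X) + X * x / (2 * t))) *
      ‖Kb ν x‖ / x) (Ioi 0) ∧
    ∫ x in Ioi (0 : ℝ), ((Real.exp (-(t / 2 * (X / x + x / X) + X * x / (2 * t))) : ℝ) : ℂ) *
      Kb ν x / (x : ℂ) = 2 * (Kb ν t * Kb ν X) := by
  obtain ⟨h1, h2⟩ := md_main ht hX ν
  have hd : ∀ x ∈ (univ : Set ℝ), HasDerivWithinAt Real.exp (Real.exp x) univ x := fun x _ =>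
    (Real.hasDerivAt_exp x).hasDerivWithinAt
  have hinj : InjOn Real.exp (univ : Set ℝ) := Real.exp_injective.injOn
  constructor
  · rw [← md_image, integrableOn_image_iff_integrableOn_abs_deriv_smul MeasurableSet.univ hd hinj,
      integrableOn_univ]
    refine (h1.norm.div_const 2).congr (Eventually.of_forall fun y => ?_)
    show ‖((Real.exp (-(t / 2 * (X / Real.exp y + Real.exp y / X) +
      X * Real.exp y / (2 * t))) : ℝ) : ℂ) * (2 * Kb ν (Real.exp y))‖ / 2 = |Real.exp y| •
      (Real.exp (-(t / 2 * (X / Real.exp y + Real.exp y / X) + X * Real.exp y / (2 * t))) *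
        ‖Kb ν (Real.exp y)‖ / Real.exp y)
    rw [norm_mul, norm_mul, Complex.norm_real, Real.norm_eq_abs,
      abs_of_pos (Real.exp_pos (-(t / 2 * (X / Real.exp y + Real.exp y / X) +
        X * Real.exp y / (2 * t)))), Complex.norm_ofNat, abs_of_pos (Real.exp_pos y), smul_eq_mul]
    have := (Real.exp_pos y).ne'
    field_simp
  · have e := integral_image_eq_integral_abs_deriv_smul (s := (univ : Set ℝ)) MeasurableSet.univ
      hd hinj (fun x : ℝ => ((Real.exp (-(t / 2 * (X / x + x / X) + X * x / (2 * t))) : ℝ) : ℂ) *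
      Kb ν x / (x : ℂ))
    rw [md_image, setIntegral_univ] at e
    rw [e]
    have e2 : ∀ y : ℝ, |Real.exp y| • (((Real.exp (-(t / 2 * (X / Real.exp y + Real.exp y / X) +
        X * Real.exp y / (2 * t))) : ℝ) : ℂ) * Kb ν (Real.exp y) / ((Real.exp y : ℝ) : ℂ)) =
        (1 / 2 : ℂ) * (((Real.exp (-(t / 2 * (X / Real.exp y + Real.exp y / X) +
        X * Real.exp y / (2 * t))) : ℝ) : ℂ) * (2 * Kb ν (Real.exp y))) := by
      intro y
      rw [abs_of_pos (Real.exp_pos y), Complex.real_smul]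
      have : ((Real.exp y : ℝ) : ℂ) ≠ 0 := by
        exact_mod_cast (Real.exp_pos y).ne'
      field_simp
    simp only [e2]
    rw [integral_const_mul, h2]
    ring

end Pool.Agent.HI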