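import Pool.Agent.Lib_helper25.HIF.DX
import Pool.Agent.Lib_helper25.HIF.KB
import Pool.Agent.Lib_helper25.HIF.MD

/-!
# Project HI, block GT, first half: the gradient kernel applied to one Whittaker term
-/

namespace Pool.Agent.HI
open Complex MeasureTheory Set Filter Topology
open scoped ENNReal
open Pool.Agent.HB (H3 mu Kb Adm)

theorem ga_normSq (v : ℂ) : normSq v = ‖v‖ ^ 2 := Complex.normSq_eq_norm_sq v

/-- the Gaussian integral over the plane -/
theorem gta_gt_gauss {a : ℝ} (ha : 0 < a) (z : ℂ) :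
    ∫⁻ w : ℂ, ENNReal.ofReal (Real.exp (-(a * normSq (z - w)))) = ENNReal.ofReal (Real.pi / a) := by
  have h1 : ∫ w : ℂ, Real.exp (-a * ‖w‖ ^ 2) = Real.pi / a := by
    rw [GaussianFourier.integral_rexp_neg_mul_sq_norm ha, Complex.finrank_real_complex]
    norm_num
  have h2 : Integrable (fun w : ℂ => Real.exp (-a * ‖w‖ ^ 2)) := by
    by_contra h
    rw [integral_undef h] at h1
    have := Real.pi_pos
    have h3 : 0 < Real.pi / a := by positivity
    linarith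
  have h3 : ∀ w : ℂ, Real.exp (-(a * normSq (z - w))) = Real.exp (-a * ‖w - z‖ ^ 2) := by
    intro w
    rw [← Complex.sq_norm, norm_sub_rev, neg_mul]
  simp only [h3]
  rw [lintegral_sub_right_eq_self (fun w : ℂ => ENNReal.ofReal (Real.exp (-a * ‖w‖ ^ 2))) z,
    ← ofReal_integral_eq_lintegral_ofReal h2 (Eventually.of_forall fun w => (Real.exp_pos _).le), h1]

/-- the integral over the height -/
theorem gta_gt_one {b : ℝ} (hb : 0 < b) :
    ∫⁻ y in Ioi (0 : ℝ), ENNReal.ofReal (Real.exp (-(b / y)) / y ^ 2) = ENNReal.ofReal (1 / b) := by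
  have h1 := integral_comp_rpow_Ioi (fun w : ℝ => Real.exp (-b * w)) (p := -1) (by norm_num)
  rw [integral_exp_mul_Ioi (by linarith) 0] at h1
  have h2 : ∫ y in Ioi (0 : ℝ), Real.exp (-(b / y)) / y ^ 2 = 1 / b := by
    have e : -Real.exp (-b * 0) / -b = 1 / b := by
      rw [mul_zero, Real.exp_zero, neg_div_neg_eq]
    rw [← e, ← h1]
    refine setIntegral_congr_fun measurableSet_Ioi fun y hy => ?_
    have hy0 : (0 : ℝ) < y := hy
    simp only [smul_eq_mul]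
    rw [abs_neg, abs_one, one_mul, show (-1 - 1 : ℝ) = -(2 : ℕ) by norm_num,
      Real.rpow_neg hy0.le, Real.rpow_natCast, Real.rpow_neg_one]
    rw [show -b * y⁻¹ = -(b / y) by ring]
    field_simp
  have h3 : IntegrableOn (fun y : ℝ => Real.exp (-(b / y)) / y ^ 2) (Ioi 0) := by
    by_contra h
    rw [integral_undef h] at h2
    have h3 : 0 < 1 / b := by positivity
    linarith
  rw [← h2, ofReal_integral_eq_lintegral_ofReal h3]
  exact Eventually.of_forall fun y => by positivity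

/-- powers against exponentials -/
theorem gta_gt_pow {t : ℝ} (ht : 0 < t) (k : ℕ) : ∃ C : ℝ, 0 ≤ C ∧ ∀ u : ℝ, 0 ≤ u →
    u ^ k * Real.exp (-(t * u)) ≤ C * Real.exp (-(t / 2 * u)) := by
  refine ⟨(k.factorial : ℝ) / (t / 2) ^ k, by positivity, fun u hu => ?_⟩
  have h1 : (t / 2 * u) ^ k / (k.factorial : ℝ) ≤ Real.exp (t / 2 * u) :=
    Real.pow_div_factorial_le_exp _ (by positivity) k
  have h2 : u ^ k ≤ (k.factorial : ℝ) / (t / 2) ^ k * Real.exp (t / 2 * u) := by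
    rw [mul_pow, div_le_iff₀ (by positivity)] at h1
    rw [div_mul_eq_mul_div, le_div_iff₀ (by positivity)]
    linarith
  calc u ^ k * Real.exp (-(t * u)) ≤
      ((k.factorial : ℝ) / (t / 2) ^ k * Real.exp (t / 2 * u)) * Real.exp (-(t * u)) :=
        mul_le_mul_of_nonneg_right h2 (Real.exp_pos _).le
    _ = _ := by
        rw [mul_assoc, ← Real.exp_add]
        congr 2
        ring
/-- the Gaussian integral -/
theorem ga_fgauss {u : ℝ} (hu : 0 < u) (x : ℝ) {ω : ℂ} (hω : ‖ω‖ = 1) :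
    ∫ v : ℂ, ((Real.exp (-(u * normSq v)) : ℝ) : ℂ) * cexp (I * ((x * (ω * v).re : ℝ) : ℂ)) =
      ((Real.pi / u * Real.exp (-(x ^ 2 / (4 * u))) : ℝ) : ℂ) := by
  have h := GaussianFourier.integral_cexp_neg_mul_sq_norm_add (V := ℂ) (b := (u : ℂ))
    (by simpa using hu) (I * x) ((starRingEnd ℂ) ω)
  have hn : ‖(starRingEnd ℂ) ω‖ = 1 := by simpa using hω
  rw [hn, Complex.finrank_real_complex] at h
  have h2 : ((2 : ℕ) : ℂ) / 2 = 1 := by norm_num
  rw [h2, Complex.cpow_one] at h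
  have h3 : ∀ v : ℂ, ((Real.exp (-(u * normSq v)) : ℝ) : ℂ) *
      cexp (I * ((x * (ω * v).re : ℝ) : ℂ)) =
      cexp (-(u : ℂ) * (‖v‖ : ℂ) ^ 2 + I * x * ((inner ℝ ((starRingEnd ℂ) ω) v : ℝ) : ℂ)) := by
    intro v
    rw [Complex.exp_add, Complex.inner, Complex.conj_conj, ga_normSq]
    congr 1
    · push_cast
      ring_nf
    · push_cast
      ring_nf
  simp only [h3]
  rw [h]
  push_cast
  congr 2
  rw [mul_pow, Complex.I_sq]
  ring

/-- the Gaussian with a phase -/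
noncomputable def gta_fwE (u x : ℝ) (ω v : ℂ) : ℂ :=
  ((Real.exp (-(u * normSq v)) : ℝ) : ℂ) * cexp (I * ((x * (ω * v).re : ℝ) : ℂ))

theorem gta_fwE_eq (u x : ℝ) (ω v : ℂ) :
    gta_fwE u x ω v = cexp (-(u * normSq v : ℝ) + I * ((x * (ω * v).re : ℝ) : ℂ)) := by
  unfold gta_fwE
  rw [Complex.exp_add, Complex.ofReal_exp, Complex.ofReal_neg]

theorem gta_fwE_cont (u x : ℝ) (ω : ℂ) : Continuous (gta_fwE u x ω) := by
  unfold gta_fwE
  have : Continuous normSq := Complex.continuous_normSq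
  fun_prop

theorem gta_fwE_norm (u x : ℝ) (ω v : ℂ) : ‖gta_fwE u x ω v‖ = Real.exp (-(u * ‖v‖ ^ 2)) := by
  unfold gta_fwE
  rw [norm_mul, Complex.norm_real, Real.norm_eq_abs, Real.abs_exp, mul_comm I,
    Complex.norm_exp_ofReal_mul_I, mul_one, ga_normSq]

theorem gta_fw_gi {u : ℝ} (hu : 0 < u) : Integrable (fun v : ℂ => Real.exp (-(u * ‖v‖ ^ 2))) := by
  have h := (GaussianFourier.integrable_cexp_neg_mul_sq_norm_add (V := ℂ) (b := (u : ℂ))
    (by simpa using hu) 0 0).norm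
  refine h.congr (Eventually.of_forall fun v => ?_)
  simp only
  rw [Complex.norm_exp]
  congr 1
  simp only [zero_mul, add_zero]
  rw [show -(u : ℂ) * (‖v‖ : ℂ) ^ 2 = ((-(u * ‖v‖ ^ 2) : ℝ) : ℂ) by push_cast; ring,
    Complex.ofReal_re]

theorem gta_fwE_int {u : ℝ} (hu : 0 < u) (x : ℝ) (ω : ℂ) : Integrable (gta_fwE u x ω) := by
  refine (gta_fw_gi hu).mono' (gta_fwE_cont u x ω).aestronglyMeasurable
    (Eventually.of_forall fun v => ?_)
  exact (gta_fwE_norm u x ω v).le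

theorem gta_fw_le {u : ℝ} (hu : 0 < u) (r : ℝ) :
    r * Real.exp (-(u * r ^ 2)) ≤ (1 + 1 / u) * Real.exp (-(u / 2 * r ^ 2)) := by
  have h1 : Real.exp (-(u * r ^ 2)) = Real.exp (-(u / 2 * r ^ 2)) * Real.exp (-(u / 2 * r ^ 2)) := by
    rw [← Real.exp_add]
    congr 1
    ring
  have h2 : r * Real.exp (-(u / 2 * r ^ 2)) ≤ 1 + 1 / u := by
    have h3 : u / 2 * r ^ 2 + 1 ≤ Real.exp (u / 2 * r ^ 2) := Real.add_one_le_exp _
    rw [Real.exp_neg, ← div_eq_mul_inv, div_le_iff₀ (Real.exp_pos _)]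
    have h4 : r ≤ (1 + 1 / u) * (u / 2 * r ^ 2 + 1) := by
      have h5 : (1 + 1 / u) * (u / 2 * r ^ 2 + 1) = u / 2 * r ^ 2 + 1 + r ^ 2 / 2 + 1 / u := by
        field_simp
        ring
      rw [h5]
      have : 0 < 1 / u := by positivity
      nlinarith [sq_nonneg (r - 1), mul_nonneg hu.le (sq_nonneg r)]
    exact h4.trans (mul_le_mul_of_nonneg_left h3 (by positivity))
  rw [h1, ← mul_assoc]
  exact mul_le_mul_of_nonneg_right h2 (Real.exp_pos _).le

theorem gta_fwE_int1 {u : ℝ} (hu : 0 < u) (x : ℝ) (ω : ℂ) :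
    Integrable (fun v : ℂ => v * gta_fwE u x ω v) := by
  have hu2 : 0 < u / 2 := by positivity
  refine ((gta_fw_gi hu2).const_mul (1 + 1 / u)).mono'
    (continuous_id.mul (gta_fwE_cont u x ω)).aestronglyMeasurable (Eventually.of_forall fun v => ?_)
  rw [norm_mul, gta_fwE_norm]
  exact gta_fw_le hu _

theorem gta_fwE_int_re {u : ℝ} (hu : 0 < u) (x : ℝ) (ω : ℂ) (e : ℂ) :
    Integrable (fun v : ℂ => (((v * (starRingEnd ℂ) e).re : ℝ) : ℂ) * gta_fwE u x ω v) := by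
  refine ((gta_fwE_int1 hu x ω).norm.const_mul ‖e‖).mono' ?_ (Eventually.of_forall fun v => ?_)
  · have := gta_fwE_cont u x ω
    exact Continuous.aestronglyMeasurable (by fun_prop)
  · rw [norm_mul, norm_mul, Complex.norm_real, Real.norm_eq_abs, ← mul_assoc]
    refine mul_le_mul_of_nonneg_right ?_ (norm_nonneg _)
    refine (Complex.abs_re_le_norm _).trans ?_
    rw [norm_mul, RCLike.norm_conj, mul_comm]

theorem gta_fwE_line (u x : ℝ) (ω v e : ℂ) :
    HasLineDerivAt ℝ (gta_fwE u x ω) ((-(2 * u : ℝ) * (((v * (starRingEnd ℂ) e).re : ℝ) : ℂ) +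
      I * ((x * (ω * e).re : ℝ) : ℂ)) * gta_fwE u x ω v) v e := by
  have h1 : ∀ t : ℝ, gta_fwE u x ω (v + t • e) =
      cexp ((-(u * normSq v : ℝ) + I * ((x * (ω * v).re : ℝ) : ℂ)) +
        (t : ℂ) * (-(2 * u : ℝ) * (((v * (starRingEnd ℂ) e).re : ℝ) : ℂ) +
          I * ((x * (ω * e).re : ℝ) : ℂ)) + (t : ℂ) ^ 2 * (-(u * normSq e : ℝ))) := by
    intro t
    rw [gta_fwE_eq]
    congr 1
    have h2 : normSq (v + t • e) = normSq v + 2 * t * (v * (starRingEnd ℂ) e).re +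
        t ^ 2 * normSq e := by
      simp only [normSq_apply, Complex.add_re, Complex.add_im, Complex.real_smul, Complex.mul_re,
        Complex.mul_im, Complex.ofReal_re, Complex.ofReal_im, Complex.conj_re, Complex.conj_im]
      ring
    have h3 : (ω * (v + t • e)).re = (ω * v).re + t * (ω * e).re := by
      simp only [Complex.add_re, Complex.add_im, Complex.real_smul, Complex.mul_re,
        Complex.mul_im, Complex.ofReal_re, Complex.ofReal_im]
      ring
    rw [h2, h3]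
    push_cast
    ring
  have h0 : gta_fwE u x ω v = cexp ((-(u * normSq v : ℝ) + I * ((x * (ω * v).re : ℝ) : ℂ))) :=
    gta_fwE_eq u x ω v
  unfold HasLineDerivAt
  simp only [h1]
  set A : ℂ := (-(u * normSq v : ℝ) + I * ((x * (ω * v).re : ℝ) : ℂ))
  set B : ℂ := (-(2 * u : ℝ) * (((v * (starRingEnd ℂ) e).re : ℝ) : ℂ) +
          I * ((x * (ω * e).re : ℝ) : ℂ))
  set C : ℂ := (-(u * normSq e : ℝ) : ℂ)
  have hd : HasDerivAt (fun t : ℂ => cexp (A + t * B + t ^ 2 * C))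
      (cexp (A + ((0 : ℝ) : ℂ) * B + ((0 : ℝ) : ℂ) ^ 2 * C) * (1 * B + 2 * ((0 : ℝ) : ℂ) * C))
      (((0 : ℝ) : ℂ)) := by
    refine HasDerivAt.cexp ?_
    refine HasDerivAt.add ?_ ?_
    · exact ((hasDerivAt_id _).mul_const B).const_add A
    · have := (hasDerivAt_pow 2 (((0 : ℝ) : ℂ))).mul_const C
      simpa using this
  have hd2 := hd.comp_ofReal
  have hv : cexp (A + ((0 : ℝ) : ℂ) * B + ((0 : ℝ) : ℂ) ^ 2 * C) *
      (1 * B + 2 * ((0 : ℝ) : ℂ) * C) = B * gta_fwE u x ω v := by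
    rw [h0]
    simp only [Complex.ofReal_zero, zero_mul, add_zero, mul_zero]
    ring_nf
  rw [hv] at hd2
  exact hd2

theorem gta_fw_dir {u : ℝ} (hu : 0 < u) (x : ℝ) (ω e : ℂ) :
    ∫ v : ℂ, (((v * (starRingEnd ℂ) e).re : ℝ) : ℂ) * gta_fwE u x ω v =
      I * ((x * (ω * e).re : ℝ) : ℂ) / (2 * u) * ∫ v : ℂ, gta_fwE u x ω v := by
  have hi := gta_fwE_int_re hu x ω e
  have hi0 := gta_fwE_int hu x ω
  have hI : Integrable (fun v : ℂ => (-(2 * u : ℝ) * (((v * (starRingEnd ℂ) e).re : ℝ) : ℂ) +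
      I * ((x * (ω * e).re : ℝ) : ℂ)) * gta_fwE u x ω v) := by
    refine ((hi.const_mul (-(2 * u : ℝ) : ℂ)).add
      (hi0.const_mul (I * ((x * (ω * e).re : ℝ) : ℂ)))).congr (Eventually.of_forall fun v => ?_)
    simp only [Pi.add_apply]
    ring
  have h := integral_bilinear_hasLineDerivAt_right_eq_neg_left_of_integrable (μ := volume)
    (f := fun _ : ℂ => (1 : ℂ)) (f' := fun _ : ℂ => (0 : ℂ)) (g := gta_fwE u x ω)
    (g' := fun v => (-(2 * u : ℝ) * (((v * (starRingEnd ℂ) e).re : ℝ) : ℂ) +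
      I * ((x * (ω * e).re : ℝ) : ℂ)) * gta_fwE u x ω v) (v := e)
    (B := ContinuousLinearMap.mul ℝ ℂ) (by simp) (by simpa using hI) (by simpa using hi0)
    (fun v _ => by
      unfold HasLineDerivAt
      exact hasDerivAt_const _ _)
    (fun v _ => gta_fwE_line u x ω v e)
  simp only [ContinuousLinearMap.mul_apply', one_mul, zero_mul, integral_zero, neg_zero] at h
  have h2 : ∫ v : ℂ, (-(2 * u : ℝ) * (((v * (starRingEnd ℂ) e).re : ℝ) : ℂ) +
      I * ((x * (ω * e).re : ℝ) : ℂ)) * gta_fwE u x ω v =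
      (-(2 * u : ℝ) : ℂ) * (∫ v : ℂ, (((v * (starRingEnd ℂ) e).re : ℝ) : ℂ) * gta_fwE u x ω v) +
      I * ((x * (ω * e).re : ℝ) : ℂ) * ∫ v : ℂ, gta_fwE u x ω v := by
    rw [← integral_const_mul, ← integral_const_mul, ← integral_add
      (hi.const_mul (-(2 * u : ℝ) : ℂ)) (hi0.const_mul (I * ((x * (ω * e).re : ℝ) : ℂ)))]
    refine integral_congr_ae (Eventually.of_forall fun v => ?_)
    simp only
    ring
  rw [h2] at h
  have hu0 : (u : ℂ) ≠ 0 := by exact_mod_cast hu.ne'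
  have h3 : (2 * (u : ℂ)) * (∫ v : ℂ, (((v * (starRingEnd ℂ) e).re : ℝ) : ℂ) * gta_fwE u x ω v) =
      I * ((x * (ω * e).re : ℝ) : ℂ) * ∫ v : ℂ, gta_fwE u x ω v := by
    push_cast at h ⊢
    linear_combination -h
  rw [div_mul_eq_mul_div, eq_div_iff (by simpa using hu0), ← h3]
  ring


/-- the Gaussian integral of the conjugate -/
theorem ga_conj {u : ℝ} (hu : 0 < u) (x : ℝ) {ω : ℂ} (hω : ‖ω‖ = 1) :
    ∫ v : ℂ, (starRingEnd ℂ) v * gta_fwE u x ω v = I * ω * (x / (2 * u)) *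
      ((Real.pi / u * Real.exp (-(x ^ 2 / (4 * u))) : ℝ) : ℂ) := by
  have h1 := gta_fw_dir hu x ω 1
  have h2 := gta_fw_dir hu x ω I
  have h0 : ∫ v : ℂ, gta_fwE u x ω v = ((Real.pi / u * Real.exp (-(x ^ 2 / (4 * u))) : ℝ) : ℂ) :=
    ga_fgauss hu x hω
  have h3 : ∫ v : ℂ, (starRingEnd ℂ) v * gta_fwE u x ω v =
      (∫ v : ℂ, (((v * (starRingEnd ℂ) 1).re : ℝ) : ℂ) * gta_fwE u x ω v) +
      (-I) * ∫ v : ℂ, (((v * (starRingEnd ℂ) I).re : ℝ) : ℂ) * gta_fwE u x ω v := by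
    rw [← integral_const_mul, ← integral_add (gta_fwE_int_re hu x ω 1)
      ((gta_fwE_int_re hu x ω I).const_mul (-I))]
    refine integral_congr_ae (Eventually.of_forall fun v => ?_)
    simp only [map_one, mul_one, Complex.conj_I]
    have : (starRingEnd ℂ) v = (v.re : ℂ) + (-I) * (((v * -I).re : ℝ) : ℂ) := by
      apply Complex.ext <;> simp
    rw [this]
    ring
  rw [h3, h1, h2, h0]
  have h4 : ω = (((ω * 1).re : ℝ) : ℂ) + (-I) * (((ω * I).re : ℝ) : ℂ) := by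
    apply Complex.ext <;> simp
  nth_rewrite 3 [h4]
  push_cast
  ring

theorem ga_ud_meas (p : ℂ × ℝ) : Measurable (fun q : ℂ × ℝ => ud p q) := by
  unfold ud
  refine Measurable.div ?_ (by fun_prop)
  refine ((Measurable.add ?_ (by fun_prop)).add (by fun_prop))
  exact Complex.continuous_normSq.measurable.comp (by fun_prop)

theorem ga_gk_meas (t : ℝ) (p : ℂ × ℝ) : Measurable (fun q : ℂ × ℝ => gk t p q) := by
  unfold gk
  refine Measurable.mul ?_ ?_
  · refine Measurable.div ?_ ?_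
    · exact (Complex.continuous_conj.measurable).comp (by fun_prop)
    · exact measurable_const.mul (Complex.measurable_ofReal.comp measurable_snd)
  · refine Complex.measurable_ofReal.comp (Measurable.div ?_ (by fun_prop))
    exact Real.measurable_exp.comp ((ga_ud_meas p).const_mul t).neg

/-- pointwise bound of the kernel -/
theorem ga_gk_le {t : ℝ} (ht : 0 < t) : ∃ C : ℝ, 0 ≤ C ∧ ∀ p q : ℂ × ℝ, 0 < p.2 → 0 < q.2 →
    ‖gk t p q‖ ≤ C * (Real.exp (-(t / (4 * p.2) / q.2 * normSq (p.1 - q.1))) *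
      (Real.exp (-(t * p.2 / 4 / q.2)) / q.2 ^ 3)) := by
  obtain ⟨C1, hC1, hp1⟩ := gta_gt_pow ht 1
  refine ⟨C1, hC1, fun p q hp hq => ?_⟩
  have hu0 : 0 ≤ ud p q := by
    unfold ud
    have := normSq_nonneg (p.1 - q.1)
    positivity
  have h1 : ‖p.1 - q.1‖ / (2 * q.2) ≤ ud p q := by
    unfold ud
    rw [← Complex.sq_norm, div_le_div_iff₀ (by positivity) (by positivity)]
    have h0 := norm_nonneg (p.1 - q.1)
    nlinarith [sq_nonneg (‖p.1 - q.1‖ - p.2), sq_nonneg q.2, mul_pos hp hq,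
      mul_nonneg h0 (mul_pos hp hq).le, mul_nonneg (sq_nonneg (‖p.1 - q.1‖ - p.2)) hq.le,
      mul_nonneg (sq_nonneg q.2) hq.le]
  have h2 : ‖gk t p q‖ = ‖p.1 - q.1‖ / (2 * q.2) * (Real.exp (-(t * ud p q)) / q.2 ^ 3) := by
    unfold gk
    rw [norm_mul, norm_div, Complex.norm_conj, norm_mul, Complex.norm_real, Complex.norm_real,
      Real.norm_of_nonneg hq.le, Real.norm_of_nonneg (by positivity)]
    norm_num
  have h3 := hp1 (ud p q) hu0
  have h4 : Real.exp (-(t / 2 * ud p q)) ≤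
      Real.exp (-(t / (4 * p.2) / q.2 * normSq (p.1 - q.1))) *
        Real.exp (-(t * p.2 / 4 / q.2)) := by
    rw [← Real.exp_add]
    apply Real.exp_le_exp.2
    unfold ud
    have h5 : t / 2 * ((normSq (p.1 - q.1) + p.2 ^ 2 + q.2 ^ 2) / (2 * p.2 * q.2)) =
        t / (4 * p.2) / q.2 * normSq (p.1 - q.1) + t * p.2 / 4 / q.2 + t * q.2 / (4 * p.2) := by
      field_simp
      ring
    rw [h5]
    have h6 : 0 ≤ t * q.2 / (4 * p.2) := by positivity
    linarith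
  have h7 : 0 ≤ Real.exp (-(t * ud p q)) / q.2 ^ 3 := by positivity
  rw [h2]
  calc ‖p.1 - q.1‖ / (2 * q.2) * (Real.exp (-(t * ud p q)) / q.2 ^ 3)
      ≤ ud p q * (Real.exp (-(t * ud p q)) / q.2 ^ 3) := mul_le_mul_of_nonneg_right h1 h7
    _ = (ud p q ^ 1 * Real.exp (-(t * ud p q))) / q.2 ^ 3 := by ring
    _ ≤ (C1 * (Real.exp (-(t / (4 * p.2) / q.2 * normSq (p.1 - q.1))) *
          Real.exp (-(t * p.2 / 4 / q.2)))) / q.2 ^ 3 := by
        refine div_le_div_of_nonneg_right (h3.trans (mul_le_mul_of_nonneg_left h4 hC1))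
          (by positivity)
    _ = _ := by ring

/-- the bound of `wk 1 ν w` near `0`, for every `ν` -/
theorem ga_wk_le (ν : ℂ) {w : ℂ} (hw : w ≠ 0) : ∃ (C : ℝ) (k : ℕ), 0 ≤ C ∧ ∀ y : ℝ, 0 < y →
    ‖wk 1 ν w y‖ ≤ C * (1 / y) ^ k := by
  obtain ⟨r, hr⟩ := exists_nat_ge |ν.re|
  have hr1 : 1 ≤ r + 1 := by omega
  obtain ⟨C, hC, hb⟩ := kb_pow_bd (r := r + 1) hr1 (μ := ν) (by push_cast; linarith)
  have hw0 : 0 < ‖w‖ := norm_pos_iff.mpr hw
  have hpi := Real.pi_pos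
  refine ⟨‖w‖ * (C / (4 * Real.pi * ‖w‖) ^ (r + 1)), r, by positivity, fun y hy => ?_⟩
  have hx : 0 < 4 * Real.pi * (‖w‖ * y) := by positivity
  have h1 := hb _ hx
  have h2 : Real.exp (-(4 * Real.pi * (‖w‖ * y) / 2)) ≤ 1 := by
    rw [Real.exp_le_one_iff]
    have := div_pos hx two_pos
    linarith
  have h3 : (4 * Real.pi * (‖w‖ * y)) ^ (r + 1) * ‖Kb ν (4 * Real.pi * (‖w‖ * y))‖ ≤ C :=
    h1.trans (mul_le_of_le_one_right hC h2)
  have h4 : ‖Kb ν (4 * Real.pi * (‖w‖ * y))‖ ≤ C / (4 * Real.pi * (‖w‖ * y)) ^ (r + 1) := by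
    rw [le_div_iff₀ (by positivity)]
    linarith
  unfold wk
  rw [norm_mul, Complex.norm_real, Real.norm_eq_abs, abs_of_nonneg (by positivity), pow_one]
  refine (mul_le_mul_of_nonneg_left h4 (by positivity)).trans (le_of_eq ?_)
  have h5 : 4 * Real.pi * (‖w‖ * y) = (4 * Real.pi * ‖w‖) * y := by ring
  rw [h5, mul_pow, one_div, inv_pow, pow_succ y r]
  field_simp

/-- the integrand -/
noncomputable def gaF (ν : ℂ) (t : ℝ) (w : ℂ) (p q : ℂ × ℝ) : ℂ :=
  gk t p q * (wk 1 ν w q.2 * e2 (w * q.1))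

theorem ga_e2_norm (z : ℂ) : ‖e2 z‖ = 1 := by
  unfold e2
  rw [Complex.norm_exp]
  have : (2 * Real.pi * I * ((2 * z.re : ℝ) : ℂ)).re = 0 := by
    simp [Complex.mul_re]
  rw [this, Real.exp_zero]

theorem ga_int (ν : ℂ) {t : ℝ} (ht : 0 < t) {w : ℂ} (hw : w ≠ 0) {p : ℂ × ℝ} (hp : 0 < p.2) :
    Integrable (gaF ν t w p)
      ((volume : Measure ℂ).prod (volume.restrict (Ioi (0 : ℝ)))) := by
  obtain ⟨C1, hC1, h1⟩ := ga_gk_le ht
  obtain ⟨C2, k, hC2, h2⟩ := ga_wk_le ν hw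
  set a : ℝ := t / (4 * p.2) with ha
  set b : ℝ := t * p.2 / 4 with hb
  have ha0 : 0 < a := by positivity
  have hb0 : 0 < b := by positivity
  obtain ⟨C3, hC3, h3⟩ := gta_gt_pow hb0 k
  have hb2 : 0 < b / 2 := by positivity
  have hpi := Real.pi_pos
  -- the dominating function
  have hGm : Measurable (fun q : ℂ × ℝ => C1 * C2 * C3 *
      (Real.exp (-(a / q.2 * normSq (p.1 - q.1))) * (Real.exp (-(b / 2 / q.2)) / q.2 ^ 3))) := by
    refine Measurable.const_mul (Measurable.mul ?_ (Measurable.div ?_ (by fun_prop))) _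
    · refine Real.measurable_exp.comp (Measurable.neg ?_)
      refine (measurable_const.div measurable_snd).mul ?_
      exact Complex.continuous_normSq.measurable.comp (by fun_prop)
    · exact Real.measurable_exp.comp (measurable_const.div measurable_snd).neg
  have hGi : Integrable (fun q : ℂ × ℝ => C1 * C2 * C3 *
      (Real.exp (-(a / q.2 * normSq (p.1 - q.1))) * (Real.exp (-(b / 2 / q.2)) / q.2 ^ 3)))
      ((volume : Measure ℂ).prod (volume.restrict (Ioi (0 : ℝ)))) := by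
    refine ⟨hGm.aestronglyMeasurable, ?_⟩
    rw [hasFiniteIntegral_iff_enorm, lintegral_prod_symm _ hGm.enorm.aemeasurable]
    have h4 : ∀ y ∈ Ioi (0 : ℝ), ∫⁻ z : ℂ, ‖C1 * C2 * C3 *
        (Real.exp (-(a / y * normSq (p.1 - z))) * (Real.exp (-(b / 2 / y)) / y ^ 3))‖ₑ ≤
        ENNReal.ofReal (C1 * C2 * C3 * (Real.pi / a)) *
          ENNReal.ofReal (Real.exp (-(b / 2 / y)) / y ^ 2) := by
      intro y hy
      have hy0 : (0 : ℝ) < y := hy
      have hay : 0 < a / y := by positivity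
      calc ∫⁻ z : ℂ, ‖C1 * C2 * C3 *
          (Real.exp (-(a / y * normSq (p.1 - z))) * (Real.exp (-(b / 2 / y)) / y ^ 3))‖ₑ
          = ∫⁻ z : ℂ, ENNReal.ofReal (C1 * C2 * C3 * (Real.exp (-(b / 2 / y)) / y ^ 3)) *
              ENNReal.ofReal (Real.exp (-(a / y * normSq (p.1 - z)))) := by
            refine lintegral_congr fun z => ?_
            rw [Real.enorm_of_nonneg (by positivity), ← ENNReal.ofReal_mul (by positivity)]
            congr 1
            ring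
        _ = ENNReal.ofReal (C1 * C2 * C3 * (Real.exp (-(b / 2 / y)) / y ^ 3)) *
              ENNReal.ofReal (Real.pi / (a / y)) := by
            rw [lintegral_const_mul, gta_gt_gauss hay]
            refine Measurable.ennreal_ofReal (Real.measurable_exp.comp (Measurable.neg ?_))
            exact measurable_const.mul (Complex.continuous_normSq.measurable.comp (by fun_prop))
        _ ≤ _ := by
            rw [← ENNReal.ofReal_mul (by positivity), ← ENNReal.ofReal_mul (by positivity)]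
            refine le_of_eq (congrArg _ ?_)
            field_simp
    refine lt_of_le_of_lt (setLIntegral_mono' measurableSet_Ioi h4) ?_
    rw [lintegral_const_mul _ (by
      refine Measurable.ennreal_ofReal (Measurable.div (Real.measurable_exp.comp ?_) (by fun_prop))
      exact (measurable_const.div measurable_id).neg), gta_gt_one hb2,
      ← ENNReal.ofReal_mul (by positivity)]
    exact ENNReal.ofReal_lt_top
  have hwm : AEStronglyMeasurable (fun q : ℂ × ℝ => wk 1 ν w q.2)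
      ((volume : Measure ℂ).prod (volume.restrict (Ioi (0 : ℝ)))) :=
    ((wk_cont 1 ν hw).aestronglyMeasurable measurableSet_Ioi).comp_snd
  have hem : Continuous (fun q : ℂ × ℝ => e2 (w * q.1)) := by
    unfold e2
    fun_prop
  refine hGi.mono' ((ga_gk_meas t p).aestronglyMeasurable.mul
    (hwm.mul hem.aestronglyMeasurable)) ?_
  have hae : ∀ᵐ q : ℂ × ℝ ∂((volume : Measure ℂ).prod (volume.restrict (Ioi (0 : ℝ)))),
      0 < q.2 := by
    have h5 : ∀ᵐ y : ℝ ∂(volume.restrict (Ioi (0 : ℝ))), 0 < y :=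
      ae_restrict_mem measurableSet_Ioi
    exact Measure.quasiMeasurePreserving_snd.ae h5
  filter_upwards [hae] with q hq
  have h5 := h1 p q hp hq
  have h6 := h2 q.2 hq
  have h7 := h3 (1 / q.2) (by positivity)
  show ‖gk t p q * (wk 1 ν w q.2 * e2 (w * q.1))‖ ≤ _
  rw [norm_mul, norm_mul, ga_e2_norm, mul_one]
  have h8 : -(b * (1 / q.2)) = -(b / q.2) := by ring
  have h9 : -(b / 2 * (1 / q.2)) = -(b / 2 / q.2) := by ring
  rw [h8, h9] at h7
  calc ‖gk t p q‖ * ‖wk 1 ν w q.2‖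
      ≤ (C1 * (Real.exp (-(a / q.2 * normSq (p.1 - q.1))) *
          (Real.exp (-(b / q.2)) / q.2 ^ 3))) * (C2 * (1 / q.2) ^ k) :=
        mul_le_mul h5 h6 (norm_nonneg _) (by positivity)
    _ = C1 * C2 * (Real.exp (-(a / q.2 * normSq (p.1 - q.1))) / q.2 ^ 3) *
          ((1 / q.2) ^ k * Real.exp (-(b / q.2))) := by ring
    _ ≤ C1 * C2 * (Real.exp (-(a / q.2 * normSq (p.1 - q.1))) / q.2 ^ 3) *
          (C3 * Real.exp (-(b / 2 / q.2))) :=
        mul_le_mul_of_nonneg_left h7 (by positivity)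
    _ = _ := by ring

/-- the integral over `z` -/
theorem ga_inner (ν : ℂ) {t : ℝ} (ht : 0 < t) {w : ℂ} (hw : w ≠ 0) {p : ℂ × ℝ} (hp : 0 < p.2)
    {y : ℝ} (hy : 0 < y) :
    ∫ z : ℂ, gaF ν t w p (z, y) =
      -(4 * Real.pi ^ 2 * I * w * ‖w‖ * p.2 ^ 2 / t ^ 2) * e2 (w * p.1) *
        ((Real.exp (-(t / 2 * (p.2 / y + y / p.2) + 8 * Real.pi ^ 2 * ‖w‖ ^ 2 * p.2 * y / t)) :
          ℝ) * Kb ν (4 * Real.pi * (‖w‖ * y)) / (y : ℂ)) := by
  have hw0 : 0 < ‖w‖ := norm_pos_iff.mpr hw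
  have hpi := Real.pi_pos
  set u : ℝ := t / (2 * p.2 * y) with hu
  have hu0 : 0 < u := by positivity
  set x : ℝ := 4 * Real.pi * ‖w‖ with hx
  have hω : ‖dir w‖ = 1 := by
    unfold dir
    rw [norm_div, Complex.norm_real, norm_norm, div_self hw0.ne']
  have hdw : (‖w‖ : ℂ) * dir w = w := by
    unfold dir
    have : (‖w‖ : ℂ) ≠ 0 := by exact_mod_cast hw0.ne'
    field_simp
  have h1 : ∫ z : ℂ, gaF ν t w p (z, y) = ∫ v : ℂ, gaF ν t w p (v + p.1, y) :=
    (integral_add_right_eq_self (fun z => gaF ν t w p (z, y)) p.1).symm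
  have h2 : ∀ v : ℂ, gaF ν t w p (v + p.1, y) =
      (-(1 / (2 * (y : ℂ))) * ((Real.exp (-(t / 2 * (p.2 / y + y / p.2))) / y ^ 3 : ℝ) : ℂ) *
        wk 1 ν w y * e2 (w * p.1)) * ((starRingEnd ℂ) v * gta_fwE u x (dir w) v) := by
    intro v
    unfold gaF gk gta_fwE
    simp only
    have e1 : p.1 - (v + p.1) = -v := by ring
    have e3 : e2 (w * (v + p.1)) = e2 (w * p.1) * cexp (I * ((x * (dir w * v).re : ℝ) : ℂ)) := by
      unfold e2
      rw [← Complex.exp_add]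
      congr 1
      have e4 : x * (dir w * v).re = 2 * Real.pi * (2 * (w * v).re) := by
        have e5 : (w * v).re = ‖w‖ * (dir w * v).re := by
          nth_rewrite 1 [← hdw]
          rw [mul_assoc, Complex.re_ofReal_mul]
        rw [e5, hx]
        ring
      rw [e4, mul_add, Complex.add_re]
      push_cast
      ring
    have e6 : ud p (v + p.1, y) = normSq v / (2 * p.2 * y) + 1 / 2 * (p.2 / y + y / p.2) := by
      unfold ud
      simp only
      rw [e1, normSq_neg]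
      field_simp
      ring
    have e7 : Real.exp (-(t * ud p (v + p.1, y))) / y ^ 3 =
        Real.exp (-(u * normSq v)) * (Real.exp (-(t / 2 * (p.2 / y + y / p.2))) / y ^ 3) := by
      rw [e6, ← mul_div_assoc, ← Real.exp_add]
      congr 2
      rw [hu]
      field_simp
      ring
    rw [e1, e3, e7, map_neg]
    push_cast
    ring
  rw [h1]
  simp only [h2]
  rw [integral_const_mul, ga_conj hu0 x hω]
  have hyc : (y : ℂ) ≠ 0 := by exact_mod_cast hy.ne'
  have hpc : (p.2 : ℂ) ≠ 0 := by exact_mod_cast hp.ne'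
  have htc : (t : ℂ) ≠ 0 := by exact_mod_cast ht.ne'
  have e8 : Real.exp (-(t / 2 * (p.2 / y + y / p.2) + 8 * Real.pi ^ 2 * ‖w‖ ^ 2 * p.2 * y / t)) =
      Real.exp (-(t / 2 * (p.2 / y + y / p.2))) * Real.exp (-(x ^ 2 / (4 * u))) := by
    rw [← Real.exp_add]
    congr 1
    rw [hx, hu]
    field_simp
    ring
  rw [e8]
  have hR : -(4 * (Real.pi : ℂ) ^ 2 * I * w * ‖w‖ * (p.2 : ℂ) ^ 2 / (t : ℂ) ^ 2) =
      -(4 * (Real.pi : ℂ) ^ 2 * I * (‖w‖ * dir w) * ‖w‖ * (p.2 : ℂ) ^ 2 / (t : ℂ) ^ 2) := by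
    rw [hdw]
  rw [hR]
  unfold wk
  rw [hx, hu]
  push_cast
  field_simp

theorem grad_term (ν : ℂ) {t : ℝ} (ht : 0 < t) {w : ℂ} (hw : w ≠ 0) {p : ℂ × ℝ}
    (hp : 0 < p.2) :
    ∫ q : ℂ × ℝ, gk t p q * (wk 1 ν w q.2 * e2 (w * q.1))
        ∂((volume : Measure ℂ).prod (volume.restrict (Ioi (0 : ℝ)))) =
      -(8 * Real.pi ^ 2 * I / t ^ 2) * Kb ν t * (dir w * wk 2 ν w p.2 * e2 (w * p.1)) := by
  have hw0 : 0 < ‖w‖ := norm_pos_iff.mpr hw
  have hpi := Real.pi_pos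
  have hi := ga_int ν ht hw hp
  have h1 : ∫ q : ℂ × ℝ, gk t p q * (wk 1 ν w q.2 * e2 (w * q.1))
        ∂((volume : Measure ℂ).prod (volume.restrict (Ioi (0 : ℝ)))) =
      ∫ y in Ioi (0 : ℝ), ∫ z : ℂ, gaF ν t w p (z, y) := integral_prod_symm _ hi
  rw [h1]
  set c : ℝ := 4 * Real.pi * ‖w‖ with hc
  have hc0 : 0 < c := by positivity
  set X : ℝ := c * p.2 with hX
  have hX0 : 0 < X := by positivity
  obtain ⟨-, hM⟩ := macdonald ν ht hX0
  set g : ℝ → ℂ := fun x => ((Real.exp (-(t / 2 * (X / x + x / X) + X * x / (2 * t))) : ℝ) : ℂ) *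
      Kb ν x / (x : ℂ) with hg
  have h2 : ∫ y in Ioi (0 : ℝ), ∫ z : ℂ, gaF ν t w p (z, y) =
      ∫ y in Ioi (0 : ℝ), (-(4 * Real.pi ^ 2 * I * w * ‖w‖ * p.2 ^ 2 / t ^ 2) * e2 (w * p.1) *
        (c : ℂ)) * g (c * y) := by
    refine setIntegral_congr_fun measurableSet_Ioi fun y hy => ?_
    have hy0 : (0 : ℝ) < y := hy
    refine (ga_inner ν ht hw hp hy0).trans ?_
    show _ = (-(4 * Real.pi ^ 2 * I * w * ‖w‖ * p.2 ^ 2 / t ^ 2) * e2 (w * p.1) *
      (c : ℂ)) * (((Real.exp (-(t / 2 * (X / (c * y) + (c * y) / X) + X * (c * y) / (2 * t))) : ℝ) :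
        ℂ) * Kb ν (c * y) / ((c * y : ℝ) : ℂ))
    have e1 : c * y = 4 * Real.pi * (‖w‖ * y) := by rw [hc]; ring
    have e2' : t / 2 * (X / (c * y) + c * y / X) + X * (c * y) / (2 * t) =
        t / 2 * (p.2 / y + y / p.2) + 8 * Real.pi ^ 2 * ‖w‖ ^ 2 * p.2 * y / t := by
      rw [hX, hc]
      field_simp
      ring
    rw [e2', ← e1]
    have hcc : (c : ℂ) ≠ 0 := by exact_mod_cast hc0.ne'
    have hyc : (y : ℂ) ≠ 0 := by exact_mod_cast hy0.ne'
    push_cast
    field_simp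
  rw [h2, integral_const_mul, integral_comp_mul_left_Ioi g 0 hc0, mul_zero]
  have hM' : ∫ x in Ioi (0 : ℝ), g x = 2 * (Kb ν t * Kb ν X) := hM
  rw [hM', Complex.real_smul]
  have hcc : (c : ℂ) ≠ 0 := by exact_mod_cast hc0.ne'
  have htc : (t : ℂ) ≠ 0 := by exact_mod_cast ht.ne'
  have hwc : (‖w‖ : ℂ) ≠ 0 := by exact_mod_cast hw0.ne'
  have hXe : 4 * Real.pi * (‖w‖ * p.2) = X := by rw [hX, hc]; ring
  unfold wk dir
  rw [hXe]
  push_cast
  field_simp
  ring


end Pool.Agent.HI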