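import Pool.Agent.Lib_helper25.HIF.DX

/-!
# Project HI, block GT, second half: the moments of the gradient kernel
-/

namespace Pool.Agent.HI
open NumberField Complex MeasureTheory Set Filter Topology
open scoped ENNReal

/-- the Gaussian integral over the plane -/
theorem gt_gauss {a : ℝ} (ha : 0 < a) (z : ℂ) :
    ∫⁻ w : ℂ, ENNReal.ofReal (Real.exp (-(a * normSq (z - w)))) = ENNReal.ofReal (Real.pi / a) := by
  have h1 : ∫ w : ℂ, Real.exp (-a * ‖w‖ ^ 2) = Real.pi / a := by
    rw [GaussianFourier.integral_rexp_neg_mul_sq_norm ha, Complex.finrank_real_complex]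
    norm_num
  have h2 : Integrable (fun w : ℂ => Real.exp (-a * ‖w‖ ^ 2)) := by
    by_contra h
    rw [integral_undef h] at h1
    have := Real.pi_pos
    have h3 : 0 < Real.pi / a := by positivity
    linarith
  have h3 : ∀ w : ℂ, Real.exp (-(a * normSq (z - w))) = Real.exp (-a * ‖w - z‖ ^ 2) := by
    intro w
    rw [← Complex.sq_norm, norm_sub_rev, neg_mul]
  simp only [h3]
  rw [lintegral_sub_right_eq_self (fun w : ℂ => ENNReal.ofReal (Real.exp (-a * ‖w‖ ^ 2))) z,
    ← ofReal_integral_eq_lintegral_ofReal h2 (Eventually.of_forall fun w => (Real.exp_pos _).le), h1]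

/-- the integral over the height -/
theorem gt_one {b : ℝ} (hb : 0 < b) :
    ∫⁻ y in Ioi (0 : ℝ), ENNReal.ofReal (Real.exp (-(b / y)) / y ^ 2) = ENNReal.ofReal (1 / b) := by
  have h1 := integral_comp_rpow_Ioi (fun w : ℝ => Real.exp (-b * w)) (p := -1) (by norm_num)
  rw [integral_exp_mul_Ioi (by linarith) 0] at h1
  have h2 : ∫ y in Ioi (0 : ℝ), Real.exp (-(b / y)) / y ^ 2 = 1 / b := by
    have e : -Real.exp (-b * 0) / -b = 1 / b := by
      rw [mul_zero, Real.exp_zero, neg_div_neg_eq]
    rw [← e, ← h1]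
    refine setIntegral_congr_fun measurableSet_Ioi fun y hy => ?_
    have hy0 : (0 : ℝ) < y := hy
    simp only [smul_eq_mul]
    rw [abs_neg, abs_one, one_mul, show (-1 - 1 : ℝ) = -(2 : ℕ) by norm_num,
      Real.rpow_neg hy0.le, Real.rpow_natCast, Real.rpow_neg_one]
    rw [show -b * y⁻¹ = -(b / y) by ring]
    field_simp
  have h3 : IntegrableOn (fun y : ℝ => Real.exp (-(b / y)) / y ^ 2) (Ioi 0) := by
    by_contra h
    rw [integral_undef h] at h2
    have h3 : 0 < 1 / b := by positivity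
    linarith
  rw [← h2, ofReal_integral_eq_lintegral_ofReal h3]
  exact Eventually.of_forall fun y => by positivity

/-- powers against exponentials -/
theorem gt_pow {t : ℝ} (ht : 0 < t) (k : ℕ) : ∃ C : ℝ, 0 ≤ C ∧ ∀ u : ℝ, 0 ≤ u →
    u ^ k * Real.exp (-(t * u)) ≤ C * Real.exp (-(t / 2 * u)) := by
  refine ⟨(k.factorial : ℝ) / (t / 2) ^ k, by positivity, fun u hu => ?_⟩
  have h1 : (t / 2 * u) ^ k / (k.factorial : ℝ) ≤ Real.exp (t / 2 * u) :=
    Real.pow_div_factorial_le_exp _ (by positivity) k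
  have h2 : u ^ k ≤ (k.factorial : ℝ) / (t / 2) ^ k * Real.exp (t / 2 * u) := by
    rw [mul_pow, div_le_iff₀ (by positivity)] at h1
    rw [div_mul_eq_mul_div, le_div_iff₀ (by positivity)]
    linarith
  calc u ^ k * Real.exp (-(t * u)) ≤
      ((k.factorial : ℝ) / (t / 2) ^ k * Real.exp (t / 2 * u)) * Real.exp (-(t * u)) :=
        mul_le_mul_of_nonneg_right h2 (Real.exp_pos _).le
    _ = _ := by
        rw [mul_assoc, ← Real.exp_add]
        congr 2
        ring

theorem gk_mom {t : ℝ} (ht : 0 < t) (k : ℕ) : ∃ C : ℝ, 0 ≤ C ∧ ∀ p : ℂ × ℝ, 0 < p.2 →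
    Integrable (fun q : ℂ × ℝ => ‖gk t p q‖ * ud p q ^ k)
        ((volume : Measure ℂ).prod (volume.restrict (Ioi (0 : ℝ)))) ∧
    ∫ q : ℂ × ℝ, ‖gk t p q‖ * ud p q ^ k
        ∂((volume : Measure ℂ).prod (volume.restrict (Ioi (0 : ℝ)))) ≤ C := by
  obtain ⟨C1, hC1, hp1⟩ := gt_pow ht (k + 1)
  refine ⟨C1 * (16 * Real.pi / t ^ 2), by positivity, fun p hp => ?_⟩
  have hpi := Real.pi_pos
  set a : ℝ := t / (4 * p.2) with ha
  set b : ℝ := t * p.2 / 4 with hb
  have ha0 : 0 < a := by positivity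
  have hb0 : 0 < b := by positivity
  have hud : Measurable (fun q : ℂ × ℝ => ud p q) := by
    unfold ud
    refine Measurable.div ?_ (by fun_prop)
    refine ((Measurable.add ?_ (by fun_prop)).add (by fun_prop))
    exact Complex.continuous_normSq.measurable.comp (by fun_prop)
  have hgk : Measurable (fun q : ℂ × ℝ => gk t p q) := by
    unfold gk
    refine Measurable.mul ?_ ?_
    · refine Measurable.div ?_ ?_
      · exact (Complex.continuous_conj.measurable).comp (by fun_prop)
      · exact measurable_const.mul (Complex.measurable_ofReal.comp measurable_snd)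
    · refine Complex.measurable_ofReal.comp (Measurable.div ?_ (by fun_prop))
      exact Real.measurable_exp.comp (hud.const_mul t).neg
  have hm : Measurable (fun q : ℂ × ℝ => ‖gk t p q‖ * ud p q ^ k) := hgk.norm.mul (hud.pow_const k)
  have hu0 : ∀ q : ℂ × ℝ, 0 < q.2 → 0 ≤ ud p q := by
    intro q hq
    unfold ud
    have := normSq_nonneg (p.1 - q.1)
    positivity
  -- the pointwise bound
  have hpt : ∀ q : ℂ × ℝ, 0 < q.2 → ‖gk t p q‖ * ud p q ^ k ≤
      C1 * (Real.exp (-(a / q.2 * normSq (p.1 - q.1))) * (Real.exp (-(b / q.2)) / q.2 ^ 3)) := by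
    intro q hq
    have h1 : ‖p.1 - q.1‖ / (2 * q.2) ≤ ud p q := by
      unfold ud
      rw [← Complex.sq_norm, div_le_div_iff₀ (by positivity) (by positivity)]
      have h0 := norm_nonneg (p.1 - q.1)
      nlinarith [sq_nonneg (‖p.1 - q.1‖ - p.2), sq_nonneg q.2, mul_pos hp hq,
        mul_nonneg h0 (mul_pos hp hq).le, mul_nonneg (sq_nonneg (‖p.1 - q.1‖ - p.2)) hq.le,
        mul_nonneg (sq_nonneg q.2) hq.le]
    have h2 : ‖gk t p q‖ = ‖p.1 - q.1‖ / (2 * q.2) * (Real.exp (-(t * ud p q)) / q.2 ^ 3) := by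
      unfold gk
      rw [norm_mul, norm_div, Complex.norm_conj, norm_mul, Complex.norm_real, Complex.norm_real,
        Real.norm_of_nonneg hq.le, Real.norm_of_nonneg (by positivity)]
      norm_num
    have h3 := hp1 (ud p q) (hu0 q hq)
    have h4 : Real.exp (-(t / 2 * ud p q)) ≤
        Real.exp (-(a / q.2 * normSq (p.1 - q.1))) * Real.exp (-(b / q.2)) := by
      rw [← Real.exp_add]
      apply Real.exp_le_exp.2
      unfold ud
      rw [ha, hb]
      have h5 : t / 2 * ((normSq (p.1 - q.1) + p.2 ^ 2 + q.2 ^ 2) / (2 * p.2 * q.2)) =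
          t / (4 * p.2) / q.2 * normSq (p.1 - q.1) + t * p.2 / 4 / q.2 + t * q.2 / (4 * p.2) := by
        field_simp
        ring
      rw [h5]
      have h6 : 0 ≤ t * q.2 / (4 * p.2) := by positivity
      linarith
    have h7 : 0 ≤ Real.exp (-(t * ud p q)) / q.2 ^ 3 := by positivity
    rw [h2]
    calc ‖p.1 - q.1‖ / (2 * q.2) * (Real.exp (-(t * ud p q)) / q.2 ^ 3) * ud p q ^ k
        ≤ ud p q * (Real.exp (-(t * ud p q)) / q.2 ^ 3) * ud p q ^ k := by
          refine mul_le_mul_of_nonneg_right (mul_le_mul_of_nonneg_right h1 h7)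
            (pow_nonneg (hu0 q hq) k)
      _ = (ud p q ^ (k + 1) * Real.exp (-(t * ud p q))) / q.2 ^ 3 := by ring
      _ ≤ (C1 * (Real.exp (-(a / q.2 * normSq (p.1 - q.1))) * Real.exp (-(b / q.2)))) /
          q.2 ^ 3 := by
          refine div_le_div_of_nonneg_right (h3.trans (mul_le_mul_of_nonneg_left h4 hC1))
            (by positivity)
      _ = _ := by ring
  -- the double integral
  have hlint : ∫⁻ q : ℂ × ℝ, ‖‖gk t p q‖ * ud p q ^ k‖ₑ
      ∂((volume : Measure ℂ).prod (volume.restrict (Ioi (0 : ℝ)))) ≤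
      ENNReal.ofReal (C1 * (16 * Real.pi / t ^ 2)) := by
    rw [lintegral_prod_symm _ hm.enorm.aemeasurable]
    have h1 : ∀ y ∈ Ioi (0 : ℝ), ∫⁻ z : ℂ, ‖‖gk t p (z, y)‖ * ud p (z, y) ^ k‖ₑ ≤
        ENNReal.ofReal (C1 * (Real.pi / a)) * ENNReal.ofReal (Real.exp (-(b / y)) / y ^ 2) := by
      intro y hy
      have hy0 : (0 : ℝ) < y := hy
      have hay : 0 < a / y := by positivity
      calc ∫⁻ z : ℂ, ‖‖gk t p (z, y)‖ * ud p (z, y) ^ k‖ₑ
          ≤ ∫⁻ z : ℂ, ENNReal.ofReal (C1 * (Real.exp (-(b / y)) / y ^ 3)) *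
              ENNReal.ofReal (Real.exp (-(a / y * normSq (p.1 - z)))) := by
            refine lintegral_mono fun z => ?_
            have h2 := hpt (z, y) hy0
            have h3 : 0 ≤ ‖gk t p (z, y)‖ * ud p (z, y) ^ k :=
              mul_nonneg (norm_nonneg _) (pow_nonneg (hu0 (z, y) hy0) k)
            rw [Real.enorm_of_nonneg h3, ← ENNReal.ofReal_mul (by positivity)]
            refine ENNReal.ofReal_le_ofReal (h2.trans (le_of_eq ?_))
            simp only
            ring
        _ = ENNReal.ofReal (C1 * (Real.exp (-(b / y)) / y ^ 3)) *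
              ENNReal.ofReal (Real.pi / (a / y)) := by
            rw [lintegral_const_mul, gt_gauss hay]
            refine Measurable.ennreal_ofReal (Real.measurable_exp.comp (Measurable.neg ?_))
            exact measurable_const.mul (Complex.continuous_normSq.measurable.comp (by fun_prop))
        _ = _ := by
            rw [← ENNReal.ofReal_mul (by positivity), ← ENNReal.ofReal_mul (by positivity)]
            congr 1
            field_simp
    refine (setLIntegral_mono' measurableSet_Ioi h1).trans ?_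
    rw [lintegral_const_mul _ (by
      refine Measurable.ennreal_ofReal (Measurable.div (Real.measurable_exp.comp ?_) (by fun_prop))
      exact (measurable_const.div measurable_id).neg), gt_one hb0,
      ← ENNReal.ofReal_mul (by positivity)]
    apply ENNReal.ofReal_le_ofReal
    rw [ha, hb]
    apply le_of_eq
    field_simp
    norm_num
  have hint : Integrable (fun q : ℂ × ℝ => ‖gk t p q‖ * ud p q ^ k)
      ((volume : Measure ℂ).prod (volume.restrict (Ioi (0 : ℝ)))) := by
    refine ⟨hm.aestronglyMeasurable, ?_⟩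
    rw [hasFiniteIntegral_iff_enorm]
    exact lt_of_le_of_lt hlint ENNReal.ofReal_lt_top
  refine ⟨hint, ?_⟩
  have h8 := norm_integral_le_lintegral_norm (μ := (volume : Measure ℂ).prod
    (volume.restrict (Ioi (0 : ℝ)))) (fun q : ℂ × ℝ => ‖gk t p q‖ * ud p q ^ k)
  refine (le_abs_self _).trans ?_
  rw [← Real.norm_eq_abs]
  refine h8.trans ?_
  refine ENNReal.toReal_le_of_le_ofReal (by positivity) ?_
  refine le_trans (le_of_eq ?_) hlint
  refine lintegral_congr fun q => ?_
  rw [ofReal_norm]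


end Pool.Agent.HI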