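import Pool.Agent.Lib_helper25.HIF.DX
import Pool.Agent.Lib_helper25.HIF.FQ
import Pool.Agent.Lib_helper25.HIF.SR

/-!
# Project HI, block RA: the rays
-/

namespace Pool.Agent.HI
open NumberField Complex MeasureTheory Set Filter Topology
open Pool.Agent.HB (H3 mu Kb Adm)

variable {K : Type} [Field K] [NumberField K] {s : K →+* ℂ}

theorem ra_exp {c₀ : ℝ} (hc : 0 < c₀) (k : ℕ) {Y : ℝ} (hY : 0 < Y) :
    Real.exp (-(c₀ * Y)) ≤ (k.factorial / c₀ ^ k) * (Y ^ k)⁻¹ := by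
  have h1 := Real.pow_div_factorial_le_exp (c₀ * Y) (by positivity) k
  have h2 : 0 < (c₀ * Y) ^ k / k.factorial := by positivity
  rw [Real.exp_neg]
  refine (inv_anti₀ h2 h1).trans_eq ?_
  rw [mul_pow, inv_div]
  field_simp

theorem ra_fs (S : IQ s) {q : ℕ} {ν : ℂ} (had : Ad q ν) {c c' : K → ℂ} (h : DP s q ν c c')
    (k : ℕ) : ∃ C : ℝ, 0 ≤ C ∧ ∀ (p : ℂ × ℝ) (u : ℂ × ℂ), 0 < p.2 →
      ‖fs s q ν c p u‖ ≤ C * (p.2 ^ k)⁻¹ * nu u ^ q := by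
  obtain ⟨C1, hC1, h1⟩ := h.bd
  obtain ⟨C2, c₀, hC2, hc₀, h2⟩ := fs_decay S had h.cs
  have hnu : ∀ u : ℂ × ℂ, 0 ≤ nu u := fun u => add_nonneg (normSq_nonneg _) (normSq_nonneg _)
  refine ⟨C1 + C2 * (k.factorial / c₀ ^ k), by positivity, fun p u hp => ?_⟩
  have e0 : 0 ≤ (p.2 ^ k)⁻¹ := by positivity
  have e1 : 0 ≤ nu u ^ q := pow_nonneg (hnu u) q
  rcases le_total 1 p.2 with h3 | h3
  · refine (h2 p u h3).trans ?_
    refine mul_le_mul_of_nonneg_right ?_ e1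
    have h4 := mul_le_mul_of_nonneg_left (ra_exp hc₀ k hp) hC2
    nlinarith [mul_nonneg hC1 e0]
  · refine (h1 p u hp).trans ?_
    refine mul_le_mul_of_nonneg_right ?_ e1
    have h4 : 1 ≤ (p.2 ^ k)⁻¹ := (one_le_inv₀ (by positivity)).2 (pow_le_one₀ hp.le h3)
    have h5 : 0 ≤ C2 * (k.factorial / c₀ ^ k) := by positivity
    nlinarith [mul_nonneg h5 e0, mul_le_mul_of_nonneg_left h4 hC1]

theorem ra_iv {y : ℝ} (hy : 0 < y) (v : ℂ) :
    (iv ((y : ℂ) * v, y)).2 = (y * (1 + normSq v))⁻¹ := by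
  unfold iv n3
  simp only [map_mul, Complex.normSq_ofReal]
  have h1 : 0 < 1 + normSq v := by linarith [normSq_nonneg v]
  have h2 : y * y * normSq v + y ^ 2 = y * (y * (1 + normSq v)) := by ring
  rw [h2]
  field_simp

theorem ra_sj (S : IQ s) {q : ℕ} {ν : ℂ} (had : Ad q ν) {c c' : K → ℂ} (h : DP s q ν c c')
    {j : ℕ} (hj : j ≤ 2 * q) (k : ℕ) : ∃ C : ℝ, 0 ≤ C ∧ ∀ (v : ℂ) (y : ℝ), 0 < y →
    ‖sj s q ν c j ((y : ℂ) * v, y)‖ ≤ C * (y ^ k)⁻¹ ∧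
    ‖sj s q ν c j ((y : ℂ) * v, y)‖ ≤ C * (y * (1 + normSq v)) ^ k := by
  obtain ⟨C1, hC1, h1⟩ := ra_fs S had h k
  obtain ⟨C2, hC2, h2⟩ := ra_fs S had (dp_symm h) k
  refine ⟨2 ^ q * C1 + 2 ^ q * C2, by positivity, fun v y hy => ?_⟩
  have hp : 0 < ((((y : ℂ) * v, y)) : ℂ × ℝ).2 := hy
  have hv : 0 < 1 + normSq v := by linarith [normSq_nonneg v]
  constructor
  · have h3 := sj_bd S had h.cs hp (B := C1 * (y ^ k)⁻¹)
      (fun u => h1 ((y : ℂ) * v, y) u hy) hj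
    refine h3.trans ?_
    have e0 : 0 ≤ (y ^ k)⁻¹ := by positivity
    have e1 : (0 : ℝ) ≤ 2 ^ q * C2 := by positivity
    nlinarith [mul_nonneg e1 e0]
  · have h3 := sj_bd S had h.cs hp (B := C2 * (y * (1 + normSq v)) ^ k) (fun u => ?_) hj
    · refine h3.trans ?_
      have e0 : 0 ≤ (y * (1 + normSq v)) ^ k := by positivity
      have e1 : (0 : ℝ) ≤ 2 ^ q * C1 := by positivity
      nlinarith [mul_nonneg e1 e0]
    · have h4 := (dp_symm h).inv ((y : ℂ) * v, y) u hp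
      have h5 := h2 (iv ((y : ℂ) * v, y)) (ku ((y : ℂ) * v, y) u) (iv_iv hp).1
      rw [h4]
      rw [nu_ku hp, ra_iv hy, inv_pow, inv_inv] at h5
      exact h5

theorem ray_mid (S : IQ s) {q : ℕ} {ν : ℂ} (had : Ad q ν) {c c' : K → ℂ} (h : DP s q ν c c') :
    Ray (sr s c 0 (1 + q) ν) := by
  have hq : (0 : ℝ) ≤ q := Nat.cast_nonneg q
  refine ⟨sr_cont S h.cs 0 (by omega) ?_, fun k => ?_⟩
  · push_cast
    rcases had with h1 | ⟨h1, h2, h3⟩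
    · rw [h1, abs_zero]
      linarith
    · linarith
  · rw [← sj_mid]
    exact ra_sj S had h (by omega) k

theorem ray_next (S : IQ s) {q : ℕ} (hq : 1 ≤ q) {ν : ℂ} (had : Ad q ν) {c c' : K → ℂ}
    (h : DP s q ν c c') : Ray (sr s c 1 (1 + q) (ν + 1)) := by
  have hq' : (0 : ℝ) ≤ q := Nat.cast_nonneg q
  refine ⟨sr_cont S h.cs 1 (by omega) ?_, fun k => ?_⟩
  · push_cast
    rcases had with h1 | ⟨h1, h2, h3⟩
    · rw [Complex.add_re, h1, Complex.one_re, zero_add, abs_one]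
      linarith
    · omega
  · rw [← sj_next s hq ν]
    exact ra_sj S had h (by omega) k

end Pool.Agent.HI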