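import Pool.Agent.Lib_helper25.HIF.DX
import Pool.Agent.Lib_helper25.HIF.FQ
import Pool.Agent.Lib_helper25.HIF.GTa
import Pool.Agent.Lib_helper25.HIF.GTb
import Pool.Agent.Lib_helper25.HIF.KB
import Pool.Agent.Lib_helper25.HIF.LA
import Pool.Agent.Lib_helper25.HIF.RA
import Pool.Agent.Lib_helper25.HIF.SR

/-!
# Project HI, block GD: the gradient, `q = 0`
-/

namespace Pool.Agent.HI
open NumberField Complex MeasureTheory Set Filter Topology
open Pool.Agent.HB (H3 mu Kb Adm)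

variable {K : Type} [Field K] [NumberField K] {s : K →+* ℂ}

/-- the measure of the integrals -/
noncomputable abbrev gdMu : Measure (ℂ × ℝ) :=
  (volume : Measure ℂ).prod (volume.restrict (Ioi (0 : ℝ)))

theorem gd_mm : gdMu = (volume : Measure (ℂ × ℝ)).restrict (univ ×ˢ Ioi (0 : ℝ)) := by
  unfold gdMu
  rw [Measure.volume_eq_prod, ← Measure.prod_restrict, Measure.restrict_univ]

theorem gd_set : (univ ×ˢ Ioi (0 : ℝ) : Set (ℂ × ℝ)) = {q | 0 < q.2} := by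
  ext q
  simp

theorem gd_meas : MeasurableSet {q : ℂ × ℝ | 0 < q.2} :=
  measurableSet_lt measurable_const measurable_snd

theorem gd_ae {P : ℂ × ℝ → Prop} (h : ∀ q : ℂ × ℝ, 0 < q.2 → P q) : ∀ᵐ q ∂gdMu, P q := by
  rw [gd_mm, gd_set, ae_restrict_iff' gd_meas]
  exact Eventually.of_forall h

theorem gd_asm {f : ℂ × ℝ → ℂ} (h : ContinuousOn f {q | 0 < q.2}) : AEStronglyMeasurable f gdMu := by
  rw [gd_mm, gd_set]
  exact h.aestronglyMeasurable gd_meas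

theorem gd_exp (k : ℕ) {x : ℝ} (hx : 0 < x) : Real.exp (-x) ≤ k.factorial * (x ^ k)⁻¹ := by
  have h := Real.pow_div_factorial_le_exp x hx.le k
  rw [Real.exp_neg]
  have h1 : 0 < x ^ k := by positivity
  have h2 : (0 : ℝ) < k.factorial := by exact_mod_cast k.factorial_pos
  calc (Real.exp x)⁻¹ ≤ (x ^ k / k.factorial)⁻¹ := inv_anti₀ (by positivity) h
    _ = k.factorial * (x ^ k)⁻¹ := by
      rw [inv_div, div_eq_mul_inv]

theorem gd_gk_cont (t : ℝ) (p : ℂ × ℝ) (hp : 0 < p.2) :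
    ContinuousOn (fun q : ℂ × ℝ => gk t p q) {q | 0 < q.2} := by
  unfold gk ud
  have h2 : ContinuousOn (fun q : ℂ × ℝ => (q.2 : ℂ)) {q | 0 < q.2} := by fun_prop
  have hn : ∀ q ∈ {q : ℂ × ℝ | 0 < q.2}, (2 * (q.2 : ℂ)) ≠ 0 := by
    intro q hq
    have : (q.2 : ℂ) ≠ 0 := ofReal_ne_zero.2 (ne_of_gt hq)
    exact mul_ne_zero two_ne_zero this
  refine ContinuousOn.mul (ContinuousOn.div ?_ (by fun_prop) hn) ?_
  · exact (Complex.continuous_conj.comp (by fun_prop : Continuous fun q : ℂ × ℝ => p.1 - q.1)).continuousOn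
  · refine Complex.continuous_ofReal.comp_continuousOn ?_
    refine ContinuousOn.div ?_ (by fun_prop) ?_
    · refine Real.continuous_exp.comp_continuousOn ?_
      refine ContinuousOn.neg (ContinuousOn.mul continuousOn_const ?_)
      refine ContinuousOn.div ?_ (by fun_prop) ?_
      · have : Continuous fun q : ℂ × ℝ => normSq (p.1 - q.1) :=
          Complex.continuous_normSq.comp (by fun_prop)
        exact ContinuousOn.add (ContinuousOn.add this.continuousOn (by fun_prop)) (by fun_prop)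
      · intro q hq
        have hq' : (0 : ℝ) < q.2 := hq
        positivity
    · intro q hq
      have hq' : (0 : ℝ) < q.2 := hq
      positivity

theorem gd_tm_cont (S : IQ s) {c : K → ℂ} (hc : CS c) (a r : ℕ) (μ : ℂ) (ξ : K) :
    ContinuousOn (fun q : ℂ × ℝ => tm s c a r μ q ξ) {q | 0 < q.2} := by
  by_cases hξ : ξ = 0
  · subst hξ
    have : (fun q : ℂ × ℝ => tm s c a r μ q 0) = fun _ => 0 := by
      funext q
      unfold tm
      rw [hc.zero, zero_mul]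
    rw [this]
    exact continuousOn_const
  · have hw : s ξ ≠ 0 := fun h => hξ (lat_inj S h)
    unfold tm e2
    refine ContinuousOn.mul continuousOn_const (ContinuousOn.mul (ContinuousOn.mul
      continuousOn_const ?_) ?_)
    · exact (wk_cont r μ hw).comp continuous_snd.continuousOn (fun q hq => hq)
    · have : Continuous fun q : ℂ × ℝ =>
          cexp (2 * Real.pi * I * ((2 * (s ξ * q.1).re : ℝ) : ℂ)) := by
        have h1 : Continuous fun q : ℂ × ℝ => ((s ξ * q.1).re : ℝ) :=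
          Complex.continuous_re.comp (by fun_prop)
        fun_prop
      exact this.continuousOn

/-- `1/y' ≤ 2 ud/y` -/
theorem gd_inv {p q : ℂ × ℝ} (hp : 0 < p.2) (hq : 0 < q.2) : p.2 ≤ 2 * ud p q * q.2 := by
  unfold ud
  have e : 2 * ((normSq (p.1 - q.1) + p.2 ^ 2 + q.2 ^ 2) / (2 * p.2 * q.2)) * q.2 =
      (normSq (p.1 - q.1) + p.2 ^ 2 + q.2 ^ 2) / p.2 := by
    field_simp
  rw [e, le_div_iff₀ hp]
  have := normSq_nonneg (p.1 - q.1)
  nlinarith [sq_nonneg q.2]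

theorem gd_ud_nonneg {p q : ℂ × ℝ} (hp : 0 < p.2) (hq : 0 < q.2) : 0 ≤ ud p q := by
  unfold ud
  have := normSq_nonneg (p.1 - q.1)
  positivity

/-- `1/y'^k ≤ (2 ud)^k / y^k` -/
theorem gd_invk {p q : ℂ × ℝ} (hp : 0 < p.2) (hq : 0 < q.2) (k : ℕ) :
    (q.2 ^ k)⁻¹ ≤ 2 ^ k * (p.2 ^ k)⁻¹ * ud p q ^ k := by
  have h1 := gd_inv hp hq
  have h2 : p.2 ^ k ≤ (2 * ud p q * q.2) ^ k := pow_le_pow_left₀ hp.le h1 k
  have hpk : 0 < p.2 ^ k := by positivity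
  have hqk : 0 < q.2 ^ k := by positivity
  rw [mul_pow, mul_pow] at h2
  rw [inv_le_iff_one_le_mul₀ hqk]
  calc (1 : ℝ) = (p.2 ^ k)⁻¹ * p.2 ^ k := by rw [inv_mul_cancel₀ hpk.ne']
    _ ≤ (p.2 ^ k)⁻¹ * (2 ^ k * ud p q ^ k * q.2 ^ k) :=
        mul_le_mul_of_nonneg_left h2 (by positivity)
    _ = _ := by ring

theorem gd_iv_ht {p : ℂ × ℝ} (hp : 0 < p.2) : 0 < n3 p := by
  unfold n3
  have := normSq_nonneg p.1
  positivity

theorem gd_ud_iv {p q : ℂ × ℝ} (hp : 0 < p.2) (hq : 0 < q.2) : ud (iv p) (iv q) = ud p q := by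
  have hn := gd_iv_ht hp
  have hm := gd_iv_ht hq
  have en : p.1.re ^ 2 + p.1.im ^ 2 + p.2 ^ 2 = n3 p := by
    unfold n3
    rw [normSq_apply]
    ring
  have em : q.1.re ^ 2 + q.1.im ^ 2 + q.2 ^ 2 = n3 q := by
    unfold n3
    rw [normSq_apply]
    ring
  have e1 : ∀ x : ℂ × ℝ, (iv x).1.re = -x.1.re / n3 x := by
    intro x
    unfold iv
    simp only [Complex.div_ofReal_re, Complex.neg_re, Complex.conj_re]
  have e2 : ∀ x : ℂ × ℝ, (iv x).1.im = x.1.im / n3 x := by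
    intro x
    unfold iv
    simp only [Complex.div_ofReal_im, Complex.neg_im, Complex.conj_im, neg_neg]
  have e3 : ∀ x : ℂ × ℝ, (iv x).2 = x.2 / n3 x := fun x => rfl
  unfold ud
  rw [normSq_apply, normSq_apply, Complex.sub_re, Complex.sub_im, Complex.sub_re, Complex.sub_im,
    e1, e1, e2, e2, e3, e3]
  generalize n3 p = n at *
  generalize n3 q = m at *
  have hn' : n ≠ 0 := hn.ne'
  have hm' : m ≠ 0 := hm.ne'
  have hp' : p.2 ≠ 0 := hp.ne'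
  have hq' : q.2 ≠ 0 := hq.ne'
  have k1 : (-p.1.re / n - -q.1.re / m) * (-p.1.re / n - -q.1.re / m) +
      (p.1.im / n - q.1.im / m) * (p.1.im / n - q.1.im / m) + (p.2 / n) ^ 2 + (q.2 / m) ^ 2 =
      (n + m - 2 * (p.1.re * q.1.re + p.1.im * q.1.im)) / (n * m) := by
    field_simp
    linear_combination m ^ 2 * en + n ^ 2 * em
  have k2 : (p.1.re - q.1.re) * (p.1.re - q.1.re) + (p.1.im - q.1.im) * (p.1.im - q.1.im) +
      p.2 ^ 2 + q.2 ^ 2 = n + m - 2 * (p.1.re * q.1.re + p.1.im * q.1.im) := by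
    linear_combination en + em
  rw [k1, k2]
  field_simp

/-- the bound for one term -/
theorem gd_term_bd (S : IQ s) {ν : ℂ} (had : Ad 0 ν) {c : K → ℂ} (hc : CS c) :
    ∃ C : ℝ, 0 ≤ C ∧ ∀ (p q : ℂ × ℝ) (ξ : K), 0 < p.2 → 0 < q.2 →
      ‖tm s c 0 1 ν q ξ‖ ≤ C * (‖c ξ‖ * ‖s ξ‖ ^ (-(3 : ℝ))) * (p.2 ^ 3)⁻¹ * ud p q ^ 3 := by
  have hμ : |ν.re| ≤ ((1 : ℕ) : ℝ) := by
    rw [Nat.cast_one]
    exact (ad_re had).le
  obtain ⟨C, hC, hb⟩ := tm_bd S hc 0 (le_refl 1) hμ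
  refine ⟨C * 6 * 8, by positivity, fun p q ξ hp hq => ?_⟩
  refine (hb q ξ hq).trans ?_
  by_cases hξ : ξ = 0
  · subst hξ
    rw [hc.zero]
    simp
  have hw : 0 < ‖s ξ‖ := norm_pos_iff.2 fun h => hξ (lat_inj S h)
  have h1 := gd_exp 3 (x := 2 * Real.pi * (‖s ξ‖ * q.2)) (by positivity)
  have h2 : (((3 : ℕ).factorial : ℕ) : ℝ) = 6 := by
    norm_num [Nat.factorial]
  rw [h2] at h1
  have h3 : ((2 * Real.pi * (‖s ξ‖ * q.2)) ^ 3)⁻¹ ≤ ‖s ξ‖ ^ (-(3 : ℝ)) * (q.2 ^ 3)⁻¹ := by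
    have e : ‖s ξ‖ ^ (-(3 : ℝ)) = (‖s ξ‖ ^ 3)⁻¹ := by
      rw [Real.rpow_neg hw.le]
      congr 1
      exact_mod_cast Real.rpow_natCast ‖s ξ‖ 3
    rw [e, ← mul_inv, ← mul_pow]
    refine inv_anti₀ (by positivity) (pow_le_pow_left₀ (by positivity) ?_ 3)
    have : 1 ≤ 2 * Real.pi := by linarith [Real.pi_gt_three]
    exact le_mul_of_one_le_left (by positivity) this
  have h4 := gd_invk hp hq 3
  have hud := gd_ud_nonneg hp hq
  have hr : 0 ≤ ‖s ξ‖ ^ (-(3 : ℝ)) := Real.rpow_nonneg hw.le _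
  calc C * (‖c ξ‖ * Real.exp (-(2 * Real.pi * (‖s ξ‖ * q.2))))
      ≤ C * (‖c ξ‖ * (6 * (‖s ξ‖ ^ (-(3 : ℝ)) * (2 ^ 3 * (p.2 ^ 3)⁻¹ * ud p q ^ 3)))) := by
        refine mul_le_mul_of_nonneg_left (mul_le_mul_of_nonneg_left ?_ (norm_nonneg _)) hC
        refine h1.trans (mul_le_mul_of_nonneg_left (h3.trans ?_) (by norm_num))
        exact mul_le_mul_of_nonneg_left h4 hr
    _ = _ := by ring

theorem grad_eq (S : IQ s) {ν : ℂ} (had : Ad 0 ν) {c c' : K → ℂ} (h : DP s 0 ν c c') {t : ℝ}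
    (ht : 0 < t) {p : ℂ × ℝ} (hp : 0 < p.2) :
    ∫ q : ℂ × ℝ, gk t p q * sr s c 0 1 ν q
        ∂((volume : Measure ℂ).prod (volume.restrict (Ioi (0 : ℝ)))) =
      -(8 * Real.pi ^ 2 * I / t ^ 2) * Kb ν t * sr s c 1 2 ν p := by
  have hc := h.cs
  have hcount : Countable K := (Module.finBasis ℚ K).equivFun.injective.countable
  obtain ⟨C, hC, hb⟩ := gd_term_bd S had hc
  obtain ⟨C', hC', hm⟩ := gk_mom ht 3
  obtain ⟨hm1, hm2⟩ := hm p hp
  have hbd : ∀ ξ : K, ∀ᵐ q ∂gdMu, ‖gk t p q * tm s c 0 1 ν q ξ‖ ≤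
      (C * (‖c ξ‖ * ‖s ξ‖ ^ (-(3 : ℝ))) * (p.2 ^ 3)⁻¹) * (‖gk t p q‖ * ud p q ^ 3) := by
    intro ξ
    refine gd_ae fun q hq => ?_
    rw [norm_mul]
    calc ‖gk t p q‖ * ‖tm s c 0 1 ν q ξ‖ ≤ ‖gk t p q‖ * _ :=
          mul_le_mul_of_nonneg_left (hb p q ξ hp hq) (norm_nonneg _)
      _ = _ := by ring
  have hI : ∀ ξ : K, Integrable (fun q => gk t p q * tm s c 0 1 ν q ξ) gdMu := by
    intro ξ
    refine Integrable.mono' (hm1.const_mul _) ?_ (hbd ξ)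
    exact gd_asm ((gd_gk_cont t p hp).mul (gd_tm_cont S hc 0 1 ν ξ))
  have hN : ∀ ξ : K, ∫ q, ‖gk t p q * tm s c 0 1 ν q ξ‖ ∂gdMu ≤
      C * (p.2 ^ 3)⁻¹ * C' * (‖c ξ‖ * ‖s ξ‖ ^ (-(3 : ℝ))) := by
    intro ξ
    have hr : 0 ≤ ‖s ξ‖ ^ (-(3 : ℝ)) := Real.rpow_nonneg (norm_nonneg _) _
    calc ∫ q, ‖gk t p q * tm s c 0 1 ν q ξ‖ ∂gdMu
        ≤ ∫ q, (C * (‖c ξ‖ * ‖s ξ‖ ^ (-(3 : ℝ))) * (p.2 ^ 3)⁻¹) * (‖gk t p q‖ * ud p q ^ 3) ∂gdMu :=
          integral_mono_ae (hI ξ).norm (hm1.const_mul _) (hbd ξ)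
      _ = (C * (‖c ξ‖ * ‖s ξ‖ ^ (-(3 : ℝ))) * (p.2 ^ 3)⁻¹) *
            ∫ q, (‖gk t p q‖ * ud p q ^ 3) ∂gdMu := integral_const_mul _ _
      _ ≤ (C * (‖c ξ‖ * ‖s ξ‖ ^ (-(3 : ℝ))) * (p.2 ^ 3)⁻¹) * C' :=
          mul_le_mul_of_nonneg_left hm2 (by positivity)
      _ = _ := by ring
  have hsum : Summable fun ξ : K => ∫ q, ‖gk t p q * tm s c 0 1 ν q ξ‖ ∂gdMu := by
    refine Summable.of_nonneg_of_le (fun ξ => integral_nonneg fun q => norm_nonneg _) hN ?_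
    exact (cs_pow S hc (by norm_num : (2 : ℝ) < 3)).mul_left _
  have hT := integral_tsum_of_summable_integral_norm hI hsum
  have hV : ∀ ξ : K, ∫ q, gk t p q * tm s c 0 1 ν q ξ ∂gdMu =
      -(8 * Real.pi ^ 2 * I / t ^ 2) * Kb ν t * tm s c 1 2 ν p ξ := by
    intro ξ
    by_cases hξ : ξ = 0
    · subst hξ
      have e : ∀ a r q, tm s c a r ν q 0 = 0 := by
        intro a r q
        unfold tm
        rw [hc.zero, zero_mul]
      simp only [e, mul_zero, integral_zero]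
    · have hw : s ξ ≠ 0 := fun h => hξ (lat_inj S h)
      have h1 := grad_term ν ht hw hp
      have e : (fun q : ℂ × ℝ => gk t p q * tm s c 0 1 ν q ξ) =
          fun q => c ξ * (gk t p q * (wk 1 ν (s ξ) q.2 * e2 (s ξ * q.1))) := by
        funext q
        unfold tm
        rw [pow_zero]
        ring
      rw [e, integral_const_mul, h1]
      unfold tm
      rw [pow_one]
      ring
  rw [tsum_congr hV, tsum_mul_left] at hT
  unfold sr
  rw [hT]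
  refine integral_congr_ae (Eventually.of_forall fun q => ?_)
  simp only
  rw [tsum_mul_left]

omit [NumberField K] in
theorem gd_fs (s : K →+* ℂ) (ν : ℂ) (c : K → ℂ) (p : ℂ × ℝ) (u : ℂ × ℂ) :
    fs s 0 ν c p u = sr s c 0 1 ν p := by
  unfold fs sr
  refine tsum_congr fun ξ => ?_
  unfold Wh tm
  simp

/-- powers of the height -/
theorem gd_F (S : IQ s) {ν : ℂ} (had : Ad 0 ν) {c c' : K → ℂ} (h : DP s 0 ν c c') (k : ℕ) :
    ∃ C : ℝ, 0 ≤ C ∧ ∀ q : ℂ × ℝ, 0 < q.2 → ‖sr s c 0 1 ν q‖ ≤ C * (q.2 ^ k)⁻¹ := by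
  have hμ : |ν.re| ≤ ((1 : ℕ) : ℝ) := by
    rw [Nat.cast_one]
    exact (ad_re had).le
  obtain ⟨C1, c0, hC1, hc0, hd⟩ := sr_decay S h.cs 0 (le_refl 1) hμ
  obtain ⟨C2, hC2, hb⟩ := h.bd
  refine ⟨max C2 (C1 * (k.factorial * (c0 ^ k)⁻¹)), le_max_of_le_left hC2, fun q hq => ?_⟩
  have hqk : 0 < q.2 ^ k := by positivity
  rcases le_total 1 q.2 with h1 | h1
  · refine (hd q h1).trans ?_
    have h2 := gd_exp k (x := c0 * q.2) (by positivity)
    rw [mul_pow, mul_inv, ← mul_assoc] at h2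
    calc C1 * Real.exp (-(c0 * q.2)) ≤ C1 * (k.factorial * (c0 ^ k)⁻¹ * (q.2 ^ k)⁻¹) :=
          mul_le_mul_of_nonneg_left h2 hC1
      _ = C1 * (k.factorial * (c0 ^ k)⁻¹) * (q.2 ^ k)⁻¹ := by ring
      _ ≤ _ := mul_le_mul_of_nonneg_right (le_max_right _ _) (by positivity)
  · have h2 := hb q (0, 0) hq
    rw [gd_fs, pow_zero, mul_one] at h2
    have h3 : 1 ≤ (q.2 ^ k)⁻¹ := (one_le_inv₀ hqk).2 (pow_le_one₀ hq.le h1)
    calc ‖sr s c 0 1 ν q‖ ≤ C2 * 1 := by rw [mul_one]; exact h2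
      _ ≤ C2 * (q.2 ^ k)⁻¹ := mul_le_mul_of_nonneg_left h3 hC2
      _ ≤ _ := mul_le_mul_of_nonneg_right (le_max_left _ _) (by positivity)

theorem gd_core (S : IQ s) {ν : ℂ} (had : Ad 0 ν) {c c' : K → ℂ} (h : DP s 0 ν c c') (k : ℕ) :
    ∃ C : ℝ, 0 ≤ C ∧ ∀ p : ℂ × ℝ, 0 < p.2 → ∀ B : ℝ, 0 ≤ B →
      (∀ q : ℂ × ℝ, 0 < q.2 → ‖sr s c 0 1 ν q‖ ≤ B * ud p q ^ k) →
        ‖sr s c 1 2 ν p‖ ≤ C * B := by
  obtain ⟨t, ht, hK⟩ := kb_ne had
  obtain ⟨C, hC, hm⟩ := gk_mom ht k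
  set A : ℂ := -(8 * Real.pi ^ 2 * I / t ^ 2) * Kb ν t with hA
  have hA0 : A ≠ 0 := by
    refine mul_ne_zero (neg_ne_zero.2 (div_ne_zero (mul_ne_zero (mul_ne_zero (by norm_num) ?_)
      I_ne_zero) ?_)) hK
    · exact pow_ne_zero 2 (ofReal_ne_zero.2 Real.pi_ne_zero)
    · exact pow_ne_zero 2 (ofReal_ne_zero.2 ht.ne')
  have hA1 : 0 < ‖A‖ := norm_pos_iff.2 hA0
  refine ⟨C / ‖A‖, by positivity, fun p hp B hB hq => ?_⟩
  obtain ⟨hm1, hm2⟩ := hm p hp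
  have h1 := grad_eq S had h ht hp
  have h2 : ‖A * sr s c 1 2 ν p‖ ≤ ∫ q : ℂ × ℝ, B * (‖gk t p q‖ * ud p q ^ k) ∂gdMu := by
    rw [hA, ← h1]
    refine norm_integral_le_of_norm_le (hm1.const_mul B) (gd_ae fun q hq0 => ?_)
    rw [norm_mul]
    calc ‖gk t p q‖ * ‖sr s c 0 1 ν q‖ ≤ ‖gk t p q‖ * (B * ud p q ^ k) :=
          mul_le_mul_of_nonneg_left (hq q hq0) (norm_nonneg _)
      _ = _ := by ring
  rw [integral_const_mul, norm_mul] at h2
  have h3 : ‖A‖ * ‖sr s c 1 2 ν p‖ ≤ B * C := h2.trans (mul_le_mul_of_nonneg_left hm2 hB)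
  rw [div_mul_eq_mul_div, le_div_iff₀ hA1]
  linarith

theorem ray_grad (S : IQ s) {ν : ℂ} (had : Ad 0 ν) {c c' : K → ℂ} (h : DP s 0 ν c c') :
    Ray (sr s c 1 2 ν) := by
  have hμ : |ν.re| ≤ ((2 : ℕ) : ℝ) := by
    have := (ad_re had).le
    push_cast
    linarith
  refine ⟨sr_cont S h.cs 1 one_le_two hμ, fun k => ?_⟩
  obtain ⟨C, hC, hcore⟩ := gd_core S had h k
  obtain ⟨C1, hC1, hF⟩ := gd_F S had h k
  obtain ⟨C2, hC2, hF'⟩ := gd_F S had (dp_symm h) k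
  have hinv : ∀ q : ℂ × ℝ, 0 < q.2 → sr s c 0 1 ν q = sr s c' 0 1 ν (iv q) := by
    intro q hq
    have := (dp_symm h).inv q (0, 0) hq
    rw [gd_fs, gd_fs] at this
    exact this
  refine ⟨max (C * (C1 * 2 ^ k)) (C * (C2 * 2 ^ k)), le_max_of_le_left (by positivity),
    fun v y hy => ⟨?_, ?_⟩⟩
  · have hp : 0 < (((y : ℂ) * v, y) : ℂ × ℝ).2 := hy
    have h1 := hcore ((y : ℂ) * v, y) hp (C1 * 2 ^ k * (y ^ k)⁻¹) (by positivity) (fun q hq => by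
      refine (hF q hq).trans ?_
      calc C1 * (q.2 ^ k)⁻¹ ≤ C1 * (2 ^ k * (y ^ k)⁻¹ * ud ((y : ℂ) * v, y) q ^ k) :=
            mul_le_mul_of_nonneg_left (gd_invk hp hq k) hC1
        _ = _ := by ring)
    refine h1.trans ?_
    calc C * (C1 * 2 ^ k * (y ^ k)⁻¹) = (C * (C1 * 2 ^ k)) * (y ^ k)⁻¹ := by ring
      _ ≤ _ := mul_le_mul_of_nonneg_right (le_max_left _ _) (by positivity)
  · have hp : 0 < (((y : ℂ) * v, y) : ℂ × ℝ).2 := hy
    have hvn := normSq_nonneg v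
    have hiv : (iv ((y : ℂ) * v, y)).2 = (y * (1 + normSq v))⁻¹ := by
      unfold iv n3
      simp only [normSq_mul, normSq_ofReal]
      field_simp
      ring
    have hivp : 0 < (iv ((y : ℂ) * v, y)).2 := (iv_iv hp).1
    have h1 := hcore ((y : ℂ) * v, y) hp (C2 * 2 ^ k * (y * (1 + normSq v)) ^ k) (by positivity)
      (fun q hq => by
        rw [hinv q hq]
        refine (hF' (iv q) (iv_iv hq).1).trans ?_
        have h2 := gd_invk hivp (iv_iv hq).1 k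
        rw [gd_ud_iv hp hq, hiv, inv_pow, inv_inv] at h2
        calc C2 * ((iv q).2 ^ k)⁻¹ ≤ C2 * (2 ^ k * (y * (1 + normSq v)) ^ k *
              ud ((y : ℂ) * v, y) q ^ k) := mul_le_mul_of_nonneg_left h2 hC2
          _ = _ := by ring)
    refine h1.trans ?_
    calc C * (C2 * 2 ^ k * (y * (1 + normSq v)) ^ k) =
        (C * (C2 * 2 ^ k)) * (y * (1 + normSq v)) ^ k := by ring
      _ ≤ _ := mul_le_mul_of_nonneg_right (le_max_right _ _) (by positivity)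

theorem ray_cp (S : IQ s) {q : ℕ} {ν : ℂ} (had : Ad q ν) {c c' : K → ℂ} (h : DP s q ν c c')
    (i : ℕ) : Ray (cp s q ν c i) := by
  by_cases hi : i = 0
  · have e : cp s q ν c i = sr s c 0 (1 + q) ν := by
      unfold cp
      rw [if_pos hi]
    rw [e]
    exact ray_mid S had h
  · by_cases hq : q = 0
    · subst hq
      have e : cp s 0 ν c i = sr s c 1 2 ν := by
        unfold cp
        rw [if_neg hi, if_pos rfl]
      rw [e]
      exact ray_grad S had h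
    · have e : cp s q ν c i = sr s c 1 (1 + q) (ν + 1) := by
        unfold cp
        rw [if_neg hi, if_neg hq]
      rw [e]
      exact ray_next S (Nat.one_le_iff_ne_zero.2 hq) had h


end Pool.Agent.HI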