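import Pool.Agent.Lib_helper25.HIF.DX

/-!
# Project HI, block K1: the quotient of Gamma values at distance `1/2`
-/

namespace Pool.Agent.HI
open Complex MeasureTheory Set Filter Topology
open Pool.Agent.HB (Kb Adm)

/-- `|x + j + it|²` -/
noncomputable def k1_a (x t : ℝ) (j : ℕ) : ℝ := (x + j) ^ 2 + t ^ 2

/-- `|x + 1/2 + j + it|²` -/
noncomputable def k1_b (x t : ℝ) (j : ℕ) : ℝ := (x + 1 / 2 + j) ^ 2 + t ^ 2

theorem k1_a_pos {x t : ℝ} (hx : 0 < x) (j : ℕ) : 0 < k1_a x t j := by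
  unfold k1_a
  positivity

theorem k1_b_pos {x t : ℝ} (hx : 0 < x) (j : ℕ) : 0 < k1_b x t j := by
  unfold k1_b
  positivity

theorem k1_seq {x t : ℝ} (hx : 0 < x) {n : ℕ} (hn : 1 ≤ n) :
    ‖GammaSeq (x + 1 / 2 + t * I) n‖ ^ 2 / ‖GammaSeq (x + t * I) n‖ ^ 2 =
      n * ∏ j ∈ Finset.range (n + 1), (k1_a x t j / k1_b x t j) := by
  have hn0 : (0 : ℝ) < n := by exact_mod_cast hn
  have h1 : ∀ y : ℝ, 0 < y → ‖GammaSeq (y + t * I) n‖ ^ 2 =
      (n : ℝ) ^ (2 * y) * (n.factorial : ℝ) ^ 2 /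
        ∏ j ∈ Finset.range (n + 1), ((y + j) ^ 2 + t ^ 2) := by
    intro y hy
    unfold GammaSeq
    rw [norm_div, norm_mul, norm_prod, div_pow, mul_pow, ← Finset.prod_pow]
    have e1 : ‖(n : ℂ) ^ ((y : ℂ) + t * I)‖ = (n : ℝ) ^ y := by
      have : ((n : ℕ) : ℂ) = ((n : ℝ) : ℂ) := by simp
      rw [this, Complex.norm_cpow_eq_rpow_re_of_pos hn0]
      simp
    have e2 : ‖((n.factorial : ℕ) : ℂ)‖ = (n.factorial : ℝ) := by simp
    rw [e1, e2]
    congr 1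
    · rw [← Real.rpow_natCast, ← Real.rpow_mul hn0.le]
      congr 2
      push_cast
      ring
    · refine Finset.prod_congr rfl fun j _ => ?_
      rw [Complex.sq_norm, Complex.normSq_apply]
      simp
      ring
  have h2 : ((x : ℂ) + 1 / 2 + t * I) = (((x + 1 / 2 : ℝ) : ℂ) + t * I) := by
    push_cast
    ring
  rw [h2, h1 _ (by positivity), h1 _ hx, Finset.prod_div_distrib]
  have hA : ∏ j ∈ Finset.range (n + 1), k1_a x t j ≠ 0 :=
    Finset.prod_ne_zero_iff.mpr fun j _ => (k1_a_pos hx j).ne'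
  have hB : ∏ j ∈ Finset.range (n + 1), k1_b x t j ≠ 0 :=
    Finset.prod_ne_zero_iff.mpr fun j _ => (k1_b_pos hx j).ne'
  have hpow : (n : ℝ) ^ (2 * (x + 1 / 2)) = n * (n : ℝ) ^ (2 * x) := by
    rw [show 2 * (x + 1 / 2) = 1 + 2 * x by ring, Real.rpow_add hn0, Real.rpow_one]
  have hf : (n.factorial : ℝ) ≠ 0 := by exact_mod_cast n.factorial_ne_zero
  have hnx : (n : ℝ) ^ (2 * x) ≠ 0 := (Real.rpow_pos_of_pos hn0 _).ne'
  rw [hpow]
  change n * (n : ℝ) ^ (2 * x) * (n.factorial : ℝ) ^ 2 /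
      (∏ j ∈ Finset.range (n + 1), k1_b x t j) /
        ((n : ℝ) ^ (2 * x) * (n.factorial : ℝ) ^ 2 / ∏ j ∈ Finset.range (n + 1), k1_a x t j) = _
  field_simp

/-- the factor `1 - θ_j` -/
noncomputable def k1_q (x t : ℝ) (j : ℕ) : ℝ := k1_a x t j * k1_a x t (j + 1) / k1_b x t j ^ 2

theorem k1_tel {x t : ℝ} (hx : 0 < x) (n : ℕ) :
    (∏ j ∈ Finset.range (n + 1), (k1_a x t j / k1_b x t j)) ^ 2 =
      k1_a x t 0 / k1_a x t (n + 1) * ∏ j ∈ Finset.range (n + 1), k1_q x t j := by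
  induction n with
  | zero =>
    simp only [zero_add, Finset.range_one, Finset.prod_singleton, k1_q]
    have h0 := (k1_a_pos (t := t) hx 1).ne'
    have h1 := (k1_b_pos (t := t) hx 0).ne'
    field_simp
  | succ n ih =>
    rw [Finset.prod_range_succ, mul_pow, ih, Finset.prod_range_succ _ (n + 1)]
    unfold k1_q
    have h0 := (k1_a_pos (t := t) hx (n + 1)).ne'
    have h1 := (k1_b_pos (t := t) hx (n + 1)).ne'
    have h2 := (k1_a_pos (t := t) hx (n + 1 + 1)).ne'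
    field_simp

theorem k1_theta {x t : ℝ} (hx : 1 ≤ x) (j : ℕ) :
    |k1_q x t j - 1| ≤ 1 / (2 * k1_b x t j) := by
  have hx0 : 0 < x := by linarith
  have hb := k1_b_pos (t := t) hx0 j
  unfold k1_q
  have h1 : k1_a x t j * k1_a x t (j + 1) / k1_b x t j ^ 2 - 1 =
      (k1_a x t j * k1_a x t (j + 1) - k1_b x t j ^ 2) / k1_b x t j ^ 2 := by
    field_simp
  rw [h1, abs_div, abs_of_pos (by positivity : 0 < k1_b x t j ^ 2), div_le_div_iff₀
    (by positivity) (by positivity)]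
  have h2 : k1_a x t j * k1_a x t (j + 1) - k1_b x t j ^ 2 =
      1 / 16 + t ^ 2 / 2 - (x + 1 / 2 + j) ^ 2 / 2 := by
    unfold k1_a k1_b
    push_cast
    ring
  have h3 : |k1_a x t j * k1_a x t (j + 1) - k1_b x t j ^ 2| ≤ k1_b x t j / 2 := by
    rw [h2, abs_le]
    unfold k1_b
    have hj : (0 : ℝ) ≤ j := Nat.cast_nonneg j
    constructor <;> nlinarith [sq_nonneg t]
  calc |k1_a x t j * k1_a x t (j + 1) - k1_b x t j ^ 2| * (2 * k1_b x t j)
      ≤ k1_b x t j / 2 * (2 * k1_b x t j) := by gcongr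
    _ = 1 * k1_b x t j ^ 2 := by ring

theorem k1_sum {x t : ℝ} (hx : 1 ≤ x) (ht : 1 ≤ |t|) (n : ℕ) :
    ∑ j ∈ Finset.range n, 1 / (2 * k1_b x t j) ≤ 1 / |t| := by
  have ht0 : 0 < |t| := by linarith
  have h1 : ∀ j : ℕ, 1 / (2 * k1_b x t j) ≤ 1 / (|t| + j) - 1 / (|t| + (j + 1 : ℕ)) := by
    intro j
    have hj : (0 : ℝ) ≤ j := Nat.cast_nonneg j
    have h2 : 1 / (|t| + j) - 1 / (|t| + (j + 1 : ℕ)) =
        1 / ((|t| + j) * (|t| + (j + 1 : ℕ))) := by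
      push_cast
      field_simp
      ring
    rw [h2]
    have hb := k1_b_pos (t := t) (by linarith : 0 < x) j
    refine one_div_le_one_div_of_le (by positivity) ?_
    unfold k1_b
    push_cast
    have hsq : t ^ 2 = |t| ^ 2 := (sq_abs t).symm
    rw [hsq]
    nlinarith [sq_nonneg (|t| - (j + 1 : ℝ)), mul_nonneg hj ht0.le]
  refine (Finset.sum_le_sum fun j _ => h1 j).trans ?_
  rw [Finset.sum_range_sub' (fun j : ℕ => 1 / (|t| + j))]
  simp only [Nat.cast_zero, add_zero]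
  have : 0 ≤ 1 / (|t| + (n : ℝ)) := by positivity
  linarith

theorem k1_prod {x t : ℝ} (hx : 1 ≤ x) (ht : 1 ≤ |t|) (n : ℕ) :
    Real.exp (-(2 / |t|)) ≤ ∏ j ∈ Finset.range n, k1_q x t j ∧
      ∏ j ∈ Finset.range n, k1_q x t j ≤ Real.exp (1 / |t|) := by
  have hx0 : 0 < x := by linarith
  have hsum := k1_sum (x := x) (t := t) hx ht n
  have hu : ∀ j : ℕ, 0 ≤ 1 / (2 * k1_b x t j) ∧ 1 / (2 * k1_b x t j) ≤ 1 / 2 := by
    intro j
    have hb := k1_b_pos (t := t) hx0 j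
    refine ⟨by positivity, ?_⟩
    refine one_div_le_one_div_of_le (by norm_num) ?_
    unfold k1_b
    have hj : (0 : ℝ) ≤ j := Nat.cast_nonneg j
    nlinarith [sq_nonneg t]
  have hexp : ∀ u : ℝ, 0 ≤ u → u ≤ 1 / 2 → Real.exp (-(2 * u)) ≤ 1 - u := by
    intro u h0 h1
    have h2 : Real.exp (-(2 * u)) = (Real.exp (2 * u))⁻¹ := Real.exp_neg _
    rw [h2, inv_le_comm₀ (Real.exp_pos _) (by linarith)]
    refine le_trans ?_ (Real.add_one_le_exp (2 * u))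
    rw [inv_le_iff_one_le_mul₀ (by linarith)]
    nlinarith
  constructor
  · calc Real.exp (-(2 / |t|)) ≤ Real.exp (∑ j ∈ Finset.range n, -(2 * (1 / (2 * k1_b x t j)))) := by
          refine Real.exp_le_exp.mpr ?_
          rw [Finset.sum_neg_distrib, ← Finset.mul_sum]
          have : 2 / |t| = 2 * (1 / |t|) := by ring
          rw [this]
          linarith
      _ = ∏ j ∈ Finset.range n, Real.exp (-(2 * (1 / (2 * k1_b x t j)))) := Real.exp_sum _ _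
      _ ≤ _ := by
          refine Finset.prod_le_prod (fun j _ => (Real.exp_pos _).le) fun j _ => ?_
          refine (hexp _ (hu j).1 (hu j).2).trans ?_
          have := (abs_le.mp (k1_theta (t := t) hx j)).1
          linarith
  · calc ∏ j ∈ Finset.range n, k1_q x t j
        ≤ ∏ j ∈ Finset.range n, Real.exp (1 / (2 * k1_b x t j)) := by
          refine Finset.prod_le_prod (fun j _ => ?_) fun j _ => ?_
          · unfold k1_q
            have h1 := k1_a_pos (t := t) hx0 j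
            have h2 := k1_a_pos (t := t) hx0 (j + 1)
            positivity
          · have h1 := (abs_le.mp (k1_theta (t := t) hx j)).2
            have h2 := Real.add_one_le_exp (1 / (2 * k1_b x t j))
            linarith
      _ = Real.exp (∑ j ∈ Finset.range n, 1 / (2 * k1_b x t j)) := (Real.exp_sum _ _).symm
      _ ≤ _ := Real.exp_le_exp.mpr hsum

theorem k1_lim {x t : ℝ} (hx : 0 < x) :
    Tendsto (fun n : ℕ => (n : ℝ) ^ 2 / k1_a x t (n + 1)) atTop (𝓝 1) := by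
  have h1 : Tendsto (fun n : ℕ => ((n : ℝ))⁻¹) atTop (𝓝 0) := tendsto_inv_atTop_nhds_zero_nat
  have h2 : Tendsto (fun n : ℕ => 1 / ((1 + (x + 1) * ((n : ℝ))⁻¹) ^ 2 +
      t ^ 2 * ((n : ℝ))⁻¹ ^ 2)) atTop (𝓝 (1 / ((1 + (x + 1) * 0) ^ 2 + t ^ 2 * 0 ^ 2))) := by
    refine Tendsto.div tendsto_const_nhds ?_ (by norm_num)
    exact ((tendsto_const_nhds.add (h1.const_mul _)).pow 2).add ((h1.pow 2).const_mul _)
  have h3 : (1 : ℝ) / ((1 + (x + 1) * 0) ^ 2 + t ^ 2 * 0 ^ 2) = 1 := by norm_num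
  rw [h3] at h2
  refine h2.congr' ?_
  filter_upwards [eventually_ge_atTop 1] with n hn
  have hn0 : (0 : ℝ) < n := by exact_mod_cast hn
  have ha := k1_a_pos (t := t) hx (n + 1)
  unfold k1_a at ha ⊢
  push_cast at ha ⊢
  have h4 : (1 + (x + 1) * ((n : ℝ))⁻¹) ^ 2 + t ^ 2 * ((n : ℝ))⁻¹ ^ 2 =
      ((x + (n + 1)) ^ 2 + t ^ 2) / (n : ℝ) ^ 2 := by
    field_simp
    ring
  rw [h4, one_div_div]

/-- the two sided estimate -/
theorem k1_two {x t : ℝ} (hx : 1 ≤ x) (ht : 1 ≤ |t|) :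
    Real.exp (-(2 / |t|)) * (x ^ 2 + t ^ 2) ≤
        (‖Gamma (x + 1 / 2 + t * I)‖ ^ 2 / ‖Gamma (x + t * I)‖ ^ 2) ^ 2 ∧
      (‖Gamma (x + 1 / 2 + t * I)‖ ^ 2 / ‖Gamma (x + t * I)‖ ^ 2) ^ 2 ≤
        Real.exp (1 / |t|) * (x ^ 2 + t ^ 2) := by
  have hx0 : 0 < x := by linarith
  have hG : Gamma (x + t * I) ≠ 0 := by
    refine Gamma_ne_zero_of_re_pos ?_
    simpa using hx0
  set Y : ℕ → ℝ := fun n => (‖GammaSeq (x + 1 / 2 + t * I) n‖ ^ 2 /
    ‖GammaSeq (x + t * I) n‖ ^ 2) ^ 2 with hY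
  have hlim : Tendsto Y atTop (𝓝 ((‖Gamma (x + 1 / 2 + t * I)‖ ^ 2 /
      ‖Gamma (x + t * I)‖ ^ 2) ^ 2)) := by
    refine Tendsto.pow (Tendsto.div ?_ ?_ ?_) 2
    · exact ((GammaSeq_tendsto_Gamma _).norm).pow 2
    · exact ((GammaSeq_tendsto_Gamma _).norm).pow 2
    · exact pow_ne_zero _ (norm_ne_zero_iff.mpr hG)
  have hYe : ∀ n : ℕ, 1 ≤ n → Y n = ((n : ℝ) ^ 2 / k1_a x t (n + 1)) *
      ((x ^ 2 + t ^ 2) * ∏ j ∈ Finset.range (n + 1), k1_q x t j) := by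
    intro n hn
    simp only [hY]
    rw [k1_seq hx0 hn, mul_pow, k1_tel hx0]
    have h0 : k1_a x t 0 = x ^ 2 + t ^ 2 := by
      unfold k1_a
      simp
    rw [h0]
    ring
  have hc0 : 0 ≤ x ^ 2 + t ^ 2 := by positivity
  constructor
  · have h2 : Tendsto (fun n : ℕ => ((n : ℝ) ^ 2 / k1_a x t (n + 1)) *
        ((x ^ 2 + t ^ 2) * Real.exp (-(2 / |t|)))) atTop
          (𝓝 (1 * ((x ^ 2 + t ^ 2) * Real.exp (-(2 / |t|))))) :=
      (k1_lim hx0).mul_const _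
    have h3 : Real.exp (-(2 / |t|)) * (x ^ 2 + t ^ 2) =
        1 * ((x ^ 2 + t ^ 2) * Real.exp (-(2 / |t|))) := by ring
    rw [h3]
    refine le_of_tendsto_of_tendsto h2 hlim ?_
    filter_upwards [eventually_ge_atTop 1] with n hn
    rw [hYe n hn]
    have ha := k1_a_pos (t := t) hx0 (n + 1)
    exact mul_le_mul_of_nonneg_left (mul_le_mul_of_nonneg_left (k1_prod hx ht _).1 hc0)
      (by positivity)
  · refine le_of_tendsto hlim ?_
    filter_upwards [eventually_ge_atTop 1] with n hn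
    rw [hYe n hn]
    have ha := k1_a_pos (t := t) hx0 (n + 1)
    have h3 : (n : ℝ) ^ 2 / k1_a x t (n + 1) ≤ 1 := by
      rw [div_le_one ha]
      unfold k1_a
      push_cast
      nlinarith [sq_nonneg t, (Nat.cast_nonneg n : (0 : ℝ) ≤ n)]
    have h4 : 0 ≤ (x ^ 2 + t ^ 2) * ∏ j ∈ Finset.range (n + 1), k1_q x t j :=
      mul_nonneg hc0 ((Real.exp_pos _).le.trans (k1_prod hx ht _).1)
    calc _ ≤ 1 * ((x ^ 2 + t ^ 2) * ∏ j ∈ Finset.range (n + 1), k1_q x t j) := by gcongr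
      _ ≤ 1 * ((x ^ 2 + t ^ 2) * Real.exp (1 / |t|)) := by
          gcongr
          exact (k1_prod hx ht _).2
      _ = _ := by ring

theorem gamma_half : ∃ C : ℝ, 0 ≤ C ∧ ∀ ε t : ℝ, 0 ≤ ε → ε ≤ 1 / 2 → 1 ≤ |t| →
    |‖Gamma (3 / 2 + ε + t * I)‖ ^ 2 / (|t| * ‖Gamma (1 + ε + t * I)‖ ^ 2) - 1| ≤ C / |t| := by
  refine ⟨10, by norm_num, fun ε t h0 h1 ht => ?_⟩
  have ht0 : 0 < |t| := by linarith
  have hx : 1 ≤ 1 + ε := by linarith
  have key := k1_two hx ht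
  have e1 : ((((1 + ε : ℝ)) : ℂ) + 1 / 2 + t * I) = 3 / 2 + ε + t * I := by
    push_cast
    ring
  have e2 : ((((1 + ε : ℝ)) : ℂ) + t * I) = 1 + ε + t * I := by
    push_cast
    ring
  rw [e1, e2] at key
  set R : ℝ := ‖Gamma (3 / 2 + ε + t * I)‖ ^ 2 / ‖Gamma (1 + ε + t * I)‖ ^ 2 with hR
  have hR0 : 0 ≤ R := by positivity
  have e3 : ‖Gamma (3 / 2 + ε + t * I)‖ ^ 2 / (|t| * ‖Gamma (1 + ε + t * I)‖ ^ 2) =
      R / |t| := by
    rw [hR, div_div, mul_comm |t|]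
  rw [e3]
  set y : ℝ := R / |t| with hy
  have hy0 : 0 ≤ y := by positivity
  have hyR : R ^ 2 = y ^ 2 * t ^ 2 := by
    have h5 : R = y * |t| := by
      rw [hy]
      exact (div_mul_cancel₀ R ht0.ne').symm
    rw [h5, mul_pow, sq_abs]
  rw [hyR] at key
  obtain ⟨k1, k2⟩ := key
  have ht2 : t ^ 2 = |t| ^ 2 := (sq_abs t).symm
  set T : ℝ := |t| with hT
  rw [ht2] at k1 k2
  have hT2 : 0 < T ^ 2 := by positivity
  -- lower bound
  have l1 : 1 - 2 / T ≤ y ^ 2 := by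
    have h2 : 1 - 2 / T ≤ Real.exp (-(2 / T)) := by
      have := Real.add_one_le_exp (-(2 / T))
      linarith
    have h3 : Real.exp (-(2 / T)) * T ^ 2 ≤ y ^ 2 * T ^ 2 := by
      refine le_trans ?_ k1
      have : 0 < Real.exp (-(2 / T)) := Real.exp_pos _
      gcongr
      nlinarith [sq_nonneg (1 + ε)]
    exact h2.trans (le_of_mul_le_mul_right h3 hT2)
  have l2 : y ^ 2 ≤ 1 + 10 / T := by
    have hu0 : 0 ≤ 1 / T := by positivity
    have hu1 : 1 / T ≤ 1 := by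
      rw [div_le_one ht0]
      exact ht
    have h2 : Real.exp (1 / T) ≤ 1 + 2 * (1 / T) := by
      have h8 := (abs_le.mp (Real.abs_exp_sub_one_sub_id_le (x := 1 / T)
        (by rw [abs_of_nonneg hu0]; exact hu1))).2
      nlinarith
    have h3 : y ^ 2 * T ^ 2 ≤ ((1 + 2 * (1 / T)) * (1 + 9 / 4 * (1 / T) ^ 2)) * T ^ 2 := by
      refine k2.trans ?_
      have h4 : (1 + ε) ^ 2 + T ^ 2 ≤ (1 + 9 / 4 * (1 / T) ^ 2) * T ^ 2 := by
        have : (1 + 9 / 4 * (1 / T) ^ 2) * T ^ 2 = T ^ 2 + 9 / 4 := by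
          field_simp
        rw [this]
        nlinarith
      calc Real.exp (1 / T) * ((1 + ε) ^ 2 + T ^ 2)
          ≤ (1 + 2 * (1 / T)) * ((1 + 9 / 4 * (1 / T) ^ 2) * T ^ 2) := by
            gcongr
        _ = _ := by ring
    have h5 := le_of_mul_le_mul_right h3 hT2
    refine h5.trans ?_
    have h6 : 10 / T = 10 * (1 / T) := by ring
    rw [h6]
    nlinarith [mul_nonneg hu0 hu0, mul_nonneg (mul_nonneg hu0 hu0) hu0,
      mul_le_mul_of_nonneg_left hu1 hu0, mul_le_mul_of_nonneg_left hu1 (mul_nonneg hu0 hu0)]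
  have h7 : |y - 1| ≤ |y ^ 2 - 1| := by
    have : y ^ 2 - 1 = (y - 1) * (y + 1) := by ring
    rw [this, abs_mul]
    have h8 : 1 ≤ |y + 1| := by
      rw [abs_of_nonneg (by linarith)]
      linarith
    nlinarith [abs_nonneg (y - 1)]
  refine h7.trans ?_
  rw [abs_le]
  constructor
  · have : 2 / T ≤ 10 / T := by gcongr; norm_num
    linarith
  · linarith


end Pool.Agent.HI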