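import Pool.Agent.Lib_helper25.HIF.DX
import Pool.Agent.Lib_helper25.HIF.K1

/-!
# Project HI, block K0: the asymptotics of the kernels
-/

namespace Pool.Agent.HI
open Complex MeasureTheory Set Filter Topology
open Pool.Agent.HB (Kb Adm)

theorem k0_poch (s : ℂ) (hs : 0 < s.re) (q : ℕ) :
    Gamma (s + q) = (∏ j ∈ Finset.range q, (s + j)) * Gamma s := by
  induction q with
  | zero => simp
  | succ q ih =>
    have h0 : s + (q : ℂ) ≠ 0 := by
      intro h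
      have h1 := congrArg Complex.re h
      simp at h1
      have : (0 : ℝ) ≤ q := Nat.cast_nonneg q
      linarith
    have h1 : s + ((q + 1 : ℕ) : ℂ) = (s + q) + 1 := by
      push_cast
      ring
    rw [h1, Gamma_add_one _ h0, ih, Finset.prod_range_succ]
    ring

/-- products close to one -/
theorem k0_mul {a b : ℂ} {α β T : ℝ} (hT : 1 ≤ T) (hα : 0 ≤ α) (hβ : 0 ≤ β)
    (ha : ‖a - 1‖ ≤ α / T) (hb : ‖b - 1‖ ≤ β / T) :
    ‖a * b - 1‖ ≤ (α * (1 + β) + β) / T := by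
  have hT0 : 0 < T := by linarith
  have h1 : a * b - 1 = (a - 1) * b + (b - 1) := by ring
  have h2 : ‖b‖ ≤ 1 + β := by
    have h3 : b = (b - 1) + 1 := by ring
    calc ‖b‖ = ‖(b - 1) + 1‖ := by rw [← h3]
      _ ≤ ‖b - 1‖ + ‖(1 : ℂ)‖ := norm_add_le _ _
      _ ≤ β / T + 1 := by
          rw [norm_one]
          linarith
      _ ≤ 1 + β := by
          have : β / T ≤ β := div_le_self hβ hT
          linarith
  calc ‖a * b - 1‖ = ‖(a - 1) * b + (b - 1)‖ := by rw [h1]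
    _ ≤ ‖a - 1‖ * ‖b‖ + ‖b - 1‖ := by
        refine (norm_add_le _ _).trans ?_
        rw [norm_mul]
    _ ≤ α / T * (1 + β) + β / T := by gcongr
    _ = _ := by ring

/-- the product over the shifted factors -/
theorem k0_prod (q : ℕ) {c t : ℝ} (hc0 : 0 ≤ c) (hc : c ≤ 2) (ht : 1 ≤ |t|) :
    ‖I ^ q * (t : ℂ) ^ q / (∏ j ∈ Finset.range q, ((c + j : ℝ) + t * I : ℂ)) - 1‖ ≤
      (q * (q + 2) : ℝ) / |t| := by
  have ht0 : 0 < |t| := by linarith
  have htn : t ≠ 0 := abs_pos.mp ht0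
  have hne : ∀ j : ℕ, ((c + j : ℝ) + t * I : ℂ) ≠ 0 := by
    intro j h
    have h1 := congrArg Complex.im h
    simp at h1
    exact htn h1
  have hnt : ∀ j : ℕ, |t| ≤ ‖((c + j : ℝ) + t * I : ℂ)‖ := by
    intro j
    have h1 := Complex.abs_im_le_norm ((c + j : ℝ) + t * I : ℂ)
    simpa using h1
  set r : ℕ → ℂ := fun j => I * t / ((c + j : ℝ) + t * I : ℂ) with hr
  have hr1 : ∀ j, ‖r j‖ ≤ 1 := by
    intro j
    simp only [hr]
    rw [norm_div, norm_mul, norm_I, one_mul, Complex.norm_real, Real.norm_eq_abs]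
    exact (div_le_one (lt_of_lt_of_le ht0 (hnt j))).mpr (hnt j)
  have hr2 : ∀ j : ℕ, ‖r j - 1‖ ≤ (c + j) / |t| := by
    intro j
    have h1 : r j - 1 = -((c + j : ℝ) : ℂ) / ((c + j : ℝ) + t * I : ℂ) := by
      simp only [hr]
      rw [div_sub_one (hne j)]
      congr 1
      ring
    have hcj : 0 ≤ c + (j : ℝ) := by positivity
    rw [h1, norm_div, norm_neg, Complex.norm_real, Real.norm_eq_abs, abs_of_nonneg hcj]
    exact div_le_div_of_nonneg_left hcj ht0 (hnt j)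
  have hprod : ∀ n : ℕ, ‖∏ j ∈ Finset.range n, r j‖ ≤ 1 ∧
      ‖∏ j ∈ Finset.range n, r j - 1‖ ≤ ∑ j ∈ Finset.range n, (c + j) / |t| := by
    intro n
    induction n with
    | zero => simp
    | succ n ih =>
      rw [Finset.prod_range_succ, Finset.sum_range_succ]
      constructor
      · rw [norm_mul]
        exact mul_le_one₀ ih.1 (norm_nonneg _) (hr1 n)
      · have h1 : (∏ j ∈ Finset.range n, r j) * r n - 1 =
            (∏ j ∈ Finset.range n, r j) * (r n - 1) + (∏ j ∈ Finset.range n, r j - 1) := by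
          ring
        rw [h1]
        refine (norm_add_le _ _).trans ?_
        rw [norm_mul]
        have h2 : ‖∏ j ∈ Finset.range n, r j‖ * ‖r n - 1‖ ≤ 1 * ((c + n) / |t|) :=
          mul_le_mul ih.1 (hr2 n) (norm_nonneg _) (by norm_num)
        linarith [ih.2]
  have h1 : I ^ q * (t : ℂ) ^ q / (∏ j ∈ Finset.range q, ((c + j : ℝ) + t * I : ℂ)) =
      ∏ j ∈ Finset.range q, r j := by
    simp only [hr]
    rw [Finset.prod_div_distrib, Finset.prod_const, Finset.card_range, mul_pow]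
  rw [h1]
  refine (hprod q).2.trans ?_
  rw [← Finset.sum_div]
  refine div_le_div_of_nonneg_right ?_ ht0.le
  calc ∑ j ∈ Finset.range q, (c + (j : ℝ)) ≤ ∑ _j ∈ Finset.range q, ((q : ℝ) + 2) := by
        refine Finset.sum_le_sum fun j hj => ?_
        have : (j : ℝ) ≤ q := by exact_mod_cast (Finset.mem_range.mp hj).le
        linarith
    _ = _ := by
        rw [Finset.sum_const, Finset.card_range, nsmul_eq_mul]

theorem k0_sign {t : ℝ} (ht : t ≠ 0) : Real.sign t * |t|⁻¹ = t⁻¹ := by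
  rcases lt_or_gt_of_ne ht with h | h
  · rw [Real.sign_of_neg h, abs_of_neg h, inv_neg]
    ring
  · rw [Real.sign_of_pos h, abs_of_pos h, one_mul]

theorem k0_sign' {t : ℝ} (ht : t ≠ 0) : Real.sign t = t * |t|⁻¹ := by
  have h := k0_sign ht
  have h1 : |t|⁻¹ ≠ 0 := inv_ne_zero (abs_ne_zero.mpr ht)
  rcases lt_or_gt_of_ne ht with h2 | h2
  · rw [Real.sign_of_neg h2, abs_of_neg h2]
    field_simp
  · rw [Real.sign_of_pos h2, abs_of_pos h2]
    field_simp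

/-- the main term -/
theorem k0_main (q : ℕ) {ε t : ℝ} (ht : t ≠ 0) :
    Real.sign t ^ q * hh q ε t = (t ^ q)⁻¹ / ‖Gamma (1 + ε + t * I)‖ ^ 2 := by
  unfold hh
  rw [← mul_div_assoc]
  congr 1
  rw [← inv_pow, ← mul_pow, k0_sign ht, inv_pow]

theorem k0_hh_nonneg (q : ℕ) (ε t : ℝ) : 0 ≤ hh q ε t := by
  unfold hh
  positivity

theorem k0_norm_main (q k : ℕ) {ε t : ℝ} (ht : t ≠ 0) :
    ‖((Real.sign t ^ k * hh q ε t : ℝ) : ℂ)‖ = hh q ε t := by
  have h1 : |Real.sign t| = 1 := by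
    rcases lt_or_gt_of_ne ht with h | h
    · rw [Real.sign_of_neg h]
      simp
    · rw [Real.sign_of_pos h]
      simp
  rw [Complex.norm_real, Real.norm_eq_abs, abs_mul, abs_pow, h1, one_pow, one_mul,
    abs_of_nonneg (k0_hh_nonneg q ε t)]

/-- reduction to a factor close to one -/
theorem k0_close {z m F : ℂ} {h C T : ℝ} (hz : z = m * F) (hm : ‖m‖ = h)
    (hF : ‖F - 1‖ ≤ C / T) : ‖z - m‖ ≤ C / T * h := by
  have hh0 : 0 ≤ h := hm ▸ norm_nonneg m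
  have h1 : z - m = m * (F - 1) := by rw [hz]; ring
  rw [h1, norm_mul, hm, mul_comm]
  exact mul_le_mul_of_nonneg_right hF hh0

/-- the product of the conjugate values -/
theorem k0_conj (c t : ℝ) : Gamma (c - t * I) * Gamma (c + t * I) =
    ((‖Gamma (c + t * I)‖ ^ 2 : ℝ) : ℂ) := by
  have h1 : ((c : ℂ) - t * I) = (starRingEnd ℂ) ((c : ℂ) + t * I) := by
    simp [sub_eq_add_neg]
  rw [h1, Gamma_conj, mul_comm, Complex.mul_conj, Complex.normSq_eq_norm_sq]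

theorem kn_asy0 (q : ℕ) (ν : ℂ) : ∃ C : ℝ, 0 ≤ C ∧ ∀ ε t : ℝ, 0 < ε → ε ≤ 1 / 2 → 1 ≤ |t| →
    ‖kn q ν 0 ε t - ((Real.sign t ^ q * hh q ε t : ℝ) : ℂ)‖ ≤ C / |t| * hh q ε t := by
  refine ⟨q * (q + 2), by positivity, fun ε t h0 h1 ht => ?_⟩
  have ht0 : 0 < |t| := by linarith
  have htn : t ≠ 0 := abs_pos.mp ht0
  have hG : Gamma (((1 + ε : ℝ) : ℂ) + t * I) ≠ 0 := by
    refine Gamma_ne_zero_of_re_pos ?_
    simp
    linarith
  have hGn : ((‖Gamma (((1 + ε : ℝ) : ℂ) + t * I)‖ ^ 2 : ℝ) : ℂ) ≠ 0 := by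
    exact_mod_cast pow_ne_zero 2 (norm_ne_zero_iff.mpr hG)
  refine k0_close (F := I ^ q * (t : ℂ) ^ q /
    (∏ j ∈ Finset.range q, (((1 + ε) + j : ℝ) + t * I : ℂ))) ?_ (k0_norm_main q q htn)
    (k0_prod q (c := 1 + ε) (by linarith) (by linarith) ht)
  have e1 : (1 + (ε : ℂ) - t * I) = ((1 + ε : ℝ) : ℂ) - t * I := by push_cast; ring
  have e2 : (1 + (ε : ℂ) + q + t * I) = (((1 + ε : ℝ) : ℂ) + t * I) + q := by push_cast; ring
  have e3 : (1 + (ε : ℂ) + t * I) = ((1 + ε : ℝ) : ℂ) + t * I := by push_cast; ring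
  have e4 : ∏ j ∈ Finset.range q, (((1 + ε : ℝ) : ℂ) + t * I + j) =
      ∏ j ∈ Finset.range q, (((1 + ε) + j : ℝ) + t * I : ℂ) := by
    refine Finset.prod_congr rfl fun j _ => ?_
    push_cast
    ring
  rw [k0_main q htn]
  unfold kn
  rw [if_pos rfl, e1, e2, k0_poch _ (by simp; linarith), e3, e4]
  have hP : ∏ j ∈ Finset.range q, (((1 + ε) + j : ℝ) + t * I : ℂ) ≠ 0 := by
    refine Finset.prod_ne_zero_iff.mpr fun j _ h => ?_
    have h1 := congrArg Complex.im h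
    simp at h1
    exact htn h1
  have hc := k0_conj (1 + ε) t
  have hden : Gamma (((1 + ε : ℝ) : ℂ) - t * I) *
      ((∏ j ∈ Finset.range q, (((1 + ε) + j : ℝ) + t * I : ℂ)) *
        Gamma (((1 + ε : ℝ) : ℂ) + t * I)) =
      (∏ j ∈ Finset.range q, (((1 + ε) + j : ℝ) + t * I : ℂ)) *
        ((‖Gamma (((1 + ε : ℝ) : ℂ) + t * I)‖ ^ 2 : ℝ) : ℂ) := by
    rw [← hc]
    ring
  rw [hden]
  have htq : (t : ℂ) ^ q ≠ 0 := pow_ne_zero _ (by exact_mod_cast htn)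
  have hn1 : (‖Gamma (((1 + ε : ℝ) : ℂ) + t * I)‖ : ℂ) ≠ 0 := by
    exact_mod_cast norm_ne_zero_iff.mpr hG
  generalize (∏ j ∈ Finset.range q, (((1 + ε) + j : ℝ) + t * I : ℂ)) = P at *
  generalize ‖Gamma (((1 + ε : ℝ) : ℂ) + t * I)‖ = A at *
  push_cast
  field_simp

/-- the inverse of the quotient -/
theorem k0_rho : ∃ C : ℝ, 0 ≤ C ∧ ∀ ε t : ℝ, 0 < ε → ε ≤ 1 / 2 → 1 ≤ |t| →
    ‖(((|t| * ‖Gamma (((1 + ε : ℝ) : ℂ) + t * I)‖ ^ 2 /
      ‖Gamma (((3 / 2 + ε : ℝ) : ℂ) + t * I)‖ ^ 2 : ℝ)) : ℂ) - 1‖ ≤ C / |t| := by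
  obtain ⟨C, hC, h⟩ := Pool.Agent.HI.gamma_half
  refine ⟨3 * C, by positivity, fun ε t h0 h1 ht => ?_⟩
  have ht0 : 0 < |t| := by linarith
  have h2 := h ε t h0.le h1 ht
  have hk := (Pool.Agent.HI.k1_two (x := 1 + ε) (by linarith) ht).1
  have e1 : ((((1 + ε : ℝ)) : ℂ) + 1 / 2 + t * I) = ((3 / 2 + ε : ℝ) : ℂ) + t * I := by
    push_cast
    ring
  have e2 : (3 / 2 + (ε : ℂ) + t * I) = ((3 / 2 + ε : ℝ) : ℂ) + t * I := by push_cast; ring
  have e3 : (1 + (ε : ℂ) + t * I) = ((1 + ε : ℝ) : ℂ) + t * I := by push_cast; ring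
  rw [e1] at hk
  rw [e2, e3] at h2
  have hG1 : 0 < ‖Gamma (((1 + ε : ℝ) : ℂ) + t * I)‖ := by
    refine norm_pos_iff.mpr (Gamma_ne_zero_of_re_pos ?_)
    simp
    linarith
  have hG2 : 0 < ‖Gamma (((3 / 2 + ε : ℝ) : ℂ) + t * I)‖ := by
    refine norm_pos_iff.mpr (Gamma_ne_zero_of_re_pos ?_)
    simp
    linarith
  set A : ℝ := ‖Gamma (((1 + ε : ℝ) : ℂ) + t * I)‖ ^ 2 with hA
  set B : ℝ := ‖Gamma (((3 / 2 + ε : ℝ) : ℂ) + t * I)‖ ^ 2 with hB
  have hA0 : 0 < A := by positivity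
  have hB0 : 0 < B := by positivity
  clear_value A B
  set ρ : ℝ := B / (|t| * A) with hρ
  have hρ0 : 0 < ρ := by positivity
  have hBA : B / A = ρ * |t| := by
    rw [hρ]
    field_simp
  rw [hBA] at hk
  have hρ3 : 1 ≤ 3 * ρ := by
    by_contra hcon
    push Not at hcon
    have h3 : Real.exp (-2) * |t| ^ 2 ≤ (ρ * |t|) ^ 2 := by
      refine le_trans ?_ hk
      have h4 : Real.exp (-2) ≤ Real.exp (-(2 / |t|)) := by
        refine Real.exp_le_exp.mpr ?_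
        have : 2 / |t| ≤ 2 := div_le_self (by norm_num) ht
        linarith
      have h5 : |t| ^ 2 ≤ (1 + ε) ^ 2 + t ^ 2 := by
        rw [sq_abs]
        nlinarith [sq_nonneg (1 + ε)]
      exact mul_le_mul h4 h5 (by positivity) (Real.exp_pos _).le
    have h6 : Real.exp (-2) ≤ ρ ^ 2 := by
      have h7 : (ρ * |t|) ^ 2 = ρ ^ 2 * |t| ^ 2 := by ring
      rw [h7] at h3
      exact le_of_mul_le_mul_right h3 (by positivity)
    have h8 : Real.exp (-2) * Real.exp 2 = 1 := by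
      rw [← Real.exp_add]
      simp
    have h9 : Real.exp 2 < 9 := by
      have h10 : Real.exp 2 = Real.exp 1 ^ 2 := by
        rw [← Real.exp_nat_mul]
        norm_num
      rw [h10]
      have h11 := Real.exp_one_lt_d9
      have h12 := Real.exp_pos 1
      nlinarith
    have h10 : ρ ^ 2 < 1 / 9 := by nlinarith
    nlinarith [Real.exp_pos (-2), Real.exp_pos 2]
  have e4 : |t| * A / B = ρ⁻¹ := by
    rw [hρ, inv_div]
  rw [e4]
  have h5 : ((ρ⁻¹ : ℝ) : ℂ) - 1 = (((1 - ρ) / ρ : ℝ) : ℂ) := by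
    push_cast
    have : (ρ : ℂ) ≠ 0 := by exact_mod_cast hρ0.ne'
    field_simp
  rw [h5, Complex.norm_real, Real.norm_eq_abs, abs_div, abs_of_pos hρ0, div_le_iff₀ hρ0,
    abs_sub_comm]
  refine h2.trans ?_
  have h6 : 0 ≤ C / |t| := by positivity
  have h7 : 3 * C / |t| * ρ = C / |t| * (3 * ρ) := by ring
  rw [h7]
  nlinarith

theorem kn_asy1 (q : ℕ) (ν : ℂ) : ∃ C : ℝ, 0 ≤ C ∧ ∀ ε t : ℝ, 0 < ε → ε ≤ 1 / 2 → 1 ≤ |t| →
    ‖kn q ν 1 ε t - ((Real.sign t ^ (q + 1) * hh q ε t : ℝ) : ℂ)‖ ≤ C / |t| * hh q ε t := by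
  obtain ⟨C, hC, hρ⟩ := k0_rho
  rcases Nat.eq_zero_or_pos q with hq | hq
  · -- `q = 0`
    subst hq
    set D : ℝ := 1 + (‖ν‖ ^ 2 + 1) / 4 with hD
    have hD0 : 0 ≤ D := by positivity
    refine ⟨C * (1 + D) + D, by positivity, fun ε t h0 h1 ht => ?_⟩
    have ht0 : 0 < |t| := by linarith
    have htn : t ≠ 0 := abs_pos.mp ht0
    have htc : (t : ℂ) ≠ 0 := by exact_mod_cast htn
    have hG1 : Gamma (((1 + ε : ℝ) : ℂ) + t * I) ≠ 0 := by
      refine Gamma_ne_zero_of_re_pos ?_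
      simp
      linarith
    have hG2 : Gamma (((3 / 2 + ε : ℝ) : ℂ) + t * I) ≠ 0 := by
      refine Gamma_ne_zero_of_re_pos ?_
      simp
      linarith
    have hs : ((3 / 2 + ε : ℝ) : ℂ) + t * I ≠ 0 := by
      intro h
      have h1 := congrArg Complex.im h
      simp at h1
      exact htn h1
    have hF : ‖-I * ((1 / 2 + t * I + ν / 2) * (1 / 2 + t * I - ν / 2)) /
        (t * (((3 / 2 + ε : ℝ) : ℂ) + t * I)) - 1‖ ≤ D / |t| := by
      have hden : (t : ℂ) * (((3 / 2 + ε : ℝ) : ℂ) + t * I) ≠ 0 := mul_ne_zero htc hs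
      rw [div_sub_one hden, norm_div]
      have e1 : -I * ((1 / 2 + t * I + ν / 2) * (1 / 2 + t * I - ν / 2)) -
          t * (((3 / 2 + ε : ℝ) : ℂ) + t * I) =
          -(t * ((1 / 2 + ε : ℝ) : ℂ)) + I * (ν ^ 2 - 1) / 4 := by
        push_cast
        linear_combination (-(t : ℂ) - t ^ 2 * I) * Complex.I_sq
      rw [e1]
      have h3 : |t| * |t| ≤ ‖(t : ℂ) * (((3 / 2 + ε : ℝ) : ℂ) + t * I)‖ := by
        rw [norm_mul, Complex.norm_real, Real.norm_eq_abs]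
        have h4 := Complex.abs_im_le_norm (((3 / 2 + ε : ℝ) : ℂ) + t * I)
        simp only [add_im, ofReal_im, mul_im, ofReal_re, I_im, mul_one, I_re, mul_zero,
          add_zero, zero_add] at h4
        gcongr
      have h4 : ‖-(t * ((1 / 2 + ε : ℝ) : ℂ)) + I * (ν ^ 2 - 1) / 4‖ ≤ D * |t| := by
        have h5 : ‖ν ^ 2 - 1‖ ≤ ‖ν‖ ^ 2 + 1 := by
          refine (norm_sub_le _ _).trans ?_
          rw [norm_pow, norm_one]
        calc _ ≤ ‖-(t * ((1 / 2 + ε : ℝ) : ℂ))‖ + ‖I * (ν ^ 2 - 1) / 4‖ := norm_add_le _ _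
          _ ≤ |t| * 1 + (‖ν‖ ^ 2 + 1) / 4 := by
              rw [norm_neg, norm_mul, Complex.norm_real, Real.norm_eq_abs, Complex.norm_real,
                Real.norm_eq_abs, norm_div, norm_mul, norm_I, one_mul]
              have h6 : |1 / 2 + ε| ≤ 1 := by
                rw [abs_of_nonneg (by linarith)]
                linarith
              have h7 : ‖(4 : ℂ)‖ = 4 := by simp
              rw [h7]
              gcongr
          _ ≤ D * |t| := by
              rw [hD]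
              have : 0 ≤ (‖ν‖ ^ 2 + 1) / 4 := by positivity
              nlinarith
      rw [div_le_div_iff₀ (lt_of_lt_of_le (by positivity) h3) ht0]
      calc _ ≤ (D * |t|) * |t| := by gcongr
        _ = D * (|t| * |t|) := by ring
        _ ≤ _ := by gcongr
    have hmul := k0_mul ht hC hD0 (hρ ε t h0 h1 ht) hF
    refine k0_close ?_ (k0_norm_main 0 (0 + 1) htn) hmul
    have e1 : (3 / 2 + (ε : ℂ) - t * I) = ((3 / 2 + ε : ℝ) : ℂ) - t * I := by push_cast; ring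
    have e2 : (5 / 2 + (ε : ℂ) + t * I) = (((3 / 2 + ε : ℝ) : ℂ) + t * I) + 1 := by
      push_cast
      ring
    have e3 : (1 + (ε : ℂ) + t * I) = ((1 + ε : ℝ) : ℂ) + t * I := by push_cast; ring
    unfold kn hh
    rw [if_neg (by norm_num), if_pos rfl, e1, e2, Gamma_add_one _ hs, e3, zero_add, pow_one,
      k0_sign' htn]
    have hc := k0_conj (3 / 2 + ε) t
    have hden : Gamma (((3 / 2 + ε : ℝ) : ℂ) - t * I) *
        ((((3 / 2 + ε : ℝ) : ℂ) + t * I) * Gamma (((3 / 2 + ε : ℝ) : ℂ) + t * I)) =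
        (((3 / 2 + ε : ℝ) : ℂ) + t * I) *
          ((‖Gamma (((3 / 2 + ε : ℝ) : ℂ) + t * I)‖ ^ 2 : ℝ) : ℂ) := by
      rw [← hc]
      ring
    rw [hden]
    have hn1 : (‖Gamma (((1 + ε : ℝ) : ℂ) + t * I)‖ : ℂ) ≠ 0 := by
      exact_mod_cast norm_ne_zero_iff.mpr hG1
    have hn2 : (‖Gamma (((3 / 2 + ε : ℝ) : ℂ) + t * I)‖ : ℂ) ≠ 0 := by
      exact_mod_cast norm_ne_zero_iff.mpr hG2
    have htabs : ((|t| : ℝ) : ℂ) ≠ 0 := by exact_mod_cast ht0.ne'
    generalize hX : (((3 / 2 + ε : ℝ) : ℂ) + t * I) = X at *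
    generalize hA : ‖Gamma (((1 + ε : ℝ) : ℂ) + t * I)‖ = A at *
    generalize hB : ‖Gamma X‖ = B at *
    push_cast
    field_simp
  · -- `q ≥ 1`
    set D : ℝ := ‖(1 / 2 + (q + ν) / 2 : ℂ)‖ with hD
    have hD0 : 0 ≤ D := by positivity
    set E : ℝ := (q * (q + 2) : ℝ) with hE
    have hE0 : 0 ≤ E := by positivity
    refine ⟨C * (1 + (D * (1 + E) + E)) + (D * (1 + E) + E), by positivity,
      fun ε t h0 h1 ht => ?_⟩
    have ht0 : 0 < |t| := by linarith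
    have htn : t ≠ 0 := abs_pos.mp ht0
    have htc : (t : ℂ) ≠ 0 := by exact_mod_cast htn
    have hG1 : Gamma (((1 + ε : ℝ) : ℂ) + t * I) ≠ 0 := by
      refine Gamma_ne_zero_of_re_pos ?_
      simp
      linarith
    have hG2 : Gamma (((3 / 2 + ε : ℝ) : ℂ) + t * I) ≠ 0 := by
      refine Gamma_ne_zero_of_re_pos ?_
      simp
      linarith
    have hF1 : ‖-I * (1 / 2 + t * I + (q + ν) / 2) / t - 1‖ ≤ D / |t| := by
      have e1 : -I * (1 / 2 + t * I + (q + ν) / 2) / t - 1 =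
          -(I * (1 / 2 + (q + ν) / 2 : ℂ)) / t := by
        rw [div_sub_one htc]
        congr 1
        linear_combination (-(t : ℂ)) * Complex.I_sq
      rw [e1, norm_div, norm_neg, norm_mul, norm_I, one_mul, Complex.norm_real,
        Real.norm_eq_abs]
    have hF2 := k0_prod q (c := 3 / 2 + ε) (t := t) (by linarith) (by linarith) ht
    have hmul := k0_mul ht hC (by positivity) (hρ ε t h0 h1 ht) (k0_mul ht hD0 hE0 hF1 hF2)
    refine k0_close ?_ (k0_norm_main q (q + 1) htn) hmul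
    have e1 : (3 / 2 + (ε : ℂ) - t * I) = ((3 / 2 + ε : ℝ) : ℂ) - t * I := by push_cast; ring
    have e2 : (3 / 2 + (ε : ℂ) + q + t * I) = (((3 / 2 + ε : ℝ) : ℂ) + t * I) + q := by
      push_cast
      ring
    have e3 : (1 + (ε : ℂ) + t * I) = ((1 + ε : ℝ) : ℂ) + t * I := by push_cast; ring
    have e4 : ∏ j ∈ Finset.range q, (((3 / 2 + ε : ℝ) : ℂ) + t * I + j) =
        ∏ j ∈ Finset.range q, (((3 / 2 + ε) + j : ℝ) + t * I : ℂ) := by
      refine Finset.prod_congr rfl fun j _ => ?_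
      push_cast
      ring
    have hmain : Real.sign t ^ (q + 1) * hh q ε t =
        (t * |t|⁻¹) * ((t ^ q)⁻¹ / ‖Gamma (1 + ε + t * I)‖ ^ 2) := by
      rw [pow_succ, mul_right_comm, k0_main q htn, k0_sign' htn]
      ring
    rw [hmain]
    unfold kn
    rw [if_neg (by norm_num), if_neg (by omega), e1, e2, k0_poch _ (by simp; linarith), e3, e4]
    have hP : ∏ j ∈ Finset.range q, (((3 / 2 + ε) + j : ℝ) + t * I : ℂ) ≠ 0 := by
      refine Finset.prod_ne_zero_iff.mpr fun j _ h => ?_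
      have h1 := congrArg Complex.im h
      simp at h1
      exact htn h1
    have hc := k0_conj (3 / 2 + ε) t
    have hden : Gamma (((3 / 2 + ε : ℝ) : ℂ) - t * I) *
        ((∏ j ∈ Finset.range q, (((3 / 2 + ε) + j : ℝ) + t * I : ℂ)) *
          Gamma (((3 / 2 + ε : ℝ) : ℂ) + t * I)) =
        (∏ j ∈ Finset.range q, (((3 / 2 + ε) + j : ℝ) + t * I : ℂ)) *
          ((‖Gamma (((3 / 2 + ε : ℝ) : ℂ) + t * I)‖ ^ 2 : ℝ) : ℂ) := by
      rw [← hc]
      ring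
    rw [hden]
    have hn1 : (‖Gamma (((1 + ε : ℝ) : ℂ) + t * I)‖ : ℂ) ≠ 0 := by
      exact_mod_cast norm_ne_zero_iff.mpr hG1
    have hn2 : (‖Gamma (((3 / 2 + ε : ℝ) : ℂ) + t * I)‖ : ℂ) ≠ 0 := by
      exact_mod_cast norm_ne_zero_iff.mpr hG2
    have htabs : ((|t| : ℝ) : ℂ) ≠ 0 := by exact_mod_cast ht0.ne'
    have htq : (t : ℂ) ^ q ≠ 0 := pow_ne_zero _ htc
    generalize (∏ j ∈ Finset.range q, (((3 / 2 + ε) + j : ℝ) + t * I : ℂ)) = P at *
    generalize ‖Gamma (((1 + ε : ℝ) : ℂ) + t * I)‖ = A at *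
    generalize ‖Gamma (((3 / 2 + ε : ℝ) : ℂ) + t * I)‖ = B at *
    push_cast
    rw [pow_succ]
    field_simp


end Pool.Agent.HI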