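import Pool.Agent.Lib_helper25.HIF.DX
import Pool.Agent.Lib_helper99.HBF.GR

/-!
# Project HI: block K2, the factors of the kernels
-/

namespace Pool.Agent.HI
open Complex MeasureTheory Set Filter Topology
open Pool.Agent.HB (Kb Adm)

/-- a positive lower bound for a product of two Gamma values on a compact interval -/
theorem k2_low {D a b : ℂ} (hD : D ≠ 0) (ha : 0 < a.re) (hb : 0 < b.re) :
    ∃ c : ℝ, 0 < c ∧ ∀ ε : ℝ, 0 < ε → ε ≤ 1 / 2 → c ≤ ‖D * (Gamma (a + ε) * Gamma (b + ε))‖ := by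
  have hga : ∀ (w : ℂ), 0 < w.re → ∀ ε : ℝ, 0 ≤ ε →
      Gamma (w + ε) ≠ 0 ∧ ContinuousAt (fun ε : ℝ => Gamma (w + ε)) ε := by
    intro w hw ε hε
    have hre : 0 < (w + ε : ℂ).re := by simp; linarith
    refine ⟨Gamma_ne_zero_of_re_pos hre, ?_⟩
    have h1 : ContinuousAt Gamma (w + ε : ℂ) := by
      refine (Complex.differentiableAt_Gamma _ fun m => ?_).continuousAt
      intro h
      rw [h] at hre
      simp at hre
      have h3 : (0 : ℝ) ≤ m := Nat.cast_nonneg m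
      linarith
    have h2 : ContinuousAt (fun ε : ℝ => (w + ε : ℂ)) ε := by fun_prop
    exact h1.comp_of_eq h2 rfl
  have hcont : ContinuousOn (fun ε : ℝ => ‖D * (Gamma (a + ε) * Gamma (b + ε))‖)
      (Icc 0 (1 / 2)) := by
    intro ε hε
    refine ContinuousAt.continuousWithinAt (ContinuousAt.norm ?_)
    exact continuousAt_const.mul ((hga a ha ε hε.1).2.mul (hga b hb ε hε.1).2)
  obtain ⟨ε₀, hε₀, hmin⟩ := isCompact_Icc.exists_isMinOn (nonempty_Icc.2 (by norm_num)) hcont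
  refine ⟨‖D * (Gamma (a + ε₀) * Gamma (b + ε₀))‖, ?_, fun ε h0 h1 => hmin ⟨h0.le, h1⟩⟩
  exact norm_pos_iff.2 (mul_ne_zero hD (mul_ne_zero (hga a ha ε₀ hε₀.1).1 (hga b hb ε₀ hε₀.1).1))

theorem k2_re {q : ℕ} {ν : ℂ} (h : Ad q ν) : -1 < ν.re ∧ ν.re < 1 := by
  rcases h with h | ⟨_, _, h⟩
  · rw [h]; norm_num
  · exact abs_lt.1 h

theorem kp_fac {q : ℕ} {ν : ℂ} (had : Ad q ν) {i : ℕ} (hi : i ≤ 1) : ∃ (G : ℝ → ℂ) (c : ℝ),
    0 < c ∧ (∀ ε : ℝ, 0 < ε → ε ≤ 1 / 2 → c ≤ ‖G ε‖) ∧ ∀ ε t : ℝ, 0 < ε → ε ≤ 1 / 2 →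
      kp q ν i ((1 + ε : ℝ) : ℂ) (1 / 2 + t * I) = G ε * kn q ν i ε t := by
  have hpi : (Real.pi : ℂ) ≠ 0 := by exact_mod_cast Real.pi_ne_zero
  have hIq : (I : ℂ) ^ q ≠ 0 := pow_ne_zero _ I_ne_zero
  by_cases hi0 : i = 0
  · -- the middle component
    have hab : 0 < (1 / 2 + (q + ν) / 2 : ℂ).re ∧ 0 < (1 / 2 + (q - ν) / 2 : ℂ).re := by
      have e1 : (1 / 2 + (q + ν) / 2 : ℂ).re = 1 / 2 + (q + ν.re) / 2 := by simp
      have e2 : (1 / 2 + (q - ν) / 2 : ℂ).re = 1 / 2 + (q - ν.re) / 2 := by simp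
      rw [e1, e2]
      have hq : (0 : ℝ) ≤ q := Nat.cast_nonneg q
      have := k2_re had
      constructor <;> linarith [this.1, this.2]
    obtain ⟨c, hc, hlow⟩ := k2_low (D := Real.pi / I ^ q) (div_ne_zero hpi hIq) hab.1 hab.2
    refine ⟨fun ε => Real.pi / I ^ q * (Gamma (1 / 2 + (q + ν) / 2 + ε) *
      Gamma (1 / 2 + (q - ν) / 2 + ε)), c, hc, hlow, fun ε t _ _ => ?_⟩
    unfold kp kn
    rw [if_pos hi0, if_pos hi0]
    have e1 : (((1 + ε : ℝ) : ℂ) - 1 / 2 + (q + ν) / 2) = 1 / 2 + (q + ν) / 2 + ε := by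
      push_cast; ring
    have e2 : (((1 + ε : ℝ) : ℂ) - 1 / 2 + (q - ν) / 2) = 1 / 2 + (q - ν) / 2 + ε := by
      push_cast; ring
    have e3 : (((1 + ε : ℝ) : ℂ) + 1 / 2 - (1 / 2 + t * I)) = 1 + ε - t * I := by
      push_cast; ring
    have e4 : (((1 + ε : ℝ) : ℂ) - 1 / 2 + q + (1 / 2 + t * I)) = 1 + ε + q + t * I := by
      push_cast; ring
    rw [e1, e2, e3, e4]
    field_simp
  · by_cases hq0 : q = 0
    · -- the gradient
      subst hq0
      have hr := k2_re had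
      have ha : 0 < (1 + ν / 2 : ℂ).re := by simp; linarith [hr.1]
      have hb : 0 < (1 - ν / 2 : ℂ).re := by simp; linarith [hr.2]
      obtain ⟨c, hc, hlow⟩ := k2_low (D := (-(1 / 2) : ℂ)) (by norm_num) ha hb
      refine ⟨fun ε => -(1 / 2) * (Gamma (1 + ν / 2 + ε) * Gamma (1 - ν / 2 + ε)), c, hc, hlow,
        fun ε t _ _ => ?_⟩
      unfold kp kn
      rw [if_neg hi0, if_neg hi0, if_pos rfl, if_pos rfl]
      have e1 : (((1 + ε : ℝ) : ℂ) + ν / 2) = 1 + ν / 2 + ε := by push_cast; ring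
      have e2 : (((1 + ε : ℝ) : ℂ) - ν / 2) = 1 - ν / 2 + ε := by push_cast; ring
      have e3 : (((1 + ε : ℝ) : ℂ) + 1 - (1 / 2 + t * I)) = 3 / 2 + ε - t * I := by
        push_cast; ring
      have e4 : (((1 + ε : ℝ) : ℂ) + 1 + (1 / 2 + t * I)) = 5 / 2 + ε + t * I := by
        push_cast; ring
      rw [e1, e2, e3, e4]
      ring
    · -- the next component
      have hq1 : (1 : ℝ) ≤ q := by exact_mod_cast Nat.one_le_iff_ne_zero.2 hq0
      have hr := k2_re had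
      have ha : 0 < (1 + (q + ν) / 2 : ℂ).re := by
        have e1 : (1 + (q + ν) / 2 : ℂ).re = 1 + (q + ν.re) / 2 := by simp
        rw [e1]; linarith [hr.1]
      have hb : 0 < ((q - ν) / 2 : ℂ).re := by
        have e1 : ((q - ν) / 2 : ℂ).re = (q - ν.re) / 2 := by simp
        rw [e1]; linarith [hr.2]
      obtain ⟨c, hc, hlow⟩ := k2_low (D := -Real.pi / I ^ q) (div_ne_zero (neg_ne_zero.2 hpi) hIq)
        ha hb
      refine ⟨fun ε => -Real.pi / I ^ q * (Gamma (1 + (q + ν) / 2 + ε) *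
        Gamma ((q - ν) / 2 + ε)), c, hc, hlow, fun ε t _ _ => ?_⟩
      unfold kp kn
      rw [if_neg hi0, if_neg hi0, if_neg hq0, if_neg hq0]
      have e1 : (((1 + ε : ℝ) : ℂ) + (q + ν) / 2) = 1 + (q + ν) / 2 + ε := by push_cast; ring
      have e2 : (((1 + ε : ℝ) : ℂ) - 1 + (q - ν) / 2) = (q - ν) / 2 + ε := by push_cast; ring
      have e3 : (((1 + ε : ℝ) : ℂ) + 1 - (1 / 2 + t * I)) = 3 / 2 + ε - t * I := by
        push_cast; ring
      have e4 : (((1 + ε : ℝ) : ℂ) + q + (1 / 2 + t * I)) = 3 / 2 + ε + q + t * I := by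
        push_cast; ring
      rw [e1, e2, e3, e4]
      field_simp
      ring

theorem hh_pos (q : ℕ) {ε t : ℝ} (hε : 0 ≤ ε) (ht : t ≠ 0) : 0 < hh q ε t := by
  have h1 : Gamma (1 + ε + t * I) ≠ 0 := Gamma_ne_zero_of_re_pos (by simp; linarith)
  have h2 : 0 < ‖Gamma (1 + ε + t * I)‖ := norm_pos_iff.2 h1
  have h3 : 0 < |t| := abs_pos.2 ht
  unfold hh
  positivity

/-- `|Γ(1+it)|² = π t / sinh(π t)` -/
theorem k2_one {t : ℝ} (ht : 0 < t) :
    ‖Gamma (1 + t * I)‖ ^ 2 = t * (Real.pi / Real.sinh (Real.pi * t)) := by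
  have hpi := Real.pi_pos
  have hti : (t * I : ℂ) ≠ 0 := by
    simp [ht.ne']
  have e1 : Gamma (1 + t * I) = t * I * Gamma (t * I) := by
    rw [add_comm, Gamma_add_one _ hti]
  have hr := Complex.Gamma_mul_Gamma_one_sub (t * I)
  have e3 : Complex.sin (Real.pi * (t * I)) = Complex.sinh (Real.pi * t) * I := by
    rw [← mul_assoc, Complex.sin_mul_I]
  have h1 : ‖Gamma (1 - t * I)‖ = ‖Gamma (1 + t * I)‖ := by
    have := HB.gr_conj 1 t
    simpa using this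
  have hsinh : 0 < Real.sinh (Real.pi * t) := Real.sinh_pos_iff.2 (by positivity)
  have h2 : ‖Gamma (t * I)‖ * ‖Gamma (1 - t * I)‖ = Real.pi / Real.sinh (Real.pi * t) := by
    rw [← norm_mul, hr, e3, norm_div, norm_mul, norm_I, mul_one, Complex.norm_real,
      Real.norm_of_nonneg hpi.le]
    have : Complex.sinh (Real.pi * t) = ((Real.sinh (Real.pi * t) : ℝ) : ℂ) := by
      push_cast; rfl
    rw [this, Complex.norm_real, Real.norm_of_nonneg hsinh.le]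
  calc ‖Gamma (1 + t * I)‖ ^ 2 = ‖Gamma (1 + t * I)‖ * ‖Gamma (1 - t * I)‖ := by
        rw [h1, pow_two]
    _ = t * (‖Gamma (t * I)‖ * ‖Gamma (1 - t * I)‖) := by
        rw [e1, norm_mul, norm_mul, norm_I, Complex.norm_real, Real.norm_of_nonneg ht.le]
        ring
    _ = _ := by rw [h2]

/-- the Beta integral `B(1 + it, ε)` -/
theorem k2_beta {ε : ℝ} (hε : 0 < ε) (t : ℝ) :
    ‖betaIntegral (1 + t * I) ε‖ ≤ 1 / ε := by
  have hint : IntervalIntegrable (fun x : ℝ => (1 - x) ^ (ε - 1)) volume 0 1 := by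
    have h1 : IntervalIntegrable (fun x : ℝ => x ^ (ε - 1)) volume 0 1 :=
      intervalIntegral.intervalIntegrable_rpow' (by linarith)
    have h2 := h1.comp_sub_left 1
    simpa using h2.symm
  have hval : ∫ x in (0 : ℝ)..1, (1 - x) ^ (ε - 1) = 1 / ε := by
    have h1 := intervalIntegral.integral_comp_sub_left (a := 0) (b := 1)
      (fun x : ℝ => x ^ (ε - 1)) 1
    rw [h1, sub_self, sub_zero, integral_rpow (Or.inl (by linarith))]
    rw [show ε - 1 + 1 = ε by ring, Real.one_rpow, Real.zero_rpow hε.ne', sub_zero]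
  rw [← hval]
  unfold betaIntegral
  rw [intervalIntegral.integral_of_le zero_le_one, intervalIntegral.integral_of_le zero_le_one]
  refine norm_integral_le_of_norm_le hint.1 ?_
  rw [← restrict_Ioo_eq_restrict_Ioc]
  refine (ae_restrict_iff' measurableSet_Ioo).2 (Eventually.of_forall fun x hx => ?_)
  have hx0 : 0 < x := hx.1
  have hx1 : 0 < 1 - x := by linarith [hx.2]
  rw [norm_mul, norm_cpow_eq_rpow_re_of_pos hx0]
  have e1 : ((1 + t * I : ℂ) - 1).re = 0 := by simp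
  have e2 : (1 - (x : ℂ)) = ((1 - x : ℝ) : ℂ) := by push_cast; ring
  have e3 : ((ε : ℂ) - 1).re = ε - 1 := by simp
  rw [e1, Real.rpow_zero, one_mul, e2, norm_cpow_eq_rpow_re_of_pos hx1, e3]

theorem k2_gamma : ∃ c : ℝ, 0 < c ∧ ∀ ε t : ℝ, 0 < ε → ε ≤ 1 / 2 →
    c * ‖Gamma (1 + t * I)‖ ≤ ‖Gamma (1 + ε + t * I)‖ := by
  obtain ⟨c, hc0, hc⟩ : ∃ c : ℝ, 0 < c ∧ ∀ ε : ℝ, 0 < ε → ε ≤ 1 / 2 → c ≤ Real.Gamma (1 + ε) := by
    obtain ⟨c, hc, h⟩ := k2_low (D := 1) (a := 1) (b := 1) one_ne_zero (by simp) (by simp)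
    refine ⟨min c 1, lt_min hc one_pos, fun ε h0 h1 => ?_⟩
    have h2 := h ε h0 h1
    have h3 : ((1 : ℂ) + ε) = ((1 + ε : ℝ) : ℂ) := by push_cast; ring
    have h4 : 0 < Real.Gamma (1 + ε) := Real.Gamma_pos_of_pos (by linarith)
    rw [one_mul, h3, Complex.Gamma_ofReal, norm_mul, Complex.norm_real,
      Real.norm_of_nonneg h4.le] at h2
    by_contra hlt
    push Not at hlt
    have h5 : Real.Gamma (1 + ε) < c := lt_of_lt_of_le hlt (min_le_left _ _)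
    have h6 : Real.Gamma (1 + ε) < 1 := lt_of_lt_of_le hlt (min_le_right _ _)
    nlinarith
  refine ⟨c, hc0, fun ε t hε hε1 => ?_⟩
  have hB := Complex.Gamma_mul_Gamma_eq_betaIntegral (s := 1 + t * I) (t := ε)
    (by simp) (by simpa using hε)
  have h1 : (1 + t * I + ε : ℂ) = 1 + ε + t * I := by ring
  rw [h1] at hB
  have h2 : ‖Gamma (ε : ℂ)‖ = Real.Gamma ε := by
    rw [Complex.Gamma_ofReal, Complex.norm_real,
      Real.norm_of_nonneg (Real.Gamma_pos_of_pos hε).le]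
  have h3 := congrArg norm hB
  rw [norm_mul, norm_mul, h2] at h3
  have h4 := k2_beta hε t
  have h5 : Real.Gamma (1 + ε) = ε * Real.Gamma ε := by
    rw [add_comm, Real.Gamma_add_one hε.ne']
  have h6 := hc ε hε hε1
  calc c * ‖Gamma (1 + t * I)‖ ≤ Real.Gamma (1 + ε) * ‖Gamma (1 + t * I)‖ :=
        mul_le_mul_of_nonneg_right h6 (norm_nonneg _)
    _ = ε * (‖Gamma (1 + t * I)‖ * Real.Gamma ε) := by rw [h5]; ring
    _ = ε * (‖Gamma (1 + ε + t * I)‖ * ‖betaIntegral (1 + t * I) ε‖) := by rw [h3]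
    _ ≤ ε * (‖Gamma (1 + ε + t * I)‖ * (1 / ε)) := by
        refine mul_le_mul_of_nonneg_left ?_ hε.le
        exact mul_le_mul_of_nonneg_left h4 (norm_nonneg _)
    _ = ‖Gamma (1 + ε + t * I)‖ := by field_simp

theorem k2_abs (ε t : ℝ) : ‖Gamma (1 + ε + t * I)‖ = ‖Gamma (1 + ε + |t| * I)‖ := by
  rcases abs_choice t with h | h
  · rw [h]
  · rw [h]
    have h1 := HB.gr_conj (1 + ε) t
    have e1 : (((1 + ε : ℝ) : ℂ) - t * I) = 1 + ε + ((-t : ℝ) : ℂ) * I := by push_cast; ring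
    have e2 : (((1 + ε : ℝ) : ℂ) + t * I) = 1 + ε + t * I := by push_cast; ring
    rw [e1, e2] at h1
    exact h1.symm

theorem hh_ratio (q : ℕ) : ∃ C : ℝ, 0 ≤ C ∧ ∀ ε t : ℝ, 0 < ε → ε ≤ 1 / 2 → 1 ≤ |t| →
    hh q ε t ≤ C * |t| ^ (1 / 4 : ℝ) * hh q (1 / 8) t := by
  obtain ⟨C₁, hC₁, hup⟩ := HB.gamma_up
  obtain ⟨c, hc, hlow⟩ := k2_gamma
  have hpi := Real.pi_pos
  refine ⟨C₁ / (2 * Real.pi * c ^ 2), by positivity, fun ε t hε hε1 ht => ?_⟩
  have hT0 : 0 < |t| := by linarith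
  set T : ℝ := |t| with hT
  -- the bounds
  have h1 := hup (1 / 8) T (by norm_num) (by norm_num) ht
  have h2 : 2 * Real.pi * T * Real.exp (-(Real.pi * T)) ≤ ‖Gamma (1 + T * I)‖ ^ 2 := by
    rw [k2_one hT0]
    have hsinh : 0 < Real.sinh (Real.pi * T) := Real.sinh_pos_iff.2 (by positivity)
    have hs2 : Real.sinh (Real.pi * T) ≤ Real.exp (Real.pi * T) / 2 := by
      rw [Real.sinh_eq]
      have := Real.exp_pos (-(Real.pi * T))
      linarith
    have hE : 0 < Real.exp (Real.pi * T) := Real.exp_pos _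
    have h3 : Real.pi / (Real.exp (Real.pi * T) / 2) ≤ Real.pi / Real.sinh (Real.pi * T) :=
      div_le_div_of_nonneg_left hpi.le hsinh hs2
    calc 2 * Real.pi * T * Real.exp (-(Real.pi * T)) =
          T * (Real.pi / (Real.exp (Real.pi * T) / 2)) := by
          rw [Real.exp_neg]; field_simp
      _ ≤ _ := mul_le_mul_of_nonneg_left h3 hT0.le
  have h3 := hlow ε T hε hε1
  have h4 : c ^ 2 * ‖Gamma (1 + T * I)‖ ^ 2 ≤ ‖Gamma (1 + ε + T * I)‖ ^ 2 := by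
    rw [← mul_pow]
    exact pow_le_pow_left₀ (mul_nonneg hc.le (norm_nonneg _)) h3 2
  have h5 : T ^ (1 + 2 * (1 / 8 : ℝ)) = T * T ^ (1 / 4 : ℝ) := by
    rw [show (1 + 2 * (1 / 8 : ℝ)) = 1 + 1 / 4 by norm_num, Real.rpow_add hT0, Real.rpow_one]
  have hTp : 0 < T ^ (1 / 4 : ℝ) := Real.rpow_pos_of_pos hT0 _
  have h6 : ‖Gamma (1 + ((1 / 8 : ℝ) : ℂ) + T * I)‖ ^ 2 ≤
      C₁ / (2 * Real.pi * c ^ 2) * T ^ (1 / 4 : ℝ) * ‖Gamma (1 + ε + T * I)‖ ^ 2 := by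
    calc ‖Gamma (1 + ((1 / 8 : ℝ) : ℂ) + T * I)‖ ^ 2 ≤
          C₁ * T ^ (1 + 2 * (1 / 8 : ℝ)) * Real.exp (-(Real.pi * T)) := h1
      _ = C₁ / (2 * Real.pi * c ^ 2) * T ^ (1 / 4 : ℝ) *
          (c ^ 2 * (2 * Real.pi * T * Real.exp (-(Real.pi * T)))) := by
          rw [h5]; field_simp
      _ ≤ C₁ / (2 * Real.pi * c ^ 2) * T ^ (1 / 4 : ℝ) *
          (c ^ 2 * ‖Gamma (1 + T * I)‖ ^ 2) := by
          refine mul_le_mul_of_nonneg_left ?_ (by positivity)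
          exact mul_le_mul_of_nonneg_left h2 (by positivity)
      _ ≤ _ := mul_le_mul_of_nonneg_left h4 (by positivity)
  -- conclusion
  have hp1 : 0 < ‖Gamma (1 + ε + T * I)‖ :=
    norm_pos_iff.2 (Gamma_ne_zero_of_re_pos (by simp; linarith))
  have hp2 : 0 < ‖Gamma (1 + ((1 / 8 : ℝ) : ℂ) + T * I)‖ :=
    norm_pos_iff.2 (Gamma_ne_zero_of_re_pos (by simp; norm_num))
  unfold hh
  rw [k2_abs ε t, k2_abs (1 / 8) t, ← hT]
  have hTq : 0 < (T ^ q)⁻¹ := by positivity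
  have h7 : 1 / ‖Gamma (1 + ε + T * I)‖ ^ 2 ≤ C₁ / (2 * Real.pi * c ^ 2) * T ^ (1 / 4 : ℝ) *
      (1 / ‖Gamma (1 + ((1 / 8 : ℝ) : ℂ) + T * I)‖ ^ 2) := by
    rw [div_le_iff₀ (by positivity)]
    rw [mul_one_div, div_mul_eq_mul_div, le_div_iff₀ (by positivity), one_mul]
    exact h6
  calc (T ^ q)⁻¹ / ‖Gamma (1 + ε + T * I)‖ ^ 2 =
        (T ^ q)⁻¹ * (1 / ‖Gamma (1 + ε + T * I)‖ ^ 2) := by ring
    _ ≤ (T ^ q)⁻¹ * (C₁ / (2 * Real.pi * c ^ 2) * T ^ (1 / 4 : ℝ) *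
        (1 / ‖Gamma (1 + ((1 / 8 : ℝ) : ℂ) + T * I)‖ ^ 2)) :=
        mul_le_mul_of_nonneg_left h7 hTq.le
    _ = _ := by ring

theorem kn_cont (q : ℕ) (ν : ℂ) (i : ℕ) : Continuous (fun p : ℝ × ℝ => kn q ν i p.1 p.2) := by
  have hG : Continuous (fun z : ℂ => (Gamma z)⁻¹) := Complex.differentiable_one_div_Gamma.continuous
  unfold kn
  by_cases hi0 : i = 0
  · simp only [if_pos hi0, div_eq_mul_inv, mul_inv]
    refine continuous_const.mul (Continuous.mul ?_ ?_)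
    · exact hG.comp (by fun_prop)
    · exact hG.comp (by fun_prop)
  · by_cases hq0 : q = 0
    · simp only [if_neg hi0, if_pos hq0, div_eq_mul_inv, mul_inv]
      refine Continuous.mul (by fun_prop) (Continuous.mul ?_ ?_)
      · exact hG.comp (by fun_prop)
      · exact hG.comp (by fun_prop)
    · simp only [if_neg hi0, if_neg hq0, div_eq_mul_inv, mul_inv]
      refine Continuous.mul (by fun_prop) (Continuous.mul ?_ ?_)
      · exact hG.comp (by fun_prop)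
      · exact hG.comp (by fun_prop)

end Pool.Agent.HI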