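import Pool.Agent.Lib_helper25.HIF.DX
import Pool.Agent.Lib_helper25.HIF.FQ
import Pool.Agent.Lib_helper25.HIF.RA

/-!
# Project HI: block LY, the completed L-function
-/

namespace Pool.Agent.HI
open NumberField Complex MeasureTheory Set Filter Topology
open Pool.Agent.HB (H3 mu Kb Adm)

variable {K : Type} [Field K] [NumberField K] {s : K →+* ℂ}

theorem ly_bd (S : IQ s) {q : ℕ} {ν : ℂ} (had : Ad q ν) {c c' : K → ℂ} (h : DP s q ν c c')
    (k : ℕ) : ∃ C : ℝ, 0 ≤ C ∧ ∀ y : ℝ, 0 < y →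
      ‖sr s c 0 (1 + q) ν (0, y)‖ ≤ C * (y ^ k)⁻¹ ∧ ‖sr s c 0 (1 + q) ν (0, y)‖ ≤ C * y ^ k := by
  obtain ⟨C, hC, h1⟩ := (ray_mid S had h).bd k
  refine ⟨C, hC, fun y hy => ?_⟩
  have h2 := h1 0 y hy
  simpa using h2

theorem ly_loc (S : IQ s) {q : ℕ} {ν : ℂ} (had : Ad q ν) {c c' : K → ℂ} (h : DP s q ν c c') :
    LocallyIntegrableOn (fun y : ℝ => sr s c 0 (1 + q) ν (0, y)) (Ioi 0) := by
  refine ContinuousOn.locallyIntegrableOn ?_ measurableSet_Ioi
  exact (ray_mid S had h).cont.comp (by fun_prop) (fun y hy => hy)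

theorem ly_top (S : IQ s) {q : ℕ} {ν : ℂ} (had : Ad q ν) {c c' : K → ℂ} (h : DP s q ν c c')
    (a : ℝ) : (fun y : ℝ => sr s c 0 (1 + q) ν (0, y)) =O[atTop] (fun y : ℝ => y ^ (-a)) := by
  obtain ⟨k, hk⟩ := exists_nat_ge a
  obtain ⟨C, hC, h1⟩ := ly_bd S had h k
  refine Asymptotics.IsBigO.of_bound C ?_
  filter_upwards [eventually_ge_atTop 1] with y hy
  have hy0 : 0 < y := by linarith
  refine (h1 y hy0).1.trans (mul_le_mul_of_nonneg_left ?_ hC)
  rw [Real.norm_of_nonneg (Real.rpow_nonneg hy0.le _), ← Real.rpow_natCast,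
    ← Real.rpow_neg hy0.le]
  exact Real.rpow_le_rpow_of_exponent_le hy (by linarith)

theorem ly_bot (S : IQ s) {q : ℕ} {ν : ℂ} (had : Ad q ν) {c c' : K → ℂ} (h : DP s q ν c c')
    (a : ℝ) : (fun y : ℝ => sr s c 0 (1 + q) ν (0, y)) =O[𝓝[>] 0] (fun y : ℝ => y ^ (-a)) := by
  obtain ⟨k, hk⟩ := exists_nat_ge (-a)
  obtain ⟨C, hC, h1⟩ := ly_bd S had h k
  refine Asymptotics.IsBigO.of_bound C ?_
  have hm : Ioo (0 : ℝ) 1 ∈ 𝓝[>] (0 : ℝ) := Ioo_mem_nhdsGT one_pos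
  filter_upwards [hm] with y hy
  have hy0 : 0 < y := hy.1
  refine (h1 y hy0).2.trans (mul_le_mul_of_nonneg_left ?_ hC)
  rw [Real.norm_of_nonneg (Real.rpow_nonneg hy0.le _), ← Real.rpow_natCast]
  exact Real.rpow_le_rpow_of_exponent_ge hy0 hy.2.le hk

theorem lz_diff (S : IQ s) {q : ℕ} {ν : ℂ} (had : Ad q ν) {c c' : K → ℂ} (h : DP s q ν c c') :
    Differentiable ℂ (Lz s q ν c) := by
  intro z
  have h1 : DifferentiableAt ℂ (mellin (fun y : ℝ => sr s c 0 (1 + q) ν (0, y))) (2 * z - 1) :=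
    mellin_differentiableAt_of_isBigO_rpow (a := (2 * z - 1).re + 1) (b := (2 * z - 1).re - 1)
      (ly_loc S had h) (ly_top S had h _) (by linarith) (ly_bot S had h _) (by linarith)
  have h2 : DifferentiableAt ℂ (fun z : ℂ => 2 * z - 1) z := by fun_prop
  exact h1.comp z h2

/-- the coefficient of `X^q` of a polynomial of degree `≤ 2 q` -/
theorem ly_coeff (q : ℕ) (a b : ℕ → ℂ)
    (h : ∀ x : ℂ, ∑ j ∈ Finset.range (2 * q + 1), a j * x ^ j =
      ∑ j ∈ Finset.range (2 * q + 1), b j * x ^ (2 * q - j)) : a q = b q := by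
  have h1 : (∑ j ∈ Finset.range (2 * q + 1), Polynomial.C (a j) * Polynomial.X ^ j) =
      ∑ j ∈ Finset.range (2 * q + 1), Polynomial.C (b j) * Polynomial.X ^ (2 * q - j) := by
    refine Polynomial.funext fun x => ?_
    simpa [Polynomial.eval_finsetSum] using h x
  have h2 := congrArg (fun P => Polynomial.coeff P q) h1
  simp only [Polynomial.finsetSum_coeff, Polynomial.coeff_C_mul_X_pow] at h2
  rw [Finset.sum_eq_single q, Finset.sum_eq_single q] at h2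
  · have e : 2 * q - q = q := by omega
    simpa [e] using h2
  · intro j hj hjq
    rw [Finset.mem_range] at hj
    rw [if_neg (by omega)]
  · intro hq
    exact absurd (Finset.mem_range.2 (by omega)) hq
  · intro j hj hjq
    rw [if_neg (Ne.symm hjq)]
  · intro hq
    exact absurd (Finset.mem_range.2 (by omega)) hq

theorem ly_inv (S : IQ s) {q : ℕ} {ν : ℂ} (had : Ad q ν) {c c' : K → ℂ} (h : DP s q ν c c')
    {y : ℝ} (hy : 0 < y) :
    sr s c' 0 (1 + q) ν (0, y) = (-1) ^ q * sr s c 0 (1 + q) ν (0, y⁻¹) := by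
  have hn3 : n3 ((0 : ℂ), y) = y ^ 2 := by simp [n3]
  have hiv : iv ((0 : ℂ), y) = (0, y⁻¹) := by
    unfold iv
    rw [hn3]
    refine Prod.ext ?_ ?_
    · simp
    · simp only
      field_simp
  have hku : ∀ x : ℂ, ku ((0 : ℂ), y) (x, 1) = (1, -x) := by
    intro x
    unfold ku
    rw [hn3, Real.sqrt_sq hy.le]
    have hyc : (y : ℂ) ≠ 0 := by exact_mod_cast hy.ne'
    refine Prod.ext ?_ ?_
    · simp [hyc]
    · simp only [map_zero, zero_mul, add_zero]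
      field_simp
  have h1 : ∀ x : ℂ, ∑ j ∈ Finset.range (2 * q + 1),
      (((2 * q).choose j : ℂ) * (-I) ^ j * sj s q ν c' j (0, y)) * x ^ j =
      ∑ j ∈ Finset.range (2 * q + 1), (((2 * q).choose j : ℂ) * (-I) ^ j *
        sj s q ν c j (0, y⁻¹) * (-1) ^ (2 * q - j)) * x ^ (2 * q - j) := by
    intro x
    have h2 := h.inv (0, y) (x, 1) hy
    rw [hiv, hku, fs_eq S had h.cs' hy, fs_eq S had h.cs (inv_pos.2 hy)] at h2
    simp only [one_pow, mul_one, one_mul] at h2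
    rw [h2]
    refine Finset.sum_congr rfl fun j _ => ?_
    rw [neg_pow x]
    ring
  have h3 := ly_coeff q _ _ h1
  have h4 : (((2 * q).choose q : ℂ) * (-I) ^ q) ≠ 0 := by
    refine mul_ne_zero ?_ (pow_ne_zero _ (neg_ne_zero.2 I_ne_zero))
    exact_mod_cast (Nat.choose_pos (by omega)).ne'
  have e : 2 * q - q = q := by omega
  rw [e] at h3
  have h5 : sj s q ν c' q (0, y) = sj s q ν c q (0, y⁻¹) * (-1) ^ q := by
    refine mul_left_cancel₀ h4 ?_
    rw [h3]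
    ring
  rw [sj_mid, sj_mid] at h5
  rw [h5, mul_comm]

theorem lz_fe (S : IQ s) {q : ℕ} {ν : ℂ} (had : Ad q ν) {c c' : K → ℂ} (h : DP s q ν c c')
    (z : ℂ) : Lz s q ν c (1 - z) = (-1) ^ q * Lz s q ν c' z := by
  unfold Lz
  have e : (2 * (1 - z) - 1 : ℂ) = -(2 * z - 1) := by ring
  rw [e, ← mellin_comp_inv]
  unfold mellin
  rw [← integral_const_mul]
  refine setIntegral_congr_fun measurableSet_Ioi (fun y hy => ?_)
  have hs : ((-1 : ℂ) ^ q) * (-1) ^ q = 1 := by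
    rw [← mul_pow]; simp
  simp only [ly_inv S had h hy, smul_eq_mul]
  calc (y : ℂ) ^ (2 * z - 1 - 1) * sr s c 0 (1 + q) ν (0, y⁻¹)
      = (((-1 : ℂ) ^ q) * (-1) ^ q) *
        ((y : ℂ) ^ (2 * z - 1 - 1) * sr s c 0 (1 + q) ν (0, y⁻¹)) := by rw [hs, one_mul]
    _ = _ := by ring

end Pool.Agent.HI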