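import Pool.Agent.Lib_helper25.HIF.DX
import Pool.Agent.Lib_helper84.LVF.LL
import Pool.Agent.Lib_helper41.HZF.POI

/-! ## QE: Poisson summation for the theta series of a lattice with level structure (helper16) -/

namespace Pool.Agent.HI
open NumberField Complex MeasureTheory IsDedekindDomain Filter Topology
open scoped nonZeroDivisors MatrixGroups ENNReal
open Pool.Agent.HSG (Lat Pr IsInt nI prI DD dt)
open Pool.Agent.HZ (ee)


section gp

variable {E : Type} [NormedAddCommGroup E] [InnerProductSpace ℝ E]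
variable {ι : Type} [Fintype ι]

/-- the combination `∑ tᵢ bᵢ` -/
noncomputable def cmb (b : ι → E) (t : ι → ℝ) : E := ∑ i, t i • b i

theorem cmb_eq (b : Module.Basis ι ℝ E) (t : ι → ℝ) : cmb b t = b.equivFun.symm t := by
  rw [Module.Basis.equivFun_symm_apply]
  rfl

theorem cmb_add (b : ι → E) (t u : ι → ℝ) : cmb b (fun i => t i + u i) = cmb b t + cmb b u := by
  unfold cmb
  rw [← Finset.sum_add_distrib]
  exact Finset.sum_congr rfl fun i _ => add_smul _ _ _

theorem cmb_cont (b : ι → E) : Continuous (cmb b) := by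
  unfold cmb
  fun_prop

theorem cmb_low (b : Module.Basis ι ℝ E) : ∃ c : ℝ, 0 < c ∧ ∀ t : ι → ℝ, c * ‖t‖ ≤ ‖cmb b t‖ := by
  classical
  have : FiniteDimensional ℝ E := Module.Basis.finiteDimensional_of_finite b
  set e : E →L[ℝ] (ι → ℝ) := LinearMap.toContinuousLinearMap (b.equivFun : E →ₗ[ℝ] (ι → ℝ)) with he
  refine ⟨(‖e‖ + 1)⁻¹, by positivity, fun t => ?_⟩
  have h1 : e (cmb b t) = t := by
    rw [cmb_eq]
    exact b.equivFun.apply_symm_apply t
  have h2 := e.le_opNorm (cmb b t)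
  rw [h1] at h2
  rw [inv_mul_le_iff₀ (by positivity)]
  refine h2.trans ?_
  gcongr
  linarith

/-- the Gaussian is exponentially small -/
theorem gauss_small (b : Module.Basis ι ℝ E) : ∃ C c : ℝ, 0 < c ∧ 0 ≤ C ∧ ∀ t : ι → ℝ,
    Real.exp (-(Real.pi * ‖cmb b t‖ ^ 2)) ≤ C * Real.exp (-(c * ‖t‖)) := by
  obtain ⟨c, hc, h⟩ := cmb_low b
  refine ⟨Real.exp 1, c, hc, (Real.exp_pos _).le, fun t => ?_⟩
  rw [← Real.exp_add]
  refine Real.exp_le_exp.mpr ?_
  have h1 := h t
  have h2 : (0 : ℝ) ≤ ‖cmb b t‖ := norm_nonneg _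
  have h3 : (3 : ℝ) < Real.pi := Real.pi_gt_three
  have h4 : 3 * ‖cmb b t‖ ^ 2 ≤ Real.pi * ‖cmb b t‖ ^ 2 := by gcongr
  nlinarith [sq_nonneg (‖cmb b t‖ - 1)]

variable [FiniteDimensional ℝ E] [MeasurableSpace E] [BorelSpace E]

/-- the Gram matrix -/
noncomputable def gram (b : ι → E) : Matrix ι ι ℝ := Matrix.of fun i j => inner ℝ (b i) (b j)

/-- change of variables -/
theorem cmb_integral [DecidableEq ι] (b : Module.Basis ι ℝ E) (F : E → ℂ) :
    0 < (gram b).det ∧
    ∫ t : ι → ℝ, F (cmb b t) = (((√(gram b).det)⁻¹ : ℝ) : ℂ) * ∫ x : E, F x := by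
  have hcard : Module.finrank ℝ E = Fintype.card ι := Module.finrank_eq_card_basis b
  set o : OrthonormalBasis ι ℝ E := (stdOrthonormalBasis ℝ E).reindex
    (Fintype.equivOfCardEq (by rw [Fintype.card_fin, hcard])) with ho
  set A : Matrix ι ι ℝ := Matrix.of fun i j => inner ℝ (o i) (b j) with hA
  have hgram : gram b = A.transpose * A := by
    ext i j
    rw [Matrix.mul_apply]
    show inner ℝ (b i) (b j) = ∑ k, inner ℝ (o k) (b i) * inner ℝ (o k) (b j)
    rw [← o.sum_inner_mul_inner (b i) (b j)]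
    exact Finset.sum_congr rfl fun k _ => by rw [real_inner_comm (o k) (b i)]
  have hdet : (gram b).det = A.det ^ 2 := by
    rw [hgram, Matrix.det_mul, Matrix.det_transpose, sq]
  -- the coordinates with respect to the orthonormal basis
  set r : E ≃ₗ[ℝ] (ι → ℝ) := o.toBasis.equivFun with hr
  have hrT : ∀ t : ι → ℝ, r (cmb b t) = Matrix.toLin' A t := by
    intro t
    funext i
    rw [hr, Module.Basis.equivFun_apply]
    rw [o.coe_toBasis_repr_apply, o.repr_apply_apply, Matrix.toLin'_apply]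
    unfold cmb
    rw [inner_sum]
    show _ = ∑ j, A i j * t j
    refine Finset.sum_congr rfl fun j _ => ?_
    rw [inner_smul_right]
    show t j * inner ℝ (o i) (b j) = inner ℝ (o i) (b j) * t j
    ring
  have hAdet : A.det ≠ 0 := by
    intro h0
    obtain ⟨v, hv, hv0⟩ := Matrix.exists_mulVec_eq_zero_iff.2 h0
    have h1 : r (cmb b v) = 0 := by
      rw [hrT, Matrix.toLin'_apply, hv0]
    have h2 : cmb b v = 0 := (LinearEquiv.map_eq_zero_iff _).1 h1
    rw [cmb_eq] at h2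
    apply hv
    exact (LinearEquiv.map_eq_zero_iff _).1 h2
  have hpos : 0 < (gram b).det := by
    rw [hdet]
    positivity
  refine ⟨hpos, ?_⟩
  have hsq : √(gram b).det = |A.det| := by
    rw [hdet, Real.sqrt_sq_eq_abs]
  -- measure preserving coordinates
  have hmp : MeasurePreserving (r : E → ι → ℝ) := by
    have h1 := o.measurePreserving_repr
    have h2 := PiLp.volume_preserving_ofLp ι
    have h3 := h2.comp h1
    have e : (r : E → ι → ℝ) = (WithLp.ofLp ∘ o.repr) := by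
      funext x i
      rw [hr, Module.Basis.equivFun_apply, o.coe_toBasis_repr_apply]
      rfl
    rw [e]
    exact h3
  have hrh : MeasurableEmbedding (r : E → ι → ℝ) :=
    (LinearEquiv.toContinuousLinearEquiv r).toHomeomorph.measurableEmbedding
  have h3 : ∫ x : E, F x = ∫ y : ι → ℝ, F (r.symm y) := by
    rw [← hmp.integral_comp hrh]
    exact integral_congr_ae (Eventually.of_forall fun x => by simp)
  have h4 := Real.map_matrix_volume_pi_eq_smul_volume_pi hAdet
  have hAe : MeasurableEmbedding (Matrix.toLin' A : (ι → ℝ) → ι → ℝ) := by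
    have hcl : (Matrix.toLin' A : (ι → ℝ) → ι → ℝ) =
        (LinearEquiv.toContinuousLinearEquiv (b.equivFun.symm.trans r)) := by
      funext t
      rw [← hrT, cmb_eq]
      rfl
    rw [hcl]
    exact (LinearEquiv.toContinuousLinearEquiv (b.equivFun.symm.trans r)).toHomeomorph.measurableEmbedding
  have h5 : ∫ t : ι → ℝ, F (r.symm (Matrix.toLin' A t)) =
      ∫ y, F (r.symm y) ∂(Measure.map (Matrix.toLin' A) volume) :=
    (hAe.integral_map (fun y => F (r.symm y))).symm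
  rw [h4, integral_smul_measure, ENNReal.toReal_ofReal (abs_nonneg _), ← h3] at h5
  have h6 : ∀ t, F (r.symm (Matrix.toLin' A t)) = F (cmb b t) := fun t => by
    rw [← hrT, LinearEquiv.symm_apply_apply]
  simp_rw [h6] at h5
  rw [h5, hsq, abs_inv]
  rfl

omit [Fintype ι] in
theorem gauss_ft (w : E) :
    ∫ x : E, ((Real.exp (-(Real.pi * ‖x‖ ^ 2)) : ℝ) : ℂ) * ee (-(inner ℝ w x)) =
      ((Real.exp (-(Real.pi * ‖w‖ ^ 2)) : ℝ) : ℂ) := by
  have hpi : (Real.pi : ℂ) ≠ 0 := by exact_mod_cast Real.pi_ne_zero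
  have h := GaussianFourier.integral_cexp_neg_mul_sq_norm_add (V := E) (b := (Real.pi : ℂ))
    (by simpa using Real.pi_pos) (-(2 * Real.pi * I)) w
  rw [div_self hpi, Complex.one_cpow, one_mul] at h
  rw [Complex.ofReal_exp]
  have e1 : (-(2 * (Real.pi : ℂ) * I)) ^ 2 * (‖w‖ : ℂ) ^ 2 / (4 * Real.pi) =
      ((-(Real.pi * ‖w‖ ^ 2) : ℝ) : ℂ) := by
    have : (-(2 * (Real.pi : ℂ) * I)) ^ 2 = -(4 * Real.pi ^ 2) := by
      ring_nf
      rw [Complex.I_sq]
      ring
    rw [this]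
    push_cast
    field_simp
  rw [e1] at h
  rw [← h]
  refine integral_congr_ae (Eventually.of_forall fun x => ?_)
  simp only
  unfold ee
  rw [Complex.ofReal_exp, ← Complex.exp_add]
  congr 1
  push_cast
  ring

/-- Poisson summation for a Gaussian -/
theorem gp_poisson [DecidableEq ι] (b b' : Module.Basis ι ℝ E)
    (hb : ∀ i j, inner ℝ (b' i) (b j) = if i = j then (1 : ℝ) else 0) (x : E) :
    Summable (fun m : ι → ℤ => Real.exp (-(Real.pi * ‖x + cmb b (fun i => (m i : ℝ))‖ ^ 2))) ∧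
    Summable (fun k : ι → ℤ => Real.exp (-(Real.pi * ‖cmb b' (fun i => (k i : ℝ))‖ ^ 2))) ∧
    ((∑' m : ι → ℤ, Real.exp (-(Real.pi * ‖x + cmb b (fun i => (m i : ℝ))‖ ^ 2)) : ℝ) : ℂ) =
      (((√(gram b).det)⁻¹ : ℝ) : ℂ) * ∑' k : ι → ℤ, ee (inner ℝ (cmb b' (fun i => (k i : ℝ))) x) *
        ((Real.exp (-(Real.pi * ‖cmb b' (fun i => (k i : ℝ))‖ ^ 2)) : ℝ) : ℂ) := by
  obtain ⟨C, c, hc, hC, hf⟩ := gauss_small b
  obtain ⟨C', c', hc', hC', hf'⟩ := gauss_small b'
  set f : (ι → ℝ) → ℂ := fun t => ((Real.exp (-(Real.pi * ‖cmb b t‖ ^ 2)) : ℝ) : ℂ) with hfd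
  have hfc : Continuous f := by
    have := cmb_cont (b : ι → E)
    rw [hfd]
    fun_prop
  have hfn : ∀ t, ‖f t‖ ≤ C * Real.exp (-(c * ‖t‖)) := by
    intro t
    rw [hfd]
    simp only
    rw [Complex.norm_real, Real.norm_of_nonneg (Real.exp_nonneg _)]
    exact hf t
  set ξ : ι → ℝ := b.equivFun x with hξ
  have hx : cmb b ξ = x := by
    rw [cmb_eq, hξ, LinearEquiv.symm_apply_apply]
  have hpair : ∀ (k t : ι → ℝ), inner ℝ (cmb b' k) (cmb b t) = ∑ i, k i * t i := by
    intro k t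
    unfold cmb
    rw [sum_inner]
    refine Finset.sum_congr rfl fun i _ => ?_
    rw [inner_smul_left, inner_sum]
    simp only [conj_trivial]
    congr 1
    rw [Finset.sum_eq_single i]
    · rw [inner_smul_right, hb, if_pos rfl, mul_one]
    · intro j _ hj
      rw [inner_smul_right, hb, if_neg (Ne.symm hj), mul_zero]
    · intro h; exact absurd (Finset.mem_univ i) h
  have hcoef : ∀ k : ι → ℤ, ∫ t : ι → ℝ, f t * ee (-(∑ i, k i * t i)) =
      (((√(gram b).det)⁻¹ : ℝ) : ℂ) *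
        ((Real.exp (-(Real.pi * ‖cmb b' (fun i => (k i : ℝ))‖ ^ 2)) : ℝ) : ℂ) := by
    intro k
    have h1 := (cmb_integral b (fun y => ((Real.exp (-(Real.pi * ‖y‖ ^ 2)) : ℝ) : ℂ) *
      ee (-(inner ℝ (cmb b' (fun i => (k i : ℝ))) y)))).2
    rw [gauss_ft] at h1
    rw [← h1]
    refine integral_congr_ae (Eventually.of_forall fun t => ?_)
    simp only [hpair]
    rfl
  have hs1 : Summable (fun k : ι → ℤ => Real.exp (-(Real.pi * ‖cmb b' (fun i => (k i : ℝ))‖ ^ 2))) :=
    Summable.of_nonneg_of_le (fun _ => Real.exp_nonneg _) (fun k => hf' _)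
      ((HZ.poi_summable_exp hc').mul_left C')
  have hs2 := HZ.poi_summable hC hc hfn ξ
  have e1 : ∀ m : ι → ℤ, f (fun i => ξ i + m i) =
      ((Real.exp (-(Real.pi * ‖x + cmb b (fun i => (m i : ℝ))‖ ^ 2)) : ℝ) : ℂ) := by
    intro m
    rw [hfd]
    simp only
    rw [cmb_add, hx]
  have hs3 : Summable (fun m : ι → ℤ =>
      Real.exp (-(Real.pi * ‖x + cmb b (fun i => (m i : ℝ))‖ ^ 2))) := by
    simp_rw [e1] at hs2
    exact_mod_cast Complex.summable_ofReal.1 hs2
  refine ⟨hs3, hs1, ?_⟩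
  have h := HZ.poisson f hfc C c hc hfn (by
    simp_rw [hcoef, norm_mul, Complex.norm_real]
    refine Summable.mul_left _ ?_
    simp_rw [Real.norm_of_nonneg (Real.exp_nonneg _)]
    exact hs1) ξ
  simp_rw [e1, hcoef] at h
  rw [Complex.ofReal_tsum, h, ← tsum_mul_left]
  refine tsum_congr fun k => ?_
  have e2 : inner ℝ (cmb b' (fun i => (k i : ℝ))) x = ∑ i, k i * ξ i := by
    rw [← hx, hpair]
  rw [e2]
  ring

end gp


/-! ### coordinates -/

/-- two complex numbers as a vector of a Euclidean space -/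
noncomputable def vE (α β : ℂ) : EuclideanSpace ℝ (Fin 4) :=
  WithLp.toLp 2 ![α.re, α.im, β.re, β.im]

theorem vE_inner (α β α' β' : ℂ) : inner ℝ (vE α β) (vE α' β') =
    α.re * α'.re + α.im * α'.im + β.re * β'.re + β.im * β'.im := by
  rw [PiLp.inner_apply, Fin.sum_univ_four]
  simp [vE]
  ring

theorem vE_norm (α β : ℂ) : ‖vE α β‖ ^ 2 = normSq α + normSq β := by
  rw [← real_inner_self_eq_norm_sq, vE_inner, normSq_apply, normSq_apply]
  ring

theorem vE_add (α β α' β' : ℂ) : vE (α + α') (β + β') = vE α β + vE α' β' := by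
  ext i
  fin_cases i <;> simp [vE]

theorem vE_smul (r : ℝ) (α β : ℂ) : vE (r * α) (r * β) = r • vE α β := by
  ext i
  fin_cases i <;> simp [vE]

/-- the first map -/
noncomputable def f1 (a c : ℝ) (z : ℂ) (w0 w1 : ℂ) : EuclideanSpace ℝ (Fin 4) :=
  vE (((a / c : ℝ) : ℂ) * (w0 * z + w1)) (((a * c : ℝ) : ℂ) * w0)

/-- the second map -/
noncomputable def f2 (a c : ℝ) (z : ℂ) (u0 u1 : ℂ) : EuclideanSpace ℝ (Fin 4) :=
  vE (((2 * c / a : ℝ) : ℂ) * (starRingEnd ℂ) u0)
    (((-(2 / (c * a)) : ℝ) : ℂ) * (starRingEnd ℂ) (u0 * z + u1))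

theorem f21 {a c : ℝ} (ha : 0 < a) (hc : 0 < c) (z u0 u1 w0 w1 : ℂ) :
    inner ℝ (f2 a c z u0 u1) (f1 a c z w0 w1) = 2 * (u0 * w1 - u1 * w0).re := by
  unfold f1 f2
  rw [vE_inner]
  simp only [Complex.ofReal_re, Complex.ofReal_im, zero_mul, sub_zero, add_zero, Complex.conj_re,
    Complex.conj_im, Complex.add_re, Complex.add_im, Complex.mul_re, Complex.mul_im, Complex.sub_re]
  field_simp
  ring

theorem f1_norm {a c : ℝ} (hc : 0 < c) (z w0 w1 : ℂ) : ‖f1 a c z w0 w1‖ ^ 2 =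
    a ^ 2 * ((normSq (w0 * z + w1) + normSq w0 * (c ^ 2) ^ 2) / c ^ 2) := by
  unfold f1
  rw [vE_norm, map_mul, map_mul, normSq_ofReal, normSq_ofReal]
  field_simp

theorem f2_norm {a c : ℝ} (ha : 0 < a) (hc : 0 < c) (z u0 u1 : ℂ) : ‖f2 a c z u0 u1‖ ^ 2 =
    4 / a ^ 2 * ((normSq (u0 * z + u1) + normSq u0 * (c ^ 2) ^ 2) / c ^ 2) := by
  unfold f2
  rw [vE_norm, map_mul, map_mul, normSq_ofReal, normSq_ofReal, normSq_conj, normSq_conj]
  field_simp
  ring

theorem f22 {a c : ℝ} (ha : 0 < a) (hc : 0 < c) (z u0 u1 w0 w1 : ℂ) :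
    inner ℝ (f2 a c z u0 u1) (f2 a c z w0 w1) =
      4 / a ^ 4 * inner ℝ (f1 a c z u0 u1) (f1 a c z w0 w1) := by
  unfold f1 f2
  rw [vE_inner, vE_inner]
  simp only [Complex.ofReal_re, Complex.ofReal_im, zero_mul, sub_zero, add_zero, Complex.conj_re,
    Complex.conj_im, Complex.add_re, Complex.add_im, Complex.mul_re, Complex.mul_im]
  field_simp
  ring

/-! ### the Gram determinant -/

theorem gram_det {E : Type} [NormedAddCommGroup E] [InnerProductSpace ℝ E] {ι : Type} [Fintype ι]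
    [DecidableEq ι] (b : Module.Basis ι ℝ E) (hG : (gram b).det ≠ 0) (c : ι → E) (σ : ι ≃ ι)
    (k : ℝ) (hc : ∀ i j, inner ℝ (c i) (c j) = k * inner ℝ (b (σ i)) (b (σ j))) :
    (Matrix.of fun i j => inner ℝ (c i) (b j)).det ^ 2 =
      k ^ Fintype.card ι * (gram b).det ^ 2 := by
  set C : Matrix ι ι ℝ := Matrix.of fun i j => b.repr (c i) j with hC
  have hci : ∀ i, c i = ∑ j, C i j • b j := fun i => (b.sum_repr (c i)).symm
  have h1 : (Matrix.of fun i j => inner ℝ (c i) (b j)) = C * gram b := by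
    ext i j
    show inner ℝ (c i) (b j) = _
    rw [Matrix.mul_apply, hci i, sum_inner]
    refine Finset.sum_congr rfl fun l _ => ?_
    rw [inner_smul_left]
    rfl
  have h2 : (Matrix.of fun i j => inner ℝ (c i) (c j)) = C * gram b * C.transpose := by
    rw [← h1]
    ext i j
    show inner ℝ (c i) (c j) = _
    rw [Matrix.mul_apply]
    conv_lhs => rw [hci j, inner_sum]
    refine Finset.sum_congr rfl fun l _ => ?_
    rw [inner_smul_right]
    show C j l * inner ℝ (c i) (b l) = inner ℝ (c i) (b l) * C j l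
    ring
  have h3 : (Matrix.of fun i j => inner ℝ (c i) (c j)) = k • (gram b).submatrix σ σ := by
    ext i j
    exact hc i j
  have h4 := congrArg Matrix.det h2
  rw [h3, Matrix.det_smul, Matrix.det_submatrix_equiv_self, Matrix.det_mul, Matrix.det_mul,
    Matrix.det_transpose] at h4
  have h5 : C.det ^ 2 = k ^ Fintype.card ι := by
    apply mul_right_cancel₀ hG
    linarith
  rw [h1, Matrix.det_mul, mul_pow, h5]


variable {K : Type} [Field K] [NumberField K] {s : K →+* ℂ}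

/-- the trace -/
theorem tr_s (S : IQ s) (x : K) : ((Algebra.trace ℚ K x : ℚ) : ℝ) = 2 * (s x).re := by
  classical
  set a : K →ₐ[ℚ] ℂ := s.toRatAlgHom with ha
  set b : K →ₐ[ℚ] ℂ := ((starRingEnd ℂ).comp s).toRatAlgHom with hb
  have hax : ∀ y, a y = s y := fun y => rfl
  have hbx : ∀ y, b y = (starRingEnd ℂ) (s y) := fun y => rfl
  have hne : a ≠ b := by
    intro h
    obtain ⟨y, hy⟩ := S.im
    have h1 : a y = b y := by rw [h]
    rw [hax, hbx] at h1
    exact hy (Complex.conj_eq_iff_im.1 h1.symm)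
  have hcard : Fintype.card (K →ₐ[ℚ] ℂ) = 2 := by rw [AlgHom.card, S.deg]
  have huniv : (Finset.univ : Finset (K →ₐ[ℚ] ℂ)) = {a, b} := by
    symm
    apply Finset.eq_of_subset_of_card_le (Finset.subset_univ _)
    rw [Finset.card_univ, hcard, Finset.card_pair hne]
  have h := trace_eq_sum_embeddings (K := ℚ) (L := K) ℂ (x := x)
  rw [huniv, Finset.sum_pair hne, hax, hbx] at h
  have h2 := congrArg Complex.re h
  rw [Complex.add_re, Complex.conj_re] at h2
  have h3 : (algebraMap ℚ ℂ (Algebra.trace ℚ K x)).re = ((Algebra.trace ℚ K x : ℚ) : ℝ) := by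
    simp
  rw [h3] at h2
  rw [h2]
  ring

open Module in
/-- bases of the fractional ideals -/
theorem idb (hd : Module.finrank ℚ K = 2) : ∃ β : Basis (Fin 2) ℚ K,
    |(((Matrix.of fun i j => Algebra.trace ℚ K (β i * β j)).det : ℚ) : ℝ)| = Dk K ∧
    ∀ a : HSG.Id K, ∃ e : Basis (Fin 2) ℚ K,
      (∀ x : K, x ∈ a.m ↔ ∃ m : Fin 2 → ℤ, x = ∑ i, (m i : K) * e i) ∧
      |((β.det e : ℚ) : ℝ)| = nI a := by
  classical
  have hc : Fintype.card (Free.ChooseBasisIndex ℤ (𝓞 K)) = 2 := by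
    rw [← finrank_eq_card_chooseBasisIndex, RingOfIntegers.rank, hd]
  set σ : Free.ChooseBasisIndex ℤ (𝓞 K) ≃ Fin 2 := Fintype.equivFinOfCardEq hc with hσ
  refine ⟨(integralBasis K).reindex σ, ?_, fun a => ?_⟩
  · have h1 : (Matrix.of fun i j => Algebra.trace ℚ K (((integralBasis K).reindex σ) i *
        ((integralBasis K).reindex σ) j)) =
        Algebra.traceMatrix ℚ ((integralBasis K) ∘ σ.symm) := by
      ext i j
      rw [Algebra.traceMatrix_apply, Algebra.traceForm_apply]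
      simp
    rw [h1, ← Algebra.discr_def, Algebra.discr_reindex, ← coe_discr]
    unfold Dk
    push_cast
    rfl
  · have hca : Fintype.card (Free.ChooseBasisIndex ℤ (a : FractionalIdeal (𝓞 K)⁰ K)) = 2 := by
      rw [← finrank_eq_card_chooseBasisIndex, fractionalIdeal_rank, RingOfIntegers.rank, hd]
    set ρ : Free.ChooseBasisIndex ℤ (a : FractionalIdeal (𝓞 K)⁰ K) ≃ Fin 2 :=
      Fintype.equivFinOfCardEq hca with hρ
    refine ⟨(basisOfFractionalIdeal K a).reindex ρ, fun x => ?_, ?_⟩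
    · have h1 : x ∈ a.m ↔ x ∈ ((a : FractionalIdeal (𝓞 K)⁰ K) : Set K) := Iff.rfl
      rw [h1, ← mem_span_basisOfFractionalIdeal, Submodule.mem_span_range_iff_exists_fun]
      constructor
      · rintro ⟨c, hc⟩
        refine ⟨c ∘ ρ.symm, ?_⟩
        rw [← hc, ← Equiv.sum_comp ρ]
        refine Finset.sum_congr rfl fun i _ => ?_
        simp
      · rintro ⟨m, rfl⟩
        refine ⟨m ∘ ρ, ?_⟩
        rw [← Equiv.sum_comp ρ]
        refine Finset.sum_congr rfl fun i _ => ?_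
        simp
    · have h2 := det_basisOfFractionalIdeal_eq_absNorm K a (σ.trans ρ.symm)
      have h3 : ((integralBasis K).reindex σ).det ((basisOfFractionalIdeal K a).reindex ρ) =
          (integralBasis K).det ((basisOfFractionalIdeal K a).reindex (σ.trans ρ.symm).symm) := by
        rw [Basis.det_reindex]
        congr 1
        funext i
        simp
      rw [h3]
      unfold nI
      rw [← h2]
      push_cast
      rfl

open Module in
/-- the determinant of the trace pairing of two bases -/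
theorem det_T (β e f : Basis (Fin 2) ℚ K) :
    (Matrix.of fun i j => Algebra.trace ℚ K (e i * f j)).det =
      β.det e * (Matrix.of fun i j => Algebra.trace ℚ K (β i * β j)).det * β.det f := by
  have h : (Matrix.of fun i j => Algebra.trace ℚ K (e i * f j)) =
      (β.toMatrix e).transpose * (Matrix.of fun i j => Algebra.trace ℚ K (β i * β j)) *
        β.toMatrix f := by
    ext i j
    have h1 : e i = ∑ k, β.toMatrix e k i • β k := (β.sum_toMatrix_smul_self e i).symm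
    have h2 : f j = ∑ l, β.toMatrix f l j • β l := (β.sum_toMatrix_smul_self f j).symm
    show Algebra.trace ℚ K (e i * f j) = _
    rw [h1, h2]
    simp only [Fin.sum_univ_two, Matrix.mul_apply, Matrix.transpose_apply, Matrix.of_apply,
      mul_add, add_mul, smul_mul_assoc, mul_smul_comm, map_add, map_smul, smul_eq_mul]
    ring
  rw [h, Matrix.det_mul, Matrix.det_mul, Matrix.det_transpose, Basis.det_apply, Basis.det_apply]


/-! ### the lattice -/

open Module in
/-- an adapted basis of a lattice, its dual basis and the determinant of the pairing -/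
theorem lat_four (S : IQ s) (M : Lat K) : ∃ B BD : Fin 2 ⊕ Fin 2 → (Fin 2 → K),
    (∀ v, v ∈ M.M ↔ ∃ m : Fin 2 ⊕ Fin 2 → ℤ, v = ∑ i, m i • B i) ∧
    (∀ i j, Algebra.trace ℚ K (dt (BD i) (B j)) = if i = j then 1 else 0) ∧
    ∃ T : Matrix (Fin 2) (Fin 2) ℚ, |((T.det : ℚ) : ℝ)| = Dk K * nI M.det ∧
      (Matrix.of fun i j => Algebra.trace ℚ K (dt (B (Equiv.sumComm _ _ i)) (B j))) =
        Matrix.fromBlocks (-T.transpose) 0 0 T := by
  classical
  obtain ⟨β, hβ, hid⟩ := idb (K := K) S.deg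
  have hv : (![0, 1] : Fin 2 → K) ≠ 0 := by
    intro h
    have := congrFun h 1
    simp at this
  obtain ⟨g, -, hg⟩ := HSG.split M hv
  set b : HSG.Id K := M.det / M.av ![0, 1] with hb
  set a : HSG.Id K := M.av ![0, 1] with ha
  obtain ⟨e, he, hde⟩ := hid b
  obtain ⟨f, hf, hdf⟩ := hid a
  set G : Matrix (Fin 2) (Fin 2) K := (g : Matrix (Fin 2) (Fin 2) K) with hG
  have hdet : G.det = 1 := g.det_coe
  have hdt : ∀ u v : Fin 2 → K, dt (Matrix.vecMul u G) (Matrix.vecMul v G) = dt u v := by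
    intro u v
    rw [HSG.gb1_dt_mul, hdet]
    ring
  have hmem : ∀ w : Fin 2 → K, Matrix.vecMul w G ∈ M.M ↔ w 0 ∈ b.m ∧ w 1 ∈ a.m := by
    intro w
    have h1 := HSG.LV.vm_mem (g • M) (g : GL (Fin 2) K) w
    have h2 : (g • M).mul (g : GL (Fin 2) K) = M := by
      rw [HSG.act_eq, ← HSG.mul_mul]
      have : (((g⁻¹ : SL(2, K)) : GL (Fin 2) K) * (g : GL (Fin 2) K)) = 1 := by
        rw [← Matrix.SpecialLinearGroup.toGL.map_mul, inv_mul_cancel, map_one]
      rw [this]
      have h3 := one_smul (GL (Fin 2) K) M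
      rw [show (1 : GL (Fin 2) K) • M = M.mul 1⁻¹ from rfl, inv_one] at h3
      exact h3
    rw [h2] at h1
    rw [show Matrix.vecMul w G = Matrix.vecMul w ((g : GL (Fin 2) K) : Matrix (Fin 2) (Fin 2) K) from
      rfl, h1, hg]
    rfl
  have hsur : ∀ v : Fin 2 → K, ∃ w, v = Matrix.vecMul w G := by
    intro v
    refine ⟨Matrix.vecMul v ((g⁻¹ : SL(2, K)) : Matrix (Fin 2) (Fin 2) K), ?_⟩
    rw [Matrix.vecMul_vecMul, ← Matrix.SpecialLinearGroup.coe_mul, inv_mul_cancel]
    simp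
  set B : Fin 2 ⊕ Fin 2 → (Fin 2 → K) := Sum.elim (fun i => Matrix.vecMul ![e i, 0] G)
    (fun j => Matrix.vecMul ![0, f j] G) with hB
  set BD : Fin 2 ⊕ Fin 2 → (Fin 2 → K) := Sum.elim (fun i => Matrix.vecMul ![0, -e.traceDual i] G)
    (fun j => Matrix.vecMul ![f.traceDual j, 0] G) with hBD
  have hsum : ∀ m : Fin 2 ⊕ Fin 2 → ℤ, ∑ i, m i • B i =
      Matrix.vecMul ![∑ i, (m (Sum.inl i) : K) * e i, ∑ j, (m (Sum.inr j) : K) * f j] G := by
    intro m
    rw [Fintype.sum_sum_type]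
    simp only [hB, Sum.elim_inl, Sum.elim_inr]
    funext l
    fin_cases l <;>
      simp [Matrix.vecMul, dotProduct, Fin.sum_univ_two, zsmul_eq_mul] <;> ring
  refine ⟨B, BD, fun v => ?_, ?_, Matrix.of fun i j => Algebra.trace ℚ K (e i * f j), ?_, ?_⟩
  · obtain ⟨w, rfl⟩ := hsur v
    rw [hmem, he, hf]
    constructor
    · rintro ⟨⟨m, hm⟩, n, hn⟩
      refine ⟨Sum.elim m n, ?_⟩
      rw [hsum]
      simp only [Sum.elim_inl, Sum.elim_inr]
      rw [← hm, ← hn]
      congr 1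
      funext l
      fin_cases l <;> rfl
    · rintro ⟨m, hm⟩
      rw [hsum] at hm
      have h1 : w = ![∑ i, (m (Sum.inl i) : K) * e i, ∑ j, (m (Sum.inr j) : K) * f j] := by
        have h2 := congrArg (fun u => Matrix.vecMul u
          ((g⁻¹ : SL(2, K)) : Matrix (Fin 2) (Fin 2) K)) hm
        simp only [Matrix.vecMul_vecMul] at h2
        rw [hG, ← Matrix.SpecialLinearGroup.coe_mul, mul_inv_cancel] at h2
        simpa using h2
      rw [h1]
      exact ⟨⟨fun i => m (Sum.inl i), rfl⟩, fun j => m (Sum.inr j), rfl⟩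
  · intro i j
    rcases i with i | i <;> rcases j with j | j <;>
      simp only [hB, hBD, Sum.elim_inl, Sum.elim_inr, hdt] <;>
      simp only [dt, Matrix.cons_val_zero, Matrix.cons_val_one]
    · have h1 : (0 : K) * 0 - -e.traceDual i * e j = e.traceDual i * e j := by ring
      rw [h1, Basis.trace_traceDual_mul]
      by_cases h : i = j
      · subst h; simp
      · rw [if_neg (fun h' => h h'.symm), if_neg (fun h' => h (Sum.inl_injective h'))]
    · simp
    · simp
    · have h1 : f.traceDual i * f j - 0 * 0 = f.traceDual i * f j := by ring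
      rw [h1, Basis.trace_traceDual_mul]
      by_cases h : i = j
      · subst h; simp
      · rw [if_neg (fun h' => h h'.symm), if_neg (fun h' => h (Sum.inr_injective h'))]
  · rw [det_T β e f, Rat.cast_mul, Rat.cast_mul, abs_mul, abs_mul, hβ, hde, hdf]
    have h1 : M.det = b * a := by rw [hb]; simp
    rw [h1, HSG.nI_mul]
    ring
  · ext i j
    rcases i with i | i <;> rcases j with j | j <;>
      simp only [hB, Equiv.sumComm_apply, Matrix.of_apply, Sum.swap_inl, Sum.swap_inr,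
        Sum.elim_inl, Sum.elim_inr, hdt] <;>
      simp [dt, Matrix.fromBlocks]
    · rw [mul_comm]


/-! ### the theorem -/

/-- the first map on `K²` -/
noncomputable def F1 (s : K →+* ℂ) (a c : ℝ) (z : ℂ) (v : Fin 2 → K) : EuclideanSpace ℝ (Fin 4) :=
  f1 a c z (s (v 0)) (s (v 1))

/-- the second map on `K²` -/
noncomputable def F2 (s : K →+* ℂ) (a c : ℝ) (z : ℂ) (v : Fin 2 → K) : EuclideanSpace ℝ (Fin 4) :=
  f2 a c z (s (v 0)) (s (v 1))

omit [NumberField K] in
theorem F1_add (s : K →+* ℂ) (a c : ℝ) (z : ℂ) (u v : Fin 2 → K) :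
    F1 s a c z (u + v) = F1 s a c z u + F1 s a c z v := by
  unfold F1 f1
  rw [← vE_add]
  simp only [Pi.add_apply, map_add]
  congr 1 <;> ring

omit [NumberField K] in
theorem F2_add (s : K →+* ℂ) (a c : ℝ) (z : ℂ) (u v : Fin 2 → K) :
    F2 s a c z (u + v) = F2 s a c z u + F2 s a c z v := by
  unfold F2 f2
  rw [← vE_add]
  simp only [Pi.add_apply, map_add, map_mul]
  congr 1 <;> ring

/-- the first map as a homomorphism -/
noncomputable def H1 (s : K →+* ℂ) (a c : ℝ) (z : ℂ) : (Fin 2 → K) →+ EuclideanSpace ℝ (Fin 4) :=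
  AddMonoidHom.mk' (F1 s a c z) (F1_add s a c z)

/-- the second map as a homomorphism -/
noncomputable def H2 (s : K →+* ℂ) (a c : ℝ) (z : ℂ) : (Fin 2 → K) →+ EuclideanSpace ℝ (Fin 4) :=
  AddMonoidHom.mk' (F2 s a c z) (F2_add s a c z)

theorem H21 (S : IQ s) {a c : ℝ} (ha : 0 < a) (hc : 0 < c) (z : ℂ) (u v : Fin 2 → K) :
    inner ℝ (H2 s a c z u) (H1 s a c z v) = ((Algebra.trace ℚ K (dt u v) : ℚ) : ℝ) := by
  rw [tr_s S]
  show inner ℝ (F2 s a c z u) (F1 s a c z v) = _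
  unfold F1 F2
  rw [f21 ha hc]
  congr 2
  unfold dt
  rw [map_sub, map_mul, map_mul]

omit [NumberField K] in
theorem H1_norm (s : K →+* ℂ) {a c : ℝ} (hc : 0 < c) (z : ℂ) (v : Fin 2 → K) :
    ‖H1 s a c z v‖ ^ 2 = a ^ 2 * ((normSq (s (v 0) * z + s (v 1)) +
      normSq (s (v 0)) * (c ^ 2) ^ 2) / c ^ 2) := f1_norm hc _ _ _

omit [NumberField K] in
theorem H2_norm (s : K →+* ℂ) {a c : ℝ} (ha : 0 < a) (hc : 0 < c) (z : ℂ) (v : Fin 2 → K) :
    ‖H2 s a c z v‖ ^ 2 = 4 / a ^ 2 * ((normSq (s (v 0) * z + s (v 1)) +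
      normSq (s (v 0)) * (c ^ 2) ^ 2) / c ^ 2) := f2_norm ha hc _ _ _

omit [NumberField K] in
theorem H2_inj (s : K →+* ℂ) {a c : ℝ} (ha : 0 < a) (hc : 0 < c) (z : ℂ) {v : Fin 2 → K}
    (h : H2 s a c z v = 0) : v = 0 := by
  have h1 := H2_norm s ha hc z v
  rw [h, norm_zero, zero_pow two_ne_zero] at h1
  have h2 : normSq (s (v 0) * z + s (v 1)) + normSq (s (v 0)) * (c ^ 2) ^ 2 = 0 := by
    have h3 : 0 < 4 / a ^ 2 := by positivity
    have h4 : (normSq (s (v 0) * z + s (v 1)) + normSq (s (v 0)) * (c ^ 2) ^ 2) / c ^ 2 = 0 := by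
      rcases mul_eq_zero.1 h1.symm with h5 | h5
      · exact absurd h5 h3.ne'
      · exact h5
    rcases div_eq_zero_iff.1 h4 with h5 | h5
    · exact h5
    · exact absurd h5 (by positivity)
  have h3 : 0 ≤ normSq (s (v 0) * z + s (v 1)) := normSq_nonneg _
  have h4 : 0 ≤ normSq (s (v 0)) * (c ^ 2) ^ 2 := mul_nonneg (normSq_nonneg _) (by positivity)
  have h5 : normSq (s (v 0)) * (c ^ 2) ^ 2 = 0 := by linarith
  have h6 : normSq (s (v 0) * z + s (v 1)) = 0 := by linarith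
  have h7 : s (v 0) = 0 := by
    rcases mul_eq_zero.1 h5 with h | h
    · exact normSq_eq_zero.1 h
    · exact absurd h (by positivity)
  have h8 : s (v 1) = 0 := by
    have := normSq_eq_zero.1 h6
    rw [h7, zero_mul, zero_add] at this
    exact this
  funext i
  fin_cases i
  · exact (map_eq_zero s).1 h7
  · exact (map_eq_zero s).1 h8

omit [NumberField K] in
theorem H_sum {ι : Type} [Fintype ι] (H : (Fin 2 → K) →+ EuclideanSpace ℝ (Fin 4))
    (B : ι → (Fin 2 → K)) (m : ι → ℤ) :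
    H (∑ i, m i • B i) = cmb (fun i => H (B i)) (fun i => (m i : ℝ)) := by
  rw [map_sum]
  unfold cmb
  refine Finset.sum_congr rfl fun i _ => ?_
  rw [map_zsmul, Int.cast_smul_eq_zsmul]

/-- linear independence from dual vectors -/
theorem li_dual {E : Type} [NormedAddCommGroup E] [InnerProductSpace ℝ E] {ι : Type} [Fintype ι]
    [DecidableEq ι] (b b' : ι → E) (h : ∀ i j, inner ℝ (b' i) (b j) = if i = j then (1 : ℝ) else 0) :
    LinearIndependent ℝ b := by
  rw [Fintype.linearIndependent_iff]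
  intro g hg i
  have h1 := congrArg (fun x => inner ℝ (b' i) x) hg
  simp only [inner_sum, inner_smul_right, h, inner_zero_right] at h1
  simpa using h1

theorem nI_dk : nI (DD K) = Dk K := by
  have h1 : differentIdeal ℤ (𝓞 K) ≠ ⊥ := differentIdeal_ne_bot
  have h2 : ((differentIdeal ℤ (𝓞 K) : Ideal (𝓞 K)) : FractionalIdeal (𝓞 K)⁰ K) ≠ 0 :=
    FractionalIdeal.coeIdeal_ne_zero.2 h1
  have h3 : DD K = Units.mk0 _ h2 := by
    unfold DD
    rw [show ((differentIdeal ℤ (𝓞 K) : FractionalIdeal (𝓞 K)⁰ K) : Submodule (𝓞 K) K) =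
      HSG.Id.m (Units.mk0 _ h2) from rfl, HSG.toId_self]
  rw [h3]
  unfold nI Dk
  rw [Units.val_mk0, FractionalIdeal.coeIdeal_absNorm, NumberField.absNorm_differentIdeal K]
  rw [Rat.cast_natCast, Nat.cast_natAbs, Int.cast_abs]

theorem theta_poisson (S : IQ s) {n : HSG.Id K} (hn : IsInt n) (P : HB.H3) (L : Lat K)
    {v : Fin 2 → K} (hv : v ∈ L.M) {t : ℝ} (ht : 0 < t) :
    Summable (fun x : (L.sm n).M => Real.exp (-(Real.pi * (t * QQ s P L (v + x))))) ∧
    Summable (fun l : (HSG.LV.dua n L).M =>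
      Real.exp (-(Real.pi * (4 * QQ s P (HSG.LV.dua n L) l / (t * Dk K * nI n))))) ∧
    ((∑' x : (L.sm n).M, Real.exp (-(Real.pi * (t * QQ s P L (v + x)))) : ℝ) : ℂ) =
      ((4 / (t ^ 2 * Dk K * nI n ^ 2) : ℝ) : ℂ) * ∑' l : (HSG.LV.dua n L).M, e2 (s (dt l v)) *
        ((Real.exp (-(Real.pi * (4 * QQ s P (HSG.LV.dua n L) l / (t * Dk K * nI n)))) : ℝ) : ℂ) := by
  classical
  obtain ⟨B, BD, hB, hBD, T, hT, hTm⟩ := lat_four S (L.sm n)
  -- constants
  have hNL : 0 < nI L.det := HSG.nI_pos _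
  have hNn : 0 < nI n := HSG.nI_pos _
  have hDk : 0 < Dk K := by
    unfold Dk
    exact abs_pos.2 (by exact_mod_cast discr_ne_zero K)
  set z : ℂ := P.1.1 with hz
  set y : ℝ := P.1.2 with hy
  have hy0 : 0 < y := P.2
  set c : ℝ := √y with hc
  have hc0 : 0 < c := Real.sqrt_pos.2 hy0
  have hc2 : c ^ 2 = y := Real.sq_sqrt hy0.le
  set τ : ℝ := t / √(nI L.det) with hτ
  have hsq0 : 0 < √(nI L.det) := Real.sqrt_pos.2 hNL
  have hτ0 : 0 < τ := by positivity
  set a : ℝ := √τ with ha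
  have ha0 : 0 < a := Real.sqrt_pos.2 hτ0
  have ha2 : a ^ 2 = τ := Real.sq_sqrt hτ0.le
  -- norms
  have hn1 : ∀ w : Fin 2 → K, ‖H1 s a c z w‖ ^ 2 = t * QQ s P L w := by
    intro w
    rw [H1_norm s hc0, hc2, ha2, hτ]
    unfold QQ
    ring
  have hdd : nI (HSG.LV.dua n L).det = (nI n ^ 2 * Dk K ^ 2 * nI L.det)⁻¹ := by
    rw [HSG.LV.dua_det, HSG.nI_inv, HSG.nI_mul, pow_two, HSG.nI_mul, HSG.nI_mul, nI_dk]
    congr 1
    ring
  have hn2 : ∀ w : Fin 2 → K, ‖H2 s a c z w‖ ^ 2 =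
      4 * QQ s P (HSG.LV.dua n L) w / (t * Dk K * nI n) := by
    intro w
    rw [H2_norm s ha0 hc0, hc2, ha2, hτ]
    unfold QQ
    have h1 : √(nI (HSG.LV.dua n L).det) = (nI n * Dk K * √(nI L.det))⁻¹ := by
      rw [hdd, Real.sqrt_inv]
      congr 1
      rw [show nI n ^ 2 * Dk K ^ 2 * nI L.det = (nI n * Dk K) ^ 2 * nI L.det by ring,
        Real.sqrt_mul (by positivity), Real.sqrt_sq (by positivity)]
    rw [h1, ← hz, ← hy]
    field_simp
  -- bases
  set b0 : Fin 2 ⊕ Fin 2 → EuclideanSpace ℝ (Fin 4) := fun i => H1 s a c z (B i) with hb0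
  set b0' : Fin 2 ⊕ Fin 2 → EuclideanSpace ℝ (Fin 4) := fun i => H2 s a c z (BD i) with hb0'
  have hdual : ∀ i j, inner ℝ (b0' i) (b0 j) = if i = j then (1 : ℝ) else 0 := by
    intro i j
    rw [hb0, hb0']
    simp only
    rw [H21 S ha0 hc0, hBD]
    split_ifs <;> simp
  have hdual' : ∀ i j, inner ℝ (b0 i) (b0' j) = if i = j then (1 : ℝ) else 0 := by
    intro i j
    rw [real_inner_comm, hdual]
    by_cases h : i = j
    · subst h; simp
    · rw [if_neg h, if_neg (Ne.symm h)]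
  have hfin : Fintype.card (Fin 2 ⊕ Fin 2) = Module.finrank ℝ (EuclideanSpace ℝ (Fin 4)) := by simp
  set b : Module.Basis (Fin 2 ⊕ Fin 2) ℝ (EuclideanSpace ℝ (Fin 4)) :=
    basisOfLinearIndependentOfCardEqFinrank (li_dual b0 b0' hdual) hfin with hb
  set b' : Module.Basis (Fin 2 ⊕ Fin 2) ℝ (EuclideanSpace ℝ (Fin 4)) :=
    basisOfLinearIndependentOfCardEqFinrank (li_dual b0' b0 hdual') hfin with hb'
  have hbe : (b : Fin 2 ⊕ Fin 2 → EuclideanSpace ℝ (Fin 4)) = b0 :=
    coe_basisOfLinearIndependentOfCardEqFinrank _ _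
  have hbe' : (b' : Fin 2 ⊕ Fin 2 → EuclideanSpace ℝ (Fin 4)) = b0' :=
    coe_basisOfLinearIndependentOfCardEqFinrank _ _
  have hbb : ∀ i j, inner ℝ (b' i) (b j) = if i = j then (1 : ℝ) else 0 := by
    intro i j
    rw [hbe, hbe']
    exact hdual i j
  -- the Gram determinant
  have hgp : 0 < (gram b).det := (cmb_integral b (fun _ => 0)).1
  have hgr : √(gram b).det = t ^ 2 * Dk K * nI n ^ 2 / 4 := by
    have h1 := gram_det b hgp.ne' (fun i => H2 s a c z (B (Equiv.sumComm _ _ i)))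
      (Equiv.sumComm _ _) (4 / a ^ 4) (fun i j => by
        rw [hbe]
        exact f22 ha0 hc0 z _ _ _ _)
    have h2 : (Matrix.of fun i j => inner ℝ (H2 s a c z (B (Equiv.sumComm _ _ i))) (b j)) =
        ((Matrix.of fun i j => Algebra.trace ℚ K (dt (B (Equiv.sumComm _ _ i)) (B j))).map
          (fun x : ℚ => (x : ℝ))) := by
      ext i j
      rw [hbe]
      exact H21 S ha0 hc0 z _ _
    rw [h2, hTm] at h1
    have h3 : ((Matrix.fromBlocks (-T.transpose) 0 0 T).map (fun x : ℚ => (x : ℝ))).det =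
        (((T.det : ℚ) : ℝ)) ^ 2 := by
      have h4 : ((Matrix.fromBlocks (-T.transpose) 0 0 T).map (fun x : ℚ => (x : ℝ))).det =
          (((Matrix.fromBlocks (-T.transpose) 0 0 T).det : ℚ) : ℝ) := by
        exact ((Rat.castHom ℝ).map_det (Matrix.fromBlocks (-T.transpose) 0 0 T)).symm
      rw [h4, Matrix.det_fromBlocks_zero₂₁, Matrix.det_neg, Matrix.det_transpose]
      simp
      ring
    rw [h3] at h1
    have h5 : |((T.det : ℚ) : ℝ)| ^ 2 = (((T.det : ℚ) : ℝ)) ^ 2 := sq_abs _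
    rw [← h5, hT, HSG.det_sm, pow_two n, HSG.nI_mul, HSG.nI_mul] at h1
    have h6 : a ^ 4 = t ^ 2 / nI L.det := by
      rw [show a ^ 4 = (a ^ 2) ^ 2 by ring, ha2, hτ, div_pow, Real.sq_sqrt hNL.le]
    rw [h6] at h1
    have h7 : (gram b).det = (t ^ 2 * Dk K * nI n ^ 2 / 4) ^ 2 := by
      have h8 : Fintype.card (Fin 2 ⊕ Fin 2) = 4 := rfl
      rw [h8] at h1
      have h9 : (gram b).det ^ 2 = ((t ^ 2 * Dk K * nI n ^ 2 / 4) ^ 2) ^ 2 := by
        field_simp at h1 ⊢
        linarith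
      exact (pow_left_inj₀ hgp.le (by positivity) two_ne_zero).1 h9
    rw [h7, Real.sqrt_sq (by positivity)]
  -- the two parametrisations
  have hcmb : ∀ m : Fin 2 ⊕ Fin 2 → ℤ, cmb b (fun i => (m i : ℝ)) = H1 s a c z (∑ i, m i • B i) := by
    intro m
    rw [H_sum, hbe]
  have hcmb' : ∀ k : Fin 2 ⊕ Fin 2 → ℤ,
      cmb b' (fun i => (k i : ℝ)) = H2 s a c z (∑ i, k i • BD i) := by
    intro k
    rw [H_sum, hbe']
  have hinjb : ∀ (bb : Module.Basis (Fin 2 ⊕ Fin 2) ℝ (EuclideanSpace ℝ (Fin 4)))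
      (m m' : Fin 2 ⊕ Fin 2 → ℤ), cmb bb (fun i => (m i : ℝ)) = cmb bb (fun i => (m' i : ℝ)) →
      m = m' := by
    intro bb m m' h
    rw [cmb_eq, cmb_eq] at h
    have h1 := bb.equivFun.symm.injective h
    funext i
    exact_mod_cast congrFun h1 i
  have hmem1 : ∀ m : Fin 2 ⊕ Fin 2 → ℤ, ∑ i, m i • B i ∈ (L.sm n).M := fun m =>
    (hB _).2 ⟨m, rfl⟩
  have hpair : ∀ k m : Fin 2 ⊕ Fin 2 → ℤ,
      Algebra.trace ℚ K (dt (∑ i, m i • B i) (∑ i, k i • BD i)) = ((-∑ i, m i * k i : ℤ) : ℚ) := by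
    intro k m
    have h1 : ((Algebra.trace ℚ K (dt (∑ i, k i • BD i) (∑ i, m i • B i)) : ℚ) : ℝ) =
        ((∑ i, m i * k i : ℤ) : ℝ) := by
      rw [← H21 S ha0 hc0 z, ← hcmb, ← hcmb']
      unfold cmb
      rw [sum_inner]
      push_cast
      refine Finset.sum_congr rfl fun i _ => ?_
      rw [inner_smul_left, inner_sum, Finset.sum_eq_single i]
      · rw [inner_smul_right, hbb, if_pos rfl]
        simp only [conj_trivial]
        ring
      · intro j _ hj
        rw [inner_smul_right, hbb, if_neg (Ne.symm hj), mul_zero]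
      · intro h; exact absurd (Finset.mem_univ i) h
    have h2 : dt (∑ i, m i • B i) (∑ i, k i • BD i) = -dt (∑ i, k i • BD i) (∑ i, m i • B i) := by
      unfold dt
      ring
    rw [h2, map_neg]
    have h3 : Algebra.trace ℚ K (dt (∑ i, k i • BD i) (∑ i, m i • B i)) =
        ((∑ i, m i * k i : ℤ) : ℚ) := by exact_mod_cast h1
    rw [h3]
    push_cast
    rfl
  have hmem2 : ∀ l : Fin 2 → K, l ∈ (HSG.LV.dua n L).M ↔
      ∃ k : Fin 2 ⊕ Fin 2 → ℤ, l = ∑ i, k i • BD i := by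
    intro l
    rw [HSG.LV.mem_dua]
    constructor
    · intro h
      have h1 : ∀ i, ∃ k : ℤ, Algebra.trace ℚ K (dt (B i) l) = k := by
        intro i
        refine h _ ((hB _).2 ⟨Pi.single i 1, ?_⟩)
        rw [Finset.sum_eq_single i]
        · simp
        · intro j _ hj
          rw [Pi.single_eq_of_ne hj, zero_smul]
        · intro h; exact absurd (Finset.mem_univ i) h
      choose k hk using h1
      refine ⟨fun i => -k i, ?_⟩
      have h2 : H2 s a c z l = H2 s a c z (∑ i, (-k i) • BD i) := by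
        rw [← hcmb' (fun i => -k i)]
        have h3 : H2 s a c z l = cmb b' (b'.equivFun (H2 s a c z l)) := by
          rw [cmb_eq, LinearEquiv.symm_apply_apply]
        rw [h3]
        congr 1
        funext i
        have h4 : inner ℝ (H2 s a c z l) (b i) = b'.equivFun (H2 s a c z l) i := by
          conv_lhs => rw [h3]
          unfold cmb
          rw [sum_inner, Finset.sum_eq_single i]
          · rw [inner_smul_left, hbb, if_pos rfl, mul_one]
            rfl
          · intro j _ hj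
            rw [inner_smul_left, hbb, if_neg hj, mul_zero]
          · intro h; exact absurd (Finset.mem_univ i) h
        rw [← h4, hbe, hb0]
        simp only
        rw [H21 S ha0 hc0]
        have h5 : dt l (B i) = -dt (B i) l := by unfold dt; ring
        rw [h5, map_neg, hk]
        push_cast
        rfl
      have h3 : H2 s a c z (l - ∑ i, (-k i) • BD i) = 0 := by
        rw [map_sub, h2, sub_self]
      exact sub_eq_zero.1 (H2_inj s ha0 hc0 z h3)
    · rintro ⟨k, rfl⟩ u hu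
      obtain ⟨m, rfl⟩ := (hB u).1 hu
      exact ⟨_, hpair k m⟩
  set E1 : (Fin 2 ⊕ Fin 2 → ℤ) ≃ (L.sm n).M := Equiv.ofBijective
    (fun m => (⟨∑ i, m i • B i, hmem1 m⟩ : (L.sm n).M)) (by
      constructor
      · intro m m' h
        have h1 : ∑ i, m i • B i = ∑ i, m' i • B i := congrArg Subtype.val h
        apply hinjb b
        rw [hcmb, hcmb, h1]
      · rintro ⟨x, hx⟩
        obtain ⟨m, hm⟩ := (hB x).1 hx
        exact ⟨m, Subtype.ext hm.symm⟩) with hE1
  set E2 : (Fin 2 ⊕ Fin 2 → ℤ) ≃ (HSG.LV.dua n L).M := Equiv.ofBijective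
    (fun k => (⟨∑ i, k i • BD i, (hmem2 _).2 ⟨k, rfl⟩⟩ : (HSG.LV.dua n L).M)) (by
      constructor
      · intro m m' h
        have h1 : ∑ i, m i • BD i = ∑ i, m' i • BD i := congrArg Subtype.val h
        apply hinjb b'
        rw [hcmb', hcmb', h1]
      · rintro ⟨x, hx⟩
        obtain ⟨m, hm⟩ := (hmem2 x).1 hx
        exact ⟨m, Subtype.ext hm.symm⟩) with hE2
  have hE1v : ∀ m, ((E1 m : (L.sm n).M) : Fin 2 → K) = ∑ i, m i • B i := fun m => rfl
  have hE2v : ∀ k, ((E2 k : (HSG.LV.dua n L).M) : Fin 2 → K) = ∑ i, k i • BD i := fun k => rfl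
  have hmain := gp_poisson b b' hbb (H1 s a c z v)
  have hl1 : ∀ m : Fin 2 ⊕ Fin 2 → ℤ, ‖H1 s a c z v + cmb b (fun i => (m i : ℝ))‖ ^ 2 =
      t * QQ s P L (v + (E1 m : (L.sm n).M)) := by
    intro m
    rw [hcmb, ← map_add, hn1, hE1v]
  have hl2 : ∀ k : Fin 2 ⊕ Fin 2 → ℤ, ‖cmb b' (fun i => (k i : ℝ))‖ ^ 2 =
      4 * QQ s P (HSG.LV.dua n L) (E2 k : (HSG.LV.dua n L).M) / (t * Dk K * nI n) := by
    intro k
    rw [hcmb', hn2, hE2v]
  have hl3 : ∀ k : Fin 2 ⊕ Fin 2 → ℤ, ee (inner ℝ (cmb b' (fun i => (k i : ℝ))) (H1 s a c z v)) =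
      e2 (s (dt (E2 k : (HSG.LV.dua n L).M) v)) := by
    intro k
    rw [hcmb', H21 S ha0 hc0, tr_s S, hE2v]
    rfl
  simp_rw [hl1, hl2, hl3] at hmain
  obtain ⟨m1, m2, m3⟩ := hmain
  refine ⟨?_, ?_, ?_⟩
  · rw [← E1.summable_iff]
    exact m1
  · rw [← E2.summable_iff]
    exact m2
  · rw [← E1.tsum_eq (fun x : (L.sm n).M => Real.exp (-(Real.pi * (t * QQ s P L (v + x))))), m3,
      ← E2.tsum_eq (fun l : (HSG.LV.dua n L).M => e2 (s (dt l v)) *
        ((Real.exp (-(Real.pi * (4 * QQ s P (HSG.LV.dua n L) l / (t * Dk K * nI n)))) : ℝ) : ℂ))]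
    congr 1
    rw [hgr]
    congr 1
    field_simp

end Pool.Agent.HI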