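import Pool.Agent.Lib_helper25.HIF.DX
import Pool.Agent.Lib_helper25.HIF.QE

/-!
# Project HI, block MI: absolute convergence of `M`
-/

namespace Pool.Agent.HI

open NumberField Complex MeasureTheory Set Filter Topology

/-- the product measure of the rays -/
noncomputable def miMu : Measure (ℂ × ℝ) :=
  (volume : Measure ℂ).prod (volume.restrict (Set.Ioi (0 : ℝ)))

theorem mi_mu : miMu = (volume : Measure (ℂ × ℝ)).restrict (Set.univ ×ˢ Set.Ioi (0 : ℝ)) := by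
  unfold miMu
  rw [Measure.volume_eq_prod, ← Measure.prod_restrict, Measure.restrict_univ]

theorem mi_ae : ∀ᵐ p ∂miMu, 0 < p.2 := by
  rw [mi_mu]
  refine (ae_restrict_iff' (MeasurableSet.univ.prod measurableSet_Ioi)).2 ?_
  exact Eventually.of_forall fun p hp => hp.2

theorem mi_pow {L A t : ℝ} (hL : 0 < L) (ht : |t| ≤ A) : L ^ t ≤ L ^ A + L ^ (-A) := by
  have h := abs_le.1 ht
  rcases le_total 1 L with h1 | h1
  · have h2 := Real.rpow_le_rpow_of_exponent_le h1 h.2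
    have h3 : 0 < L ^ (-A) := Real.rpow_pos_of_pos hL _
    linarith
  · have h2 := Real.rpow_le_rpow_of_exponent_ge hL h1 h.1
    have h3 : 0 < L ^ A := Real.rpow_pos_of_pos hL _
    linarith

/-- the height part of the dominating function -/
noncomputable def miH (δ y : ℝ) : ℝ := if y ≤ 1 then y ^ (δ - 1) else y ^ (-2 : ℝ)

/-- the dominating function -/
noncomputable def miD (δ : ℝ) (p : ℂ × ℝ) : ℝ :=
  (1 + ‖p.1‖ ^ 2) ^ (-(2 + 2 * δ) / 2) * miH δ p.2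

theorem miH_int {δ : ℝ} (hδ : 0 < δ) : IntegrableOn (miH δ) (Set.Ioi 0) := by
  rw [← Set.Ioc_union_Ioi_eq_Ioi (zero_le_one : (0 : ℝ) ≤ 1)]
  refine IntegrableOn.union ?_ ?_
  · have h1 : IntegrableOn (fun y : ℝ => y ^ (δ - 1)) (Set.Ioc 0 1) := by
      have := (intervalIntegral.intervalIntegrable_rpow' (a := 0) (b := 1)
        (show -1 < δ - 1 by linarith))
      rwa [intervalIntegrable_iff_integrableOn_Ioc_of_le zero_le_one] at this
    refine h1.congr_fun (fun y hy => ?_) measurableSet_Ioc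
    simp only [miH]
    rw [if_pos hy.2]
  · have h1 : IntegrableOn (fun y : ℝ => y ^ (-2 : ℝ)) (Set.Ioi 1) :=
      integrableOn_Ioi_rpow_of_lt (by norm_num) one_pos
    refine h1.congr_fun (fun y hy => ?_) measurableSet_Ioi
    simp only [miH]
    rw [if_neg (not_le.2 hy)]

theorem miD_int {δ : ℝ} (hδ : 0 < δ) : Integrable (miD δ) miMu := by
  have h1 : Integrable (fun v : ℂ => (1 + ‖v‖ ^ 2) ^ (-(2 + 2 * δ) / 2)) :=
    integrable_rpow_neg_one_add_norm_sq (by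
      rw [Complex.finrank_real_complex]; push_cast; linarith)
  exact h1.mul_prod (miH_int hδ)

theorem mi_ray {f : ℂ × ℝ → ℂ} (hf : Ray f) {e : ℝ} (he : 0 ≤ e) :
    ∃ C : ℝ, 0 ≤ C ∧ ∀ (v : ℂ) (y : ℝ), 0 < y →
      ‖f ((y : ℂ) * v, y)‖ ≤ C * (y * (1 + normSq v)) ^ e ∧
      (1 ≤ y → ‖f ((y : ℂ) * v, y)‖ ≤ C * y ^ (-e)) := by
  obtain ⟨C, hC, hb⟩ := hf.bd ⌈e⌉₊
  obtain ⟨C', hC', hb'⟩ := hf.bd 0
  have hk : e ≤ (⌈e⌉₊ : ℝ) := Nat.le_ceil e
  refine ⟨C + C', by positivity, fun v y hy => ⟨?_, fun h1 => ?_⟩⟩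
  · have hq : 0 < y * (1 + normSq v) := by
      have := normSq_nonneg v
      positivity
    have h0 : 0 < (y * (1 + normSq v)) ^ e := Real.rpow_pos_of_pos hq _
    rcases le_total (y * (1 + normSq v)) 1 with h | h
    · have h2 := (hb v y hy).2
      have h3 : (y * (1 + normSq v)) ^ ⌈e⌉₊ ≤ (y * (1 + normSq v)) ^ e := by
        rw [← Real.rpow_natCast]
        exact Real.rpow_le_rpow_of_exponent_ge hq h hk
      calc _ ≤ C * (y * (1 + normSq v)) ^ ⌈e⌉₊ := h2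
        _ ≤ C * (y * (1 + normSq v)) ^ e := mul_le_mul_of_nonneg_left h3 hC
        _ ≤ (C + C') * (y * (1 + normSq v)) ^ e := by nlinarith
    · have h2 := (hb' v y hy).2
      rw [pow_zero, mul_one] at h2
      have h3 : 1 ≤ (y * (1 + normSq v)) ^ e := Real.one_le_rpow h he
      calc _ ≤ C' := h2
        _ ≤ C' * (y * (1 + normSq v)) ^ e := by nlinarith
        _ ≤ (C + C') * (y * (1 + normSq v)) ^ e := by nlinarith
  · have h2 := (hb v y hy).1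
    have h3 : (y ^ ⌈e⌉₊)⁻¹ ≤ y ^ (-e) := by
      rw [Real.rpow_neg hy.le, ← Real.rpow_natCast]
      exact inv_anti₀ (Real.rpow_pos_of_pos hy _) (Real.rpow_le_rpow_of_exponent_le h1 hk)
    have h0 : 0 < y ^ (-e) := Real.rpow_pos_of_pos hy _
    calc _ ≤ C * (y ^ ⌈e⌉₊)⁻¹ := h2
      _ ≤ C * y ^ (-e) := mul_le_mul_of_nonneg_left h3 hC
      _ ≤ (C + C') * y ^ (-e) := by nlinarith

theorem mi_norm {f : ℂ × ℝ → ℂ} {a : ℕ} {σ z : ℂ} {p : ℂ × ℝ} (hp : 0 < p.2) :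
    ‖mf f a σ z p‖ ≤ ‖f ((p.2 : ℂ) * p.1, p.2)‖ *
      ((1 + normSq p.1) ^ ((z.re - 1 / 2) - σ.re) * p.2 ^ (2 * (z.re - 1 / 2) - 1)) := by
  have hq : 0 < 1 + normSq p.1 := by have := normSq_nonneg p.1; linarith
  unfold mf
  rw [norm_mul]
  refine mul_le_mul_of_nonneg_left ?_ (norm_nonneg _)
  rw [norm_mul, norm_mul, Complex.norm_cpow_eq_rpow_re_of_pos hq,
    Complex.norm_cpow_eq_rpow_re_of_pos hp, norm_pow]
  have e1 : (z - 1 / 2 - σ - (a : ℂ) / 2).re = (z.re - 1 / 2 - σ.re) - (a : ℝ) / 2 := by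
    have : ((a : ℂ) / 2) = (((a : ℝ) / 2 : ℝ) : ℂ) := by push_cast; ring
    rw [this]
    simp
  have e2 : (2 * z - 2).re = 2 * (z.re - 1 / 2) - 1 := by simp; ring
  have e3 : ‖p.1‖ ^ a ≤ (1 + normSq p.1) ^ ((a : ℝ) / 2) := by
    have h1 : ‖p.1‖ ≤ (1 + normSq p.1) ^ (1 / 2 : ℝ) := by
      rw [← Real.sqrt_eq_rpow]
      apply Real.le_sqrt_of_sq_le
      rw [normSq_eq_norm_sq]
      linarith
    calc ‖p.1‖ ^ a ≤ ((1 + normSq p.1) ^ (1 / 2 : ℝ)) ^ a := pow_le_pow_left₀ (norm_nonneg _) h1 _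
      _ = _ := by
        rw [← Real.rpow_natCast, ← Real.rpow_mul hq.le]
        congr 1
        ring
  rw [e1, e2, Real.rpow_sub hq (z.re - 1 / 2 - σ.re)]
  have h0 : 0 < (1 + normSq p.1) ^ ((a : ℝ) / 2) := Real.rpow_pos_of_pos hq _
  have h1 : 0 ≤ (1 + normSq p.1) ^ (z.re - 1 / 2 - σ.re) * p.2 ^ (2 * (z.re - 1 / 2) - 1) := by
    positivity
  calc ‖p.1‖ ^ a * ((1 + normSq p.1) ^ (z.re - 1 / 2 - σ.re) / (1 + normSq p.1) ^ ((a : ℝ) / 2) *
        p.2 ^ (2 * (z.re - 1 / 2) - 1)) =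
        (‖p.1‖ ^ a / (1 + normSq p.1) ^ ((a : ℝ) / 2)) *
        ((1 + normSq p.1) ^ (z.re - 1 / 2 - σ.re) * p.2 ^ (2 * (z.re - 1 / 2) - 1)) := by ring
    _ ≤ 1 * ((1 + normSq p.1) ^ (z.re - 1 / 2 - σ.re) * p.2 ^ (2 * (z.re - 1 / 2) - 1)) :=
        mul_le_mul_of_nonneg_right ((div_le_one h0).2 e3) h1
    _ = _ := one_mul _

theorem mi_e1 {y q A δ σ : ℝ} (hy : 0 < y) (hq : 0 < q) (hσ : σ = A + 1 + 2 * δ) :
    (y * q) ^ δ * ((y ^ 2 * q) ^ A * (y ^ (-1 : ℝ) * q ^ (-σ))) =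
      q ^ (-(2 + 2 * δ) / 2) * (y ^ (δ - 1) * y ^ (2 * A)) := by
  have hyq : 0 < y * q := by positivity
  rw [Real.rpow_def_of_pos hyq, Real.rpow_def_of_pos (by positivity : 0 < y ^ 2 * q),
    Real.rpow_def_of_pos hy, Real.rpow_def_of_pos hq, Real.rpow_def_of_pos hq,
    Real.rpow_def_of_pos hy, Real.rpow_def_of_pos hy,
    Real.log_mul (by positivity : y ^ 2 ≠ 0) hq.ne', Real.log_mul hy.ne' hq.ne',
    Real.log_pow, ← Real.exp_add, ← Real.exp_add, ← Real.exp_add, ← Real.exp_add,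
    ← Real.exp_add, hσ]
  congr 1
  push_cast
  ring

theorem mi_e2 {y q A δ σ : ℝ} (hy : 0 < y) (hq : 0 < q) (hσ : σ = A + 1 + 2 * δ) :
    (y * q) ^ (2 * A + δ) * ((y ^ 2 * q) ^ (-A) * (y ^ (-1 : ℝ) * q ^ (-σ))) =
      q ^ (-(2 + 2 * δ) / 2) * y ^ (δ - 1) := by
  have hyq : 0 < y * q := by positivity
  rw [Real.rpow_def_of_pos hyq, Real.rpow_def_of_pos (by positivity : 0 < y ^ 2 * q),
    Real.rpow_def_of_pos hy, Real.rpow_def_of_pos hq, Real.rpow_def_of_pos hq,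
    Real.rpow_def_of_pos hy,
    Real.log_mul (by positivity : y ^ 2 ≠ 0) hq.ne', Real.log_mul hy.ne' hq.ne',
    Real.log_pow, ← Real.exp_add, ← Real.exp_add, ← Real.exp_add, ← Real.exp_add, hσ]
  congr 1
  push_cast
  ring

theorem mi_e3 {y q A δ σ : ℝ} (hy : 0 < y) (hq : 0 < q) (hσ : σ = A + 1 + 2 * δ) :
    y ^ (-(2 * A + 1)) * ((y ^ 2 * q) ^ A * (y ^ (-1 : ℝ) * q ^ (-σ))) =
      q ^ (-(2 + 2 * δ) / 2) * y ^ (-2 : ℝ) * q ^ (-δ) := by
  rw [Real.rpow_def_of_pos (by positivity : 0 < y ^ 2 * q),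
    Real.rpow_def_of_pos hy, Real.rpow_def_of_pos hq, Real.rpow_def_of_pos hq,
    Real.rpow_def_of_pos hy, Real.rpow_def_of_pos hy, Real.rpow_def_of_pos hq,
    Real.log_mul (by positivity : y ^ 2 ≠ 0) hq.ne',
    Real.log_pow, ← Real.exp_add, ← Real.exp_add, ← Real.exp_add, ← Real.exp_add,
    ← Real.exp_add, hσ]
  congr 1
  push_cast
  ring

theorem mi_e4 {y q A δ σ : ℝ} (hy : 0 < y) (hq : 0 < q) (hσ : σ = A + 1 + 2 * δ) :
    y ^ (-(2 * A + 1)) * ((y ^ 2 * q) ^ (-A) * (y ^ (-1 : ℝ) * q ^ (-σ))) =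
      q ^ (-(2 + 2 * δ) / 2) * y ^ (-2 : ℝ) * (q ^ (-δ - 2 * A) * y ^ (-(4 * A))) := by
  rw [Real.rpow_def_of_pos (by positivity : 0 < y ^ 2 * q),
    Real.rpow_def_of_pos hy, Real.rpow_def_of_pos hq, Real.rpow_def_of_pos hq,
    Real.rpow_def_of_pos hy, Real.rpow_def_of_pos hy, Real.rpow_def_of_pos hq,
    Real.rpow_def_of_pos hy,
    Real.log_mul (by positivity : y ^ 2 ≠ 0) hq.ne',
    Real.log_pow, ← Real.exp_add, ← Real.exp_add, ← Real.exp_add, ← Real.exp_add,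
    ← Real.exp_add, ← Real.exp_add, hσ]
  congr 1
  push_cast
  ring

theorem mi_point {f : ℂ × ℝ → ℂ} (hf : Ray f) {A δ : ℝ} (hA : 0 ≤ A) (hδ : 0 < δ) :
    ∃ M : ℝ, ∀ (a : ℕ) (σ z : ℂ), σ.re = A + 1 + 2 * δ → |z.re - 1 / 2| ≤ A →
      ∀ p : ℂ × ℝ, 0 < p.2 → ‖mf f a σ z p‖ ≤ M * miD δ p := by
  obtain ⟨C1, hC1, hb1⟩ := mi_ray hf hδ.le
  obtain ⟨C2, hC2, hb2⟩ := mi_ray hf (e := 2 * A + δ) (by linarith)
  obtain ⟨C3, hC3, hb3⟩ := mi_ray hf (e := 2 * A + 1) (by linarith)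
  refine ⟨C1 + C2 + 2 * C3, fun a σ z hσ hz p hp => ?_⟩
  refine (mi_norm hp).trans ?_
  obtain ⟨v, y⟩ := p
  simp only at hp ⊢
  have hq1 : 1 ≤ 1 + normSq v := by have := normSq_nonneg v; linarith
  have hb1 := hb1 v y hp
  have hb2 := hb2 v y hp
  have hb3 := hb3 v y hp
  set N := ‖f ((y : ℂ) * v, y)‖ with hN
  have hN0 : 0 ≤ N := norm_nonneg _
  have hqn : 1 + ‖v‖ ^ 2 = 1 + normSq v := by rw [normSq_eq_norm_sq]
  unfold miD
  simp only
  rw [hqn]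
  set q := 1 + normSq v with hqd
  have hq : 0 < q := by linarith
  set t := z.re - 1 / 2 with ht
  have hL : q ^ (t - σ.re) * y ^ (2 * t - 1) = (y ^ 2 * q) ^ t * (y ^ (-1 : ℝ) * q ^ (-σ.re)) := by
    rw [Real.rpow_def_of_pos hq, Real.rpow_def_of_pos hp, Real.rpow_def_of_pos (by positivity),
      Real.rpow_def_of_pos hp, Real.rpow_def_of_pos hq, Real.log_mul (by positivity) hq.ne',
      Real.log_pow, ← Real.exp_add, ← Real.exp_add, ← Real.exp_add]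
    congr 1
    push_cast
    ring
  rw [hL]
  have h2 := mi_pow (L := y ^ 2 * q) (by positivity) hz
  set P := y ^ (-1 : ℝ) * q ^ (-σ.re) with hP
  have hP0 : 0 < P := by positivity
  set Q := q ^ (-(2 + 2 * δ) / 2) with hQ
  have hQ0 : 0 < Q := by positivity
  have h3 : N * ((y ^ 2 * q) ^ t * P) ≤ N * ((y ^ 2 * q) ^ A * P) + N * ((y ^ 2 * q) ^ (-A) * P) := by
    have : (y ^ 2 * q) ^ t * P ≤ ((y ^ 2 * q) ^ A + (y ^ 2 * q) ^ (-A)) * P :=
      mul_le_mul_of_nonneg_right h2 hP0.le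
    calc N * ((y ^ 2 * q) ^ t * P) ≤ N * (((y ^ 2 * q) ^ A + (y ^ 2 * q) ^ (-A)) * P) :=
          mul_le_mul_of_nonneg_left this hN0
      _ = _ := by ring
  refine h3.trans ?_
  have hU0 : 0 ≤ (y ^ 2 * q) ^ A * P := by positivity
  have hV0 : 0 ≤ (y ^ 2 * q) ^ (-A) * P := by positivity
  rcases le_or_gt y 1 with h | h
  · have e1 := mi_e1 (A := A) (δ := δ) hp hq hσ
    have e2 := mi_e2 (A := A) (δ := δ) hp hq hσ
    rw [← hP, ← hQ] at e1 e2
    have hH : miH δ y = y ^ (δ - 1) := by unfold miH; rw [if_pos h]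
    rw [hH]
    set Y := y ^ (δ - 1) with hY
    have hY0 : 0 < Y := by positivity
    have hyA : y ^ (2 * A) ≤ 1 := Real.rpow_le_one hp.le h (by linarith)
    have f1 : N * ((y ^ 2 * q) ^ A * P) ≤ C1 * (Q * Y) := by
      calc N * ((y ^ 2 * q) ^ A * P) ≤ (C1 * (y * q) ^ δ) * ((y ^ 2 * q) ^ A * P) :=
            mul_le_mul_of_nonneg_right hb1.1 hU0
        _ = C1 * (Q * (Y * y ^ (2 * A))) := by rw [mul_assoc, e1]
        _ ≤ C1 * (Q * (Y * 1)) := by gcongr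
        _ = _ := by rw [mul_one]
    have f2 : N * ((y ^ 2 * q) ^ (-A) * P) ≤ C2 * (Q * Y) := by
      calc N * ((y ^ 2 * q) ^ (-A) * P) ≤ (C2 * (y * q) ^ (2 * A + δ)) * ((y ^ 2 * q) ^ (-A) * P) :=
            mul_le_mul_of_nonneg_right hb2.1 hV0
        _ = C2 * (Q * Y) := by rw [mul_assoc, e2]
    have f3 : 0 ≤ C3 * (Q * Y) := by positivity
    nlinarith
  · have e3 := mi_e3 (A := A) (δ := δ) hp hq hσ
    have e4 := mi_e4 (A := A) (δ := δ) hp hq hσ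
    rw [← hP, ← hQ] at e3 e4
    have hH : miH δ y = y ^ (-2 : ℝ) := by unfold miH; rw [if_neg (not_le.2 h)]
    rw [hH]
    set Y := y ^ (-2 : ℝ) with hY
    have hY0 : 0 < Y := by positivity
    have hq1' : q ^ (-δ) ≤ 1 := Real.rpow_le_one_of_one_le_of_nonpos hq1 (by linarith)
    have hq2' : q ^ (-δ - 2 * A) ≤ 1 := Real.rpow_le_one_of_one_le_of_nonpos hq1 (by linarith)
    have hy4 : y ^ (-(4 * A)) ≤ 1 := Real.rpow_le_one_of_one_le_of_nonpos h.le (by linarith)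
    have hb := hb3.2 h.le
    have f1 : N * ((y ^ 2 * q) ^ A * P) ≤ C3 * (Q * Y) := by
      calc N * ((y ^ 2 * q) ^ A * P) ≤ (C3 * y ^ (-(2 * A + 1))) * ((y ^ 2 * q) ^ A * P) :=
            mul_le_mul_of_nonneg_right hb hU0
        _ = C3 * (Q * Y * q ^ (-δ)) := by rw [mul_assoc, e3]
        _ ≤ C3 * (Q * Y * 1) := by gcongr
        _ = _ := by rw [mul_one]
    have f2 : N * ((y ^ 2 * q) ^ (-A) * P) ≤ C3 * (Q * Y) := by
      have h5 : q ^ (-δ - 2 * A) * y ^ (-(4 * A)) ≤ 1 :=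
        mul_le_one₀ hq2' (by positivity) hy4
      calc N * ((y ^ 2 * q) ^ (-A) * P) ≤ (C3 * y ^ (-(2 * A + 1))) * ((y ^ 2 * q) ^ (-A) * P) :=
            mul_le_mul_of_nonneg_right hb hV0
        _ = C3 * (Q * Y * (q ^ (-δ - 2 * A) * y ^ (-(4 * A)))) := by rw [mul_assoc, e4]
        _ ≤ C3 * (Q * Y * 1) := by gcongr
        _ = _ := by rw [mul_one]
    have f3 : 0 ≤ C1 * (Q * Y) := by positivity
    have f4 : 0 ≤ C2 * (Q * Y) := by positivity
    nlinarith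

theorem mi_meas {f : ℂ × ℝ → ℂ} (hf : Ray f) (a : ℕ) (σ z : ℂ) :
    AEStronglyMeasurable (mf f a σ z) miMu := by
  rw [mi_mu]
  have hs : (Set.univ ×ˢ Set.Ioi (0 : ℝ) : Set (ℂ × ℝ)) = {p : ℂ × ℝ | 0 < p.2} := by
    ext p; simp
  rw [hs]
  apply ContinuousOn.aestronglyMeasurable _ (measurableSet_lt measurable_const measurable_snd)
  unfold mf
  have h1 : ContinuousOn (fun p : ℂ × ℝ => f ((p.2 : ℂ) * p.1, p.2)) {p | 0 < p.2} := by
    refine hf.cont.comp (f := fun p : ℂ × ℝ => ((p.2 : ℂ) * p.1, p.2)) ?_ ?_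
    · exact Continuous.continuousOn (by fun_prop)
    · intro p hp
      exact hp
  apply h1.mul
  apply ContinuousOn.mul
  · exact Continuous.continuousOn (by fun_prop)
  apply ContinuousOn.mul
  · intro p _
    apply ContinuousAt.continuousWithinAt
    apply ContinuousAt.cpow
    · apply Continuous.continuousAt
      exact Complex.continuous_ofReal.comp (continuous_const.add (continuous_normSq.comp continuous_fst))
    · exact continuousAt_const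
    · left
      show 0 < ((1 + normSq p.1 : ℝ) : ℂ).re
      rw [ofReal_re]
      have := normSq_nonneg p.1
      linarith
  · intro p hp
    apply ContinuousAt.continuousWithinAt
    apply ContinuousAt.cpow
    · exact (Complex.continuous_ofReal.comp continuous_snd).continuousAt
    · exact continuousAt_const
    · left
      show 0 < ((p.2 : ℝ) : ℂ).re
      rw [ofReal_re]
      exact hp

theorem mz_int {f : ℂ × ℝ → ℂ} (hf : Ray f) {a : ℕ} (ha : a ≤ 1) {σ z : ℂ}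
    (h : |z.re - 1 / 2| < σ.re - 1) :
    Integrable (mf f a σ z) ((volume : Measure ℂ).prod (volume.restrict (Ioi (0 : ℝ)))) := by
  set A := |z.re - 1 / 2| with hA
  have hδ : 0 < (σ.re - 1 - A) / 2 := by linarith
  obtain ⟨M, hM⟩ := mi_point hf (abs_nonneg _ : 0 ≤ A) hδ
  refine Integrable.mono' ((miD_int hδ).const_mul M) (mi_meas hf a σ z) ?_
  filter_upwards [mi_ae] with p hp
  exact hM a σ z (by ring) le_rfl p hp

theorem mz_bd {f : ℂ × ℝ → ℂ} (hf : Ray f) {a : ℕ} (ha : a ≤ 1) {σ x y : ℝ}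
    (hx : |x - 1 / 2| < σ - 1) (hy : |y - 1 / 2| < σ - 1) :
    ∃ C : ℝ, ∀ z : ℂ, x ≤ z.re → z.re ≤ y → ‖Mz f a σ z‖ ≤ C := by
  set A := max |x - 1 / 2| |y - 1 / 2| with hA
  have hA0 : 0 ≤ A := le_max_of_le_left (abs_nonneg _)
  have hAσ : A < σ - 1 := max_lt hx hy
  have hδ : 0 < (σ - 1 - A) / 2 := by linarith
  obtain ⟨M, hM⟩ := mi_point hf hA0 hδ
  refine ⟨∫ p, M * miD ((σ - 1 - A) / 2) p ∂miMu, fun z hz1 hz2 => ?_⟩
  unfold Mz
  refine norm_integral_le_of_norm_le ((miD_int hδ).const_mul M) ?_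
  have h := mi_ae
  unfold miMu at h
  filter_upwards [h] with p hp
  refine hM a σ z ?_ ?_ p hp
  · rw [ofReal_re]; ring
  · rw [abs_le]
    have h1 : -(A) ≤ x - 1 / 2 := by
      have := neg_abs_le (x - 1 / 2)
      have h2 : |x - 1 / 2| ≤ A := le_max_left _ _
      linarith
    have h3 : y - 1 / 2 ≤ A := (le_abs_self _).trans (le_max_right _ _)
    constructor <;> linarith

end Pool.Agent.HI
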