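import Pool.Agent.Lib_helper25.HIF.DX
import Pool.Agent.Lib_helper25.HIF.MI

/-!
# Project HI, block MH: analyticity of `M`
-/

namespace Pool.Agent.HI

open NumberField Complex MeasureTheory Set Filter Topology

theorem mh_conv {a b x ℓ : ℝ} (h1 : a ≤ x) (h2 : x ≤ b) :
    Real.exp (x * ℓ) ≤ Real.exp (a * ℓ) + Real.exp (b * ℓ) := by
  rcases le_total 0 ℓ with h | h
  · have : Real.exp (x * ℓ) ≤ Real.exp (b * ℓ) :=
      Real.exp_le_exp.2 (mul_le_mul_of_nonneg_right h2 h)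
    have := Real.exp_pos (a * ℓ)
    linarith
  · have : Real.exp (x * ℓ) ≤ Real.exp (a * ℓ) :=
      Real.exp_le_exp.2 (mul_le_mul_of_nonpos_right h1 h)
    have := Real.exp_pos (b * ℓ)
    linarith

theorem mh_abs {a x ℓ : ℝ} (ha : 0 < a) (h1 : a / 2 ≤ x) (h2 : x ≤ 3 * a / 2) :
    |ℓ| * Real.exp (x * ℓ) ≤ 4 / a * (1 + Real.exp (2 * a * ℓ)) := by
  have e1 : |ℓ| ≤ 2 / a * (Real.exp (a / 2 * ℓ) + Real.exp (-(a / 2 * ℓ))) := by
    have h3 : |a / 2 * ℓ| ≤ Real.exp (a / 2 * ℓ) + Real.exp (-(a / 2 * ℓ)) := by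
      rcases abs_cases (a / 2 * ℓ) with ⟨h, _⟩ | ⟨h, _⟩
      · rw [h]
        have := Real.add_one_le_exp (a / 2 * ℓ)
        have := Real.exp_pos (-(a / 2 * ℓ))
        linarith
      · rw [h]
        have := Real.add_one_le_exp (-(a / 2 * ℓ))
        have := Real.exp_pos (a / 2 * ℓ)
        linarith
    rw [abs_mul, abs_of_pos (by positivity : 0 < a / 2)] at h3
    have h4 : |ℓ| = 2 / a * (a / 2 * |ℓ|) := by field_simp
    rw [h4]
    exact mul_le_mul_of_nonneg_left h3 (by positivity)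
  have e2 := mh_conv (ℓ := ℓ) (show 0 ≤ x + a / 2 by linarith) (show x + a / 2 ≤ 2 * a by linarith)
  have e3 := mh_conv (ℓ := ℓ) (show 0 ≤ x - a / 2 by linarith) (show x - a / 2 ≤ 2 * a by linarith)
  rw [zero_mul, Real.exp_zero] at e2 e3
  calc |ℓ| * Real.exp (x * ℓ) ≤ 2 / a * (Real.exp (a / 2 * ℓ) + Real.exp (-(a / 2 * ℓ))) *
        Real.exp (x * ℓ) := mul_le_mul_of_nonneg_right e1 (Real.exp_pos _).le
    _ = 2 / a * (Real.exp ((x + a / 2) * ℓ) + Real.exp ((x - a / 2) * ℓ)) := by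
        rw [mul_assoc, add_mul, ← Real.exp_add, ← Real.exp_add]
        congr 3 <;> ring
    _ ≤ 2 / a * ((1 + Real.exp (2 * a * ℓ)) + (1 + Real.exp (2 * a * ℓ))) :=
        mul_le_mul_of_nonneg_left (add_le_add e2 e3) (by positivity)
    _ = 4 / a * (1 + Real.exp (2 * a * ℓ)) := by ring

section

variable {α : Type} [MeasurableSpace α] {μ : Measure α} {g : α → ℂ} {ℓ : α → ℝ}

theorem mh_int (hℓ : AEStronglyMeasurable ℓ μ)
    (hi : ∀ x : ℝ, 0 ≤ x → Integrable (fun p => g p * cexp ((x : ℂ) * (ℓ p : ℂ))) μ) {u : ℂ}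
    (hu : 0 ≤ u.re) : Integrable (fun p => g p * cexp (u * (ℓ p : ℂ))) μ := by
  have hg : AEStronglyMeasurable g μ := by
    have := (hi 0 le_rfl).1
    simpa using this
  have hm : AEStronglyMeasurable (fun p => g p * cexp (u * (ℓ p : ℂ))) μ :=
    hg.mul (Complex.continuous_exp.comp_aestronglyMeasurable
      ((Complex.continuous_ofReal.comp_aestronglyMeasurable hℓ).const_mul u))
  refine (hi u.re hu).mono hm (Eventually.of_forall fun p => ?_)
  rw [norm_mul, norm_mul, Complex.norm_exp, Complex.norm_exp]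
  simp

theorem mh_deriv (hℓ : AEStronglyMeasurable ℓ μ)
    (hi : ∀ x : ℝ, 0 ≤ x → Integrable (fun p => g p * cexp ((x : ℂ) * (ℓ p : ℂ))) μ) :
    DifferentiableOn ℂ (fun u : ℂ => ∫ p, g p * cexp (u * (ℓ p : ℂ)) ∂μ) {u | 0 < u.re} := by
  intro u₀ hu₀
  have hu₀ : 0 < u₀.re := hu₀
  have hg : AEStronglyMeasurable g μ := by
    have := (hi 0 le_rfl).1
    simpa using this
  have hexp : ∀ u : ℂ, AEStronglyMeasurable (fun p => cexp (u * (ℓ p : ℂ))) μ := fun u =>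
    Complex.continuous_exp.comp_aestronglyMeasurable
      ((Complex.continuous_ofReal.comp_aestronglyMeasurable hℓ).const_mul u)
  have hball : Metric.ball u₀ (u₀.re / 2) ∈ 𝓝 u₀ := Metric.ball_mem_nhds _ (by linarith)
  have hre : ∀ u ∈ Metric.ball u₀ (u₀.re / 2), u₀.re / 2 ≤ u.re ∧ u.re ≤ 3 * u₀.re / 2 := by
    intro u hu
    rw [Metric.mem_ball, dist_eq_norm] at hu
    have h1 := Complex.abs_re_le_norm (u - u₀)
    rw [Complex.sub_re, abs_le] at h1
    constructor <;> linarith [h1.1, h1.2]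
  have hbound : Integrable (fun p => 4 / u₀.re * (‖g p * cexp (((0 : ℝ) : ℂ) * (ℓ p : ℂ))‖ +
      ‖g p * cexp (((2 * u₀.re : ℝ) : ℂ) * (ℓ p : ℂ))‖)) μ :=
    ((hi 0 le_rfl).norm.add (hi (2 * u₀.re) (by linarith)).norm).const_mul _
  have key := hasDerivAt_integral_of_dominated_loc_of_deriv_le (μ := μ)
    (F := fun (u : ℂ) p => g p * cexp (u * (ℓ p : ℂ)))
    (F' := fun (u : ℂ) p => g p * ((ℓ p : ℂ) * cexp (u * (ℓ p : ℂ)))) (x₀ := u₀)
    (bound := fun p => 4 / u₀.re * (‖g p * cexp (((0 : ℝ) : ℂ) * (ℓ p : ℂ))‖ +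
      ‖g p * cexp (((2 * u₀.re : ℝ) : ℂ) * (ℓ p : ℂ))‖))
    hball (Eventually.of_forall fun u => hg.mul (hexp u)) (mh_int hℓ hi hu₀.le)
    (hg.mul ((Complex.continuous_ofReal.comp_aestronglyMeasurable hℓ).mul (hexp u₀))) ?_ hbound ?_
  · exact key.2.differentiableAt.differentiableWithinAt
  · refine Eventually.of_forall fun p u hu => ?_
    obtain ⟨h1, h2⟩ := hre u hu
    have h3 := mh_abs (ℓ := ℓ p) hu₀ h1 h2
    simp only [norm_mul, Complex.norm_exp, Complex.norm_real, Complex.re_mul_ofReal,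
      Complex.ofReal_re, Real.norm_eq_abs, zero_mul, Real.exp_zero, mul_one]
    calc ‖g p‖ * (|ℓ p| * Real.exp (u.re * ℓ p)) ≤
          ‖g p‖ * (4 / u₀.re * (1 + Real.exp (2 * u₀.re * ℓ p))) :=
          mul_le_mul_of_nonneg_left h3 (norm_nonneg _)
      _ = 4 / u₀.re * (‖g p‖ + ‖g p‖ * Real.exp (2 * u₀.re * ℓ p)) := by ring
  · refine Eventually.of_forall fun p u _ => ?_
    have h1 : HasDerivAt (fun u : ℂ => u * (ℓ p : ℂ)) (ℓ p : ℂ) u := by
      simpa using (hasDerivAt_id u).mul_const (ℓ p : ℂ)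
    have h2 := (h1.cexp).const_mul (g p)
    have h3 : g p * ((ℓ p : ℂ) * cexp (u * (ℓ p : ℂ))) = g p * (cexp (u * (ℓ p : ℂ)) * (ℓ p : ℂ)) := by
      ring
    simp only [h3]
    exact h2

theorem mh_tend (hℓ : AEStronglyMeasurable ℓ μ)
    (hi : ∀ x : ℝ, 0 ≤ x → Integrable (fun p => g p * cexp ((x : ℂ) * (ℓ p : ℂ))) μ) :
    Tendsto (fun u : ℝ => ∫ p, g p * cexp ((u : ℂ) * (ℓ p : ℂ)) ∂μ) (𝓝[>] 0)
      (𝓝 (∫ p, g p ∂μ)) := by
  have hg : AEStronglyMeasurable g μ := by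
    have := (hi 0 le_rfl).1
    simpa using this
  refine tendsto_integral_filter_of_dominated_convergence
    (fun p => ‖g p * cexp (((0 : ℝ) : ℂ) * (ℓ p : ℂ))‖ + ‖g p * cexp (((1 : ℝ) : ℂ) * (ℓ p : ℂ))‖)
    ?_ ?_ ((hi 0 le_rfl).norm.add (hi 1 zero_le_one).norm) ?_
  · exact Eventually.of_forall fun u => hg.mul (Complex.continuous_exp.comp_aestronglyMeasurable
      ((Complex.continuous_ofReal.comp_aestronglyMeasurable hℓ).const_mul (u : ℂ)))
  · have h1 : Set.Ioc (0 : ℝ) 1 ∈ 𝓝[>] (0 : ℝ) := Ioc_mem_nhdsGT one_pos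
    filter_upwards [h1] with u hu
    refine Eventually.of_forall fun p => ?_
    have h3 := mh_conv (ℓ := ℓ p) hu.1.le hu.2
    rw [zero_mul, Real.exp_zero, one_mul] at h3
    simp only [norm_mul, Complex.norm_exp, Complex.re_mul_ofReal,
      Complex.ofReal_re, zero_mul, Real.exp_zero, mul_one, one_mul]
    calc ‖g p‖ * Real.exp (u * ℓ p) ≤ ‖g p‖ * (1 + Real.exp (ℓ p)) :=
          mul_le_mul_of_nonneg_left h3 (norm_nonneg _)
      _ = ‖g p‖ + ‖g p‖ * Real.exp (ℓ p) := by ring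
  · refine Eventually.of_forall fun p => ?_
    have h1 : Continuous (fun u : ℝ => g p * cexp ((u : ℂ) * (ℓ p : ℂ))) := by fun_prop
    have h2 := h1.tendsto 0
    simp only [Complex.ofReal_zero, zero_mul, Complex.exp_zero, mul_one] at h2
    exact h2.mono_left nhdsWithin_le_nhds

end

/-- the exponent -/
noncomputable def mh_l (p : ℂ × ℝ) : ℝ := Real.log p.2 - 1 / 2 * Real.log (1 + normSq p.1)

theorem mh_l_meas : Measurable mh_l := by
  unfold mh_l
  exact (Real.measurable_log.comp measurable_snd).sub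
    (((Real.measurable_log.comp (measurable_const.add
      (Complex.continuous_normSq.measurable.comp measurable_fst)))).const_mul _)

theorem mh_ae : ∀ᵐ p : ℂ × ℝ ∂((volume : Measure ℂ).prod (volume.restrict (Set.Ioi (0 : ℝ)))),
    0 < p.2 := mi_ae

theorem mh_mf (f : ℂ × ℝ → ℂ) (a : ℕ) (σ z u : ℂ) (p : ℂ × ℝ) (hp : 0 < p.2) :
    mf f a (σ + u) (z + u / 2) p = mf f a σ z p * cexp (u * (mh_l p : ℂ)) := by
  unfold mf mh_l
  have h1 : 0 < 1 + normSq p.1 := by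
    have := normSq_nonneg p.1
    linarith
  have h2 : ((1 + normSq p.1 : ℝ) : ℂ) ≠ 0 := by exact_mod_cast h1.ne'
  have h3 : (p.2 : ℂ) ≠ 0 := by exact_mod_cast hp.ne'
  rw [Complex.cpow_def_of_ne_zero h2, Complex.cpow_def_of_ne_zero h2, Complex.cpow_def_of_ne_zero h3,
    Complex.cpow_def_of_ne_zero h3, ← Complex.ofReal_log h1.le, ← Complex.ofReal_log hp.le,
    mul_assoc, mul_assoc, ← Complex.exp_add, ← Complex.exp_add, ← Complex.exp_add]
  congr 3
  push_cast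
  ring

theorem mh_hi {f : ℂ × ℝ → ℂ} (hf : Ray f) {a : ℕ} (ha : a ≤ 1)
    {σ : ℝ} {z : ℂ} (h1 : 1 / 2 ≤ z.re) (h2 : z.re < σ - 1 / 2) (x : ℝ) (hx : 0 ≤ x) :
    Integrable (fun p => mf f a σ z p * cexp ((x : ℂ) * (mh_l p : ℂ)))
      ((volume : Measure ℂ).prod (volume.restrict (Set.Ioi (0 : ℝ)))) := by
  have h := mz_int hf ha (σ := (σ : ℂ) + (x : ℂ)) (z := z + (x : ℂ) / 2) (by
    have e1 : (z + (x : ℂ) / 2).re = z.re + x / 2 := by
      rw [Complex.add_re]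
      congr 1
      rw [show ((x : ℂ) / 2) = ((x / 2 : ℝ) : ℂ) by push_cast; ring]
      exact Complex.ofReal_re _
    have e2 : ((σ : ℂ) + (x : ℂ)).re = σ + x := by simp
    rw [e1, e2, abs_of_nonneg (by linarith)]
    linarith)
  refine h.congr ?_
  filter_upwards [mh_ae] with p hp
  exact mh_mf f a σ z x p hp

theorem mz_hol {f : ℂ × ℝ → ℂ} (hf : Ray f) {a : ℕ} (ha : a ≤ 1) {σ : ℝ} {z : ℂ}
    (h1 : 1 / 2 ≤ z.re) (h2 : z.re < σ - 1 / 2) :
    DifferentiableOn ℂ (fun u : ℂ => Mz f a (σ + u) (z + u / 2)) {u | 0 < u.re} := by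
  have h := mh_deriv mh_l_meas.aestronglyMeasurable (mh_hi hf ha h1 h2)
  refine h.congr fun u _ => ?_
  unfold Mz
  refine integral_congr_ae ?_
  filter_upwards [mh_ae] with p hp
  exact mh_mf f a σ z u p hp

theorem mz_lim {f : ℂ × ℝ → ℂ} (hf : Ray f) {a : ℕ} (ha : a ≤ 1) {σ : ℝ} {z : ℂ}
    (h1 : 1 / 2 ≤ z.re) (h2 : z.re < σ - 1 / 2) :
    Tendsto (fun u : ℝ => Mz f a (σ + u) (z + u / 2)) (𝓝[>] 0) (𝓝 (Mz f a σ z)) := by
  have h := mh_tend mh_l_meas.aestronglyMeasurable (mh_hi hf ha h1 h2)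
  refine (h.congr fun u => ?_)
  unfold Mz
  refine integral_congr_ae ?_
  filter_upwards [mh_ae] with p hp
  exact (mh_mf f a σ z u p hp).symm

theorem mz_cont {f : ℂ × ℝ → ℂ} (hf : Ray f) {a : ℕ} (ha : a ≤ 1) {σ : ℝ} (hσ : 1 < σ) :
    Continuous (fun t : ℝ => Mz f a σ (1 / 2 + t * I)) := by
  have hi : ∀ t : ℝ, Integrable (mf f a σ (1 / 2 + t * I)) miMu := fun t =>
    mz_int hf ha (by simp; linarith)
  unfold Mz
  refine continuous_of_dominated (F := fun (t : ℝ) p => mf f a σ (1 / 2 + t * I) p)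
    (bound := fun p => ‖mf f a σ (1 / 2 + (0 : ℝ) * I) p‖)
    (fun t => (hi t).1) ?_ (hi 0).norm ?_
  · intro t
    filter_upwards [mh_ae] with p hp
    have h1 : 0 < 1 + normSq p.1 := by
      have := normSq_nonneg p.1
      linarith
    unfold mf
    rw [norm_mul, norm_mul, norm_mul, norm_mul, norm_mul, norm_mul,
      Complex.norm_cpow_eq_rpow_re_of_pos h1, Complex.norm_cpow_eq_rpow_re_of_pos hp,
      Complex.norm_cpow_eq_rpow_re_of_pos h1, Complex.norm_cpow_eq_rpow_re_of_pos hp]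
    simp
  · filter_upwards [mh_ae] with p hp
    have h1 : 0 < 1 + normSq p.1 := by
      have := normSq_nonneg p.1
      linarith
    have h2 : ((1 + normSq p.1 : ℝ) : ℂ) ≠ 0 := by exact_mod_cast h1.ne'
    have h3 : (p.2 : ℂ) ≠ 0 := by exact_mod_cast hp.ne'
    unfold mf
    simp only [Complex.cpow_def_of_ne_zero h2, Complex.cpow_def_of_ne_zero h3]
    fun_prop

end Pool.Agent.HI
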