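import Pool.Agent.Lib_helper25.HIF.DX
import Pool.Agent.Lib_helper25.HIF.KB
import Pool.Agent.Lib_helper25.HIF.LA
import Pool.Agent.Lib_helper25.HIF.QE
import Pool.Agent.Lib_helper25.HIF.SR
import Pool.Agent.Lib_helper99.HBF.KH
import Pool.Agent.Lib_helper99.HBF.KB

/-!
# Project HI, block LV: the Dirichlet series
-/

namespace Pool.Agent.HI
open NumberField Complex MeasureTheory Set Filter Topology
open Pool.Agent.HB (H3 mu Kb Adm)

variable {K : Type} [Field K] [NumberField K] {s : K →+* ℂ}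

theorem lv_countable (K : Type) [Field K] [NumberField K] : Countable K :=
  (Module.finBasis ℚ K).equivFun.injective.countable

/-- the scalar function `x^{1+q} K_ν(4 π x)` -/
noncomputable def lvF (q : ℕ) (ν : ℂ) (x : ℝ) : ℂ :=
  ((x ^ (1 + q) : ℝ) : ℂ) * Kb ν (4 * Real.pi * x)

theorem lv_tm (s : K →+* ℂ) (c : K → ℂ) (q : ℕ) (ν : ℂ) (y : ℝ) (ξ : K) :
    tm s c 0 (1 + q) ν (0, y) ξ = c ξ * lvF q ν (‖s ξ‖ * y) := by
  unfold tm wk e2 lvF
  simp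

theorem lv_kb_conv {ν z : ℂ} (hz : |ν.re| / 2 < z.re) : MellinConvergent (Kb ν) (2 * z) := by
  obtain ⟨h1, -⟩ := Pool.Agent.HB.kb_mellin hz
  unfold MellinConvergent
  refine Integrable.mono' h1 ?_ ?_
  · refine ContinuousOn.aestronglyMeasurable ?_ measurableSet_Ioi
    refine ContinuousOn.smul (f := fun x : ℝ => (x : ℂ) ^ (2 * z - 1)) (g := Kb ν) ?_
      (Pool.Agent.HB.kb_cont ν)
    intro x hx
    refine ContinuousAt.continuousWithinAt ?_
    exact Complex.continuousAt_ofReal_cpow_const x _ (Or.inr (ne_of_gt hx))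
  · refine (ae_restrict_iff' measurableSet_Ioi).2 (Eventually.of_forall fun x hx => ?_)
    rw [norm_smul, Complex.norm_cpow_eq_rpow_re_of_pos hx]
    apply le_of_eq
    congr 2
    simp

theorem lv_eqF (q : ℕ) (ν z : ℂ) : ∀ x ∈ Ioi (0 : ℝ),
    (x : ℂ) ^ (z - 1) • lvF q ν x =
      (x : ℂ) ^ (z - 1) • ((x : ℂ) ^ ((1 + q : ℕ) : ℂ) • Kb ν (4 * Real.pi * x)) := by
  intro x _
  unfold lvF
  rw [Complex.cpow_natCast, smul_eq_mul ((x : ℂ) ^ (1 + q)), Complex.ofReal_pow]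

theorem lv_re (q : ℕ) {z : ℂ} : (z + q / 2).re = z.re + q / 2 := by
  rw [Complex.add_re, show (q / 2 : ℂ) = ((q / 2 : ℝ) : ℂ) by push_cast; ring,
    Complex.ofReal_re]

theorem lv_conv (q : ℕ) {ν z : ℂ} (hz : |ν.re| / 2 < z.re + q / 2) :
    MellinConvergent (lvF q ν) (2 * z - 1) := by
  have h1 : MellinConvergent (Kb ν) (2 * (z + q / 2)) := lv_kb_conv (by rw [lv_re]; exact hz)
  have h2 : MellinConvergent (fun x : ℝ => Kb ν (4 * Real.pi * x)) (2 * (z + q / 2)) :=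
    (MellinConvergent.comp_mul_left (by positivity)).2 h1
  have h3 : MellinConvergent (fun x : ℝ => (x : ℂ) ^ ((1 + q : ℕ) : ℂ) •
      Kb ν (4 * Real.pi * x)) (2 * z - 1) := by
    rw [MellinConvergent.cpow_smul]
    have e : 2 * z - 1 + ((1 + q : ℕ) : ℂ) = 2 * (z + q / 2) := by
      push_cast
      ring
    rw [e]
    exact h2
  unfold MellinConvergent at h3 ⊢
  exact h3.congr_fun (fun x hx => (lv_eqF q ν _ x hx).symm) measurableSet_Ioi

theorem lv_mellin (q : ℕ) {ν z : ℂ} (hz : |ν.re| / 2 < z.re + q / 2) :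
    mellin (lvF q ν) (2 * z - 1) = 1 / 4 * (2 * Real.pi : ℂ) ^ (-2 * z - q) *
      (Gamma (z + (q + ν) / 2) * Gamma (z + (q - ν) / 2)) := by
  have e : 2 * z - 1 + ((1 + q : ℕ) : ℂ) = 2 * (z + q / 2) := by
    push_cast
    ring
  have h1 : mellin (lvF q ν) (2 * z - 1) = mellin (fun x : ℝ => (x : ℂ) ^ ((1 + q : ℕ) : ℂ) •
      Kb ν (4 * Real.pi * x)) (2 * z - 1) :=
    setIntegral_congr_fun measurableSet_Ioi (lv_eqF q ν _)
  have h2 := (Pool.Agent.HB.kb_mellin (ν := ν) (z := z + q / 2) (by rw [lv_re]; exact hz)).2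
  have h3 : mellin (Kb ν) (2 * (z + q / 2)) = (2 : ℂ) ^ (2 * (z + q / 2) - 2) *
      (Gamma (z + q / 2 + ν / 2) * Gamma (z + q / 2 - ν / 2)) := by
    rw [← h2]
    rfl
  have h4 := mellin_comp_mul_left (Kb ν) (2 * (z + q / 2)) (a := 4 * Real.pi) (by positivity)
  rw [h1, mellin_cpow_smul, e, h4, h3, smul_eq_mul]
  have e1 : z + q / 2 + ν / 2 = z + (q + ν) / 2 := by ring
  have e2 : z + q / 2 - ν / 2 = z + (q - ν) / 2 := by ring
  rw [e1, e2]
  have e3 : ((4 * Real.pi : ℝ) : ℂ) ^ (-(2 * (z + q / 2))) * (2 : ℂ) ^ (2 * (z + q / 2) - 2) =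
      1 / 4 * (2 * Real.pi : ℂ) ^ (-2 * z - q) := by
    have f1 : ((4 * Real.pi : ℝ) : ℂ) = ((2 : ℝ) : ℂ) * ((2 * Real.pi : ℝ) : ℂ) := by
      push_cast
      ring
    rw [f1, Complex.mul_cpow_ofReal_nonneg (by norm_num) (by positivity),
      Complex.cpow_sub _ _ two_ne_zero, Complex.cpow_neg]
    have f2 : (2 : ℂ) ^ (2 * (z + q / 2)) ≠ 0 := by
      rw [Ne, Complex.cpow_eq_zero_iff]
      intro h
      exact two_ne_zero h.1
    have f3 : (2 : ℂ) ^ (2 : ℂ) = 4 := by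
      rw [show (2 : ℂ) ^ (2 : ℂ) = (2 : ℂ) ^ ((2 : ℕ) : ℂ) by norm_num, Complex.cpow_natCast]
      norm_num
    have f4 : -(2 * (z + q / 2)) = -2 * z - q := by ring
    have f5 : ((2 * Real.pi : ℝ) : ℂ) = 2 * Real.pi := by push_cast; ring
    have f6 : ((2 : ℝ) : ℂ) = 2 := by push_cast; ring
    rw [f3, f4, f5, f6]
    field_simp
  rw [← mul_assoc, e3]

theorem lv_norm_int (q : ℕ) {ν : ℂ} {σ : ℝ} {k : ℝ} (hk : 0 < k) :
    ∫ y in Ioi (0 : ℝ), y ^ (2 * σ - 2) * ‖lvF q ν (k * y)‖ =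
      k ^ (-(2 * σ - 1)) * ∫ x in Ioi (0 : ℝ), x ^ (2 * σ - 2) * ‖lvF q ν x‖ := by
  have h := integral_comp_mul_left_Ioi (fun x : ℝ => x ^ (2 * σ - 2) * ‖lvF q ν x‖) 0 hk
  rw [mul_zero] at h
  have e : k ^ (-(2 * σ - 1)) = k ^ (-(2 * σ - 2)) * k⁻¹ := by
    rw [← Real.rpow_neg_one, ← Real.rpow_add hk]
    congr 1
    ring
  rw [e, mul_assoc, ← smul_eq_mul (a := k⁻¹), ← h, ← integral_const_mul]
  refine setIntegral_congr_fun measurableSet_Ioi fun y hy => ?_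
  rw [Real.mul_rpow hk.le (le_of_lt hy), ← mul_assoc, ← mul_assoc, ← Real.rpow_add hk,
    neg_add_cancel, Real.rpow_zero, one_mul]

theorem lz_eval (S : IQ s) {q : ℕ} {ν : ℂ} (had : Ad q ν) {c : K → ℂ} (hc : CS c) {z : ℂ}
    (hz : 3 / 2 < z.re) : Lz s q ν c z = 1 / 4 * (2 * Real.pi : ℂ) ^ (-2 * z - q) *
      (Gamma (z + (q + ν) / 2) * Gamma (z + (q - ν) / 2)) * Ds s c z := by
  have hS : Summable (fun ξ : K => ‖c ξ‖ * ‖s ξ‖ ^ (-(2 * z.re - 1))) :=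
    cs_pow S hc (by linarith)
  have hνz : |ν.re| / 2 < z.re + q / 2 := by
    have h1 := ad_re had
    have h2 : (0 : ℝ) ≤ q := Nat.cast_nonneg q
    linarith
  have hconv := lv_conv q hνz
  have hmel := lv_mellin q hνz
  have := lv_countable K
  have hpos : ∀ ξ : K, ξ ≠ 0 → 0 < ‖s ξ‖ := fun ξ hξ =>
    norm_pos_iff.2 fun h => hξ (lat_inj S h)
  set M0 : ℝ := ∫ x in Ioi (0 : ℝ), x ^ (2 * z.re - 2) * ‖lvF q ν x‖ with hM0
  set E : ℂ := 1 / 4 * (2 * Real.pi : ℂ) ^ (-2 * z - q) *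
      (Gamma (z + (q + ν) / 2) * Gamma (z + (q - ν) / 2)) with hE
  have hI : ∀ ξ : K, IntegrableOn (fun y : ℝ => c ξ * ((y : ℂ) ^ (2 * z - 1 - 1) •
      lvF q ν (‖s ξ‖ * y))) (Ioi 0) := by
    intro ξ
    by_cases hξ : ξ = 0
    · subst hξ
      simp only [hc.zero, zero_mul]
      exact integrable_zero _ _ _
    · exact ((MellinConvergent.comp_mul_left (hpos ξ hξ)).2 hconv).const_mul _
  have hN : ∀ ξ : K, ∫ y in Ioi (0 : ℝ), ‖c ξ * ((y : ℂ) ^ (2 * z - 1 - 1) •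
      lvF q ν (‖s ξ‖ * y))‖ = ‖c ξ‖ * ‖s ξ‖ ^ (-(2 * z.re - 1)) * M0 := by
    intro ξ
    by_cases hξ : ξ = 0
    · subst hξ
      simp [hc.zero]
    · rw [mul_assoc, hM0, ← lv_norm_int q (hpos ξ hξ), ← integral_const_mul]
      refine setIntegral_congr_fun measurableSet_Ioi fun y hy => ?_
      rw [norm_mul, norm_smul, Complex.norm_cpow_eq_rpow_re_of_pos hy]
      congr 3
      simp
      ring
  have hV : ∀ ξ : K, ∫ y in Ioi (0 : ℝ), c ξ * ((y : ℂ) ^ (2 * z - 1 - 1) •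
      lvF q ν (‖s ξ‖ * y)) = E * (c ξ * (‖s ξ‖ : ℂ) ^ (1 - 2 * z)) := by
    intro ξ
    by_cases hξ : ξ = 0
    · subst hξ
      simp [hc.zero]
    · rw [integral_const_mul]
      have h := mellin_comp_mul_left (lvF q ν) (2 * z - 1) (hpos ξ hξ)
      rw [hmel] at h
      have h'' : ∫ y in Ioi (0 : ℝ), ((y : ℂ) ^ (2 * z - 1 - 1) • lvF q ν (‖s ξ‖ * y)) =
          mellin (fun t => lvF q ν (‖s ξ‖ * t)) (2 * z - 1) := rfl
      rw [h'', h, smul_eq_mul, show -(2 * z - 1) = 1 - 2 * z by ring]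
      ring
  have hT := integral_tsum_of_summable_integral_norm (μ := volume.restrict (Ioi (0 : ℝ)))
    (F := fun (ξ : K) (y : ℝ) => c ξ * ((y : ℂ) ^ (2 * z - 1 - 1) • lvF q ν (‖s ξ‖ * y)))
    hI (by
      simp_rw [hN]
      exact hS.mul_right _)
  rw [tsum_congr hV, tsum_mul_left] at hT
  unfold Ds
  rw [hT]
  unfold Lz mellin
  refine setIntegral_congr_fun measurableSet_Ioi fun y hy => ?_
  simp only
  unfold sr
  rw [smul_eq_mul, ← tsum_mul_left]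
  refine tsum_congr fun ξ => ?_
  rw [lv_tm, smul_eq_mul]
  ring


end Pool.Agent.HI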