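import Pool.Agent.Lib_helper25.HIF.DX
import Pool.Agent.Lib_helper25.HIF.FW
import Pool.Agent.Lib_helper99.HBF.XI

/-!
# HI, block XJ: the basic integral
-/

namespace Pool.Agent.HI
open Complex MeasureTheory Set Filter Topology
open Pool.Agent.HB (H3 mu Kb Adm)
open Pool.Agent.HB

/-- the factor in `v` -/
theorem xj_intF {a : ℕ} (ha : a ≤ 1) {β : ℂ} (hβ : 1 + (a : ℝ) / 2 < β.re) :
    Integrable (fun v : ℂ => v ^ a * ((1 + normSq v : ℝ) : ℂ) ^ (-β)) := by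
  rcases Nat.le_one_iff_eq_zero_or_eq_one.1 ha with rfl | rfl
  · have h : 1 < β.re := by simpa using hβ
    simpa using xi_intF h
  · have h : 3 / 2 < β.re := by
      push_cast at hβ
      linarith
    have h1 := (HI.fourier_v1 h (x := 1) one_pos (ω := 1) (by simp)).1
    refine h1.mono' ?_ ?_
    · have hc : Continuous (fun v : ℂ => v ^ 1 * ((1 + normSq v : ℝ) : ℂ) ^ (-β)) := by
        refine (continuous_id.pow 1).mul (Continuous.cpow ?_ continuous_const ?_)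
        · exact continuous_ofReal.comp (continuous_const.add continuous_normSq)
        · intro v
          exact Or.inl (by simpa using xi_one_pos v)
      exact hc.aestronglyMeasurable
    · refine Filter.Eventually.of_forall fun v => ?_
      rw [pow_one, norm_mul, xi_norm (xi_one_pos v), Complex.neg_re]

/-- the factor in `x` -/
theorem xj_intG {r : ℕ} {μ z : ℂ} (h1 : |μ.re| < 2 * z.re - 1 + r) :
    IntegrableOn (fun x : ℝ => (x : ℂ) ^ (2 * z - 2 + r) * Kb μ x) (Ioi 0) := by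
  have hz : |μ.re| / 2 < (z + ((r : ℂ) - 1) / 2).re := by
    have : (z + ((r : ℂ) - 1) / 2).re = z.re + ((r : ℝ) - 1) / 2 := by
      simp
    rw [this]
    linarith
  have h := (kb_mellin hz).1
  refine h.mono' ?_ ?_
  · refine ContinuousOn.aestronglyMeasurable ?_ measurableSet_Ioi
    refine ContinuousOn.mul ?_ (kb_cont μ)
    refine ContinuousOn.cpow continuous_ofReal.continuousOn continuousOn_const ?_
    intro x hx
    exact Or.inl (by simpa using hx)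
  · refine (ae_restrict_iff' measurableSet_Ioi).2 (Filter.Eventually.of_forall fun x hx => ?_)
    have hx : 0 < x := hx
    rw [norm_mul, xi_norm hx]
    have e : (2 * z - 2 + (r : ℂ)).re = 2 * (z + ((r : ℂ) - 1) / 2).re - 1 := by
      simp
      ring
    rw [e]

theorem xj_int {a : ℕ} (ha : a ≤ 1) {r : ℕ} {μ z β : ℂ} (h1 : |μ.re| < 2 * z.re - 1 + r)
    (hβ : 1 + (a : ℝ) / 2 < β.re) (ω : ℂ) :
    Integrable (fun p : ℂ × ℝ => p.1 ^ a * ((1 + normSq p.1 : ℝ) : ℂ) ^ (-β) *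
      ((p.2 : ℂ) ^ (2 * z - 2 + r) * Kb μ p.2 * cexp (I * ((p.2 * (ω * p.1).re : ℝ) : ℂ))))
        ((volume : Measure ℂ).prod (volume.restrict (Ioi (0 : ℝ)))) := by
  have hF := xj_intF ha hβ
  have hG := xj_intG h1
  have hP : Integrable (fun p : ℂ × ℝ => (p.1 ^ a * ((1 + normSq p.1 : ℝ) : ℂ) ^ (-β)) *
      ((p.2 : ℂ) ^ (2 * z - 2 + r) * Kb μ p.2))
        ((volume : Measure ℂ).prod (volume.restrict (Ioi (0 : ℝ)))) := hF.mul_prod hG
  have hE : Continuous (fun p : ℂ × ℝ => cexp (I * ((p.2 * (ω * p.1).re : ℝ) : ℂ))) := by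
    fun_prop
  have := hP.mul_bdd (c := 1) hE.aestronglyMeasurable (Filter.Eventually.of_forall fun p => by
    rw [mul_comm I, Complex.norm_exp_ofReal_mul_I])
  refine this.congr (Filter.Eventually.of_forall fun p => ?_)
  simp only
  ring

theorem xj_half {x : ℝ} (hx : 0 < x) (β : ℂ) :
    (((x / 2 : ℝ) : ℂ)) ^ (β - 1) = (x : ℂ) ^ (β - 1) * (2 : ℂ) ^ (1 - β) := by
  have h3 : (((x / 2 : ℝ) : ℂ)) = ((x : ℝ) : ℂ) * (((2 : ℝ)⁻¹ : ℝ) : ℂ) := by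
    push_cast
    ring
  rw [h3, Complex.mul_cpow_ofReal_nonneg hx.le (by norm_num)]
  congr 1
  rw [Complex.ofReal_inv, Complex.inv_cpow _ _ (by
    rw [Complex.arg_ofReal_of_nonneg (by norm_num)]
    exact Real.pi_pos.ne), ← Complex.cpow_neg]
  congr 1
  ring

theorem xj_fourier {a : ℕ} (ha : a ≤ 1) {β : ℂ} (hβ : 1 + (a : ℝ) / 2 < β.re) {ω : ℂ}
    (hω : ‖ω‖ = 1) {x : ℝ} (hx : 0 < x) :
    ∫ v : ℂ, v ^ a * (((1 + normSq v : ℝ) : ℂ) ^ (-β) *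
      cexp (I * ((x * (ω * v).re : ℝ) : ℂ))) =
      I ^ a * (starRingEnd ℂ) ω ^ a * (2 * Real.pi / Gamma β) *
        (((x / 2 : ℝ) : ℂ) ^ (β - 1) * Kb (β - 1 - a) x) := by
  rcases Nat.le_one_iff_eq_zero_or_eq_one.1 ha with rfl | rfl
  · have h : 1 < β.re := by simpa using hβ
    have h2 := (HB.fourier_v h hx hω).2
    simp only [pow_zero, one_mul, Nat.cast_zero, sub_zero]
    exact h2
  · have h : 3 / 2 < β.re := by
      push_cast at hβ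
      linarith
    have h2 := (HI.fourier_v1 h hx hω).2
    simp only [pow_one, Nat.cast_one]
    rw [h2, show β - 1 - 1 = β - 2 by ring]

theorem xj_inner {a : ℕ} (ha : a ≤ 1) {r : ℕ} {μ z β : ℂ} (hβ : 1 + (a : ℝ) / 2 < β.re) {ω : ℂ}
    (hω : ‖ω‖ = 1) {x : ℝ} (hx : 0 < x) :
    ∫ v : ℂ, v ^ a * ((1 + normSq v : ℝ) : ℂ) ^ (-β) *
      ((x : ℂ) ^ (2 * z - 2 + r) * Kb μ x * cexp (I * ((x * (ω * v).re : ℝ) : ℂ))) =
      (I ^ a * (starRingEnd ℂ) ω ^ a * (2 * Real.pi / Gamma β * (2 : ℂ) ^ (1 - β))) *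
        ((x : ℂ) ^ (2 * z + r + β - 2 - 1) * (Kb μ x * Kb (β - 1 - a) x)) := by
  have h := xj_fourier ha hβ hω hx
  have e1 : ∀ v : ℂ, v ^ a * ((1 + normSq v : ℝ) : ℂ) ^ (-β) *
      ((x : ℂ) ^ (2 * z - 2 + r) * Kb μ x * cexp (I * ((x * (ω * v).re : ℝ) : ℂ))) =
      ((x : ℂ) ^ (2 * z - 2 + r) * Kb μ x) * (v ^ a * (((1 + normSq v : ℝ) : ℂ) ^ (-β) *
        cexp (I * ((x * (ω * v).re : ℝ) : ℂ)))) := fun v => by ring
  rw [integral_congr_ae (Filter.Eventually.of_forall e1), integral_const_mul, h]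
  have hx' : (x : ℂ) ≠ 0 := by exact_mod_cast hx.ne'
  have e3 : (x : ℂ) ^ (2 * z + r + β - 2 - 1) = (x : ℂ) ^ (2 * z - 2 + r) * (x : ℂ) ^ (β - 1) := by
    rw [← Complex.cpow_add _ _ hx']
    congr 1
    ring
  rw [xj_half hx, e3]
  ring

theorem xjint {a : ℕ} (ha : a ≤ 1) (r : ℕ) {μ : ℂ} {σ : ℝ} {z : ℂ}
    (h1 : |μ.re| < 2 * z.re - 1 + r) (h2 : z.re < σ - 1 / 2) {ω : ℂ} (hω : ‖ω‖ = 1) :
    Integrable (fun p : ℂ × ℝ => p.1 ^ a * ((1 + normSq p.1 : ℝ) : ℂ) ^ (z - 1 / 2 - σ - a / 2) *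
      ((p.2 : ℂ) ^ (2 * z - 2 + r) * Kb μ p.2 * cexp (I * ((p.2 * (ω * p.1).re : ℝ) : ℂ))))
        ((volume : Measure ℂ).prod (volume.restrict (Ioi (0 : ℝ)))) ∧
    ∫ p : ℂ × ℝ, p.1 ^ a * ((1 + normSq p.1 : ℝ) : ℂ) ^ (z - 1 / 2 - σ - a / 2) *
      ((p.2 : ℂ) ^ (2 * z - 2 + r) * Kb μ p.2 * cexp (I * ((p.2 * (ω * p.1).re : ℝ) : ℂ)))
        ∂((volume : Measure ℂ).prod (volume.restrict (Ioi (0 : ℝ)))) =
      I ^ a * (starRingEnd ℂ) ω ^ a * (Real.pi * (2 : ℂ) ^ (2 * z + r - 3) *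
        (Gamma (z + (r - 1 + μ + a) / 2) * Gamma (z + (r - 1 - μ + a) / 2)) *
        (Gamma (σ - 1 + (r + μ) / 2) * Gamma (σ - 1 + (r - μ) / 2)) /
        (Gamma (σ + a / 2 + 1 / 2 - z) * Gamma (σ + a / 2 - 3 / 2 + r + z))) := by
  set β : ℂ := σ + a / 2 + 1 / 2 - z with hβ
  have hβr : β.re = σ + (a : ℝ) / 2 + 1 / 2 - z.re := by
    simp [hβ]
  have hβ1 : 1 + (a : ℝ) / 2 < β.re := by rw [hβr]; linarith
  have hneg : z - 1 / 2 - σ - a / 2 = -β := by rw [hβ]; ring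
  rw [hneg]
  refine ⟨xj_int ha h1 hβ1 ω, ?_⟩
  rw [integral_prod_symm _ (xj_int ha h1 hβ1 ω)]
  have hin : ∀ x ∈ Ioi (0 : ℝ), (∫ v : ℂ, (v, x).1 ^ a *
      ((1 + normSq (v, x).1 : ℝ) : ℂ) ^ (-β) *
      ((((v, x) : ℂ × ℝ).2 : ℂ) ^ (2 * z - 2 + r) * Kb μ ((v, x) : ℂ × ℝ).2 *
        cexp (I * ((((v, x) : ℂ × ℝ).2 * (ω * ((v, x) : ℂ × ℝ).1).re : ℝ) : ℂ)))) =
      (I ^ a * (starRingEnd ℂ) ω ^ a * (2 * Real.pi / Gamma β * (2 : ℂ) ^ (1 - β))) *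
        ((x : ℂ) ^ (2 * z + r + β - 2 - 1) * (Kb μ x * Kb (β - 1 - a) x)) := by
    intro x hx
    exact xj_inner ha hβ1 hω hx
  rw [setIntegral_congr_fun measurableSet_Ioi hin, integral_const_mul]
  have hW : (2 * z + r + β - 2).re = 2 * z.re + r + β.re - 2 := by
    simp
  have ha' : (a : ℝ) ≤ 1 := by exact_mod_cast ha
  have ha0 : (0 : ℝ) ≤ a := by positivity
  have hb : |(β - 1 - a).re| ≤ β.re - 1 := by
    have : (β - 1 - (a : ℂ)).re = β.re - 1 - a := by simp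
    rw [this, abs_le]
    constructor <;> linarith
  have hk := (kk_mellin (μ₁ := μ) (μ₂ := β - 1 - a) (W := 2 * z + r + β - 2) (by
    rw [hW]
    linarith)).2
  rw [hk]
  have g1 : (2 * z + r + β - 2 + μ + (β - 1 - a)) / 2 = σ - 1 + (r + μ) / 2 := by rw [hβ]; ring
  have g2 : (2 * z + r + β - 2 + μ - (β - 1 - a)) / 2 = z + (r - 1 + μ + a) / 2 := by ring
  have g3 : (2 * z + r + β - 2 - μ + (β - 1 - a)) / 2 = σ - 1 + (r - μ) / 2 := by rw [hβ]; ring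
  have g4 : (2 * z + r + β - 2 - μ - (β - 1 - a)) / 2 = z + (r - 1 - μ + a) / 2 := by ring
  have g5 : 2 * z + r + β - 2 = σ + a / 2 - 3 / 2 + r + z := by rw [hβ]; ring
  rw [g1, g2, g3, g4]
  have p2 : (2 : ℂ) ^ (2 * z + r - 3) =
      2 * (2 : ℂ) ^ (1 - β) * (2 : ℂ) ^ (2 * z + r + β - 2 - 3) := by
    have h20 : (2 : ℂ) ≠ 0 := two_ne_zero
    have : (2 : ℂ) * (2 : ℂ) ^ (1 - β) = (2 : ℂ) ^ (1 + (1 - β)) := by
      rw [Complex.cpow_add _ _ h20, Complex.cpow_one]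
    rw [this, ← Complex.cpow_add _ _ h20]
    congr 1
    ring
  rw [p2, g5]
  ring

end Pool.Agent.HI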