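import Pool.Agent.Lib_helper25.HIF.DX
import Pool.Agent.Lib_helper25.HIF.KB
import Pool.Agent.Lib_helper25.HIF.LA
import Pool.Agent.Lib_helper25.HIF.LV
import Pool.Agent.Lib_helper25.HIF.QE
import Pool.Agent.Lib_helper25.HIF.SR
import Pool.Agent.Lib_helper25.HIF.XJ

/-!
# Project HI, block MX: evaluation of `M` in the domain of absolute convergence
-/

namespace Pool.Agent.HI
open NumberField Complex MeasureTheory Set Filter Topology
open Pool.Agent.HB (H3 mu Kb Adm)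

variable {K : Type} [Field K] [NumberField K] {s : K →+* ℂ}

/-- the integrand of `xjint` -/
noncomputable def mxH (a r : ℕ) (μ : ℂ) (σ : ℝ) (z ω : ℂ) (p : ℂ × ℝ) : ℂ :=
  p.1 ^ a * ((1 + normSq p.1 : ℝ) : ℂ) ^ (z - 1 / 2 - σ - a / 2) *
      ((p.2 : ℂ) ^ (2 * z - 2 + r) * Kb μ p.2 * cexp (I * ((p.2 * (ω * p.1).re : ℝ) : ℂ)))

/-- the measure on `ℂ × (0, ∞)` -/
noncomputable def mxm : Measure (ℂ × ℝ) :=
  (volume : Measure ℂ).prod (volume.restrict (Set.Ioi (0 : ℝ)))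

theorem mx_map {l : ℝ} (hl : 0 < l) :
    Measure.map (Prod.map id (fun y : ℝ => l * y)) mxm = ENNReal.ofReal l⁻¹ • mxm := by
  unfold mxm
  have h1 : Measure.map (fun y : ℝ => l * y) (volume.restrict (Set.Ioi (0 : ℝ))) =
      ENNReal.ofReal l⁻¹ • volume.restrict (Set.Ioi (0 : ℝ)) := by
    have h2 : (fun y : ℝ => l * y) ⁻¹' Set.Ioi (0 : ℝ) = Set.Ioi (0 : ℝ) := by
      ext y
      simp [hl]
    have h3 := Measure.restrict_map (μ := (volume : Measure ℝ)) (f := fun y : ℝ => l * y)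
      (by fun_prop) (measurableSet_Ioi (a := (0 : ℝ)))
    rw [h2] at h3
    rw [← h3, Real.map_volume_mul_left hl.ne', abs_of_pos (inv_pos.2 hl), Measure.restrict_smul]
  rw [← Measure.map_prod_map _ _ measurable_id (by fun_prop), h1, Measure.map_id]
  rw [Measure.prod_smul_right]

theorem mx_scale {l : ℝ} (hl : 0 < l) {E : Type*} [NormedAddCommGroup E] [NormedSpace ℝ E]
    {H : ℂ × ℝ → E} (hH : Integrable H mxm) :
    Integrable (fun p : ℂ × ℝ => H (p.1, l * p.2)) mxm ∧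
      ∫ p, H (p.1, l * p.2) ∂mxm = l⁻¹ • ∫ p, H p ∂mxm := by
  have hm : Measurable (Prod.map (id : ℂ → ℂ) (fun y : ℝ => l * y)) := by fun_prop
  have h1 : Integrable H (Measure.map (Prod.map id (fun y : ℝ => l * y)) mxm) := by
    rw [mx_map hl]
    exact hH.smul_measure ENNReal.ofReal_ne_top
  have h2 := (integrable_map_measure h1.aestronglyMeasurable hm.aemeasurable).1 h1
  refine ⟨h2, ?_⟩
  have h3 := integral_map hm.aemeasurable h1.aestronglyMeasurable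
  rw [mx_map hl, integral_smul_measure, ENNReal.toReal_ofReal (inv_pos.2 hl).le] at h3
  exact h3.symm

theorem mx_ae : ∀ᵐ p : ℂ × ℝ ∂mxm, 0 < p.2 := by
  have h := Measure.prod_restrict (μ := (volume : Measure ℂ)) (ν := (volume : Measure ℝ))
    Set.univ (Set.Ioi 0)
  rw [Measure.restrict_univ] at h
  unfold mxm
  rw [h]
  filter_upwards [ae_restrict_mem (MeasurableSet.univ.prod measurableSet_Ioi)] with p hp
  exact hp.2

theorem mx_Hnorm (a r : ℕ) (μ : ℂ) (σ : ℝ) (z ω : ℂ) (p : ℂ × ℝ) :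
    ‖mxH a r μ σ z ω p‖ = ‖mxH a r μ σ z 1 p‖ := by
  unfold mxH
  simp only [norm_mul, Complex.norm_exp_I_mul_ofReal]

/-- the terms of the integrand -/
noncomputable def mxG (s : K →+* ℂ) (c : K → ℂ) (a r : ℕ) (μ : ℂ) (σ : ℝ) (z : ℂ) (ξ : K)
    (p : ℂ × ℝ) : ℂ :=
  tm s c a r μ ((p.2 : ℂ) * p.1, p.2) ξ * (p.1 ^ a *
    (((1 + normSq p.1 : ℝ) : ℂ) ^ (z - 1 / 2 - σ - a / 2) * (p.2 : ℂ) ^ (2 * z - 2)))

theorem mx_exp {w : ℂ} (hw : w ≠ 0) (v : ℂ) (y : ℝ) :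
    e2 (w * ((y : ℂ) * v)) = cexp (I * ((4 * Real.pi * ‖w‖ * y * (dir w * v).re : ℝ) : ℂ)) := by
  have hn : ‖w‖ ≠ 0 := norm_ne_zero_iff.2 hw
  have e2' : (w * ((y : ℂ) * v)).re = y * (w * v).re := by
    rw [← Complex.re_ofReal_mul]
    congr 1
    ring
  have e3 : (dir w * v).re = (w * v).re / ‖w‖ := by
    unfold dir
    rw [← Complex.div_ofReal_re]
    congr 1
    ring
  unfold e2
  rw [e2', e3]
  congr 1
  have hn' : ((‖w‖ : ℝ) : ℂ) ≠ 0 := by exact_mod_cast hn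
  push_cast
  field_simp
  ring

theorem mx_pow {n y : ℝ} (hn : 0 < n) (hy : 0 < y) (r : ℕ) (z : ℂ) :
    (((n * y) ^ r : ℝ) : ℂ) * (y : ℂ) ^ (2 * z - 2) =
      ((4 * Real.pi : ℝ) : ℂ) ^ (-(r : ℂ)) * ((4 * Real.pi * n : ℝ) : ℂ) ^ (2 - 2 * z) *
        ((4 * Real.pi * n * y : ℝ) : ℂ) ^ (2 * z - 2 + r) := by
  have hp : (0 : ℝ) < 4 * Real.pi := by positivity
  have hl : 0 < 4 * Real.pi * n := by positivity
  have hp' : ((4 * Real.pi : ℝ) : ℂ) ≠ 0 := by exact_mod_cast hp.ne'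
  have hl' : ((4 * Real.pi * n : ℝ) : ℂ) ≠ 0 := by exact_mod_cast hl.ne'
  have hly : ((4 * Real.pi * n * y : ℝ) : ℂ) ≠ 0 := by
    exact_mod_cast (mul_pos hl hy).ne'
  have h1 : ((4 * Real.pi * n * y : ℝ) : ℂ) ^ (2 * z - 2 + r) =
      ((4 * Real.pi * n : ℝ) : ℂ) ^ (2 * z - 2) * (y : ℂ) ^ (2 * z - 2) *
        (((4 * Real.pi : ℝ) : ℂ) ^ r * (((n * y : ℝ) : ℂ) ^ r)) := by
    rw [Complex.cpow_add _ _ hly, Complex.cpow_natCast]
    congr 1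
    · rw [Complex.ofReal_mul (4 * Real.pi * n) y, Complex.mul_cpow_ofReal_nonneg hl.le hy.le]
    · rw [← mul_pow]
      congr 1
      push_cast
      ring
  have h2 : ((4 * Real.pi * n : ℝ) : ℂ) ^ (2 - 2 * z) *
      ((4 * Real.pi * n : ℝ) : ℂ) ^ (2 * z - 2) = 1 := by
    rw [← Complex.cpow_add _ _ hl']
    ring_nf
    exact Complex.cpow_zero _
  have h3 : ((4 * Real.pi : ℝ) : ℂ) ^ (-(r : ℂ)) * ((4 * Real.pi : ℝ) : ℂ) ^ r = 1 := by
    rw [← Complex.cpow_natCast, ← Complex.cpow_add _ _ hp', neg_add_cancel, Complex.cpow_zero]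
  rw [h1]
  rw [show (((n * y) ^ r : ℝ) : ℂ) = ((n * y : ℝ) : ℂ) ^ r by push_cast; ring]
  linear_combination (-(((n * y : ℝ) : ℂ) ^ r * (y : ℂ) ^ (2 * z - 2))) *
    (((4 * Real.pi : ℝ) : ℂ) ^ (-(r : ℂ)) * ((4 * Real.pi : ℝ) : ℂ) ^ r) * h2 -
      (((n * y : ℝ) : ℂ) ^ r * (y : ℂ) ^ (2 * z - 2)) * h3

omit [NumberField K] in
theorem mx_G (s : K →+* ℂ) (c : K → ℂ) (a r : ℕ) (μ : ℂ) (σ : ℝ) (z : ℂ) {ξ : K}
    (hs : s ξ ≠ 0) (p : ℂ × ℝ) (hp : 0 < p.2) :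
    mxG s c a r μ σ z ξ p = (c ξ * dir (s ξ) ^ a * (((4 * Real.pi : ℝ) : ℂ) ^ (-(r : ℂ)) *
      ((4 * Real.pi * ‖s ξ‖ : ℝ) : ℂ) ^ (2 - 2 * z))) *
        mxH a r μ σ z (dir (s ξ)) (p.1, 4 * Real.pi * ‖s ξ‖ * p.2) := by
  have hn : 0 < ‖s ξ‖ := norm_pos_iff.2 hs
  unfold mxG tm wk mxH
  simp only
  rw [mx_exp hs]
  have h1 := mx_pow hn hp r z
  have h2 : 4 * Real.pi * (‖s ξ‖ * p.2) = 4 * Real.pi * ‖s ξ‖ * p.2 := by ring
  rw [h2]
  linear_combination (c ξ * dir (s ξ) ^ a * Kb μ (4 * Real.pi * ‖s ξ‖ * p.2) *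
    cexp (I * ((4 * Real.pi * ‖s ξ‖ * p.2 * (dir (s ξ) * p.1).re : ℝ) : ℂ)) * p.1 ^ a *
    ((1 + normSq p.1 : ℝ) : ℂ) ^ (z - 1 / 2 - σ - a / 2)) * h1

theorem mx_dir {w : ℂ} (hw : w ≠ 0) : ‖dir w‖ = 1 := by
  unfold dir
  rw [norm_div, Complex.norm_real, norm_norm, div_self (norm_ne_zero_iff.2 hw)]

theorem mx_dirc {w : ℂ} (hw : w ≠ 0) (a : ℕ) : dir w ^ a * (starRingEnd ℂ) (dir w) ^ a = 1 := by
  rw [← mul_pow, Complex.mul_conj, Complex.normSq_eq_norm_sq, mx_dir hw]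
  simp

/-- the value of the integral in `xjint` without the direction -/
noncomputable def mxJ (a r : ℕ) (μ : ℂ) (σ : ℝ) (z : ℂ) : ℂ :=
  (Gamma (z + (r - 1 + μ + a) / 2) * Gamma (z + (r - 1 - μ + a) / 2)) *
        (Gamma (σ - 1 + (r + μ) / 2) * Gamma (σ - 1 + (r - μ) / 2)) /
        (Gamma (σ + a / 2 + 1 / 2 - z) * Gamma (σ + a / 2 - 3 / 2 + r + z))

theorem mx_const {n : ℝ} (hn : 0 < n) (r : ℕ) (z : ℂ) :
    ((4 * Real.pi : ℝ) : ℂ) ^ (-(r : ℂ)) * ((4 * Real.pi * n : ℝ) : ℂ) ^ (2 - 2 * z) *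
      ((4 * Real.pi * n : ℝ) : ℂ)⁻¹ * (Real.pi * (2 : ℂ) ^ (2 * z + r - 3)) =
      Real.pi * (2 * Real.pi : ℂ) ^ (1 - 2 * z - r) / 4 * (n : ℂ) ^ (1 - 2 * z) := by
  have hp : (0 : ℝ) < 4 * Real.pi := by positivity
  have hq : (0 : ℝ) < 2 * Real.pi := by positivity
  have hl : 0 < 4 * Real.pi * n := by positivity
  have hp' : ((4 * Real.pi : ℝ) : ℂ) ≠ 0 := by exact_mod_cast hp.ne'
  have hl' : ((4 * Real.pi * n : ℝ) : ℂ) ≠ 0 := by exact_mod_cast hl.ne'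
  have h1 : ((4 * Real.pi * n : ℝ) : ℂ) ^ (2 - 2 * z) * ((4 * Real.pi * n : ℝ) : ℂ)⁻¹ =
      ((4 * Real.pi : ℝ) : ℂ) ^ (1 - 2 * z) * (n : ℂ) ^ (1 - 2 * z) := by
    rw [← Complex.cpow_neg_one ((4 * Real.pi * n : ℝ) : ℂ), ← Complex.cpow_add _ _ hl',
      Complex.ofReal_mul (4 * Real.pi) n, Complex.mul_cpow_ofReal_nonneg hp.le hn.le]
    ring_nf
  have h2 : ((4 * Real.pi : ℝ) : ℂ) ^ (-(r : ℂ)) * ((4 * Real.pi : ℝ) : ℂ) ^ (1 - 2 * z) =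
      (2 : ℂ) ^ (1 - 2 * z - r) * (2 * Real.pi : ℂ) ^ (1 - 2 * z - r) := by
    rw [← Complex.cpow_add _ _ hp']
    have f1 : ((4 * Real.pi : ℝ) : ℂ) = ((2 : ℝ) : ℂ) * ((2 * Real.pi : ℝ) : ℂ) := by
      push_cast
      ring
    rw [f1, Complex.mul_cpow_ofReal_nonneg (by norm_num) hq.le]
    have f5 : ((2 * Real.pi : ℝ) : ℂ) = 2 * Real.pi := by push_cast; ring
    have f6 : ((2 : ℝ) : ℂ) = 2 := by push_cast; ring
    rw [f5, f6]
    ring_nf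
  have h3 : (2 : ℂ) ^ (1 - 2 * z - r) * (2 : ℂ) ^ (2 * z + r - 3) = 1 / 4 := by
    rw [← Complex.cpow_add _ _ two_ne_zero]
    have f : 1 - 2 * z - r + (2 * z + r - 3) = ((-2 : ℤ) : ℂ) := by
      push_cast
      ring
    rw [f, Complex.cpow_intCast]
    norm_num
  linear_combination (((4 * Real.pi : ℝ) : ℂ) ^ (-(r : ℂ)) *
      (Real.pi * (2 : ℂ) ^ (2 * z + r - 3))) * h1 +
    ((n : ℂ) ^ (1 - 2 * z) * (Real.pi * (2 : ℂ) ^ (2 * z + r - 3))) * h2 +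
    ((2 * Real.pi : ℂ) ^ (1 - 2 * z - r) * Real.pi * (n : ℂ) ^ (1 - 2 * z)) * h3

theorem mx_int (S : IQ s) {c : K → ℂ} (hc : CS c) {a r : ℕ} (ha : a ≤ 1) {μ : ℂ}
    (hμ : |μ.re| ≤ r) {σ : ℝ} {z : ℂ} (h1 : 3 / 2 < z.re) (h2 : z.re < σ - 1 / 2) (ξ : K) :
    Integrable (mxG s c a r μ σ z ξ) mxm ∧
      ∫ p, ‖mxG s c a r μ σ z ξ p‖ ∂mxm =
        ‖c ξ‖ * ‖s ξ‖ ^ (-(2 * z.re - 1)) * ((4 * Real.pi) ^ (-(r : ℝ)) *
          (4 * Real.pi) ^ (-(2 * z.re - 1)) * ∫ p, ‖mxH a r μ σ z 1 p‖ ∂mxm) ∧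
      ∫ p, mxG s c a r μ σ z ξ p ∂mxm = c ξ * (‖s ξ‖ : ℂ) ^ (1 - 2 * z) *
        (I ^ a * Real.pi * (2 * Real.pi : ℂ) ^ (1 - 2 * z - r) / 4 * mxJ a r μ σ z) := by
  by_cases hξ : c ξ = 0
  · have h0 : mxG s c a r μ σ z ξ = fun _ => 0 := by
      ext p
      unfold mxG tm
      simp [hξ]
    rw [h0]
    simp [hξ]
  · have hξ0 : ξ ≠ 0 := by
      intro h
      exact hξ (h ▸ hc.zero)
    have hs : s ξ ≠ 0 := fun h => hξ0 (lat_inj S h)
    have hn : 0 < ‖s ξ‖ := norm_pos_iff.2 hs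
    have hl : 0 < 4 * Real.pi * ‖s ξ‖ := by positivity
    have hp4 : (0 : ℝ) < 4 * Real.pi := by positivity
    have hω1 := mx_dir hs
    have hμ' : |μ.re| < 2 * z.re - 1 + r := by linarith
    obtain ⟨hx1, hx2⟩ := xjint ha r hμ' h2 hω1
    have hx1' : Integrable (mxH a r μ σ z (dir (s ξ))) mxm := hx1
    have hx2' : ∫ p, mxH a r μ σ z (dir (s ξ)) p ∂mxm =
      I ^ a * (starRingEnd ℂ) (dir (s ξ)) ^ a * (Real.pi * (2 : ℂ) ^ (2 * z + r - 3) *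
        mxJ a r μ σ z) := by
      refine Eq.trans hx2 ?_
      unfold mxJ
      ring
    obtain ⟨hs1, hs2⟩ := mx_scale hl hx1'
    obtain ⟨hs3, hs4⟩ := mx_scale hl hx1'.norm
    have hae : mxG s c a r μ σ z ξ =ᵐ[mxm] fun p =>
        (c ξ * dir (s ξ) ^ a * (((4 * Real.pi : ℝ) : ℂ) ^ (-(r : ℂ)) *
          ((4 * Real.pi * ‖s ξ‖ : ℝ) : ℂ) ^ (2 - 2 * z))) *
        mxH a r μ σ z (dir (s ξ)) (p.1, 4 * Real.pi * ‖s ξ‖ * p.2) := by
      filter_upwards [mx_ae] with p hp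
      exact mx_G s c a r μ σ z hs p hp
    refine ⟨(hs1.const_mul _).congr hae.symm, ?_, ?_⟩
    · have hC : ‖c ξ * dir (s ξ) ^ a * (((4 * Real.pi : ℝ) : ℂ) ^ (-(r : ℂ)) *
          ((4 * Real.pi * ‖s ξ‖ : ℝ) : ℂ) ^ (2 - 2 * z))‖ =
          ‖c ξ‖ * ((4 * Real.pi) ^ (-(r : ℝ)) * (4 * Real.pi * ‖s ξ‖) ^ (2 - 2 * z.re)) := by
        rw [norm_mul, norm_mul, norm_pow, hω1, one_pow, mul_one, norm_mul,
          Complex.norm_cpow_eq_rpow_re_of_pos hp4, Complex.norm_cpow_eq_rpow_re_of_pos hl]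
        simp
      have e1 : ∫ p, ‖mxG s c a r μ σ z ξ p‖ ∂mxm = ∫ p, (‖c ξ‖ * ((4 * Real.pi) ^ (-(r : ℝ)) *
          (4 * Real.pi * ‖s ξ‖) ^ (2 - 2 * z.re))) *
          ‖mxH a r μ σ z (dir (s ξ)) (p.1, 4 * Real.pi * ‖s ξ‖ * p.2)‖ ∂mxm := by
        refine integral_congr_ae ?_
        filter_upwards [hae] with p hp
        rw [hp, norm_mul, hC]
      have e2 : ∫ p, ‖mxH a r μ σ z (dir (s ξ)) p‖ ∂mxm = ∫ p, ‖mxH a r μ σ z 1 p‖ ∂mxm :=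
        integral_congr_ae (Eventually.of_forall fun p => mx_Hnorm a r μ σ z (dir (s ξ)) p)
      rw [e1, integral_const_mul, hs4, e2, smul_eq_mul]
      have e3 : (4 * Real.pi * ‖s ξ‖) ^ (2 - 2 * z.re) * (4 * Real.pi * ‖s ξ‖)⁻¹ =
          (4 * Real.pi) ^ (-(2 * z.re - 1)) * ‖s ξ‖ ^ (-(2 * z.re - 1)) := by
        rw [← Real.rpow_neg_one (4 * Real.pi * ‖s ξ‖), ← Real.rpow_add hl,
          ← Real.mul_rpow hp4.le hn.le]
        congr 1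
        ring
      linear_combination (‖c ξ‖ * (4 * Real.pi) ^ (-(r : ℝ)) *
        ∫ p, ‖mxH a r μ σ z 1 p‖ ∂mxm) * e3
    · rw [integral_congr_ae hae, integral_const_mul, hs2, hx2', Complex.real_smul,
        Complex.ofReal_inv]
      have k1 := mx_const hn r z
      have k2 := mx_dirc hs a
      linear_combination (c ξ * I ^ a * mxJ a r μ σ z * (dir (s ξ) ^ a *
        (starRingEnd ℂ) (dir (s ξ)) ^ a)) * k1 + (c ξ * I ^ a * mxJ a r μ σ z *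
        (Real.pi * (2 * Real.pi : ℂ) ^ (1 - 2 * z - r) / 4 * (‖s ξ‖ : ℂ) ^ (1 - 2 * z))) * k2

theorem mx_countable (K : Type) [Field K] [NumberField K] : Countable K :=
  (Module.finBasis ℚ K).equivFun.injective.countable

theorem mz_term (S : IQ s) {c : K → ℂ} (hc : CS c) {a r : ℕ} (ha : a ≤ 1) (hr : 1 ≤ r) {μ : ℂ}
    (hμ : |μ.re| ≤ r) {σ : ℝ} {z : ℂ} (h1 : 3 / 2 < z.re) (h2 : z.re < σ - 1 / 2) :
    Mz (sr s c a r μ) a σ z = I ^ a * Real.pi * (2 * Real.pi : ℂ) ^ (1 - 2 * z - r) / 4 *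
      ((Gamma (z + (r - 1 + μ + a) / 2) * Gamma (z + (r - 1 - μ + a) / 2)) *
        (Gamma (σ - 1 + (r + μ) / 2) * Gamma (σ - 1 + (r - μ) / 2)) /
        (Gamma (σ + a / 2 + 1 / 2 - z) * Gamma (σ + a / 2 - 3 / 2 + r + z))) * Ds s c z := by
  have hcount : Countable K := mx_countable K
  have hsum : Summable (fun ξ : K => ∫ p, ‖mxG s c a r μ σ z ξ p‖ ∂mxm) := by
    have h5 : (2 : ℝ) < 2 * z.re - 1 := by linarith
    refine ((cs_pow S hc h5).mul_right ((4 * Real.pi) ^ (-(r : ℝ)) *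
          (4 * Real.pi) ^ (-(2 * z.re - 1)) * ∫ p, ‖mxH a r μ σ z 1 p‖ ∂mxm)).congr fun ξ => ?_
    exact ((mx_int S hc ha hμ h1 h2 ξ).2.1).symm
  have h3 := integral_tsum_of_summable_integral_norm
    (fun ξ => (mx_int S hc ha hμ h1 h2 ξ).1) hsum
  have h4 : Mz (sr s c a r μ) a σ z = ∫ p, ∑' ξ, mxG s c a r μ σ z ξ p ∂mxm := by
    unfold Mz mxm
    refine integral_congr_ae (Eventually.of_forall fun p => ?_)
    simp only [mf, sr, mxG]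
    rw [tsum_mul_right]
  rw [h4, ← h3, tsum_congr fun ξ => (mx_int S hc ha hμ h1 h2 ξ).2.2, tsum_mul_right]
  unfold Ds mxJ
  ring

theorem mx_g {w : ℂ} (hw : 0 < w.re) : Gamma (w + 1) = w * Gamma w := by
  refine Complex.Gamma_add_one w ?_
  intro h
  rw [h, Complex.zero_re] at hw
  exact lt_irrefl _ hw

theorem mx_re (z x : ℂ) : (z + x / 2).re = z.re + x.re / 2 := by
  rw [Complex.add_re, show (x / 2 : ℂ) = x / ((2 : ℝ) : ℂ) by push_cast; ring,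
    Complex.div_ofReal_re]

theorem mz_eval (S : IQ s) {q : ℕ} {ν : ℂ} (had : Ad q ν) {c : K → ℂ} (hc : CS c) {i : ℕ}
    (hi : i ≤ 1) {σ : ℝ} {z : ℂ} (h1 : 3 / 2 < z.re) (h2 : z.re < σ - 1 / 2) :
    Mz (cp s q ν c i) i σ z = kp q ν i σ z * Lz s q ν c z := by
  have hre := ad_re had
  have hre' := abs_lt.1 hre
  rw [lz_eval S had hc h1]
  have hcase : i = 0 ∨ i = 1 := by omega
  rcases hcase with rfl | rfl
  · -- `i = 0`
    have hμ : |ν.re| ≤ ((1 + q : ℕ) : ℝ) := by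
      push_cast
      have : (0 : ℝ) ≤ q := Nat.cast_nonneg q
      linarith
    have h3 := mz_term S hc (a := 0) (r := 1 + q) zero_le_one (by omega) hμ h1 h2
    unfold cp kp
    rw [if_pos rfl, if_pos rfl, h3]
    push_cast
    have e1 : z + (1 + (q : ℂ) - 1 + ν + 0) / 2 = z + (q + ν) / 2 := by ring
    have e2 : z + (1 + (q : ℂ) - 1 - ν + 0) / 2 = z + (q - ν) / 2 := by ring
    have e3 : (σ : ℂ) - 1 + (1 + q + ν) / 2 = σ - 1 / 2 + (q + ν) / 2 := by ring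
    have e4 : (σ : ℂ) - 1 + (1 + q - ν) / 2 = σ - 1 / 2 + (q - ν) / 2 := by ring
    have e5 : (σ : ℂ) + 0 / 2 + 1 / 2 - z = σ + 1 / 2 - z := by ring
    have e6 : (σ : ℂ) + 0 / 2 - 3 / 2 + (1 + q) + z = σ - 1 / 2 + q + z := by ring
    have e7 : 1 - 2 * z - (1 + (q : ℂ)) = -2 * z - q := by ring
    rw [e1, e2, e3, e4, e5, e6, e7, pow_zero]
    ring
  · by_cases hq : q = 0
    · subst hq
      have hμ : |ν.re| ≤ ((2 : ℕ) : ℝ) := by
        push_cast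
        linarith
      have h3 := mz_term S hc (a := 1) (r := 2) le_rfl (by omega) hμ h1 h2
      unfold cp kp
      rw [if_neg one_ne_zero, if_pos rfl, if_neg one_ne_zero, if_pos rfl, h3]
      push_cast
      have g1 := mx_g (w := z + ν / 2) (by rw [mx_re]; linarith)
      have g2 := mx_g (w := z + (-ν) / 2) (by rw [mx_re, Complex.neg_re]; linarith)
      have e1 : z + ((2 : ℂ) - 1 + ν + 1) / 2 = z + ν / 2 + 1 := by ring
      have e2 : z + ((2 : ℂ) - 1 - ν + 1) / 2 = z + (-ν) / 2 + 1 := by ring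
      have e3 : (σ : ℂ) - 1 + (2 + ν) / 2 = σ + ν / 2 := by ring
      have e4 : (σ : ℂ) - 1 + (2 - ν) / 2 = σ - ν / 2 := by ring
      have e5 : (σ : ℂ) + 1 / 2 + 1 / 2 - z = σ + 1 - z := by ring
      have e6 : (σ : ℂ) + 1 / 2 - 3 / 2 + 2 + z = σ + 1 + z := by ring
      have e8 : z + (0 + ν) / 2 = z + ν / 2 := by ring
      have e9 : z + (0 - ν) / 2 = z + (-ν) / 2 := by ring
      have e10 : z - ν / 2 = z + (-ν) / 2 := by ring
      rw [e1, e2, e3, e4, e5, e6, e8, e9, e10, g1, g2, pow_one]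
      have hq2 : (2 * Real.pi : ℂ) ≠ 0 := by
        simp [Real.pi_ne_zero]
      have e7 : (2 * Real.pi : ℂ) ^ (-2 * z - 0) = (2 * Real.pi : ℂ) ^ (1 - 2 * z - 2) *
          (2 * Real.pi) := by
        rw [show -2 * z - 0 = (1 - 2 * z - 2) + 1 by ring, Complex.cpow_add _ _ hq2,
          Complex.cpow_one]
      rw [e7]
      ring
    · have hν : |(ν + 1).re| ≤ ((1 + q : ℕ) : ℝ) := by
        push_cast
        have hq1 : (1 : ℝ) ≤ q := by exact_mod_cast Nat.one_le_iff_ne_zero.2 hq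
        rw [Complex.add_re, Complex.one_re, abs_le]
        constructor
        · linarith
        · linarith
      have hq0 : (0 : ℝ) ≤ q := Nat.cast_nonneg q
      have h3 := mz_term S hc (a := 1) (r := 1 + q) le_rfl (by omega) hν h1 h2
      unfold cp kp
      rw [if_neg one_ne_zero, if_neg hq, if_neg one_ne_zero, if_neg hq, h3]
      push_cast
      have g1 := mx_g (w := z + (q + ν) / 2) (by
        rw [mx_re, Complex.add_re, Complex.natCast_re]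
        linarith)
      have e1 : z + (1 + (q : ℂ) - 1 + (ν + 1) + 1) / 2 = z + (q + ν) / 2 + 1 := by ring
      have e2 : z + (1 + (q : ℂ) - 1 - (ν + 1) + 1) / 2 = z + (q - ν) / 2 := by ring
      have e3 : (σ : ℂ) - 1 + (1 + q + (ν + 1)) / 2 = σ + (q + ν) / 2 := by ring
      have e4 : (σ : ℂ) - 1 + (1 + q - (ν + 1)) / 2 = σ - 1 + (q - ν) / 2 := by ring
      have e5 : (σ : ℂ) + 1 / 2 + 1 / 2 - z = σ + 1 - z := by ring
      have e6 : (σ : ℂ) + 1 / 2 - 3 / 2 + (1 + q) + z = σ + q + z := by ring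
      have e7 : 1 - 2 * z - (1 + (q : ℂ)) = -2 * z - q := by ring
      rw [e1, e2, e3, e4, e5, e6, e7, g1, pow_one]
      ring

end Pool.Agent.HI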