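import Pool.Agent.Lib_helper25.HIF.DX
import Pool.Agent.Lib_helper25.HIF.FQ
import Pool.Agent.Lib_helper25.HIF.GD
import Pool.Agent.Lib_helper25.HIF.LY
import Pool.Agent.Lib_helper25.HIF.MH
import Pool.Agent.Lib_helper25.HIF.MI
import Pool.Agent.Lib_helper25.HIF.MX
import Pool.Agent.Lib_helper98.H4F.GG

/-!
# Project HI, block MA: the identity and the decay of the completed L-function
-/

namespace Pool.Agent.HI
open NumberField Complex MeasureTheory Set Filter Topology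
open Pool.Agent.HB (H3 mu Kb Adm)
open Pool.Agent.HI

variable {K : Type} [Field K] [NumberField K] {s : K →+* ℂ}

theorem ma_ad {q : ℕ} {ν : ℂ} (h : Ad q ν) : |ν.re| < 1 := by
  rcases h with h | h
  · rw [h]; simp
  · exact h.2.2

theorem ma_ad1 {q : ℕ} {ν : ℂ} (h : Ad q ν) (hq : q ≠ 0) : ν.re = 0 := by
  rcases h with h | h
  · exact h
  · exact absurd h.1 hq

theorem ma_Gamma_diff {f : ℂ → ℂ} {u : ℂ} (hf : DifferentiableAt ℂ f u) (h : 0 < (f u).re) :
    DifferentiableAt ℂ (fun u => Gamma (f u)) u := by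
  have h1 : DifferentiableAt ℂ Gamma (f u) := by
    apply Complex.differentiableAt_Gamma
    intro m hm
    rw [hm] at h
    simp only [neg_re, natCast_re] at h
    have : (0 : ℝ) ≤ m := Nat.cast_nonneg m
    linarith
  exact h1.comp u hf

/-- the right hand side of the identity along the line `(σ + u, z + u/2)` -/
noncomputable def maR (s : K →+* ℂ) (q : ℕ) (ν : ℂ) (c : K → ℂ) (i : ℕ) (σ z u : ℂ) : ℂ :=
  kp q ν i (σ + u) (z + u / 2) * Lz s q ν c (z + u / 2)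

theorem ma_kp_diff {q : ℕ} {ν : ℂ} (hν : Ad q ν) (i : ℕ)
    {σ : ℝ} {z : ℂ} (h1 : 1 / 2 ≤ z.re) (h2 : z.re < σ - 1 / 2) {u : ℂ} (hu : 0 ≤ u.re) :
    DifferentiableAt ℂ (fun u : ℂ => kp q ν i (σ + u) (z + u / 2)) u := by
  have hn := abs_lt.1 (ma_ad hν)
  have hq0 : (0 : ℝ) ≤ q := Nat.cast_nonneg q
  unfold kp
  by_cases hi : i = 0
  · simp only [if_pos hi]
    have hA : 0 < ((σ : ℂ) + u + 1 / 2 - (z + u / 2)).re := by
      have : ((σ : ℂ) + u + 1 / 2 - (z + u / 2)).re = σ + u.re + 1 / 2 - (z.re + u.re / 2) := by simp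
      rw [this]
      linarith
    have hB : 0 < ((σ : ℂ) + u - 1 / 2 + q + (z + u / 2)).re := by
      have : ((σ : ℂ) + u - 1 / 2 + q + (z + u / 2)).re =
        σ + u.re - 1 / 2 + q + (z.re + u.re / 2) := by simp
      rw [this]
      linarith
    refine DifferentiableAt.div (DifferentiableAt.mul (by fun_prop)
      (DifferentiableAt.mul (ma_Gamma_diff (by fun_prop) ?_) (ma_Gamma_diff (by fun_prop) ?_)))
      (DifferentiableAt.mul (ma_Gamma_diff (by fun_prop) hA) (ma_Gamma_diff (by fun_prop) hB))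
      (mul_ne_zero (Gamma_ne_zero_of_re_pos hA) (Gamma_ne_zero_of_re_pos hB))
    · have : ((σ : ℂ) + u - 1 / 2 + (q + ν) / 2).re = σ + u.re - 1 / 2 + (q + ν.re) / 2 := by simp
      rw [this]
      linarith [hn.1]
    · have : ((σ : ℂ) + u - 1 / 2 + (q - ν) / 2).re = σ + u.re - 1 / 2 + (q - ν.re) / 2 := by simp
      rw [this]
      linarith [hn.2]
  · simp only [if_neg hi]
    have hA : 0 < ((σ : ℂ) + u + 1 - (z + u / 2)).re := by
      have : ((σ : ℂ) + u + 1 - (z + u / 2)).re = σ + u.re + 1 - (z.re + u.re / 2) := by simp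
      rw [this]
      linarith
    by_cases hq : q = 0
    · simp only [if_pos hq]
      have hB : 0 < ((σ : ℂ) + u + 1 + (z + u / 2)).re := by
        have : ((σ : ℂ) + u + 1 + (z + u / 2)).re = σ + u.re + 1 + (z.re + u.re / 2) := by simp
        rw [this]
        linarith
      refine DifferentiableAt.div (DifferentiableAt.mul (DifferentiableAt.mul (by fun_prop)
        (DifferentiableAt.mul (ma_Gamma_diff (by fun_prop) ?_) (ma_Gamma_diff (by fun_prop) ?_)))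
        (by fun_prop))
        (DifferentiableAt.mul (ma_Gamma_diff (by fun_prop) hA) (ma_Gamma_diff (by fun_prop) hB))
        (mul_ne_zero (Gamma_ne_zero_of_re_pos hA) (Gamma_ne_zero_of_re_pos hB))
      · have : ((σ : ℂ) + u + ν / 2).re = σ + u.re + ν.re / 2 := by simp
        rw [this]
        linarith [hn.1]
      · have : ((σ : ℂ) + u - ν / 2).re = σ + u.re - ν.re / 2 := by simp
        rw [this]
        linarith [hn.2]
    · simp only [if_neg hq]
      have hq1 : (1 : ℝ) ≤ q := by exact_mod_cast Nat.one_le_iff_ne_zero.2 hq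
      have hν0 := ma_ad1 hν hq
      have hB : 0 < ((σ : ℂ) + u + q + (z + u / 2)).re := by
        have : ((σ : ℂ) + u + q + (z + u / 2)).re = σ + u.re + q + (z.re + u.re / 2) := by simp
        rw [this]
        linarith
      refine DifferentiableAt.div (DifferentiableAt.mul (DifferentiableAt.mul (by fun_prop)
        (DifferentiableAt.mul (ma_Gamma_diff (by fun_prop) ?_) (ma_Gamma_diff (by fun_prop) ?_)))
        (by fun_prop))
        (DifferentiableAt.mul (ma_Gamma_diff (by fun_prop) hA) (ma_Gamma_diff (by fun_prop) hB))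
        (mul_ne_zero (Gamma_ne_zero_of_re_pos hA) (Gamma_ne_zero_of_re_pos hB))
      · have : ((σ : ℂ) + u + (q + ν) / 2).re = σ + u.re + (q + ν.re) / 2 := by simp
        rw [this, hν0]
        linarith
      · have : ((σ : ℂ) + u - 1 + (q - ν) / 2).re = σ + u.re - 1 + (q - ν.re) / 2 := by simp
        rw [this, hν0]
        linarith

theorem ma_R_diff (S : IQ s) {q : ℕ} {ν : ℂ} (had : Ad q ν) {c c' : K → ℂ} (h : DP s q ν c c')
    (i : ℕ) {σ : ℝ} {z : ℂ} (h1 : 1 / 2 ≤ z.re) (h2 : z.re < σ - 1 / 2) {u : ℂ} (hu : 0 ≤ u.re) :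
    DifferentiableAt ℂ (maR s q ν c i σ z) u := by
  unfold maR
  refine DifferentiableAt.mul (ma_kp_diff had i h1 h2 hu) ?_
  exact DifferentiableAt.comp (g := Lz s q ν c) (f := fun u : ℂ => z + u / 2) u
      (lz_diff S had h _) (by fun_prop)

theorem mz_all (S : IQ s) {q : ℕ} {ν : ℂ} (had : Ad q ν) {c c' : K → ℂ} (h : DP s q ν c c')
    {i : ℕ} (hi : i ≤ 1) {σ : ℝ} {z : ℂ} (h1 : 1 / 2 ≤ z.re) (h2 : z.re < σ - 1 / 2) :
    Mz (cp s q ν c i) i σ z = kp q ν i σ z * Lz s q ν c z := by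
  have hray := ray_cp S had h i
  have hopen : IsOpen {u : ℂ | 0 < u.re} := isOpen_lt continuous_const continuous_re
  have hf : AnalyticOnNhd ℂ (fun u : ℂ => Mz (cp s q ν c i) i (σ + u) (z + u / 2))
      {u : ℂ | 0 < u.re} := (mz_hol hray hi h1 h2).analyticOnNhd hopen
  have hg : AnalyticOnNhd ℂ (maR s q ν c i σ z) {u : ℂ | 0 < u.re} := by
    refine DifferentiableOn.analyticOnNhd (fun u hu => ?_) hopen
    exact (ma_R_diff S had h i h1 h2 (le_of_lt hu)).differentiableWithinAt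
  have hreal : ∀ r : ℝ, 2 < r → Mz (cp s q ν c i) i ((σ : ℂ) + (r : ℂ)) (z + (r : ℂ) / 2) =
      maR s q ν c i σ z (r : ℂ) := by
    intro r hr
    have hzre : (z + (r : ℂ) / 2).re = z.re + r / 2 := by simp
    have h3 := mz_eval S had h.cs hi (σ := σ + r) (z := z + (r : ℂ) / 2)
      (by rw [hzre]; linarith) (by rw [hzre]; linarith)
    rw [ofReal_add] at h3
    rw [h3]
    rfl
  have htend : Tendsto (fun r : ℝ => (r : ℂ)) (𝓝[≠] (3 : ℝ)) (𝓝[≠] (3 : ℂ)) := by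
    apply tendsto_nhdsWithin_of_tendsto_nhds_of_eventually_within
    · have := (continuous_ofReal.tendsto (3 : ℝ)).mono_left
        (nhdsWithin_le_nhds (s := {(3 : ℝ)}ᶜ))
      simpa using this
    · filter_upwards [self_mem_nhdsWithin] with r hr
      intro h
      apply hr
      have h' : (r : ℂ) = 3 := h
      have h'' : r = 3 := by exact_mod_cast h'
      exact h''
  have hev : ∀ᶠ r : ℝ in 𝓝[≠] (3 : ℝ), Mz (cp s q ν c i) i ((σ : ℂ) + (r : ℂ)) (z + (r : ℂ) / 2) =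
      maR s q ν c i σ z (r : ℂ) := by
    have : ∀ᶠ r : ℝ in 𝓝 (3 : ℝ), 2 < r := lt_mem_nhds (by norm_num)
    filter_upwards [nhdsWithin_le_nhds this] with r hr
    exact hreal r hr
  have hfreq : ∃ᶠ u : ℂ in 𝓝[≠] (3 : ℂ), Mz (cp s q ν c i) i ((σ : ℂ) + u) (z + u / 2) =
      maR s q ν c i σ z u := htend.frequently hev.frequently
  have heq := hf.eqOn_of_preconnected_of_frequently_eq hg
    (convex_halfSpace_re_gt 0).isPreconnected
    (show (3 : ℂ) ∈ {u : ℂ | 0 < u.re} by simp) hfreq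
  have hl1 := mz_lim hray hi h1 h2
  have hl2 : Tendsto (fun u : ℝ => maR s q ν c i σ z (u : ℂ)) (𝓝[>] 0)
      (𝓝 (maR s q ν c i σ z 0)) := by
    have hcont := (ma_R_diff S had h i h1 h2 (u := 0) (by simp)).continuousAt
    have h4 : Tendsto (fun u : ℝ => (u : ℂ)) (𝓝[>] 0) (𝓝 (0 : ℂ)) := by
      have := (continuous_ofReal.tendsto (0 : ℝ)).mono_left (nhdsWithin_le_nhds (s := Set.Ioi 0))
      simpa using this
    exact hcont.tendsto.comp h4
  have hl3 : Tendsto (fun u : ℝ => Mz (cp s q ν c i) i ((σ : ℂ) + (u : ℂ)) (z + (u : ℂ) / 2))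
      (𝓝[>] 0) (𝓝 (maR s q ν c i σ z 0)) := by
    refine hl2.congr' ?_
    filter_upwards [self_mem_nhdsWithin] with u hu
    have hu' : (0 : ℝ) < u := hu
    exact (heq (show (u : ℂ) ∈ {u : ℂ | 0 < u.re} by simpa using hu')).symm
  have h5 := tendsto_nhds_unique hl1 hl3
  rw [h5]
  unfold maR
  simp only [add_zero, zero_div]

theorem ma_Gamma_bd {θ : ℝ} (h0 : 0 ≤ θ) (hθ : θ < Real.pi / 2) {x y : ℝ} (hx : 0 < x) :
    ∃ C : ℝ, 0 ≤ C ∧ ∀ w : ℂ, x ≤ w.re → w.re ≤ y → ‖Gamma w‖ ≤ C * Real.exp (-(θ * |w.im|)) := by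
  have hcos : 0 < Real.cos θ := Real.cos_pos_of_mem_Ioo ⟨by linarith [Real.pi_pos], hθ⟩
  have hcont : ContinuousOn (fun t : ℝ => Real.Gamma t * (Real.cos θ) ^ (-t)) (Set.Icc x y) := by
    refine ContinuousOn.mul ?_ ?_
    · intro t ht
      refine (Real.differentiableAt_Gamma (fun m hm => ?_)).continuousAt.continuousWithinAt
      have h1 : 0 < t := lt_of_lt_of_le hx ht.1
      rw [hm] at h1
      have : (0 : ℝ) ≤ m := Nat.cast_nonneg m
      linarith
    · refine Continuous.continuousOn ?_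
      exact Continuous.rpow continuous_const (by fun_prop) (fun t => Or.inl hcos.ne')
  obtain ⟨C, hC⟩ := isCompact_Icc.exists_bound_of_continuousOn hcont
  refine ⟨max C 0, le_max_right _ _, fun w h1 h2 => ?_⟩
  have hw : (w.re : ℂ) + (w.im : ℂ) * I = w := re_add_im w
  have hre : 0 < w.re := lt_of_lt_of_le hx h1
  have h3 := hC w.re ⟨h1, h2⟩
  rw [Real.norm_eq_abs] at h3
  have h4 : Real.Gamma w.re * (Real.cos θ) ^ (-w.re) ≤ max C 0 :=
    (le_abs_self _).trans (h3.trans (le_max_left _ _))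
  rcases le_total 0 w.im with him | him
  · have h5 := Pool.Agent.H4.norm_Gamma_rot (x := w.re) (y := w.im) (θ := θ) hre
      (by rw [abs_of_nonneg h0]; exact hθ)
    rw [hw] at h5
    rw [abs_of_nonneg him]
    calc ‖Gamma w‖ ≤ Real.exp (-(θ * w.im)) * Real.Gamma w.re * Real.cos θ ^ (-w.re) := h5
      _ = (Real.Gamma w.re * Real.cos θ ^ (-w.re)) * Real.exp (-(θ * w.im)) := by ring
      _ ≤ _ := mul_le_mul_of_nonneg_right h4 (Real.exp_pos _).le
  · have h5 := Pool.Agent.H4.norm_Gamma_rot (x := w.re) (y := w.im) (θ := -θ) hre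
      (by rw [abs_neg, abs_of_nonneg h0]; exact hθ)
    rw [hw, Real.cos_neg] at h5
    rw [abs_of_nonpos him]
    calc ‖Gamma w‖ ≤ Real.exp (-(-θ * w.im)) * Real.Gamma w.re * Real.cos θ ^ (-w.re) := h5
      _ = (Real.Gamma w.re * Real.cos θ ^ (-w.re)) * Real.exp (-(θ * -w.im)) := by
          rw [show -(-θ * w.im) = -(θ * -w.im) by ring]; ring
      _ ≤ _ := mul_le_mul_of_nonneg_right h4 (Real.exp_pos _).le

theorem ma_dec_right (S : IQ s) {q : ℕ} {ν : ℂ} (had : Ad q ν) {c c' : K → ℂ}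
    (h : DP s q ν c c') {θ : ℝ} (h0 : 0 ≤ θ) (hθ : θ < Real.pi / 2) {Y : ℝ} (hY : 1 ≤ Y) :
    ∃ C : ℝ, ∀ z : ℂ,
      1 / 2 ≤ z.re → z.re ≤ Y → ‖Lz s q ν c z‖ ≤ C * Real.exp (-(2 * θ * |z.im|)) := by
  have hn := abs_lt.1 (ma_ad had)
  have hq0 : (0 : ℝ) ≤ q := Nat.cast_nonneg q
  obtain ⟨C₁, hC₁0, hC₁⟩ := ma_Gamma_bd h0 hθ (x := 1) (y := Y + 1) one_pos
  obtain ⟨C₂, hC₂0, hC₂⟩ := ma_Gamma_bd h0 hθ (x := 1) (y := 2 * Y + 1 + q) one_pos
  have hray := ray_cp S had h 0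
  obtain ⟨M, hM⟩ := mz_bd hray (a := 0) (by norm_num) (σ := Y + 1) (x := 1 / 2) (y := Y)
    (by rw [sub_self, abs_zero]; linarith) (by rw [abs_of_nonneg (by linarith)]; linarith)
  obtain ⟨g, hg⟩ : ∃ g : ℂ, g = Gamma (((Y + 1 : ℝ) : ℂ) - 1 / 2 + (q + ν) / 2) *
      Gamma (((Y + 1 : ℝ) : ℂ) - 1 / 2 + (q - ν) / 2) := ⟨_, rfl⟩
  have hne : g ≠ 0 := by
    rw [hg]
    refine mul_ne_zero (Gamma_ne_zero_of_re_pos ?_) (Gamma_ne_zero_of_re_pos ?_)
    · have : (((Y + 1 : ℝ) : ℂ) - 1 / 2 + (q + ν) / 2).re = Y + 1 - 1 / 2 + (q + ν.re) / 2 := by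
        simp
      rw [this]
      linarith [hn.1]
    · have : (((Y + 1 : ℝ) : ℂ) - 1 / 2 + (q - ν) / 2).re = Y + 1 - 1 / 2 + (q - ν.re) / 2 := by
        simp
      rw [this]
      linarith [hn.2]
  have hnorm : 0 < Real.pi * ‖g‖ := mul_pos Real.pi_pos (norm_pos_iff.2 hne)
  refine ⟨M * (C₁ * C₂) / (Real.pi * ‖g‖), fun z hz1 hz2 => ?_⟩
  have h1 := mz_all S had h (i := 0) (by norm_num) (σ := Y + 1) (z := z) hz1 (by linarith)
  obtain ⟨A, hA⟩ : ∃ A : ℂ, A = Gamma (((Y + 1 : ℝ) : ℂ) + 1 / 2 - z) := ⟨_, rfl⟩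
  obtain ⟨B, hB⟩ : ∃ B : ℂ, B = Gamma (((Y + 1 : ℝ) : ℂ) - 1 / 2 + q + z) := ⟨_, rfl⟩
  have reA : (((Y + 1 : ℝ) : ℂ) + 1 / 2 - z).re = Y + 1 + 1 / 2 - z.re := by simp
  have imA : (((Y + 1 : ℝ) : ℂ) + 1 / 2 - z).im = -z.im := by simp
  have reB : (((Y + 1 : ℝ) : ℂ) - 1 / 2 + q + z).re = Y + 1 - 1 / 2 + q + z.re := by simp
  have imB : (((Y + 1 : ℝ) : ℂ) - 1 / 2 + q + z).im = z.im := by simp
  have hA0 : A ≠ 0 := by
    rw [hA]; exact Gamma_ne_zero_of_re_pos (by rw [reA]; linarith)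
  have hB0 : B ≠ 0 := by
    rw [hB]; exact Gamma_ne_zero_of_re_pos (by rw [reB]; linarith)
  have hA1 := hC₁ (((Y + 1 : ℝ) : ℂ) + 1 / 2 - z) (by rw [reA]; linarith) (by rw [reA]; linarith)
  have hB1 := hC₂ (((Y + 1 : ℝ) : ℂ) - 1 / 2 + q + z) (by rw [reB]; linarith)
    (by rw [reB]; linarith)
  rw [imA, abs_neg, ← hA] at hA1
  rw [imB, ← hB] at hB1
  have hpi : (Real.pi : ℂ) ≠ 0 := by exact_mod_cast Real.pi_ne_zero
  have h2 : Lz s q ν c z * (Real.pi * g) =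
      Mz (cp s q ν c 0) 0 ((Y + 1 : ℝ) : ℂ) z * (A * B) := by
    rw [h1]
    unfold kp
    rw [if_pos rfl, ← hA, ← hB, ← hg]
    field_simp
  have h3 : ‖Lz s q ν c z‖ * (Real.pi * ‖g‖) =
      ‖Mz (cp s q ν c 0) 0 ((Y + 1 : ℝ) : ℂ) z‖ * (‖A‖ * ‖B‖) := by
    have := congrArg norm h2
    rwa [norm_mul, norm_mul, norm_mul, norm_mul, norm_real, Real.norm_of_nonneg Real.pi_pos.le]
      at this
  have hM1 := hM z hz1 hz2
  have hM0 : 0 ≤ M := (norm_nonneg _).trans hM1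
  have h4 : ‖A‖ * ‖B‖ ≤ (C₁ * C₂) * Real.exp (-(2 * θ * |z.im|)) := by
    calc ‖A‖ * ‖B‖ ≤ (C₁ * Real.exp (-(θ * |z.im|))) * (C₂ * Real.exp (-(θ * |z.im|))) :=
          mul_le_mul hA1 hB1 (norm_nonneg _) (mul_nonneg hC₁0 (Real.exp_pos _).le)
      _ = (C₁ * C₂) * (Real.exp (-(θ * |z.im|)) * Real.exp (-(θ * |z.im|))) := by ring
      _ = _ := by
          rw [← Real.exp_add]
          congr 2
          ring
  have h5 : ‖Lz s q ν c z‖ * (Real.pi * ‖g‖) ≤
      M * ((C₁ * C₂) * Real.exp (-(2 * θ * |z.im|))) := by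
    rw [h3]
    exact mul_le_mul hM1 h4 (mul_nonneg (norm_nonneg _) (norm_nonneg _)) hM0
  rw [div_mul_eq_mul_div, le_div_iff₀ hnorm]
  calc ‖Lz s q ν c z‖ * (Real.pi * ‖g‖) ≤ _ := h5
    _ = _ := by ring

theorem lz_dec (S : IQ s) {q : ℕ} {ν : ℂ} (had : Ad q ν) {c c' : K → ℂ} (h : DP s q ν c c')
    {θ : ℝ} (h0 : 0 ≤ θ) (hθ : θ < Real.pi / 2) (x y : ℝ) : ∃ C : ℝ, ∀ z : ℂ,
      x ≤ z.re → z.re ≤ y → ‖Lz s q ν c z‖ ≤ C * Real.exp (-(2 * θ * |z.im|)) := by
  obtain ⟨C, hC⟩ := ma_dec_right S had h h0 hθ (Y := max 1 y) (le_max_left _ _)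
  obtain ⟨C', hC'⟩ := ma_dec_right S had (dp_symm h) h0 hθ (Y := max 1 (1 - x)) (le_max_left _ _)
  refine ⟨max C C', fun z hx hy => ?_⟩
  rcases le_total (1 / 2) z.re with hz | hz
  · exact (hC z hz (hy.trans (le_max_right _ _))).trans
      (mul_le_mul_of_nonneg_right (le_max_left _ _) (Real.exp_pos _).le)
  · have hre : (1 - z).re = 1 - z.re := by simp
    have him : (1 - z).im = -z.im := by simp
    have h1 := hC' (1 - z) (by rw [hre]; linarith)
      (by rw [hre]; exact le_trans (by linarith) (le_max_right _ _))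
    have h2 := lz_fe S had h (1 - z)
    rw [sub_sub_cancel] at h2
    rw [him, abs_neg] at h1
    rw [h2, norm_mul, norm_pow, norm_neg, norm_one, one_pow, one_mul]
    exact h1.trans (mul_le_mul_of_nonneg_right (le_max_right _ _) (Real.exp_pos _).le)

end Pool.Agent.HI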