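import Pool.Agent.Lib_helper25.HIF.DX
import Pool.Agent.Lib_helper25.HIF.MI

/-! HI, block MS: the mean square -/

namespace Pool.Agent.HI
open NumberField Complex MeasureTheory Set Filter Topology

/-- the product measure of the rays -/
noncomputable def msMu : Measure (ℂ × ℝ) :=
  (volume : Measure ℂ).prod (volume.restrict (Set.Ioi (0 : ℝ)))

theorem ms_mu : msMu = (volume : Measure (ℂ × ℝ)).restrict (Set.univ ×ˢ Set.Ioi (0 : ℝ)) := by
  unfold msMu
  rw [Measure.volume_eq_prod, ← Measure.prod_restrict, Measure.restrict_univ]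

theorem ms_sf : SFinite msMu := by unfold msMu; infer_instance

theorem ms_ae : ∀ᵐ p ∂msMu, 0 < p.2 := by
  rw [ms_mu]
  refine (ae_restrict_iff' (MeasurableSet.univ.prod measurableSet_Ioi)).2 ?_
  exact Eventually.of_forall fun p hp => hp.2

/-- the integral over `y` -/
theorem ms_y {η : ℝ} (hη : 0 < η) (a : ℝ) :
    IntegrableOn (fun y : ℝ => y⁻¹ * (√(Real.pi / η) *
      Real.exp (-((a + 2 * Real.log y) ^ 2 / (4 * η))))) (Set.Ioi 0) ∧
    ∫ y in Set.Ioi (0 : ℝ), y⁻¹ * (√(Real.pi / η) *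
      Real.exp (-((a + 2 * Real.log y) ^ 2 / (4 * η)))) = Real.pi := by
  have himg : Real.exp '' Set.univ = Set.Ioi 0 := by rw [Set.image_univ, Real.range_exp]
  have hder : ∀ x ∈ (Set.univ : Set ℝ), HasDerivWithinAt Real.exp (Real.exp x) Set.univ x :=
    fun x _ => (Real.hasDerivAt_exp x).hasDerivWithinAt
  have hinj : Set.InjOn Real.exp Set.univ := Real.exp_injective.injOn
  set g : ℝ → ℝ := fun y => y⁻¹ * (√(Real.pi / η) *
      Real.exp (-((a + 2 * Real.log y) ^ 2 / (4 * η)))) with hg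
  have hfun : (fun x : ℝ => |Real.exp x| • g (Real.exp x)) =
      fun x : ℝ => √(Real.pi / η) * Real.exp (-(1 / η) * (x + a / 2) ^ 2) := by
    funext x
    rw [hg, abs_of_pos (Real.exp_pos x)]
    simp only [Real.log_exp, smul_eq_mul]
    rw [← mul_assoc, mul_inv_cancel₀ (Real.exp_pos x).ne', one_mul]
    congr 2
    field_simp
    ring
  have h1 : Integrable (fun x : ℝ => Real.exp (-(1 / η) * x ^ 2)) :=
    integrable_exp_neg_mul_sq (by positivity)
  have h2 : Integrable (fun x : ℝ => √(Real.pi / η) * Real.exp (-(1 / η) * (x + a / 2) ^ 2)) :=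
    (h1.comp_add_right (a / 2)).const_mul _
  constructor
  · rw [← himg, integrableOn_image_iff_integrableOn_abs_deriv_smul MeasurableSet.univ hder hinj,
      hfun, integrableOn_univ]
    exact h2
  · rw [← himg, integral_image_eq_integral_abs_deriv_smul MeasurableSet.univ hder hinj, hfun,
      setIntegral_univ, integral_const_mul,
      integral_add_right_eq_self (fun x : ℝ => Real.exp (-(1 / η) * x ^ 2)) (a / 2),
      integral_gaussian, ← Real.sqrt_mul (by positivity)]
    have e : Real.pi / η * (Real.pi / (1 / η)) = Real.pi ^ 2 := by field_simp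
    rw [e, Real.sqrt_sq Real.pi_pos.le]

/-- the integral over `v` -/
theorem ms_v {σ : ℝ} (hσ : 1 < σ) :
    Integrable (fun v : ℂ => (1 + normSq v) ^ (-σ)) ∧
    ∫ v : ℂ, (1 + normSq v) ^ (-σ) = Real.pi / (σ - 1) := by
  have e : (fun v : ℂ => (1 + normSq v) ^ (-σ)) = fun v : ℂ => (1 + ‖v‖ ^ 2) ^ (-(2 * σ) / 2) := by
    funext v
    rw [normSq_eq_norm_sq]
    congr 1
    ring
  constructor
  · rw [e]
    exact integrable_rpow_neg_one_add_norm_sq (by
      rw [Complex.finrank_real_complex]; push_cast; linarith)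
  · have e2 : (fun v : ℂ => (1 + normSq v) ^ (-σ)) =
        fun v : ℂ => (fun r : ℝ => (1 + r ^ 2) ^ (-σ)) ‖v‖ := by
      funext v
      rw [normSq_eq_norm_sq]
    rw [e2, integral_fun_norm_addHaar (volume : Measure ℂ) (fun r : ℝ => (1 + r ^ 2) ^ (-σ)),
      Complex.finrank_real_complex]
    have hvol : (volume : Measure ℂ).real (Metric.ball 0 1) = Real.pi := by
      rw [Measure.real, Complex.volume_ball]
      simp
    rw [hvol]
    have h1 : ∫ y in Set.Ioi (0 : ℝ), y ^ (2 - 1) • (1 + y ^ 2) ^ (-σ) = 1 / (2 * (σ - 1)) := by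
      have hσ1 : σ - 1 ≠ 0 := by linarith
      have h2 := integral_Ioi_of_hasDerivAt_of_nonneg'
        (g := fun y : ℝ => -((1 + y ^ 2) ^ (-(σ - 1)) / (2 * (σ - 1))))
        (g' := fun y : ℝ => y ^ (2 - 1) • (1 + y ^ 2) ^ (-σ)) (a := 0) (l := 0)
        (fun y _ => by
          have h3 : HasDerivAt (fun y : ℝ => 1 + y ^ 2) (2 * y) y := by
            simpa using (hasDerivAt_pow 2 y).const_add 1
          have hpos : 0 < 1 + y ^ 2 := by positivity
          have h4 := ((h3.rpow_const (p := -(σ - 1)) (Or.inl hpos.ne')).div_const (2 * (σ - 1))).neg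
          refine h4.congr_deriv ?_
          have e3 : -(σ - 1) - 1 = -σ := by ring
          rw [e3]
          simp only [smul_eq_mul]
          field_simp
          norm_num)
        (fun y hy => by
          have : (0 : ℝ) < y := hy
          simp only [smul_eq_mul]
          positivity)
        (by
          have h5 : Tendsto (fun y : ℝ => 1 + y ^ 2) atTop atTop :=
            tendsto_atTop_add_const_left _ _ (tendsto_pow_atTop (by norm_num))
          have h6 := (tendsto_rpow_neg_atTop (y := σ - 1) (by linarith)).comp h5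
          have h7 := (h6.div_const (2 * (σ - 1))).neg
          simpa using h7)
      rw [h2]
      simp
    rw [h1]
    simp only [nsmul_eq_mul, smul_eq_mul]
    have hσ1 : σ - 1 ≠ 0 := by linarith
    push_cast
    field_simp

/-- `log ((1 + |v|²) y²)` -/
noncomputable def msL (p : ℂ × ℝ) : ℝ := Real.log (1 + normSq p.1) + 2 * Real.log p.2

theorem msL_meas : Measurable msL := by
  unfold msL
  exact (Real.measurable_log.comp (measurable_const.add
    (continuous_normSq.measurable.comp measurable_fst))).add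
      (measurable_const.mul (Real.measurable_log.comp measurable_snd))

/-- the dominating function -/
noncomputable def msD (σ η δ : ℝ) (p : ℂ × ℝ) : ℝ :=
  (1 + normSq p.1) ^ (-σ) *
    (p.2⁻¹ * (√(Real.pi / η) * Real.exp (-((msL p + δ) ^ 2 / (4 * η)))))

theorem msD_meas (σ η δ : ℝ) : Measurable (msD σ η δ) := by
  unfold msD
  apply Measurable.mul
  · exact (measurable_const.add (continuous_normSq.measurable.comp measurable_fst)).pow_const _
  · apply Measurable.mul measurable_snd.inv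
    apply Measurable.mul measurable_const
    exact Real.measurable_exp.comp (((msL_meas.add_const δ).pow_const 2).div_const _).neg

theorem msD_int {σ η : ℝ} (δ : ℝ) (hσ : 1 < σ) (hη : 0 < η) :
    Integrable (msD σ η δ) msMu ∧ ∫ p, msD σ η δ p ∂msMu = Real.pi ^ 2 / (σ - 1) := by
  have := ms_sf
  have hy : ∀ v : ℂ, IntegrableOn (fun y : ℝ => msD σ η δ (v, y)) (Set.Ioi 0) ∧
      ∫ y in Set.Ioi (0 : ℝ), msD σ η δ (v, y) = (1 + normSq v) ^ (-σ) * Real.pi := by
    intro v
    have h := ms_y hη (Real.log (1 + normSq v) + δ)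
    have e : (fun y : ℝ => msD σ η δ (v, y)) = fun y : ℝ => (1 + normSq v) ^ (-σ) *
        (y⁻¹ * (√(Real.pi / η) * Real.exp
          (-((Real.log (1 + normSq v) + δ + 2 * Real.log y) ^ 2 / (4 * η))))) := by
      funext y
      unfold msD msL
      simp only
      congr 6
      ring
    rw [e]
    constructor
    · exact h.1.const_mul ((1 + normSq v) ^ (-σ))
    · rw [integral_const_mul, h.2]
  have hv := ms_v hσ
  have hint : Integrable (msD σ η δ) msMu := by
    unfold msMu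
    rw [integrable_prod_iff (msD_meas σ η δ).aestronglyMeasurable]
    refine ⟨Eventually.of_forall fun v => (hy v).1, ?_⟩
    have e : (fun v : ℂ => ∫ y, ‖msD σ η δ (v, y)‖ ∂(volume.restrict (Set.Ioi (0 : ℝ)))) =
        fun v : ℂ => (1 + normSq v) ^ (-σ) * Real.pi := by
      funext v
      rw [← (hy v).2]
      refine setIntegral_congr_fun measurableSet_Ioi fun y hy' => ?_
      have hy0 : (0 : ℝ) < y := hy'
      have hq : 0 < 1 + normSq v := by have := normSq_nonneg v; linarith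
      rw [Real.norm_of_nonneg]
      unfold msD
      simp only
      positivity
    rw [e]
    exact hv.1.mul_const _
  refine ⟨hint, ?_⟩
  unfold msMu at hint ⊢
  rw [integral_prod _ hint]
  have e : (fun v : ℂ => ∫ y, msD σ η δ (v, y) ∂(volume.restrict (Set.Ioi (0 : ℝ)))) =
      fun v : ℂ => (1 + normSq v) ^ (-σ) * Real.pi := funext fun v => (hy v).2
  rw [e, integral_mul_const, hv.2]
  ring

theorem ms_mf {f : ℂ × ℝ → ℂ} (a : ℕ) (σ t : ℝ) {p : ℂ × ℝ} (hp : 0 < p.2) :
    mf f a σ (1 / 2 + t * I) p = mf f a σ (1 / 2) p * cexp (I * (msL p : ℂ) * t) := by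
  have hq : 0 < 1 + normSq p.1 := by have := normSq_nonneg p.1; linarith
  have hq' : ((1 + normSq p.1 : ℝ) : ℂ) ≠ 0 := by exact_mod_cast hq.ne'
  have hp' : ((p.2 : ℝ) : ℂ) ≠ 0 := by exact_mod_cast hp.ne'
  unfold mf
  rw [mul_assoc, mul_assoc]
  congr 2
  rw [Complex.cpow_def_of_ne_zero hq', Complex.cpow_def_of_ne_zero hp',
    Complex.cpow_def_of_ne_zero hq', Complex.cpow_def_of_ne_zero hp', ← Complex.exp_add,
    ← Complex.exp_add, ← Complex.exp_add, ← Complex.ofReal_log hq.le, ← Complex.ofReal_log hp.le]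
  congr 1
  unfold msL
  push_cast
  ring

/-- the norm along the rays -/
noncomputable def msF (f : ℂ × ℝ → ℂ) (p : ℂ × ℝ) : ℝ := ‖f ((p.2 : ℂ) * p.1, p.2)‖

theorem ms_nm {f : ℂ × ℝ → ℂ} (a : ℕ) (σ : ℝ) {p : ℂ × ℝ} (hp : 0 < p.2) :
    ‖mf f a σ (1 / 2) p‖ ≤ msF f p * ((1 + normSq p.1) ^ (-σ) * p.2⁻¹) := by
  have hq : 0 < 1 + normSq p.1 := by have := normSq_nonneg p.1; linarith
  unfold mf
  rw [norm_mul, norm_mul, norm_mul, Complex.norm_cpow_eq_rpow_re_of_pos hq,
    Complex.norm_cpow_eq_rpow_re_of_pos hp, norm_pow]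
  have e1 : ((1 / 2 : ℂ) - 1 / 2 - σ - a / 2).re = -σ + -((a : ℝ) / 2) := by
    have : ((1 / 2 : ℂ) - 1 / 2 - σ - a / 2) = ((-σ + -((a : ℝ) / 2) : ℝ) : ℂ) := by
      push_cast; ring
    rw [this, ofReal_re]
  have e2 : (2 * (1 / 2 : ℂ) - 2).re = -1 := by norm_num
  rw [e1, e2, Real.rpow_neg_one, Real.rpow_add hq, Real.rpow_neg hq.le ((a : ℝ) / 2)]
  have h1 : ‖p.1‖ ^ a ≤ (1 + normSq p.1) ^ ((a : ℝ) / 2) := by
    have e3 : ‖p.1‖ ^ a = (normSq p.1) ^ ((a : ℝ) / 2) := by
      rw [normSq_eq_norm_sq, ← Real.rpow_natCast ‖p.1‖ 2, ← Real.rpow_mul (norm_nonneg _),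
        ← Real.rpow_natCast ‖p.1‖ a]
      congr 1
      push_cast
      ring
    rw [e3]
    exact Real.rpow_le_rpow (normSq_nonneg _) (by linarith) (by positivity)
  have h2 : 0 < (1 + normSq p.1) ^ ((a : ℝ) / 2) := Real.rpow_pos_of_pos hq _
  have h3 : ‖p.1‖ ^ a * (((1 + normSq p.1) ^ (-σ) * ((1 + normSq p.1) ^ ((a : ℝ) / 2))⁻¹) *
      p.2⁻¹) ≤ (1 + normSq p.1) ^ (-σ) * p.2⁻¹ := by
    have h4 : ‖p.1‖ ^ a * ((1 + normSq p.1) ^ ((a : ℝ) / 2))⁻¹ ≤ 1 := by
      rw [← div_eq_mul_inv, div_le_one h2]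
      exact h1
    have h5 : 0 ≤ (1 + normSq p.1) ^ (-σ) * p.2⁻¹ := by positivity
    calc ‖p.1‖ ^ a * (((1 + normSq p.1) ^ (-σ) * ((1 + normSq p.1) ^ ((a : ℝ) / 2))⁻¹) * p.2⁻¹)
        = (‖p.1‖ ^ a * ((1 + normSq p.1) ^ ((a : ℝ) / 2))⁻¹) *
          ((1 + normSq p.1) ^ (-σ) * p.2⁻¹) := by ring
      _ ≤ 1 * ((1 + normSq p.1) ^ (-σ) * p.2⁻¹) := mul_le_mul_of_nonneg_right h4 h5
      _ = _ := one_mul _
  exact mul_le_mul_of_nonneg_left h3 (norm_nonneg _)

theorem msF_meas {f : ℂ × ℝ → ℂ} (hf : ContinuousOn f {p | 0 < p.2}) :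
    AEStronglyMeasurable (msF f) msMu := by
  rw [ms_mu]
  have h1 : ContinuousOn (fun p : ℂ × ℝ => f ((p.2 : ℂ) * p.1, p.2))
      (Set.univ ×ˢ Set.Ioi (0 : ℝ)) := by
    have h2 : Continuous (fun p : ℂ × ℝ => (((p.2 : ℂ) * p.1, p.2) : ℂ × ℝ)) := by fun_prop
    exact hf.comp h2.continuousOn fun p hp => hp.2
  exact h1.norm.aestronglyMeasurable (MeasurableSet.univ.prod measurableSet_Ioi)

/-- the integrability over `y` -/
theorem ms_yint {ε : ℝ} (h0 : 0 < ε) (h1 : ε < 1) :
    IntegrableOn (fun y : ℝ => y ^ (ε - 1) * min 1 (y⁻¹)) (Set.Ioi 0) := by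
  rw [← Set.Ioc_union_Ioi_eq_Ioi zero_le_one]
  apply IntegrableOn.union
  · have h2 : IntegrableOn (fun y : ℝ => y ^ (ε - 1)) (Set.Ioc 0 1) :=
      (intervalIntegrable_iff_integrableOn_Ioc_of_le zero_le_one).1
        (intervalIntegral.intervalIntegrable_rpow' (by linarith))
    refine h2.congr_fun (fun y hy => ?_) measurableSet_Ioc
    simp only
    rw [min_eq_left ((one_le_inv₀ hy.1).2 hy.2), mul_one]
  · have h2 : IntegrableOn (fun y : ℝ => y ^ (ε - 2)) (Set.Ioi 1) :=
      integrableOn_Ioi_rpow_of_lt (by linarith) zero_lt_one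
    refine h2.congr_fun (fun y hy => ?_) measurableSet_Ioi
    have hy1 : (1 : ℝ) < y := hy
    have hy0 : 0 < y := by linarith
    simp only
    rw [min_eq_right (inv_le_one_of_one_le₀ hy1.le), ← Real.rpow_neg_one, ← Real.rpow_add hy0]
    congr 1
    ring

/-- the square of `f` along the rays is integrable -/
theorem ms_F {f : ℂ × ℝ → ℂ} (hf : Ray f) {σ : ℝ} (hσ : 1 < σ) :
    Integrable (fun p : ℂ × ℝ => msF f p ^ 2 * ((1 + normSq p.1) ^ (-σ) * p.2⁻¹)) msMu := by
  have := ms_sf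
  obtain ⟨C₀, hC₀, hb₀⟩ := hf.bd 0
  obtain ⟨C₁, hC₁, hb₁⟩ := hf.bd 1
  obtain ⟨ε, he0, he1, heσ⟩ : ∃ ε : ℝ, 0 < ε ∧ ε < 1 ∧ 1 < σ - ε := by
    refine ⟨min ((σ - 1) / 2) (1 / 2), ?_, ?_, ?_⟩
    · exact lt_min (by linarith) (by norm_num)
    · exact (min_le_right _ _).trans_lt (by norm_num)
    · have := min_le_left ((σ - 1) / 2) (1 / 2)
      linarith
  have hdom : Integrable (fun p : ℂ × ℝ => (C₀ + C₁) ^ 2 * ((1 + normSq p.1) ^ (-(σ - ε)) *
      (p.2 ^ (ε - 1) * min 1 (p.2⁻¹)))) msMu := by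
    have h1 : Integrable (fun y : ℝ => y ^ (ε - 1) * min 1 (y⁻¹))
      (volume.restrict (Set.Ioi (0 : ℝ))) := ms_yint he0 he1
    have h2 := (ms_v heσ).1.mul_prod h1
    exact h2.const_mul _
  refine hdom.mono' ?_ ?_
  · apply AEStronglyMeasurable.mul
    · exact (msF_meas hf.cont).pow 2
    · apply Measurable.aestronglyMeasurable
      apply Measurable.mul
      · exact (measurable_const.add
          (continuous_normSq.measurable.comp measurable_fst)).pow_const _
      · exact measurable_snd.inv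
  · filter_upwards [ms_ae] with p hp
    have hq1 : 1 ≤ 1 + normSq p.1 := by have := normSq_nonneg p.1; linarith
    have hq : 0 < 1 + normSq p.1 := by linarith
    have hF0 : 0 ≤ msF f p := norm_nonneg _
    have a0 : msF f p ≤ C₀ := by
      refine (hb₀ p.1 p.2 hp).1.trans ?_
      simp
    have a1 : msF f p ≤ C₁ * p.2⁻¹ := by
      refine (hb₁ p.1 p.2 hp).1.trans ?_
      simp
    have a2 : msF f p ≤ C₁ * (p.2 * (1 + normSq p.1)) := by
      refine (hb₁ p.1 p.2 hp).2.trans ?_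
      simp
    have hi : 0 < p.2⁻¹ := inv_pos.2 hp
    have b1 : msF f p ≤ (C₀ + C₁) * min 1 (p.2⁻¹) := by
      rcases min_cases (1 : ℝ) (p.2⁻¹) with ⟨h, -⟩ | ⟨h, -⟩
      · rw [h]; linarith
      · rw [h]; nlinarith
    have hx : 0 < p.2 * (1 + normSq p.1) := by positivity
    have b2 : msF f p ≤ (C₀ + C₁) * (p.2 * (1 + normSq p.1)) ^ ε := by
      rcases le_total (p.2 * (1 + normSq p.1)) 1 with h | h
      · have h3 : p.2 * (1 + normSq p.1) ≤ (p.2 * (1 + normSq p.1)) ^ ε := by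
          have := Real.rpow_le_rpow_of_exponent_ge hx h he1.le
          rwa [Real.rpow_one] at this
        have h4 : 0 ≤ (p.2 * (1 + normSq p.1)) ^ ε := by positivity
        nlinarith
      · have h3 : 1 ≤ (p.2 * (1 + normSq p.1)) ^ ε := Real.one_le_rpow h he0.le
        nlinarith
    rw [Real.norm_of_nonneg (by positivity)]
    have hm : 0 ≤ min 1 (p.2⁻¹) := le_min zero_le_one hi.le
    calc msF f p ^ 2 * ((1 + normSq p.1) ^ (-σ) * p.2⁻¹)
        = (msF f p * msF f p) * ((1 + normSq p.1) ^ (-σ) * p.2⁻¹) := by ring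
      _ ≤ (((C₀ + C₁) * (p.2 * (1 + normSq p.1)) ^ ε) * ((C₀ + C₁) * min 1 (p.2⁻¹))) *
          ((1 + normSq p.1) ^ (-σ) * p.2⁻¹) := by
          apply mul_le_mul_of_nonneg_right _ (by positivity)
          exact mul_le_mul b2 b1 hF0 (by positivity)
      _ = (C₀ + C₁) ^ 2 * ((1 + normSq p.1) ^ (-(σ - ε)) *
          (p.2 ^ (ε - 1) * min 1 (p.2⁻¹))) := by
          have e1 : (1 + normSq p.1) ^ (-(σ - ε)) =
              (1 + normSq p.1) ^ (-σ) * (1 + normSq p.1) ^ ε := by
            rw [← Real.rpow_add hq]; congr 1; ring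
          have e2 : p.2 ^ (ε - 1) = p.2 ^ ε * p.2⁻¹ := by
            rw [← Real.rpow_neg_one, ← Real.rpow_add hp]; congr 1
          rw [e1, e2, Real.mul_rpow hp.le hq.le]
          ring

/-- the majorant of the double integral -/
noncomputable def msH (f : ℂ × ℝ → ℂ) (σ η : ℝ) (x : (ℂ × ℝ) × (ℂ × ℝ)) : ℝ :=
  msF f x.1 ^ 2 * ((1 + normSq x.1.1) ^ (-σ) * x.1.2⁻¹) * msD σ η (-msL x.1) x.2

theorem msH_int {f : ℂ × ℝ → ℂ} (hf : Ray f) {σ η : ℝ} (hσ : 1 < σ) (hη : 0 < η) :
    Integrable (msH f σ η) (msMu.prod msMu) ∧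
    ∫ x, msH f σ η x ∂(msMu.prod msMu) = (∫ p, msF f p ^ 2 *
      ((1 + normSq p.1) ^ (-σ) * p.2⁻¹) ∂msMu) * (Real.pi ^ 2 / (σ - 1)) := by
  have := ms_sf
  have hF := ms_F hf hσ
  have hmeas : AEStronglyMeasurable (msH f σ η) (msMu.prod msMu) := by
    unfold msH
    apply AEStronglyMeasurable.mul
    · exact hF.aestronglyMeasurable.comp_fst
    · apply Measurable.aestronglyMeasurable
      unfold msD
      apply Measurable.mul
      · exact (measurable_const.add (continuous_normSq.measurable.comp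
          (measurable_fst.comp measurable_snd))).pow_const _
      · apply Measurable.mul (measurable_snd.comp measurable_snd).inv
        apply Measurable.mul measurable_const
        exact Real.measurable_exp.comp ((((msL_meas.comp measurable_snd).add
          (msL_meas.comp measurable_fst).neg).pow_const 2).div_const _).neg
  have hD0 : ∀ x : (ℂ × ℝ) × (ℂ × ℝ), 0 < x.2.2 → 0 ≤ msD σ η (-msL x.1) x.2 := by
    intro x hx
    have hq : 0 < 1 + normSq x.2.1 := by have := normSq_nonneg x.2.1; linarith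
    unfold msD
    positivity
  have hint : Integrable (msH f σ η) (msMu.prod msMu) := by
    rw [integrable_prod_iff hmeas]
    refine ⟨Eventually.of_forall fun p => ?_, ?_⟩
    · exact (msD_int (-msL p) hσ hη).1.const_mul
        (msF f p ^ 2 * ((1 + normSq p.1) ^ (-σ) * p.2⁻¹))
    · refine (hF.mul_const (Real.pi ^ 2 / (σ - 1))).congr ?_
      filter_upwards [ms_ae] with p hp
      rw [← (msD_int (-msL p) hσ hη).2, ← integral_const_mul]
      apply integral_congr_ae
      filter_upwards [ms_ae] with p' hp'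
      have hq : 0 < 1 + normSq p.1 := by have := normSq_nonneg p.1; linarith
      have h1 := hD0 (p, p') hp'
      simp only at h1
      unfold msH
      simp only
      rw [Real.norm_of_nonneg (by positivity)]
  refine ⟨hint, ?_⟩
  rw [integral_prod _ hint, ← integral_mul_const]
  apply integral_congr_ae
  filter_upwards with p
  unfold msH
  simp only
  rw [integral_const_mul, (msD_int (-msL p) hσ hη).2]

theorem mz_sq {f : ℂ × ℝ → ℂ} (hf : Ray f) {a : ℕ} (ha : a ≤ 1) {σ : ℝ} (hσ : 1 < σ) :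
    ∃ C : ℝ, 0 ≤ C ∧ ∀ η : ℝ, 0 < η →
      Integrable (fun t : ℝ => ‖Mz f a σ (1 / 2 + t * I)‖ ^ 2 * Real.exp (-(η * t ^ 2))) ∧
      ∫ t : ℝ, ‖Mz f a σ (1 / 2 + t * I)‖ ^ 2 * Real.exp (-(η * t ^ 2)) ≤ C := by
  have hpos : 0 ≤ ∫ p, msF f p ^ 2 * ((1 + normSq p.1) ^ (-σ) * p.2⁻¹) ∂msMu := by
    apply integral_nonneg_of_ae
    filter_upwards [ms_ae] with p hp
    have hq : 0 < 1 + normSq p.1 := by have := normSq_nonneg p.1; linarith
    simp only [Pi.zero_apply]
    positivity
  have hσ' : 0 < σ - 1 := by linarith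
  refine ⟨(∫ p, msF f p ^ 2 * ((1 + normSq p.1) ^ (-σ) * p.2⁻¹) ∂msMu) *
    (Real.pi ^ 2 / (σ - 1)), by positivity, fun η hη => ?_⟩
  have hmf : Integrable (mf f a σ (1 / 2)) msMu := by
    apply mz_int hf ha
    rw [ofReal_re]
    have e : ((1 / 2 : ℂ)).re - 1 / 2 = 0 := by norm_num
    rw [e, abs_zero]
    linarith
  have := ms_sf
  set g : ℂ × ℝ → ℂ := mf f a σ (1 / 2) with hgdef
  have hconj : Integrable (fun p => (starRingEnd ℂ) (g p)) msMu :=
    (Complex.conjCLE.toContinuousLinearMap.integrable_comp hmf)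
  have hgg : Integrable (fun x : (ℂ × ℝ) × (ℂ × ℝ) => g x.1 * (starRingEnd ℂ) (g x.2))
      (msMu.prod msMu) := hmf.mul_prod hconj
  -- the joint function
  set Φ : ℝ × ((ℂ × ℝ) × (ℂ × ℝ)) → ℂ := fun x =>
    cexp (I * ((msL x.2.1 - msL x.2.2 : ℝ) : ℂ) * x.1) *
    (((Real.exp (-η * x.1 ^ 2) : ℝ) : ℂ) * (g x.2.1 * (starRingEnd ℂ) (g x.2.2))) with hΦ
  have hg : Integrable (fun t : ℝ => ((Real.exp (-η * t ^ 2) : ℝ) : ℂ)) :=
    (integrable_exp_neg_mul_sq hη).ofReal
  have hΦi : Integrable Φ ((volume : Measure ℝ).prod (msMu.prod msMu)) := by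
    refine Integrable.bdd_mul (c := 1) (hg.mul_prod hgg) ?_ ?_
    · apply Measurable.aestronglyMeasurable
      apply Complex.measurable_exp.comp
      refine (measurable_const.mul (Complex.measurable_ofReal.comp ?_)).mul
          (Complex.measurable_ofReal.comp measurable_fst)
      exact (msL_meas.comp (measurable_fst.comp measurable_snd)).sub
        (msL_meas.comp (measurable_snd.comp measurable_snd))
    · refine Eventually.of_forall fun x => ?_
      have e : I * ((msL x.2.1 - msL x.2.2 : ℝ) : ℂ) * x.1 =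
          (((msL x.2.1 - msL x.2.2) * x.1 : ℝ) : ℂ) * I := by
        push_cast; ring
      rw [e, Complex.norm_exp_ofReal_mul_I]
  have hM : ∀ t : ℝ, Mz f a σ (1 / 2 + t * I) = ∫ p, g p * cexp (I * (msL p : ℂ) * t) ∂msMu := by
    intro t
    unfold Mz
    apply integral_congr_ae
    have h := ms_ae
    unfold msMu at h
    filter_upwards [h] with p hp
    rw [ms_mf a σ t hp]
  have h1 : ∀ t : ℝ, ∫ x, Φ (t, x) ∂(msMu.prod msMu) =
      ((‖Mz f a σ (1 / 2 + t * I)‖ ^ 2 * Real.exp (-(η * t ^ 2)) : ℝ) : ℂ) := by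
    intro t
    have h2 : ((‖Mz f a σ (1 / 2 + t * I)‖ ^ 2 : ℝ) : ℂ) =
        (∫ p, g p * cexp (I * (msL p : ℂ) * t) ∂msMu) *
        (∫ p, (starRingEnd ℂ) (g p * cexp (I * (msL p : ℂ) * t)) ∂msMu) := by
      rw [integral_conj, ← hM t, Complex.mul_conj, Complex.normSq_eq_norm_sq]
    rw [Complex.ofReal_mul, h2, ← integral_prod_mul, ← integral_mul_const]
    apply integral_congr_ae
    filter_upwards with x
    rw [hΦ]
    simp only
    have e : cexp (I * ((msL x.1 - msL x.2 : ℝ) : ℂ) * t) =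
        cexp (I * (msL x.1 : ℂ) * t) * (starRingEnd ℂ) (cexp (I * (msL x.2 : ℂ) * t)) := by
      rw [← Complex.exp_conj, ← Complex.exp_add]
      congr 1
      simp only [map_mul, Complex.conj_I, Complex.conj_ofReal]
      push_cast
      ring
    rw [e, map_mul, ← neg_mul]
    ring
  have h2 : ∀ x : (ℂ × ℝ) × (ℂ × ℝ), ∫ t : ℝ, Φ (t, x) = (g x.1 * (starRingEnd ℂ) (g x.2)) *
      ((√(Real.pi / η) * Real.exp (-((msL x.1 - msL x.2) ^ 2 / (4 * η))) : ℝ) : ℂ) := by
    intro x
    have h3 := fourierIntegral_gaussian (b := (η : ℂ)) (by rw [ofReal_re]; exact hη)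
      ((msL x.1 - msL x.2 : ℝ) : ℂ)
    have e : (fun t : ℝ => Φ (t, x)) = fun t : ℝ => (g x.1 * (starRingEnd ℂ) (g x.2)) *
        (cexp (I * ((msL x.1 - msL x.2 : ℝ) : ℂ) * t) * cexp (-(η : ℂ) * (t : ℂ) ^ 2)) := by
      funext t
      rw [hΦ]
      simp only
      push_cast
      ring
    rw [e, integral_const_mul, h3]
    congr 1
    push_cast
    congr 1
    · rw [Real.sqrt_eq_rpow, Complex.ofReal_cpow (by positivity)]
      push_cast
      rfl
    · congr 1
      ring
  have hint : Integrable (fun t : ℝ =>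
      ((‖Mz f a σ (1 / 2 + t * I)‖ ^ 2 * Real.exp (-(η * t ^ 2)) : ℝ) : ℂ)) := by
    have h3 := hΦi.integral_prod_left
    exact h3.congr (Eventually.of_forall h1)
  have hint' : Integrable (fun t : ℝ =>
      ‖Mz f a σ (1 / 2 + t * I)‖ ^ 2 * Real.exp (-(η * t ^ 2))) := by
    have h3 := hint.re
    exact h3.congr (Eventually.of_forall fun t => by simp only [RCLike.re_eq_complex_re, ofReal_re])
  refine ⟨hint', ?_⟩
  obtain ⟨hH, hH2⟩ := msH_int hf hσ hη
  have hHs : Integrable (fun x : (ℂ × ℝ) × (ℂ × ℝ) => msH f σ η x.swap) (msMu.prod msMu) :=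
    hH.swap
  have hswap : ∫ x : (ℂ × ℝ) × (ℂ × ℝ), msH f σ η x.swap ∂(msMu.prod msMu) =
      ∫ x, msH f σ η x ∂(msMu.prod msMu) := integral_prod_swap _
  have hae : ∀ᵐ x ∂(msMu.prod msMu), 0 < x.1.2 ∧ 0 < x.2.2 := by
    have h4 : ∀ᵐ x ∂(msMu.prod msMu), 0 < x.1.2 :=
      Measure.quasiMeasurePreserving_fst.ae ms_ae
    have h5 : ∀ᵐ x ∂(msMu.prod msMu), 0 < x.2.2 :=
      Measure.quasiMeasurePreserving_snd.ae ms_ae
    filter_upwards [h4, h5] with x h6 h7 using ⟨h6, h7⟩
  have hgb : ∀ p : ℂ × ℝ, 0 < p.2 →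
      ‖g p‖ ≤ msF f p * ((1 + normSq p.1) ^ (-σ) * p.2⁻¹) := by
    intro p hp
    exact ms_nm a σ hp
  calc ∫ t : ℝ, ‖Mz f a σ (1 / 2 + t * I)‖ ^ 2 * Real.exp (-(η * t ^ 2))
      = ‖((∫ t : ℝ, ‖Mz f a σ (1 / 2 + t * I)‖ ^ 2 * Real.exp (-(η * t ^ 2)) : ℝ) : ℂ)‖ := by
        rw [Complex.norm_real, Real.norm_of_nonneg]
        exact integral_nonneg fun t => by positivity
    _ = ‖∫ x, (g x.1 * (starRingEnd ℂ) (g x.2)) *
      ((√(Real.pi / η) * Real.exp (-((msL x.1 - msL x.2) ^ 2 / (4 * η))) : ℝ) : ℂ)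
        ∂(msMu.prod msMu)‖ := by
        congr 1
        rw [← integral_complex_ofReal]
        simp_rw [← h1, ← h2]
        exact integral_integral_swap (f := fun t x => Φ (t, x)) hΦi
    _ ≤ ∫ x, (1 / 2 * (msH f σ η x + msH f σ η x.swap)) ∂(msMu.prod msMu) := by
        apply norm_integral_le_of_norm_le ((hH.add hHs).const_mul _)
        filter_upwards [hae] with x hx
        rw [Pi.add_apply]
        rw [norm_mul, norm_mul, RCLike.norm_conj, Complex.norm_real,
          Real.norm_of_nonneg (by positivity)]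
        have a1 := hgb x.1 hx.1
        have a2 := hgb x.2 hx.2
        have hq1 : 0 < 1 + normSq x.1.1 := by have := normSq_nonneg x.1.1; linarith
        have hq2 : 0 < 1 + normSq x.2.1 := by have := normSq_nonneg x.2.1; linarith
        have hF1 : 0 ≤ msF f x.1 := norm_nonneg _
        have hF2 : 0 ≤ msF f x.2 := norm_nonneg _
        have hx1 := hx.1
        have hx2 := hx.2
        set E : ℝ := √(Real.pi / η) * Real.exp (-((msL x.1 - msL x.2) ^ 2 / (4 * η))) with hE
        have hE0 : 0 ≤ E := by positivity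
        set U : ℝ := (1 + normSq x.1.1) ^ (-σ) * x.1.2⁻¹ with hU
        set V : ℝ := (1 + normSq x.2.1) ^ (-σ) * x.2.2⁻¹ with hV
        have hU0 : 0 ≤ U := by positivity
        have hV0 : 0 ≤ V := by positivity
        have e1 : msH f σ η x = msF f x.1 ^ 2 * (U * V * E) := by
          unfold msH msD
          have e : (msL x.2 + -msL x.1) ^ 2 = (msL x.1 - msL x.2) ^ 2 := by ring
          rw [e, hU, hV, hE]
          ring
        have e2 : msH f σ η x.swap = msF f x.2 ^ 2 * (U * V * E) := by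
          unfold msH msD
          simp only [Prod.fst_swap, Prod.snd_swap]
          have e : (msL x.1 + -msL x.2) ^ 2 = (msL x.1 - msL x.2) ^ 2 := by ring
          rw [e, hU, hV, hE]
          ring
        rw [e1, e2]
        calc ‖g x.1‖ * ‖g x.2‖ * E ≤ (msF f x.1 * U) * (msF f x.2 * V) * E := by
              apply mul_le_mul_of_nonneg_right _ hE0
              exact mul_le_mul a1 a2 (norm_nonneg _) (by positivity)
          _ = (msF f x.1 * msF f x.2) * (U * V * E) := by ring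
          _ ≤ (1 / 2 * (msF f x.1 ^ 2 + msF f x.2 ^ 2)) * (U * V * E) := by
              apply mul_le_mul_of_nonneg_right _ (by positivity)
              nlinarith [sq_nonneg (msF f x.1 - msF f x.2)]
          _ = _ := by ring
    _ = _ := by
        rw [integral_const_mul, integral_add hH hHs, hswap, hH2]
        ring

end Pool.Agent.HI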