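import Pool.Agent.Lib_helper25.HIF.DX
import Pool.Agent.Lib_helper25.HIF.GD
import Pool.Agent.Lib_helper25.HIF.K0
import Pool.Agent.Lib_helper25.HIF.K2
import Pool.Agent.Lib_helper25.HIF.LY
import Pool.Agent.Lib_helper25.HIF.MA
import Pool.Agent.Lib_helper25.HIF.MG
import Pool.Agent.Lib_helper25.HIF.MH
import Pool.Agent.Lib_helper25.HIF.MI
import Pool.Agent.Lib_helper25.HIF.MS

/-!
# Project HI: block ST
-/

namespace Pool.Agent.HI
open NumberField Complex MeasureTheory Set Filter Topology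
open Pool.Agent.HB (Kb Adm)
open Pool.Agent.H4 (ml atl FunBd vcf)

variable {K : Type} [Field K] [NumberField K] {s : K →+* ℂ}

theorem lt_cont (S : IQ s) {q : ℕ} {ν : ℂ} (had : Ad q ν) {ι : Type} [Fintype ι]
    {c c' : ι → K → ℂ} (h : ∀ k, DP s q ν (c k) (c' k)) (β δ : ι → ℝ) :
    Differentiable ℂ (Lt s q ν β δ c) := by
  unfold Lt
  refine Differentiable.fun_sum fun k _ => ?_
  have h1 := lz_diff S had (h k)
  exact ((differentiable_const _).mul
    ((differentiable_const _).mul differentiable_id).cexp).mul h1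

/-- the kernel times the L-function is an integral over the rays -/
theorem st_formula (S : IQ s) {q : ℕ} {ν : ℂ} (had : Ad q ν) {c c' : K → ℂ} (h : DP s q ν c c')
    {i : ℕ} (hi : i ≤ 1) {G : ℝ → ℂ} {g : ℝ} (hg : 0 < g)
    (hG : ∀ ε : ℝ, 0 < ε → ε ≤ 1 / 2 → g ≤ ‖G ε‖)
    (hk : ∀ ε t : ℝ, 0 < ε → ε ≤ 1 / 2 →
      kp q ν i ((1 + ε : ℝ) : ℂ) (1 / 2 + t * I) = G ε * kn q ν i ε t)
    {ε : ℝ} (h0 : 0 < ε) (h1 : ε ≤ 1 / 2) (t : ℝ) :
    kn q ν i ε t * Lz s q ν c (1 / 2 + t * I) =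
      (G ε)⁻¹ * Mz (cp s q ν c i) i ((1 + ε : ℝ) : ℂ) (1 / 2 + t * I) := by
  have hne : G ε ≠ 0 := by
    intro h2
    have := hG ε h0 h1
    rw [h2, norm_zero] at this
    linarith
  have hre : ((1 / 2 : ℂ) + t * I).re = 1 / 2 := by simp
  rw [mz_all S had h hi (σ := 1 + ε) (z := 1 / 2 + t * I) (by rw [hre]) (by rw [hre]; linarith),
    hk ε t h0 h1]
  field_simp

/-- the coefficients -/
noncomputable def st_bk {ι : Type} (β δ : ι → ℝ) (k : ι) : ℝ := β k * Real.exp (δ k / 2)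

omit [NumberField K] in
theorem st_sum {q : ℕ} {ν : ℂ} {ι : Type} [Fintype ι] {c : ι → K → ℂ} (β δ : ι → ℝ) (x : ℂ)
    (t : ℝ) : x * Lt s q ν β δ c (1 / 2 + t * I) =
      ∑ k, (st_bk β δ k : ℂ) * (cexp ((δ k * t : ℝ) * I) *
        (x * Lz s q ν (c k) (1 / 2 + t * I))) := by
  unfold Lt st_bk
  rw [Finset.mul_sum]
  refine Finset.sum_congr rfl fun k _ => ?_
  have h1 : cexp (δ k * (1 / 2 + t * I)) = (Real.exp (δ k / 2) : ℂ) * cexp ((δ k * t : ℝ) * I) := by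
    rw [ofReal_exp, ← Complex.exp_add]
    congr 1
    push_cast
    ring
  rw [h1]
  push_cast
  ring

theorem st_mz_norm_bd {f : ℂ × ℝ → ℂ} (hf : Ray f) {i : ℕ} (hi : i ≤ 1) {ε : ℝ} (h0 : 0 < ε) :
    ∃ B : ℝ, 0 ≤ B ∧ ∀ t : ℝ, ‖Mz f i ((1 + ε : ℝ) : ℂ) (1 / 2 + t * I)‖ ≤ B := by
  obtain ⟨B, hB⟩ := mz_bd hf hi (σ := 1 + ε) (x := 1 / 2) (y := 1 / 2)
    (by rw [sub_self, abs_zero]; linarith) (by rw [sub_self, abs_zero]; linarith)
  have hre : ∀ t : ℝ, ((1 / 2 : ℂ) + t * I).re = 1 / 2 := by intro t; simp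
  have h1 : ∀ t : ℝ, ‖Mz f i ((1 + ε : ℝ) : ℂ) (1 / 2 + t * I)‖ ≤ B := fun t =>
    hB _ (by rw [hre]) (by rw [hre])
  exact ⟨B, (norm_nonneg _).trans (h1 0), h1⟩

theorem st_gauss_int {η : ℝ} (hη : 0 < η) : Integrable (fun t : ℝ => Real.exp (-(η * t ^ 2))) := by
  have := integrable_exp_neg_mul_sq hη
  simpa [neg_mul] using this

theorem st_mz_gi {f : ℂ × ℝ → ℂ} (hf : Ray f) {i : ℕ} (hi : i ≤ 1) {ε : ℝ} (h0 : 0 < ε) (δ : ℝ)
    {η : ℝ} (hη : 0 < η) : Integrable (fun t : ℝ => Mz f i ((1 + ε : ℝ) : ℂ) (1 / 2 + t * I) *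
      (cexp ((δ * t : ℝ) * I) * ((Real.exp (-(η * t ^ 2)) : ℝ) : ℂ))) := by
  obtain ⟨B, hB0, hB⟩ := st_mz_norm_bd hf hi h0
  have hc : Continuous (fun t : ℝ => Mz f i ((1 + ε : ℝ) : ℂ) (1 / 2 + t * I)) :=
    mz_cont hf hi (by linarith)
  refine ((st_gauss_int hη).const_mul B).mono' (Continuous.aestronglyMeasurable ?_) ?_
  · exact hc.mul (Continuous.mul (by fun_prop) (by fun_prop))
  · refine Eventually.of_forall fun t => ?_
    rw [norm_mul, norm_mul, norm_exp_ofReal_mul_I, one_mul, norm_real,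
      Real.norm_of_nonneg (Real.exp_pos _).le]
    exact mul_le_mul_of_nonneg_right (hB t) (Real.exp_pos _).le

/-- the Gaussian averages of the kernels -/
theorem kn_gauss (S : IQ s) {q : ℕ} {ν : ℂ} (had : Ad q ν) {ι : Type} [Fintype ι]
    {c c' : ι → K → ℂ} (h : ∀ k, DP s q ν (c k) (c' k)) (β δ : ι → ℝ) {i : ℕ} (hi : i ≤ 1) :
    ∃ C : ℝ, 0 ≤ C ∧ ∀ ε η : ℝ, 0 < ε → ε ≤ 1 / 2 → 0 < η →
      Integrable (fun t : ℝ => kn q ν i ε t * Lt s q ν β δ c (1 / 2 + t * I) *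
        ((Real.exp (-(η * t ^ 2)) : ℝ) : ℂ)) ∧
      ‖∫ t : ℝ, kn q ν i ε t * Lt s q ν β δ c (1 / 2 + t * I) *
        ((Real.exp (-(η * t ^ 2)) : ℝ) : ℂ)‖ ≤ C / ε := by
  obtain ⟨G, g, hg, hG, hk⟩ := kp_fac had hi
  have hray : ∀ k, Ray (cp s q ν (c k) i) := fun k => ray_cp S had (h k) i
  choose C hC0 hC using fun k => mz_gauss (hray k) hi
  refine ⟨∑ k, |st_bk β δ k| * (g⁻¹ * C k), Finset.sum_nonneg fun k _ =>
    mul_nonneg (abs_nonneg _) (mul_nonneg (inv_nonneg.2 hg.le) (hC0 k)), fun ε η h0 h1 hη => ?_⟩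
  have hf : (fun t : ℝ => kn q ν i ε t * Lt s q ν β δ c (1 / 2 + t * I) *
        ((Real.exp (-(η * t ^ 2)) : ℝ) : ℂ)) = fun t : ℝ => ∑ k, ((st_bk β δ k : ℂ) * (G ε)⁻¹) *
        (Mz (cp s q ν (c k) i) i ((1 + ε : ℝ) : ℂ) (1 / 2 + t * I) *
      (cexp ((δ k * t : ℝ) * I) * ((Real.exp (-(η * t ^ 2)) : ℝ) : ℂ))) := by
    funext t
    rw [st_sum, Finset.sum_mul]
    refine Finset.sum_congr rfl fun k _ => ?_
    rw [st_formula S had (h k) hi hg hG hk h0 h1 t]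
    ring
  have hint : ∀ k ∈ (Finset.univ : Finset ι), Integrable (fun t : ℝ =>
      ((st_bk β δ k : ℂ) * (G ε)⁻¹) *
        (Mz (cp s q ν (c k) i) i ((1 + ε : ℝ) : ℂ) (1 / 2 + t * I) *
      (cexp ((δ k * t : ℝ) * I) * ((Real.exp (-(η * t ^ 2)) : ℝ) : ℂ)))) := fun k _ =>
    (st_mz_gi (hray k) hi h0 (δ k) hη).const_mul _
  rw [hf]
  refine ⟨integrable_finsetSum _ hint, ?_⟩
  rw [integral_finsetSum _ hint, Finset.sum_div]
  refine (norm_sum_le _ _).trans (Finset.sum_le_sum fun k _ => ?_)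
  rw [integral_const_mul, norm_mul, norm_mul, norm_real, norm_inv, Real.norm_eq_abs]
  have h2 := hC k (1 + ε) η (δ k) (by linarith) hη
  rw [show (1 + ε - 1 : ℝ) = ε by ring] at h2
  have h3 : ‖G ε‖⁻¹ ≤ g⁻¹ := inv_anti₀ hg (hG ε h0 h1)
  calc |st_bk β δ k| * ‖G ε‖⁻¹ * ‖∫ t : ℝ, Mz (cp s q ν (c k) i) i ((1 + ε : ℝ) : ℂ) (1 / 2 + t * I) *
      (cexp ((δ k * t : ℝ) * I) * ((Real.exp (-(η * t ^ 2)) : ℝ) : ℂ))‖
      ≤ |st_bk β δ k| * g⁻¹ * (C k / ε) := by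
        refine mul_le_mul (mul_le_mul_of_nonneg_left h3 (abs_nonneg _)) h2 (norm_nonneg _) ?_
        exact mul_nonneg (abs_nonneg _) (inv_nonneg.2 hg.le)
    _ = _ := by ring

/-- the kernel of index `0` is at least `hh / 2` -/
theorem st_kn_low (q : ℕ) (ν : ℂ) : ∃ t₁ : ℝ, 1 ≤ t₁ ∧ ∀ ε t : ℝ, 0 < ε → ε ≤ 1 / 2 → t₁ ≤ |t| →
    hh q ε t ≤ 2 * ‖kn q ν 0 ε t‖ := by
  obtain ⟨C, hC0, hC⟩ := kn_asy0 q ν
  refine ⟨max 1 (2 * C), le_max_left _ _, fun ε t h0 h1 ht => ?_⟩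
  have ht1 : 1 ≤ |t| := (le_max_left _ _).trans ht
  have ht2 : 2 * C ≤ |t| := (le_max_right _ _).trans ht
  have htn : t ≠ 0 := by
    intro h2
    rw [h2, abs_zero] at ht1
    linarith
  have hp := (hh_pos q h0.le htn)
  have h2 := hC ε t h0 h1 ht1
  have h3 : C / |t| ≤ 1 / 2 := by
    rw [div_le_iff₀ (by linarith)]
    linarith
  have h4 : ‖((Real.sign t ^ q * hh q ε t : ℝ) : ℂ)‖ = hh q ε t := by
    rw [norm_real, norm_mul, norm_pow, Real.norm_of_nonneg hp.le]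
    have : ‖Real.sign t‖ = 1 := by
      rcases lt_or_gt_of_ne htn with h5 | h5
      · rw [Real.sign_of_neg h5]; simp
      · rw [Real.sign_of_pos h5]; simp
    rw [this, one_pow, one_mul]
  have h5 : ‖((Real.sign t ^ q * hh q ε t : ℝ) : ℂ)‖ ≤ ‖kn q ν 0 ε t‖ +
      ‖kn q ν 0 ε t - ((Real.sign t ^ q * hh q ε t : ℝ) : ℂ)‖ := by
    have := norm_sub_norm_le ((Real.sign t ^ q * hh q ε t : ℝ) : ℂ) (kn q ν 0 ε t)
    rw [norm_sub_rev] at this
    linarith
  rw [h4] at h5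
  have h6 : C / |t| * hh q ε t ≤ 1 / 2 * hh q ε t := mul_le_mul_of_nonneg_right h3 hp.le
  linarith

/-- continuity of `hh` away from `0` -/
theorem st_hh_cont (q : ℕ) {ε : ℝ} (h0 : 0 ≤ ε) : ContinuousOn (hh q ε) {t | t ≠ 0} := by
  unfold hh
  refine ContinuousOn.div ?_ ?_ ?_
  · refine ContinuousOn.inv₀ (by fun_prop) ?_
    intro t ht
    exact pow_ne_zero _ (abs_ne_zero.2 ht)
  · refine Continuous.continuousOn ?_
    refine Continuous.pow (Continuous.norm ?_) 2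
    refine continuous_iff_continuousAt.2 fun t => ?_
    refine ContinuousAt.comp (g := Gamma) (f := fun t : ℝ => 1 + (ε : ℂ) + t * I)
      (differentiableAt_Gamma _ ?_).continuousAt (by fun_prop)
    intro m hm
    have h1 := congrArg Complex.re hm
    simp at h1
    have h2 : (0 : ℝ) ≤ m := Nat.cast_nonneg m
    linarith
  · intro t _
    refine pow_ne_zero 2 (norm_ne_zero_iff.2 (Gamma_ne_zero_of_re_pos ?_))
    have : (1 + (ε : ℂ) + t * I).re = 1 + ε := by simp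
    rw [this]
    linarith

theorem st_lt_line_cont (S : IQ s) {q : ℕ} {ν : ℂ} (had : Ad q ν) {ι : Type} [Fintype ι]
    {c c' : ι → K → ℂ} (h : ∀ k, DP s q ν (c k) (c' k)) (β δ : ι → ℝ) :
    Continuous (fun t : ℝ => Lt s q ν β δ c (1 / 2 + t * I)) :=
  (lt_cont S had h β δ).continuous.comp (by fun_prop)

/-- the mean square -/
theorem kn_sq (S : IQ s) {q : ℕ} {ν : ℂ} (had : Ad q ν) {ι : Type} [Fintype ι]
    {c c' : ι → K → ℂ} (h : ∀ k, DP s q ν (c k) (c' k)) (β δ : ι → ℝ) :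
    ∃ C t₁ : ℝ, 0 ≤ C ∧ 1 ≤ t₁ ∧ ∀ η : ℝ, 0 < η →
      IntegrableOn (fun t : ℝ => (‖Lt s q ν β δ c (1 / 2 + t * I)‖ * hh q (1 / 8) t) ^ 2 *
        Real.exp (-(η * t ^ 2))) {t | t₁ ≤ |t|} ∧
      ∫ t in {t : ℝ | t₁ ≤ |t|}, (‖Lt s q ν β δ c (1 / 2 + t * I)‖ * hh q (1 / 8) t) ^ 2 *
        Real.exp (-(η * t ^ 2)) ≤ C := by
  obtain ⟨G, g, hg, hG, hk⟩ := kp_fac had (i := 0) (by norm_num)
  have hray : ∀ k, Ray (cp s q ν (c k) 0) := fun k => ray_cp S had (h k) 0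
  obtain ⟨t₁, ht1, hlow⟩ := st_kn_low q ν
  choose C hC0 hC using fun k => mz_sq (hray k) (a := 0) (by norm_num)
    (σ := 1 + 1 / 8) (by norm_num)
  set n : ℝ := (Fintype.card ι : ℝ) with hn
  set A : ι → ℝ := fun k => 4 * n * (|st_bk β δ k| * g⁻¹) ^ 2 with hA
  have hn0 : 0 ≤ n := Nat.cast_nonneg _
  have hA0 : ∀ k, 0 ≤ A k := fun k => by rw [hA]; positivity
  have h18 : (0 : ℝ) < 1 / 8 := by norm_num
  have h18' : (1 / 8 : ℝ) ≤ 1 / 2 := by norm_num
  -- the pointwise bound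
  have hpt : ∀ t : ℝ, t₁ ≤ |t| → (‖Lt s q ν β δ c (1 / 2 + t * I)‖ * hh q (1 / 8) t) ^ 2 ≤
      ∑ k, A k * ‖Mz (cp s q ν (c k) 0) 0 ((1 + 1 / 8 : ℝ) : ℂ) (1 / 2 + t * I)‖ ^ 2 := by
    intro t ht
    have htn : t ≠ 0 := by
      intro h2
      rw [h2, abs_zero] at ht
      linarith
    have h1 := hlow (1 / 8) t h18 h18' ht
    have hp := hh_pos q h18.le htn
    have h2 : ‖Lt s q ν β δ c (1 / 2 + t * I)‖ * hh q (1 / 8) t ≤
        2 * ‖kn q ν 0 (1 / 8) t * Lt s q ν β δ c (1 / 2 + t * I)‖ := by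
      rw [norm_mul]
      have := mul_le_mul_of_nonneg_left h1 (norm_nonneg (Lt s q ν β δ c (1 / 2 + t * I)))
      linarith
    have h3 : ‖kn q ν 0 (1 / 8) t * Lt s q ν β δ c (1 / 2 + t * I)‖ ≤
        ∑ k, (|st_bk β δ k| * g⁻¹) *
          ‖Mz (cp s q ν (c k) 0) 0 ((1 + 1 / 8 : ℝ) : ℂ) (1 / 2 + t * I)‖ := by
      rw [st_sum]
      refine (norm_sum_le _ _).trans (Finset.sum_le_sum fun k _ => ?_)
      rw [st_formula S had (h k) (by norm_num) hg hG hk h18 h18' t, norm_mul, norm_mul, norm_mul,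
        norm_exp_ofReal_mul_I, one_mul, norm_real, Real.norm_eq_abs, norm_inv, ← mul_assoc]
      refine mul_le_mul_of_nonneg_right ?_ (norm_nonneg _)
      exact mul_le_mul_of_nonneg_left (inv_anti₀ hg (hG _ h18 h18')) (abs_nonneg _)
    have h4 : (‖Lt s q ν β δ c (1 / 2 + t * I)‖ * hh q (1 / 8) t) ^ 2 ≤
        (2 * ∑ k, (|st_bk β δ k| * g⁻¹) *
          ‖Mz (cp s q ν (c k) 0) 0 ((1 + 1 / 8 : ℝ) : ℂ) (1 / 2 + t * I)‖) ^ 2 := by
      refine pow_le_pow_left₀ (mul_nonneg (norm_nonneg _) hp.le) ?_ 2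
      linarith
    refine h4.trans ?_
    have h5 := sq_sum_le_card_mul_sum_sq (s := (Finset.univ : Finset ι))
      (f := fun k => (|st_bk β δ k| * g⁻¹) *
          ‖Mz (cp s q ν (c k) 0) 0 ((1 + 1 / 8 : ℝ) : ℂ) (1 / 2 + t * I)‖)
    rw [Finset.card_univ, ← hn] at h5
    calc (2 * ∑ k, (|st_bk β δ k| * g⁻¹) *
          ‖Mz (cp s q ν (c k) 0) 0 ((1 + 1 / 8 : ℝ) : ℂ) (1 / 2 + t * I)‖) ^ 2
        = 4 * (∑ k, (|st_bk β δ k| * g⁻¹) *
          ‖Mz (cp s q ν (c k) 0) 0 ((1 + 1 / 8 : ℝ) : ℂ) (1 / 2 + t * I)‖) ^ 2 := by ring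
      _ ≤ 4 * (n * ∑ k, ((|st_bk β δ k| * g⁻¹) *
          ‖Mz (cp s q ν (c k) 0) 0 ((1 + 1 / 8 : ℝ) : ℂ) (1 / 2 + t * I)‖) ^ 2) :=
          mul_le_mul_of_nonneg_left h5 (by norm_num)
      _ = _ := by
          rw [← mul_assoc, Finset.mul_sum]
          refine Finset.sum_congr rfl fun k _ => ?_
          simp only [hA]
          ring
  refine ⟨∑ k, A k * C k, t₁, Finset.sum_nonneg fun k _ => mul_nonneg (hA0 k) (hC0 k), ht1,
    fun η hη => ?_⟩
  have hms : MeasurableSet {t : ℝ | t₁ ≤ |t|} := measurableSet_le (by fun_prop) (by fun_prop)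
  have hint : ∀ k ∈ (Finset.univ : Finset ι), Integrable (fun t : ℝ => A k *
      (‖Mz (cp s q ν (c k) 0) 0 ((1 + 1 / 8 : ℝ) : ℂ) (1 / 2 + t * I)‖ ^ 2 *
        Real.exp (-(η * t ^ 2)))) := fun k _ => ((hC k η hη).1).const_mul _
  have hsum := integrable_finsetSum _ hint
  have hle : ∀ t ∈ {t : ℝ | t₁ ≤ |t|},
      (‖Lt s q ν β δ c (1 / 2 + t * I)‖ * hh q (1 / 8) t) ^ 2 * Real.exp (-(η * t ^ 2)) ≤
      ∑ k, A k * (‖Mz (cp s q ν (c k) 0) 0 ((1 + 1 / 8 : ℝ) : ℂ) (1 / 2 + t * I)‖ ^ 2 *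
        Real.exp (-(η * t ^ 2))) := by
    intro t ht
    have := mul_le_mul_of_nonneg_right (hpt t ht) (Real.exp_pos (-(η * t ^ 2))).le
    refine this.trans (le_of_eq ?_)
    rw [Finset.sum_mul]
    exact Finset.sum_congr rfl fun k _ => by ring
  have hcont : ContinuousOn (fun t : ℝ =>
      (‖Lt s q ν β δ c (1 / 2 + t * I)‖ * hh q (1 / 8) t) ^ 2 * Real.exp (-(η * t ^ 2)))
      {t : ℝ | t₁ ≤ |t|} := by
    refine ContinuousOn.mul (ContinuousOn.pow (ContinuousOn.mul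
      (st_lt_line_cont S had h β δ).norm.continuousOn ((st_hh_cont q h18.le).mono ?_)) 2) (by fun_prop)
    intro t ht
    have ht' : t₁ ≤ |t| := ht
    show t ≠ 0
    intro h2
    rw [h2, abs_zero] at ht'
    linarith
  have hio : IntegrableOn (fun t : ℝ =>
      (‖Lt s q ν β δ c (1 / 2 + t * I)‖ * hh q (1 / 8) t) ^ 2 * Real.exp (-(η * t ^ 2)))
      {t : ℝ | t₁ ≤ |t|} := by
    refine hsum.integrableOn.mono' (hcont.aestronglyMeasurable hms) ?_
    refine (ae_restrict_iff' hms).2 (Eventually.of_forall fun t ht => ?_)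
    rw [Real.norm_of_nonneg (mul_nonneg (sq_nonneg _) (Real.exp_pos _).le)]
    exact hle t ht
  refine ⟨hio, ?_⟩
  refine (setIntegral_mono_on hio hsum.integrableOn hms hle).trans ?_
  refine (setIntegral_le_integral hsum (Eventually.of_forall fun t => ?_)).trans ?_
  · exact Finset.sum_nonneg fun k _ => mul_nonneg (hA0 k)
      (mul_nonneg (sq_nonneg _) (Real.exp_pos _).le)
  · rw [integral_finsetSum _ hint]
    refine Finset.sum_le_sum fun k _ => ?_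
    rw [integral_const_mul]
    exact mul_le_mul_of_nonneg_left (hC k η hη).2 (hA0 k)

/-- from the Gaussian averages to the integral -/
theorem st_lim {φ : ℝ → ℝ} {t₀ D : ℝ} (hφ : ContinuousOn φ (Ici t₀)) (h0 : ∀ t, t₀ ≤ t → 0 ≤ φ t)
    (h : ∀ η : ℝ, 0 < η → IntegrableOn (fun t => φ t * Real.exp (-(η * t ^ 2))) (Set.Ioi t₀) ∧
      ∫ t in Set.Ioi t₀, φ t * Real.exp (-(η * t ^ 2)) ≤ D) (ht₀ : 0 < t₀) :
    IntegrableOn φ (Set.Ioi t₀) ∧ ∫ t in Set.Ioi t₀, φ t ≤ D := by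
  have hci : ∀ R : ℝ, t₀ ≤ R → ContinuousOn φ (Set.uIcc t₀ R) := by
    intro R hR
    refine hφ.mono ?_
    rw [Set.uIcc_of_le hR]
    exact fun t ht => ht.1
  have hR : ∀ R : ℝ, t₀ ≤ R → ∫ t in t₀..R, φ t ≤ D := by
    intro R hR
    have h1 : ∀ η : ℝ, 0 < η → ∫ t in t₀..R, φ t ≤ Real.exp (η * R ^ 2) * D := by
      intro η hη
      obtain ⟨hi, hb⟩ := h η hη
      have h2 : ∫ t in t₀..R, φ t ≤
          ∫ t in t₀..R, Real.exp (η * R ^ 2) * (φ t * Real.exp (-(η * t ^ 2))) := by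
        apply intervalIntegral.integral_mono_on hR (hci R hR).intervalIntegrable
        · apply ContinuousOn.intervalIntegrable
          have := hci R hR
          exact ContinuousOn.mul continuousOn_const (ContinuousOn.mul this (by fun_prop))
        · intro t ht
          have h3 : 1 ≤ Real.exp (η * R ^ 2) * Real.exp (-(η * t ^ 2)) := by
            rw [← Real.exp_add]
            apply Real.one_le_exp
            have h4 : t ^ 2 ≤ R ^ 2 := by
              apply pow_le_pow_left₀ (by linarith [ht.1]) ht.2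
            nlinarith
          calc φ t = φ t * 1 := (mul_one _).symm
            _ ≤ φ t * (Real.exp (η * R ^ 2) * Real.exp (-(η * t ^ 2))) :=
                mul_le_mul_of_nonneg_left h3 (h0 t ht.1)
            _ = _ := by ring
      rw [intervalIntegral.integral_const_mul] at h2
      refine h2.trans (mul_le_mul_of_nonneg_left ?_ (Real.exp_pos _).le)
      rw [intervalIntegral.integral_of_le hR]
      refine le_trans (setIntegral_mono_set hi ?_ ?_) hb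
      · refine (ae_restrict_iff' measurableSet_Ioi).2 (Eventually.of_forall fun t ht => ?_)
        exact mul_nonneg (h0 t (le_of_lt ht)) (Real.exp_pos _).le
      · exact (Set.Ioc_subset_Ioi_self).eventuallyLE
    have h5 : Tendsto (fun η : ℝ => Real.exp (η * R ^ 2) * D) (𝓝[>] 0) (𝓝 D) := by
      have h6 : Continuous (fun η : ℝ => Real.exp (η * R ^ 2) * D) := by fun_prop
      have h7 := (h6.tendsto 0).mono_left (nhdsWithin_le_nhds (s := Set.Ioi (0 : ℝ)))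
      simpa using h7
    refine ge_of_tendsto h5 ?_
    filter_upwards [self_mem_nhdsWithin] with η hη
    exact h1 η hη
  have hint : IntegrableOn φ (Set.Ioi t₀) := by
    refine integrableOn_Ioi_of_intervalIntegral_norm_bounded D t₀ (b := fun R : ℝ => R)
      (l := atTop) (fun R => ?_) tendsto_id ?_
    · exact (ContinuousOn.integrableOn_Icc (hφ.mono fun t ht => ht.1)).mono_set
        Ioc_subset_Icc_self
    filter_upwards [eventually_ge_atTop t₀] with R hRR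
    have : ∫ t in t₀..R, ‖φ t‖ = ∫ t in t₀..R, φ t := by
      apply intervalIntegral.integral_congr
      intro t ht
      rw [Set.uIcc_of_le hRR] at ht
      exact Real.norm_of_nonneg (h0 t ht.1)
    rw [this]
    exact hR R hRR
  refine ⟨hint, ?_⟩
  have h8 := intervalIntegral_tendsto_integral_Ioi t₀ hint (b := fun R : ℝ => R) tendsto_id
  refine le_of_tendsto h8 ?_
  filter_upwards [eventually_ge_atTop t₀] with R hRR
  exact hR R hRR

/-- the splitting of the Gaussian average -/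
theorem st_split {k L : ℝ → ℂ} {h gg : ℝ → ℝ} (hL : Continuous L)
    {t₀ M D E : ℝ} (ht₀ : 0 < t₀) (hh : ContinuousOn h (Ioi t₀))
    (hh0 : ∀ t, t₀ < t → 0 ≤ h t) {w u : ℂ} (hw : ‖w‖ = 1) (hu : ‖u‖ = 1)
    (h1 : ∀ t, t₀ < t → (‖L t‖ : ℂ) = w * L t ∧ h t ≤ (u * k t).re)
    (h2 : ∀ t, |t| ≤ t₀ → ‖k t‖ * ‖L t‖ ≤ M) {η : ℝ} (hη : 0 < η)
    (h3 : ∀ t, t < -t₀ → ‖k t‖ * ‖L t‖ * Real.exp (-(η * t ^ 2)) ≤ gg t)
    (hgi : IntegrableOn gg (Iio (-t₀))) (hgD : ∫ t in Iio (-t₀), gg t ≤ D)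
    (hI : Integrable (fun t => k t * L t * ((Real.exp (-(η * t ^ 2)) : ℝ) : ℂ)))
    (hE : ‖∫ t : ℝ, k t * L t * ((Real.exp (-(η * t ^ 2)) : ℝ) : ℂ)‖ ≤ E) :
    IntegrableOn (fun t => ‖L t‖ * h t * Real.exp (-(η * t ^ 2))) (Set.Ioi t₀) ∧
      ∫ t in Set.Ioi t₀, ‖L t‖ * h t * Real.exp (-(η * t ^ 2)) ≤ E + M * (2 * t₀) + D := by
  have hre : ∀ t, t₀ < t → ‖L t‖ * h t * Real.exp (-(η * t ^ 2)) ≤
      ((w * u) * (k t * L t * ((Real.exp (-(η * t ^ 2)) : ℝ) : ℂ))).re := by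
    intro t ht
    obtain ⟨ha, hb⟩ := h1 t ht
    have hc : (w * u) * (k t * L t * ((Real.exp (-(η * t ^ 2)) : ℝ) : ℂ)) =
        ((‖L t‖ * Real.exp (-(η * t ^ 2)) : ℝ) : ℂ) * (u * k t) := by
      push_cast
      rw [ha]
      ring
    rw [hc, re_ofReal_mul]
    have := mul_le_mul_of_nonneg_left hb (mul_nonneg (norm_nonneg (L t))
      (Real.exp_pos (-(η * t ^ 2))).le)
    linarith
  have hio : IntegrableOn (fun t => ‖L t‖ * h t * Real.exp (-(η * t ^ 2))) (Set.Ioi t₀) := by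
    refine hI.norm.integrableOn.mono' (ContinuousOn.aestronglyMeasurable ?_ measurableSet_Ioi) ?_
    · exact ContinuousOn.mul (ContinuousOn.mul hL.norm.continuousOn hh) (by fun_prop)
    · refine (ae_restrict_iff' measurableSet_Ioi).2 (Eventually.of_forall fun t ht => ?_)
      rw [Real.norm_of_nonneg (mul_nonneg (mul_nonneg (norm_nonneg _) (hh0 t ht))
        (Real.exp_pos _).le)]
      refine (hre t ht).trans ((re_le_norm _).trans (le_of_eq ?_))
      rw [norm_mul, norm_mul, hw, hu, one_mul, one_mul]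
  refine ⟨hio, ?_⟩
  have hIw := hI.const_mul (w * u)
  have hA : ∫ t in Set.Ioi t₀, ‖L t‖ * h t * Real.exp (-(η * t ^ 2)) ≤
      (∫ t in Set.Ioi t₀, (w * u) * (k t * L t * ((Real.exp (-(η * t ^ 2)) : ℝ) : ℂ))).re := by
    have h5 : (∫ t in Set.Ioi t₀, (w * u) * (k t * L t *
        ((Real.exp (-(η * t ^ 2)) : ℝ) : ℂ))).re =
        ∫ t in Set.Ioi t₀, ((w * u) * (k t * L t *
        ((Real.exp (-(η * t ^ 2)) : ℝ) : ℂ))).re := by
      exact (integral_re (hIw.integrableOn (s := Set.Ioi t₀))).symm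
    rw [h5]
    refine setIntegral_mono_on hio hIw.re.integrableOn measurableSet_Ioi ?_
    exact hre
  have hB : ∫ t in Set.Ioi t₀, (w * u) * (k t * L t * ((Real.exp (-(η * t ^ 2)) : ℝ) : ℂ)) =
      (w * u) * (∫ t : ℝ, k t * L t * ((Real.exp (-(η * t ^ 2)) : ℝ) : ℂ)) -
      (∫ t in Icc (-t₀) t₀, (w * u) * (k t * L t * ((Real.exp (-(η * t ^ 2)) : ℝ) : ℂ))) -
      (∫ t in Iio (-t₀), (w * u) * (k t * L t * ((Real.exp (-(η * t ^ 2)) : ℝ) : ℂ))) := by
    have h6 := integral_add_compl (measurableSet_Iio (a := -t₀)) hIw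
    have h7 : (Iio (-t₀))ᶜ = Icc (-t₀) t₀ ∪ Ioi t₀ := by
      rw [Set.compl_Iio]
      exact (Icc_union_Ioi_eq_Ici (by linarith)).symm
    have h8 : Disjoint (Icc (-t₀) t₀) (Ioi t₀) := by
      rw [Set.disjoint_left]
      intro t ht ht'
      exact absurd ht.2 (not_le.2 ht')
    rw [h7, setIntegral_union h8 measurableSet_Ioi hIw.integrableOn hIw.integrableOn] at h6
    rw [← integral_const_mul (w * u) (fun t : ℝ => k t * L t *
      ((Real.exp (-(η * t ^ 2)) : ℝ) : ℂ)), ← h6]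
    ring
  have hC1 : ‖(w * u) * (∫ t : ℝ, k t * L t * ((Real.exp (-(η * t ^ 2)) : ℝ) : ℂ))‖ ≤ E := by
    rw [norm_mul, norm_mul, hw, hu, one_mul, one_mul]
    exact hE
  have hC2 : ‖∫ t in Icc (-t₀) t₀, (w * u) * (k t * L t *
      ((Real.exp (-(η * t ^ 2)) : ℝ) : ℂ))‖ ≤ M * (2 * t₀) := by
    have hv : volume (Icc (-t₀) t₀) = ENNReal.ofReal (2 * t₀) := by
      rw [Real.volume_Icc]
      congr 1
      ring
    have h4 := norm_setIntegral_le_of_norm_le_const (μ := volume) (s := Icc (-t₀) t₀) (C := M)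
      (f := fun t => (w * u) * (k t * L t * ((Real.exp (-(η * t ^ 2)) : ℝ) : ℂ)))
      (by rw [hv]; exact ENNReal.ofReal_lt_top) (by
        intro t ht
        rw [norm_mul, norm_mul, norm_mul, norm_mul, norm_real,
          Real.norm_of_nonneg (Real.exp_pos _).le, hw, hu, one_mul, one_mul]
        have h5 : Real.exp (-(η * t ^ 2)) ≤ 1 := by
          apply Real.exp_le_one_iff.2
          have := mul_nonneg hη.le (sq_nonneg t)
          linarith
        calc ‖k t‖ * ‖L t‖ * Real.exp (-(η * t ^ 2)) ≤ ‖k t‖ * ‖L t‖ * 1 :=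
              mul_le_mul_of_nonneg_left h5 (mul_nonneg (norm_nonneg _) (norm_nonneg _))
          _ ≤ M := by rw [mul_one]; exact h2 t (abs_le.2 ht))
    refine h4.trans (le_of_eq ?_)
    rw [Measure.real, hv, ENNReal.toReal_ofReal (by linarith)]
  have hC3 : ‖∫ t in Iio (-t₀), (w * u) * (k t * L t *
      ((Real.exp (-(η * t ^ 2)) : ℝ) : ℂ))‖ ≤ D := by
    refine (norm_integral_le_of_norm_le hgi ?_).trans hgD
    refine (ae_restrict_iff' measurableSet_Iio).2 (Eventually.of_forall fun t ht => ?_)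
    rw [norm_mul, norm_mul, norm_mul, norm_mul, norm_real,
      Real.norm_of_nonneg (Real.exp_pos _).le, hw, hu, one_mul, one_mul]
    exact h3 t ht
  refine hA.trans ((re_le_norm _).trans ?_)
  rw [hB]
  refine (norm_sub_le _ _).trans (add_le_add ((norm_sub_le _ _).trans (add_le_add hC1 hC2)) hC3)

/-- the combined kernel -/
theorem st_ker_asy (q : ℕ) (ν : ℂ) {e : ℝ} (he : e = 1 ∨ e = -1) : ∃ C : ℝ, 0 ≤ C ∧
    ∀ ε t : ℝ, 0 < ε → ε ≤ 1 / 2 → 1 ≤ |t| →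
      (0 < t → ‖kn q ν 0 ε (e * t) + e * kn q ν 1 ε (e * t) -
        ((2 * e ^ q * hh q ε (e * t) : ℝ) : ℂ)‖ ≤ C / |t| * hh q ε (e * t)) ∧
      (t < 0 → ‖kn q ν 0 ε (e * t) + e * kn q ν 1 ε (e * t)‖ ≤ C / |t| * hh q ε (e * t)) := by
  obtain ⟨C, hC0, hC⟩ := kn_asy0 q ν
  obtain ⟨C', hC0', hC'⟩ := kn_asy1 q ν
  refine ⟨C + C', add_nonneg hC0 hC0', fun ε t h0 h1 ht => ?_⟩
  have hea : |e| = 1 := by
    rcases he with h | h <;> rw [h] <;> simp
  have hab : |e * t| = |t| := by rw [abs_mul, hea, one_mul]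
  have he2 : e * e = 1 := by
    rcases he with h | h <;> rw [h] <;> norm_num
  have hA := hC ε (e * t) h0 h1 (by rw [hab]; exact ht)
  have hB := hC' ε (e * t) h0 h1 (by rw [hab]; exact ht)
  rw [hab] at hA hB
  have hne : ‖(e : ℂ)‖ = 1 := by rw [norm_real, Real.norm_eq_abs, hea]
  have hsum : ∀ x y : ℂ, ‖kn q ν 0 ε (e * t) - x‖ ≤ C / |t| * hh q ε (e * t) →
      ‖kn q ν 1 ε (e * t) - y‖ ≤ C' / |t| * hh q ε (e * t) →
      ‖kn q ν 0 ε (e * t) + e * kn q ν 1 ε (e * t) - (x + e * y)‖ ≤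
        (C + C') / |t| * hh q ε (e * t) := by
    intro x y hx hy
    have h2 : kn q ν 0 ε (e * t) + e * kn q ν 1 ε (e * t) - (x + e * y) =
        (kn q ν 0 ε (e * t) - x) + e * (kn q ν 1 ε (e * t) - y) := by ring
    rw [h2]
    refine (norm_add_le _ _).trans ?_
    rw [norm_mul, hne, one_mul, add_div, add_mul]
    exact add_le_add hx hy
  have hsgn : ∀ t : ℝ, 0 < t → Real.sign (e * t) = e := by
    intro t ht
    rcases he with h | h
    · rw [h, one_mul, Real.sign_of_pos ht]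
    · rw [h, neg_one_mul, Real.sign_of_neg (by linarith)]
  have hsgn' : ∀ t : ℝ, t < 0 → Real.sign (e * t) = -e := by
    intro t ht
    rcases he with h | h
    · rw [h, one_mul, Real.sign_of_neg ht]
    · rw [h, neg_one_mul, Real.sign_of_pos (by linarith), neg_neg]
  constructor
  · intro htp
    rw [hsgn t htp] at hA hB
    have h3 := hsum _ _ hA hB
    have h4 : (((e ^ q * hh q ε (e * t) : ℝ) : ℂ) + e * ((e ^ (q + 1) * hh q ε (e * t) : ℝ) : ℂ)) =
        ((2 * e ^ q * hh q ε (e * t) : ℝ) : ℂ) := by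
      rw [← ofReal_mul, ← ofReal_add]
      congr 1
      rw [pow_succ]
      calc e ^ q * hh q ε (e * t) + e * (e ^ q * e * hh q ε (e * t)) =
          e ^ q * hh q ε (e * t) + (e * e) * (e ^ q * hh q ε (e * t)) := by ring
        _ = _ := by rw [he2]; ring
    rwa [h4] at h3
  · intro htn
    rw [hsgn' t htn] at hA hB
    have h3 := hsum _ _ hA hB
    have h4 : ((((-e) ^ q * hh q ε (e * t) : ℝ) : ℂ) +
        e * (((-e) ^ (q + 1) * hh q ε (e * t) : ℝ) : ℂ)) = 0 := by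
      rw [← ofReal_mul, ← ofReal_add, ← ofReal_zero]
      congr 1
      rw [pow_succ]
      calc (-e) ^ q * hh q ε (e * t) + e * ((-e) ^ q * (-e) * hh q ε (e * t)) =
          (-e) ^ q * hh q ε (e * t) - (e * e) * ((-e) ^ q * hh q ε (e * t)) := by ring
        _ = _ := by rw [he2]; ring
    rwa [h4, sub_zero] at h3

theorem st_int_reflect {e : ℝ} (he : e = 1 ∨ e = -1) {f : ℝ → ℂ} (hf : Integrable f) :
    Integrable (fun t => f (e * t)) ∧ ∫ t, f (e * t) = ∫ t, f t := by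
  rcases he with h | h
  · subst h
    simp only [one_mul]
    exact ⟨hf, trivial⟩
  · subst h
    simp only [neg_one_mul]
    exact ⟨hf.comp_neg, integral_neg_eq_self f volume⟩

theorem st_int_reflect_on {e : ℝ} (he : e = 1 ∨ e = -1) {f : ℝ → ℝ} {t₀ : ℝ}
    (h0 : ∀ t, t₀ ≤ |t| → 0 ≤ f t) (hf : IntegrableOn f {t | t₀ ≤ |t|}) (ht₀ : 0 < t₀) :
    IntegrableOn (fun t => f (e * t)) (Iio (-t₀)) ∧
      ∫ t in Iio (-t₀), f (e * t) ≤ ∫ t in {t | t₀ ≤ |t|}, f t := by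
  have hms : MeasurableSet {t : ℝ | t₀ ≤ |t|} := measurableSet_le (by fun_prop) (by fun_prop)
  have hsub : Iio (-t₀) ⊆ {t : ℝ | t₀ ≤ |t|} := by
    intro t ht
    have ht' : t < -t₀ := ht
    show t₀ ≤ |t|
    rw [abs_of_neg (by linarith)]
    linarith
  have hsub' : Ioi t₀ ⊆ {t : ℝ | t₀ ≤ |t|} := by
    intro t ht
    have ht' : t₀ < t := ht
    show t₀ ≤ |t|
    rw [abs_of_pos (by linarith)]
    exact ht'.le
  have hnn : 0 ≤ᵐ[volume.restrict {t : ℝ | t₀ ≤ |t|}] f :=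
    (ae_restrict_iff' hms).2 (Eventually.of_forall fun t ht => h0 t ht)
  rcases he with h | h
  · subst h
    simp only [one_mul]
    exact ⟨hf.mono_set hsub, setIntegral_mono_set hf hnn hsub.eventuallyLE⟩
  · subst h
    simp only [neg_one_mul]
    constructor
    · have h1 := (hf.mono_set hsub').comp_neg
      have h2 : -Ioi t₀ = Iio (-t₀) := by simp
      rw [h2] at h1
      exact h1
    · have h3 := integral_comp_neg_Iic (-t₀) f
      rw [neg_neg, integral_Iic_eq_integral_Iio] at h3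
      rw [h3]
      exact setIntegral_mono_set hf hnn hsub'.eventuallyLE

theorem st_hh_even (q : ℕ) (ε : ℝ) {e : ℝ} (he : e = 1 ∨ e = -1) (t : ℝ) :
    hh q ε (e * t) = hh q ε t := by
  rcases he with h | h
  · rw [h, one_mul]
  · subst h
    unfold hh
    rw [abs_mul]
    have h1 : (1 + (ε : ℂ) + ((-1 * t : ℝ) : ℂ) * I) =
        (starRingEnd ℂ) (1 + (ε : ℂ) + (t : ℂ) * I) := by
      apply Complex.ext <;> simp
    rw [h1, Gamma_conj, Complex.norm_conj]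
    norm_num

theorem st_int_pow {t₀ : ℝ} (ht₀ : 0 < t₀) :
    IntegrableOn (fun t : ℝ => |t| ^ (-(3 / 2) : ℝ)) (Iio (-t₀)) := by
  have h1 := integrableOn_Ioi_rpow_of_lt (a := -(3 / 2)) (by norm_num) ht₀
  have h2 := h1.comp_neg
  have h3 : -Ioi t₀ = Iio (-t₀) := by simp
  rw [h3] at h2
  refine h2.congr_fun ?_ measurableSet_Iio
  intro t ht
  have ht' : t < -t₀ := ht
  show (-t) ^ (-(3 / 2) : ℝ) = |t| ^ (-(3 / 2) : ℝ)
  rw [abs_of_neg (by linarith)]

theorem star (S : IQ s) {q : ℕ} {ν : ℂ} (had : Ad q ν) {ι : Type} [Fintype ι]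
    {c c' : ι → K → ℂ} (h : ∀ k, DP s q ν (c k) (c' k)) (β δ : ι → ℝ) {e : ℝ}
    (he : e = 1 ∨ e = -1) (T : ℝ) (w : ℂ) (hw : ‖w‖ = 1)
    (hT : ∀ t : ℝ, T < t → (‖Lt s q ν β δ c (1 / 2 + ((e * t : ℝ) : ℂ) * I)‖ : ℂ) =
      w * Lt s q ν β δ c (1 / 2 + ((e * t : ℝ) : ℂ) * I)) :
    ∃ C t₀ : ℝ, 0 < t₀ ∧ ∀ ε : ℝ, 0 < ε → ε ≤ 1 / 2 →
      IntegrableOn (fun t : ℝ => ‖Lt s q ν β δ c (1 / 2 + ((e * t : ℝ) : ℂ) * I)‖ * hh q ε t)
        (Ioi t₀) ∧
      ∫ t in Ioi t₀, ‖Lt s q ν β δ c (1 / 2 + ((e * t : ℝ) : ℂ) * I)‖ * hh q ε t ≤ C / ε := by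
  obtain ⟨G0, hG0, hg0⟩ := kn_gauss S had h β δ (i := 0) (by norm_num)
  obtain ⟨G1, hG1, hg1⟩ := kn_gauss S had h β δ (i := 1) (by norm_num)
  obtain ⟨Q, t₁, hQ, ht₁, hsq⟩ := kn_sq S had h β δ
  obtain ⟨C₁, hC₁, hker⟩ := st_ker_asy q ν he
  obtain ⟨C₂, hC₂, hrat⟩ := hh_ratio q
  have hea : |e| = 1 := by
    rcases he with h | h <;> rw [h] <;> simp
  have hen : ‖(e : ℂ)‖ = 1 := by rw [norm_real, Real.norm_eq_abs, hea]
  have hab : ∀ t : ℝ, |e * t| = |t| := fun t => by rw [abs_mul, hea, one_mul]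
  have he2 : e * e = 1 := by
    rcases he with h | h <;> rw [h] <;> norm_num
  set t₀ : ℝ := max (|T| + 1) (max t₁ C₁) with ht₀
  have hT0 : |T| + 1 ≤ t₀ := le_max_left _ _
  have ht10 : t₁ ≤ t₀ := (le_max_left _ _).trans (le_max_right _ _)
  have hC10 : C₁ ≤ t₀ := (le_max_right _ _).trans (le_max_right _ _)
  have ht₀p : 0 < t₀ := by linarith
  set L : ℝ → ℂ := fun t => Lt s q ν β δ c (1 / 2 + ((e * t : ℝ) : ℂ) * I) with hL
  have hLc : Continuous L := by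
    have h1 : Continuous (fun t : ℝ => e * t) := continuous_const.mul continuous_id
    exact Continuous.comp (g := fun t : ℝ => Lt s q ν β δ c (1 / 2 + (t : ℂ) * I))
      (st_lt_line_cont S had h β δ) h1
  set kk : ℝ → ℝ → ℂ := fun ε t => kn q ν 0 ε (e * t) + e * kn q ν 1 ε (e * t) with hkk
  have hkc : Continuous (fun p : ℝ × ℝ => kk p.1 p.2) := by
    have h1 : Continuous (fun p : ℝ × ℝ => (p.1, e * p.2)) := by fun_prop
    have h2 : ∀ i : ℕ, Continuous (fun p : ℝ × ℝ => kn q ν i p.1 (e * p.2)) := fun i =>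
      Continuous.comp (g := fun p : ℝ × ℝ => kn q ν i p.1 p.2)
        (f := fun p : ℝ × ℝ => (p.1, e * p.2)) (kn_cont q ν i) h1
    exact (h2 0).add (continuous_const.mul (h2 1))
  obtain ⟨M, hM⟩ : ∃ M : ℝ, ∀ ε t : ℝ, 0 ≤ ε → ε ≤ 1 / 2 → |t| ≤ t₀ →
      ‖kk ε t‖ * ‖L t‖ ≤ M := by
    have hK : IsCompact (Set.Icc (0 : ℝ) (1 / 2) ×ˢ Set.Icc (-t₀) t₀) :=
      isCompact_Icc.prod isCompact_Icc
    have hcont : Continuous (fun p : ℝ × ℝ => ‖kk p.1 p.2‖ * ‖L p.2‖) :=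
      hkc.norm.mul (hLc.comp continuous_snd).norm
    obtain ⟨M, hM⟩ := hK.exists_bound_of_continuousOn hcont.continuousOn
    refine ⟨M, fun ε t h0 h1 h2 => (le_abs_self _).trans ?_⟩
    exact hM (ε, t) ⟨⟨h0, h1⟩, abs_le.1 h2⟩
  have hM0 : 0 ≤ M := le_trans (mul_nonneg (norm_nonneg _) (norm_nonneg _))
    (hM 0 0 le_rfl (by norm_num) (by rw [abs_zero]; exact ht₀p.le))
  set P : ℝ := ∫ t in Iio (-t₀), |t| ^ (-(3 / 2) : ℝ) with hP
  have hP0 : 0 ≤ P := setIntegral_nonneg measurableSet_Iio fun t _ =>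
    Real.rpow_nonneg (abs_nonneg _) _
  set D : ℝ := C₁ * C₂ * (1 / 2) * (P + Q) with hD
  have hD0 : 0 ≤ D := by
    rw [hD]
    positivity
  refine ⟨(G0 + G1) + M * (2 * t₀) + D, t₀, ht₀p, fun ε h0 h1 => ?_⟩
  have hmain : ∀ η : ℝ, 0 < η →
      IntegrableOn (fun t => ‖L t‖ * hh q ε (e * t) * Real.exp (-(η * t ^ 2))) (Set.Ioi t₀) ∧
      ∫ t in Set.Ioi t₀, ‖L t‖ * hh q ε (e * t) * Real.exp (-(η * t ^ 2)) ≤
        (G0 + G1) / ε + M * (2 * t₀) + D := by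
    intro η hη
    obtain ⟨hsi, hsb⟩ := hsq η hη
    have hrefl := st_int_reflect_on he (t₀ := t₁) (f := fun t : ℝ =>
        (‖Lt s q ν β δ c (1 / 2 + t * I)‖ * hh q (1 / 8) t) ^ 2 * Real.exp (-(η * t ^ 2)))
      (fun t _ => mul_nonneg (sq_nonneg _) (Real.exp_pos _).le) hsi (by linarith)
    have hett : ∀ t : ℝ, (e * t) ^ 2 = t ^ 2 := fun t => by
      rw [mul_pow, pow_two e, he2, one_mul]
    simp only [hett] at hrefl
    have hsub : Iio (-t₀) ⊆ Iio (-t₁) := Iio_subset_Iio (by linarith)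
    have hr1 : IntegrableOn (fun t : ℝ => (‖L t‖ * hh q (1 / 8) (e * t)) ^ 2 *
        Real.exp (-(η * t ^ 2))) (Iio (-t₀)) := hrefl.1.mono_set hsub
    have hr2 : ∫ t in Iio (-t₀), (‖L t‖ * hh q (1 / 8) (e * t)) ^ 2 *
        Real.exp (-(η * t ^ 2)) ≤ Q := by
      refine le_trans (setIntegral_mono_set hrefl.1 ?_ hsub.eventuallyLE) (hrefl.2.trans hsb)
      exact Eventually.of_forall fun t => mul_nonneg (sq_nonneg _) (Real.exp_pos _).le
    have hgi0 : IntegrableOn (fun t : ℝ => |t| ^ (-(3 / 2) : ℝ) +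
        (‖L t‖ * hh q (1 / 8) (e * t)) ^ 2 * Real.exp (-(η * t ^ 2))) (Iio (-t₀)) :=
      (st_int_pow ht₀p).add hr1
    have hgi : IntegrableOn (fun t : ℝ => C₁ * C₂ * (1 / 2) * (|t| ^ (-(3 / 2) : ℝ) +
        (‖L t‖ * hh q (1 / 8) (e * t)) ^ 2 * Real.exp (-(η * t ^ 2)))) (Iio (-t₀)) :=
      Integrable.const_mul hgi0 (C₁ * C₂ * (1 / 2))
    have hJ0 := hg0 ε η h0 h1 hη
    have hJ1 := hg1 ε η h0 h1 hη
    have hF : Integrable (fun t : ℝ => (kn q ν 0 ε t + e * kn q ν 1 ε t) *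
        Lt s q ν β δ c (1 / 2 + t * I) * ((Real.exp (-(η * t ^ 2)) : ℝ) : ℂ)) ∧
        ‖∫ t : ℝ, (kn q ν 0 ε t + e * kn q ν 1 ε t) *
        Lt s q ν β δ c (1 / 2 + t * I) * ((Real.exp (-(η * t ^ 2)) : ℝ) : ℂ)‖ ≤
          (G0 + G1) / ε := by
      have hf : (fun t : ℝ => (kn q ν 0 ε t + e * kn q ν 1 ε t) *
        Lt s q ν β δ c (1 / 2 + t * I) * ((Real.exp (-(η * t ^ 2)) : ℝ) : ℂ)) =
          fun t : ℝ => kn q ν 0 ε t * Lt s q ν β δ c (1 / 2 + t * I) *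
            ((Real.exp (-(η * t ^ 2)) : ℝ) : ℂ) + (e : ℂ) * (kn q ν 1 ε t *
            Lt s q ν β δ c (1 / 2 + t * I) * ((Real.exp (-(η * t ^ 2)) : ℝ) : ℂ)) := by
        funext t
        ring
      rw [hf]
      refine ⟨hJ0.1.add (hJ1.1.const_mul _), ?_⟩
      rw [integral_add hJ0.1 (hJ1.1.const_mul _), integral_const_mul]
      refine (norm_add_le _ _).trans ?_
      rw [norm_mul, hen, one_mul, add_div]
      exact add_le_add hJ0.2 hJ1.2
    have hF' := st_int_reflect he hF.1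
    have hFe : (fun t : ℝ => (kn q ν 0 ε (e * t) + e * kn q ν 1 ε (e * t)) *
        Lt s q ν β δ c (1 / 2 + ((e * t : ℝ) : ℂ) * I) *
          ((Real.exp (-(η * (e * t) ^ 2)) : ℝ) : ℂ)) =
        fun t : ℝ => kk ε t * L t * ((Real.exp (-(η * t ^ 2)) : ℝ) : ℂ) := by
      funext t
      rw [hett]
    rw [hFe] at hF'
    have hhc : ContinuousOn (fun t : ℝ => hh q ε (e * t)) (Ioi t₀) := by
      have h2 : ContinuousOn (fun t : ℝ => e * t) (Ioi t₀) :=
        (continuous_const.mul continuous_id).continuousOn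
      refine ContinuousOn.comp (g := hh q ε) (f := fun t : ℝ => e * t) (t := {t | t ≠ 0})
        (st_hh_cont q h0.le) h2 ?_
      intro t ht
      have ht' : t₀ < t := ht
      show e * t ≠ 0
      rw [← abs_ne_zero, hab, abs_of_pos (by linarith)]
      linarith
    refine st_split (k := kk ε) (L := L) (h := fun t => hh q ε (e * t))
      (gg := fun t => C₁ * C₂ * (1 / 2) * (|t| ^ (-(3 / 2) : ℝ) +
        (‖L t‖ * hh q (1 / 8) (e * t)) ^ 2 * Real.exp (-(η * t ^ 2))))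
      hLc ht₀p hhc ?_ hw
      (u := ((e ^ q : ℝ) : ℂ)) ?_ ?_ (fun t ht => hM ε t h0.le h1 ht) hη ?_ hgi ?_ hF'.1 ?_
    · intro t ht
      have : e * t ≠ 0 := by
        rw [← abs_ne_zero, hab, abs_of_pos (by linarith)]
        linarith
      exact (hh_pos q h0.le this).le
    · rw [norm_real, norm_pow, Real.norm_eq_abs, hea, one_pow]
    · intro t ht
      refine ⟨hT t (by linarith [le_abs_self T]), ?_⟩
      have htp : 0 < t := by linarith
      have ht1 : 1 ≤ |t| := by rw [abs_of_pos htp]; linarith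
      have h2 := (hker ε t h0 h1 ht1).1 htp
      have hne : e * t ≠ 0 := by
        rw [← abs_ne_zero, hab]
        linarith
      have hp := hh_pos q h0.le hne
      have h3 : C₁ / |t| ≤ 1 := by
        rw [div_le_one (by linarith), abs_of_pos htp]
        linarith
      have h4 : ‖kk ε t - ((2 * e ^ q * hh q ε (e * t) : ℝ) : ℂ)‖ ≤ hh q ε (e * t) :=
        h2.trans (by
          have := mul_le_mul_of_nonneg_right h3 hp.le
          linarith)
      have h5 : ((e ^ q : ℝ) : ℂ) * kk ε t = ((e ^ q : ℝ) : ℂ) *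
          (kk ε t - ((2 * e ^ q * hh q ε (e * t) : ℝ) : ℂ)) +
          ((2 * hh q ε (e * t) : ℝ) : ℂ) := by
        have h6 : e ^ q * e ^ q = 1 := by rw [← mul_pow, he2, one_pow]
        have h7 : ((e ^ q : ℝ) : ℂ) * ((2 * e ^ q * hh q ε (e * t) : ℝ) : ℂ) =
            ((2 * hh q ε (e * t) : ℝ) : ℂ) := by
          rw [← ofReal_mul]
          congr 1
          calc e ^ q * (2 * e ^ q * hh q ε (e * t)) = (e ^ q * e ^ q) * (2 * hh q ε (e * t)) := by
                ring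
            _ = _ := by rw [h6, one_mul]
        rw [mul_sub, h7]
        ring
      show hh q ε (e * t) ≤ (((e ^ q : ℝ) : ℂ) * kk ε t).re
      rw [h5, add_re, ofReal_re]
      have h8 : |(((e ^ q : ℝ) : ℂ) *
          (kk ε t - ((2 * e ^ q * hh q ε (e * t) : ℝ) : ℂ))).re| ≤ hh q ε (e * t) := by
        refine (abs_re_le_norm _).trans ?_
        rw [norm_mul, norm_real, norm_pow, Real.norm_eq_abs, hea, one_pow, one_mul]
        exact h4
      have h9 := (abs_le.1 h8).1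
      linarith
    · intro t ht
      have htn : t < 0 := by linarith
      have hat : |t| = -t := abs_of_neg htn
      have ht1 : 1 ≤ |t| := by rw [hat]; linarith
      have htp : 0 < |t| := by linarith
      have h2 := (hker ε t h0 h1 ht1).2 htn
      have h3 := hrat ε (e * t) h0 h1 (by rw [hab]; exact ht1)
      rw [hab] at h3
      have hne : e * t ≠ 0 := by
        rw [← abs_ne_zero, hab]
        linarith
      have hp := hh_pos q (by norm_num : (0 : ℝ) ≤ 1 / 8) hne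
      have h4 : ‖kk ε t‖ ≤ C₁ * C₂ * (|t| ^ (-(3 / 4) : ℝ) * hh q (1 / 8) (e * t)) := by
        refine h2.trans ?_
        have h5 : C₁ / |t| * hh q ε (e * t) ≤
            C₁ / |t| * (C₂ * |t| ^ (1 / 4 : ℝ) * hh q (1 / 8) (e * t)) :=
          mul_le_mul_of_nonneg_left h3 (div_nonneg hC₁ htp.le)
        refine h5.trans (le_of_eq ?_)
        have h6 : |t| ^ (-(3 / 4) : ℝ) = |t| ^ (1 / 4 : ℝ) / |t| := by
          rw [show (-(3 / 4) : ℝ) = 1 / 4 - 1 by norm_num, Real.rpow_sub_one htp.ne']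
        rw [h6]
        ring
      have h7 : |t| ^ (-(3 / 2) : ℝ) = (|t| ^ (-(3 / 4) : ℝ)) ^ 2 := by
        rw [← Real.rpow_natCast, ← Real.rpow_mul htp.le]
        norm_num
      have h8 : Real.exp (-(η * t ^ 2)) ≤ 1 := by
        apply Real.exp_le_one_iff.2
        have := mul_nonneg hη.le (sq_nonneg t)
        linarith
      set x : ℝ := |t| ^ (-(3 / 4) : ℝ) with hx
      set y : ℝ := ‖L t‖ * hh q (1 / 8) (e * t) with hy
      set E : ℝ := Real.exp (-(η * t ^ 2)) with hEE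
      have hE0 : 0 < E := Real.exp_pos _
      have h9 : ‖kk ε t‖ * ‖L t‖ * E ≤ C₁ * C₂ * (x * y) * E := by
        refine mul_le_mul_of_nonneg_right ?_ hE0.le
        calc ‖kk ε t‖ * ‖L t‖ ≤ C₁ * C₂ * (x * hh q (1 / 8) (e * t)) * ‖L t‖ :=
              mul_le_mul_of_nonneg_right h4 (norm_nonneg _)
          _ = _ := by rw [hy]; ring
      refine h9.trans ?_
      show C₁ * C₂ * (x * y) * E ≤ C₁ * C₂ * (1 / 2) * (|t| ^ (-(3 / 2) : ℝ) + y ^ 2 * E)
      rw [h7]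
      have h10 : x * y * E ≤ 1 / 2 * (x ^ 2 + y ^ 2 * E) := by
        have h11 : 0 ≤ (x - y) ^ 2 * E := mul_nonneg (sq_nonneg _) hE0.le
        have h12 : x ^ 2 * E ≤ x ^ 2 := by
          have := mul_le_mul_of_nonneg_left h8 (sq_nonneg x)
          linarith
        nlinarith
      have h13 := mul_le_mul_of_nonneg_left h10 (mul_nonneg hC₁ hC₂)
      calc C₁ * C₂ * (x * y) * E = C₁ * C₂ * (x * y * E) := by ring
        _ ≤ C₁ * C₂ * (1 / 2 * (x ^ 2 + y ^ 2 * E)) := h13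
        _ = _ := by ring
    · rw [integral_const_mul, integral_add (st_int_pow ht₀p) hr1, hD]
      exact mul_le_mul_of_nonneg_left (by linarith) (by positivity)
    · rw [hF'.2]
      exact hF.2
  have hlim := st_lim (φ := fun t => ‖L t‖ * hh q ε (e * t)) (t₀ := t₀) ?_ ?_ hmain ht₀p
  · simp only [st_hh_even q ε he] at hlim
    refine ⟨hlim.1, hlim.2.trans ?_⟩
    have h2 : 0 ≤ M * (2 * t₀) + D := by positivity
    rw [add_assoc (G0 + G1), add_div (G0 + G1), add_assoc]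
    refine add_le_add le_rfl ?_
    rw [le_div_iff₀ h0]
    nlinarith
  · refine ContinuousOn.mul hLc.norm.continuousOn ?_
    have h2 : ContinuousOn (fun t : ℝ => e * t) (Ici t₀) :=
      (continuous_const.mul continuous_id).continuousOn
    refine ContinuousOn.comp (g := hh q ε) (f := fun t : ℝ => e * t) (t := {t | t ≠ 0})
      (st_hh_cont q h0.le) h2 ?_
    intro t ht
    have ht' : t₀ ≤ t := ht
    show e * t ≠ 0
    rw [← abs_ne_zero, hab, abs_of_pos (by linarith)]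
    linarith
  · intro t ht
    have : e * t ≠ 0 := by
      rw [← abs_ne_zero, hab, abs_of_pos (by linarith)]
      linarith
    exact mul_nonneg (norm_nonneg _) (hh_pos q h0.le this).le

end Pool.Agent.HI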