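import Pool.Agent.Lib_helper25.HIF.DX
import Pool.Agent.Lib_helper25.HIF.KG
import Pool.Agent.Lib_helper25.HIF.ST
import Pool.Agent.Lib_helper99.HBF.MB
import Pool.Agent.Lib_helper99.HBF.GR

/-! HI, block MC: the bound for the first moment -/

namespace Pool.Agent.HI
open NumberField Complex MeasureTheory Set Filter Topology
open Pool.Agent.HB (Kb Adm)
open Pool.Agent.H4 (ml atl FunBd vcf)

theorem moment_bd {q : ℕ} {ν : ℂ} (had : Ad q ν) {a : ℕ → ℂ} {Λ Lf : ℂ → ℂ} (h : Pk q ν a Λ)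
    {Q : ℝ} {c₀ : ℂ} (hQ : 0 < Q) (hc : c₀ ≠ 0) (hd : Differentiable ℂ Lf)
    (hL : ∀ z : ℂ, 1 / 2 ≤ z.re → Λ z = c₀ * (Q : ℂ) ^ z *
        (Gamma (z + (q + ν) / 2) * Gamma (z + (q - ν) / 2)) * Lf z)
    (hg : ∀ η x y : ℝ, 0 < η → ∃ C : ℝ, ∀ z : ℂ, x ≤ z.re → z.re ≤ y →
        ‖Lf z‖ ≤ C * Real.exp (η * |z.im|))
    {T : ℝ} {w : ℂ} (hw : ‖w‖ = 1)
    (hT : ∀ t : ℝ, T < t → (‖Λ (1 / 2 + t * I)‖ : ℂ) = w * Λ (1 / 2 + t * I)) :
    ∃ t₀ C : ℝ, 0 < t₀ ∧ ∀ δ₁ : ℝ, 0 < δ₁ → ∃ δ : ℝ, 0 < δ ∧ δ < δ₁ ∧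
      IntegrableOn (fun t : ℝ => ‖Lf (1 / 2 + t * I)‖ * Real.exp (-(2 * δ * t)))
        (Set.Ioi t₀) ∧
      δ * ∫ t in Set.Ioi t₀, ‖Lf (1 / 2 + t * I)‖ * Real.exp (-(2 * δ * t)) ≤ C := by
  obtain ⟨C, t₁, ht₁, hstar⟩ := h.star T w hw hT
  obtain ⟨Cg, hCg0, hCg⟩ := Pool.Agent.HB.gamma_up
  obtain ⟨cl, t₂, hcl, ht₂, hlow⟩ := gamma_low had
  set t₀ : ℝ := max (max t₁ t₂) 1 with ht₀
  have h01 : t₁ ≤ t₀ := (le_max_left _ _).trans (le_max_left _ _)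
  have h0ν : t₂ ≤ t₀ := (le_max_right _ _).trans (le_max_left _ _)
  have h0one : 1 ≤ t₀ := le_max_right _ _
  have ht₀0 : 0 < t₀ := by linarith
  have hcont : Continuous (fun t : ℝ => ‖Lf (1 / 2 + t * I)‖) := by
    have := hd.continuous
    fun_prop
  -- integrability
  have hi : ∀ δ : ℝ, 0 < δ → IntegrableOn (fun t : ℝ => ‖Lf (1 / 2 + t * I)‖ *
      Real.exp (-(2 * δ * t))) (Set.Ioi t₀) := by
    intro δ hδ
    obtain ⟨B, hB⟩ := hg δ (1 / 2) (1 / 2) hδ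
    have h1 : IntegrableOn (fun t : ℝ => B * Real.exp (-δ * t)) (Set.Ioi t₀) :=
      Integrable.const_mul (exp_neg_integrableOn_Ioi t₀ hδ) B
    refine Integrable.mono' h1 ?_ ?_
    · exact (hcont.mul (by fun_prop)).aestronglyMeasurable
    · refine (ae_restrict_iff' measurableSet_Ioi).2 (ae_of_all _ fun t ht => ?_)
      have ht0 : 0 < t := ht₀0.trans ht
      have h2 := hB (1 / 2 + t * I) (by simp) (by simp)
      have h3 : (1 / 2 + t * I : ℂ).im = t := by simp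
      rw [h3, abs_of_pos ht0] at h2
      rw [norm_mul, norm_norm, Real.norm_of_nonneg (Real.exp_pos _).le]
      calc ‖Lf (1 / 2 + t * I)‖ * Real.exp (-(2 * δ * t))
          ≤ (B * Real.exp (δ * t)) * Real.exp (-(2 * δ * t)) :=
            mul_le_mul_of_nonneg_right h2 (Real.exp_pos _).le
        _ = B * Real.exp (-δ * t) := by
            rw [mul_assoc, ← Real.exp_add]; congr 2; ring
  -- the pointwise bound
  set c₁ : ℝ := ‖c₀‖ * Q ^ ((1 : ℝ) / 2) * cl with hc₁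
  have hc₁0 : 0 < c₁ := by
    have := norm_pos_iff.2 hc
    have := Real.rpow_pos_of_pos hQ ((1 : ℝ) / 2)
    positivity
  have hpt : ∀ ε t : ℝ, 0 < ε → ε ≤ 1 / 2 → t₀ < t →
      ‖Lf (1 / 2 + t * I)‖ * t ^ (-(1 + 2 * ε)) ≤
        (Cg / c₁) * (‖Λ (1 / 2 + t * I)‖ * hh q ε t) := by
    intro ε t hε hε1 ht
    have ht1 : 1 ≤ t := by linarith
    have ht0 : 0 < t := by linarith
    have htq : 0 < t ^ q := pow_pos ht0 q
    have hG : 0 < ‖Gamma (1 + ε + t * I)‖ :=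
      norm_pos_iff.2 (Gamma_ne_zero_of_re_pos (by simp; linarith))
    have h1 := hCg ε t hε hε1 ht1
    have h2 := hlow t (by linarith)
    have h3 : ‖Λ (1 / 2 + t * I)‖ = ‖c₀‖ * Q ^ ((1 : ℝ) / 2) *
        ‖Gamma (1 / 2 + t * I + (q + ν) / 2) * Gamma (1 / 2 + t * I + (q - ν) / 2)‖ *
        ‖Lf (1 / 2 + t * I)‖ := by
      rw [hL (1 / 2 + t * I) (by simp), norm_mul, norm_mul, norm_mul,
        norm_cpow_eq_rpow_re_of_pos hQ]
      simp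
    have h4 : c₁ * (t ^ q * Real.exp (-(Real.pi * t))) * ‖Lf (1 / 2 + t * I)‖ ≤
        ‖Λ (1 / 2 + t * I)‖ := by
      rw [h3, hc₁]
      have hx : 0 ≤ ‖c₀‖ * Q ^ ((1 : ℝ) / 2) :=
        mul_nonneg (norm_nonneg _) (Real.rpow_nonneg hQ.le _)
      have := mul_le_mul_of_nonneg_left h2 hx
      have := mul_le_mul_of_nonneg_right this (norm_nonneg (Lf (1 / 2 + t * I)))
      calc _ = ‖c₀‖ * Q ^ ((1 : ℝ) / 2) * (cl * t ^ q * Real.exp (-(Real.pi * t))) *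
            ‖Lf (1 / 2 + t * I)‖ := by ring
        _ ≤ _ := this
    have h5 : t ^ (-(1 + 2 * ε)) * ‖Gamma (1 + ε + t * I)‖ ^ 2 ≤
        Cg * Real.exp (-(Real.pi * t)) := by
      have h6 := mul_le_mul_of_nonneg_left h1 (Real.rpow_nonneg ht0.le (-(1 + 2 * ε)))
      refine h6.trans (le_of_eq ?_)
      have h7 : t ^ (-(1 + 2 * ε)) * t ^ (1 + 2 * ε) = 1 := by
        rw [← Real.rpow_add ht0]; simp
      calc _ = Cg * (t ^ (-(1 + 2 * ε)) * t ^ (1 + 2 * ε)) * Real.exp (-(Real.pi * t)) := by ring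
        _ = _ := by rw [h7]; ring
    have h8 : Cg / c₁ * (‖Λ (1 / 2 + t * I)‖ * hh q ε t) =
        (Cg * ‖Λ (1 / 2 + t * I)‖) / (c₁ * (t ^ q * ‖Gamma (1 + ε + t * I)‖ ^ 2)) := by
      unfold hh
      rw [abs_of_pos ht0]
      field_simp
    rw [h8, le_div_iff₀ (by positivity)]
    calc ‖Lf (1 / 2 + t * I)‖ * t ^ (-(1 + 2 * ε)) *
          (c₁ * (t ^ q * ‖Gamma (1 + ε + t * I)‖ ^ 2))
        = (t ^ (-(1 + 2 * ε)) * ‖Gamma (1 + ε + t * I)‖ ^ 2) *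
          (c₁ * t ^ q * ‖Lf (1 / 2 + t * I)‖) := by
          ring
      _ ≤ (Cg * Real.exp (-(Real.pi * t))) * (c₁ * t ^ q * ‖Lf (1 / 2 + t * I)‖) :=
          mul_le_mul_of_nonneg_right h5 (by positivity)
      _ = Cg * (c₁ * (t ^ q * Real.exp (-(Real.pi * t))) * ‖Lf (1 / 2 + t * I)‖) := by ring
      _ ≤ Cg * ‖Λ (1 / 2 + t * I)‖ := mul_le_mul_of_nonneg_left h4 hCg0.le
  have hh0 : ∀ ε t : ℝ, 0 ≤ hh q ε t := fun ε t => by
    unfold hh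
    positivity
  have hlog : ∀ ε : ℝ, 0 < ε → ε ≤ 1 / 2 →
      IntegrableOn (fun t : ℝ => ‖Lf (1 / 2 + t * I)‖ * t ^ (-(1 + 2 * ε))) (Set.Ioi t₀) ∧
      ∫ t in Set.Ioi t₀, ‖Lf (1 / 2 + t * I)‖ * t ^ (-(1 + 2 * ε)) ≤ (Cg / c₁ * C) / ε := by
    intro ε hε hε1
    obtain ⟨hI, hle⟩ := hstar ε hε hε1
    have hI2 : IntegrableOn (fun t : ℝ => ‖Λ (1 / 2 + t * I)‖ * hh q ε t)
        (Set.Ioi t₀) := hI.mono_set (Set.Ioi_subset_Ioi h01)
    have hI3 : IntegrableOn (fun t : ℝ => Cg / c₁ *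
        (‖Λ (1 / 2 + t * I)‖ * hh q ε t)) (Set.Ioi t₀) :=
      Integrable.const_mul hI2 _
    have hI4 : IntegrableOn (fun t : ℝ => ‖Lf (1 / 2 + t * I)‖ * t ^ (-(1 + 2 * ε)))
        (Set.Ioi t₀) := by
      refine Integrable.mono' hI3 ?_ ?_
      · refine ContinuousOn.aestronglyMeasurable ?_ measurableSet_Ioi
        refine hcont.continuousOn.mul ?_
        exact continuousOn_id.rpow_const fun t ht => Or.inl (ht₀0.trans ht).ne'
      · refine (ae_restrict_iff' measurableSet_Ioi).2 (ae_of_all _ fun t ht => ?_)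
        have ht0 : 0 < t := ht₀0.trans ht
        rw [norm_mul, norm_norm, Real.norm_of_nonneg (Real.rpow_nonneg ht0.le _)]
        exact hpt ε t hε hε1 ht
    refine ⟨hI4, ?_⟩
    calc ∫ t in Set.Ioi t₀, ‖Lf (1 / 2 + t * I)‖ * t ^ (-(1 + 2 * ε))
        ≤ ∫ t in Set.Ioi t₀, Cg / c₁ * (‖Λ (1 / 2 + t * I)‖ * hh q ε t) :=
          setIntegral_mono_on hI4 hI3 measurableSet_Ioi fun t ht => hpt ε t hε hε1 ht
      _ = Cg / c₁ * ∫ t in Set.Ioi t₀, ‖Λ (1 / 2 + t * I)‖ * hh q ε t :=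
          integral_const_mul _ _
      _ ≤ Cg / c₁ * (C / ε) := by
          refine mul_le_mul_of_nonneg_left (le_trans ?_ hle) (by positivity)
          refine setIntegral_mono_set hI (ae_of_all _ fun t => ?_)
            (Set.Ioi_subset_Ioi h01).eventuallyLE
          simp only [Pi.zero_apply]
          exact mul_nonneg (norm_nonneg _) (hh0 ε t)
      _ = _ := by ring
  obtain ⟨C', hC'⟩ := Pool.Agent.HB.moment_freq ht₀0 (fun t => norm_nonneg _) hcont.continuousOn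
    hi hlog
  refine ⟨t₀, C', ht₀0, fun δ₁ hδ₁ => ?_⟩
  obtain ⟨δ, h0, h1, h2⟩ := hC' δ₁ hδ₁
  exact ⟨δ, h0, h1, hi δ h0, h2⟩

end Pool.Agent.HI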