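import Pool.Agent.Lib_helper25.HIF.DX
import Pool.Agent.Lib_helper25.HIF.LG
import Pool.Agent.Lib_helper25.HIF.MC
import Pool.Agent.Lib_helper98.H4F.LI
import Pool.Agent.Lib_helper98.H4F.SG
import Pool.Agent.Lib_helper99.HBF.FX

/-! HI, block FY: the functional is bounded (adapted from Lib_helper99/HBF/FX.lean, by helper14).
Uses `l_exists` (LG), `moment_bd` (MC) and `HB.fx_main` (landed, HBF/FX). -/

namespace Pool.Agent.HI
open NumberField Complex MeasureTheory Set Filter Topology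
open Pool.Agent.HB (Kb Adm)
open Pool.Agent.H4 (ml atl FunBd vcf)
open Pool.Agent.HI

theorem fy_re (x : ℝ) (q : ℕ) (ν : ℂ) :
    ((x : ℂ) + ((q : ℂ) + ν) / 2).re = x + ((q : ℝ) / 2 + ν.re / 2) ∧
    ((x : ℂ) + ((q : ℂ) - ν) / 2).re = x + ((q : ℝ) / 2 - ν.re / 2) := by
  constructor
  · have : (x : ℂ) + ((q : ℂ) + ν) / 2 = ((x + (q : ℝ) / 2 : ℝ) : ℂ) + ((1 / 2 : ℝ) : ℂ) * ν := by
      push_cast; ring
    rw [this, add_re, re_ofReal_mul, ofReal_re]; ring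
  · have : (x : ℂ) + ((q : ℂ) - ν) / 2 = ((x + (q : ℝ) / 2 : ℝ) : ℂ) - ((1 / 2 : ℝ) : ℂ) * ν := by
      push_cast; ring
    rw [this, sub_re, re_ofReal_mul, ofReal_re]; ring

theorem fy_ne {q : ℕ} {ν : ℂ} (had : Ad q ν) {a : ℕ → ℂ} {Λ Lf : ℂ → ℂ} (ha : a 1 ≠ 0)
    {A Q : ℝ} {c₀ : ℂ} (hQ : 0 < Q) (hc : c₀ ≠ 0) (hs : LSeriesSummable a A)
    (hLf : ∀ z : ℂ, A ≤ z.re → Lf z = LSeries a z)
    (hL : ∀ z : ℂ, 1 / 2 ≤ z.re → Λ z = c₀ * (Q : ℂ) ^ z *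
        (Gamma (z + (q + ν) / 2) * Gamma (z + (q - ν) / 2)) * Lf z) :
    ∃ s, Λ s ≠ 0 := by
  have h1 := LSeries.tendsto_atTop (f := a)
    (lt_of_le_of_lt hs.abscissaOfAbsConv_le (EReal.coe_lt_top _))
  have h2 : ∀ᶠ x : ℝ in atTop, LSeries a x ≠ 0 := h1.eventually_ne ha
  obtain ⟨x, hx1, hx2, hx3⟩ :=
    (h2.and ((eventually_ge_atTop A).and (eventually_ge_atTop (1 : ℝ)))).exists
  have hre : |ν.re| < 1 := by
    rcases had with h | h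
    · rw [h]; simp
    · exact h.2.2
  rw [abs_lt] at hre
  have hq : (0 : ℝ) ≤ q := Nat.cast_nonneg q
  refine ⟨x, ?_⟩
  rw [hL x (by rw [ofReal_re]; linarith), hLf x (by simpa using hx2)]
  refine mul_ne_zero (mul_ne_zero (mul_ne_zero hc ?_) (mul_ne_zero ?_ ?_)) hx1
  · rw [← norm_pos_iff, Complex.norm_cpow_eq_rpow_re_of_pos hQ]
    positivity
  · apply Complex.Gamma_ne_zero_of_re_pos
    rw [(fy_re x q ν).1]
    linarith [hre.1]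
  · apply Complex.Gamma_ne_zero_of_re_pos
    rw [(fy_re x q ν).2]
    linarith [hre.2]

theorem fun_bd {q : ℕ} {ν : ℂ} (had : Ad q ν) {a : ℕ → ℂ} {Λ : ℂ → ℂ} (h : Pk q ν a Λ)
    (ha : a 1 ≠ 0) {T : ℝ}
    (hT : ∀ t : ℝ, T < t → ¬ Odd (analyticOrderNatAt Λ (1 / 2 + t * I))) :
    ∃ C : ℝ, FunBd a C := by
  obtain ⟨Lf, A, Q, c₀, hQ, hc, hA, hd, hs, hLf, hL, hg⟩ := l_exists had h
  obtain ⟨ω, hω, hreal⟩ := h.real
  have hω0 : ω ≠ 0 := by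
    rw [← norm_pos_iff, hω]; exact one_pos
  obtain ⟨σ, hσ, hsig⟩ := Pool.Agent.H4.sign_const h.diff (fy_ne had ha hQ hc hs hLf hL)
    hω0 hreal hT
  obtain ⟨t₀, C, ht₀, hm⟩ := moment_bd had h hQ hc hd hL hg hσ hsig
  choose δ hδ1 hδ2 hδ3 hδ4 using fun m : ℕ => hm (1 / ((m : ℝ) + 1)) (by positivity)
  have hδ0 : Tendsto δ atTop (𝓝 0) :=
    squeeze_zero (fun m => (hδ1 m).le) (fun m => (hδ2 m).le) tendsto_one_div_add_atTop_nhds_zero_nat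
  refine ⟨_, Pool.Agent.HB.fx_main hd.continuous hδ1 hδ0 (fun m => ⟨hδ3 m, hδ4 m⟩)
    (fun r hr => ?_)⟩
  have h5 := Pool.Agent.H4.moment_lim (k := 1) le_rfl hd hA hs hLf hg ht₀ hr
  simpa using h5


end Pool.Agent.HI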