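import Pool.Agent.Lib_helper25.HIF.DX
import Pool.Agent.Lib_helper25.HIF.AG
import Pool.Agent.Lib_helper25.HIF.AH
import Pool.Agent.Lib_helper25.HIF.AO
import Pool.Agent.Lib_helper25.HIF.LV
import Pool.Agent.Lib_helper25.HIF.LY
import Pool.Agent.Lib_helper25.HIF.ST
import Pool.Agent.Lib_helper98.H4F.EP
import Pool.Agent.Lib_helper98.H4F.CH

/-! # Project HI: the final assembly -/

namespace Pool.Agent.HI

open NumberField Complex MeasureTheory IsDedekindDomain Filter Topology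
open scoped nonZeroDivisors MatrixGroups
open Pool.Agent.HSG (Lat Pr IsInt nI prI DD nm wm dgm dt qP NCl IsRepQ)
open Pool.Agent.HSG.LV (Pt Tp Ts Sc Cp Dv Prim sS sZ ptS ptZ pI Res Gal gI gP wP omF lamF)
open Pool.Agent.H4 (NI PI blw ml FunBd)
open Pool.Agent.HNA (HekN aN)

variable {K : Type} [Field K] [NumberField K] {s : K →+* ℂ}

/-- chosen representatives of the classes -/
noncomputable def bo (κ : NCl K) : HSG.Id K := κ.out

theorem bo_mk (κ : NCl K) : (QuotientGroup.mk (bo κ) : NCl K) = κ := Quotient.out_eq κ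

/-- the completed L-function of a system of coefficients -/
noncomputable def LT (s : K →+* ℂ) [Fintype (NCl K)] (q : ℕ) (ν : ℂ) (n : HSG.Id K)
    (A : HSG.Id K → ℂ) : ℂ → ℂ :=
  Lt s q ν (fun κ : NCl K => nI (bo κ) ^ (-(1 / 2) : ℝ))
    (fun κ => Real.log (nI (bo κ)) + Real.log (nI n) / 2) (fun κ => cS A (bo κ))

theorem nI_cpow (a : HSG.Id K) (z : ℂ) :
    ((nI a ^ (-(1 / 2) : ℝ) : ℝ) : ℂ) * cexp (((Real.log (nI a) : ℝ) : ℂ) * z) =
      ((nI a : ℝ) : ℂ) ^ (z - 1 / 2) := by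
  have h := HSG.nI_pos a
  have h0 : ((nI a : ℝ) : ℂ) ≠ 0 := by exact_mod_cast h.ne'
  rw [cpow_def_of_ne_zero h0, ← Complex.ofReal_log h.le, Real.rpow_def_of_pos h,
    Complex.ofReal_exp, ← Complex.exp_add]
  congr 1
  push_cast
  ring

theorem lt_S (S : IQ s) [Fintype (NCl K)] {q : ℕ} {ν : ℂ} (had : Ad q ν) {n : HSG.Id K}
    {A : HSG.Id K → ℂ} (hA : (∀ m, ¬ IsInt m → A m = 0) ∧ ∃ C : ℝ, ∀ m, ‖A m‖ ≤ C) {z : ℂ}
    (hz : 3 / 2 < z.re) :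
    LT s q ν n A z = (1 / 4 * (2 * Real.pi : ℂ) ^ (-(q : ℂ)) * (wK K : ℂ) *
        ((Dk K : ℝ) : ℂ) ^ (-(1 / 2) : ℂ)) *
      ((√(nI n) * Dk K / (2 * Real.pi) ^ 2 : ℝ) : ℂ) ^ z *
      (Gamma (z + (q + ν) / 2) * Gamma (z + (q - ν) / 2)) *
        ∑' m : HSG.Id K, A m * ((nI m : ℝ) : ℂ) ^ (1 / 2 - z) := by
  have hds := (ds_S S (b := bo) bo_mk hA hz).2
  have hn := HSG.nI_pos n
  have hD : 0 < Dk K := by
    unfold Dk
    rw [abs_pos]
    exact_mod_cast NumberField.discr_ne_zero K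
  have e0 : ∀ κ : NCl K, ((nI (bo κ) ^ (-(1 / 2) : ℝ) : ℝ) : ℂ) *
      cexp (((Real.log (nI (bo κ)) + Real.log (nI n) / 2 : ℝ) : ℂ) * z) =
      ((nI (bo κ) : ℝ) : ℂ) ^ (z - 1 / 2) * cexp (((Real.log (nI n) / 2 : ℝ) : ℂ) * z) := by
    intro κ
    rw [← nI_cpow]
    rw [mul_assoc, ← Complex.exp_add]
    congr 2
    push_cast
    ring
  have hcs : ∀ κ : NCl K, CS (cS A (bo κ)) := fun κ => (cs_cS S hA (bo κ)).1
  have e1 : LT s q ν n A z = cexp (((Real.log (nI n) / 2 : ℝ) : ℂ) * z) *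
      (1 / 4 * (2 * Real.pi : ℂ) ^ (-2 * z - q) *
        (Gamma (z + (q + ν) / 2) * Gamma (z + (q - ν) / 2))) *
      ∑ κ : NCl K, ((nI (bo κ) : ℝ) : ℂ) ^ (z - 1 / 2) * Ds s (cS A (bo κ)) z := by
    rw [LT, Lt, Finset.mul_sum]
    refine Finset.sum_congr rfl fun κ _ => ?_
    rw [e0 κ, lz_eval S had (hcs κ) hz]
    ring
  rw [e1, hds]
  have hpi : (0 : ℝ) < 2 * Real.pi := by positivity
  have h2 : (2 * Real.pi : ℂ) ≠ 0 := by exact_mod_cast hpi.ne'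
  have hD0 : ((Dk K : ℝ) : ℂ) ≠ 0 := by exact_mod_cast hD.ne'
  have e2 : cexp (((Real.log (nI n) / 2 : ℝ) : ℂ) * z) = ((√(nI n) : ℝ) : ℂ) ^ z := by
    have h3 : ((√(nI n) : ℝ) : ℂ) ≠ 0 := by exact_mod_cast (Real.sqrt_pos.2 hn).ne'
    rw [cpow_def_of_ne_zero h3, ← Complex.ofReal_log (Real.sqrt_nonneg _), Real.log_sqrt hn.le]
  have e3 : ((√(nI n) * Dk K / (2 * Real.pi) ^ 2 : ℝ) : ℂ) ^ z =
      ((√(nI n) : ℝ) : ℂ) ^ z * ((Dk K : ℝ) : ℂ) ^ z * (2 * Real.pi : ℂ) ^ (-2 * z) := by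
    have h4 : (√(nI n) * Dk K / (2 * Real.pi) ^ 2 : ℝ) =
        √(nI n) * Dk K * ((2 * Real.pi) ^ (-2 : ℝ)) := by
      rw [div_eq_mul_inv]
      congr 1
      rw [Real.rpow_neg hpi.le]
      norm_num
    rw [h4, Complex.ofReal_mul, mul_cpow_ofReal_nonneg (by positivity) (by positivity),
      Complex.ofReal_mul, mul_cpow_ofReal_nonneg (by positivity) (by positivity)]
    congr 1
    have h5 : (Complex.log ((2 * Real.pi : ℝ) : ℂ) * ((-2 : ℝ) : ℂ)).im = 0 := by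
      rw [← Complex.ofReal_log (by positivity), ← Complex.ofReal_mul, Complex.ofReal_im]
    rw [Complex.ofReal_cpow (by positivity), ← Complex.cpow_mul z (by rw [h5]; linarith [Real.pi_pos])
      (by rw [h5]; exact Real.pi_pos.le)]
    push_cast
    ring_nf
  have e4 : ((Dk K : ℝ) : ℂ) ^ (z - 1 / 2) = ((Dk K : ℝ) : ℂ) ^ z *
      ((Dk K : ℝ) : ℂ) ^ (-(1 / 2) : ℂ) := by
    rw [← cpow_add _ _ hD0, sub_eq_add_neg]
  have e5 : (2 * Real.pi : ℂ) ^ (-2 * z - q) = (2 * Real.pi : ℂ) ^ (-2 * z) *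
      (2 * Real.pi : ℂ) ^ (-(q : ℂ)) := by
    rw [← cpow_add _ _ h2, sub_eq_add_neg]
  rw [e2, e3, e4, e5]
  ring

theorem lt_Z (S : IQ s) [Fintype (NCl K)] {q : ℕ} {ν : ℂ} (had : Ad q ν) {n : HSG.Id K}
    {A B : HSG.Id K → ℂ}
    (hB : (∀ m, ¬ IsInt m → B m = 0) ∧ ∃ C : ℝ, ∀ m, ‖B m‖ ≤ C)
    (hdp : ∀ b, DP s q ν (cS A b) (cZ n B b)) {z : ℂ} (hz : 3 / 2 < z.re) :
    LT s q ν n A (1 - z) = (-1) ^ q * ((1 / 4 * (2 * Real.pi : ℂ) ^ (-(q : ℂ)) * (wK K : ℂ) *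
        ((Dk K : ℝ) : ℂ) ^ (-(1 / 2) : ℂ)) *
      ((√(nI n) * Dk K / (2 * Real.pi) ^ 2 : ℝ) : ℂ) ^ z *
      (Gamma (z + (q + ν) / 2) * Gamma (z + (q - ν) / 2)) *
        ∑' m : HSG.Id K, B m * ((nI m : ℝ) : ℂ) ^ (1 / 2 - z)) := by
  have hds := ds_Z S (b := bo) bo_mk n hB hz
  have hn := HSG.nI_pos n
  have hn0 : ((nI n : ℝ) : ℂ) ≠ 0 := by exact_mod_cast hn.ne'
  have hD : 0 < Dk K := by
    unfold Dk
    rw [abs_pos]
    exact_mod_cast NumberField.discr_ne_zero K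
  have e0 : ∀ κ : NCl K, ((nI (bo κ) ^ (-(1 / 2) : ℝ) : ℝ) : ℂ) *
      cexp (((Real.log (nI (bo κ)) + Real.log (nI n) / 2 : ℝ) : ℂ) * (1 - z)) =
      ((nI (bo κ) : ℝ) : ℂ) ^ (1 / 2 - z) * cexp (((Real.log (nI n) / 2 : ℝ) : ℂ) * (1 - z)) := by
    intro κ
    have h1 := nI_cpow (bo κ) (1 - z)
    have h2 : (1 - z - 1 / 2 : ℂ) = 1 / 2 - z := by ring
    rw [h2] at h1
    rw [← h1, mul_assoc, ← Complex.exp_add]
    congr 2
    push_cast
    ring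
  have hcs : ∀ κ : NCl K, CS (cZ n B (bo κ)) := fun κ => (cs_cZ S n hB (bo κ)).1
  have e1 : LT s q ν n A (1 - z) = (-1) ^ q * (cexp (((Real.log (nI n) / 2 : ℝ) : ℂ) * (1 - z)) *
      (1 / 4 * (2 * Real.pi : ℂ) ^ (-2 * z - q) *
        (Gamma (z + (q + ν) / 2) * Gamma (z + (q - ν) / 2))) *
      ∑ κ : NCl K, ((nI (bo κ) : ℝ) : ℂ) ^ (1 / 2 - z) * Ds s (cZ n B (bo κ)) z) := by
    rw [LT, Lt, Finset.mul_sum, Finset.mul_sum]
    refine Finset.sum_congr rfl fun κ _ => ?_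
    rw [e0 κ, lz_fe S had (hdp (bo κ)) z, lz_eval S had (hcs κ) hz]
    ring
  rw [e1, hds]
  have hpi : (0 : ℝ) < 2 * Real.pi := by positivity
  have h2 : (2 * Real.pi : ℂ) ≠ 0 := by exact_mod_cast hpi.ne'
  have hD0 : ((Dk K : ℝ) : ℂ) ≠ 0 := by exact_mod_cast hD.ne'
  have e2 : cexp (((Real.log (nI n) / 2 : ℝ) : ℂ) * (1 - z)) * ((nI n : ℝ) : ℂ) ^ (z - 1 / 2) =
      ((√(nI n) : ℝ) : ℂ) ^ z := by
    have h3 : ((√(nI n) : ℝ) : ℂ) ≠ 0 := by exact_mod_cast (Real.sqrt_pos.2 hn).ne'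
    rw [cpow_def_of_ne_zero h3, cpow_def_of_ne_zero hn0, ← Complex.ofReal_log (Real.sqrt_nonneg _),
      Real.log_sqrt hn.le, ← Complex.ofReal_log hn.le, ← Complex.exp_add]
    congr 1
    push_cast
    ring
  have e3 : ((√(nI n) * Dk K / (2 * Real.pi) ^ 2 : ℝ) : ℂ) ^ z =
      ((√(nI n) : ℝ) : ℂ) ^ z * ((Dk K : ℝ) : ℂ) ^ z * (2 * Real.pi : ℂ) ^ (-2 * z) := by
    have h4 : (√(nI n) * Dk K / (2 * Real.pi) ^ 2 : ℝ) =
        √(nI n) * Dk K * ((2 * Real.pi) ^ (-2 : ℝ)) := by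
      rw [div_eq_mul_inv]
      congr 1
      rw [Real.rpow_neg hpi.le]
      norm_num
    rw [h4, Complex.ofReal_mul, mul_cpow_ofReal_nonneg (by positivity) (by positivity),
      Complex.ofReal_mul, mul_cpow_ofReal_nonneg (by positivity) (by positivity)]
    congr 1
    have h5 : (Complex.log ((2 * Real.pi : ℝ) : ℂ) * ((-2 : ℝ) : ℂ)).im = 0 := by
      rw [← Complex.ofReal_log (by positivity), ← Complex.ofReal_mul, Complex.ofReal_im]
    rw [Complex.ofReal_cpow (by positivity), ← Complex.cpow_mul z (by rw [h5]; linarith [Real.pi_pos])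
      (by rw [h5]; exact Real.pi_pos.le)]
    push_cast
    ring_nf
  have e4 : ((Dk K * nI n : ℝ) : ℂ) ^ (z - 1 / 2) = ((Dk K : ℝ) : ℂ) ^ z *
      ((Dk K : ℝ) : ℂ) ^ (-(1 / 2) : ℂ) * ((nI n : ℝ) : ℂ) ^ (z - 1 / 2) := by
    rw [Complex.ofReal_mul, mul_cpow_ofReal_nonneg hD.le hn.le, ← cpow_add _ _ hD0,
      sub_eq_add_neg]
  have e5 : (2 * Real.pi : ℂ) ^ (-2 * z - q) = (2 * Real.pi : ℂ) ^ (-2 * z) *
      (2 * Real.pi : ℂ) ^ (-(q : ℂ)) := by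
    rw [← cpow_add _ _ h2, sub_eq_add_neg]
  rw [e3, e4, e5, ← e2]
  ring

theorem gam_conj {q : ℕ} {ν : ℂ} (had : Ad q ν) (z : ℂ) :
    (starRingEnd ℂ) (Gamma ((starRingEnd ℂ) z + (q + ν) / 2) *
      Gamma ((starRingEnd ℂ) z + (q - ν) / 2)) =
      Gamma (z + (q + ν) / 2) * Gamma (z + (q - ν) / 2) := by
  have h2 : (starRingEnd ℂ) (2 : ℂ) = 2 := map_ofNat _ 2
  rw [map_mul, ← Complex.Gamma_conj, ← Complex.Gamma_conj]
  simp only [map_add, map_div₀, map_sub, Complex.conj_conj, Complex.conj_natCast, h2]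
  rcases had with h | ⟨_, h, _⟩
  · have e : (starRingEnd ℂ) ν = -ν := by
      apply Complex.ext <;> simp [h]
    rw [e, sub_neg_eq_add, ← sub_eq_add_neg, mul_comm]
  · have e : (starRingEnd ℂ) ν = ν := by
      apply Complex.ext <;> simp [h]
    rw [e]

theorem cpow_conj_pos {x : ℝ} (hx : 0 < x) (z : ℂ) :
    (starRingEnd ℂ) ((x : ℂ) ^ (starRingEnd ℂ) z) = (x : ℂ) ^ z := by
  have h5 : ((x : ℂ)).arg ≠ Real.pi := by
    rw [Complex.arg_ofReal_of_nonneg hx.le]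
    exact Real.pi_pos.ne
  have h6 := Complex.cpow_conj (x : ℂ) z h5
  rw [h6, Complex.conj_ofReal, Complex.conj_conj]

theorem conj_diff {f : ℂ → ℂ} (hf : Differentiable ℂ f) :
    Differentiable ℂ (fun s => (starRingEnd ℂ) (f ((starRingEnd ℂ) s))) := by
  intro s
  have h := (hf ((starRingEnd ℂ) s)).conj_conj
  rw [Complex.conj_conj] at h
  exact h

/-- the functional equation -/
theorem lt_fe (S : IQ s) [Fintype (NCl K)] {q : ℕ} {ν : ℂ} (had : Ad q ν) {n : HSG.Id K}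
    {A : HSG.Id K → ℂ} (hA : (∀ m, ¬ IsInt m → A m = 0) ∧ ∃ C : ℝ, ∀ m, ‖A m‖ ≤ C) {W : ℂ}
    (hdp : ∀ b, DP s q ν (cS A b) (cZ n (fun m => W * (starRingEnd ℂ) (A m)) b)) (z : ℂ) :
    LT s q ν n A (1 - z) =
      ((-1) ^ q * W) * (starRingEnd ℂ) (LT s q ν n A ((starRingEnd ℂ) z)) := by
  have hd : Differentiable ℂ (LT s q ν n A) := lt_cont S had (fun κ => hdp (bo κ)) _ _
  have hn := HSG.nI_pos n
  have hD : 0 < Dk K := by
    unfold Dk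
    rw [abs_pos]
    exact_mod_cast NumberField.discr_ne_zero K
  have hpi : (0 : ℝ) < 2 * Real.pi := by positivity
  have h1 : Differentiable ℂ (fun z => LT s q ν n A (1 - z)) :=
    hd.comp ((differentiable_const _).sub differentiable_id)
  have h2 : Differentiable ℂ (fun z => ((-1) ^ q * W) *
      (starRingEnd ℂ) (LT s q ν n A ((starRingEnd ℂ) z))) := (conj_diff hd).const_mul _
  have key : ∀ z : ℂ, 3 / 2 < z.re → LT s q ν n A (1 - z) =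
      ((-1) ^ q * W) * (starRingEnd ℂ) (LT s q ν n A ((starRingEnd ℂ) z)) := by
    intro z hz
    obtain ⟨C, hC⟩ := hA.2
    have hB : (∀ m, ¬ IsInt m → W * (starRingEnd ℂ) (A m) = 0) ∧
        ∃ C : ℝ, ∀ m, ‖W * (starRingEnd ℂ) (A m)‖ ≤ C := by
      refine ⟨fun m hm => by rw [hA.1 m hm, map_zero, mul_zero], ‖W‖ * C, fun m => ?_⟩
      rw [norm_mul, Complex.norm_conj]
      exact mul_le_mul_of_nonneg_left (hC m) (norm_nonneg _)
    have hz' : 3 / 2 < ((starRingEnd ℂ) z).re := by rw [conj_re]; exact hz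
    rw [lt_Z S had hB hdp hz, lt_S S had hA hz']
    have e1 : ∑' m : HSG.Id K, W * (starRingEnd ℂ) (A m) * ((nI m : ℝ) : ℂ) ^ (1 / 2 - z) =
        W * (starRingEnd ℂ) (∑' m : HSG.Id K, A m * ((nI m : ℝ) : ℂ) ^
          (1 / 2 - (starRingEnd ℂ) z)) := by
      rw [Complex.conj_tsum, ← tsum_mul_left]
      refine tsum_congr fun m => ?_
      rw [map_mul]
      have h3 : (1 / 2 - (starRingEnd ℂ) z : ℂ) = (starRingEnd ℂ) (1 / 2 - z) := by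
        rw [map_sub, map_div₀, map_one, map_ofNat]
      rw [h3, cpow_conj_pos (HSG.nI_pos m)]
      ring
    rw [e1]
    have e2 : (starRingEnd ℂ) (((√(nI n) * Dk K / (2 * Real.pi) ^ 2 : ℝ) : ℂ) ^
        (starRingEnd ℂ) z) = ((√(nI n) * Dk K / (2 * Real.pi) ^ 2 : ℝ) : ℂ) ^ z :=
      cpow_conj_pos (by positivity) z
    have e3 : (starRingEnd ℂ) (1 / 4 * (2 * Real.pi : ℂ) ^ (-(q : ℂ)) * (wK K : ℂ) *
        ((Dk K : ℝ) : ℂ) ^ (-(1 / 2) : ℂ)) = 1 / 4 * (2 * Real.pi : ℂ) ^ (-(q : ℂ)) * (wK K : ℂ) *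
        ((Dk K : ℝ) : ℂ) ^ (-(1 / 2) : ℂ) := by
      have h4 : (2 * Real.pi : ℂ) = ((2 * Real.pi : ℝ) : ℂ) := by push_cast; ring
      have h5 : (-(q : ℂ)) = (starRingEnd ℂ) (-(q : ℂ)) := by
        rw [map_neg, Complex.conj_natCast]
      have h6 : (-(1 / 2) : ℂ) = (starRingEnd ℂ) (-(1 / 2) : ℂ) := by
        rw [map_neg, map_div₀, map_one, map_ofNat]
      have h7 : (starRingEnd ℂ) ((2 * Real.pi : ℂ) ^ (-(q : ℂ))) =
          (2 * Real.pi : ℂ) ^ (-(q : ℂ)) := by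
        rw [h4]
        conv_lhs => rw [h5]
        exact cpow_conj_pos hpi _
      have h8 : (starRingEnd ℂ) (((Dk K : ℝ) : ℂ) ^ (-(1 / 2) : ℂ)) =
          ((Dk K : ℝ) : ℂ) ^ (-(1 / 2) : ℂ) := by
        conv_lhs => rw [h6]
        exact cpow_conj_pos hD _
      rw [map_mul, map_mul, map_mul, h7, h8, Complex.conj_natCast, map_div₀, map_one, map_ofNat]
    rw [map_mul, map_mul, map_mul, e2, e3, gam_conj had]
    ring
  have ho : IsOpen {z : ℂ | 3 / 2 < z.re} := continuous_re.isOpen_preimage _ isOpen_Ioi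
  have hev : (fun z => LT s q ν n A (1 - z)) =ᶠ[𝓝 (2 : ℂ)] fun z => ((-1) ^ q * W) *
      (starRingEnd ℂ) (LT s q ν n A ((starRingEnd ℂ) z)) := by
    filter_upwards [ho.mem_nhds (show (2 : ℂ) ∈ {z : ℂ | 3 / 2 < z.re} by
      show (3 / 2 : ℝ) < (2 : ℂ).re
      norm_num)] with z hz
    exact key z hz
  have := AnalyticOnNhd.eqOn_of_preconnected_of_eventuallyEq
    (f := fun z => LT s q ν n A (1 - z)) (U := Set.univ)
    (fun z _ => h1.analyticAt z) (fun z _ => h2.analyticAt z) isPreconnected_univ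
    (Set.mem_univ (2 : ℂ)) hev
  exact this (Set.mem_univ z)

end Pool.Agent.HI
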