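import Pool.Agent.Lib_helper25.HIF.DX
import Pool.Agent.Lib_helper25.HIF.AA
import Pool.Agent.Lib_helper25.HIF.AO
import Pool.Agent.Lib_helper84.HSGF.GB1
import Pool.Agent.Lib_helper99.HBF.AM

/-!
# Project HI: block QA (helper95), the action on hyperbolic 3-space
-/

namespace Pool.Agent.HI
open NumberField Complex MeasureTheory IsDedekindDomain Filter Topology
open scoped nonZeroDivisors MatrixGroups ENNReal
open Pool.Agent.HI
open Pool.Agent.HB (H3 mu Kb mk3)
open Pool.Agent.HSG (Lat Pr IsInt nI prI DD nm wm dgm dt qP NCl)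
open Pool.Agent.HSG.LV (Pt Sc Cp sS ptS dua)

variable {K : Type} [Field K] [NumberField K] {s : K →+* ℂ}

theorem aH_val (s : K →+* ℂ) (g : GL (Fin 2) K) (P : H3) : (aH s g P).1 = ac s g P.1 := by
  unfold aH
  rw [dif_pos (ac_pos s g P.2)]

theorem aH_one (s : K →+* ℂ) (P : H3) : aH s 1 P = P :=
  Subtype.ext (by rw [aH_val]; exact (ac_one s P.1 (0, 0)).1)

theorem aH_mul (s : K →+* ℂ) (g h : GL (Fin 2) K) (P : H3) :
    aH s (g * h) P = aH s g (aH s h P) :=
  Subtype.ext (by rw [aH_val, aH_val, aH_val]; exact ac_mul s g h P.2)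

/-- the action of a matrix of `GL₂(K)` is the action of a matrix of `SL₂(ℂ)` -/
theorem qa_sl (s : K →+* ℂ) (g : GL (Fin 2) K) : ∃ h : SL(2, ℂ), aH s g = HB.actC h := by
  obtain ⟨d, hd'⟩ := IsAlgClosed.exists_pow_nat_eq (de s g) (n := 2) (by norm_num)
  have hd : de s g = d ^ 2 := hd'.symm
  have hd0 : d ≠ 0 := by
    rintro rfl
    exact de_ne s g (by rw [hd]; ring)
  have hde : de s g = s (g 0 0) * s (g 1 1) - s (g 0 1) * s (g 1 0) := by
    unfold de
    rw [Matrix.det_fin_two, map_sub, map_mul, map_mul]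
  let M : Matrix (Fin 2) (Fin 2) ℂ := !![s (g 0 0) / d, s (g 0 1) / d; s (g 1 0) / d, s (g 1 1) / d]
  have hM : M.det = 1 := by
    simp only [M, Matrix.det_fin_two_of]
    have h1 : s (g 0 0) * s (g 1 1) - s (g 0 1) * s (g 1 0) = d ^ 2 := by rw [← hde, hd]
    field_simp
    exact h1
  obtain ⟨h, hh⟩ : ∃ h : SL(2, ℂ), h = ⟨M, hM⟩ := ⟨_, rfl⟩
  refine ⟨h, ?_⟩
  funext P
  apply Subtype.ext
  rw [aH_val]
  have e00 : h 0 0 = s (g 0 0) / d := by rw [hh]; rfl
  have e01 : h 0 1 = s (g 0 1) / d := by rw [hh]; rfl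
  have e10 : h 1 0 = s (g 1 0) / d := by rw [hh]; rfl
  have e11 : h 1 1 = s (g 1 1) / d := by rw [hh]; rfl
  have hn : normSq d ≠ 0 := by simpa using hd0
  have hden : HB.den h P = dn s g P.1 / normSq d := by
    unfold HB.den dn
    rw [e10, e11]
    have h1 : s (g 1 0) / d * P.1.1 + s (g 1 1) / d = (s (g 1 0) * P.1.1 + s (g 1 1)) / d := by
      field_simp
    rw [h1, map_div₀, map_div₀]
    field_simp
  have hdn : dn s g P.1 ≠ 0 := (dn_pos s g P.2).ne'
  have hnorm : ‖de s g‖ = normSq d := by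
    rw [hd, norm_pow, Complex.normSq_eq_norm_sq]
  have hcc : ((normSq d : ℝ) : ℂ) = d * (starRingEnd ℂ) d := (Complex.mul_conj d).symm
  have hcd : (starRingEnd ℂ) d ≠ 0 := by simpa using hd0
  have hdn' : ((dn s g P.1 : ℝ) : ℂ) ≠ 0 := by exact_mod_cast hdn
  unfold HB.actC ac
  apply Prod.ext
  · show _ = _ / ((HB.den h P : ℝ) : ℂ)
    rw [hden, e00, e01, e10, e11]
    push_cast
    rw [hcc]
    simp only [map_add, map_mul, map_div₀]
    field_simp
  · show _ = P.1.2 / HB.den h P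
    rw [hden, hnorm]
    field_simp

theorem aH_mp (s : K →+* ℂ) (g : GL (Fin 2) K) : MeasurePreserving (aH s g) mu mu := by
  obtain ⟨h, hh⟩ := qa_sl s g
  rw [hh]
  exact HB.actC_mp h

theorem aH_cont (s : K →+* ℂ) (g : GL (Fin 2) K) : Continuous (aH s g) := by
  obtain ⟨h, hh⟩ := qa_sl s g
  rw [hh]
  exact HB.am_cont h

/-- the algebraic identity -/
theorem qa_id {a b c d z v0 v1 : ℂ} {y D : ℝ} (hD : D = normSq (c * z + d) + normSq c * y ^ 2)
    (h0 : 0 < D) {e : ℂ} (he : e = a * d - b * c) :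
    normSq (v0 * (((a * z + b) * (starRingEnd ℂ) (c * z + d) +
      a * (starRingEnd ℂ) c * ((y ^ 2 : ℝ) : ℂ)) / ((D : ℝ) : ℂ)) + v1) +
      normSq v0 * (‖e‖ * y / D) ^ 2 =
    (normSq ((v0 * a + v1 * c) * z + (v0 * b + v1 * d)) + normSq (v0 * a + v1 * c) * y ^ 2) / D := by
  have hn : (‖e‖ * y / D) ^ 2 = normSq e * y ^ 2 / D ^ 2 := by
    rw [Complex.normSq_eq_norm_sq]; ring
  rw [hn]
  have h1 : v0 * (((a * z + b) * (starRingEnd ℂ) (c * z + d) +
      a * (starRingEnd ℂ) c * ((y ^ 2 : ℝ) : ℂ)) / ((D : ℝ) : ℂ)) + v1 =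
      (v0 * ((a * z + b) * (starRingEnd ℂ) (c * z + d) +
      a * (starRingEnd ℂ) c * ((y ^ 2 : ℝ) : ℂ)) + v1 * D) / ((D : ℝ) : ℂ) := by
    have : ((D : ℝ) : ℂ) ≠ 0 := by exact_mod_cast h0.ne'
    field_simp
  rw [h1, map_div₀, Complex.normSq_ofReal]
  have h2 : normSq (v0 * ((a * z + b) * (starRingEnd ℂ) (c * z + d) +
      a * (starRingEnd ℂ) c * ((y ^ 2 : ℝ) : ℂ)) + v1 * D) + normSq v0 * normSq e * y ^ 2 =
      D * (normSq ((v0 * a + v1 * c) * z + (v0 * b + v1 * d)) +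
        normSq (v0 * a + v1 * c) * y ^ 2) := by
    rw [he, hD]
    simp only [Complex.normSq_apply, Complex.add_re, Complex.add_im, Complex.mul_re,
      Complex.mul_im, Complex.sub_re, Complex.sub_im, Complex.conj_re, Complex.conj_im,
      Complex.ofReal_re, Complex.ofReal_im]
    ring
  have h3 := h0.ne'
  have h4 : normSq (v0 * ((a * z + b) * (starRingEnd ℂ) (c * z + d) +
      a * (starRingEnd ℂ) c * ((y ^ 2 : ℝ) : ℂ)) + v1 * D) = 
      D * (normSq ((v0 * a + v1 * c) * z + (v0 * b + v1 * d)) +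
        normSq (v0 * a + v1 * c) * y ^ 2) - normSq v0 * normSq e * y ^ 2 := by
    rw [← h2]; ring
  rw [h4]
  field_simp
  ring

theorem qq_act (S : IQ s) (g : GL (Fin 2) K) (P : H3) (L : Lat K) (v : Fin 2 → K) :
    QQ s (aH s g P) (L.mul g⁻¹)
      (Matrix.vecMul v ((g⁻¹ : GL (Fin 2) K) : Matrix (Fin 2) (Fin 2) K)) = QQ s P L v := by
  set v' := Matrix.vecMul v ((g⁻¹ : GL (Fin 2) K) : Matrix (Fin 2) (Fin 2) K) with hv'
  have hv : v = Matrix.vecMul v' (g : Matrix (Fin 2) (Fin 2) K) := by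
    rw [hv', Matrix.vecMul_vecMul, ← Units.val_mul, inv_mul_cancel, Units.val_one,
      Matrix.vecMul_one]
  have hv0 : v 0 = v' 0 * g 0 0 + v' 1 * g 1 0 := by
    conv_lhs => rw [hv]
    simp [Matrix.vecMul, dotProduct, Fin.sum_univ_two]
  have hv1 : v 1 = v' 0 * g 0 1 + v' 1 * g 1 1 := by
    conv_lhs => rw [hv]
    simp [Matrix.vecMul, dotProduct, Fin.sum_univ_two]
  have hde : de s g = s (g 0 0) * s (g 1 1) - s (g 0 1) * s (g 1 0) := by
    unfold de
    rw [Matrix.det_fin_two, map_sub, map_mul, map_mul]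
  have hD := dn_pos s g P.2
  have hy : 0 < P.1.2 := P.2
  have hN : 0 < ‖de s g‖ := norm_pos_iff.2 (de_ne s g)
  have hdet : nI (L.mul g⁻¹).det = (‖de s g‖ ^ 2)⁻¹ * nI L.det := by
    rw [HSG.det_mul, HSG.nI_mul, nI_norm S, map_inv]
    congr 1
    have : ((((Matrix.GeneralLinearGroup.det g)⁻¹ : Kˣ) : K)) =
        ((g : Matrix (Fin 2) (Fin 2) K).det)⁻¹ := by
      rw [Units.val_inv_eq_inv_val]
      rfl
    rw [this, map_inv₀, norm_inv, inv_pow]
    rfl
  have hsq : √(nI (L.mul g⁻¹).det) = ‖de s g‖⁻¹ * √(nI L.det) := by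
    rw [hdet, Real.sqrt_mul (by positivity), Real.sqrt_inv, Real.sqrt_sq hN.le]
  unfold QQ
  rw [hsq, aH_val, hv0, hv1]
  simp only [map_add, map_mul]
  have key := qa_id (a := s (g 0 0)) (b := s (g 0 1)) (c := s (g 1 0)) (d := s (g 1 1))
    (z := P.1.1) (v0 := s (v' 0)) (v1 := s (v' 1)) (y := P.1.2) (D := dn s g P.1) rfl hD hde
  have e1 : (ac s g P.1).1 = ((s (g 0 0) * P.1.1 + s (g 0 1)) *
      (starRingEnd ℂ) (s (g 1 0) * P.1.1 + s (g 1 1)) +
      s (g 0 0) * (starRingEnd ℂ) (s (g 1 0)) * ((P.1.2 ^ 2 : ℝ) : ℂ)) / ((dn s g P.1 : ℝ) : ℂ) :=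
    rfl
  have e2 : (ac s g P.1).2 = ‖de s g‖ * P.1.2 / dn s g P.1 := rfl
  rw [e1, e2, key]
  have hL : 0 < √(nI L.det) := Real.sqrt_pos.2 (HSG.nI_pos _)
  field_simp

theorem qq_sm (S : IQ s) (a : HSG.Id K) (P : H3) (L : Lat K) (v : Fin 2 → K) :
    QQ s P (L.sm a) v = QQ s P L v / nI a := by
  have ha := HSG.nI_pos a
  unfold QQ
  rw [HSG.det_sm, HSG.nI_mul, pow_two a, HSG.nI_mul a a, Real.sqrt_mul (by positivity),
    Real.sqrt_mul_self ha.le]
  have hL : 0 < √(nI L.det) := Real.sqrt_pos.2 (HSG.nI_pos _)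
  have hy : 0 < P.1.2 := P.2
  field_simp

theorem qq_pos (s : K →+* ℂ) (P : H3) (L : Lat K) {v : Fin 2 → K} (hv : v ≠ 0) :
    0 < QQ s P L v := by
  have hL : 0 < √(nI L.det) := Real.sqrt_pos.2 (HSG.nI_pos _)
  have hy : 0 < P.1.2 := P.2
  unfold QQ
  refine div_pos (div_pos ?_ hy) hL
  by_cases h0 : v 0 = 0
  · have h1 : v 1 ≠ 0 := by
      intro h1
      apply hv
      ext i
      fin_cases i
      · exact h0
      · exact h1
    rw [h0, map_zero, zero_mul, zero_add, map_zero, zero_mul, add_zero]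
    exact Complex.normSq_pos.2 (by simpa using h1)
  · have h2 : 0 < normSq (s (v 0)) := Complex.normSq_pos.2 (by simpa using h0)
    have h3 := Complex.normSq_nonneg (s (v 0) * P.1.1 + s (v 1))
    positivity

theorem qq_cont (s : K →+* ℂ) (L : Lat K) (v : Fin 2 → K) :
    Continuous (fun P : H3 => QQ s P L v) := by
  have h1 : Continuous (fun P : H3 => P.1.1) := continuous_fst.comp continuous_subtype_val
  have h2 : Continuous (fun P : H3 => P.1.2) := continuous_snd.comp continuous_subtype_val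
  unfold QQ
  refine Continuous.div_const (Continuous.div ?_ h2 fun P => P.2.ne') _
  exact (Complex.continuous_normSq.comp ((continuous_const.mul h1).add continuous_const)).add
    (continuous_const.mul (h2.pow 2))

/-- the value at the slices -/
theorem qq_slice (S : IQ s) (P : H3) (b c : HSG.Id K) :
    QQ s P (Lat.ds b c⁻¹) ![0, 1] = √(nI c / nI b) / P.1.2 := by
  have hb := HSG.nI_pos b
  have hc := HSG.nI_pos c
  have hy : 0 < P.1.2 := P.2
  unfold QQ
  rw [HSG.det_ds, HSG.nI_mul, HSG.nI_inv]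
  simp only [Matrix.cons_val_zero, Matrix.cons_val_one, map_zero, zero_mul, zero_add, map_one,
    add_zero]
  rw [div_div, mul_comm P.1.2, ← div_div]
  congr 1
  rw [one_div, ← Real.sqrt_inv]
  congr 1
  rw [mul_inv, inv_inv, div_eq_mul_inv, mul_comm]

end Pool.Agent.HI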