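import Pool.Agent.Lib_helper25.HIF.DX
import Pool.Agent.Lib_helper25.HIF.QE

/-!
# Project HI, block QF: bounds for theta series
-/

namespace Pool.Agent.HI
open NumberField Complex MeasureTheory IsDedekindDomain Filter Topology
open scoped nonZeroDivisors MatrixGroups ENNReal
open Pool.Agent.HB (H3 mu Kb mk3)
open Pool.Agent.HSG (Lat Pr IsInt nI prI DD nm wm dgm dt qP NCl)
open Pool.Agent.HSG.LV (Pt Sc Cp sS ptS dua)

variable {K : Type} [Field K] [NumberField K] {s : K →+* ℂ}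

theorem qf_qq_nonneg (s : K →+* ℂ) (P : H3) (L : Lat K) (v : Fin 2 → K) : 0 ≤ QQ s P L v := by
  unfold QQ
  have h1 := P.2
  have h2 : (0 : ℝ) < P.1.2 := h1
  have h3 := normSq_nonneg (s (v 0) * P.1.1 + s (v 1))
  have h4 := normSq_nonneg (s (v 0))
  positivity

theorem qf_qq_zero (s : K →+* ℂ) (P : H3) (L : Lat K) : QQ s P L 0 = 0 := by
  simp [QQ]

theorem qf_Dk_pos : 0 < Dk K := by
  unfold Dk
  rw [abs_pos]
  exact_mod_cast NumberField.discr_ne_zero K

theorem qf_e2_zero : e2 0 = 1 := by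
  simp [e2]

/-- Poisson summation for the full lattice -/
theorem qf_pois (S : IQ s) (P : H3) (L : Lat K) {t : ℝ} (ht : 0 < t) :
    Summable (fun v : L.M => Real.exp (-(Real.pi * (t * QQ s P L v)))) ∧
    Summable (fun l : (dua 1 L).M =>
      Real.exp (-(Real.pi * (4 * QQ s P (dua 1 L) l / (t * Dk K))))) ∧
    ∑' v : L.M, Real.exp (-(Real.pi * (t * QQ s P L v))) =
      4 / (t ^ 2 * Dk K) * ∑' l : (dua 1 L).M,
        Real.exp (-(Real.pi * (4 * QQ s P (dua 1 L) l / (t * Dk K)))) := by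
  have h := theta_poisson S (n := 1) HSG.isInt_one P L (v := 0) L.M.zero_mem ht
  rw [HSG.sm_one, HSG.nI_one] at h
  obtain ⟨h1, h2, h3⟩ := h
  simp only [zero_add, mul_one, one_pow] at h1 h2 h3
  refine ⟨h1, h2, ?_⟩
  have h4 : ∀ l : Fin 2 → K, e2 (s (dt l 0)) = 1 := by
    intro l
    have : dt l 0 = 0 := by simp [dt]
    rw [this, map_zero, qf_e2_zero]
  simp only [h4, one_mul] at h3
  rw [← Complex.ofReal_tsum] at h3
  exact_mod_cast h3

theorem qf_dual_ge (S : IQ s) (P : H3) (L : Lat K) {t : ℝ} (ht : 0 < t) :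
    1 ≤ ∑' l : (dua 1 L).M,
        Real.exp (-(Real.pi * (4 * QQ s P (dua 1 L) l / (t * Dk K)))) := by
  have h1 := (qf_pois S P L ht).2.1
  have h2 := h1.le_tsum (0 : (dua 1 L).M) (fun l _ => (Real.exp_pos _).le)
  refine le_trans (le_of_eq ?_) h2
  show 1 = Real.exp (-(Real.pi * (4 * QQ s P (dua 1 L) 0 / (t * Dk K))))
  rw [qf_qq_zero]
  simp

/-- the full theta series is at least 2 for small `t` -/
theorem th_two_le (S : IQ s) (P : H3) (L : Lat K) {t : ℝ} (ht : 0 < t)
    (h : Dk K * t ^ 2 ≤ 2) :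
    2 ≤ ∑' v : L.M, Real.exp (-(Real.pi * (t * QQ s P L v))) := by
  rw [(qf_pois S P L ht).2.2]
  have h1 := qf_dual_ge S P L ht
  have hD : 0 < Dk K := qf_Dk_pos
  have h2 : 2 ≤ 4 / (t ^ 2 * Dk K) := by
    rw [le_div_iff₀ (by positivity)]
    nlinarith
  calc (2 : ℝ) = 2 * 1 := by ring
    _ ≤ _ := mul_le_mul h2 h1 zero_le_one (by positivity)

/-- monotonicity (by Poisson summation) -/
theorem th_scale (S : IQ s) (P : H3) (L : Lat K) {t t' : ℝ} (ht : 0 < t) (h : t ≤ t') :
    ∑' v : L.M, Real.exp (-(Real.pi * (t * QQ s P L v))) ≤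
      (t' / t) ^ 2 * ∑' v : L.M, Real.exp (-(Real.pi * (t' * QQ s P L v))) := by
  have ht' : 0 < t' := ht.trans_le h
  have hD : 0 < Dk K := qf_Dk_pos
  obtain ⟨-, a2, a3⟩ := qf_pois S P L ht
  obtain ⟨-, b2, b3⟩ := qf_pois S P L ht'
  rw [a3, b3]
  have h1 : ∑' l : (dua 1 L).M, Real.exp (-(Real.pi * (4 * QQ s P (dua 1 L) l / (t * Dk K)))) ≤
      ∑' l : (dua 1 L).M, Real.exp (-(Real.pi * (4 * QQ s P (dua 1 L) l / (t' * Dk K)))) := by
    refine a2.tsum_le_tsum (fun l => ?_) b2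
    apply Real.exp_le_exp.2
    have h2 := qf_qq_nonneg s P (dua 1 L) l
    have h3 : 4 * QQ s P (dua 1 L) l / (t' * Dk K) ≤ 4 * QQ s P (dua 1 L) l / (t * Dk K) := by
      apply div_le_div_of_nonneg_left (by positivity) (by positivity)
      exact mul_le_mul_of_nonneg_right h hD.le
    have h4 := mul_le_mul_of_nonneg_left h3 Real.pi_pos.le
    linarith
  have h2 : (t' / t) ^ 2 * (4 / (t' ^ 2 * Dk K)) = 4 / (t ^ 2 * Dk K) := by
    field_simp
  rw [← mul_assoc, h2]
  exact mul_le_mul_of_nonneg_left h1 (by positivity)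

theorem qf_num {a : ℝ} (ha : 0 ≤ a) :
    (1 + a) ^ 4 * Real.exp (-(Real.pi * (2 + a))) ≤ 1 / 2 := by
  have h1 : 1 + a ≤ 2 * Real.exp (a / 2) := by
    have := Real.add_one_le_exp (a / 2)
    linarith
  have h2 : (1 + a) ^ 4 ≤ 16 * Real.exp (2 * a) := by
    have := pow_le_pow_left₀ (by linarith) h1 4
    refine this.trans (le_of_eq ?_)
    rw [mul_pow, ← Real.exp_nat_mul]
    norm_num
    ring
  have h3 : Real.exp (-(Real.pi * (2 + a))) ≤ Real.exp (-(6 + 2 * a)) := by
    apply Real.exp_le_exp.2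
    have := Real.pi_gt_three
    nlinarith
  have h4 : Real.exp (-(6 + 2 * a)) = Real.exp (-6) * Real.exp (-(2 * a)) := by
    rw [← Real.exp_add]
    ring_nf
  have h5 : Real.exp (-6 : ℝ) ≤ 1 / 32 := by
    have h6 : (2 : ℝ) ≤ Real.exp 1 := by
      have := Real.add_one_le_exp (1 : ℝ)
      linarith
    have h7 : (32 : ℝ) ≤ Real.exp 6 := by
      have h8 : Real.exp 6 = Real.exp 1 ^ 6 := by
        rw [← Real.exp_nat_mul]
        norm_num
      rw [h8]
      have := pow_le_pow_left₀ (by norm_num) h6 6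
      linarith
    rw [Real.exp_neg]
    rw [inv_le_comm₀ (Real.exp_pos _) (by norm_num)]
    norm_num
    exact h7
  calc (1 + a) ^ 4 * Real.exp (-(Real.pi * (2 + a)))
      ≤ 16 * Real.exp (2 * a) * (Real.exp (-6) * Real.exp (-(2 * a))) := by
        rw [← h4]
        exact mul_le_mul h2 h3 (Real.exp_pos _).le (by positivity)
    _ = 16 * Real.exp (-6) * (Real.exp (2 * a) * Real.exp (-(2 * a))) := by ring
    _ = 16 * Real.exp (-6) := by
        rw [← Real.exp_add, add_neg_cancel, Real.exp_zero, mul_one]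
    _ ≤ 1 / 2 := by linarith

/-- if all nonzero vectors satisfy `Q(v) ≥ δ` then `∑ e^{-π Q(v)} ≤ 2 (1 + 1/δ)⁴` -/
theorem th_le (S : IQ s) (P : H3) (L : Lat K) {δ : ℝ} (hδ : 0 < δ)
    (h : ∀ v ∈ L.M, v ≠ 0 → δ ≤ QQ s P L v) :
    ∑' v : L.M, Real.exp (-(Real.pi * QQ s P L v)) ≤ 2 * (1 + 1 / δ) ^ 4 := by
  classical
  set a : ℝ := 1 / δ with ha
  have ha0 : 0 ≤ a := by positivity
  set t' : ℝ := (1 + a) ^ 2 with ht'
  have h1t : 1 ≤ t' := by
    rw [ht']
    nlinarith
  have e1 : t' = 1 + (2 + a) / δ := by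
    rw [ht', show (2 + a) / δ = (2 + a) * a by rw [ha]; ring]
    ring
  have s1 := (qf_pois S P L one_pos).1
  have s2 := (qf_pois S P L (t := t') (by linarith)).1
  have h2 := th_scale S P L one_pos h1t
  simp only [one_mul, div_one] at s1 h2
  set T := ∑' v : L.M, Real.exp (-(Real.pi * QQ s P L v)) with hT
  have h3 : ∑' v : L.M, Real.exp (-(Real.pi * (t' * QQ s P L v))) ≤
      1 + Real.exp (-(Real.pi * (2 + a))) * T := by
    rw [s2.tsum_eq_add_tsum_ite 0]
    have h4 : Real.exp (-(Real.pi * (t' * QQ s P L ((0 : L.M) : Fin 2 → K)))) = 1 := by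
      rw [show ((0 : L.M) : Fin 2 → K) = 0 from rfl, qf_qq_zero]
      simp
    rw [h4, hT, ← tsum_mul_left]
    refine add_le_add_right ?_ 1
    have s3 : Summable (fun v : L.M => Real.exp (-(Real.pi * (2 + a))) *
        Real.exp (-(Real.pi * QQ s P L v))) := s1.mul_left _
    refine Summable.tsum_le_tsum (fun v => ?_) ?_ s3
    · by_cases hv : v = 0
      · rw [if_pos hv]
        positivity
      · rw [if_neg hv, ← Real.exp_add]
        apply Real.exp_le_exp.2
        have h5 := h v v.2 (fun h0 => hv (Subtype.ext h0))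
        have h6 : (2 + a) ≤ (t' - 1) * QQ s P L v := by
          rw [e1]
          have h7 : (1 + (2 + a) / δ - 1) * QQ s P L v = (2 + a) * (QQ s P L v / δ) := by ring
          rw [h7]
          have h8 : 1 ≤ QQ s P L v / δ := by
            rw [le_div_iff₀ hδ]
            linarith
          nlinarith
        have h9 := mul_le_mul_of_nonneg_left h6 Real.pi_pos.le
        nlinarith
    · refine Summable.of_nonneg_of_le (fun v => ?_) (fun v => ?_) s2
      · split_ifs
        · exact le_rfl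
        · positivity
      · split_ifs
        · positivity
        · exact le_rfl
  have h10 : t' ^ 2 = (1 + a) ^ 4 := by
    rw [ht']
    ring
  have h11 := qf_num ha0
  have hT0 : 0 ≤ T := tsum_nonneg (fun _ => (Real.exp_pos _).le)
  have h12 : T ≤ (1 + a) ^ 4 * (1 + Real.exp (-(Real.pi * (2 + a))) * T) := by
    refine h2.trans ?_
    rw [h10]
    exact mul_le_mul_of_nonneg_left h3 (by positivity)
  have h13 : (1 + a) ^ 4 * (1 + Real.exp (-(Real.pi * (2 + a))) * T) =
      (1 + a) ^ 4 + ((1 + a) ^ 4 * Real.exp (-(Real.pi * (2 + a)))) * T := by ring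
  rw [h13] at h12
  have h14 := mul_le_mul_of_nonneg_right h11 hT0
  linarith

/-! ## the coset -/

theorem qf_dv {n : HSG.Id K} (hn : IsInt n) (h1 : n ≠ 1) : ∃ p : Pr K, HSG.LV.Dv p n := by
  obtain ⟨J, h0, hJ, -⟩ := HSG.ga3_int hn
  have hJ1 : J ≠ ⊤ := by
    intro h
    apply h1
    apply Units.ext
    rw [← hJ, h, Units.val_one]
    simp
  obtain ⟨M, hM, hJM⟩ := Ideal.exists_le_maximal J hJ1
  have hM0 : M ≠ ⊥ := by
    intro h
    rw [h, le_bot_iff] at hJM
    exact h0 hJM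
  refine ⟨⟨M, hM.isPrime, hM0⟩, ?_⟩
  unfold HSG.LV.Dv
  rw [HSG.isInt_div]
  intro x hx
  rw [HSG.ga3_mem hJ] at hx
  obtain ⟨y, hy, rfl⟩ := hx
  have : ((y : 𝓞 K) : K) ∈ HSG.Id.m (HS.frP (⟨M, hM.isPrime, hM0⟩ : Pr K)) := by
    show ((y : 𝓞 K) : K) ∈ ((M : FractionalIdeal (𝓞 K)⁰ K) : Submodule (𝓞 K) K)
    rw [FractionalIdeal.coe_coeIdeal, IsLocalization.mem_coeSubmodule]
    exact ⟨y, hJM hy, rfl⟩
  exact this

theorem qf_sm_mono {a b : HSG.Id K} (h : a.m ≤ b.m) (L : Lat K) : (L.sm a).M ≤ (L.sm b).M :=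
  Submodule.smul_mono_left h

theorem qf_zero_mem {n : HSG.Id K} (hn : IsInt n) (x : Pt n) : (0 : Fin 2 → K) ∈ x.V ↔ n = 1 := by
  have h1 := x.ex.choose_spec.1
  have h2 := x.ex.choose_spec.2
  set v0 := x.ex.choose with hv0
  rw [h2]
  have h3 : (0 : Fin 2 → K) ∈ HSG.LV.cst n x.L v0 ↔ v0 ∈ (x.L.sm n).M := by
    show 0 - v0 ∈ (x.L.sm n).M ↔ _
    rw [zero_sub]
    exact Submodule.neg_mem_iff _
  rw [h3]
  constructor
  · intro h
    by_contra h4
    obtain ⟨p, hp⟩ := qf_dv hn h4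
    exact h1.2 p hp (qf_sm_mono ((HSG.isInt_div _ _).1 hp) x.L h)
  · intro h
    have h5 : ∀ (m : HSG.Id K) (L : Lat K), m = 1 → (L.sm m).M = L.M := by
      intro m L hm
      rw [hm, HSG.sm_one]
    rw [h5 n x.L h]
    exact h1.1

omit [NumberField K] in
/-- a sum over a coset -/
theorem qf_coset (M : Submodule (𝓞 K) (Fin 2 → K)) (v0 : Fin 2 → K) (f : (Fin 2 → K) → ℝ)
    (hs : Summable (fun x : M => f (v0 + x))) :
    Summable (fun v : Fin 2 → K => open scoped Classical in if v - v0 ∈ M then f v else 0) ∧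
    (open scoped Classical in ∑' v : Fin 2 → K, if v - v0 ∈ M then f v else 0) =
      ∑' x : M, f (v0 + x) := by
  classical
  have h0 : (fun v : Fin 2 → K => if v - v0 ∈ M then f v else 0) ∘ (Equiv.addLeft v0) =
      (M : Set (Fin 2 → K)).indicator (fun x => f (v0 + x)) := by
    funext x
    rw [Set.indicator_apply]
    simp only [Function.comp_apply, Equiv.coe_addLeft, add_sub_cancel_left, SetLike.mem_coe]
  constructor
  · rw [← (Equiv.addLeft v0).summable_iff, h0]
    exact summable_subtype_iff_indicator.1 hs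
  · have h1 : ∑' x : M, f (v0 + x) =
        ∑' x : Fin 2 → K, (M : Set (Fin 2 → K)).indicator (fun x => f (v0 + x)) x :=
      tsum_subtype (M : Set (Fin 2 → K)) (fun x => f (v0 + x))
    rw [h1, ← (Equiv.addLeft v0).tsum_eq, ← h0]
    rfl

omit [NumberField K] in
/-- a sum over a lattice -/
theorem qf_sub (M : Submodule (𝓞 K) (Fin 2 → K)) (g : (Fin 2 → K) → ℂ)
    (hs : Summable (fun x : M => g x)) :
    Summable (fun v : Fin 2 → K => open scoped Classical in if v ∈ M then g v else 0) ∧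
    ∑' x : M, g x =
      (open scoped Classical in ∑' v : Fin 2 → K, if v ∈ M then g v else 0) := by
  classical
  have h0 : (fun v : Fin 2 → K => if v ∈ M then g v else 0) =
      (M : Set (Fin 2 → K)).indicator g := by
    funext x
    rw [Set.indicator_apply]
    rfl
  constructor
  · rw [h0]
    exact summable_subtype_iff_indicator.1 hs
  · rw [h0]
    exact tsum_subtype (M : Set (Fin 2 → K)) g

omit [NumberField K] in
/-- removing the term of index 0 -/
theorem qf_split {E : Type} [NormedAddCommGroup E] [CompleteSpace E] (p : (Fin 2 → K) → Prop)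
    (f : (Fin 2 → K) → E)
    (hs : Summable (fun v : Fin 2 → K => open scoped Classical in if p v then f v else 0)) :
    (open scoped Classical in ∑' v : Fin 2 → K, if p v then f v else 0) =
      (open scoped Classical in if p 0 then f 0 else 0) +
      (open scoped Classical in ∑' v : Fin 2 → K, if p v ∧ v ≠ 0 then f v else 0) := by
  classical
  rw [hs.tsum_eq_add_tsum_ite 0]
  congr 1
  apply tsum_congr
  intro v
  by_cases h0 : v = 0
  · simp [h0]
  · simp [h0]

/-- the functional equation of the theta series of a coset -/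
theorem th_fe (S : IQ s) {n : HSG.Id K} (hn : IsInt n) (P : H3) (x : Pt n) {t : ℝ} (ht : 0 < t) :
    ((th s t P x : ℝ) : ℂ) + (open scoped Classical in if n = 1 then 1 else 0) =
      ((4 / (t ^ 2 * Dk K * nI n ^ 2) : ℝ) : ℂ) * (1 + thD s t⁻¹ P x) := by
  classical
  have h1 := x.ex.choose_spec.1
  have h2 := x.ex.choose_spec.2
  have hz := qf_zero_mem hn x
  obtain ⟨p1, p2, p3⟩ := theta_poisson S hn P x.L h1.1 ht
  have hD : 0 < Dk K := qf_Dk_pos
  have hnI := HSG.nI_pos n
  have hmem : ∀ v : Fin 2 → K, v - x.ex.choose ∈ (x.L.sm n).M ↔ v ∈ x.V := by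
    intro v
    exact (Set.ext_iff.1 h2 v).symm
  -- the left side
  obtain ⟨l1, l2⟩ := qf_coset (x.L.sm n).M x.ex.choose
    (fun v => Real.exp (-(Real.pi * (t * QQ s P x.L v)))) p1
  simp only [hmem] at l1 l2
  have l3 := qf_split (fun v => v ∈ x.V) (fun v => Real.exp (-(Real.pi * (t * QQ s P x.L v)))) l1
  simp only [hz, qf_qq_zero, mul_zero, neg_zero, Real.exp_zero] at l3
  have l4 : ((th s t P x : ℝ) : ℂ) + (if n = 1 then 1 else 0) =
      ((∑' y : (x.L.sm n).M, Real.exp (-(Real.pi * (t * QQ s P x.L (x.ex.choose + y)))) : ℝ) :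
        ℂ) := by
    rw [← l2, l3, th]
    push_cast
    rw [add_comm]
    split_ifs <;> simp
  rw [l4, p3]
  congr 1
  -- the right side
  set g : (Fin 2 → K) → ℂ := fun l => e2 (s (dt l x.ex.choose)) *
    ((Real.exp (-(Real.pi * (4 * QQ s P (dua n x.L) l / (t * Dk K * nI n)))) : ℝ) : ℂ) with hg
  have r1 : Summable (fun l : (dua n x.L).M => g l) := by
    refine Summable.of_norm_bounded p2 (fun l => ?_)
    rw [hg]
    rw [norm_mul, Complex.norm_real, Real.norm_eq_abs, Real.abs_exp]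
    have : ‖e2 (s (dt (l : Fin 2 → K) x.ex.choose))‖ = 1 := by
      unfold e2
      rw [Complex.norm_exp]
      simp
    rw [this, one_mul]
  obtain ⟨r2, r3⟩ := qf_sub (dua n x.L).M g r1
  have r4 := qf_split (fun l => l ∈ (dua n x.L).M) g r2
  have r5 : g 0 = 1 := by
    rw [hg]
    have : dt (0 : Fin 2 → K) x.ex.choose = 0 := by simp [dt]
    simp only [this, map_zero, qf_e2_zero, qf_qq_zero]
    simp
  rw [if_pos (dua n x.L).M.zero_mem, r5] at r4
  have r6 : thD s t⁻¹ P x =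
      ∑' l : Fin 2 → K, if l ∈ (dua n x.L).M ∧ l ≠ 0 then g l else 0 := by
    unfold thD
    apply tsum_congr
    intro l
    have : t⁻¹ * (4 * QQ s P (dua n x.L) l / (Dk K * nI n)) =
        4 * QQ s P (dua n x.L) l / (t * Dk K * nI n) := by
      rw [mul_assoc t, ← div_eq_inv_mul, div_div, mul_comm (Dk K * nI n) t]
    rw [this]
  rw [r6, ← r4, ← r3]

end Pool.Agent.HI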