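import Pool.Agent.Lib_helper25.HIF.DX
import Pool.Agent.Lib_helper25.HIF.AA
import Pool.Agent.Lib_helper25.HIF.AO
import Pool.Agent.Lib_helper25.HIF.QA
import Pool.Agent.Lib_helper84.LVF.LQ
import Pool.Agent.Lib_helper84.LVF.LF
import Pool.Agent.Lib_helper84.HSGF.GA1
import Pool.Agent.Lib_helper84.HSGF.GA3
import Pool.Agent.Lib_helper84.HSGF.GH

/-!
# Project HI, block QG: exactness of the slices
-/

namespace Pool.Agent.HI
open NumberField Complex MeasureTheory IsDedekindDomain Filter Topology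
open scoped nonZeroDivisors MatrixGroups ENNReal
open Pool.Agent.HB (H3 mu Kb mk3)
open Pool.Agent.HSG (Lat Pr IsInt nI prI DD nm wm dgm dt qP NCl Kp Uu Pp)
open Pool.Agent.HSG.LV (Pt Sc Cp sS ptS dua)

variable {K : Type} [Field K] [NumberField K] {s : K →+* ℂ}

/-! ### The embeddings and the units (as in block AO of helper3) -/

theorem qg_ne (S : IQ s) : s ≠ ComplexEmbedding.conjugate s := by
  intro h
  obtain ⟨x, hx⟩ := S.im
  have h1 := RingHom.congr_fun h x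
  rw [ComplexEmbedding.conjugate_coe_eq] at h1
  apply hx
  have h2 := congrArg Complex.im h1
  rw [Complex.conj_im] at h2
  linarith

theorem qg_emb (S : IQ s) (φ : K →+* ℂ) : φ = s ∨ φ = ComplexEmbedding.conjugate s := by
  classical
  by_contra h
  push Not at h
  have h1 : Fintype.card (K →+* ℂ) = 2 := by
    rw [NumberField.Embeddings.card K ℂ, S.deg]
  have h2 : ({φ, s, ComplexEmbedding.conjugate s} : Finset (K →+* ℂ)).card = 3 := by
    rw [Finset.card_eq_three]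
    exact ⟨φ, s, ComplexEmbedding.conjugate s, h.1, h.2, qg_ne S, rfl⟩
  have h3 := Finset.card_le_univ ({φ, s, ComplexEmbedding.conjugate s} : Finset (K →+* ℂ))
  rw [h1, h2] at h3
  omega

theorem qg_norm_eq (S : IQ s) (φ : K →+* ℂ) (x : K) : ‖φ x‖ = ‖s x‖ := by
  rcases qg_emb S φ with h | h
  · rw [h]
  · rw [h, ComplexEmbedding.conjugate_coe_eq, Complex.norm_conj]

theorem qg_em (S : IQ s) : IsEmpty (HSG.Em K) := by
  refine ⟨fun w => ?_⟩
  obtain ⟨x, hx⟩ := S.im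
  rcases qg_emb S ((Complex.ofRealHom.comp w : K →+* ℂ)) with h | h
  · have h1 := RingHom.congr_fun h x
    apply hx
    rw [← h1]
    simp
  · have h1 := RingHom.congr_fun h x
    rw [ComplexEmbedding.conjugate_coe_eq] at h1
    apply hx
    have h2 := congrArg Complex.im h1
    rw [Complex.conj_im] at h2
    simp only [RingHom.coe_comp, Function.comp_apply, Complex.ofRealHom_eq_coe,
      Complex.ofReal_im] at h2
    linarith

theorem qg_kp (S : IQ s) (x : Kˣ) : x ∈ Kp K := by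
  have := qg_em S
  intro w
  exact (this.false w).elim

/-- a unit of the ring of integers as a unit of the field -/
noncomputable def qg_u (u : (𝓞 K)ˣ) : Kˣ := Units.map (algebraMap (𝓞 K) K).toMonoidHom u

omit [NumberField K] in
theorem qg_u_inj : Function.Injective (qg_u (K := K)) := by
  intro u v h
  have h1 := congrArg Units.val h
  exact Units.ext (RingOfIntegers.ext h1)

theorem qg_u_prI (u : (𝓞 K)ˣ) : prI (qg_u u) = 1 := by
  have : qg_u u ∈ Uu K := (HSG.mem_uu _).2 ⟨u, rfl⟩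
  exact this

theorem qg_u_sur {x : Kˣ} (h : prI x = 1) : ∃ u, qg_u u = x := by
  obtain ⟨u, hu⟩ := (HSG.mem_uu x).1 h
  exact ⟨u, Units.ext hu⟩

theorem qg_unit_norm (S : IQ s) (u : (𝓞 K)ˣ) : ‖s ((u : 𝓞 K) : K)‖ = 1 := by
  have h3 := nI_norm S (qg_u u)
  rw [qg_u_prI, HSG.nI_one] at h3
  have h4 : ‖s ((u : 𝓞 K) : K)‖ ^ 2 = 1 := h3.symm
  have h5 := norm_nonneg (s ((u : 𝓞 K) : K))
  nlinarith

theorem qg_units_finite (S : IQ s) : Finite (𝓞 K)ˣ := by
  have h1 := NumberField.Embeddings.finite_of_norm_le K ℂ 1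
  have h2 : Set.MapsTo (fun u : (𝓞 K)ˣ => ((u : 𝓞 K) : K)) Set.univ
      {x : K | IsIntegral ℤ x ∧ ∀ φ : K →+* ℂ, ‖φ x‖ ≤ 1} := by
    intro u _
    refine ⟨RingOfIntegers.isIntegral_coe _, fun φ => ?_⟩
    rw [qg_norm_eq S φ, qg_unit_norm S]
  have h3 : Set.InjOn (fun u : (𝓞 K)ˣ => ((u : 𝓞 K) : K)) Set.univ := by
    intro u _ v _ h
    exact Units.ext (RingOfIntegers.ext h)
  exact Set.finite_univ_iff.1 (Set.Finite.of_injOn h2 h3 h1)

/-! ### The elements which preserve a slice -/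

omit [NumberField K] in
theorem qg_row1 {g : GL (Fin 2) K} {v : Fin 2 → K} :
    Matrix.vecMul v ((g⁻¹ : GL (Fin 2) K) : Matrix (Fin 2) (Fin 2) K) = ![0, 1] ↔
      (g : Matrix (Fin 2) (Fin 2) K) 1 = v := by
  have h1 : Matrix.vecMul ![0, 1] (g : Matrix (Fin 2) (Fin 2) K) =
      (g : Matrix (Fin 2) (Fin 2) K) 1 := by
    ext j
    simp [Matrix.vecMul, dotProduct, Fin.sum_univ_two]
  constructor
  · intro h
    rw [← h1, ← h, Matrix.vecMul_vecMul, ← Units.val_mul, inv_mul_cancel]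
    simp
  · intro h
    rw [← h, ← h1, Matrix.vecMul_vecMul, ← Units.val_mul, mul_inv_cancel]
    simp

/-- the matrix `[[ε, β], [0, 1]]` -/
noncomputable def qg_g (ε : Kˣ) (β : K) : GL (Fin 2) K := (nm β : GL (Fin 2) K) * dgm ε

omit [NumberField K] in
theorem qg_g_val (ε : Kˣ) (β : K) : (qg_g ε β : Matrix (Fin 2) (Fin 2) K) =
    !![(ε : K), β; 0, 1] := by
  unfold qg_g
  rw [Units.val_mul]
  show ((nm β : SL(2, K)) : Matrix (Fin 2) (Fin 2) K) * (dgm ε : Matrix (Fin 2) (Fin 2) K) = _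
  ext i j
  fin_cases i <;> fin_cases j <;> simp [nm, dgm, Matrix.mul_apply, Fin.sum_univ_two]

omit [NumberField K] in
theorem qg_g_inj {ε ε' : Kˣ} {β β' : K} (h : qg_g ε β = qg_g ε' β') : ε = ε' ∧ β = β' := by
  have h1 := congrArg Units.val h
  rw [qg_g_val, qg_g_val] at h1
  constructor
  · have := congrFun (congrFun h1 0) 0
    exact Units.ext (by simpa using this)
  · have := congrFun (congrFun h1 0) 1
    simpa using this

theorem qg_g_ac (s : K →+* ℂ) (ε : Kˣ) (β : K) (P : H3) :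
    (aH s (qg_g ε β) P).1.1 = s ε * P.1.1 + s β := by
  rw [aH_val]
  unfold qg_g
  rw [ac_mul s _ _ P.2, (ac_dgm s ε P.1 (0, 0)).1, (ac_nm s β _ (0, 0)).1]

theorem qg_g_smul {n b c : HSG.Id K} (hc : Cp n c) {ε : Kˣ} (hε : prI ε = 1) {β : K}
    (hβ : β ∈ (c⁻¹ / b).m) : (ptS b hc).mul (qg_g ε β)⁻¹ = ptS b hc := by
  have h1 : (ptS b hc).mul (dgm ε) = ptS b hc := by
    rw [HSG.LV.ptS_dgm hc ε]
    congr 1
    rw [hε, one_mul]
  have h2 : (ptS b hc).mul (nm β : GL (Fin 2) K) = ptS b hc := HSG.LV.ptS_nm hc hβ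
  have h3 : (ptS b hc).mul (qg_g ε β) = ptS b hc := by
    unfold qg_g
    rw [HSG.LV.pt_mul_mul, h2, h1]
  conv_lhs => rw [← h3]
  rw [← HSG.LV.pt_mul_mul, mul_inv_cancel, HSG.LV.pt_mul_one]

/-- the value of the weight at the points of a slice -/
theorem qg_wsl {n : HSG.Id K} (b : NCl K → HSG.Id K) (Bx : HSG.Id K → Set ℂ) (P : H3)
    (κ : NCl K) {c : HSG.Id K} (hc : Cp n c) :
    wsl b Bx P ⟨ptS (b κ) hc, ![0, 1]⟩ =
      (Bx (c⁻¹ / b κ)).indicator (fun _ => ENNReal.ofReal (1 / (Nat.card (𝓞 K)ˣ : ℝ))) P.1.1 := by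
  unfold wsl
  by_cases h : P.1.1 ∈ Bx (c⁻¹ / b κ)
  · rw [Set.indicator_of_mem h, if_pos]
    exact ⟨κ, c, hc, rfl, h⟩
  · rw [Set.indicator_of_notMem h, if_neg]
    rintro ⟨κ', c', hc', h1, h2⟩
    have h3 : Lat.ds (b κ) c⁻¹ = Lat.ds (b κ') c'⁻¹ := congrArg (fun a => a.x.L) h1
    obtain ⟨h4, h5⟩ := HSG.ds_inj h3
    rw [← h4, ← h5] at h2
    exact h h2

theorem wsl_meas {n : HSG.Id K} (b : NCl K → HSG.Id K) {Bx : HSG.Id K → Set ℂ}
    (hB : ∀ y, IsBox s y (Bx y)) (a : PV n) : Measurable (fun P => wsl b Bx P a) := by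
  by_cases h : ∃ (κ : NCl K) (c : HSG.Id K) (hc : Cp n c), a = ⟨ptS (b κ) hc, ![0, 1]⟩
  · obtain ⟨κ, c, hc, rfl⟩ := h
    have h1 : (fun P : H3 => wsl b Bx P (⟨ptS (b κ) hc, ![0, 1]⟩ : PV n)) =
        fun P : H3 => (Bx (c⁻¹ / b κ)).indicator
          (fun _ => ENNReal.ofReal (1 / (Nat.card (𝓞 K)ˣ : ℝ))) P.1.1 := by
      funext P
      exact qg_wsl b Bx P κ hc
    rw [h1]
    exact (measurable_const.indicator (hB _).meas).comp
      (measurable_fst.comp measurable_subtype_coe)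
  · have h1 : (fun P : H3 => wsl b Bx P a) = fun _ => 0 := by
      funext P
      unfold wsl
      rw [if_neg]
      rintro ⟨κ, c, hc, h1, -⟩
      exact h ⟨κ, c, hc, h1⟩
    rw [h1]
    exact measurable_const

theorem wsl_ex (S : IQ s) {n : HSG.Id K} (hn : IsInt n) {b : NCl K → HSG.Id K}
    (hb : ∀ κ, (QuotientGroup.mk (b κ) : NCl K) = κ) {Bx : HSG.Id K → Set ℂ}
    (hB : ∀ y, IsBox s y (Bx y)) (P : H3) (a : PV n) (h1 : a.v ∈ a.x.V) (h2 : a.v ≠ 0) :
    ∑' g : GL (Fin 2) K, wsl b Bx (aH s g P) (PV.act g a) = 1 := by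
  have hfin := qg_units_finite S
  obtain ⟨g0, κ, c, hc, -, hg0, hx0⟩ := HSG.LV.orb_gl hn hb a.x h1 h2
  have hact : PV.act g0 a = ⟨ptS (b κ) hc, ![0, 1]⟩ := by
    unfold PV.act
    rw [qg_row1.2 hg0]
    have : a.x.mul g0⁻¹ = ptS (b κ) hc := hx0
    rw [this]
  have hmul : ∀ h : GL (Fin 2) K, PV.act (h * g0) a = PV.act h (PV.act g0 a) := by
    intro h
    unfold PV.act
    simp only
    rw [mul_inv_rev, HSG.LV.pt_mul_mul, Matrix.vecMul_vecMul, ← Units.val_mul]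
  rw [← (Equiv.mulRight g0).tsum_eq]
  have hterm : ∀ h : GL (Fin 2) K, wsl b Bx (aH s ((Equiv.mulRight g0) h) P)
      (PV.act ((Equiv.mulRight g0) h) a) =
      wsl b Bx (aH s h (aH s g0 P)) (PV.act h ⟨ptS (b κ) hc, ![0, 1]⟩) := by
    intro h
    rw [Equiv.coe_mulRight, hmul, hact, aH_mul]
  simp only [hterm]
  generalize aH s g0 P = P0
  -- the translation for a unit
  have hex : ∀ u : (𝓞 K)ˣ, ∃ β ∈ (c⁻¹ / b κ).m, s (qg_u u) * P0.1.1 + s β ∈ Bx (c⁻¹ / b κ) :=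
    fun u => (hB _).ex _
  choose β hβ hβ' using hex
  let Φ : (𝓞 K)ˣ → GL (Fin 2) K := fun u => qg_g (qg_u u) (β u)
  have hΦ : Function.Injective Φ := by
    intro u v h
    exact qg_u_inj (qg_g_inj h).1
  rw [← hΦ.tsum_eq]
  · have hval : ∀ u : (𝓞 K)ˣ, wsl b Bx (aH s (Φ u) P0) (PV.act (Φ u) ⟨ptS (b κ) hc, ![0, 1]⟩) =
        ENNReal.ofReal (1 / (Nat.card (𝓞 K)ˣ : ℝ)) := by
      intro u
      have h3 : PV.act (Φ u) (⟨ptS (b κ) hc, ![0, 1]⟩ : PV n) = ⟨ptS (b κ) hc, ![0, 1]⟩ := by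
        unfold PV.act
        simp only
        have h4 : (Φ u : Matrix (Fin 2) (Fin 2) K) 1 = ![0, 1] := by
          show (qg_g (qg_u u) (β u) : Matrix (Fin 2) (Fin 2) K) 1 = ![0, 1]
          rw [qg_g_val]
          rfl
        rw [qg_row1.2 h4]
        have h5 : (ptS (b κ) hc).mul (Φ u)⁻¹ = ptS (b κ) hc :=
          qg_g_smul hc (qg_u_prI u) (hβ u)
        rw [h5]
      rw [h3, qg_wsl, Set.indicator_of_mem]
      show (aH s (qg_g (qg_u u) (β u)) P0).1.1 ∈ _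
      rw [qg_g_ac]
      exact hβ' u
    simp only [hval]
    have : Fintype (𝓞 K)ˣ := Fintype.ofFinite _
    rw [tsum_fintype, Finset.sum_const, Finset.card_univ, nsmul_eq_mul, ← Nat.card_eq_fintype_card]
    have hpos : (0 : ℝ) < (Nat.card (𝓞 K)ˣ : ℝ) := by
      rw [Nat.cast_pos]
      exact Nat.card_pos
    rw [← ENNReal.ofReal_natCast, ← ENNReal.ofReal_mul hpos.le, mul_one_div_cancel hpos.ne',
      ENNReal.ofReal_one]
  · intro h hh
    rw [Function.mem_support] at hh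
    unfold wsl at hh
    have h3 : ∃ (κ' : NCl K) (c' : HSG.Id K) (hc' : Cp n c'),
        PV.act h (⟨ptS (b κ) hc, ![0, 1]⟩ : PV n) = ⟨ptS (b κ') hc', ![0, 1]⟩ ∧
          (aH s h P0).1.1 ∈ Bx (c'⁻¹ / b κ') := by
      by_contra hcon
      exact hh (if_neg hcon)
    obtain ⟨κ', c', hc', h4, h5⟩ := h3
    have h6 : Matrix.vecMul ![0, 1] ((h⁻¹ : GL (Fin 2) K) : Matrix (Fin 2) (Fin 2) K) = ![0, 1] :=
      congrArg PV.v h4
    have h7 : h • ptS (b κ) hc = ptS (b κ') hc' := congrArg PV.x h4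
    obtain ⟨h8, h9, β', hβ1, hβ2⟩ := HSG.LV.stab_gl hc hc' (qg_row1.1 h6) h7
    have hκ : κ' = κ := by
      rw [← hb κ', ← hb κ, ← h9]
      symm
      rw [QuotientGroup.eq]
      refine ⟨(Matrix.GeneralLinearGroup.det h)⁻¹, qg_kp S _, ?_⟩
      rw [map_inv, mul_inv_rev, mul_assoc, mul_comm (prI _)⁻¹, ← mul_assoc, inv_mul_cancel,
        one_mul]
    subst hκ
    subst h8
    have h10 : prI (Matrix.GeneralLinearGroup.det h) = 1 := by
      have := congrArg (fun x => x * (b κ')⁻¹) h9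
      simpa using this
    obtain ⟨u, hu⟩ := qg_u_sur h10
    refine ⟨u, ?_⟩
    have h11 : h = qg_g (qg_u u) β' := by
      apply Units.ext
      rw [qg_g_val, hβ2, hu]
    have h12 : β' = β u := by
      rw [h11, qg_g_ac] at h5
      have h13 := (hB (c⁻¹ / b κ')).uni _ (β' - β u) (Submodule.sub_mem _ hβ1 (hβ u)) (hβ' u)
        (by
          rw [map_sub]
          have : s (qg_u u) * P0.1.1 + s (β u) + (s β' - s (β u)) =
            s (qg_u u) * P0.1.1 + s β' := by ring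
          rw [this]
          exact h5)
      exact sub_eq_zero.1 h13
    show qg_g (qg_u u) (β u) = h
    rw [h11, h12]


end Pool.Agent.HI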