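import Pool.Agent.Lib_helper25.HIF.DX
import Pool.Agent.Lib_helper25.HIF.AD
import Pool.Agent.Lib_helper25.HIF.AO
import Pool.Agent.Lib_helper25.HIF.QA
import Pool.Agent.Lib_helper25.HIF.QF
import Pool.Agent.Lib_helper25.HIF.QG
import Pool.Agent.Lib_helper84.LVF.LB
import Pool.Agent.Lib_helper84.LVF.LM
import Pool.Agent.Lib_helper84.LVF.LI2

/-!
# Project HI, block QI: the exact weight
-/

namespace Pool.Agent.HI
open NumberField Complex MeasureTheory IsDedekindDomain Filter Topology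
open scoped nonZeroDivisors MatrixGroups ENNReal
open Pool.Agent.HB (H3 mu Kb mk3)
open Pool.Agent.HSG (Lat Pr IsInt nI prI DD nm wm dgm dt qP NCl)
open Pool.Agent.HSG.LV (Pt Sc Cp sS ptS dua)

variable {K : Type} [Field K] [NumberField K] {s : K →+* ℂ}

/-! ### The integral over a slice -/

theorem qi_one {A : ℝ} (hA : 0 < A) :
    ∫⁻ y in Set.Ioi (0 : ℝ), ENNReal.ofReal (1 / y ^ 3 * Real.exp (-(Real.pi * (A / y)))) =
      ENNReal.ofReal (1 / (Real.pi * A) ^ 2) := by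
  have hpA : 0 < Real.pi * A := by positivity
  have h0 : ∀ t ∈ Set.Ioi (0 : ℝ), t ^ ((2 : ℝ) - 1) * Real.exp (-(Real.pi * A * t)) =
      t * Real.exp (-(Real.pi * A * t)) := by
    intro t ht
    rw [show (2 : ℝ) - 1 = 1 by norm_num, Real.rpow_one]
  have h1 : IntegrableOn (fun t : ℝ => t * Real.exp (-(Real.pi * A * t))) (Set.Ioi 0) := by
    have h := integrableOn_rpow_mul_exp_neg_mul_rpow (p := 1) (s := 1) (by norm_num) (by norm_num) hpA
    refine h.congr_fun (fun t ht => ?_) measurableSet_Ioi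
    simp only [Real.rpow_one]
    ring_nf
  have h2 : ∫ t in Set.Ioi (0 : ℝ), t * Real.exp (-(Real.pi * A * t)) =
      1 / (Real.pi * A) ^ 2 := by
    rw [← setIntegral_congr_fun measurableSet_Ioi h0,
      Real.integral_rpow_mul_exp_neg_mul_Ioi (by norm_num) hpA]
    rw [Real.Gamma_two, mul_one, show (2 : ℝ) = ((2 : ℕ) : ℝ) by norm_num, Real.rpow_natCast,
      div_pow, one_pow]
  have h3 := integral_comp_rpow_Ioi (fun t : ℝ => t * Real.exp (-(Real.pi * A * t)))
    (p := -1) (by norm_num)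
  have h4 := (integrableOn_Ioi_comp_rpow_iff (fun t : ℝ => t * Real.exp (-(Real.pi * A * t)))
    (p := -1) (by norm_num)).2 h1
  have h5 : ∀ y ∈ Set.Ioi (0 : ℝ), (|(-1 : ℝ)| * y ^ ((-1 : ℝ) - 1)) •
      (y ^ (-1 : ℝ) * Real.exp (-(Real.pi * A * y ^ (-1 : ℝ)))) =
      1 / y ^ 3 * Real.exp (-(Real.pi * (A / y))) := by
    intro y hy
    have hy0 : (0 : ℝ) < y := hy
    have e1 : y ^ ((-1 : ℝ) - 1) = 1 / y ^ 2 := by
      rw [show (-1 : ℝ) - 1 = -((2 : ℕ) : ℝ) by norm_num, Real.rpow_neg hy0.le,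
        Real.rpow_natCast, one_div]
    have e2 : y ^ (-1 : ℝ) = y⁻¹ := by
      rw [Real.rpow_neg hy0.le, Real.rpow_one]
    rw [e1, e2, smul_eq_mul, abs_neg, abs_one, one_mul]
    rw [← mul_assoc]
    congr 1
    · field_simp
    · congr 1
      field_simp
  have h6 : IntegrableOn (fun y : ℝ => 1 / y ^ 3 * Real.exp (-(Real.pi * (A / y))))
      (Set.Ioi 0) := h4.congr_fun h5 measurableSet_Ioi
  have h7 : ∫ y in Set.Ioi (0 : ℝ), 1 / y ^ 3 * Real.exp (-(Real.pi * (A / y))) =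
      1 / (Real.pi * A) ^ 2 := by
    rw [← h2, ← h3]
    exact (setIntegral_congr_fun measurableSet_Ioi h5).symm
  rw [← h7, ofReal_integral_eq_lintegral_ofReal h6]
  filter_upwards [ae_restrict_mem measurableSet_Ioi] with y hy
  have hy0 : (0 : ℝ) < y := hy
  positivity

/-- the integral over `H3` of a function of the coordinates -/
theorem qi_mu {g : ℂ × ℝ → ℝ≥0∞} (hg : Measurable g) :
    ∫⁻ P : H3, g P.1 ∂mu = ∫⁻ y in Set.Ioi (0 : ℝ), ∫⁻ z : ℂ, ENNReal.ofReal (1 / y ^ 3) * g (z, y) := by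
  have hS : MeasurableSet {p : ℂ × ℝ | 0 < p.2} :=
    measurableSet_lt measurable_const measurable_snd
  have hd : Measurable (fun P : H3 => ENNReal.ofReal (1 / P.1.2 ^ 3)) :=
    ((measurable_const.div (measurable_snd.pow_const 3)).ennreal_ofReal).comp
      measurable_subtype_coe
  have hgm : Measurable (fun p : ℂ × ℝ => ENNReal.ofReal (1 / p.2 ^ 3) * g p) :=
    ((measurable_const.div (measurable_snd.pow_const 3)).ennreal_ofReal).mul hg
  have key : ∀ G : ℂ × ℝ → ℝ≥0∞, ∫⁻ P : H3, G (P : ℂ × ℝ)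
      ∂(Measure.comap Subtype.val (volume : Measure (ℂ × ℝ))) =
      ∫⁻ p in {p : ℂ × ℝ | 0 < p.2}, G p := fun G => lintegral_subtype_comap hS G
  have hgc : Measurable (fun P : H3 => g P.1) := hg.comp measurable_subtype_coe
  unfold mu
  rw [lintegral_withDensity_eq_lintegral_mul _ hd hgc]
  refine (key (fun p : ℂ × ℝ => ENNReal.ofReal (1 / p.2 ^ 3) * g p)).trans ?_
  have hpre : {p : ℂ × ℝ | 0 < p.2} = Set.univ ×ˢ Set.Ioi (0 : ℝ) := by
    ext p
    simp
  rw [hpre, Measure.volume_eq_prod, ← Measure.prod_restrict, Measure.restrict_univ,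
    lintegral_prod_symm _ hgm.aemeasurable]

theorem slice_lint (S : IQ s) {y : HSG.Id K} {B : Set ℂ} (hB : IsBox s y B) {A : ℝ}
    (hA : 0 < A) : ∫⁻ P, B.indicator (fun _ => 1) P.1.1 *
      ENNReal.ofReal (Real.exp (-(Real.pi * (A / P.1.2)))) ∂mu =
      ENNReal.ofReal (√(Dk K) / 2 * nI y / (Real.pi * A) ^ 2) := by
  have hg : Measurable (fun p : ℂ × ℝ => B.indicator (fun _ => (1 : ℝ≥0∞)) p.1 *
      ENNReal.ofReal (Real.exp (-(Real.pi * (A / p.2))))) := by
    refine Measurable.mul ?_ ?_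
    · exact (measurable_const.indicator hB.meas).comp measurable_fst
    · have : Measurable (fun p : ℂ × ℝ => p.2) := measurable_snd
      fun_prop
  refine (qi_mu hg).trans ?_
  have e1 : ∀ t ∈ Set.Ioi (0 : ℝ), ∫⁻ z : ℂ, ENNReal.ofReal (1 / t ^ 3) *
      (B.indicator (fun _ => (1 : ℝ≥0∞)) z * ENNReal.ofReal (Real.exp (-(Real.pi * (A / t))))) =
      volume B * ENNReal.ofReal (1 / t ^ 3 * Real.exp (-(Real.pi * (A / t)))) := by
    intro t ht
    have ht' : (0 : ℝ) < t := ht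
    have h1 : ∀ z : ℂ, ENNReal.ofReal (1 / t ^ 3) *
      (B.indicator (fun _ => (1 : ℝ≥0∞)) z * ENNReal.ofReal (Real.exp (-(Real.pi * (A / t))))) =
      B.indicator (fun _ => (1 : ℝ≥0∞)) z *
        ENNReal.ofReal (1 / t ^ 3 * Real.exp (-(Real.pi * (A / t)))) := by
      intro z
      rw [ENNReal.ofReal_mul (by positivity), mul_left_comm]
    rw [lintegral_congr h1, lintegral_mul_const _ (measurable_const.indicator hB.meas),
      lintegral_indicator hB.meas, setLIntegral_one]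
  rw [setLIntegral_congr_fun measurableSet_Ioi e1]
  rw [lintegral_const_mul' _ _ (by rw [hB.vol]; exact ENNReal.ofReal_ne_top), qi_one hA, hB.vol,
    ← ENNReal.ofReal_mul (by have := HSG.nI_pos y; positivity)]
  congr 1
  ring

/-! ### The point of level one over a lattice -/

theorem qi_prim (L : Lat K) : HSG.LV.Prim (1 : HSG.Id K) L 0 := by
  refine ⟨L.M.zero_mem, fun p hp => ?_⟩
  exfalso
  have h1 := (HSG.isInt_div 1 (HSG.LV.pI p)).1 hp
  exact HSG.LV.frP_not_one p (h1 ((HSG.mem_m_one 1).2 ⟨1, by simp⟩))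

/-- the point of level one over a lattice -/
noncomputable def qi_pt (L : Lat K) : Pt (1 : HSG.Id K) := Pt.of L 0 (qi_prim L)

theorem qi_mem (L : Lat K) (v : Fin 2 → K) : v ∈ (qi_pt L).V ↔ v ∈ L.M := by
  show v - 0 ∈ (L.sm 1).M ↔ v ∈ L.M
  rw [sub_zero, HSG.sm_one]

theorem qi_mul (L : Lat K) (g : GL (Fin 2) K) : (qi_pt L).mul g = qi_pt (L.mul g) := by
  refine HSG.LV.pt_eq HSG.isInt_one (v := 0) rfl ?_ ((qi_mem _ _).2 (L.mul g).M.zero_mem)
  rw [HSG.LV.mem_V_mul, Matrix.zero_vecMul]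
  exact (qi_mem _ _).2 L.M.zero_mem

/-! ### The weight -/

open scoped Classical in
/-- the theta series without the zero vector -/
noncomputable def qi_th (s : K →+* ℂ) (t : ℝ) (P : H3) (L : Lat K) : ℝ≥0∞ :=
  ∑' v : Fin 2 → K, if v ∈ L.M ∧ v ≠ 0 then
    ENNReal.ofReal (Real.exp (-(Real.pi * (t * QQ s P L v)))) else 0

open scoped Classical in
/-- the sum over the slices -/
noncomputable def qi_nu (s : K →+* ℂ) (b : NCl K → HSG.Id K) (Bx : HSG.Id K → Set ℂ) (t : ℝ)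
    (P : H3) (L : Lat K) : ℝ≥0∞ :=
  ∑' v : Fin 2 → K, if v ∈ L.M ∧ v ≠ 0 then wsl b Bx P ⟨qi_pt L, v⟩ *
    ENNReal.ofReal (Real.exp (-(Real.pi * (t * QQ s P L v)))) else 0

/-- multiplication of row vectors by `g⁻¹` -/
noncomputable def qi_eq (g : GL (Fin 2) K) : (Fin 2 → K) ≃ (Fin 2 → K) where
  toFun v := Matrix.vecMul v ((g⁻¹ : GL (Fin 2) K) : Matrix (Fin 2) (Fin 2) K)
  invFun v := Matrix.vecMul v (g : Matrix (Fin 2) (Fin 2) K)
  left_inv v := by
    show Matrix.vecMul (Matrix.vecMul v ((g⁻¹ : GL (Fin 2) K) : Matrix (Fin 2) (Fin 2) K))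
      (g : Matrix (Fin 2) (Fin 2) K) = v
    rw [Matrix.vecMul_vecMul, ← Units.val_mul, inv_mul_cancel]
    simp
  right_inv v := by
    show Matrix.vecMul (Matrix.vecMul v (g : Matrix (Fin 2) (Fin 2) K))
      ((g⁻¹ : GL (Fin 2) K) : Matrix (Fin 2) (Fin 2) K) = v
    rw [Matrix.vecMul_vecMul, ← Units.val_mul, mul_inv_cancel]
    simp

theorem qi_cond (g : GL (Fin 2) K) (L : Lat K) (v : Fin 2 → K) :
    (qi_eq g v ∈ (L.mul g⁻¹).M ∧ qi_eq g v ≠ 0) ↔ (v ∈ L.M ∧ v ≠ 0) := by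
  refine and_congr (HSG.LV.vm_mem L g⁻¹ v) (not_congr ?_)
  constructor
  · intro h
    have h1 := congrArg (qi_eq g).symm h
    rw [Equiv.symm_apply_apply] at h1
    rw [h1]
    show Matrix.vecMul 0 (g : Matrix (Fin 2) (Fin 2) K) = 0
    exact Matrix.zero_vecMul _
  · rintro rfl
    show Matrix.vecMul 0 ((g⁻¹ : GL (Fin 2) K) : Matrix (Fin 2) (Fin 2) K) = 0
    exact Matrix.zero_vecMul _

theorem qi_qq (S : IQ s) (g : GL (Fin 2) K) (P : H3) (L : Lat K) (v : Fin 2 → K) :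
    QQ s (aH s g P) (L.mul g⁻¹) (qi_eq g v) = QQ s P L v := qq_act S g P L v

theorem qi_th_act (S : IQ s) (t : ℝ) (g : GL (Fin 2) K) (P : H3) (L : Lat K) :
    qi_th s t (aH s g P) (L.mul g⁻¹) = qi_th s t P L := by
  classical
  unfold qi_th
  rw [← (qi_eq g).tsum_eq]
  refine tsum_congr fun v => ?_
  simp only [qi_cond, qi_qq S]

theorem qi_nu_act (S : IQ s) (b : NCl K → HSG.Id K) (Bx : HSG.Id K → Set ℂ) (t : ℝ) (g : GL (Fin 2) K)
    (P : H3) (L : Lat K) : qi_nu s b Bx t (aH s g P) (L.mul g⁻¹) =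
      ∑' v : Fin 2 → K, open scoped Classical in if v ∈ L.M ∧ v ≠ 0 then
        wsl b Bx (aH s g P) (PV.act g ⟨qi_pt L, v⟩) *
          ENNReal.ofReal (Real.exp (-(Real.pi * (t * QQ s P L v)))) else 0 := by
  classical
  unfold qi_nu
  rw [← (qi_eq g).tsum_eq]
  refine tsum_congr fun v => ?_
  simp only [qi_cond, qi_qq S]
  have h : (⟨qi_pt (L.mul g⁻¹), qi_eq g v⟩ : PV (1 : HSG.Id K)) = PV.act g ⟨qi_pt L, v⟩ := by
    show (⟨qi_pt (L.mul g⁻¹), qi_eq g v⟩ : PV (1 : HSG.Id K)) = ⟨(qi_pt L).mul g⁻¹, qi_eq g v⟩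
    rw [qi_mul]
  rw [h]

theorem qi_th_bd (S : IQ s) {t : ℝ} (ht : 0 < t) (h : Dk K * t ^ 2 ≤ 2) (P : H3) (L : Lat K) :
    1 ≤ qi_th s t P L ∧ qi_th s t P L ≠ ∞ := by
  classical
  have h2 := th_two_le S P L ht h
  set f : L.M → ℝ := fun v => Real.exp (-(Real.pi * (t * QQ s P L v))) with hf
  have hsum : Summable f := by
    by_contra hc
    rw [tsum_eq_zero_of_not_summable hc] at h2
    norm_num at h2
  have h0 : f 0 = 1 := by
    have : QQ s P L ((0 : L.M) : Fin 2 → K) = 0 := by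
      simp [QQ]
    rw [hf]
    simp only
    rw [this]
    simp
  have h3 := hsum.tsum_eq_add_tsum_ite 0
  have hf' : Summable (fun v : L.M => if v = 0 then 0 else f v) := by
    refine Summable.of_nonneg_of_le (fun v => ?_) (fun v => ?_) hsum
    · split_ifs
      · exact le_rfl
      · exact (Real.exp_pos _).le
    · split_ifs
      · exact (Real.exp_pos _).le
      · exact le_rfl
  have h4 : 1 ≤ ∑' v : L.M, (if v = 0 then 0 else f v) := by
    rw [h0] at h3
    linarith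
  have h5 : qi_th s t P L = ENNReal.ofReal (∑' v : L.M, (if v = 0 then 0 else f v)) := by
    rw [ENNReal.ofReal_tsum_of_nonneg (fun v => ?_) hf']
    · unfold qi_th
      have h6 : ∀ v : Fin 2 → K, (if v ∈ L.M ∧ v ≠ 0 then
          ENNReal.ofReal (Real.exp (-(Real.pi * (t * QQ s P L v)))) else 0) =
          (L.M : Set (Fin 2 → K)).indicator (fun v => if v ≠ 0 then
            ENNReal.ofReal (Real.exp (-(Real.pi * (t * QQ s P L v)))) else 0) v := by
        intro v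
        by_cases hv : v ∈ L.M
        · rw [Set.indicator_of_mem (show v ∈ (L.M : Set (Fin 2 → K)) from hv)]
          simp [hv]
        · rw [Set.indicator_of_notMem (show v ∉ (L.M : Set (Fin 2 → K)) from hv)]
          simp [hv]
      rw [tsum_congr h6, ← tsum_subtype]
      refine tsum_congr fun v => ?_
      by_cases hv : v = 0
      · subst hv
        simp
      · have hv' : ((v : L.M) : Fin 2 → K) ≠ 0 := by
          intro hc
          exact hv (Subtype.ext hc)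
        rw [if_neg hv, if_pos hv']
    · split_ifs
      · exact le_rfl
      · exact (Real.exp_pos _).le
  rw [h5]
  refine ⟨?_, ENNReal.ofReal_ne_top⟩
  rw [ENNReal.one_le_ofReal]
  exact h4

theorem qi_exact (S : IQ s) {b : NCl K → HSG.Id K}
    (hb : ∀ κ, (QuotientGroup.mk (b κ) : NCl K) = κ) {Bx : HSG.Id K → Set ℂ}
    (hB : ∀ y, IsBox s y (Bx y)) {t : ℝ} (ht : 0 < t) (h : Dk K * t ^ 2 ≤ 2) (P : H3) (L : Lat K) :
    ∑' g : GL (Fin 2) K, qi_nu s b Bx t (aH s g P) (L.mul g⁻¹) / qi_th s t (aH s g P) (L.mul g⁻¹) =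
      1 := by
  classical
  obtain ⟨h1, h2⟩ := qi_th_bd S ht h P L
  simp only [qi_th_act S, div_eq_mul_inv]
  rw [ENNReal.tsum_mul_right]
  have h3 : ∑' g : GL (Fin 2) K, qi_nu s b Bx t (aH s g P) (L.mul g⁻¹) = qi_th s t P L := by
    simp only [qi_nu_act S]
    rw [ENNReal.tsum_comm]
    unfold qi_th
    refine tsum_congr fun v => ?_
    by_cases hv : v ∈ L.M ∧ v ≠ 0
    · simp only [if_pos hv]
      rw [ENNReal.tsum_mul_right, wsl_ex S HSG.isInt_one hb hB P ⟨qi_pt L, v⟩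
        ((qi_mem L v).2 hv.1) hv.2, one_mul]
    · simp only [if_neg hv, tsum_zero]
  rw [h3, ENNReal.mul_inv_cancel (by
    intro hc
    rw [hc] at h1
    simp at h1) h2]

theorem qi_qq_meas (L : Lat K) (t : ℝ) (v : Fin 2 → K) : Measurable (fun P : H3 =>
    ENNReal.ofReal (Real.exp (-(Real.pi * (t * QQ s P L v))))) := by
  have h := (qq_cont s L v).measurable
  fun_prop

theorem qi_th_meas (t : ℝ) (L : Lat K) : Measurable (fun P : H3 => qi_th s t P L) := by
  classical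
  have := HSG.countK K
  unfold qi_th
  refine Measurable.tsum fun v => ?_
  by_cases hv : v ∈ L.M ∧ v ≠ 0
  · simp only [if_pos hv]
    exact qi_qq_meas L t v
  · simp only [if_neg hv]
    exact measurable_const

theorem qi_nu_meas {b : NCl K → HSG.Id K} {Bx : HSG.Id K → Set ℂ}
    (hB : ∀ y, IsBox s y (Bx y)) (t : ℝ) (L : Lat K) :
    Measurable (fun P : H3 => qi_nu s b Bx t P L) := by
  classical
  have := HSG.countK K
  unfold qi_nu
  refine Measurable.tsum fun v => ?_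
  by_cases hv : v ∈ L.M ∧ v ≠ 0
  · simp only [if_pos hv]
    exact (wsl_meas b hB _).mul (qi_qq_meas L t v)
  · simp only [if_neg hv]
    exact measurable_const

theorem qi_countId (K : Type) [Field K] [NumberField K] : Countable (HSG.Id K) := by
  have := HSG.countK K
  have hfg : ∀ a : HSG.Id K, (HSG.Id.m a).FG := fun a => FractionalIdeal.fg_unit a
  have h : Function.Injective (fun a : HSG.Id K => (hfg a).choose) := by
    intro a a' h
    have h' : (hfg a).choose = (hfg a').choose := h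
    refine HSG.m_inj ?_
    rw [← (hfg a).choose_spec, ← (hfg a').choose_spec, h']
  exact h.countable

/-- the slice integrand -/
noncomputable def qi_G (b : NCl K → HSG.Id K) (Bx : HSG.Id K → Set ℂ) (t : ℝ)
    (x : NCl K × {c : HSG.Id K // Cp (1 : HSG.Id K) c}) (P : H3) : ℝ≥0∞ :=
  (Bx (x.2.1⁻¹ / b x.1)).indicator (fun _ => 1) P.1.1 *
    ENNReal.ofReal (Real.exp (-(Real.pi * (t * √(nI x.2.1 / nI (b x.1)) / P.1.2))))

theorem qi_G_meas {b : NCl K → HSG.Id K} {Bx : HSG.Id K → Set ℂ}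
    (hB : ∀ y, IsBox s y (Bx y)) (t : ℝ)
    (x : NCl K × {c : HSG.Id K // Cp (1 : HSG.Id K) c}) : Measurable (qi_G b Bx t x) := by
  unfold qi_G
  refine Measurable.mul ?_ ?_
  · exact (measurable_const.indicator (hB _).meas).comp
      (measurable_fst.comp measurable_subtype_coe)
  · have : Measurable (fun P : H3 => P.1.2) := measurable_snd.comp measurable_subtype_coe
    fun_prop

theorem qi_card_le (n : ℕ) : ENNReal.ofReal (1 / (n : ℝ)) ≤ 1 := by
  rw [ENNReal.ofReal_le_one]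
  rcases Nat.eq_zero_or_pos n with h | h
  · subst h
    simp
  · rw [div_le_one (by exact_mod_cast h)]
    exact_mod_cast h

open scoped Classical in
theorem qi_term (S : IQ s) (b : NCl K → HSG.Id K) (Bx : HSG.Id K → Set ℂ) (t : ℝ) (P : H3)
    (L : Lat K) (v : Fin 2 → K) : wsl b Bx P ⟨qi_pt L, v⟩ *
      ENNReal.ofReal (Real.exp (-(Real.pi * (t * QQ s P L v)))) ≤
      ∑' x : NCl K × {c : HSG.Id K // Cp (1 : HSG.Id K) c},
        if L = Lat.ds (b x.1) x.2.1⁻¹ ∧ v = ![0, 1] then qi_G b Bx t x P else 0 := by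
  unfold wsl
  split_ifs with h
  · obtain ⟨κ, c, hc, he, hP⟩ := h
    have hL : L = Lat.ds (b κ) c⁻¹ := congrArg (fun a : PV (1 : HSG.Id K) => a.x.L) he
    have hv : v = ![0, 1] := congrArg (fun a : PV (1 : HSG.Id K) => a.v) he
    refine le_trans ?_ (ENNReal.le_tsum (κ, ⟨c, hc⟩))
    rw [if_pos ⟨hL, hv⟩]
    unfold qi_G
    rw [Set.indicator_of_mem hP, hL, hv, qq_slice S P (b κ) c, mul_div_assoc]
    exact mul_le_mul_left (qi_card_le _) _
  · rw [zero_mul]
    exact zero_le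

theorem qi_lint (S : IQ s) {b : NCl K → HSG.Id K} {Bx : HSG.Id K → Set ℂ}
    (hB : ∀ y, IsBox s y (Bx y)) {t : ℝ} (ht : 0 < t) :
    ∑' L : Lat K, ∫⁻ P, qi_nu s b Bx t P L ∂mu ≤
      ∑' x : NCl K × {c : HSG.Id K // Cp (1 : HSG.Id K) c}, ∫⁻ P, qi_G b Bx t x P ∂mu := by
  classical
  have hK := HSG.countK K
  have hI := qi_countId K
  have hN : Countable (NCl K) := Quotient.countable
  have h1 : ∀ L : Lat K, ∫⁻ P, qi_nu s b Bx t P L ∂mu ≤
      ∑' v : Fin 2 → K, ∑' x : NCl K × {c : HSG.Id K // Cp (1 : HSG.Id K) c},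
        if L = Lat.ds (b x.1) x.2.1⁻¹ ∧ v = ![0, 1] then ∫⁻ P, qi_G b Bx t x P ∂mu else 0 := by
    intro L
    have h2 : ∀ P : H3, qi_nu s b Bx t P L ≤ ∑' v : Fin 2 → K,
        ∑' x : NCl K × {c : HSG.Id K // Cp (1 : HSG.Id K) c},
          if L = Lat.ds (b x.1) x.2.1⁻¹ ∧ v = ![0, 1] then qi_G b Bx t x P else 0 := by
      intro P
      unfold qi_nu
      refine ENNReal.tsum_le_tsum fun v => ?_
      split_ifs
      · exact qi_term S b Bx t P L v
      · exact zero_le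
    refine (lintegral_mono h2).trans (le_of_eq ?_)
    have hm : ∀ (v : Fin 2 → K) (x : NCl K × {c : HSG.Id K // Cp (1 : HSG.Id K) c}),
        Measurable (fun P : H3 => if L = Lat.ds (b x.1) x.2.1⁻¹ ∧ v = ![0, 1] then
          qi_G b Bx t x P else 0) := by
      intro v x
      split_ifs
      · exact qi_G_meas hB t x
      · exact measurable_const
    rw [lintegral_tsum fun v => (Measurable.tsum fun x => hm v x).aemeasurable]
    refine tsum_congr fun v => ?_
    rw [lintegral_tsum fun x => (hm v x).aemeasurable]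
    refine tsum_congr fun x => ?_
    split_ifs
    · rfl
    · exact lintegral_zero
  refine (ENNReal.tsum_le_tsum h1).trans (le_of_eq ?_)
  have h3 : ∀ L : Lat K, ∑' v : Fin 2 → K, ∑' x : NCl K × {c : HSG.Id K // Cp (1 : HSG.Id K) c},
      (if L = Lat.ds (b x.1) x.2.1⁻¹ ∧ v = ![0, 1] then ∫⁻ P, qi_G b Bx t x P ∂mu else 0) =
      ∑' x : NCl K × {c : HSG.Id K // Cp (1 : HSG.Id K) c}, ∑' v : Fin 2 → K,
      (if L = Lat.ds (b x.1) x.2.1⁻¹ ∧ v = ![0, 1] then ∫⁻ P, qi_G b Bx t x P ∂mu else 0) :=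
    fun L => ENNReal.tsum_comm
  rw [tsum_congr h3, ENNReal.tsum_comm]
  refine tsum_congr fun x => ?_
  rw [tsum_eq_single (Lat.ds (b x.1) x.2.1⁻¹) (fun L hL => by
    simp only [hL, false_and, if_false, tsum_zero]), tsum_eq_single ![0, 1] (fun v hv => by
    simp only [hv, and_false, if_false])]
  simp

theorem qi_Gint (S : IQ s) (b : NCl K → HSG.Id K) {Bx : HSG.Id K → Set ℂ}
    (hB : ∀ y, IsBox s y (Bx y)) {t : ℝ} (ht : 0 < t)
    (x : NCl K × {c : HSG.Id K // Cp (1 : HSG.Id K) c}) : ∫⁻ P, qi_G b Bx t x P ∂mu =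
      ENNReal.ofReal (√(Dk K) / (2 * Real.pi ^ 2 * t ^ 2) * nI x.2.1 ^ (-2 : ℝ)) := by
  have hc := HSG.nI_pos x.2.1
  have hb := HSG.nI_pos (b x.1)
  have h1 := slice_lint S (hB (x.2.1⁻¹ / b x.1)) (A := t * √(nI x.2.1 / nI (b x.1)))
    (by positivity)
  unfold qi_G
  rw [h1, HSG.nI_div, HSG.nI_inv]
  congr 1
  rw [Real.rpow_neg hc.le, show (2 : ℝ) = ((2 : ℕ) : ℝ) by norm_num, Real.rpow_natCast,
    mul_pow, mul_pow, Real.sq_sqrt (by positivity)]
  field_simp

theorem wg_exists (S : IQ s) : Nonempty (WG s) := by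
  classical
  have hD : 0 < Dk K := by
    unfold Dk
    rw [abs_pos]
    exact_mod_cast NumberField.discr_ne_zero K
  set b : NCl K → HSG.Id K := fun κ => Quotient.out κ with hbdef
  have hb : ∀ κ, (QuotientGroup.mk (b κ) : NCl K) = κ := fun κ => QuotientGroup.out_eq' κ
  set Bx : HSG.Id K → Set ℂ := fun y => (box_exists S y).choose with hBx
  have hB : ∀ y, IsBox s y (Bx y) := fun y => (box_exists S y).choose_spec
  set t : ℝ := √(2 / Dk K) with htdef
  have ht : 0 < t := Real.sqrt_pos.2 (by positivity)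
  have ht2 : Dk K * t ^ 2 ≤ 2 := by
    rw [htdef, Real.sq_sqrt (by positivity)]
    field_simp
    exact le_rfl
  refine ⟨⟨fun P L => qi_nu s b Bx t P L / qi_th s t P L, fun L => ?_, fun P L => ?_, ?_⟩⟩
  · exact (qi_nu_meas hB t L).div (qi_th_meas t L)
  · exact qi_exact S hb hB ht ht2 P L
  · have h1 : ∑' L : Lat K, ∫⁻ P, qi_nu s b Bx t P L / qi_th s t P L ∂mu ≤
        ∑' L : Lat K, ∫⁻ P, qi_nu s b Bx t P L ∂mu := by
      refine ENNReal.tsum_le_tsum fun L => lintegral_mono fun P => ?_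
      show qi_nu s b Bx t P L / qi_th s t P L ≤ qi_nu s b Bx t P L
      rw [div_eq_mul_inv]
      exact mul_le_of_le_one_right' (ENNReal.inv_le_one.2 (qi_th_bd S ht ht2 P L).1)
    refine (h1.trans (qi_lint S hB ht)).trans_lt ?_
    simp only [qi_Gint S b hB ht]
    rw [ENNReal.tsum_prod']
    have hfin : Finite (NCl K) := HSG.LV.ncl_fin
    have hs0 : Summable (fun c : {c : HSG.Id K // Cp (1 : HSG.Id K) c} => nI c.1 ^ (-(2 : ℝ))) := by
      have h2 := id_sum K (σ := 2) (by norm_num)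
      have h3 : Function.Injective (fun c : {c : HSG.Id K // Cp (1 : HSG.Id K) c} =>
          (⟨c.1, c.2.1⟩ : {m : HSG.Id K // IsInt m})) := by
        intro c c' h
        have h' : (⟨c.1, c.2.1⟩ : {m : HSG.Id K // IsInt m}) = ⟨c'.1, c'.2.1⟩ := h
        exact Subtype.ext (Subtype.mk.inj h')
      have h4 := h2.comp_injective h3
      refine h4.congr fun c => ?_
      rfl
    have hs : Summable (fun c : {c : HSG.Id K // Cp (1 : HSG.Id K) c} =>
        √(Dk K) / (2 * Real.pi ^ 2 * t ^ 2) * nI c.1 ^ (-2 : ℝ)) := hs0.mul_left _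
    have h4 : ∑' c : {c : HSG.Id K // Cp (1 : HSG.Id K) c},
        ENNReal.ofReal (√(Dk K) / (2 * Real.pi ^ 2 * t ^ 2) * nI c.1 ^ (-2 : ℝ)) < ∞ := by
      rw [← ENNReal.ofReal_tsum_of_nonneg (fun c => ?_) hs]
      · exact ENNReal.ofReal_lt_top
      · have := HSG.nI_pos c.1
        positivity
    have := Fintype.ofFinite (NCl K)
    rw [tsum_fintype]
    exact ENNReal.sum_lt_top.2 fun κ _ => h4

/-! ### The measure -/

theorem qi_fib {n : HSG.Id K} (L : Lat K) (g : GL (Fin 2) K) :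
    Nat.card {x : Pt n // x.L = L.mul g} = Nat.card {x : Pt n // x.L = L} := by
  have hLL : (L.mul g).mul g⁻¹ = L := by
    rw [← HSG.mul_mul, mul_inv_cancel]
    have := one_smul (GL (Fin 2) K) L
    rw [show (1 : GL (Fin 2) K) • L = L.mul 1⁻¹ from rfl, inv_one] at this
    exact this
  refine Nat.card_congr ⟨fun x => ⟨x.1.mul g⁻¹, ?_⟩, fun x => ⟨x.1.mul g, ?_⟩, fun x => ?_,
    fun x => ?_⟩
  · show x.1.L.mul g⁻¹ = L
    rw [x.2, hLL]
  · show x.1.L.mul g = L.mul g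
    rw [x.2]
  · apply Subtype.ext
    show (x.1.mul g⁻¹).mul g = x.1
    rw [← HSG.LV.pt_mul_mul, inv_mul_cancel, HSG.LV.pt_mul_one]
  · apply Subtype.ext
    show (x.1.mul g).mul g⁻¹ = x.1
    rw [← HSG.LV.pt_mul_mul, mul_inv_cancel, HSG.LV.pt_mul_one]

theorem qi_fib_bd {n : HSG.Id K} (hn : IsInt n) :
    ∃ N : ℕ, ∀ L : Lat K, Nat.card {x : Pt n // x.L = L} ≤ N := by
  classical
  have hfin : Finite (NCl K) := HSG.LV.ncl_fin
  have := Fintype.ofFinite (NCl K)
  set b : NCl K → HSG.Id K := fun κ => Quotient.out κ with hbdef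
  have hb : ∀ κ, (QuotientGroup.mk (b κ) : NCl K) = κ := fun κ => QuotientGroup.out_eq' κ
  refine ⟨Finset.univ.sup (fun κ : NCl K => Nat.card {x : Pt n // x.L = Lat.ds (b κ) 1⁻¹}),
    fun L => ?_⟩
  obtain ⟨x, hx⟩ := HSG.LV.fib_ne hn L
  obtain ⟨g, hg⟩ := HSG.LV.to_std hn x
  rw [HSG.LV.sact_eq] at hg
  have h1 : L.mul ((g⁻¹ : SL(2, K)) : GL (Fin 2) K) = Lat.ds x.L.det 1⁻¹ := by
    have h2 := congrArg (fun y : Pt n => y.L) hg
    rw [← hx]
    exact h2
  set κ : NCl K := QuotientGroup.mk x.L.det with hκ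
  have h3 : (b κ)⁻¹ * x.L.det ∈ HSG.Pp K := by
    rw [← QuotientGroup.eq, hb]
  obtain ⟨α, -, hα⟩ := h3
  have h4 : x.L.det = prI α * b κ := by
    rw [hα]
    rw [mul_comm, mul_inv_cancel_left]
  rw [h4, ← HSG.ds_dgm] at h1
  have h5 : Nat.card {x : Pt n // x.L = L} = Nat.card {x : Pt n // x.L = Lat.ds (b κ) 1⁻¹} := by
    rw [← qi_fib L ((g⁻¹ : SL(2, K)) : GL (Fin 2) K), h1, qi_fib]
  rw [h5]
  exact Finset.le_sup (f := fun κ : NCl K => Nat.card {x : Pt n // x.L = Lat.ds (b κ) 1⁻¹})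
    (Finset.mem_univ κ)

theorem mW_fin {W : WG s} {n : HSG.Id K} (hn : IsInt n) : IsFiniteMeasure (mW W n) := by
  classical
  obtain ⟨N, hN⟩ := qi_fib_bd hn
  have hm : Measurable (fun y : H3 × Pt n => W.w y.1 y.2.L) :=
    measurable_from_prod_countable_left fun x => W.meas x.L
  refine ⟨?_⟩
  unfold mW
  rw [withDensity_apply _ MeasurableSet.univ, Measure.restrict_univ,
    lintegral_prod _ hm.aemeasurable]
  simp only [lintegral_count]
  rw [lintegral_tsum fun x : Pt n => (W.meas x.L).aemeasurable,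
    ← (Equiv.sigmaFiberEquiv (fun x : Pt n => x.L)).tsum_eq, ENNReal.tsum_sigma']
  have h1 : ∀ L : Lat K, ∑' x : {x : Pt n // x.L = L},
      ∫⁻ P, W.w P ((Equiv.sigmaFiberEquiv (fun x : Pt n => x.L)) ⟨L, x⟩).L ∂mu ≤
      (N : ℝ≥0∞) * ∫⁻ P, W.w P L ∂mu := by
    intro L
    have hf : Finite {x : Pt n // x.L = L} := HSG.LV.fib_fin hn L
    have := Fintype.ofFinite {x : Pt n // x.L = L}
    have h2 : ∀ x : {x : Pt n // x.L = L},
        ∫⁻ P, W.w P ((Equiv.sigmaFiberEquiv (fun x : Pt n => x.L)) ⟨L, x⟩).L ∂mu =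
        ∫⁻ P, W.w P L ∂mu := by
      intro x
      have h3 : ((Equiv.sigmaFiberEquiv (fun x : Pt n => x.L)) ⟨L, x⟩).L = L := x.2
      rw [h3]
    rw [tsum_congr h2, tsum_fintype, Finset.sum_const, nsmul_eq_mul]
    refine mul_le_mul_left ?_ _
    rw [Finset.card_univ, ← Nat.card_eq_fintype_card]
    exact_mod_cast hN L
  refine (ENNReal.tsum_le_tsum h1).trans_lt ?_
  rw [ENNReal.tsum_mul_left]
  exact ENNReal.mul_lt_top (ENNReal.natCast_lt_top N) W.fin

end Pool.Agent.HI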