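import Pool.Agent.Lib_helper25.HIF.DX
import Pool.Agent.Lib_helper25.HIF.KB

namespace Pool.Agent.HI
open NumberField Complex MeasureTheory IsDedekindDomain Filter Topology
open scoped nonZeroDivisors MatrixGroups ENNReal
open Pool.Agent.HB (H3 mu Kb mk3)

variable {q : ℕ} {ν ν' : ℂ}

theorem qk_kb_cont (μ : ℂ) : ContinuousOn (fun x : ℝ => Kb μ (4 * Real.pi * x)) (Set.Ioi 0) := by
  have h := wk_cont 0 μ (w := 1) one_ne_zero
  have e : wk 0 μ 1 = fun x : ℝ => Kb μ (4 * Real.pi * x) := by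
    funext x
    unfold wk
    simp
  rwa [e] at h

theorem gG_cont (q : ℕ) (ν ν' : ℂ) : ContinuousOn (gG q ν ν') (Set.Ioi 0) := by
  unfold gG
  refine continuousOn_const.mul (continuousOn_finsetSum _ fun j _ => ?_)
  have h1 : ContinuousOn (fun x : ℝ => (x : ℂ) ^ (2 + 2 * q)) (Set.Ioi 0) :=
    (Complex.continuous_ofReal.pow _).continuousOn
  exact (continuousOn_const.mul h1).mul ((qk_kb_cont _).mul
    (Complex.continuous_conj.comp_continuousOn (qk_kb_cont _)))

theorem qk_re (had : Ad q ν) {j : ℕ} (hj : j ∈ Finset.range (2 * q + 1)) :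
    |(ν + q - j : ℂ).re| ≤ ((q + 1 : ℕ) : ℝ) := by
  have h := ad_re had
  rw [abs_lt] at h
  have hj' : (j : ℝ) ≤ 2 * q := by
    have := Finset.mem_range.1 hj
    have h2 : j ≤ 2 * q := by omega
    exact_mod_cast h2
  have hj0 : (0 : ℝ) ≤ j := Nat.cast_nonneg j
  have e : (ν + q - j : ℂ).re = ν.re + q - j := by simp
  rw [e, abs_le]
  push_cast
  constructor <;> linarith

theorem qk_kb_bd (had : Ad q ν) {j : ℕ} (hj : j ∈ Finset.range (2 * q + 1)) : ∃ C : ℝ, 0 ≤ C ∧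
    ∀ x : ℝ, 0 < x → x ^ (q + 1) * ‖Kb (ν + q - j) (4 * Real.pi * x)‖ ≤
      C * Real.exp (-(2 * Real.pi * x)) := by
  obtain ⟨C, hC, h⟩ := kb_pow_bd (r := q + 1) (by omega) (qk_re had hj)
  refine ⟨C / (4 * Real.pi) ^ (q + 1), by positivity, fun x hx => ?_⟩
  have hp : (0 : ℝ) < 4 * Real.pi := by positivity
  have h1 := h (4 * Real.pi * x) (by positivity)
  rw [mul_pow] at h1
  have e : -(4 * Real.pi * x / 2) = -(2 * Real.pi * x) := by ring
  rw [e] at h1
  rw [div_mul_eq_mul_div, le_div_iff₀ (by positivity)]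
  linarith

theorem gG_bd (had : Ad q ν) (had' : Ad q ν') : ∃ C : ℝ, 0 ≤ C ∧ ∀ x : ℝ, 0 < x →
    ‖gG q ν ν' x‖ ≤ C * Real.exp (-(2 * Real.pi * x)) := by
  have h1 : ∀ j : ℕ, ∃ C : ℝ, 0 ≤ C ∧ (j ∈ Finset.range (2 * q + 1) → ∀ x : ℝ, 0 < x →
      ‖((2 * q).choose j : ℂ) * (x : ℂ) ^ (2 + 2 * q) *
      (Kb (ν + q - j) (4 * Real.pi * x) * (starRingEnd ℂ) (Kb (ν' + q - j) (4 * Real.pi * x)))‖ ≤
        C * Real.exp (-(2 * Real.pi * x))) := by
    intro j
    by_cases hj : j ∈ Finset.range (2 * q + 1)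
    · obtain ⟨C1, hC1, h1⟩ := qk_kb_bd had hj
      obtain ⟨C2, hC2, h2⟩ := qk_kb_bd had' hj
      refine ⟨((2 * q).choose j : ℝ) * (C1 * C2), by positivity, fun _ x hx => ?_⟩
      rw [norm_mul, norm_mul, norm_mul, RCLike.norm_conj, norm_pow, Complex.norm_real,
        Real.norm_eq_abs, abs_of_pos hx, Complex.norm_natCast]
      have a1 := h1 x hx
      have a2 := h2 x hx
      have a3 : x ^ (q + 1) * ‖Kb (ν + q - j) (4 * Real.pi * x)‖ *
          (x ^ (q + 1) * ‖Kb (ν' + q - j) (4 * Real.pi * x)‖) ≤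
          (C1 * Real.exp (-(2 * Real.pi * x))) * (C2 * Real.exp (-(2 * Real.pi * x))) :=
        mul_le_mul a1 a2 (by positivity) (by positivity)
      have a4 : Real.exp (-(2 * Real.pi * x)) ≤ 1 := by
        apply Real.exp_le_one_iff.2
        have := Real.pi_pos
        nlinarith [mul_pos this hx]
      calc ((2 * q).choose j : ℝ) * x ^ (2 + 2 * q) * (‖Kb (ν + q - j) (4 * Real.pi * x)‖ *
            ‖Kb (ν' + q - j) (4 * Real.pi * x)‖)
          = ((2 * q).choose j : ℝ) * (x ^ (q + 1) * ‖Kb (ν + q - j) (4 * Real.pi * x)‖ *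
            (x ^ (q + 1) * ‖Kb (ν' + q - j) (4 * Real.pi * x)‖)) := by ring
        _ ≤ ((2 * q).choose j : ℝ) * ((C1 * Real.exp (-(2 * Real.pi * x))) *
            (C2 * Real.exp (-(2 * Real.pi * x)))) := by gcongr
        _ ≤ ((2 * q).choose j : ℝ) * ((C1 * 1) * (C2 * Real.exp (-(2 * Real.pi * x)))) := by
            gcongr
        _ = ((2 * q).choose j : ℝ) * (C1 * C2) * Real.exp (-(2 * Real.pi * x)) := by ring
    · exact ⟨0, le_rfl, fun h => absurd h hj⟩
  choose Cj hC hb using h1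
  refine ⟨‖((2 * q).factorial : ℂ) / (Real.pi : ℂ) ^ (2 * q)‖ *
    ∑ j ∈ Finset.range (2 * q + 1), Cj j, ?_, fun x hx => ?_⟩
  · exact mul_nonneg (norm_nonneg _) (Finset.sum_nonneg fun j _ => hC j)
  · unfold gG
    have hs : ‖∑ j ∈ Finset.range (2 * q + 1), ((2 * q).choose j : ℂ) * (x : ℂ) ^ (2 + 2 * q) *
        (Kb (ν + q - j) (4 * Real.pi * x) * (starRingEnd ℂ) (Kb (ν' + q - j) (4 * Real.pi * x)))‖ ≤
        (∑ j ∈ Finset.range (2 * q + 1), Cj j) * Real.exp (-(2 * Real.pi * x)) := by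
      refine (norm_sum_le _ _).trans ?_
      rw [Finset.sum_mul]
      exact Finset.sum_le_sum fun j hj => hb j hj x hx
    rw [norm_mul]
    have h0 : 0 ≤ ‖((2 * q).factorial : ℂ) / (Real.pi : ℂ) ^ (2 * q)‖ := norm_nonneg _
    have h2 := mul_le_mul_of_nonneg_left hs h0
    refine h2.trans (le_of_eq ?_)
    ring

/-- `t^X e^{-π t}` is bounded -/
theorem qk_exp {X t : ℝ} (hX : 0 < X) (ht : 0 < t) :
    Real.exp (-(Real.pi * t)) ≤ Real.exp (X * Real.log (X / Real.pi) - X) * t ^ (-X) := by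
  have hp := Real.pi_pos
  rw [Real.rpow_def_of_pos ht, ← Real.exp_add]
  apply Real.exp_le_exp.2
  have h1 := Real.log_le_sub_one_of_pos (show 0 < t * Real.pi / X by positivity)
  have h2 : Real.log (t * Real.pi / X) = Real.log t - Real.log (X / Real.pi) := by
    rw [← Real.log_div (by positivity) (by positivity)]
    congr 1
    field_simp
  rw [h2] at h1
  have h3 : X * (Real.log t - Real.log (X / Real.pi)) ≤ X * (t * Real.pi / X - 1) :=
    mul_le_mul_of_nonneg_left h1 hX.le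
  have h4 : X * (t * Real.pi / X - 1) = t * Real.pi - X := by field_simp
  linarith

theorem qk_term {X : ℝ} (hX : 0 < X) {B x : ℝ} (hB : 0 < B) (hx : 0 < x) :
    Real.exp (-(Real.pi * (B / x))) / x ^ 3 ≤
      Real.exp (X * Real.log (X / Real.pi) - X) * B ^ (-X) * x ^ (X - 3) := by
  have h := qk_exp hX (show 0 < B / x by positivity)
  have e1 : (B / x) ^ (-X) = B ^ (-X) * x ^ X := by
    rw [Real.div_rpow hB.le hx.le, Real.rpow_neg hx.le X, div_inv_eq_mul]
  have e2 : x ^ (X - 3) = x ^ X / x ^ 3 := by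
    rw [Real.rpow_sub hx]
    norm_cast
  rw [e2]
  rw [e1] at h
  rw [div_le_iff₀ (by positivity)]
  calc Real.exp (-(Real.pi * (B / x))) ≤
      Real.exp (X * Real.log (X / Real.pi) - X) * (B ^ (-X) * x ^ X) := h
    _ = Real.exp (X * Real.log (X / Real.pi) - X) * B ^ (-X) * (x ^ X / x ^ 3) * x ^ 3 := by
        field_simp

theorem qk_int {X : ℝ} (hX : 2 < X) :
    IntegrableOn (fun x : ℝ => x ^ (X - 3) * Real.exp (-(2 * Real.pi * x))) (Set.Ioi 0) := by
  have h := integrableOn_rpow_mul_exp_neg_mul_rpow (p := 1) (s := X - 3) (b := 2 * Real.pi)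
    (by linarith) one_pos (by positivity)
  refine h.congr_fun (fun x hx => ?_) measurableSet_Ioi
  simp only [Real.rpow_one]
  congr 2
  ring

theorem qk_bd (had : Ad q ν) (had' : Ad q ν') {X : ℝ} (hX : 2 < X) : ∃ C : ℝ, 0 ≤ C ∧
    ∀ B : ℝ, 0 < B → ∀ x : ℝ, 0 < x → ‖gG q ν ν' x‖ * (Real.exp (-(Real.pi * (B / x))) / x ^ 3) ≤
      C * B ^ (-X) * (x ^ (X - 3) * Real.exp (-(2 * Real.pi * x))) := by
  obtain ⟨C, hC, h⟩ := gG_bd had had'
  refine ⟨C * Real.exp (X * Real.log (X / Real.pi) - X), by positivity, fun B hB x hx => ?_⟩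
  have h1 := h x hx
  have h2 := qk_term (show 0 < X by linarith) hB hx
  calc ‖gG q ν ν' x‖ * (Real.exp (-(Real.pi * (B / x))) / x ^ 3)
      ≤ (C * Real.exp (-(2 * Real.pi * x))) *
        (Real.exp (X * Real.log (X / Real.pi) - X) * B ^ (-X) * x ^ (X - 3)) :=
        mul_le_mul h1 h2 (by positivity) (by positivity)
    _ = _ := by ring

theorem xi0_int (had : Ad q ν) (had' : Ad q ν') {B : ℝ} (hB : 0 < B) :
    IntegrableOn (fun x : ℝ => gG q ν ν' x *
      ((Real.exp (-(Real.pi * (B / x))) / x ^ 3 : ℝ) : ℂ)) (Set.Ioi 0) := by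
  obtain ⟨C, hC, h⟩ := qk_bd had had' (X := 3) (by norm_num)
  have hg := (qk_int (X := 3) (by norm_num)).const_mul (C * B ^ (-(3:ℝ)))
  refine Integrable.mono' hg ?_ ?_
  · refine ContinuousOn.aestronglyMeasurable ?_ measurableSet_Ioi
    refine (gG_cont q ν ν').mul (Complex.continuous_ofReal.comp_continuousOn ?_)
    refine ContinuousOn.div ?_ (continuousOn_id.pow 3) (fun x hx => ?_)
    · refine Real.continuous_exp.comp_continuousOn ?_
      refine (continuousOn_const.mul (continuousOn_const.div continuousOn_id ?_)).neg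
      intro x hx
      exact (Set.mem_Ioi.1 hx).ne'
    · exact pow_ne_zero 3 (Set.mem_Ioi.1 hx).ne'
  · refine (ae_restrict_iff' measurableSet_Ioi).2 (Eventually.of_forall fun x hx => ?_)
    have hx' : 0 < x := hx
    rw [norm_mul, Complex.norm_real, Real.norm_eq_abs, abs_of_nonneg (by positivity)]
    exact h B hB x hx'

theorem xi0_bd (had : Ad q ν) (had' : Ad q ν') {X : ℝ} (hX : 2 < X) : ∃ C : ℝ, 0 ≤ C ∧
    ∀ B : ℝ, 0 < B → (∫ x in Set.Ioi (0 : ℝ), ‖gG q ν ν' x‖ *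
      (Real.exp (-(Real.pi * (B / x))) / x ^ 3)) ≤ C * B ^ (-X) := by
  obtain ⟨C, hC, h⟩ := qk_bd had had' hX
  have hint := qk_int hX
  set J := ∫ x in Set.Ioi (0 : ℝ), x ^ (X - 3) * Real.exp (-(2 * Real.pi * x)) with hJ
  have hJ0 : 0 ≤ J := setIntegral_nonneg measurableSet_Ioi (fun x hx => by
    have : (0:ℝ) < x := hx
    positivity)
  refine ⟨C * J, mul_nonneg hC hJ0, fun B hB => ?_⟩
  have h1 : (∫ x in Set.Ioi (0 : ℝ), ‖gG q ν ν' x‖ *
      (Real.exp (-(Real.pi * (B / x))) / x ^ 3)) ≤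
      ∫ x in Set.Ioi (0 : ℝ), C * B ^ (-X) * (x ^ (X - 3) * Real.exp (-(2 * Real.pi * x))) := by
    refine integral_mono_of_nonneg ?_ (hint.const_mul _) ?_
    · refine (ae_restrict_iff' measurableSet_Ioi).2 (Eventually.of_forall fun x hx => ?_)
      have : (0:ℝ) < x := hx
      simp only [Pi.zero_apply]
      positivity
    · refine (ae_restrict_iff' measurableSet_Ioi).2 (Eventually.of_forall fun x hx => ?_)
      exact h B hB x hx
  refine h1.trans (le_of_eq ?_)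
  rw [integral_const_mul, ← hJ]
  ring

end Pool.Agent.HI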