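import Pool.Agent.Lib_helper25.HIF.DX
import Pool.Agent.Lib_helper99.HBF.KB
import Pool.Agent.Lib_helper99.HBF.KK
import Pool.Agent.Lib_helper99.HBF.KQ

/-! # Project HI, block QL: the Mellin transforms of `gG` and `xi0` -/

namespace Pool.Agent.HI
open NumberField Complex MeasureTheory IsDedekindDomain Filter Topology
open scoped nonZeroDivisors MatrixGroups ENNReal
open Pool.Agent.HB (H3 mu Kb mk3)
open Pool.Agent.HSG (Lat Pr IsInt nI prI DD nm wm dgm dt qP NCl)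
open Pool.Agent.HSG.LV (Pt Sc Cp sS ptS dua)

/-! ### Vandermonde -/

theorem ql_vander (m : ℕ) : ∀ a b : ℂ, (∀ j : ℕ, a ≠ -j) → (∀ j : ℕ, b ≠ -j) →
    (∀ j : ℕ, a + b ≠ -j) → ∑ x ∈ Finset.HasAntidiagonal.antidiagonal m, (m.choose x.1 : ℂ) *
      (Gamma (a + x.2) * Gamma (b + x.1)) =
      Gamma a * Gamma b * (Gamma (a + b + m) / Gamma (a + b)) := by
  induction m with
  | zero =>
    intro a b _ _ hab
    have h : Gamma (a + b) ≠ 0 := Complex.Gamma_ne_zero hab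
    simp [h]
  | succ m ih =>
    intro a b ha hb hab
    rw [Finset.sum_antidiagonal_choose_succ_mul
      (fun i k => Gamma (a + (k : ℂ)) * Gamma (b + (i : ℂ))) m]
    have ha0 : a ≠ 0 := by simpa using ha 0
    have hb0 : b ≠ 0 := by simpa using hb 0
    have hab0 : a + b ≠ 0 := by simpa using hab 0
    have ha' : ∀ j : ℕ, a + 1 ≠ -j := fun j h => ha (j + 1) (by push_cast; linear_combination h)
    have hb' : ∀ j : ℕ, b + 1 ≠ -j := fun j h => hb (j + 1) (by push_cast; linear_combination h)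
    have hab' : ∀ j : ℕ, a + 1 + b ≠ -j :=
      fun j h => hab (j + 1) (by push_cast; linear_combination h)
    have hab'' : ∀ j : ℕ, a + (b + 1) ≠ -j :=
      fun j h => hab (j + 1) (by push_cast; linear_combination h)
    have e1 : ∑ x ∈ Finset.HasAntidiagonal.antidiagonal m, (m.choose x.1 : ℂ) *
        (Gamma (a + ((x.2 + 1 : ℕ) : ℂ)) * Gamma (b + (x.1 : ℂ))) =
        Gamma (a + 1) * Gamma b * (Gamma (a + 1 + b + m) / Gamma (a + 1 + b)) := by
      rw [← ih (a + 1) b ha' hb hab']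
      refine Finset.sum_congr rfl fun x _ => ?_
      rw [show a + ((x.2 + 1 : ℕ) : ℂ) = a + 1 + x.2 by push_cast; ring]
    have e2 : ∑ x ∈ Finset.HasAntidiagonal.antidiagonal m, (m.choose x.2 : ℂ) *
        (Gamma (a + (x.2 : ℂ)) * Gamma (b + ((x.1 + 1 : ℕ) : ℂ))) =
        Gamma a * Gamma (b + 1) * (Gamma (a + (b + 1) + m) / Gamma (a + (b + 1))) := by
      rw [← ih a (b + 1) ha hb' hab'']
      refine Finset.sum_congr rfl fun x hx => ?_
      have hs : x.1 + x.2 = m := Finset.HasAntidiagonal.mem_antidiagonal.mp hx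
      rw [show b + ((x.1 + 1 : ℕ) : ℂ) = b + 1 + x.1 by push_cast; ring,
        ← hs, Nat.choose_symm_add]
    rw [e1, e2, Complex.Gamma_add_one a ha0, Complex.Gamma_add_one b hb0]
    have h1 : Gamma (a + b) ≠ 0 := Complex.Gamma_ne_zero hab
    have h2 : Gamma (a + 1 + b) = (a + b) * Gamma (a + b) := by
      rw [show a + 1 + b = (a + b) + 1 by ring, Complex.Gamma_add_one _ hab0]
    have h3 : Gamma (a + (b + 1)) = (a + b) * Gamma (a + b) := by
      rw [show a + (b + 1) = (a + b) + 1 by ring, Complex.Gamma_add_one _ hab0]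
    rw [h2, h3, show a + 1 + b + (m : ℂ) = a + b + ((m + 1 : ℕ) : ℂ) by push_cast; ring,
      show a + (b + 1) + (m : ℂ) = a + b + ((m + 1 : ℕ) : ℂ) by push_cast; ring]
    field_simp

theorem vander (m : ℕ) (a b : ℂ) (ha : ∀ j : ℕ, a ≠ -j) (hb : ∀ j : ℕ, b ≠ -j)
    (hab : ∀ j : ℕ, a + b ≠ -j) : ∑ j ∈ Finset.range (m + 1), (m.choose j : ℂ) *
      (Gamma (a + (m - j)) * Gamma (b + j)) =
      Gamma a * Gamma b * (Gamma (a + b + m) / Gamma (a + b)) := by
  rw [← ql_vander m a b ha hb hab, Finset.Nat.sum_antidiagonal_eq_sum_range_succ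
    (fun i k => (m.choose i : ℂ) * (Gamma (a + (k : ℂ)) * Gamma (b + (i : ℂ)))) m]
  refine Finset.sum_congr rfl fun j hj => ?_
  have hj' : j ≤ m := Nat.lt_succ_iff.mp (Finset.mem_range.mp hj)
  rw [Nat.cast_sub hj']

/-! ### Bessel functions -/

theorem ql_conj (μ : ℂ) (x : ℝ) :
    (starRingEnd ℂ) (Kb μ x) = Kb ((starRingEnd ℂ) μ) x := by
  unfold Kb
  rw [← integral_conj]
  congr 1
  funext u
  rw [map_mul, ← Complex.exp_conj, ← Complex.cosh_conj, map_neg, map_mul, Complex.conj_ofReal,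
    Complex.conj_ofReal]

theorem ql_adre {q : ℕ} {ν : ℂ} (h : Ad q ν) : |ν.re| < 1 := by
  rcases h with h | ⟨-, -, h2⟩
  · rw [h]
    simp
  · exact h2

theorem ql_re {q j : ℕ} (hj : j ≤ 2 * q) {ν : ℂ} (h : |ν.re| < 1) :
    |(ν + q - j : ℂ).re| < 1 + q := by
  have h1 : (ν + q - j : ℂ).re = ν.re + ((q : ℝ) - j) := by
    simp
    ring
  rw [h1]
  have h2 : |(q : ℝ) - j| ≤ q := by
    rw [abs_le]
    have : (j : ℝ) ≤ 2 * q := by exact_mod_cast hj
    have h3 : (0 : ℝ) ≤ j := Nat.cast_nonneg j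
    constructor <;> linarith
  calc |ν.re + ((q : ℝ) - j)| ≤ |ν.re| + |(q : ℝ) - j| := abs_add_le _ _
    _ < 1 + q := by linarith

theorem ql_kk {μ₁ μ₂ W : ℂ} (h : |μ₁.re| + |μ₂.re| < W.re) :
    IntegrableOn (fun x : ℝ => (x : ℂ) ^ (W - 1) * (Kb μ₁ (4 * Real.pi * x) *
      Kb μ₂ (4 * Real.pi * x))) (Set.Ioi 0) ∧
    ∫ x in Set.Ioi (0 : ℝ), (x : ℂ) ^ (W - 1) * (Kb μ₁ (4 * Real.pi * x) *
      Kb μ₂ (4 * Real.pi * x)) =
      (4 * Real.pi : ℂ) ^ (-W) * ((2 : ℂ) ^ (W - 3) *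
        (Gamma ((W + μ₁ + μ₂) / 2) * Gamma ((W + μ₁ - μ₂) / 2) *
          (Gamma ((W - μ₁ + μ₂) / 2) * Gamma ((W - μ₁ - μ₂) / 2))) / Gamma W) := by
  have hpi := Real.pi_pos
  have h4 : (0 : ℝ) < 4 * Real.pi := by positivity
  obtain ⟨k1, k2⟩ := HB.kk_mellin h
  set g : ℝ → ℂ := fun x => (x : ℂ) ^ (W - 1) * (Kb μ₁ x * Kb μ₂ x) with hg
  have hgi : IntegrableOn g (Set.Ioi 0) := by
    have hc : ContinuousOn g (Set.Ioi 0) := by
      apply ContinuousOn.mul
      · apply ContinuousOn.cpow_const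
        · exact Complex.continuous_ofReal.continuousOn
        · intro x hx
          exact Or.inl (by simpa using hx)
      · exact (HB.kb_cont μ₁).mul (HB.kb_cont μ₂)
    refine Integrable.mono' k1 (hc.aestronglyMeasurable measurableSet_Ioi) ?_
    rw [ae_restrict_iff' measurableSet_Ioi]
    refine Eventually.of_forall fun x hx => ?_
    rw [hg]
    simp only
    rw [norm_mul, Complex.norm_cpow_eq_rpow_re_of_pos hx, norm_mul, Complex.sub_re,
      Complex.one_re]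
  have he : ∀ x ∈ Set.Ioi (0 : ℝ), (4 * Real.pi : ℂ) ^ (-(W - 1)) * g (4 * Real.pi * x) =
      (x : ℂ) ^ (W - 1) * (Kb μ₁ (4 * Real.pi * x) * Kb μ₂ (4 * Real.pi * x)) := by
    intro x hx
    have hx' : (0 : ℝ) < x := hx
    show (4 * Real.pi : ℂ) ^ (-(W - 1)) * (((4 * Real.pi * x : ℝ) : ℂ) ^ (W - 1) *
      (Kb μ₁ (4 * Real.pi * x) * Kb μ₂ (4 * Real.pi * x))) = _
    have e1 : ((4 * Real.pi * x : ℝ) : ℂ) ^ (W - 1) =
        (4 * Real.pi : ℂ) ^ (W - 1) * (x : ℂ) ^ (W - 1) := by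
      have := Complex.mul_cpow_ofReal_nonneg h4.le hx'.le (W - 1)
      push_cast at this ⊢
      exact this
    have e2 : (4 * Real.pi : ℂ) ^ (-(W - 1)) * (4 * Real.pi : ℂ) ^ (W - 1) = 1 := by
      rw [← Complex.cpow_add _ _ (by exact_mod_cast h4.ne'), neg_add_cancel, Complex.cpow_zero]
    rw [e1, mul_assoc ((4 * Real.pi : ℂ) ^ (W - 1)), ← mul_assoc, e2, one_mul]
  have hgl : IntegrableOn (fun x : ℝ => g (4 * Real.pi * x)) (Set.Ioi 0) :=
    (integrableOn_Ioi_comp_mul_left_iff g 0 h4).mpr (by rw [mul_zero]; exact hgi)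
  constructor
  · exact IntegrableOn.congr_fun (hgl.const_mul ((4 * Real.pi : ℂ) ^ (-(W - 1)))) he
      measurableSet_Ioi
  · rw [← setIntegral_congr_fun measurableSet_Ioi he, integral_const_mul,
      integral_comp_mul_left_Ioi g 0 h4, mul_zero, hg, k2]
    rw [Complex.real_smul, ← mul_assoc]
    congr 1
    have e3 : (((4 * Real.pi)⁻¹ : ℝ) : ℂ) = (4 * Real.pi : ℂ) ^ (-1 : ℂ) := by
      rw [Complex.cpow_neg_one]
      push_cast
      rfl
    rw [e3, ← Complex.cpow_add _ _ (by exact_mod_cast h4.ne')]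
    congr 1
    ring

/-! ### The Mellin transform of `gG` -/

variable {q : ℕ} {ν ν' : ℂ}

theorem ql_eq (q : ℕ) (ν ν' w : ℂ) {x : ℝ} (hx : 0 < x) :
    (x : ℂ) ^ (2 * w - 3) * gG q ν ν' x = ∑ j ∈ Finset.range (2 * q + 1),
      (((2 * q).factorial : ℂ) / Real.pi ^ (2 * q) * ((2 * q).choose j : ℂ)) *
        ((x : ℂ) ^ ((2 * w + 2 * q) - 1) * (Kb (ν + q - j) (4 * Real.pi * x) *
          Kb ((starRingEnd ℂ) ν' + q - j) (4 * Real.pi * x))) := by
  unfold gG
  rw [← mul_assoc, Finset.mul_sum]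
  refine Finset.sum_congr rfl fun j _ => ?_
  have hxc : (x : ℂ) ≠ 0 := by exact_mod_cast hx.ne'
  have e1 : (x : ℂ) ^ ((2 * w + 2 * q) - 1) = (x : ℂ) ^ (2 * w - 3) * (x : ℂ) ^ (2 + 2 * q) := by
    rw [← Complex.cpow_natCast, ← Complex.cpow_add _ _ hxc]
    congr 1
    push_cast
    ring
  rw [e1, ql_conj]
  have e2 : (starRingEnd ℂ) (ν' + q - j) = (starRingEnd ℂ) ν' + q - j := by
    rw [map_sub, map_add, Complex.conj_natCast, Complex.conj_natCast]
  rw [e2]
  ring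

theorem ql_cond (had : Ad q ν) (had' : Ad q ν') {w : ℂ} (hw : 1 < w.re) {j : ℕ}
    (hj : j ≤ 2 * q) :
    |(ν + q - j : ℂ).re| + |((starRingEnd ℂ) ν' + q - j : ℂ).re| < (2 * w + 2 * q : ℂ).re := by
  have h1 := ql_re hj (ql_adre had)
  have h2 := ql_re hj (ν := (starRingEnd ℂ) ν') (by rw [Complex.conj_re]; exact ql_adre had')
  have h3 : (2 * w + 2 * q : ℂ).re = 2 * w.re + 2 * q := by simp
  rw [h3]
  linarith

theorem ql_int (had : Ad q ν) (had' : Ad q ν') {w : ℂ} (hw : 1 < w.re) :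
    IntegrableOn (fun x : ℝ => (x : ℂ) ^ (2 * w - 3) * gG q ν ν' x) (Set.Ioi 0) := by
  have h1 : IntegrableOn (fun x : ℝ => ∑ j ∈ Finset.range (2 * q + 1),
      (((2 * q).factorial : ℂ) / Real.pi ^ (2 * q) * ((2 * q).choose j : ℂ)) *
        ((x : ℂ) ^ ((2 * w + 2 * q) - 1) * (Kb (ν + q - j) (4 * Real.pi * x) *
          Kb ((starRingEnd ℂ) ν' + q - j) (4 * Real.pi * x)))) (Set.Ioi 0) := by
    refine integrable_finsetSum _ fun j hj => ?_
    have hj' : j ≤ 2 * q := Nat.lt_succ_iff.mp (Finset.mem_range.mp hj)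
    exact (ql_kk (ql_cond had had' hw hj')).1.const_mul _
  exact IntegrableOn.congr_fun h1 (fun x hx => (ql_eq q ν ν' w hx).symm) measurableSet_Ioi

theorem gG_mellin (had : Ad q ν) (had' : Ad q ν') {w : ℂ} (hw : 1 < w.re) :
    IntegrableOn (fun x : ℝ => x ^ (2 * w.re - 3) * ‖gG q ν ν' x‖) (Set.Ioi 0) ∧
    ∫ x in Set.Ioi (0 : ℝ), (x : ℂ) ^ (2 * w - 3) * gG q ν ν' x =
      ((2 * q).factorial : ℂ) / Real.pi ^ (2 * q) * (4 * Real.pi : ℂ) ^ (-(2 * w + 2 * q)) *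
        (2 : ℂ) ^ (2 * w + 2 * q - 3) * (Gw q ν ν' w / Gamma (2 * w)) := by
  constructor
  · refine IntegrableOn.congr_fun (ql_int had had' hw).norm (fun x hx => ?_) measurableSet_Ioi
    have hx' : (0 : ℝ) < x := hx
    have e2 : (2 * w - 3 : ℂ).re = 2 * w.re - 3 := by simp
    rw [norm_mul, Complex.norm_cpow_eq_rpow_re_of_pos hx', e2]
  · rw [setIntegral_congr_fun measurableSet_Ioi (fun x hx => ql_eq q ν ν' w hx),
      integral_finsetSum]
    · have h1 : ∀ j ∈ Finset.range (2 * q + 1), ∫ x in Set.Ioi (0 : ℝ),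
          (((2 * q).factorial : ℂ) / Real.pi ^ (2 * q) * ((2 * q).choose j : ℂ)) *
          ((x : ℂ) ^ ((2 * w + 2 * q) - 1) * (Kb (ν + q - j) (4 * Real.pi * x) *
          Kb ((starRingEnd ℂ) ν' + q - j) (4 * Real.pi * x))) =
          (((2 * q).factorial : ℂ) / Real.pi ^ (2 * q) * (4 * Real.pi : ℂ) ^ (-(2 * w + 2 * q)) *
            (2 : ℂ) ^ (2 * w + 2 * q - 3) *
            (Gamma (w + q + (ν - (starRingEnd ℂ) ν') / 2) *
              Gamma (w + q - (ν - (starRingEnd ℂ) ν') / 2)) / Gamma (2 * w + 2 * q)) *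
          (((2 * q).choose j : ℂ) * (Gamma (w + (ν + (starRingEnd ℂ) ν') / 2 +
            (((2 * q : ℕ) : ℂ) - j)) * Gamma (w - (ν + (starRingEnd ℂ) ν') / 2 + j))) := by
        intro j hj
        have hj' : j ≤ 2 * q := Nat.lt_succ_iff.mp (Finset.mem_range.mp hj)
        rw [integral_const_mul, (ql_kk (ql_cond had had' hw hj')).2]
        have e1 : (2 * w + 2 * q + (ν + q - j) + ((starRingEnd ℂ) ν' + q - j)) / 2 =
            w + (ν + (starRingEnd ℂ) ν') / 2 + (((2 * q : ℕ) : ℂ) - j) := by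
          push_cast
          ring
        have e2 : (2 * w + 2 * q + (ν + q - j) - ((starRingEnd ℂ) ν' + q - j)) / 2 =
            w + q + (ν - (starRingEnd ℂ) ν') / 2 := by ring
        have e3 : (2 * w + 2 * q - (ν + q - j) + ((starRingEnd ℂ) ν' + q - j)) / 2 =
            w + q - (ν - (starRingEnd ℂ) ν') / 2 := by ring
        have e4 : (2 * w + 2 * q - (ν + q - j) - ((starRingEnd ℂ) ν' + q - j)) / 2 =
            w - (ν + (starRingEnd ℂ) ν') / 2 + j := by ring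
        rw [e1, e2, e3, e4]
        ring
      have hν := ql_adre had
      have hν' := ql_adre had'
      have hre1 : (w + (ν + (starRingEnd ℂ) ν') / 2).re = w.re + (ν.re + ν'.re) / 2 := by
        simp
      have hre2 : (w - (ν + (starRingEnd ℂ) ν') / 2).re = w.re - (ν.re + ν'.re) / 2 := by
        simp
      have hp1 : 0 < (w + (ν + (starRingEnd ℂ) ν') / 2).re := by
        rw [hre1]
        have := abs_lt.mp hν
        have := abs_lt.mp hν'
        linarith [this.1, (abs_lt.mp hν).1]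
      have hp2 : 0 < (w - (ν + (starRingEnd ℂ) ν') / 2).re := by
        rw [hre2]
        linarith [(abs_lt.mp hν').2, (abs_lt.mp hν).2]
      have hne : ∀ z : ℂ, 0 < z.re → ∀ j : ℕ, z ≠ -j := by
        intro z hz j h
        rw [h, Complex.neg_re, Complex.natCast_re] at hz
        have := Nat.cast_nonneg (α := ℝ) j
        linarith
      rw [Finset.sum_congr rfl h1, ← Finset.mul_sum,
        vander (2 * q) _ _ (hne _ hp1) (hne _ hp2) (hne _ (by rw [Complex.add_re]; linarith))]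
      have e5 : w + (ν + (starRingEnd ℂ) ν') / 2 + (w - (ν + (starRingEnd ℂ) ν') / 2) = 2 * w := by
        ring
      have e6 : 2 * w + ((2 * q : ℕ) : ℂ) = 2 * w + 2 * q := by push_cast; ring
      rw [e5, e6]
      have hG : Gamma (2 * w + 2 * q) ≠ 0 := by
        apply Complex.Gamma_ne_zero_of_re_pos
        have h3 : (2 * w + 2 * q : ℂ).re = 2 * w.re + 2 * q := by simp
        rw [h3]
        positivity
      unfold Gw
      obtain ⟨G0, hG0⟩ : ∃ G0, G0 = Gamma (2 * w + 2 * q) := ⟨_, rfl⟩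
      obtain ⟨G1, hG1⟩ : ∃ G1, G1 = Gamma (w + q + (ν - (starRingEnd ℂ) ν') / 2) := ⟨_, rfl⟩
      obtain ⟨G2, hG2⟩ : ∃ G2, G2 = Gamma (w + q - (ν - (starRingEnd ℂ) ν') / 2) := ⟨_, rfl⟩
      obtain ⟨G3, hG3⟩ : ∃ G3, G3 = Gamma (w + (ν + (starRingEnd ℂ) ν') / 2) := ⟨_, rfl⟩
      obtain ⟨G4, hG4⟩ : ∃ G4, G4 = Gamma (w - (ν + (starRingEnd ℂ) ν') / 2) := ⟨_, rfl⟩
      rw [← hG0] at hG
      rw [← hG0, ← hG1, ← hG2, ← hG3, ← hG4]
      field_simp
    · intro j hj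
      have hj' : j ≤ 2 * q := Nat.lt_succ_iff.mp (Finset.mem_range.mp hj)
      exact (ql_kk (ql_cond had had' hw hj')).1.const_mul _

/-! ### The Mellin transform of `xi0` -/

theorem ql_gcont (q : ℕ) (ν ν' : ℂ) : ContinuousOn (gG q ν ν') (Set.Ioi 0) := by
  unfold gG
  refine ContinuousOn.mul continuousOn_const (continuousOn_finsetSum _ fun j _ => ?_)
  have hpi := Real.pi_pos
  have hm : ∀ μ : ℂ, ContinuousOn (fun X : ℝ => Kb μ (4 * Real.pi * X)) (Set.Ioi 0) := by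
    intro μ
    refine (HB.kb_cont μ).comp (by fun_prop) fun x hx => ?_
    have hx' : (0 : ℝ) < x := hx
    show (0 : ℝ) < 4 * Real.pi * x
    positivity
  refine ContinuousOn.mul ?_ ((hm _).mul ?_)
  · exact continuousOn_const.mul (by fun_prop)
  · exact Complex.continuous_conj.comp_continuousOn (hm _)

/-- the function on the product -/
noncomputable def ql_F (q : ℕ) (ν ν' w : ℂ) (p : ℝ × ℝ) : ℂ :=
  (p.1 : ℂ) ^ (2 * w - 1) * (gG q ν ν' p.2 *
    ((Real.exp (-(Real.pi * (p.1 / p.2))) / p.2 ^ 3 : ℝ) : ℂ))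

theorem ql_F_cts (q : ℕ) (ν ν' w : ℂ) :
    ContinuousOn (ql_F q ν ν' w) (Set.Ioi (0 : ℝ) ×ˢ Set.Ioi (0 : ℝ)) := by
  unfold ql_F
  have h1 : ContinuousOn (fun p : ℝ × ℝ => (p.1 : ℂ) ^ (2 * w - 1))
      (Set.Ioi (0 : ℝ) ×ˢ Set.Ioi (0 : ℝ)) := by
    apply ContinuousOn.cpow_const
    · exact (Complex.continuous_ofReal.comp continuous_fst).continuousOn
    · rintro ⟨a, b⟩ ⟨ha, -⟩
      exact Or.inl (by simpa using ha)
  apply h1.mul
  have h2 : ContinuousOn (fun p : ℝ × ℝ => gG q ν ν' p.2)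
      (Set.Ioi (0 : ℝ) ×ˢ Set.Ioi (0 : ℝ)) :=
    (ql_gcont q ν ν').comp continuous_snd.continuousOn fun p hp => hp.2
  apply h2.mul
  apply Complex.continuous_ofReal.comp_continuousOn
  have h4 : ContinuousOn (fun p : ℝ × ℝ => Real.exp (-(Real.pi * (p.1 / p.2))))
      (Set.Ioi (0 : ℝ) ×ˢ Set.Ioi (0 : ℝ)) := by
    apply Real.continuous_exp.comp_continuousOn
    apply ContinuousOn.neg
    apply ContinuousOn.mul continuousOn_const
    exact continuous_fst.continuousOn.div continuous_snd.continuousOn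
      fun p hp => (ne_of_gt hp.2 : p.2 ≠ 0)
  refine h4.div (continuous_snd.continuousOn.pow 3) fun p hp => ?_
  exact pow_ne_zero 3 (ne_of_gt hp.2 : p.2 ≠ 0)

theorem ql_norm (q : ℕ) (ν ν' w : ℂ) {B x : ℝ} (hB : 0 < B) (hx : 0 < x) :
    ‖ql_F q ν ν' w (B, x)‖ =
    (‖gG q ν ν' x‖ / x ^ 3) * (B ^ (2 * w.re - 1) * Real.exp (-(Real.pi / x * B))) := by
  unfold ql_F
  simp only
  rw [norm_mul, Complex.norm_cpow_eq_rpow_re_of_pos hB, norm_mul, Complex.norm_real,
    Real.norm_eq_abs, abs_of_nonneg (by positivity)]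
  have e1 : Real.pi * (B / x) = Real.pi / x * B := by ring
  have e2 : (2 * w - 1 : ℂ).re = 2 * w.re - 1 := by simp
  rw [e1, e2]
  ring

theorem ql_F_int (had : Ad q ν) (had' : Ad q ν') {w : ℂ} (hw : 1 < w.re) :
    Integrable (ql_F q ν ν' w) ((volume.restrict (Set.Ioi (0 : ℝ))).prod
      (volume.restrict (Set.Ioi (0 : ℝ)))) := by
  have hpi := Real.pi_pos
  have hm : AEStronglyMeasurable (ql_F q ν ν' w) ((volume.restrict (Set.Ioi (0 : ℝ))).prod
      (volume.restrict (Set.Ioi (0 : ℝ)))) := by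
    rw [Measure.prod_restrict]
    exact (ql_F_cts q ν ν' w).aestronglyMeasurable (measurableSet_Ioi.prod measurableSet_Ioi)
  rw [integrable_prod_iff' hm]
  constructor
  · rw [ae_restrict_iff' measurableSet_Ioi]
    refine Eventually.of_forall fun x hx => ?_
    have hx' : (0 : ℝ) < x := hx
    have h1 := (HB.kq_inner_int (s := 2 * w.re) (r := Real.pi / x) (by linarith)
      (by positivity)).const_mul (‖gG q ν ν' x‖ / x ^ 3)
    have hc : ContinuousOn (fun B : ℝ => ql_F q ν ν' w (B, x)) (Set.Ioi 0) :=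
      (ql_F_cts q ν ν' w).comp (Continuous.prodMk_left x).continuousOn fun B hB => ⟨hB, hx⟩
    refine Integrable.mono' h1 (hc.aestronglyMeasurable measurableSet_Ioi) ?_
    rw [ae_restrict_iff' measurableSet_Ioi]
    exact Eventually.of_forall fun B hB => (ql_norm q ν ν' w hB hx).le
  · have hk := (gG_mellin had had' hw).1
    have h2 : ∀ x ∈ Set.Ioi (0 : ℝ), (Real.pi ^ (-(2 * w.re)) * Real.Gamma (2 * w.re)) *
        (x ^ (2 * w.re - 3) * ‖gG q ν ν' x‖) =
        ∫ B, ‖ql_F q ν ν' w (B, x)‖ ∂(volume.restrict (Set.Ioi (0 : ℝ))) := by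
      intro x hx
      have hx' : (0 : ℝ) < x := hx
      have h3 : ∀ B ∈ Set.Ioi (0 : ℝ), ‖ql_F q ν ν' w (B, x)‖ =
          (‖gG q ν ν' x‖ / x ^ 3) * (B ^ (2 * w.re - 1) * Real.exp (-(Real.pi / x * B))) :=
        fun B hB => ql_norm q ν ν' w hB hx
      rw [setIntegral_congr_fun measurableSet_Ioi h3, integral_const_mul,
        Real.integral_rpow_mul_exp_neg_mul_Ioi (by linarith) (by positivity), HB.kq_rpow hx']
      have e4 : x ^ (2 * w.re - 3) = x ^ (2 * w.re) / x ^ 3 := by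
        rw [Real.rpow_sub hx']
        congr 1
        exact_mod_cast Real.rpow_natCast x 3
      rw [e4]
      ring
    have h6 : IntegrableOn (fun x : ℝ => (Real.pi ^ (-(2 * w.re)) * Real.Gamma (2 * w.re)) *
        (x ^ (2 * w.re - 3) * ‖gG q ν ν' x‖)) (Set.Ioi 0) := hk.const_mul _
    exact h6.congr_fun h2 measurableSet_Ioi

theorem xi0_mellin (had : Ad q ν) (had' : Ad q ν') {w : ℂ} (hw : 1 < w.re) :
    IntegrableOn (fun B : ℝ => B ^ (2 * w.re - 1) * ‖xi0 q ν ν' B‖) (Set.Ioi 0) ∧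
    ∫ B in Set.Ioi (0 : ℝ), (B : ℂ) ^ (2 * w - 1) * xi0 q ν ν' B =
      (Real.pi : ℂ) ^ (-(2 * w)) * (((2 * q).factorial : ℂ) / Real.pi ^ (2 * q) *
        (4 * Real.pi : ℂ) ^ (-(2 * w + 2 * q)) * (2 : ℂ) ^ (2 * w + 2 * q - 3)) *
          Gw q ν ν' w := by
  have hpi := Real.pi_pos
  have hF := ql_F_int had had' hw
  have h1 : ∀ B : ℝ, ∫ x in Set.Ioi (0 : ℝ), ql_F q ν ν' w (B, x) =
      (B : ℂ) ^ (2 * w - 1) * xi0 q ν ν' B := by
    intro B
    unfold ql_F xi0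
    simp only
    rw [integral_const_mul]
  have e2 : (2 * w - 1 : ℂ).re = 2 * w.re - 1 := by simp
  have e2' : (2 * w : ℂ).re = 2 * w.re := by simp
  have hw2 : 0 < (2 * w : ℂ).re := by rw [e2']; linarith
  constructor
  · have h2 := hF.integral_prod_left.norm
    refine IntegrableOn.congr_fun h2 (fun B hB => ?_) measurableSet_Ioi
    have hB' : (0 : ℝ) < B := hB
    rw [h1, norm_mul, Complex.norm_cpow_eq_rpow_re_of_pos hB', e2]
  · have h3 : ∫ B in Set.Ioi (0 : ℝ), (B : ℂ) ^ (2 * w - 1) * xi0 q ν ν' B =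
        ∫ B in Set.Ioi (0 : ℝ), ∫ x in Set.Ioi (0 : ℝ), ql_F q ν ν' w (B, x) := by
      congr 1
      funext B
      rw [h1]
    rw [h3, integral_integral_swap (f := fun B x => ql_F q ν ν' w (B, x)) hF]
    have h4 : ∀ x ∈ Set.Ioi (0 : ℝ), ∫ B in Set.Ioi (0 : ℝ), ql_F q ν ν' w (B, x) =
        ((Real.pi : ℂ) ^ (-(2 * w)) * Gamma (2 * w)) *
          ((x : ℂ) ^ (2 * w - 3) * gG q ν ν' x) := by
      intro x hx
      have hx' : (0 : ℝ) < x := hx
      have h5 : ∀ B ∈ Set.Ioi (0 : ℝ), ql_F q ν ν' w (B, x) = (gG q ν ν' x / (x : ℂ) ^ 3) *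
          ((B : ℂ) ^ (2 * w - 1) * cexp (-(((Real.pi / x : ℝ) : ℂ) * (B : ℂ)))) := by
        intro B _
        unfold ql_F
        simp only
        rw [Complex.ofReal_div, Complex.ofReal_exp, Complex.ofReal_pow]
        have : ((-(Real.pi * (B / x)) : ℝ) : ℂ) = -(((Real.pi / x : ℝ) : ℂ) * (B : ℂ)) := by
          push_cast
          ring
        rw [this]
        ring
      rw [setIntegral_congr_fun measurableSet_Ioi h5, integral_const_mul,
        Complex.integral_cpow_mul_exp_neg_mul_Ioi hw2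
          (by positivity), HB.kq_cpow hx' (2 * w)]
      have hxc : (x : ℂ) ≠ 0 := by exact_mod_cast hx'.ne'
      have e4 : (x : ℂ) ^ (2 * w - 3) = (x : ℂ) ^ (2 * w) / (x : ℂ) ^ 3 := by
        rw [Complex.cpow_sub _ _ hxc]
        congr 1
        exact_mod_cast Complex.cpow_natCast (x : ℂ) 3
      rw [e4]
      ring
    rw [setIntegral_congr_fun measurableSet_Ioi h4, integral_const_mul,
      (gG_mellin had had' hw).2]
    have hG : Gamma (2 * w) ≠ 0 := Complex.Gamma_ne_zero_of_re_pos hw2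
    obtain ⟨G0, hG0⟩ : ∃ G0, G0 = Gamma (2 * w) := ⟨_, rfl⟩
    rw [← hG0] at hG
    rw [← hG0]
    field_simp

end Pool.Agent.HI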