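import Pool.Agent.Lib_helper25.HIF.DX

/-!
# Project HI, block QB: the Gaussian measure on `ℂ²`
-/

set_option autoImplicit false

namespace Pool.Agent.HI
open NumberField Complex MeasureTheory IsDedekindDomain Filter Topology
open scoped nonZeroDivisors MatrixGroups ENNReal
open Pool.Agent.HB (H3 mu Kb mk3)
open Pool.Agent.HSG (Lat Pr IsInt nI prI DD nm wm dgm dt qP NCl)
open Pool.Agent.HSG.LV (Pt Sc Cp sS ptS dua)

variable {K : Type} [Field K] [NumberField K] {s : K →+* ℂ}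

/-! ### The Gaussian on `ℂ` -/

/-- the Gaussian -/
noncomputable def qb_e (z : ℂ) : ℝ := Real.exp (-(Real.pi * normSq z))

theorem qb_e_pos (z : ℂ) : 0 < qb_e z := Real.exp_pos _

theorem qb_e_cont : Continuous qb_e := by
  unfold qb_e
  exact Real.continuous_exp.comp ((continuous_const.mul continuous_normSq).neg)

/-- the radial integrals -/
theorem qb_rad (k : ℕ) : ∫ z : ℂ, ‖z‖ ^ (2 * k) * qb_e z = (k.factorial : ℝ) / Real.pi ^ k := by
  have h := Complex.integral_rpow_mul_exp_neg_mul_rpow (p := 2) (q := (2 * k : ℕ)) (b := Real.pi)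
    (by norm_num) (by
      have : (0 : ℝ) ≤ ((2 * k : ℕ) : ℝ) := Nat.cast_nonneg _
      linarith) Real.pi_pos
  have e1 : ∀ z : ℂ, ‖z‖ ^ (((2 * k : ℕ) : ℝ)) * Real.exp (-Real.pi * ‖z‖ ^ (2 : ℝ)) =
      ‖z‖ ^ (2 * k) * qb_e z := by
    intro z
    unfold qb_e
    rw [Real.rpow_natCast, normSq_eq_norm_sq]
    congr 2
    have : ‖z‖ ^ (2 : ℝ) = ‖z‖ ^ 2 := by
      rw [← Real.rpow_natCast]
      norm_num
    rw [this]
    ring
  simp only [e1] at h
  rw [h]
  have e2 : (((2 * k : ℕ) : ℝ) + 2) / 2 = (k : ℝ) + 1 := by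
    push_cast
    ring
  have e3 : -(((2 * k : ℕ) : ℝ) + 2) / 2 = -((k : ℝ) + 1) := by
    push_cast
    ring
  rw [e2, e3, Real.Gamma_nat_eq_factorial, Real.rpow_neg Real.pi_pos.le, Real.rpow_add_one
    Real.pi_ne_zero, Real.rpow_natCast]
  have := Real.pi_pos
  field_simp

theorem qb_rad_int (k : ℕ) : Integrable (fun z : ℂ => ‖z‖ ^ (2 * k) * qb_e z) := by
  by_contra h
  have h1 := integral_undef h
  rw [qb_rad] at h1
  have h2 : (0 : ℝ) < (k.factorial : ℝ) / Real.pi ^ k := by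
    have := Real.pi_pos
    positivity
  linarith

/-- the moments converge -/
theorem qb_int (i j : ℕ) :
    Integrable (fun z : ℂ => z ^ j * (starRingEnd ℂ) z ^ i * ((qb_e z : ℝ) : ℂ)) := by
  refine Integrable.mono' ((qb_rad_int (i + j)).add (qb_rad_int 0)) ?_ ?_
  · refine Continuous.aestronglyMeasurable ?_
    exact ((continuous_id.pow j).mul (continuous_conj.pow i)).mul
      (continuous_ofReal.comp qb_e_cont)
  · refine Filter.Eventually.of_forall (fun z => ?_)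
    rw [norm_mul, norm_mul, norm_pow, norm_pow, Complex.norm_real, RCLike.norm_conj,
      Real.norm_of_nonneg (qb_e_pos z).le, ← pow_add]
    simp only [Pi.add_apply, mul_zero, pow_zero, one_mul]
    have h1 : ‖z‖ ^ (j + i) ≤ ‖z‖ ^ (2 * (i + j)) + 1 := by
      rcases le_total ‖z‖ 1 with h | h
      · have h2 : ‖z‖ ^ (j + i) ≤ 1 := pow_le_one₀ (norm_nonneg z) h
        have h3 : 0 ≤ ‖z‖ ^ (2 * (i + j)) := by positivity
        linarith
      · have h2 : ‖z‖ ^ (j + i) ≤ ‖z‖ ^ (2 * (i + j)) := pow_le_pow_right₀ h (by omega)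
        linarith
    calc ‖z‖ ^ (j + i) * qb_e z ≤ (‖z‖ ^ (2 * (i + j)) + 1) * qb_e z :=
          mul_le_mul_of_nonneg_right h1 (qb_e_pos z).le
      _ = ‖z‖ ^ (2 * (i + j)) * qb_e z + qb_e z := by ring

/-- the moments -/
noncomputable def qb_m (i j : ℕ) : ℂ :=
  ∫ z : ℂ, z ^ j * (starRingEnd ℂ) z ^ i * ((qb_e z : ℝ) : ℂ)

theorem qb_m_eq (j : ℕ) : qb_m j j = ((j.factorial : ℝ) / Real.pi ^ j : ℝ) := by
  unfold qb_m
  rw [← qb_rad, ← integral_complex_ofReal]
  congr 1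
  funext z
  rw [← mul_pow, mul_conj, normSq_eq_norm_sq]
  push_cast
  ring

theorem qb_m_ne {i j : ℕ} (h : i ≠ j) : qb_m i j = 0 := by
  set d : ℂ := (j : ℂ) - i with hd
  have hd0 : d ≠ 0 := by
    rw [hd, sub_ne_zero]
    exact_mod_cast h.symm
  have hdr : (starRingEnd ℂ) d = d := by
    rw [hd, map_sub, Complex.conj_natCast, Complex.conj_natCast]
  set t : ℝ := Real.pi / ((j : ℝ) - i) with ht
  set c : Circle := Circle.exp t with hc
  have hcc : (c : ℂ) = cexp (t * I) := Circle.coe_exp t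
  have htd : (t : ℂ) * d = Real.pi := by
    rw [ht, hd]
    push_cast
    rw [div_mul_cancel₀]
    exact hd0
  have e1 : (c : ℂ) ^ j * (starRingEnd ℂ) (c : ℂ) ^ i = -1 := by
    rw [hcc, ← Complex.exp_conj, ← Complex.exp_nat_mul, ← Complex.exp_nat_mul, ← Complex.exp_add]
    have : (j : ℂ) * (t * I) + i * (starRingEnd ℂ) (t * I) = Real.pi * I := by
      rw [map_mul, conj_ofReal, conj_I, ← htd, hd]
      ring
    rw [this, Complex.exp_pi_mul_I]
  have h1 := (rotation c).measurePreserving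
  have h2 := h1.integral_comp (rotation c).toHomeomorph.measurableEmbedding
    (fun z : ℂ => z ^ j * (starRingEnd ℂ) z ^ i * ((qb_e z : ℝ) : ℂ))
  have h3 : ∀ z : ℂ, (rotation c z) ^ j * (starRingEnd ℂ) (rotation c z) ^ i *
      ((qb_e (rotation c z) : ℝ) : ℂ) =
      -(z ^ j * (starRingEnd ℂ) z ^ i * ((qb_e z : ℝ) : ℂ)) := by
    intro z
    have h4 : qb_e (rotation c z) = qb_e z := by
      unfold qb_e
      rw [rotation_apply, normSq_mul, Circle.normSq_coe, one_mul]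
    rw [h4, rotation_apply, mul_pow, map_mul, mul_pow]
    linear_combination (z ^ j * (starRingEnd ℂ) z ^ i * ((qb_e z : ℝ) : ℂ)) * e1
  simp only [h3] at h2
  have h5 : ∫ z : ℂ, -(z ^ j * (starRingEnd ℂ) z ^ i * ((qb_e z : ℝ) : ℂ)) = qb_m i j := h2
  rw [integral_neg] at h5
  have h6 : -qb_m i j = qb_m i j := h5
  have h7 : (2 : ℂ) * qb_m i j = 0 := by linear_combination -h6
  exact (mul_eq_zero.1 h7).resolve_left two_ne_zero

/-! ### The Gaussian on `ℂ²` -/

theorem qb_nu (u : ℂ × ℂ) : Real.exp (-(Real.pi * nu u)) = qb_e u.1 * qb_e u.2 := by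
  unfold nu qb_e
  rw [← Real.exp_add]
  congr 1
  ring

theorem qb_nu_cont : Continuous (nu : ℂ × ℂ → ℝ) := by
  unfold nu
  exact (continuous_normSq.comp continuous_fst).add (continuous_normSq.comp continuous_snd)

theorem qb_nu_nonneg (u : ℂ × ℂ) : 0 ≤ nu u := add_nonneg (normSq_nonneg _) (normSq_nonneg _)

theorem qb_dens_meas :
    Measurable (fun u : ℂ × ℂ => ENNReal.ofReal (Real.exp (-(Real.pi * nu u)))) := by
  apply Measurable.ennreal_ofReal
  exact (Real.continuous_exp.comp ((continuous_const.mul qb_nu_cont).neg)).measurable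

theorem qb_lt (P : ℂ × ℂ → ℝ) :
    ∀ᵐ u : ℂ × ℂ ∂(volume : Measure (ℂ × ℂ)), ENNReal.ofReal (P u) < ∞ :=
  Filter.Eventually.of_forall (fun _ => ENNReal.ofReal_lt_top)

theorem qb_int_iff {E : Type} [NormedAddCommGroup E] [NormedSpace ℝ E] {f : ℂ × ℂ → E} :
    Integrable f gam ↔ Integrable (fun u => (qb_e u.1 * qb_e u.2) • f u) := by
  unfold gam
  rw [integrable_withDensity_iff_integrable_smul' qb_dens_meas (qb_lt _)]
  have : (fun u : ℂ × ℂ => (ENNReal.ofReal (Real.exp (-(Real.pi * nu u)))).toReal • f u) =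
      fun u => (qb_e u.1 * qb_e u.2) • f u := by
    funext u
    rw [ENNReal.toReal_ofReal (Real.exp_nonneg _), qb_nu]
  rw [this]

theorem qb_integral {E : Type} [NormedAddCommGroup E] [NormedSpace ℝ E] (f : ℂ × ℂ → E) :
    ∫ u, f u ∂gam = ∫ u : ℂ × ℂ, (qb_e u.1 * qb_e u.2) • f u := by
  unfold gam
  rw [integral_withDensity_eq_integral_toReal_smul qb_dens_meas (qb_lt _)]
  congr 1
  funext u
  rw [ENNReal.toReal_ofReal (Real.exp_nonneg _), qb_nu]

/-- the moments of the Gaussian measure -/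
theorem qb_mom (i j i' j' : ℕ) :
    Integrable (fun u : ℂ × ℂ => (u.1 ^ j * u.2 ^ j') * (starRingEnd ℂ) (u.1 ^ i * u.2 ^ i')) gam ∧
    ∫ u, (u.1 ^ j * u.2 ^ j') * (starRingEnd ℂ) (u.1 ^ i * u.2 ^ i') ∂gam =
      qb_m i j * qb_m i' j' := by
  have e1 : (fun u : ℂ × ℂ => (qb_e u.1 * qb_e u.2) •
      ((u.1 ^ j * u.2 ^ j') * (starRingEnd ℂ) (u.1 ^ i * u.2 ^ i'))) =
      fun u : ℂ × ℂ => (u.1 ^ j * (starRingEnd ℂ) u.1 ^ i * ((qb_e u.1 : ℝ) : ℂ)) *
        (u.2 ^ j' * (starRingEnd ℂ) u.2 ^ i' * ((qb_e u.2 : ℝ) : ℂ)) := by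
    funext u
    rw [Complex.real_smul, map_mul, map_pow, map_pow]
    push_cast
    ring
  constructor
  · rw [qb_int_iff, e1]
    exact (qb_int i j).mul_prod (qb_int i' j')
  · rw [qb_integral, e1]
    exact integral_prod_mul (fun z : ℂ => z ^ j * (starRingEnd ℂ) z ^ i * ((qb_e z : ℝ) : ℂ))
      (fun z : ℂ => z ^ j' * (starRingEnd ℂ) z ^ i' * ((qb_e z : ℝ) : ℂ))

theorem gam_mom (k : ℕ) : Integrable (fun u : ℂ × ℂ => nu u ^ k) gam := by
  have e1 : (fun u : ℂ × ℂ => nu u ^ k) = fun u => (∑ m ∈ Finset.range (k + 1),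
      (k.choose m : ℂ) * ((u.1 ^ m * u.2 ^ (k - m)) *
        (starRingEnd ℂ) (u.1 ^ m * u.2 ^ (k - m)))).re := by
    funext u
    have h1 : (∑ m ∈ Finset.range (k + 1), (k.choose m : ℂ) * ((u.1 ^ m * u.2 ^ (k - m)) *
        (starRingEnd ℂ) (u.1 ^ m * u.2 ^ (k - m)))) = ((nu u ^ k : ℝ) : ℂ) := by
      unfold nu
      rw [add_pow]
      push_cast
      refine Finset.sum_congr rfl (fun m _ => ?_)
      rw [map_mul, map_pow, map_pow, normSq_eq_conj_mul_self, normSq_eq_conj_mul_self]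
      rw [mul_pow, mul_pow]
      ring
    rw [h1, ofReal_re]
  rw [e1]
  refine Integrable.re (𝕜 := ℂ) (f := fun u : ℂ × ℂ => ∑ m ∈ Finset.range (k + 1),
      (k.choose m : ℂ) * ((u.1 ^ m * u.2 ^ (k - m)) *
        (starRingEnd ℂ) (u.1 ^ m * u.2 ^ (k - m)))) ?_
  refine integrable_finsetSum _ (fun m _ => ?_)
  exact ((qb_mom m m (k - m) (k - m)).1).const_mul _

theorem gam_fin : IsFiniteMeasure gam ∧ gam Set.univ = 1 := by
  have h1 : Integrable (fun _ : ℂ × ℂ => (1 : ℝ)) gam := by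
    have := gam_mom 0
    simpa using this
  have hf : IsFiniteMeasure gam := by
    rw [integrable_const_iff_isFiniteMeasure one_ne_zero] at h1
    exact h1
  refine ⟨hf, ?_⟩
  have h2 := (qb_mom 0 0 0 0).2
  simp only [pow_zero, mul_one, map_one] at h2
  rw [integral_const, qb_m_eq] at h2
  have h3 : gam.real Set.univ = 1 := by
    have h4 : ((gam.real Set.univ : ℝ) : ℂ) = 1 := by
      rw [Complex.real_smul, mul_one] at h2
      rw [h2]
      simp
    exact_mod_cast h4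
  rw [Measure.real, ENNReal.toReal_eq_one_iff] at h3
  exact h3

/-! ### Unitary maps -/

theorem qb_dir_norm {w : ℂ} (hw : w ≠ 0) : dir w * (starRingEnd ℂ) (dir w) = 1 := by
  unfold dir
  rw [mul_conj, normSq_div, normSq_ofReal, normSq_eq_norm_sq]
  have h : ‖w‖ ≠ 0 := norm_ne_zero_iff.2 hw
  have : ‖w‖ ^ 2 / (‖w‖ * ‖w‖) = 1 := by
    field_simp
  rw [this, ofReal_one]

theorem qb_de_ne (s : K →+* ℂ) (g : GL (Fin 2) K) : de s g ≠ 0 := by
  unfold de
  rw [map_ne_zero]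
  exact g.det_ne_zero

theorem qb_dn_pos (s : K →+* ℂ) (g : GL (Fin 2) K) {p : ℂ × ℝ} (hp : 0 < p.2) : 0 < dn s g p := by
  unfold dn
  by_cases hc : g 1 0 = 0
  · have hd : g 1 1 ≠ 0 := by
      intro hd
      have h1 := g.det_ne_zero
      rw [Matrix.det_fin_two, hc, hd] at h1
      simp at h1
    rw [hc, map_zero, zero_mul, zero_add, map_zero, zero_mul, add_zero]
    exact normSq_pos.2 ((map_ne_zero s).2 hd)
  · have h1 : 0 < normSq (s (g 1 0)) := normSq_pos.2 ((map_ne_zero s).2 hc)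
    have h2 := normSq_nonneg (s (g 1 0) * p.1 + s (g 1 1))
    positivity

/-- a matrix as a linear map -/
noncomputable def qb_L (a b c d : ℂ) : ℂ × ℂ →ₗ[ℂ] ℂ × ℂ :=
  Matrix.toLin (Module.Basis.finTwoProd ℂ) (Module.Basis.finTwoProd ℂ) !![a, b; c, d]

theorem qb_L_apply (a b c d : ℂ) (u : ℂ × ℂ) :
    qb_L a b c d u = (a * u.1 + b * u.2, c * u.1 + d * u.2) := by
  unfold qb_L
  rw [Matrix.toLin_finTwoProd_apply]

theorem qb_L_mp {a b c d : ℂ} (h : normSq (a * d - b * c) = 1) :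
    MeasurePreserving (fun u : ℂ × ℂ => (a * u.1 + b * u.2, c * u.1 + d * u.2)) volume volume := by
  have e1 : (fun u : ℂ × ℂ => (a * u.1 + b * u.2, c * u.1 + d * u.2)) =
      ((qb_L a b c d).restrictScalars ℝ : ℂ × ℂ → ℂ × ℂ) := by
    funext u
    rw [LinearMap.coe_restrictScalars, qb_L_apply]
  have hdet : LinearMap.det ((qb_L a b c d).restrictScalars ℝ) = 1 := by
    rw [LinearMap.det_restrictScalars, Algebra.norm_complex_apply]
    unfold qb_L
    rw [LinearMap.det_toLin, Matrix.det_fin_two_of, h]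
  have hH : (volume : Measure (ℂ × ℂ)).IsAddHaarMeasure := by
    rw [Measure.volume_eq_prod]
    infer_instance
  have h1 := Measure.map_linearMap_addHaar_eq_smul_addHaar (volume : Measure (ℂ × ℂ))
    (f := (qb_L a b c d).restrictScalars ℝ) (by rw [hdet]; exact one_ne_zero)
  rw [hdet, inv_one, abs_one, ENNReal.ofReal_one, one_smul] at h1
  rw [e1]
  exact ⟨((qb_L a b c d).restrictScalars ℝ).continuous_of_finiteDimensional.measurable, h1⟩

theorem gam_kk (s : K →+* ℂ) (g : GL (Fin 2) K) {p : ℂ × ℝ} (hp : 0 < p.2) :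
    MeasurePreserving (kk s g p) gam gam := by
  have hdn := qb_dn_pos s g hp
  set r : ℝ := √(dn s g p) with hr
  have hr0 : 0 < r := Real.sqrt_pos.2 hdn
  have hrc : ((r : ℝ) : ℂ) ≠ 0 := ofReal_ne_zero.2 hr0.ne'
  have hr2 : ((r : ℝ) : ℂ) ^ 2 = (dn s g p : ℂ) := by
    rw [← ofReal_pow, hr, Real.sq_sqrt hdn.le]
  set α : ℂ := s (g 1 0) * p.1 + s (g 1 1) with hα
  set β : ℂ := s (g 1 0) * p.2 with hβ
  set e : ℂ := dir (de s g) with he
  have hee : e * (starRingEnd ℂ) e = 1 := qb_dir_norm (qb_de_ne s g)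
  have hab : α * (starRingEnd ℂ) α + β * (starRingEnd ℂ) β = ((r : ℝ) : ℂ) ^ 2 := by
    rw [hr2]
    unfold dn
    rw [mul_conj, mul_conj, hβ, normSq_mul, normSq_ofReal]
    push_cast
    ring
  have hkk : ∀ u, kk s g p u = ((α / r) * u.1 + (β / r) * u.2,
      (-(e * (starRingEnd ℂ) β) / r) * u.1 + (e * (starRingEnd ℂ) α / r) * u.2) := by
    intro u
    unfold kk
    rw [← hα, ← he, ← hr, hβ, map_mul, conj_ofReal]
    refine Prod.ext ?_ ?_
    · show _ / _ = _
      ring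
    · show _ / _ = _
      ring
  have hrr : (starRingEnd ℂ) ((r : ℝ) : ℂ) = r := conj_ofReal r
  -- volume
  have hvol : MeasurePreserving (kk s g p) volume volume := by
    have h1 : kk s g p = fun u : ℂ × ℂ => ((α / r) * u.1 + (β / r) * u.2,
      (-(e * (starRingEnd ℂ) β) / r) * u.1 + (e * (starRingEnd ℂ) α / r) * u.2) := funext hkk
    rw [h1]
    apply qb_L_mp
    have h2 : α / r * (e * (starRingEnd ℂ) α / r) - β / r * (-(e * (starRingEnd ℂ) β) / r) = e := by
      have h3 : α / r * (e * (starRingEnd ℂ) α / r) - β / r * (-(e * (starRingEnd ℂ) β) / r) =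
          e * (α * (starRingEnd ℂ) α + β * (starRingEnd ℂ) β) / ((r : ℝ) : ℂ) ^ 2 := by
        field_simp
        ring
      rw [h3, hab]
      field_simp
    rw [h2]
    have h4 : ((normSq e : ℝ) : ℂ) = 1 := by rw [← mul_conj, hee]
    exact_mod_cast h4
  -- the norm
  have hnu : ∀ u, nu (kk s g p u) = nu u := by
    intro u
    have h1 : ((nu (kk s g p u) : ℝ) : ℂ) = nu u := by
      rw [hkk]
      unfold nu
      push_cast
      rw [← mul_conj, ← mul_conj, ← mul_conj, ← mul_conj]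
      simp only [map_add, map_mul, map_div₀, map_neg, Complex.conj_conj, hrr]
      have hrc2 : ((r : ℝ) : ℂ) ^ 2 ≠ 0 := pow_ne_zero 2 hrc
      have h2 : (α / r * u.1 + β / r * u.2) *
          ((starRingEnd ℂ) α / r * (starRingEnd ℂ) u.1 +
            (starRingEnd ℂ) β / r * (starRingEnd ℂ) u.2) +
          (-(e * (starRingEnd ℂ) β) / r * u.1 + e * (starRingEnd ℂ) α / r * u.2) *
            (-((starRingEnd ℂ) e * β) / r * (starRingEnd ℂ) u.1 +
              (starRingEnd ℂ) e * α / r * (starRingEnd ℂ) u.2) =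
          ((α * u.1 + β * u.2) * ((starRingEnd ℂ) α * (starRingEnd ℂ) u.1 +
            (starRingEnd ℂ) β * (starRingEnd ℂ) u.2) +
          (e * (starRingEnd ℂ) e) * ((-((starRingEnd ℂ) β) * u.1 + (starRingEnd ℂ) α * u.2) *
            (-β * (starRingEnd ℂ) u.1 + α * (starRingEnd ℂ) u.2))) / ((r : ℝ) : ℂ) ^ 2 := by
        field_simp
      rw [h2, hee, div_eq_iff hrc2, ← hab]
      ring
    exact_mod_cast h1
  refine ⟨hvol.measurable, ?_⟩
  ext t ht
  rw [Measure.map_apply hvol.measurable ht]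
  unfold gam
  rw [withDensity_apply _ (hvol.measurable ht), withDensity_apply _ ht,
    ← hvol.setLIntegral_comp_preimage ht qb_dens_meas]
  simp only [hnu]

/-- the inner product of two Whittaker functions (the monomials are orthogonal) -/
theorem wh_ip (q : ℕ) (ν ν' : ℂ) {w : ℂ} (hw : w ≠ 0) (y : ℝ) :
    Integrable (fun u => Wh q ν w y u * (starRingEnd ℂ) (Wh q ν' w y u)) gam ∧
    ∫ u, Wh q ν w y u * (starRingEnd ℂ) (Wh q ν' w y u) ∂gam = gG q ν ν' (‖w‖ * y) := by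
  -- the coefficients
  set A : ℕ → ℂ := fun j => ((2 * q).choose j : ℂ) * (-I) ^ j *
    dir w ^ ((q : ℤ) - (j : ℤ)) * wk (1 + q) (ν + q - j) w y with hA
  set A' : ℕ → ℂ := fun j => ((2 * q).choose j : ℂ) * (-I) ^ j *
    dir w ^ ((q : ℤ) - (j : ℤ)) * wk (1 + q) (ν' + q - j) w y with hA'
  have e1 : (fun u => Wh q ν w y u * (starRingEnd ℂ) (Wh q ν' w y u)) = fun u : ℂ × ℂ =>
      ∑ j ∈ Finset.range (2 * q + 1), ∑ i ∈ Finset.range (2 * q + 1),
        (A j * (starRingEnd ℂ) (A' i)) * ((u.1 ^ j * u.2 ^ (2 * q - j)) *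
          (starRingEnd ℂ) (u.1 ^ i * u.2 ^ (2 * q - i))) := by
    funext u
    unfold Wh
    rw [map_sum, Finset.sum_mul_sum]
    refine Finset.sum_congr rfl (fun j _ => Finset.sum_congr rfl (fun i _ => ?_))
    rw [map_mul]
    simp only [hA, hA']
    ring
  have hint : ∀ j i : ℕ, Integrable (fun u : ℂ × ℂ =>
      (A j * (starRingEnd ℂ) (A' i)) * ((u.1 ^ j * u.2 ^ (2 * q - j)) *
          (starRingEnd ℂ) (u.1 ^ i * u.2 ^ (2 * q - i)))) gam := fun j i =>
    ((qb_mom i j (2 * q - i) (2 * q - j)).1).const_mul _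
  rw [e1]
  refine ⟨integrable_finsetSum _ (fun j _ => integrable_finsetSum _ (fun i _ => hint j i)), ?_⟩
  rw [integral_finsetSum _ (fun j _ => integrable_finsetSum _ (fun i _ => hint j i))]
  unfold gG
  rw [Finset.mul_sum]
  refine Finset.sum_congr rfl (fun j hj => ?_)
  rw [integral_finsetSum _ (fun i _ => hint j i), Finset.sum_eq_single j]
  · rw [integral_const_mul, (qb_mom j j (2 * q - j) (2 * q - j)).2, qb_m_eq, qb_m_eq]
    have hj' : j ≤ 2 * q := by
      have := Finset.mem_range.1 hj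
      omega
    have hpi : (Real.pi : ℂ) ≠ 0 := ofReal_ne_zero.2 Real.pi_ne_zero
    have hd := qb_dir_norm hw
    have hch : ((2 * q).choose j : ℂ) * (j.factorial : ℂ) * ((2 * q - j).factorial : ℂ) =
        ((2 * q).factorial : ℂ) := by
      exact_mod_cast Nat.choose_mul_factorial_mul_factorial hj'
    have hpp : (Real.pi : ℂ) ^ j * (Real.pi : ℂ) ^ (2 * q - j) = (Real.pi : ℂ) ^ (2 * q) := by
      rw [← pow_add]
      congr 1
      omega
    have hI : (-I) ^ j * (starRingEnd ℂ) ((-I) ^ j) = 1 := by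
      rw [map_pow, ← mul_pow, map_neg, conj_I, neg_neg, neg_mul, I_mul_I, neg_neg, one_pow]
    have hdd : dir w ^ ((q : ℤ) - (j : ℤ)) * (starRingEnd ℂ) (dir w ^ ((q : ℤ) - (j : ℤ))) = 1 := by
      rw [map_zpow₀, ← mul_zpow, hd, one_zpow]
    have hAA : A j * (starRingEnd ℂ) (A' j) = ((2 * q).choose j : ℂ) ^ 2 *
        ((((‖w‖ * y : ℝ)) : ℂ) ^ (2 + 2 * q) *
          (Kb (ν + q - j) (4 * Real.pi * (‖w‖ * y)) *
            (starRingEnd ℂ) (Kb (ν' + q - j) (4 * Real.pi * (‖w‖ * y))))) := by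
      simp only [hA, hA', map_mul, Complex.conj_natCast]
      unfold wk
      rw [map_mul, conj_ofReal]
      have h3 : ((((‖w‖ * y) ^ (1 + q) : ℝ)) : ℂ) * ((((‖w‖ * y) ^ (1 + q) : ℝ)) : ℂ) =
          (((‖w‖ * y : ℝ)) : ℂ) ^ (2 + 2 * q) := by
        rw [← ofReal_mul, ← pow_add, ← ofReal_pow]
        congr 2
        ring
      calc _ = ((2 * q).choose j : ℂ) ^ 2 * ((-I) ^ j * (starRingEnd ℂ) ((-I) ^ j)) *
            (dir w ^ ((q : ℤ) - (j : ℤ)) * (starRingEnd ℂ) (dir w ^ ((q : ℤ) - (j : ℤ)))) *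
            (((((‖w‖ * y) ^ (1 + q) : ℝ)) : ℂ) * ((((‖w‖ * y) ^ (1 + q) : ℝ)) : ℂ) *
            (Kb (ν + q - j) (4 * Real.pi * (‖w‖ * y)) *
              (starRingEnd ℂ) (Kb (ν' + q - j) (4 * Real.pi * (‖w‖ * y))))) := by ring
        _ = _ := by
            rw [hI, hdd, h3]
            ring
    rw [hAA]
    push_cast
    rw [← hch, ← hpp]
    have hp1 : (Real.pi : ℂ) ^ j ≠ 0 := pow_ne_zero _ hpi
    have hp2 : (Real.pi : ℂ) ^ (2 * q - j) ≠ 0 := pow_ne_zero _ hpi
    field_simp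
  · intro i _ hij
    rw [integral_const_mul, (qb_mom i j (2 * q - i) (2 * q - j)).2, qb_m_ne hij, zero_mul, mul_zero]
  · intro h
    exact absurd hj h

end Pool.Agent.HI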