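import Pool.Agent.Lib_helper25.HIF.DX
import Pool.Agent.Lib_helper25.HIF.AA
import Pool.Agent.Lib_helper25.HIF.AC
import Pool.Agent.Lib_helper25.HIF.AE
import Pool.Agent.Lib_helper25.HIF.AF
import Pool.Agent.Lib_helper25.HIF.AG
import Pool.Agent.Lib_helper25.HIF.KB
import Pool.Agent.Lib_helper25.HIF.QA
import Pool.Agent.Lib_helper25.HIF.QB
import Pool.Agent.Lib_helper25.HIF.SR
import Pool.Agent.Lib_helper84.LVF.LF
import Pool.Agent.Lib_helper84.LVF.LB
import Pool.Agent.Lib_helper84.LVF.LI2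
import Pool.Agent.Lib_helper84.HSGF.GA3

/-!
# Project HI: block QC, the inner product of two forms
-/

set_option linter.unusedSectionVars false

namespace Pool.Agent.HI
open NumberField Complex MeasureTheory IsDedekindDomain Filter Topology
open scoped nonZeroDivisors MatrixGroups ENNReal
open Pool.Agent.HB (H3 mu Kb mk3)
open Pool.Agent.HSG (Lat Pr IsInt nI prI DD nm wm dgm dt qP NCl)
open Pool.Agent.HSG.LV (Pt Sc Cp sS ptS dua)

variable {K : Type} [Field K] [NumberField K] {s : K →+* ℂ}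

/-! ### The unitary matrices -/

theorem qc_kk_sub (s : K →+* ℂ) (g : GL (Fin 2) K) (p : ℂ × ℝ) (u u' : ℂ × ℂ) :
    kk s g p (u - u') = kk s g p u - kk s g p u' := by
  ext
  · simp only [kk, Prod.fst_sub, Prod.snd_sub]
    ring
  · simp only [kk, Prod.fst_sub, Prod.snd_sub]
    ring

theorem qc_nu_zero {u : ℂ × ℂ} (h : nu u = 0) : u = 0 := by
  unfold nu at h
  have h1 := normSq_nonneg u.1
  have h2 := normSq_nonneg u.2
  have h3 : normSq u.1 = 0 := by linarith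
  have h4 : normSq u.2 = 0 := by linarith
  exact Prod.ext (normSq_eq_zero.1 h3) (normSq_eq_zero.1 h4)

theorem qc_kk_emb (s : K →+* ℂ) (g : GL (Fin 2) K) {p : ℂ × ℝ} (hp : 0 < p.2) :
    MeasurableEmbedding (kk s g p) := by
  have hc : Continuous (kk s g p) := by
    unfold kk
    fun_prop
  refine hc.measurableEmbedding ?_
  intro u u' h
  have h1 : nu (kk s g p (u - u')) = 0 := by
    rw [qc_kk_sub, h, sub_self]
    simp [nu]
  rw [nu_kk s g hp] at h1
  exact sub_eq_zero.1 (qc_nu_zero h1)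

theorem qc_dir {w : ℂ} (hw : w ≠ 0) : ‖dir w‖ = 1 := by
  unfold dir
  rw [norm_div, Complex.norm_real, norm_norm, div_self (norm_ne_zero_iff.2 hw)]

section forms

variable {q : ℕ} {ν ν' : ℂ} {n : HSG.Id K} {om om' : HSG.Id K → ℂ}
  {F F' : ℂ × ℝ → ℂ × ℂ → Pt n → ℂ}

theorem ip_act (hF : IForm s q ν n om F) (hF' : IForm s q ν' n om' F') (g : GL (Fin 2) K)
    (P : H3) (x : Pt n) : ip F F' (aH s g P) x = ip F F' P (x.mul g) := by
  unfold ip
  rw [← (gam_kk s g P.2).integral_comp (qc_kk_emb s g P.2)]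
  congr 1
  funext u
  rw [aH_val, hF.slash g P.1 u x P.2, hF'.slash g P.1 u x P.2]
  have h1 : dir (de s g) ^ q * (starRingEnd ℂ) (dir (de s g) ^ q) = 1 := by
    rw [Complex.mul_conj, Complex.normSq_eq_norm_sq, norm_pow, qc_dir (de_ne s g)]
    simp
  rw [map_mul]
  linear_combination (F P.1 u (x.mul g) * (starRingEnd ℂ) (F' P.1 u (x.mul g))) * h1

theorem ip_sc (hF : IForm s q ν n om F) (hF' : IForm s q ν' n om' F') {c : HSG.Id K}
    {x y : Pt n} (h : Sc c x y) (P : H3) :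
    ip F F' P x = om c * (starRingEnd ℂ) (om' c) * ip F F' P y := by
  unfold ip
  rw [← integral_const_mul]
  congr 1
  funext u
  rw [hF.scal c x y h P.1 u P.2, hF'.scal c x y h P.1 u P.2, map_mul]
  ring

theorem qc_nu_nn (u : ℂ × ℂ) : 0 ≤ nu u := add_nonneg (normSq_nonneg _) (normSq_nonneg _)

theorem qc_bound {a b : ℂ} {C C' m : ℝ} (hC : 0 ≤ C) (ha : ‖a‖ ≤ C * m ^ q)
    (hb : ‖b‖ ≤ C' * m ^ q) (hm : 0 ≤ m) : ‖a * (starRingEnd ℂ) b‖ ≤ C * C' * m ^ (2 * q) := by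
  rw [norm_mul, RCLike.norm_conj]
  calc ‖a‖ * ‖b‖ ≤ (C * m ^ q) * (C' * m ^ q) :=
        mul_le_mul ha hb (norm_nonneg _) (by positivity)
    _ = C * C' * m ^ (2 * q) := by ring

theorem ip_bd (S : IQ s) (hn : IsInt n) (hF : IForm s q ν n om F) (hF' : IForm s q ν' n om' F') :
    ∃ C : ℝ, 0 ≤ C ∧ ∀ (P : H3) (x : Pt n), ‖ip F F' P x‖ ≤ C := by
  obtain ⟨C, hC0, hC⟩ := form_unif S hn hF
  obtain ⟨C', hC0', hC'⟩ := form_unif S hn hF'
  refine ⟨C * C' * ∫ u, nu u ^ (2 * q) ∂gam,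
    mul_nonneg (mul_nonneg hC0 hC0') (integral_nonneg fun u => pow_nonneg (qc_nu_nn u) _),
    fun P x => ?_⟩
  unfold ip
  rw [← integral_const_mul]
  refine norm_integral_le_of_norm_le ((gam_mom (2 * q)).const_mul _) ?_
  exact Eventually.of_forall fun u =>
    qc_bound hC0 (hC x P.1 u P.2) (hC' x P.1 u P.2) (qc_nu_nn u)

theorem qc_per (b : HSG.Id K) : ∀ β ∈ (b⁻¹).m, (sS n b).mul (nm β : GL (Fin 2) K) = sS n b := by
  intro β hβ
  refine HSG.LV.ptS_nm (HSG.LV.cp_one n) ?_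
  rwa [inv_one, one_div]

theorem qc_jcont (S : IQ s) (had : Ad q ν) (hn : IsInt n) (hF : IForm s q ν n om F)
    (b : HSG.Id K) : Continuous (fun a : H3 × (ℂ × ℂ) => F a.1.1 a.2 (sS n b)) := by
  obtain ⟨c, hc, h⟩ := form_gs hn hF (qc_per b)
  have h1 := (gs_cont S had hc).comp_continuous
    (f := fun a : H3 × (ℂ × ℂ) => ((a.1.1, a.2) : (ℂ × ℝ) × (ℂ × ℂ))) (by fun_prop)
    (fun a => a.1.2)
  have h2 : (fun a : H3 × (ℂ × ℂ) => F a.1.1 a.2 (sS n b)) =
      fun a : H3 × (ℂ × ℂ) => fs s q ν c a.1.1 a.2 := by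
    funext a
    exact h a.1.1 a.2 a.1.2
  rw [h2]
  exact h1

theorem qc_cont_S (S : IQ s) (had : Ad q ν) (had' : Ad q ν') (hn : IsInt n)
    (hF : IForm s q ν n om F) (hF' : IForm s q ν' n om' F') (b : HSG.Id K) :
    Continuous (fun P => ip F F' P (sS n b)) := by
  obtain ⟨C, hC0, hC⟩ := form_unif S hn hF
  obtain ⟨C', hC0', hC'⟩ := form_unif S hn hF'
  have h1 := qc_jcont S had hn hF b
  have h2 := qc_jcont S had' hn hF' b
  unfold ip
  refine continuous_of_dominated (bound := fun u => C * C' * nu u ^ (2 * q)) ?_ ?_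
    ((gam_mom (2 * q)).const_mul _) ?_
  · intro P
    refine Continuous.aestronglyMeasurable ?_
    refine Continuous.mul ?_ (Complex.continuous_conj.comp ?_)
    · exact h1.comp (by fun_prop : Continuous (fun u : ℂ × ℂ => ((P, u) : H3 × (ℂ × ℂ))))
    · exact h2.comp (by fun_prop : Continuous (fun u : ℂ × ℂ => ((P, u) : H3 × (ℂ × ℂ))))
  · intro P
    exact Eventually.of_forall fun u =>
      qc_bound hC0 (hC _ P.1 u P.2) (hC' _ P.1 u P.2) (qc_nu_nn u)
  · refine Eventually.of_forall fun u => ?_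
    refine Continuous.mul ?_ (Complex.continuous_conj.comp ?_)
    · exact h1.comp (by fun_prop : Continuous (fun P : H3 => ((P, u) : H3 × (ℂ × ℂ))))
    · exact h2.comp (by fun_prop : Continuous (fun P : H3 => ((P, u) : H3 × (ℂ × ℂ))))

theorem ip_cont (S : IQ s) (had : Ad q ν) (had' : Ad q ν') (hn : IsInt n)
    (hF : IForm s q ν n om F) (hF' : IForm s q ν' n om' F') (x : Pt n) :
    Continuous (fun P => ip F F' P x) := by
  obtain ⟨g, hg⟩ := HSG.LV.to_std hn x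
  have h1 : x = (sS n x.L.det).mul ((g : SL(2, K)) : GL (Fin 2) K) := by
    rw [← hg, HSG.LV.sact_eq, ← HSG.LV.pt_mul_mul, ← map_mul, inv_mul_cancel, map_one,
      HSG.LV.pt_mul_one]
  have h2 : (fun P => ip F F' P x) =
      fun P => ip F F' (aH s ((g : SL(2, K)) : GL (Fin 2) K) P) (sS n x.L.det) := by
    funext P
    rw [ip_act hF hF', ← h1]
  rw [h2]
  exact (qc_cont_S S had had' hn hF hF' _).comp (aH_cont s _)

/-! ### Bounds for the Whittaker functions -/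

theorem qc_dir_zpow (w : ℂ) (k : ℤ) : ‖dir w ^ k‖ ≤ 1 := by
  rw [norm_zpow]
  by_cases hw : w = 0
  · subst hw
    have h : ‖dir 0‖ = 0 := by simp [dir]
    rw [h]
    rcases eq_or_ne k 0 with rfl | hk
    · simp
    · rw [zero_zpow k hk]
      norm_num
  · rw [qc_dir hw, one_zpow]

theorem qc_mon (u : ℂ × ℂ) {j : ℕ} (hj : j ≤ 2 * q) :
    ‖u.1 ^ j * u.2 ^ (2 * q - j)‖ ≤ nu u ^ q := by
  have h0 := qc_nu_nn u
  have h1 : ‖u.1‖ ≤ √(nu u) := by
    apply Real.le_sqrt_of_sq_le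
    unfold nu
    rw [← Complex.normSq_eq_norm_sq]
    linarith [normSq_nonneg u.2]
  have h2 : ‖u.2‖ ≤ √(nu u) := by
    apply Real.le_sqrt_of_sq_le
    unfold nu
    rw [← Complex.normSq_eq_norm_sq]
    linarith [normSq_nonneg u.1]
  rw [norm_mul, norm_pow, norm_pow]
  calc ‖u.1‖ ^ j * ‖u.2‖ ^ (2 * q - j) ≤ √(nu u) ^ j * √(nu u) ^ (2 * q - j) := by gcongr
    _ = (√(nu u) ^ 2) ^ q := by
        rw [← pow_add, ← pow_mul]
        congr 1
        omega
    _ = nu u ^ q := by rw [Real.sq_sqrt h0]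

theorem qc_wh (had : Ad q ν) : ∃ C : ℝ, 0 ≤ C ∧ ∀ (w : ℂ) (y : ℝ) (u : ℂ × ℂ), 0 < y →
    ‖Wh q ν w y u‖ ≤ C * Real.exp (-(2 * Real.pi * (‖w‖ * y))) * nu u ^ q := by
  have h1 : ∀ j : ℕ, ∃ C : ℝ, 0 ≤ C ∧ (j ≤ 2 * q → ∀ (w : ℂ) (y : ℝ), 0 < y →
      ‖wk (1 + q) (ν + q - j) w y‖ ≤ C * Real.exp (-(2 * Real.pi * (‖w‖ * y)))) := by
    intro j
    by_cases hj : j ≤ 2 * q
    · have h2 : |(ν + q - j : ℂ).re| ≤ ((1 + q : ℕ) : ℝ) := by
        have h3 := ad_re had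
        have h4 : (ν + q - j : ℂ).re = ν.re + q - j := by simp
        rw [h4]
        have h5 : (j : ℝ) ≤ 2 * q := by exact_mod_cast hj
        have h6 : (0 : ℝ) ≤ j := by positivity
        have h7 := abs_lt.1 h3
        rw [abs_le]
        push_cast
        constructor <;> linarith [h7.1, h7.2]
      obtain ⟨C, hC0, hC⟩ := wk_bd (r := 1 + q) (by omega) h2
      exact ⟨C, hC0, fun _ => hC⟩
    · exact ⟨0, le_rfl, fun h => absurd h hj⟩
  choose C hC0 hC using h1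
  refine ⟨∑ j ∈ Finset.range (2 * q + 1), ((2 * q).choose j : ℝ) * C j,
    Finset.sum_nonneg fun j _ => mul_nonneg (by positivity) (hC0 j), fun w y u hy => ?_⟩
  unfold Wh
  rw [Finset.sum_mul, Finset.sum_mul]
  refine (norm_sum_le _ _).trans (Finset.sum_le_sum fun j hj => ?_)
  have hj' : j ≤ 2 * q := by
    have := Finset.mem_range.1 hj
    omega
  rw [norm_mul, norm_mul, norm_mul, norm_mul, norm_pow, norm_neg, Complex.norm_I, one_pow,
    Complex.norm_natCast, mul_one]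
  have h2 := qc_dir_zpow w ((q : ℤ) - (j : ℤ))
  have h3 := hC j hj' w y hy
  have h4 := qc_mon u hj'
  have h5 := qc_nu_nn u
  have h6 := Real.exp_pos (-(2 * Real.pi * (‖w‖ * y)))
  have h7 := hC0 j
  calc ((2 * q).choose j : ℝ) * ‖dir w ^ ((q : ℤ) - (j : ℤ))‖ * ‖wk (1 + q) (ν + q - j) w y‖ *
        ‖u.1 ^ j * u.2 ^ (2 * q - j)‖
      ≤ ((2 * q).choose j : ℝ) * 1 * (C j * Real.exp (-(2 * Real.pi * (‖w‖ * y)))) *
          nu u ^ q := by gcongr
    _ = _ := by ring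

/-- Parseval for the inner product (cites fs_par, wh_ip) -/
theorem ip_box (S : IQ s) (had : Ad q ν) (had' : Ad q ν') (hn : IsInt n)
    (hF : IForm s q ν n om F) (hF' : IForm s q ν' n om' F') {A A' : HSG.Id K → ℂ}
    (hA : ICoS s q ν F A) (hA' : ICoS s q ν' F' A') (b : HSG.Id K) {B : Set ℂ}
    (hB : IsBox s b⁻¹ B) {y : ℝ} (hy : 0 < y) :
    Summable (fun ξ : K => ‖cS A b ξ‖ * ‖cS A' b ξ‖ * ‖gG q ν ν' (‖s ξ‖ * y)‖) ∧
    ∫ z in B, ip F F' (mk3 z y) (sS n b) = ((√(Dk K) / 2 / nI b : ℝ) : ℂ) *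
      ∑' ξ : K, cS A b ξ * (starRingEnd ℂ) (cS A' b ξ) * gG q ν ν' (‖s ξ‖ * y) := by
  have hgf := gam_fin.1
  obtain ⟨hcs, hgs⟩ := cs_cS S ⟨hA.int, hA.bdd⟩ b
  obtain ⟨hcs', hgs'⟩ := cs_cS S ⟨hA'.int, hA'.bdd⟩ b
  obtain ⟨C1, hC10, hC1⟩ := qc_wh (q := q) had
  obtain ⟨C2, hC20, hC2⟩ := qc_wh (q := q) had'
  obtain ⟨M, hM0, hM⟩ := hcs'.bdd
  set c : K → ℂ := cS A b with hc
  set c' : K → ℂ := cS A' b with hc'
  set G : ℝ := ∫ u, nu u ^ (2 * q) ∂gam with hG
  have hG0 : 0 ≤ G := integral_nonneg fun u => pow_nonneg (qc_nu_nn u) _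
  -- the terms
  set T : K → ℂ × ℂ → ℂ := fun ξ u => c ξ * (starRingEnd ℂ) (c' ξ) *
    (Wh q ν (s ξ) y u * (starRingEnd ℂ) (Wh q ν' (s ξ) y u)) with hT
  have hWb : ∀ (w : ℂ) (u : ℂ × ℂ), ‖Wh q ν w y u * (starRingEnd ℂ) (Wh q ν' w y u)‖ ≤
      C1 * C2 * Real.exp (-(2 * Real.pi * (‖w‖ * y))) * nu u ^ (2 * q) := by
    intro w u
    have h0 := Real.exp_pos (-(2 * Real.pi * (‖w‖ * y)))
    have h00 : Real.exp (-(2 * Real.pi * (‖w‖ * y))) ≤ 1 := by
      rw [Real.exp_le_one_iff]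
      have := Real.pi_pos
      have h9 : 0 ≤ 2 * Real.pi * (‖w‖ * y) := by positivity
      linarith
    have h1 := qc_bound (q := q) (a := Wh q ν w y u) (b := Wh q ν' w y u)
      (C := C1 * Real.exp (-(2 * Real.pi * (‖w‖ * y)))) (C' := C2) (m := nu u)
      (by positivity) (hC1 w y u hy) ?_ (qc_nu_nn u)
    · refine h1.trans (le_of_eq ?_)
      ring
    · refine (hC2 w y u hy).trans ?_
      have := pow_nonneg (qc_nu_nn u) q
      calc C2 * Real.exp (-(2 * Real.pi * (‖w‖ * y))) * nu u ^ q ≤ C2 * 1 * nu u ^ q := by gcongr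
        _ = C2 * nu u ^ q := by ring
  have hne : ∀ ξ : K, c ξ ≠ 0 → s ξ ≠ 0 := by
    intro ξ h h1
    apply h
    rw [(map_eq_zero s).1 h1]
    exact hcs.zero
  have hTi : ∀ ξ, Integrable (T ξ) gam := by
    intro ξ
    by_cases h : c ξ = 0
    · have : T ξ = fun _ => 0 := by
        funext u
        simp only [hT, h, zero_mul]
      rw [this]
      exact integrable_zero _ _ _
    · exact (wh_ip q ν ν' (hne ξ h) y).1.const_mul _
  have hTv : ∀ ξ, ∫ u, T ξ u ∂gam = c ξ * (starRingEnd ℂ) (c' ξ) * gG q ν ν' (‖s ξ‖ * y) := by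
    intro ξ
    by_cases h : c ξ = 0
    · simp only [hT, h, zero_mul, integral_zero]
    · rw [← (wh_ip q ν ν' (hne ξ h) y).2, ← integral_const_mul]
  have hTn : ∀ ξ, ∫ u, ‖T ξ u‖ ∂gam ≤
      (M * (C1 * C2) * G) * (‖c ξ‖ * Real.exp (-(2 * Real.pi * (‖s ξ‖ * y)))) := by
    intro ξ
    have h1 : ∫ u, ‖T ξ u‖ ∂gam ≤ ∫ u, ‖c ξ‖ * M *
        (C1 * C2 * Real.exp (-(2 * Real.pi * (‖s ξ‖ * y)))) * nu u ^ (2 * q) ∂gam := by
      refine integral_mono (hTi ξ).norm ((gam_mom (2 * q)).const_mul _) fun u => ?_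
      show ‖c ξ * (starRingEnd ℂ) (c' ξ) *
        (Wh q ν (s ξ) y u * (starRingEnd ℂ) (Wh q ν' (s ξ) y u))‖ ≤ _
      rw [norm_mul, norm_mul, RCLike.norm_conj]
      have h2 := hWb (s ξ) u
      have h3 := hM ξ
      calc ‖c ξ‖ * ‖c' ξ‖ * ‖Wh q ν (s ξ) y u * (starRingEnd ℂ) (Wh q ν' (s ξ) y u)‖
          ≤ ‖c ξ‖ * M * (C1 * C2 * Real.exp (-(2 * Real.pi * (‖s ξ‖ * y))) *
              nu u ^ (2 * q)) := by gcongr
        _ = _ := by ring
    rw [integral_const_mul] at h1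
    refine h1.trans (le_of_eq ?_)
    rw [← hG]
    ring
  have hsum := (cs_exp S hcs hy).mul_left (M * (C1 * C2) * G)
  have hTs : Summable (fun ξ => ∫ u, ‖T ξ u‖ ∂gam) :=
    Summable.of_nonneg_of_le (fun ξ => integral_nonneg fun u => norm_nonneg _) hTn hsum
  refine ⟨?_, ?_⟩
  · refine Summable.of_nonneg_of_le (fun ξ => by positivity) (fun ξ => ?_) hTs
    have h1 := norm_integral_le_integral_norm (μ := gam) (T ξ)
    rw [hTv, norm_mul, norm_mul, RCLike.norm_conj] at h1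
    exact h1
  · -- Fubini
    have hper := qc_per (n := n) b
    have hvf : IsFiniteMeasure (volume.restrict B : Measure ℂ) :=
      ⟨by rw [Measure.restrict_apply_univ, hB.vol]; exact ENNReal.ofReal_lt_top⟩
    have hmk : ∀ z : ℂ, mk3 z y = ⟨(z, y), hy⟩ := fun z => by
      unfold mk3
      rw [dif_pos hy]
    obtain ⟨D, hD0, hD⟩ := form_unif S hn hF
    obtain ⟨D', hD0', hD'⟩ := form_unif S hn hF'
    have hip : ∀ z : ℂ, ip F F' (mk3 z y) (sS n b) = ∫ u, fs s q ν c (z, y) u *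
        (starRingEnd ℂ) (fs s q ν' c' (z, y) u) ∂gam := by
      intro z
      unfold ip
      congr 1
      funext u
      rw [hmk z]
      show F (z, y) u (sS n b) * (starRingEnd ℂ) (F' (z, y) u (sS n b)) = _
      rw [hA.exp b (z, y) u hy, hA'.exp b (z, y) u hy]
    simp_rw [hip]
    have hj : ∀ {q : ℕ} {ν : ℂ} (_ : Ad q ν) {c : K → ℂ} (_ : GS s ((DD K)⁻¹ * b) c),
        Continuous (fun a : ℂ × (ℂ × ℂ) => fs s q ν c (a.1, y) a.2) := by
      intro q ν had c hgs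
      exact (gs_cont S had hgs).comp_continuous
        (f := fun a : ℂ × (ℂ × ℂ) => (((a.1, y), a.2) : (ℂ × ℝ) × (ℂ × ℂ))) (by fun_prop)
        (fun a => hy)
    have hint : Integrable (Function.uncurry (fun (z : ℂ) (u : ℂ × ℂ) => fs s q ν c (z, y) u *
        (starRingEnd ℂ) (fs s q ν' c' (z, y) u))) ((volume.restrict B).prod gam) := by
      have h1 : Integrable (fun a : ℂ × (ℂ × ℂ) => (D * D') * nu a.2 ^ (2 * q))
          ((volume.restrict B).prod gam) :=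
        (integrable_const (D * D')).mul_prod (gam_mom (2 * q))
      refine h1.mono' ?_ ?_
      · refine Continuous.aestronglyMeasurable ?_
        exact (hj had hgs).mul (Complex.continuous_conj.comp (hj had' hgs'))
      · refine Eventually.of_forall fun a => ?_
        show ‖fs s q ν c (a.1, y) a.2 * (starRingEnd ℂ) (fs s q ν' c' (a.1, y) a.2)‖ ≤ _
        rw [← hA.exp b (a.1, y) a.2 hy, ← hA'.exp b (a.1, y) a.2 hy]
        exact qc_bound hD0 (hD _ (a.1, y) a.2 hy) (hD' _ (a.1, y) a.2 hy) (qc_nu_nn _)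
    rw [integral_integral_swap hint]
    have hpar : ∀ u : ℂ × ℂ, ∫ z in B, fs s q ν c (z, y) u *
        (starRingEnd ℂ) (fs s q ν' c' (z, y) u) =
        ((√(Dk K) / 2 * nI b⁻¹ : ℝ) : ℂ) * ∑' ξ : K, T ξ u := by
      intro u
      exact (fs_par S had had' hB (c := c) (c' := c') (by rwa [inv_inv]) (by rwa [inv_inv])
        hy u u).2.2
    simp_rw [hpar]
    rw [integral_const_mul]
    have hct := HSG.countK K
    have h1 := (hasSum_integral_of_summable_integral_norm hTi hTs).tsum_eq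
    rw [← h1]
    rw [HSG.nI_inv, ← div_eq_mul_inv]
    congr 1
    exact tsum_congr fun ξ => hTv ξ

end forms


end Pool.Agent.HI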