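import Pool.Agent.Lib_helper25.HIF.DX
import Pool.Agent.Lib_helper25.HIF.QA

/-!
# Project HI, block QH: abstract unfolding
-/

namespace Pool.Agent.HI
open NumberField Complex MeasureTheory IsDedekindDomain Filter Topology
open scoped nonZeroDivisors MatrixGroups ENNReal
open Pool.Agent.HB (H3 mu Kb mk3)
open Pool.Agent.HSG (Lat Pr IsInt nI prI DD nm wm dgm dt qP NCl)
open Pool.Agent.HSG.LV (Pt Sc Cp sS ptS dua)
open Pool.Agent.HI

variable {K : Type} [Field K] [NumberField K] {s : K →+* ℂ}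

theorem qh_exp {G X : Type} [Group G] [Countable G] [MeasurableSpace X] {m : Measure X}
    (a : G → X → X) (hmp : ∀ g, MeasurePreserving (a g) m m) {w₁ w₂ f : X → ℝ≥0∞}
    (hw₁ : Measurable w₁) (hw₂ : Measurable w₂) (hf : Measurable f)
    (e₂ : ∀ x, f x ≠ 0 → ∑' g, w₂ (a g x) = 1) :
    ∫⁻ x, w₁ x * f x ∂m = ∑' g, ∫⁻ x, w₁ x * f x * w₂ (a g x) ∂m := by
  have hae : ∀ g, AEMeasurable (fun x => w₁ x * f x * w₂ (a g x)) m :=
    fun g => ((hw₁.mul hf).mul (hw₂.comp (hmp g).measurable)).aemeasurable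
  rw [← lintegral_tsum hae]
  refine lintegral_congr fun x => ?_
  rw [ENNReal.tsum_mul_left]
  by_cases h : f x = 0
  · rw [h, mul_zero, zero_mul]
  · rw [e₂ x h, mul_one]

theorem unfold_abs {G X : Type} [Group G] [Countable G] [MeasurableSpace X] {m : Measure X}
    (a : G → X → X) (h1 : ∀ x, a 1 x = x) (hm : ∀ g h x, a (g * h) x = a g (a h x))
    (hmp : ∀ g, MeasurePreserving (a g) m m) {w₁ w₂ f : X → ℝ≥0∞} (hw₁ : Measurable w₁)
    (hw₂ : Measurable w₂) (hf : Measurable f) (hi : ∀ g x, f (a g x) = f x)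
    (e₁ : ∀ x, f x ≠ 0 → ∑' g, w₁ (a g x) = 1) (e₂ : ∀ x, f x ≠ 0 → ∑' g, w₂ (a g x) = 1) :
    ∫⁻ x, w₁ x * f x ∂m = ∫⁻ x, w₂ x * f x ∂m := by
  rw [qh_exp a hmp hw₁ hw₂ hf e₂, qh_exp a hmp hw₂ hw₁ hf e₁]
  rw [← Equiv.tsum_eq (Equiv.inv G)]
  refine tsum_congr fun g => ?_
  have hinv : ∀ x, a g⁻¹ (a g x) = x := fun x => by rw [← hm, inv_mul_cancel, h1]
  have hmeas : Measurable fun x => w₁ x * f x * w₂ (a g⁻¹ x) :=
    (hw₁.mul hf).mul (hw₂.comp (hmp g⁻¹).measurable)
  rw [Equiv.inv_apply, ← (hmp g).lintegral_comp hmeas]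
  refine lintegral_congr fun x => ?_
  rw [hinv, hi]
  ring

theorem qh_act_one {n : HSG.Id K} (x : PV n) : PV.act 1 x = x := by
  unfold PV.act
  rw [inv_one, HSG.LV.pt_mul_one]
  simp

theorem qh_act_mul {n : HSG.Id K} (g h : GL (Fin 2) K) (x : PV n) :
    PV.act (g * h) x = PV.act g (PV.act h x) := by
  unfold PV.act
  rw [mul_inv_rev, HSG.LV.pt_mul_mul]
  simp [Matrix.vecMul_vecMul]

theorem qh_sf : SFinite (mu : Measure H3) := by
  unfold mu
  have hm : MeasurableSet {p : ℂ × ℝ | 0 < p.2} := measurableSet_lt measurable_const measurable_snd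
  have hemb : MeasurableEmbedding (Subtype.val : H3 → ℂ × ℝ) := MeasurableEmbedding.subtype_coe hm
  have h : SigmaFinite (Measure.comap (Subtype.val : H3 → ℂ × ℝ) volume) := by
    refine SigmaFinite.of_map _ hemb.measurable.aemeasurable ?_
    rw [hemb.map_comap]
    infer_instance
  infer_instance

/-- the action on points with a vector preserves the measure -/
theorem pv_mp (s : K →+* ℂ) {n : HSG.Id K} (g : GL (Fin 2) K) :
    MeasurePreserving (fun y : H3 × PV n => (aH s g y.1, PV.act g y.2))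
      (mu.prod (Measure.count : Measure (PV n))) (mu.prod (Measure.count : Measure (PV n))) := by
  have h1 : MeasurePreserving (PV.act g : PV n → PV n) Measure.count Measure.count := by
    refine ⟨measurable_of_countable _, ?_⟩
    ext S hS
    rw [Measure.map_apply (measurable_of_countable _) hS]
    have hinj : Function.Injective (PV.act g⁻¹ : PV n → PV n) := by
      intro x y hxy
      have := congrArg (PV.act g) hxy
      rwa [← qh_act_mul, ← qh_act_mul, mul_inv_cancel, qh_act_one, qh_act_one] at this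
    have hpre : (PV.act g : PV n → PV n) ⁻¹' S = (PV.act g⁻¹ : PV n → PV n) '' S := by
      ext x
      constructor
      · intro hx
        refine ⟨PV.act g x, hx, ?_⟩
        rw [← qh_act_mul, inv_mul_cancel, qh_act_one]
      · rintro ⟨y, hy, rfl⟩
        show PV.act g (PV.act g⁻¹ y) ∈ S
        rwa [← qh_act_mul, mul_inv_cancel, qh_act_one]
    rw [hpre, Measure.count_injective_image hinj]
  have hsf := qh_sf
  exact (aH_mp s g).prod h1

end Pool.Agent.HI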