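import Pool.Agent.Lib_helper25.HIF.DX
import Pool.Agent.Lib_helper25.HIF.AO
import Pool.Agent.Lib_helper25.HIF.QA
import Pool.Agent.Lib_helper25.HIF.QC
import Pool.Agent.Lib_helper25.HIF.QG
import Pool.Agent.Lib_helper25.HIF.QH
import Pool.Agent.Lib_helper25.HIF.QI
import Pool.Agent.Lib_helper84.LVF.LB
import Pool.Agent.Lib_helper84.LVF.LM
import Pool.Agent.Lib_helper84.LVF.LF
import Pool.Agent.Lib_helper84.HSGF.GA1
import Pool.Agent.Lib_helper84.HSGF.GA3
import Pool.Agent.Lib_helper84.HSGF.GH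

/-!
# Project HI, block QJ: unfolding of `I(t)`
-/

namespace Pool.Agent.HI
open NumberField Complex MeasureTheory IsDedekindDomain Filter Topology
open scoped nonZeroDivisors MatrixGroups ENNReal
open Pool.Agent.HB (H3 mu Kb mk3)
open Pool.Agent.HSG (Lat Pr IsInt nI prI DD nm wm dgm dt qP NCl Kp Uu Pp)
open Pool.Agent.HSG.LV (Pt Sc Cp sS ptS dua)

variable {K : Type} [Field K] [NumberField K] {s : K →+* ℂ}

/-! ### Measures -/

theorem qj_sf : SFinite mu := by
  have h0 : SFinite (Measure.comap Subtype.val (volume : Measure (ℂ × ℝ)) : Measure H3) := by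
    classical
    let S : Set (ℂ × ℝ) := {p | 0 < p.2}
    have hS : MeasurableSet S := measurableSet_lt measurable_const measurable_snd
    let g : ℂ × ℝ → H3 := fun p => if h : 0 < p.2 then ⟨p, h⟩ else ⟨(0, 1), one_pos⟩
    have hg : Measurable g := by
      have h2 : Measurable (fun p => if h : p ∈ S then (⟨p, h⟩ : H3) else ⟨(0, 1), one_pos⟩) :=
        Measurable.dite (f := fun p : S => (⟨p.1, p.2⟩ : H3)) (g := fun _ => ⟨(0, 1), one_pos⟩)
          measurable_id measurable_const hS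
      exact h2
    have h1 : (Measure.comap Subtype.val (volume : Measure (ℂ × ℝ)) : Measure H3) =
        ((volume : Measure (ℂ × ℝ)).restrict S).map g := by
      ext A hA
      rw [Measure.map_apply hg hA, Measure.restrict_apply (hg hA),
        Measure.comap_apply (Subtype.val : H3 → ℂ × ℝ) Subtype.val_injective
          (fun B hB => (MeasurableEmbedding.subtype_coe hS).measurableSet_image.2 hB) _ hA]
      congr 1
      ext p
      constructor
      · rintro ⟨⟨q, hq⟩, hqA, rfl⟩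
        refine ⟨?_, hq⟩
        show g q ∈ A
        have : g q = ⟨q, hq⟩ := dif_pos hq
        rw [this]
        exact hqA
      · rintro ⟨h2, h3⟩
        have h4 : g p = ⟨p, h3⟩ := dif_pos h3
        refine ⟨⟨p, h3⟩, ?_, rfl⟩
        rw [← h4]
        exact h2
    rw [h1]
    infer_instance
  unfold mu
  infer_instance

/-- integral over a product with a countable discrete space -/
theorem qj_lint {α β : Type*} [MeasurableSpace α] [MeasurableSpace β] [Countable β]
    [DiscreteMeasurableSpace β] (μ : Measure α) [SFinite μ] {f : α × β → ℝ≥0∞}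
    (hf : Measurable f) :
    ∫⁻ y, f y ∂(μ.prod Measure.count) = ∑' b : β, ∫⁻ z, f (z, b) ∂μ := by
  rw [lintegral_prod_symm _ hf.aemeasurable, lintegral_count]

/-- a density on a product with a countable discrete space -/
theorem qj_sum {α β : Type*} [MeasurableSpace α] [MeasurableSpace β] [Countable β]
    [DiscreteMeasurableSpace β] (μ : Measure α) [SFinite μ] {w : α × β → ℝ≥0∞}
    (hw : Measurable w) :
    (μ.prod (Measure.count : Measure β)).withDensity w =
      Measure.sum (fun b : β => (μ.withDensity (fun z => w (z, b))).map (fun z => (z, b))) := by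
  apply Measure.ext_of_lintegral
  intro f hf
  rw [lintegral_withDensity_eq_lintegral_mul _ hw hf, qj_lint μ (hw.mul hf), lintegral_sum_measure]
  refine tsum_congr fun b => ?_
  rw [lintegral_map hf (by fun_prop)]
  exact (lintegral_withDensity_eq_lintegral_mul _
    (hw.comp (measurable_prodMk_right)) (hf.comp (measurable_prodMk_right))).symm

/-- unfolding, for complex functions -/
theorem qj_unf {G X : Type} [Group G] [Countable G] [MeasurableSpace X] {m : Measure X}
    (a : G → X → X) (h1 : ∀ x, a 1 x = x) (hm : ∀ g h x, a (g * h) x = a g (a h x))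
    (hmp : ∀ g, MeasurePreserving (a g) m m) {w₁ w₂ : X → ℝ≥0∞} {H : X → ℂ} (hw₁ : Measurable w₁)
    (hw₂ : Measurable w₂) (hH : Measurable H) (hi : ∀ g x, H (a g x) = H x)
    (e₁ : ∀ x, H x ≠ 0 → ∑' g, w₁ (a g x) = 1) (e₂ : ∀ x, H x ≠ 0 → ∑' g, w₂ (a g x) = 1)
    (hfin : Integrable H (m.withDensity w₂)) :
    Integrable H (m.withDensity w₁) ∧
      ∫ x, H x ∂(m.withDensity w₁) = ∫ x, H x ∂(m.withDensity w₂) := by
  have key : ∀ f : X → ℝ≥0∞, Measurable f → (∀ g x, f (a g x) = f x) →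
      (∀ x, f x ≠ 0 → H x ≠ 0) →
      ∫⁻ x, f x ∂(m.withDensity w₁) = ∫⁻ x, f x ∂(m.withDensity w₂) := by
    intro f hf hfi hf0
    rw [lintegral_withDensity_eq_lintegral_mul _ hw₁ hf,
      lintegral_withDensity_eq_lintegral_mul _ hw₂ hf]
    exact unfold_abs a h1 hm hmp hw₁ hw₂ hf hfi (fun x hx => e₁ x (hf0 x hx))
      (fun x hx => e₂ x (hf0 x hx))
  have hint : Integrable H (m.withDensity w₁) := by
    refine ⟨hH.aestronglyMeasurable, ?_⟩
    rw [hasFiniteIntegral_iff_enorm]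
    rw [key (fun x => ‖H x‖ₑ) hH.enorm (fun g x => by rw [hi]) (fun x hx h => hx (by rw [h]; simp))]
    exact hfin.2
  refine ⟨hint, ?_⟩
  rw [← integral_re_add_im hint, ← integral_re_add_im hfin]
  have hre : ∀ (φ : ℂ → ℝ), Measurable φ → (φ 0 = 0) →
      Integrable (fun x => φ (H x)) (m.withDensity w₁) →
      Integrable (fun x => φ (H x)) (m.withDensity w₂) →
      ∫ x, φ (H x) ∂(m.withDensity w₁) = ∫ x, φ (H x) ∂(m.withDensity w₂) := by
    intro φ hφ h0 i1 i2
    rw [integral_eq_lintegral_pos_part_sub_lintegral_neg_part i1,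
      integral_eq_lintegral_pos_part_sub_lintegral_neg_part i2]
    congr 2
    · exact key (fun x => ENNReal.ofReal (φ (H x))) (hφ.comp hH).ennreal_ofReal
        (fun g x => by rw [hi]) (fun x hx h => hx (by rw [h, h0]; simp))
    · exact key (fun x => ENNReal.ofReal (-φ (H x))) (hφ.comp hH).neg.ennreal_ofReal
        (fun g x => by rw [hi]) (fun x hx h => hx (by rw [h, h0]; simp))
  have e1 := hre (fun z => RCLike.re z) (by fun_prop) (by simp) hint.re hfin.re
  have e2 := hre (fun z => RCLike.im z) (by fun_prop) (by simp) hint.im hfin.im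
  rw [e1, e2]

theorem qj_count (K : Type) [Field K] [NumberField K] : Countable (GL (Fin 2) K) := by
  have h1 := HSG.countK K
  have h2 : Countable (Matrix (Fin 2) (Fin 2) K) := inferInstanceAs (Countable (Fin 2 → Fin 2 → K))
  exact Function.Injective.countable (f := fun g : GL (Fin 2) K =>
    (g : Matrix (Fin 2) (Fin 2) K)) Units.val_injective

section forms

variable {q : ℕ} {ν ν' : ℂ} {n : HSG.Id K} {om om' : HSG.Id K → ℂ}
  {F F' : ℂ × ℝ → ℂ × ℂ → Pt n → ℂ}

open scoped Classical in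
/-- the function on points with a vector -/
noncomputable def qjf (s : K →+* ℂ) (F F' : ℂ × ℝ → ℂ × ℂ → Pt n → ℂ) (t : ℝ)
    (y : H3 × PV n) : ℂ :=
  if y.2.v ∈ y.2.x.V ∧ y.2.v ≠ 0 then ip F F' y.1 y.2.x *
    ((Real.exp (-(Real.pi * (t * QQ s y.1 y.2.x.L y.2.v))) : ℝ) : ℂ) else 0

theorem qjf_meas (S : IQ s) (had : Ad q ν) (had' : Ad q ν') (hn : IsInt n)
    (hF : IForm s q ν n om F) (hF' : IForm s q ν' n om' F') (t : ℝ) :
    Measurable (qjf s F F' t) := by
  refine measurable_from_prod_countable_left (fun a => ?_)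
  unfold qjf
  simp only
  by_cases h : a.v ∈ a.x.V ∧ a.v ≠ 0
  · simp only [if_pos h]
    exact ((ip_cont S had had' hn hF hF' a.x).mul (Complex.continuous_ofReal.comp
      (Real.continuous_exp.comp (continuous_const.mul
        (continuous_const.mul (qq_cont s a.x.L a.v))).neg))).measurable
  · simp only [if_neg h]
    exact measurable_const

omit [NumberField K] in
theorem qj_vm (v : Fin 2 → K) (g : GL (Fin 2) K) :
    Matrix.vecMul (Matrix.vecMul v ((g⁻¹ : GL (Fin 2) K) : Matrix (Fin 2) (Fin 2) K))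
      (g : Matrix (Fin 2) (Fin 2) K) = v := by
  rw [Matrix.vecMul_vecMul, ← Units.val_mul, inv_mul_cancel]
  simp

theorem qjf_inv (S : IQ s) (hF : IForm s q ν n om F) (hF' : IForm s q ν' n om' F') (t : ℝ)
    (g : GL (Fin 2) K) (y : H3 × PV n) :
    qjf s F F' t (aH s g y.1, PV.act g y.2) = qjf s F F' t y := by
  obtain ⟨P, x, v⟩ := y
  have h1 : (PV.act g (⟨x, v⟩ : PV n)).v ∈ (PV.act g (⟨x, v⟩ : PV n)).x.V ↔ v ∈ x.V := by
    show Matrix.vecMul v ((g⁻¹ : GL (Fin 2) K) : Matrix (Fin 2) (Fin 2) K) ∈ (x.mul g⁻¹).V ↔ _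
    rw [HSG.LV.mem_V_mul, inv_inv, qj_vm]
  have h2 : (PV.act g (⟨x, v⟩ : PV n)).v ≠ 0 ↔ v ≠ 0 := by
    show Matrix.vecMul v ((g⁻¹ : GL (Fin 2) K) : Matrix (Fin 2) (Fin 2) K) ≠ 0 ↔ _
    constructor
    · intro h h0
      apply h
      rw [h0, Matrix.zero_vecMul]
    · intro h h0
      apply h
      rw [← qj_vm v g, h0, Matrix.zero_vecMul]
  have h3 : ip F F' (aH s g P) (x.mul g⁻¹) = ip F F' P x := by
    rw [ip_act hF hF' g P, ← HSG.LV.pt_mul_mul, inv_mul_cancel, HSG.LV.pt_mul_one]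
  have h4 := qq_act S g P x.L v
  unfold qjf
  simp only
  by_cases h : v ∈ x.V ∧ v ≠ 0
  · rw [if_pos ⟨h1.2 h.1, h2.2 h.2⟩, if_pos h]
    show ip F F' (aH s g P) (x.mul g⁻¹) * ((Real.exp (-(Real.pi * (t * QQ s (aH s g P)
      (x.L.mul g⁻¹) (Matrix.vecMul v ((g⁻¹ : GL (Fin 2) K) : Matrix (Fin 2) (Fin 2) K))))) : ℝ) : ℂ)
      = _
    rw [h3, h4]
  · rw [if_neg (fun h' => h ⟨h1.1 h'.1, h2.1 h'.2⟩), if_neg h]

/-! ### The slices -/

/-- the point of a slice -/
noncomputable def qji (n : HSG.Id K) (b : NCl K → HSG.Id K)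
    (x : NCl K × {c : HSG.Id K // Cp n c}) : PV n := ⟨ptS (b x.1) x.2.2, ![0, 1]⟩

theorem qji_inj {b : NCl K → HSG.Id K} (hb : ∀ κ, (QuotientGroup.mk (b κ) : NCl K) = κ) :
    Function.Injective (qji n b) := by
  rintro ⟨κ, c, hc⟩ ⟨κ', c', hc'⟩ h
  have h3 : Lat.ds (b κ) c⁻¹ = Lat.ds (b κ') c'⁻¹ := congrArg (fun a => a.x.L) h
  obtain ⟨h4, h5⟩ := HSG.ds_inj h3
  have h6 : κ = κ' := by rw [← hb κ, ← hb κ', h4]
  have h7 : c = c' := inv_injective h5
  subst h6
  subst h7
  rfl

theorem qj_wsl (b : NCl K → HSG.Id K) (Bx : HSG.Id K → Set ℂ) (P : H3)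
    (x : NCl K × {c : HSG.Id K // Cp n c}) : wsl b Bx P (qji n b x) =
      (Bx (x.2.1 * b x.1)⁻¹).indicator (fun _ => ENNReal.ofReal (1 / (wK K : ℝ))) P.1.1 := by
  obtain ⟨κ, c, hc⟩ := x
  have e : c⁻¹ / b κ = (c * b κ)⁻¹ := by rw [mul_inv, div_eq_mul_inv]
  simp only
  rw [← e]
  unfold wsl qji wK
  by_cases h : P.1.1 ∈ Bx (c⁻¹ / b κ)
  · rw [Set.indicator_of_mem h, if_pos]
    exact ⟨κ, c, hc, rfl, h⟩
  · rw [Set.indicator_of_notMem h, if_neg]
    rintro ⟨κ', c', hc', h1, h2⟩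
    have h3 : Lat.ds (b κ) c⁻¹ = Lat.ds (b κ') c'⁻¹ := congrArg (fun a => a.x.L) h1
    obtain ⟨h4, h5⟩ := HSG.ds_inj h3
    rw [← h4, ← h5] at h2
    exact h h2

theorem qj_wsl_off (b : NCl K → HSG.Id K) (Bx : HSG.Id K → Set ℂ) (P : H3) {a : PV n}
    (ha : a ∉ Set.range (qji n b)) : wsl b Bx P a = 0 := by
  unfold wsl
  rw [if_neg]
  rintro ⟨κ, c, hc, h1, -⟩
  exact ha ⟨(κ, ⟨c, hc⟩), h1.symm⟩

theorem qj_mem {c : HSG.Id K} (b : HSG.Id K) (hc : Cp n c) :
    (![0, 1] : Fin 2 → K) ∈ (ptS b hc).V := by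
  show (![0, 1] : Fin 2 → K) - ![0, 1] ∈ ((Lat.ds b c⁻¹).sm n).M
  rw [sub_self]
  exact Submodule.zero_mem _

/-- the value at the slices -/
theorem qjf_slice (S : IQ s) (hn : IsInt n) (hF : IForm s q ν n om F)
    (hF' : IForm s q ν' n om' F') (b : NCl K → HSG.Id K) (t : ℝ) (P : H3)
    (x : NCl K × {c : HSG.Id K // Cp n c}) : qjf s F F' t (P, qji n b x) =
      om x.2.1 * (starRingEnd ℂ) (om' x.2.1) * (ip F F' P (sS n (x.2.1 * b x.1)) *
        ((Real.exp (-(Real.pi * (t * (√(nI x.2.1 / nI (b x.1)) / P.1.2)))) : ℝ) : ℂ)) := by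
  obtain ⟨κ, c, hc⟩ := x
  have h0 : (![0, 1] : Fin 2 → K) ≠ 0 := by
    intro h
    have := congrFun h 1
    simp at this
  unfold qjf qji
  simp only
  rw [if_pos ⟨qj_mem _ hc, h0⟩, ip_sc hF hF' (HSG.LV.ptS_sc hn hc).1 P]
  show _ * ((Real.exp (-(Real.pi * (t * QQ s P (Lat.ds (b κ) c⁻¹) ![0, 1]))) : ℝ) : ℂ) = _
  rw [qq_slice S P (b κ) c]
  ring

/-! ### Finiteness -/

theorem qj_nI_inv (c : HSG.Id K) : nI c⁻¹ = (nI c)⁻¹ := by
  have h1 := HSG.nI_mul c⁻¹ c
  rw [inv_mul_cancel, HSG.nI_one] at h1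
  exact eq_inv_of_mul_eq_one_left h1.symm

/-- the constant -/
theorem qj_const (b c : HSG.Id K) {t : ℝ} (ht : 0 < t) :
    √(Dk K) / 2 * nI (c * b)⁻¹ / (Real.pi * (t * √(nI c / nI b))) ^ 2 =
      √(Dk K) / (2 * (Real.pi * t) ^ 2) * nI c ^ (-(2 : ℝ)) := by
  have hc := HSG.nI_pos c
  have hb := HSG.nI_pos b
  have h1 : (Real.pi * (t * √(nI c / nI b))) ^ 2 = (Real.pi * t) ^ 2 * (nI c / nI b) := by
    rw [← mul_assoc, mul_pow, Real.sq_sqrt (div_nonneg hc.le hb.le)]
  rw [h1, qj_nI_inv, HSG.nI_mul, Real.rpow_neg hc.le, Real.rpow_two]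
  have := Real.pi_pos
  field_simp

theorem qj_fin (S : IQ s) (had : Ad q ν) (had' : Ad q ν') (hn : IsInt n)
    (hF : IForm s q ν n om F) (hF' : IForm s q ν' n om' F') (hu : ∀ a, Cp n a → ‖om a‖ = 1)
    (hu' : ∀ a, Cp n a → ‖om' a‖ = 1) {b : NCl K → HSG.Id K}
    (hb : ∀ κ, (QuotientGroup.mk (b κ) : NCl K) = κ) {Bx : HSG.Id K → Set ℂ}
    (hB : ∀ y, IsBox s y (Bx y)) {t : ℝ} (ht : 0 < t) :
    Integrable (qjf s F F' t) ((mu.prod (Measure.count : Measure (PV n))).withDensity
      (fun y => wsl b Bx y.1 y.2)) := by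
  have hsf := qj_sf
  have hfin := HSG.LV.ncl_fin (K := K)
  have hmw : Measurable (fun y : H3 × PV n => wsl b Bx y.1 y.2) :=
    measurable_from_prod_countable_left (fun a => wsl_meas b hB a)
  have hmf := qjf_meas S had had' hn hF hF' t
  refine ⟨hmf.aestronglyMeasurable, ?_⟩
  rw [hasFiniteIntegral_iff_enorm, qj_sum mu hmw, lintegral_sum_measure]
  have h1 : ∀ a : PV n, ∫⁻ z, ‖qjf s F F' t z‖ₑ
      ∂((mu.withDensity (fun P => wsl b Bx (P, a).1 (P, a).2)).map (fun P => (P, a))) =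
      ∫⁻ P, wsl b Bx P a * ‖qjf s F F' t (P, a)‖ₑ ∂mu := by
    intro a
    rw [lintegral_map hmf.enorm (by fun_prop)]
    exact lintegral_withDensity_eq_lintegral_mul _ (wsl_meas b hB a)
      (hmf.enorm.comp (measurable_prodMk_right))
  rw [tsum_congr h1, ← (qji_inj hb).tsum_eq]
  · obtain ⟨C, hC0, hC⟩ := ip_bd S hn hF hF'
    have h2 : ∀ x : NCl K × {c : HSG.Id K // Cp n c},
        ∫⁻ P, wsl b Bx P (qji n b x) * ‖qjf s F F' t (P, qji n b x)‖ₑ ∂mu ≤
          ENNReal.ofReal (1 / (wK K : ℝ)) * ENNReal.ofReal C *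
            ENNReal.ofReal (√(Dk K) / (2 * (Real.pi * t) ^ 2) * nI x.2.1 ^ (-(2 : ℝ))) := by
      intro x
      have hA : 0 < t * √(nI x.2.1 / nI (b x.1)) :=
        mul_pos ht (Real.sqrt_pos.2 (div_pos (HSG.nI_pos _) (HSG.nI_pos _)))
      have h3 := slice_lint S (hB (x.2.1 * b x.1)⁻¹) hA
      rw [qj_const (b x.1) x.2.1 ht] at h3
      rw [← h3, ← lintegral_const_mul]
      · refine lintegral_mono fun P => ?_
        simp only
        rw [qj_wsl, qjf_slice S hn hF hF' b t P x]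
        have h4 : ‖om x.2.1 * (starRingEnd ℂ) (om' x.2.1) * (ip F F' P (sS n (x.2.1 * b x.1)) *
            ((Real.exp (-(Real.pi * (t * (√(nI x.2.1 / nI (b x.1)) / P.1.2)))) : ℝ) : ℂ))‖ₑ ≤
            ENNReal.ofReal C *
              ENNReal.ofReal (Real.exp (-(Real.pi * (t * √(nI x.2.1 / nI (b x.1)) / P.1.2)))) := by
          rw [← ENNReal.ofReal_mul hC0, ← ofReal_norm]
          apply ENNReal.ofReal_le_ofReal
          rw [norm_mul, norm_mul, norm_mul, Complex.norm_conj, hu _ x.2.2, hu' _ x.2.2, one_mul,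
            one_mul, Complex.norm_real, Real.norm_of_nonneg (Real.exp_pos _).le, mul_div_assoc]
          exact mul_le_mul_of_nonneg_right (hC _ _) (Real.exp_pos _).le
        by_cases h5 : P.1.1 ∈ Bx (x.2.1 * b x.1)⁻¹
        · rw [Set.indicator_of_mem h5, Set.indicator_of_mem h5, one_mul,
            mul_assoc (ENNReal.ofReal (1 / (wK K : ℝ)))]
          exact mul_le_mul_right h4 _
        · rw [Set.indicator_of_notMem h5, zero_mul]
          exact bot_le
      · refine Measurable.mul ?_ ?_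
        · exact (measurable_const.indicator (hB _).meas).comp
            (measurable_fst.comp measurable_subtype_coe)
        · refine Measurable.ennreal_ofReal (Real.measurable_exp.comp (Measurable.neg ?_))
          exact measurable_const.mul (measurable_const.div
            (measurable_snd.comp measurable_subtype_coe))
    refine lt_of_le_of_lt (ENNReal.tsum_le_tsum h2) ?_
    rw [ENNReal.tsum_mul_left]
    refine ENNReal.mul_lt_top (ENNReal.mul_lt_top ENNReal.ofReal_lt_top ENNReal.ofReal_lt_top) ?_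
    rw [ENNReal.tsum_prod (f := fun (_ : NCl K) (c : {c : HSG.Id K // Cp n c}) =>
      ENNReal.ofReal (√(Dk K) / (2 * (Real.pi * t) ^ 2) * nI c.1 ^ (-(2 : ℝ))))]
    have : Fintype (NCl K) := Fintype.ofFinite _
    rw [tsum_fintype]
    refine ENNReal.sum_lt_top.2 fun κ _ => ?_
    have h6 : Summable (fun c : {c : HSG.Id K // Cp n c} =>
        √(Dk K) / (2 * (Real.pi * t) ^ 2) * nI c.1 ^ (-(2 : ℝ))) := by
      refine Summable.mul_left _ ?_
      have h7 := id_sum K (σ := 2) (by norm_num)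
      exact h7.comp_injective (i := fun c : {c : HSG.Id K // Cp n c} =>
        (⟨c.1, c.2.1⟩ : {m : HSG.Id K // IsInt m}))
        (fun c c' h => Subtype.ext (congrArg (fun m : {m : HSG.Id K // IsInt m} => m.1) h))
    have h8 : ∀ c : {c : HSG.Id K // Cp n c},
        0 ≤ √(Dk K) / (2 * (Real.pi * t) ^ 2) * nI c.1 ^ (-(2 : ℝ)) := by
      intro c
      have := Real.rpow_nonneg (HSG.nI_pos c.1).le (-(2 : ℝ))
      positivity
    rw [← ENNReal.ofReal_tsum_of_nonneg h8 h6]
    exact ENNReal.ofReal_lt_top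
  · intro a ha
    by_contra hcon
    apply ha
    have h2 : ∀ P : H3, wsl b Bx P a * ‖qjf s F F' t (P, a)‖ₑ = 0 := by
      intro P
      rw [qj_wsl_off b Bx P hcon, zero_mul]
    simp only [h2, lintegral_zero]

/-! ### The sum over the vectors -/

/-- add a vector -/
def qjp (v : Fin 2 → K) (y : H3 × Pt n) : H3 × PV n := (y.1, ⟨y.2, v⟩)

theorem qjp_meas (v : Fin 2 → K) : Measurable (qjp (n := n) v) :=
  measurable_fst.prodMk ((Measurable.of_discrete (f := fun x : Pt n => (⟨x, v⟩ : PV n))).comp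
    measurable_snd)

theorem qj_W_meas (W : WG s) : Measurable (fun y : H3 × PV n => W.w y.1 y.2.x.L) :=
  measurable_from_prod_countable_left (fun a => W.meas a.x.L)

theorem qj_W_meas' (W : WG s) : Measurable (fun y : H3 × Pt n => W.w y.1 y.2.L) :=
  measurable_from_prod_countable_left (fun a => W.meas a.L)

/-- the measure on the points with a vector -/
theorem qj_mW (W : WG s) (n : HSG.Id K) :
    (mu.prod (Measure.count : Measure (PV n))).withDensity (fun y => W.w y.1 y.2.x.L) =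
      Measure.sum (fun v : Fin 2 → K => (mW W n).map (qjp v)) := by
  have hsf := qj_sf
  apply Measure.ext_of_lintegral
  intro f hf
  rw [lintegral_withDensity_eq_lintegral_mul _ (qj_W_meas W) hf,
    qj_lint mu ((qj_W_meas W).mul hf), lintegral_sum_measure]
  have h1 : ∀ v : Fin 2 → K, ∫⁻ y, f y ∂((mW W n).map (qjp v)) =
      ∑' x : Pt n, ∫⁻ P, W.w P x.L * f (P, ⟨x, v⟩) ∂mu := by
    intro v
    rw [lintegral_map hf (qjp_meas v)]
    unfold mW
    have h2 := lintegral_withDensity_eq_lintegral_mul (mu.prod (Measure.count : Measure (Pt n)))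
      (qj_W_meas' W) (g := fun y => f (qjp v y)) (hf.comp (qjp_meas v))
    rw [h2]
    exact qj_lint mu ((qj_W_meas' W).mul (hf.comp (qjp_meas v)))
  rw [tsum_congr h1]
  rw [← ENNReal.tsum_prod (f := fun (v : Fin 2 → K) (x : Pt n) =>
    ∫⁻ P, W.w P x.L * f (P, ⟨x, v⟩) ∂mu)]
  exact (Equiv.tsum_eq (⟨fun p => ⟨p.2, p.1⟩, fun l => (l.v, l.x), fun _ => rfl, fun _ => rfl⟩ :
    (Fin 2 → K) × Pt n ≃ PV n) (fun a : PV n => ∫⁻ P, W.w P a.x.L * f (P, a) ∂mu)).symm

/-- the sum over the vectors -/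
theorem qj_th (t : ℝ) (P : H3) (x : Pt n) : ∑' v : Fin 2 → K, qjf s F F' t (qjp v (P, x)) =
    ip F F' P x * ((th s t P x : ℝ) : ℂ) := by
  classical
  unfold th
  rw [Complex.ofReal_tsum, ← tsum_mul_left]
  refine tsum_congr fun v => ?_
  unfold qjf qjp
  simp only
  by_cases h : v ∈ x.V ∧ v ≠ 0
  · rw [if_pos h, if_pos h]
  · rw [if_neg h, if_neg h, Complex.ofReal_zero, mul_zero]

theorem qj_th_meas (t : ℝ) : Measurable (fun y : H3 × Pt n => th s t y.1 y.2) := by
  classical
  have hK := HSG.countK K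
  refine measurable_from_prod_countable_left (fun x => ?_)
  have h1 : ∀ v : Fin 2 → K, Measurable (fun P : H3 => if v ∈ x.V ∧ v ≠ 0 then
      Real.exp (-(Real.pi * (t * QQ s P x.L v))) else 0) := by
    intro v
    by_cases h : v ∈ x.V ∧ v ≠ 0
    · simp only [if_pos h]
      exact (Real.continuous_exp.comp (continuous_const.mul
        (continuous_const.mul (qq_cont s x.L v))).neg).measurable
    · simp only [if_neg h]
      exact measurable_const
  have h2 : (fun P : H3 => th s t P x) = fun P : H3 => (∑' v : Fin 2 → K,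
      ENNReal.ofReal (if v ∈ x.V ∧ v ≠ 0 then
        Real.exp (-(Real.pi * (t * QQ s P x.L v))) else 0)).toReal := by
    funext P
    unfold th
    rw [ENNReal.tsum_toReal_eq (fun v => ENNReal.ofReal_ne_top)]
    refine tsum_congr fun v => ?_
    rw [ENNReal.toReal_ofReal]
    by_cases h : v ∈ x.V ∧ v ≠ 0
    · rw [if_pos h]
      exact (Real.exp_pos _).le
    · rw [if_neg h]
  show Measurable (fun P : H3 => th s t P x)
  rw [h2]
  exact (Measurable.tsum (fun v => (h1 v).ennreal_ofReal)).ennreal_toReal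

theorem it_unfold (S : IQ s) (had : Ad q ν) (had' : Ad q ν') (hn : IsInt n) (W : WG s)
    (hF : IForm s q ν n om F) (hF' : IForm s q ν' n om' F') (hu : ∀ a, Cp n a → ‖om a‖ = 1)
    (hu' : ∀ a, Cp n a → ‖om' a‖ = 1) {b : NCl K → HSG.Id K}
    (hb : ∀ κ, (QuotientGroup.mk (b κ) : NCl K) = κ) {Bx : HSG.Id K → Set ℂ}
    (hB : ∀ y, IsBox s y (Bx y)) {t : ℝ} (ht : 0 < t) :
    Integrable (fun y : H3 × Pt n => ip F F' y.1 y.2 * ((th s t y.1 y.2 : ℝ) : ℂ)) (mW W n) ∧
    Summable (fun x : NCl K × {c : HSG.Id K // Cp n c} => ‖sl F F' Bx (b x.1) x.2.1 t‖) ∧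
    It W F F' t = ((1 / (wK K : ℝ) : ℝ) : ℂ) * ∑' x : NCl K × {c : HSG.Id K // Cp n c},
      om x.2.1 * (starRingEnd ℂ) (om' x.2.1) * sl F F' Bx (b x.1) x.2.1 t := by
  have hsf := qj_sf
  have hK := HSG.countK K
  have hG := qj_count K
  have hmw : Measurable (fun y : H3 × PV n => wsl b Bx y.1 y.2) :=
    measurable_from_prod_countable_left (fun a => wsl_meas b hB a)
  have hmW : Measurable (fun y : H3 × PV n => W.w y.1 y.2.x.L) := qj_W_meas W
  have hmf := qjf_meas S had had' hn hF hF' t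
  have hfin := qj_fin S had had' hn hF hF' hu hu' hb hB ht
  -- unfolding
  obtain ⟨i1, i2⟩ := qj_unf (G := GL (Fin 2) K) (X := H3 × PV n)
    (m := mu.prod (Measure.count : Measure (PV n)))
    (fun g y => (aH s g y.1, PV.act g y.2))
    (fun y => by
      obtain ⟨P, x, v⟩ := y
      unfold PV.act
      simp only [inv_one, HSG.LV.pt_mul_one, aH_one, Units.val_one, Matrix.vecMul_one])
    (fun g h y => by
      obtain ⟨P, x, v⟩ := y
      unfold PV.act
      simp only [mul_inv_rev, HSG.LV.pt_mul_mul, aH_mul, Matrix.vecMul_vecMul, Units.val_mul])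
    (fun g => pv_mp s g) hmW hmw hmf (fun g y => qjf_inv S hF hF' t g y)
    (fun y _ => W.ex y.1 y.2.x.L)
    (fun y hy => by
      have h1 : y.2.v ∈ y.2.x.V ∧ y.2.v ≠ 0 := by
        by_contra h
        apply hy
        unfold qjf
        rw [if_neg h]
      exact wsl_ex S hn hb hB y.1 y.2 h1.1 h1.2) hfin
  -- the left side
  rw [qj_mW W n] at i1 i2
  have h1 : ∀ v : Fin 2 → K, ∫ y, qjf s F F' t y ∂((mW W n).map (qjp v)) =
      ∫ y, qjf s F F' t (qjp v y) ∂(mW W n) := by
    intro v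
    rw [integral_map (qjp_meas v).aemeasurable hmf.aestronglyMeasurable]
  have h2 : ∑' v : Fin 2 → K, ∫⁻ y, ‖qjf s F F' t (qjp v y)‖ₑ ∂(mW W n) ≠ ∞ := by
    have h3 := i1.2
    rw [hasFiniteIntegral_iff_enorm, lintegral_sum_measure] at h3
    have h4 : ∀ v : Fin 2 → K, ∫⁻ y, ‖qjf s F F' t y‖ₑ ∂((mW W n).map (qjp v)) =
        ∫⁻ y, ‖qjf s F F' t (qjp v y)‖ₑ ∂(mW W n) := by
      intro v
      rw [lintegral_map hmf.enorm (qjp_meas v)]
    rw [tsum_congr h4] at h3
    exact h3.ne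
  have h5 : ∀ v : Fin 2 → K, AEStronglyMeasurable (fun y => qjf s F F' t (qjp v y)) (mW W n) :=
    fun v => (hmf.comp (qjp_meas v)).aestronglyMeasurable
  have h6 : It W F F' t = ∫ y, qjf s F F' t y
      ∂(Measure.sum (fun v : Fin 2 → K => (mW W n).map (qjp v))) := by
    rw [← (hasSum_integral_measure i1).tsum_eq, tsum_congr h1, ← integral_tsum h5 h2]
    unfold It
    refine integral_congr_ae (Eventually.of_forall fun y => ?_)
    exact (qj_th t y.1 y.2).symm
  have h7 : Integrable (fun y : H3 × Pt n => ip F F' y.1 y.2 * ((th s t y.1 y.2 : ℝ) : ℂ))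
      (mW W n) := by
    constructor
    · have h8 : Measurable (fun y : H3 × Pt n => ip F F' y.1 y.2) :=
        measurable_from_prod_countable_left
          (fun x => (ip_cont S had had' hn hF hF' x).measurable)
      exact (h8.mul (Complex.measurable_ofReal.comp (qj_th_meas t))).aestronglyMeasurable
    · rw [hasFiniteIntegral_iff_enorm]
      have h9 : ∀ y : H3 × Pt n, ‖ip F F' y.1 y.2 * ((th s t y.1 y.2 : ℝ) : ℂ)‖ₑ ≤
          ∑' v : Fin 2 → K, ‖qjf s F F' t (qjp v y)‖ₑ := by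
        intro y
        rw [← qj_th t y.1 y.2]
        exact enorm_tsum_le_tsum_enorm
      refine lt_of_le_of_lt (lintegral_mono h9) ?_
      rw [lintegral_tsum (f := fun (v : Fin 2 → K) (y : H3 × Pt n) =>
        ‖qjf s F F' t (qjp v y)‖ₑ) (fun v => (hmf.comp (qjp_meas v)).enorm.aemeasurable)]
      exact lt_top_iff_ne_top.2 h2
  -- the right side
  rw [qj_sum mu hmw] at hfin i2
  have h10 : ∀ a : PV n, ∫ y, qjf s F F' t y
      ∂((mu.withDensity (fun P => wsl b Bx (P, a).1 (P, a).2)).map (fun P => (P, a))) =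
      ∫ P, (wsl b Bx P a).toReal • qjf s F F' t (P, a) ∂mu := by
    intro a
    rw [integral_map (by fun_prop) hmf.aestronglyMeasurable]
    refine integral_withDensity_eq_integral_toReal_smul (wsl_meas b hB a)
      (Eventually.of_forall fun P => ?_) _
    unfold wsl
    split_ifs
    · exact ENNReal.ofReal_lt_top
    · exact ENNReal.zero_lt_top
  have h11 := hasSum_integral_measure hfin
  rw [← i2, ← h6] at h11
  simp only [h10] at h11
  rw [← (qji_inj hb).hasSum_iff] at h11
  · have hsl : ∀ x : NCl K × {c : HSG.Id K // Cp n c},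
        ∫ P, (wsl b Bx P (qji n b x)).toReal • qjf s F F' t (P, qji n b x) ∂mu =
          ((1 / (wK K : ℝ) : ℝ) : ℂ) * (om x.2.1 * (starRingEnd ℂ) (om' x.2.1) *
            sl F F' Bx (b x.1) x.2.1 t) := by
      intro x
      unfold sl
      rw [← integral_const_mul, ← integral_const_mul]
      refine integral_congr_ae (Eventually.of_forall fun P => ?_)
      simp only
      rw [qj_wsl, qjf_slice S hn hF hF' b t P x]
      by_cases h12 : P.1.1 ∈ Bx (x.2.1 * b x.1)⁻¹
      · rw [Set.indicator_of_mem h12, Set.indicator_of_mem h12, ENNReal.toReal_ofReal (by positivity),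
          Complex.real_smul]
        ring
      · rw [Set.indicator_of_notMem h12, Set.indicator_of_notMem h12, ENNReal.toReal_zero,
          zero_smul]
        ring
    have h13 : (fun a : PV n => ∫ P, (wsl b Bx P a).toReal • qjf s F F' t (P, a) ∂mu) ∘
        (qji n b) = fun x => ((1 / (wK K : ℝ) : ℝ) : ℂ) * (om x.2.1 *
          (starRingEnd ℂ) (om' x.2.1) * sl F F' Bx (b x.1) x.2.1 t) := by
      funext x
      exact hsl x
    rw [h13] at h11
    refine ⟨h7, ?_, ?_⟩
    · have h14 := h11.summable.norm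
      by_cases hw : (wK K : ℝ) = 0
      · exfalso
        let x0 : NCl K × {c : HSG.Id K // Cp n c} := (1, ⟨1, HSG.LV.cp_one n⟩)
        have h0 : (![0, 1] : Fin 2 → K) ≠ 0 := by
          intro h
          have := congrFun h 1
          simp at this
        have h16 := wsl_ex S hn hb hB (mk3 0 1) (qji n b x0) (qj_mem _ x0.2.2) h0
        have h17 : ∀ (P : H3) (a : PV n), wsl b Bx P a = 0 := by
          intro P a
          by_cases ha : a ∈ Set.range (qji n b)
          · obtain ⟨x, rfl⟩ := ha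
            rw [qj_wsl, hw, div_zero, ENNReal.ofReal_zero, Set.indicator_zero]
          · exact qj_wsl_off b Bx P ha
        simp only [h17, tsum_zero] at h16
        exact zero_ne_one h16
      · have h15 : ∀ x : NCl K × {c : HSG.Id K // Cp n c}, ‖sl F F' Bx (b x.1) x.2.1 t‖ =
            (wK K : ℝ) * ‖((1 / (wK K : ℝ) : ℝ) : ℂ) * (om x.2.1 *
              (starRingEnd ℂ) (om' x.2.1) * sl F F' Bx (b x.1) x.2.1 t)‖ := by
          intro x
          rw [norm_mul, norm_mul, norm_mul, Complex.norm_conj, hu _ x.2.2, hu' _ x.2.2, one_mul,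
            one_mul, Complex.norm_real, Real.norm_of_nonneg (by positivity)]
          field_simp
        simp only [h15]
        exact h14.mul_left _
    · rw [← h11.tsum_eq, tsum_mul_left]
  · intro a ha
    have h12 : ∀ P : H3, (wsl b Bx P a).toReal • qjf s F F' t (P, a) = 0 := by
      intro P
      rw [qj_wsl_off b Bx P ha, ENNReal.toReal_zero, zero_smul]
    simp only [h12, integral_zero]

end forms


end Pool.Agent.HI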