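import Pool.Agent.Lib_helper25.HIF.DX
import Pool.Agent.Lib_helper25.HIF.AD
import Pool.Agent.Lib_helper25.HIF.AO
import Pool.Agent.Lib_helper25.HIF.QC
import Pool.Agent.Lib_helper25.HIF.QI
import Pool.Agent.Lib_helper25.HIF.QJ
import Pool.Agent.Lib_helper25.HIF.QK
import Pool.Agent.Lib_helper84.LVF.LM
import Pool.Agent.Lib_helper84.HSGF.GA1
import Pool.Agent.Lib_helper84.HSGF.GA3
import Pool.Agent.Lib_helper84.HSGF.GD1
import Pool.Agent.Lib_helper84.HSGF.GG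
import Pool.Agent.Lib_helper99.HBF.BX

/-! # Project HI, block QM: `I(t)` as a series -/

namespace Pool.Agent.HI
open NumberField Complex MeasureTheory IsDedekindDomain Filter Topology
open scoped nonZeroDivisors MatrixGroups ENNReal
open Pool.Agent.HB (H3 mu Kb mk3)
open Pool.Agent.HSG (Lat Pr IsInt nI prI DD nm wm dgm dt qP NCl Kp Uu Pp)
open Pool.Agent.HSG.LV (Pt Sc Cp sS ptS dua)

variable {K : Type} [Field K] [NumberField K] {s : K →+* ℂ}

open scoped Classical in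
theorem qm_sum (K : Type) [Field K] [NumberField K] {σ : ℝ} (hσ : 1 < σ) :
    Summable (fun m : HSG.Id K => if IsInt m then nI m ^ (-σ) else 0) := by
  have h := id_sum K hσ
  have h2 : (fun m : {m : HSG.Id K // IsInt m} => nI m.1 ^ (-σ)) =
      (fun m : HSG.Id K => if IsInt m then nI m ^ (-σ) else 0) ∘ Subtype.val := by
    funext m
    simp only [Function.comp_apply, if_pos m.2]
  rw [h2] at h
  refine (Subtype.val_injective.summable_iff ?_).1 h
  intro m hm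
  rw [if_neg]
  intro hi
  exact hm ⟨⟨m, hi⟩, rfl⟩

/-! ### The embeddings -/

theorem qm_ne (S : IQ s) : s ≠ ComplexEmbedding.conjugate s := by
  intro h
  obtain ⟨x, hx⟩ := S.im
  have h1 := RingHom.congr_fun h x
  rw [ComplexEmbedding.conjugate_coe_eq] at h1
  apply hx
  have h2 := congrArg Complex.im h1
  rw [Complex.conj_im] at h2
  linarith

theorem qm_emb (S : IQ s) (φ : K →+* ℂ) : φ = s ∨ φ = ComplexEmbedding.conjugate s := by
  classical
  by_contra h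
  push Not at h
  have h1 : Fintype.card (K →+* ℂ) = 2 := by
    rw [NumberField.Embeddings.card K ℂ, S.deg]
  have h2 : ({φ, s, ComplexEmbedding.conjugate s} : Finset (K →+* ℂ)).card = 3 := by
    rw [Finset.card_eq_three]
    exact ⟨φ, s, ComplexEmbedding.conjugate s, h.1, h.2, qm_ne S, rfl⟩
  have h3 := Finset.card_le_univ ({φ, s, ComplexEmbedding.conjugate s} : Finset (K →+* ℂ))
  rw [h1, h2] at h3
  omega

theorem qm_univ (S : IQ s) [DecidableEq (K →+* ℂ)] :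
    (Finset.univ : Finset (K →+* ℂ)) = {s, ComplexEmbedding.conjugate s} := by
  ext φ
  simp only [Finset.mem_univ, Finset.mem_insert, Finset.mem_singleton, true_iff]
  exact qm_emb S φ

theorem qm_norm_eq (S : IQ s) (φ : K →+* ℂ) (x : K) : ‖φ x‖ = ‖s x‖ := by
  rcases qm_emb S φ with h | h
  · rw [h]
  · rw [h, ComplexEmbedding.conjugate_coe_eq, Complex.norm_conj]

theorem qm_em (S : IQ s) : IsEmpty (HSG.Em K) := by
  refine ⟨fun w => ?_⟩
  obtain ⟨x, hx⟩ := S.im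
  rcases qm_emb S ((Complex.ofRealHom.comp w : K →+* ℂ)) with h | h
  · have h1 := RingHom.congr_fun h x
    apply hx
    rw [← h1]
    simp
  · have h1 := RingHom.congr_fun h x
    rw [ComplexEmbedding.conjugate_coe_eq] at h1
    apply hx
    have h2 := congrArg Complex.im h1
    rw [Complex.conj_im] at h2
    simp only [RingHom.coe_comp, Function.comp_apply, Complex.ofRealHom_eq_coe,
      Complex.ofReal_im] at h2
    linarith

theorem qm_kp (S : IQ s) (x : Kˣ) : x ∈ Kp K := by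
  have := qm_em S
  intro w
  exact (this.false w).elim

theorem qm_DD : nI (DD K) = Dk K := by
  rw [HSG.gd1_DD]
  unfold nI HSG.gd1_D Dk
  rw [Units.val_mk0, FractionalIdeal.coeIdeal_absNorm, NumberField.absNorm_differentIdeal K]
  rw [Rat.cast_natCast, Nat.cast_natAbs, Int.cast_abs]

theorem qm_Dk_pos : 0 < Dk K := by
  rw [← qm_DD]
  exact HSG.nI_pos _

/-! ### The units -/

theorem qm_unit_norm (S : IQ s) (u : (𝓞 K)ˣ) : ‖s ((u : 𝓞 K) : K)‖ = 1 := by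
  have hne : ((u : 𝓞 K) : K) ≠ 0 := by
    intro h
    exact u.ne_zero (RingOfIntegers.ext h)
  have h1 : Units.mk0 ((u : 𝓞 K) : K) hne ∈ Uu K := (HSG.mem_uu _).2 ⟨u, rfl⟩
  have h2 : prI (Units.mk0 ((u : 𝓞 K) : K) hne) = 1 := h1
  have h3 := nI_norm S (Units.mk0 ((u : 𝓞 K) : K) hne)
  rw [h2, HSG.nI_one] at h3
  have h4 : ‖s ((u : 𝓞 K) : K)‖ ^ 2 = 1 := h3.symm
  have h5 := norm_nonneg (s ((u : 𝓞 K) : K))
  nlinarith

theorem qm_units_finite (S : IQ s) : Finite (𝓞 K)ˣ := by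
  have h1 := NumberField.Embeddings.finite_of_norm_le K ℂ 1
  have h2 : Set.MapsTo (fun u : (𝓞 K)ˣ => ((u : 𝓞 K) : K)) Set.univ
      {x : K | IsIntegral ℤ x ∧ ∀ φ : K →+* ℂ, ‖φ x‖ ≤ 1} := by
    intro u _
    refine ⟨RingOfIntegers.isIntegral_coe _, fun φ => ?_⟩
    rw [qm_norm_eq S φ, qm_unit_norm S]
  have h3 : Set.InjOn (fun u : (𝓞 K)ˣ => ((u : 𝓞 K) : K)) Set.univ := by
    intro u _ v _ h
    exact Units.ext (RingOfIntegers.ext h)
  exact Set.finite_univ_iff.1 (Set.Finite.of_injOn h2 h3 h1)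

/-- a unit of the ring of integers as a unit of the field -/
noncomputable def qm_u (u : (𝓞 K)ˣ) : Kˣ := Units.map (algebraMap (𝓞 K) K).toMonoidHom u

omit [NumberField K] in
theorem qm_u_inj : Function.Injective (qm_u (K := K)) := by
  intro u v h
  have h1 := congrArg Units.val h
  exact Units.ext (RingOfIntegers.ext h1)

theorem qm_u_prI (u : (𝓞 K)ˣ) : prI (qm_u u) = 1 := by
  have : qm_u u ∈ Uu K := (HSG.mem_uu _).2 ⟨u, rfl⟩
  exact this

theorem qm_u_sur {x : Kˣ} (h : prI x = 1) : ∃ u, qm_u u = x := by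
  obtain ⟨u, hu⟩ := (HSG.mem_uu x).1 h
  exact ⟨u, Units.ext hu⟩

/-! ### The sum over the classes -/

section sum

variable [Fintype (NCl K)]

/-- the map which sends an ideal and a unit to a class and an element -/
noncomputable def qm_map {β : NCl K → HSG.Id K}
    (h : ∀ m : HSG.Id K, ∃ κ : NCl K, ∃ ξ : Kˣ, prI ξ * β κ = m) :
    HSG.Id K × (𝓞 K)ˣ → NCl K × Kˣ :=
  fun x => ((h x.1).choose, qm_u x.2 * (h x.1).choose_spec.choose)

omit [Fintype (NCl K)] in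
theorem qm_map_val {β : NCl K → HSG.Id K}
    (h : ∀ m : HSG.Id K, ∃ κ : NCl K, ∃ ξ : Kˣ, prI ξ * β κ = m) (x : HSG.Id K × (𝓞 K)ˣ) :
    prI (qm_map h x).2 * β (qm_map h x).1 = x.1 := by
  unfold qm_map
  simp only
  rw [map_mul, qm_u_prI, one_mul]
  exact (h x.1).choose_spec.choose_spec

omit [Fintype (NCl K)] in
theorem qm_map_bij {β : NCl K → HSG.Id K}
    (h : ∀ m : HSG.Id K, ∃ κ : NCl K, ∃ ξ : Kˣ, prI ξ * β κ = m)
    (hu : ∀ (κ κ' : NCl K) (ξ ξ' : Kˣ), prI ξ * β κ = prI ξ' * β κ' → κ = κ') :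
    Function.Bijective (qm_map h) := by
  constructor
  · intro x y hxy
    have h1 : x.1 = y.1 := by rw [← qm_map_val h x, ← qm_map_val h y, hxy]
    obtain ⟨m, u⟩ := x
    obtain ⟨m', v⟩ := y
    simp only at h1
    subst h1
    have h2 := congrArg Prod.snd hxy
    unfold qm_map at h2
    simp only [mul_left_inj] at h2
    rw [qm_u_inj h2]
  · rintro ⟨κ, ξ⟩
    set m := prI ξ * β κ with hm
    have h1 := (h m).choose_spec.choose_spec
    have h2 : (h m).choose = κ := hu _ _ (h m).choose_spec.choose ξ (by rw [h1])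
    have h3 : prI (ξ * ((h m).choose_spec.choose)⁻¹) = 1 := by
      have h4 : prI (h m).choose_spec.choose * β κ = prI ξ * β κ := by
        have h5 := h1
        conv at h5 => lhs; arg 2; rw [h2]
        rw [h5]
      have h6 := mul_right_cancel h4
      rw [map_mul, map_inv, h6, mul_inv_cancel]
    obtain ⟨u, hu'⟩ := qm_u_sur h3
    refine ⟨(m, u), ?_⟩
    unfold qm_map
    simp only
    rw [hu', Prod.mk.injEq]
    exact ⟨h2, by group⟩

theorem qm_fub (S : IQ s) {β : NCl K → HSG.Id K}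
    (h : ∀ m : HSG.Id K, ∃ κ : NCl K, ∃ ξ : Kˣ, prI ξ * β κ = m)
    (hu : ∀ (κ κ' : NCl K) (ξ ξ' : Kˣ), prI ξ * β κ = prI ξ' * β κ' → κ = κ')
    {g : HSG.Id K → ℂ} (hg : Summable fun m => ‖g m‖) :
    ∑ κ, ∑' ξ : Kˣ, g (prI ξ * β κ) = (wK K : ℂ) * ∑' m, g m := by
  classical
  have hfin := qm_units_finite S
  have := Fintype.ofFinite (𝓞 K)ˣ
  let e := Equiv.ofBijective _ (qm_map_bij h hu)
  have h1 : Summable (fun _ : (𝓞 K)ˣ => ‖(1 : ℂ)‖) := (hasSum_fintype _).summable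
  have h2 := summable_mul_of_summable_norm hg h1
  have h3 := tsum_mul_tsum_of_summable_norm hg h1
  have h4 : (fun x : HSG.Id K × (𝓞 K)ˣ => g x.1 * (1 : ℂ)) =
      (fun y : NCl K × Kˣ => g (prI y.2 * β y.1)) ∘ e := by
    funext x
    rw [mul_one, Function.comp_apply]
    show _ = g (prI (qm_map h x).2 * β (qm_map h x).1)
    rw [qm_map_val]
  have h5 : Summable (fun y : NCl K × Kˣ => g (prI y.2 * β y.1)) := by
    rw [h4] at h2
    exact (Equiv.summable_iff e).1 h2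
  have h6 : ∑' x : HSG.Id K × (𝓞 K)ˣ, g x.1 * (1 : ℂ) =
      ∑' y : NCl K × Kˣ, g (prI y.2 * β y.1) := by
    rw [h4]
    exact Equiv.tsum_eq e (fun y : NCl K × Kˣ => g (prI y.2 * β y.1))
  have h7 : (∑' _ : (𝓞 K)ˣ, (1 : ℂ)) = (wK K : ℂ) := by
    rw [tsum_fintype, Finset.sum_const, Finset.card_univ, nsmul_eq_mul, mul_one]
    unfold wK
    rw [Nat.card_eq_fintype_card]
  have h8 : (∑' κ : NCl K, ∑' ξ : Kˣ, g (prI ξ * β κ)) =
      ∑ κ, ∑' ξ : Kˣ, g (prI ξ * β κ) := tsum_fintype _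
  have h9 := h5.tsum_prod
  rw [h7, h6, h9] at h3
  rw [← h8, mul_comm, h3]

end sum

/-! ### Scaling -/

variable {q : ℕ} {ν ν' : ℂ}

theorem qm_scale (had : Ad q ν) (had' : Ad q ν') {a lam : ℝ} (ha : 0 < a) (hl : 0 < lam) :
    IntegrableOn (fun y : ℝ => gG q ν ν' (lam * y) *
      ((Real.exp (-(Real.pi * (a / y))) / y ^ 3 : ℝ) : ℂ)) (Set.Ioi 0) ∧
    ∫ y in Set.Ioi (0 : ℝ), gG q ν ν' (lam * y) *
      ((Real.exp (-(Real.pi * (a / y))) / y ^ 3 : ℝ) : ℂ) =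
        ((lam ^ 2 : ℝ) : ℂ) * xi0 q ν ν' (a * lam) ∧
    ∫ y in Set.Ioi (0 : ℝ), ‖gG q ν ν' (lam * y) *
      ((Real.exp (-(Real.pi * (a / y))) / y ^ 3 : ℝ) : ℂ)‖ =
        lam ^ 2 * ∫ x in Set.Ioi (0 : ℝ), ‖gG q ν ν' x‖ *
          (Real.exp (-(Real.pi * ((a * lam) / x))) / x ^ 3) := by
  have h0 := xi0_int had had' (mul_pos ha hl)
  set g : ℝ → ℂ := fun x => gG q ν ν' x *
      ((Real.exp (-(Real.pi * ((a * lam) / x))) / x ^ 3 : ℝ) : ℂ) with hg
  have he : ∀ y ∈ Set.Ioi (0 : ℝ), ((lam ^ 3 : ℝ) : ℂ) * g (lam * y) = gG q ν ν' (lam * y) *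
      ((Real.exp (-(Real.pi * (a / y))) / y ^ 3 : ℝ) : ℂ) := by
    intro y hy
    have hy' : (0 : ℝ) < y := hy
    rw [hg]
    simp only
    have e1 : (a * lam) / (lam * y) = a / y := by field_simp
    rw [e1, mul_left_comm, ← Complex.ofReal_mul]
    congr 2
    field_simp
  have hgl : IntegrableOn (fun y : ℝ => ((lam ^ 3 : ℝ) : ℂ) * g (lam * y)) (Set.Ioi 0) := by
    have h := (integrableOn_Ioi_comp_mul_left_iff g 0 hl).mpr (by rw [mul_zero]; exact h0)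
    exact h.const_mul _
  refine ⟨IntegrableOn.congr_fun hgl he measurableSet_Ioi, ?_, ?_⟩
  · rw [← setIntegral_congr_fun measurableSet_Ioi he, integral_const_mul,
      integral_comp_mul_left_Ioi g 0 hl, mul_zero, Complex.real_smul, ← mul_assoc,
      ← Complex.ofReal_mul]
    have e2 : lam ^ 3 * lam⁻¹ = lam ^ 2 := by field_simp
    rw [e2]
    rfl
  · have he' : ∀ y ∈ Set.Ioi (0 : ℝ), lam ^ 3 * ‖g (lam * y)‖ = ‖gG q ν ν' (lam * y) *
      ((Real.exp (-(Real.pi * (a / y))) / y ^ 3 : ℝ) : ℂ)‖ := by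
      intro y hy
      have e3 : ‖((lam ^ 3 : ℝ) : ℂ)‖ = lam ^ 3 := by
        rw [Complex.norm_real, Real.norm_eq_abs, abs_of_pos (by positivity)]
      rw [← he y hy, norm_mul ((lam ^ 3 : ℝ) : ℂ), e3]
    rw [← setIntegral_congr_fun measurableSet_Ioi he', integral_const_mul,
      integral_comp_mul_left_Ioi (fun x => ‖g x‖) 0 hl, mul_zero, smul_eq_mul, ← mul_assoc]
    have e2 : lam ^ 3 * lam⁻¹ = lam ^ 2 := by field_simp
    rw [e2]
    congr 1
    refine setIntegral_congr_fun measurableSet_Ioi fun x hx => ?_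
    have hx' : (0 : ℝ) < x := hx
    rw [hg]
    simp only
    rw [norm_mul, Complex.norm_real, Real.norm_eq_abs, abs_of_nonneg (by positivity)]

/-- the integral over hyperbolic 3-space as an iterated integral -/
theorem qm_mu {Φ : H3 → ℂ} (hΦ : Integrable Φ mu) : ∫ P, Φ P ∂mu =
    ∫ y in Set.Ioi (0 : ℝ), ∫ z : ℂ, ((1 / y ^ 3 : ℝ) : ℂ) * Φ (mk3 z y) := by
  have hS : MeasurableSet {p : ℂ × ℝ | 0 < p.2} :=
    measurableSet_lt measurable_const measurable_snd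
  have hdm := HB.bx_dens_meas
  have hdt : ∀ᵐ P ∂(Measure.comap Subtype.val (volume : Measure (ℂ × ℝ)) : Measure H3),
      ENNReal.ofReal (1 / P.1.2 ^ 3) < ∞ :=
    Filter.Eventually.of_forall fun q => ENNReal.ofReal_lt_top
  set G : ℂ × ℝ → ℂ := fun p => ((1 / p.2 ^ 3 : ℝ) : ℂ) * Φ (mk3 p.1 p.2) with hG
  have h1 : ∀ P : H3, (ENNReal.ofReal (1 / P.1.2 ^ 3)).toReal • Φ P = G (P : ℂ × ℝ) := by
    intro P
    have hP : 0 < P.1.2 := P.2
    rw [hG]
    simp only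
    rw [HB.bx_mk3_val P.2, ENNReal.toReal_ofReal (by positivity), Complex.real_smul]
  unfold mu at hΦ ⊢
  have h2 := (integrable_withDensity_iff_integrable_smul' hdm hdt).1 hΦ
  rw [integral_withDensity_eq_integral_toReal_smul hdm hdt]
  simp only [h1] at h2 ⊢
  have h3 : IntegrableOn G {p : ℂ × ℝ | 0 < p.2} := by
    have h4 := (MeasurableEmbedding.subtype_coe hS).integrable_map_iff
      (μ := Measure.comap Subtype.val (volume : Measure (ℂ × ℝ))) (g := G)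
    rw [(MeasurableEmbedding.subtype_coe hS).map_comap, Subtype.range_coe_subtype] at h4
    exact h4.2 h2
  have key : ∫ P : H3, G (P : ℂ × ℝ) ∂(Measure.comap Subtype.val (volume : Measure (ℂ × ℝ))) =
      ∫ p in {p : ℂ × ℝ | 0 < p.2}, G p := integral_subtype_comap hS G
  rw [key]
  have hpre : {p : ℂ × ℝ | 0 < p.2} = Set.univ ×ˢ Set.Ioi (0 : ℝ) := by
    ext p
    simp
  unfold IntegrableOn at h3
  rw [hpre, Measure.volume_eq_prod, ← Measure.prod_restrict, Measure.restrict_univ] at h3 ⊢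
  rw [integral_prod_symm _ h3]


/-! ### The integral over a slice -/

/-- the integral of the absolute value -/
noncomputable def qm_G1 (q : ℕ) (ν ν' : ℂ) (B : ℝ) : ℝ :=
  ∫ x in Set.Ioi (0 : ℝ), ‖gG q ν ν' x‖ * (Real.exp (-(Real.pi * (B / x))) / x ^ 3)

theorem qm_xi_le (q : ℕ) (ν ν' : ℂ) (B : ℝ) : ‖xi0 q ν ν' B‖ ≤ qm_G1 q ν ν' B := by
  unfold xi0 qm_G1
  refine (norm_integral_le_integral_norm _).trans (le_of_eq ?_)
  refine setIntegral_congr_fun measurableSet_Ioi fun x hx => ?_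
  have hx' : (0 : ℝ) < x := hx
  rw [norm_mul, Complex.norm_real, Real.norm_eq_abs, abs_of_nonneg (by positivity)]

theorem qm_G1_nonneg (q : ℕ) (ν ν' : ℂ) (B : ℝ) : 0 ≤ qm_G1 q ν ν' B :=
  (norm_nonneg _).trans (qm_xi_le q ν ν' B)

section slice

variable {n : HSG.Id K} {om om' : HSG.Id K → ℂ} {F F' : ℂ × ℝ → ℂ × ℂ → Pt n → ℂ}

/-- the integrand of the slice is integrable -/
theorem qm_sl_int (S : IQ s) (had : Ad q ν) (had' : Ad q ν') (hn : IsInt n)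
    (hF : IForm s q ν n om F) (hF' : IForm s q ν' n om' F') {y : HSG.Id K} {B : Set ℂ}
    (hB : IsBox s y B) {a : ℝ} (ha : 0 < a) (x : Pt n) :
    Integrable (fun P : H3 => B.indicator (fun _ => (1 : ℂ)) P.1.1 * ip F F' P x *
      ((Real.exp (-(Real.pi * (a / P.1.2))) : ℝ) : ℂ)) mu := by
  obtain ⟨C, hC0, hC⟩ := ip_bd S hn hF hF'
  have m1 : Measurable (fun P : H3 => P.1.1) := measurable_fst.comp measurable_subtype_coe
  have m2 : Measurable (fun P : H3 => P.1.2) := measurable_snd.comp measurable_subtype_coe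
  have m3 : Measurable (fun P : H3 => Real.exp (-(Real.pi * (a / P.1.2)))) := by
    refine Real.measurable_exp.comp ?_
    exact ((m2.const_div a).const_mul Real.pi).neg
  have hr : Integrable (fun P : H3 => B.indicator (fun _ => (1 : ℝ)) P.1.1 *
      Real.exp (-(Real.pi * (a / P.1.2)))) mu := by
    refine ⟨?_, ?_⟩
    · exact (((measurable_const.indicator hB.meas).comp m1).mul m3).aestronglyMeasurable
    · rw [hasFiniteIntegral_iff_ofReal]
      · have h1 := slice_lint S hB ha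
        have h2 : ∀ P : H3, ENNReal.ofReal (B.indicator (fun _ => (1 : ℝ)) P.1.1 *
            Real.exp (-(Real.pi * (a / P.1.2)))) = B.indicator (fun _ => 1) P.1.1 *
            ENNReal.ofReal (Real.exp (-(Real.pi * (a / P.1.2)))) := by
          intro P
          by_cases hP : P.1.1 ∈ B
          · rw [Set.indicator_of_mem hP, Set.indicator_of_mem hP, one_mul, one_mul]
          · rw [Set.indicator_of_notMem hP, Set.indicator_of_notMem hP, zero_mul, zero_mul,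
              ENNReal.ofReal_zero]
        rw [lintegral_congr h2, h1]
        exact ENNReal.ofReal_lt_top
      · refine Filter.Eventually.of_forall fun P => ?_
        refine mul_nonneg ?_ (Real.exp_pos _).le
        exact Set.indicator_nonneg (fun _ _ => zero_le_one) _
  refine Integrable.mono' (hr.const_mul C) ?_ (Filter.Eventually.of_forall fun P => ?_)
  · refine Measurable.aestronglyMeasurable ?_
    refine Measurable.mul (Measurable.mul ?_ ?_) ?_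
    · exact (measurable_const.indicator hB.meas).comp m1
    · exact (ip_cont S had had' hn hF hF' x).measurable
    · exact Complex.measurable_ofReal.comp m3
  · rw [norm_mul, norm_mul, Complex.norm_real, Real.norm_eq_abs, abs_of_pos (Real.exp_pos _)]
    by_cases hP : P.1.1 ∈ B
    · rw [Set.indicator_of_mem hP, Set.indicator_of_mem hP, norm_one, one_mul, one_mul]
      exact mul_le_mul_of_nonneg_right (hC P x) (Real.exp_pos _).le
    · rw [Set.indicator_of_notMem hP, Set.indicator_of_notMem hP, norm_zero, zero_mul, zero_mul]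
      simp

variable {A A' : HSG.Id K → ℂ}

/-- the terms of the series -/
noncomputable def qm_g (q : ℕ) (ν ν' : ℂ) (A A' : HSG.Id K → ℂ) (t : ℝ) (c m : HSG.Id K) : ℂ :=
  A m * (starRingEnd ℂ) (A' m) * (nI m : ℂ) * xi0 q ν ν' (t * nI c * √(nI m / Dk K))

/-- the bounds for the terms of the series -/
noncomputable def qm_h (q : ℕ) (ν ν' : ℂ) (A A' : HSG.Id K → ℂ) (t : ℝ) (c m : HSG.Id K) : ℝ :=
  ‖A m‖ * ‖A' m‖ * nI m * qm_G1 q ν ν' (t * nI c * √(nI m / Dk K))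

theorem qm_g_le (q : ℕ) (ν ν' : ℂ) (A A' : HSG.Id K → ℂ) (t : ℝ) (c m : HSG.Id K) :
    ‖qm_g q ν ν' A A' t c m‖ ≤ qm_h q ν ν' A A' t c m := by
  unfold qm_g qm_h
  rw [norm_mul, norm_mul, norm_mul, RCLike.norm_conj, Complex.norm_real, Real.norm_eq_abs,
    abs_of_pos (HSG.nI_pos m)]
  exact mul_le_mul_of_nonneg_left (qm_xi_le _ _ _ _)
    (mul_nonneg (mul_nonneg (norm_nonneg _) (norm_nonneg _)) (HSG.nI_pos m).le)

theorem qm_h_nonneg (q : ℕ) (ν ν' : ℂ) (A A' : HSG.Id K → ℂ) (t : ℝ) (c m : HSG.Id K) :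
    0 ≤ qm_h q ν ν' A A' t c m := (norm_nonneg _).trans (qm_g_le q ν ν' A A' t c m)

open scoped Classical in
theorem qm_h_bd (had : Ad q ν) (had' : Ad q ν')
    (hA : (∀ m, ¬ IsInt m → A m = 0) ∧ ∃ C : ℝ, ∀ m, ‖A m‖ ≤ C)
    (hA' : (∀ m, ¬ IsInt m → A' m = 0) ∧ ∃ C : ℝ, ∀ m, ‖A' m‖ ≤ C) {t : ℝ} (ht : 0 < t) :
    ∃ C : ℝ, 0 ≤ C ∧ ∀ c m : HSG.Id K, qm_h q ν ν' A A' t c m ≤
      C * (nI c ^ (-6 : ℝ) * if IsInt m then nI m ^ (-2 : ℝ) else 0) := by
  obtain ⟨C1, h1, hC1⟩ := xi0_bd had had' (X := 6) (by norm_num)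
  obtain ⟨h0, Ca, hCa⟩ := hA
  obtain ⟨-, Cb, hCb⟩ := hA'
  have hCa0 : 0 ≤ Ca := (norm_nonneg _).trans (hCa 1)
  have hCb0 : 0 ≤ Cb := (norm_nonneg _).trans (hCb 1)
  have hD := qm_Dk_pos (K := K)
  refine ⟨Ca * Cb * (C1 * (t ^ (-6 : ℝ) * Dk K ^ (3 : ℝ))), by positivity, fun c m => ?_⟩
  unfold qm_h
  by_cases hm : IsInt m
  · rw [if_pos hm]
    have hc0 := HSG.nI_pos c
    have hm0 := HSG.nI_pos m
    have h2 : qm_G1 q ν ν' (t * nI c * √(nI m / Dk K)) ≤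
        C1 * (t * nI c * √(nI m / Dk K)) ^ (-6 : ℝ) :=
      hC1 (t * nI c * √(nI m / Dk K)) (by positivity)
    have h3 : (t * nI c * √(nI m / Dk K)) ^ (-6 : ℝ) =
        t ^ (-6 : ℝ) * nI c ^ (-6 : ℝ) * (nI m ^ (-3 : ℝ) * Dk K ^ (3 : ℝ)) := by
      rw [Real.mul_rpow (by positivity) (by positivity), Real.mul_rpow ht.le hc0.le]
      congr 1
      rw [Real.sqrt_eq_rpow, ← Real.rpow_mul (by positivity), Real.div_rpow hm0.le hD.le]
      norm_num
    have h4 : nI m * nI m ^ (-3 : ℝ) = nI m ^ (-2 : ℝ) := by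
      nth_rewrite 1 [← Real.rpow_one (nI m)]
      rw [← Real.rpow_add hm0]
      norm_num
    calc ‖A m‖ * ‖A' m‖ * nI m * qm_G1 q ν ν' (t * nI c * √(nI m / Dk K))
        ≤ Ca * Cb * nI m * (C1 * (t * nI c * √(nI m / Dk K)) ^ (-6 : ℝ)) := by
          refine mul_le_mul ?_ h2 (qm_G1_nonneg _ _ _ _) (by positivity)
          refine mul_le_mul_of_nonneg_right ?_ hm0.le
          exact mul_le_mul (hCa m) (hCb m) (norm_nonneg _) hCa0
      _ = _ := by
          rw [h3, ← h4]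
          ring
  · rw [if_neg hm, h0 m hm, norm_zero]
    simp

/-- the sum over the units of the field -/
theorem qm_units {f : K → ℂ} (h0 : f 0 = 0) : ∑' ξ : K, f ξ = ∑' ξ : Kˣ, f (ξ : K) := by
  refine (Function.Injective.tsum_eq (g := fun ξ : Kˣ => (ξ : K)) Units.val_injective
    (f := f) ?_).symm
  intro ξ hξ
  have h : ξ ≠ 0 := by
    rintro rfl
    exact hξ h0
  exact ⟨Units.mk0 ξ h, rfl⟩


/-- the integral over a slice as a series -/
theorem qm_slice (S : IQ s) (had : Ad q ν) (had' : Ad q ν') (hn : IsInt n)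
    (hF : IForm s q ν n om F) (hF' : IForm s q ν' n om' F')
    (hA : ICoS s q ν F A) (hA' : ICoS s q ν' F' A') {Bx : HSG.Id K → Set ℂ}
    (hB : ∀ y, IsBox s y (Bx y)) {t : ℝ} (ht : 0 < t) (b c : HSG.Id K)
    (hs : Summable fun ξ : Kˣ => qm_h q ν ν' A A' t c (prI ξ * (DD K / (c * b)))) :
    sl F F' Bx b c t = ((1 / (2 * √(Dk K)) : ℝ) : ℂ) *
      ∑' ξ : Kˣ, qm_g q ν ν' A A' t c (prI ξ * (DD K / (c * b))) := by
  have hcK := HSG.countK K
  have hcU : Countable Kˣ := Units.val_injective.countable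
  have hD := qm_Dk_pos (K := K)
  have hb0 := HSG.nI_pos b
  have hc0 := HSG.nI_pos c
  obtain ⟨a, haE⟩ : ∃ a : ℝ, a = t * √(nI c / nI b) := ⟨_, rfl⟩
  have ha : 0 < a := by rw [haE]; positivity
  obtain ⟨k0, hk0⟩ : ∃ k0 : ℝ, k0 = √(Dk K) / 2 / nI (c * b) := ⟨_, rfl⟩
  have hBy := hB (c * b)⁻¹
  have hint := qm_sl_int S had had' hn hF hF' hBy ha (sS n (c * b))
  have e0 : sl F F' Bx b c t = ∫ P : H3, (Bx (c * b)⁻¹).indicator (fun _ => (1 : ℂ)) P.1.1 *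
      ip F F' P (sS n (c * b)) * ((Real.exp (-(Real.pi * (a / P.1.2))) : ℝ) : ℂ) ∂mu := by
    unfold sl
    congr 1
    funext P
    rw [haE, mul_div_assoc]
  rw [e0, qm_mu hint]
  -- the terms
  let T : Kˣ → ℝ → ℂ := fun ξ y => ((k0 : ℂ) * (A (prI ξ * (DD K / (c * b))) *
    (starRingEnd ℂ) (A' (prI ξ * (DD K / (c * b)))))) * (gG q ν ν' (‖s ξ‖ * y) *
      ((Real.exp (-(Real.pi * (a / y))) / y ^ 3 : ℝ) : ℂ))
  have hcS : ∀ (A : HSG.Id K → ℂ) (ξ : Kˣ),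
      cS A (c * b) (ξ : K) = A (prI ξ * (DD K / (c * b))) := by
    intro A ξ
    unfold cS
    rw [dif_neg ξ.ne_zero, Units.mk0_val, mul_div_assoc]
  have hinner : ∀ y ∈ Set.Ioi (0 : ℝ), ∫ z : ℂ, ((1 / y ^ 3 : ℝ) : ℂ) *
      ((Bx (c * b)⁻¹).indicator (fun _ => (1 : ℂ)) (mk3 z y).1.1 *
        ip F F' (mk3 z y) (sS n (c * b)) *
          ((Real.exp (-(Real.pi * (a / (mk3 z y).1.2))) : ℝ) : ℂ)) = ∑' ξ : Kˣ, T ξ y := by
    intro y hy
    have hy' : (0 : ℝ) < y := hy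
    have h1 : ∀ z : ℂ, ((1 / y ^ 3 : ℝ) : ℂ) *
        ((Bx (c * b)⁻¹).indicator (fun _ => (1 : ℂ)) (mk3 z y).1.1 *
        ip F F' (mk3 z y) (sS n (c * b)) *
          ((Real.exp (-(Real.pi * (a / (mk3 z y).1.2))) : ℝ) : ℂ)) =
        ((Real.exp (-(Real.pi * (a / y))) / y ^ 3 : ℝ) : ℂ) *
          (Bx (c * b)⁻¹).indicator (fun z => ip F F' (mk3 z y) (sS n (c * b))) z := by
      intro z
      have hv1 : (mk3 z y).1.1 = z := by rw [HB.bx_mk3_val hy']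
      have hv2 : (mk3 z y).1.2 = y := by rw [HB.bx_mk3_val hy']
      rw [hv1, hv2]
      by_cases hz : z ∈ Bx (c * b)⁻¹
      · rw [Set.indicator_of_mem hz, Set.indicator_of_mem hz]
        push_cast
        ring
      · rw [Set.indicator_of_notMem hz, Set.indicator_of_notMem hz]
        ring
    have h2 := (ip_box S had had' hn hF hF' hA hA' (c * b) hBy hy').2
    simp only [h1]
    rw [integral_const_mul, integral_indicator hBy.meas, h2,
      qm_units (f := fun ξ => cS A (c * b) ξ * (starRingEnd ℂ) (cS A' (c * b) ξ) *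
        gG q ν ν' (‖s ξ‖ * y)) (by simp [cS]), ← mul_assoc, ← tsum_mul_left]
    refine tsum_congr fun ξ => ?_
    show _ = ((k0 : ℂ) * (A (prI ξ * (DD K / (c * b))) *
      (starRingEnd ℂ) (A' (prI ξ * (DD K / (c * b)))))) * (gG q ν ν' (‖s ξ‖ * y) *
        ((Real.exp (-(Real.pi * (a / y))) / y ^ 3 : ℝ) : ℂ))
    rw [hcS, hcS, hk0]
    ring
  rw [setIntegral_congr_fun measurableSet_Ioi hinner]
  -- the constants
  have hs0 : ∀ ξ : Kˣ, 0 < ‖s ξ‖ := fun ξ =>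
    norm_pos_iff.2 (fun h => ξ.ne_zero ((map_eq_zero s).1 h))
  have hN : ∀ ξ : Kˣ, nI (prI ξ * (DD K / (c * b))) =
      ‖s ξ‖ ^ 2 * (Dk K / (nI c * nI b)) := by
    intro ξ
    rw [HSG.nI_mul, HSG.nI_div, HSG.nI_mul, nI_norm S, qm_DD]
  have hk1 : ∀ ξ : Kˣ, k0 * ‖s ξ‖ ^ 2 =
      1 / (2 * √(Dk K)) * nI (prI ξ * (DD K / (c * b))) := by
    intro ξ
    rw [hN ξ, hk0, HSG.nI_mul]
    have hD2 : √(Dk K) * √(Dk K) = Dk K := Real.mul_self_sqrt hD.le
    have hD3 : √(Dk K) ≠ 0 := (Real.sqrt_pos.2 hD).ne'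
    field_simp
    rw [sq, hD2]
  have hk2 : ∀ ξ : Kˣ, a * ‖s ξ‖ =
      t * nI c * √(nI (prI ξ * (DD K / (c * b))) / Dk K) := by
    intro ξ
    rw [hN ξ, haE]
    have e1 : ‖s ξ‖ ^ 2 * (Dk K / (nI c * nI b)) / Dk K = ‖s ξ‖ ^ 2 * (1 / (nI c * nI b)) := by
      field_simp
    rw [e1, Real.sqrt_mul (by positivity), Real.sqrt_sq (hs0 ξ).le, mul_assoc, mul_assoc]
    congr 1
    have e2 : √(nI c / nI b) = nI c * √(1 / (nI c * nI b)) := by
      have e3 : nI c / nI b = nI c ^ 2 * (1 / (nI c * nI b)) := by field_simp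
      rw [e3, Real.sqrt_mul (by positivity), Real.sqrt_sq hc0.le]
    rw [e2]
    ring
  have hTi : ∀ ξ : Kˣ, Integrable (T ξ) (volume.restrict (Set.Ioi (0 : ℝ))) := fun ξ =>
    (qm_scale had had' ha (hs0 ξ)).1.const_mul _
  have hTn : ∀ ξ : Kˣ, ∫ y in Set.Ioi (0 : ℝ), ‖T ξ y‖ = 1 / (2 * √(Dk K)) *
      qm_h q ν ν' A A' t c (prI ξ * (DD K / (c * b))) := by
    intro ξ
    have h1 : ∀ y : ℝ, ‖T ξ y‖ = (k0 * (‖A (prI ξ * (DD K / (c * b)))‖ *
        ‖A' (prI ξ * (DD K / (c * b)))‖)) * ‖gG q ν ν' (‖s ξ‖ * y) *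
          ((Real.exp (-(Real.pi * (a / y))) / y ^ 3 : ℝ) : ℂ)‖ := by
      intro y
      show ‖((k0 : ℂ) * (A (prI ξ * (DD K / (c * b))) *
        (starRingEnd ℂ) (A' (prI ξ * (DD K / (c * b)))))) * _‖ = _
      rw [norm_mul, norm_mul (k0 : ℂ), norm_mul (A _), RCLike.norm_conj, Complex.norm_real,
        Real.norm_eq_abs, abs_of_nonneg (by rw [hk0]; have := HSG.nI_pos (c * b); positivity)]
    simp only [h1]
    rw [integral_const_mul, (qm_scale had had' ha (hs0 ξ)).2.2, hk2 ξ]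
    unfold qm_h
    have h3 := hk1 ξ
    calc k0 * (‖A (prI ξ * (DD K / (c * b)))‖ * ‖A' (prI ξ * (DD K / (c * b)))‖) *
          (‖s ξ‖ ^ 2 * qm_G1 q ν ν' (t * nI c * √(nI (prI ξ * (DD K / (c * b))) / Dk K)))
        = (k0 * ‖s ξ‖ ^ 2) * (‖A (prI ξ * (DD K / (c * b)))‖ *
            ‖A' (prI ξ * (DD K / (c * b)))‖) *
            qm_G1 q ν ν' (t * nI c * √(nI (prI ξ * (DD K / (c * b))) / Dk K)) := by ring
      _ = _ := by
          rw [h3]
          ring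
  have hTs : Summable fun ξ : Kˣ => ∫ y in Set.Ioi (0 : ℝ), ‖T ξ y‖ := by
    simp only [hTn]
    exact hs.mul_left _
  have hmain := hasSum_integral_of_summable_integral_norm hTi hTs
  rw [← hmain.tsum_eq, ← tsum_mul_left]
  refine tsum_congr fun ξ => ?_
  show ∫ y in Set.Ioi (0 : ℝ), ((k0 : ℂ) * (A (prI ξ * (DD K / (c * b))) *
    (starRingEnd ℂ) (A' (prI ξ * (DD K / (c * b)))))) * (gG q ν ν' (‖s ξ‖ * y) *
      ((Real.exp (-(Real.pi * (a / y))) / y ^ 3 : ℝ) : ℂ)) = _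
  rw [integral_const_mul, (qm_scale had had' ha (hs0 ξ)).2.1, hk2 ξ]
  unfold qm_g
  have h3 : (k0 : ℂ) * ((‖s ξ‖ ^ 2 : ℝ) : ℂ) = ((1 / (2 * √(Dk K)) : ℝ) : ℂ) *
      ((nI (prI ξ * (DD K / (c * b))) : ℝ) : ℂ) := by
    rw [← Complex.ofReal_mul, ← Complex.ofReal_mul, hk1 ξ]
  generalize xi0 q ν ν' _ = X0
  calc (k0 : ℂ) * (A (prI ξ * (DD K / (c * b))) *
        (starRingEnd ℂ) (A' (prI ξ * (DD K / (c * b))))) * (((‖s ξ‖ ^ 2 : ℝ) : ℂ) * X0)
      = ((k0 : ℂ) * ((‖s ξ‖ ^ 2 : ℝ) : ℂ)) * (A (prI ξ * (DD K / (c * b))) *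
        (starRingEnd ℂ) (A' (prI ξ * (DD K / (c * b))))) * X0 := by ring
    _ = _ := by
        rw [h3]
        ring

/-- summability over the classes and the units -/
theorem qm_fub2 (S : IQ s) {β : NCl K → HSG.Id K}
    (h : ∀ m : HSG.Id K, ∃ κ : NCl K, ∃ ξ : Kˣ, prI ξ * β κ = m)
    (hu : ∀ (κ κ' : NCl K) (ξ ξ' : Kˣ), prI ξ * β κ = prI ξ' * β κ' → κ = κ')
    {g : HSG.Id K → ℝ} (hg : Summable fun m => ‖g m‖) :
    Summable (fun y : NCl K × Kˣ => g (prI y.2 * β y.1)) := by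
  classical
  have hfin := qm_units_finite S
  have := Fintype.ofFinite (𝓞 K)ˣ
  let e := Equiv.ofBijective _ (qm_map_bij h hu)
  have h1 : Summable (fun _ : (𝓞 K)ˣ => ‖(1 : ℝ)‖) := (hasSum_fintype _).summable
  have h2 := summable_mul_of_summable_norm hg h1
  have h4 : (fun x : HSG.Id K × (𝓞 K)ˣ => g x.1 * (1 : ℝ)) =
      (fun y : NCl K × Kˣ => g (prI y.2 * β y.1)) ∘ e := by
    funext x
    rw [mul_one, Function.comp_apply]
    show _ = g (prI (qm_map h x).2 * β (qm_map h x).1)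
    rw [qm_map_val]
  rw [h4] at h2
  exact (Equiv.summable_iff e).1 h2

theorem qm_ex {b : NCl K → HSG.Id K} (hb : ∀ κ, (QuotientGroup.mk (b κ) : NCl K) = κ)
    (c m : HSG.Id K) : ∃ κ : NCl K, ∃ ξ : Kˣ, prI ξ * (DD K / (c * b κ)) = m := by
  refine ⟨QuotientGroup.mk (DD K / (c * m)), ?_⟩
  have h1 := hb (QuotientGroup.mk (DD K / (c * m)))
  rw [QuotientGroup.eq] at h1
  obtain ⟨x, _, hx⟩ := h1
  refine ⟨x⁻¹, ?_⟩
  rw [map_inv, hx]
  generalize b _ = d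
  rw [mul_inv, inv_inv, inv_div, div_eq_mul_inv, div_eq_mul_inv, mul_inv]
  calc d * (c * m * (DD K)⁻¹) * (DD K * (c⁻¹ * d⁻¹))
      = m * (d * d⁻¹) * (c * c⁻¹) * ((DD K)⁻¹ * DD K) := by ac_rfl
    _ = m := by rw [mul_inv_cancel, mul_inv_cancel, inv_mul_cancel, mul_one, mul_one, mul_one]

theorem qm_un (S : IQ s) {b : NCl K → HSG.Id K}
    (hb : ∀ κ, (QuotientGroup.mk (b κ) : NCl K) = κ) (c : HSG.Id K) (κ κ' : NCl K) (ξ ξ' : Kˣ)
    (h : prI ξ * (DD K / (c * b κ)) = prI ξ' * (DD K / (c * b κ'))) : κ = κ' := by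
  rw [← hb κ, ← hb κ', QuotientGroup.eq]
  refine ⟨ξ' * ξ⁻¹, qm_kp S _, ?_⟩
  rw [map_mul, map_inv]
  have h1 : prI ξ * (b κ)⁻¹ = prI ξ' * (b κ')⁻¹ := by
    have h2 : prI ξ * (b κ)⁻¹ * (DD K * c⁻¹) = prI ξ' * (b κ')⁻¹ * (DD K * c⁻¹) := by
      rw [div_eq_mul_inv, div_eq_mul_inv, mul_inv, mul_inv] at h
      calc prI ξ * (b κ)⁻¹ * (DD K * c⁻¹) = prI ξ * (DD K * (c⁻¹ * (b κ)⁻¹)) := by ac_rfl
        _ = prI ξ' * (DD K * (c⁻¹ * (b κ')⁻¹)) := h
        _ = _ := by ac_rfl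
    exact mul_right_cancel h2
  calc prI ξ' * (prI ξ)⁻¹ = (prI ξ' * (b κ')⁻¹) * b κ' * (prI ξ)⁻¹ := by
        rw [inv_mul_cancel_right]
    _ = (prI ξ * (b κ)⁻¹) * b κ' * (prI ξ)⁻¹ := by rw [h1]
    _ = (prI ξ * (prI ξ)⁻¹) * ((b κ)⁻¹ * b κ') := by ac_rfl
    _ = (b κ)⁻¹ * b κ' := by rw [mul_inv_cancel, one_mul]

open scoped Classical in
/-- summability of the double series -/
theorem qm_dbl (had : Ad q ν) (had' : Ad q ν')
    (hA : (∀ m, ¬ IsInt m → A m = 0) ∧ ∃ C : ℝ, ∀ m, ‖A m‖ ≤ C)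
    (hA' : (∀ m, ¬ IsInt m → A' m = 0) ∧ ∃ C : ℝ, ∀ m, ‖A' m‖ ≤ C) {t : ℝ} (ht : 0 < t) :
    Summable (fun x : {c : HSG.Id K // Cp n c} × HSG.Id K => qm_h q ν ν' A A' t x.1.1 x.2) := by
  obtain ⟨C, hC0, hC⟩ := qm_h_bd had had' hA hA' ht
  have h1 : Summable (fun c : {c : HSG.Id K // Cp n c} => nI c.1 ^ (-6 : ℝ)) := by
    have h2 := id_sum K (σ := 6) (by norm_num)
    let e : {c : HSG.Id K // Cp n c} → {m : HSG.Id K // IsInt m} := fun c => ⟨c.1, c.2.1⟩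
    have hinj : Function.Injective e := by
      intro c c' h
      have h' : c.1 = c'.1 := congrArg (fun m : {m : HSG.Id K // IsInt m} => m.1) h
      exact Subtype.ext h'
    have h3 := h2.comp_injective hinj
    exact h3
  have h2 : Summable (fun m : HSG.Id K => if IsInt m then nI m ^ (-2 : ℝ) else 0) :=
    qm_sum K (by norm_num)
  have h3 := Summable.mul_of_nonneg h1 h2
    (fun c => Real.rpow_nonneg (HSG.nI_pos c.1).le _) (fun m => by
      show (0 : ℝ) ≤ if IsInt m then nI m ^ (-2 : ℝ) else 0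
      split_ifs
      · exact Real.rpow_nonneg (HSG.nI_pos m).le _
      · exact le_rfl)
  exact Summable.of_nonneg_of_le (fun x => qm_h_nonneg _ _ _ _ _ _ _ _)
    (fun x => hC x.1.1 x.2) (h3.mul_left C)

theorem it_form (S : IQ s) (had : Ad q ν) (had' : Ad q ν') (hn : IsInt n) (W : WG s)
    (hF : IForm s q ν n om F) (hF' : IForm s q ν' n om' F') (hu : ∀ a, Cp n a → ‖om a‖ = 1)
    (hu' : ∀ a, Cp n a → ‖om' a‖ = 1) {A A' : HSG.Id K → ℂ}
    (hA : ICoS s q ν F A) (hA' : ICoS s q ν' F' A') {t : ℝ} (ht : 0 < t) :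
    Summable (fun x : {c : HSG.Id K // Cp n c} × HSG.Id K => ‖A x.2‖ * ‖A' x.2‖ * nI x.2 *
      ‖xi0 q ν ν' (t * nI x.1.1 * √(nI x.2 / Dk K))‖) ∧
    It W F F' t = ((1 / (2 * √(Dk K)) : ℝ) : ℂ) * ∑' x : {c : HSG.Id K // Cp n c} × HSG.Id K,
      om x.1.1 * (starRingEnd ℂ) (om' x.1.1) * (A x.2 * (starRingEnd ℂ) (A' x.2) * (nI x.2 : ℂ)) *
        xi0 q ν ν' (t * nI x.1.1 * √(nI x.2 / Dk K)) := by
  classical
  have hfin : Finite (NCl K) := HSG.LV.ncl_fin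
  have := Fintype.ofFinite (NCl K)
  have hAp : (∀ m, ¬ IsInt m → A m = 0) ∧ ∃ C : ℝ, ∀ m, ‖A m‖ ≤ C := ⟨hA.int, hA.bdd⟩
  have hAp' : (∀ m, ¬ IsInt m → A' m = 0) ∧ ∃ C : ℝ, ∀ m, ‖A' m‖ ≤ C := ⟨hA'.int, hA'.bdd⟩
  have hdbl := qm_dbl (n := n) (q := q) had had' hAp hAp' ht
  -- a name for the weights
  obtain ⟨w, hw⟩ : ∃ w : {c : HSG.Id K // Cp n c} → ℂ,
      w = fun c => om c.1 * (starRingEnd ℂ) (om' c.1) := ⟨_, rfl⟩
  have hwn : ∀ c, ‖w c‖ = 1 := by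
    intro c
    rw [hw]
    simp only
    rw [norm_mul, RCLike.norm_conj, hu c.1 c.2, hu' c.1 c.2, one_mul]
  have hdg : Summable (fun x : {c : HSG.Id K // Cp n c} × HSG.Id K =>
      w x.1 * qm_g q ν ν' A A' t x.1.1 x.2) := by
    refine Summable.of_norm_bounded hdbl fun x => ?_
    rw [norm_mul, hwn, one_mul]
    exact qm_g_le _ _ _ _ _ _ _ _
  refine ⟨?_, ?_⟩
  · refine Summable.of_nonneg_of_le (fun x => ?_) (fun x => ?_) hdbl
    · exact mul_nonneg (mul_nonneg (mul_nonneg (norm_nonneg _) (norm_nonneg _))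
        (HSG.nI_pos _).le) (norm_nonneg _)
    · unfold qm_h
      exact mul_le_mul_of_nonneg_left (qm_xi_le _ _ _ _)
        (mul_nonneg (mul_nonneg (norm_nonneg _) (norm_nonneg _)) (HSG.nI_pos _).le)
  -- class representatives and boxes
  obtain ⟨b, hb⟩ : ∃ b : NCl K → HSG.Id K, ∀ κ, (QuotientGroup.mk (b κ) : NCl K) = κ :=
    ⟨fun κ => κ.out, fun κ => QuotientGroup.out_eq' κ⟩
  obtain ⟨Bx, hB⟩ : ∃ Bx : HSG.Id K → Set ℂ, ∀ y, IsBox s y (Bx y) :=
    ⟨fun y => (box_exists S y).choose, fun y => (box_exists S y).choose_spec⟩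
  obtain ⟨-, h2, h3⟩ := it_unfold S had had' hn W hF hF' hu hu' hb hB ht
  -- the slices
  have hgs : ∀ c : {c : HSG.Id K // Cp n c}, Summable fun m => ‖qm_h q ν ν' A A' t c.1 m‖ := by
    intro c
    exact (hdbl.prod_factor c).norm
  have hsl : ∀ (κ : NCl K) (c : {c : HSG.Id K // Cp n c}), sl F F' Bx (b κ) c.1 t =
      ((1 / (2 * √(Dk K)) : ℝ) : ℂ) *
        ∑' ξ : Kˣ, qm_g q ν ν' A A' t c.1 (prI ξ * (DD K / (c.1 * b κ))) := by
    intro κ c
    refine qm_slice S had had' hn hF hF' hA hA' hB ht (b κ) c.1 ?_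
    have h5 := qm_fub2 S (β := fun κ => DD K / (c.1 * b κ)) (qm_ex hb c.1) (qm_un S hb c.1)
      (hgs c)
    exact h5.prod_factor κ
  have hfub : ∀ c : {c : HSG.Id K // Cp n c},
      ∑ κ, sl F F' Bx (b κ) c.1 t = ((1 / (2 * √(Dk K)) : ℝ) : ℂ) * ((wK K : ℂ) *
        ∑' m, qm_g q ν ν' A A' t c.1 m) := by
    intro c
    have h6 : Summable fun m => ‖qm_g q ν ν' A A' t c.1 m‖ :=
      Summable.of_nonneg_of_le (fun m => norm_nonneg _)
        (fun m => (qm_g_le _ _ _ _ _ _ _ _).trans (le_abs_self _)) (hgs c)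
    rw [← qm_fub S (β := fun κ => DD K / (c.1 * b κ)) (qm_ex hb c.1) (qm_un S hb c.1) h6,
      Finset.mul_sum]
    exact Finset.sum_congr rfl fun κ _ => hsl κ c
  -- the sum over the pairs
  have hsw : Summable (fun x : NCl K × {c : HSG.Id K // Cp n c} =>
      w x.2 * sl F F' Bx (b x.1) x.2.1 t) := by
    refine Summable.of_norm_bounded h2 fun x => ?_
    rw [norm_mul, hwn, one_mul]
  have h7 : ∑' x : NCl K × {c : HSG.Id K // Cp n c}, w x.2 * sl F F' Bx (b x.1) x.2.1 t =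
      ∑' c : {c : HSG.Id K // Cp n c}, ∑ κ, w c * sl F F' Bx (b κ) c.1 t := by
    have h8 := (Equiv.prodComm {c : HSG.Id K // Cp n c} (NCl K)).tsum_eq
      (fun x : NCl K × {c : HSG.Id K // Cp n c} => w x.2 * sl F F' Bx (b x.1) x.2.1 t)
    have h9 : Summable (fun y : {c : HSG.Id K // Cp n c} × NCl K =>
        w y.1 * sl F F' Bx (b y.2) y.1.1 t) :=
      (Equiv.summable_iff (Equiv.prodComm {c : HSG.Id K // Cp n c} (NCl K))).2 hsw
    rw [← h8]
    have h10 := h9.tsum_prod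
    refine Eq.trans ?_ (h10.trans (tsum_congr fun c => tsum_fintype _))
    rfl
  have hwK : (wK K : ℂ) ≠ 0 := by
    have hfu := qm_units_finite S
    unfold wK
    exact_mod_cast (Nat.card_pos (α := (𝓞 K)ˣ)).ne'
  have h11 : ∑' x : NCl K × {c : HSG.Id K // Cp n c},
      om x.2.1 * (starRingEnd ℂ) (om' x.2.1) * sl F F' Bx (b x.1) x.2.1 t =
      ∑' x : NCl K × {c : HSG.Id K // Cp n c}, w x.2 * sl F F' Bx (b x.1) x.2.1 t := by
    rw [hw]
  rw [h3, h11, h7]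
  have h12 : ∀ c : {c : HSG.Id K // Cp n c}, ∑ κ, w c * sl F F' Bx (b κ) c.1 t =
      (((1 / (2 * √(Dk K)) : ℝ) : ℂ) * (wK K : ℂ)) *
        ∑' m, w c * qm_g q ν ν' A A' t c.1 m := by
    intro c
    rw [← Finset.mul_sum, hfub c, tsum_mul_left]
    ring
  rw [tsum_congr h12, tsum_mul_left, ← hdg.tsum_prod]
  have h13 : ((1 / (wK K : ℝ) : ℝ) : ℂ) * ((((1 / (2 * √(Dk K)) : ℝ) : ℂ) * (wK K : ℂ)) *
      ∑' x : {c : HSG.Id K // Cp n c} × HSG.Id K, w x.1 * qm_g q ν ν' A A' t x.1.1 x.2) =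
      ((1 / (2 * √(Dk K)) : ℝ) : ℂ) *
      ∑' x : {c : HSG.Id K // Cp n c} × HSG.Id K, w x.1 * qm_g q ν ν' A A' t x.1.1 x.2 := by
    have h14 : ((1 / (wK K : ℝ) : ℝ) : ℂ) * (wK K : ℂ) = 1 := by
      push_cast
      field_simp
    calc _ = (((1 / (wK K : ℝ) : ℝ) : ℂ) * (wK K : ℂ)) * (((1 / (2 * √(Dk K)) : ℝ) : ℂ) *
        ∑' x : {c : HSG.Id K // Cp n c} × HSG.Id K, w x.1 * qm_g q ν ν' A A' t x.1.1 x.2) := by
          ring
      _ = _ := by rw [h14, one_mul]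
  rw [h13]
  congr 1
  refine tsum_congr fun x => ?_
  rw [hw]
  unfold qm_g
  ring

end slice

end Pool.Agent.HI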