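import Pool.Agent.Lib_helper25.HIF.DX
import Pool.Agent.Lib_helper25.HIF.AO
import Pool.Agent.Lib_helper25.HIF.QK
import Pool.Agent.Lib_helper25.HIF.QL
import Pool.Agent.Lib_helper25.HIF.QM
import Pool.Agent.Lib_helper84.HSGF.GA3

/-!
# Project HI: block QN, the Mellin transform of `I(t)`
-/

set_option linter.unusedSectionVars false

namespace Pool.Agent.HI
open NumberField Complex MeasureTheory IsDedekindDomain Filter Topology
open scoped nonZeroDivisors MatrixGroups ENNReal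
open Pool.Agent.HB (H3 mu Kb mk3)
open Pool.Agent.HSG (Lat Pr IsInt nI prI DD nm wm dgm dt qP NCl)
open Pool.Agent.HSG.LV (Pt Sc Cp sS ptS dua)

variable {K : Type} [Field K] [NumberField K] {s : K →+* ℂ}

/-! ### General lemmas -/

theorem qn_countable (K : Type) [Field K] [NumberField K] : Countable (HSG.Id K) := by
  have h := HSG.countL K
  have hi : Function.Injective (fun a : HSG.Id K => Lat.ds a 1) :=
    fun a b h => (HSG.ds_inj h).1
  exact hi.countable

theorem qn_int {α ι : Type*} [MeasurableSpace α] {μ : Measure α} [Countable ι] {F : ι → α → ℂ}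
    (hF : ∀ i, Integrable (F i) μ) (hs : Summable fun i => ∫ a, ‖F i a‖ ∂μ)
    (hp : ∀ᵐ a ∂μ, Summable (fun i => F i a)) : Integrable (fun a => ∑' i, F i a) μ := by
  refine ⟨?_, ?_⟩
  · refine aestronglyMeasurable_of_tendsto_ae (atTop : Filter (Finset ι))
      (f := fun S a => ∑ i ∈ S, F i a) (fun S => ?_) ?_
    · exact Finset.aestronglyMeasurable_fun_sum S fun i _ => (hF i).1
    · filter_upwards [hp] with a ha
      exact ha.hasSum
  · have h1 : ∫⁻ a, ‖∑' i, F i a‖ₑ ∂μ ≤ ∑' i, ∫⁻ a, ‖F i a‖ₑ ∂μ := by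
      rw [← lintegral_tsum fun i => (hF i).1.enorm]
      exact lintegral_mono fun a => enorm_tsum_le_tsum_enorm
    have h2 : ∀ i, ∫⁻ a, ‖F i a‖ₑ ∂μ = ENNReal.ofReal (∫ a, ‖F i a‖ ∂μ) := by
      intro i
      rw [integral_norm_eq_lintegral_enorm (hF i).1, ENNReal.ofReal_toReal]
      exact (hF i).2.ne
    refine lt_of_le_of_lt h1 ?_
    simp_rw [h2]
    rw [← ENNReal.ofReal_tsum_of_nonneg (fun i => integral_nonneg fun a => norm_nonneg _) hs]
    exact ENNReal.ofReal_lt_top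

theorem qn_cpow {r : ℝ} (hr : 0 < r) (z : ℂ) : (r : ℂ) ^ z = cexp ((Real.log r : ℝ) * z) := by
  rw [Complex.cpow_def_of_ne_zero (by exact_mod_cast hr.ne'), Complex.ofReal_log hr.le]

section arch
variable {q : ℕ} {ν ν' : ℂ}

theorem qn_xi0_cont (had : Ad q ν) (had' : Ad q ν') :
    ContinuousOn (xi0 q ν ν') (Set.Ioi 0) := by
  intro B₀ hB₀
  have hB₀' : (0 : ℝ) < B₀ := hB₀
  apply ContinuousAt.continuousWithinAt
  unfold xi0
  refine continuousAt_of_dominated (bound := fun x : ℝ => ‖gG q ν ν' x *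
    ((Real.exp (-(Real.pi * (B₀ / 2 / x))) / x ^ 3 : ℝ) : ℂ)‖) ?_ ?_
    (xi0_int had had' (half_pos hB₀')).norm ?_
  · filter_upwards [eventually_gt_nhds hB₀'] with B hB
    exact (xi0_int had had' hB).1
  · filter_upwards [eventually_gt_nhds (half_lt_self hB₀')] with B hB
    rw [ae_restrict_iff' measurableSet_Ioi]
    refine Eventually.of_forall fun x hx => ?_
    have hx' : (0 : ℝ) < x := hx
    rw [norm_mul, norm_mul, Complex.norm_real, Complex.norm_real,
      Real.norm_of_nonneg (by positivity), Real.norm_of_nonneg (by positivity)]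
    have h1 : B₀ / 2 / x ≤ B / x := by gcongr
    have h2 := Real.pi_pos
    gcongr
  · rw [ae_restrict_iff' measurableSet_Ioi]
    refine Eventually.of_forall fun x hx => ?_
    apply Continuous.continuousAt
    fun_prop

theorem qn_norm {t : ℝ} (ht : 0 < t) (w : ℂ) (a : ℂ) :
    ‖(t : ℂ) ^ (2 * w - 1) * a‖ = t ^ (2 * w.re - 1) * ‖a‖ := by
  rw [norm_mul, Complex.norm_cpow_eq_rpow_re_of_pos ht]
  simp

theorem qn_cpow_cont (w : ℂ) : ContinuousOn (fun t : ℝ => (t : ℂ) ^ (2 * w - 1)) (Set.Ioi 0) := by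
  intro t ht
  have ht' : (0 : ℝ) < t := ht
  exact (continuousAt_ofReal_cpow_const t (2 * w - 1) (Or.inr ht'.ne')).continuousWithinAt

/-- the integrand for the factor `l` -/
theorem qn_term_meas (had : Ad q ν) (had' : Ad q ν') (w : ℂ) {l : ℝ} (hl : 0 < l) :
    AEStronglyMeasurable (fun t : ℝ => (t : ℂ) ^ (2 * w - 1) * xi0 q ν ν' (t * l))
      (volume.restrict (Set.Ioi 0)) := by
  refine ContinuousOn.aestronglyMeasurable ?_ measurableSet_Ioi
  refine (qn_cpow_cont w).mul ((qn_xi0_cont had had').comp (by fun_prop) ?_)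
  intro t ht
  exact mul_pos ht hl

theorem qn_term_int (had : Ad q ν) (had' : Ad q ν') {w : ℂ} (hw : 1 < w.re) {l : ℝ}
    (hl : 0 < l) :
    IntegrableOn (fun t : ℝ => (t : ℂ) ^ (2 * w - 1) * xi0 q ν ν' (t * l)) (Set.Ioi 0) ∧
    ∫ t in Set.Ioi (0 : ℝ), ‖(t : ℂ) ^ (2 * w - 1) * xi0 q ν ν' (t * l)‖ =
      l ^ (-(2 * w.re)) * ∫ B in Set.Ioi (0 : ℝ), B ^ (2 * w.re - 1) * ‖xi0 q ν ν' B‖ := by
  have h0 := (xi0_mellin had had' hw).1
  -- the substitution
  set g : ℝ → ℝ := fun B => (B * l⁻¹) ^ (2 * w.re - 1) * ‖xi0 q ν ν' B‖ with hg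
  have h1 : ∀ t : ℝ, 0 < t →
      ‖(t : ℂ) ^ (2 * w - 1) * xi0 q ν ν' (t * l)‖ = g (t * l) := by
    intro t ht
    rw [qn_norm ht]
    simp only [hg]
    rw [mul_assoc, mul_inv_cancel₀ hl.ne', mul_one]
  have h2 : ∀ B ∈ Set.Ioi (0 : ℝ), g B = (l⁻¹) ^ (2 * w.re - 1) *
      (B ^ (2 * w.re - 1) * ‖xi0 q ν ν' B‖) := by
    intro B hB
    have hB' : (0 : ℝ) < B := hB
    simp only [hg]
    rw [Real.mul_rpow hB'.le (inv_nonneg.2 hl.le)]
    ring
  have h3 : IntegrableOn g (Set.Ioi 0) :=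
    IntegrableOn.congr_fun (Integrable.const_mul h0 ((l⁻¹) ^ (2 * w.re - 1)))
      (fun B hB => (h2 B hB).symm) measurableSet_Ioi
  have h4 : IntegrableOn (fun t => g (t * l)) (Set.Ioi 0) := by
    rw [integrableOn_Ioi_comp_mul_right_iff g 0 hl, zero_mul]
    exact h3
  constructor
  · refine (integrable_norm_iff (qn_term_meas had had' w hl)).1 ?_
    exact h4.congr_fun (fun t ht => (h1 t ht).symm) measurableSet_Ioi
  · rw [setIntegral_congr_fun measurableSet_Ioi (fun t ht => h1 t ht),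
      integral_comp_mul_right_Ioi g 0 hl, zero_mul,
      setIntegral_congr_fun measurableSet_Ioi h2, integral_const_mul, smul_eq_mul, ← mul_assoc]
    congr 1
    rw [Real.inv_rpow hl.le, ← Real.rpow_neg hl.le, ← Real.rpow_neg_one, ← Real.rpow_add hl]
    congr 1
    ring

theorem qn_term_val (w : ℂ) {l : ℝ} (hl : 0 < l) :
    ∫ t in Set.Ioi (0 : ℝ), (t : ℂ) ^ (2 * w - 1) * xi0 q ν ν' (t * l) =
      (l : ℂ) ^ (-(2 * w)) * ∫ B in Set.Ioi (0 : ℝ), (B : ℂ) ^ (2 * w - 1) * xi0 q ν ν' B := by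
  have h := mellin_comp_mul_right (xi0 q ν ν') (2 * w) hl
  unfold mellin at h
  simp only [smul_eq_mul] at h
  exact h

end arch

/-! ### The sums over ideals -/

section sums

theorem qn_nI_pos (a : HSG.Id K) : 0 < nI a := HSG.nI_pos a

theorem qn_sum_c (n : HSG.Id K) {σ : ℝ} (hσ : 1 < σ) :
    Summable (fun c : {c : HSG.Id K // Cp n c} => nI c.1 ^ (-σ)) := by
  have h := id_sum K hσ
  let φ : {c : HSG.Id K // Cp n c} → {m : HSG.Id K // IsInt m} := fun c => ⟨c.1, c.2.1⟩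
  have hφ : ∀ c, (φ c).1 = c.1 := fun c => rfl
  have hi : Function.Injective φ := by
    intro a b hab
    apply Subtype.ext
    rw [← hφ a, ← hφ b, hab]
  have h2 := h.comp_injective hi
  refine h2.congr fun c => ?_
  show nI (φ c).1 ^ (-σ) = nI c.1 ^ (-σ)
  rw [hφ]

theorem qn_sum_m {σ : ℝ} (hσ : 1 < σ) {a : HSG.Id K → ℝ} {C : ℝ}
    (h0 : ∀ m, ¬ IsInt m → a m = 0) (hC : ∀ m, |a m| ≤ C) :
    Summable (fun m : HSG.Id K => a m * nI m ^ (-σ)) := by
  have h := (id_sum K hσ).mul_left |C|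
  have h1 : Summable (fun x : {m : HSG.Id K // IsInt m} => a x.1 * nI x.1 ^ (-σ)) := by
    refine Summable.of_norm_bounded h fun x => ?_
    have h3 := Real.rpow_nonneg (qn_nI_pos x.1).le (-σ)
    rw [norm_mul, Real.norm_eq_abs, Real.norm_of_nonneg h3]
    have h4 := (hC x.1).trans (le_abs_self C)
    gcongr
  have h2 := (Function.Injective.summable_iff
    (f := fun m : HSG.Id K => a m * nI m ^ (-σ))
    (Subtype.val_injective (p := fun m : HSG.Id K => IsInt m)) ?_).1 h1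
  · exact h2
  · intro m hm
    show a m * nI m ^ (-σ) = 0
    rw [h0 m, zero_mul]
    intro h5
    exact hm ⟨⟨m, h5⟩, rfl⟩

end sums

section forms

variable {q : ℕ} {ν ν' : ℂ} {n : HSG.Id K} {om om' : HSG.Id K → ℂ}
  {F F' : ℂ × ℝ → ℂ × ℂ → Pt n → ℂ}

theorem qn_Dk_pos (K : Type) [Field K] [NumberField K] : 0 < Dk K := by
  unfold Dk
  rw [abs_pos]
  exact_mod_cast discr_ne_zero K

theorem it_mellin (S : IQ s) (had : Ad q ν) (had' : Ad q ν') (hn : IsInt n) (W : WG s)
    (hF : IForm s q ν n om F) (hF' : IForm s q ν' n om' F') (hu : ∀ a, Cp n a → ‖om a‖ = 1)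
    (hu' : ∀ a, Cp n a → ‖om' a‖ = 1) {A A' : HSG.Id K → ℂ}
    (hA : ICoS s q ν F A) (hA' : ICoS s q ν' F' A') :
    ∃ (κ₀ : ℂ) (Q : ℝ), κ₀ ≠ 0 ∧ 0 < Q ∧ ∀ w : ℂ, 3 < w.re →
      IntegrableOn (fun t : ℝ => t ^ (2 * w.re - 1) * ‖It W F F' t‖) (Set.Ioi 0) ∧
      ∫ t in Set.Ioi (0 : ℝ), (t : ℂ) ^ (2 * w - 1) * It W F F' t =
        κ₀ * (Q : ℂ) ^ w * Gw q ν ν' w * ((open scoped Classical in
          ∑' g : HSG.Id K, if Cp n g then om g * (starRingEnd ℂ) (om' g) *
            ((nI g : ℝ) : ℂ) ^ (-(2 * w)) else 0) *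
          ∑' m : HSG.Id K, A m * (starRingEnd ℂ) (A' m) * ((nI m : ℝ) : ℂ) ^ (1 - w)) := by
  classical
  have hct := qn_countable K
  have hpi := Real.pi_pos
  have hD := qn_Dk_pos K
  obtain ⟨C, hC⟩ := hA.bdd
  obtain ⟨C', hC'⟩ := hA'.bdd
  set a₀ : ℂ := ((1 / (2 * √(Dk K)) : ℝ) : ℂ) with ha₀
  set K₁ : ℂ := ((2 * q).factorial : ℂ) / Real.pi ^ (2 * q) with hK₁
  refine ⟨a₀ * (K₁ * ((4 * Real.pi : ℂ) ^ (-(2 * q : ℂ)) * (2 : ℂ) ^ (2 * q - 3 : ℂ))),
    Dk K / (4 * Real.pi ^ 4), ?_, by positivity, fun w hw => ?_⟩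
  · have h1 : a₀ ≠ 0 := by
      rw [ha₀, Complex.ofReal_ne_zero]
      have := Real.sqrt_pos.2 hD
      positivity
    have h2 : K₁ ≠ 0 := by
      rw [hK₁]
      have h3 : ((2 * q).factorial : ℂ) ≠ 0 := by exact_mod_cast Nat.factorial_ne_zero _
      have h4 : (Real.pi : ℂ) ≠ 0 := by exact_mod_cast hpi.ne'
      exact div_ne_zero h3 (pow_ne_zero _ h4)
    have h3 : (4 * Real.pi : ℂ) ≠ 0 := by
      have : ((4 * Real.pi : ℝ) : ℂ) ≠ 0 := by
        rw [Complex.ofReal_ne_zero]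
        positivity
      simpa using this
    refine mul_ne_zero h1 (mul_ne_zero h2 (mul_ne_zero ?_ ?_))
    · rw [Complex.cpow_def_of_ne_zero h3]
      exact Complex.exp_ne_zero _
    · rw [Complex.cpow_def_of_ne_zero two_ne_zero]
      exact Complex.exp_ne_zero _
  · have hw1 : 1 < w.re := by linarith
    -- the coefficients and the scales
    let ι := {c : HSG.Id K // Cp n c} × HSG.Id K
    set co : ι → ℂ := fun x => om x.1.1 * (starRingEnd ℂ) (om' x.1.1) *
      (A x.2 * (starRingEnd ℂ) (A' x.2) * (nI x.2 : ℂ)) with hco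
    set l : ι → ℝ := fun x => nI x.1.1 * √(nI x.2 / Dk K) with hl
    have hlp : ∀ x, 0 < l x := fun x =>
      mul_pos (qn_nI_pos _) (Real.sqrt_pos.2 (div_pos (qn_nI_pos _) hD))
    set T : ι → ℝ → ℂ := fun x t => (t : ℂ) ^ (2 * w - 1) * (co x * xi0 q ν ν' (t * l x)) with hT
    have hT' : ∀ x, T x = fun t : ℝ => co x * ((t : ℂ) ^ (2 * w - 1) * xi0 q ν ν' (t * l x)) := by
      intro x
      funext t
      simp only [hT]
      ring
    set M : ℝ := ∫ B in Set.Ioi (0 : ℝ), B ^ (2 * w.re - 1) * ‖xi0 q ν ν' B‖ with hM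
    have hTi : ∀ x, Integrable (T x) (volume.restrict (Set.Ioi 0)) := by
      intro x
      rw [hT']
      exact (qn_term_int had had' hw1 (hlp x)).1.const_mul _
    have hTn : ∀ x, ∫ t in Set.Ioi (0 : ℝ), ‖T x t‖ = ‖co x‖ * (l x ^ (-(2 * w.re)) * M) := by
      intro x
      rw [hT', ← (qn_term_int had had' hw1 (hlp x)).2, ← integral_const_mul]
      simp_rw [norm_mul]
    have hTv : ∀ x, ∫ t in Set.Ioi (0 : ℝ), T x t = co x * ((l x : ℂ) ^ (-(2 * w)) *
        ∫ B in Set.Ioi (0 : ℝ), (B : ℂ) ^ (2 * w - 1) * xi0 q ν ν' B) := by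
      intro x
      rw [hT', ← qn_term_val w (hlp x), ← integral_const_mul]
    -- the two series
    set f : {c : HSG.Id K // Cp n c} → ℂ := fun c => om c.1 * (starRingEnd ℂ) (om' c.1) *
      ((nI c.1 : ℝ) : ℂ) ^ (-(2 * w)) with hf
    set g : HSG.Id K → ℂ := fun m => A m * (starRingEnd ℂ) (A' m) *
      ((nI m : ℝ) : ℂ) ^ (1 - w) with hg
    have hfn : ∀ c, ‖f c‖ = nI c.1 ^ (-(2 * w.re)) := by
      intro c
      simp only [hf]
      rw [norm_mul, norm_mul, RCLike.norm_conj, hu _ c.2, hu' _ c.2,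
        Complex.norm_cpow_eq_rpow_re_of_pos (qn_nI_pos _)]
      simp
    have hgn : ∀ m, ‖g m‖ = ‖A m‖ * ‖A' m‖ * nI m ^ (-(w.re - 1)) := by
      intro m
      simp only [hg]
      rw [norm_mul, norm_mul, RCLike.norm_conj,
        Complex.norm_cpow_eq_rpow_re_of_pos (qn_nI_pos _)]
      congr 2
      rw [Complex.sub_re, Complex.one_re]
      ring
    have hfs : Summable (fun c => ‖f c‖) := by
      simp_rw [hfn]
      exact qn_sum_c n (by linarith)
    have hgs : Summable (fun m => ‖g m‖) := by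
      simp_rw [hgn]
      refine qn_sum_m (C := C * C') (by linarith) (fun m hm => ?_) (fun m => ?_)
      · rw [hA.int m hm, norm_zero, zero_mul]
      · rw [abs_of_nonneg (by positivity)]
        exact mul_le_mul (hC m) (hC' m) (norm_nonneg _) ((norm_nonneg _).trans (hC m))
    -- the scale as a power
    have hlc : ∀ x : ι, (l x : ℂ) ^ (-(2 * w)) = ((nI x.1.1 : ℝ) : ℂ) ^ (-(2 * w)) *
        (((nI x.2 : ℝ) : ℂ) ^ (-w) * ((Dk K : ℝ) : ℂ) ^ w) := by
      intro x
      have h1 := qn_nI_pos x.1.1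
      have h2 := qn_nI_pos x.2
      rw [qn_cpow (hlp x), qn_cpow h1, qn_cpow h2, qn_cpow hD, ← Complex.exp_add,
        ← Complex.exp_add]
      congr 1
      simp only [hl]
      rw [Real.log_mul h1.ne' (Real.sqrt_pos.2 (div_pos h2 hD)).ne', Real.log_sqrt
        (div_pos h2 hD).le, Real.log_div h2.ne' hD.ne']
      push_cast
      ring
    have hcl : ∀ x : ι, co x * (l x : ℂ) ^ (-(2 * w)) =
        ((Dk K : ℝ) : ℂ) ^ w * (f x.1 * g x.2) := by
      intro x
      rw [hlc]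
      simp only [hco, hf, hg]
      have h2 := qn_nI_pos x.2
      have h3 : ((nI x.2 : ℝ) : ℂ) ^ (1 - w) = ((nI x.2 : ℝ) : ℂ) * ((nI x.2 : ℝ) : ℂ) ^ (-w) := by
        rw [sub_eq_add_neg, Complex.cpow_add _ _ (by exact_mod_cast h2.ne'), Complex.cpow_one]
      rw [h3]
      ring
    have hcn : ∀ x : ι, ‖co x‖ * (l x ^ (-(2 * w.re)) * M) =
        (M * Dk K ^ w.re) * (‖f x.1‖ * ‖g x.2‖) := by
      intro x
      have h1 : ‖co x‖ * ‖(l x : ℂ) ^ (-(2 * w))‖ =
          ‖((Dk K : ℝ) : ℂ) ^ w‖ * (‖f x.1‖ * ‖g x.2‖) := by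
        rw [← norm_mul (co x), ← norm_mul (f x.1), ← norm_mul (((Dk K : ℝ) : ℂ) ^ w), hcl]
      rw [Complex.norm_cpow_eq_rpow_re_of_pos (hlp x),
        Complex.norm_cpow_eq_rpow_re_of_pos hD] at h1
      have h2 : (-(2 * w)).re = -(2 * w.re) := by simp
      rw [h2] at h1
      calc ‖co x‖ * (l x ^ (-(2 * w.re)) * M) = (‖co x‖ * l x ^ (-(2 * w.re))) * M := by ring
        _ = _ := by rw [h1]; ring
    have hTs : Summable (fun x => ∫ t in Set.Ioi (0 : ℝ), ‖T x t‖) := by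
      simp_rw [hTn, hcn]
      exact (hfs.mul_of_nonneg hgs (fun _ => norm_nonneg _) (fun _ => norm_nonneg _)).mul_left _
    -- the series for `I`
    have hI : ∀ t : ℝ, 0 < t → Summable (fun x => T x t) ∧
        (t : ℂ) ^ (2 * w - 1) * It W F F' t = a₀ * ∑' x, T x t := by
      intro t ht
      obtain ⟨h1, h2⟩ := it_form S had had' hn W hF hF' hu hu' hA hA' ht
      constructor
      · refine Summable.mul_left _ ?_
        refine Summable.of_norm_bounded h1 fun x => ?_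
        simp only [hco, hl]
        rw [norm_mul, norm_mul, norm_mul, norm_mul, norm_mul, RCLike.norm_conj,
          RCLike.norm_conj, hu _ x.1.2, hu' _ x.1.2, Complex.norm_real,
          Real.norm_of_nonneg (qn_nI_pos _).le, ← mul_assoc t]
        simp
      · rw [h2, tsum_mul_left]
        simp only [hco, hl, ← mul_assoc t]
        ring
    have hTI : Integrable (fun t => ∑' x, T x t) (volume.restrict (Set.Ioi 0)) := by
      refine qn_int hTi hTs ?_
      rw [ae_restrict_iff' measurableSet_Ioi]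
      exact Eventually.of_forall fun t ht => (hI t ht).1
    constructor
    · have h1 := (hTI.const_mul a₀).norm
      refine IntegrableOn.congr_fun h1 (fun t ht => ?_) measurableSet_Ioi
      show ‖a₀ * ∑' x, T x t‖ = _
      rw [← (hI t ht).2, qn_norm ht]
    · rw [setIntegral_congr_fun measurableSet_Ioi (fun t ht => (hI t ht).2),
        integral_const_mul, ← (hasSum_integral_of_summable_integral_norm hTi hTs).tsum_eq]
      simp_rw [hTv, ← mul_assoc, hcl]
      rw [tsum_mul_right, tsum_mul_left, ← tsum_mul_tsum_of_summable_norm hfs hgs,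
        (xi0_mellin had had' hw1).2]
      have h1 : ∑' c, f c = ∑' g : HSG.Id K, if Cp n g then om g * (starRingEnd ℂ) (om' g) *
            ((nI g : ℝ) : ℂ) ^ (-(2 * w)) else 0 := by
        have h2 := tsum_subtype {c : HSG.Id K | Cp n c} (fun c => om c * (starRingEnd ℂ) (om' c) *
          ((nI c : ℝ) : ℂ) ^ (-(2 * w)))
        simp only [hf]
        refine h2.trans (tsum_congr fun c => ?_)
        rw [Set.indicator_apply]
        rfl
      rw [h1]
      have h4p : (0 : ℝ) < 4 * Real.pi := by positivity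
      have h4 : (4 * Real.pi : ℂ) = ((4 * Real.pi : ℝ) : ℂ) := by push_cast; rfl
      have h2 : (2 : ℂ) = ((2 : ℝ) : ℂ) := by push_cast; rfl
      have h5 : ((Dk K : ℝ) : ℂ) ^ w * ((Real.pi : ℂ) ^ (-(2 * w)) *
          ((4 * Real.pi : ℂ) ^ (-(2 * w + 2 * q)) * (2 : ℂ) ^ (2 * w + 2 * q - 3))) =
          (4 * Real.pi : ℂ) ^ (-(2 * q : ℂ)) * (2 : ℂ) ^ (2 * q - 3 : ℂ) *
            ((Dk K / (4 * Real.pi ^ 4) : ℝ) : ℂ) ^ w := by
        have hQ : 0 < Dk K / (4 * Real.pi ^ 4) := by positivity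
        have e1 : (2 : ℂ) ^ (2 * w + 2 * q - 3) = cexp ((Real.log 2 : ℝ) * (2 * w + 2 * q - 3)) := by
          have := qn_cpow two_pos (2 * w + 2 * q - 3)
          rwa [← h2] at this
        have e2 : (2 : ℂ) ^ (2 * q - 3 : ℂ) = cexp ((Real.log 2 : ℝ) * (2 * q - 3)) := by
          have := qn_cpow two_pos (2 * q - 3)
          rwa [← h2] at this
        rw [e1, e2, h4, qn_cpow hD, qn_cpow hpi, qn_cpow h4p, qn_cpow h4p, qn_cpow hQ,
          ← Complex.exp_add, ← Complex.exp_add, ← Complex.exp_add, ← Complex.exp_add,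
          ← Complex.exp_add]
        congr 1
        have l3 : Real.log 4 = 2 * Real.log 2 := by
          rw [show (4 : ℝ) = 2 ^ 2 by norm_num, Real.log_pow]
          norm_num
        have l1 : Real.log (4 * Real.pi) = 2 * Real.log 2 + Real.log Real.pi := by
          rw [Real.log_mul (by norm_num) hpi.ne', l3]
        have l2 : Real.log (Dk K / (4 * Real.pi ^ 4)) =
            Real.log (Dk K) - (2 * Real.log 2 + 4 * Real.log Real.pi) := by
          rw [Real.log_div hD.ne' (by positivity), Real.log_mul (by norm_num) (by positivity),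
            l3, Real.log_pow]
          norm_num
        rw [l1, l2]
        push_cast
        ring
      set S1 := ∑' g : HSG.Id K, if Cp n g then om g * (starRingEnd ℂ) (om' g) *
            ((nI g : ℝ) : ℂ) ^ (-(2 * w)) else 0
      set S2 := ∑' m, g m
      linear_combination (a₀ * K₁ * Gw q ν ν' w * S1 * S2) * h5

end forms


end Pool.Agent.HI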