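import Pool.Agent.Lib_helper25.HIF.DX
import Pool.Agent.Lib_helper25.HIF.AE
import Pool.Agent.Lib_helper25.HIF.AF
import Pool.Agent.Lib_helper25.HIF.AO
import Pool.Agent.Lib_helper25.HIF.FQ
import Pool.Agent.Lib_helper25.HIF.QA
import Pool.Agent.Lib_helper25.HIF.QB
import Pool.Agent.Lib_helper25.HIF.QC
import Pool.Agent.Lib_helper84.LVF.LQ
import Pool.Agent.Lib_helper84.LVF.LB
import Pool.Agent.Lib_helper84.HSGF.GB2
import Pool.Agent.Lib_helper84.HSGF.GA3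

/-! # Project HI, block QD: decay of the inner product of two forms in the cusps -/

namespace Pool.Agent.HI
open NumberField Complex MeasureTheory IsDedekindDomain Filter Topology
open scoped nonZeroDivisors MatrixGroups ENNReal
open Pool.Agent.HB (H3 mu Kb mk3)
open Pool.Agent.HSG (Lat Pr IsInt nI prI DD nm wm dgm dt qP NCl)
open Pool.Agent.HSG.LV (Pt Sc Cp sS ptS dua)
open Pool.Agent.HI

variable {K : Type} [Field K] [NumberField K] {s : K →+* ℂ}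

/-! ### The height with respect to a vector -/

/-- the invariant height -/
noncomputable def qdH (s : K →+* ℂ) (P : H3) (L : Lat K) (v : Fin 2 → K) : ℝ :=
  (QQ s P L v * nI (L.av v))⁻¹

theorem qdH_act (S : IQ s) (g : GL (Fin 2) K) (P : H3) (L : Lat K) {v : Fin 2 → K}
    (hv : v ≠ 0) : qdH s (aH s g P) (L.mul g⁻¹)
      (Matrix.vecMul v ((g⁻¹ : GL (Fin 2) K) : Matrix (Fin 2) (Fin 2) K)) = qdH s P L v := by
  unfold qdH
  rw [qq_act S]
  have h := HSG.av_act g L hv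
  have h2 : g • L = L.mul g⁻¹ := rfl
  rw [h2] at h
  rw [h]

theorem qdH_scal (S : IQ s) (P : H3) (L : Lat K) (t : Kˣ) {v : Fin 2 → K} (hv : v ≠ 0) :
    qdH s P L ((t : K) • v) = qdH s P L v := by
  unfold qdH
  have h1 : QQ s P L ((t : K) • v) = ‖s t‖ ^ 2 * QQ s P L v := by
    unfold QQ
    simp only [Pi.smul_apply, smul_eq_mul, map_mul]
    rw [mul_assoc, ← mul_add, Complex.normSq_mul, Complex.normSq_eq_norm_sq (s t)]
    ring
  have h2 : nI (prI t) = ‖s t‖ ^ 2 := nI_norm S t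
  have h3 : 0 < nI (prI t) := HSG.nI_pos _
  rw [h1, HSG.av_scal L t hv, HSG.nI_mul, HSG.nI_inv, ← h2]
  congr 1
  field_simp

theorem qdH_sm (S : IQ s) (P : H3) (L : Lat K) (a : HSG.Id K) {v : Fin 2 → K} (hv : v ≠ 0) :
    qdH s P (L.sm a) v = qdH s P L v := by
  unfold qdH
  have h3 : 0 < nI a := HSG.nI_pos _
  rw [qq_sm S, HSG.av_sm a L hv, HSG.nI_mul]
  congr 1
  field_simp

theorem qdH_le (s : K →+* ℂ) (P : H3) (L : Lat K) {v : Fin 2 → K} (hL : v ∈ L.M) (hv : v ≠ 0) :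
    (QQ s P L v)⁻¹ ≤ qdH s P L v := by
  have h1 : nI (L.av v) ≤ 1 := by
    rw [← HSG.nI_one (K := K)]
    apply HSG.nI_mono
    intro x hx
    obtain ⟨y, rfl⟩ := (HSG.mem_m_one x).1 hx
    rw [HSG.av_m _ hv, HSG.gb1_mem_aM, ← HSG.gb1_osmul]
    exact L.M.smul_mem y hL
  have h2 := qq_pos s P L hv
  have h3 : 0 < nI (L.av v) := HSG.nI_pos _
  unfold qdH
  apply inv_anti₀ (mul_pos h2 h3)
  calc QQ s P L v * nI (L.av v) ≤ QQ s P L v * 1 := mul_le_mul_of_nonneg_left h1 h2.le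
    _ = QQ s P L v := mul_one _

theorem qdH_ds (S : IQ s) (b a : HSG.Id K) : ∃ k : ℝ, 0 < k ∧ ∀ P : H3,
    qdH s P (Lat.ds b a) ![0, 1] = k * P.1.2 := by
  have hb : 0 < nI b := HSG.nI_pos _
  have ha : 0 < nI a := HSG.nI_pos _
  have ha' : 0 < nI a⁻¹ := HSG.nI_pos _
  refine ⟨(√(nI a⁻¹ / nI b) * nI a)⁻¹, inv_pos.2 (mul_pos (Real.sqrt_pos.2 (div_pos ha' hb)) ha),
    fun P => ?_⟩
  have h1 := qq_slice S P b a⁻¹
  rw [inv_inv] at h1
  unfold qdH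
  rw [h1, HSG.av_ds]
  have hP : 0 < P.1.2 := P.2
  have hs : 0 < √(nI a⁻¹ / nI b) := Real.sqrt_pos.2 (div_pos ha' hb)
  field_simp

section forms

variable {q : ℕ} {ν ν' : ℂ} {n : HSG.Id K} {om om' : HSG.Id K → ℂ}
  {F F' : ℂ × ℝ → ℂ × ℂ → Pt n → ℂ}

theorem qd_step (hF : IForm s q ν n om F) (hF' : IForm s q ν' n om' F') (g : GL (Fin 2) K)
    (P : H3) (x : Pt n) : ip F F' (aH s g P) (x.mul g⁻¹) = ip F F' P x := by
  rw [ip_act hF hF', ← HSG.LV.pt_mul_mul, inv_mul_cancel, HSG.LV.pt_mul_one]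

/-- the periods of the points over the lattices `b ⊕ a` -/
theorem qd_per (hn : IsInt n) {x : Pt n} {b a : HSG.Id K} (hx : x.L = Lat.ds b a) :
    ∀ β ∈ (n * a / b).m, x.mul (nm β : GL (Fin 2) K) = x := by
  intro β hβ
  have hna : (n * a).m ≤ a.m := by
    rw [← HSG.isInt_div, mul_div_assoc, div_self', mul_one]
    exact hn
  have hβ1 : β ∈ (a / b).m := by
    rw [HSG.mem_div_iff] at hβ ⊢
    exact fun y hy => hna (hβ y hy)
  have hL : (x.mul (nm β : GL (Fin 2) K)).L = x.L := by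
    show x.L.mul (nm β : GL (Fin 2) K) = x.L
    rw [hx, HSG.ds_nm b a hβ1]
  obtain ⟨v, hv, hV⟩ := x.ex
  have hvV : v ∈ x.V := by
    rw [hV]
    show v - v ∈ (x.L.sm n).M
    rw [sub_self]
    exact Submodule.zero_mem _
  have h1 : Matrix.vecMul v ((nm β : GL (Fin 2) K) : Matrix (Fin 2) (Fin 2) K) ∈
      (x.mul (nm β : GL (Fin 2) K)).V := ⟨v, hvV, rfl⟩
  have h2 : Matrix.vecMul v ((nm β : GL (Fin 2) K) : Matrix (Fin 2) (Fin 2) K) ∈ x.V := by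
    rw [hV]
    show _ - v ∈ (x.L.sm n).M
    rw [hx, HSG.ds_sm, HSG.LV.mem_ds]
    have hv0 : v 0 ∈ b.m := by
      have := hv.1
      rw [hx, HSG.LV.mem_ds] at this
      exact this.1
    have h00 : ((nm β : GL (Fin 2) K) : Matrix (Fin 2) (Fin 2) K) 0 0 = 1 := rfl
    have h01 : ((nm β : GL (Fin 2) K) : Matrix (Fin 2) (Fin 2) K) 0 1 = β := rfl
    have h10 : ((nm β : GL (Fin 2) K) : Matrix (Fin 2) (Fin 2) K) 1 0 = 0 := rfl
    have h11 : ((nm β : GL (Fin 2) K) : Matrix (Fin 2) (Fin 2) K) 1 1 = 1 := rfl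
    have e0 : (Matrix.vecMul v ((nm β : GL (Fin 2) K) : Matrix (Fin 2) (Fin 2) K) - v) 0 = 0 := by
      simp only [Pi.sub_apply, Matrix.vecMul, dotProduct, Fin.sum_univ_two, h00, h10]
      ring
    have e1 : (Matrix.vecMul v ((nm β : GL (Fin 2) K) : Matrix (Fin 2) (Fin 2) K) - v) 1 =
        β * v 0 := by
      simp only [Pi.sub_apply, Matrix.vecMul, dotProduct, Fin.sum_univ_two, h01, h11]
      ring
    rw [e0, e1]
    exact ⟨Submodule.zero_mem _, (HSG.mem_div_iff _ _ _).1 hβ _ hv0⟩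
  exact HSG.LV.pt_eq hn hL h1 h2

/-- exponential decay at one point -/
theorem qd_pt (S : IQ s) (had : Ad q ν) (hn : IsInt n)
    (hF : IForm s q ν n om F) (hF' : IForm s q ν' n om' F') {x : Pt n}
    (hx : ∃ b a, x.L = Lat.ds b a) : ∃ C c₀ : ℝ, 0 ≤ C ∧ 0 < c₀ ∧ ∀ P : H3,
      ‖ip F F' P x‖ ≤ C * Real.exp (-(c₀ * P.1.2)) := by
  obtain ⟨b, a, hx⟩ := hx
  obtain ⟨c, hc, he⟩ := form_gs hn hF (qd_per hn hx)
  obtain ⟨C₁, hC₁⟩ := hF.bdd x
  obtain ⟨C₂, hC₂0, hC₂⟩ := gs_bdd S had hc (C := C₁) (fun p u hp => by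
    rw [← he p u hp]; exact hC₁ p u hp)
  have hcs : CS c := ⟨hc.zero, ⟨_, hc.supp⟩, ⟨C₂, hC₂0, hC₂⟩⟩
  obtain ⟨C₃, c₀, hC₃0, hc₀, hd⟩ := fs_decay S had hcs
  obtain ⟨C₄, hC₄⟩ := hF'.bdd x
  obtain ⟨C₅, hC₅0, hC₅⟩ := ip_bd S hn hF hF'
  obtain ⟨M, hM⟩ : ∃ M : ℝ, M = ∫ u, nu u ^ (q + q) ∂gam := ⟨_, rfl⟩
  have hnu : ∀ u : ℂ × ℂ, 0 ≤ nu u := fun u => by
    unfold nu
    exact add_nonneg (Complex.normSq_nonneg _) (Complex.normSq_nonneg _)
  have hM0 : 0 ≤ M := by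
    rw [hM]
    exact integral_nonneg fun u => pow_nonneg (hnu u) _
  refine ⟨max (C₃ * |C₄| * M) (C₅ * Real.exp c₀), c₀,
    (mul_nonneg hC₅0 (Real.exp_pos _).le).trans (le_max_right _ _), hc₀, fun P => ?_⟩
  rcases le_total 1 P.1.2 with hy | hy
  · have h1 : ‖ip F F' P x‖ ≤ ∫ u, C₃ * |C₄| * Real.exp (-(c₀ * P.1.2)) * nu u ^ (q + q) ∂gam := by
      refine norm_integral_le_of_norm_le ((gam_mom (q + q)).const_mul _) (ae_of_all _ fun u => ?_)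
      rw [norm_mul, RCLike.norm_conj]
      have h2 := hd P.1 u hy
      rw [← he P.1 u P.2] at h2
      have h3 : ‖F' P.1 u x‖ ≤ |C₄| * nu u ^ q :=
        (hC₄ P.1 u P.2).trans (mul_le_mul_of_nonneg_right (le_abs_self _) (pow_nonneg (hnu u) _))
      refine (mul_le_mul h2 h3 (norm_nonneg _) (by
        have := hnu u
        positivity)).trans (le_of_eq ?_)
      rw [pow_add]
      ring
    rw [integral_const_mul, ← hM] at h1
    refine h1.trans ?_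
    calc C₃ * |C₄| * Real.exp (-(c₀ * P.1.2)) * M = (C₃ * |C₄| * M) *
          Real.exp (-(c₀ * P.1.2)) := by ring
      _ ≤ _ := mul_le_mul_of_nonneg_right (le_max_left _ _) (Real.exp_pos _).le
  · refine (hC₅ P x).trans ?_
    calc C₅ = C₅ * Real.exp c₀ * Real.exp (-c₀) := by
          rw [mul_assoc, ← Real.exp_add, add_neg_cancel, Real.exp_zero, mul_one]
      _ ≤ C₅ * Real.exp c₀ * Real.exp (-(c₀ * P.1.2)) := by
          refine mul_le_mul_of_nonneg_left (Real.exp_le_exp.2 ?_)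
            (mul_nonneg hC₅0 (Real.exp_pos _).le)
          nlinarith
      _ ≤ _ := mul_le_mul_of_nonneg_right (le_max_right _ _) (Real.exp_pos _).le

/-- the invariant form of the decay -/
theorem qd_key (S : IQ s) (had : Ad q ν) (hn : IsInt n)
    (hF : IForm s q ν n om F) (hF' : IForm s q ν' n om' F') :
    ∃ C c₀ : ℝ, 0 ≤ C ∧ 0 < c₀ ∧ ∀ (P : H3) (x : Pt n) (v : Fin 2 → K), v ≠ 0 →
      ‖ip F F' P x‖ ≤ C * Real.exp (-(c₀ * qdH s P x.L v)) := by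
  classical
  obtain ⟨T, hT, hfin⟩ := HSG.LV.fin_ds hn
  have hpt : ∀ x : Pt n, ∃ C c : ℝ, 0 ≤ C ∧ 0 < c ∧ ((∃ b a, x.L = Lat.ds b a) → ∀ P : H3,
      ‖ip F F' P x‖ ≤ C * Real.exp (-(c * qdH s P x.L ![0, 1]))) := by
    intro x
    by_cases hx : ∃ b a, x.L = Lat.ds b a
    · obtain ⟨C, c, hC, hc, h⟩ := qd_pt S had hn hF hF' hx
      obtain ⟨b, a, hx'⟩ := hx
      obtain ⟨k, hk, hk'⟩ := qdH_ds S b a
      refine ⟨C, c / k, hC, div_pos hc hk, fun _ P => ?_⟩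
      rw [hx', hk', ← mul_assoc, div_mul_cancel₀ _ hk.ne']
      exact h P
    · exact ⟨0, 1, le_rfl, one_pos, fun h => absurd h hx⟩
  choose C c hC hc h using hpt
  have hsum0 : 0 ≤ ∑ x ∈ hT.toFinset, (c x)⁻¹ :=
    Finset.sum_nonneg fun x _ => (inv_pos.2 (hc x)).le
  refine ⟨∑ x ∈ hT.toFinset, C x, (1 + ∑ x ∈ hT.toFinset, (c x)⁻¹)⁻¹,
    Finset.sum_nonneg fun x _ => hC x, inv_pos.2 (by linarith), fun P x v hv => ?_⟩
  -- the first move
  obtain ⟨g, hg, hgL⟩ := HSG.split x.L hv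
  obtain ⟨G, hG⟩ : ∃ G : GL (Fin 2) K, G = (g : GL (Fin 2) K) := ⟨_, rfl⟩
  have hx1 : (x.mul G⁻¹).L = Lat.ds (x.L.det / x.L.av v) (x.L.av v) := by
    rw [← hgL, hG]
    rfl
  have e01 : (![0, 1] : Fin 2 → K) ≠ 0 := by
    intro h
    have := congrFun h 1
    simp at this
  have hv1 : Matrix.vecMul v ((G⁻¹ : GL (Fin 2) K) : Matrix (Fin 2) (Fin 2) K) = ![0, 1] := by
    have h1 : v = Matrix.vecMul ![0, 1] (G : Matrix (Fin 2) (Fin 2) K) := by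
      rw [← hg, hG]
      ext i
      simp [Matrix.vecMul, dotProduct, Fin.sum_univ_two]
    rw [h1, Matrix.vecMul_vecMul, ← Units.val_mul, mul_inv_cancel]
    simp
  have hH1 := qdH_act S G P x.L hv
  rw [hv1] at hH1
  -- the second move
  obtain ⟨α, δ, D, -, -, hD, hDT, hDL⟩ := hfin (x.mul G⁻¹) ⟨_, _, hx1⟩
  obtain ⟨y, hy⟩ : ∃ y : Pt n, y = (x.mul G⁻¹).mul D := ⟨_, rfl⟩
  obtain ⟨Q, hQ⟩ : ∃ Q : H3, Q = aH s D⁻¹ (aH s G P) := ⟨_, rfl⟩
  have hH2 := qdH_act S D⁻¹ (aH s G P) (x.L.mul G⁻¹) e01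
  have hv2 : Matrix.vecMul (![0, 1] : Fin 2 → K)
      ((D⁻¹⁻¹ : GL (Fin 2) K) : Matrix (Fin 2) (Fin 2) K) = (δ : K) • ![0, 1] := by
    rw [inv_inv, hD]
    ext i
    fin_cases i <;> simp [Matrix.vecMul, dotProduct, Fin.sum_univ_two]
  rw [hv2, qdH_scal S _ _ _ e01, inv_inv, ← hQ] at hH2
  have hyL : y.L = (x.L.mul G⁻¹).mul D := by rw [hy]; rfl
  rw [← hyL, hH1] at hH2
  have hip : ip F F' Q y = ip F F' P x := by
    have h1 := qd_step hF hF' D⁻¹ (aH s G P) (x.mul G⁻¹)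
    rw [inv_inv, ← hQ, ← hy, qd_step hF hF'] at h1
    exact h1
  rw [← hip, ← hH2]
  have hyT : y ∈ hT.toFinset := by
    rw [hT.mem_toFinset, hy]
    exact hDT
  have hyds : ∃ b a, y.L = Lat.ds b a := by
    rw [hy]
    exact hDL
  refine (h y hyds Q).trans ?_
  have hHpos : 0 ≤ qdH s Q y.L ![0, 1] := by
    unfold qdH
    exact (inv_pos.2 (mul_pos (qq_pos s _ _ e01) (HSG.nI_pos _))).le
  have hle : (1 + ∑ x ∈ hT.toFinset, (c x)⁻¹)⁻¹ ≤ c y := by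
    rw [inv_le_comm₀ (by linarith) (hc y)]
    have := Finset.single_le_sum (f := fun x => (c x)⁻¹) (fun x _ => (inv_pos.2 (hc x)).le) hyT
    linarith
  refine mul_le_mul (Finset.single_le_sum (f := C) (fun x _ => hC x) hyT)
    (Real.exp_le_exp.2 (neg_le_neg (mul_le_mul_of_nonneg_right hle hHpos))) (Real.exp_pos _).le
    (Finset.sum_nonneg fun x _ => hC x)

theorem ip_decay (S : IQ s) (had : Ad q ν) (had' : Ad q ν') (hn : IsInt n)
    (hF : IForm s q ν n om F) (hF' : IForm s q ν' n om' F') :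
    ∃ C c₀ : ℝ, 0 ≤ C ∧ 0 < c₀ ∧ ∀ (P : H3) (x : Pt n) (v : Fin 2 → K), v ∈ x.L.M → v ≠ 0 →
      ‖ip F F' P x‖ ≤ C * Real.exp (-(c₀ / QQ s P x.L v)) ∧
      ∀ l ∈ (dua n x.L).M, l ≠ 0 → ‖ip F F' P x‖ ≤ C * Real.exp (-(c₀ / QQ s P (dua n x.L) l)) := by
  obtain ⟨C, c₀, hC, hc₀, h⟩ := qd_key S had hn hF hF'
  refine ⟨C, c₀, hC, hc₀, fun P x v hL hv => ⟨?_, fun l hl hl0 => ?_⟩⟩
  · refine (h P x v hv).trans (mul_le_mul_of_nonneg_left (Real.exp_le_exp.2 (neg_le_neg ?_)) hC)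
    rw [div_eq_mul_inv]
    exact mul_le_mul_of_nonneg_left (qdH_le s P x.L hL hv) hc₀.le
  · refine (h P x l hl0).trans (mul_le_mul_of_nonneg_left (Real.exp_le_exp.2 (neg_le_neg ?_)) hC)
    rw [div_eq_mul_inv]
    refine mul_le_mul_of_nonneg_left ?_ hc₀.le
    have h1 := qdH_le s P (dua n x.L) hl hl0
    have h2 : qdH s P (dua n x.L) l = qdH s P x.L l := qdH_sm S P x.L _ hl0
    rw [h2] at h1
    exact h1

end forms

end Pool.Agent.HI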