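import Pool.Agent.Lib_helper25.HIF.DX
import Pool.Agent.Lib_helper25.HIF.QA
import Pool.Agent.Lib_helper25.HIF.QC
import Pool.Agent.Lib_helper25.HIF.QD
import Pool.Agent.Lib_helper25.HIF.QF
import Pool.Agent.Lib_helper25.HIF.QI
import Pool.Agent.Lib_helper84.LVF.LB

/-!
# Project HI, block QO: decay and continuity of `I(t)` and of the dual integral
-/

namespace Pool.Agent.HI
open NumberField Complex MeasureTheory IsDedekindDomain Filter Topology
open scoped nonZeroDivisors MatrixGroups ENNReal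
open Pool.Agent.HB (H3 mu Kb mk3)
open Pool.Agent.HSG (Lat Pr IsInt nI prI DD nm wm dgm dt qP NCl)
open Pool.Agent.HSG.LV (Pt Sc Cp sS ptS dua)

variable {K : Type} [Field K] [NumberField K] {s : K →+* ℂ}

theorem qo_exp (k : ℕ) {x : ℝ} (hx : 0 < x) : Real.exp (-x) ≤ k.factorial * (x ^ k)⁻¹ := by
  have h := Real.pow_div_factorial_le_exp x hx.le k
  rw [Real.exp_neg]
  have h1 : 0 < x ^ k := by positivity
  have h2 : (0 : ℝ) < k.factorial := by exact_mod_cast k.factorial_pos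
  calc (Real.exp x)⁻¹ ≤ (x ^ k / k.factorial)⁻¹ := inv_anti₀ (by positivity) h
    _ = k.factorial * (x ^ k)⁻¹ := by
      rw [inv_div, div_eq_mul_inv]

theorem qo_dk (K : Type) [Field K] [NumberField K] : 0 < Dk K := by
  unfold Dk
  exact abs_pos.2 (Int.cast_ne_zero.2 (NumberField.discr_ne_zero K))

theorem qo_nonneg (s : K →+* ℂ) (P : H3) (L : Lat K) (v : Fin 2 → K) : 0 ≤ QQ s P L v := by
  unfold QQ
  have hP : 0 < P.1.2 := P.2
  have h1 := normSq_nonneg (s (v 0) * P.1.1 + s (v 1))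
  have h2 := normSq_nonneg (s (v 0))
  positivity

/-- the theta series of a lattice converge -/
theorem qo_sum (S : IQ s) (P : H3) (L : Lat K) {a : ℝ} (ha : 0 < a) :
    Summable (fun v : L.M => Real.exp (-(Real.pi * (a * QQ s P L v)))) := by
  have hD := qo_dk K
  set t : ℝ := min a (min 1 (1 / Dk K)) with ht
  have ht0 : 0 < t := lt_min ha (lt_min one_pos (by positivity))
  have hta : t ≤ a := min_le_left _ _
  have ht1 : t ≤ 1 := (min_le_right _ _).trans (min_le_left _ _)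
  have ht2 : t ≤ 1 / Dk K := (min_le_right _ _).trans (min_le_right _ _)
  have h2 : Dk K * t ^ 2 ≤ 2 := by
    have h3 : Dk K * t ≤ 1 := by
      rw [le_div_iff₀ hD] at ht2
      linarith
    nlinarith
  have h4 := th_two_le S P L ht0 h2
  have h5 : Summable (fun v : L.M => Real.exp (-(Real.pi * (t * QQ s P L v)))) := by
    by_contra h
    rw [tsum_eq_zero_of_not_summable h] at h4
    linarith
  refine h5.of_nonneg_of_le (fun v => (Real.exp_pos _).le) fun v => ?_
  refine Real.exp_le_exp.2 (neg_le_neg (mul_le_mul_of_nonneg_left ?_ Real.pi_pos.le))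
  exact mul_le_mul_of_nonneg_right hta (qo_nonneg s P L v)

/-- change of the scale -/
theorem qo_half (S : IQ s) (P : H3) (L : Lat K) {a : ℝ} (ha : 0 < a) :
    ∑' v : L.M, Real.exp (-(Real.pi * (a * QQ s P L v))) ≤
      max 1 ((1 / a) ^ 2) * ∑' v : L.M, Real.exp (-(Real.pi * QQ s P L v)) := by
  have e : (fun v : L.M => Real.exp (-(Real.pi * QQ s P L v))) =
      fun v : L.M => Real.exp (-(Real.pi * (1 * QQ s P L v))) := by
    funext v
    rw [one_mul]
  have hpos : 0 ≤ ∑' v : L.M, Real.exp (-(Real.pi * (1 * QQ s P L v))) :=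
    tsum_nonneg fun v => (Real.exp_pos _).le
  rw [e]
  rcases le_total a 1 with h | h
  · exact (th_scale S P L ha h).trans (mul_le_mul_of_nonneg_right (le_max_right _ _) hpos)
  · calc ∑' v : L.M, Real.exp (-(Real.pi * (a * QQ s P L v))) ≤
        ∑' v : L.M, Real.exp (-(Real.pi * (1 * QQ s P L v))) := by
          refine (qo_sum S P L ha).tsum_le_tsum (fun v => ?_) (qo_sum S P L one_pos)
          refine Real.exp_le_exp.2 (neg_le_neg (mul_le_mul_of_nonneg_left ?_ Real.pi_pos.le))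
          exact mul_le_mul_of_nonneg_right h (qo_nonneg s P L v)
      _ ≤ _ := le_mul_of_one_le_left hpos (le_max_left _ _)

theorem qo_ne (L : Lat K) : ∃ v ∈ L.M, v ≠ 0 := by
  by_contra h
  push Not at h
  have h1 : (L.M : Set (Fin 2 → K)) ⊆ ({0} : Set (Fin 2 → K)) := fun v hv => h v hv
  have h2 : Submodule.span K (L.M : Set (Fin 2 → K)) ≤ ⊥ := by
    rw [← Submodule.span_zero_singleton K (M := Fin 2 → K)]
    exact Submodule.span_mono h1
  rw [L.top, top_le_iff] at h2
  exact bot_ne_top h2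

/-- the term `v` -/
noncomputable def qoT (s : K →+* ℂ) (P : H3) (L : Lat K) (t : ℝ) (v : L.M) : ℝ :=
  open scoped Classical in
  if (v : Fin 2 → K) = 0 then 0 else Real.exp (-(Real.pi * (t * QQ s P L v)))

theorem qoT_nonneg (s : K →+* ℂ) (P : H3) (L : Lat K) (t : ℝ) (v : L.M) :
    0 ≤ qoT s P L t v := by
  unfold qoT
  split_ifs
  · exact le_rfl
  · exact (Real.exp_pos _).le

theorem qoT_le (s : K →+* ℂ) (P : H3) (L : Lat K) (t : ℝ) (v : L.M) :
    qoT s P L t v ≤ Real.exp (-(Real.pi * (t * QQ s P L v))) := by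
  unfold qoT
  split_ifs
  · exact (Real.exp_pos _).le
  · exact le_rfl

theorem qoT_sum (S : IQ s) (P : H3) (L : Lat K) {t : ℝ} (ht : 0 < t) : Summable (qoT s P L t) :=
  (qo_sum S P L ht).of_nonneg_of_le (qoT_nonneg s P L t) (qoT_le s P L t)

/-- the basic estimate -/
theorem qo_core (S : IQ s) {a C c₀ : ℝ} (ha : 0 < a) (hC : 0 ≤ C) (hc : 0 < c₀) (k : ℕ) :
    ∃ C' : ℝ, 0 ≤ C' ∧ ∀ (P : H3) (L : Lat K) (N : ℝ), 0 ≤ N →
      (∀ v ∈ L.M, v ≠ 0 → N ≤ C * Real.exp (-(c₀ / QQ s P L v))) → ∀ t : ℝ, 1 ≤ t →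
        N * ∑' v : L.M, qoT s P L (t * a) v ≤ C' * (t ^ k)⁻¹ := by
  set C1 : ℝ := √C * k.factorial * k.factorial * (2 / (Real.pi * a)) ^ k * (2 / c₀) ^ k with hC1
  have hC1' : 0 ≤ C1 := by positivity
  set C2 : ℝ := C * Real.exp 1 with hC2
  have hC2' : 0 ≤ C2 := by positivity
  set m : ℝ := max 1 ((1 / (a / 2)) ^ 2) with hm
  have hm' : 0 ≤ m := zero_le_one.trans (le_max_left _ _)
  set B : ℝ := ((1 + 1 / c₀) * 8) ^ 4 * √C2 with hB
  have hB' : 0 ≤ B := by positivity
  refine ⟨C1 * m * (2 * B), by positivity, fun P L N hN h t ht => ?_⟩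
  have ht0 : 0 < t := lt_of_lt_of_le one_pos ht
  rcases eq_or_lt_of_le hN with hN0 | hN0
  · rw [← hN0, zero_mul]
    positivity
  have hsN : 0 ≤ √N := Real.sqrt_nonneg _
  have hNN : √N * √N = N := Real.mul_self_sqrt hN
  -- one term
  have h1 : ∀ v : L.M, √N * qoT s P L (t * a) v ≤
      C1 * (t ^ k)⁻¹ * Real.exp (-(Real.pi * (a / 2 * QQ s P L v))) := by
    intro v
    unfold qoT
    split_ifs with hv
    · rw [mul_zero]
      positivity
    have hq := qq_pos s P L hv
    set q : ℝ := QQ s P L v with hqq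
    have e1 : Real.exp (-(Real.pi * (t * a * q))) ≤
        Real.exp (-(Real.pi * (t * a * q) / 2)) * Real.exp (-(Real.pi * (a / 2 * q))) := by
      rw [← Real.exp_add]
      refine Real.exp_le_exp.2 ?_
      have : Real.pi * (a * q) ≤ Real.pi * (t * a * q) := by
        refine mul_le_mul_of_nonneg_left ?_ Real.pi_pos.le
        have : 0 < a * q := by positivity
        nlinarith
      linarith
    have e2 : √N ≤ √C * Real.exp (-(c₀ / (2 * q))) := by
      have h3 := h v v.2 hv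
      have h4 : C * Real.exp (-(c₀ / q)) = (√C * Real.exp (-(c₀ / (2 * q)))) ^ 2 := by
        rw [mul_pow, Real.sq_sqrt hC, ← Real.exp_nat_mul]
        congr 2
        push_cast
        field_simp
      rw [← hqq, h4] at h3
      exact Real.sqrt_le_iff.2 ⟨by positivity, h3⟩
    have e3 : Real.exp (-(c₀ / (2 * q))) ≤ k.factorial * ((c₀ / (2 * q)) ^ k)⁻¹ :=
      qo_exp k (by positivity)
    have e4 : Real.exp (-(Real.pi * (t * a * q) / 2)) ≤
        k.factorial * ((Real.pi * (t * a * q) / 2) ^ k)⁻¹ := qo_exp k (by positivity)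
    have e5 : √N * Real.exp (-(Real.pi * (t * a * q) / 2)) ≤ C1 * (t ^ k)⁻¹ := by
      calc √N * Real.exp (-(Real.pi * (t * a * q) / 2)) ≤
          (√C * (k.factorial * ((c₀ / (2 * q)) ^ k)⁻¹)) *
            (k.factorial * ((Real.pi * (t * a * q) / 2) ^ k)⁻¹) := by
            refine mul_le_mul (e2.trans (mul_le_mul_of_nonneg_left e3 (Real.sqrt_nonneg _))) e4
              (Real.exp_pos _).le (by positivity)
        _ = C1 * (t ^ k)⁻¹ := by
            rw [hC1, div_pow, div_pow, div_pow, div_pow, mul_pow, mul_pow, mul_pow, mul_pow,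
              mul_pow]
            field_simp
    calc √N * Real.exp (-(Real.pi * (t * a * q))) ≤
        √N * (Real.exp (-(Real.pi * (t * a * q) / 2)) *
          Real.exp (-(Real.pi * (a / 2 * q)))) := mul_le_mul_of_nonneg_left e1 hsN
      _ = (√N * Real.exp (-(Real.pi * (t * a * q) / 2))) *
          Real.exp (-(Real.pi * (a / 2 * q))) := by ring
      _ ≤ _ := mul_le_mul_of_nonneg_right e5 (Real.exp_pos _).le
  -- the sum
  have h2 : √N * ∑' v : L.M, qoT s P L (t * a) v ≤ C1 * (t ^ k)⁻¹ *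
      (m * ∑' v : L.M, Real.exp (-(Real.pi * QQ s P L v))) := by
    rw [← tsum_mul_left]
    calc ∑' v : L.M, √N * qoT s P L (t * a) v ≤
        ∑' v : L.M, C1 * (t ^ k)⁻¹ * Real.exp (-(Real.pi * (a / 2 * QQ s P L v))) :=
          ((qoT_sum S P L (by positivity)).mul_left _).tsum_le_tsum h1
            ((qo_sum S P L (by positivity : 0 < a / 2)).mul_left _)
      _ = C1 * (t ^ k)⁻¹ * ∑' v : L.M, Real.exp (-(Real.pi * (a / 2 * QQ s P L v))) :=
          tsum_mul_left
      _ ≤ _ := mul_le_mul_of_nonneg_left (qo_half S P L (by positivity : 0 < a / 2))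
          (by positivity)
  -- the bound for the full series
  obtain ⟨v₀, hv₀, hv₀'⟩ := qo_ne L
  have hNC : N ≤ C := by
    refine (h v₀ hv₀ hv₀').trans ?_
    have : Real.exp (-(c₀ / QQ s P L v₀)) ≤ 1 := by
      rw [Real.exp_le_one_iff]
      have := qq_pos s P L hv₀'
      have : 0 < c₀ / QQ s P L v₀ := by positivity
      linarith
    exact mul_le_of_le_one_right hC this
  have hC0 : 0 < C := lt_of_lt_of_le hN0 hNC
  set l : ℝ := Real.log (C2 / N) with hl
  have hC2N : 0 < C2 / N := by positivity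
  have hl1 : 1 ≤ l := by
    rw [hl, ← Real.log_exp 1]
    refine Real.log_le_log (Real.exp_pos 1) ?_
    rw [le_div_iff₀ hN0, hC2, mul_comm]
    exact mul_le_mul_of_nonneg_right hNC (Real.exp_pos 1).le
  have hl0 : 0 < l := lt_of_lt_of_le one_pos hl1
  have hδ : ∀ v ∈ L.M, v ≠ 0 → c₀ / l ≤ QQ s P L v := by
    intro v hv hv'
    have hq := qq_pos s P L hv'
    have h3 := h v hv hv'
    have h4 : c₀ / QQ s P L v ≤ l := by
      have h5 : N ≤ C2 * Real.exp (-(c₀ / QQ s P L v)) := by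
        refine h3.trans (mul_le_mul_of_nonneg_right ?_ (Real.exp_pos _).le)
        rw [hC2]
        exact le_mul_of_one_le_right hC (Real.one_le_exp zero_le_one)
      rw [hl, Real.le_log_iff_exp_le hC2N, le_div_iff₀ hN0]
      calc Real.exp (c₀ / QQ s P L v) * N ≤
          Real.exp (c₀ / QQ s P L v) * (C2 * Real.exp (-(c₀ / QQ s P L v))) :=
            mul_le_mul_of_nonneg_left h5 (Real.exp_pos _).le
        _ = C2 * (Real.exp (c₀ / QQ s P L v) * Real.exp (-(c₀ / QQ s P L v))) := by ring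
        _ = C2 := by rw [← Real.exp_add, add_neg_cancel, Real.exp_zero, mul_one]
    rw [div_le_iff₀ hl0]
    rw [div_le_iff₀ hq] at h4
    linarith
  have h6 := th_le S P L (by positivity : 0 < c₀ / l) hδ
  have h7 : √N * (1 + 1 / (c₀ / l)) ^ 4 ≤ B := by
    have h8 : 1 + 1 / (c₀ / l) ≤ (1 + 1 / c₀) * 8 * (C2 / N) ^ (1 / 8 : ℝ) := by
      have h9 : l ≤ (C2 / N) ^ (1 / 8 : ℝ) / (1 / 8) := Real.log_le_rpow_div hC2N.le (by norm_num)
      have h10 : 1 + 1 / (c₀ / l) ≤ (1 + 1 / c₀) * l := by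
        rw [one_div_div]
        have : l / c₀ = 1 / c₀ * l := by ring
        rw [this]
        linarith
      calc 1 + 1 / (c₀ / l) ≤ (1 + 1 / c₀) * l := h10
        _ ≤ (1 + 1 / c₀) * ((C2 / N) ^ (1 / 8 : ℝ) / (1 / 8)) :=
            mul_le_mul_of_nonneg_left h9 (by positivity)
        _ = _ := by ring
    have h11 : (1 + 1 / (c₀ / l)) ^ 4 ≤ ((1 + 1 / c₀) * 8) ^ 4 * √(C2 / N) := by
      have e : ((C2 / N) ^ (1 / 8 : ℝ)) ^ 4 = √(C2 / N) := by
        rw [Real.sqrt_eq_rpow, ← Real.rpow_natCast, ← Real.rpow_mul hC2N.le]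
        norm_num
      rw [← e, ← mul_pow]
      exact pow_le_pow_left₀ (by positivity) h8 4
    calc √N * (1 + 1 / (c₀ / l)) ^ 4 ≤ √N * (((1 + 1 / c₀) * 8) ^ 4 * √(C2 / N)) :=
          mul_le_mul_of_nonneg_left h11 hsN
      _ = ((1 + 1 / c₀) * 8) ^ 4 * (√N * √(C2 / N)) := by ring
      _ = B := by
          rw [hB, ← Real.sqrt_mul hN]
          congr 2
          field_simp
  have h12 : √N * ∑' v : L.M, Real.exp (-(Real.pi * QQ s P L v)) ≤ 2 * B := by
    calc √N * ∑' v : L.M, Real.exp (-(Real.pi * QQ s P L v)) ≤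
        √N * (2 * (1 + 1 / (c₀ / l)) ^ 4) := mul_le_mul_of_nonneg_left h6 hsN
      _ = 2 * (√N * (1 + 1 / (c₀ / l)) ^ 4) := by ring
      _ ≤ 2 * B := by linarith
  calc N * ∑' v : L.M, qoT s P L (t * a) v =
      √N * (√N * ∑' v : L.M, qoT s P L (t * a) v) := by rw [← mul_assoc, hNN]
    _ ≤ √N * (C1 * (t ^ k)⁻¹ * (m * ∑' v : L.M, Real.exp (-(Real.pi * QQ s P L v)))) :=
        mul_le_mul_of_nonneg_left h2 hsN
    _ = C1 * (t ^ k)⁻¹ * m * (√N * ∑' v : L.M, Real.exp (-(Real.pi * QQ s P L v))) := by ring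
    _ ≤ C1 * (t ^ k)⁻¹ * m * (2 * B) := mul_le_mul_of_nonneg_left h12 (by positivity)
    _ = _ := by ring

/-! ### The theta series -/

theorem qo_tsum {E : Type} [NormedAddCommGroup E] (L : Lat K) (f : (Fin 2 → K) → E)
    (hf : ∀ v, v ∉ L.M → f v = 0) : ∑' v : Fin 2 → K, f v = ∑' v : L.M, f v := by
  have h := tsum_subtype_eq_of_support_subset (f := f) (s := (L.M : Set (Fin 2 → K))) (by
    intro v hv
    by_contra h
    exact hv (hf v h))
  exact h.symm

theorem qo_th (S : IQ s) {n : HSG.Id K} (hn : IsInt n) (P : H3) (x : Pt n) {t : ℝ}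
    (ht : 0 < t) : 0 ≤ th s t P x ∧ th s t P x ≤ ∑' v : x.L.M, qoT s P x.L t v := by
  classical
  have hsub := HSG.LV.v_sub hn x
  have h0 : ∀ v : Fin 2 → K, 0 ≤ (if v ∈ x.V ∧ v ≠ 0 then
      Real.exp (-(Real.pi * (t * QQ s P x.L v))) else 0) := by
    intro v
    split_ifs
    · exact (Real.exp_pos _).le
    · exact le_rfl
  have e : th s t P x = ∑' v : x.L.M, (if (v : Fin 2 → K) ∈ x.V ∧ (v : Fin 2 → K) ≠ 0 then
      Real.exp (-(Real.pi * (t * QQ s P x.L v))) else 0) := by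
    unfold th
    refine Eq.trans (tsum_congr fun v => ?_) (qo_tsum x.L (fun v => if v ∈ x.V ∧ v ≠ 0 then
      Real.exp (-(Real.pi * (t * QQ s P x.L v))) else 0) ?_)
    · congr
    · intro v hv
      exact if_neg fun h => hv (hsub h.1)
  have hle : ∀ v : x.L.M, (if (v : Fin 2 → K) ∈ x.V ∧ (v : Fin 2 → K) ≠ 0 then
      Real.exp (-(Real.pi * (t * QQ s P x.L v))) else 0) ≤ qoT s P x.L t v := by
    intro v
    unfold qoT
    by_cases hv : (v : Fin 2 → K) = 0
    · rw [if_neg (fun h => h.2 hv), if_pos hv]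
    · rw [if_neg hv]
      split_ifs
      · exact le_rfl
      · exact (Real.exp_pos _).le
  rw [e]
  refine ⟨tsum_nonneg fun v => h0 v, ?_⟩
  have h1 : Summable (fun v : x.L.M => (if (v : Fin 2 → K) ∈ x.V ∧ (v : Fin 2 → K) ≠ 0 then
      Real.exp (-(Real.pi * (t * QQ s P x.L v))) else 0)) :=
    Summable.of_nonneg_of_le (fun v => h0 v) hle (qoT_sum S P x.L ht)
  exact h1.tsum_le_tsum hle (qoT_sum S P x.L ht)

/-- the terms of the dual series -/
noncomputable def qoD (s : K →+* ℂ) {n : HSG.Id K} (T : ℝ) (P : H3) (x : Pt n)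
    (l : Fin 2 → K) : ℂ :=
  open scoped Classical in if l ∈ (dua n x.L).M ∧ l ≠ 0 then e2 (s (dt l x.ex.choose)) *
    ((Real.exp (-(Real.pi * (T * (4 * QQ s P (dua n x.L) l / (Dk K * nI n))))) : ℝ) : ℂ) else 0

theorem qo_e2 (w : ℂ) : ‖e2 w‖ = 1 := by
  unfold e2
  rw [show 2 * (Real.pi : ℂ) * I * ((2 * w.re : ℝ) : ℂ) =
    ((2 * Real.pi * (2 * w.re) : ℝ) : ℂ) * I by push_cast; ring, Complex.norm_exp_ofReal_mul_I]

theorem qoD_norm (s : K →+* ℂ) {n : HSG.Id K} (T : ℝ) (P : H3) (x : Pt n)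
    (l : (dua n x.L).M) : ‖qoD s T P x l‖ = qoT s P (dua n x.L) (T * (4 / (Dk K * nI n))) l := by
  unfold qoD qoT
  by_cases hl : (l : Fin 2 → K) = 0
  · rw [if_neg (fun h => h.2 hl), if_pos hl, norm_zero]
  · rw [if_pos ⟨l.2, hl⟩, if_neg hl, norm_mul, qo_e2, one_mul, Complex.norm_real,
      Real.norm_eq_abs, abs_of_pos (Real.exp_pos _)]
    congr 3
    ring

theorem qo_thD (S : IQ s) {n : HSG.Id K} (P : H3) (x : Pt n) {T : ℝ} (hT : 0 < T) :
    ‖thD s T P x‖ ≤ ∑' v : (dua n x.L).M, qoT s P (dua n x.L) (T * (4 / (Dk K * nI n))) v := by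
  have hD := qo_dk K
  have hN : 0 < nI n := HSG.nI_pos n
  have e : thD s T P x = ∑' l : (dua n x.L).M, qoD s T P x l := by
    refine Eq.trans rfl (qo_tsum (dua n x.L) (qoD s T P x) ?_)
    intro v hv
    unfold qoD
    exact if_neg fun h => hv h.1
  rw [e]
  have hs : Summable (fun l : (dua n x.L).M => ‖qoD s T P x l‖) := by
    refine (qoT_sum S P (dua n x.L) (t := T * (4 / (Dk K * nI n))) (by positivity)).congr ?_
    intro l
    rw [qoD_norm]
  refine (norm_tsum_le_tsum_norm hs).trans (le_of_eq (tsum_congr fun l => qoD_norm s T P x l))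

section forms

variable {q : ℕ} {ν ν' : ℂ} {n : HSG.Id K} {om om' : HSG.Id K → ℂ}
  {F F' : ℂ × ℝ → ℂ × ℂ → Pt n → ℂ}

/-- uniform bounds for the integrands -/
theorem qo_bd (S : IQ s) (had : Ad q ν) (had' : Ad q ν') (hn : IsInt n)
    (hF : IForm s q ν n om F) (hF' : IForm s q ν' n om' F') (k : ℕ) {t₁ : ℝ} (ht₁ : 0 < t₁) :
    ∃ C : ℝ, 0 ≤ C ∧ ∀ (t : ℝ) (P : H3) (x : Pt n), 1 ≤ t →
      ‖ip F F' P x * ((th s (t * t₁) P x : ℝ) : ℂ)‖ ≤ C * (t ^ k)⁻¹ ∧
      ‖ip F F' P x * thD s (t * t₁) P x‖ ≤ C * (t ^ k)⁻¹ := by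
  obtain ⟨C, c₀, hC, hc₀, hd⟩ := ip_decay S had had' hn hF hF'
  have hD := qo_dk K
  have hN : 0 < nI n := HSG.nI_pos n
  obtain ⟨C1, hC1, h1⟩ := qo_core S ht₁ hC hc₀ k
  obtain ⟨C2, hC2, h2⟩ := qo_core S (a := t₁ * (4 / (Dk K * nI n))) (by positivity) hC hc₀ k
  refine ⟨max C1 C2, le_max_of_le_left hC1, fun t P x ht => ?_⟩
  have ht0 : 0 < t := lt_of_lt_of_le one_pos ht
  constructor
  · obtain ⟨g1, g2⟩ := qo_th S hn P x (t := t * t₁) (by positivity)
    rw [norm_mul, Complex.norm_real, Real.norm_eq_abs, abs_of_nonneg g1]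
    calc ‖ip F F' P x‖ * th s (t * t₁) P x ≤ ‖ip F F' P x‖ * ∑' v : x.L.M, qoT s P x.L (t * t₁) v :=
          mul_le_mul_of_nonneg_left g2 (norm_nonneg _)
      _ ≤ C1 * (t ^ k)⁻¹ := h1 P x.L _ (norm_nonneg _) (fun v hv hv' => (hd P x v hv hv').1) t ht
      _ ≤ _ := mul_le_mul_of_nonneg_right (le_max_left _ _) (by positivity)
  · have g2 := qo_thD S P x (T := t * t₁) (by positivity)
    obtain ⟨v₀, hv₀, hv₀'⟩ := qo_ne x.L
    rw [norm_mul]
    calc ‖ip F F' P x‖ * ‖thD s (t * t₁) P x‖ ≤ ‖ip F F' P x‖ *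
          ∑' v : (dua n x.L).M, qoT s P (dua n x.L) (t * t₁ * (4 / (Dk K * nI n))) v :=
          mul_le_mul_of_nonneg_left g2 (norm_nonneg _)
      _ = ‖ip F F' P x‖ *
          ∑' v : (dua n x.L).M, qoT s P (dua n x.L) (t * (t₁ * (4 / (Dk K * nI n)))) v := by
          rw [mul_assoc]
      _ ≤ C2 * (t ^ k)⁻¹ := h2 P (dua n x.L) _ (norm_nonneg _)
          (fun l hl hl' => (hd P x v₀ hv₀ hv₀').2 l hl hl') t ht
      _ ≤ _ := mul_le_mul_of_nonneg_right (le_max_right _ _) (by positivity)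

theorem it_decay (S : IQ s) (had : Ad q ν) (had' : Ad q ν') (hn : IsInt n) (W : WG s)
    (hF : IForm s q ν n om F) (hF' : IForm s q ν' n om' F') (k : ℕ) :
    ∃ C : ℝ, ∀ t : ℝ, 1 ≤ t → ‖It W F F' t‖ ≤ C * (t ^ k)⁻¹ ∧ ‖Rt W F F' t‖ ≤ C * (t ^ k)⁻¹ := by
  obtain ⟨C, hC, h⟩ := qo_bd S had had' hn hF hF' k one_pos
  have hfin : IsFiniteMeasure (mW W n) := mW_fin hn
  refine ⟨C * (mW W n).real Set.univ, fun t ht => ⟨?_, ?_⟩⟩
  · unfold It
    refine (norm_integral_le_of_norm_le_const (C := C * (t ^ k)⁻¹) (Eventually.of_forall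
      fun y => ?_)).trans (le_of_eq (by ring))
    have := (h t y.1 y.2 ht).1
    rwa [mul_one] at this
  · unfold Rt
    refine (norm_integral_le_of_norm_le_const (C := C * (t ^ k)⁻¹) (Eventually.of_forall
      fun y => ?_)).trans (le_of_eq (by ring))
    have := (h t y.1 y.2 ht).2
    rwa [mul_one] at this

/-! ### Measurability and continuity -/

theorem qo_th_meas (s : K →+* ℂ) (t : ℝ) (x : Pt n) : Measurable (fun P : H3 => th s t P x) := by
  have h1 := HSG.countK K
  unfold th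
  refine Measurable.tsum fun v => ?_
  split_ifs
  · have h2 := (qq_cont s x.L v).measurable
    fun_prop
  · exact measurable_const

theorem qo_thD_meas (s : K →+* ℂ) (T : ℝ) (x : Pt n) : Measurable (fun P : H3 => thD s T P x) := by
  have h1 := HSG.countK K
  unfold thD
  refine Measurable.tsum fun v => ?_
  split_ifs
  · have h2 := (qq_cont s (dua n x.L) v).measurable
    fun_prop
  · exact measurable_const

theorem qo_ip_meas (S : IQ s) (had : Ad q ν) (had' : Ad q ν') (hn : IsInt n)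
    (hF : IForm s q ν n om F) (hF' : IForm s q ν' n om' F') (x : Pt n) :
    Measurable (fun P : H3 => ip F F' P x) :=
  (ip_cont S had had' hn hF hF' x).measurable

theorem qo_contT (S : IQ s) (P : H3) (L : Lat K) {E : Type} [NormedAddCommGroup E]
    [CompleteSpace E] (f : ℝ → L.M → E) (hf : ∀ v, Continuous fun t => f t v) {b : ℝ}
    (hb : 0 < b) (hle : ∀ t v, 0 < t → ‖f t v‖ ≤ qoT s P L (t * b) v) {t₀ : ℝ} (ht₀ : 0 < t₀) :
    ContinuousAt (fun t => ∑' v, f t v) t₀ := by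
  have h1 : ContinuousOn (fun t => ∑' v, f t v) (Set.Ioi (t₀ / 2)) := by
    refine continuousOn_tsum (fun v => (hf v).continuousOn)
      (qo_sum S P L (a := t₀ / 2 * b) (by positivity)) ?_
    intro v t ht
    have ht' : t₀ / 2 < t := ht
    refine (hle t v (lt_trans (by positivity) ht')).trans ((qoT_le s P L _ v).trans ?_)
    refine Real.exp_le_exp.2 (neg_le_neg (mul_le_mul_of_nonneg_left ?_ Real.pi_pos.le))
    exact mul_le_mul_of_nonneg_right (mul_le_mul_of_nonneg_right ht'.le hb.le)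
      (qo_nonneg s P L v)
  exact h1.continuousAt (Ioi_mem_nhds (by linarith))

theorem qo_th_cont (S : IQ s) (hn : IsInt n) (P : H3) (x : Pt n) {t₀ : ℝ} (ht₀ : 0 < t₀) :
    ContinuousAt (fun t => th s t P x) t₀ := by
  classical
  have hsub := HSG.LV.v_sub hn x
  have e : (fun t => th s t P x) = fun t => ∑' v : x.L.M,
      (if (v : Fin 2 → K) ∈ x.V ∧ (v : Fin 2 → K) ≠ 0 then
        Real.exp (-(Real.pi * (t * QQ s P x.L v))) else 0) := by
    funext t
    unfold th
    refine Eq.trans (tsum_congr fun v => ?_) (qo_tsum x.L (fun v => if v ∈ x.V ∧ v ≠ 0 then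
      Real.exp (-(Real.pi * (t * QQ s P x.L v))) else 0) ?_)
    · congr
    · intro v hv
      exact if_neg fun h => hv (hsub h.1)
  rw [e]
  refine qo_contT S P x.L (fun t v => (if (v : Fin 2 → K) ∈ x.V ∧ (v : Fin 2 → K) ≠ 0 then
        Real.exp (-(Real.pi * (t * QQ s P x.L v))) else 0)) (fun v => ?_) one_pos
    (fun t v ht => ?_) ht₀
  · split_ifs
    · fun_prop
    · exact continuous_const
  · rw [mul_one]
    unfold qoT
    by_cases hv : (v : Fin 2 → K) = 0
    · rw [if_neg (fun h => h.2 hv), if_pos hv, norm_zero]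
    · rw [if_neg hv]
      split_ifs
      · rw [Real.norm_eq_abs, abs_of_pos (Real.exp_pos _)]
      · rw [norm_zero]
        exact (Real.exp_pos _).le

theorem qo_thD_cont (S : IQ s) (P : H3) (x : Pt n) {t₀ : ℝ} (ht₀ : 0 < t₀) :
    ContinuousAt (fun t => thD s t P x) t₀ := by
  have hD := qo_dk K
  have hN : 0 < nI n := HSG.nI_pos n
  have e : (fun t => thD s t P x) = fun t => ∑' l : (dua n x.L).M, qoD s t P x l := by
    funext t
    refine Eq.trans rfl (qo_tsum (dua n x.L) (qoD s t P x) ?_)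
    intro v hv
    unfold qoD
    exact if_neg fun h => hv h.1
  rw [e]
  refine qo_contT S P (dua n x.L) (fun t l => qoD s t P x l) (fun l => ?_)
    (b := 4 / (Dk K * nI n)) (by positivity) (fun t l ht => le_of_eq (qoD_norm s t P x l)) ht₀
  unfold qoD
  split_ifs
  · fun_prop
  · exact continuous_const

theorem it_cont (S : IQ s) (had : Ad q ν) (had' : Ad q ν') (hn : IsInt n) (W : WG s)
    (hF : IForm s q ν n om F) (hF' : IForm s q ν' n om' F') :
    ContinuousOn (It W F F') (Set.Ioi 0) ∧ ContinuousOn (Rt W F F') (Set.Ioi 0) := by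
  have hfin : IsFiniteMeasure (mW W n) := mW_fin hn
  have hm1 : ∀ t : ℝ, Measurable (fun y : H3 × Pt n => ip F F' y.1 y.2 *
      ((th s t y.1 y.2 : ℝ) : ℂ)) := by
    intro t
    refine measurable_from_prod_countable_left fun x => ?_
    exact (qo_ip_meas S had had' hn hF hF' x).mul
      (Complex.measurable_ofReal.comp (qo_th_meas s t x))
  have hm2 : ∀ t : ℝ, Measurable (fun y : H3 × Pt n => ip F F' y.1 y.2 * thD s t y.1 y.2) := by
    intro t
    refine measurable_from_prod_countable_left fun x => ?_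
    exact (qo_ip_meas S had had' hn hF hF' x).mul (qo_thD_meas s t x)
  have hpt : ∀ t₀ : ℝ, 0 < t₀ → ContinuousAt (It W F F') t₀ ∧ ContinuousAt (Rt W F F') t₀ := by
    intro t₀ ht₀
    obtain ⟨C, hC, h⟩ := qo_bd S had had' hn hF hF' 0 (t₁ := t₀ / 2) (by positivity)
    have hev : ∀ᶠ t in 𝓝 t₀, t₀ / 2 < t := Ioi_mem_nhds (by linarith)
    have hC0 : Integrable (fun _ : H3 × Pt n => C) (mW W n) := integrable_const C
    have hbd : ∀ t : ℝ, t₀ / 2 < t → ∀ (P : H3) (x : Pt n),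
        ‖ip F F' P x * ((th s t P x : ℝ) : ℂ)‖ ≤ C ∧ ‖ip F F' P x * thD s t P x‖ ≤ C := by
      intro t ht P x
      have h1 := h (t / (t₀ / 2)) P x (by
        rw [one_le_div (by positivity)]
        exact ht.le)
      rw [div_mul_cancel₀ _ (by positivity : t₀ / 2 ≠ 0), pow_zero, inv_one, mul_one] at h1
      exact h1
    constructor
    · unfold It
      refine continuousAt_of_dominated (bound := fun _ => C)
        (Eventually.of_forall fun t => (hm1 t).aestronglyMeasurable) ?_ hC0 ?_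
      · filter_upwards [hev] with t ht
        exact Eventually.of_forall fun y => (hbd t ht y.1 y.2).1
      · refine Eventually.of_forall fun y => ?_
        exact continuousAt_const.mul
          (Complex.continuous_ofReal.continuousAt.comp (qo_th_cont S hn y.1 y.2 ht₀))
    · unfold Rt
      refine continuousAt_of_dominated (bound := fun _ => C)
        (Eventually.of_forall fun t => (hm2 t).aestronglyMeasurable) ?_ hC0 ?_
      · filter_upwards [hev] with t ht
        exact Eventually.of_forall fun y => (hbd t ht y.1 y.2).2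
      · refine Eventually.of_forall fun y => ?_
        exact continuousAt_const.mul (qo_thD_cont S y.1 y.2 ht₀)
  exact ⟨fun t ht => (hpt t ht).1.continuousWithinAt, fun t ht => (hpt t ht).2.continuousWithinAt⟩

end forms


end Pool.Agent.HI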