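import Pool.Agent.Lib_helper25.HIF.DX
import Pool.Agent.Lib_helper25.HIF.QA
import Pool.Agent.Lib_helper25.HIF.QC
import Pool.Agent.Lib_helper25.HIF.QD
import Pool.Agent.Lib_helper25.HIF.QE
import Pool.Agent.Lib_helper25.HIF.QF
import Pool.Agent.Lib_helper25.HIF.QI

/-! HI, block QP: the functional equation of `I(t)` -/

namespace Pool.Agent.HI
open NumberField Complex MeasureTheory IsDedekindDomain Filter Topology
open scoped nonZeroDivisors MatrixGroups ENNReal
open Pool.Agent.HB (H3 mu Kb mk3)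
open Pool.Agent.HSG (Lat Pr IsInt nI prI DD nm wm dgm dt qP NCl)
open Pool.Agent.HSG.LV (Pt Sc Cp sS ptS dua)

variable {K : Type} [Field K] [NumberField K] {s : K →+* ℂ}

theorem qp_sm_le {n : HSG.Id K} (hn : IsInt n) (L : Lat K) : (L.sm n).M ≤ L.M := by
  show n.m • L.M ≤ L.M
  rw [Submodule.smul_le]
  intro r hr v hv
  obtain ⟨y, rfl⟩ := (HSG.mem_m_one r).1 ((HSG.isInt_iff n).1 hn hr)
  exact L.M.smul_mem y hv

theorem qp_sm_one (L : Lat K) : L.sm (1 : HSG.Id K) = L := by
  apply HSG.Lat.ext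
  apply le_antisymm (qp_sm_le HSG.isInt_one L)
  intro v hv
  have h : (1 : K) ∈ (1 : HSG.Id K).m := (HSG.mem_m_one 1).2 ⟨1, by simp⟩
  have := Submodule.smul_mem_smul h hv
  rwa [one_smul] at this

/-- the full theta series converges -/
theorem qp_sum (S : IQ s) (P : H3) (L : Lat K) {t : ℝ} (ht : 0 < t) :
    Summable (fun v : L.M => Real.exp (-(Real.pi * (t * QQ s P L v)))) := by
  have h := (theta_poisson S (n := 1) HSG.isInt_one P L (v := 0) L.M.zero_mem ht).1
  simp only [zero_add] at h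
  have h2 : ∀ L' : Lat K, L' = L →
      Summable (fun x : L'.M => Real.exp (-(Real.pi * (t * QQ s P L x)))) →
      Summable (fun v : L.M => Real.exp (-(Real.pi * (t * QQ s P L v)))) := by
    rintro L' rfl h3
    exact h3
  exact h2 _ (qp_sm_one L) h

/-- the minimum of the form on the nonzero vectors of the lattice is attained -/
theorem qp_min (S : IQ s) (P : H3) (L : Lat K) (hne : ∃ v ∈ L.M, v ≠ 0) :
    ∃ v ∈ L.M, v ≠ 0 ∧ ∀ w ∈ L.M, w ≠ 0 → QQ s P L v ≤ QQ s P L w := by
  obtain ⟨v₁, hv₁, hv₁0⟩ := hne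
  have hs := qp_sum S P L one_pos
  have hfin : {v : L.M | ¬ Real.exp (-(Real.pi * (1 * QQ s P L v))) <
      Real.exp (-(Real.pi * (1 * QQ s P L v₁)))}.Finite := by
    have h := hs.tendsto_cofinite_zero.eventually_lt_const
      (Real.exp_pos (-(Real.pi * (1 * QQ s P L v₁))))
    exact h
  have hT : {v : L.M | (v : Fin 2 → K) ≠ 0 ∧ QQ s P L v ≤ QQ s P L v₁}.Finite := by
    apply hfin.subset
    rintro v ⟨_, hv⟩
    show ¬ _
    rw [not_lt]
    apply Real.exp_le_exp.2
    have := Real.pi_pos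
    nlinarith
  obtain ⟨v, ⟨hv0, hv1⟩, hmin⟩ := Set.exists_min_image _ (fun v : L.M => QQ s P L v) hT
    ⟨⟨v₁, hv₁⟩, hv₁0, le_refl _⟩
  refine ⟨v, v.2, hv0, fun w hw hw0 => ?_⟩
  by_cases h : QQ s P L w ≤ QQ s P L v₁
  · exact hmin ⟨w, hw⟩ ⟨hw0, h⟩
  · exact hv1.trans (not_le.1 h).le

/-- the theta series of the coset is at most the full theta series -/
theorem qp_th_le (S : IQ s) {n : HSG.Id K} (hn : IsInt n) (P : H3) (x : Pt n) {t : ℝ}
    (ht : 0 < t) : 0 ≤ th s t P x ∧
      th s t P x ≤ ∑' v : x.L.M, Real.exp (-(Real.pi * (t * QQ s P x.L v))) := by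
  classical
  have hV : x.V ⊆ (x.L.M : Set (Fin 2 → K)) := by
    obtain ⟨v, hv, hV⟩ := x.ex
    rw [hV]
    intro u hu
    have h1 : u - v ∈ x.L.M := qp_sm_le hn x.L hu
    have := x.L.M.add_mem h1 hv.1
    simpa using this
  have hsum := qp_sum S P x.L ht
  constructor
  · unfold th
    apply tsum_nonneg
    intro v
    split_ifs
    · exact (Real.exp_pos _).le
    · exact le_refl _
  · unfold th
    have h1 : (∑' v : x.L.M, Real.exp (-(Real.pi * (t * QQ s P x.L v)))) =
        ∑' v : Fin 2 → K, (x.L.M : Set (Fin 2 → K)).indicator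
          (fun v => Real.exp (-(Real.pi * (t * QQ s P x.L v)))) v :=
      tsum_subtype (x.L.M : Set (Fin 2 → K)) (fun v => Real.exp (-(Real.pi * (t * QQ s P x.L v))))
    have h2 : Summable ((x.L.M : Set (Fin 2 → K)).indicator
          (fun v => Real.exp (-(Real.pi * (t * QQ s P x.L v))))) :=
      (summable_subtype_iff_indicator (s := (x.L.M : Set (Fin 2 → K)))).1 hsum
    rw [h1]
    have hle : ∀ v, (if v ∈ x.V ∧ v ≠ 0 then Real.exp (-(Real.pi * (t * QQ s P x.L v))) else 0) ≤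
        (x.L.M : Set (Fin 2 → K)).indicator
          (fun v => Real.exp (-(Real.pi * (t * QQ s P x.L v)))) v := by
      intro v
      by_cases hv : v ∈ x.V ∧ v ≠ 0
      · rw [if_pos hv, Set.indicator_of_mem (hV hv.1)]
      · rw [if_neg hv]
        exact Set.indicator_nonneg (fun _ _ => (Real.exp_pos _).le) _
    refine Summable.tsum_le_tsum hle (Summable.of_nonneg_of_le (fun v => ?_) hle h2) h2
    split_ifs
    · exact (Real.exp_pos _).le
    · exact le_refl _

theorem qp_exp {c x : ℝ} (hc : 0 < c) (hx : 0 ≤ x) :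
    Real.exp (-(c * x)) * (1 + x) ^ 4 ≤ (1 + 4 / c) ^ 4 := by
  have h1 : 1 + x ≤ (1 + 4 / c) * Real.exp (c * x / 4) := by
    have h2 : c * x / 4 + 1 ≤ Real.exp (c * x / 4) := Real.add_one_le_exp _
    have h3 : (1 + 4 / c) * (c * x / 4 + 1) ≤ (1 + 4 / c) * Real.exp (c * x / 4) :=
      mul_le_mul_of_nonneg_left h2 (by positivity)
    refine le_trans ?_ h3
    have h4 : (1 + 4 / c) * (c * x / 4 + 1) = c * x / 4 + 1 + x + 4 / c := by
      field_simp
      ring
    rw [h4]
    have : 0 ≤ c * x / 4 := by positivity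
    have : 0 ≤ 4 / c := by positivity
    linarith
  have h5 : (1 + x) ^ 4 ≤ ((1 + 4 / c) * Real.exp (c * x / 4)) ^ 4 :=
    pow_le_pow_left₀ (by positivity) h1 4
  have h6 : ((1 + 4 / c) * Real.exp (c * x / 4)) ^ 4 = (1 + 4 / c) ^ 4 * Real.exp (c * x) := by
    rw [mul_pow, ← Real.exp_nat_mul]
    congr 2
    push_cast
    ring
  calc Real.exp (-(c * x)) * (1 + x) ^ 4
      ≤ Real.exp (-(c * x)) * ((1 + 4 / c) ^ 4 * Real.exp (c * x)) := by
        rw [← h6]
        exact mul_le_mul_of_nonneg_left h5 (Real.exp_pos _).le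
    _ = (1 + 4 / c) ^ 4 := by
        rw [mul_comm ((1 + 4 / c) ^ 4), ← mul_assoc, ← Real.exp_add]
        simp

section forms

variable {q : ℕ} {ν ν' : ℂ} {n : HSG.Id K} {om om' : HSG.Id K → ℂ}
  {F F' : ℂ × ℝ → ℂ × ℂ → Pt n → ℂ}

/-- the product of the inner product and the theta series is bounded -/
theorem qp_bd (S : IQ s) (had : Ad q ν) (had' : Ad q ν') (hn : IsInt n)
    (hF : IForm s q ν n om F) (hF' : IForm s q ν' n om' F') {t : ℝ} (ht : 0 < t) :
    ∃ C : ℝ, ∀ (P : H3) (x : Pt n), ‖ip F F' P x * ((th s t P x : ℝ) : ℂ)‖ ≤ C := by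
  obtain ⟨C, c, hC, hc, hd⟩ := ip_decay S had had' hn hF hF'
  set T : ℝ := max t 1 with hT
  have hTt : t ≤ T := le_max_left _ _
  have hT1 : 1 ≤ T := le_max_right _ _
  refine ⟨C * ((T / t) ^ 2 * (2 * (1 + 4 / c) ^ 4)), fun P x => ?_⟩
  obtain ⟨h0, h1⟩ := qp_th_le S hn P x ht
  rw [norm_mul, Complex.norm_real, Real.norm_of_nonneg h0]
  by_cases hne : ∃ v ∈ x.L.M, v ≠ 0
  · obtain ⟨v, hv, hv0, hmin⟩ := qp_min S P x.L hne
    have hδ : 0 < QQ s P x.L v := qq_pos s P x.L hv0
    have hip := (hd P x v hv hv0).1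
    have h2 := th_scale S P x.L ht hTt
    have h3 : ∑' v : x.L.M, Real.exp (-(Real.pi * (T * QQ s P x.L v))) ≤
        ∑' v : x.L.M, Real.exp (-(Real.pi * (1 * QQ s P x.L v))) := by
      refine Summable.tsum_le_tsum (fun w => ?_) (qp_sum S P x.L (by linarith))
        (qp_sum S P x.L one_pos)
      apply Real.exp_le_exp.2
      have hw : 0 ≤ QQ s P x.L w := by
        unfold QQ
        have := P.2
        have := normSq_nonneg (s ((w : Fin 2 → K) 0) * P.1.1 + s ((w : Fin 2 → K) 1))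
        have := normSq_nonneg (s ((w : Fin 2 → K) 0))
        positivity
      have := Real.pi_pos
      have h4 : 1 * QQ s P x.L w ≤ T * QQ s P x.L w := mul_le_mul_of_nonneg_right hT1 hw
      nlinarith
    have h4 := th_le S P x.L hδ hmin
    simp only [one_mul] at h3
    have h5 : th s t P x ≤ (T / t) ^ 2 * (2 * (1 + 1 / QQ s P x.L v) ^ 4) :=
      h1.trans (h2.trans (mul_le_mul_of_nonneg_left (h3.trans h4) (by positivity)))
    have h6 := qp_exp hc (x := 1 / QQ s P x.L v) (by positivity)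
    rw [show c * (1 / QQ s P x.L v) = c / QQ s P x.L v by ring] at h6
    calc ‖ip F F' P x‖ * th s t P x
        ≤ (C * Real.exp (-(c / QQ s P x.L v))) *
            ((T / t) ^ 2 * (2 * (1 + 1 / QQ s P x.L v) ^ 4)) :=
          mul_le_mul hip h5 h0 (by positivity)
      _ = C * ((T / t) ^ 2 * (2 * (Real.exp (-(c / QQ s P x.L v)) *
            (1 + 1 / QQ s P x.L v) ^ 4))) := by ring
      _ ≤ C * ((T / t) ^ 2 * (2 * (1 + 4 / c) ^ 4)) := by gcongr
  · push Not at hne
    have h7 : th s t P x = 0 := by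
      classical
      unfold th
      have : ∀ v, (if v ∈ x.V ∧ v ≠ 0 then Real.exp (-(Real.pi * (t * QQ s P x.L v))) else 0) =
          0 := by
        intro v
        rw [if_neg]
        rintro ⟨hv, hv0⟩
        obtain ⟨w, hw, hV⟩ := x.ex
        rw [hV] at hv
        have h8 : v - w ∈ x.L.M := qp_sm_le hn x.L hv
        have h9 := x.L.M.add_mem h8 hw.1
        rw [sub_add_cancel] at h9
        exact hv0 (hne v h9)
      simp only [this, tsum_zero]
    rw [h7, mul_zero]
    positivity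

theorem qp_th_meas (t : ℝ) (x : Pt n) : Measurable (fun P : H3 => th s t P x) := by
  classical
  have := HSG.countK K
  have h1 : (fun P : H3 => th s t P x) = fun P => (∑' v : Fin 2 → K,
      (if v ∈ x.V ∧ v ≠ 0 then ENNReal.ofReal (Real.exp (-(Real.pi * (t * QQ s P x.L v))))
        else 0)).toReal := by
    funext P
    rw [ENNReal.tsum_toReal_eq]
    · unfold th
      congr 1
      funext v
      split_ifs
      · rw [ENNReal.toReal_ofReal (Real.exp_pos _).le]
      · simp
    · intro v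
      split_ifs
      · exact ENNReal.ofReal_ne_top
      · exact ENNReal.zero_ne_top
  rw [h1]
  apply Measurable.ennreal_toReal
  apply Measurable.tsum
  intro v
  split_ifs
  · apply ENNReal.measurable_ofReal.comp
    have h2 := qq_cont s x.L v
    exact (Real.continuous_exp.comp (continuous_const.mul (continuous_const.mul h2)).neg).measurable
  · exact measurable_const

theorem qp_ip_meas (S : IQ s) (had : Ad q ν) (had' : Ad q ν') (hn : IsInt n)
    (hF : IForm s q ν n om F) (hF' : IForm s q ν' n om' F') :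
    Measurable (fun y : H3 × Pt n => ip F F' y.1 y.2) :=
  measurable_from_prod_countable_left fun x => (ip_cont S had had' hn hF hF' x).measurable

/-- integrability of `ip` -/
theorem qp_int0 (S : IQ s) (had : Ad q ν) (had' : Ad q ν') (hn : IsInt n) (W : WG s)
    (hF : IForm s q ν n om F) (hF' : IForm s q ν' n om' F') :
    Integrable (fun y : H3 × Pt n => ip F F' y.1 y.2) (mW W n) := by
  have := mW_fin (W := W) hn
  obtain ⟨C, _, hC⟩ := ip_bd S hn hF hF'
  exact Integrable.of_bound (qp_ip_meas S had had' hn hF hF').aestronglyMeasurable C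
    (ae_of_all _ fun y => hC y.1 y.2)

/-- integrability of `ip θ_t` -/
theorem qp_int1 (S : IQ s) (had : Ad q ν) (had' : Ad q ν') (hn : IsInt n) (W : WG s)
    (hF : IForm s q ν n om F) (hF' : IForm s q ν' n om' F') {t : ℝ} (ht : 0 < t) :
    Integrable (fun y : H3 × Pt n => ip F F' y.1 y.2 * ((th s t y.1 y.2 : ℝ) : ℂ)) (mW W n) := by
  have := mW_fin (W := W) hn
  obtain ⟨C, hC⟩ := qp_bd S had had' hn hF hF' ht
  refine Integrable.of_bound (Measurable.aestronglyMeasurable ?_) C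
    (ae_of_all _ fun y => hC y.1 y.2)
  refine (qp_ip_meas S had had' hn hF hF').mul (Complex.measurable_ofReal.comp ?_)
  exact measurable_from_prod_countable_left fun x => qp_th_meas t x

theorem it_fe (S : IQ s) (had : Ad q ν) (had' : Ad q ν') (hn : IsInt n) (W : WG s)
    (hF : IForm s q ν n om F) (hF' : IForm s q ν' n om' F') {t : ℝ} (ht : 0 < t) :
    It W F F' t + (open scoped Classical in if n = 1 then J0 W F F' else 0) =
      ((4 / (t ^ 2 * Dk K * nI n ^ 2) : ℝ) : ℂ) * (J0 W F F' + Rt W F F' t⁻¹) := by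
  classical
  set ρ : ℂ := ((4 / (t ^ 2 * Dk K * nI n ^ 2) : ℝ) : ℂ) with hρ
  have hρ0 : ρ ≠ 0 := by
    rw [hρ, Complex.ofReal_ne_zero]
    have h1 : 0 < Dk K := by
      unfold Dk
      have : (discr K : ℝ) ≠ 0 := by exact_mod_cast discr_ne_zero K
      positivity
    have h2 := HSG.nI_pos n
    positivity
  set e : ℂ := if n = 1 then 1 else 0 with he
  have i0 := qp_int0 S had had' hn W hF hF'
  have i1 := qp_int1 S had had' hn W hF hF' ht
  have hfe : ∀ y : H3 × Pt n, ((th s t y.1 y.2 : ℝ) : ℂ) + e = ρ * (1 + thD s t⁻¹ y.1 y.2) :=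
    fun y => th_fe S hn y.1 y.2 ht
  have h3 : ∀ y : H3 × Pt n, ip F F' y.1 y.2 * thD s t⁻¹ y.1 y.2 =
      ρ⁻¹ * (ip F F' y.1 y.2 * ((th s t y.1 y.2 : ℝ) : ℂ) + ip F F' y.1 y.2 * e) -
        ip F F' y.1 y.2 := by
    intro y
    have h4 : thD s t⁻¹ y.1 y.2 = ρ⁻¹ * (((th s t y.1 y.2 : ℝ) : ℂ) + e) - 1 := by
      rw [hfe y, ← mul_assoc, inv_mul_cancel₀ hρ0]
      ring
    rw [h4]
    ring
  have h5 : Rt W F F' t⁻¹ = ρ⁻¹ * (It W F F' t + J0 W F F' * e) - J0 W F F' := by
    unfold Rt It J0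
    simp_rw [h3]
    have i3 : Integrable (fun y : H3 × Pt n => ip F F' y.1 y.2 * ((th s t y.1 y.2 : ℝ) : ℂ) +
        ip F F' y.1 y.2 * e) (mW W n) := i1.add (i0.mul_const e)
    have i2 : Integrable (fun y : H3 × Pt n => ρ⁻¹ * (ip F F' y.1 y.2 *
        ((th s t y.1 y.2 : ℝ) : ℂ) + ip F F' y.1 y.2 * e)) (mW W n) := i3.const_mul ρ⁻¹
    rw [integral_sub i2 i0, integral_const_mul, integral_add i1 (i0.mul_const e),
      integral_mul_const]
  rw [h5]
  have h6 : (if n = 1 then J0 W F F' else 0) = J0 W F F' * e := by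
    rw [he]
    split_ifs <;> simp
  rw [h6]
  field_simp
  ring

end forms

end Pool.Agent.HI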