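import Pool.Agent.Lib_helper25.HIF.DX
import Pool.Agent.Lib_helper25.HIF.KB
import Pool.Agent.Lib_helper25.HIF.QI
import Pool.Agent.Lib_helper25.HIF.QN
import Pool.Agent.Lib_helper25.HIF.QO
import Pool.Agent.Lib_helper25.HIF.QP

/-!
# Project HI, block QR: the continuation
-/

namespace Pool.Agent.HI
open NumberField Complex MeasureTheory IsDedekindDomain Filter Topology
open scoped nonZeroDivisors MatrixGroups ENNReal
open Pool.Agent.HB (H3 mu Kb mk3)
open Pool.Agent.HSG (Lat Pr IsInt nI prI DD nm wm dgm dt qP NCl)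
open Pool.Agent.HSG.LV (Pt Sc Cp sS ptS dua)

variable {K : Type} [Field K] [NumberField K] {s : K →+* ℂ}
variable {q : ℕ} {ν ν' : ℂ} {n : HSG.Id K} {om om' : HSG.Id K → ℂ}
  {F F' : ℂ × ℝ → ℂ × ℂ → Pt n → ℂ}

/-- rapid decay -/
theorem qr_O {f : ℝ → ℂ} (h : ∀ k : ℕ, ∃ C : ℝ, ∀ t : ℝ, 1 ≤ t → ‖f t‖ ≤ C * (t ^ k)⁻¹) (r : ℝ) :
    f =O[atTop] (fun t : ℝ => t ^ r) := by
  obtain ⟨k, hk⟩ := exists_nat_ge (-r)
  obtain ⟨C, hC⟩ := h k
  refine Asymptotics.IsBigO.of_bound |C| ?_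
  filter_upwards [eventually_ge_atTop (1 : ℝ)] with t ht
  have ht0 : 0 < t := lt_of_lt_of_le one_pos ht
  rw [Real.norm_eq_abs, abs_of_nonneg (Real.rpow_nonneg ht0.le _)]
  refine (hC t ht).trans (mul_le_mul (le_abs_self C) ?_ (by positivity) (abs_nonneg _))
  rw [← Real.rpow_natCast, ← Real.rpow_neg ht0.le]
  exact Real.rpow_le_rpow_of_exponent_le ht (by linarith)

theorem qr_dk (K : Type) [Field K] [NumberField K] : 0 < Dk K := by
  unfold Dk
  exact abs_pos.2 (Int.cast_ne_zero.2 (NumberField.discr_ne_zero K))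

/-- the inverse of the archimedean factor -/
noncomputable def qrG (q : ℕ) (ν ν' w : ℂ) : ℂ :=
  (Gamma (w + (ν + (starRingEnd ℂ) ν') / 2))⁻¹ * (Gamma (w - (ν + (starRingEnd ℂ) ν') / 2))⁻¹ *
    ((Gamma (w + q + (ν - (starRingEnd ℂ) ν') / 2))⁻¹ *
      (Gamma (w + q - (ν - (starRingEnd ℂ) ν') / 2))⁻¹)

theorem qr_diff (q : ℕ) (ν ν' : ℂ) : Differentiable ℂ (qrG q ν ν') := by
  have h : ∀ a : ℂ, Differentiable ℂ (fun w : ℂ => (Gamma (w + a))⁻¹) := fun a =>
    Complex.differentiable_one_div_Gamma.comp (differentiable_id.add_const a)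
  have h1 := h ((ν + (starRingEnd ℂ) ν') / 2)
  have h2 := h (-((ν + (starRingEnd ℂ) ν') / 2))
  have h3 := h (q + (ν - (starRingEnd ℂ) ν') / 2)
  have h4 := h (q - (ν - (starRingEnd ℂ) ν') / 2)
  have e : qrG q ν ν' = fun w => (Gamma (w + (ν + (starRingEnd ℂ) ν') / 2))⁻¹ *
      (Gamma (w + -((ν + (starRingEnd ℂ) ν') / 2)))⁻¹ *
      ((Gamma (w + (q + (ν - (starRingEnd ℂ) ν') / 2)))⁻¹ *
      (Gamma (w + (q - (ν - (starRingEnd ℂ) ν') / 2)))⁻¹) := by
    funext w
    unfold qrG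
    congr 3
    · congr 1
      ring
    · congr 1
      ring
  rw [e]
  exact (h1.mul h2).mul (h3.mul h4)

theorem qr_inv (had : Ad q ν) (had' : Ad q ν') {w : ℂ} (hw : 3 < w.re) :
    qrG q ν ν' w * Gw q ν ν' w = 1 := by
  have h1 := abs_lt.1 (ad_re had)
  have h2 := abs_lt.1 (ad_re had')
  have hq : (0 : ℝ) ≤ q := Nat.cast_nonneg q
  have e1 : ((ν + (starRingEnd ℂ) ν') / 2).re = (ν.re + ν'.re) / 2 := by
    rw [show (2 : ℂ) = ((2 : ℝ) : ℂ) by norm_num, Complex.div_ofReal_re]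
    simp
  have e2 : ((ν - (starRingEnd ℂ) ν') / 2).re = (ν.re - ν'.re) / 2 := by
    rw [show (2 : ℂ) = ((2 : ℝ) : ℂ) by norm_num, Complex.div_ofReal_re]
    simp
  have g1 : Gamma (w + (ν + (starRingEnd ℂ) ν') / 2) ≠ 0 := by
    apply Complex.Gamma_ne_zero_of_re_pos
    rw [Complex.add_re, e1]
    linarith
  have g2 : Gamma (w - (ν + (starRingEnd ℂ) ν') / 2) ≠ 0 := by
    apply Complex.Gamma_ne_zero_of_re_pos
    rw [Complex.sub_re, e1]
    linarith
  have g3 : Gamma (w + q + (ν - (starRingEnd ℂ) ν') / 2) ≠ 0 := by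
    apply Complex.Gamma_ne_zero_of_re_pos
    rw [Complex.add_re, Complex.add_re, e2, Complex.natCast_re]
    linarith
  have g4 : Gamma (w + q - (ν - (starRingEnd ℂ) ν') / 2) ≠ 0 := by
    apply Complex.Gamma_ne_zero_of_re_pos
    rw [Complex.sub_re, Complex.add_re, e2, Complex.natCast_re]
    linarith
  unfold qrG Gw
  generalize Gamma (w + (ν + (starRingEnd ℂ) ν') / 2) = a1 at *
  generalize Gamma (w - (ν + (starRingEnd ℂ) ν') / 2) = a2 at *
  generalize Gamma (w + q + (ν - (starRingEnd ℂ) ν') / 2) = a3 at *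
  generalize Gamma (w + q - (ν - (starRingEnd ℂ) ν') / 2) = a4 at *
  field_simp

theorem rs_main (S : IQ s) (had : Ad q ν) (had' : Ad q ν') (hn : IsInt n)
    (hF : IForm s q ν n om F) (hF' : IForm s q ν' n om' F') (hu : ∀ a, Cp n a → ‖om a‖ = 1)
    (hu' : ∀ a, Cp n a → ‖om' a‖ = 1) {A A' : HSG.Id K → ℂ}
    (hA : ICoS s q ν F A) (hA' : ICoS s q ν' F' A') :
    ∃ (E : ℂ → ℂ) (X : ℝ), Differentiable ℂ E ∧ ∀ w : ℂ, X < w.re →
      E w = w * (w - 1) * ((open scoped Classical in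
          ∑' g : HSG.Id K, if Cp n g then om g * (starRingEnd ℂ) (om' g) *
            ((nI g : ℝ) : ℂ) ^ (-(2 * w)) else 0) *
          ∑' m : HSG.Id K, A m * (starRingEnd ℂ) (A' m) * ((nI m : ℝ) : ℂ) ^ (1 - w)) := by
  obtain ⟨W⟩ := wg_exists S
  obtain ⟨κ₀, Q, hκ, hQ, hM⟩ := it_mellin S had had' hn W hF hF' hu hu' hA hA'
  have hdec := it_decay S had had' hn W hF hF'
  obtain ⟨hc1, hc2⟩ := it_cont S had had' hn W hF hF'
  have hD := qr_dk K
  have hN : 0 < nI n := HSG.nI_pos n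
  set δ : ℂ := (open scoped Classical in if n = 1 then J0 W F F' else 0) with hδ
  have hfe : ∀ t : ℝ, 0 < t → It W F F' t + δ =
      ((4 / (t ^ 2 * Dk K * nI n ^ 2) : ℝ) : ℂ) * (J0 W F F' + Rt W F F' t⁻¹) :=
    fun t ht => it_fe S had had' hn W hF hF' ht
  let P : WeakFEPair ℂ :=
    { f := fun t => It W F F' t + δ
      g := fun t => J0 W F F' + Rt W F F' t
      k := 2
      ε := ((4 / (Dk K * nI n ^ 2) : ℝ) : ℂ)
      f₀ := δ
      g₀ := J0 W F F'
      hf_int := (hc1.add continuousOn_const).locallyIntegrableOn measurableSet_Ioi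
      hg_int := (continuousOn_const.add hc2).locallyIntegrableOn measurableSet_Ioi
      hk := by norm_num
      hε := by
        have : (4 / (Dk K * nI n ^ 2) : ℝ) ≠ 0 := by positivity
        exact Complex.ofReal_ne_zero.2 this
      h_feq := by
        intro x hx
        have hx' : (0 : ℝ) < x := hx
        rw [hfe (1 / x) (by positivity), smul_eq_mul]
        have e1 : (1 / x)⁻¹ = x := by simp
        have e2 : ((4 / ((1 / x) ^ 2 * Dk K * nI n ^ 2) : ℝ) : ℂ) =
            ((4 / (Dk K * nI n ^ 2) : ℝ) : ℂ) * ((x ^ (2 : ℝ) : ℝ) : ℂ) := by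
          rw [← Complex.ofReal_mul]
          congr 1
          rw [Real.rpow_two]
          field_simp
        rw [e1, e2]
      hf_top := by
        intro r
        have := qr_O (f := fun t => It W F F' t)
          (fun k => (hdec k).imp fun C hC t ht => (hC t ht).1) r
        refine this.congr_left fun t => ?_
        simp
      hg_top := by
        intro r
        have := qr_O (f := fun t => Rt W F F' t)
          (fun k => (hdec k).imp fun C hC t ht => (hC t ht).2) r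
        refine this.congr_left fun t => ?_
        simp }
  refine ⟨fun w => (w * (w - 1) * P.Λ₀ (2 * w) - (w - 1) / 2 * P.f₀ + w / 2 * (P.ε * P.g₀)) *
    (κ₀⁻¹ * (Q : ℂ) ^ (-w) * qrG q ν ν' w), 3, ?_, fun w hw => ?_⟩
  · have h1 : Differentiable ℂ (fun w : ℂ => P.Λ₀ (2 * w)) :=
      P.differentiable_Λ₀.comp (differentiable_id.const_mul 2)
    have h2 : Differentiable ℂ (fun w : ℂ => (Q : ℂ) ^ (-w)) := by
      intro w
      exact (differentiableAt_id.neg).const_cpow (Or.inl (Complex.ofReal_ne_zero.2 hQ.ne'))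
    have h3 := qr_diff q ν ν'
    fun_prop
  · obtain ⟨-, h2⟩ := hM w hw
    have hm := (P.hasMellin (s := 2 * w) (by
      have : P.k = 2 := rfl
      rw [this, show (2 * w : ℂ) = ((2 : ℝ) : ℂ) * w by norm_num, Complex.re_ofReal_mul]
      linarith)).2
    have hm' : ∫ t in Set.Ioi (0 : ℝ), (t : ℂ) ^ (2 * w - 1) * It W F F' t = P.Λ (2 * w) := by
      rw [← hm]
      unfold mellin
      refine setIntegral_congr_fun measurableSet_Ioi fun t _ => ?_
      simp only [smul_eq_mul]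
      congr 1
      exact (add_sub_cancel_right _ _).symm
    rw [hm'] at h2
    have hw0 : w ≠ 0 := by
      intro h
      rw [h, Complex.zero_re] at hw
      linarith
    have hw1 : w - 1 ≠ 0 := by
      intro h
      have : w = 1 := by linear_combination h
      rw [this, Complex.one_re] at hw
      linarith
    have hΛ : w * (w - 1) * P.Λ (2 * w) =
        w * (w - 1) * P.Λ₀ (2 * w) - (w - 1) / 2 * P.f₀ + w / 2 * (P.ε * P.g₀) := by
      have e : P.Λ (2 * w) = P.Λ₀ (2 * w) - (1 / (2 * w)) • P.f₀ -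
          (P.ε / ((P.k : ℂ) - 2 * w)) • P.g₀ := rfl
      have ek : (P.k : ℂ) = 2 := by
        have : P.k = 2 := rfl
        rw [this]
        norm_num
      rw [e, ek, smul_eq_mul, smul_eq_mul]
      have hw2 : (2 : ℂ) - 2 * w ≠ 0 := by
        intro h
        apply hw1
        linear_combination (-1 / 2) * h
      have e3 : P.ε / (2 - 2 * w) = -(P.ε / (2 * (w - 1))) := by
        rw [← neg_div_neg_eq, ← neg_div]
        congr 1
        ring
      rw [e3]
      field_simp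
      ring
    have hQw : (Q : ℂ) ^ (-w) * (Q : ℂ) ^ w = 1 := by
      rw [← Complex.cpow_add _ _ (Complex.ofReal_ne_zero.2 hQ.ne'), neg_add_cancel,
        Complex.cpow_zero]
    have hG := qr_inv had had' hw
    beta_reduce
    rw [← hΛ, h2]
    set D : ℂ := ((open scoped Classical in
          ∑' g : HSG.Id K, if Cp n g then om g * (starRingEnd ℂ) (om' g) *
            ((nI g : ℝ) : ℂ) ^ (-(2 * w)) else 0) *
          ∑' m : HSG.Id K, A m * (starRingEnd ℂ) (A' m) * ((nI m : ℝ) : ℂ) ^ (1 - w)) with hDD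
    calc w * (w - 1) * (κ₀ * (Q : ℂ) ^ w * Gw q ν ν' w * D) *
          (κ₀⁻¹ * (Q : ℂ) ^ (-w) * qrG q ν ν' w) =
        w * (w - 1) * D * (κ₀ * κ₀⁻¹) * ((Q : ℂ) ^ (-w) * (Q : ℂ) ^ w) *
          (qrG q ν ν' w * Gw q ν ν' w) := by ring
      _ = w * (w - 1) * D := by rw [mul_inv_cancel₀ hκ, hQw, hG]; ring


end Pool.Agent.HI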