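import Pool.Agent.Lib_helper25.HIF.DX
import Pool.Agent.Lib_helper25.HIF.AL
import Pool.Agent.Lib_helper25.HIF.AT
import Pool.Agent.Lib_helper25.HIF.AU
import Pool.Agent.Lib_helper25.HIF.ED
import Pool.Agent.Lib_helper25.HIF.EE
import Pool.Agent.Lib_helper25.HIF.Fa
import Pool.Agent.Lib_helper25.HIF.QR
import Pool.Agent.Lib_helper84.NEF.NA
import Pool.Agent.Lib_helper84.LVF.LK1
import Pool.Agent.Lib_helper84.LVF.LA
import Pool.Agent.Lib_helper84.NEF.NJ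
import Pool.Agent.Lib_helper98.HNF.E6c
import Pool.Agent.Lib_helper98.HNF.F2
import Pool.Agent.Lib_helper98.HNF.F1
import Pool.Agent.Lib_helper98.HNF.A1
import Pool.Agent.Lib_helper84.HSGF.GA1
import Pool.Agent.Lib_helper84.HSGF.GA3

/-! # Project HI: the final assembly, the arithmetic input -/

namespace Pool.Agent.HI

open NumberField Complex MeasureTheory IsDedekindDomain Filter Topology
open scoped nonZeroDivisors MatrixGroups
open Pool.Agent.HSG (Lat Pr IsInt nI prI DD nm wm dgm dt qP NCl IsRepQ)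
open Pool.Agent.HSG.LV (Pt Tp Ts Sc Cp Dv Prim sS sZ ptS ptZ pI Res Gal gI gP wP omF lamF oA)
open Pool.Agent.H4 (NI PI blw ml FunBd)
open Pool.Agent.HNA (HekN aN)
open Pool.Agent.HSG.N (lamI idOf tO idT)

variable {K : Type} [Field K] [NumberField K] {s : K →+* ℂ}

/-- the coefficients in the normalisation of the Fourier expansion -/
noncomputable def nA (L : HSG.Id K → ℂ) (m : HSG.Id K) : ℂ :=
  L m * ((nI m ^ (-(1 / 2) : ℝ) : ℝ) : ℂ)

theorem nA_pow (L : HSG.Id K → ℂ) (m : HSG.Id K) (z : ℂ) :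
    nA L m * ((nI m : ℝ) : ℂ) ^ (1 / 2 - z) = L m * ((nI m : ℝ) : ℂ) ^ (-z) := by
  have h := HSG.nI_pos m
  have h0 : ((nI m : ℝ) : ℂ) ≠ 0 := by exact_mod_cast h.ne'
  rw [nA, Complex.ofReal_cpow h.le, mul_assoc, ← cpow_add _ _ h0]
  congr 2
  push_cast
  ring

theorem l_ser {L : HSG.Id K → ℂ} (hz : ∀ m, ¬ IsInt m → L m = 0) {x : ℝ}
    (hs : Summable (fun m : HSG.Id K => ‖L m * ((nI m : ℝ) : ℂ) ^ (-(x : ℂ))‖)) {z : ℂ}
    (hx : x ≤ z.re) :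
    LSeriesSummable (aN (lamI L)) z ∧
      LSeries (aN (lamI L)) z = ∑' m : HSG.Id K, L m * ((nI m : ℝ) : ℂ) ^ (-z) := by
  have e1 : ∀ (z : ℂ) (𝔞 : NI K), L (idOf 𝔞) * ((nI (idOf 𝔞) : ℝ) : ℂ) ^ (-z) =
      lamI L 𝔞.1 * (Ideal.absNorm 𝔞.1 : ℂ) ^ (-z) := by
    intro z 𝔞
    rw [HSG.N.idOf_nI, lamI, dif_pos 𝔞.2]
    norm_cast
  have h1 : Summable (fun 𝔞 : NI K => ‖lamI L 𝔞.1 * (Ideal.absNorm 𝔞.1 : ℂ) ^ (-(x : ℂ))‖) := by
    have h3 := hs.comp_injective (HSG.N.idOf_inj (K := K))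
    refine h3.congr fun 𝔞 => ?_
    show ‖L (idOf 𝔞) * ((nI (idOf 𝔞) : ℝ) : ℂ) ^ (-(x : ℂ))‖ = _
    rw [e1]
  obtain ⟨h4, h5⟩ := Pool.Agent.HNA.aN_series h1 z hx
  refine ⟨h4, ?_⟩
  rw [h5, HSG.N.id_tsum (fun m hm => by rw [hz m hm, zero_mul])]
  exact tsum_congr fun 𝔞 => (e1 z 𝔞).symm

theorem gI_gI {τ : K ≃+* K} (hτ : ∀ x, τ (τ x) = x) (a : HSG.Id K) : gI τ (gI τ a) = a := by
  have hs : ∀ x, τ.symm (τ.symm x) = x := fun x => by
    rw [RingEquiv.symm_apply_eq, RingEquiv.symm_apply_eq, hτ]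
  apply HSG.m_inj
  ext x
  rw [HSG.LV.mem_gI, HSG.LV.mem_gI, hs]

theorem cp_gI' {τ : K ≃+* K} (hτ : ∀ x, τ (τ x) = x) (n a : HSG.Id K) :
    Cp (gI τ n) a ↔ Cp n (gI τ a) := by
  rw [← HSG.LV.cp_gI τ n (gI τ a), gI_gI hτ]

theorem idT_gI (τ : K ≃+* K) (a : HSG.Id K) : idT τ a = gI τ a := rfl

section eig

variable {q : ℕ} {ν : ℂ} {n : HSG.Id K} {om : HSG.Id K → ℂ} {lam : Pr K → ℂ}
  {F : ℂ × ℝ → ℂ × ℂ → Pt n → ℂ}

theorem nA_bd {L : HSG.Id K → ℂ} (hb : ∃ C : ℝ, ∀ m, ‖nA L m‖ ≤ C) :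
    ∃ C : ℝ, ∀ m, ‖L m‖ ≤ C * nI m ^ (1 / 2 : ℝ) := by
  obtain ⟨C, hC⟩ := hb
  refine ⟨C, fun m => ?_⟩
  have h := HSG.nI_pos m
  have h1 := hC m
  rw [nA, norm_mul, Complex.norm_real, Real.norm_of_nonneg (by positivity),
    Real.rpow_neg h.le, ← div_eq_mul_inv, div_le_iff₀ (by positivity)] at h1
  exact h1

/-- the Hecke relations -/
theorem hek (hn : IsInt n) (h : IEig s q ν n om lam F)
    (hb : ∃ C : ℝ, ∀ m, ‖nA (lamF (wP n om) lam) m‖ ≤ C) :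
    HekN (lamI (lamF (wP n om) lam)) (lamI (omF n om)) := by
  have hdv : ∀ p : Pr K, HSG.N.Dv p n ↔ Dv p n := fun p => HSG.LV.dvN p n
  refine HSG.N.hekN_of (n := n) (omF_one hn h) (omF_mul hn h)
    (fun p hp => (wP_norm h p).1 (fun h => hp ((hdv p).2 h)))
    (fun p hp => (wP_norm h p).2 ((hdv p).1 hp)) (HSG.LV.lamF_one _ _)
    (fun a b ha hb hc => HSG.LV.lamF_mul _ _ ha hb ((HSG.LV.copN ha).1 hc))
    (fun p j => HSG.LV.lamF_hecke _ _ p j) ?_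
  obtain ⟨C, hC⟩ := nA_bd hb
  exact ⟨C, 1 / 2, hC⟩

theorem cp_or {m n a : HSG.Id K} (hm : IsInt m) (hn : IsInt n) (ha : IsInt a)
    (h : ¬ Cp (m * n) a) : ¬ Cp m a ∨ ¬ Cp n a := by
  by_contra hcon
  push Not at hcon
  obtain ⟨h1, h2⟩ := hcon
  refine h ⟨ha, fun p hp hpn => ?_⟩
  have h3 := (HSG.N.dv_mul p hm hn).1 ((HSG.LV.dvN p _).2 hpn)
  rcases h3 with h3 | h3
  · exact h1.2 p hp ((HSG.LV.dvN p m).1 h3)
  · exact h2.2 p hp ((HSG.LV.dvN p n).1 h3)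

theorem nA_zero {L : HSG.Id K → ℂ} {m : HSG.Id K} (h : nA L m = 0) : L m = 0 := by
  rcases mul_eq_zero.1 h with h1 | h1
  · exact h1
  · exfalso
    have h2 := HSG.nI_pos m
    have h3 : (0 : ℝ) < nI m ^ (-(1 / 2) : ℝ) := by positivity
    exact h3.ne' (by exact_mod_cast h1)

theorem nA_conj {L L' : HSG.Id K → ℂ} (m : HSG.Id K) (w : ℂ) :
    nA L m * (starRingEnd ℂ) (nA L' m) * ((nI m : ℝ) : ℂ) ^ (1 - w) =
      L m * (starRingEnd ℂ) (L' m) * ((nI m : ℝ) : ℂ) ^ (-w) := by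
  have h := HSG.nI_pos m
  have h0 : ((nI m : ℝ) : ℂ) ≠ 0 := by exact_mod_cast h.ne'
  have e : ((nI m : ℝ) : ℂ) ^ (-w) = ((nI m ^ (-(1 / 2) : ℝ) : ℝ) : ℂ) *
      ((nI m ^ (-(1 / 2) : ℝ) : ℝ) : ℂ) * ((nI m : ℝ) : ℂ) ^ (1 - w) := by
    rw [Complex.ofReal_cpow h.le, ← cpow_add _ _ h0, ← cpow_add _ _ h0]
    congr 1
    push_cast
    ring
  rw [nA, nA, map_mul, Complex.conj_ofReal, e]
  ring

/-- the Rankin-Selberg input -/
theorem rs_self (S : IQ s) (had : Ad q ν) (hn : IsInt n) (hF : IForm s q ν n om F)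
    (hu : ∀ a, Cp n a → ‖om a‖ = 1) {L : HSG.Id K → ℂ} (hA : ICoS s q ν F (nA L)) :
    RS2 (lamI L) (lamI (omF n om)) (lamI L) (lamI (omF n om)) := by
  classical
  obtain ⟨E, X, hE, hX⟩ := rs_main S had had hn hF hF hu hu hA hA
  refine rs2_of (N := n) (fun a _ hc => by rw [omF, if_neg hc, zero_mul])
    (fun m hm => nA_zero (hA.int m hm)) ⟨E, X, hE, fun w hw => ?_⟩
  rw [hX w hw]
  congr 2
  · refine tsum_congr fun g => ?_
    by_cases hg : Cp n g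
    · rw [if_pos hg, if_pos hg, omF, if_pos hg]
    · rw [if_neg hg, if_neg hg]
  · exact tsum_congr fun m => nA_conj m w

theorem rs_tau (S : IQ s) (had : Ad q ν) (hn : IsInt n) (hF : IForm s q ν n om F)
    (hu : ∀ a, Cp n a → ‖om a‖ = 1) {L : HSG.Id K → ℂ} (hA : ICoS s q ν F (nA L)) {τ : K ≃+* K}
    (hτ : ∀ x, s (τ x) = (starRingEnd ℂ) (s x)) (h2 : ∀ x, τ (τ x) = x) :
    RS2 (lamI L) (lamI (omF n om)) (fun 𝔞 => lamI L (𝔞.map (tO τ)))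
      (fun 𝔞 => lamI (omF n om) (𝔞.map (tO τ))) := by
  classical
  simp only [HSG.N.lamI_tau, idT_gI]
  have hnt : IsInt (gI τ n) := (HSG.LV.gI_int τ n).2 hn
  have hN : IsInt (n * gI τ n) := HSG.isInt_mul hn hnt
  have hd1 : IsInt (n * gI τ n / n) := by rw [mul_div_cancel_left]; exact hnt
  have hd2 : IsInt (n * gI τ n / gI τ n) := by rw [mul_div_cancel_right]; exact hn
  have hF1 : IForm s q ν (n * gI τ n) om (Fr (n * gI τ n) F) := form_res hn hd1 hF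
  have hF2 : IForm s q (-ν) (n * gI τ n) (fun a => om (gI τ a))
      (Fr (n * gI τ n) (Ftau τ F)) := form_res hnt hd2 (form_tau hn hF hτ h2)
  have hA1 : ICoS s q ν (Fr (n * gI τ n) F) (nA L) := coS_res hn hd1 hA
  have hA2 : ICoS s q (-ν) (Fr (n * gI τ n) (Ftau τ F))
      (fun m => (-1) ^ q * nA L (gI τ m)) := coS_res hnt hd2 (coS_tau hn hA hτ h2)
  have had' : Ad q (-ν) := by
    rcases had with h | ⟨h1, h3, h4⟩
    · exact Or.inl (by rw [neg_re, h, neg_zero])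
    · exact Or.inr ⟨h1, by rw [neg_im, h3, neg_zero], by rw [neg_re, abs_neg]; exact h4⟩
  have hu1 : ∀ a, Cp (n * gI τ n) a → ‖om a‖ = 1 := fun a ha => hu a (HSG.LV.cp_mono hd1 ha)
  have hc2 : ∀ a, Cp (n * gI τ n) a → Cp n (gI τ a) := fun a ha =>
    (cp_gI' h2 n a).1 (HSG.LV.cp_mono hd2 ha)
  have hu2 : ∀ a, Cp (n * gI τ n) a → ‖om (gI τ a)‖ = 1 := fun a ha => hu _ (hc2 a ha)
  obtain ⟨E, X, hE, hX⟩ := rs_main S had had' hN hF1 hF2 hu1 hu2 hA1 hA2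
  refine rs2_of (N := n * gI τ n) (fun a ha hc => ?_)
    (fun m hm => nA_zero (hA.int m hm)) ⟨fun w => (-1) ^ q * E w, X, hE.const_mul _, fun w hw => ?_⟩
  · rcases cp_or hn hnt ha hc with h | h
    · rw [omF, if_neg h, zero_mul]
    · rw [cp_gI' h2] at h
      have : omF n om (gI τ a) = 0 := by rw [omF, if_neg h]
      rw [this, map_zero, mul_zero]
  · show (-1) ^ q * E w = _
    rw [hX w hw]
    have e1 : (∑' g : HSG.Id K, if Cp (n * gI τ n) g then om g * (starRingEnd ℂ) (om (gI τ g)) *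
          ((nI g : ℝ) : ℂ) ^ (-(2 * w)) else 0) =
        ∑' g : HSG.Id K, if Cp (n * gI τ n) g then omF n om g *
          (starRingEnd ℂ) (omF n om (gI τ g)) * ((nI g : ℝ) : ℂ) ^ (-(2 * w)) else 0 := by
      refine tsum_congr fun g => ?_
      by_cases hg : Cp (n * gI τ n) g
      · rw [if_pos hg, if_pos hg, omF, if_pos (HSG.LV.cp_mono hd1 hg), omF, if_pos (hc2 g hg)]
      · rw [if_neg hg, if_neg hg]
    have e2 : ∑' m : HSG.Id K, nA L m * (starRingEnd ℂ) ((-1) ^ q * nA L (gI τ m)) *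
        ((nI m : ℝ) : ℂ) ^ (1 - w) = (-1) ^ q * ∑' m : HSG.Id K, L m *
          (starRingEnd ℂ) (L (gI τ m)) * ((nI m : ℝ) : ℂ) ^ (-w) := by
      rw [← tsum_mul_left]
      refine tsum_congr fun m => ?_
      have h5 := nA_conj (L := L) (L' := fun m => L (gI τ m)) m w
      have h6 : nA (fun m => L (gI τ m)) m = nA L (gI τ m) := by
        rw [nA, nA, HSG.LV.nI_gI]
      rw [h6] at h5
      rw [← h5, map_mul, map_pow, map_neg, map_one]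
      ring
    have e3 : ((-1 : ℂ) ^ q) * ((-1 : ℂ) ^ q) = 1 := by
      rw [← mul_pow]
      simp
    rw [e1, e2]
    linear_combination (w * (w - 1) * ((∑' g : HSG.Id K, if Cp (n * gI τ n) g then omF n om g *
      (starRingEnd ℂ) (omF n om (gI τ g)) * ((nI g : ℝ) : ℂ) ^ (-(2 * w)) else 0) *
        ∑' m : HSG.Id K, L m * (starRingEnd ℂ) (L (gI τ m)) * ((nI m : ℝ) : ℂ) ^ (-w))) * e3

/-- divergence -/
theorem ml_div (S : IQ s) (had : Ad q ν) (hn : IsInt n) (hF : IForm s q ν n om F)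
    (hu : ∀ a, Cp n a → ‖om a‖ = 1) {L : HSG.Id K → ℂ} (hA : ICoS s q ν F (nA L))
    (hH : HekN (lamI L) (lamI (omF n om))) :
    ¬ ∀ i ∈ Finset.Icc 1 4, Summable (fun p : Nat.Primes => ml (aN (lamI L)) i p) := by
  obtain ⟨τ, hτ, h2, x, hx⟩ := tau_exists S
  have hτ' : ∀ x, tO τ (tO τ x) = x := fun x => RingOfIntegers.ext (h2 x)
  have hne : ∃ x, tO τ x ≠ x := by
    by_contra hcon
    push Not at hcon
    obtain ⟨a, b, hb, hab⟩ := IsFractionRing.div_surjective (A := 𝓞 K) x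
    apply hx
    rw [← hab, map_div₀]
    have e1 : τ (algebraMap (𝓞 K) K a) = algebraMap (𝓞 K) K a := congrArg (algebraMap (𝓞 K) K) (hcon a)
    have e2 : τ (algebraMap (𝓞 K) K b) = algebraMap (𝓞 K) K b := congrArg (algebraMap (𝓞 K) K) (hcon b)
    rw [e1, e2]
  exact ml_not2 S.deg hτ' hne hH (rs_self S had hn hF hu hA) (rs_tau S had hn hF hu hA hτ h2)

end eig

end Pool.Agent.HI
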