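import Pool.Agent.Lib_helper25.HIF.DX
import Pool.Agent.Lib_helper25.HIF.MA
import Pool.Agent.Lib_helper25.HIF.ST

/-!
# Project HI: block PK, the package (helper37)
-/

namespace Pool.Agent.HI
open NumberField Complex MeasureTheory Set Filter Topology
open Pool.Agent.HB (Kb Adm)
open Pool.Agent.H4 (ml atl FunBd vcf)
open Pool.Agent.HI

variable {K : Type} [Field K] [NumberField K] {s : K →+* ℂ}

theorem pk_conj_half (t : ℝ) : (starRingEnd ℂ) (1 / 2 + t * I : ℂ) = 1 / 2 + ((-t : ℝ) : ℂ) * I := by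
  simp only [map_add, map_mul, conj_I, conj_ofReal, map_div₀, map_one, map_ofNat]
  push_cast
  ring

theorem pk_dec (S : IQ s) {q : ℕ} {ν : ℂ} (had : Ad q ν) {ι : Type} [Fintype ι]
    {c c' : ι → K → ℂ} (h : ∀ k, DP s q ν (c k) (c' k)) (β δ : ι → ℝ) {θ : ℝ} (h0 : 0 ≤ θ)
    (hθ : θ < Real.pi / 2) (x y : ℝ) : ∃ C : ℝ, ∀ z : ℂ, x ≤ z.re → z.re ≤ y →
      ‖Lt s q ν β δ c z‖ ≤ C * Real.exp (-(2 * θ * |z.im|)) := by
  have h1 : ∀ k, ∃ C : ℝ, ∀ z : ℂ, x ≤ z.re → z.re ≤ y →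
      ‖Lz s q ν (c k) z‖ ≤ C * Real.exp (-(2 * θ * |z.im|)) := fun k =>
    lz_dec S had (h k) h0 hθ x y
  choose C hC using h1
  refine ⟨∑ k, |β k| * Real.exp (|δ k| * max |x| |y|) * |C k|, fun z hx hy => ?_⟩
  unfold Lt
  refine (norm_sum_le _ _).trans ?_
  rw [Finset.sum_mul]
  refine Finset.sum_le_sum fun k _ => ?_
  rw [norm_mul, norm_mul, norm_real, Real.norm_eq_abs, norm_exp]
  have h2 : ‖Lz s q ν (c k) z‖ ≤ |C k| * Real.exp (-(2 * θ * |z.im|)) :=
    (hC k z hx hy).trans (mul_le_mul_of_nonneg_right (le_abs_self _) (Real.exp_pos _).le)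
  have h3 : Real.exp ((δ k : ℂ) * z).re ≤ Real.exp (|δ k| * max |x| |y|) := by
    apply Real.exp_le_exp.2
    rw [re_ofReal_mul]
    have h4 : |z.re| ≤ max |x| |y| := abs_le_max_abs_abs hx hy
    calc δ k * z.re ≤ |δ k * z.re| := le_abs_self _
      _ = |δ k| * |z.re| := abs_mul _ _
      _ ≤ |δ k| * max |x| |y| := mul_le_mul_of_nonneg_left h4 (abs_nonneg _)
  have h5 : |β k| * Real.exp ((δ k : ℂ) * z).re ≤ |β k| * Real.exp (|δ k| * max |x| |y|) :=
    mul_le_mul_of_nonneg_left h3 (abs_nonneg _)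
  calc |β k| * Real.exp ((δ k : ℂ) * z).re * ‖Lz s q ν (c k) z‖
      ≤ (|β k| * Real.exp (|δ k| * max |x| |y|)) * (|C k| * Real.exp (-(2 * θ * |z.im|))) :=
        mul_le_mul h5 h2 (norm_nonneg _) (by positivity)
    _ = _ := by ring

theorem pk_lseries (a : ℕ → ℂ) (z : ℂ) (n : ℕ) :
    LSeries.term (fun n => (starRingEnd ℂ) (a n)) z n =
      (starRingEnd ℂ) (LSeries.term a ((starRingEnd ℂ) z) n) := by
  rcases Nat.eq_zero_or_pos n with h | h
  · rw [h, LSeries.term_zero, LSeries.term_zero, map_zero]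
  · rw [LSeries.term_of_ne_zero h.ne', LSeries.term_of_ne_zero h.ne', map_div₀]
    congr 1
    have harg : (n : ℂ).arg ≠ Real.pi := by
      rw [natCast_arg]
      exact Real.pi_pos.ne
    have h1 := cpow_conj (n : ℂ) z harg
    rw [h1, conj_conj, conj_natCast]

theorem pk_lsum {a : ℕ → ℂ} {A : ℝ} (h : LSeriesSummable a A) :
    LSeriesSummable (fun n => (starRingEnd ℂ) (a n)) A := by
  have h1 : LSeries.term (fun n => (starRingEnd ℂ) (a n)) (A : ℂ) =
      fun n => (starRingEnd ℂ) (LSeries.term a (A : ℂ) n) := by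
    funext n
    rw [pk_lseries, conj_ofReal]
  unfold LSeriesSummable at h ⊢
  rw [h1]
  have h2 : Summable (fun n => ‖(starRingEnd ℂ) (LSeries.term a (A : ℂ) n)‖) := by
    simp only [RCLike.norm_conj]
    exact h.norm
  exact h2.of_norm

theorem pk_lconj (a : ℕ → ℂ) (z : ℂ) :
    LSeries (fun n => (starRingEnd ℂ) (a n)) z =
      (starRingEnd ℂ) (LSeries a ((starRingEnd ℂ) z)) := by
  unfold LSeries
  rw [conj_tsum]
  exact tsum_congr fun n => pk_lseries a z n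

theorem pk_gam {q : ℕ} {ν : ℂ} (had : Ad q ν) (z : ℂ) :
    (starRingEnd ℂ) (Gamma ((starRingEnd ℂ) z + (q + ν) / 2) *
        Gamma ((starRingEnd ℂ) z + (q - ν) / 2)) =
      Gamma (z + (q + ν) / 2) * Gamma (z + (q - ν) / 2) := by
  rw [map_mul, ← Gamma_conj, ← Gamma_conj]
  have hν : (starRingEnd ℂ) ν = ν ∨ (starRingEnd ℂ) ν = -ν := by
    rcases had with h | ⟨_, h, _⟩
    · right
      apply Complex.ext
      · simp [h]
      · simp
    · left
      exact conj_eq_iff_im.2 h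
  rcases hν with h | h
  · simp only [map_add, map_sub, map_div₀, conj_conj, map_natCast, map_ofNat, h]
  · simp only [map_add, map_sub, map_div₀, conj_conj, map_natCast, map_ofNat, h]
    rw [mul_comm]
    congr 2
    ring

/-- the package in both directions -/
theorem lt_pk (S : IQ s) {q : ℕ} {ν : ℂ} (had : Ad q ν) {ι : Type} [Fintype ι]
    {c c' : ι → K → ℂ} (h : ∀ k, DP s q ν (c k) (c' k)) (β δ : ι → ℝ) {a : ℕ → ℂ} {θ : ℂ}
    (hθ : ‖θ‖ = 1) (hfe : ∀ z : ℂ, Lt s q ν β δ c (1 - z) =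
      θ * (starRingEnd ℂ) (Lt s q ν β δ c ((starRingEnd ℂ) z)))
    (hser : ∃ (A Q : ℝ) (c₀ : ℂ), 0 < Q ∧ c₀ ≠ 0 ∧ LSeriesSummable a A ∧ ∀ z : ℂ, A ≤ z.re →
      Lt s q ν β δ c z = c₀ * (Q : ℂ) ^ z *
        (Gamma (z + (q + ν) / 2) * Gamma (z + (q - ν) / 2)) * LSeries a z) :
    Pk q ν a (Lt s q ν β δ c) ∧ Pk q ν (fun n => (starRingEnd ℂ) (a n))
      (fun z => (starRingEnd ℂ) (Lt s q ν β δ c ((starRingEnd ℂ) z))) := by
  have hd := lt_cont S had h β δ
  obtain ⟨w, hw⟩ : ∃ w : ℂ, w ^ 2 = (starRingEnd ℂ) θ := by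
    obtain ⟨w, hw⟩ := IsAlgClosed.exists_pow_nat_eq ((starRingEnd ℂ) θ) (n := 2) (by norm_num)
    exact ⟨w, hw⟩
  have hw1 : ‖w‖ = 1 := by
    have h1 : ‖w‖ ^ 2 = 1 := by rw [← norm_pow, hw, RCLike.norm_conj, hθ]
    have h2 : 0 ≤ ‖w‖ := norm_nonneg _
    nlinarith
  have hww : (starRingEnd ℂ) w * w = 1 := by
    rw [mul_comm, mul_conj, normSq_eq_norm_sq, hw1]
    norm_num
  have hreal : ∀ t : ℝ, (w * Lt s q ν β δ c (1 / 2 + t * I)).im = 0 := by
    intro t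
    have h1 := hfe (1 / 2 + ((-t : ℝ) : ℂ) * I)
    have h2 : (1 : ℂ) - (1 / 2 + ((-t : ℝ) : ℂ) * I) = 1 / 2 + t * I := by
      push_cast
      ring
    rw [h2, pk_conj_half, neg_neg] at h1
    rw [← conj_eq_iff_im, map_mul]
    have h3 : (starRingEnd ℂ) (Lt s q ν β δ c (1 / 2 + t * I)) =
        (starRingEnd ℂ) θ * Lt s q ν β δ c (1 / 2 + t * I) := by
      conv_lhs => rw [h1]
      rw [map_mul, conj_conj]
    rw [h3, ← hw]
    linear_combination (w * Lt s q ν β δ c (1 / 2 + t * I)) * hww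
  constructor
  · refine ⟨hd, ⟨w, hw1, hreal⟩, hser, fun φ x y h0 h1 => pk_dec S had h β δ h0 h1 x y, ?_⟩
    intro T w' hw' hT
    have h1 := star S had h β δ (Or.inl rfl : (1 : ℝ) = 1 ∨ (1 : ℝ) = -1) T w' hw'
    simp only [one_mul] at h1
    exact h1 hT
  · refine ⟨?_, ⟨(starRingEnd ℂ) w, by rw [RCLike.norm_conj, hw1], fun t => ?_⟩, ?_, ?_, ?_⟩
    · intro z
      have h1 := DifferentiableAt.conj_conj (hd ((starRingEnd ℂ) z))
      rw [conj_conj] at h1
      exact h1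
    · rw [pk_conj_half, ← map_mul, conj_im, hreal (-t), neg_zero]
    · obtain ⟨A, Q, c₀, hQ, hc, hA, hz⟩ := hser
      refine ⟨A, Q, (starRingEnd ℂ) c₀, hQ, (map_ne_zero _).2 hc, pk_lsum hA, fun z h1 => ?_⟩
      have h2 : A ≤ ((starRingEnd ℂ) z).re := by rwa [conj_re]
      show (starRingEnd ℂ) (Lt s q ν β δ c ((starRingEnd ℂ) z)) = _
      rw [hz _ h2, map_mul, map_mul, map_mul, pk_gam had z, pk_lconj]
      have harg : (Q : ℂ).arg ≠ Real.pi := by
        rw [arg_ofReal_of_nonneg hQ.le]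
        exact Real.pi_pos.ne
      have h3 : (starRingEnd ℂ) ((Q : ℂ) ^ (starRingEnd ℂ) z) = (Q : ℂ) ^ z := by
        rw [cpow_conj _ _ harg, conj_conj, conj_ofReal]
      rw [h3]
    · intro φ x y h0 h1
      obtain ⟨C, hC⟩ := pk_dec S had h β δ h0 h1 x y
      refine ⟨C, fun z hx hy => ?_⟩
      show ‖(starRingEnd ℂ) (Lt s q ν β δ c ((starRingEnd ℂ) z))‖ ≤ _
      have h2 := hC ((starRingEnd ℂ) z) (by rwa [conj_re]) (by rwa [conj_re])
      rw [conj_im, abs_neg] at h2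
      rw [RCLike.norm_conj]
      exact h2
    · intro T w' hw' hT
      have e1 : ∀ t : ℝ, ((-1 * t : ℝ) : ℂ) = ((-t : ℝ) : ℂ) := by
        intro t
        rw [neg_one_mul]
      have h1 := star S had h β δ (Or.inr rfl : (-1 : ℝ) = 1 ∨ (-1 : ℝ) = -1) T
        ((starRingEnd ℂ) w') (by rw [RCLike.norm_conj, hw'])
      simp only [e1] at h1
      have h2 : ∀ t : ℝ, T < t → (‖Lt s q ν β δ c (1 / 2 + ((-t : ℝ) : ℂ) * I)‖ : ℂ) =
          (starRingEnd ℂ) w' * Lt s q ν β δ c (1 / 2 + ((-t : ℝ) : ℂ) * I) := by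
        intro t ht
        have h3 := hT t ht
        simp only [pk_conj_half, RCLike.norm_conj] at h3
        have h4 := congrArg (starRingEnd ℂ) h3
        rw [map_mul, conj_conj, conj_ofReal] at h4
        exact h4
      have h5 := h1 h2
      simp only [pk_conj_half, RCLike.norm_conj]
      exact h5


end Pool.Agent.HI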