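import Pool.Agent.Lib_helper25.HIF.DX
import Pool.Agent.Lib_helper25.HIF.AM
import Pool.Agent.Lib_helper25.HIF.AN
import Pool.Agent.Lib_helper25.HIF.AO
import Pool.Agent.Lib_helper25.HIF.FY
import Pool.Agent.Lib_helper25.HIF.Fa
import Pool.Agent.Lib_helper25.HIF.Fb
import Pool.Agent.Lib_helper25.HIF.KB
import Pool.Agent.Lib_helper25.HIF.PK
import Pool.Agent.Lib_helper25.HIF.ST
import Pool.Agent.Lib_helper84.NEF.NJ
import Pool.Agent.Lib_helper84.LVF.LM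
import Pool.Agent.Lib_helper98.HNF.E6a

/-! # Project HI: the final assembly, the main theorem -/

namespace Pool.Agent.HI

open NumberField Complex MeasureTheory IsDedekindDomain Filter Topology
open scoped nonZeroDivisors MatrixGroups
open Pool.Agent.HSG (Lat Pr IsInt nI prI DD nm wm dgm dt qP NCl IsRepQ)
open Pool.Agent.HSG.LV (Pt Tp Ts Sc Cp Dv Prim sS sZ ptS ptZ pI Res Gal gI gP wP omF lamF oA)
open Pool.Agent.H4 (NI PI blw ml FunBd)
open Pool.Agent.HNA (HekN aN)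
open Pool.Agent.HSG.N (lamI idOf tO idT)

variable {K : Type} [Field K] [NumberField K] {s : K →+* ℂ}

theorem ml_conj' (a : ℕ → ℂ) (i p : ℕ) : ml (fun n => (starRingEnd ℂ) (a n)) i p = ml a i p := by
  rw [ml, ml, Complex.norm_conj]

theorem order_conj' {f : ℂ → ℂ} (hf : Differentiable ℂ f) (z : ℂ) :
    analyticOrderNatAt (fun s => (starRingEnd ℂ) (f ((starRingEnd ℂ) s))) z =
      analyticOrderNatAt f ((starRingEnd ℂ) z) := by
  have hc := conj_diff hf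
  have hct : Tendsto (fun s : ℂ => (starRingEnd ℂ) s) (𝓝 z) (𝓝 ((starRingEnd ℂ) z)) :=
    Complex.continuous_conj.tendsto z
  unfold analyticOrderNatAt
  congr 1
  have hfa : AnalyticAt ℂ f ((starRingEnd ℂ) z) := hf.analyticAt _
  have hga : AnalyticAt ℂ (fun s => (starRingEnd ℂ) (f ((starRingEnd ℂ) s))) z := hc.analyticAt _
  rcases h : analyticOrderAt f ((starRingEnd ℂ) z) with _ | n
  · change _ = (⊤ : ℕ∞)
    replace h : analyticOrderAt f ((starRingEnd ℂ) z) = ⊤ := h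
    rw [analyticOrderAt_eq_top] at h ⊢
    filter_upwards [hct.eventually h] with s hs
    rw [hs, map_zero]
  · change _ = ((n : ℕ) : ℕ∞)
    replace h : analyticOrderAt f ((starRingEnd ℂ) z) = (n : ℕ∞) := h
    rw [hfa.analyticOrderAt_eq_natCast] at h
    rw [hga.analyticOrderAt_eq_natCast]
    obtain ⟨g, hg, hg0, hfg⟩ := h
    refine ⟨fun s => (starRingEnd ℂ) (g ((starRingEnd ℂ) s)), ?_, ?_, ?_⟩
    · have h1 : ∀ᶠ w in 𝓝 ((starRingEnd ℂ) z), DifferentiableAt ℂ g w :=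
        hg.eventually_analyticAt.mono fun w hw => hw.differentiableAt
      refine Complex.analyticAt_iff_eventually_differentiableAt.mpr ?_
      filter_upwards [hct.eventually h1] with s hs
      have h2 := hs.conj_conj
      rw [Complex.conj_conj] at h2
      exact h2
    · simpa using hg0
    · filter_upwards [hct.eventually hfg] with s hs
      rw [hs]
      simp

theorem wK_ne (S : IQ s) : (wK K : ℂ) ≠ 0 := by
  have := ao_units_finite S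
  have h : 0 < Nat.card (𝓞 K)ˣ := Nat.card_pos
  unfold wK
  exact_mod_cast h.ne'

theorem Dk_pos : 0 < Dk K := by
  unfold Dk
  rw [abs_pos]
  exact_mod_cast NumberField.discr_ne_zero K

/-- the constant -/
noncomputable def hiC0 (K : Type) [Field K] [NumberField K] (q : ℕ) : ℂ :=
  1 / 4 * (2 * Real.pi : ℂ) ^ (-(q : ℂ)) * (wK K : ℂ) * ((Dk K : ℝ) : ℂ) ^ (-(1 / 2) : ℂ)

theorem hiC0_ne (S : IQ s) (q : ℕ) : hiC0 K q ≠ 0 := by
  have hpi : (0 : ℝ) < 2 * Real.pi := by positivity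
  have h2 : (2 * Real.pi : ℂ) ≠ 0 := by exact_mod_cast hpi.ne'
  have hD0 : ((Dk K : ℝ) : ℂ) ≠ 0 := by exact_mod_cast Dk_pos.ne'
  unfold hiC0
  refine mul_ne_zero (mul_ne_zero (mul_ne_zero (by norm_num) ?_) (wK_ne S)) ?_
  · rw [Ne, cpow_eq_zero_iff]
    tauto
  · rw [Ne, cpow_eq_zero_iff]
    tauto

section main

variable {q : ℕ} {ν : ℂ} {n : HSG.Id K}

theorem lt_ser (S : IQ s) [Fintype (NCl K)] (had : Ad q ν) {L : HSG.Id K → ℂ}
    (hA : (∀ m, ¬ IsInt m → nA L m = 0) ∧ ∃ C : ℝ, ∀ m, ‖nA L m‖ ≤ C) {z : ℂ}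
    (hz : 3 / 2 < z.re) :
    Summable (fun m : HSG.Id K => ‖L m * ((nI m : ℝ) : ℂ) ^ (-z)‖) ∧
    LSeriesSummable (aN (lamI L)) z ∧
    LSeries (aN (lamI L)) z = ∑' m : HSG.Id K, L m * ((nI m : ℝ) : ℂ) ^ (-z) ∧
    LT s q ν n (nA L) z = hiC0 K q * ((√(nI n) * Dk K / (2 * Real.pi) ^ 2 : ℝ) : ℂ) ^ z *
      (Gamma (z + (q + ν) / 2) * Gamma (z + (q - ν) / 2)) * LSeries (aN (lamI L)) z := by
  have h1 : ∀ {z : ℂ}, 3 / 2 < z.re →
      Summable (fun m : HSG.Id K => ‖L m * ((nI m : ℝ) : ℂ) ^ (-z)‖) := by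
    intro z hz
    refine (ds_S S (b := bo) bo_mk hA hz).1.congr fun m => ?_
    rw [nA_pow]
  have h2 := l_ser (L := L) (fun m hm => nA_zero (hA.1 m hm)) (x := z.re)
    (h1 (z := (z.re : ℂ)) (by simpa using hz)) (z := z) le_rfl
  refine ⟨h1 hz, h2.1, h2.2, ?_⟩
  rw [lt_S S had hA hz, h2.2]
  have e : ∑' m : HSG.Id K, nA L m * ((nI m : ℝ) : ℂ) ^ (1 / 2 - z) =
      ∑' m : HSG.Id K, L m * ((nI m : ℝ) : ℂ) ^ (-z) := tsum_congr fun m => nA_pow L m z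
  rw [e]
  rfl

theorem lt_ne (S : IQ s) [Fintype (NCl K)] (had : Ad q ν) {L : HSG.Id K → ℂ}
    (hA : (∀ m, ¬ IsInt m → nA L m = 0) ∧ ∃ C : ℝ, ∀ m, ‖nA L m‖ ≤ C)
    (h1 : aN (lamI L) 1 = 1) : ∃ z : ℂ, LT s q ν n (nA L) z ≠ 0 := by
  by_contra hcon
  push Not at hcon
  have h2 : (fun x : ℝ => LSeries (aN (lamI L)) x) =ᶠ[atTop] 0 := by
    filter_upwards [eventually_gt_atTop (3 / 2 : ℝ)] with x hx
    have hx' : 3 / 2 < ((x : ℝ) : ℂ).re := by simpa using hx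
    have h3 := (lt_ser (n := n) S had hA hx').2.2.2
    rw [hcon] at h3
    have hn := HSG.nI_pos n
    have hD : 0 < Dk K := Dk_pos
    have h4 : ((√(nI n) * Dk K / (2 * Real.pi) ^ 2 : ℝ) : ℂ) ≠ 0 := by
      have : 0 < √(nI n) * Dk K / (2 * Real.pi) ^ 2 := by positivity
      exact_mod_cast this.ne'
    have h5 : ((√(nI n) * Dk K / (2 * Real.pi) ^ 2 : ℝ) : ℂ) ^ (x : ℂ) ≠ 0 := by
      rw [Ne, cpow_eq_zero_iff]
      tauto
    have hq0 : (0 : ℝ) ≤ q := Nat.cast_nonneg q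
    have hre := abs_lt.1 (ad_re had)
    have h6 : Gamma ((x : ℂ) + (q + ν) / 2) ≠ 0 := by
      refine Gamma_ne_zero_of_re_pos ?_
      have : ((x : ℂ) + (q + ν) / 2).re = x + (q + ν.re) / 2 := by
        simp
      rw [this]
      linarith [hre.1]
    have h7 : Gamma ((x : ℂ) + (q - ν) / 2) ≠ 0 := by
      refine Gamma_ne_zero_of_re_pos ?_
      have : ((x : ℂ) + (q - ν) / 2).re = x + (q - ν.re) / 2 := by
        simp
      rw [this]
      linarith [hre.2]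
    have h8 := mul_eq_zero.1 h3.symm
    rcases h8 with h8 | h8
    · exact absurd h8 (mul_ne_zero (mul_ne_zero (hiC0_ne S q) h5) (mul_ne_zero h6 h7))
    · exact h8
  rw [LSeries_eventually_eq_zero_iff'] at h2
  rcases h2 with h2 | h2
  · exact one_ne_zero (h1.symm.trans (h2 1 one_ne_zero))
  · have h3 := (lt_ser (z := 2) (n := n) S had hA (by norm_num)).2.1
    have h4 := h3.abscissaOfAbsConv_le
    rw [h2, top_le_iff] at h4
    exact EReal.coe_ne_top _ h4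

theorem theta_norm {f : ℂ → ℂ} {θ : ℂ} (h : ∀ z, f (1 - z) =
    θ * (starRingEnd ℂ) (f ((starRingEnd ℂ) z))) (h0 : ∃ z, f z ≠ 0) : ‖θ‖ = 1 := by
  obtain ⟨z, hz⟩ := h0
  have h1 := h (1 - z)
  have h2 := h ((starRingEnd ℂ) z)
  rw [Complex.conj_conj] at h2
  rw [sub_sub_cancel] at h1
  have h3 : (starRingEnd ℂ) (1 - z) = 1 - (starRingEnd ℂ) z := by rw [map_sub, map_one]
  rw [h3, h2, map_mul, Complex.conj_conj, ← mul_assoc] at h1
  have h4 : θ * (starRingEnd ℂ) θ = 1 := by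
    have h5 : (θ * (starRingEnd ℂ) θ - 1) * f z = 0 := by
      rw [sub_mul, ← h1]
      ring
    rcases mul_eq_zero.1 h5 with h6 | h6
    · exact sub_eq_zero.1 h6
    · exact absurd h6 hz
  rw [Complex.mul_conj] at h4
  have h5 : normSq θ = 1 := by exact_mod_cast h4
  rw [Complex.normSq_eq_norm_sq] at h5
  nlinarith [norm_nonneg θ]

/-- the main theorem for a system of coefficients -/
theorem i_core (S : IQ s) [Fintype (NCl K)] (had : Ad q ν) {L : HSG.Id K → ℂ} {W : ℂ}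
    (hA : (∀ m, ¬ IsInt m → nA L m = 0) ∧ ∃ C : ℝ, ∀ m, ‖nA L m‖ ≤ C)
    (hdp : ∀ b, DP s q ν (cS (nA L) b) (cZ n (fun m => W * (starRingEnd ℂ) (nA L m)) b))
    {OM : HSG.Id K → ℂ} (hH : HekN (lamI L) (lamI OM))
    (hml : ¬ ∀ i ∈ Finset.Icc 1 4, Summable (fun p : Nat.Primes => ml (aN (lamI L)) i p)) :
    Differentiable ℂ (LT s q ν n (nA L)) ∧
    (∃ θ : ℂ, ‖θ‖ = 1 ∧ ∀ z, LT s q ν n (nA L) (1 - z) =
      θ * (starRingEnd ℂ) (LT s q ν n (nA L) ((starRingEnd ℂ) z))) ∧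
    (∃ w : ℂ, ‖w‖ = 1 ∧ ∀ t : ℝ, (w * LT s q ν n (nA L) (1 / 2 + t * I)).im = 0) ∧
    (∀ T : ℝ, ∃ t : ℝ, T < t ∧
      Odd (analyticOrderNatAt (LT s q ν n (nA L)) (1 / 2 + t * I))) ∧
    ∀ T : ℝ, ∃ t : ℝ, t < T ∧
      Odd (analyticOrderNatAt (LT s q ν n (nA L)) (1 / 2 + t * I)) := by
  have hd : Differentiable ℂ (LT s q ν n (nA L)) := lt_cont S had (fun κ => hdp (bo κ)) _ _
  have hfe := lt_fe S had hA hdp
  have ha1 : aN (lamI L) 1 = 1 := Pool.Agent.HNA.aN_one hH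
  have hθ : ‖(-1) ^ q * W‖ = 1 := theta_norm hfe (lt_ne S had hA ha1)
  have ham : ∀ i p m : ℕ, p.Prime → ¬ p ∣ m →
      aN (lamI L) (p ^ i * m) = aN (lamI L) (p ^ i) * aN (lamI L) m := fun i p m h2 h3 =>
    Pool.Agent.HNA.aN_mul hH (Nat.Coprime.pow_left i ((Nat.Prime.coprime_iff_not_dvd h2).mpr h3))
  have hser : ∃ (A Q : ℝ) (c₀ : ℂ), 0 < Q ∧ c₀ ≠ 0 ∧ LSeriesSummable (aN (lamI L)) A ∧
      ∀ z : ℂ, A ≤ z.re → LT s q ν n (nA L) z = c₀ * (Q : ℂ) ^ z *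
        (Gamma (z + (q + ν) / 2) * Gamma (z + (q - ν) / 2)) * LSeries (aN (lamI L)) z := by
    have hn := HSG.nI_pos n
    have hD : 0 < Dk K := Dk_pos
    refine ⟨2, √(nI n) * Dk K / (2 * Real.pi) ^ 2, hiC0 K q, by positivity, hiC0_ne S q, ?_, ?_⟩
    · exact (lt_ser (z := ((2 : ℝ) : ℂ)) (n := n) S had hA (by norm_num)).2.1
    · intro z hz
      exact (lt_ser S had hA (by linarith)).2.2.2
  obtain ⟨P1, P2⟩ := lt_pk S had (fun κ : NCl K => hdp (bo κ)) _ _ hθ hfe hser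
  refine ⟨hd, ⟨_, hθ, hfe⟩, P1.real, ?_, ?_⟩
  · intro T
    by_contra hcon
    push Not at hcon
    obtain ⟨C', hC⟩ := fun_bd had P1 (by rw [ha1]; exact one_ne_zero) (T := T)
      (fun t ht => hcon t ht)
    exact hml fun i hi => Pool.Agent.H4.ml_summable hC ha1 (Finset.mem_Icc.mp hi).1 (ham i)
  · intro T
    by_contra hcon
    push Not at hcon
    obtain ⟨C', hC⟩ := fun_bd had P2 (by rw [ha1]; simp) (T := -T) (fun t ht => by
        have e := order_conj' hd (1 / 2 + (t : ℂ) * Complex.I)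
        have e2 : (starRingEnd ℂ) (1 / 2 + (t : ℂ) * Complex.I) =
            1 / 2 + ((-t : ℝ) : ℂ) * Complex.I := by
          have h2 : (starRingEnd ℂ) (2 : ℂ) = 2 := map_ofNat _ 2
          simp [h2]
        rw [e2] at e
        intro h5
        refine hcon (-t) (by linarith) ?_
        rw [← e]
        exact h5)
    refine hml fun i hi => ?_
    have := Pool.Agent.H4.ml_summable hC (by rw [ha1]; simp) (Finset.mem_Icc.mp hi).1
      (fun p m h2 h3 => by rw [ham i p m h2 h3, map_mul])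
    simpa only [ml_conj'] using this

variable {om : HSG.Id K → ℂ} {lam : Pr K → ℂ} {F : ℂ × ℝ → ℂ × ℂ → Pt n → ℂ}

theorem i_main (S : IQ s) (had : Ad q ν) (hn : IsInt n) (h : IEig s q ν n om lam F) :
    ∃ Λ : ℂ → ℂ, Differentiable ℂ Λ ∧
      (∀ z : ℂ, 3 / 2 < z.re → ∃ L : ℂ,
        HasProd (fun p : Pr K => (1 - lam p * (qP p : ℂ) ^ (-z) +
          wP n om p * (qP p : ℂ) ^ (-2 * z))⁻¹) L ∧
        Λ z = ((Dk K * √(nI n) : ℝ) : ℂ) ^ z * (2 * Real.pi : ℂ) ^ (-(2 * z)) *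
          (Gamma (z + (q + ν) / 2) * Gamma (z + (q - ν) / 2)) * L) ∧
      (∃ θ : ℂ, ‖θ‖ = 1 ∧ ∀ z, Λ (1 - z) = θ * (starRingEnd ℂ) (Λ ((starRingEnd ℂ) z))) ∧
      (∃ w : ℂ, ‖w‖ = 1 ∧ ∀ t : ℝ, (w * Λ (1 / 2 + t * I)).im = 0) ∧
      (∀ T : ℝ, ∃ t : ℝ, T < t ∧ Odd (analyticOrderNatAt Λ (1 / 2 + t * I))) ∧
      ∀ T : ℝ, ∃ t : ℝ, t < T ∧ Odd (analyticOrderNatAt Λ (1 / 2 + t * I)) := by
  have := HSG.LV.ncl_fin (K := K)
  let _ : Fintype (NCl K) := Fintype.ofFinite _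
  obtain ⟨c, W, hc, hA', hB'⟩ := eig_exp S had hn h
  set G : ℂ × ℝ → ℂ × ℂ → Pt n → ℂ := fun p u x => c * F p u x with hG
  set LM := lamF (wP n om) lam with hLM
  have hGf : IForm s q ν n om G := form_smul h.form c
  have hA : ICoS s q ν G (nA LM) := hA'
  have hB : ICoZ s q ν G (fun m => W * (starRingEnd ℂ) (nA LM m)) := by
    have e : (fun m => W * (starRingEnd ℂ) (nA LM m)) = fun m => W * starRingEnd ℂ (LM m) *
        ((nI m ^ (-(1 / 2) : ℝ) : ℝ) : ℂ) := by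
      funext m
      rw [nA, map_mul, Complex.conj_ofReal, mul_assoc]
    rw [e]
    exact hB'
  have hdp := form_dp S had hn hGf hA hB
  have hA2 : (∀ m, ¬ IsInt m → nA LM m = 0) ∧ ∃ C : ℝ, ∀ m, ‖nA LM m‖ ≤ C := ⟨hA.int, hA.bdd⟩
  have hH := hek hn h hA.bdd
  have hml := ml_div S had hn hGf h.unit hA hH
  obtain ⟨h1, ⟨θ, h2, h3⟩, ⟨w, h4, h5⟩, h6, h7⟩ := i_core (n := n) S had hA2 hdp hH hml
  set Λ₀ := LT s q ν n (nA LM) with hΛ
  have hwK : (0 : ℝ) < (wK K : ℝ) := by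
    have h8 : 0 < wK K := by
      rcases Nat.eq_zero_or_pos (wK K) with h9 | h9
      · exact absurd (by rw [h9]; simp) (wK_ne S)
      · exact h9
    exact_mod_cast h8
  have hD : 0 < Dk K := Dk_pos
  have hpi : (0 : ℝ) < 2 * Real.pi := by positivity
  have hn' := HSG.nI_pos n
  set r : ℝ := (1 / 4 * (2 * Real.pi) ^ (-(q : ℝ)) * (wK K : ℝ) * (Dk K) ^ (-(1 / 2) : ℝ)) with hr
  have hr0 : 0 < r := by positivity
  have hrc : (r : ℂ) = hiC0 K q := by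
    rw [hr, hiC0]
    push_cast
    rw [Complex.ofReal_cpow hpi.le, Complex.ofReal_cpow hD.le]
    push_cast
    rfl
  have hord : ∀ z : ℂ, analyticOrderNatAt (fun z => ((r⁻¹ : ℝ) : ℂ) * Λ₀ z) z =
      analyticOrderNatAt Λ₀ z := by
    intro z
    unfold analyticOrderNatAt
    congr 1
    have e1 : (fun z => ((r⁻¹ : ℝ) : ℂ) * Λ₀ z) = (fun _ => ((r⁻¹ : ℝ) : ℂ)) * Λ₀ := rfl
    have e2 : analyticOrderAt (fun _ : ℂ => ((r⁻¹ : ℝ) : ℂ)) z = 0 := by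
      rw [AnalyticAt.analyticOrderAt_eq_zero analyticAt_const]
      exact_mod_cast (inv_pos.2 hr0).ne'
    rw [e1, analyticOrderAt_mul analyticAt_const (h1.analyticAt z), e2, zero_add]
  refine ⟨fun z => ((r⁻¹ : ℝ) : ℂ) * Λ₀ z, h1.const_mul _, ?_, ⟨θ, h2, fun z => ?_⟩,
    ⟨w, h4, fun t => ?_⟩, fun T => ?_, fun T => ?_⟩
  · intro z hz
    obtain ⟨h8, _, h9, h10⟩ := lt_ser (n := n) S had hA2 hz
    refine ⟨∑' m : HSG.Id K, LM m * ((nI m : ℝ) : ℂ) ^ (-z), HSG.LV.lamF_euler _ _ h8, ?_⟩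
    show ((r⁻¹ : ℝ) : ℂ) * Λ₀ z = _
    rw [hΛ, h10, h9, ← hrc]
    have e2 : ((√(nI n) * Dk K / (2 * Real.pi) ^ 2 : ℝ) : ℂ) ^ z =
        ((Dk K * √(nI n) : ℝ) : ℂ) ^ z * (2 * Real.pi : ℂ) ^ (-(2 * z)) := by
      have h4 : (√(nI n) * Dk K / (2 * Real.pi) ^ 2 : ℝ) =
          Dk K * √(nI n) * ((2 * Real.pi) ^ (-2 : ℝ)) := by
        rw [div_eq_mul_inv, mul_comm (√(nI n))]
        congr 1
        rw [Real.rpow_neg hpi.le]
        norm_num
      rw [h4, Complex.ofReal_mul, mul_cpow_ofReal_nonneg (by positivity) (by positivity)]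
      congr 1
      have h5 : (Complex.log ((2 * Real.pi : ℝ) : ℂ) * ((-2 : ℝ) : ℂ)).im = 0 := by
        rw [← Complex.ofReal_log (by positivity), ← Complex.ofReal_mul, Complex.ofReal_im]
      rw [Complex.ofReal_cpow (by positivity), ← Complex.cpow_mul z
        (by rw [h5]; linarith [Real.pi_pos]) (by rw [h5]; exact Real.pi_pos.le)]
      push_cast
      ring_nf
    have hr1 : ((r⁻¹ : ℝ) : ℂ) * (r : ℂ) = 1 := by
      rw [← Complex.ofReal_mul, inv_mul_cancel₀ hr0.ne', Complex.ofReal_one]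
    rw [e2]
    linear_combination (((Dk K * √(nI n) : ℝ) : ℂ) ^ z * (2 * Real.pi : ℂ) ^ (-(2 * z)) *
      (Gamma (z + (q + ν) / 2) * Gamma (z + (q - ν) / 2)) *
      (∑' m : HSG.Id K, LM m * ((nI m : ℝ) : ℂ) ^ (-z))) * hr1
  · show ((r⁻¹ : ℝ) : ℂ) * Λ₀ (1 - z) = θ * (starRingEnd ℂ) (((r⁻¹ : ℝ) : ℂ) *
      Λ₀ ((starRingEnd ℂ) z))
    rw [h3 z, map_mul, Complex.conj_ofReal]
    ring
  · show (w * (((r⁻¹ : ℝ) : ℂ) * Λ₀ (1 / 2 + t * I))).im = 0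
    have e : w * (((r⁻¹ : ℝ) : ℂ) * Λ₀ (1 / 2 + t * I)) =
        ((r⁻¹ : ℝ) : ℂ) * (w * Λ₀ (1 / 2 + t * I)) := by ring
    rw [e, Complex.im_ofReal_mul, h5, mul_zero]
  · obtain ⟨t, h8, h9⟩ := h6 T
    exact ⟨t, h8, by rw [hord]; exact h9⟩
  · obtain ⟨t, h8, h9⟩ := h7 T
    exact ⟨t, h8, by rw [hord]; exact h9⟩

end main

end Pool.Agent.HI
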