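import Pool.Agent.Lib_helper25.HIF.DX
import Pool.Agent.Lib_helper25.HIF.DXL
import Pool.Agent.Lib_helper98.H4F.GG

/-! # Project HI, block L1: the quotient of Gamma values -/

namespace Pool.Agent.HI
open Complex MeasureTheory Set Filter Topology

/-- `|e^ζ - 1| ≤ |ζ| max(1, e^{Re ζ})` -/
theorem exp_bd (w : ℂ) {M : ℝ} (h0 : 1 ≤ M) (h1 : Real.exp w.re ≤ M) : ‖cexp w - 1‖ ≤ ‖w‖ * M := by
  have hd : ∀ y ∈ Icc (0 : ℝ) 1, HasDerivWithinAt (fun y : ℝ => cexp (y * w)) (w * cexp (y * w))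
      (Icc 0 1) y := by
    intro y _
    have h2 : HasDerivAt (fun y : ℝ => (y : ℂ) * w) w y := by
      simpa using (hasDerivAt_id y).ofReal_comp.mul_const w
    have h3 := h2.cexp
    refine HasDerivAt.hasDerivWithinAt ?_
    rw [mul_comm w]
    exact h3
  have hb : ∀ y ∈ Icc (0 : ℝ) 1, ‖w * cexp (y * w)‖ ≤ ‖w‖ * M := by
    intro y hy
    rw [norm_mul, Complex.norm_exp]
    refine mul_le_mul_of_nonneg_left ?_ (norm_nonneg _)
    rw [re_ofReal_mul]
    rcases le_total 0 w.re with hw | hw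
    · refine (Real.exp_le_exp.2 ?_).trans h1
      nlinarith [hy.1, hy.2]
    · refine (Real.exp_le_one_iff.2 ?_).trans h0
      nlinarith [hy.1, hy.2]
  have h := (convex_Icc (0 : ℝ) 1).norm_image_sub_le_of_norm_hasDerivWithin_le hd hb
    (left_mem_Icc.2 zero_le_one) (right_mem_Icc.2 zero_le_one)
  simpa using h

theorem A_pos {u : ℝ} (hu : 0 < u) : 0 < 1 - Real.exp (-u) := by
  have : Real.exp (-u) < 1 := by
    rw [← Real.exp_zero]
    exact Real.exp_lt_exp.2 (by linarith)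
  linarith

/-- `s = -log((1-e^{-u})/u)` -/
noncomputable def l1sl (u : ℝ) : ℝ := Real.log u - Real.log (1 - Real.exp (-u))

theorem l1sl_nonneg {u : ℝ} (hu : 0 < u) : 0 ≤ l1sl u := by
  unfold l1sl
  have h := Real.add_one_le_exp (-u)
  have := Real.log_le_log (A_pos hu) (by linarith : 1 - Real.exp (-u) ≤ u)
  linarith

theorem sl_le {u : ℝ} (hu : 0 < u) : l1sl u ≤ u := by
  unfold l1sl
  have h1 : u * Real.exp (-u) ≤ 1 - Real.exp (-u) := by
    have h2 := Real.add_one_le_exp u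
    have h3 : Real.exp (-u) * Real.exp u = 1 := by rw [← Real.exp_add]; simp
    have h4 := Real.exp_pos (-u)
    nlinarith
  have h2 := Real.log_le_log (by positivity) h1
  rw [Real.log_mul hu.ne' (Real.exp_pos _).ne', Real.log_exp] at h2
  linarith

/-- `(1-e^{-u})^b = u^b e^{-b s}` -/
theorem pw {u : ℝ} (hu : 0 < u) (b : ℂ) :
    ((1 - Real.exp (-u) : ℝ) : ℂ) ^ b = (u : ℂ) ^ b * cexp (-(b * (l1sl u : ℂ))) := by
  have hA := A_pos hu
  rw [cpow_def_of_ne_zero (ofReal_ne_zero.2 hA.ne'), cpow_def_of_ne_zero (ofReal_ne_zero.2 hu.ne'),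
    ← ofReal_log hA.le, ← ofReal_log hu.le, ← Complex.exp_add]
  congr 1
  unfold l1sl
  push_cast
  ring

/-- the difference of the two kernels -/
noncomputable def rr (a : ℂ) (u : ℝ) : ℂ :=
  ((1 - Real.exp (-u) : ℝ) : ℂ) ^ (a - 1) - (u : ℂ) ^ (a - 1)

/-- its derivative -/
noncomputable def rd (a : ℂ) (u : ℝ) : ℂ :=
  (a - 1) * ((Real.exp (-u) : ℂ) * ((1 - Real.exp (-u) : ℝ) : ℂ) ^ (a - 2) - (u : ℂ) ^ (a - 2))

theorem rr_deriv (a : ℂ) {u : ℝ} (hu : 0 < u) : HasDerivAt (rr a) (rd a u) u := by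
  have hA := A_pos hu
  have h1 : HasDerivAt (fun u : ℝ => 1 - Real.exp (-u)) (Real.exp (-u)) u := by
    have := ((hasDerivAt_neg u).exp).const_sub 1
    simpa using this
  have hc : ∀ w : ℂ, w ∈ slitPlane → HasDerivAt (fun w : ℂ => w ^ (a - 1))
      ((a - 1) * w ^ (a - 1 - 1)) w := by
    intro w hw
    have := (hasDerivAt_id w).cpow_const (c := a - 1) hw
    simpa using this
  have h2 : HasDerivAt (fun u : ℝ => ((1 - Real.exp (-u) : ℝ) : ℂ) ^ (a - 1))
      ((a - 1) * ((1 - Real.exp (-u) : ℝ) : ℂ) ^ (a - 1 - 1) * ((Real.exp (-u) : ℝ) : ℂ)) u :=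
    (hc _ (Or.inl (by rw [ofReal_re]; exact hA))).comp u h1.ofReal_comp
  have h3 : HasDerivAt (fun u : ℝ => (u : ℂ) ^ (a - 1)) ((a - 1) * (u : ℂ) ^ (a - 1 - 1) * ((1 : ℝ) : ℂ)) u :=
    (hc _ (Or.inl (by rw [ofReal_re]; exact hu))).comp u (hasDerivAt_id u).ofReal_comp
  refine (h2.sub h3).congr_deriv ?_
  unfold rd
  have e : a - 1 - 1 = a - 2 := by ring
  rw [e]
  push_cast
  ring

/-- the bound of the difference -/
theorem rr_bd {a : ℂ} (h1 : a.re < 1) {u : ℝ} (hu : 0 < u) :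
    ‖rr a u‖ ≤ ‖a - 1‖ * (u ^ a.re * Real.exp ((1 - a.re) * u)) := by
  unfold rr
  have hs0 := l1sl_nonneg hu
  have hs1 := sl_le hu
  have e : (u : ℂ) ^ (a - 1) * cexp (-((a - 1) * (l1sl u : ℂ))) - (u : ℂ) ^ (a - 1) =
      (u : ℂ) ^ (a - 1) * (cexp (-((a - 1) * (l1sl u : ℂ))) - 1) := by ring
  rw [pw hu, e, norm_mul, norm_cpow_eq_rpow_re_of_pos hu]
  have h2 := exp_bd (-((a - 1) * (l1sl u : ℂ))) (M := Real.exp ((1 - a.re) * u))
    (Real.one_le_exp (mul_nonneg (by linarith) hu.le)) (Real.exp_le_exp.2 (by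
      rw [neg_re, mul_re, ofReal_re, ofReal_im, mul_zero, sub_zero, sub_re, one_re]
      nlinarith))
  rw [norm_neg, norm_mul, norm_real, Real.norm_of_nonneg hs0] at h2
  have h3 : u ^ (a - 1).re * u = u ^ a.re := by
    have : u ^ (a - 1).re * u = u ^ (a - 1).re * u ^ (1 : ℝ) := by rw [Real.rpow_one]
    rw [this, ← Real.rpow_add hu]
    congr 1
    simp
  calc u ^ (a - 1).re * ‖cexp (-((a - 1) * (l1sl u : ℂ))) - 1‖
      ≤ u ^ (a - 1).re * (‖a - 1‖ * u * Real.exp ((1 - a.re) * u)) := by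
        refine mul_le_mul_of_nonneg_left (h2.trans ?_) (by positivity)
        gcongr
    _ = ‖a - 1‖ * (u ^ (a - 1).re * u * Real.exp ((1 - a.re) * u)) := by ring
    _ = _ := by rw [h3]

/-- the bound of the derivative -/
theorem rd_bd {a : ℂ} (h1 : a.re < 1) {u : ℝ} (hu : 0 < u) :
    ‖rd a u‖ ≤ ‖a - 1‖ * (1 + ‖a - 2‖) * (u ^ (a.re - 1) * Real.exp ((1 - a.re) * u)) := by
  unfold rd
  have hs0 := l1sl_nonneg hu
  have hs1 := sl_le hu
  have e : (Real.exp (-u) : ℂ) * ((u : ℂ) ^ (a - 2) * cexp (-((a - 2) * (l1sl u : ℂ)))) -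
      (u : ℂ) ^ (a - 2) = (u : ℂ) ^ (a - 2) * (cexp (-(u : ℂ) - (a - 2) * (l1sl u : ℂ)) - 1) := by
    rw [sub_eq_add_neg (-(u : ℂ)), Complex.exp_add]
    push_cast
    ring
  rw [pw hu, e, norm_mul, norm_mul, norm_cpow_eq_rpow_re_of_pos hu]
  have h2 := exp_bd (-(u : ℂ) - (a - 2) * (l1sl u : ℂ)) (M := Real.exp ((1 - a.re) * u))
    (Real.one_le_exp (mul_nonneg (by linarith) hu.le)) (Real.exp_le_exp.2 (by
      rw [sub_re, neg_re, mul_re, ofReal_re, ofReal_re, ofReal_im, mul_zero, sub_zero, sub_re]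
      have : (2 : ℂ).re = 2 := rfl
      rw [this]
      nlinarith))
  have h4 : ‖-(u : ℂ) - (a - 2) * (l1sl u : ℂ)‖ ≤ (1 + ‖a - 2‖) * u := by
    refine (norm_sub_le _ _).trans ?_
    rw [norm_neg, norm_mul, norm_real, norm_real, Real.norm_of_nonneg hs0, Real.norm_of_nonneg hu.le]
    nlinarith [norm_nonneg (a - 2)]
  have h3 : u ^ (a - 2).re * u = u ^ (a.re - 1) := by
    have : u ^ (a - 2).re * u = u ^ (a - 2).re * u ^ (1 : ℝ) := by rw [Real.rpow_one]
    rw [this, ← Real.rpow_add hu]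
    congr 1
    rw [sub_re]
    have : (2 : ℂ).re = 2 := rfl
    rw [this]
    ring
  calc ‖a - 1‖ * (u ^ (a - 2).re * ‖cexp (-(u : ℂ) - (a - 2) * (l1sl u : ℂ)) - 1‖)
      ≤ ‖a - 1‖ * (u ^ (a - 2).re * ((1 + ‖a - 2‖) * u * Real.exp ((1 - a.re) * u))) := by
        refine mul_le_mul_of_nonneg_left (mul_le_mul_of_nonneg_left (h2.trans ?_) (by positivity))
          (norm_nonneg _)
        gcongr
    _ = ‖a - 1‖ * (1 + ‖a - 2‖) * (u ^ (a - 2).re * u * Real.exp ((1 - a.re) * u)) := by ring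
    _ = _ := by rw [h3]

/-- `u^b e^{-c u}` is integrable -/
theorem pint {b c : ℝ} (hb : -1 < b) (hc : 0 < c) :
    IntegrableOn (fun u : ℝ => u ^ b * Real.exp (-(c * u))) (Ioi 0) := by
  have h := integrableOn_rpow_mul_exp_neg_mul_rpow (p := 1) (s := b) (b := c) hb one_pos hc
  refine h.congr_fun ?_ measurableSet_Ioi
  intro u _
  simp only
  rw [Real.rpow_one]
  ring_nf

/-- the Beta integral as a Laplace transform -/
theorem beta {a z : ℂ} (ha : 0 < a.re) (hz : 0 < z.re) :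
    IntegrableOn (fun u : ℝ => cexp (-(z * u)) * ((1 - Real.exp (-u) : ℝ) : ℂ) ^ (a - 1))
      (Ioi 0) ∧
    ∫ u in Ioi (0 : ℝ), cexp (-(z * u)) * ((1 - Real.exp (-u) : ℝ) : ℂ) ^ (a - 1) =
      betaIntegral z a := by
  have himg : (fun u : ℝ => Real.exp (-u)) '' (Ioi 0) = Ioo 0 1 := by
    ext x
    constructor
    · rintro ⟨u, hu, rfl⟩
      refine ⟨Real.exp_pos _, ?_⟩
      have := A_pos (show (0 : ℝ) < u from hu)
      linarith
    · rintro ⟨h0, h1⟩
      refine ⟨-Real.log x, ?_, ?_⟩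
      · have := Real.log_neg h0 h1
        show 0 < -Real.log x
        linarith
      · simp only [neg_neg]
        exact Real.exp_log h0
  have hd : ∀ u ∈ Ioi (0 : ℝ), HasDerivWithinAt (fun u : ℝ => Real.exp (-u)) (-Real.exp (-u))
      (Ioi 0) u := by
    intro u _
    have := (hasDerivAt_neg u).exp
    refine HasDerivAt.hasDerivWithinAt ?_
    simpa using this
  have hinj : InjOn (fun u : ℝ => Real.exp (-u)) (Ioi 0) := by
    intro a _ b _ h
    have := Real.exp_injective h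
    linarith
  set g : ℝ → ℂ := fun x => (x : ℂ) ^ (z - 1) * (1 - x : ℂ) ^ (a - 1) with hg
  have hgi : IntegrableOn g (Ioo 0 1) := by
    have := betaIntegral_convergent (u := z) (v := a) hz ha
    rw [intervalIntegrable_iff_integrableOn_Ioo_of_le zero_le_one] at this
    exact this
  have hpt : ∀ u ∈ Ioi (0 : ℝ), |-Real.exp (-u)| • g (Real.exp (-u)) =
      cexp (-(z * u)) * ((1 - Real.exp (-u) : ℝ) : ℂ) ^ (a - 1) := by
    intro u hu
    have hu : (0 : ℝ) < u := hu
    have hA := A_pos hu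
    rw [abs_neg, abs_of_pos (Real.exp_pos _), hg]
    simp only
    rw [real_smul, ← mul_assoc]
    congr 1
    · have h1 : ((Real.exp (-u) : ℝ) : ℂ) ≠ 0 := ofReal_ne_zero.2 (Real.exp_pos _).ne'
      have h2 : ((Real.exp (-u) : ℝ) : ℂ) * ((Real.exp (-u) : ℝ) : ℂ) ^ (z - 1) =
          ((Real.exp (-u) : ℝ) : ℂ) ^ z := by
        rw [cpow_sub _ _ h1, cpow_one]
        field_simp
      rw [h2, cpow_def_of_ne_zero h1, ← ofReal_log (Real.exp_pos _).le, Real.log_exp]
      congr 1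
      push_cast
      ring
    · congr 1
      push_cast
      rfl
  constructor
  · rw [← himg, integrableOn_image_iff_integrableOn_abs_deriv_smul measurableSet_Ioi hd hinj] at hgi
    exact hgi.congr_fun hpt measurableSet_Ioi
  · have h1 := integral_image_eq_integral_abs_deriv_smul measurableSet_Ioi hd hinj g
    rw [himg] at h1
    rw [← setIntegral_congr_fun measurableSet_Ioi hpt, ← h1, betaIntegral,
      intervalIntegral.integral_of_le zero_le_one, integral_Ioc_eq_integral_Ioo]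

/-- the main estimate -/
theorem main {a : ℂ} (h0 : 0 < a.re) (h1 : a.re < 1) : ∃ C : ℝ, 0 ≤ C ∧ ∀ z : ℂ, 1 ≤ z.re →
    ‖betaIntegral z a - (1 / z) ^ a * Gamma a‖ ≤ C * ‖z‖⁻¹ := by
  set D : ℝ := ‖a - 1‖ * (1 + ‖a - 2‖) with hD
  have hD0 : 0 ≤ D := by positivity
  have hgi : IntegrableOn (fun u : ℝ => D * (u ^ (a.re - 1) * Real.exp (-(a.re * u)))) (Ioi 0) :=
    (pint (by linarith) h0).const_mul D
  refine ⟨∫ u in Ioi (0 : ℝ), D * (u ^ (a.re - 1) * Real.exp (-(a.re * u))), ?_, ?_⟩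
  · refine setIntegral_nonneg measurableSet_Ioi fun u hu => ?_
    have hu : (0 : ℝ) < u := hu
    positivity
  intro z hz1
  have hz : 0 < z.re := by linarith
  have hz0 : z ≠ 0 := by
    rintro rfl
    simp at hz
  obtain ⟨hb1, hb2⟩ := beta h0 hz
  have hg1 : IntegrableOn (fun u : ℝ => cexp (-(z * u)) * (u : ℂ) ^ (a - 1)) (Ioi 0) := by
    have h := pint (b := a.re - 1) (c := z.re) (by linarith) hz
    refine Integrable.mono' h ?_ ?_
    · refine ContinuousOn.aestronglyMeasurable ?_ measurableSet_Ioi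
      refine ContinuousOn.mul (by fun_prop) ?_
      intro u hu
      refine ContinuousAt.continuousWithinAt ?_
      exact ContinuousAt.cpow (by fun_prop) continuousAt_const (Or.inl (by simpa using hu))
    · filter_upwards [ae_restrict_mem measurableSet_Ioi] with u hu
      have hu : (0 : ℝ) < u := hu
      rw [norm_mul, norm_cpow_eq_rpow_re_of_pos hu, Complex.norm_exp, mul_comm]
      refine le_of_eq ?_
      congr 2
      simp
  have hg2 : ∫ u in Ioi (0 : ℝ), cexp (-(z * u)) * (u : ℂ) ^ (a - 1) =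
      (1 / z) ^ a * Gamma a := by
    rw [← Pool.Agent.H4.gg_integral (a := a) (r := z) h0 hz]
    refine setIntegral_congr_fun measurableSet_Ioi ?_
    intro u _
    simp only
    ring
  have hri : IntegrableOn (fun u : ℝ => rr a u * cexp (-(z * u))) (Ioi 0) := by
    refine IntegrableOn.congr_fun (hb1.sub hg1) ?_ measurableSet_Ioi
    intro u _
    simp only [Pi.sub_apply]
    unfold rr
    ring
  have hreq : ∫ u in Ioi (0 : ℝ), rr a u * cexp (-(z * u)) =
      betaIntegral z a - (1 / z) ^ a * Gamma a := by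
    rw [← hb2, ← hg2, ← integral_sub hb1 hg1]
    refine setIntegral_congr_fun measurableSet_Ioi ?_
    intro u _
    simp only
    unfold rr
    ring
  have hbd : ∀ u ∈ Ioi (0 : ℝ), ‖rd a u * (-cexp (-(z * u)) / z)‖ ≤
      D * (u ^ (a.re - 1) * Real.exp (-(a.re * u))) * ‖z‖⁻¹ := by
    intro u hu
    have hu : (0 : ℝ) < u := hu
    rw [norm_mul, norm_div, norm_neg, Complex.norm_exp, div_eq_mul_inv, ← mul_assoc]
    refine mul_le_mul_of_nonneg_right ?_ (by positivity)
    have h2 := rd_bd h1 hu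
    rw [← hD] at h2
    have h3 : Real.exp ((-(z * u)).re) ≤ Real.exp (-u) := by
      refine Real.exp_le_exp.2 ?_
      rw [neg_re, mul_re, ofReal_re, ofReal_im, mul_zero, sub_zero]
      nlinarith
    calc ‖rd a u‖ * Real.exp ((-(z * u)).re)
        ≤ (D * (u ^ (a.re - 1) * Real.exp ((1 - a.re) * u))) * Real.exp (-u) := by
          exact mul_le_mul h2 h3 (Real.exp_pos _).le (by positivity)
      _ = D * (u ^ (a.re - 1) * (Real.exp ((1 - a.re) * u) * Real.exp (-u))) := by ring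
      _ = _ := by
          rw [← Real.exp_add]
          congr 3
          ring_nf
  have hr'i : IntegrableOn (fun u : ℝ => rd a u * (-cexp (-(z * u)) / z)) (Ioi 0) := by
    refine Integrable.mono' (hgi.mul_const ‖z‖⁻¹) ?_ ?_
    · refine ContinuousOn.aestronglyMeasurable ?_ measurableSet_Ioi
      refine ContinuousOn.mul ?_ (by fun_prop)
      intro u hu
      have hu : (0 : ℝ) < u := hu
      have hA := A_pos hu
      refine ContinuousAt.continuousWithinAt ?_
      unfold rd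
      refine ContinuousAt.mul continuousAt_const (ContinuousAt.sub (ContinuousAt.mul (by fun_prop) ?_) ?_)
      · refine ContinuousAt.cpow (by fun_prop) continuousAt_const (Or.inl ?_)
        rw [ofReal_re]
        exact hA
      · exact ContinuousAt.cpow (by fun_prop) continuousAt_const (Or.inl (by simpa using hu))
    · filter_upwards [ae_restrict_mem measurableSet_Ioi] with u hu
      exact hbd u hu
  have hv : ∀ u ∈ Ioi (0 : ℝ), HasDerivAt (fun u : ℝ => -cexp (-(z * u)) / z)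
      (cexp (-(z * u))) u := by
    intro u _
    have h1 : HasDerivAt (fun u : ℝ => -(z * (u : ℂ))) (-z) u := by
      have := ((hasDerivAt_id u).ofReal_comp.const_mul (-z))
      simpa [neg_mul] using this
    have h2 := (h1.cexp.neg).div_const z
    refine h2.congr_deriv ?_
    field_simp
  have hlim0 : Tendsto (fun u : ℝ => ‖a - 1‖ * (u ^ a.re * Real.exp ((1 - a.re) * u))) (𝓝[>] 0)
      (𝓝 0) := by
    have h2 : ContinuousAt (fun u : ℝ => ‖a - 1‖ * (u ^ a.re * Real.exp ((1 - a.re) * u))) 0 := by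
      refine ContinuousAt.mul continuousAt_const (ContinuousAt.mul ?_ (by fun_prop))
      exact Real.continuousAt_rpow_const _ _ (Or.inr h0.le)
    have h3 := h2.tendsto
    simp only [Real.zero_rpow h0.ne', zero_mul, mul_zero] at h3
    exact h3.mono_left nhdsWithin_le_nhds
  have hparts := integral_Ioi_mul_deriv_eq_deriv_mul (a := (0 : ℝ)) (u := fun u => rr a u)
    (u' := fun u => rd a u) (v := fun u : ℝ => -cexp (-(z * u)) / z)
    (v' := fun u : ℝ => cexp (-(z * u))) (a' := 0) (b' := 0)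
    (fun u hu => rr_deriv a hu) hv hri hr'i ?_ ?_
  rotate_left
  · have h2 : Tendsto (fun u : ℝ => rr a u) (𝓝[>] 0) (𝓝 0) := by
      rw [tendsto_zero_iff_norm_tendsto_zero]
      refine squeeze_zero' (Eventually.of_forall fun u => norm_nonneg _) ?_ hlim0
      filter_upwards [self_mem_nhdsWithin] with u hu
      exact rr_bd h1 hu
    have h3 : Tendsto (fun u : ℝ => -cexp (-(z * u)) / z) (𝓝[>] 0) (𝓝 (-cexp (-(z * (0 : ℝ))) / z)) := by
      have : Continuous (fun u : ℝ => -cexp (-(z * u)) / z) := by fun_prop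
      exact (this.tendsto 0).mono_left nhdsWithin_le_nhds
    have := h2.mul h3
    rw [zero_mul] at this
    exact this
  · rw [tendsto_zero_iff_norm_tendsto_zero]
    have h3 : Tendsto (fun u : ℝ => ‖a - 1‖ * ‖z‖⁻¹ * (u ^ a.re * Real.exp (-a.re * u))) atTop (𝓝 0) := by
      have := (tendsto_rpow_mul_exp_neg_mul_atTop_nhds_zero a.re a.re h0).const_mul
        (‖a - 1‖ * ‖z‖⁻¹)
      rwa [mul_zero] at this
    refine squeeze_zero' (Eventually.of_forall fun u => norm_nonneg _) ?_ h3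
    filter_upwards [eventually_gt_atTop 0] with u hu
    simp only [Pi.mul_apply]
    rw [norm_mul, norm_div, norm_neg, Complex.norm_exp, div_eq_mul_inv]
    have h4 : Real.exp ((-(z * u)).re) ≤ Real.exp (-u) := by
      refine Real.exp_le_exp.2 ?_
      rw [neg_re, mul_re, ofReal_re, ofReal_im, mul_zero, sub_zero]
      nlinarith
    calc ‖rr a u‖ * (Real.exp ((-(z * u)).re) * ‖z‖⁻¹)
        ≤ (‖a - 1‖ * (u ^ a.re * Real.exp ((1 - a.re) * u))) * (Real.exp (-u) * ‖z‖⁻¹) := by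
          refine mul_le_mul (rr_bd h1 hu) ?_ (by positivity) (by positivity)
          exact mul_le_mul_of_nonneg_right h4 (by positivity)
      _ = ‖a - 1‖ * ‖z‖⁻¹ * (u ^ a.re * (Real.exp ((1 - a.re) * u) * Real.exp (-u))) := by ring
      _ = _ := by
          rw [← Real.exp_add]
          congr 3
          ring_nf
  rw [hreq, sub_zero, zero_sub] at hparts
  rw [hparts, norm_neg, ← integral_mul_const]
  refine norm_integral_le_of_norm_le (hgi.mul_const ‖z‖⁻¹) ?_
  filter_upwards [ae_restrict_mem measurableSet_Ioi] with u hu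
  exact hbd u hu

theorem gam_asy {x : ℝ} (hx : 1 ≤ x) {a : ℂ} (h0 : 0 < a.re) (h1 : a.re < 1) {e₀ : ℝ}
    (he₀ : e₀ = 1 ∨ e₀ = -1) :
    Tendsto (fun t : ℝ => Gamma (x + ((e₀ * t : ℝ) : ℂ) * I) * (((e₀ * t : ℝ) : ℂ) * I) ^ a /
      Gamma (x + ((e₀ * t : ℝ) : ℂ) * I + a)) atTop (𝓝 1) := by
  obtain ⟨C, hC, hm⟩ := main h0 h1
  have hGa : Gamma a ≠ 0 := Gamma_ne_zero_of_re_pos h0
  have he2 : |e₀| = 1 := by rcases he₀ with h | h <;> rw [h] <;> norm_num
  have he0 : e₀ ≠ 0 := by rcases he₀ with h | h <;> rw [h] <;> norm_num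
  have hsl : (((e₀ : ℝ) : ℂ) * I) ∈ slitPlane := by
    rw [mem_slitPlane_iff]
    right
    simpa using he0
  -- the main term
  have hmain : Tendsto (fun t : ℝ => (((e₀ * t : ℝ) : ℂ) * I) ^ a *
      (1 / (x + ((e₀ * t : ℝ) : ℂ) * I)) ^ a) atTop (𝓝 1) := by
    have hcont : ContinuousAt (fun y : ℝ => cexp (a * (log ((e₀ : ℂ) * I) -
        log ((y : ℂ) + (e₀ : ℂ) * I)))) 0 := by
      have h2 : ContinuousAt (fun y : ℝ => log ((y : ℂ) + (e₀ : ℂ) * I)) 0 := by
        refine ContinuousAt.clog (by fun_prop) ?_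
        simpa using hsl
      have h3 : ContinuousAt (fun y : ℝ => a * (log ((e₀ : ℂ) * I) -
        log ((y : ℂ) + (e₀ : ℂ) * I))) 0 := continuousAt_const.mul (continuousAt_const.sub h2)
      exact h3.cexp
    have h4 : Tendsto (fun t : ℝ => x / t) atTop (𝓝 0) := tendsto_const_nhds.div_atTop tendsto_id
    have h5 := hcont.tendsto.comp h4
    simp only [ofReal_zero, zero_add, sub_self, mul_zero, Complex.exp_zero] at h5
    refine h5.congr' ?_
    filter_upwards [eventually_gt_atTop 0] with t ht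
    simp only [Function.comp_def]
    have e1 : ((e₀ * t : ℝ) : ℂ) * I = (t : ℂ) * ((e₀ : ℂ) * I) := by push_cast; ring
    have e2 : (x : ℂ) + ((e₀ * t : ℝ) : ℂ) * I = (t : ℂ) * (((x / t : ℝ) : ℂ) + (e₀ : ℂ) * I) := by
      push_cast
      have : (t : ℂ) ≠ 0 := ofReal_ne_zero.2 ht.ne'
      field_simp
    have hn1 : ((e₀ : ℂ) * I) ≠ 0 := slitPlane_ne_zero hsl
    have hsl2 : (((x / t : ℝ) : ℂ) + (e₀ : ℂ) * I) ∈ slitPlane := by
      rw [mem_slitPlane_iff]
      right
      simpa using he0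
    have hn2 := slitPlane_ne_zero hsl2
    have hn3 : (t : ℂ) * (((x / t : ℝ) : ℂ) + (e₀ : ℂ) * I) ≠ 0 :=
      mul_ne_zero (ofReal_ne_zero.2 ht.ne') hn2
    have harg : ((t : ℂ) * (((x / t : ℝ) : ℂ) + (e₀ : ℂ) * I)).arg ≠ Real.pi := by
      rw [← e2]
      intro h
      rw [Complex.arg_eq_pi_iff] at h
      have h6 := h.1
      simp at h6
      linarith
    rw [e2, e1, one_div, inv_cpow _ _ harg, cpow_def_of_ne_zero hn3,
      cpow_def_of_ne_zero (mul_ne_zero (ofReal_ne_zero.2 ht.ne') hn1), ← Complex.exp_neg,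
      ← Complex.exp_add, log_ofReal_mul ht hn1, log_ofReal_mul ht hn2]
    congr 1
    ring
  -- the error term
  have herr : Tendsto (fun t : ℝ => (Gamma a)⁻¹ * ((((e₀ * t : ℝ) : ℂ) * I) ^ a *
      (betaIntegral (x + ((e₀ * t : ℝ) : ℂ) * I) a -
        (1 / (x + ((e₀ * t : ℝ) : ℂ) * I)) ^ a * Gamma a))) atTop (𝓝 0) := by
    rw [tendsto_zero_iff_norm_tendsto_zero]
    have h2 : Tendsto (fun t : ℝ => ‖(Gamma a)⁻¹‖ * (Real.exp (Real.pi * |a.im|) * C) *
        t ^ (-(1 - a.re))) atTop (𝓝 0) := by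
      have := (tendsto_rpow_neg_atTop (by linarith : 0 < 1 - a.re)).const_mul
        (‖(Gamma a)⁻¹‖ * (Real.exp (Real.pi * |a.im|) * C))
      rwa [mul_zero] at this
    refine squeeze_zero' (Eventually.of_forall fun u => norm_nonneg _) ?_ h2
    filter_upwards [eventually_gt_atTop 0] with t ht
    rw [norm_mul, norm_mul, mul_assoc]
    refine mul_le_mul_of_nonneg_left ?_ (norm_nonneg _)
    have h3 := hm (x + ((e₀ * t : ℝ) : ℂ) * I) (by simpa using hx)
    have h4 : ‖((((e₀ * t : ℝ) : ℂ) * I) ^ a)‖ ≤ t ^ a.re * Real.exp (Real.pi * |a.im|) := by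
      have hne : (((e₀ * t : ℝ) : ℂ) * I) ≠ 0 :=
        mul_ne_zero (ofReal_ne_zero.2 (mul_ne_zero he0 ht.ne')) I_ne_zero
      rw [norm_cpow_of_ne_zero hne]
      have e1 : ‖((e₀ * t : ℝ) : ℂ) * I‖ = t := by
        rw [norm_mul, norm_I, mul_one, norm_real, Real.norm_eq_abs, abs_mul, he2, one_mul,
          abs_of_pos ht]
      rw [e1, div_eq_mul_inv, ← Real.exp_neg]
      refine mul_le_mul_of_nonneg_left (Real.exp_le_exp.2 ?_) (by positivity)
      have h5 := Complex.abs_arg_le_pi (((e₀ * t : ℝ) : ℂ) * I)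
      refine (neg_le_abs _).trans ?_
      rw [abs_mul]
      exact mul_le_mul_of_nonneg_right h5 (abs_nonneg _)
    have h5 : ‖(x + ((e₀ * t : ℝ) : ℂ) * I)‖⁻¹ ≤ t⁻¹ := by
      refine inv_anti₀ ht ?_
      have h6 := Complex.abs_im_le_norm ((x : ℂ) + ((e₀ * t : ℝ) : ℂ) * I)
      have e1 : ((x : ℂ) + ((e₀ * t : ℝ) : ℂ) * I).im = e₀ * t := by simp
      rw [e1, abs_mul, he2, one_mul, abs_of_pos ht] at h6
      exact h6
    calc _ ≤ (t ^ a.re * Real.exp (Real.pi * |a.im|)) * (C * t⁻¹) := by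
          refine mul_le_mul h4 (h3.trans ?_) (norm_nonneg _) (by positivity)
          exact mul_le_mul_of_nonneg_left h5 hC
      _ = Real.exp (Real.pi * |a.im|) * C * (t ^ a.re * t⁻¹) := by ring
      _ = _ := by
          rw [← Real.rpow_neg_one t, ← Real.rpow_add ht]
          congr 2
          ring
  have h := hmain.add herr
  rw [add_zero] at h
  refine h.congr' ?_
  filter_upwards [eventually_gt_atTop 0] with t ht
  have hzre : 0 < ((x : ℂ) + ((e₀ * t : ℝ) : ℂ) * I).re := by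
    have : ((x : ℂ) + ((e₀ * t : ℝ) : ℂ) * I).re = x := by simp
    rw [this]
    linarith
  have hG := Gamma_mul_Gamma_eq_betaIntegral hzre h0
  have hGn : Gamma ((x : ℂ) + ((e₀ * t : ℝ) : ℂ) * I + a) ≠ 0 := Gamma_ne_zero_of_re_pos (by
    rw [add_re]; linarith)
  have hB : betaIntegral ((x : ℂ) + ((e₀ * t : ℝ) : ℂ) * I) a =
      Gamma ((x : ℂ) + ((e₀ * t : ℝ) : ℂ) * I) * Gamma a /
        Gamma ((x : ℂ) + ((e₀ * t : ℝ) : ℂ) * I + a) := by
    rw [eq_div_iff hGn, mul_comm]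
    exact hG.symm
  rw [hB]
  generalize Gamma ((x : ℂ) + ((e₀ * t : ℝ) : ℂ) * I + a) = g1 at *
  generalize Gamma ((x : ℂ) + ((e₀ * t : ℝ) : ℂ) * I) = g2 at *
  field_simp
  ring

end Pool.Agent.HI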