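import Pool.Agent.Lib_helper25.HIF.DX
import Pool.Agent.Lib_helper25.HIF.QE
import Pool.Agent.Lib_helper25.HIF.DXL

/-!
# Project HI: block L2, a uniform bound for the kernels with complex parameter
-/

namespace Pool.Agent.HI
open Complex MeasureTheory Set Filter Topology

/-- `|Γ(1/2+iτ)|² = π / cosh(π τ)` -/
theorem l2_half (τ : ℝ) :
    ‖Gamma (1 / 2 + τ * I)‖ ^ 2 = Real.pi / Real.cosh (Real.pi * τ) := by
  have hpi := Real.pi_pos
  have hr := Complex.Gamma_mul_Gamma_one_sub (1 / 2 + τ * I)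
  have e3 : Complex.sin (Real.pi * (1 / 2 + τ * I)) = Complex.cosh (Real.pi * τ) := by
    have : (Real.pi : ℂ) * (1 / 2 + τ * I) = Real.pi * τ * I + Real.pi / 2 := by ring
    rw [this, Complex.sin_add_pi_div_two, Complex.cos_mul_I]
  have h1 : Gamma (1 - (1 / 2 + τ * I)) = (starRingEnd ℂ) (Gamma (1 / 2 + τ * I)) := by
    rw [← Complex.Gamma_conj]
    congr 1
    apply Complex.ext
    · simp; norm_num
    · simp
  have hcosh : 0 < Real.cosh (Real.pi * τ) := Real.cosh_pos _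
  have e4 : Complex.cosh (Real.pi * τ) = ((Real.cosh (Real.pi * τ) : ℝ) : ℂ) := by
    push_cast; rfl
  rw [h1, e3, e4] at hr
  have h2 := congrArg norm hr
  rw [norm_mul, Complex.norm_conj, norm_div, Complex.norm_real, Complex.norm_real,
    Real.norm_of_nonneg hpi.le, Real.norm_of_nonneg hcosh.le] at h2
  rw [pow_two]
  exact h2

/-- `|Γ(1+it)|² = π |t| / sinh(π |t|)` -/
theorem l2_one {t : ℝ} (ht : t ≠ 0) :
    ‖Gamma (1 + t * I)‖ ^ 2 = |t| * (Real.pi / Real.sinh (Real.pi * |t|)) := by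
  have hpi := Real.pi_pos
  have hti : (t * I : ℂ) ≠ 0 := by
    simp [ht]
  have e1 : Gamma (1 + t * I) = t * I * Gamma (t * I) := by
    rw [add_comm, Gamma_add_one _ hti]
  have hr := Complex.Gamma_mul_Gamma_one_sub (t * I)
  have e3 : Complex.sin (Real.pi * (t * I)) = Complex.sinh (Real.pi * t) * I := by
    rw [← mul_assoc, Complex.sin_mul_I]
  have h1 : ‖Gamma (1 - t * I)‖ = ‖Gamma (1 + t * I)‖ := by
    have : Gamma (1 - t * I) = (starRingEnd ℂ) (Gamma (1 + t * I)) := by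
      rw [← Complex.Gamma_conj]
      congr 1
      apply Complex.ext <;> simp
    rw [this, Complex.norm_conj]
  have habs : |Real.sinh (Real.pi * t)| = Real.sinh (Real.pi * |t|) := by
    rw [Real.abs_sinh, abs_mul, abs_of_pos hpi]
  have h2 : ‖Gamma (t * I)‖ * ‖Gamma (1 - t * I)‖ = Real.pi / Real.sinh (Real.pi * |t|) := by
    rw [← norm_mul, hr, e3, norm_div, norm_mul, norm_I, mul_one, Complex.norm_real,
      Real.norm_of_nonneg hpi.le]
    have : Complex.sinh (Real.pi * t) = ((Real.sinh (Real.pi * t) : ℝ) : ℂ) := by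
      push_cast; rfl
    rw [this, Complex.norm_real, Real.norm_eq_abs, habs]
  calc ‖Gamma (1 + t * I)‖ ^ 2 = ‖Gamma (1 + t * I)‖ * ‖Gamma (1 - t * I)‖ := by
        rw [h1, pow_two]
    _ = |t| * (‖Gamma (t * I)‖ * ‖Gamma (1 - t * I)‖) := by
        rw [e1, norm_mul, norm_mul, norm_I, Complex.norm_real, Real.norm_eq_abs]
        ring
    _ = _ := by rw [h2]

theorem l2_cosh_le (y : ℝ) : Real.cosh y ≤ Real.exp |y| := by
  rw [← Real.cosh_abs, Real.cosh_eq]
  have : Real.exp (-|y|) ≤ Real.exp |y| := Real.exp_le_exp.2 (by linarith [abs_nonneg y])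
  linarith

/-- lower bound on the line `1/2` -/
theorem l2_low (τ : ℝ) :
    Real.exp (-(Real.pi * |τ|) / 2) * √Real.pi ≤ ‖Gamma (1 / 2 + τ * I)‖ := by
  have hpi := Real.pi_pos
  have h1 := l2_half τ
  have h2 : Real.pi * Real.exp (-(Real.pi * |τ|)) ≤ Real.pi / Real.cosh (Real.pi * τ) := by
    rw [Real.exp_neg, ← div_eq_mul_inv]
    apply div_le_div_of_nonneg_left hpi.le (Real.cosh_pos _)
    have := l2_cosh_le (Real.pi * τ)
    rwa [abs_mul, abs_of_pos hpi] at this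
  have h3 : (Real.exp (-(Real.pi * |τ|) / 2) * √Real.pi) ^ 2 ≤ ‖Gamma (1 / 2 + τ * I)‖ ^ 2 := by
    rw [h1, mul_pow, Real.sq_sqrt hpi.le, ← Real.exp_nat_mul]
    have e : ((2 : ℕ) : ℝ) * (-(Real.pi * |τ|) / 2) = -(Real.pi * |τ|) := by push_cast; ring
    rw [e, mul_comm]
    exact h2
  exact le_of_sq_le_sq h3 (norm_nonneg _)

/-- lower bound on the lines `3/2 + q` -/
theorem l2_shift (q : ℕ) (τ : ℝ) :
    ‖(1 / 2 + τ * I : ℂ)‖ ^ (q + 1) * ‖Gamma (1 / 2 + τ * I)‖ ≤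
      ‖Gamma (3 / 2 + q + τ * I)‖ := by
  induction q with
  | zero =>
    have hne : (1 / 2 + τ * I : ℂ) ≠ 0 := by
      intro h
      have := congrArg Complex.re h
      simp at this
    have e : (3 / 2 + ((0 : ℕ) : ℂ) + τ * I) = (1 / 2 + τ * I) + 1 := by push_cast; ring
    rw [e, Gamma_add_one _ hne, norm_mul, zero_add, pow_one]
  | succ q ih =>
    have hne : (3 / 2 + q + τ * I : ℂ) ≠ 0 := by
      intro h
      have := congrArg Complex.re h
      simp at this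
      have hq : (0 : ℝ) ≤ q := Nat.cast_nonneg q
      linarith
    have e : (3 / 2 + ((q + 1 : ℕ) : ℂ) + τ * I) = (3 / 2 + q + τ * I) + 1 := by push_cast; ring
    have h1 : ‖(1 / 2 + τ * I : ℂ)‖ ≤ ‖(3 / 2 + q + τ * I : ℂ)‖ := by
      rw [← Real.sqrt_sq (norm_nonneg (1 / 2 + τ * I : ℂ)),
        ← Real.sqrt_sq (norm_nonneg (3 / 2 + q + τ * I : ℂ))]
      apply Real.sqrt_le_sqrt
      rw [Complex.sq_norm, Complex.sq_norm, Complex.normSq_apply, Complex.normSq_apply]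
      simp
      have hq : (0 : ℝ) ≤ q := Nat.cast_nonneg q
      nlinarith
    rw [e, Gamma_add_one _ hne, norm_mul, pow_succ']
    calc ‖(1 / 2 + τ * I : ℂ)‖ * ‖(1 / 2 + τ * I : ℂ)‖ ^ (q + 1) * ‖Gamma (1 / 2 + τ * I)‖
        = ‖(1 / 2 + τ * I : ℂ)‖ * (‖(1 / 2 + τ * I : ℂ)‖ ^ (q + 1) *
            ‖Gamma (1 / 2 + τ * I)‖) := by ring
      _ ≤ _ := mul_le_mul h1 ih (by positivity) (norm_nonneg _)

/-- `|t| ≤ |1/2 + iτ| (1 + 2|x|)` for `|t| ≤ |τ| + |x|` -/
theorem l2_t {τ x t : ℝ} (h : |t| ≤ |τ| + |x|) :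
    |t| ≤ ‖(1 / 2 + τ * I : ℂ)‖ * (1 + 2 * |x|) := by
  have h1 : |τ| ≤ ‖(1 / 2 + τ * I : ℂ)‖ := by
    have := Complex.abs_im_le_norm (1 / 2 + τ * I : ℂ)
    simpa using this
  have h2 : 1 / 2 ≤ ‖(1 / 2 + τ * I : ℂ)‖ := by
    have := Complex.abs_re_le_norm (1 / 2 + τ * I : ℂ)
    simpa using this
  nlinarith [abs_nonneg x, abs_nonneg τ]

theorem l2_poly (m : ℕ) (hm : 1 ≤ m) {y : ℝ} (hy : 0 ≤ y) :
    (1 + 2 * y) ^ m ≤ (4 * (m : ℝ)) ^ m * Real.exp (y / 2) := by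
  have hm' : (1 : ℝ) ≤ m := by exact_mod_cast hm
  have hm0 : (0 : ℝ) < m := by linarith
  have h1 : 1 + 2 * y ≤ 4 * m * Real.exp (y / (2 * m)) := by
    have := Real.add_one_le_exp (y / (2 * m))
    have h2 : 4 * (m : ℝ) * (y / (2 * m) + 1) ≤ 4 * m * Real.exp (y / (2 * m)) :=
      mul_le_mul_of_nonneg_left this (by positivity)
    have h3 : 4 * (m : ℝ) * (y / (2 * m) + 1) = 2 * y + 4 * m := by
      field_simp
      ring
    linarith
  calc (1 + 2 * y) ^ m ≤ (4 * m * Real.exp (y / (2 * m))) ^ m :=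
        pow_le_pow_left₀ (by positivity) h1 m
    _ = (4 * (m : ℝ)) ^ m * Real.exp (y / 2) := by
        rw [mul_pow, ← Real.exp_nat_mul]
        congr 2
        field_simp

theorem ku_bd (q : ℕ) : ∃ C : ℝ, 0 ≤ C ∧ ∀ x t : ℝ, 1 ≤ |t| →
    ‖ku0 q (uh x) t‖ ≤ C * Real.exp (4 * |x|) * (hh q 0 t / |t|) := by
  have hpi := Real.pi_pos
  have hpi3 := Real.pi_gt_three
  have hpi4 : Real.pi < 3.15 := Real.pi_lt_d2
  refine ⟨4 * (4 * ((q + 2 : ℕ) : ℝ)) ^ (q + 2), by positivity, fun x t ht => ?_⟩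
  have ht0 : t ≠ 0 := by
    intro h
    rw [h, abs_zero] at ht
    linarith
  have htp : 0 < |t| := abs_pos.2 ht0
  -- the value of the right side
  have hsinh : 0 < Real.sinh (Real.pi * |t|) := Real.sinh_pos_iff.2 (by positivity)
  have hh1 : hh q 0 t / |t| = Real.sinh (Real.pi * |t|) / Real.pi / |t| ^ (q + 2) := by
    unfold hh
    have : (1 + ((0 : ℝ) : ℂ) + t * I) = 1 + t * I := by simp
    rw [this, l2_one ht0]
    field_simp
    ring
  have hs1 : Real.exp (Real.pi * |t|) / 4 ≤ Real.sinh (Real.pi * |t|) := by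
    rw [Real.sinh_eq]
    have h1 : Real.exp (-(Real.pi * |t|)) ≤ 1 / 2 * Real.exp (Real.pi * |t|) := by
      have h2 : Real.exp (-(Real.pi * |t|)) ≤ Real.exp 0 := Real.exp_le_exp.2 (by
        have : 0 ≤ Real.pi * |t| := by positivity
        linarith)
      have h3 : Real.pi * |t| + 1 ≤ Real.exp (Real.pi * |t|) := Real.add_one_le_exp _
      rw [Real.exp_zero] at h2
      nlinarith
    linarith
  -- the left side
  set w₁ : ℂ := 1 / 2 + ((x - t : ℝ) : ℂ) * I with hw₁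
  set w₂ : ℂ := 1 / 2 + ((x + t : ℝ) : ℂ) * I with hw₂
  have e1 : (1 + uh x - t * I : ℂ) = 3 / 2 + ((0 : ℕ) : ℂ) + ((x - t : ℝ) : ℂ) * I := by
    unfold uh; push_cast; ring
  have e2 : (1 + q + uh x + t * I : ℂ) = 3 / 2 + q + ((x + t : ℝ) : ℂ) * I := by
    unfold uh; push_cast; ring
  have b1 := l2_shift 0 (x - t)
  have b2 := l2_shift q (x + t)
  have c1 := l2_low (x - t)
  have c2 := l2_low (x + t)
  have d1 : |t| ≤ ‖w₁‖ * (1 + 2 * |x|) := by
    apply l2_t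
    have : |t| ≤ |t - x| + |x| := by
      have := abs_add_le (t - x) x
      simpa using this
    rwa [abs_sub_comm] at this
  have d2 : |t| ≤ ‖w₂‖ * (1 + 2 * |x|) := by
    apply l2_t
    have := abs_add_le (x + t) (-x)
    rw [abs_neg] at this
    have e : x + t + -x = t := by ring
    rwa [e] at this
  have hx1 : 0 < 1 + 2 * |x| := by positivity
  -- the exponential factor
  have f1 : Real.exp (-(Real.pi * |x - t|) / 2) * √Real.pi *
      (Real.exp (-(Real.pi * |x + t|) / 2) * √Real.pi) =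
      Real.pi * Real.exp (-(Real.pi * (|x - t| + |x + t|)) / 2) := by
    have : Real.exp (-(Real.pi * (|x - t| + |x + t|)) / 2) =
        Real.exp (-(Real.pi * |x - t|) / 2) * Real.exp (-(Real.pi * |x + t|) / 2) := by
      rw [← Real.exp_add]; congr 1; ring
    rw [this]
    have hs := Real.mul_self_sqrt hpi.le
    linear_combination (Real.exp (-(Real.pi * |x - t|) / 2) *
      Real.exp (-(Real.pi * |x + t|) / 2)) * hs
  have f2 : Real.exp (-(Real.pi * (|x| + |t|))) ≤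
      Real.exp (-(Real.pi * (|x - t| + |x + t|)) / 2) := by
    apply Real.exp_le_exp.2
    have g1 : |x - t| ≤ |x| + |t| := abs_sub x t
    have g2 : |x + t| ≤ |x| + |t| := abs_add_le x t
    nlinarith
  -- lower bound of the denominator
  have hden : |t| ^ (q + 2) / (1 + 2 * |x|) ^ (q + 2) *
      (Real.pi * Real.exp (-(Real.pi * (|x| + |t|)))) ≤
      ‖Gamma (1 + uh x - t * I) * Gamma (1 + q + uh x + t * I)‖ := by
    rw [norm_mul, e1, e2]
    have g1 : |t| / (1 + 2 * |x|) ≤ ‖w₁‖ := (div_le_iff₀ hx1).2 d1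
    have g2 : |t| / (1 + 2 * |x|) ≤ ‖w₂‖ := (div_le_iff₀ hx1).2 d2
    have g0 : 0 ≤ |t| / (1 + 2 * |x|) := by positivity
    have k1 : |t| / (1 + 2 * |x|) * (Real.exp (-(Real.pi * |x - t|) / 2) * √Real.pi) ≤
        ‖Gamma (3 / 2 + ((0 : ℕ) : ℂ) + ((x - t : ℝ) : ℂ) * I)‖ := by
      refine le_trans ?_ b1
      rw [zero_add, pow_one]
      exact mul_le_mul g1 c1 (by positivity) (norm_nonneg _)
    have k2 : (|t| / (1 + 2 * |x|)) ^ (q + 1) *
        (Real.exp (-(Real.pi * |x + t|) / 2) * √Real.pi) ≤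
        ‖Gamma (3 / 2 + q + ((x + t : ℝ) : ℂ) * I)‖ := by
      refine le_trans ?_ b2
      exact mul_le_mul (pow_le_pow_left₀ g0 g2 _) c2 (by positivity) (by positivity)
    calc |t| ^ (q + 2) / (1 + 2 * |x|) ^ (q + 2) *
          (Real.pi * Real.exp (-(Real.pi * (|x| + |t|))))
        ≤ |t| ^ (q + 2) / (1 + 2 * |x|) ^ (q + 2) *
          (Real.pi * Real.exp (-(Real.pi * (|x - t| + |x + t|)) / 2)) := by
          apply mul_le_mul_of_nonneg_left _ (by positivity)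
          exact mul_le_mul_of_nonneg_left f2 hpi.le
      _ = (|t| / (1 + 2 * |x|) * (Real.exp (-(Real.pi * |x - t|) / 2) * √Real.pi)) *
          ((|t| / (1 + 2 * |x|)) ^ (q + 1) *
            (Real.exp (-(Real.pi * |x + t|) / 2) * √Real.pi)) := by
          rw [← f1, ← div_pow]
          ring
      _ ≤ _ := mul_le_mul k1 k2 (by positivity) (norm_nonneg _)
  have hpos : 0 < |t| ^ (q + 2) / (1 + 2 * |x|) ^ (q + 2) *
      (Real.pi * Real.exp (-(Real.pi * (|x| + |t|)))) := by positivity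
  have hku : ‖ku0 q (uh x) t‖ ≤ ((|t| ^ (q + 2) / (1 + 2 * |x|) ^ (q + 2)) *
      (Real.pi * Real.exp (-(Real.pi * (|x| + |t|)))))⁻¹ := by
    unfold ku0
    rw [norm_div, norm_pow, norm_I, one_pow, one_div]
    exact inv_anti₀ hpos hden
  refine hku.trans ?_
  rw [hh1]
  have hinv : ((|t| ^ (q + 2) / (1 + 2 * |x|) ^ (q + 2)) *
      (Real.pi * Real.exp (-(Real.pi * (|x| + |t|)))))⁻¹ =
      (1 + 2 * |x|) ^ (q + 2) * Real.exp (Real.pi * |x|) *
        (Real.exp (Real.pi * |t|) / Real.pi / |t| ^ (q + 2)) := by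
    have : Real.exp (-(Real.pi * (|x| + |t|))) =
        (Real.exp (Real.pi * |x|) * Real.exp (Real.pi * |t|))⁻¹ := by
      rw [← Real.exp_add, ← Real.exp_neg]; congr 1; ring
    rw [this]
    field_simp
  rw [hinv]
  have hp := l2_poly (q + 2) (by omega) (abs_nonneg x)
  have hexp : Real.exp (|x| / 2) * Real.exp (Real.pi * |x|) ≤ Real.exp (4 * |x|) := by
    rw [← Real.exp_add]
    apply Real.exp_le_exp.2
    nlinarith [abs_nonneg x]
  have h5 : (1 + 2 * |x|) ^ (q + 2) * Real.exp (Real.pi * |x|) ≤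
      (4 * ((q + 2 : ℕ) : ℝ)) ^ (q + 2) * Real.exp (4 * |x|) := by
    calc (1 + 2 * |x|) ^ (q + 2) * Real.exp (Real.pi * |x|)
        ≤ ((4 * ((q + 2 : ℕ) : ℝ)) ^ (q + 2) * Real.exp (|x| / 2)) * Real.exp (Real.pi * |x|) :=
          mul_le_mul_of_nonneg_right hp (by positivity)
      _ = (4 * ((q + 2 : ℕ) : ℝ)) ^ (q + 2) * (Real.exp (|x| / 2) * Real.exp (Real.pi * |x|)) := by
          ring
      _ ≤ _ := mul_le_mul_of_nonneg_left hexp (by positivity)
  have h6 : Real.exp (Real.pi * |t|) / Real.pi / |t| ^ (q + 2) ≤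
      4 * (Real.sinh (Real.pi * |t|) / Real.pi / |t| ^ (q + 2)) := by
    have : Real.exp (Real.pi * |t|) ≤ 4 * Real.sinh (Real.pi * |t|) := by linarith
    calc Real.exp (Real.pi * |t|) / Real.pi / |t| ^ (q + 2)
        ≤ (4 * Real.sinh (Real.pi * |t|)) / Real.pi / |t| ^ (q + 2) := by gcongr
      _ = _ := by ring
  calc (1 + 2 * |x|) ^ (q + 2) * Real.exp (Real.pi * |x|) *
        (Real.exp (Real.pi * |t|) / Real.pi / |t| ^ (q + 2))
      ≤ ((4 * ((q + 2 : ℕ) : ℝ)) ^ (q + 2) * Real.exp (4 * |x|)) *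
        (4 * (Real.sinh (Real.pi * |t|) / Real.pi / |t| ^ (q + 2))) :=
        mul_le_mul h5 h6 (by positivity) (by positivity)
    _ = _ := by ring

theorem ku_cont (q : ℕ) : Continuous (fun p : ℝ × ℝ => ku0 q (uh p.1) p.2) := by
  have h := Complex.differentiable_one_div_Gamma.continuous
  have h1 : Continuous fun p : ℝ × ℝ => (Gamma (1 + uh p.1 - p.2 * I))⁻¹ := by
    refine h.comp ?_
    unfold uh
    fun_prop
  have h2 : Continuous fun p : ℝ × ℝ => (Gamma (1 + q + uh p.1 + p.2 * I))⁻¹ := by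
    refine h.comp ?_
    unfold uh
    fun_prop
  have h3 : (fun p : ℝ × ℝ => ku0 q (uh p.1) p.2) = fun p : ℝ × ℝ =>
      I ^ q * ((Gamma (1 + uh p.1 - p.2 * I))⁻¹ * (Gamma (1 + q + uh p.1 + p.2 * I))⁻¹) := by
    funext p
    unfold ku0
    rw [div_eq_mul_inv, mul_inv]
  rw [h3]
  exact continuous_const.mul (h1.mul h2)

end Pool.Agent.HI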