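import Pool.Agent.Lib_helper25.HIF.DX
import Pool.Agent.Lib_helper25.HIF.K2
import Pool.Agent.Lib_helper25.HIF.L1
import Pool.Agent.Lib_helper25.HIF.L2
import Pool.Agent.Lib_helper25.HIF.DXL

/-! # Project HI, block L3: the asymptotics of the localised kernel -/

namespace Pool.Agent.HI
open Complex MeasureTheory Set Filter Topology

/-- `|Γ(1/2+iy)|² = π / cosh(π y)` -/
theorem gam_half (y : ℝ) : ‖Gamma (1 / 2 + y * I)‖ ^ 2 = Real.pi / Real.cosh (Real.pi * y) := by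
  have h1 := Complex.Gamma_mul_Gamma_one_sub (1 / 2 + y * I)
  have e1 : (1 : ℂ) - (1 / 2 + y * I) = (starRingEnd ℂ) (1 / 2 + y * I) := by
    simp only [map_add, map_mul, conj_I, conj_ofReal, map_div₀, map_one, map_ofNat]
    ring
  rw [e1, Complex.Gamma_conj, Complex.mul_conj, Complex.normSq_eq_norm_sq] at h1
  have e2 : Complex.sin ((Real.pi : ℂ) * (1 / 2 + y * I)) = ((Real.cosh (Real.pi * y) : ℝ) : ℂ) := by
    have : (Real.pi : ℂ) * (1 / 2 + y * I) = ((Real.pi * y : ℝ) : ℂ) * I + Real.pi / 2 := by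
      push_cast
      ring
    rw [this, Complex.sin_add_pi_div_two, Complex.cos_mul_I, ofReal_cosh]
  rw [e2, ← ofReal_div] at h1
  exact_mod_cast h1

/-- a lower bound for `Γ(3/2+n+iy)` -/
theorem gam_low (n : ℕ) (y : ℝ) :
    1 / 2 * Real.exp (-(Real.pi * |y|)) ≤ ‖Gamma (3 / 2 + n + y * I)‖ := by
  induction n with
  | zero =>
    have h0 : (1 / 2 + (y : ℂ) * I) ≠ 0 := by
      intro h
      have := congrArg Complex.re h
      simp at this
    have e : (3 / 2 + ((0 : ℕ) : ℂ) + y * I) = (1 / 2 + y * I) + 1 := by push_cast; ring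
    rw [e, Gamma_add_one _ h0, norm_mul]
    have h1 : 1 / 2 ≤ ‖(1 / 2 + (y : ℂ) * I)‖ := by
      have := Complex.abs_re_le_norm (1 / 2 + (y : ℂ) * I)
      have e2 : (1 / 2 + (y : ℂ) * I).re = 1 / 2 := by simp
      rw [e2, abs_of_pos (by norm_num)] at this
      exact this
    have h2 : Real.exp (-(Real.pi * |y|)) ≤ ‖Gamma (1 / 2 + y * I)‖ := by
      refine le_of_sq_le_sq ?_ (norm_nonneg _)
      rw [gam_half]
      have hc : Real.cosh (Real.pi * y) ≤ Real.exp (Real.pi * |y|) := by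
        rw [← Real.cosh_abs, abs_mul, abs_of_pos Real.pi_pos, Real.cosh_eq]
        have := Real.exp_le_exp.2 (by
          have := mul_nonneg Real.pi_pos.le (abs_nonneg y)
          linarith : -(Real.pi * |y|) ≤ Real.pi * |y|)
        linarith
      have hc0 := Real.cosh_pos (Real.pi * y)
      rw [le_div_iff₀ hc0]
      have h3 : Real.exp (-(Real.pi * |y|)) ≤ 1 := Real.exp_le_one_iff.2 (by
        have := mul_nonneg Real.pi_pos.le (abs_nonneg y)
        linarith)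
      have h4 : Real.exp (-(Real.pi * |y|)) * Real.exp (Real.pi * |y|) = 1 := by
        rw [← Real.exp_add]; simp
      have h5 := Real.exp_pos (-(Real.pi * |y|))
      have h6 := Real.pi_gt_three
      calc Real.exp (-(Real.pi * |y|)) ^ 2 * Real.cosh (Real.pi * y)
          ≤ Real.exp (-(Real.pi * |y|)) ^ 2 * Real.exp (Real.pi * |y|) := by gcongr
        _ = Real.exp (-(Real.pi * |y|)) := by rw [sq, mul_assoc, h4, mul_one]
        _ ≤ Real.pi := by linarith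
    exact mul_le_mul h1 h2 (Real.exp_pos _).le (by linarith)
  | succ n ih =>
    have hre : (3 / 2 + (n : ℂ) + y * I).re = 3 / 2 + n := by
      simp
    have h0 : (3 / 2 + (n : ℂ) + y * I) ≠ 0 := by
      intro h
      have := congrArg Complex.re h
      rw [hre] at this
      simp at this
      have : (0 : ℝ) ≤ n := Nat.cast_nonneg n
      linarith
    have e : (3 / 2 + ((n + 1 : ℕ) : ℂ) + y * I) = (3 / 2 + (n : ℂ) + y * I) + 1 := by push_cast; ring
    rw [e, Gamma_add_one _ h0, norm_mul]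
    have h1 : 1 ≤ ‖(3 / 2 + (n : ℂ) + y * I)‖ := by
      have := Complex.abs_re_le_norm (3 / 2 + (n : ℂ) + y * I)
      rw [hre, abs_of_nonneg (by positivity)] at this
      have h2 : (0 : ℝ) ≤ n := Nat.cast_nonneg n
      linarith
    nlinarith [norm_nonneg (Gamma (3 / 2 + (n : ℂ) + y * I))]

/-- a uniform bound for the kernel -/
theorem ku_unif (q : ℕ) (x t : ℝ) :
    ‖ku0 q (uh x) t‖ ≤ 4 * Real.exp (2 * Real.pi * (|x| + |t|)) := by
  unfold ku0 uh
  have e1 : (1 + (1 / 2 + (x : ℂ) * I) - t * I) = 3 / 2 + ((0 : ℕ) : ℂ) + ((x - t : ℝ) : ℂ) * I := by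
    push_cast; ring
  have e2 : (1 + (q : ℂ) + (1 / 2 + (x : ℂ) * I) + t * I) = 3 / 2 + (q : ℂ) + ((x + t : ℝ) : ℂ) * I := by
    push_cast; ring
  rw [e1, e2, norm_div, norm_pow, norm_I, one_pow, norm_mul]
  have h1 := gam_low 0 (x - t)
  have h2 := gam_low q (x + t)
  have h3 : (1 / 2 * Real.exp (-(Real.pi * |x - t|))) * (1 / 2 * Real.exp (-(Real.pi * |x + t|))) ≤
      ‖Gamma (3 / 2 + ((0 : ℕ) : ℂ) + ((x - t : ℝ) : ℂ) * I)‖ *
        ‖Gamma (3 / 2 + (q : ℂ) + ((x + t : ℝ) : ℂ) * I)‖ :=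
    mul_le_mul h1 h2 (by positivity) (norm_nonneg _)
  have h4 : 0 < (1 / 2 * Real.exp (-(Real.pi * |x - t|))) * (1 / 2 * Real.exp (-(Real.pi * |x + t|))) := by
    positivity
  refine (one_div_le_one_div_of_le h4 h3).trans ?_
  rw [div_le_iff₀ h4]
  have h5 : |x - t| ≤ |x| + |t| := abs_sub _ _
  have h6 : |x + t| ≤ |x| + |t| := abs_add_le _ _
  have h7 : Real.exp (2 * Real.pi * (|x| + |t|)) * (Real.exp (-(Real.pi * |x - t|)) *
      Real.exp (-(Real.pi * |x + t|))) = Real.exp (2 * Real.pi * (|x| + |t|) +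
        (-(Real.pi * |x - t|) + -(Real.pi * |x + t|))) := by
    rw [Real.exp_add, Real.exp_add]
  have h8 : 1 ≤ Real.exp (2 * Real.pi * (|x| + |t|) +
        (-(Real.pi * |x - t|) + -(Real.pi * |x + t|))) := by
    refine Real.one_le_exp ?_
    nlinarith [Real.pi_pos]
  linarith

theorem uh_sq_norm (x : ℝ) : ‖cexp (uh x ^ 2)‖ = Real.exp (1 / 4) * Real.exp (-x ^ 2) := by
  rw [Complex.norm_exp, ← Real.exp_add]
  congr 1
  unfold uh
  have : (1 / 2 + (x : ℂ) * I) ^ 2 = ((1 / 4 - x ^ 2 : ℝ) : ℂ) + ((x : ℝ) : ℂ) * I := by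
    have hI := I_sq
    push_cast
    linear_combination (x : ℂ) ^ 2 * hI
  rw [this, add_re, ofReal_re, re_ofReal_mul, I_re, mul_zero, add_zero]
  ring

theorem pow_norm {T : ℝ} (hT : 0 < T) (x : ℝ) : ‖(T : ℂ) ^ (2 * uh x)‖ = T := by
  rw [norm_cpow_eq_rpow_re_of_pos hT]
  have : (2 * uh x).re = 1 := by
    unfold uh
    simp
  rw [this, Real.rpow_one]

theorem uh_cont : Continuous uh := by
  unfold uh
  fun_prop

theorem w_cont {T : ℝ} (hT : 0 < T) :
    Continuous (fun x : ℝ => (T : ℂ) ^ (2 * uh x) * cexp (uh x ^ 2)) := by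
  have h := uh_cont
  refine Continuous.mul ?_ (by fun_prop)
  exact Continuous.const_cpow (by fun_prop) (Or.inl (ofReal_ne_zero.2 hT.ne'))

/-- `e^{-x²+c|x|}` is integrable -/
theorem gint (c : ℝ) : Integrable (fun x : ℝ => Real.exp (-x ^ 2) * Real.exp (c * |x|)) := by
  have h1 : Integrable (fun x : ℝ => Real.exp (c ^ 2) * Real.exp (-(1 / 2) * x ^ 2)) :=
    (integrable_exp_neg_mul_sq (by norm_num : (0 : ℝ) < 1 / 2)).const_mul _
  refine h1.mono' (by fun_prop : Continuous (fun x : ℝ => Real.exp (-x ^ 2) *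
    Real.exp (c * |x|))).aestronglyMeasurable (Eventually.of_forall fun x => ?_)
  rw [Real.norm_of_nonneg (by positivity), ← Real.exp_add, ← Real.exp_add]
  refine Real.exp_le_exp.2 ?_
  nlinarith [sq_nonneg (c - |x|), sq_abs x, sq_nonneg (c)]

theorem kt_bd (q : ℕ) {T : ℝ} (hT : 0 < T) {R : ℝ} (x t : ℝ) (ht : |t| ≤ R) :
    ‖(T : ℂ) ^ (2 * uh x) * cexp (uh x ^ 2) * ku0 q (uh x) t‖ ≤
      (T * Real.exp (1 / 4) * (4 * Real.exp (2 * Real.pi * R))) *
        (Real.exp (-x ^ 2) * Real.exp ((2 * Real.pi) * |x|)) := by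
  rw [norm_mul, norm_mul, pow_norm hT, uh_sq_norm]
  have h1 := ku_unif q x t
  have h2 : Real.exp (2 * Real.pi * (|x| + |t|)) ≤
      Real.exp (2 * Real.pi * R) * Real.exp ((2 * Real.pi) * |x|) := by
    rw [← Real.exp_add]
    refine Real.exp_le_exp.2 ?_
    nlinarith [Real.pi_pos]
  calc T * (Real.exp (1 / 4) * Real.exp (-x ^ 2)) * ‖ku0 q (uh x) t‖
      ≤ T * (Real.exp (1 / 4) * Real.exp (-x ^ 2)) *
        (4 * (Real.exp (2 * Real.pi * R) * Real.exp ((2 * Real.pi) * |x|))) := by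
        gcongr
        exact h1.trans (by linarith)
    _ = _ := by ring

theorem kt_int (q : ℕ) {T : ℝ} (hT : 0 < T) (t : ℝ) :
    Integrable (fun x : ℝ => (T : ℂ) ^ (2 * uh x) * cexp (uh x ^ 2) * ku0 q (uh x) t) := by
  refine ((gint (2 * Real.pi)).const_mul (T * Real.exp (1 / 4) *
    (4 * Real.exp (2 * Real.pi * |t|)))).mono' ?_ (Eventually.of_forall fun x => ?_)
  · have h1 := (ku_cont q).comp (by fun_prop : Continuous (fun x : ℝ => (x, t)))
    exact ((w_cont hT).mul h1).aestronglyMeasurable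
  · exact kt_bd q hT x t le_rfl

theorem kt_cont (q : ℕ) {T : ℝ} (hT : 0 < T) : Continuous (kT q T) := by
  rw [continuous_iff_continuousAt]
  intro t₁
  unfold kT
  refine continuousAt_of_dominated (bound := fun x => (T * Real.exp (1 / 4) *
    (4 * Real.exp (2 * Real.pi * (|t₁| + 1)))) *
        (Real.exp (-x ^ 2) * Real.exp ((2 * Real.pi) * |x|))) ?_ ?_ ?_ ?_
  · exact Eventually.of_forall fun t => (kt_int q hT t).aestronglyMeasurable
  · have : ∀ᶠ t in 𝓝 t₁, |t| < |t₁| + 1 := by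
      have h1 : ContinuousAt (fun t : ℝ => |t|) t₁ := by fun_prop
      exact h1.eventually (gt_mem_nhds (by linarith))
    filter_upwards [this] with t ht
    exact Eventually.of_forall fun x => kt_bd q hT x t ht.le
  · exact (gint (2 * Real.pi)).const_mul _
  · refine Eventually.of_forall fun x => ?_
    have h1 := (ku_cont q).comp (by fun_prop : Continuous (fun t : ℝ => (x, t)))
    exact (continuous_const.mul h1).continuousAt

/-- the product of `q` consecutive factors -/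
theorem gam_prod (q : ℕ) {w : ℂ} (hw : 0 < w.re) :
    Gamma (w + q) = Gamma w * ∏ j ∈ Finset.range q, (w + j) := by
  induction q with
  | zero => simp
  | succ q ih =>
    have h0 : w + q ≠ 0 := by
      intro h
      have := congrArg Complex.re h
      simp at this
      have : (0 : ℝ) ≤ q := Nat.cast_nonneg q
      linarith
    have e : w + ((q + 1 : ℕ) : ℂ) = (w + q) + 1 := by push_cast; ring
    rw [e, Gamma_add_one _ h0, ih, Finset.prod_range_succ]
    ring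

theorem lin_lim (w : ℂ) {e₀ : ℝ} (he0 : e₀ ≠ 0) :
    Tendsto (fun t : ℝ => (((e₀ * t : ℝ) : ℂ) * I) / (1 + ((e₀ * t : ℝ) : ℂ) * I + w)) atTop
      (𝓝 1) := by
  have hne : (e₀ : ℂ) * I ≠ 0 := mul_ne_zero (ofReal_ne_zero.2 he0) I_ne_zero
  have h1 : Tendsto (fun t : ℝ => (t : ℂ)⁻¹) atTop (𝓝 0) := by
    have : Tendsto (fun t : ℝ => (((t : ℝ)⁻¹ : ℝ) : ℂ)) atTop (𝓝 ((0 : ℝ) : ℂ)) :=
      (continuous_ofReal.tendsto 0).comp tendsto_inv_atTop_zero
    simpa using this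
  have h2 : Tendsto (fun t : ℝ => ((e₀ : ℂ) * I) / ((e₀ : ℂ) * I + (1 + w) * (t : ℂ)⁻¹)) atTop
      (𝓝 (((e₀ : ℂ) * I) / ((e₀ : ℂ) * I + (1 + w) * 0))) := by
    refine tendsto_const_nhds.div (tendsto_const_nhds.add (h1.const_mul _)) ?_
    rw [mul_zero, add_zero]
    exact hne
  rw [mul_zero, add_zero, div_self hne] at h2
  refine h2.congr' ?_
  filter_upwards [eventually_gt_atTop 0] with t ht
  have ht0 : (t : ℂ) ≠ 0 := ofReal_ne_zero.2 ht.ne'
  have e1 : (((e₀ * t : ℝ) : ℂ) * I) = (t : ℂ) * ((e₀ : ℂ) * I) := by push_cast; ring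
  have e2 : (1 + ((e₀ * t : ℝ) : ℂ) * I + w) = (t : ℂ) * ((e₀ : ℂ) * I + (1 + w) * (t : ℂ)⁻¹) := by
    push_cast
    field_simp
    ring
  rw [e2, e1, mul_div_mul_left _ _ ht0]

/-- the pointwise limit -/
theorem ptw (q : ℕ) {e₀ : ℝ} (he₀ : e₀ = 1 ∨ e₀ = -1) (x : ℝ) :
    Tendsto (fun t : ℝ => ku0 q (uh x) (e₀ * t) * (t : ℂ) ^ (2 * uh x) / (hh q 0 t : ℂ)) atTop
      (𝓝 ((e₀ : ℂ) ^ q)) := by
  have he0 : e₀ ≠ 0 := by rcases he₀ with h | h <;> rw [h] <;> norm_num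
  have hee : e₀ * e₀ = 1 := by rcases he₀ with h | h <;> rw [h] <;> norm_num
  have hur : (uh x).re = 1 / 2 := by unfold uh; simp
  have hA := gam_asy (x := 1) le_rfl (a := uh x) (by rw [hur]; norm_num) (by rw [hur]; norm_num) he₀
  have hB := gam_asy (x := 1) le_rfl (a := uh x) (by rw [hur]; norm_num) (by rw [hur]; norm_num)
    (e₀ := -e₀) (by rcases he₀ with h | h <;> rw [h] <;> simp)
  have hP : Tendsto (fun t : ℝ => ∏ j ∈ Finset.range q,
      ((((e₀ * t : ℝ) : ℂ) * I) / (1 + ((e₀ * t : ℝ) : ℂ) * I + (uh x + j)))) atTop (𝓝 1) := by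
    have := tendsto_finsetProd (Finset.range q) (fun j _ => lin_lim (uh x + (j : ℂ)) he0)
    simpa using this
  have h := (((hA.mul hB).mul hP).mul_const ((e₀ : ℂ) ^ q))
  simp only [one_mul] at h
  refine h.congr' ?_
  filter_upwards [eventually_gt_atTop 0] with t ht
  have ht0 : (t : ℂ) ≠ 0 := ofReal_ne_zero.2 ht.ne'
  have het : e₀ * t ≠ 0 := mul_ne_zero he0 ht.ne'
  -- the powers
  have hpow : (((e₀ * t : ℝ) : ℂ) * I) ^ (uh x) * (((-e₀ * t : ℝ) : ℂ) * I) ^ (uh x) =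
      (t : ℂ) ^ (2 * uh x) := by
    have hn1 : (((e₀ * t : ℝ) : ℂ) * I) ≠ 0 := mul_ne_zero (ofReal_ne_zero.2 het) I_ne_zero
    have hn2 : (((-e₀ * t : ℝ) : ℂ) * I) ≠ 0 :=
      mul_ne_zero (ofReal_ne_zero.2 (by rw [neg_mul]; exact neg_ne_zero.2 het)) I_ne_zero
    rw [cpow_def_of_ne_zero hn1, cpow_def_of_ne_zero hn2, cpow_def_of_ne_zero ht0,
      ← Complex.exp_add]
    congr 1
    have hl : log (((e₀ * t : ℝ) : ℂ) * I) + log (((-e₀ * t : ℝ) : ℂ) * I) = 2 * log (t : ℂ) := by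
      have e1 : (((e₀ * t : ℝ) : ℂ) * I) = (t : ℂ) * ((e₀ : ℂ) * I) := by push_cast; ring
      have e2 : (((-e₀ * t : ℝ) : ℂ) * I) = (t : ℂ) * (((-e₀ : ℝ) : ℂ) * I) := by push_cast; ring
      rw [e1, e2, log_ofReal_mul ht (mul_ne_zero (ofReal_ne_zero.2 he0) I_ne_zero),
        log_ofReal_mul ht (mul_ne_zero (ofReal_ne_zero.2 (neg_ne_zero.2 he0)) I_ne_zero),
        ofReal_log ht.le]
      have h3 : log ((e₀ : ℂ) * I) + log (((-e₀ : ℝ) : ℂ) * I) = 0 := by
        rcases he₀ with h | h <;> rw [h] <;> simp [log_I, log_neg_I]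
      linear_combination h3
    linear_combination (uh x) * hl
  -- the Gamma values
  have hg1 : Gamma (1 + ((e₀ * t : ℝ) : ℂ) * I + uh x) ≠ 0 := Gamma_ne_zero_of_re_pos (by
    rw [add_re, hur]; simp; norm_num)
  have hg2 : Gamma (1 + ((-e₀ * t : ℝ) : ℂ) * I + uh x) ≠ 0 := Gamma_ne_zero_of_re_pos (by
    rw [add_re, hur]; simp; norm_num)
  have hg3 : Gamma (1 + ((e₀ * t : ℝ) : ℂ) * I) ≠ 0 := Gamma_ne_zero_of_re_pos (by simp)
  have hg4 : Gamma (1 + ((-e₀ * t : ℝ) : ℂ) * I) ≠ 0 := Gamma_ne_zero_of_re_pos (by simp)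
  have hhe : (hh q 0 t : ℂ) = (t ^ q : ℂ)⁻¹ / (Gamma (1 + ((e₀ * t : ℝ) : ℂ) * I) *
      Gamma (1 + ((-e₀ * t : ℝ) : ℂ) * I)) := by
    unfold hh
    have h4 : Gamma (1 + ((e₀ * t : ℝ) : ℂ) * I) * Gamma (1 + ((-e₀ * t : ℝ) : ℂ) * I) =
        ((‖Gamma (1 + t * I)‖ ^ 2 : ℝ) : ℂ) := by
      have e2 : (1 + ((-t : ℝ) : ℂ) * I) = (starRingEnd ℂ) (1 + t * I) := by simp
      have e3 : Gamma (1 + (t : ℂ) * I) * Gamma (1 + ((-t : ℝ) : ℂ) * I) =
          ((‖Gamma (1 + t * I)‖ ^ 2 : ℝ) : ℂ) := by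
        rw [e2, Complex.Gamma_conj, Complex.mul_conj, Complex.normSq_eq_norm_sq]
      rcases he₀ with h | h
      · rw [h]
        simpa using e3
      · rw [h]
        rw [mul_comm]
        simpa using e3
    rw [h4, abs_of_pos ht]
    push_cast
    simp
  have hku : ku0 q (uh x) (e₀ * t) = I ^ q / (Gamma (1 + ((-e₀ * t : ℝ) : ℂ) * I + uh x) *
      (Gamma (1 + ((e₀ * t : ℝ) : ℂ) * I + uh x) *
        ∏ j ∈ Finset.range q, (1 + ((e₀ * t : ℝ) : ℂ) * I + (uh x + j)))) := by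
    unfold ku0
    have e1 : (1 + uh x - ((e₀ * t : ℝ) : ℂ) * I) = 1 + ((-e₀ * t : ℝ) : ℂ) * I + uh x := by
      push_cast; ring
    have e2 : (1 + (q : ℂ) + uh x + ((e₀ * t : ℝ) : ℂ) * I) =
        (1 + ((e₀ * t : ℝ) : ℂ) * I + uh x) + q := by ring
    rw [e1, e2, gam_prod q (w := 1 + ((e₀ * t : ℝ) : ℂ) * I + uh x) (by
      rw [add_re, hur]; simp; norm_num)]
    congr 3
    refine Finset.prod_congr rfl fun j _ => ?_
    ring
  have hprod : ∏ j ∈ Finset.range q,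
      ((((e₀ * t : ℝ) : ℂ) * I) / (1 + ((e₀ * t : ℝ) : ℂ) * I + (uh x + j))) =
      (((e₀ * t : ℝ) : ℂ) * I) ^ q /
        ∏ j ∈ Finset.range q, (1 + ((e₀ * t : ℝ) : ℂ) * I + (uh x + j)) := by
    rw [Finset.prod_div_distrib, Finset.prod_const, Finset.card_range]
  have hpn : (∏ j ∈ Finset.range q, (1 + ((e₀ * t : ℝ) : ℂ) * I + (uh x + j))) ≠ 0 := by
    refine Finset.prod_ne_zero_iff.2 fun j _ => ?_
    intro h
    have h1 := congrArg Complex.re h
    have h2 : (1 + ((e₀ * t : ℝ) : ℂ) * I + (uh x + j)).re = 1 + (1 / 2 + j) := by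
      rw [add_re, add_re, add_re, hur]
      simp
    rw [h2, zero_re] at h1
    have : (0 : ℝ) ≤ j := Nat.cast_nonneg j
    linarith
  rw [hhe, hku, hprod, ← hpow]
  generalize (∏ j ∈ Finset.range q, (1 + ((e₀ * t : ℝ) : ℂ) * I + (uh x + j))) = P at *
  generalize (((e₀ * t : ℝ) : ℂ) * I) ^ (uh x) = p1 at *
  generalize (((-e₀ * t : ℝ) : ℂ) * I) ^ (uh x) = p2 at *
  generalize Gamma (1 + ((e₀ * t : ℝ) : ℂ) * I + uh x) = g1 at *
  generalize Gamma (1 + ((-e₀ * t : ℝ) : ℂ) * I + uh x) = g2 at *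
  have e3 : (1 : ℂ) = ((1 : ℝ) : ℂ) := by simp
  rw [← e3]
  generalize Gamma (1 + ((e₀ * t : ℝ) : ℂ) * I) = g3 at *
  generalize Gamma (1 + ((-e₀ * t : ℝ) : ℂ) * I) = g4 at *
  have e4 : (((e₀ * t : ℝ) : ℂ) * I) ^ q * (e₀ : ℂ) ^ q = (t : ℂ) ^ q * I ^ q := by
    rw [← mul_pow, ← mul_pow]
    congr 1
    have : (e₀ : ℂ) * e₀ = 1 := by exact_mod_cast hee
    push_cast
    linear_combination (t : ℂ) * I * this
  have htq : (t : ℂ) ^ q ≠ 0 := pow_ne_zero _ ht0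
  field_simp
  linear_combination (p1 * p2) * e4

/-- the Gaussian integral -/
theorem gauss (L : ℝ) : ∫ x : ℝ, cexp (2 * uh x * L) * cexp (uh x ^ 2) =
    ((√Real.pi * Real.exp (-(L ^ 2)) : ℝ) : ℂ) := by
  have h := GaussianFourier.integral_cexp_neg_mul_sq_add_real_mul_I (b := 1) (by simp) (-(1 / 2 + L))
  have e1 : (Real.pi / 1 : ℂ) ^ (1 / 2 : ℂ) = ((√Real.pi : ℝ) : ℂ) := by
    rw [div_one, Real.sqrt_eq_rpow, ofReal_cpow Real.pi_pos.le]
    push_cast
    rfl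
  rw [e1] at h
  have e2 : ∀ x : ℝ, cexp (2 * uh x * L) * cexp (uh x ^ 2) =
      ((Real.exp (-(L ^ 2)) : ℝ) : ℂ) * cexp (-1 * (x + ((-(1 / 2 + L) : ℝ) : ℂ) * I) ^ 2) := by
    intro x
    rw [ofReal_exp, ← Complex.exp_add, ← Complex.exp_add]
    congr 1
    unfold uh
    have hI := I_sq
    push_cast
    linear_combination ((x : ℂ) ^ 2 + (1 / 2 + (L : ℂ)) ^ 2) * hI
  simp_rw [e2]
  rw [integral_const_mul, h]
  push_cast
  ring

theorem kt_asy (q : ℕ) {e₀ : ℝ} (he₀ : e₀ = 1 ∨ e₀ = -1) {η : ℝ} (hη : 0 < η) :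
    ∃ t₀ : ℝ, 1 ≤ t₀ ∧ ∀ T t : ℝ, 0 < T → t₀ ≤ t →
      ‖kT q T (e₀ * t) - ((√Real.pi * Real.exp (-(Real.log (T / t) ^ 2)) *
        (e₀ ^ q * hh q 0 t) : ℝ) : ℂ)‖ ≤ η * (T / t) * hh q 0 t := by
  have he2 : |e₀| = 1 := by rcases he₀ with h | h <;> rw [h] <;> norm_num
  have he0 : e₀ ≠ 0 := by rcases he₀ with h | h <;> rw [h] <;> norm_num
  obtain ⟨C, hC, hku⟩ := ku_bd q
  -- the error function
  set ρ : ℝ → ℝ → ℂ := fun t x =>
    ku0 q (uh x) (e₀ * t) * (t : ℂ) ^ (2 * uh x) / (hh q 0 t : ℂ) - (e₀ : ℂ) ^ q with hρ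
  have hhp : ∀ t : ℝ, 1 ≤ t → 0 < hh q 0 t := fun t ht => hh_pos q le_rfl (by linarith)
  have hhe : ∀ t : ℝ, hh q 0 (e₀ * t) = hh q 0 t := by
    intro t
    unfold hh
    have e1 : |e₀ * t| = |t| := by rw [abs_mul, he2, one_mul]
    rw [e1]
    rcases he₀ with h | h
    · rw [h, one_mul]
    · rw [h]
      have e2 : (1 + ((0 : ℝ) : ℂ) + ((-1 * t : ℝ) : ℂ) * I) =
          (starRingEnd ℂ) (1 + ((0 : ℝ) : ℂ) + (t : ℂ) * I) := by simp
      rw [e2, Complex.Gamma_conj, RCLike.norm_conj]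
  have hρb : ∀ t : ℝ, 1 ≤ t → ∀ x : ℝ, ‖ρ t x‖ ≤ C * Real.exp (4 * |x|) + 1 := by
    intro t ht x
    have ht0 : 0 < t := by linarith
    rw [hρ]
    simp only
    refine (norm_sub_le _ _).trans ?_
    have h1 : ‖(e₀ : ℂ) ^ q‖ = 1 := by
      rw [norm_pow, norm_real, Real.norm_eq_abs, he2, one_pow]
    rw [h1]
    refine add_le_add ?_ le_rfl
    have h2 := hku x (e₀ * t) (by rw [abs_mul, he2, one_mul, abs_of_pos ht0]; exact ht)
    rw [hhe, abs_mul, he2, one_mul, abs_of_pos ht0] at h2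
    rw [norm_div, norm_mul, pow_norm ht0, norm_real, Real.norm_of_nonneg (hhp t ht).le,
      div_le_iff₀ (hhp t ht)]
    calc ‖ku0 q (uh x) ((e₀ * t : ℝ))‖ * t ≤ C * Real.exp (4 * |x|) * (hh q 0 t / t) * t := by
          gcongr
      _ = _ := by field_simp
  have hρc : ∀ t : ℝ, 1 ≤ t → Continuous (ρ t) := by
    intro t ht
    have ht0 : 0 < t := by linarith
    have h1 := (ku_cont q).comp (by fun_prop : Continuous (fun x : ℝ => (x, e₀ * t)))
    have h2 : Continuous (fun x : ℝ => (t : ℂ) ^ (2 * uh x)) := by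
      have h := uh_cont
      exact Continuous.const_cpow (by fun_prop) (Or.inl (ofReal_ne_zero.2 ht0.ne'))
    exact ((h1.mul h2).div_const _).sub continuous_const
  have hbi : Integrable (fun x : ℝ => Real.exp (-x ^ 2) * (C * Real.exp (4 * |x|) + 1)) := by
    have h1 := (gint 4).const_mul C
    have h2 := gint 0
    refine (h1.add h2).congr (Eventually.of_forall fun x => ?_)
    simp only [Pi.add_apply]
    rw [zero_mul, Real.exp_zero]
    ring
  -- dominated convergence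
  have hlim : Tendsto (fun t : ℝ => ∫ x : ℝ, Real.exp (-x ^ 2) * ‖ρ t x‖) atTop (𝓝 0) := by
    have h0 : (0 : ℝ) = ∫ _x : ℝ, (0 : ℝ) := by simp
    rw [h0]
    refine tendsto_integral_filter_of_dominated_convergence
      (fun x : ℝ => Real.exp (-x ^ 2) * (C * Real.exp (4 * |x|) + 1)) ?_ ?_ hbi ?_
    · filter_upwards [eventually_ge_atTop 1] with t ht
      have h1 := hρc t ht
      exact (by fun_prop : Continuous (fun x : ℝ => Real.exp (-x ^ 2) *
        ‖ρ t x‖)).aestronglyMeasurable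
    · filter_upwards [eventually_ge_atTop 1] with t ht
      refine Eventually.of_forall fun x => ?_
      rw [Real.norm_of_nonneg (by positivity)]
      exact mul_le_mul_of_nonneg_left (hρb t ht x) (Real.exp_pos _).le
    · refine Eventually.of_forall fun x => ?_
      have h1 := (ptw q he₀ x).sub_const ((e₀ : ℂ) ^ q)
      rw [sub_self] at h1
      have h2 := (h1.norm).const_mul (Real.exp (-x ^ 2))
      rw [norm_zero, mul_zero] at h2
      refine h2.congr fun t => ?_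
      rw [hρ]
  have hη2 : 0 < η / Real.exp (1 / 4) := by positivity
  obtain ⟨t₀, ht₀⟩ := (hlim.eventually (gt_mem_nhds hη2)).exists_forall_of_atTop
  refine ⟨max t₀ 1, le_max_right _ _, fun T t hT ht => ?_⟩
  have ht1 : 1 ≤ t := (le_max_right _ _).trans ht
  have ht0 : 0 < t := by linarith
  have hsm := ht₀ t ((le_max_left _ _).trans ht)
  have hhp1 := hhp t ht1
  have htc : (t : ℂ) ≠ 0 := ofReal_ne_zero.2 ht0.ne'
  have hTt : 0 < T / t := by positivity
  -- the main term as an integral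
  have hexp : ∀ x : ℝ, cexp (2 * uh x * ((Real.log (T / t) : ℝ) : ℂ)) =
      (T : ℂ) ^ (2 * uh x) / (t : ℂ) ^ (2 * uh x) := by
    intro x
    rw [cpow_def_of_ne_zero (ofReal_ne_zero.2 hT.ne'), cpow_def_of_ne_zero htc, ← Complex.exp_sub,
      Real.log_div hT.ne' ht0.ne', ← ofReal_log hT.le, ← ofReal_log ht0.le]
    congr 1
    push_cast
    ring
  have hmain : ((√Real.pi * Real.exp (-(Real.log (T / t) ^ 2)) *
        (e₀ ^ q * hh q 0 t) : ℝ) : ℂ) = ∫ x : ℝ, (T : ℂ) ^ (2 * uh x) / (t : ℂ) ^ (2 * uh x) *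
          cexp (uh x ^ 2) * ((e₀ ^ q * hh q 0 t : ℝ) : ℂ) := by
    rw [integral_mul_const]
    simp_rw [← hexp]
    rw [gauss]
    push_cast
    ring
  have hmi : Integrable (fun x : ℝ => (T : ℂ) ^ (2 * uh x) / (t : ℂ) ^ (2 * uh x) *
          cexp (uh x ^ 2) * ((e₀ ^ q * hh q 0 t : ℝ) : ℂ)) := by
    refine Integrable.mul_const ?_ _
    have h2 : Integrable (fun x : ℝ => T / t * Real.exp (1 / 4) * (Real.exp (-x ^ 2) *
      Real.exp (0 * |x|))) := (gint 0).const_mul _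
    refine h2.mono' ?_ (Eventually.of_forall fun x => ?_)
    · have h := uh_cont
      refine Continuous.aestronglyMeasurable ?_
      simp_rw [← hexp]
      fun_prop
    · rw [norm_mul, norm_div, pow_norm hT, pow_norm ht0, uh_sq_norm, zero_mul, Real.exp_zero]
      exact le_of_eq (by ring)
  have hdiff : ∀ x : ℝ, (T : ℂ) ^ (2 * uh x) * cexp (uh x ^ 2) * ku0 q (uh x) ((e₀ * t : ℝ)) -
      (T : ℂ) ^ (2 * uh x) / (t : ℂ) ^ (2 * uh x) * cexp (uh x ^ 2) *
        ((e₀ ^ q * hh q 0 t : ℝ) : ℂ) =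
      (T : ℂ) ^ (2 * uh x) / (t : ℂ) ^ (2 * uh x) * cexp (uh x ^ 2) * (hh q 0 t : ℂ) * ρ t x := by
    intro x
    rw [hρ]
    have h1 : (hh q 0 t : ℂ) ≠ 0 := ofReal_ne_zero.2 hhp1.ne'
    have h2 : (t : ℂ) ^ (2 * uh x) ≠ 0 := by
      rw [Ne, cpow_eq_zero_iff]
      exact fun h => htc h.1
    push_cast
    field_simp
  rw [hmain]
  unfold kT
  rw [← integral_sub (kt_int q hT (e₀ * t)) hmi]
  simp_rw [hdiff]
  have hfin : ∀ x : ℝ, ‖(T : ℂ) ^ (2 * uh x) / (t : ℂ) ^ (2 * uh x) * cexp (uh x ^ 2) *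
      (hh q 0 t : ℂ) * ρ t x‖ = T / t * Real.exp (1 / 4) * hh q 0 t *
        (Real.exp (-x ^ 2) * ‖ρ t x‖) := by
    intro x
    rw [norm_mul, norm_mul, norm_mul, norm_div, pow_norm hT, pow_norm ht0, uh_sq_norm, norm_real,
      Real.norm_of_nonneg hhp1.le]
    ring
  refine (norm_integral_le_integral_norm _).trans ?_
  simp_rw [hfin]
  rw [integral_const_mul]
  calc T / t * Real.exp (1 / 4) * hh q 0 t * ∫ x : ℝ, Real.exp (-x ^ 2) * ‖ρ t x‖
      ≤ T / t * Real.exp (1 / 4) * hh q 0 t * (η / Real.exp (1 / 4)) := by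
        gcongr
    _ = η * (T / t) * hh q 0 t := by
        field_simp

end Pool.Agent.HI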