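import Pool.Agent.Lib_helper25.HIF.DX
import Pool.Agent.Lib_helper25.HIF.GD
import Pool.Agent.Lib_helper25.HIF.MA
import Pool.Agent.Lib_helper25.HIF.MI

/-!
# Project HI, block L4: the identity for complex `σ`
-/

namespace Pool.Agent.HI
open NumberField Complex MeasureTheory Set Filter Topology
open Pool.Agent.HB (H3 mu Kb Adm)

variable {K : Type} [Field K] [NumberField K] {s : K →+* ℂ}

theorem l4_conv {a b x ℓ : ℝ} (h1 : a ≤ x) (h2 : x ≤ b) :
    Real.exp (x * ℓ) ≤ Real.exp (a * ℓ) + Real.exp (b * ℓ) := by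
  rcases le_total 0 ℓ with h | h
  · have : Real.exp (x * ℓ) ≤ Real.exp (b * ℓ) :=
      Real.exp_le_exp.2 (mul_le_mul_of_nonneg_right h2 h)
    have := Real.exp_pos (a * ℓ)
    linarith
  · have : Real.exp (x * ℓ) ≤ Real.exp (a * ℓ) :=
      Real.exp_le_exp.2 (mul_le_mul_of_nonpos_right h1 h)
    have := Real.exp_pos (b * ℓ)
    linarith

theorem l4_abs {a x ℓ : ℝ} (ha : 0 < a) (h1 : a / 2 ≤ x) (h2 : x ≤ 3 * a / 2) :
    |ℓ| * Real.exp (x * ℓ) ≤ 4 / a * (1 + Real.exp (2 * a * ℓ)) := by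
  have e1 : |ℓ| ≤ 2 / a * (Real.exp (a / 2 * ℓ) + Real.exp (-(a / 2 * ℓ))) := by
    have h3 : |a / 2 * ℓ| ≤ Real.exp (a / 2 * ℓ) + Real.exp (-(a / 2 * ℓ)) := by
      rcases abs_cases (a / 2 * ℓ) with ⟨h, _⟩ | ⟨h, _⟩
      · rw [h]
        have := Real.add_one_le_exp (a / 2 * ℓ)
        have := Real.exp_pos (-(a / 2 * ℓ))
        linarith
      · rw [h]
        have := Real.add_one_le_exp (-(a / 2 * ℓ))
        have := Real.exp_pos (a / 2 * ℓ)
        linarith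
    rw [abs_mul, abs_of_pos (by positivity : 0 < a / 2)] at h3
    have h4 : |ℓ| = 2 / a * (a / 2 * |ℓ|) := by field_simp
    rw [h4]
    exact mul_le_mul_of_nonneg_left h3 (by positivity)
  have e2 := l4_conv (ℓ := ℓ) (show 0 ≤ x + a / 2 by linarith) (show x + a / 2 ≤ 2 * a by linarith)
  have e3 := l4_conv (ℓ := ℓ) (show 0 ≤ x - a / 2 by linarith) (show x - a / 2 ≤ 2 * a by linarith)
  rw [zero_mul, Real.exp_zero] at e2 e3
  calc |ℓ| * Real.exp (x * ℓ) ≤ 2 / a * (Real.exp (a / 2 * ℓ) + Real.exp (-(a / 2 * ℓ))) *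
        Real.exp (x * ℓ) := mul_le_mul_of_nonneg_right e1 (Real.exp_pos _).le
    _ = 2 / a * (Real.exp ((x + a / 2) * ℓ) + Real.exp ((x - a / 2) * ℓ)) := by
        rw [mul_assoc, add_mul, ← Real.exp_add, ← Real.exp_add]
        congr 3 <;> ring
    _ ≤ 2 / a * ((1 + Real.exp (2 * a * ℓ)) + (1 + Real.exp (2 * a * ℓ))) :=
        mul_le_mul_of_nonneg_left (add_le_add e2 e3) (by positivity)
    _ = 4 / a * (1 + Real.exp (2 * a * ℓ)) := by ring

section

variable {α : Type} [MeasurableSpace α] {μ : Measure α} {g : α → ℂ} {ℓ : α → ℝ}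

theorem l4_int (hℓ : AEStronglyMeasurable ℓ μ)
    (hi : ∀ x : ℝ, 0 ≤ x → Integrable (fun p => g p * cexp ((x : ℂ) * (ℓ p : ℂ))) μ) {u : ℂ}
    (hu : 0 ≤ u.re) : Integrable (fun p => g p * cexp (u * (ℓ p : ℂ))) μ := by
  have hg : AEStronglyMeasurable g μ := by
    have := (hi 0 le_rfl).1
    simpa using this
  have hm : AEStronglyMeasurable (fun p => g p * cexp (u * (ℓ p : ℂ))) μ :=
    hg.mul (Complex.continuous_exp.comp_aestronglyMeasurable
      ((Complex.continuous_ofReal.comp_aestronglyMeasurable hℓ).const_mul u))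
  refine (hi u.re hu).mono hm (Eventually.of_forall fun p => ?_)
  rw [norm_mul, norm_mul, Complex.norm_exp, Complex.norm_exp]
  simp

theorem l4_deriv (hℓ : AEStronglyMeasurable ℓ μ)
    (hi : ∀ x : ℝ, 0 ≤ x → Integrable (fun p => g p * cexp ((x : ℂ) * (ℓ p : ℂ))) μ) :
    DifferentiableOn ℂ (fun u : ℂ => ∫ p, g p * cexp (u * (ℓ p : ℂ)) ∂μ) {u | 0 < u.re} := by
  intro u₀ hu₀
  have hu₀ : 0 < u₀.re := hu₀
  have hg : AEStronglyMeasurable g μ := by
    have := (hi 0 le_rfl).1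
    simpa using this
  have hexp : ∀ u : ℂ, AEStronglyMeasurable (fun p => cexp (u * (ℓ p : ℂ))) μ := fun u =>
    Complex.continuous_exp.comp_aestronglyMeasurable
      ((Complex.continuous_ofReal.comp_aestronglyMeasurable hℓ).const_mul u)
  have hball : Metric.ball u₀ (u₀.re / 2) ∈ 𝓝 u₀ := Metric.ball_mem_nhds _ (by linarith)
  have hre : ∀ u ∈ Metric.ball u₀ (u₀.re / 2), u₀.re / 2 ≤ u.re ∧ u.re ≤ 3 * u₀.re / 2 := by
    intro u hu
    rw [Metric.mem_ball, dist_eq_norm] at hu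
    have h1 := Complex.abs_re_le_norm (u - u₀)
    rw [Complex.sub_re, abs_le] at h1
    constructor <;> linarith [h1.1, h1.2]
  have hbound : Integrable (fun p => 4 / u₀.re * (‖g p * cexp (((0 : ℝ) : ℂ) * (ℓ p : ℂ))‖ +
      ‖g p * cexp (((2 * u₀.re : ℝ) : ℂ) * (ℓ p : ℂ))‖)) μ :=
    ((hi 0 le_rfl).norm.add (hi (2 * u₀.re) (by linarith)).norm).const_mul _
  have key := hasDerivAt_integral_of_dominated_loc_of_deriv_le (μ := μ)
    (F := fun (u : ℂ) p => g p * cexp (u * (ℓ p : ℂ)))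
    (F' := fun (u : ℂ) p => g p * ((ℓ p : ℂ) * cexp (u * (ℓ p : ℂ)))) (x₀ := u₀)
    (bound := fun p => 4 / u₀.re * (‖g p * cexp (((0 : ℝ) : ℂ) * (ℓ p : ℂ))‖ +
      ‖g p * cexp (((2 * u₀.re : ℝ) : ℂ) * (ℓ p : ℂ))‖))
    hball (Eventually.of_forall fun u => hg.mul (hexp u)) (l4_int hℓ hi hu₀.le)
    (hg.mul ((Complex.continuous_ofReal.comp_aestronglyMeasurable hℓ).mul (hexp u₀))) ?_ hbound ?_
  · exact key.2.differentiableAt.differentiableWithinAt
  · refine Eventually.of_forall fun p u hu => ?_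
    obtain ⟨h1, h2⟩ := hre u hu
    have h3 := l4_abs (ℓ := ℓ p) hu₀ h1 h2
    simp only [norm_mul, Complex.norm_exp, Complex.norm_real, Complex.re_mul_ofReal,
      Complex.ofReal_re, Real.norm_eq_abs, zero_mul, Real.exp_zero, mul_one]
    calc ‖g p‖ * (|ℓ p| * Real.exp (u.re * ℓ p)) ≤
          ‖g p‖ * (4 / u₀.re * (1 + Real.exp (2 * u₀.re * ℓ p))) :=
          mul_le_mul_of_nonneg_left h3 (norm_nonneg _)
      _ = 4 / u₀.re * (‖g p‖ + ‖g p‖ * Real.exp (2 * u₀.re * ℓ p)) := by ring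
  · refine Eventually.of_forall fun p u _ => ?_
    have h1 : HasDerivAt (fun u : ℂ => u * (ℓ p : ℂ)) (ℓ p : ℂ) u := by
      simpa using (hasDerivAt_id u).mul_const (ℓ p : ℂ)
    have h2 := (h1.cexp).const_mul (g p)
    have h3 : g p * ((ℓ p : ℂ) * cexp (u * (ℓ p : ℂ))) = g p * (cexp (u * (ℓ p : ℂ)) * (ℓ p : ℂ)) := by
      ring
    simp only [h3]
    exact h2

end

/-- the exponent -/
noncomputable def l4_l (p : ℂ × ℝ) : ℝ := -Real.log (1 + normSq p.1)

theorem l4_l_meas : Measurable l4_l := by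
  unfold l4_l
  exact (Real.measurable_log.comp (measurable_const.add
      (Complex.continuous_normSq.measurable.comp measurable_fst))).neg

theorem l4_mf (f : ℂ × ℝ → ℂ) (a : ℕ) (σ z u : ℂ) (p : ℂ × ℝ) :
    mf f a (σ + u) z p = mf f a σ z p * cexp (u * (l4_l p : ℂ)) := by
  unfold mf l4_l
  have h1 : 0 < 1 + normSq p.1 := by
    have := normSq_nonneg p.1
    linarith
  have h2 : ((1 + normSq p.1 : ℝ) : ℂ) ≠ 0 := by exact_mod_cast h1.ne'
  rw [Complex.cpow_def_of_ne_zero h2, Complex.cpow_def_of_ne_zero h2, ← Complex.ofReal_log h1.le]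
  have h3 : cexp ((Real.log (1 + normSq p.1) : ℂ) * (z - 1 / 2 - (σ + u) - a / 2)) =
      cexp ((Real.log (1 + normSq p.1) : ℂ) * (z - 1 / 2 - σ - a / 2)) *
        cexp (u * ((-Real.log (1 + normSq p.1) : ℝ) : ℂ)) := by
    rw [← Complex.exp_add]
    congr 1
    push_cast
    ring
  rw [h3]
  ring

theorem l4_hol {f : ℂ × ℝ → ℂ} (hf : Ray f) (t : ℝ) {u : ℂ} (hu : 0 < u.re) :
    DifferentiableAt ℂ (fun u : ℂ => Mz f 0 (1 + u) (1 / 2 + t * I)) u := by
  have hz : ((1 / 2 + t * I : ℂ)).re = 1 / 2 := by simp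
  have hi : ∀ x : ℝ, 0 ≤ x → Integrable (fun p => mf f 0 (1 + ((u.re / 2 : ℝ) : ℂ))
      (1 / 2 + t * I) p * cexp ((x : ℂ) * (l4_l p : ℂ)))
      ((volume : Measure ℂ).prod (volume.restrict (Set.Ioi (0 : ℝ)))) := by
    intro x hx
    have h1 := mz_int hf (Nat.zero_le 1) (σ := 1 + ((u.re / 2 : ℝ) : ℂ) + (x : ℂ))
      (z := 1 / 2 + t * I) (by
        have e1 : (1 + ((u.re / 2 : ℝ) : ℂ) + (x : ℂ)).re = 1 + u.re / 2 + x := by
          rw [Complex.add_re, Complex.add_re, Complex.one_re, Complex.ofReal_re, Complex.ofReal_re]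
        rw [e1, hz, sub_self, abs_zero]
        linarith)
    exact h1.congr (Eventually.of_forall fun p => l4_mf f 0 _ _ _ p)
  have h := l4_deriv l4_l_meas.aestronglyMeasurable hi
  have h1 : DifferentiableAt ℂ (fun w : ℂ => ∫ p, mf f 0 (1 + ((u.re / 2 : ℝ) : ℂ))
      (1 / 2 + t * I) p * cexp (w * (l4_l p : ℂ))
      ∂((volume : Measure ℂ).prod (volume.restrict (Set.Ioi (0 : ℝ)))))
      (u - ((u.re / 2 : ℝ) : ℂ)) := by
    have ho : IsOpen {w : ℂ | 0 < w.re} := isOpen_lt continuous_const Complex.continuous_re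
    have hm : u - ((u.re / 2 : ℝ) : ℂ) ∈ {w : ℂ | 0 < w.re} := by
      change 0 < (u - ((u.re / 2 : ℝ) : ℂ)).re
      rw [Complex.sub_re, Complex.ofReal_re]
      linarith
    exact (h _ hm).differentiableAt (ho.mem_nhds hm)
  have h2 : (fun u' : ℂ => Mz f 0 (1 + u') (1 / 2 + t * I)) =
      (fun w : ℂ => ∫ p, mf f 0 (1 + ((u.re / 2 : ℝ) : ℂ))
      (1 / 2 + t * I) p * cexp (w * (l4_l p : ℂ))
      ∂((volume : Measure ℂ).prod (volume.restrict (Set.Ioi (0 : ℝ))))) ∘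
      (fun u' : ℂ => u' - ((u.re / 2 : ℝ) : ℂ)) := by
    funext u'
    simp only [Function.comp_apply]
    unfold Mz
    refine integral_congr_ae (Eventually.of_forall fun p => ?_)
    have h3 := l4_mf f 0 (1 + ((u.re / 2 : ℝ) : ℂ)) (1 / 2 + t * I) (u' - ((u.re / 2 : ℝ) : ℂ)) p
    rw [show (1 + ((u.re / 2 : ℝ) : ℂ)) + (u' - ((u.re / 2 : ℝ) : ℂ)) = 1 + u' by ring] at h3
    exact h3
  rw [h2]
  exact DifferentiableAt.comp u h1 (differentiableAt_id.sub_const _)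

theorem l4_ad {q : ℕ} {ν : ℂ} (had : Ad q ν) : -1 < ((q : ℂ) + ν).re ∧ -1 < ((q : ℂ) - ν).re := by
  rw [Complex.add_re, Complex.sub_re, Complex.natCast_re]
  have h0 : |ν.re| < 1 := by
    rcases had with h | h
    · rw [h, abs_zero]
      exact one_pos
    · exact h.2.2
  have h1 : (0 : ℝ) ≤ q := Nat.cast_nonneg q
  rw [abs_lt] at h0
  constructor <;> linarith [h0.1, h0.2]

theorem l4_gam {w : ℂ} (hw : 0 < w.re) : DifferentiableAt ℂ Gamma w := by
  refine Complex.differentiableAt_Gamma w fun m hm => ?_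
  rw [hm, Complex.neg_re, Complex.natCast_re] at hw
  have : (0 : ℝ) ≤ m := Nat.cast_nonneg m
  linarith

theorem l4_kp {q : ℕ} {ν : ℂ} (had : Ad q ν) (t : ℝ) {u : ℂ} (hu : 0 < u.re) :
    DifferentiableAt ℂ (fun u : ℂ => kp q ν 0 (1 + u) (1 / 2 + t * I)) u := by
  obtain ⟨h1, h2⟩ := l4_ad had
  have hr : ∀ w : ℂ, (w / 2).re = w.re / 2 := fun w => by
    rw [show w / 2 = w / ((2 : ℝ) : ℂ) by norm_num, Complex.div_ofReal_re]
  have a1 : 0 < (1 + u - 1 / 2 + ((q : ℂ) + ν) / 2).re := by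
    rw [Complex.add_re, hr, Complex.sub_re, Complex.add_re, Complex.one_re, hr, Complex.one_re]
    linarith
  have a2 : 0 < (1 + u - 1 / 2 + ((q : ℂ) - ν) / 2).re := by
    rw [Complex.add_re, hr, Complex.sub_re, Complex.add_re, Complex.one_re, hr, Complex.one_re]
    linarith
  have a3 : 0 < (1 + u + 1 / 2 - (1 / 2 + t * I)).re := by
    rw [show 1 + u + 1 / 2 - (1 / 2 + t * I) = 1 + u - t * I by ring]
    simp only [Complex.sub_re, Complex.add_re, Complex.one_re, Complex.mul_re, Complex.ofReal_re,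
      Complex.I_re, Complex.ofReal_im, Complex.I_im]
    linarith
  have a4 : 0 < (1 + u - 1 / 2 + q + (1 / 2 + t * I)).re := by
    rw [show 1 + u - 1 / 2 + q + (1 / 2 + t * I) = 1 + u + q + t * I by ring]
    simp only [Complex.add_re, Complex.one_re, Complex.mul_re, Complex.ofReal_re,
      Complex.I_re, Complex.ofReal_im, Complex.I_im, Complex.natCast_re]
    have : (0 : ℝ) ≤ q := Nat.cast_nonneg q
    linarith
  have e : (fun u : ℂ => kp q ν 0 (1 + u) (1 / 2 + t * I)) = fun u : ℂ =>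
      Real.pi * (Gamma (1 + u - 1 / 2 + ((q : ℂ) + ν) / 2) *
        Gamma (1 + u - 1 / 2 + ((q : ℂ) - ν) / 2)) /
      (Gamma (1 + u + 1 / 2 - (1 / 2 + t * I)) *
        Gamma (1 + u - 1 / 2 + q + (1 / 2 + t * I))) := by
    funext u'
    unfold kp
    rw [if_pos rfl]
  rw [e]
  have d1 : DifferentiableAt ℂ (fun u : ℂ => Gamma (1 + u - 1 / 2 + ((q : ℂ) + ν) / 2)) u :=
    DifferentiableAt.comp (g := Gamma) u (l4_gam a1) (by fun_prop)
  have d2 : DifferentiableAt ℂ (fun u : ℂ => Gamma (1 + u - 1 / 2 + ((q : ℂ) - ν) / 2)) u :=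
    DifferentiableAt.comp (g := Gamma) u (l4_gam a2) (by fun_prop)
  have d3 : DifferentiableAt ℂ (fun u : ℂ => Gamma (1 + u + 1 / 2 - (1 / 2 + t * I))) u :=
    DifferentiableAt.comp (g := Gamma) u (l4_gam a3) (by fun_prop)
  have d4 : DifferentiableAt ℂ (fun u : ℂ => Gamma (1 + u - 1 / 2 + q + (1 / 2 + t * I))) u :=
    DifferentiableAt.comp (g := Gamma) u (l4_gam a4) (by fun_prop)
  refine DifferentiableAt.div ?_ (d3.mul d4) (mul_ne_zero (Complex.Gamma_ne_zero_of_re_pos a3)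
    (Complex.Gamma_ne_zero_of_re_pos a4))
  exact (d1.mul d2).const_mul _

theorem mz_cplx (S : IQ s) {q : ℕ} {ν : ℂ} (had : Ad q ν) {c c' : K → ℂ} (h : DP s q ν c c')
    {u : ℂ} (hu : 0 < u.re) (t : ℝ) :
    Mz (cp s q ν c 0) 0 (1 + u) (1 / 2 + t * I) =
      kp q ν 0 (1 + u) (1 / 2 + t * I) * Lz s q ν c (1 / 2 + t * I) := by
  set U : Set ℂ := {w : ℂ | 0 < w.re} with hU
  have ho : IsOpen U := isOpen_lt continuous_const Complex.continuous_re
  have hpre : IsPreconnected U := (convex_halfSpace_re_gt 0).isPreconnected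
  have hray := ray_cp S had h 0
  have hf : AnalyticOnNhd ℂ (fun u : ℂ => Mz (cp s q ν c 0) 0 (1 + u) (1 / 2 + t * I)) U :=
    DifferentiableOn.analyticOnNhd (fun w hw => (l4_hol hray t hw).differentiableWithinAt) ho
  have hg : AnalyticOnNhd ℂ (fun u : ℂ => kp q ν 0 (1 + u) (1 / 2 + t * I) *
      Lz s q ν c (1 / 2 + t * I)) U :=
    DifferentiableOn.analyticOnNhd
      (fun w hw => ((l4_kp had t hw).mul_const _).differentiableWithinAt) ho
  have h1 : (1 : ℂ) ∈ U := by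
    change 0 < (1 : ℂ).re
    rw [Complex.one_re]
    exact one_pos
  have hreal : ∀ x : ℝ, 0 < x → Mz (cp s q ν c 0) 0 (1 + (x : ℂ)) (1 / 2 + t * I) =
      kp q ν 0 (1 + (x : ℂ)) (1 / 2 + t * I) * Lz s q ν c (1 / 2 + t * I) := by
    intro x hx
    have hz : ((1 / 2 + t * I : ℂ)).re = 1 / 2 := by simp
    have h2 := mz_all S had h (Nat.zero_le 1) (σ := 1 + x) (z := 1 / 2 + t * I)
      (by rw [hz]) (by rw [hz]; linarith)
    rw [Complex.ofReal_add, Complex.ofReal_one] at h2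
    exact h2
  have hfreq : ∃ᶠ w in 𝓝[≠] (1 : ℂ), (fun u : ℂ => Mz (cp s q ν c 0) 0 (1 + u) (1 / 2 + t * I)) w =
      (fun u : ℂ => kp q ν 0 (1 + u) (1 / 2 + t * I) * Lz s q ν c (1 / 2 + t * I)) w := by
    have ht : Tendsto (fun x : ℝ => (x : ℂ)) (𝓝[≠] (1 : ℝ)) (𝓝[≠] (1 : ℂ)) := by
      refine tendsto_nhdsWithin_iff.2 ⟨?_, ?_⟩
      · have h3 : Tendsto (fun x : ℝ => (x : ℂ)) (𝓝 (1 : ℝ)) (𝓝 ((1 : ℝ) : ℂ)) :=
          Complex.continuous_ofReal.tendsto 1
        rw [Complex.ofReal_one] at h3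
        exact h3.mono_left nhdsWithin_le_nhds
      · filter_upwards [self_mem_nhdsWithin] with x hx h4
        exact hx (Set.mem_singleton_iff.2 (by exact_mod_cast Set.mem_singleton_iff.1 h4))
    refine ht.frequently (Eventually.frequently ?_)
    have h5 : ∀ᶠ x : ℝ in 𝓝[≠] (1 : ℝ), 0 < x :=
      nhdsWithin_le_nhds (lt_mem_nhds one_pos)
    filter_upwards [h5] with x hx
    exact hreal x hx
  exact hf.eqOn_of_preconnected_of_frequently_eq hg hpre h1 hfreq hu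

end Pool.Agent.HI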