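import Pool.Agent.Lib_helper25.HIF.DX
import Pool.Agent.Lib_helper25.HIF.DXL
import Pool.Agent.Lib_helper98.H4F.GG
import Pool.Agent.Lib_helper19.H3.SH

/-!
# Project HI, block L5: the localised weight
-/

namespace Pool.Agent.HI
open NumberField Complex MeasureTheory Set Filter Topology
open Pool.Agent.HI

theorem rg_bd {q : ℕ} {ν : ℂ} (had : Ad q ν) : ∃ C A : ℝ, 0 ≤ C ∧ 0 ≤ A ∧ ∀ u : ℂ, |u.re| ≤ 1 →
    ‖(Gamma (1 / 2 + u + (q + ν) / 2) * Gamma (1 / 2 + u + (q - ν) / 2))⁻¹‖ ≤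
      C * Real.exp (A * |u.im|) := by
  have hpi := Real.pi_pos
  set R : ℝ := 3 / 2 + q / 2 + |ν.re| with hR
  obtain ⟨C, hC⟩ := Pool.Agent.H4.inv_Gamma_bd (θ := 0) le_rfl (by positivity) (-R) R
  have key : ∀ e : ℝ, |e| = 1 → ∀ u : ℂ, |u.re| ≤ 1 →
      ‖(Gamma (1 / 2 + u + (q + e * ν) / 2))⁻¹‖ ≤
        |C| * Real.exp (Real.pi * |ν.im|) * Real.exp (Real.pi * |u.im|) := by
    intro e he u hu
    have h1 : (1 / 2 + u + (q + e * ν) / 2 : ℂ).re = 1 / 2 + u.re + (q + e * ν.re) / 2 := by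
      simp [Complex.add_re, Complex.mul_re]
    have h2 : (1 / 2 + u + (q + e * ν) / 2 : ℂ).im = u.im + e * ν.im / 2 := by
      simp [Complex.add_im, Complex.mul_im]
    have h3 : |e * ν.re| ≤ |ν.re| := by rw [abs_mul, he, one_mul]
    have h4 := abs_le.1 h3
    have h5 := abs_le.1 hu
    have hq : (0 : ℝ) ≤ q := Nat.cast_nonneg q
    have h6 : 0 ≤ |ν.re| := abs_nonneg _
    have b := hC (1 / 2 + u + (q + e * ν) / 2) (by rw [h1, hR]; linarith) (by rw [h1, hR]; linarith)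
    rw [h2, sub_zero] at b
    have h7 : |u.im + e * ν.im / 2| ≤ |u.im| + |ν.im| := by
      refine (abs_add_le _ _).trans ?_
      have : |e * ν.im / 2| ≤ |ν.im| := by
        rw [abs_div, abs_mul, he, one_mul, abs_two]
        linarith [abs_nonneg ν.im]
      linarith
    calc ‖(Gamma (1 / 2 + u + (q + e * ν) / 2))⁻¹‖
        ≤ C * Real.exp (Real.pi * |u.im + e * ν.im / 2|) := b
      _ ≤ |C| * Real.exp (Real.pi * |u.im + e * ν.im / 2|) :=
          mul_le_mul_of_nonneg_right (le_abs_self C) (Real.exp_pos _).le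
      _ ≤ |C| * Real.exp (Real.pi * (|u.im| + |ν.im|)) := by
          refine mul_le_mul_of_nonneg_left (Real.exp_le_exp.2 ?_) (abs_nonneg _)
          exact mul_le_mul_of_nonneg_left h7 hpi.le
      _ = _ := by
          rw [mul_add, Real.exp_add]
          ring
  refine ⟨(|C| * Real.exp (Real.pi * |ν.im|)) ^ 2, 2 * Real.pi, by positivity, by positivity,
    fun u hu => ?_⟩
  have k1 := key 1 (by simp) u hu
  have k2 := key (-1) (by simp) u hu
  have e1 : (1 / 2 + u + (q + ((1 : ℝ) : ℂ) * ν) / 2 : ℂ) = 1 / 2 + u + (q + ν) / 2 := by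
    push_cast; ring
  have e2 : (1 / 2 + u + (q + ((-1 : ℝ) : ℂ) * ν) / 2 : ℂ) = 1 / 2 + u + (q - ν) / 2 := by
    push_cast; ring
  rw [e1] at k1
  rw [e2] at k2
  rw [mul_inv, norm_mul]
  calc ‖(Gamma (1 / 2 + u + (q + ν) / 2))⁻¹‖ * ‖(Gamma (1 / 2 + u + (q - ν) / 2))⁻¹‖
      ≤ (|C| * Real.exp (Real.pi * |ν.im|) * Real.exp (Real.pi * |u.im|)) *
        (|C| * Real.exp (Real.pi * |ν.im|) * Real.exp (Real.pi * |u.im|)) :=
        mul_le_mul k1 k2 (norm_nonneg _) (by positivity)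
    _ = (|C| * Real.exp (Real.pi * |ν.im|)) ^ 2 *
          (Real.exp (Real.pi * |u.im|) * Real.exp (Real.pi * |u.im|)) := by ring
    _ = _ := by
        rw [← Real.exp_add]
        congr 2
        ring

/-- the entire function under the integral sign -/
noncomputable def gF (q : ℕ) (ν : ℂ) (x : ℝ) (u : ℂ) : ℂ :=
  cexp (u ^ 2) * cexp (u * x) /
    (Gamma (1 / 2 + u + (q + ν) / 2) * Gamma (1 / 2 + u + (q - ν) / 2))

theorem gF_diff (q : ℕ) (ν : ℂ) (x : ℝ) : Differentiable ℂ (gF q ν x) := by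
  have h1 : Differentiable ℂ (fun u : ℂ => (Gamma (1 / 2 + u + (q + ν) / 2))⁻¹) :=
    Complex.differentiable_one_div_Gamma.comp
      (by fun_prop : Differentiable ℂ (fun u : ℂ => 1 / 2 + u + (q + ν) / 2))
  have h2 : Differentiable ℂ (fun u : ℂ => (Gamma (1 / 2 + u + (q - ν) / 2))⁻¹) :=
    Complex.differentiable_one_div_Gamma.comp
      (by fun_prop : Differentiable ℂ (fun u : ℂ => 1 / 2 + u + (q - ν) / 2))
  have h3 : Differentiable ℂ (fun u : ℂ => cexp (u ^ 2) * cexp (u * x)) := by fun_prop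
  have h4 : gF q ν x = fun u : ℂ => cexp (u ^ 2) * cexp (u * x) *
      ((Gamma (1 / 2 + u + (q + ν) / 2))⁻¹ * (Gamma (1 / 2 + u + (q - ν) / 2))⁻¹) := by
    funext u
    rw [gF, div_eq_mul_inv, mul_inv]
  rw [h4]
  exact h3.mul (h1.mul h2)

/-- the bound in the strip `|Re u| ≤ 1/2` -/
theorem gF_bd {q : ℕ} {ν : ℂ} (had : Ad q ν) : ∃ C : ℝ, 0 ≤ C ∧ ∀ (x : ℝ) (u : ℂ), |u.re| ≤ 1 / 2 →
    ‖gF q ν x u‖ ≤ C * Real.exp (u.re * x) * Real.exp (-(1 * |u.im|)) := by
  obtain ⟨C, A, hC, hA, h⟩ := rg_bd had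
  refine ⟨C * Real.exp (1 / 4 + (A + 1) ^ 2 / 4), by positivity, fun x u hu => ?_⟩
  have h1 := h u (by linarith)
  have h2 : ‖cexp (u ^ 2)‖ = Real.exp (u.re ^ 2 - u.im ^ 2) := by
    rw [Complex.norm_exp]
    congr 1
    rw [pow_two, Complex.mul_re]
    ring
  have h3 : ‖cexp (u * x)‖ = Real.exp (u.re * x) := by
    rw [Complex.norm_exp]
    congr 1
    simp
  have h4 : u.re ^ 2 ≤ 1 / 4 := by
    have := abs_le.1 hu
    nlinarith
  rw [gF, div_eq_mul_inv, norm_mul, norm_mul, h2, h3]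
  calc Real.exp (u.re ^ 2 - u.im ^ 2) * Real.exp (u.re * x) *
        ‖(Gamma (1 / 2 + u + (q + ν) / 2) * Gamma (1 / 2 + u + (q - ν) / 2))⁻¹‖
      ≤ Real.exp (u.re ^ 2 - u.im ^ 2) * Real.exp (u.re * x) * (C * Real.exp (A * |u.im|)) :=
        mul_le_mul_of_nonneg_left h1 (by positivity)
    _ = C * Real.exp (u.re * x) *
          Real.exp (u.re ^ 2 - u.im ^ 2 + A * |u.im|) := by
        rw [Real.exp_add]
        ring
    _ ≤ C * Real.exp (u.re * x) *
          Real.exp (1 / 4 + (A + 1) ^ 2 / 4 + -(1 * |u.im|)) := by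
        refine mul_le_mul_of_nonneg_left (Real.exp_le_exp.2 ?_) (by positivity)
        have h5 : u.im ^ 2 = |u.im| ^ 2 := (sq_abs _).symm
        rw [h5]
        nlinarith [sq_nonneg (|u.im| - (A + 1) / 2)]
    _ = _ := by
        rw [Real.exp_add (1 / 4 + (A + 1) ^ 2 / 4)]
        ring

theorem gw_eq (q : ℕ) (ν : ℂ) (x : ℝ) :
    gw q ν x = ∫ y : ℝ, gF q ν x (((1 / 2 : ℝ) : ℂ) + y * I) := by
  have h : ∀ y : ℝ, uh y = ((1 / 2 : ℝ) : ℂ) + y * I := by
    intro y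
    rw [uh]
    push_cast
    ring
  simp only [gw, gF, h]

theorem gw_eq' {q : ℕ} {ν : ℂ} (had : Ad q ν) (x : ℝ) :
    gw q ν x = ∫ y : ℝ, gF q ν x (((-(1 / 2) : ℝ) : ℂ) + y * I) := by
  obtain ⟨C, hC, h⟩ := gF_bd had
  rw [gw_eq]
  refine (Pool.Agent.H3.vert_shift_pr (f := gF q ν x) (a := -(1 / 2)) (b := 1 / 2)
    (C := C * Real.exp (|x|)) (c := 1) (by norm_num) one_pos
    (fun s _ _ => (gF_diff q ν x) s) (fun s h1 h2 => ?_)).2.2.symm
  have h3 : |s.re| ≤ 1 / 2 := abs_le.2 ⟨h1, h2⟩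
  refine (h x s h3).trans ?_
  refine mul_le_mul_of_nonneg_right ?_ (Real.exp_pos _).le
  refine mul_le_mul_of_nonneg_left (Real.exp_le_exp.2 ?_) hC
  calc s.re * x ≤ |s.re * x| := le_abs_self _
    _ = |s.re| * |x| := abs_mul _ _
    _ ≤ 1 * |x| := mul_le_mul_of_nonneg_right (by linarith) (abs_nonneg _)
    _ = |x| := one_mul _

/-- the bound for an integral over one line -/
theorem line_bd {q : ℕ} {ν : ℂ} {C : ℝ} (hC : 0 ≤ C) (h : ∀ (x : ℝ) (u : ℂ), |u.re| ≤ 1 / 2 →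
    ‖gF q ν x u‖ ≤ C * Real.exp (u.re * x) * Real.exp (-(1 * |u.im|))) {a : ℝ} (ha : |a| ≤ 1 / 2)
    (x : ℝ) :
    ‖∫ y : ℝ, gF q ν x ((a : ℂ) + y * I)‖ ≤
      C * (∫ y : ℝ, Real.exp (-(1 * |y|))) * Real.exp (a * x) := by
  have h1 : ∀ y : ℝ, ‖gF q ν x ((a : ℂ) + y * I)‖ ≤
      C * Real.exp (a * x) * Real.exp (-(1 * |y|)) := by
    intro y
    have := h x ((a : ℂ) + y * I) (by simpa using ha)
    simpa using this
  refine (norm_integral_le_of_norm_le
    ((Pool.Agent.H3.sh_integrable one_pos).const_mul (C * Real.exp (a * x)))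
    (Eventually.of_forall h1)).trans (le_of_eq ?_)
  rw [integral_const_mul]
  ring

theorem gw_cont {q : ℕ} {ν : ℂ} (had : Ad q ν) : Continuous (gw q ν) := by
  obtain ⟨C, hC, h⟩ := gF_bd had
  rw [continuous_iff_continuousAt]
  intro x₀
  have h0 : gw q ν = fun x : ℝ => ∫ y : ℝ, gF q ν x (((1 / 2 : ℝ) : ℂ) + y * I) := by
    funext x
    exact gw_eq q ν x
  rw [h0]
  refine continuousAt_of_dominated (bound := fun y : ℝ =>
    C * Real.exp (|x₀| + 1) * Real.exp (-(1 * |y|))) ?_ ?_ ?_ ?_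
  · refine Eventually.of_forall (fun x => ?_)
    have : Continuous (fun y : ℝ => gF q ν x (((1 / 2 : ℝ) : ℂ) + y * I)) :=
      (gF_diff q ν x).continuous.comp (by fun_prop)
    exact this.aestronglyMeasurable
  · filter_upwards [Metric.ball_mem_nhds x₀ one_pos] with x hx
    refine Eventually.of_forall (fun y => ?_)
    have h1 := h x (((1 / 2 : ℝ) : ℂ) + y * I) (by
      simp only [add_re, ofReal_re, mul_re, I_re, mul_zero, ofReal_im, I_im, mul_one, sub_self,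
        add_zero]
      norm_num)
    refine h1.trans ?_
    have h2 : (((1 / 2 : ℝ) : ℂ) + y * I).re = 1 / 2 := by simp
    have h3 : (((1 / 2 : ℝ) : ℂ) + y * I).im = y := by simp
    rw [h2, h3]
    refine mul_le_mul_of_nonneg_right ?_ (Real.exp_pos _).le
    refine mul_le_mul_of_nonneg_left (Real.exp_le_exp.2 ?_) hC
    rw [Metric.mem_ball, Real.dist_eq] at hx
    have h4 : |x| ≤ |x₀| + 1 := by
      calc |x| = |x₀ + (x - x₀)| := by ring_nf
        _ ≤ |x₀| + |x - x₀| := abs_add_le _ _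
        _ ≤ _ := by linarith
    have h5 := le_abs_self x
    have h6 := abs_nonneg x
    linarith
  · exact (Pool.Agent.H3.sh_integrable one_pos).const_mul _
  · refine Eventually.of_forall (fun y => ?_)
    have : Continuous (fun x : ℝ => gF q ν x (((1 / 2 : ℝ) : ℂ) + y * I)) := by
      unfold gF
      fun_prop
    exact this.continuousAt

theorem gw_int {q : ℕ} {ν : ℂ} (had : Ad q ν) : Integrable (gw q ν) ∧ Continuous (gw q ν) := by
  refine ⟨?_, gw_cont had⟩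
  obtain ⟨C, hC, h⟩ := gF_bd had
  set M : ℝ := C * (∫ y : ℝ, Real.exp (-(1 * |y|))) with hM
  have hM0 : 0 ≤ M := mul_nonneg hC (integral_nonneg fun y => (Real.exp_pos _).le)
  have hbd : ∀ x : ℝ, ‖gw q ν x‖ ≤ M * Real.exp (-(1 / 2 * |x|)) := by
    intro x
    rcases le_total 0 x with hx | hx
    · have h1 := line_bd hC h (a := -(1 / 2)) (by norm_num [abs_of_nonneg]) x
      rw [← gw_eq' had x] at h1
      rw [abs_of_nonneg hx]
      have e : -(1 / 2) * x = -(1 / 2 * x) := by ring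
      rw [e] at h1
      exact h1
    · have h1 := line_bd hC h (a := 1 / 2) (by norm_num [abs_of_nonneg]) x
      rw [← gw_eq q ν x] at h1
      rw [abs_of_nonpos hx]
      have e : -(1 / 2 * -x) = 1 / 2 * x := by ring
      rw [e]
      exact h1
  refine Integrable.mono' ((Pool.Agent.H3.sh_integrable (c := 1 / 2) (by norm_num)).const_mul M)
    (gw_cont had).aestronglyMeasurable (Eventually.of_forall hbd)

end Pool.Agent.HI
namespace Pool.Agent.HI


end Pool.Agent.HI
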