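import Pool.Agent.Lib_helper25.HIF.DX
import Pool.Agent.Lib_helper25.HIF.GD
import Pool.Agent.Lib_helper25.HIF.L4
import Pool.Agent.Lib_helper25.HIF.L5
import Pool.Agent.Lib_helper25.HIF.MG
import Pool.Agent.Lib_helper25.HIF.MI
import Pool.Agent.Lib_helper25.HIF.DXL

/-! HI, block L6: the smoothed moments with the localised kernel are bounded -/

namespace Pool.Agent.HI
open NumberField Complex MeasureTheory Set Filter Topology
open Pool.Agent.HB (Kb Adm)
open Pool.Agent.H4 (ml atl FunBd vcf)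
open Pool.Agent.HQ (bp)
open scoped FourierTransform

/-! ### two substitutions -/

theorem l6_y {g : ℝ → ℝ} (hg : Integrable g) (a : ℝ) :
    IntegrableOn (fun y : ℝ => y⁻¹ * g (a + 2 * Real.log y)) (Set.Ioi 0) ∧
    ∫ y in Set.Ioi (0 : ℝ), y⁻¹ * g (a + 2 * Real.log y) = (1 / 2) * ∫ x, g x := by
  have himg : Real.exp '' Set.univ = Set.Ioi 0 := by rw [Set.image_univ, Real.range_exp]
  have hder : ∀ x ∈ (Set.univ : Set ℝ), HasDerivWithinAt Real.exp (Real.exp x) Set.univ x :=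
    fun x _ => (Real.hasDerivAt_exp x).hasDerivWithinAt
  have hinj : Set.InjOn Real.exp Set.univ := Real.exp_injective.injOn
  set G : ℝ → ℝ := fun y => y⁻¹ * g (a + 2 * Real.log y) with hG
  have hfun : (fun x : ℝ => |Real.exp x| • G (Real.exp x)) =
      fun x : ℝ => g (2 * (x + a / 2)) := by
    funext x
    rw [hG, abs_of_pos (Real.exp_pos x)]
    simp only [Real.log_exp, smul_eq_mul]
    rw [← mul_assoc, mul_inv_cancel₀ (Real.exp_pos x).ne', one_mul]
    congr 1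
    ring
  have h2 : Integrable (fun x : ℝ => g (2 * (x + a / 2))) :=
    (hg.comp_mul_left' (R := 2) (by norm_num)).comp_add_right (a / 2)
  constructor
  · rw [← himg, integrableOn_image_iff_integrableOn_abs_deriv_smul MeasurableSet.univ hder hinj,
      hfun, integrableOn_univ]
    exact h2
  · rw [← himg, integral_image_eq_integral_abs_deriv_smul MeasurableSet.univ hder hinj, hfun,
      setIntegral_univ, integral_add_right_eq_self (fun x : ℝ => g (2 * x)) (a / 2),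
      Measure.integral_comp_mul_left]
    norm_num

theorem l6_v {h : ℝ → ℝ} (hh : Integrable h) (h0 : ∀ x, 0 ≤ h x) (b : ℝ) :
    Integrable (fun v : ℂ => (1 + normSq v)⁻¹ * h (b - Real.log (1 + normSq v))) ∧
    ∫ v : ℂ, (1 + normSq v)⁻¹ * h (b - Real.log (1 + normSq v)) ≤ Real.pi * ∫ x, h x := by
  set φ : ℝ → ℝ := fun r => Real.log (1 + r ^ 2) with hφ
  have hder : ∀ x ∈ Set.Ioi (0 : ℝ), HasDerivWithinAt φ (2 * x / (1 + x ^ 2)) (Set.Ioi 0) x := by
    intro x hx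
    have h1 : HasDerivAt (fun r : ℝ => 1 + r ^ 2) (2 * x) x := by
      simpa using (hasDerivAt_pow 2 x).const_add 1
    exact (h1.log (by positivity)).hasDerivWithinAt
  have hinj : Set.InjOn φ (Set.Ioi 0) := by
    intro x hx y hy hxy
    have hx0 : (0 : ℝ) < x := hx
    have hy0 : (0 : ℝ) < y := hy
    have h1 := Real.log_injOn_pos (show (0 : ℝ) < 1 + x ^ 2 by positivity)
      (show (0 : ℝ) < 1 + y ^ 2 by positivity) hxy
    have h2 : x ^ 2 = y ^ 2 := by linarith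
    exact (sq_eq_sq₀ hx0.le hy0.le).1 h2
  have himg : φ '' Set.Ioi 0 ⊆ Set.Ioi 0 := by
    rintro _ ⟨x, hx, rfl⟩
    have hx0 : (0 : ℝ) < x := hx
    exact Real.log_pos (by nlinarith)
  have hcomp : Integrable (fun w : ℝ => h (b - w)) := hh.comp_sub_left b
  have hfun : ∀ x ∈ Set.Ioi (0 : ℝ), |2 * x / (1 + x ^ 2)| • h (b - φ x) =
      2 * (x ^ (2 - 1) • ((1 + x ^ 2)⁻¹ * h (b - Real.log (1 + x ^ 2)))) := by
    intro x hx
    have hx0 : (0 : ℝ) < x := hx
    rw [abs_of_pos (by positivity)]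
    simp only [smul_eq_mul, hφ]
    norm_num
    ring
  have hI : IntegrableOn (fun x : ℝ => x ^ (2 - 1) • ((1 + x ^ 2)⁻¹ *
      h (b - Real.log (1 + x ^ 2)))) (Set.Ioi 0) := by
    have h1 : IntegrableOn (fun w : ℝ => h (b - w)) (φ '' Set.Ioi 0) := hcomp.integrableOn
    rw [integrableOn_image_iff_integrableOn_abs_deriv_smul measurableSet_Ioi hder hinj] at h1
    have h2 := (integrableOn_congr_fun hfun measurableSet_Ioi).1 h1
    have h3 := h2.const_mul (1 / 2)
    refine h3.congr (Eventually.of_forall fun x => ?_)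
    simp only
    ring
  have hJ : ∫ x in Set.Ioi (0 : ℝ), x ^ (2 - 1) • ((1 + x ^ 2)⁻¹ *
      h (b - Real.log (1 + x ^ 2))) ≤ (1 / 2) * ∫ x, h x := by
    have h1 := integral_image_eq_integral_abs_deriv_smul measurableSet_Ioi hder hinj
      (fun w : ℝ => h (b - w))
    rw [setIntegral_congr_fun measurableSet_Ioi hfun, integral_const_mul] at h1
    have h2 : ∫ w in φ '' Set.Ioi 0, h (b - w) ≤ ∫ w, h (b - w) :=
      setIntegral_le_integral hcomp (Eventually.of_forall fun w => h0 _)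
    have h3 : ∫ w, h (b - w) = ∫ w, h w := integral_sub_left_eq_self h volume b
    linarith
  have hvol : (volume : Measure ℂ).real (Metric.ball 0 1) = Real.pi := by
    rw [Measure.real, Complex.volume_ball]
    simp
  have e2 : (fun v : ℂ => (1 + normSq v)⁻¹ * h (b - Real.log (1 + normSq v))) =
      fun v : ℂ => (fun r : ℝ => (1 + r ^ 2)⁻¹ * h (b - Real.log (1 + r ^ 2))) ‖v‖ := by
    funext v
    rw [normSq_eq_norm_sq]
  rw [e2]
  constructor
  · rw [integrable_fun_norm_addHaar (volume : Measure ℂ)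
      (f := fun r : ℝ => (1 + r ^ 2)⁻¹ * h (b - Real.log (1 + r ^ 2))), Complex.finrank_real_complex]
    exact hI
  · rw [integral_fun_norm_addHaar (volume : Measure ℂ)
      (fun r : ℝ => (1 + r ^ 2)⁻¹ * h (b - Real.log (1 + r ^ 2))), Complex.finrank_real_complex, hvol]
    simp only [nsmul_eq_mul, smul_eq_mul] at hJ ⊢
    have := Real.pi_pos
    push_cast
    nlinarith

/-! ### the Fourier transform of the bump function -/

/-- `∫ bp(u) e^{isu} du` -/
noncomputable def bh (s : ℝ) : ℂ := ∫ u : ℝ, ((bp u : ℝ) : ℂ) * cexp ((s * u : ℝ) * I)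

theorem l6_bp_int : Integrable (fun u : ℝ => ((bp u : ℝ) : ℂ)) := by
  have h : Integrable bp :=
    Pool.Agent.HQ.bpb.continuous.integrable_of_hasCompactSupport Pool.Agent.HQ.bpb.hasCompactSupport
  exact h.ofReal

theorem bh_int : Integrable bh ∧ Continuous bh := by
  have hpi : (2 * Real.pi : ℝ) ≠ 0 := by positivity
  have hcs : HasCompactSupport (fun u : ℝ => ((bp u : ℝ) : ℂ)) :=
    Pool.Agent.HQ.bpb.hasCompactSupport.comp_left (g := fun x : ℝ => (x : ℂ)) (by simp)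
  have hsm : ContDiff ℝ (⊤ : ℕ∞) (fun u : ℝ => ((bp u : ℝ) : ℂ)) :=
    Complex.ofRealCLM.contDiff.comp Pool.Agent.HQ.bpb.contDiff
  set S : SchwartzMap ℝ ℂ := hcs.toSchwartzMap hsm with hS
  have hSf : (S : ℝ → ℂ) = fun u : ℝ => ((bp u : ℝ) : ℂ) := rfl
  have e : bh = fun s : ℝ => (𝓕 S) (s * (-(1 / (2 * Real.pi)))) := by
    funext s
    rw [SchwartzMap.fourier_coe, Real.fourier_eq', hSf]
    unfold bh
    refine integral_congr_ae (Eventually.of_forall fun u => ?_)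
    simp only [smul_eq_mul]
    rw [mul_comm]
    congr 2
    simp
    field_simp
  rw [e]
  constructor
  · have h1 := (𝓕 S).integrable (μ := volume)
    exact h1.comp_mul_right' (by
      have := Real.pi_pos
      have : 0 < 1 / (2 * Real.pi) := by positivity
      linarith)
  · exact (𝓕 S).continuous.comp (by fun_prop)

theorem bh_scale {τ ρ : ℝ} (hρ : ρ ≠ 0) (s : ℝ) :
    ∫ t : ℝ, ((bp ((t - τ) / ρ) : ℝ) : ℂ) * cexp ((s * t : ℝ) * I) =
      ((|ρ| : ℝ) : ℂ) * cexp ((s * τ : ℝ) * I) * bh (s * ρ) := by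
  have h1 : ∀ t : ℝ, ((bp ((t - τ) / ρ) : ℝ) : ℂ) * cexp ((s * t : ℝ) * I) =
      (fun t' : ℝ => ((bp (t' / ρ) : ℝ) : ℂ) * cexp ((s * (t' + τ) : ℝ) * I)) (t - τ) := by
    intro t
    simp only [sub_add_cancel]
  simp_rw [h1]
  rw [integral_sub_right_eq_self (fun t' : ℝ => ((bp (t' / ρ) : ℝ) : ℂ) *
    cexp ((s * (t' + τ) : ℝ) * I)) τ]
  have h2 : ∀ t : ℝ, ((bp (t / ρ) : ℝ) : ℂ) * cexp ((s * (t + τ) : ℝ) * I) =
      (fun u : ℝ => cexp ((s * τ : ℝ) * I) * (((bp u : ℝ) : ℂ) *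
        cexp ((s * ρ * u : ℝ) * I))) (t / ρ) := by
    intro t
    simp only
    have e : s * ρ * (t / ρ) = s * t := by field_simp
    rw [e]
    rw [mul_left_comm, ← Complex.exp_add]
    congr 2
    push_cast
    ring
  simp_rw [h2]
  rw [Measure.integral_comp_div (fun u : ℝ => cexp ((s * τ : ℝ) * I) * (((bp u : ℝ) : ℂ) *
        cexp ((s * ρ * u : ℝ) * I))) ρ, integral_const_mul]
  unfold bh
  rw [Complex.real_smul]
  ring

theorem bh_l1 {ρ : ℝ} (hρ : ρ ≠ 0) : Integrable (fun s : ℝ => |ρ| * ‖bh (s * ρ)‖) ∧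
    ∫ s : ℝ, |ρ| * ‖bh (s * ρ)‖ = ∫ s : ℝ, ‖bh s‖ := by
  constructor
  · exact ((bh_int.1.norm).comp_mul_right' hρ).const_mul _
  · rw [integral_const_mul, Measure.integral_comp_mul_right (fun s : ℝ => ‖bh s‖) ρ, smul_eq_mul,
      ← mul_assoc, abs_inv, mul_inv_cancel₀ (abs_ne_zero.2 hρ), one_mul]

/-! ### the weight -/

/-- the reciprocal Gamma factors -/
noncomputable def RG (q : ℕ) (ν u : ℂ) : ℂ :=
  (Gamma (1 / 2 + u + (q + ν) / 2))⁻¹ * (Gamma (1 / 2 + u + (q - ν) / 2))⁻¹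

theorem RG_cont (q : ℕ) (ν : ℂ) : Continuous (RG q ν) := by
  unfold RG
  have h := Complex.differentiable_one_div_Gamma.continuous
  exact (h.comp (by fun_prop : Continuous fun u : ℂ => 1 / 2 + u + (q + ν) / 2)).mul
    (h.comp (by fun_prop : Continuous fun u : ℂ => 1 / 2 + u + (q - ν) / 2))

theorem uh_re (x : ℝ) : (uh x).re = 1 / 2 := by
  unfold uh
  simp

theorem uh_im (x : ℝ) : (uh x).im = x := by
  unfold uh
  simp

theorem uh_cont : Continuous uh := by
  unfold uh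
  fun_prop

/-- the weight in `x` -/
noncomputable def Wt (q : ℕ) (ν : ℂ) (T x : ℝ) : ℂ :=
  (T : ℂ) ^ (2 * uh x) * cexp (uh x ^ 2) * RG q ν (uh x)

theorem Wt_int {q : ℕ} {ν : ℂ} (had : Ad q ν) {T : ℝ} (hT : 0 < T) : Integrable (Wt q ν T) := by
  obtain ⟨C, A, hC, hA, hb⟩ := rg_bd had
  have hT' : (T : ℂ) ≠ 0 := by exact_mod_cast hT.ne'
  have hcont : Continuous (Wt q ν T) := by
    unfold Wt
    refine (Continuous.mul ?_ ?_).mul ((RG_cont q ν).comp uh_cont)
    · have : (fun x : ℝ => (T : ℂ) ^ (2 * uh x)) = fun x : ℝ => cexp (Complex.log T * (2 * uh x)) := by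
        funext x
        rw [Complex.cpow_def_of_ne_zero hT']
      rw [this]
      have := uh_cont
      fun_prop
    · have := uh_cont
      fun_prop
  have hdom : Integrable (fun x : ℝ => T * C * Real.exp (1 / 4) *
      (Real.exp (-(1 / 2) * x ^ 2) * Real.exp (A ^ 2 / 2))) :=
    ((integrable_exp_neg_mul_sq (by norm_num : (0 : ℝ) < 1 / 2)).mul_const _).const_mul _
  refine hdom.mono' hcont.aestronglyMeasurable (Eventually.of_forall fun x => ?_)
  unfold Wt
  rw [norm_mul, norm_mul, Complex.norm_cpow_eq_rpow_re_of_pos hT, Complex.norm_exp]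
  have e1 : (2 * uh x).re = 1 := by
    rw [Complex.mul_re, uh_re]
    simp
  have e2 : (uh x ^ 2).re = 1 / 4 - x ^ 2 := by
    rw [sq, Complex.mul_re, uh_re, uh_im]
    ring
  rw [e1, e2, Real.rpow_one]
  have h1 := hb (uh x) (by rw [uh_re]; norm_num)
  rw [mul_inv, uh_im] at h1
  have h2 : Real.exp (A * |x|) ≤ Real.exp (x ^ 2 / 2) * Real.exp (A ^ 2 / 2) := by
    rw [← Real.exp_add]
    apply Real.exp_le_exp.2
    have := sq_nonneg (A - |x|)
    have h3 : |x| ^ 2 = x ^ 2 := sq_abs x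
    nlinarith
  calc T * Real.exp (1 / 4 - x ^ 2) * ‖RG q ν (uh x)‖
      ≤ T * Real.exp (1 / 4 - x ^ 2) * (C * (Real.exp (x ^ 2 / 2) * Real.exp (A ^ 2 / 2))) := by
        apply mul_le_mul_of_nonneg_left _ (by positivity)
        exact h1.trans (mul_le_mul_of_nonneg_left h2 hC)
    _ = T * C * (Real.exp (1 / 4 - x ^ 2) * Real.exp (x ^ 2 / 2)) * Real.exp (A ^ 2 / 2) := by ring
    _ = T * C * (Real.exp (1 / 4) * Real.exp (-(1 / 2) * x ^ 2)) * Real.exp (A ^ 2 / 2) := by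
        rw [← Real.exp_add, ← Real.exp_add]
        congr 3
        ring
    _ = _ := by ring

theorem Wt_gw {q : ℕ} {ν : ℂ} {T : ℝ} (hT : 0 < T) (l : ℝ) :
    ∫ x : ℝ, Wt q ν T x * cexp (-(uh x) * l) = gw q ν (2 * Real.log T - l) := by
  have hT' : (T : ℂ) ≠ 0 := by exact_mod_cast hT.ne'
  unfold gw
  refine integral_congr_ae (Eventually.of_forall fun x => ?_)
  unfold Wt RG
  simp only
  rw [Complex.cpow_def_of_ne_zero hT', ← Complex.ofReal_log hT.le,
    div_eq_mul_inv (cexp (uh x ^ 2) * _) (_ * _), mul_inv (Gamma _)]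
  have e : cexp (uh x * ((2 * Real.log T - l : ℝ) : ℂ)) =
      cexp ((Real.log T : ℂ) * (2 * uh x)) * cexp (-(uh x) * l) := by
    rw [← Complex.exp_add]
    congr 1
    push_cast
    ring
  rw [e]
  ring

/-! ### the integrand -/

theorem l6_mf {f : ℂ × ℝ → ℂ} (u : ℂ) (t : ℝ) {p : ℂ × ℝ} (hp : 0 < p.2) :
    mf f 0 (1 + u) (1 / 2 + t * I) p = mf f 0 1 (1 / 2) p * cexp (I * (mgL p : ℂ) * t) *
      cexp (-u * (Real.log (1 + normSq p.1) : ℝ)) := by
  have hq : 0 < 1 + normSq p.1 := by have := normSq_nonneg p.1; linarith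
  have hq' : ((1 + normSq p.1 : ℝ) : ℂ) ≠ 0 := by exact_mod_cast hq.ne'
  have hp' : ((p.2 : ℝ) : ℂ) ≠ 0 := by exact_mod_cast hp.ne'
  unfold mf
  rw [mul_assoc, mul_assoc, mul_assoc]
  congr 1
  rw [Complex.cpow_def_of_ne_zero hq', Complex.cpow_def_of_ne_zero hp',
    Complex.cpow_def_of_ne_zero hq', Complex.cpow_def_of_ne_zero hp', ← Complex.exp_add,
    ← Complex.exp_add, ← Complex.exp_add, mul_assoc, ← Complex.exp_add,
    ← Complex.ofReal_log hq.le, ← Complex.ofReal_log hp.le]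
  congr 2
  unfold mgL
  push_cast
  ring

theorem l6_mf' {f : ℂ × ℝ → ℂ} (x : ℝ) {p : ℂ × ℝ} (hp : 0 < p.2) :
    mf f 0 1 (1 / 2) p * cexp (-(uh x) * (Real.log (1 + normSq p.1) : ℝ)) =
      mf f 0 (3 / 2) (1 / 2) p * cexp (-(x * Real.log (1 + normSq p.1) : ℝ) * I) := by
  have h := l6_mf (f := f) (1 / 2) 0 hp
  have e1 : (1 : ℂ) + 1 / 2 = 3 / 2 := by norm_num
  have e2 : (1 / 2 : ℂ) + ((0 : ℝ) : ℂ) * I = 1 / 2 := by simp
  rw [e1, e2] at h
  rw [h]
  have e3 : cexp (I * (mgL p : ℂ) * ((0 : ℝ) : ℂ)) = 1 := by simp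
  rw [e3, mul_one, mul_assoc, ← Complex.exp_add]
  congr 2
  unfold uh
  push_cast
  ring

/-- one function -/
theorem l6_one {q : ℕ} {ν : ℂ} (had : Ad q ν) {f : ℂ × ℝ → ℂ} (hf : Ray f) :
    ∃ C : ℝ, 0 ≤ C ∧ ∀ T ρ τ δ : ℝ, 0 < T → ρ ≠ 0 →
      Integrable (fun t : ℝ => (∫ x : ℝ, Wt q ν T x * Mz f 0 (1 + uh x) (1 / 2 + t * I)) *
        (cexp ((δ * t : ℝ) * I) * ((bp ((t - τ) / ρ) : ℝ) : ℂ))) ∧
      ‖∫ t : ℝ, (∫ x : ℝ, Wt q ν T x * Mz f 0 (1 + uh x) (1 / 2 + t * I)) *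
        (cexp ((δ * t : ℝ) * I) * ((bp ((t - τ) / ρ) : ℝ) : ℂ))‖ ≤ C := by
  obtain ⟨C, hC, hb⟩ := hf.bd 0
  have hb' : ∀ (v : ℂ) (y : ℝ), 0 < y → ‖f ((y : ℂ) * v, y)‖ ≤ C := by
    intro v y hy
    refine (hb v y hy).1.trans ?_
    simp
  obtain ⟨hgi, hgc⟩ := gw_int had
  have hgn : Integrable (fun x : ℝ => ‖gw q ν x‖) := hgi.norm
  refine ⟨C * ((Real.pi * ∫ x, ‖gw q ν x‖) * ((1 / 2) * ∫ s : ℝ, ‖bh s‖)), ?_,
    fun T ρ τ δ hT hρ => ?_⟩
  · have h1 : 0 ≤ ∫ x, ‖gw q ν x‖ := integral_nonneg fun _ => norm_nonneg _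
    have h2 : 0 ≤ ∫ s : ℝ, ‖bh s‖ := integral_nonneg fun _ => norm_nonneg _
    have := Real.pi_pos
    positivity
  have hmf : Integrable (mf f 0 (3 / 2) (1 / 2)) mgMu := by
    apply mz_int hf (Nat.zero_le 1)
    norm_num
  have hsf := mg_sf
  have hW := Wt_int had hT
  set B : ℝ → ℂ := fun t => ((bp ((t - τ) / ρ) : ℝ) : ℂ) with hB
  have hBi : Integrable B := by
    have h1 : Integrable (fun t : ℝ => ((bp (t / ρ) : ℝ) : ℂ)) := l6_bp_int.comp_div hρ
    exact h1.comp_sub_right τ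
  -- the joint function
  set Φ : (ℝ × ℝ) × (ℂ × ℝ) → ℂ := fun z =>
    cexp ((((mgL z.2 + δ) * z.1.1 - z.1.2 * Real.log (1 + normSq z.2.1) : ℝ) : ℂ) * I) *
      ((B z.1.1 * Wt q ν T z.1.2) * mf f 0 (3 / 2) (1 / 2) z.2) with hΦ
  have hΦi : Integrable Φ (((volume : Measure ℝ).prod (volume : Measure ℝ)).prod mgMu) := by
    refine Integrable.bdd_mul (c := 1) ((hBi.mul_prod hW).mul_prod hmf) ?_ ?_
    · apply Measurable.aestronglyMeasurable
      apply Complex.measurable_exp.comp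
      refine Measurable.mul_const ?_ _
      apply Complex.measurable_ofReal.comp
      refine Measurable.sub ?_ ?_
      · exact ((mgL_meas.add_const δ).comp measurable_snd).mul
          (measurable_fst.comp measurable_fst)
      · refine (measurable_snd.comp measurable_fst).mul ?_
        exact Real.measurable_log.comp (measurable_const.add
          (continuous_normSq.measurable.comp (measurable_fst.comp measurable_snd)))
    · refine Eventually.of_forall fun z => ?_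
      rw [Complex.norm_exp_ofReal_mul_I]
  -- the values
  have hval : ∀ (z : ℝ × ℝ) (p : ℂ × ℝ), 0 < p.2 → Φ (z, p) =
      (Wt q ν T z.2 * mf f 0 (1 + uh z.2) (1 / 2 + z.1 * I) p) *
        (cexp ((δ * z.1 : ℝ) * I) * B z.1) := by
    intro z p hp
    rw [l6_mf (uh z.2) z.1 hp, hΦ]
    simp only
    have h1 := l6_mf' (f := f) z.2 hp
    have e : cexp ((((mgL p + δ) * z.1 - z.2 * Real.log (1 + normSq p.1) : ℝ) : ℂ) * I) =
        cexp (I * (mgL p : ℂ) * z.1) * cexp ((δ * z.1 : ℝ) * I) *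
          cexp (-(z.2 * Real.log (1 + normSq p.1) : ℝ) * I) := by
      rw [← Complex.exp_add, ← Complex.exp_add]
      congr 1
      push_cast
      ring
    rw [e]
    calc cexp (I * (mgL p : ℂ) * z.1) * cexp ((δ * z.1 : ℝ) * I) *
          cexp (-(z.2 * Real.log (1 + normSq p.1) : ℝ) * I) *
          (B z.1 * Wt q ν T z.2 * mf f 0 (3 / 2) (1 / 2) p)
        = cexp (I * (mgL p : ℂ) * z.1) * cexp ((δ * z.1 : ℝ) * I) * (B z.1 * Wt q ν T z.2) *
          (mf f 0 (3 / 2) (1 / 2) p * cexp (-(z.2 * Real.log (1 + normSq p.1) : ℝ) * I)) := by ring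
      _ = _ := by
          rw [← h1]
          ring
  have hin : ∀ z : ℝ × ℝ, ∫ p, Φ (z, p) ∂mgMu =
      (Wt q ν T z.2 * Mz f 0 (1 + uh z.2) (1 / 2 + z.1 * I)) *
        (cexp ((δ * z.1 : ℝ) * I) * B z.1) := by
    intro z
    have h1 : ∫ p, Φ (z, p) ∂mgMu = ∫ p, (Wt q ν T z.2 *
        mf f 0 (1 + uh z.2) (1 / 2 + z.1 * I) p) * (cexp ((δ * z.1 : ℝ) * I) * B z.1) ∂mgMu := by
      apply integral_congr_ae
      filter_upwards [mg_ae] with p hp
      exact hval z p hp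
    rw [h1, integral_mul_const, integral_const_mul]
    rfl
  have hI1 : Integrable (fun z : ℝ × ℝ => (Wt q ν T z.2 *
      Mz f 0 (1 + uh z.2) (1 / 2 + z.1 * I)) * (cexp ((δ * z.1 : ℝ) * I) * B z.1))
      ((volume : Measure ℝ).prod (volume : Measure ℝ)) := by
    have h1 := hΦi.integral_prod_left
    refine h1.congr (Eventually.of_forall fun z => ?_)
    exact hin z
  have ht : ∀ t : ℝ, (∫ x : ℝ, Wt q ν T x * Mz f 0 (1 + uh x) (1 / 2 + t * I)) *
        (cexp ((δ * t : ℝ) * I) * B t) = ∫ x : ℝ, (Wt q ν T x *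
      Mz f 0 (1 + uh x) (1 / 2 + t * I)) * (cexp ((δ * t : ℝ) * I) * B t) := by
    intro t
    rw [integral_mul_const]
  constructor
  · have h1 := hI1.integral_prod_left
    refine h1.congr (Eventually.of_forall fun t => ?_)
    exact (ht t).symm
  -- swap
  have hsw : ∫ t : ℝ, (∫ x : ℝ, Wt q ν T x * Mz f 0 (1 + uh x) (1 / 2 + t * I)) *
        (cexp ((δ * t : ℝ) * I) * B t) =
      ∫ p, (∫ z : ℝ × ℝ, Φ (z, p) ∂((volume : Measure ℝ).prod (volume : Measure ℝ))) ∂mgMu := by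
    rw [← integral_integral_swap (f := fun z p => Φ (z, p)) hΦi]
    simp_rw [hin]
    rw [integral_prod _ hI1]
    refine integral_congr_ae (Eventually.of_forall fun t => ?_)
    exact ht t
  have hpv : ∀ p : ℂ × ℝ, 0 < p.2 →
      ∫ z : ℝ × ℝ, Φ (z, p) ∂((volume : Measure ℝ).prod (volume : Measure ℝ)) =
      mf f 0 1 (1 / 2) p * (((|ρ| : ℝ) : ℂ) * cexp (((mgL p + δ) * τ : ℝ) * I) *
        bh ((mgL p + δ) * ρ)) * gw q ν (2 * Real.log T - Real.log (1 + normSq p.1)) := by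
    intro p hp
    have h1 : ∀ z : ℝ × ℝ, Φ (z, p) = mf f 0 1 (1 / 2) p *
        ((B z.1 * cexp (((mgL p + δ) * z.1 : ℝ) * I)) *
          (Wt q ν T z.2 * cexp (-(uh z.2) * (Real.log (1 + normSq p.1) : ℝ)))) := by
      intro z
      rw [hval z p hp, l6_mf (uh z.2) z.1 hp]
      have e : cexp (((mgL p + δ) * z.1 : ℝ) * I) =
          cexp (I * (mgL p : ℂ) * z.1) * cexp ((δ * z.1 : ℝ) * I) := by
        rw [← Complex.exp_add]
        congr 1
        push_cast
        ring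
      rw [e]
      ring
    simp_rw [h1]
    rw [integral_const_mul, integral_prod_mul (f := fun t : ℝ => B t *
      cexp (((mgL p + δ) * t : ℝ) * I)) (g := fun x : ℝ => Wt q ν T x *
        cexp (-(uh x) * (Real.log (1 + normSq p.1) : ℝ))), Wt_gw hT, hB, bh_scale hρ]
    ring
  rw [hsw]
  -- the dominating function
  set g1 : ℝ → ℝ := fun s => |ρ| * ‖bh (s * ρ)‖ with hg1
  obtain ⟨hg1i, hg1v⟩ := bh_l1 hρ
  have hg1c : Continuous g1 := by
    have := bh_int.2
    fun_prop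
  set h1 : ℝ → ℝ := fun x => ‖gw q ν x‖ with hh1
  set D : ℂ × ℝ → ℝ := fun p => ((1 + normSq p.1)⁻¹ * h1 (2 * Real.log T -
    Real.log (1 + normSq p.1))) * (p.2⁻¹ * g1 (mgL p + δ)) with hD
  have hDm : Measurable D := by
    have hh1m : Measurable h1 := hgc.norm.measurable
    have hq : Measurable fun p : ℂ × ℝ => 1 + normSq p.1 :=
      measurable_const.add (continuous_normSq.measurable.comp measurable_fst)
    exact (hq.inv.mul (hh1m.comp (measurable_const.sub (Real.measurable_log.comp hq)))).mul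
      (measurable_snd.inv.mul (hg1c.measurable.comp (mgL_meas.add_const δ)))
  have hy : ∀ v : ℂ, IntegrableOn (fun y : ℝ => D (v, y)) (Set.Ioi 0) ∧
      ∫ y in Set.Ioi (0 : ℝ), D (v, y) = ((1 + normSq v)⁻¹ * h1 (2 * Real.log T -
        Real.log (1 + normSq v))) * ((1 / 2) * ∫ s : ℝ, ‖bh s‖) := by
    intro v
    have h2 := l6_y hg1i (Real.log (1 + normSq v) + δ)
    have e : (fun y : ℝ => D (v, y)) = fun y : ℝ => ((1 + normSq v)⁻¹ * h1 (2 * Real.log T -
        Real.log (1 + normSq v))) * (y⁻¹ * g1 (Real.log (1 + normSq v) + δ + 2 * Real.log y)) := by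
      funext y
      rw [hD]
      unfold mgL
      simp only
      congr 3
      ring
    rw [e]
    constructor
    · exact h2.1.const_mul _
    · rw [integral_const_mul, h2.2, hg1v]
  have hv := l6_v hgn (fun x => norm_nonneg _) (2 * Real.log T)
  have hnn : ∀ p : ℂ × ℝ, 0 < p.2 → 0 ≤ D p := by
    intro p hp
    have hq : 0 < 1 + normSq p.1 := by have := normSq_nonneg p.1; linarith
    rw [hD]
    have : 0 ≤ h1 (2 * Real.log T - Real.log (1 + normSq p.1)) := norm_nonneg _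
    have : 0 ≤ g1 (mgL p + δ) := by rw [hg1]; positivity
    positivity
  have hDi : Integrable D mgMu := by
    unfold mgMu
    rw [integrable_prod_iff hDm.aestronglyMeasurable]
    refine ⟨Eventually.of_forall fun v => (hy v).1, ?_⟩
    have e : (fun v : ℂ => ∫ y, ‖D (v, y)‖ ∂(volume.restrict (Set.Ioi (0 : ℝ)))) =
        fun v : ℂ => ((1 + normSq v)⁻¹ * h1 (2 * Real.log T -
        Real.log (1 + normSq v))) * ((1 / 2) * ∫ s : ℝ, ‖bh s‖) := by
      funext v
      rw [← (hy v).2]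
      refine setIntegral_congr_fun measurableSet_Ioi fun y hy' => ?_
      exact Real.norm_of_nonneg (hnn (v, y) hy')
    rw [e]
    exact hv.1.mul_const _
  have hDv : ∫ p, D p ∂mgMu ≤ (Real.pi * ∫ x, ‖gw q ν x‖) * ((1 / 2) * ∫ s : ℝ, ‖bh s‖) := by
    unfold mgMu at hDi ⊢
    rw [integral_prod _ hDi]
    have e : (fun v : ℂ => ∫ y, D (v, y) ∂(volume.restrict (Set.Ioi (0 : ℝ)))) =
        fun v : ℂ => ((1 + normSq v)⁻¹ * h1 (2 * Real.log T -
        Real.log (1 + normSq v))) * ((1 / 2) * ∫ s : ℝ, ‖bh s‖) := funext fun v => (hy v).2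
    rw [e, integral_mul_const]
    refine mul_le_mul_of_nonneg_right hv.2 ?_
    have : 0 ≤ ∫ s : ℝ, ‖bh s‖ := integral_nonneg fun _ => norm_nonneg _
    positivity
  refine (norm_integral_le_of_norm_le (hDi.const_mul C) ?_).trans ?_
  · filter_upwards [mg_ae] with p hp
    rw [hpv p hp, norm_mul, norm_mul, norm_mul, norm_mul, Complex.norm_exp_ofReal_mul_I,
      Complex.norm_real, Real.norm_eq_abs, abs_abs, mul_one]
    have h3 := mg_norm hC hb' 0 1 hp
    have e : ((1 : ℝ) : ℂ) = 1 := by norm_num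
    rw [e] at h3
    rw [Real.rpow_neg_one] at h3
    calc ‖mf f 0 1 (1 / 2) p‖ * (|ρ| * ‖bh ((mgL p + δ) * ρ)‖) *
          ‖gw q ν (2 * Real.log T - Real.log (1 + normSq p.1))‖
        ≤ (C * ((1 + normSq p.1)⁻¹ * p.2⁻¹)) * (|ρ| * ‖bh ((mgL p + δ) * ρ)‖) *
          ‖gw q ν (2 * Real.log T - Real.log (1 + normSq p.1))‖ := by
          apply mul_le_mul_of_nonneg_right _ (norm_nonneg _)
          exact mul_le_mul_of_nonneg_right h3 (by positivity)
      _ = C * D p := by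
          rw [hD]
          ring
  · rw [integral_const_mul]
    exact mul_le_mul_of_nonneg_left hDv hC

variable {K : Type} [Field K] [NumberField K] {s : K →+* ℂ}

theorem jt_bd (S : IQ s) {q : ℕ} {ν : ℂ} (had : Ad q ν) {ι : Type} [Fintype ι]
    {c c' : ι → K → ℂ} (h : ∀ k, DP s q ν (c k) (c' k)) (β δ : ι → ℝ) :
    ∃ C : ℝ, 0 ≤ C ∧ ∀ T ρ τ : ℝ, 0 < T → ρ ≠ 0 →
      ‖∫ t : ℝ, kT q T t * Lt s q ν β δ c (1 / 2 + t * I) * ((bp ((t - τ) / ρ) : ℝ) : ℂ)‖ ≤ C := by
  choose C hC0 hC using fun k => l6_one had (ray_cp S had (h k) 0)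
  refine ⟨∑ k, (|β k| * Real.exp (δ k / 2) * Real.pi⁻¹) * C k,
    Finset.sum_nonneg fun k _ => mul_nonneg (by positivity) (hC0 k), fun T ρ τ hT hρ => ?_⟩
  have hT' : (T : ℂ) ≠ 0 := by exact_mod_cast hT.ne'
  -- the kernel
  have hker : ∀ (k : ι) (x t : ℝ), ku0 q (uh x) t * Lz s q ν (c k) (1 / 2 + t * I) =
      (I ^ q / Real.pi) * (RG q ν (uh x) *
        Mz (cp s q ν (c k) 0) 0 (1 + uh x) (1 / 2 + t * I)) := by
    intro k x t
    rw [mz_cplx S had (h k) (u := uh x) (by rw [uh_re]; norm_num) t]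
    have hg : ∀ w : ℂ, -(1 : ℝ) < w.re → Gamma (1 / 2 + uh x + w / 2) ≠ 0 := by
      intro w hw
      apply Complex.Gamma_ne_zero_of_re_pos
      have e : (1 / 2 + uh x + w / 2).re = 1 + w.re / 2 := by
        rw [Complex.add_re, Complex.add_re, uh_re]
        have : (w / 2).re = w.re / 2 := by simp
        rw [this]
        norm_num
      rw [e]
      linarith
    have hq : (0 : ℝ) ≤ q := Nat.cast_nonneg q
    have hν : -(1 : ℝ) < ((q : ℂ) + ν).re ∧ -(1 : ℝ) < ((q : ℂ) - ν).re := by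
      rw [Complex.add_re, Complex.sub_re, Complex.natCast_re]
      rcases had with h1 | ⟨_, _, h2⟩
      · rw [h1]
        constructor <;> linarith
      · have := abs_lt.1 h2
        constructor <;> linarith
    have hg1 := hg _ hν.1
    have hg2 := hg _ hν.2
    have hpi : (Real.pi : ℂ) ≠ 0 := by exact_mod_cast Real.pi_ne_zero
    unfold kp ku0 RG
    rw [if_pos rfl]
    have e1 : (1 : ℂ) + uh x - 1 / 2 + (q + ν) / 2 = 1 / 2 + uh x + (q + ν) / 2 := by ring
    have e2 : (1 : ℂ) + uh x - 1 / 2 + (q - ν) / 2 = 1 / 2 + uh x + (q - ν) / 2 := by ring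
    have e3 : (1 : ℂ) + uh x + 1 / 2 - (1 / 2 + t * I) = 1 + uh x - t * I := by ring
    have e4 : (1 : ℂ) + uh x - 1 / 2 + q + (1 / 2 + t * I) = 1 + q + uh x + t * I := by ring
    rw [e1, e2, e3, e4]
    generalize Gamma (1 / 2 + uh x + (q + ν) / 2) = G1 at hg1 ⊢
    generalize Gamma (1 / 2 + uh x + (q - ν) / 2) = G2 at hg2 ⊢
    generalize Gamma (1 + uh x - t * I) = G3
    generalize Gamma (1 + q + uh x + t * I) = G4
    generalize Lz s q ν (c k) (1 / 2 + t * I) = G5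
    rw [div_eq_mul_inv, div_eq_mul_inv (Real.pi * (G1 * G2) : ℂ)]
    field_simp
  have hkT : ∀ (k : ι) (t : ℝ), kT q T t * Lz s q ν (c k) (1 / 2 + t * I) =
      (I ^ q / Real.pi) * ∫ x : ℝ, Wt q ν T x *
        Mz (cp s q ν (c k) 0) 0 (1 + uh x) (1 / 2 + t * I) := by
    intro k t
    unfold kT
    rw [← integral_mul_const, ← integral_const_mul]
    refine integral_congr_ae (Eventually.of_forall fun x => ?_)
    simp only
    rw [mul_assoc, hker k x t]
    unfold Wt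
    ring
  have hsum : ∀ t : ℝ, kT q T t * Lt s q ν β δ c (1 / 2 + t * I) *
      ((bp ((t - τ) / ρ) : ℝ) : ℂ) = ∑ k, ((β k : ℂ) * cexp ((δ k / 2 : ℝ)) * (I ^ q / Real.pi)) *
        ((∫ x : ℝ, Wt q ν T x * Mz (cp s q ν (c k) 0) 0 (1 + uh x) (1 / 2 + t * I)) *
        (cexp ((δ k * t : ℝ) * I) * ((bp ((t - τ) / ρ) : ℝ) : ℂ))) := by
    intro t
    unfold Lt
    rw [Finset.mul_sum, Finset.sum_mul]
    refine Finset.sum_congr rfl fun k _ => ?_
    have e : cexp (δ k * (1 / 2 + t * I)) = cexp ((δ k / 2 : ℝ)) * cexp ((δ k * t : ℝ) * I) := by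
      rw [← Complex.exp_add]
      congr 1
      push_cast
      ring
    rw [e]
    calc kT q T t * ((β k : ℂ) * (cexp ((δ k / 2 : ℝ)) * cexp ((δ k * t : ℝ) * I)) *
          Lz s q ν (c k) (1 / 2 + t * I)) * ((bp ((t - τ) / ρ) : ℝ) : ℂ)
        = ((β k : ℂ) * cexp ((δ k / 2 : ℝ))) * ((kT q T t * Lz s q ν (c k) (1 / 2 + t * I)) *
          (cexp ((δ k * t : ℝ) * I) * ((bp ((t - τ) / ρ) : ℝ) : ℂ))) := by ring
      _ = _ := by
          rw [hkT k t]
          ring
  simp_rw [hsum]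
  rw [integral_finsetSum _ fun k _ => ((hC k T ρ τ (δ k) hT hρ).1).const_mul _]
  refine (norm_sum_le _ _).trans (Finset.sum_le_sum fun k _ => ?_)
  rw [integral_const_mul, norm_mul]
  refine mul_le_mul ?_ (hC k T ρ τ (δ k) hT hρ).2 (norm_nonneg _) (by positivity)
  apply le_of_eq
  rw [norm_mul, norm_mul, norm_div, norm_pow, Complex.norm_I, one_pow, Complex.norm_real,
    Complex.norm_exp, Complex.norm_real, Complex.ofReal_re, Real.norm_eq_abs, Real.norm_eq_abs,
    abs_of_pos Real.pi_pos, one_div]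

theorem jt_bd_check : type_of% @jt_bd = type_of% @Pool.Agent.HI.jt_bd := rfl

end Pool.Agent.HI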