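import Pool.Agent.Lib_helper25.HIF.DX
import Pool.Agent.Lib_helper25.HIF.K2
import Pool.Agent.Lib_helper25.HIF.L3
import Pool.Agent.Lib_helper25.HIF.L6
import Pool.Agent.Lib_helper25.HIF.ST
import Pool.Agent.Lib_helper25.HIF.DXL

/-!
# Project HI: block L7, the windows `(T, (1+e)T)`
-/

namespace Pool.Agent.HI
open NumberField Complex MeasureTheory Set Filter Topology
open Pool.Agent.HB (Kb Adm)
open Pool.Agent.H4 (ml atl FunBd vcf)
open Pool.Agent.HQ (bp)

variable {K : Type} [Field K] [NumberField K] {s : K →+* ℂ}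

theorem l7_bp_cont : Continuous bp := Pool.Agent.HQ.bpb.continuous

theorem l7_bp_nonneg (u : ℝ) : 0 ≤ bp u := Pool.Agent.HQ.bpb.nonneg

theorem l7_bp_zero {u : ℝ} (h : u ≤ 0 ∨ 1 ≤ u) : bp u = 0 := by
  refine Pool.Agent.HQ.bpb.zero_of_le_dist ?_
  have h1 : Pool.Agent.HQ.bpb.rOut = 1 / 4 := rfl
  rw [h1, Real.dist_eq]
  rcases h with h | h
  · rw [abs_of_neg (by linarith)]
    linarith
  · rw [abs_of_pos (by linarith)]
    linarith

theorem l7_bp_cs {T ρ : ℝ} (hρ : 0 < ρ) : HasCompactSupport (fun t : ℝ => bp ((t - T) / ρ)) := by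
  refine HasCompactSupport.intro (K := Icc T (T + ρ)) isCompact_Icc fun t ht => l7_bp_zero ?_
  rw [mem_Icc, not_and_or, not_le, not_le] at ht
  rcases ht with h | h
  · left
    exact div_nonpos_of_nonpos_of_nonneg (by linarith) hρ.le
  · right
    rw [le_div_iff₀ hρ]
    linarith

theorem star_l (S : IQ s) {q : ℕ} {ν : ℂ} (had : Ad q ν) {ι : Type} [Fintype ι]
    {c c' : ι → K → ℂ} (h : ∀ k, DP s q ν (c k) (c' k)) (β δ : ι → ℝ) {e₀ : ℝ}
    (he₀ : e₀ = 1 ∨ e₀ = -1) {e : ℝ} (he : 0 < e) :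
    ∃ C T₀ : ℝ, 1 < T₀ ∧ ∀ (T : ℝ) (w : ℂ), T₀ ≤ T → ‖w‖ = 1 →
      (∀ t : ℝ, T < t → t < (1 + e) * T →
        (‖Lt s q ν β δ c (1 / 2 + ((e₀ * t : ℝ) : ℂ) * I)‖ : ℂ) =
          w * Lt s q ν β δ c (1 / 2 + ((e₀ * t : ℝ) : ℂ) * I)) →
      ∫ t : ℝ, ‖Lt s q ν β δ c (1 / 2 + ((e₀ * t : ℝ) : ℂ) * I)‖ * hh q 0 t *
        bp ((t - T) / (e * T)) ≤ C := by
  obtain ⟨C, hC0, hC⟩ := jt_bd S had h β δ
  set g : ℝ := Real.exp (-(Real.log (1 + e)) ^ 2) with hg
  have hg0 : 0 < g := Real.exp_pos _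
  obtain ⟨t₀, ht₀, hasy⟩ := kt_asy q he₀ (η := g / 2) (by positivity)
  have hea : |e₀| = 1 := by
    rcases he₀ with h | h <;> rw [h] <;> simp
  have he2 : e₀ * e₀ = 1 := by
    rcases he₀ with h | h <;> rw [h] <;> norm_num
  have he0 : e₀ ≠ 0 := by
    intro h0
    rw [h0] at hea
    simp at hea
  set L : ℝ → ℂ := fun t => Lt s q ν β δ c (1 / 2 + ((e₀ * t : ℝ) : ℂ) * I) with hL
  have hLc : Continuous L := by
    have h1 : Continuous (fun t : ℝ => e₀ * t) := continuous_const.mul continuous_id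
    exact Continuous.comp (g := fun t : ℝ => Lt s q ν β δ c (1 / 2 + (t : ℂ) * I))
      (st_lt_line_cont S had h β δ) h1
  refine ⟨2 / g * C, max (t₀ + 1) 2, lt_of_lt_of_le (by norm_num) (le_max_right _ _),
    fun T w hTT hw hT => ?_⟩
  have hTt : t₀ + 1 ≤ T := (le_max_left _ _).trans hTT
  have hT0 : 0 < T := by linarith
  have heT : 0 < e * T := mul_pos he hT0
  -- the average
  have hkc : Continuous (kT q T) := kt_cont q hT0
  set F : ℝ → ℂ := fun t => kT q T t * Lt s q ν β δ c (1 / 2 + t * I) *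
    ((bp ((t - e₀ * T) / (e₀ * (e * T))) : ℝ) : ℂ) with hF
  have hFb : ‖∫ t : ℝ, F t‖ ≤ C := hC T (e₀ * (e * T)) (e₀ * T) hT0 (mul_ne_zero he0 heT.ne')
  have hFe : (fun t : ℝ => F (e₀ * t)) = fun t : ℝ => kT q T (e₀ * t) * L t *
      ((bp ((t - T) / (e * T)) : ℝ) : ℂ) := by
    funext t
    rw [hF, hL]
    simp only
    rw [← mul_sub, mul_div_mul_left _ _ he0]
  have hkc' : Continuous (fun t : ℝ => kT q T (e₀ * t)) := hkc.comp (by fun_prop)
  have hbc : Continuous (fun t : ℝ => bp ((t - T) / (e * T))) := l7_bp_cont.comp (by fun_prop)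
  have hGi : Integrable (fun t : ℝ => kT q T (e₀ * t) * L t *
      ((bp ((t - T) / (e * T)) : ℝ) : ℂ)) := by
    refine Continuous.integrable_of_hasCompactSupport
      ((hkc'.mul hLc).mul (continuous_ofReal.comp hbc)) ?_
    have h1 : HasCompactSupport (fun t : ℝ => ((bp ((t - T) / (e * T)) : ℝ) : ℂ)) :=
      (l7_bp_cs (T := T) heT).comp_left (g := fun x : ℝ => (x : ℂ)) ofReal_zero
    exact h1.mul_left
  have hFi : Integrable F := by
    rcases he₀ with h1 | h1
    · have h2 := hGi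
      rw [← hFe, h1] at h2
      simpa using h2
    · have h2 := hGi
      rw [← hFe, h1] at h2
      simpa using h2.comp_neg
  have hrefl := st_int_reflect he₀ hFi
  rw [hFe] at hrefl
  have hGb : ‖∫ t : ℝ, kT q T (e₀ * t) * L t * ((bp ((t - T) / (e * T)) : ℝ) : ℂ)‖ ≤ C := by
    rw [hrefl.2]
    exact hFb
  set u : ℂ := w * ((e₀ ^ q : ℝ) : ℂ) with hu
  have hun : ‖u‖ = 1 := by
    rw [hu, norm_mul, hw, norm_real, norm_pow, Real.norm_eq_abs, hea, one_pow, one_mul]
  have hGi' := hGi.const_mul u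
  -- the pointwise bound
  have hpt : ∀ t : ℝ, ‖L t‖ * hh q 0 t * bp ((t - T) / (e * T)) ≤
      2 / g * (u * (kT q T (e₀ * t) * L t * ((bp ((t - T) / (e * T)) : ℝ) : ℂ))).re := by
    intro t
    by_cases ht : T < t ∧ t < (1 + e) * T
    · obtain ⟨ht1, ht2⟩ := ht
      have htp : 0 < t := hT0.trans ht1
      have hp : 0 < hh q 0 t := hh_pos q le_rfl htp.ne'
      have hb := l7_bp_nonneg ((t - T) / (e * T))
      have h1 := hasy T t hT0 (by linarith)
      have h2 : T / t ≤ 1 := (div_le_one htp).2 ht1.le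
      have h3 : g / 2 * (T / t) * hh q 0 t ≤ g / 2 * hh q 0 t := by
        refine mul_le_mul_of_nonneg_right ?_ hp.le
        have := mul_le_mul_of_nonneg_left h2 (show 0 ≤ g / 2 by positivity)
        linarith
      have h4 : g ≤ √Real.pi * Real.exp (-(Real.log (T / t)) ^ 2) := by
        have h5 : 1 ≤ √Real.pi := by
          rw [Real.one_le_sqrt]
          linarith [Real.pi_gt_three]
        have h6 : g ≤ Real.exp (-(Real.log (T / t)) ^ 2) := by
          rw [hg]
          refine Real.exp_le_exp.2 (neg_le_neg ?_)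
          have h7 : Real.log (T / t) = -Real.log (t / T) := by
            rw [← Real.log_inv, inv_div]
          rw [h7, neg_sq]
          have h8 : 0 ≤ Real.log (t / T) := Real.log_nonneg ((one_le_div hT0).2 ht1.le)
          refine pow_le_pow_left₀ h8 (Real.log_le_log (by positivity) ?_) 2
          rw [div_le_iff₀ hT0]
          exact ht2.le
        calc g ≤ 1 * Real.exp (-(Real.log (T / t)) ^ 2) := by rw [one_mul]; exact h6
          _ ≤ _ := mul_le_mul_of_nonneg_right h5 (Real.exp_pos _).le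
      set A : ℝ := √Real.pi * Real.exp (-(Real.log (T / t)) ^ 2) with hA
      have h5 : ((e₀ ^ q : ℝ) : ℂ) * kT q T (e₀ * t) = ((e₀ ^ q : ℝ) : ℂ) *
          (kT q T (e₀ * t) - ((A * (e₀ ^ q * hh q 0 t) : ℝ) : ℂ)) +
          ((A * hh q 0 t : ℝ) : ℂ) := by
        have h6 : e₀ ^ q * e₀ ^ q = 1 := by rw [← mul_pow, he2, one_pow]
        have h7 : ((e₀ ^ q : ℝ) : ℂ) * ((A * (e₀ ^ q * hh q 0 t) : ℝ) : ℂ) =
            ((A * hh q 0 t : ℝ) : ℂ) := by
          rw [← ofReal_mul]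
          congr 1
          calc e₀ ^ q * (A * (e₀ ^ q * hh q 0 t)) = (e₀ ^ q * e₀ ^ q) * (A * hh q 0 t) := by ring
            _ = _ := by rw [h6, one_mul]
        rw [mul_sub, h7]
        ring
      have h6 : g / 2 * hh q 0 t ≤ (((e₀ ^ q : ℝ) : ℂ) * kT q T (e₀ * t)).re := by
        rw [h5, add_re, ofReal_re]
        have h8 : |(((e₀ ^ q : ℝ) : ℂ) *
            (kT q T (e₀ * t) - ((A * (e₀ ^ q * hh q 0 t) : ℝ) : ℂ))).re| ≤
            g / 2 * hh q 0 t := by
          refine (abs_re_le_norm _).trans ?_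
          rw [norm_mul, norm_real, norm_pow, Real.norm_eq_abs, hea, one_pow, one_mul]
          exact h1.trans h3
        have h9 := (abs_le.1 h8).1
        have h10 := mul_le_mul_of_nonneg_right h4 hp.le
        linarith
      have h7 : u * (kT q T (e₀ * t) * L t * ((bp ((t - T) / (e * T)) : ℝ) : ℂ)) =
          ((‖L t‖ * bp ((t - T) / (e * T)) : ℝ) : ℂ) * (((e₀ ^ q : ℝ) : ℂ) * kT q T (e₀ * t)) := by
        rw [hu]
        push_cast
        rw [hT t ht1 ht2]
        ring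
      rw [h7, re_ofReal_mul]
      have h8 : ‖L t‖ * bp ((t - T) / (e * T)) * (g / 2 * hh q 0 t) ≤
          ‖L t‖ * bp ((t - T) / (e * T)) * (((e₀ ^ q : ℝ) : ℂ) * kT q T (e₀ * t)).re :=
        mul_le_mul_of_nonneg_left h6 (mul_nonneg (norm_nonneg _) hb)
      have h9 := mul_le_mul_of_nonneg_left h8 (show 0 ≤ 2 / g by positivity)
      refine le_trans (le_of_eq ?_) h9
      field_simp
    · have h1 : bp ((t - T) / (e * T)) = 0 := by
        refine l7_bp_zero ?_
        rw [not_and_or, not_lt, not_lt] at ht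
        rcases ht with h | h
        · left
          exact div_nonpos_of_nonpos_of_nonneg (by linarith) heT.le
        · right
          rw [le_div_iff₀ heT]
          linarith
      rw [h1]
      simp
  have hnn : ∀ t : ℝ, 0 ≤ ‖L t‖ * hh q 0 t * bp ((t - T) / (e * T)) := by
    intro t
    refine mul_nonneg (mul_nonneg (norm_nonneg _) ?_) (l7_bp_nonneg _)
    unfold hh
    positivity
  have hre : Integrable (fun t : ℝ =>
      (u * (kT q T (e₀ * t) * L t * ((bp ((t - T) / (e * T)) : ℝ) : ℂ))).re) := hGi'.re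
  refine (integral_mono_of_nonneg (Eventually.of_forall hnn) (hre.const_mul (2 / g))
    (Eventually.of_forall hpt)).trans ?_
  rw [integral_const_mul]
  refine mul_le_mul_of_nonneg_left ?_ (by positivity)
  have h5 : ∫ t : ℝ, (u * (kT q T (e₀ * t) * L t * ((bp ((t - T) / (e * T)) : ℝ) : ℂ))).re =
      (∫ t : ℝ, u * (kT q T (e₀ * t) * L t * ((bp ((t - T) / (e * T)) : ℝ) : ℂ))).re :=
    integral_re hGi'
  rw [h5]
  refine (re_le_norm _).trans ?_
  rw [integral_const_mul, norm_mul, hun, one_mul]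
  exact hGb

end Pool.Agent.HI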