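import Pool.Agent.Lib_helper99.HBF.GR
import Pool.Agent.Lib_helper25.HIF.DX
import Pool.Agent.Lib_helper25.HIF.KG
import Pool.Agent.Lib_helper25.HIF.DXL

/-! HI, block L8: from `Λ` to `L` over the window `(T, (1+e)T)` -/

namespace Pool.Agent.HI
open NumberField Complex MeasureTheory Set Filter Topology
open Pool.Agent.HB (Kb Adm)
open Pool.Agent.H4 (ml atl FunBd vcf)
open Pool.Agent.HQ (bp)

theorem l8_hh_cont (q : ℕ) : ContinuousOn (fun t : ℝ => hh q 0 t) (Ioi 0) := by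
  unfold hh
  refine ContinuousOn.div ?_ ?_ ?_
  · refine ContinuousOn.inv₀ (by fun_prop) fun t ht => ?_
    exact pow_ne_zero q (abs_pos.2 (ne_of_gt ht)).ne'
  · refine ContinuousOn.pow (ContinuousOn.norm ?_) 2
    intro t _
    have h1 : ContinuousAt Gamma (1 + ((0 : ℝ) : ℂ) + t * I) := by
      refine (differentiableAt_Gamma _ fun m hm => ?_).continuousAt
      have h2 := congrArg Complex.re hm
      simp at h2
      have h3 : (0 : ℝ) ≤ (m : ℝ) := Nat.cast_nonneg m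
      linarith
    have h2 : ContinuousAt (fun t : ℝ => (1 + ((0 : ℝ) : ℂ) + t * I : ℂ)) t := by fun_prop
    exact (ContinuousAt.comp (f := fun t : ℝ => (1 + ((0 : ℝ) : ℂ) + t * I : ℂ)) h1
      h2).continuousWithinAt
  · intro t _
    refine pow_ne_zero 2 (norm_pos_iff.2 (Gamma_ne_zero_of_re_pos ?_)).ne'
    simp

/-- the bound at `ε = 0` -/
theorem l8_gamma_up : ∃ C : ℝ, 0 < C ∧ ∀ t : ℝ, 1 ≤ t →
    ‖Gamma (1 + ((0 : ℝ) : ℂ) + t * I)‖ ^ 2 ≤ C * t * Real.exp (-(Real.pi * t)) := by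
  obtain ⟨C, hC0, hC⟩ := Pool.Agent.HB.gamma_up
  refine ⟨C, hC0, fun t ht => ?_⟩
  have ht0 : 0 < t := by linarith
  have h1 : Tendsto (fun ε : ℝ => ‖Gamma (1 + (ε : ℂ) + t * I)‖ ^ 2) (𝓝[>] 0)
      (𝓝 (‖Gamma (1 + ((0 : ℝ) : ℂ) + t * I)‖ ^ 2)) := by
    have h2 : ContinuousAt Gamma (1 + ((0 : ℝ) : ℂ) + t * I) := by
      refine (differentiableAt_Gamma _ fun m hm => ?_).continuousAt
      have h2 := congrArg Complex.re hm
      simp at h2
      have h3 : (0 : ℝ) ≤ (m : ℝ) := Nat.cast_nonneg m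
      linarith
    have h3 : ContinuousAt (fun ε : ℝ => (1 + (ε : ℂ) + t * I : ℂ)) 0 := by fun_prop
    have h4 : ContinuousAt (fun ε : ℝ => Gamma (1 + (ε : ℂ) + t * I)) 0 :=
      ContinuousAt.comp (f := fun ε : ℝ => (1 + (ε : ℂ) + t * I : ℂ)) h2 h3
    exact ((h4.norm.pow 2).tendsto).mono_left nhdsWithin_le_nhds
  have h5 : Tendsto (fun ε : ℝ => C * t ^ (1 + 2 * ε) * Real.exp (-(Real.pi * t))) (𝓝[>] 0)
      (𝓝 (C * t * Real.exp (-(Real.pi * t)))) := by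
    have h6 : Continuous (fun ε : ℝ => C * t ^ (1 + 2 * ε) * Real.exp (-(Real.pi * t))) := by
      refine Continuous.mul (Continuous.mul continuous_const ?_) continuous_const
      exact Continuous.rpow continuous_const (by fun_prop) fun _ => Or.inl ht0.ne'
    have h7 := (h6.tendsto 0).mono_left (nhdsWithin_le_nhds (s := Ioi (0 : ℝ)))
    simpa using h7
  refine le_of_tendsto_of_tendsto h1 h5 ?_
  have h8 : ∀ᶠ ε : ℝ in 𝓝[>] 0, ε ∈ Ioo (0 : ℝ) (1 / 2) :=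
    Ioo_mem_nhdsGT (by norm_num)
  filter_upwards [h8] with ε hε
  exact hC ε t hε.1 hε.2.le ht

theorem l8_bp_nonneg (u : ℝ) : 0 ≤ bp u := Pool.Agent.HQ.bpb.nonneg

theorem l8_bp_cont : Continuous bp := Pool.Agent.HQ.bpb.continuous

theorem l8_bp_zero {u : ℝ} (h : bp u ≠ 0) : 1 / 4 < u ∧ u < 3 / 4 := by
  have h1 : u ∈ Function.support (fun x : ℝ => (Pool.Agent.HQ.bpb : ContDiffBump (1 / 2 : ℝ)) x) :=
    h
  rw [ContDiffBump.support_eq, Metric.mem_ball, Real.dist_eq, abs_lt] at h1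
  have h2 : (Pool.Agent.HQ.bpb : ContDiffBump (1 / 2 : ℝ)).rOut = 1 / 4 := rfl
  rw [h2] at h1
  constructor <;> linarith [h1.1, h1.2]

theorem mom_l {q : ℕ} {ν : ℂ} (had : Ad q ν) {Λ Lf : ℂ → ℂ} {Q : ℝ} {c₀ : ℂ} (hQ : 0 < Q)
    (hc : c₀ ≠ 0) (hΛ : Differentiable ℂ Λ) (hd : Differentiable ℂ Lf)
    (hL : ∀ z : ℂ, 1 / 2 ≤ z.re → Λ z = c₀ * (Q : ℂ) ^ z *
        (Gamma (z + (q + ν) / 2) * Gamma (z + (q - ν) / 2)) * Lf z) {e : ℝ} (he : 0 < e) :
    ∃ c T₀ : ℝ, 0 < c ∧ 1 < T₀ ∧ ∀ T : ℝ, T₀ ≤ T →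
      c * ∫ t : ℝ, ‖Lf (1 / 2 + t * I)‖ * bp ((t - T) / (e * T)) ≤
        T * ∫ t : ℝ, ‖Λ (1 / 2 + t * I)‖ * hh q 0 t * bp ((t - T) / (e * T)) := by
  obtain ⟨Cg, hCg0, hCg⟩ := l8_gamma_up
  obtain ⟨cl, t₂, hcl, ht₂, hlow⟩ := gamma_low had
  have hcont : Continuous (fun t : ℝ => ‖Lf (1 / 2 + t * I)‖) := by
    have := hd.continuous
    fun_prop
  have hcontΛ : Continuous (fun t : ℝ => ‖Λ (1 / 2 + t * I)‖) := by
    have := hΛ.continuous
    fun_prop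
  set c₁ : ℝ := ‖c₀‖ * Q ^ ((1 : ℝ) / 2) * cl with hc₁
  have hc₁0 : 0 < c₁ := by
    have := norm_pos_iff.2 hc
    have := Real.rpow_pos_of_pos hQ ((1 : ℝ) / 2)
    positivity
  -- the pointwise bound
  have hpt : ∀ t : ℝ, t₂ ≤ t →
      ‖Lf (1 / 2 + t * I)‖ ≤ (Cg / c₁) * t * (‖Λ (1 / 2 + t * I)‖ * hh q 0 t) := by
    intro t ht
    have ht1 : 1 ≤ t := by linarith
    have ht0 : 0 < t := by linarith
    have htq : 0 < t ^ q := pow_pos ht0 q
    have hG : 0 < ‖Gamma (1 + ((0 : ℝ) : ℂ) + t * I)‖ :=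
      norm_pos_iff.2 (Gamma_ne_zero_of_re_pos (by simp))
    have h1 := hCg t ht1
    have h2 := hlow t ht
    have h3 : ‖Λ (1 / 2 + t * I)‖ = ‖c₀‖ * Q ^ ((1 : ℝ) / 2) *
        ‖Gamma (1 / 2 + t * I + (q + ν) / 2) * Gamma (1 / 2 + t * I + (q - ν) / 2)‖ *
        ‖Lf (1 / 2 + t * I)‖ := by
      rw [hL (1 / 2 + t * I) (by simp), norm_mul, norm_mul, norm_mul,
        norm_cpow_eq_rpow_re_of_pos hQ]
      simp
    have h4 : c₁ * (t ^ q * Real.exp (-(Real.pi * t))) * ‖Lf (1 / 2 + t * I)‖ ≤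
        ‖Λ (1 / 2 + t * I)‖ := by
      rw [h3, hc₁]
      have hx : 0 ≤ ‖c₀‖ * Q ^ ((1 : ℝ) / 2) :=
        mul_nonneg (norm_nonneg _) (Real.rpow_nonneg hQ.le _)
      have := mul_le_mul_of_nonneg_left h2 hx
      have := mul_le_mul_of_nonneg_right this (norm_nonneg (Lf (1 / 2 + t * I)))
      calc _ = ‖c₀‖ * Q ^ ((1 : ℝ) / 2) * (cl * t ^ q * Real.exp (-(Real.pi * t))) *
            ‖Lf (1 / 2 + t * I)‖ := by ring
        _ ≤ _ := this
    have h8 : Cg / c₁ * t * (‖Λ (1 / 2 + t * I)‖ * hh q 0 t) =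
        (Cg * t * ‖Λ (1 / 2 + t * I)‖) /
          (c₁ * (t ^ q * ‖Gamma (1 + ((0 : ℝ) : ℂ) + t * I)‖ ^ 2)) := by
      unfold hh
      rw [abs_of_pos ht0]
      field_simp
    rw [h8, le_div_iff₀ (by positivity)]
    calc ‖Lf (1 / 2 + t * I)‖ * (c₁ * (t ^ q * ‖Gamma (1 + ((0 : ℝ) : ℂ) + t * I)‖ ^ 2))
        = ‖Gamma (1 + ((0 : ℝ) : ℂ) + t * I)‖ ^ 2 *
          (c₁ * t ^ q * ‖Lf (1 / 2 + t * I)‖) := by
          ring
      _ ≤ (Cg * t * Real.exp (-(Real.pi * t))) * (c₁ * t ^ q * ‖Lf (1 / 2 + t * I)‖) :=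
          mul_le_mul_of_nonneg_right h1 (by positivity)
      _ = Cg * t * (c₁ * (t ^ q * Real.exp (-(Real.pi * t))) * ‖Lf (1 / 2 + t * I)‖) := by
          ring
      _ ≤ Cg * t * ‖Λ (1 / 2 + t * I)‖ := mul_le_mul_of_nonneg_left h4 (by positivity)
  refine ⟨c₁ / (Cg * (1 + e)), max 2 t₂, by positivity, lt_max_of_lt_left (by norm_num),
    fun T hT => ?_⟩
  have hT2 : 2 ≤ T := (le_max_left _ _).trans hT
  have hTt : t₂ ≤ T := (le_max_right _ _).trans hT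
  have hT0 : 0 < T := by linarith
  have heT : 0 < e * T := by positivity
  have hsup : ∀ t : ℝ, bp ((t - T) / (e * T)) ≠ 0 → T ≤ t ∧ t ≤ (1 + e) * T := by
    intro t ht
    obtain ⟨h1, h2⟩ := l8_bp_zero ht
    rw [lt_div_iff₀ heT] at h1
    rw [div_lt_iff₀ heT] at h2
    constructor <;> nlinarith
  have hbc : Continuous (fun t : ℝ => bp ((t - T) / (e * T))) := by
    have := l8_bp_cont
    exact this.comp (by fun_prop)
  have hint : ∀ F : ℝ → ℝ, ContinuousOn F (Ioi 0) →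
      Integrable (fun t : ℝ => F t * bp ((t - T) / (e * T))) := by
    intro F hF
    have h1 : IntegrableOn (fun t : ℝ => F t * bp ((t - T) / (e * T))) (Icc T ((1 + e) * T)) := by
      refine ContinuousOn.integrableOn_Icc ?_
      refine ContinuousOn.mul (hF.mono fun t ht => ?_) hbc.continuousOn
      exact lt_of_lt_of_le hT0 ht.1
    refine (integrableOn_iff_integrable_of_support_subset ?_).1 h1
    intro t ht
    have h2 : bp ((t - T) / (e * T)) ≠ 0 := fun h => ht (by simp [h])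
    exact hsup t h2
  rw [← integral_const_mul, ← integral_const_mul]
  refine integral_mono ((hint _ hcont.continuousOn).const_mul _)
    ((hint _ (hcontΛ.continuousOn.mul (l8_hh_cont q))).const_mul _) fun t => ?_
  show c₁ / (Cg * (1 + e)) * (‖Lf (1 / 2 + t * I)‖ * bp ((t - T) / (e * T))) ≤
    T * (‖Λ (1 / 2 + t * I)‖ * hh q 0 t * bp ((t - T) / (e * T)))
  by_cases hb : bp ((t - T) / (e * T)) = 0
  · rw [hb]; simp
  obtain ⟨h1, h2⟩ := hsup t hb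
  have hb0 := l8_bp_nonneg ((t - T) / (e * T))
  have h3 := hpt t (hTt.trans h1)
  have hh0 : 0 ≤ ‖Λ (1 / 2 + t * I)‖ * hh q 0 t := by
    unfold hh
    positivity
  have h4 : ‖Lf (1 / 2 + t * I)‖ ≤
      (Cg / c₁) * ((1 + e) * T) * (‖Λ (1 / 2 + t * I)‖ * hh q 0 t) :=
    h3.trans (mul_le_mul_of_nonneg_right (mul_le_mul_of_nonneg_left h2 (by positivity)) hh0)
  calc c₁ / (Cg * (1 + e)) * (‖Lf (1 / 2 + t * I)‖ * bp ((t - T) / (e * T)))
      ≤ c₁ / (Cg * (1 + e)) * ((Cg / c₁) * ((1 + e) * T) * (‖Λ (1 / 2 + t * I)‖ * hh q 0 t) *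
          bp ((t - T) / (e * T))) :=
        mul_le_mul_of_nonneg_left (mul_le_mul_of_nonneg_right h4 hb0) (by positivity)
    _ = _ := by
        field_simp

end Pool.Agent.HI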