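import Pool.Agent.Lib_helper25.HIF.DX
import Pool.Agent.Lib_helper25.HIF.LG
import Pool.Agent.Lib_helper25.HIF.DXW
import Pool.Agent.Lib_helper98.HNF.PF
import Pool.Agent.Lib_helper98.HNF.QD

/-! HI, block V1: polynomial growth of the L-function. -/

namespace Pool.Agent.HI
open NumberField Complex MeasureTheory Set Filter Topology
open Pool.Agent.HB (Kb Adm)
open Pool.Agent.H4 (ml atl FunBd vcf)
open Pool.Agent.HQ (bp)
open Pool.Agent.HI

/-- two entire functions which agree on a right half plane agree -/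
theorem v1_id {f g : ℂ → ℂ} (hf : Differentiable ℂ f) (hg : Differentiable ℂ g)
    (h : ∀ z : ℂ, 1 / 2 ≤ z.re → f z = g z) (z : ℂ) : f z = g z := by
  have h1 : AnalyticOnNhd ℂ f univ := (Complex.analyticOnNhd_univ_iff_differentiable).2 hf
  have h2 : AnalyticOnNhd ℂ g univ := (Complex.analyticOnNhd_univ_iff_differentiable).2 hg
  have h3 : f =ᶠ[𝓝 (1 : ℂ)] g := by
    have h4 : ∀ᶠ z : ℂ in 𝓝 (1 : ℂ), 1 / 2 < z.re :=
      (isOpen_lt continuous_const Complex.continuous_re).mem_nhds (by norm_num)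
    filter_upwards [h4] with w hw
    exact h w hw.le
  exact congrFun (h1.eq_of_eventuallyEq h2 h3) z

/-- the quotient of Gamma values is of polynomial growth on the lines -/
theorem v1_quot {A : ℝ} (hA : 1 / 2 < A) {α : ℂ} (hα : 0 < A + α.re) :
    ∃ C B : ℝ, 0 ≤ C ∧ 0 ≤ B ∧ ∀ t : ℝ,
      ‖(Gamma (((1 - A : ℝ) : ℂ) + t * I + α))⁻¹ * Gamma ((A : ℂ) + t * I + α)‖ ≤
        C * (1 + |t|) ^ B := by
  obtain ⟨C1, B1, hC1, hB1, h1⟩ := Pool.Agent.HQ.gamma_poly hα (A + α.re)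
  obtain ⟨C2, B2, hC2, hB2, h2⟩ := Pool.Agent.HQ.inv_gamma_poly (1 - A + α.re) (1 - A + α.re)
  set t₁ : ℝ := 1 + |α.im| with ht₁
  have hcont : Continuous (fun t : ℝ => (Gamma (((1 - A : ℝ) : ℂ) + t * I + α))⁻¹ *
      Gamma ((A : ℂ) + t * I + α)) := by
    refine Continuous.mul ?_ ?_
    · exact differentiable_one_div_Gamma.continuous.comp (by fun_prop)
    · refine continuous_iff_continuousAt.2 fun t => ?_
      refine ContinuousAt.comp (f := fun t : ℝ => (A : ℂ) + t * I + α) ?_ (by fun_prop)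
      refine (differentiableAt_Gamma _ fun m h => ?_).continuousAt
      have h3 := congrArg Complex.re h
      simp at h3
      have : (0 : ℝ) ≤ m := Nat.cast_nonneg m
      linarith
  obtain ⟨C3, hC3⟩ := (isCompact_Icc (a := -t₁) (b := t₁)).exists_bound_of_continuousOn
    hcont.continuousOn
  have hC30 : 0 ≤ C3 := (norm_nonneg _).trans (hC3 0 ⟨by rw [ht₁]; linarith [abs_nonneg α.im],
    by rw [ht₁]; linarith [abs_nonneg α.im]⟩)
  refine ⟨C3 + C1 * C2 * (1 + |α.im|) ^ (B1 + B2), B1 + B2, by positivity, by positivity,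
    fun t => ?_⟩
  have h1t : (1 : ℝ) ≤ (1 + |t|) ^ (B1 + B2) :=
    Real.one_le_rpow (by linarith [abs_nonneg t]) (by positivity)
  rcases le_or_gt |t| t₁ with ht | ht
  · calc _ ≤ C3 := hC3 t (abs_le.1 ht)
      _ ≤ (C3 + C1 * C2 * (1 + |α.im|) ^ (B1 + B2)) * 1 := by
          have : 0 ≤ C1 * C2 * (1 + |α.im|) ^ (B1 + B2) := by positivity
          linarith
      _ ≤ _ := by gcongr
  · have him : ∀ x : ℝ, ((x : ℂ) + t * I + α).im = t + α.im := by
      intro x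
      simp
    have hre : ∀ x : ℝ, ((x : ℂ) + t * I + α).re = x + α.re := by
      intro x
      simp
    have h3 : 1 ≤ |t + α.im| := by
      have := abs_sub_abs_le_abs_sub t (-α.im)
      rw [sub_neg_eq_add, abs_neg] at this
      rw [ht₁] at ht
      linarith
    have e1 := h1 ((A : ℂ) + t * I + α) (by rw [hre]) (by rw [hre]) (by rw [him]; exact h3)
    have e2 := h2 (((1 - A : ℝ) : ℂ) + t * I + α) (by rw [hre]) (by rw [hre])
      (by rw [him]; exact h3)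
    rw [him] at e1 e2
    have h5 : |t + α.im| ≤ (1 + |α.im|) * (1 + |t|) := by
      have := abs_add_le t α.im
      nlinarith [abs_nonneg t, abs_nonneg α.im]
    rw [norm_mul]
    calc _ ≤ (C2 * |t + α.im| ^ B2 * Real.exp (Real.pi / 2 * |t + α.im|)) *
          (C1 * |t + α.im| ^ B1 * Real.exp (-(Real.pi / 2 * |t + α.im|))) := by
          gcongr
      _ = C1 * C2 * |t + α.im| ^ (B1 + B2) := by
          rw [Real.rpow_add (by linarith)]
          have : Real.exp (Real.pi / 2 * |t + α.im|) * Real.exp (-(Real.pi / 2 * |t + α.im|)) = 1 := by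
            rw [← Real.exp_add]; simp
          linear_combination (C1 * C2 * |t + α.im| ^ B1 * |t + α.im| ^ B2) * this
      _ ≤ C1 * C2 * ((1 + |α.im|) * (1 + |t|)) ^ (B1 + B2) := by
          gcongr
      _ = C1 * C2 * (1 + |α.im|) ^ (B1 + B2) * (1 + |t|) ^ (B1 + B2) := by
          rw [Real.mul_rpow (by positivity) (by positivity)]
          ring
      _ ≤ _ := by
          gcongr
          linarith

theorem v1_lser {a : ℕ → ℂ} {A₀ A : ℝ} (h : LSeriesSummable a A₀) (hA : A₀ ≤ A) :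
    ∃ C : ℝ, 0 ≤ C ∧ ∀ t : ℝ, ‖LSeries a ((A : ℂ) + t * I)‖ ≤ C := by
  have h0 : LSeriesSummable a A := h.of_re_le_re (by simpa using hA)
  refine ⟨∑' n, ‖LSeries.term a A n‖, tsum_nonneg fun _ => norm_nonneg _, fun t => ?_⟩
  have h1 : ∀ n, ‖LSeries.term a ((A : ℂ) + t * I) n‖ = ‖LSeries.term a A n‖ := by
    intro n
    rw [LSeries.norm_term_eq, LSeries.norm_term_eq]
    simp
  unfold LSeries
  refine (norm_tsum_le_tsum_norm ?_).trans (le_of_eq (tsum_congr h1))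
  have h2 : Summable fun n => ‖LSeries.term a A n‖ := h0.norm
  simpa only [h1] using h2

theorem lf_poly {q : ℕ} {ν : ℂ} (had : Ad q ν) {a : ℕ → ℂ} {Λ Lf : ℂ → ℂ} (h : Pk q ν a Λ)
    (hfe : ∃ θ : ℂ, ‖θ‖ = 1 ∧ ∀ z : ℂ, Λ (1 - z) = θ * (starRingEnd ℂ) (Λ ((starRingEnd ℂ) z)))
    {Q : ℝ} {c₀ : ℂ} (hQ : 0 < Q) (hc : c₀ ≠ 0) (hd : Differentiable ℂ Lf)
    (hL : ∀ z : ℂ, 1 / 2 ≤ z.re → Λ z = c₀ * (Q : ℂ) ^ z *
        (Gamma (z + (q + ν) / 2) * Gamma (z + (q - ν) / 2)) * Lf z) (y : ℝ) :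
    ∃ C B : ℝ, 0 ≤ C ∧ 0 ≤ B ∧ ∀ z : ℂ, 1 / 2 ≤ z.re → z.re ≤ y → 1 ≤ z.im →
      ‖Lf z‖ ≤ C * z.im ^ B := by
  obtain ⟨L1, A₀, Q₁, c₁, hQ₁, hc₁, hA₀, hd₁, hs₁, hL₁, hΛ₁, hg₁⟩ := l_exists had h
  obtain ⟨θ, hθ, hfe⟩ := hfe
  have hqc : (Q : ℂ) ≠ 0 := by exact_mod_cast hQ.ne'
  have hqc₁ : (Q₁ : ℂ) ≠ 0 := by exact_mod_cast hQ₁.ne'
  have hν : |ν.re| < 1 := by
    rcases had with h | h
    · rw [h]; simp
    · exact h.2.2
  have hν' := abs_lt.1 hν
  have hq0 : (0 : ℝ) ≤ q := Nat.cast_nonneg q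
  have hre1 : ((((q : ℂ) + ν) / 2)).re = ((q : ℝ) + ν.re) / 2 := by
    have : ((q : ℂ) + ν) / 2 = ((((q : ℝ) : ℂ) + ν) * ((1 / 2 : ℝ) : ℂ)) := by push_cast; ring
    rw [this, re_mul_ofReal, add_re, ofReal_re]; ring
  have hre2 : ((((q : ℂ) - ν) / 2)).re = ((q : ℝ) - ν.re) / 2 := by
    have : ((q : ℂ) - ν) / 2 = ((((q : ℝ) : ℂ) - ν) * ((1 / 2 : ℝ) : ℂ)) := by push_cast; ring
    rw [this, re_mul_ofReal, sub_re, ofReal_re]; ring
  have hgam : ∀ z : ℂ, 1 / 2 ≤ z.re →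
      Gamma (z + (q + ν) / 2) ≠ 0 ∧ Gamma (z + (q - ν) / 2) ≠ 0 := by
    intro z hz
    constructor
    · refine Gamma_ne_zero_of_re_pos ?_
      rw [add_re, hre1]; linarith
    · refine Gamma_ne_zero_of_re_pos ?_
      rw [add_re, hre2]; linarith
  -- the two L-functions
  have dQ : ∀ {R : ℝ}, (R : ℂ) ≠ 0 → Differentiable ℂ (fun z : ℂ => (R : ℂ) ^ z) := fun hR z =>
    differentiableAt_id.const_cpow (Or.inl hR)
  have id1 : ∀ z : ℂ, c₀ * (Q : ℂ) ^ z * Lf z = c₁ * (Q₁ : ℂ) ^ z * L1 z :=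
    v1_id (f := fun z => c₀ * (Q : ℂ) ^ z * Lf z) (g := fun z => c₁ * (Q₁ : ℂ) ^ z * L1 z)
      (((dQ hqc).const_mul _).mul hd) (((dQ hqc₁).const_mul _).mul hd₁) fun z hz => by
      obtain ⟨g1, g2⟩ := hgam z hz
      have e1 := hL z hz
      rw [hΛ₁ z hz] at e1
      have g3 := mul_ne_zero g1 g2
      apply mul_right_cancel₀ g3
      linear_combination -e1
  have id2 : ∀ z : ℂ, (Gamma (z + (q + ν) / 2))⁻¹ * (Gamma (z + (q - ν) / 2))⁻¹ * Λ z =
      c₀ * (Q : ℂ) ^ z * Lf z :=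
    v1_id (f := fun z => (Gamma (z + (q + ν) / 2))⁻¹ * (Gamma (z + (q - ν) / 2))⁻¹ * Λ z)
      (g := fun z => c₀ * (Q : ℂ) ^ z * Lf z)
      (((differentiable_one_div_Gamma.comp (differentiable_id.add_const _)).mul
        (differentiable_one_div_Gamma.comp (differentiable_id.add_const _))).mul h.diff)
      (((dQ hqc).const_mul _).mul hd) fun z hz => by
      obtain ⟨g1, g2⟩ := hgam z hz
      rw [hL z hz]
      have e1 := inv_mul_cancel₀ g1
      have e2 := inv_mul_cancel₀ g2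
      linear_combination (c₀ * (Q : ℂ) ^ z * Lf z * (Gamma (z + (q - ν) / 2))⁻¹ *
        Gamma (z + (q - ν) / 2)) * e1 + (c₀ * (Q : ℂ) ^ z * Lf z) * e2
  have nQ : ∀ {R : ℝ} (z : ℂ), 0 < R → ‖(R : ℂ) ^ z‖ = R ^ z.re := fun z hR =>
    Complex.norm_cpow_eq_rpow_re_of_pos hR z
  -- the right line
  set A : ℝ := max A₀ (max y 1) with hA
  have hA1 : A₀ ≤ A := le_max_left _ _
  have hA2 : y ≤ A := (le_max_left _ _).trans (le_max_right _ _)
  have hA3 : 1 ≤ A := (le_max_right _ _).trans (le_max_right _ _)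
  obtain ⟨S, hS0, hS⟩ := v1_lser hs₁ hA1
  have hLf : ∀ z : ℂ, ‖Lf z‖ = ‖c₀‖⁻¹ * ‖c₁‖ * (Q₁ ^ z.re / Q ^ z.re) * ‖L1 z‖ := by
    intro z
    have e1 := congrArg norm (id1 z)
    rw [norm_mul, norm_mul, norm_mul, norm_mul, nQ z hQ, nQ z hQ₁] at e1
    have h2 : 0 < Q ^ z.re := Real.rpow_pos_of_pos hQ _
    have h3 : 0 < ‖c₀‖ := norm_pos_iff.2 hc
    field_simp
    linear_combination e1
  set S' : ℝ := ‖c₀‖⁻¹ * ‖c₁‖ * (Q₁ ^ A / Q ^ A) * S with hS'
  have hS'0 : 0 ≤ S' := by positivity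
  have hright : ∀ t : ℝ, ‖Lf ((A : ℂ) + t * I)‖ ≤ S' := by
    intro t
    have e1 : ((A : ℂ) + t * I).re = A := by simp
    rw [hLf, e1, hL₁ _ (by rw [e1]; exact hA1), hS']
    have := hS t
    gcongr
  -- the left line
  obtain ⟨C1, B1, hC1, hB1, h1⟩ := v1_quot (A := A) (by linarith) (α := ((q : ℂ) + ν) / 2)
    (by rw [hre1]; linarith)
  obtain ⟨C2, B2, hC2, hB2, h2⟩ := v1_quot (A := A) (by linarith) (α := ((q : ℂ) - ν) / 2)
    (by rw [hre2]; linarith)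
  set S2 : ℝ := Q ^ A / Q ^ (1 - A) * (C1 * C2 * S') with hS2
  have hleft : ∀ t : ℝ, ‖Lf (((1 - A : ℝ) : ℂ) + t * I)‖ ≤ S2 * (1 + |t|) ^ (B1 + B2) := by
    intro t
    set z : ℂ := ((1 - A : ℝ) : ℂ) + t * I with hz
    set w : ℂ := (A : ℂ) + t * I with hw
    have hzr : z.re = 1 - A := by simp [hz]
    have hwr : w.re = A := by simp [hw]
    have e0 : ‖Λ z‖ = ‖Λ w‖ := by
      have e1 := hfe ((A : ℂ) - t * I)
      have e2 : 1 - ((A : ℂ) - t * I) = z := by rw [hz]; push_cast; ring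
      have e3 : (starRingEnd ℂ) ((A : ℂ) - t * I) = w := by
        rw [hw, map_sub, map_mul, conj_I, conj_ofReal, conj_ofReal]; ring
      rw [e2, e3] at e1
      rw [e1, norm_mul, hθ, one_mul, Complex.norm_conj]
    have e4 := congrArg norm (id2 z)
    rw [norm_mul, norm_mul, norm_mul, norm_mul, nQ z hQ, hzr, e0, hL w (by rw [hwr]; linarith),
      norm_mul, norm_mul, norm_mul, norm_mul, nQ w hQ, hwr] at e4
    have h3 : 0 < ‖c₀‖ := norm_pos_iff.2 hc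
    have h4 : 0 < Q ^ (1 - A) := Real.rpow_pos_of_pos hQ _
    have h5 := h1 t
    have h6 := h2 t
    rw [← hz, ← hw, norm_mul] at h5 h6
    have h7 := hright t
    rw [← hw] at h7
    have e5 : ‖Lf z‖ = Q ^ A / Q ^ (1 - A) *
        ((‖(Gamma (z + (q + ν) / 2))⁻¹‖ * ‖Gamma (w + (q + ν) / 2)‖) *
        (‖(Gamma (z + (q - ν) / 2))⁻¹‖ * ‖Gamma (w + (q - ν) / 2)‖) * ‖Lf w‖) := by
      field_simp
      field_simp at e4
      linear_combination -e4
    rw [e5, hS2]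
    calc _ ≤ Q ^ A / Q ^ (1 - A) * ((C1 * (1 + |t|) ^ B1) * (C2 * (1 + |t|) ^ B2) * S') := by
          gcongr
      _ = _ := by
          rw [Real.rpow_add (by positivity)]
          ring
  -- growth
  obtain ⟨C₀, hC₀⟩ := hg₁ 1 (1 - A) A one_pos
  have hpw : ∃ P : ℝ, 0 ≤ P ∧ ∀ x : ℝ, 1 - A ≤ x → x ≤ A → Q₁ ^ x / Q ^ x ≤ P := by
    have hc : ContinuousOn (fun x : ℝ => Q₁ ^ x / Q ^ x) (Icc (1 - A) A) := by
      refine ContinuousOn.div ?_ ?_ fun x _ => (Real.rpow_pos_of_pos hQ x).ne'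
      · exact (Real.continuous_const_rpow hQ₁.ne').continuousOn
      · exact (Real.continuous_const_rpow hQ.ne').continuousOn
    obtain ⟨P, hP⟩ := isCompact_Icc.exists_bound_of_continuousOn hc
    refine ⟨max P 0, le_max_right _ _, fun x h1 h2 => ?_⟩
    exact ((le_abs_self _).trans (hP x ⟨h1, h2⟩)).trans (le_max_left _ _)
  obtain ⟨P, hP0, hP⟩ := hpw
  have hgr : ∀ z : ℂ, 1 - A ≤ z.re → z.re ≤ A →
      ‖Lf z‖ ≤ (‖c₀‖⁻¹ * ‖c₁‖ * P * |C₀|) * Real.exp |z.im| := by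
    intro z h1 h2
    rw [hLf]
    have e1 := hC₀ z h1 h2
    have e2 := hP z.re h1 h2
    rw [one_mul] at e1
    calc _ ≤ ‖c₀‖⁻¹ * ‖c₁‖ * P * (|C₀| * Real.exp |z.im|) := by
          have : C₀ * Real.exp |z.im| ≤ |C₀| * Real.exp |z.im| := by
            gcongr
            exact le_abs_self _
          gcongr
          exact e1.trans this
      _ = _ := by ring
  set M : ℝ := max S' |S2| with hM
  have hp1 : ∀ t : ℝ, (1 : ℝ) ≤ (1 + |t|) ^ (B1 + B2) := fun t =>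
    Real.one_le_rpow (by linarith [abs_nonneg t]) (by positivity)
  have hM0 : 0 ≤ M := hS'0.trans (le_max_left _ _)
  obtain ⟨C', hC'0, hC'⟩ := Pool.Agent.HQ.pl_strip hd (x := 1 - A) (y := A) (by linarith)
    (C₀ := ‖c₀‖⁻¹ * ‖c₁‖ * P * |C₀|) hgr (C := M) (B := B1 + B2) (by positivity)
    (fun t => (hleft t).trans (by
      have h3 : S2 ≤ M := (le_abs_self _).trans (le_max_right _ _)
      have h4 := hp1 t
      gcongr))
    (fun t => (hright t).trans (by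
      have h3 : S' ≤ M := le_max_left _ _
      have h4 := hp1 t
      calc S' ≤ M * 1 := by linarith
        _ ≤ _ := by gcongr))
  refine ⟨C' * 2 ^ (B1 + B2), B1 + B2, by positivity, by positivity, fun z h1 h2 h3 => ?_⟩
  refine (hC' z (by linarith) (by linarith)).trans ?_
  rw [abs_of_pos (by linarith : (0 : ℝ) < z.im), mul_assoc,
    ← Real.mul_rpow (by norm_num) (by linarith)]
  gcongr
  linarith

end Pool.Agent.HI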