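import Pool.Agent.Lib_helper25.HIF.DX
import Pool.Agent.Lib_helper98.HNF.QH

/-!
# Project HI, block V2: the mean values over the windows `(T, (1+ε)T)` (proof of HNF.QH)
-/

set_option autoImplicit false

namespace Pool.Agent.HI
open Complex MeasureTheory Filter Topology
open Pool.Agent.H4 (FunBd atl)
open Pool.Agent.HQ

theorem win_lim2 {a : ℕ → ℂ} {Lf : ℂ → ℂ} (hd : Differentiable ℂ Lf)
    (hs : ∃ A : ℝ, 1 / 2 < A ∧ LSeriesSummable a A ∧ ∀ z : ℂ, A ≤ z.re → Lf z = LSeries a z)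
    (hg : ∀ y : ℝ, ∃ C B : ℝ, 0 ≤ C ∧ 0 ≤ B ∧ ∀ z : ℂ, 1 / 2 ≤ z.re → z.re ≤ y → 1 ≤ z.im →
      ‖Lf z‖ ≤ C * z.im ^ B) {ε : ℝ} (hε : 0 < ε) {r : ℝ} (hr : 0 < r) :
    Tendsto (fun T : ℝ => (T : ℂ)⁻¹ * ∫ t : ℝ, Lf (1 / 2 + t * I) *
      cexp ((t * Real.log r : ℝ) * I) * ((bp ((t - T) / (ε * T)) : ℝ) : ℂ)) atTop
      (𝓝 (((ε * ∫ u : ℝ, bp u : ℝ) : ℂ) * atl a r)) := by
  obtain ⟨A, hA, hs, hL⟩ := hs
  obtain ⟨C, B, hC0, hB0, hg⟩ := hg A
  have hF : Differentiable ℂ (qhf Lf r) := by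
    have := hd
    unfold qhf
    fun_prop
  have hexp : ∀ s : ℂ, 1 / 2 ≤ s.re → s.re ≤ A → ‖cexp ((s - 1 / 2) * Real.log r)‖ ≤
      Real.exp ((A - 1 / 2) * |Real.log r|) := by
    intro s h1 h2
    rw [Complex.norm_exp]
    refine Real.exp_le_exp.mpr ?_
    have : ((s - 1 / 2) * (Real.log r : ℂ)).re = (s.re - 1 / 2) * Real.log r := by simp
    rw [this]
    calc (s.re - 1 / 2) * Real.log r ≤ (s.re - 1 / 2) * |Real.log r| :=
          mul_le_mul_of_nonneg_left (le_abs_self _) (by linarith)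
      _ ≤ (A - 1 / 2) * |Real.log r| := mul_le_mul_of_nonneg_right (by linarith) (abs_nonneg _)
  obtain ⟨M, hM⟩ := win_shift hF (x := 1 / 2) (A := A) hA.le
    (C := C * Real.exp ((A - 1 / 2) * |Real.log r|)) hB0 (fun s h1 h2 h3 => by
      unfold qhf
      rw [norm_mul]
      have h4 := mul_le_mul (hg s h1 h2 h3) (hexp s h1 h2) (norm_nonneg _)
        (mul_nonneg hC0 (Real.rpow_nonneg (by linarith) _))
      refine h4.trans (le_of_eq (by ring)))
    (C' := (∑' n : ℕ, ‖LSeries.term a (A : ℂ) n‖) * Real.exp ((A - 1 / 2) * |Real.log r|))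
    (fun t _ => by
      unfold qhf
      rw [norm_mul]
      refine mul_le_mul ?_ (hexp _ (by simpa using hA.le) (by simp)) (norm_nonneg _)
        (tsum_nonneg fun _ => norm_nonneg _)
      rw [hL _ (by simp), LSeries]
      refine (norm_tsum_le_tsum_norm ?_).trans (le_of_eq ?_)
      · refine hs.norm.congr fun n => ?_
        rw [Pool.Agent.H4.li_term, norm_mul, Complex.norm_exp_ofReal_mul_I, mul_one]
      · refine tsum_congr fun n => ?_
        rw [Pool.Agent.H4.li_term, norm_mul, Complex.norm_exp_ofReal_mul_I, mul_one]) hε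
  set c : ℂ := ((ε * ∫ u : ℝ, bp u : ℝ) : ℂ) with hc
  -- the main term
  have hmain : Tendsto (fun T : ℝ => (T : ℂ)⁻¹ *
      ∫ t : ℝ, qhf Lf r ((A : ℂ) + t * I) * ((bp ((t - T) / (ε * T)) : ℝ) : ℂ)) atTop
      (𝓝 (c * atl a r)) := by
    rw [← Pool.Agent.H4.li_val a A hr c]
    have h1 : Tendsto (fun T : ℝ => ∑' n : ℕ, LSeries.term a (A : ℂ) n * ((T : ℂ)⁻¹ * ∫ t : ℝ,
        cexp ((t * (Real.log r - Real.log n) : ℝ) * I) * ((bp ((t - T) / (ε * T)) : ℝ) : ℂ)))
        atTop (𝓝 (∑' n : ℕ, LSeries.term a (A : ℂ) n *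
          (if Real.log r - Real.log n = 0 then c else 0))) := by
      refine tendsto_tsum_of_dominated_convergence (bound := fun n =>
        ‖LSeries.term a (A : ℂ) n‖ * (ε * ∫ u : ℝ, bp u)) (hs.norm.mul_right _) ?_ ?_
      · intro n
        exact (win_osc hε (Real.log r - Real.log n)).const_mul _
      · filter_upwards [eventually_gt_atTop 0] with T hT n
        rw [norm_mul, norm_mul, norm_inv, norm_real, Real.norm_of_nonneg hT.le]
        refine mul_le_mul_of_nonneg_left ?_ (norm_nonneg _)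
        have h2 := norm_integral_le_integral_norm (μ := (volume : Measure ℝ)) (fun t : ℝ =>
          cexp ((t * (Real.log r - Real.log n) : ℝ) * I) * ((bp ((t - T) / (ε * T)) : ℝ) : ℂ))
        rw [qh_norm hε hT] at h2
        calc T⁻¹ * _ ≤ T⁻¹ * (ε * T * ∫ u : ℝ, bp u) :=
              mul_le_mul_of_nonneg_left h2 (inv_nonneg.2 hT.le)
          _ = ε * ∫ u : ℝ, bp u := by field_simp
    refine (h1.mul_const (cexp (((A - 1 / 2) * Real.log r : ℝ)))).congr' ?_
    filter_upwards [eventually_gt_atTop 0] with T hT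
    rw [qh_line hs hL r hε hT, ← mul_assoc, ← tsum_mul_left]
    congr 1
    refine tsum_congr fun n => ?_
    ring
  have hdiff : Tendsto (fun T : ℝ => (T : ℂ)⁻¹ *
      ((∫ t : ℝ, qhf Lf r (((1 / 2 : ℝ) : ℂ) + t * I) * ((bp ((t - T) / (ε * T)) : ℝ) : ℂ)) -
      ∫ t : ℝ, qhf Lf r ((A : ℂ) + t * I) * ((bp ((t - T) / (ε * T)) : ℝ) : ℂ))) atTop (𝓝 0) := by
    refine squeeze_zero_norm' (a := fun T : ℝ => T⁻¹ * M) ?_ ?_
    · filter_upwards [eventually_ge_atTop 1] with T hT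
      rw [norm_mul, norm_inv, norm_real, Real.norm_of_nonneg (by linarith)]
      exact mul_le_mul_of_nonneg_left (hM T hT) (inv_nonneg.2 (by linarith))
    · have := tendsto_inv_atTop_zero.mul_const M
      rwa [zero_mul] at this
  have hsum := hdiff.add hmain
  rw [zero_add] at hsum
  refine hsum.congr fun T => ?_
  rw [← mul_add, sub_add_cancel]
  simp_rw [qh_half]

end Pool.Agent.HI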