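import Pool.Agent.Lib_helper25.HIF.DX
import Pool.Agent.Lib_helper25.HIF.FY
import Pool.Agent.Lib_helper25.HIF.L8
import Pool.Agent.Lib_helper25.HIF.LG
import Pool.Agent.Lib_helper25.HIF.V1
import Pool.Agent.Lib_helper25.HIF.V2
import Pool.Agent.Lib_helper25.HIF.DXL
import Pool.Agent.Lib_helper98.HNF.QI

/-! HI, block L9: the functional is bounded (windows `(T, (1+e)T)`). Uses `l_exists` (LG),
`lf_poly` (V1), `win_lim2` (V2), `mom_l` (L8), `HQ.sign_const_on` (HNF.QA), `HQ.qi_main` (HNF.QI)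
and `FY.fy_ne` (my block FY). -/

namespace Pool.Agent.HI
open NumberField Complex MeasureTheory Set Filter Topology
open Pool.Agent.HB (Kb Adm)
open Pool.Agent.H4 (ml atl FunBd vcf)
open Pool.Agent.HQ (bp)
open Pool.Agent.HI

/-- the weight -/
noncomputable def l9w (e T t : ℝ) : ℝ := bp ((t - T) / (e * T))

theorem l9w_cont (e T : ℝ) : Continuous (l9w e T) := by
  have hbc : Continuous bp := Pool.Agent.HQ.bp_contDiff.continuous
  unfold l9w
  exact hbc.comp (by fun_prop)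

theorem l9w_supp {e T : ℝ} (he : 0 < e) (hT : 0 < T) : HasCompactSupport (l9w e T) := by
  have hsc : (0 : ℝ) < e * T := by positivity
  have h1 : l9w e T =
      bp ∘ ((Homeomorph.addRight (-T)).trans
        (Homeomorph.mulRight₀ (e * T)⁻¹ (inv_ne_zero hsc.ne'))) := by
    funext t
    simp [l9w, div_eq_mul_inv, sub_eq_add_neg]
  rw [h1]
  exact Pool.Agent.HQ.bp_supp.comp_homeomorph _

theorem fun_bd_l {q : ℕ} {ν : ℂ} (had : Ad q ν) {a : ℕ → ℂ} {Λ : ℂ → ℂ} (h : PkL q ν a Λ)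
    (ha : a 1 ≠ 0) {e : ℝ} (he : 0 < e)
    (hT : ∀ T₀ : ℝ, ∃ T : ℝ, T₀ ≤ T ∧ ∀ t : ℝ, T < t → t < (1 + e) * T →
      ¬ Odd (analyticOrderNatAt Λ (1 / 2 + t * I))) :
    ∃ C : ℝ, FunBd a C := by
  obtain ⟨Lf, A, Q, c₀, hQ, hc, hA, hd, hs, hLf, hL, hg⟩ := l_exists had h.pk
  obtain ⟨ω, hω, hreal⟩ := h.pk.real
  have hω0 : ω ≠ 0 := by
    rw [← norm_pos_iff, hω]; exact one_pos
  have hne := Pool.Agent.HI.fy_ne had ha hQ hc hs hLf hL
  obtain ⟨C₁, T₁, hT₁, hwin⟩ := h.win e he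
  obtain ⟨c₂, T₂, hc₂, hT₂, hmom⟩ := mom_l had hQ hc h.pk.diff hd hL he
  choose T hTa hTb using fun n : ℕ => hT (max (n : ℝ) (max T₁ T₂))
  have hTn : ∀ n : ℕ, (n : ℝ) ≤ T n := fun n => (le_max_left _ _).trans (hTa n)
  have hTT₁ : ∀ n, T₁ ≤ T n := fun n =>
    ((le_max_left _ _).trans (le_max_right _ _)).trans (hTa n)
  have hTT₂ : ∀ n, T₂ ≤ T n := fun n =>
    ((le_max_right _ _).trans (le_max_right _ _)).trans (hTa n)
  have hT0 : ∀ n, 0 < T n := fun n => by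
    have := hTT₁ n
    linarith
  have hTt : Tendsto T atTop atTop := tendsto_atTop_mono hTn tendsto_natCast_atTop_atTop
  have hmain : ∀ n, ∫ t : ℝ, ‖Lf (1 / 2 + t * I)‖ * l9w e (T n) t ≤ |C₁| / c₂ * T n := by
    intro n
    obtain ⟨σ, hσ, hsig⟩ := Pool.Agent.HQ.sign_const_on h.pk.diff hne hω0 hreal (hTb n)
    have h1 := hwin (T n) σ (hTT₁ n) hσ hsig
    have h2 := hmom (T n) (hTT₂ n)
    have h3 : c₂ * ∫ t : ℝ, ‖Lf (1 / 2 + t * I)‖ * l9w e (T n) t ≤ T n * |C₁| := by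
      refine h2.trans ?_
      exact mul_le_mul_of_nonneg_left (h1.trans (le_abs_self _)) (hT0 n).le
    rw [div_mul_eq_mul_div, le_div_iff₀ hc₂, mul_comm, mul_comm |C₁|]
    exact h3
  refine ⟨_, Pool.Agent.HQ.qi_main (T := T) (w := fun n => l9w e (T n))
    (c := e * ∫ u : ℝ, bp u) hd.continuous hT0 hTt (fun n => l9w_cont _ _)
    (fun n => l9w_supp he (hT0 n)) (fun n t => Pool.Agent.HQ.bp_nonneg _)
    (mul_pos he Pool.Agent.HQ.bp_pos) hmain (fun r hr => ?_)⟩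
  have hpoly := lf_poly had h.pk h.fe hQ hc hd hL
  have hlim := win_lim2 hd ⟨A, hA, hs, hLf⟩ hpoly he hr
  exact hlim.comp hTt


end Pool.Agent.HI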