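import Pool.Agent.Lib_helper25.HIF.DX
import Pool.Agent.Lib_helper25.HIF.AM
import Pool.Agent.Lib_helper25.HIF.AN
import Pool.Agent.Lib_helper25.HIF.Fa
import Pool.Agent.Lib_helper25.HIF.Fb
import Pool.Agent.Lib_helper25.HIF.Fc
import Pool.Agent.Lib_helper25.HIF.L1
import Pool.Agent.Lib_helper25.HIF.L7
import Pool.Agent.Lib_helper25.HIF.L9
import Pool.Agent.Lib_helper25.HIF.PK
import Pool.Agent.Lib_helper25.HIF.ST
import Pool.Agent.Lib_helper25.HIF.DXL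

/-! # Project HI: the final assembly, windows `(T, (1+e)T)` -/

namespace Pool.Agent.HI

open NumberField Complex MeasureTheory IsDedekindDomain Filter Topology
open scoped nonZeroDivisors MatrixGroups
open Pool.Agent.HSG (Lat Pr IsInt nI prI DD nm wm dgm dt qP NCl IsRepQ)
open Pool.Agent.HSG.LV (Pt Tp Ts Sc Cp Dv Prim sS sZ ptS ptZ pI Res Gal gI gP wP omF lamF oA)
open Pool.Agent.H4 (NI PI blw ml FunBd)
open Pool.Agent.HNA (HekN aN)
open Pool.Agent.HSG.N (lamI idOf tO idT)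

variable {K : Type} [Field K] [NumberField K] {s : K →+* ℂ}

theorem half_conj (t : ℝ) : (starRingEnd ℂ) (1 / 2 + (t : ℂ) * Complex.I) =
    1 / 2 + ((-1 * t : ℝ) : ℂ) * Complex.I := by
  have h2 : (starRingEnd ℂ) (2 : ℂ) = 2 := map_ofNat _ 2
  simp [h2]

/-- the package for the windows, in both directions -/
theorem lt_pkl (S : IQ s) {q : ℕ} {ν : ℂ} (had : Ad q ν) {ι : Type} [Fintype ι]
    {c c' : ι → K → ℂ} (h : ∀ k, DP s q ν (c k) (c' k)) (β δ : ι → ℝ) {a : ℕ → ℂ} {θ : ℂ}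
    (hθ : ‖θ‖ = 1) (hfe : ∀ z : ℂ, Lt s q ν β δ c (1 - z) =
      θ * (starRingEnd ℂ) (Lt s q ν β δ c ((starRingEnd ℂ) z)))
    (hser : ∃ (A Q : ℝ) (c₀ : ℂ), 0 < Q ∧ c₀ ≠ 0 ∧ LSeriesSummable a A ∧ ∀ z : ℂ, A ≤ z.re →
      Lt s q ν β δ c z = c₀ * (Q : ℂ) ^ z *
        (Gamma (z + (q + ν) / 2) * Gamma (z + (q - ν) / 2)) * LSeries a z) :
    PkL q ν a (Lt s q ν β δ c) ∧ PkL q ν (fun n => (starRingEnd ℂ) (a n))
      (fun z => (starRingEnd ℂ) (Lt s q ν β δ c ((starRingEnd ℂ) z))) := by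
  obtain ⟨P1, P2⟩ := lt_pk S had h β δ hθ hfe hser
  refine ⟨⟨P1, ⟨θ, hθ, hfe⟩, fun e he => ?_⟩, ⟨P2, ⟨(starRingEnd ℂ) θ, ?_, fun z => ?_⟩,
    fun e he => ?_⟩⟩
  · obtain ⟨C, T₀, h1, h2⟩ := star_l S had h β δ (e₀ := 1) (Or.inl rfl) he
    refine ⟨C, T₀, h1, fun T w hT hw hs => ?_⟩
    have := h2 T w hT hw (fun t ht ht' => by
      rw [one_mul]
      exact hs t ht ht')
    simpa only [one_mul] using this
  · rw [Complex.norm_conj]
    exact hθ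
  · show (starRingEnd ℂ) (Lt s q ν β δ c ((starRingEnd ℂ) (1 - z))) = (starRingEnd ℂ) θ *
      (starRingEnd ℂ) ((starRingEnd ℂ) (Lt s q ν β δ c ((starRingEnd ℂ) ((starRingEnd ℂ) z))))
    rw [map_sub, map_one, hfe, map_mul]
  · obtain ⟨C, T₀, h1, h2⟩ := star_l S had h β δ (e₀ := -1) (Or.inr rfl) he
    refine ⟨C, T₀, h1, fun T w hT hw hs => ?_⟩
    have h3 := h2 T ((starRingEnd ℂ) w) hT (by rw [Complex.norm_conj]; exact hw) (fun t ht ht' => by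
      have h4 := congrArg (starRingEnd ℂ) (hs t ht ht')
      rw [Complex.conj_ofReal, map_mul, Complex.conj_conj, half_conj, Complex.norm_conj] at h4
      exact h4)
    refine le_trans (le_of_eq ?_) h3
    refine integral_congr_ae (Filter.Eventually.of_forall fun t => ?_)
    show ‖(starRingEnd ℂ) (Lt s q ν β δ c ((starRingEnd ℂ) (1 / 2 + (t : ℂ) * Complex.I)))‖ * _ * _
      = _
    rw [Complex.norm_conj, half_conj]

section main

variable {q : ℕ} {ν : ℂ} {n : HSG.Id K}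

/-- the main theorem with windows for a system of coefficients -/
theorem i_core_l (S : IQ s) [Fintype (NCl K)] (had : Ad q ν) {L : HSG.Id K → ℂ} {W : ℂ}
    (hA : (∀ m, ¬ IsInt m → nA L m = 0) ∧ ∃ C : ℝ, ∀ m, ‖nA L m‖ ≤ C)
    (hdp : ∀ b, DP s q ν (cS (nA L) b) (cZ n (fun m => W * (starRingEnd ℂ) (nA L m)) b))
    {OM : HSG.Id K → ℂ} (hH : HekN (lamI L) (lamI OM))
    (hml : ¬ ∀ i ∈ Finset.Icc 1 4, Summable (fun p : Nat.Primes => ml (aN (lamI L)) i p)) {e : ℝ}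
    (he : 0 < e) : ∃ T₀ : ℝ, ∀ T : ℝ, T₀ ≤ T →
      (∃ t : ℝ, T < t ∧ t < (1 + e) * T ∧
        Odd (analyticOrderNatAt (LT s q ν n (nA L)) (1 / 2 + t * I))) ∧
      ∃ t : ℝ, T < t ∧ t < (1 + e) * T ∧
        Odd (analyticOrderNatAt (LT s q ν n (nA L)) (1 / 2 - t * I)) := by
  have hd : Differentiable ℂ (LT s q ν n (nA L)) := lt_cont S had (fun κ => hdp (bo κ)) _ _
  have hfe := lt_fe S had hA hdp
  have ha1 : aN (lamI L) 1 = 1 := Pool.Agent.HNA.aN_one hH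
  have hθ : ‖(-1) ^ q * W‖ = 1 := theta_norm hfe (lt_ne S had hA ha1)
  have ham : ∀ i p m : ℕ, p.Prime → ¬ p ∣ m →
      aN (lamI L) (p ^ i * m) = aN (lamI L) (p ^ i) * aN (lamI L) m := fun i p m h2 h3 =>
    Pool.Agent.HNA.aN_mul hH (Nat.Coprime.pow_left i ((Nat.Prime.coprime_iff_not_dvd h2).mpr h3))
  have hser : ∃ (A Q : ℝ) (c₀ : ℂ), 0 < Q ∧ c₀ ≠ 0 ∧ LSeriesSummable (aN (lamI L)) A ∧
      ∀ z : ℂ, A ≤ z.re → LT s q ν n (nA L) z = c₀ * (Q : ℂ) ^ z *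
        (Gamma (z + (q + ν) / 2) * Gamma (z + (q - ν) / 2)) * LSeries (aN (lamI L)) z := by
    have hn := HSG.nI_pos n
    have hD : 0 < Dk K := Dk_pos
    refine ⟨2, √(nI n) * Dk K / (2 * Real.pi) ^ 2, hiC0 K q, by positivity, hiC0_ne S q, ?_, ?_⟩
    · exact (lt_ser (z := ((2 : ℝ) : ℂ)) (n := n) S had hA (by norm_num)).2.1
    · intro z hz
      exact (lt_ser S had hA (by linarith)).2.2.2
  obtain ⟨P1, P2⟩ := lt_pkl S had (fun κ : NCl K => hdp (bo κ)) _ _ hθ hfe hser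
  have hpos : ∃ T₀ : ℝ, ∀ T : ℝ, T₀ ≤ T → ∃ t : ℝ, T < t ∧ t < (1 + e) * T ∧
      Odd (analyticOrderNatAt (LT s q ν n (nA L)) (1 / 2 + t * I)) := by
    by_contra hcon
    push Not at hcon
    obtain ⟨C', hC⟩ := fun_bd_l had P1 (by rw [ha1]; exact one_ne_zero) he
      (fun T₀ => by
        obtain ⟨T, hT, h2⟩ := hcon T₀
        exact ⟨T, hT, fun t ht ht' => h2 t ht ht'⟩)
    exact hml fun i hi => Pool.Agent.H4.ml_summable hC ha1 (Finset.mem_Icc.mp hi).1 (ham i)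
  have hneg : ∃ T₀ : ℝ, ∀ T : ℝ, T₀ ≤ T → ∃ t : ℝ, T < t ∧ t < (1 + e) * T ∧
      Odd (analyticOrderNatAt (LT s q ν n (nA L)) (1 / 2 - t * I)) := by
    by_contra hcon
    push Not at hcon
    obtain ⟨C', hC⟩ := fun_bd_l had P2 (by rw [ha1]; simp) he
      (fun T₀ => by
        obtain ⟨T, hT, h2⟩ := hcon T₀
        refine ⟨T, hT, fun t ht ht' h5 => h2 t ht ht' ?_⟩
        have e1 := order_conj' hd (1 / 2 + (t : ℂ) * Complex.I)
        have e2 : (starRingEnd ℂ) (1 / 2 + (t : ℂ) * Complex.I) = 1 / 2 - (t : ℂ) * Complex.I := by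
          have h2 : (starRingEnd ℂ) (2 : ℂ) = 2 := map_ofNat _ 2
          simp [h2]
          ring
        rw [e2] at e1
        rw [← e1]
        exact h5)
    refine hml fun i hi => ?_
    have := Pool.Agent.H4.ml_summable hC (by rw [ha1]; simp) (Finset.mem_Icc.mp hi).1
      (fun p m h2 h3 => by rw [ham i p m h2 h3, map_mul])
    simpa only [ml_conj'] using this
  obtain ⟨T₁, hT₁⟩ := hpos
  obtain ⟨T₂, hT₂⟩ := hneg
  exact ⟨max T₁ T₂, fun T hT => ⟨hT₁ T (le_trans (le_max_left _ _) hT),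
    hT₂ T (le_trans (le_max_right _ _) hT)⟩⟩

variable {om : HSG.Id K → ℂ} {lam : Pr K → ℂ} {F : ℂ × ℝ → ℂ × ℂ → Pt n → ℂ}

theorem i_main_l (S : IQ s) (had : Ad q ν) (hn : IsInt n) (h : IEig s q ν n om lam F) :
    ∃ Λ : ℂ → ℂ, Differentiable ℂ Λ ∧
      (∀ z : ℂ, 3 / 2 < z.re → ∃ L : ℂ,
        HasProd (fun p : Pr K => (1 - lam p * (qP p : ℂ) ^ (-z) +
          wP n om p * (qP p : ℂ) ^ (-2 * z))⁻¹) L ∧
        Λ z = ((Dk K * √(nI n) : ℝ) : ℂ) ^ z * (2 * Real.pi : ℂ) ^ (-(2 * z)) *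
          (Gamma (z + (q + ν) / 2) * Gamma (z + (q - ν) / 2)) * L) ∧
      (∃ θ : ℂ, ‖θ‖ = 1 ∧ ∀ z, Λ (1 - z) = θ * (starRingEnd ℂ) (Λ ((starRingEnd ℂ) z))) ∧
      ∀ e : ℝ, 0 < e → ∃ T₀ : ℝ, ∀ T : ℝ, T₀ ≤ T →
        (∃ t : ℝ, T < t ∧ t < (1 + e) * T ∧ Odd (analyticOrderNatAt Λ (1 / 2 + t * I))) ∧
        ∃ t : ℝ, T < t ∧ t < (1 + e) * T ∧ Odd (analyticOrderNatAt Λ (1 / 2 - t * I)) := by
  have := HSG.LV.ncl_fin (K := K)
  let _ : Fintype (NCl K) := Fintype.ofFinite _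
  obtain ⟨c, W, hc, hA', hB'⟩ := eig_exp S had hn h
  set G : ℂ × ℝ → ℂ × ℂ → Pt n → ℂ := fun p u x => c * F p u x with hG
  set LM := lamF (wP n om) lam with hLM
  have hGf : IForm s q ν n om G := form_smul h.form c
  have hA : ICoS s q ν G (nA LM) := hA'
  have hB : ICoZ s q ν G (fun m => W * (starRingEnd ℂ) (nA LM m)) := by
    have e : (fun m => W * (starRingEnd ℂ) (nA LM m)) = fun m => W * starRingEnd ℂ (LM m) *
        ((nI m ^ (-(1 / 2) : ℝ) : ℝ) : ℂ) := by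
      funext m
      rw [nA, map_mul, Complex.conj_ofReal, mul_assoc]
    rw [e]
    exact hB'
  have hdp := form_dp S had hn hGf hA hB
  have hA2 : (∀ m, ¬ IsInt m → nA LM m = 0) ∧ ∃ C : ℝ, ∀ m, ‖nA LM m‖ ≤ C := ⟨hA.int, hA.bdd⟩
  have hH := hek hn h hA.bdd
  have hml := ml_div S had hn hGf h.unit hA hH
  obtain ⟨h1, ⟨θ, h2, h3⟩, -, -, -⟩ := i_core (n := n) S had hA2 hdp hH hml
  have hw := fun e (he : 0 < e) => i_core_l (n := n) S had hA2 hdp hH hml he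
  set Λ₀ := LT s q ν n (nA LM) with hΛ
  have hwK : (0 : ℝ) < (wK K : ℝ) := by
    have h8 : 0 < wK K := by
      rcases Nat.eq_zero_or_pos (wK K) with h9 | h9
      · exact absurd (by rw [h9]; simp) (wK_ne S)
      · exact h9
    exact_mod_cast h8
  have hD : 0 < Dk K := Dk_pos
  have hpi : (0 : ℝ) < 2 * Real.pi := by positivity
  have hn' := HSG.nI_pos n
  set r : ℝ := (1 / 4 * (2 * Real.pi) ^ (-(q : ℝ)) * (wK K : ℝ) * (Dk K) ^ (-(1 / 2) : ℝ)) with hr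
  have hr0 : 0 < r := by positivity
  have hrc : (r : ℂ) = hiC0 K q := by
    rw [hr, hiC0]
    push_cast
    rw [Complex.ofReal_cpow hpi.le, Complex.ofReal_cpow hD.le]
    push_cast
    rfl
  have hord : ∀ z : ℂ, analyticOrderNatAt (fun z => ((r⁻¹ : ℝ) : ℂ) * Λ₀ z) z =
      analyticOrderNatAt Λ₀ z := by
    intro z
    unfold analyticOrderNatAt
    congr 1
    have e1 : (fun z => ((r⁻¹ : ℝ) : ℂ) * Λ₀ z) = (fun _ => ((r⁻¹ : ℝ) : ℂ)) * Λ₀ := rfl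
    have e2 : analyticOrderAt (fun _ : ℂ => ((r⁻¹ : ℝ) : ℂ)) z = 0 := by
      rw [AnalyticAt.analyticOrderAt_eq_zero analyticAt_const]
      exact_mod_cast (inv_pos.2 hr0).ne'
    rw [e1, analyticOrderAt_mul analyticAt_const (h1.analyticAt z), e2, zero_add]
  refine ⟨fun z => ((r⁻¹ : ℝ) : ℂ) * Λ₀ z, h1.const_mul _, ?_, ⟨θ, h2, fun z => ?_⟩,
    fun e he => ?_⟩
  · intro z hz
    obtain ⟨h8, _, h9, h10⟩ := lt_ser (n := n) S had hA2 hz
    refine ⟨∑' m : HSG.Id K, LM m * ((nI m : ℝ) : ℂ) ^ (-z), HSG.LV.lamF_euler _ _ h8, ?_⟩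
    show ((r⁻¹ : ℝ) : ℂ) * Λ₀ z = _
    rw [hΛ, h10, h9, ← hrc]
    have e2 : ((√(nI n) * Dk K / (2 * Real.pi) ^ 2 : ℝ) : ℂ) ^ z =
        ((Dk K * √(nI n) : ℝ) : ℂ) ^ z * (2 * Real.pi : ℂ) ^ (-(2 * z)) := by
      have h4 : (√(nI n) * Dk K / (2 * Real.pi) ^ 2 : ℝ) =
          Dk K * √(nI n) * ((2 * Real.pi) ^ (-2 : ℝ)) := by
        rw [div_eq_mul_inv, mul_comm (√(nI n))]
        congr 1
        rw [Real.rpow_neg hpi.le]
        norm_num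
      rw [h4, Complex.ofReal_mul, mul_cpow_ofReal_nonneg (by positivity) (by positivity)]
      congr 1
      have h5 : (Complex.log ((2 * Real.pi : ℝ) : ℂ) * ((-2 : ℝ) : ℂ)).im = 0 := by
        rw [← Complex.ofReal_log (by positivity), ← Complex.ofReal_mul, Complex.ofReal_im]
      rw [Complex.ofReal_cpow (by positivity), ← Complex.cpow_mul z
        (by rw [h5]; linarith [Real.pi_pos]) (by rw [h5]; exact Real.pi_pos.le)]
      push_cast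
      ring_nf
    have hr1 : ((r⁻¹ : ℝ) : ℂ) * (r : ℂ) = 1 := by
      rw [← Complex.ofReal_mul, inv_mul_cancel₀ hr0.ne', Complex.ofReal_one]
    rw [e2]
    linear_combination (((Dk K * √(nI n) : ℝ) : ℂ) ^ z * (2 * Real.pi : ℂ) ^ (-(2 * z)) *
      (Gamma (z + (q + ν) / 2) * Gamma (z + (q - ν) / 2)) *
      (∑' m : HSG.Id K, LM m * ((nI m : ℝ) : ℂ) ^ (-z))) * hr1
  · show ((r⁻¹ : ℝ) : ℂ) * Λ₀ (1 - z) = θ * (starRingEnd ℂ) (((r⁻¹ : ℝ) : ℂ) *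
      Λ₀ ((starRingEnd ℂ) z))
    rw [h3 z, map_mul, Complex.conj_ofReal]
    ring
  · obtain ⟨T₀, hT₀⟩ := hw e he
    refine ⟨T₀, fun T hT => ?_⟩
    obtain ⟨⟨t, h4, h5, h6⟩, ⟨t', h7, h8, h9⟩⟩ := hT₀ T hT
    exact ⟨⟨t, h4, h5, by rw [hord]; exact h6⟩, ⟨t', h7, h8, by rw [hord]; exact h9⟩⟩

end main

end Pool.Agent.HI
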